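import Mathlib
import Pool.Agent.Lib.MP_8d8c46_lc.CW.SysDefs
import Pool.Agent.Lib.MP_8d8c46_lc.CW.Ops
import Pool.Agent.Lib.MP_8d8c46_lc.CW.EnDefs
import Pool.Agent.Lib.MP_8d8c46_lc.Pebble

section

/-!
# Campaign CW, task F3: Hoeffding bound for random right sides
-/

set_option autoImplicit false

open scoped Classical
open Finset

namespace Pool.Agent.Lib.MP_8d8c46_lc.CW

private theorem F3_factor (c l : ℝ) (hc : |c| ≤ 4) :
    Real.exp (l * c) + Real.exp (l * (-c)) ≤ 2 * Real.exp (8 * l ^ 2) := by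
  have h1 : Real.exp (l * c) + Real.exp (l * (-c)) = 2 * Real.cosh (l * c) := by
    rw [Real.cosh_eq]
    have : l * (-c) = -(l * c) := by ring
    rw [this]
    ring
  rw [h1]
  have h2 : Real.cosh (l * c) ≤ Real.exp ((l * c) ^ 2 / 2) := Real.cosh_le_exp_half_sq _
  have h3 : (l * c) ^ 2 / 2 ≤ 8 * l ^ 2 := by
    have h4 : c ^ 2 ≤ 16 := by
      have := sq_le_sq' (by linarith [abs_le.mp hc] : -(4 : ℝ) ≤ c) (abs_le.mp hc).2
      linarith
    have h5 : 0 ≤ l ^ 2 := sq_nonneg l
    nlinarith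
  have h6 : Real.exp ((l * c) ^ 2 / 2) ≤ Real.exp (8 * l ^ 2) := Real.exp_le_exp.mpr h3
  linarith

/-- PROOF. `λ = t / 16`. `∑ over b of exp (λ ∑ e, (4 - s e (b e))) = ∏ e, ∑ β : ZMod 2, exp (λ (4 - s e β))` (`Finset.prod_univ_sum` / `Fintype.piFinset_univ`), and with `c = 4 - s e 0` (`|c| ≤ 4`, `4 - s e 1 = -c`) the factor is `exp (λ c) + exp (- λ c) = 2 cosh (λ c) ≤ 2 exp ((λ c) ^ 2 / 2) ≤ 2 exp (8 λ ^ 2)`
(`Real.cosh_le_exp_half_sq`). For every `b` in the filter the summand is `≥ exp (λ t |E|)`. So the card is `≤ 2 ^ |E| * exp ((8 λ ^ 2 - λ t) |E|)`, and `8 λ ^ 2 - λ t = - t ^ 2 / 32`. -/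
theorem hoeff {E : Type} [Fintype E] (s : E → ZMod 2 → ℝ) (hs : ∀ e, s e 0 + s e 1 = 8) (h0 : ∀ e β, 0 ≤ s e β)
    {t : ℝ} (ht : 0 ≤ t) :
    ((univ.filter fun b : E → ZMod 2 => ∑ e, s e (b e) ≤ (4 - t) * Fintype.card E).card : ℝ) ≤
      2 ^ Fintype.card E * Real.exp (-(t ^ 2 * Fintype.card E / 32)) := by
  set l : ℝ := t / 16 with hl
  have hl0 : 0 ≤ l := by positivity
  -- the exponential moment
  have hmom : ∑ b : E → ZMod 2, Real.exp (l * ∑ e, (4 - s e (b e))) =
      ∏ e : E, ∑ β : ZMod 2, Real.exp (l * (4 - s e β)) := by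
    rw [Finset.prod_univ_sum, Fintype.piFinset_univ]
    refine Finset.sum_congr rfl fun b _ => ?_
    rw [Finset.mul_sum, Real.exp_sum]
  have hfac : ∀ e : E, ∑ β : ZMod 2, Real.exp (l * (4 - s e β)) ≤ 2 * Real.exp (8 * l ^ 2) := by
    intro e
    have hsum : ∑ β : ZMod 2, Real.exp (l * (4 - s e β)) =
        Real.exp (l * (4 - s e 0)) + Real.exp (l * (4 - s e 1)) := Fin.sum_univ_two _
    rw [hsum]
    have h1 : (4 - s e 1) = -(4 - s e 0) := by linarith [hs e]
    rw [h1]
    apply F3_factor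
    rw [abs_le]
    constructor
    · linarith [hs e, h0 e 1]
    · linarith [h0 e 0]
  have hprod : ∏ e : E, ∑ β : ZMod 2, Real.exp (l * (4 - s e β)) ≤
      (2 * Real.exp (8 * l ^ 2)) ^ Fintype.card E := by
    calc ∏ e : E, ∑ β : ZMod 2, Real.exp (l * (4 - s e β))
        ≤ ∏ _e : E, (2 * Real.exp (8 * l ^ 2)) :=
          Finset.prod_le_prod (fun e _ => Finset.sum_nonneg fun β _ => (Real.exp_pos _).le)
            fun e _ => hfac e
      _ = (2 * Real.exp (8 * l ^ 2)) ^ Fintype.card E := by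
          rw [Finset.prod_const, Finset.card_univ]
  set F : Finset (E → ZMod 2) :=
    univ.filter fun b : E → ZMod 2 => ∑ e, s e (b e) ≤ (4 - t) * Fintype.card E with hF
  have hlow : (F.card : ℝ) * Real.exp (l * (t * Fintype.card E)) ≤
      ∑ b : E → ZMod 2, Real.exp (l * ∑ e, (4 - s e (b e))) := by
    calc (F.card : ℝ) * Real.exp (l * (t * Fintype.card E))
        = ∑ _b ∈ F, Real.exp (l * (t * Fintype.card E)) := by
          rw [Finset.sum_const, nsmul_eq_mul]
      _ ≤ ∑ b ∈ F, Real.exp (l * ∑ e, (4 - s e (b e))) := by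
          refine Finset.sum_le_sum fun b hb => ?_
          apply Real.exp_le_exp.mpr
          apply mul_le_mul_of_nonneg_left _ hl0
          have hb' : ∑ e, s e (b e) ≤ (4 - t) * Fintype.card E := (Finset.mem_filter.mp hb).2
          rw [Finset.sum_sub_distrib, Finset.sum_const, Finset.card_univ, nsmul_eq_mul]
          linarith
      _ ≤ ∑ b : E → ZMod 2, Real.exp (l * ∑ e, (4 - s e (b e))) :=
          Finset.sum_le_sum_of_subset_of_nonneg (Finset.subset_univ _)
            fun b _ _ => (Real.exp_pos _).le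
  have hall : (F.card : ℝ) * Real.exp (l * (t * Fintype.card E)) ≤
      (2 * Real.exp (8 * l ^ 2)) ^ Fintype.card E := by
    rw [hmom] at hlow
    exact hlow.trans hprod
  have hrhs : (2 : ℝ) ^ Fintype.card E * Real.exp (-(t ^ 2 * Fintype.card E / 32)) *
      Real.exp (l * (t * Fintype.card E)) = (2 * Real.exp (8 * l ^ 2)) ^ Fintype.card E := by
    rw [mul_pow, ← Real.exp_nat_mul, mul_assoc, ← Real.exp_add]
    congr 2
    rw [hl]
    ring
  have hpos : 0 < Real.exp (l * (t * Fintype.card E)) := Real.exp_pos _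
  rw [← hrhs] at hall
  exact le_of_mul_le_mul_right hall hpos

end Pool.Agent.Lib.MP_8d8c46_lc.CW
end

section

/-!
# Campaign CW, task G2: a matching of the classes of two equivalence relations
-/

set_option autoImplicit false

open scoped Classical
open Finset

namespace Pool.Agent.Lib.MP_8d8c46_lc.CW

/-- The sum of `1 / (size of the class)` over the classes in `Z` is the number of classes in `Z`. -/
private theorem G2_sum_class {A : Type} [Fintype A] (s : Setoid A) (Z : Finset (Quotient s)) :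
    ∑ x ∈ univ.filter (fun x => Quotient.mk s x ∈ Z),
      (1 : ℚ) / ((univ.filter fun y => s y x).card : ℚ) = (Z.card : ℚ) := by
  have h1 : ∑ c ∈ Z, ∑ x ∈ (univ.filter (fun x => Quotient.mk s x ∈ Z)).filter
      (fun x => Quotient.mk s x = c), (1 : ℚ) / ((univ.filter fun y => s y x).card : ℚ)
      = ∑ x ∈ univ.filter (fun x => Quotient.mk s x ∈ Z),
      (1 : ℚ) / ((univ.filter fun y => s y x).card : ℚ) := by
    apply Finset.sum_fiberwise_of_maps_to
    intro x hx
    exact (Finset.mem_filter.mp hx).2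
  rw [← h1, Finset.card_eq_sum_ones, Nat.cast_sum]
  apply Finset.sum_congr rfl
  intro c hc
  obtain ⟨x0, rfl⟩ := Quotient.exists_rep c
  have h2 : (univ.filter (fun x => Quotient.mk s x ∈ Z)).filter
      (fun x => Quotient.mk s x = Quotient.mk s x0) = univ.filter fun x => s x x0 := by
    ext x
    simp only [Finset.mem_filter, Finset.mem_univ, true_and]
    constructor
    · rintro ⟨_, h⟩
      exact Quotient.exact h
    · intro h
      have h' : Quotient.mk s x = Quotient.mk s x0 := Quotient.sound h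
      exact ⟨by rw [h']; exact hc, h'⟩
  have h3 : ∀ x ∈ univ.filter (fun x => s x x0),
      (1 : ℚ) / ((univ.filter fun y => s y x).card : ℚ)
        = (1 : ℚ) / ((univ.filter fun y => s y x0).card : ℚ) := by
    intro x hx
    have hx' : s x x0 := (Finset.mem_filter.mp hx).2
    have h4 : (univ.filter fun y => s y x) = (univ.filter fun y => s y x0) := by
      ext y
      simp only [Finset.mem_filter, Finset.mem_univ, true_and]
      exact ⟨fun h => s.trans' h hx', fun h => s.trans' h (s.symm' hx')⟩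
    rw [h4]
  have h5 : (0 : ℚ) < ((univ.filter fun y => s y x0).card : ℚ) := by
    have : x0 ∈ univ.filter fun y => s y x0 :=
      Finset.mem_filter.mpr ⟨Finset.mem_univ _, s.refl' x0⟩
    exact_mod_cast Finset.card_pos.mpr ⟨x0, this⟩
  rw [h2, Finset.sum_congr rfl h3, Finset.sum_const, nsmul_eq_mul]
  field_simp
  simp

/-- PROOF. For classes `c` of `P` and `c'` of `Q` let `c ~ c'` if there is `x` in `c` with `e x` in `c'`; `t c` = finset of the `c'` with `c ~ c'`. `w x = 1 / (size of the class of x)` on `P`, the same on `Q`: `w (e x) = w x` by `hc`, and the sum of `w` over one class is `1`. For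
a set `Z` of classes of `P`: `card Z = ∑ over x in the classes of Z of w x = ∑ w (e x) ≤ ∑ over z in the classes of Z.biUnion t of w z = card (Z.biUnion t)` (`e` is injective, and `e x` is in a class in `t c` if `x` is in `c`). Hall's theorem
`Finset.all_card_le_biUnion_card_iff_exists_injective` gives an injective `φ` with `φ c ∈ t c`; `card (Quotient sP) = ∑ w x = ∑ w (e x) = card (Quotient sQ)`, so `φ` is bijective. -/
theorem hall_classes {P Q : Type} [Fintype P] [Fintype Q] (sP : Setoid P) (sQ : Setoid Q) (e : P ≃ Q)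
    (hc : ∀ x : P, (univ.filter fun y => sP y x).card = (univ.filter fun z => sQ z (e x)).card) :
    ∃ φ : Quotient sP ≃ Quotient sQ, ∀ c, ∃ x : P, Quotient.mk sP x = c ∧ Quotient.mk sQ (e x) = φ c := by
  let t : Quotient sP → Finset (Quotient sQ) := fun c =>
    univ.filter fun c' => ∃ x : P, Quotient.mk sP x = c ∧ Quotient.mk sQ (e x) = c'
  have hw : ∀ x : P, (1 : ℚ) / ((univ.filter fun y => sP y x).card : ℚ)
      = (1 : ℚ) / ((univ.filter fun z => sQ z (e x)).card : ℚ) := fun x => by rw [hc x]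
  have hall : ∀ Z : Finset (Quotient sP), Z.card ≤ (Z.biUnion t).card := by
    intro Z
    have h1 := G2_sum_class sP Z
    have h2 := G2_sum_class sQ (Z.biUnion t)
    have h3 : (Z.card : ℚ) ≤ ((Z.biUnion t).card : ℚ) := by
      rw [← h1, ← h2, Finset.sum_congr rfl fun x _ => hw x]
      have h4 : ∑ x ∈ univ.filter (fun x => Quotient.mk sP x ∈ Z),
          (1 : ℚ) / ((univ.filter fun z => sQ z (e x)).card : ℚ)
          = ∑ y ∈ (univ.filter (fun x => Quotient.mk sP x ∈ Z)).map e.toEmbedding,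
          (1 : ℚ) / ((univ.filter fun z => sQ z y).card : ℚ) := by
        rw [Finset.sum_map]
        rfl
      rw [h4]
      apply Finset.sum_le_sum_of_subset_of_nonneg
      · intro y hy
        obtain ⟨x, hx, rfl⟩ := Finset.mem_map.mp hy
        have hx' := (Finset.mem_filter.mp hx).2
        refine Finset.mem_filter.mpr ⟨Finset.mem_univ _, Finset.mem_biUnion.mpr
          ⟨Quotient.mk sP x, hx', ?_⟩⟩
        exact Finset.mem_filter.mpr ⟨Finset.mem_univ _, x, rfl, rfl⟩
      · intro y _ _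
        positivity
    exact_mod_cast h3
  obtain ⟨φ, hinj, hφ⟩ := (Finset.all_card_le_biUnion_card_iff_exists_injective t).mp hall
  have hcard : Fintype.card (Quotient sP) = Fintype.card (Quotient sQ) := by
    have h1 := G2_sum_class sP univ
    have h2 := G2_sum_class sQ univ
    have h3 : (Fintype.card (Quotient sP) : ℚ) = (Fintype.card (Quotient sQ) : ℚ) := by
      rw [← Finset.card_univ, ← Finset.card_univ, ← h1, ← h2]
      simp only [Finset.mem_univ, Finset.filter_true]
      rw [Finset.sum_congr rfl fun x _ => hw x]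
      exact Equiv.sum_comp e (fun y => (1 : ℚ) / ((univ.filter fun z => sQ z y).card : ℚ))
    exact_mod_cast h3
  have hbij : Function.Bijective φ :=
    (Fintype.bijective_iff_injective_and_card φ).mpr ⟨hinj, hcard⟩
  refine ⟨Equiv.ofBijective φ hbij, fun c => ?_⟩
  have := (Finset.mem_filter.mp (hφ c)).2
  exact this

end Pool.Agent.Lib.MP_8d8c46_lc.CW
end

section

/-!
# Campaign CW, task M1: measurable functions of a stable system (Lemma 2)
-/

set_option autoImplicit false

open scoped Classical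
open Finset

namespace Pool.Agent.Lib.MP_8d8c46_lc.CW

section
variable {r : ℕ} {X : Bool → Type} {G : ∀ i, SimpleGraph (X i)} [∀ i, Fintype (X i)]

/-- PROOF: the bijection `e` of `S.a1` (`i = j`, `t = t'`): `f (e w) = f w` and `(G i).Adj y w ↔ (G i).Adj z (e w)`; `Equiv.sum_comp e`. -/
theorem meas_Mo (S : Sys r X G) {i : Bool} {t : Fin r → X i} {f : X i → ℝ} (hf : Meas S i t f) (d : ℕ) :
    Meas S i t (Mo (G i) d f) := by
  intro y z hyz
  obtain ⟨e, he⟩ := S.a1 i i t t y z hyz
  unfold Mo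
  congr 1
  rw [← Equiv.sum_comp e (fun w => if (G i).Adj z w then f w else 0)]
  refine Finset.sum_congr rfl fun w _ => ?_
  have h1 : f w = f (e w) := hf w (e w) (he w).1
  by_cases h : (G i).Adj y w
  · rw [if_pos h, if_pos ((he w).2.1 h), h1]
  · rw [if_neg h, if_neg (fun h' => h ((he w).2.2 h'))]

theorem meas_Po (S : Sys r X G) {i : Bool} {t : Fin r → X i} {f : X i → ℝ} (hf : Meas S i t f) (d : ℕ)
    {U : Set (X i)} (hU : ∀ y z, S.c i t y = S.c i t z → (y ∈ U ↔ z ∈ U)) : Meas S i t (Po (G i) d U f) := by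
  intro y z hyz
  have h1 := meas_Mo S hf d y z hyz
  have h2 := hf y z hyz
  have h3 := hU y z hyz
  unfold Po
  by_cases h : y ∈ U
  · rw [if_pos h, if_pos (h3.1 h), h1, h2]
  · rw [if_neg h, if_neg (fun h' => h (h3.2 h'))]

/-- PROOF: `S.a4` in both directions. -/
theorem meas_pt (S : Sys r X G) {i : Bool} (t : Fin r → X i) (p : Fin r) : Meas S i t (pt (t p)) := by
  intro y z hyz
  unfold pt
  by_cases h : y = t p
  · rw [if_pos h, if_pos (S.a4 i t y z p hyz h)]
  · rw [if_neg h, if_neg (fun h' => h (S.a4 i t z y p hyz.symm h'))]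

/-- PROOF: `S.a3`. -/
theorem meas_mono (S : Sys r X G) {i : Bool} {t u : Fin r → X i} (h : ∀ p, ∃ q, t p = u q) {f : X i → ℝ}
    (hf : Meas S i t f) : Meas S i u f := by
  intro y z hyz
  exact hf y z (S.a3 i t u y z h hyz)

theorem mset_lev (S : Sys r X G) {i : Bool} {t : Fin r → X i} {f : X i → ℝ} (hf : Meas S i t f) (θ : ℝ) :
    MSet S i t (lev f θ) := by
  intro y z hyz hy
  unfold lev at hy ⊢
  simp only [Finset.mem_filter, Finset.mem_univ, true_and] at hy ⊢
  rw [← hf y z hyz]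
  exact hy

/-- PROOF: the bijection `f` of `S.a5`. `φ' = φ ∘ f.symm`; it is measurable: `S.c true t' y = S.c true t' z` gives
`S.c false t (f.symm y) = S.c false t (f.symm z)`. For `y` in `X false`, `S.a1` for `S.c false t y = S.c true t' (f y)` gives a bijection `e` with
`S.c false t z = S.c true t' (e z)` and `Adj y z ↔ Adj (f y) (e z)`; `φ (f.symm (e z)) = φ z`, so the sum of `φ'` over the neighbours of `f y` is the sum of `φ`
over the neighbours of `y`. Multiply by `φ y = φ' (f y)` and sum over `y`. -/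
theorem transfer (S : Sys r X G) {t : Fin r → X false} {φ : X false → ℝ} (hφ : Meas S false t φ) :
    ∃ f : X false ≃ X true, (∑ x, φ (f.symm x) = ∑ x, φ x) ∧
      qf (G true) (fun x => φ (f.symm x)) = qf (G false) φ := by
  obtain ⟨t', f, hf⟩ := S.a5 t
  refine ⟨f, Equiv.sum_comp f.symm φ, ?_⟩
  unfold qf
  rw [← Equiv.sum_comp f (fun x => ∑ y, if (G true).Adj x y then φ (f.symm x) * φ (f.symm y) else 0)]
  refine Finset.sum_congr rfl fun x _ => ?_
  obtain ⟨e, he⟩ := S.a1 false true t t' x (f x) (hf x)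
  rw [← Equiv.sum_comp e (fun y => if (G true).Adj (f x) y then φ (f.symm (f x)) * φ (f.symm y) else 0)]
  refine Finset.sum_congr rfl fun z _ => ?_
  have h1 : φ (f.symm (e z)) = φ z := by
    refine hφ _ _ ?_
    rw [hf (f.symm (e z)), Equiv.apply_symm_apply, (he z).1]
  rw [Equiv.symm_apply_apply, h1]
  by_cases h : (G false).Adj x z
  · rw [if_pos h, if_pos ((he z).2.1 h)]
  · rw [if_neg h, if_neg (fun h' => h ((he z).2.2 h'))]

/-- PROOF: `S.a5` for any `t`, then `S.a1`: the bijection maps the neighbours of `y` to the neighbours of `f y`. -/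
theorem deg_eq (S : Sys r X G) [Nonempty (X false)] {d d' : ℕ} (h : Regular (G false) d) (h' : Regular (G true) d') :
    d = d' := by
  obtain ⟨y⟩ := ‹Nonempty (X false)›
  obtain ⟨t', f, hf⟩ := S.a5 (fun _ => y)
  obtain ⟨e, he⟩ := S.a1 false true (fun _ => y) t' y (f y) (hf y)
  rw [← h y, ← h' (f y)]
  refine Finset.card_bij (fun w _ => e w) ?_ ?_ ?_
  · intro w hw
    simp only [Finset.mem_filter, Finset.mem_univ, true_and] at hw ⊢
    exact (he w).2.1 hw
  · intro w _ w' _ hww
    exact e.injective hww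
  · intro w hw
    simp only [Finset.mem_filter, Finset.mem_univ, true_and] at hw
    refine ⟨e.symm w, ?_, Equiv.apply_symm_apply e w⟩
    simp only [Finset.mem_filter, Finset.mem_univ, true_and]
    exact (he (e.symm w)).2.2 (by rw [Equiv.apply_symm_apply]; exact hw)

/-- PROOF: `S.a5`. -/
theorem card_eq (S : Sys r X G) [Nonempty (X false)] : Fintype.card (X false) = Fintype.card (X true) := by
  obtain ⟨y⟩ := ‹Nonempty (X false)›
  obtain ⟨t', f, hf⟩ := S.a5 (fun _ => y)
  exact Fintype.card_congr f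

end

end Pool.Agent.Lib.MP_8d8c46_lc.CW
end

section

/-!
# Campaign CW, task O3: inner degrees
-/

set_option autoImplicit false

open scoped Classical
open Finset

namespace Pool.Agent.Lib.MP_8d8c46_lc.CW

section
variable {V : Type} [Fintype V] {G : SimpleGraph V} {d : ℕ}

private theorem O3_inside_sum (S : Finset V) :
    inside G S = ∑ x : V, ∑ y : V, if x ∈ S ∧ y ∈ S ∧ G.Adj x y then 1 else 0 := by
  unfold inside
  rw [Finset.card_filter, Fintype.sum_prod_type]

private theorem O3_dg_sum (S : Finset V) (x : V) :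
    dg G S x = ∑ y : V, if G.Adj x y ∧ y ∈ S then 1 else 0 := by
  unfold dg
  rw [Finset.card_filter]

theorem qf_ind (S : Finset V) : qf G (fun x => if x ∈ S then 1 else 0) = inside G S := by
  rw [O3_inside_sum]
  unfold qf
  push_cast
  refine Finset.sum_congr rfl fun x _ => Finset.sum_congr rfl fun y _ => ?_
  by_cases h1 : G.Adj x y <;> by_cases h2 : x ∈ S <;> by_cases h3 : y ∈ S <;> simp [h1, h2, h3]

theorem inside_eq (S : Finset V) : inside G S = ∑ x ∈ S, dg G S x := by
  rw [O3_inside_sum, ← Finset.sum_filter_add_sum_filter_not univ (fun x => x ∈ S)]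
  have h2 : ∑ x ∈ univ.filter (fun x => ¬ x ∈ S),
      (∑ y : V, if x ∈ S ∧ y ∈ S ∧ G.Adj x y then 1 else 0) = 0 := by
    refine Finset.sum_eq_zero fun x hx => Finset.sum_eq_zero fun y _ => ?_
    rw [Finset.mem_filter] at hx
    rw [if_neg fun h => hx.2 h.1]
  rw [h2, add_zero]
  have h3 : univ.filter (fun x => x ∈ S) = S := by
    ext x
    simp
  rw [h3]
  refine Finset.sum_congr rfl fun x hx => ?_
  rw [O3_dg_sum]
  refine Finset.sum_congr rfl fun y _ => ?_
  by_cases h1 : G.Adj x y <;> by_cases h3 : y ∈ S <;> simp [h1, hx, h3]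

theorem inside_mono {S T : Finset V} (h : S ⊆ T) : inside G S ≤ inside G T := by
  unfold inside
  refine Finset.card_le_card fun p hp => ?_
  rw [Finset.mem_filter] at hp ⊢
  exact ⟨hp.1, h hp.2.1, h hp.2.2.1, hp.2.2.2⟩

theorem dg_mono {S T : Finset V} (h : S ⊆ T) (x : V) : dg G S x ≤ dg G T x := by
  unfold dg
  refine Finset.card_le_card fun p hp => ?_
  rw [Finset.mem_filter] at hp ⊢
  exact ⟨hp.1, hp.2.1, h hp.2.2⟩

theorem dg_le (hr : Regular G d) (S : Finset V) (x : V) : dg G S x ≤ d := by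
  rw [← hr x]
  unfold dg
  refine Finset.card_le_card fun p hp => ?_
  rw [Finset.mem_filter] at hp ⊢
  exact ⟨hp.1, hp.2.1⟩

/-- Removing one vertex. PROOF: the pairs in `S` which contain `x` are `(x, y)` and `(y, x)` with `y` a neighbour of `x`
in `S` (`y ≠ x` as there are no loops). -/
theorem inside_erase {S : Finset V} {x : V} (hx : x ∈ S) : inside G S = inside G (S.erase x) + 2 * dg G S x := by
  have h1 : ∀ y, dg G S y = dg G (S.erase x) y + if G.Adj y x then 1 else 0 := by
    intro y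
    rw [O3_dg_sum, O3_dg_sum]
    have h2 : (if G.Adj y x then 1 else 0) = ∑ z : V, if z = x then (if G.Adj y x then 1 else 0) else 0 := by
      rw [Finset.sum_ite_eq' univ x (fun _ => if G.Adj y x then 1 else 0)]
      simp
    rw [h2, ← Finset.sum_add_distrib]
    refine Finset.sum_congr rfl fun z _ => ?_
    by_cases hz : z = x
    · subst hz
      by_cases h3 : G.Adj y z <;> simp [h3, hx]
    · by_cases h3 : G.Adj y z <;> by_cases h4 : z ∈ S <;> simp [h3, h4, hz]
  have h2 : dg G S x = ∑ y ∈ S.erase x, if G.Adj y x then 1 else 0 := by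
    unfold dg
    rw [← Finset.card_filter]
    congr 1
    ext y
    simp only [Finset.mem_filter, Finset.mem_univ, true_and, Finset.mem_erase]
    constructor
    · rintro ⟨h, h'⟩
      exact ⟨⟨h.ne', h'⟩, h.symm⟩
    · rintro ⟨⟨_, h'⟩, h⟩
      exact ⟨h.symm, h'⟩
  rw [inside_eq, inside_eq, ← Finset.add_sum_erase S _ hx]
  have h3 : ∑ y ∈ S.erase x, dg G S y =
      ∑ y ∈ S.erase x, dg G (S.erase x) y + dg G S x := by
    conv_rhs => rw [h2]
    rw [← Finset.sum_add_distrib]
    exact Finset.sum_congr rfl fun y _ => h1 y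
  rw [h3]
  ring

end

end Pool.Agent.Lib.MP_8d8c46_lc.CW
end

section

/-!
# Campaign CW, task O1: the scalar product and the operator `Mo`
-/

set_option autoImplicit false

open scoped Classical
open Finset

namespace Pool.Agent.Lib.MP_8d8c46_lc.CW

section
variable {V : Type} [Fintype V]

theorem ip_comm (f g : V → ℝ) : ip f g = ip g f := by
  exact Finset.sum_congr rfl fun x _ => mul_comm _ _

theorem ip_lin (a b : ℝ) (f g h : V → ℝ) : ip (fun x => a * f x + b * g x) h = a * ip f h + b * ip g h := by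
  unfold ip
  rw [Finset.mul_sum, Finset.mul_sum, ← Finset.sum_add_distrib]
  exact Finset.sum_congr rfl fun x _ => by ring

theorem ip_sub (f g h : V → ℝ) : ip (fun x => f x - g x) h = ip f h - ip g h := by
  unfold ip
  rw [← Finset.sum_sub_distrib]
  exact Finset.sum_congr rfl fun x _ => by ring

theorem ip_self_nonneg (f : V → ℝ) : 0 ≤ ip f f := by
  exact Finset.sum_nonneg fun x _ => mul_self_nonneg _

/-- PROOF: `Finset.sum_mul_sq_le_sq_mul_sq`. -/
theorem ip_cs (f g : V → ℝ) : ip f g ^ 2 ≤ ip f f * ip g g := by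
  unfold ip
  have h := Finset.sum_mul_sq_le_sq_mul_sq univ f g
  simp only [pow_two] at h ⊢
  exact h

theorem ip_pt (v : V) (f : V → ℝ) : ip (pt v) f = f v := by
  unfold ip pt
  rw [Finset.sum_eq_single v]
  · rw [if_pos rfl, one_mul]
  · intro x _ hx
    rw [if_neg hx, zero_mul]
  · intro h
    exact absurd (Finset.mem_univ v) h

variable {G : SimpleGraph V} {d : ℕ}

theorem Mo_lin (a b : ℝ) (f g : V → ℝ) :
    Mo G d (fun x => a * f x + b * g x) = fun x => a * Mo G d f x + b * Mo G d g x := by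
  funext x
  unfold Mo
  rw [mul_div_assoc', mul_div_assoc', ← add_div]
  congr 1
  rw [Finset.mul_sum, Finset.mul_sum, ← Finset.sum_add_distrib]
  refine Finset.sum_congr rfl fun y _ => ?_
  by_cases h : G.Adj x y
  · rw [if_pos h, if_pos h, if_pos h]
  · rw [if_neg h, if_neg h, if_neg h]
    ring

theorem Mo_nonneg {f : V → ℝ} (hf : ∀ x, 0 ≤ f x) (x : V) : 0 ≤ Mo G d f x := by
  unfold Mo
  refine div_nonneg (Finset.sum_nonneg fun y _ => ?_) (Nat.cast_nonneg d)
  by_cases h : G.Adj x y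
  · rw [if_pos h]
    exact hf y
  · rw [if_neg h]

/-- The bilinear form. -/
private theorem O1_ip (f g : V → ℝ) : ip f (Mo G d g) = (∑ x, ∑ y, if G.Adj x y then f x * g y else 0) / d := by
  unfold ip Mo
  rw [Finset.sum_div]
  refine Finset.sum_congr rfl fun x _ => ?_
  rw [← mul_div_assoc, Finset.mul_sum]
  congr 1
  refine Finset.sum_congr rfl fun y _ => ?_
  by_cases h : G.Adj x y
  · rw [if_pos h, if_pos h]
  · rw [if_neg h, if_neg h, mul_zero]

/-- Exchange of the sums. -/
private theorem O1_swap (F : V → V → ℝ) :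
    (∑ x, ∑ y, if G.Adj x y then F x y else 0) = ∑ x, ∑ y, if G.Adj x y then F y x else 0 := by
  rw [Finset.sum_comm]
  refine Finset.sum_congr rfl fun x _ => Finset.sum_congr rfl fun y _ => ?_
  by_cases h : G.Adj x y
  · rw [if_pos h, if_pos (SimpleGraph.Adj.symm h)]
  · rw [if_neg h, if_neg fun h' => h (SimpleGraph.Adj.symm h')]

/-- Every vertex has `d` neighbours. -/
private theorem O1_deg (hr : Regular G d) (f : V → ℝ) :
    (∑ x, ∑ y, if G.Adj x y then f x else 0) = d * ∑ x, f x := by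
  rw [Finset.mul_sum]
  refine Finset.sum_congr rfl fun x _ => ?_
  rw [← Finset.sum_filter, Finset.sum_const, nsmul_eq_mul]
  congr 2
  exact hr x

private theorem O1_deg' (hr : Regular G d) (f : V → ℝ) :
    (∑ x, ∑ y, if G.Adj x y then f y else 0) = d * ∑ x, f x := by
  rw [← O1_deg hr f, O1_swap (G := G) (fun x _ => f x)]

/-- PROOF: exchange the sums, `G.Adj x y ↔ G.Adj y x`. -/
theorem ip_Mo_symm (f g : V → ℝ) : ip f (Mo G d g) = ip (Mo G d f) g := by
  rw [ip_comm (Mo G d f) g, O1_ip, O1_ip, O1_swap (G := G) (fun x y => f x * g y)]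
  congr 1
  refine Finset.sum_congr rfl fun x _ => Finset.sum_congr rfl fun y _ => ?_
  rw [mul_comm]

theorem qf_eq (hd : 1 ≤ d) (f : V → ℝ) : (d : ℝ) * ip f (Mo G d f) = qf G f := by
  have h0 : (d : ℝ) ≠ 0 := by
    have h1 : 0 < d := hd
    exact_mod_cast h1.ne'
  rw [O1_ip, mul_div_cancel₀ _ h0]
  rfl

/-- PROOF: exchange the sums; every `y` has exactly `d` neighbours. -/
theorem sum_Mo (hr : Regular G d) (hd : 1 ≤ d) (f : V → ℝ) : ∑ x, Mo G d f x = ∑ x, f x := by
  have h0 : (d : ℝ) ≠ 0 := by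
    have h1 : 0 < d := hd
    exact_mod_cast h1.ne'
  unfold Mo
  rw [← Finset.sum_div, O1_deg' hr, mul_div_cancel_left₀ _ h0]

private theorem O1_dir (hr : Regular G d) (hd : 1 ≤ d) (e : ℝ) (he : e * e = 1) (f : V → ℝ) :
    (∑ x, ∑ y, if G.Adj x y then (f x + e * f y) ^ 2 else 0) = 2 * d * (ip f f + e * ip f (Mo G d f)) := by
  have h1 := O1_deg hr (fun x => f x * f x)
  have h2 := O1_deg' hr (fun x => f x * f x)
  have h3 := qf_eq (G := G) hd f
  have h4 : (∑ x, ∑ y, if G.Adj x y then (f x + e * f y) ^ 2 else 0) =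
      (∑ x, ∑ y, if G.Adj x y then f x * f x else 0) + (∑ x, ∑ y, if G.Adj x y then f y * f y else 0) +
        2 * e * qf G f := by
    unfold qf
    rw [Finset.mul_sum, ← Finset.sum_add_distrib, ← Finset.sum_add_distrib]
    refine Finset.sum_congr rfl fun x _ => ?_
    rw [Finset.mul_sum, ← Finset.sum_add_distrib, ← Finset.sum_add_distrib]
    refine Finset.sum_congr rfl fun y _ => ?_
    by_cases h : G.Adj x y
    · rw [if_pos h, if_pos h, if_pos h, if_pos h]
      have h5 : (f x + e * f y) ^ 2 = f x * f x + (e * e) * (f y * f y) + 2 * e * (f x * f y) := by ring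
      rw [h5, he, one_mul]
    · rw [if_neg h, if_neg h, if_neg h, if_neg h]
      ring
  rw [h4, h1, h2, ← h3]
  unfold ip
  ring

/-- PROOF: `(f x - f y) ^ 2 = f x ^ 2 - 2 f x f y + f y ^ 2`; the sum of `f x ^ 2` over the ordered adjacent pairs
`(x, y)` is `d * ip f f`, so is the sum of `f y ^ 2`. -/
theorem dir_sub (hr : Regular G d) (hd : 1 ≤ d) (f : V → ℝ) :
    (∑ x, ∑ y, if G.Adj x y then (f x - f y) ^ 2 else 0) = 2 * d * (ip f f - ip f (Mo G d f)) := by
  have h := O1_dir hr hd (-1) (by norm_num) f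
  have h1 : (∑ x, ∑ y, if G.Adj x y then (f x - f y) ^ 2 else 0) = ∑ x, ∑ y, if G.Adj x y then (f x + -1 * f y) ^ 2 else 0 := by
    refine Finset.sum_congr rfl fun x _ => Finset.sum_congr rfl fun y _ => ?_
    rw [show f x + -1 * f y = f x - f y by ring]
  rw [h1, h]
  ring

theorem dir_add (hr : Regular G d) (hd : 1 ≤ d) (f : V → ℝ) :
    (∑ x, ∑ y, if G.Adj x y then (f x + f y) ^ 2 else 0) = 2 * d * (ip f f + ip f (Mo G d f)) := by
  have h := O1_dir hr hd 1 (by norm_num) f
  have h1 : (∑ x, ∑ y, if G.Adj x y then (f x + f y) ^ 2 else 0) = ∑ x, ∑ y, if G.Adj x y then (f x + 1 * f y) ^ 2 else 0 := by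
    refine Finset.sum_congr rfl fun x _ => Finset.sum_congr rfl fun y _ => ?_
    rw [one_mul]
  rw [h1, h]
  ring

/-- PROOF: `dir_sub`, the left side is nonnegative. -/
theorem ip_Mo_le (hr : Regular G d) (hd : 1 ≤ d) (f : V → ℝ) : ip f (Mo G d f) ≤ ip f f := by
  have h := dir_sub hr hd f
  have h1 : 0 ≤ (∑ x, ∑ y, if G.Adj x y then (f x - f y) ^ 2 else 0) := by
    refine Finset.sum_nonneg fun x _ => Finset.sum_nonneg fun y _ => ?_
    by_cases hxy : G.Adj x y
    · rw [if_pos hxy]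
      exact sq_nonneg _
    · rw [if_neg hxy]
  rw [h] at h1
  have hd' : (0 : ℝ) < 2 * d := by
    have h2 : 0 < d := hd
    have h3 : (0 : ℝ) < d := by exact_mod_cast h2
    linarith
  have h4 := nonneg_of_mul_nonneg_right h1 hd'
  linarith

/-- PROOF: `dir_add`. -/
theorem neg_le_ip_Mo (hr : Regular G d) (hd : 1 ≤ d) (f : V → ℝ) : -ip f f ≤ ip f (Mo G d f) := by
  have h := dir_add hr hd f
  have h1 : 0 ≤ (∑ x, ∑ y, if G.Adj x y then (f x + f y) ^ 2 else 0) := by
    refine Finset.sum_nonneg fun x _ => Finset.sum_nonneg fun y _ => ?_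
    by_cases hxy : G.Adj x y
    · rw [if_pos hxy]
      exact sq_nonneg _
    · rw [if_neg hxy]
  rw [h] at h1
  have hd' : (0 : ℝ) < 2 * d := by
    have h2 : 0 < d := hd
    have h3 : (0 : ℝ) < d := by exact_mod_cast h2
    linarith
  have h4 := nonneg_of_mul_nonneg_right h1 hd'
  linarith

/-- PROOF: `(∑ y ~ x, f y) ^ 2 ≤ d * ∑ y ~ x, f y ^ 2` (Cauchy-Schwarz, `sq_sum_le_card_mul_sum_sq` over the filter of
the neighbours), so `(Mo G d f x) ^ 2 ≤ (∑ y ~ x, f y ^ 2) / d = Mo G d (fun y => f y ^ 2) x`; sum over `x` and use `sum_Mo`. -/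
theorem norm_Mo_le (hr : Regular G d) (hd : 1 ≤ d) (f : V → ℝ) : ip (Mo G d f) (Mo G d f) ≤ ip f f := by
  have h0 : (0 : ℝ) < d := by
    have h1 : 0 < d := hd
    exact_mod_cast h1
  have h1 : ∀ x, Mo G d f x * Mo G d f x ≤ Mo G d (fun y => f y * f y) x := by
    intro x
    unfold Mo
    rw [← Finset.sum_filter, ← Finset.sum_filter]
    have h2 := sq_sum_le_card_mul_sum_sq (s := univ.filter fun y => G.Adj x y) (f := f)
    rw [hr x] at h2
    rw [div_mul_div_comm, div_le_div_iff₀ (mul_pos h0 h0) h0]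
    simp only [pow_two] at h2
    calc _ ≤ ((d : ℝ) * ∑ y ∈ univ.filter (fun y => G.Adj x y), f y * f y) * d := mul_le_mul_of_nonneg_right h2 h0.le
      _ = _ := by ring
  calc ip (Mo G d f) (Mo G d f) ≤ ∑ x, Mo G d (fun y => f y * f y) x := Finset.sum_le_sum fun x _ => h1 x
    _ = ip f f := sum_Mo hr hd _

end

end Pool.Agent.Lib.MP_8d8c46_lc.CW
end

section

/-!
# Campaign CW, task RD1: random subsets (Lemma 10)
-/

set_option autoImplicit false

open scoped Classical
open Finset

namespace Pool.Agent.Lib.MP_8d8c46_lc.CW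

section
variable {V : Type} [Fintype V]

/-- the probability of the set `T` if each `x` is in `T` with probability `f x`, independently -/
noncomputable def wt (f : V → ℝ) (T : Finset V) : ℝ := (∏ x ∈ T, f x) * ∏ x ∈ univ \ T, (1 - f x)

theorem wt_nonneg {f : V → ℝ} (hf : ∀ x, 0 ≤ f x ∧ f x ≤ 1) (T : Finset V) : 0 ≤ wt f T := by
  unfold wt
  apply mul_nonneg
  · exact prod_nonneg fun x _ => (hf x).1
  · exact prod_nonneg fun x _ => sub_nonneg.2 (hf x).2

/-- PROOF: `Finset.prod_add` for the product of `f x + (if x ∈ A then 0 else 1 - f x)` over all `x`: the factor of `x ∈ A` is `f x`, the others are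
`1`; the term of `T` is `wt f T` if `A ⊆ T` and `0` otherwise (the second product contains a zero). `Finset.powerset_univ`. -/
theorem wt_superset (f : V → ℝ) (A : Finset V) : (∑ T : Finset V, if A ⊆ T then wt f T else 0) = ∏ x ∈ A, f x := by
  have h1 : ∏ x ∈ (univ : Finset V), (f x + (if x ∈ A then 0 else 1 - f x)) = ∏ x ∈ A, f x := by
    rw [← Finset.prod_subset (Finset.subset_univ A)]
    · refine prod_congr rfl ?_
      intro x hx
      rw [if_pos hx, add_zero]
    · intro x _ hx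
      rw [if_neg hx]
      ring
  rw [← h1, Finset.prod_add, Finset.powerset_univ]
  refine sum_congr rfl ?_
  intro T _
  by_cases hA : A ⊆ T
  · rw [if_pos hA]
    unfold wt
    congr 1
    refine prod_congr rfl ?_
    intro x hx
    rw [if_neg]
    intro hxA
    exact (mem_sdiff.1 hx).2 (hA hxA)
  · rw [if_neg hA]
    obtain ⟨x, hxA, hxT⟩ := Finset.not_subset.1 hA
    symm
    apply mul_eq_zero_of_right
    apply Finset.prod_eq_zero (i := x)
    · exact mem_sdiff.2 ⟨mem_univ x, hxT⟩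
    · rw [if_pos hxA]

theorem sum_wt (f : V → ℝ) : ∑ T : Finset V, wt f T = 1 := by
  have h := wt_superset f ∅
  simpa using h

private theorem RD1_pair (f : V → ℝ) (x y : V) (hxy : x ≠ y) :
    (∑ T : Finset V, if x ∈ T ∧ y ∈ T then wt f T else 0) = f x * f y := by
  have h := wt_superset f {x, y}
  rw [Finset.prod_pair hxy] at h
  rw [← h]
  refine sum_congr rfl ?_
  intro T _
  have : ({x, y} : Finset V) ⊆ T ↔ x ∈ T ∧ y ∈ T := by
    rw [Finset.insert_subset_iff, Finset.singleton_subset_iff]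
  simp only [this]

private theorem RD1_one (f : V → ℝ) (x : V) :
    (∑ T : Finset V, if x ∈ T then wt f T else 0) = f x := by
  have h := wt_superset f {x}
  simpa using h

/-- PROOF: `inside G T = ∑ x, ∑ y, if x ∈ T ∧ y ∈ T ∧ G.Adj x y then 1 else 0`, exchange the sums, `wt_superset` for `A = {x, y}` (`x ≠ y`). -/
theorem wt_inside (G : SimpleGraph V) (f : V → ℝ) : ∑ T : Finset V, wt f T * (inside G T : ℝ) = qf G f := by
  have h1 : ∀ T : Finset V, (inside G T : ℝ) =
      ∑ x, ∑ y, if x ∈ T ∧ y ∈ T ∧ G.Adj x y then (1 : ℝ) else 0 := by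
    intro T
    unfold inside
    rw [Finset.card_filter, Nat.cast_sum, Fintype.sum_prod_type]
    refine sum_congr rfl ?_
    intro x _
    refine sum_congr rfl ?_
    intro y _
    simp only [Nat.cast_ite, Nat.cast_one, Nat.cast_zero]
  unfold qf
  simp_rw [h1, Finset.mul_sum]
  rw [Finset.sum_comm]
  refine sum_congr rfl ?_
  intro x _
  rw [Finset.sum_comm]
  refine sum_congr rfl ?_
  intro y _
  by_cases hxy : G.Adj x y
  · rw [if_pos hxy, ← RD1_pair f x y hxy.ne]
    refine sum_congr rfl ?_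
    intro T _
    by_cases hT : x ∈ T ∧ y ∈ T
    · rw [if_pos hT, if_pos ⟨hT.1, hT.2, hxy⟩, mul_one]
    · rw [if_neg hT, if_neg (fun h => hT ⟨h.1, h.2.1⟩), mul_zero]
  · rw [if_neg hxy]
    refine Finset.sum_eq_zero ?_
    intro T _
    rw [if_neg (fun h => hxy h.2.2), mul_zero]

/-- PROOF: `card T = ∑ x, 1_T x`; with `s = ∑ f`: `∑ wt * card = s`, `∑ wt * card ^ 2 = ∑ x, ∑ y, (if x = y then f x else f x * f y) = s ^ 2 + ∑ (f x - f x ^ 2)`. -/
theorem wt_var (f : V → ℝ) :
    ∑ T : Finset V, wt f T * ((T.card : ℝ) - ∑ x, f x) ^ 2 = ∑ x, (f x - f x ^ 2) := by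
  have hc : ∀ T : Finset V, (T.card : ℝ) = ∑ x, if x ∈ T then (1 : ℝ) else 0 := by
    intro T
    rw [Finset.sum_ite_mem, Finset.univ_inter]
    simp
  have e1 : ∑ T : Finset V, wt f T * (T.card : ℝ) = ∑ x, f x := by
    simp_rw [hc, Finset.mul_sum]
    rw [Finset.sum_comm]
    refine sum_congr rfl ?_
    intro x _
    conv_rhs => rw [← RD1_one f x]
    refine sum_congr rfl ?_
    intro T _
    split_ifs <;> simp
  have e2 : ∑ T : Finset V, wt f T * (T.card : ℝ) ^ 2 =
      ∑ x, ∑ y, (if x = y then f x else f x * f y) := by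
    have : ∀ T : Finset V, wt f T * (T.card : ℝ) ^ 2 =
        ∑ x, ∑ y, if x ∈ T ∧ y ∈ T then wt f T else 0 := by
      intro T
      rw [sq, hc, Finset.sum_mul_sum, Finset.mul_sum]
      refine sum_congr rfl ?_
      intro x _
      rw [Finset.mul_sum]
      refine sum_congr rfl ?_
      intro y _
      by_cases hx : x ∈ T <;> by_cases hy : y ∈ T <;> simp [hx, hy]
    simp_rw [this]
    rw [Finset.sum_comm]
    refine sum_congr rfl ?_
    intro x _
    rw [Finset.sum_comm]
    refine sum_congr rfl ?_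
    intro y _
    by_cases hxy : x = y
    · subst hxy
      rw [if_pos rfl]
      simpa using RD1_one f x
    · rw [if_neg hxy]
      exact RD1_pair f x y hxy
  have e3 : ∑ x, ∑ y, (if x = y then f x else f x * f y) = (∑ x, f x) ^ 2 + ∑ x, (f x - f x ^ 2) := by
    rw [sq, Finset.sum_mul_sum, ← Finset.sum_add_distrib]
    refine sum_congr rfl ?_
    intro x _
    have : ∀ y, (if x = y then f x else f x * f y) = f x * f y + (if x = y then f x - f x * f y else 0) := by
      intro y
      split_ifs <;> ring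
    simp_rw [this]
    rw [Finset.sum_add_distrib, Finset.sum_ite_eq]
    simp [sq]
  have e4 : ∀ T : Finset V, wt f T * ((T.card : ℝ) - ∑ x, f x) ^ 2 =
      wt f T * (T.card : ℝ) ^ 2 - 2 * (∑ x, f x) * (wt f T * (T.card : ℝ)) + (∑ x, f x) ^ 2 * wt f T := by
    intro T
    ring
  simp_rw [e4]
  rw [Finset.sum_add_distrib, Finset.sum_sub_distrib, ← Finset.mul_sum, ← Finset.mul_sum, e1, e2, e3,
    sum_wt]
  ring

end

end Pool.Agent.Lib.MP_8d8c46_lc.CW
end

section

/-!
# Campaign CW, task RD2: rounding a function on a No instance (Lemma 10)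
-/

set_option autoImplicit false

open scoped Classical
open Finset

namespace Pool.Agent.Lib.MP_8d8c46_lc.CW

section
variable {V : Type} [Fintype V]

/-- PROOF: if `card T ≤ M` enlarge `T` to `S` with `card S = M` (`Finset.exists_superset_card_eq`), `inside_mono`. Otherwise induction on `card T - M`:
remove a vertex (`inside_erase`, `dg_le`). -/
theorem inside_le_of_no {G : SimpleGraph V} {d : ℕ} (hr : Regular G d) {M : ℕ} (hM : M ≤ Fintype.card V) {B : ℝ}
    (hno : ∀ S : Finset V, S.card = M → (inside G S : ℝ) ≤ B) (T : Finset V) :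
    (inside G T : ℝ) ≤ B + 2 * d * max ((T.card : ℝ) - M) 0 := by
  have hd : (0 : ℝ) ≤ d := Nat.cast_nonneg d
  have key : ∀ n : ℕ, ∀ T : Finset V, T.card = M + n → (inside G T : ℝ) ≤ B + 2 * d * n := by
    intro n
    induction n with
    | zero =>
      intro T hT
      have := hno T (by simpa using hT)
      simpa using this
    | succ n ih =>
      intro T hT
      obtain ⟨x, hx⟩ : T.Nonempty := by
        rw [← Finset.card_pos]; omega
      have h1 := ih (T.erase x) (by rw [Finset.card_erase_of_mem hx]; omega)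
      have h2 : inside G T = inside G (T.erase x) + 2 * dg G T x := inside_erase hx
      have h3 : (dg G T x : ℝ) ≤ d := by exact_mod_cast dg_le hr T x
      rw [h2]
      push_cast
      nlinarith
  rcases le_total T.card M with h | h
  · obtain ⟨S, hTS, hS⟩ := Finset.exists_superset_card_eq h hM
    have h1 : (inside G T : ℝ) ≤ inside G S := by exact_mod_cast inside_mono hTS
    have h2 := hno S hS
    have h3 : 0 ≤ 2 * (d : ℝ) * max ((T.card : ℝ) - M) 0 :=
      mul_nonneg (by linarith) (le_max_right _ _)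
    linarith
  · have h1 := key (T.card - M) T (by omega)
    have h2 : ((T.card - M : ℕ) : ℝ) = (T.card : ℝ) - M := by push_cast [Nat.cast_sub h]; ring
    rw [h2] at h1
    have h3 : (T.card : ℝ) - M ≤ max ((T.card : ℝ) - M) 0 := le_max_left _ _
    have h4 : 2 * (d : ℝ) * ((T.card : ℝ) - M) ≤ 2 * (d : ℝ) * max ((T.card : ℝ) - M) 0 :=
      mul_le_mul_of_nonneg_left h3 (by linarith)
    linarith

/-- PROOF: `s = ∑ f ≤ M`, `l = √M ≥ 1`. `max (card T - M) 0 ≤ |card T - s| ≤ l / 2 + (card T - s) ^ 2 / (2 l)`. Multiply `inside_le_of_no` by `wt f T ≥ 0` and sum: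
`qf G f ≤ B + 2 d (l / 2 + (∑ (f x - f x ^ 2)) / (2 l)) ≤ B + 2 d (l / 2 + M / (2 l)) = B + 2 d l`. -/
theorem round_no {G : SimpleGraph V} {d : ℕ} (hr : Regular G d) {M : ℕ} (hM1 : 1 ≤ M) (hM : M ≤ Fintype.card V)
    {B : ℝ} (hno : ∀ S : Finset V, S.card = M → (inside G S : ℝ) ≤ B) {f : V → ℝ} (hf : ∀ x, 0 ≤ f x ∧ f x ≤ 1)
    (hs : ∑ x, f x ≤ M) : qf G f ≤ B + 2 * d * Real.sqrt M := by
  obtain ⟨s, hsd⟩ : ∃ s, s = ∑ x, f x := ⟨_, rfl⟩
  obtain ⟨l, hld⟩ : ∃ l, l = Real.sqrt M := ⟨_, rfl⟩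
  rw [← hsd] at hs
  rw [← hld]
  have hMpos : (1 : ℝ) ≤ M := by exact_mod_cast hM1
  have hl1 : 0 < l := by rw [hld]; exact Real.sqrt_pos.2 (by linarith)
  have hll : l * l = M := by rw [hld]; exact Real.mul_self_sqrt (by linarith)
  have hd : (0 : ℝ) ≤ d := Nat.cast_nonneg d
  have hdl : 0 ≤ (d : ℝ) / l := div_nonneg hd hl1.le
  have key : ∀ T : Finset V, (inside G T : ℝ) ≤ (B + d * l) + (d / l) * ((T.card : ℝ) - s) ^ 2 := by
    intro T
    have h1 := inside_le_of_no hr hM hno T
    have h3 : |(T.card : ℝ) - s| ≤ l / 2 + ((T.card : ℝ) - s) ^ 2 / (2 * l) := by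
      rw [← sq_abs ((T.card : ℝ) - s), div_add_div _ _ (by norm_num) (by positivity), le_div_iff₀ (by positivity)]
      nlinarith [sq_nonneg (|(T.card : ℝ) - s| - l)]
    have h2 : max ((T.card : ℝ) - M) 0 ≤ l / 2 + ((T.card : ℝ) - s) ^ 2 / (2 * l) := by
      refine max_le ?_ ((abs_nonneg _).trans h3)
      refine le_trans ?_ h3
      refine le_trans ?_ (le_abs_self _)
      linarith
    have h4 := mul_le_mul_of_nonneg_left h2 (by linarith : 0 ≤ 2 * (d : ℝ))
    have h5 : 2 * (d : ℝ) * (l / 2 + ((T.card : ℝ) - s) ^ 2 / (2 * l)) =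
        d * l + (d / l) * ((T.card : ℝ) - s) ^ 2 := by
      field_simp
    rw [h5] at h4
    linarith
  have hw := sum_wt f
  have hv := wt_var f
  rw [← hsd] at hv
  calc qf G f = ∑ T : Finset V, wt f T * (inside G T : ℝ) := (wt_inside G f).symm
    _ ≤ ∑ T : Finset V, wt f T * ((B + d * l) + (d / l) * ((T.card : ℝ) - s) ^ 2) :=
        Finset.sum_le_sum fun T _ => mul_le_mul_of_nonneg_left (key T) (wt_nonneg hf T)
    _ = (B + d * l) * ∑ T : Finset V, wt f T + (d / l) * ∑ T : Finset V, wt f T * ((T.card : ℝ) - s) ^ 2 := by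
        rw [Finset.mul_sum, Finset.mul_sum, ← Finset.sum_add_distrib]
        refine Finset.sum_congr rfl fun T _ => ?_
        ring
    _ = (B + d * l) + (d / l) * ∑ x, (f x - f x ^ 2) := by rw [hw, hv, mul_one]
    _ ≤ (B + d * l) + (d / l) * M := by
        have h1 : ∑ x, (f x - f x ^ 2) ≤ ∑ x, f x := Finset.sum_le_sum fun x _ => by
          nlinarith [sq_nonneg (f x)]
        have h2 : ∑ x, (f x - f x ^ 2) ≤ (M : ℝ) := h1.trans (by rw [← hsd]; exact hs)
        have := mul_le_mul_of_nonneg_left h2 hdl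
        linarith
    _ = B + 2 * d * l := by
        rw [← hll]
        field_simp
        ring

end

end Pool.Agent.Lib.MP_8d8c46_lc.CW
end

section

/-!
# Campaign CW, task W1: the exceptional set is invariant (Lemma 3)
-/

set_option autoImplicit false

open scoped Classical
open Finset

namespace Pool.Agent.Lib.MP_8d8c46_lc.CW

section
variable {r : ℕ} {X : Bool → Type} {G : ∀ i, SimpleGraph (X i)} [∀ i, Fintype (X i)]

/-- PROOF. `x ∈ R`, `RR S d N i R`, `MSet S i t R`. `S.a2` (for `u := t`): `t'` with `S.c i t x = S.c j t' x'`. `R' = univ.filter fun z' => ∃ z ∈ R, S.c i t z = S.c j t' z'`.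
`S.a1` for `(t, x), (t', x')` gives `f` with `S.c i t z = S.c j t' (f z)`, so `R'` is the image of `R` under `f` (if `S.c i t z = S.c j t' (f w)` then `S.c i t z = S.c i t w`, so
`w ∈ R` by `MSet`): equal cards, `x' ∈ R'`. `MSet S j t' R'` is clear. For `z' ∈ R'`, `S.c i t z = S.c j t' z'`, `z ∈ R`, `S.a1` gives `g` with
`S.c i t w = S.c j t' (g w)` and `Adj z w ↔ Adj z' (g w)`: `g` maps the neighbours of `z` in `R` onto the neighbours of `z'` in `R'`, so `dg (G j) R' z' = dg (G i) R z`. -/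
theorem WW_colour (S : Sys r X G) {d : ℕ} {N : ℝ} {i j : Bool} {u : Fin r → X i} {u' : Fin r → X j} {x : X i}
    {x' : X j} (h : S.c i u x = S.c j u' x') (hx : x ∈ WW S d N i) : x' ∈ WW S d N j := by
  obtain ⟨R, ⟨⟨t, hM⟩, hcard, hdeg⟩, hxR⟩ := hx
  obtain ⟨t', ht'⟩ := S.a2 i j u u' x x' h t
  obtain ⟨f, hf⟩ := S.a1 i j t t' x x' ht'
  have hfs : ∀ z', S.c i t (f.symm z') = S.c j t' z' := by
    intro z'
    have h1 := (hf (f.symm z')).1
    rwa [Equiv.apply_symm_apply] at h1
  have hmem : ∀ z', z' ∈ R.map f.toEmbedding ↔ f.symm z' ∈ R := by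
    intro z'
    exact Finset.mem_map_equiv
  refine ⟨R.map f.toEmbedding, ⟨⟨t', ?_⟩, ?_, ?_⟩, ?_⟩
  · intro y z hyz hy
    rw [hmem] at hy ⊢
    exact hM _ _ ((hfs y).trans (hyz.trans (hfs z).symm)) hy
  · rw [Finset.card_map]
    exact hcard
  · intro z' hz'
    rw [hmem] at hz'
    obtain ⟨g, hg⟩ := S.a1 i j t t' (f.symm z') z' (hfs z')
    have hdg : dg (G j) (R.map f.toEmbedding) z' = dg (G i) R (f.symm z') := by
      unfold dg
      refine (Finset.card_equiv g ?_).symm
      intro w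
      have e1 : S.c i t w = S.c i t (f.symm (g w)) := (hg w).1.trans (hfs (g w)).symm
      simp only [Finset.mem_filter, Finset.mem_univ, true_and]
      rw [hmem, ← (hg w).2]
      exact and_congr_right fun _ => ⟨fun k => hM _ _ e1 k, fun k => hM _ _ e1.symm k⟩
    rw [hdg]
    exact hdeg _ hz'
  · rw [hmem]
    exact hM _ _ (ht'.trans (hfs x').symm) hxR

/-- PROOF: `S.a5` for any `t`, and `WW_colour` in both directions. -/
theorem WW_card (S : Sys r X G) [Nonempty (X false)] (d : ℕ) (N : ℝ) :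
    (univ.filter fun x => x ∈ WW S d N false).card = (univ.filter fun x => x ∈ WW S d N true).card := by
  obtain ⟨t', f, hf⟩ := S.a5 (fun _ => Classical.arbitrary (X false))
  refine Finset.card_equiv f ?_
  intro x
  simp only [Finset.mem_filter, Finset.mem_univ, true_and]
  exact ⟨fun k => WW_colour S (hf x) k, fun k => WW_colour S (hf x).symm k⟩

end

end Pool.Agent.Lib.MP_8d8c46_lc.CW
end

section

/-!
# Campaign CW, task W2: unions of sets with large inner degrees (Lemma 4)
-/

set_option autoImplicit false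

open scoped Classical
open Finset

namespace Pool.Agent.Lib.MP_8d8c46_lc.CW

/-- PROOF. Suppose the card is `> 8 η M`. For a finite set `𝒢` of members of `F` let `U 𝒢 = 𝒢.biUnion id`. Choose `𝒢` of least card with `card (U 𝒢) > 8 η M` (the set of all members of `F` has this
property). `𝒢` is not empty; remove a member `R`: `card (U (𝒢.erase R)) ≤ 8 η M`, so `card (U 𝒢) ≤ 8 η M + card R ≤ 8 η M + M / 2 ≤ M`. `U = U 𝒢`. For `x ∈ U` there is `R ⊆ U` with `F R`, `x ∈ R`:
`8 * dg G U x ≥ 8 * dg G R x ≥ d` (`dg_mono`), so `8 * inside G U ≥ d * card U > 8 η d M` (`inside_eq`). Enlarge `U` to `S` with `card S = M` (`Finset.exists_superset_card_eq`), `inside_mono`: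
contradiction to `hno`. -/
theorem union_small {V : Type} [Fintype V] {G : SimpleGraph V} {d : ℕ} (hd : 1 ≤ d) {M : ℕ}
    (hM : M ≤ Fintype.card V) {η : ℝ} (h0 : 0 ≤ η) (h1 : 16 * η ≤ 1)
    (hno : ∀ S : Finset V, S.card = M → (inside G S : ℝ) ≤ η * (d * M)) (F : Finset V → Prop)
    (hF : ∀ R, F R → (R.card : ℝ) ≤ M / 2 ∧ ∀ x ∈ R, d ≤ 8 * dg G R x) :
    ((univ.filter fun x => ∃ R, F R ∧ x ∈ R).card : ℝ) ≤ 8 * η * M := by
  have key : ∀ 𝒢 : Finset (Finset V), (∀ R ∈ 𝒢, F R) → ((𝒢.biUnion id).card : ℝ) ≤ 8 * η * M := by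
    intro 𝒢
    induction 𝒢 using Finset.induction with
    | empty =>
      intro _
      rw [Finset.biUnion_empty, Finset.card_empty, Nat.cast_zero]
      positivity
    | insert R 𝒢 hR ih =>
      intro hall
      have ih' := ih (fun Q hQ => hall Q (Finset.mem_insert_of_mem hQ))
      by_contra hcon
      push Not at hcon
      set U := (insert R 𝒢).biUnion id with hU
      have hUeq : U = R ∪ 𝒢.biUnion id := by
        rw [hU, Finset.biUnion_insert]
        rfl
      have hRF := hF R (hall R (Finset.mem_insert_self R 𝒢))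
      have hMr : (0 : ℝ) ≤ M := Nat.cast_nonneg M
      have hcU : (U.card : ℝ) ≤ M := by
        have h2 : (U.card : ℝ) ≤ R.card + (𝒢.biUnion id).card := by
          rw [hUeq]
          exact_mod_cast Finset.card_union_le _ _
        have h3 : 8 * η * M ≤ M / 2 := by nlinarith
        linarith [hRF.1]
      have hcU' : U.card ≤ M := by exact_mod_cast hcU
      have hdeg : ∀ x ∈ U, d ≤ 8 * dg G U x := by
        intro x hx
        rw [hU, Finset.mem_biUnion] at hx
        obtain ⟨Q, hQ, hxQ⟩ := hx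
        have hsub : Q ⊆ U := by
          intro z hz
          rw [hU, Finset.mem_biUnion]
          exact ⟨Q, hQ, hz⟩
        have h1 := (hF Q (hall Q hQ)).2 x hxQ
        have h2 := dg_mono (G := G) hsub x
        omega
      have hins : d * U.card ≤ 8 * inside G U := by
        rw [inside_eq, Finset.mul_sum]
        calc d * U.card = ∑ _x ∈ U, d := by
              rw [Finset.sum_const, smul_eq_mul, mul_comm]
          _ ≤ _ := Finset.sum_le_sum hdeg
      obtain ⟨S, hUS, hS⟩ := Finset.exists_superset_card_eq hcU' hM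
      have h3 := hno S hS
      have h4 : inside G U ≤ inside G S := inside_mono hUS
      have h5 : (d : ℝ) * U.card ≤ 8 * inside G U := by exact_mod_cast hins
      have h6 : (inside G U : ℝ) ≤ inside G S := by exact_mod_cast h4
      have hd' : (0 : ℝ) < d := by exact_mod_cast hd
      have h7 : (d : ℝ) * U.card ≤ d * (8 * η * M) := by nlinarith
      have h8 := le_of_mul_le_mul_left h7 hd'
      linarith
  have hW : (univ.filter fun x => ∃ R, F R ∧ x ∈ R) = (univ.filter F).biUnion id := by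
    ext x
    simp only [Finset.mem_filter, Finset.mem_univ, true_and, Finset.mem_biUnion, id_eq]
  rw [hW]
  exact key _ (fun R hR => (Finset.mem_filter.mp hR).2)

end Pool.Agent.Lib.MP_8d8c46_lc.CW
end

section

/-!
# Campaign CW, task EN1: section 4 up to (4.1)
-/

set_option autoImplicit false

open scoped Classical
open Finset

namespace Pool.Agent.Lib.MP_8d8c46_lc.CW

section
variable {r : ℕ} {X : Bool → Type} [∀ i, Fintype (X i)] {G : ∀ i, SimpleGraph (X i)} (D : Setup r X G)

theorem U_inv (i : Fin r → X false) {y z : X false} (h : D.S.c false i y = D.S.c false i z) :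
    y ∈ D.U ↔ z ∈ D.U :=
  not_congr ⟨fun hy => WW_colour D.S h hy, fun hz => WW_colour D.S h.symm hz⟩

omit [∀ i, Fintype (X i)] in
private theorem EN1_erase [Fintype (X false)] {H : SimpleGraph (X false)} {d : ℕ} (hr : Regular H d)
    (S T : Finset (X false)) : inside H S ≤ inside H (S \ T) + 2 * d * T.card := by
  induction T using Finset.induction_on with
  | empty => simp
  | insert a T ha ih =>
    have e1 : S \ insert a T = (S \ T).erase a := by
      ext x
      simp only [mem_sdiff, mem_insert, mem_erase]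
      tauto
    rw [e1, card_insert_of_notMem ha]
    by_cases h : a ∈ S \ T
    · have h1 := inside_erase (G := H) h
      have h2 := dg_le hr (S \ T) a
      nlinarith
    · rw [erase_eq_of_notMem h]
      nlinarith

include D in
private theorem EN1_nonempty : Nonempty (X false) := by
  have h1 := D.hN
  have h2 := D.hNn
  exact Fintype.card_pos_iff.1 (by omega)

/-- PROOF: `union_small` for `G true` (`F R = RR D.S D.d D.N true R`) and `WW_card` (`X false` is not empty as `1 ≤ N ≤ card`). -/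
theorem card_W : ((univ.filter fun x => x ∉ D.U).card : ℝ) ≤ 8 * D.η * D.N := by
  have hne := EN1_nonempty D
  have h1 := union_small D.hd (D.hcard ▸ D.hNn) D.hη0.le (by linarith [D.hη1]) D.no
    (fun R => RR D.S D.d D.N true R) (fun R hR => ⟨hR.2.1, hR.2.2⟩)
  have h2 := WW_card D.S D.d (D.N : ℝ)
  have h3 : (univ.filter fun x => x ∉ D.U) = univ.filter fun x => x ∈ WW D.S D.d D.N false := by
    refine filter_congr fun x _ => ?_
    exact not_not
  rw [h3, h2]
  refine le_of_eq_of_le ?_ h1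
  congr 2
  ext x
  simp only [mem_filter, mem_univ, true_and]
  exact Iff.rfl

theorem h_mem (x : X false) : 0 ≤ D.h x ∧ D.h x ≤ 1 := by
  unfold Setup.h
  split_ifs <;> norm_num

theorem h_supp : Supp D.U D.h := by
  intro x hx
  unfold Setup.h
  rw [if_neg fun h => hx h.2]

theorem h_sum : ∑ x, D.h x ≤ D.N := by
  have h1 : ∑ x, D.h x = ((univ.filter fun x => x ∈ D.A ∧ x ∈ D.U).card : ℝ) := by
    unfold Setup.h
    rw [sum_boole]
  rw [h1, ← D.hA]
  exact Nat.cast_le.2 (card_le_card fun x hx => (mem_filter.1 hx).2.1)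

theorem h_norm : ip D.h D.h ≤ D.N := by
  have h1 : ip D.h D.h = ∑ x, D.h x := by
    unfold ip
    refine sum_congr rfl fun x _ => ?_
    unfold Setup.h
    split_ifs <;> norm_num
  rw [h1]
  exact h_sum D

/-- PROOF: `d * ip h (M h) = qf h = inside (A ∩ U)` (`qf_eq`, `qf_ind`) `≥ inside A - 2 d card (A \ U) ≥ (1 - η) d N - 2 d * 8 η N` (`inside_erase` and `dg_le`, induction; or count the pairs of `A` with an
element outside `U`; `card_W`). -/
theorem h_M : (1 - 17 * D.η) * D.N ≤ ip D.h (D.M D.h) := by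
  have hd : (0 : ℝ) < D.d := Nat.cast_pos.2 D.hd
  have h1 : (D.d : ℝ) * ip D.h (D.M D.h) = qf (G false) D.h := qf_eq D.hd D.h
  have h2 : D.h = fun x => if x ∈ D.A \ (univ.filter fun x => x ∉ D.U) then 1 else 0 := by
    funext x
    unfold Setup.h
    refine if_congr ?_ rfl rfl
    simp
  have h3 : qf (G false) D.h =
      (inside (G false) (D.A \ (univ.filter fun x => x ∉ D.U)) : ℝ) := by
    rw [h2]
    exact qf_ind _
  have h4 : (inside (G false) D.A : ℝ) ≤
      (inside (G false) (D.A \ (univ.filter fun x => x ∉ D.U)) : ℝ) +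
        2 * D.d * ((univ.filter fun x => x ∉ D.U).card : ℝ) := by
    exact_mod_cast EN1_erase (D.reg false) D.A (univ.filter fun x => x ∉ D.U)
  have h5 := card_W D
  have h6 := D.yes
  have h7 : 2 * (D.d : ℝ) * ((univ.filter fun x => x ∉ D.U).card : ℝ) ≤
      2 * D.d * (8 * D.η * D.N) := mul_le_mul_of_nonneg_left h5 (by positivity)
  have h8 : (D.d : ℝ) * ((1 - 17 * D.η) * D.N) ≤ D.d * ip D.h (D.M D.h) := by
    rw [h1, h3]
    nlinarith
  exact le_of_mul_le_mul_left h8 hd

/-- (4.1) PROOF: `transfer` gives `f' = φ ∘ e.symm` on `X true` with the same sum and `qf`; `round_no` for `G true`, `B = η d N`: `d * ip φ (M φ) = qf (G true) f' ≤ η d N + 2 d √N ≤ 2 η d N` as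
`2 √N ≤ η N` (`4 N ≤ (η N) ^ 2` by `D.big`). -/
theorem meas_small {t : Fin r → X false} {φ : X false → ℝ} (hφ : Meas D.S false t φ)
    (h01 : ∀ x, 0 ≤ φ x ∧ φ x ≤ 1) (hs : ∑ x, φ x ≤ D.N) : ip φ (D.M φ) ≤ 2 * D.η * D.N := by
  have hd : (0 : ℝ) < D.d := Nat.cast_pos.2 D.hd
  have hη := D.hη0
  have hN : (0 : ℝ) ≤ D.N := Nat.cast_nonneg _
  obtain ⟨e, he1, he2⟩ := transfer D.S hφ
  have h1 : (D.d : ℝ) * ip φ (D.M φ) = qf (G false) φ := qf_eq D.hd φ
  have h2 := round_no (D.reg true) D.hN (D.hcard ▸ D.hNn) D.no (f := fun x => φ (e.symm x))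
    (fun x => h01 _) (by rw [he1]; exact hs)
  rw [he2, ← h1] at h2
  have h3 : Real.sqrt D.N ≤ D.η * D.N / 2 := by
    refine Real.sqrt_le_iff.2 ⟨by positivity, ?_⟩
    have h4 := mul_le_mul_of_nonneg_right D.big hN
    nlinarith
  have h5 : 2 * (D.d : ℝ) * Real.sqrt D.N ≤ 2 * D.d * (D.η * D.N / 2) :=
    mul_le_mul_of_nonneg_left h3 (by positivity)
  have h6 : (D.d : ℝ) * ip φ (D.M φ) ≤ D.d * (2 * D.η * D.N) := by nlinarith
  exact le_of_mul_le_mul_left h6 hd

end

end Pool.Agent.Lib.MP_8d8c46_lc.CW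
end

section

/-!
# Campaign CW, task PJ: averages over the colour classes
-/

set_option autoImplicit false

open scoped Classical
open Finset

namespace Pool.Agent.Lib.MP_8d8c46_lc.CW

section
variable {V T T' : Type} [Fintype V]

theorem avg_meas (col : V → T) (h : V → ℝ) {x y : V} (hxy : col x = col y) : avg col h x = avg col h y := by
  unfold avg
  rw [hxy]

/-- PROOF: `∑ x, avg x * g x = ∑ x, ∑ y (col y = col x), h y * g y / card (class of x)` as `g x = g y`; exchange the sums: the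
inner sum of `1 / card` over the class of `y` is `1`. -/
theorem avg_ip (col : V → T) (h g : V → ℝ) (hg : ∀ x y, col x = col y → g x = g y) :
    ip (avg col h) g = ip h g := by
  unfold ip avg
  have h1 : ∀ x : V, (∑ y ∈ univ.filter (fun y => col y = col x), h y) /
      ((univ.filter (fun y => col y = col x)).card : ℝ) * g x =
      ∑ y, if col y = col x then h y * g y / ((univ.filter (fun z => col z = col y)).card : ℝ) else 0 := by
    intro x
    rw [div_mul_eq_mul_div, Finset.sum_mul, Finset.sum_div, Finset.sum_filter]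
    refine Finset.sum_congr rfl fun y _ => ?_
    by_cases hc : col y = col x
    · rw [if_pos hc, if_pos hc, hg y x hc, hc]
    · rw [if_neg hc, if_neg hc]
  rw [Finset.sum_congr rfl (fun x _ => h1 x), Finset.sum_comm]
  refine Finset.sum_congr rfl fun y _ => ?_
  have h2 : (∑ x, if col y = col x then h y * g y / ((univ.filter (fun z => col z = col y)).card : ℝ) else 0) =
      ((univ.filter (fun z => col z = col y)).card : ℝ) *
        (h y * g y / ((univ.filter (fun z => col z = col y)).card : ℝ)) := by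
    rw [← Finset.sum_filter, Finset.sum_const, nsmul_eq_mul]
    congr 3
    ext z
    simp only [mem_filter, mem_univ, true_and]
    exact eq_comm
  rw [h2]
  have h3 : ((univ.filter (fun z => col z = col y)).card : ℝ) ≠ 0 := by
    have : 0 < (univ.filter (fun z => col z = col y)).card :=
      Finset.card_pos.2 ⟨y, by simp only [mem_filter, mem_univ, true_and]⟩
    exact_mod_cast this.ne'
  field_simp

/-- PROOF: `avg_ip` with `g = 1`. -/
theorem avg_sum (col : V → T) (h : V → ℝ) : ∑ x, avg col h x = ∑ x, h x := by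
  have h1 := avg_ip col h (fun _ => (1 : ℝ)) (fun _ _ _ => rfl)
  unfold ip at h1
  simpa only [mul_one] using h1

theorem avg_mem (col : V → T) {h : V → ℝ} (h01 : ∀ x, 0 ≤ h x ∧ h x ≤ 1) (x : V) :
    0 ≤ avg col h x ∧ avg col h x ≤ 1 := by
  unfold avg
  have h0 : 0 < ((univ.filter (fun z => col z = col x)).card : ℝ) := by
    have : 0 < (univ.filter (fun z => col z = col x)).card :=
      Finset.card_pos.2 ⟨x, by simp only [mem_filter, mem_univ, true_and]⟩
    exact_mod_cast this
  refine ⟨div_nonneg (Finset.sum_nonneg fun y _ => (h01 y).1) h0.le, ?_⟩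
  rw [div_le_one h0]
  calc ∑ y ∈ univ.filter (fun y => col y = col x), h y
      ≤ ∑ y ∈ univ.filter (fun y => col y = col x), (1 : ℝ) := Finset.sum_le_sum fun y _ => (h01 y).2
    _ = ((univ.filter (fun z => col z = col x)).card : ℝ) := by
        rw [Finset.sum_const, nsmul_eq_mul, mul_one]

theorem avg_supp (col : V → T) {h : V → ℝ} {U : Set V} (hU : ∀ x y, col x = col y → (x ∈ U ↔ y ∈ U))
    (hh : Supp U h) : Supp U (avg col h) := by
  intro x hx
  unfold avg
  have h1 : ∑ y ∈ univ.filter (fun y => col y = col x), h y = 0 := by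
    refine Finset.sum_eq_zero fun y hy => ?_
    rw [mem_filter] at hy
    exact hh y fun hyU => hx ((hU y x hy.2).1 hyU)
  rw [h1, zero_div]

/-- PROOF: by `avg_ip` with `g = avg col h`: `ip (avg h) (avg h) = ip h (avg h)`, so
`0 ≤ ip (h - avg h) (h - avg h) = ip h h - ip (avg h) (avg h)`. -/
theorem avg_norm (col : V → T) (h : V → ℝ) :
    ip (fun x => h x - avg col h x) (fun x => h x - avg col h x) = ip h h - ip (avg col h) (avg col h) := by
  have h1 : ip (avg col h) (avg col h) = ip h (avg col h) :=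
    avg_ip col h (avg col h) fun x y hxy => avg_meas col h hxy
  have h2 : ip (fun x => h x - avg col h x) (fun x => h x - avg col h x) =
      ip h h - 2 * ip h (avg col h) + ip (avg col h) (avg col h) := by
    unfold ip
    rw [Finset.mul_sum, ← Finset.sum_sub_distrib, ← Finset.sum_add_distrib]
    refine Finset.sum_congr rfl fun x _ => ?_
    ring
  rw [h2]
  linarith

theorem avg_norm_le (col : V → T) (h : V → ℝ) : ip (avg col h) (avg col h) ≤ ip h h := by
  have h1 := avg_norm col h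
  have h2 := ip_self_nonneg (fun x => h x - avg col h x)
  linarith

/-- `g = h - avg col h` is orthogonal to the functions which are constant on the classes. -/
theorem avg_orth (col : V → T) (h ψ : V → ℝ) (hψ : ∀ x y, col x = col y → ψ x = ψ y) :
    ip (fun x => h x - avg col h x) ψ = 0 := by
  rw [ip_sub, avg_ip col h ψ hψ, sub_self]

/-- PROOF. `f = avg col h`, `g = h - f`, `f' = avg col' h`. `f` is constant on the classes of `col'` (`href`), so `avg col' f = f` and
`f' = f + avg col' g`, `ip f (avg col' g) = ip f g = 0` (`avg_ip`, `avg_orth`), so `ip f' f' = ip f f + ip e e` with `e = avg col' g`, and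
`ip ψ g = ip ψ e` (`avg_ip`), `ip ψ g ^ 2 ≤ ip ψ ψ * ip e e` (`ip_cs`). -/
theorem avg_incr (col : V → T) (col' : V → T') (href : ∀ x y, col' x = col' y → col x = col y) (h ψ : V → ℝ)
    (hψ : ∀ x y, col' x = col' y → ψ x = ψ y) :
    ip (avg col h) (avg col h) * ip ψ ψ + ip ψ (fun x => h x - avg col h x) ^ 2 ≤
      ip (avg col' h) (avg col' h) * ip ψ ψ := by
  have hfm : ∀ x y, col' x = col' y → avg col h x = avg col h y :=
    fun x y hxy => avg_meas col h (href x y hxy)
  -- `e = avg col' h - avg col h`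
  have h1 : ip ψ (fun x => h x - avg col h x) = ip ψ (fun x => avg col' h x - avg col h x) := by
    rw [ip_comm ψ, ip_comm ψ, ip_sub, ip_sub, avg_ip col' h ψ hψ]
  have h2 : ip (avg col' h) (avg col h) = ip (avg col h) (avg col h) := by
    rw [avg_ip col' h (avg col h) hfm, avg_ip col h (avg col h) fun x y hxy => avg_meas col h hxy]
  have h3 : ip (fun x => avg col' h x - avg col h x) (fun x => avg col' h x - avg col h x) =
      ip (avg col' h) (avg col' h) - ip (avg col h) (avg col h) := by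
    have h4 : ip (fun x => avg col' h x - avg col h x) (fun x => avg col' h x - avg col h x) =
        ip (avg col' h) (avg col' h) - 2 * ip (avg col' h) (avg col h) +
          ip (avg col h) (avg col h) := by
      unfold ip
      rw [Finset.mul_sum, ← Finset.sum_sub_distrib, ← Finset.sum_add_distrib]
      refine Finset.sum_congr rfl fun x _ => ?_
      ring
    rw [h4, h2]
    ring
  have h5 := ip_cs ψ (fun x => avg col' h x - avg col h x)
  rw [h1]
  rw [h3] at h5
  nlinarith [h5]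

end

end Pool.Agent.Lib.MP_8d8c46_lc.CW
end

section

/-!
# Campaign CW, task EN2: (4.2)
-/

set_option autoImplicit false

open scoped Classical
open Finset

namespace Pool.Agent.Lib.MP_8d8c46_lc.CW

section
variable {r : ℕ} {X : Bool → Type} [∀ i, Fintype (X i)] {G : ∀ i, SimpleGraph (X i)} (D : Setup r X G)

theorem f_meas (t : Fin r → X false) : Meas D.S false t (D.f t) := by
  intro y z h
  exact avg_meas (D.S.c false t) D.h h

/-- PROOF: `avg_supp`, `U_inv`. -/
theorem f_supp (t : Fin r → X false) : Supp D.U (D.f t) :=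
  avg_supp (D.S.c false t) (fun _ _ h => U_inv D t h) (h_supp D)

theorem g_supp (t : Fin r → X false) : Supp D.U (D.g t) := by
  intro x hx
  show D.h x - D.f t x = 0
  rw [h_supp D x hx, f_supp D t x hx, sub_zero]

/-- PROOF: `meas_small` (`avg_mem`, `avg_sum`, `h_mem`, `h_sum`). -/
theorem f_M (t : Fin r → X false) : ip (D.f t) (D.M (D.f t)) ≤ 2 * D.η * D.N := by
  refine meas_small D (f_meas D t) (avg_mem _ (h_mem D)) ?_
  have h1 : ∑ x, D.f t x = ∑ x, D.h x := avg_sum (D.S.c false t) D.h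
  rw [h1]
  exact h_sum D

/-- (4.2) PROOF. `ip g (M f) = 0` (`avg_orth`, `meas_Mo`). `ip g (M g) = ip g (M h) - ip g (M f) = ip g (M h) = ip h (M g) = ip h (M h) - ip h (M f)`, and `ip h (M f) = ip f (M f)` as `ip g (M f) = 0`. So
`ip g (M g) = ip h (M h) - ip f (M f) ≥ (1 - 19 η) N` (`h_M`, `f_M`). -/
theorem g_M_aux (t : Fin r → X false) : (1 - 19 * D.η) * D.N ≤ ip (D.g t) (D.M (D.g t)) := by
  have h1 : ip (D.g t) (D.M (D.f t)) = 0 :=
    avg_orth (D.S.c false t) D.h (D.M (D.f t)) (fun x y hxy => meas_Mo D.S (f_meas D t) D.d x y hxy)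
  have h2 : D.M (D.g t) = fun x => 1 * D.M D.h x + (-1) * D.M (D.f t) x := by
    have h3 : D.g t = fun x => 1 * D.h x + (-1) * D.f t x := by
      funext x
      show D.h x - D.f t x = _
      ring
    show Mo (G false) D.d (D.g t) = _
    rw [h3, Mo_lin]
    rfl
  have h4 : ∀ φ : X false → ℝ, ip φ (D.M (D.g t)) = ip φ (D.M D.h) - ip φ (D.M (D.f t)) := by
    intro φ
    rw [h2, ip_comm, ip_lin, ip_comm (D.M D.h), ip_comm (D.M (D.f t))]
    ring
  have h5 : ∀ ψ : X false → ℝ, ip (D.g t) ψ = ip D.h ψ - ip (D.f t) ψ := fun ψ => ip_sub _ _ _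
  have h6 : ip (D.f t) (D.M D.h) = ip D.h (D.M (D.f t)) := by
    rw [ip_comm]
    exact (ip_Mo_symm (G := G false) (d := D.d) D.h (D.f t)).symm
  have h7 := h5 (D.M (D.f t))
  rw [h1] at h7
  have h8 := h4 (D.g t)
  rw [h1, h5 (D.M D.h), h6] at h8
  have h9 := h_M D
  have h10 := f_M D t
  rw [h8]
  linarith

/-- PROOF: `ip g g ≤ ip h h ≤ N` (`avg_norm`, `h_norm`), `1 - 19 η ≥ 0`. -/
theorem g_M (t : Fin r → X false) : (1 - 2 * (19 / 2 * D.η)) * ip (D.g t) (D.g t) ≤ ip (D.g t) (D.M (D.g t)) := by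
  have h1 : ip (D.g t) (D.g t) = ip D.h D.h - ip (D.f t) (D.f t) := avg_norm (D.S.c false t) D.h
  have h2 := ip_self_nonneg (D.f t)
  have h3 := h_norm D
  have h4 : ip (D.g t) (D.g t) ≤ D.N := by linarith
  have h5 := g_M_aux D t
  have h6 : 0 ≤ 1 - 2 * (19 / 2 * D.η) := by
    have := D.hη1
    linarith
  calc (1 - 2 * (19 / 2 * D.η)) * ip (D.g t) (D.g t) ≤ (1 - 2 * (19 / 2 * D.η)) * D.N :=
        mul_le_mul_of_nonneg_left h4 h6
    _ = (1 - 19 * D.η) * D.N := by ring
    _ ≤ ip (D.g t) (D.M (D.g t)) := h5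

/-- PROOF: `ip g g ≥ ip g (M g)` (`ip_Mo_le`) `≥ (1 - 19 η) N ≥ N / 2`. -/
theorem g_norm (t : Fin r → X false) : (D.N : ℝ) / 2 ≤ ip (D.g t) (D.g t) := by
  have h1 := g_M_aux D t
  have h2 : ip (D.g t) (D.M (D.g t)) ≤ ip (D.g t) (D.g t) := ip_Mo_le (D.reg false) D.hd (D.g t)
  have h3 := D.hη1
  have h4 : (0 : ℝ) ≤ D.N := Nat.cast_nonneg _
  have h5 : (1 / 2 : ℝ) * D.N ≤ (1 - 19 * D.η) * D.N :=
    mul_le_mul_of_nonneg_right (by linarith) h4
  linarith

end

end Pool.Agent.Lib.MP_8d8c46_lc.CW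
end

section

/-!
# Campaign CW, task CH1: coarea inequality (Lemma 6)
-/

set_option autoImplicit false

open scoped Classical
open Finset

namespace Pool.Agent.Lib.MP_8d8c46_lc.CW

private theorem CH1_cut {V : Type} [Fintype V] (G : SimpleGraph V) (R : Finset V) :
    (∑ x, ∑ y, if G.Adj x y then |(if x ∈ R then (1 : ℝ) else 0) - (if y ∈ R then (1 : ℝ) else 0)|
      else 0) = 2 * (cut G R : ℝ) := by
  have h1 : (cut G R : ℝ) = ∑ x, ∑ y, if x ∈ R ∧ y ∉ R ∧ G.Adj x y then (1 : ℝ) else 0 := by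
    unfold cut
    rw [Finset.card_filter]
    push_cast
    rw [Fintype.sum_prod_type]
  have h2 : (cut G R : ℝ) = ∑ x, ∑ y, if y ∈ R ∧ x ∉ R ∧ G.Adj x y then (1 : ℝ) else 0 := by
    rw [h1, Finset.sum_comm]
    refine Finset.sum_congr rfl fun x _ => Finset.sum_congr rfl fun y _ => ?_
    have : (y ∈ R ∧ x ∉ R ∧ G.Adj y x) ↔ (y ∈ R ∧ x ∉ R ∧ G.Adj x y) := by
      rw [G.adj_comm y x]
    simp only [this]
  rw [two_mul]
  nth_rewrite 1 [h1]
  nth_rewrite 1 [h2]
  rw [← Finset.sum_add_distrib]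
  refine Finset.sum_congr rfl fun x _ => ?_
  rw [← Finset.sum_add_distrib]
  refine Finset.sum_congr rfl fun y _ => ?_
  by_cases hA : G.Adj x y <;> by_cases hx : x ∈ R <;> by_cases hy : y ∈ R <;> simp [hA, hx, hy]

/-- PROOF. Induction on the number of `x` with `h x > 0`. If there is none both sides are `0`. Let `m > 0` be the least
positive value of `h`, `R = lev h 0`, `h' x = h x - m` for `x ∈ R` and `h' x = 0` otherwise. `h' ≥ 0`; `h'` has fewer positive
values; `lev h' θ = lev h (θ + m)` for `θ ≥ 0`, so `LevExp G d h'`. For all `x, y`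
`|h x - h y| = m * |1_R x - 1_R y| + |h' x - h' y|` (both in `R`, both outside, one of them in `R`: then the other has `h = 0`).
The sum of `|1_R x - 1_R y|` over the ordered adjacent pairs is `2 * cut G R` (`cut` is symmetric: pairs with `x ∈ R, y ∉ R` and pairs
with `x ∉ R, y ∈ R`), `cut G R = d * card R - inside G R ≥ (3 / 4) d * card R` (`inside_add_cut`, `LevExp` for `θ = 0`), and
`∑ h = m * card R + ∑ h'`. -/
theorem coarea {V : Type} [Fintype V] {G : SimpleGraph V} {d : ℕ} (hr : Regular G d) {h : V → ℝ}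
    (h0 : ∀ x, 0 ≤ h x) (hL : LevExp G d h) :
    (3 / 2 : ℝ) * d * ∑ x, h x ≤ ∑ x, ∑ y, if G.Adj x y then |h x - h y| else 0 := by
  suffices key : ∀ (k : ℕ) (h : V → ℝ), (∀ x, 0 ≤ h x) → LevExp G d h → (lev h 0).card = k →
      (3 / 2 : ℝ) * d * ∑ x, h x ≤ ∑ x, ∑ y, if G.Adj x y then |h x - h y| else 0 from
    key _ h h0 hL rfl
  intro k
  induction k using Nat.strong_induction_on with
  | _ k ih =>
  intro h h0 hL hk
  rcases (lev h 0).eq_empty_or_nonempty with hR | hR
  · have hz : ∀ x, h x = 0 := by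
      intro x
      by_contra hne
      have hx : x ∈ lev h 0 := by
        unfold lev
        rw [Finset.mem_filter]
        exact ⟨Finset.mem_univ _, lt_of_le_of_ne (h0 x) (Ne.symm hne)⟩
      rw [hR] at hx
      exact absurd hx (Finset.notMem_empty _)
    simp [hz]
  obtain ⟨x0, hx0, hmin⟩ := Finset.exists_min_image (lev h 0) h hR
  set R := lev h 0 with hRdef
  have hmem : ∀ x, x ∈ R ↔ 0 < h x := by
    intro x
    rw [hRdef]
    unfold lev
    rw [Finset.mem_filter]
    exact ⟨fun hh => hh.2, fun hh => ⟨Finset.mem_univ _, hh⟩⟩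
  have hout : ∀ x, x ∉ R → h x = 0 := by
    intro x hx
    rw [hmem, not_lt] at hx
    exact le_antisymm hx (h0 x)
  set m := h x0 with hm
  have hm0 : 0 < m := (hmem x0).mp hx0
  set h' : V → ℝ := fun x => if x ∈ R then h x - m else 0 with hh'
  have h'in : ∀ x, x ∈ R → h' x = h x - m := fun x hx => if_pos hx
  have h'out : ∀ x, x ∉ R → h' x = 0 := fun x hx => if_neg hx
  have h'0 : ∀ x, 0 ≤ h' x := by
    intro x
    by_cases hx : x ∈ R
    · rw [h'in x hx]
      have := hmin x hx
      linarith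
    · rw [h'out x hx]
  have hlev : ∀ θ : ℝ, 0 ≤ θ → lev h' θ = lev h (θ + m) := by
    intro θ hθ
    unfold lev
    ext x
    rw [Finset.mem_filter, Finset.mem_filter]
    by_cases hx : x ∈ R
    · rw [h'in x hx]
      constructor
      · rintro ⟨_, h1⟩
        exact ⟨Finset.mem_univ _, by linarith⟩
      · rintro ⟨_, h1⟩
        exact ⟨Finset.mem_univ _, by linarith⟩
    · rw [h'out x hx, hout x hx]
      constructor
      · rintro ⟨_, h1⟩
        exact absurd h1 (not_lt.mpr hθ)
      · rintro ⟨_, h1⟩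
        exact absurd h1 (not_lt.mpr (by linarith))
  have hL' : LevExp G d h' := by
    intro θ hθ
    rw [hlev θ hθ]
    exact hL (θ + m) (by linarith)
  have hcard : (lev h' 0).card < k := by
    rw [← hk, hlev 0 le_rfl, zero_add]
    apply Finset.card_lt_card
    rw [Finset.ssubset_iff_of_subset]
    · refine ⟨x0, hx0, ?_⟩
      unfold lev
      rw [Finset.mem_filter]
      rintro ⟨_, h1⟩
      exact lt_irrefl _ h1
    · intro x hx
      rw [hmem]
      unfold lev at hx
      rw [Finset.mem_filter] at hx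
      exact lt_trans hm0 hx.2
  have hind := ih _ hcard h' h'0 hL' rfl
  -- the sum of `h`
  have hsum : ∑ x, h x = m * (R.card : ℝ) + ∑ x, h' x := by
    have h1 : ∀ x, h x = m * (if x ∈ R then (1 : ℝ) else 0) + h' x := by
      intro x
      by_cases hx : x ∈ R
      · rw [h'in x hx, if_pos hx]; ring
      · rw [h'out x hx, if_neg hx, hout x hx]; ring
    rw [Finset.sum_congr rfl fun x _ => h1 x, Finset.sum_add_distrib, ← Finset.mul_sum]
    congr 2
    simp
  have hdiff : ∀ x y, |h x - h y| =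
      m * |(if x ∈ R then (1 : ℝ) else 0) - (if y ∈ R then (1 : ℝ) else 0)| + |h' x - h' y| := by
    intro x y
    by_cases hx : x ∈ R
    · by_cases hy : y ∈ R
      · rw [h'in x hx, h'in y hy, if_pos hx, if_pos hy, sub_self, abs_zero, mul_zero, zero_add]
        congr 1
        ring
      · have h1 := hmin x hx
        rw [h'in x hx, h'out y hy, if_pos hx, if_neg hy, hout y hy, sub_zero, sub_zero, sub_zero,
          abs_one, mul_one, abs_of_nonneg (h0 x), abs_of_nonneg (by linarith)]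
        ring
    · by_cases hy : y ∈ R
      · have h1 := hmin y hy
        rw [h'out x hx, h'in y hy, if_neg hx, if_pos hy, hout x hx, zero_sub, zero_sub, zero_sub,
          abs_neg, abs_neg, abs_neg, abs_one, mul_one, abs_of_nonneg (h0 y),
          abs_of_nonneg (by linarith)]
        ring
      · rw [h'out x hx, h'out y hy, if_neg hx, if_neg hy, hout x hx, hout y hy]
        simp
  have hRHS : (∑ x, ∑ y, if G.Adj x y then |h x - h y| else 0) =
      m * (2 * (cut G R : ℝ)) + ∑ x, ∑ y, if G.Adj x y then |h' x - h' y| else 0 := by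
    rw [← CH1_cut, Finset.mul_sum, ← Finset.sum_add_distrib]
    refine Finset.sum_congr rfl fun x _ => ?_
    rw [Finset.mul_sum, ← Finset.sum_add_distrib]
    refine Finset.sum_congr rfl fun y _ => ?_
    by_cases hA : G.Adj x y
    · rw [if_pos hA, if_pos hA, if_pos hA, hdiff]
    · rw [if_neg hA, if_neg hA, if_neg hA, mul_zero, zero_add]
  have hic : ((inside G R : ℕ) : ℝ) + (cut G R : ℝ) = d * (R.card : ℝ) := by
    exact_mod_cast inside_add_cut hr R
  have hin : 4 * ((inside G R : ℕ) : ℝ) ≤ d * (R.card : ℝ) := by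
    exact_mod_cast hL 0 le_rfl
  have hcut : (3 / 2 : ℝ) * (d * (R.card : ℝ)) ≤ 2 * (cut G R : ℝ) := by linarith
  have hmul := mul_le_mul_of_nonneg_left hcut hm0.le
  rw [hRHS, hsum]
  calc (3 / 2 : ℝ) * d * (m * (R.card : ℝ) + ∑ x, h' x)
      = m * ((3 / 2 : ℝ) * (d * (R.card : ℝ))) + (3 / 2 : ℝ) * d * ∑ x, h' x := by ring
    _ ≤ _ := add_le_add hmul hind

end Pool.Agent.Lib.MP_8d8c46_lc.CW
end

section

/-!
# Campaign CW, task CH2: Cheeger inequality (Lemma 7)
-/

set_option autoImplicit false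

open scoped Classical
open Finset

namespace Pool.Agent.Lib.MP_8d8c46_lc.CW

/-- PROOF. `h x = g x ^ 2`: `lev h θ = lev g (√θ)` for `θ ≥ 0` (`g ≥ 0`), so `LevExp G d h`, and `coarea` gives
`(3 / 2) d A ≤ ∑∑ |g x ^ 2 - g y ^ 2| = ∑∑ |g x - g y| * (g x + g y)`, `A = ip g g`. By Cauchy-Schwarz over the ordered
adjacent pairs (`Finset.sum_mul_sq_le_sq_mul_sq` on `univ ×ˢ univ`, or `Finset.sum_product'`), `dir_sub` and `dir_add`,
`((3 / 2) d A) ^ 2 ≤ (2 d (A - B)) * (2 d (A + B))`, `B = ip g (Mo G d g)`. So `B ^ 2 ≤ (7 / 16) A ^ 2 ≤ (2 / 3 * A) ^ 2` and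
`B ≤ (2 / 3) A` (`abs_le_of_sq_le_sq`, `A ≥ 0`). -/
theorem cheeger {V : Type} [Fintype V] {G : SimpleGraph V} {d : ℕ} (hr : Regular G d) (hd : 1 ≤ d) {g : V → ℝ}
    (g0 : ∀ x, 0 ≤ g x) (hL : LevExp G d g) : ip g (Mo G d g) ≤ (2 / 3 : ℝ) * ip g g := by
  have hlev : ∀ θ : ℝ, 0 ≤ θ → lev (fun x => g x ^ 2) θ = lev g (Real.sqrt θ) := by
    intro θ hθ
    unfold lev
    apply Finset.filter_congr
    intro x _
    constructor
    · intro h
      have h1 : Real.sqrt θ < Real.sqrt (g x ^ 2) := Real.sqrt_lt_sqrt hθ h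
      rwa [Real.sqrt_sq (g0 x)] at h1
    · intro h
      have h1 : Real.sqrt θ ^ 2 < g x ^ 2 := pow_lt_pow_left₀ h (Real.sqrt_nonneg θ) two_ne_zero
      rwa [Real.sq_sqrt hθ] at h1
  have hL' : LevExp G d (fun x => g x ^ 2) := by
    intro θ hθ
    rw [hlev θ hθ]
    exact hL _ (Real.sqrt_nonneg θ)
  have hco := coarea hr (h := fun x => g x ^ 2) (fun x => sq_nonneg _) hL'
  obtain ⟨A, hA⟩ : ∃ A : ℝ, A = ip g g := ⟨_, rfl⟩
  obtain ⟨B, hB⟩ : ∃ B : ℝ, B = ip g (Mo G d g) := ⟨_, rfl⟩
  have hA0 : 0 ≤ A := by rw [hA]; exact ip_self_nonneg g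
  have hsum : ∑ x, g x ^ 2 = A := by
    rw [hA]
    unfold ip
    exact Finset.sum_congr rfl fun x _ => by ring
  have hd1 : (1 : ℝ) ≤ d := by exact_mod_cast hd
  have hcs : (∑ x, ∑ y, if G.Adj x y then |g x ^ 2 - g y ^ 2| else 0) ^ 2 ≤
      (2 * d * (A - B)) * (2 * d * (A + B)) := by
    have h1 : (∑ x, ∑ y, if G.Adj x y then |g x ^ 2 - g y ^ 2| else 0) =
        ∑ p : V × V, (if G.Adj p.1 p.2 then |g p.1 - g p.2| else 0) *
          (if G.Adj p.1 p.2 then g p.1 + g p.2 else 0) := by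
      rw [Fintype.sum_prod_type]
      refine Finset.sum_congr rfl fun x _ => Finset.sum_congr rfl fun y _ => ?_
      by_cases hxy : G.Adj x y
      · rw [if_pos hxy]
        show _ = (if G.Adj x y then _ else _) * (if G.Adj x y then _ else _)
        rw [if_pos hxy, if_pos hxy]
        have h2 : g x ^ 2 - g y ^ 2 = (g x - g y) * (g x + g y) := by ring
        rw [h2, abs_mul, abs_of_nonneg (add_nonneg (g0 x) (g0 y))]
      · rw [if_neg hxy]
        show _ = (if G.Adj x y then _ else _) * (if G.Adj x y then _ else _)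
        rw [if_neg hxy, if_neg hxy, mul_zero]
    have h3 : ∑ p : V × V, (if G.Adj p.1 p.2 then |g p.1 - g p.2| else 0) ^ 2 = 2 * d * (A - B) := by
      rw [hA, hB, ← dir_sub hr hd g, Fintype.sum_prod_type]
      refine Finset.sum_congr rfl fun x _ => Finset.sum_congr rfl fun y _ => ?_
      show (if G.Adj x y then _ else _) ^ 2 = _
      by_cases hxy : G.Adj x y
      · rw [if_pos hxy, if_pos hxy, sq_abs]
      · rw [if_neg hxy, if_neg hxy]
        norm_num
    have h4 : ∑ p : V × V, (if G.Adj p.1 p.2 then g p.1 + g p.2 else 0) ^ 2 = 2 * d * (A + B) := by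
      rw [hA, hB, ← dir_add hr hd g, Fintype.sum_prod_type]
      refine Finset.sum_congr rfl fun x _ => Finset.sum_congr rfl fun y _ => ?_
      show (if G.Adj x y then _ else _) ^ 2 = _
      by_cases hxy : G.Adj x y
      · rw [if_pos hxy, if_pos hxy]
      · rw [if_neg hxy, if_neg hxy]
        norm_num
    rw [h1, ← h3, ← h4]
    exact Finset.sum_mul_sq_le_sq_mul_sq _ _ _
  rw [← hA, ← hB]
  have hS : 3 / 2 * (d : ℝ) * A ≤ ∑ x, ∑ y, if G.Adj x y then |g x ^ 2 - g y ^ 2| else 0 := by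
    rw [← hsum]
    exact hco
  have hS2 : (3 / 2 * (d : ℝ) * A) ^ 2 ≤ (2 * d * (A - B)) * (2 * d * (A + B)) :=
    (pow_le_pow_left₀ (by positivity) hS 2).trans hcs
  have hd2 : 0 < (d : ℝ) ^ 2 := by positivity
  have h5 : (d : ℝ) ^ 2 * (9 / 4 * A ^ 2) ≤ (d : ℝ) ^ 2 * (4 * (A ^ 2 - B ^ 2)) := by
    calc (d : ℝ) ^ 2 * (9 / 4 * A ^ 2) = (3 / 2 * (d : ℝ) * A) ^ 2 := by ring
      _ ≤ (2 * d * (A - B)) * (2 * d * (A + B)) := hS2
      _ = (d : ℝ) ^ 2 * (4 * (A ^ 2 - B ^ 2)) := by ring
  have h6 : 9 / 4 * A ^ 2 ≤ 4 * (A ^ 2 - B ^ 2) := le_of_mul_le_mul_left h5 hd2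
  have h7 : B ^ 2 ≤ (2 / 3 * A) ^ 2 := by nlinarith [sq_nonneg A]
  exact le_of_sq_le_sq h7 (by positivity)

end Pool.Agent.Lib.MP_8d8c46_lc.CW
end

section

/-!
# Campaign CW, task O2: the killed lazy walk `Po`
-/

set_option autoImplicit false

open scoped Classical
open Finset

namespace Pool.Agent.Lib.MP_8d8c46_lc.CW

section
variable {V : Type} [Fintype V] {G : SimpleGraph V} {d : ℕ} {U : Set V}

theorem Po_supp (f : V → ℝ) : Supp U (Po G d U f) := by
  intro x hx
  unfold Po
  rw [if_neg hx]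

theorem Po_lin (a b : ℝ) (f g : V → ℝ) :
    Po G d U (fun x => a * f x + b * g x) = fun x => a * Po G d U f x + b * Po G d U g x := by
  funext x
  unfold Po
  rw [Mo_lin]
  by_cases hx : x ∈ U
  · rw [if_pos hx, if_pos hx, if_pos hx]
    ring
  · rw [if_neg hx, if_neg hx, if_neg hx]
    ring

theorem Po_nonneg {f : V → ℝ} (hf : ∀ x, 0 ≤ f x) (x : V) : 0 ≤ Po G d U f x := by
  unfold Po
  have h1 := Mo_nonneg (G := G) (d := d) hf x
  have h2 := hf x
  split_ifs
  · linarith
  · exact le_refl 0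

/-- PROOF: `Po f x ≤ (f x + Mo f x) / 2`, `sum_Mo`. -/
theorem sum_Po_le (hr : Regular G d) (hd : 1 ≤ d) {f : V → ℝ} (hf : ∀ x, 0 ≤ f x) :
    ∑ x, Po G d U f x ≤ ∑ x, f x := by
  have h1 : ∀ x ∈ (univ : Finset V), Po G d U f x ≤ (f x + Mo G d f x) / 2 := by
    intro x _
    unfold Po
    have h1 := Mo_nonneg (G := G) (d := d) hf x
    have h2 := hf x
    split_ifs
    · exact le_refl _
    · linarith
  have h2 := Finset.sum_le_sum h1
  rw [← Finset.sum_div, Finset.sum_add_distrib, sum_Mo hr hd] at h2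
  linarith

/-- PROOF: both sides are the sum over `x` in `U` (`g` vanishes outside `U`). -/
theorem ip_Po {g : V → ℝ} (hg : Supp U g) (f : V → ℝ) : ip g (Po G d U f) = (ip g f + ip g (Mo G d f)) / 2 := by
  unfold ip
  rw [← Finset.sum_add_distrib, Finset.sum_div]
  refine Finset.sum_congr rfl fun x _ => ?_
  unfold Po
  by_cases hx : x ∈ U
  · rw [if_pos hx]
    ring
  · rw [if_neg hx, hg x hx]
    ring

/-- PROOF: `ip_Po`, `ip_comm`, `ip_Mo_symm`. -/
theorem ip_Po_symm {f g : V → ℝ} (hf : Supp U f) (hg : Supp U g) : ip f (Po G d U g) = ip (Po G d U f) g := by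
  rw [ip_Po hf, ip_comm (Po G d U f) g, ip_Po hg, ip_Mo_symm f g, ip_comm f g,
    ip_comm (Mo G d f) g]

/-- PROOF: `4 |Po f|² ≤ |f + Mo f|² = |f|² + 2 ip f (Mo f) + |Mo f|² ≤ 2 |f|² + 2 ip f (Mo f)` (`norm_Mo_le`). -/
theorem norm_Po_le (hr : Regular G d) (hd : 1 ≤ d) (f : V → ℝ) :
    ip (Po G d U f) (Po G d U f) ≤ (ip f f + ip f (Mo G d f)) / 2 := by
  have h1 : ip (Po G d U f) (Po G d U f) ≤ ∑ x, ((f x + Mo G d f x) / 2) ^ 2 := by
    unfold ip
    refine Finset.sum_le_sum fun x _ => ?_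
    unfold Po
    by_cases hx : x ∈ U
    · rw [if_pos hx]
      exact le_of_eq (by ring)
    · rw [if_neg hx]
      have h2 := sq_nonneg ((f x + Mo G d f x) / 2)
      linarith
  have h2 : ∑ x, ((f x + Mo G d f x) / 2) ^ 2 =
      (ip f f + 2 * ip f (Mo G d f) + ip (Mo G d f) (Mo G d f)) / 4 := by
    unfold ip
    rw [Finset.mul_sum, ← Finset.sum_add_distrib, ← Finset.sum_add_distrib, Finset.sum_div]
    refine Finset.sum_congr rfl fun x _ => ?_
    ring
  have h3 := norm_Mo_le hr hd f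
  linarith

/-- PROOF: `norm_Po_le`, `ip_Mo_le`. -/
theorem norm_Po_le' (hr : Regular G d) (hd : 1 ≤ d) (f : V → ℝ) :
    ip (Po G d U f) (Po G d U f) ≤ ip f f := by
  have h1 := norm_Po_le (U := U) hr hd f
  have h2 := ip_Mo_le hr hd f
  linarith

/-- PROOF: `ip_Po`, `neg_le_ip_Mo`. -/
theorem ip_Po_self_nonneg (hr : Regular G d) (hd : 1 ≤ d) {f : V → ℝ} (hf : Supp U f) :
    0 ≤ ip f (Po G d U f) := by
  rw [ip_Po hf]
  have h1 := neg_le_ip_Mo hr hd f
  linarith

/-- Cauchy-Schwarz for the positive semidefinite form `ip f (Po g)`.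
PROOF: for all real `s, t` the function `s f + t g` is supported in `U`, so by `ip_Po_self_nonneg`, `Po_lin`, `ip_lin`,
`ip_Po_symm`: `0 ≤ s² a + 2 s t b + t² c` with `a = ip f (Po f)`, `b = ip f (Po g)`, `c = ip g (Po g)`, hence `b² ≤ a c`
(`s = c, t = -b` gives `0 ≤ c (a c - b²)`; if `c = 0` take `s = 1`, `t = - (a + 1) / (2 b)`...; or `discrim_le_zero`). -/
theorem Po_cs (hr : Regular G d) (hd : 1 ≤ d) {f g : V → ℝ} (hf : Supp U f) (hg : Supp U g) :
    ip f (Po G d U g) ^ 2 ≤ ip f (Po G d U f) * ip g (Po G d U g) := by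
  have h1 : ∀ t : ℝ, 0 ≤ ip g (Po G d U g) * (t * t) + (2 * ip f (Po G d U g)) * t +
      ip f (Po G d U f) := by
    intro t
    have hF : Supp U (fun x => 1 * f x + t * g x) := by
      intro x hx
      beta_reduce
      rw [hf x hx, hg x hx]
      ring
    have h2 := ip_Po_self_nonneg hr hd hF
    rw [Po_lin, ip_lin, ip_comm f, ip_comm g, ip_lin, ip_lin, ip_comm (Po G d U f) f,
      ip_comm (Po G d U g) f, ip_comm (Po G d U f) g, ip_comm (Po G d U g) g,
      ip_Po_symm hg hf, ip_comm (Po G d U g) f] at h2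
    linarith
  have h3 := discrim_le_zero h1
  unfold discrim at h3
  nlinarith

theorem iter_supp {f : V → ℝ} (hf : Supp U f) (j : ℕ) : Supp U ((Po G d U)^[j] f) := by
  cases j with
  | zero => exact hf
  | succ j =>
    rw [Function.iterate_succ_apply']
    exact Po_supp _

theorem iter_nonneg {f : V → ℝ} (hf : ∀ x, 0 ≤ f x) (j : ℕ) (x : V) : 0 ≤ (Po G d U)^[j] f x := by
  induction j generalizing x with
  | zero => exact hf x
  | succ j ih =>
    rw [Function.iterate_succ_apply']
    exact Po_nonneg (fun y => ih y) x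

theorem iter_sum_le (hr : Regular G d) (hd : 1 ≤ d) {f : V → ℝ} (hf : ∀ x, 0 ≤ f x) (j : ℕ) :
    ∑ x, (Po G d U)^[j] f x ≤ ∑ x, f x := by
  induction j with
  | zero => exact le_refl _
  | succ j ih =>
    rw [Function.iterate_succ_apply']
    exact (sum_Po_le hr hd (fun y => iter_nonneg hf j y)).trans ih

/-- PROOF: induction on `j` with `ip_Po_symm`, `iter_supp`. -/
theorem iter_symm {f g : V → ℝ} (hf : Supp U f) (hg : Supp U g) (j : ℕ) :
    ip f ((Po G d U)^[j] g) = ip ((Po G d U)^[j] f) g := by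
  induction j generalizing g with
  | zero => rfl
  | succ j ih =>
    rw [Function.iterate_succ_apply, ih (Po_supp g), Function.iterate_succ_apply',
      ip_Po_symm (iter_supp hf j) hg]

/-- PROOF: `iter_symm` and `Function.iterate_add_apply`. -/
theorem iter_add {f : V → ℝ} (hf : Supp U f) (i j : ℕ) :
    ip f ((Po G d U)^[i + j] f) = ip ((Po G d U)^[i] f) ((Po G d U)^[j] f) := by
  rw [Function.iterate_add_apply, iter_symm hf (iter_supp hf j) i]

end

end Pool.Agent.Lib.MP_8d8c46_lc.CW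
end

section

/-!
# Campaign CW, task DK: decay of the walk (Lemmas 8 and 9)
-/

set_option autoImplicit false

open scoped Classical
open Finset

namespace Pool.Agent.Lib.MP_8d8c46_lc.CW

section
variable {V : Type} [Fintype V] {G : SimpleGraph V} {d : ℕ} {U : Set V} {N : ℝ}

/-- PROOF. `A = ip f f`, `θ₀ = A / 20 ≥ 2 / N > 0`, `g x = max (f x - θ₀) 0`.
(1) `g x ^ 2 ≥ f x ^ 2 - 2 θ₀ f x` pointwise (`f x ≥ 0`), so `ip g g ≥ A - 2 θ₀ ∑ f ≥ (9 / 10) A`.
(2) for `θ ≥ 0`: `lev g θ = lev f (θ₀ + θ)`, and `θ₀ * card (lev f (θ₀ + θ)) ≤ ∑ f ≤ 1`, so the card is `≤ 1 / θ₀ ≤ N / 2`: `LevExp G d g` by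
`hL`. `cheeger`: `ip g g - ip g (Mo g) ≥ ip g g / 3`.
(3) `|g x - g y| ≤ |f x - f y|` (`abs_max_sub_max_le_abs`), so by `dir_sub` for `f` and `g`: `A - ip f (Mo f) ≥ ip g g - ip g (Mo g) ≥ (3 / 10) A`.
(4) `norm_Po_le`: `≤ (A + (7 / 10) A) / 2`. -/
theorem decay (hr : Regular G d) (hd : 1 ≤ d) (hN : 0 < N) {f : V → ℝ} (f0 : ∀ x, 0 ≤ f x) (hs : ∑ x, f x ≤ 1)
    (hL : ∀ θ : ℝ, 0 ≤ θ → ((lev f θ).card : ℝ) ≤ N / 2 → 4 * inside G (lev f θ) ≤ d * (lev f θ).card)
    (hbig : 40 / N ≤ ip f f) : ip (Po G d U f) (Po G d U f) ≤ (17 / 20 : ℝ) * ip f f := by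
  set A : ℝ := ip f f with hA
  set t : ℝ := A / 20 with ht
  have hNt : 2 / N ≤ t := by
    have e : (2 : ℝ) / N = (40 / N) / 20 := by ring
    rw [e, ht]
    linarith
  have ht0 : 0 < t := lt_of_lt_of_le (by positivity) hNt
  have hA0 : 0 < A := by rw [ht] at ht0; linarith
  let g : V → ℝ := fun x => max (f x - t) 0
  have g0 : ∀ x, 0 ≤ g x := fun x => le_max_right _ _
  -- step 1
  have hgg : 9 / 10 * A ≤ ip g g := by
    have h1 : ∀ x ∈ (univ : Finset V), f x * f x - 2 * t * f x ≤ g x * g x := by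
      intro x _
      rcases le_total t (f x) with h | h
      · have hg : g x = f x - t := max_eq_left (by linarith)
        rw [hg]
        nlinarith [sq_nonneg t]
      · have hg : g x = 0 := max_eq_right (by linarith)
        rw [hg]
        nlinarith [f0 x]
    have h2 : ∑ x, (f x * f x - 2 * t * f x) ≤ ip g g := Finset.sum_le_sum h1
    rw [Finset.sum_sub_distrib, ← Finset.mul_sum] at h2
    have h3 : ∑ x, f x * f x = A := rfl
    rw [h3] at h2
    have h4 : 2 * t * ∑ x, f x ≤ 2 * t * 1 := mul_le_mul_of_nonneg_left hs (by linarith)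
    have h5 : 2 * t * 1 = A / 10 := by rw [ht]; ring
    linarith
  -- step 2
  have hLg : LevExp G d g := by
    intro θ hθ
    have e : lev g θ = lev f (t + θ) := by
      ext x
      simp only [lev, Finset.mem_filter, Finset.mem_univ, true_and]
      show θ < max (f x - t) 0 ↔ t + θ < f x
      rw [lt_max_iff]
      constructor
      · rintro (h | h)
        · linarith
        · linarith
      · intro h
        left
        linarith
    rw [e]
    apply hL (t + θ) (by linarith)
    have h1 : ∑ x ∈ lev f (t + θ), t ≤ ∑ x ∈ lev f (t + θ), f x := by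
      apply Finset.sum_le_sum
      intro x hx
      simp only [lev, Finset.mem_filter, Finset.mem_univ, true_and] at hx
      linarith
    have h2 : ∑ x ∈ lev f (t + θ), f x ≤ ∑ x, f x :=
      Finset.sum_le_sum_of_subset_of_nonneg (Finset.subset_univ _) (fun x _ _ => f0 x)
    rw [Finset.sum_const, nsmul_eq_mul] at h1
    have h3 : ((lev f (t + θ)).card : ℝ) * (2 / N) ≤ 1 := by
      calc ((lev f (t + θ)).card : ℝ) * (2 / N) ≤ ((lev f (t + θ)).card : ℝ) * t :=
            mul_le_mul_of_nonneg_left hNt (Nat.cast_nonneg _)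
        _ ≤ 1 := by linarith
    have h4 : ((lev f (t + θ)).card : ℝ) * 2 ≤ N := by
      have : ((lev f (t + θ)).card : ℝ) * (2 / N) = ((lev f (t + θ)).card : ℝ) * 2 / N := by ring
      rw [this, div_le_one hN] at h3
      exact h3
    linarith
  have hch := cheeger hr hd g0 hLg
  -- step 3
  have hdf := dir_sub hr hd f
  have hdg := dir_sub hr hd g
  have hle : (∑ x, ∑ y, if G.Adj x y then (g x - g y) ^ 2 else 0) ≤
      ∑ x, ∑ y, if G.Adj x y then (f x - f y) ^ 2 else 0 := by
    apply Finset.sum_le_sum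
    intro x _
    apply Finset.sum_le_sum
    intro y _
    split_ifs
    · have h1 : |g x - g y| ≤ |f x - f y| := by
        have h2 := abs_max_sub_max_le_abs (f x - t) (f y - t) 0
        have h3 : f x - t - (f y - t) = f x - f y := by ring
        rw [h3] at h2
        exact h2
      exact sq_le_sq.mpr h1
    · exact le_refl _
  rw [hdf, hdg] at hle
  have hdpos : (0 : ℝ) < 2 * d := by
    have : (1 : ℝ) ≤ d := by exact_mod_cast hd
    linarith
  have hle2 : ip g g - ip g (Mo G d g) ≤ ip f f - ip f (Mo G d f) := le_of_mul_le_mul_left hle hdpos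
  have hn := norm_Po_le (U := U) hr hd f
  linarith

/-- PROOF. Induction on `j`, `fj = (Po G d U)^[j] f` (`iter_nonneg`, `iter_sum_le`, `Function.iterate_succ_apply'`). If `ip fj fj < 40 / N`
then `norm_Po_le'`. If `ip fj fj ≥ 40 / N`: when `(17 / 20) ^ j ≥ 40 / N` use `decay` and the induction hypothesis; otherwise the induction
hypothesis gives `ip fj fj ≤ 40 / N`, use `norm_Po_le'`. -/
theorem decay_iter (hr : Regular G d) (hd : 1 ≤ d) (hN : 0 < N) {f : V → ℝ} (f0 : ∀ x, 0 ≤ f x) (hs : ∑ x, f x ≤ 1)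
    (h1 : ip f f ≤ 1)
    (hL : ∀ (j : ℕ) (θ : ℝ), 0 ≤ θ → ((lev ((Po G d U)^[j] f) θ).card : ℝ) ≤ N / 2 →
      4 * inside G (lev ((Po G d U)^[j] f) θ) ≤ d * (lev ((Po G d U)^[j] f) θ).card) (j : ℕ) :
    ip ((Po G d U)^[j] f) ((Po G d U)^[j] f) ≤ max ((17 / 20 : ℝ) ^ j) (40 / N) := by
  induction j with
  | zero =>
    simp only [Function.iterate_zero, id_eq, pow_zero]
    exact le_trans h1 (le_max_left _ _)
  | succ j ih =>
    rw [Function.iterate_succ_apply']
    have hn := norm_Po_le' (U := U) hr hd ((Po G d U)^[j] f)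
    by_cases hb : 40 / N ≤ ip ((Po G d U)^[j] f) ((Po G d U)^[j] f)
    · by_cases hp : 40 / N ≤ (17 / 20 : ℝ) ^ j
      · have hdc := decay (U := U) hr hd hN (iter_nonneg f0 j) (le_trans (iter_sum_le hr hd f0 j) hs)
          (hL j) hb
        rw [max_eq_left hp] at ih
        refine le_trans hdc (le_trans ?_ (le_max_left _ _))
        rw [pow_succ]
        linarith
      · have hp' : (17 / 20 : ℝ) ^ j ≤ 40 / N := le_of_lt (lt_of_not_ge hp)
        rw [max_eq_right hp'] at ih
        exact le_trans hn (le_trans ih (le_max_right _ _))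
    · exact le_trans hn (le_trans (le_of_lt (lt_of_not_ge hb)) (le_max_right _ _))

end

end Pool.Agent.Lib.MP_8d8c46_lc.CW
end

section

/-!
# Campaign CW, task W3: measurable sets outside of the exceptional set (Lemma 5)
-/

set_option autoImplicit false

open scoped Classical
open Finset

namespace Pool.Agent.Lib.MP_8d8c46_lc.CW

/-- PROOF: strong induction on `Q ⊆ R` (`Finset.strongInduction`): `4 * inside G Q ≤ d * card Q`. For `Q` nonempty remove `x` (`inside_erase`):
`4 * inside G Q = 4 * inside G (Q.erase x) + 8 * dg G Q x ≤ d * (card Q - 1) + d`. -/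
theorem peel {V : Type} [Fintype V] {G : SimpleGraph V} {d : ℕ} {R : Finset V}
    (h : ∀ Q ⊆ R, Q.Nonempty → ∃ x ∈ Q, 8 * dg G Q x < d) : 4 * inside G R ≤ d * R.card := by
  have key : ∀ Q : Finset V, Q ⊆ R → 4 * inside G Q ≤ d * Q.card := by
    intro Q
    induction Q using Finset.strongInduction with
    | H Q ih =>
      intro hQ
      rcases Q.eq_empty_or_nonempty with he | hne
      · rw [he, inside_eq, Finset.sum_empty]
        simp
      · obtain ⟨x, hx, hlt⟩ := h Q hQ hne
        have h1 := ih (Q.erase x) (Finset.erase_ssubset hx) ((Finset.erase_subset x Q).trans hQ)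
        have h2 := inside_erase (G := G) hx
        have h3 := Finset.card_erase_add_one hx
        have h4 : d * Q.card = d * (Q.erase x).card + d := by
          rw [← h3, Nat.mul_add, Nat.mul_one]
        omega
  exact key R (Finset.Subset.refl R)

/-- PROOF. `peel`: suppose there is a nonempty `Q₀ ⊆ R` with `d ≤ 8 * dg (G i) Q₀ x` for all `x ∈ Q₀`. Let `Q` be the set of all `y ∈ R` with `S.c i t y = S.c i t z` for some `z` in the union
`Q₁` of all such sets `Q₀`. For `y ∈ Q`, `z ∈ Q₀` as above: the bijection `e` of `S.a1` for `S.c i t z = S.c i t y` preserves the colours and maps the neighbours of `z` to those of `y`;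
it maps the neighbours of `z` in `Q₀` into `Q` (`MSet` for `R`), so `dg (G i) Q y ≥ dg (G i) Q₀ z`, `d ≤ 8 * dg (G i) Q y`. `Q` is `MSet S i t`, `card Q ≤ card R ≤ N / 2`: `RR S d N i Q`, so the points of `Q` are in
`WW S d N i`: contradiction, `Q` is not empty. -/
theorem inside_small {r : ℕ} {X : Bool → Type} {G : ∀ i, SimpleGraph (X i)} [∀ i, Fintype (X i)] (S : Sys r X G)
    {d : ℕ} {N : ℝ} {i : Bool} {t : Fin r → X i} {R : Finset (X i)} (hR : MSet S i t R)
    (hW : ∀ x ∈ R, x ∉ WW S d N i) (hc : (R.card : ℝ) ≤ N / 2) : 4 * inside (G i) R ≤ d * R.card := by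
  apply peel
  intro Q₀ hsub hne
  by_contra hno
  have hno' : ∀ x ∈ Q₀, d ≤ 8 * dg (G i) Q₀ x := by
    intro x hx
    by_contra hx2
    exact hno ⟨x, hx, not_le.1 hx2⟩
  set Q : Finset (X i) := R.filter fun y => ∃ z ∈ Q₀, S.c i t y = S.c i t z with hQ
  have hmem : ∀ y, y ∈ Q ↔ y ∈ R ∧ ∃ z ∈ Q₀, S.c i t y = S.c i t z := by
    intro y
    rw [hQ, Finset.mem_filter]
  have hdeg : ∀ y ∈ Q, d ≤ 8 * dg (G i) Q y := by
    intro y hy
    obtain ⟨_, z, hz, hyz⟩ := (hmem y).1 hy
    obtain ⟨f, hf⟩ := S.a1 i i t t z y hyz.symm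
    have h1 : dg (G i) Q₀ z ≤ dg (G i) Q y := by
      unfold dg
      refine Finset.card_le_card_of_injOn f ?_ f.injective.injOn
      intro w hw
      rw [Finset.mem_coe, Finset.mem_filter] at hw
      rw [Finset.mem_coe, Finset.mem_filter]
      refine ⟨Finset.mem_univ _, (hf w).2.1 hw.2.1, (hmem _).2 ⟨?_, w, hw.2.2, (hf w).1.symm⟩⟩
      exact hR w (f w) (hf w).1 (hsub hw.2.2)
    have h2 := hno' z hz
    omega
  have hMQ : MSet S i t Q := by
    intro y y' hyy hy
    obtain ⟨h1, z, hz, hyz⟩ := (hmem y).1 hy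
    exact (hmem y').2 ⟨hR y y' hyy h1, z, hz, hyy.symm.trans hyz⟩
  have hcard : (Q.card : ℝ) ≤ N / 2 := by
    refine le_trans ?_ hc
    exact_mod_cast Finset.card_le_card (Finset.filter_subset _ _)
  obtain ⟨x, hx⟩ := hne
  have hxR := hsub hx
  exact hW x hxR ⟨Q, ⟨⟨t, hMQ⟩, hcard, hdeg⟩, (hmem x).2 ⟨hxR, x, hx, rfl⟩⟩

end Pool.Agent.Lib.MP_8d8c46_lc.CW
end

section

/-!
# Campaign CW, task EN3: the walk started at a seed
-/

set_option autoImplicit false

open scoped Classical
open Finset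

namespace Pool.Agent.Lib.MP_8d8c46_lc.CW

section
variable {r : ℕ} {X : Bool → Type} [∀ i, Fintype (X i)] {G : ∀ i, SimpleGraph (X i)} (D : Setup r X G)

/-- PROOF: induction on `j` with `meas_pt`, `meas_Po` (`U` is invariant by `WW_colour`), `Function.iterate_succ_apply'`. -/
theorem psi_meas (u : Fin r → X false) (p : Fin r) (j : ℕ) : Meas D.S false u (D.P^[j] (pt (u p))) := by
  induction j with
  | zero => exact meas_pt D.S u p
  | succ j ih =>
    rw [Function.iterate_succ_apply']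
    exact meas_Po D.S ih D.d (fun y z hyz =>
      ⟨fun hy hz => hy (WW_colour D.S hyz.symm hz), fun hz hy => hz (WW_colour D.S hyz hy)⟩)

/-- PROOF. `u = fun _ => v` (`r ≥ 1`), `ψj = P^[j] (pt v)` is `u`-measurable (`psi_meas`), nonnegative, supported in `U` (`iter_supp`, `iter_nonneg`), `∑ pt v = 1`, `ip (pt v) (pt v) = 1`. For `θ ≥ 0` the set `lev ψj θ` is
`MSet D.S false u` (`mset_lev`) and contained in `U`, so `inside_small` is the hypothesis `hL` of `decay_iter`; `(17 / 20) ^ j ≤ 1 / n ≤ 40 / N`. -/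
theorem psi_norm (hr : 1 ≤ r) {v : X false} (hv : v ∈ D.U) {j : ℕ}
    (hj : (17 / 20 : ℝ) ^ j ≤ 1 / Fintype.card (X false)) :
    ip (D.P^[j] (pt v)) (D.P^[j] (pt v)) ≤ 40 / D.N := by
  have hN : (0 : ℝ) < D.N := by exact_mod_cast D.hN
  have hcard : 0 < Fintype.card (X false) := Fintype.card_pos_iff.2 ⟨v⟩
  have hcard' : (0 : ℝ) < Fintype.card (X false) := by exact_mod_cast hcard
  have hNn : (D.N : ℝ) ≤ Fintype.card (X false) := by exact_mod_cast D.hNn
  have f0 : ∀ x, 0 ≤ pt v x := by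
    intro x
    unfold pt
    split_ifs <;> norm_num
  have hs : ∑ x, pt v x ≤ 1 := by
    unfold pt
    rw [Finset.sum_ite_eq' univ v (fun _ => (1 : ℝ))]
    simp
  have h1 : ip (pt v) (pt v) ≤ 1 := by
    rw [ip_pt]
    unfold pt
    simp
  have hsupp : Supp D.U (pt v) := by
    intro x hx
    unfold pt
    rw [if_neg]
    rintro rfl
    exact hx hv
  have hL : ∀ (j : ℕ) (θ : ℝ), 0 ≤ θ →
      ((lev ((Po (G false) D.d D.U)^[j] (pt v)) θ).card : ℝ) ≤ D.N / 2 →
      4 * inside (G false) (lev ((Po (G false) D.d D.U)^[j] (pt v)) θ) ≤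
        D.d * (lev ((Po (G false) D.d D.U)^[j] (pt v)) θ).card := by
    intro j θ hθ hc
    have hm : Meas D.S false (fun _ : Fin r => v) ((Po (G false) D.d D.U)^[j] (pt v)) :=
      psi_meas D (fun _ : Fin r => v) ⟨0, hr⟩ j
    refine inside_small D.S (mset_lev D.S hm θ) (fun x hx => ?_) hc
    have hx2 : θ < (Po (G false) D.d D.U)^[j] (pt v) x := (Finset.mem_filter.1 hx).2
    by_contra hW
    have h0 := iter_supp (G := G false) (d := D.d) hsupp j x (fun h => h hW)
    linarith
  have key := decay_iter (D.reg false) D.hd hN f0 hs h1 hL j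
  refine key.trans (max_le (hj.trans ?_) le_rfl)
  calc (1 : ℝ) / Fintype.card (X false) ≤ 1 / D.N := one_div_le_one_div_of_le hN hNn
    _ ≤ 40 / D.N := div_le_div_of_nonneg_right (by norm_num) hN.le

end

end Pool.Agent.Lib.MP_8d8c46_lc.CW
end

section

/-!
# Campaign CW, task LC: log-convexity (Lemma 11)
-/

set_option autoImplicit false

open scoped Classical
open Finset

namespace Pool.Agent.Lib.MP_8d8c46_lc.CW

/-- PROOF. `a m = ip g (P^[m] g)` with `P = Po G d U`.
(1) `a m ≥ 0`: `a (2 j) = ip (P^[j] g) (P^[j] g)` (`iter_add`), `a (2 j + 1) = ip (P^[j] g) (P (P^[j] g))` (`iter_add`,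
`Function.iterate_succ_apply'`), `ip_self_nonneg`, `ip_Po_self_nonneg`.
(2) `a (m + 1) ^ 2 ≤ a m * a (m + 2)`: for `m = 2 j` use `ip_cs` for `P^[j] g`, `P^[j + 1] g`; for `m = 2 j + 1` use
`Po_cs` for `P^[j] g` and `P^[j + 1] g`: `a (2 j + 2) = ip (P^[j] g) (P (P^[j + 1] g))`, `a (2 j + 1) = ip (P^[j] g) (P (P^[j] g))`,
`a (2 j + 3) = ip (P^[j + 1] g) (P (P^[j + 1] g))`.
(3) `a 1 = (ip g g + ip g (Mo g)) / 2 ≥ (1 - ε) a 0` (`ip_Po`).
(4) `(1 - ε) a m ≤ a (m + 1)` for all `m`, by induction: if `a (m + 1) = 0` trivial by (1); otherwise by (2) `a m > 0` and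
`a m * a (m + 2) ≥ a (m + 1) ^ 2 ≥ (1 - ε) a m * a (m + 1)`, divide by `a m`.
(5) `(1 - ε) ^ m a 0 ≤ a m` by induction (`1 - ε ≥ 0`), `m = 2 j`. -/
theorem logconv {V : Type} [Fintype V] {G : SimpleGraph V} {d : ℕ} {U : Set V} (hr : Regular G d) (hd : 1 ≤ d)
    {g : V → ℝ} (hg : Supp U g) {ε : ℝ} (hε : ε ≤ 1) (h : (1 - 2 * ε) * ip g g ≤ ip g (Mo G d g)) (j : ℕ) :
    (1 - ε) ^ (2 * j) * ip g g ≤ ip ((Po G d U)^[j] g) ((Po G d U)^[j] g) := by
  have hs := fun i => iter_supp (G := G) (d := d) hg i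
  have hadd := fun i j => iter_add (G := G) (d := d) hg i j
  set P := Po G d U with hP
  have hev : ∀ c : ℕ, ip g (P^[2 * c] g) = ip (P^[c] g) (P^[c] g) := by
    intro c
    rw [← hadd c c, two_mul]
  have hod : ∀ c : ℕ, ip g (P^[2 * c + 1] g) = ip (P^[c] g) (P (P^[c] g)) := by
    intro c
    have h1 := hadd c (c + 1)
    rw [Function.iterate_succ_apply'] at h1
    rw [← h1]
    congr 2
    omega
  have hod' : ∀ c : ℕ, ip g (P^[2 * c + 1] g) = ip (P^[c] g) (P^[c + 1] g) := by
    intro c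
    rw [hod c, Function.iterate_succ_apply']
  have hev' : ∀ c : ℕ, ip g (P^[2 * c + 2] g) = ip (P^[c] g) (P (P^[c + 1] g)) := by
    intro c
    have h1 := hadd c (c + 1 + 1)
    rw [Function.iterate_succ_apply'] at h1
    rw [← h1]
    congr 2
    omega
  have hnn : ∀ m : ℕ, 0 ≤ ip g (P^[m] g) := by
    intro m
    rcases Nat.even_or_odd' m with ⟨c, rfl | rfl⟩
    · rw [hev c]
      exact ip_self_nonneg _
    · rw [hod c]
      exact ip_Po_self_nonneg hr hd (hs c)
  have hlc : ∀ m : ℕ, ip g (P^[m + 1] g) ^ 2 ≤ ip g (P^[m] g) * ip g (P^[m + 2] g) := by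
    intro m
    rcases Nat.even_or_odd' m with ⟨c, rfl | rfl⟩
    · have h1 := ip_cs (P^[c] g) (P^[c + 1] g)
      have h2 : ip g (P^[2 * c + 2] g) = ip (P^[c + 1] g) (P^[c + 1] g) := by
        have := hev (c + 1)
        rw [show 2 * (c + 1) = 2 * c + 2 by ring] at this
        exact this
      rw [hod' c, hev c, h2]
      exact h1
    · have h1 := Po_cs hr hd (hs c) (hs (c + 1))
      have h2 : ip g (P^[2 * c + 1 + 2] g) = ip (P^[c + 1] g) (P (P^[c + 1] g)) := by
        have := hod (c + 1)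
        rw [show 2 * (c + 1) + 1 = 2 * c + 1 + 2 by ring] at this
        exact this
      have h3 : ip g (P^[2 * c + 1 + 1] g) = ip (P^[c] g) (P (P^[c + 1] g)) := by
        have := hev' c
        rw [show 2 * c + 2 = 2 * c + 1 + 1 by ring] at this
        exact this
      rw [h3, hod c, h2]
      exact h1
  have h0 : (1 - ε) * ip g (P^[0] g) ≤ ip g (P^[0 + 1] g) := by
    have h1 : ip g (P^[0 + 1] g) = (ip g g + ip g (Mo G d g)) / 2 := by
      rw [zero_add, Function.iterate_one]
      exact ip_Po hg g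
    have h2 : P^[0] g = g := rfl
    rw [h1, h2]
    linarith
  have hst : ∀ m : ℕ, (1 - ε) * ip g (P^[m] g) ≤ ip g (P^[m + 1] g) := by
    intro m
    induction m with
    | zero => exact h0
    | succ m ih =>
      have hl := hlc m
      have hn0 := hnn m
      have hn1 := hnn (m + 1)
      have hn2 := hnn (m + 2)
      rw [show m + 1 + 1 = m + 2 by ring]
      rcases hn1.eq_or_lt with h1 | h1
      · rw [← h1, mul_zero]
        exact hn2
      · have hpos : 0 < ip g (P^[m] g) := by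
          rcases hn0.eq_or_lt with h3 | h3
          · rw [← h3, zero_mul] at hl
            have := pow_pos h1 2
            linarith
          · exact h3
        have h4 : ip g (P^[m] g) * ((1 - ε) * ip g (P^[m + 1] g)) ≤
            ip g (P^[m] g) * ip g (P^[m + 2] g) := by
          calc ip g (P^[m] g) * ((1 - ε) * ip g (P^[m + 1] g))
              = ((1 - ε) * ip g (P^[m] g)) * ip g (P^[m + 1] g) := by ring
            _ ≤ ip g (P^[m + 1] g) * ip g (P^[m + 1] g) :=
                mul_le_mul_of_nonneg_right ih h1.le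
            _ = ip g (P^[m + 1] g) ^ 2 := by ring
            _ ≤ _ := hl
        exact le_of_mul_le_mul_left h4 hpos
  have hfin : ∀ m : ℕ, (1 - ε) ^ m * ip g g ≤ ip g (P^[m] g) := by
    intro m
    induction m with
    | zero =>
      have h2 : P^[0] g = g := rfl
      rw [h2, pow_zero, one_mul]
    | succ m ih =>
      have h1 : 0 ≤ 1 - ε := by linarith
      calc (1 - ε) ^ (m + 1) * ip g g = (1 - ε) * ((1 - ε) ^ m * ip g g) := by ring
        _ ≤ (1 - ε) * ip g (P^[m] g) := mul_le_mul_of_nonneg_left ih h1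
        _ ≤ _ := hst m
  have := hfin (2 * j)
  rw [hev j] at this
  exact this

end Pool.Agent.Lib.MP_8d8c46_lc.CW
end

section

/-!
# Campaign CW, task EN4: the energy increment (4.3)
-/

set_option autoImplicit false

open scoped Classical
open Finset

namespace Pool.Agent.Lib.MP_8d8c46_lc.CW

section
variable {r : ℕ} {X : Bool → Type} [∀ i, Fintype (X i)] {G : ∀ i, SimpleGraph (X i)} (D : Setup r X G)

/-- (4.3) PROOF. `g = D.g t`, `Q = ip (P^[j] g) (P^[j] g) ≥ (1 - 19 / 2 η) ^ (2 j) * N / 2 > 0` (`logconv` with `ε = 19 / 2 * η`, `g_M`, `g_norm`). `P^[j] g` is supported in `U`, and for `v ∈ U`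
`ip (P^[j] (pt v)) g = ip (pt v) (P^[j] g) = (P^[j] g) v` (`iter_symm`, `ip_pt`). `Q = ∑ over v ∈ U of ((P^[j] g) v) ^ 2`, so some `v ∈ U` has `ip (P^[j] (pt v)) g ^ 2 ≥ Q / n`. Let `ψ = P^[j] (pt v)`. For every `u` which
contains `v` and all entries of `t`, `ψ` is `u`-measurable (`psi_meas`), and `avg_incr` (`href` from `D.S.a3`) gives `ip f f * b + ip ψ g ^ 2 ≤ ip f' f' * b` with `f = D.f t`, `f' = D.f u`, `0 < b = ip ψ ψ ≤ 40 / N` (`psi_norm`; `b > 0` because `ip ψ g ^ 2 > 0`). So
`ip f' f' ≥ ip f f + (Q / n) * (N / 40)`. -/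
theorem step (hr : 1 ≤ r) {j : ℕ} (hj : (17 / 20 : ℝ) ^ j ≤ 1 / Fintype.card (X false)) (t : Fin r → X false) :
    ∃ v : X false, ∀ u : Fin r → X false, (∀ p, ∃ q, t p = u q) → (∃ q, u q = v) →
      ip (D.f t) (D.f t) + (1 - 19 / 2 * D.η) ^ (2 * j) * (D.N : ℝ) ^ 2 / (80 * Fintype.card (X false)) ≤
        ip (D.f u) (D.f u) := by
  have hN : (1 : ℝ) ≤ D.N := by exact_mod_cast D.hN
  have hNn : (D.N : ℝ) ≤ Fintype.card (X false) := by exact_mod_cast D.hNn
  obtain ⟨n, hn⟩ : ∃ n : ℝ, n = Fintype.card (X false) := ⟨_, rfl⟩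
  rw [← hn] at hNn ⊢
  have hn0 : 0 < n := by linarith
  have hη1 := D.hη1
  have hη0 := D.hη0
  obtain ⟨c, hc⟩ : ∃ c : ℝ, c = (1 - 19 / 2 * D.η) ^ (2 * j) := ⟨_, rfl⟩
  have hc0 : 0 < c := by
    rw [hc]
    apply pow_pos
    linarith
  rw [← hc]
  have hlog : c * ip (D.g t) (D.g t) ≤ ip (D.P^[j] (D.g t)) (D.P^[j] (D.g t)) := by
    rw [hc]
    exact logconv (D.reg false) D.hd (g_supp D t) (by linarith) (g_M D t) j
  have hgn := g_norm D t
  obtain ⟨Q, hQ⟩ : ∃ Q : ℝ, Q = ip (D.P^[j] (D.g t)) (D.P^[j] (D.g t)) := ⟨_, rfl⟩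
  rw [← hQ] at hlog
  have hQ1 : c * (D.N / 2) ≤ Q := (mul_le_mul_of_nonneg_left hgn hc0.le).trans hlog
  have hQ0 : 0 < Q := by
    have : 0 < c * ((D.N : ℝ) / 2) := by positivity
    linarith
  have hex : ∃ v, Q / n ≤ (D.P^[j] (D.g t)) v ^ 2 := by
    by_contra hcon
    push Not at hcon
    have hne : (univ : Finset (X false)).Nonempty := by
      rw [Finset.univ_nonempty_iff, ← Fintype.card_pos_iff]
      have : (0 : ℝ) < Fintype.card (X false) := by rw [← hn]; exact hn0
      exact_mod_cast this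
    have h1 : ∑ x : X false, (D.P^[j] (D.g t)) x ^ 2 < ∑ x : X false, Q / n :=
      Finset.sum_lt_sum_of_nonempty hne fun x _ => hcon x
    rw [Finset.sum_const, Finset.card_univ, nsmul_eq_mul, ← hn, mul_div_cancel₀ _ hn0.ne'] at h1
    have h2 : Q = ∑ x : X false, (D.P^[j] (D.g t)) x ^ 2 := by
      rw [hQ]
      unfold ip
      exact Finset.sum_congr rfl fun x _ => (sq _).symm
    linarith
  obtain ⟨v, hv⟩ := hex
  have hv0 : 0 < Q / n := by positivity
  have hvU : v ∈ D.U := by
    by_contra hcon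
    have h1 : (D.P^[j] (D.g t)) v = 0 :=
      iter_supp (G := G false) (d := D.d) (g_supp D t) j v hcon
    rw [h1] at hv
    norm_num at hv
    linarith
  refine ⟨v, ?_⟩
  intro u hu hvu
  obtain ⟨q, hq⟩ := hvu
  obtain ⟨ψ, hψ⟩ : ∃ ψ : X false → ℝ, ψ = D.P^[j] (pt v) := ⟨_, rfl⟩
  have hmeas : Meas D.S false u ψ := by
    have := psi_meas D u q j
    rw [hq] at this
    rw [hψ]
    exact this
  have hsuppv : Supp D.U (pt v) := by
    intro x hx
    have : x ≠ v := fun h => hx (h ▸ hvU)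
    simp [pt, this]
  have hip : ip ψ (D.g t) = (D.P^[j] (D.g t)) v := by
    have h1 : ip (pt v) (D.P^[j] (D.g t)) = ip (D.P^[j] (pt v)) (D.g t) :=
      iter_symm (G := G false) (d := D.d) hsuppv (g_supp D t) j
    rw [hψ, ← h1, ip_pt]
  have hb := psi_norm D hr hvU hj
  rw [← hψ] at hb
  have hincr := avg_incr (D.S.c false t) (D.S.c false u)
    (fun x y hxy => D.S.a3 false t u x y hu hxy) D.h ψ hmeas
  have hincr' : ip (D.f t) (D.f t) * ip ψ ψ + ip ψ (D.g t) ^ 2 ≤ ip (D.f u) (D.f u) * ip ψ ψ :=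
    hincr
  rw [hip] at hincr'
  have hcs := ip_cs ψ (D.g t)
  rw [hip] at hcs
  have hb0 : 0 < ip ψ ψ := by
    rcases (ip_self_nonneg ψ).lt_or_eq with h | h
    · exact h
    · rw [← h, zero_mul] at hcs
      linarith
  obtain ⟨b, hbb⟩ : ∃ b : ℝ, b = ip ψ ψ := ⟨_, rfl⟩
  rw [← hbb] at hb hincr' hb0
  have h40 : b * D.N ≤ 40 := by
    rwa [le_div_iff₀ (by linarith)] at hb
  have key : c * (D.N : ℝ) ^ 2 / (80 * n) * b ≤ (D.P^[j] (D.g t)) v ^ 2 := by
    refine le_trans ?_ hv
    rw [div_mul_eq_mul_div, div_le_div_iff₀ (by positivity) hn0]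
    have h1 : c * (D.N : ℝ) * (b * D.N) ≤ c * D.N * 40 :=
      mul_le_mul_of_nonneg_left h40 (by positivity)
    have h2 : c * (D.N : ℝ) ^ 2 * b ≤ 80 * Q := by
      have h3 : c * (D.N : ℝ) ^ 2 * b = c * D.N * (b * D.N) := by ring
      rw [h3]
      linarith
    calc c * (D.N : ℝ) ^ 2 * b * n ≤ 80 * Q * n := mul_le_mul_of_nonneg_right h2 hn0.le
      _ = Q * (80 * n) := by ring
  have h5 : (ip (D.f t) (D.f t) + c * (D.N : ℝ) ^ 2 / (80 * n)) * b ≤ ip (D.f u) (D.f u) * b := by
    rw [add_mul]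
    linarith
  exact le_of_mul_le_mul_right h5 hb0

end

end Pool.Agent.Lib.MP_8d8c46_lc.CW
end

section

/-!
# Campaign CW, task EN5: iteration of the energy increment
-/

set_option autoImplicit false

open scoped Classical
open Finset

namespace Pool.Agent.Lib.MP_8d8c46_lc.CW

section
variable {r : ℕ} {X : Bool → Type} [∀ i, Fintype (X i)] {G : ∀ i, SimpleGraph (X i)} (D : Setup r X G)

/-- The tuple after `m` steps. -/
private theorem EN5_iter (hr : 1 ≤ r) {j : ℕ} (hj : (17 / 20 : ℝ) ^ j ≤ 1 / Fintype.card (X false))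
    (v₀ : X false) (m : ℕ) (hm : m + 1 ≤ r) :
    ∃ t : Fin r → X false, (∀ p : Fin r, m ≤ p.val → t p = v₀) ∧
      (m : ℝ) * ((1 - 19 / 2 * D.η) ^ (2 * j) * (D.N : ℝ) ^ 2 / (80 * Fintype.card (X false))) ≤
        ip (D.f t) (D.f t) := by
  induction m with
  | zero =>
    refine ⟨fun _ => v₀, fun _ _ => rfl, ?_⟩
    rw [Nat.cast_zero, zero_mul]
    exact Finset.sum_nonneg fun x _ => mul_self_nonneg _
  | succ m ih =>
    obtain ⟨t, ht, hb⟩ := ih (by omega)
    obtain ⟨v, hv⟩ := step D hr hj t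
    have hne : (⟨m + 1, by omega⟩ : Fin r) ≠ ⟨m, by omega⟩ := by
      intro h
      have := congrArg Fin.val h
      simp at this
    refine ⟨Function.update t ⟨m, by omega⟩ v, ?_, ?_⟩
    · intro p hp
      have hpm : p ≠ ⟨m, by omega⟩ := by
        intro h
        rw [h] at hp
        simp at hp
      rw [Function.update_of_ne hpm]
      exact ht p (by omega)
    · have h1 := hv (Function.update t ⟨m, by omega⟩ v) ?_ ?_
      · push_cast
        rw [add_mul, one_mul]
        linarith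
      · intro p
        by_cases hp : p = ⟨m, by omega⟩
        · refine ⟨⟨m + 1, by omega⟩, ?_⟩
          rw [Function.update_of_ne hne, ht p (by rw [hp]), ht _ (by simp)]
        · exact ⟨p, by rw [Function.update_of_ne hp]⟩
      · exact ⟨⟨m, by omega⟩, Function.update_self _ _ _⟩

/-- PROOF. `v₀` any vertex, `c` the increment of `step`. For `m + 1 ≤ r` there is `t : Fin r → X false` with `t p = v₀` for `m ≤ p` and `m * c ≤ ip (D.f t) (D.f t)`: induction on `m`, `u = Function.update t m v` (as `m + 1 < r` the last entry of `u` is still `v₀`, so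
`u` contains all entries of `t`). For `m = r - 1`: `(r - 1) * c ≤ ip (D.f t) (D.f t) ≤ ip h h ≤ N` (`avg_norm_le`, `h_norm`). -/
theorem sys_bound (hr : 1 ≤ r) {j : ℕ} (hj : (17 / 20 : ℝ) ^ j ≤ 1 / Fintype.card (X false)) :
    ((r : ℝ) - 1) * ((1 - 19 / 2 * D.η) ^ (2 * j) * (D.N : ℝ) ^ 2 / (80 * Fintype.card (X false))) ≤ D.N := by
  have hc : 0 < Fintype.card (X false) := lt_of_lt_of_le (Nat.lt_of_lt_of_le Nat.zero_lt_one D.hN) D.hNn
  obtain ⟨v₀⟩ : Nonempty (X false) := Fintype.card_pos_iff.1 hc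
  obtain ⟨t, -, ht⟩ := EN5_iter D hr hj v₀ (r - 1) (by omega)
  have h1 : ((r - 1 : ℕ) : ℝ) = (r : ℝ) - 1 := by
    rw [Nat.cast_sub hr, Nat.cast_one]
  rw [h1] at ht
  exact ht.trans ((avg_norm_le (D.S.c false t) D.h).trans (h_norm D))

end

end Pool.Agent.Lib.MP_8d8c46_lc.CW
end

section

/-!
# Campaign CW, task NUM: the number of steps of the walk
-/

set_option autoImplicit false

namespace Pool.Agent.Lib.MP_8d8c46_lc.CW

/-- PROOF. `j = ⌈7 * log n⌉₊`, `7 log n ≤ j ≤ 7 log n + 1`. (1) `log (17 / 20) ≤ -3 / 20` (`Real.log_le_sub_one_of_pos`), so `(17 / 20) ^ j = exp (j * log (17 / 20)) ≤ exp (-3 j / 20) ≤ exp (- log n) = 1 / n` as `21 / 20 ≥ 1`.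
(2) `exp (- 10 η) ≤ 1 / (1 + 10 η) ≤ 1 - 19 / 2 η` (`Real.add_one_le_exp`; `(1 - 19 / 2 η)(1 + 10 η) = 1 + η / 2 - 95 η ^ 2 ≥ 1` as `η ≤ 1 / 200`), so `(1 - 19 / 2 η) ^ (2 j) ≥ exp (- 20 η j) ≥ exp (- 140 η log n - 20 η) ≥ n ^ (- 140 η) * exp (- 1 / 10)` and
`exp (- 1 / 10) ≥ 9 / 10`. -/
theorem num {η : ℝ} (h0 : 0 < η) (h1 : η ≤ 1 / 200) {n : ℕ} (hn : 1 ≤ n) :
    ∃ j : ℕ, (17 / 20 : ℝ) ^ j ≤ 1 / n ∧ 9 / 10 * (n : ℝ) ^ (-(140 * η)) ≤ (1 - 19 / 2 * η) ^ (2 * j) := by
  have hn0 : (0 : ℝ) < n := by exact_mod_cast hn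
  have hn1 : (1 : ℝ) ≤ n := by exact_mod_cast hn
  have hlog : 0 ≤ Real.log n := Real.log_nonneg hn1
  have hj1 : 7 * Real.log n ≤ (⌈7 * Real.log n⌉₊ : ℝ) := Nat.le_ceil _
  have hj2 : (⌈7 * Real.log n⌉₊ : ℝ) < 7 * Real.log n + 1 := Nat.ceil_lt_add_one (by positivity)
  generalize ⌈7 * Real.log n⌉₊ = j at hj1 hj2
  refine ⟨j, ?_, ?_⟩
  · have h1 : (17 / 20 : ℝ) ≤ Real.exp (-(3 / 20)) := by
      have := Real.add_one_le_exp (-(3 / 20) : ℝ)
      linarith
    calc (17 / 20 : ℝ) ^ j ≤ Real.exp (-(3 / 20)) ^ j := pow_le_pow_left₀ (by norm_num) h1 j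
      _ = Real.exp (j * -(3 / 20)) := by rw [← Real.exp_nat_mul]
      _ ≤ Real.exp (-Real.log n) := Real.exp_le_exp.2 (by linarith)
      _ = 1 / n := by rw [Real.exp_neg, Real.exp_log hn0, one_div]
  · have h1 : Real.exp (-(10 * η)) ≤ 1 - 19 / 2 * η := by
      have h2 : 10 * η + 1 ≤ Real.exp (10 * η) := Real.add_one_le_exp _
      have h3 : 0 < 10 * η + 1 := by linarith
      rw [Real.exp_neg]
      calc (Real.exp (10 * η))⁻¹ ≤ (10 * η + 1)⁻¹ := inv_anti₀ h3 h2
        _ ≤ 1 - 19 / 2 * η := by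
          rw [inv_le_iff_one_le_mul₀ h3]
          nlinarith
    have h4 : (9 / 10 : ℝ) ≤ Real.exp (-(1 / 10)) := by
      have := Real.add_one_le_exp (-(1 / 10) : ℝ)
      linarith
    have h5 : (n : ℝ) ^ (-(140 * η)) = Real.exp (-(140 * η) * Real.log n) := by
      rw [Real.rpow_def_of_pos hn0, mul_comm]
    calc 9 / 10 * (n : ℝ) ^ (-(140 * η))
        ≤ Real.exp (-(1 / 10)) * Real.exp (-(140 * η) * Real.log n) := by
          rw [h5]
          exact mul_le_mul_of_nonneg_right h4 (Real.exp_pos _).le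
      _ = Real.exp (-(1 / 10) + -(140 * η) * Real.log n) := by rw [Real.exp_add]
      _ ≤ Real.exp ((2 * j : ℕ) * -(10 * η)) := by
          refine Real.exp_le_exp.2 ?_
          push_cast
          have h6 : η * (j : ℝ) ≤ η * (7 * Real.log n + 1) :=
            mul_le_mul_of_nonneg_left hj2.le h0.le
          nlinarith
      _ = Real.exp (-(10 * η)) ^ (2 * j) := by rw [← Real.exp_nat_mul]
      _ ≤ (1 - 19 / 2 * η) ^ (2 * j) := pow_le_pow_left₀ (Real.exp_pos _).le h1 _

end Pool.Agent.Lib.MP_8d8c46_lc.CW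
end

section

/-!
# Campaign CW: winning positions of the bijective pebble game with all pebbles on the board (definitions)
-/

set_option autoImplicit false

open scoped Classical
open Finset

namespace Pool.Agent.Lib.MP_8d8c46_lc.CW

section
variable {V W : Type}

/-- the total position `(a, b)` is a partial isomorphism -/
def PI (G : SimpleGraph V) (H : SimpleGraph W) {k : ℕ} (a : Fin k → V) (b : Fin k → W) : Prop :=
  ∀ p q, (a p = a q ↔ b p = b q) ∧ (G.Adj (a p) (a q) ↔ H.Adj (b p) (b q))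

/-- the total position `(a, b)` is winning for Duplicator -/
def Win (G : SimpleGraph V) (H : SimpleGraph W) {k : ℕ} (a : Fin k → V) (b : Fin k → W) : Prop :=
  ∃ Q : Set ((Fin k → V) × (Fin k → W)), (a, b) ∈ Q ∧ ∀ q ∈ Q, PI G H q.1 q.2 ∧
    ∀ p : Fin k, ∃ f : V ≃ W, ∀ v : V, (Function.update q.1 p v, Function.update q.2 p (f v)) ∈ Q

/-- `r` seeds and two more pebbles, on `y` and `z` -/
def pos {r : ℕ} (t : Fin r → V) (y z : V) : Fin (r + 2) → V :=
  Fin.snoc (α := fun _ => V) (Fin.snoc (α := fun _ => V) t y) z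

/-- the two vertex sets -/
def XX (V W : Type) : Bool → Type
  | false => V
  | true => W

/-- the two graphs -/
def GG (G : SimpleGraph V) (H : SimpleGraph W) : ∀ i, SimpleGraph (XX V W i)
  | false => G
  | true => H

noncomputable instance [Fintype V] [Fintype W] : ∀ i, Fintype (XX V W i)
  | false => inferInstanceAs (Fintype V)
  | true => inferInstanceAs (Fintype W)

end

end Pool.Agent.Lib.MP_8d8c46_lc.CW
end

section

/-!
# Campaign CW, task SY1: the relation `Win`
-/

set_option autoImplicit false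

open scoped Classical
open Finset

namespace Pool.Agent.Lib.MP_8d8c46_lc.CW

section
variable {V W Z : Type} {G : SimpleGraph V} {H : SimpleGraph W} {J : SimpleGraph Z} {k : ℕ}

theorem Win.pi {a : Fin k → V} {b : Fin k → W} (h : Win G H a b) : PI G H a b := by
  obtain ⟨Q, hab, hQ⟩ := h
  exact (hQ _ hab).1

theorem Win.move {a : Fin k → V} {b : Fin k → W} (h : Win G H a b) (p : Fin k) :
    ∃ f : V ≃ W, ∀ v, Win G H (Function.update a p v) (Function.update b p (f v)) := by
  obtain ⟨Q, hab, hQ⟩ := h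
  obtain ⟨f, hf⟩ := (hQ _ hab).2 p
  exact ⟨f, fun v => ⟨Q, hf v, hQ⟩⟩

theorem Win.refl (a : Fin k → V) : Win G G a a := by
  refine ⟨{q | q.1 = q.2}, rfl, ?_⟩
  rintro ⟨q1, q2⟩ hq
  have hq' : q1 = q2 := hq
  subst hq'
  exact ⟨fun p q => ⟨Iff.rfl, Iff.rfl⟩, fun p => ⟨Equiv.refl V, fun v => rfl⟩⟩

/-- PROOF: `Q' = {q | (q.2, q.1) ∈ Q}`, `f.symm`. -/
theorem Win.symm {a : Fin k → V} {b : Fin k → W} (h : Win G H a b) : Win H G b a := by
  obtain ⟨Q, hab, hQ⟩ := h
  refine ⟨{q | (q.2, q.1) ∈ Q}, hab, ?_⟩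
  intro q hq
  obtain ⟨h1, h2⟩ := hQ _ hq
  refine ⟨fun p q => ⟨(h1 p q).1.symm, (h1 p q).2.symm⟩, fun p => ?_⟩
  obtain ⟨f, hf⟩ := h2 p
  refine ⟨f.symm, fun v => ?_⟩
  have h3 := hf (f.symm v)
  rw [Equiv.apply_symm_apply] at h3
  exact h3

/-- PROOF: `Q = {q | ∃ b, (q.1, b) ∈ Q₁ ∧ (b, q.2) ∈ Q₂}`, composition of the bijections. -/
theorem Win.trans {a : Fin k → V} {b : Fin k → W} {c : Fin k → Z} (h : Win G H a b) (h' : Win H J b c) :
    Win G J a c := by
  obtain ⟨Q, hab, hQ⟩ := h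
  obtain ⟨Q', hbc, hQ'⟩ := h'
  refine ⟨{q | ∃ b, (q.1, b) ∈ Q ∧ (b, q.2) ∈ Q'}, ⟨b, hab, hbc⟩, ?_⟩
  rintro q ⟨b', h1, h2⟩
  obtain ⟨p1, m1⟩ := hQ _ h1
  obtain ⟨p2, m2⟩ := hQ' _ h2
  refine ⟨fun p q => ⟨(p1 p q).1.trans (p2 p q).1, (p1 p q).2.trans (p2 p q).2⟩, fun p => ?_⟩
  obtain ⟨f, hf⟩ := m1 p
  obtain ⟨g, hg⟩ := m2 p
  exact ⟨f.trans g, fun v => ⟨Function.update b' p (f v), hf v, hg (f v)⟩⟩

/-- PROOF: `Q' = {q | ∃ q₀ ∈ Q, ∀ p, ∃ p', q.1 p = q₀.1 p' ∧ q.2 p = q₀.2 p'}`. Partial isomorphism: clear. Move of pebble `p`: choose `g` with `q.1 s = q₀.1 (g s)`, `q.2 s = q₀.2 (g s)`; the indices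
`g s`, `s ≠ p`, are at most `k - 1`, so some `p₀ : Fin k` is none of them; move `p₀` with the bijection of `Q`: the pairs `s ≠ p` are still at `g s ≠ p₀`, the pair `p` is at `p₀`. -/
theorem Win.reindex {a : Fin k → V} {b : Fin k → W} (h : Win G H a b) (π : Fin k → Fin k) :
    Win G H (fun p => a (π p)) (fun p => b (π p)) := by
  obtain ⟨Q, hab, hQ⟩ := h
  refine ⟨{q | ∃ q₀ ∈ Q, ∃ g : Fin k → Fin k, ∀ p, q.1 p = q₀.1 (g p) ∧ q.2 p = q₀.2 (g p)},
    ⟨(a, b), hab, π, fun p => ⟨rfl, rfl⟩⟩, ?_⟩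
  rintro ⟨q1, q2⟩ ⟨q₀, hq₀, g, hg⟩
  obtain ⟨hpi, hm⟩ := hQ _ hq₀
  refine ⟨fun p q => ?_, fun p => ?_⟩
  · rw [(hg p).1, (hg q).1, (hg p).2, (hg q).2]
    exact hpi (g p) (g q)
  · have hc : ((univ.erase p).image g).card < (univ : Finset (Fin k)).card :=
      lt_of_le_of_lt card_image_le (card_erase_lt_of_mem (mem_univ p))
    obtain ⟨p₀, -, hp₀⟩ := exists_mem_notMem_of_card_lt_card hc
    obtain ⟨f, hf⟩ := hm p₀
    refine ⟨f, fun v => ⟨_, hf v, Function.update g p p₀, fun s => ?_⟩⟩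
    by_cases hs : s = p
    · subst hs
      simp
    · have hne : g s ≠ p₀ := fun h => hp₀ (mem_image.2 ⟨s, mem_erase.2 ⟨hs, mem_univ s⟩, h⟩)
      have h1 := (hg s).1
      have h2 := (hg s).2
      simp only at h1 h2
      simp only [Function.update_of_ne hs, Function.update_of_ne hne]
      exact ⟨h1, h2⟩

/-- PROOF: induction over the finset `s` with `Win.move`. -/
theorem Win.moves {a : Fin k → V} {b : Fin k → W} (h : Win G H a b) (s : Finset (Fin k)) (u : Fin k → V) :
    ∃ u' : Fin k → W, Win G H (fun p => if p ∈ s then u p else a p) (fun p => if p ∈ s then u' p else b p) := by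
  induction s using Finset.induction_on with
  | empty => exact ⟨b, by simpa using h⟩
  | insert p s hp ih =>
    obtain ⟨u', hu'⟩ := ih
    obtain ⟨f, hf⟩ := hu'.move p
    refine ⟨Function.update u' p (f (u p)), ?_⟩
    have h1 := hf (u p)
    have e1 : Function.update (fun q => if q ∈ s then u q else a q) p (u p) =
        fun q => if q ∈ insert p s then u q else a q := by
      funext q
      by_cases hq : q = p
      · subst hq; simp
      · simp [mem_insert, hq]
    have e2 : Function.update (fun q => if q ∈ s then u' q else b q) p (f (u p)) =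
        fun q => if q ∈ insert p s then Function.update u' p (f (u p)) q else b q := by
      funext q
      by_cases hq : q = p
      · subst hq; simp
      · simp [mem_insert, hq]
    rw [e1, e2] at h1
    exact h1

/-- PROOF: as in the library theorem `PebbleEquiv.iso`: place the pebbles one after another and get a position of the form `fun p => some (a p, b p)` in the set `𝒲`;
`Q = {q | (fun p => some (q.1 p, q.2 p)) ∈ 𝒲}` (`Function.update` of such a position is of this form again). -/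
theorem win_of_pebble (h : PebbleEquiv k G H) (a : Fin k → V) : ∃ b : Fin k → W, Win G H a b := by
  obtain ⟨𝒲, h0, h𝒲⟩ := h
  have key : ∀ m : ℕ, m ≤ k → ∃ p ∈ 𝒲, ∀ i : Fin k, (i : ℕ) < m → ∃ w, p i = some (a i, w) := by
    intro m
    induction m with
    | zero => intro _; exact ⟨_, h0, fun i hi => absurd hi (Nat.not_lt_zero _)⟩
    | succ m ih =>
      intro hm
      obtain ⟨p, hp, hpi⟩ := ih (by omega)
      obtain ⟨f, hf⟩ := (h𝒲 p hp).2 ⟨m, by omega⟩
      refine ⟨_, hf (a ⟨m, by omega⟩), fun i hi => ?_⟩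
      by_cases him : i = ⟨m, by omega⟩
      · rw [him]
        exact ⟨f (a ⟨m, by omega⟩), by simp⟩
      · rw [Function.update_of_ne him]
        refine hpi i ?_
        have : (i : ℕ) ≠ m := fun h => him (Fin.ext h)
        omega
  obtain ⟨p, hp, hpi⟩ := key k le_rfl
  choose b hb using fun i : Fin k => hpi i i.2
  refine ⟨b, {q | (fun i => some (q.1 i, q.2 i)) ∈ 𝒲}, ?_, ?_⟩
  · have e : (fun i => some (a i, b i)) = p := by
      funext i
      exact (hb i).symm
    show (fun i => some (a i, b i)) ∈ 𝒲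
    rw [e]
    exact hp
  · intro q hq
    obtain ⟨h1, h2⟩ := h𝒲 _ hq
    refine ⟨fun p q' => h1 p q' _ _ rfl rfl, fun p => ?_⟩
    obtain ⟨f, hf⟩ := h2 p
    refine ⟨f, fun v => ?_⟩
    have e : (fun i => some (Function.update q.1 p v i, Function.update q.2 p (f v) i)) =
        Function.update (fun i => some (q.1 i, q.2 i)) p (some (v, f v)) := by
      funext i
      by_cases hi : i = p
      · subst hi; simp
      · simp [Function.update_of_ne hi]
    show (fun i => some (Function.update q.1 p v i, Function.update q.2 p (f v) i)) ∈ 𝒲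
    rw [e]
    exact hf v

end

end Pool.Agent.Lib.MP_8d8c46_lc.CW
end

section

/-!
# Campaign CW, task SY2: the stable system of a winning strategy (Lemma 1)
-/

set_option autoImplicit false

open scoped Classical
open Finset

namespace Pool.Agent.Lib.MP_8d8c46_lc.CW

section
variable {V W : Type} {r : ℕ}

private theorem SY2_pos_seed (t : Fin r → V) (y z : V) (p : Fin r) :
    pos t y z p.castSucc.castSucc = t p := by
  unfold pos
  rw [Fin.snoc_castSucc, Fin.snoc_castSucc]

private theorem SY2_pos_y (t : Fin r → V) (y z : V) : pos t y z (Fin.last r).castSucc = y := by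
  unfold pos
  rw [Fin.snoc_castSucc, Fin.snoc_last]

private theorem SY2_pos_z (t : Fin r → V) (y z : V) : pos t y z (Fin.last (r + 1)) = z := by
  unfold pos
  rw [Fin.snoc_last]

private theorem SY2_ext {a b : Fin (r + 2) → V} (h1 : ∀ p : Fin r, a p.castSucc.castSucc =
    b p.castSucc.castSucc) (h2 : a (Fin.last r).castSucc = b (Fin.last r).castSucc)
    (h3 : a (Fin.last (r + 1)) = b (Fin.last (r + 1))) : a = b := by
  funext p
  refine Fin.lastCases h3 (fun q => ?_) p
  exact Fin.lastCases h2 h1 q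

private theorem SY2_update (t : Fin r → V) (y z z' : V) :
    Function.update (pos t y z) (Fin.last (r + 1)) z' = pos t y z' := by
  unfold pos
  rw [Fin.update_snoc_last]

private theorem SY2_re {G : SimpleGraph V} {H : SimpleGraph W} {a : Fin (r + 2) → V}
    {b : Fin (r + 2) → W} (h : Win G H a b) (q : Fin r → Fin r) (s s' : Fin (r + 2)) :
    Win G H (pos (fun p => a (q p).castSucc.castSucc) (a s) (a s'))
      (pos (fun p => b (q p).castSucc.castSucc) (b s) (b s')) := by
  have h1 := h.reindex (pos (fun p => (q p).castSucc.castSucc) s s')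
  have e1 : (fun p => a (pos (fun p => (q p).castSucc.castSucc) s s' p)) =
      pos (fun p => a (q p).castSucc.castSucc) (a s) (a s') := by
    refine SY2_ext (fun p => ?_) ?_ ?_
    · rw [SY2_pos_seed, SY2_pos_seed]
    · rw [SY2_pos_y, SY2_pos_y]
    · rw [SY2_pos_z, SY2_pos_z]
  have e2 : (fun p => b (pos (fun p => (q p).castSucc.castSucc) s s' p)) =
      pos (fun p => b (q p).castSucc.castSucc) (b s) (b s') := by
    refine SY2_ext (fun p => ?_) ?_ ?_
    · rw [SY2_pos_seed, SY2_pos_seed]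
    · rw [SY2_pos_y, SY2_pos_y]
    · rw [SY2_pos_z, SY2_pos_z]
  rw [e1, e2] at h1
  exact h1

private theorem SY2_key {G : SimpleGraph V} {H : SimpleGraph W} {t : Fin r → V} {t' : Fin r → W}
    {y : V} {y' : W} (h : Win G H (pos t y y) (pos t' y' y')) :
    ∃ f : V ≃ W, ∀ z, Win G H (pos t z z) (pos t' (f z) (f z)) ∧ (G.Adj y z ↔ H.Adj y' (f z)) := by
  obtain ⟨f, hf⟩ := h.move (Fin.last (r + 1))
  refine ⟨f, fun z => ?_⟩
  have h1 := hf z
  rw [SY2_update, SY2_update] at h1
  have h2 := SY2_re h1 id (Fin.last (r + 1)) (Fin.last (r + 1))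
  have h3 := (h1.pi (Fin.last r).castSucc (Fin.last (r + 1))).2
  rw [SY2_pos_y, SY2_pos_y, SY2_pos_z, SY2_pos_z] at h3
  simp only [SY2_pos_seed, SY2_pos_z, id] at h2
  exact ⟨h2, h3⟩

private theorem SY2_seeds {G : SimpleGraph V} {H : SimpleGraph W} {t : Fin r → V} {t' : Fin r → W}
    {y : V} {y' : W} (h : Win G H (pos t y y) (pos t' y' y')) (u : Fin r → V) :
    ∃ u' : Fin r → W, Win G H (pos u y y) (pos u' y' y') := by
  obtain ⟨v, hv⟩ := h.moves (univ.filter fun p : Fin (r + 2) => p.val < r) (pos u y y)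
  refine ⟨fun p => v p.castSucc.castSucc, ?_⟩
  have m1 : ∀ p : Fin r, p.castSucc.castSucc ∈
      (univ.filter fun p : Fin (r + 2) => p.val < r) := fun p => by simp
  have m2 : (Fin.last r).castSucc ∉ (univ.filter fun p : Fin (r + 2) => p.val < r) := by simp
  have m3 : Fin.last (r + 1) ∉ (univ.filter fun p : Fin (r + 2) => p.val < r) := by simp
  have e1 : (fun p => if p ∈ (univ.filter fun p : Fin (r + 2) => p.val < r) then pos u y y p
      else pos t y y p) = pos u y y := by
    refine SY2_ext (fun p => ?_) ?_ ?_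
    · rw [if_pos (m1 p)]
    · rw [if_neg m2, SY2_pos_y, SY2_pos_y]
    · rw [if_neg m3, SY2_pos_z, SY2_pos_z]
  have e2 : (fun p => if p ∈ (univ.filter fun p : Fin (r + 2) => p.val < r) then v p
      else pos t' y' y' p) = pos (fun p => v p.castSucc.castSucc) y' y' := by
    refine SY2_ext (fun p => ?_) ?_ ?_
    · rw [if_pos (m1 p), SY2_pos_seed]
    · rw [if_neg m2, SY2_pos_y, SY2_pos_y]
    · rw [if_neg m3, SY2_pos_z, SY2_pos_z]
  rw [e1, e2] at hv
  exact hv

private theorem SY2_start [Nonempty V] {G : SimpleGraph V} {H : SimpleGraph W}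
    (h : PebbleEquiv (r + 2) G H) (t : Fin r → V) :
    ∃ (t' : Fin r → W) (f : V ≃ W), ∀ z, Win G H (pos t z z) (pos t' (f z) (f z)) := by
  have v₀ : V := Classical.choice inferInstance
  obtain ⟨b, hb⟩ := win_of_pebble h (pos t v₀ v₀)
  have h1 := (hb.pi (Fin.last r).castSucc (Fin.last (r + 1))).1
  rw [SY2_pos_y, SY2_pos_z] at h1
  have h2 : b = pos (fun p : Fin r => b p.castSucc.castSucc) (b (Fin.last (r + 1)))
      (b (Fin.last (r + 1))) := by
    refine SY2_ext (fun p => ?_) ?_ ?_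
    · rw [SY2_pos_seed]
    · rw [SY2_pos_y]
      exact h1.1 rfl
    · rw [SY2_pos_z]
  rw [h2] at hb
  obtain ⟨f, hf⟩ := SY2_key hb
  exact ⟨fun p : Fin r => b p.castSucc.castSucc, f, fun z => (hf z).1⟩

private def SY2_setoid (G : SimpleGraph V) (H : SimpleGraph W) (r : ℕ) :
    Setoid ((i : Bool) × (Fin (r + 2) → XX V W i)) where
  r a b := Win (GG G H a.1) (GG G H b.1) a.2 b.2
  iseqv := ⟨fun a => Win.refl a.2, fun h => h.symm, fun h h' => h.trans h'⟩

end

/-- PROOF. `T` = quotient of the type `(i : Bool) × (Fin (r + 2) → XX V W i)` of total positions by the relation `Win (GG G H i) (GG G H j) a b`, an equivalence relation by `Win.refl, symm, trans`.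
`c i t y` = class of `pos t y y`. So `c i t y = c j t' y'` iff `Win _ _ (pos t y y) (pos t' y' y')`.
(key) If `Win (pos t y y) (pos t' y' y')`: `Win.move` of the last pebble gives `f` with `Win (pos t y z) (pos t' y' (f z))` for all `z`; `Win.pi` for the last two pebbles gives
`Adj y z ↔ Adj y' (f z)`; `Win.reindex` with the map that is the identity on the seeds and sends the last two to the last gives `Win (pos t z z) (pos t' (f z) (f z))`. This is `a1`.
`a2`: `Win.moves` for the set of the seed pebbles. `a3`: `Win.reindex` with the map `p ↦ q` (`t p = u q`) on the seeds and the identity on the last two. `a4`: `Win.pi` for the pebbles `p` and the last one.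
`a5`: `win_of_pebble` for `pos t v₀ v₀` (`v₀` from `Nonempty V`) gives `b`; by `Win.pi` the last two entries of `b` are equal, so `b = pos t' w w`; then (key). -/
theorem exists_sys {V W : Type} [Nonempty V] {G : SimpleGraph V} {H : SimpleGraph W} {r : ℕ}
    (h : PebbleEquiv (r + 2) G H) : Nonempty (Sys r (XX V W) (GG G H)) := by
  have hq : ∀ (i j : Bool) (a : Fin (r + 2) → XX V W i) (b : Fin (r + 2) → XX V W j),
      (Quotient.mk (SY2_setoid G H r) ⟨i, a⟩ = Quotient.mk (SY2_setoid G H r) ⟨j, b⟩ ↔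
        Win (GG G H i) (GG G H j) a b) := fun i j a b => Quotient.eq
  refine ⟨{
    T := Quotient (SY2_setoid G H r)
    c := fun i t y => Quotient.mk (SY2_setoid G H r) ⟨i, pos t y y⟩
    a1 := ?_
    a2 := ?_
    a3 := ?_
    a4 := ?_
    a5 := ?_ }⟩
  · intro i j t t' y y' e
    obtain ⟨f, hf⟩ := SY2_key ((hq i j _ _).1 e)
    exact ⟨f, fun z => ⟨(hq i j _ _).2 (hf z).1, (hf z).2⟩⟩
  · intro i j t t' y y' e u
    obtain ⟨u', hu⟩ := SY2_seeds ((hq i j _ _).1 e) u
    exact ⟨u', (hq i j _ _).2 hu⟩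
  · intro i t u y z htu e
    choose q hq' using htu
    have h1 := SY2_re ((hq i i _ _).1 e) q (Fin.last (r + 1)) (Fin.last (r + 1))
    simp only [SY2_pos_seed, SY2_pos_z] at h1
    have e1 : (fun p => u (q p)) = t := funext fun p => (hq' p).symm
    rw [e1] at h1
    exact (hq i i _ _).2 h1
  · intro i t y z p e hy
    have h1 := (((hq i i _ _).1 e).pi p.castSucc.castSucc (Fin.last (r + 1))).1
    rw [SY2_pos_seed, SY2_pos_seed, SY2_pos_z, SY2_pos_z] at h1
    exact (h1.1 hy.symm).symm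
  · intro t
    obtain ⟨t', f, hf⟩ := SY2_start h t
    exact ⟨t', f, fun z => (hq false true _ _).2 (hf z)⟩

end Pool.Agent.Lib.MP_8d8c46_lc.CW
end

section

/-!
# Campaign CW, task P1: part (1) of the theorem for large N
-/

set_option autoImplicit false

open scoped Classical
open Finset

namespace Pool.Agent.Lib.MP_8d8c46_lc.CW

/-- The case of large `N = δ n`.
PROOF. `n = card V`. `hY`: degree `d`, set `A`; `hN`: degree `d'`. Suppose `PebbleEquiv (r + 2) G H`; `exists_sys` gives `S : Sys r (XX V W) (GG G H)`, `d = d'` (`deg_eq`), `card V = card W` (`card_eq`). `N : ℕ` with `N = δ n ≥ 1`. The fields of a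
`Setup` follow from `expansion_le_iff`, `le_expansion_iff` (cast from the rationals to the reals). `sys_bound` with `j` from `num`: `(r - 1) * ((9 / 10) n ^ (-140 η) * N ^ 2 / (80 n)) ≤ N`, so (`N = δ n`) `r - 1 ≤ (800 / 9) / δ * n ^ (140 η) ≤ (90 / δ) n ^ (140 η)`. -/
theorem large_case {η δ : ℚ} (hη0 : 0 < η) (hη : η ≤ 1 / 200) (hδ0 : 0 < δ) (hδ : δ ≤ 1 / 2) {V W : Type}
    [Fintype V] [Fintype W] {G : SimpleGraph V} {H : SimpleGraph W} (hY : SSEYes η δ G) (hN : SSENo η δ H)
    (hbig : 4 ≤ (η : ℝ) ^ 2 * (δ * Fintype.card V)) {r : ℕ} (hr : 1 ≤ r)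
    (hr' : 90 / (δ : ℝ) * (Fintype.card V : ℝ) ^ (140 * (η : ℝ)) < (r : ℝ) - 1) : ¬ PebbleEquiv (r + 2) G H := by
  intro hpe
  obtain ⟨d, ⟨hd, hreg, N, hN0, hNe⟩, A, hA, hAe⟩ := hY
  obtain ⟨d', ⟨hd', hreg', N', hN0', hNe'⟩, hno⟩ := hN
  have hn0 : 0 < Fintype.card V := by
    rcases Nat.eq_zero_or_pos (Fintype.card V) with h | h
    · exfalso
      rw [h, Nat.cast_zero, mul_zero] at hNe
      have h2 : N = 0 := by exact_mod_cast hNe
      omega
    · exact h
  have hVne : Nonempty V := Fintype.card_pos_iff.1 hn0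
  obtain ⟨S⟩ := exists_sys hpe
  have hXne : Nonempty (XX V W false) := hVne
  have hdd : d = d' := deg_eq S (show Regular (GG G H false) d from hreg)
    (show Regular (GG G H true) d' from hreg')
  subst hdd
  have hcc : Fintype.card (XX V W false) = Fintype.card (XX V W true) := card_eq S
  have hcc' : Fintype.card V = Fintype.card W := hcc
  have hAN : A.card = N := by
    have h1 : (A.card : ℚ) = N := by rw [hA, hNe]
    exact_mod_cast h1
  have hNle : N ≤ Fintype.card V := by
    have h1 : (N : ℚ) ≤ Fintype.card V := by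
      rw [hNe]
      have h2 : (0 : ℚ) ≤ Fintype.card V := Nat.cast_nonneg _
      nlinarith
    exact_mod_cast h1
  have hη0' : (0 : ℝ) < (η : ℝ) := by exact_mod_cast hη0
  have hη1' : (η : ℝ) ≤ 1 / 200 := by
    have h1 : ((η : ℚ) : ℝ) ≤ (((1 / 200 : ℚ)) : ℝ) := by exact_mod_cast hη
    push_cast at h1
    linarith
  have hNR : (N : ℝ) = (δ : ℝ) * (Fintype.card V : ℝ) := by exact_mod_cast hNe
  have hNt : ∀ T : Finset W, T.card = N → (inside H T : ℝ) ≤ (η : ℝ) * ((d : ℝ) * N) := by
    intro T hT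
    have h1 : (T.card : ℚ) = δ * Fintype.card W := by rw [hT, hNe, hcc']
    have h2 := (le_expansion_iff hreg' hd (by rw [hT]; exact hN0) η).1 (hno T h1)
    rw [hT] at h2
    exact_mod_cast h2
  have hyes : (1 - (η : ℝ)) * ((d : ℝ) * N) ≤ (inside G A : ℝ) := by
    have h2 := (expansion_le_iff hreg hd (by rw [hAN]; exact hN0) η).1 hAe
    rw [hAN] at h2
    exact_mod_cast h2
  have hbig' : 4 ≤ (η : ℝ) ^ 2 * N := by
    rw [hNR]
    exact hbig
  obtain ⟨D, hDN, hDη⟩ : ∃ D : Setup r (XX V W) (GG G H), D.N = N ∧ D.η = (η : ℝ) := by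
    refine ⟨⟨S, d, N, (η : ℝ), A, hd, ?_, hN0, hcc, hNle, hη0', hη1', hNt, hAN, hyes, hbig'⟩,
      rfl, rfl⟩
    intro i
    cases i
    · exact hreg
    · exact hreg'
  obtain ⟨j, hj1, hj2⟩ := num hη0' hη1' (n := Fintype.card V) hn0
  have hb := sys_bound D hr (j := j) hj1
  rw [hDN, hDη] at hb
  have hcard : Fintype.card (XX V W false) = Fintype.card V := rfl
  rw [hcard] at hb
  have hn : (0 : ℝ) < (Fintype.card V : ℝ) := by exact_mod_cast hn0
  have hδ' : (0 : ℝ) < (δ : ℝ) := by exact_mod_cast hδ0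
  rw [hNR] at hb
  generalize (Fintype.card V : ℝ) = n at *
  have hx : 0 < n ^ (140 * (η : ℝ)) := Real.rpow_pos_of_pos hn _
  have hneg : n ^ (-(140 * (η : ℝ))) = (n ^ (140 * (η : ℝ)))⁻¹ := Real.rpow_neg hn.le _
  rw [hneg] at hj2
  generalize n ^ (140 * (η : ℝ)) = x at *
  generalize (1 - 19 / 2 * (η : ℝ)) ^ (2 * j) = E at *
  have hR : 0 < (r : ℝ) - 1 := lt_trans (by positivity) hr'
  have h1 : ((r : ℝ) - 1) * ((9 / 10 * x⁻¹) * ((δ : ℝ) * n) ^ 2 / (80 * n)) ≤ (δ : ℝ) * n := by
    refine le_trans ?_ hb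
    refine mul_le_mul_of_nonneg_left ?_ hR.le
    refine div_le_div_of_nonneg_right ?_ (by positivity)
    exact mul_le_mul_of_nonneg_right hj2 (by positivity)
  have h2 : (90 / (δ : ℝ) * x) * ((9 / 10 * x⁻¹) * ((δ : ℝ) * n) ^ 2 / (80 * n)) <
      ((r : ℝ) - 1) * ((9 / 10 * x⁻¹) * ((δ : ℝ) * n) ^ 2 / (80 * n)) :=
    mul_lt_mul_of_pos_right hr' (by positivity)
  have h3 : (90 / (δ : ℝ) * x) * ((9 / 10 * x⁻¹) * ((δ : ℝ) * n) ^ 2 / (80 * n)) =
      81 / 80 * ((δ : ℝ) * n) := by
    field_simp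
    ring
  have h4 : 0 < (δ : ℝ) * n := by positivity
  linarith

end Pool.Agent.Lib.MP_8d8c46_lc.CW
end

section

/-!
# Campaign CW, task PM: fewer pebbles; isomorphic Yes and No instances
-/

set_option autoImplicit false

open scoped Classical
open Finset

namespace Pool.Agent.Lib.MP_8d8c46_lc.CW

/-- PROOF: `𝒲' = {p | ∃ q ∈ 𝒲, ∀ i : Fin k', p i = q (Fin.castLE h i)}`; the position `fun _ => none` restricts to itself, `Function.update q (Fin.castLE h i) _` restricts to `Function.update p i _`. -/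
theorem pebble_mono {V W : Type} {G : SimpleGraph V} {H : SimpleGraph W} {k k' : ℕ} (h : k' ≤ k)
    (hp : PebbleEquiv k G H) : PebbleEquiv k' G H := by
  obtain ⟨𝒲, h0, h𝒲⟩ := hp
  refine ⟨{p | ∃ q ∈ 𝒲, ∀ i : Fin k', p i = q (Fin.castLE h i)}, ⟨_, h0, fun _ => rfl⟩, ?_⟩
  rintro p ⟨q, hq, hpq⟩
  obtain ⟨hiso, hmove⟩ := h𝒲 q hq
  refine ⟨?_, fun i => ?_⟩
  · intro i j a b ha hb
    exact hiso (Fin.castLE h i) (Fin.castLE h j) a b ((hpq i).symm.trans ha)
      ((hpq j).symm.trans hb)
  · obtain ⟨f, hf⟩ := hmove (Fin.castLE h i)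
    refine ⟨f, fun v => ⟨_, hf v, fun j => ?_⟩⟩
    by_cases hj : j = i
    · subst hj
      rw [Function.update_self, Function.update_self]
    · have hj' : Fin.castLE h j ≠ Fin.castLE h i := fun hh => hj (Fin.castLE_injective h hh)
      rw [Function.update_of_ne hj, Function.update_of_ne hj']
      exact hpq j

private lemma cut_iso {V W : Type} [Fintype V] [Fintype W] {G : SimpleGraph V}
    {H : SimpleGraph W} (e : G ≃g H) (S : Finset V) :
    cut H (S.map e.toEquiv.toEmbedding) = cut G S := by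
  unfold cut
  symm
  refine Finset.card_bij (fun p _ => (e p.1, e p.2)) ?_ ?_ ?_
  · intro p hp
    simp only [Finset.mem_filter, Finset.mem_univ, true_and] at hp ⊢
    refine ⟨?_, ?_, e.map_adj_iff.2 hp.2.2⟩
    · rw [Finset.mem_map]
      exact ⟨p.1, hp.1, rfl⟩
    · rw [Finset.mem_map]
      rintro ⟨u, hu, hue⟩
      have h1 : u = p.2 := e.injective hue
      exact hp.2.1 (h1 ▸ hu)
  · intro p _ q _ hpq
    rw [Prod.mk.injEq] at hpq
    exact Prod.ext (e.injective hpq.1) (e.injective hpq.2)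
  · intro q hq
    simp only [Finset.mem_filter, Finset.mem_univ, true_and] at hq
    obtain ⟨h1, h2, h3⟩ := hq
    refine ⟨(e.symm q.1, e.symm q.2), ?_, ?_⟩
    · simp only [Finset.mem_filter, Finset.mem_univ, true_and]
      refine ⟨?_, ?_, ?_⟩
      · rw [Finset.mem_map] at h1
        obtain ⟨u, hu, hue⟩ := h1
        have h4 : e.symm q.1 = u := by
          rw [← hue]
          exact e.symm_apply_apply u
        rw [h4]
        exact hu
      · intro h5
        apply h2
        rw [Finset.mem_map]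
        exact ⟨_, h5, e.apply_symm_apply q.2⟩
      · exact e.symm.map_adj_iff.2 h3
    · exact Prod.ext (e.apply_symm_apply q.1) (e.apply_symm_apply q.2)

private lemma deg_iso {V W : Type} [Fintype V] [Fintype W] {G : SimpleGraph V}
    {H : SimpleGraph W} (e : G ≃g H) {d d' : ℕ} (hd : Regular G d) (hd' : Regular H d') (v : V) :
    d = d' := by
  rw [← hd v, ← hd' (e v)]
  refine Finset.card_bij (fun u _ => e u) ?_ ?_ ?_
  · intro u hu
    simp only [Finset.mem_filter, Finset.mem_univ, true_and] at hu ⊢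
    exact e.map_adj_iff.2 hu
  · intro a _ b _ hab
    exact e.injective hab
  · intro u hu
    simp only [Finset.mem_filter, Finset.mem_univ, true_and] at hu
    refine ⟨e.symm u, ?_, e.apply_symm_apply u⟩
    simp only [Finset.mem_filter, Finset.mem_univ, true_and]
    rw [← e.map_adj_iff, e.apply_symm_apply]
    exact hu

/-- PROOF: an isomorphism `e` maps the set `S` of `hY` to a set with the same card and the same number of inner pairs (or the same `cut`) in `H`; the degrees of the two graphs agree (there is a vertex, as `δ n > 0`); so `1 - η ≤ expansion ≤ η`,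
contradiction to `η < 1 / 2`. -/
theorem not_iso {V W : Type} [Fintype V] [Fintype W] {G : SimpleGraph V} {H : SimpleGraph W} {η δ : ℚ}
    (hη : η < 1 / 2) (hY : SSEYes η δ G) (hN : SSENo η δ H) : ¬ Nonempty (G ≃g H) := by
  rintro ⟨e⟩
  obtain ⟨d, ⟨hd1, hdr, k, hk, hkδ⟩, S, hS, hSe⟩ := hY
  obtain ⟨d', ⟨hd1', hdr', -⟩, hno⟩ := hN
  have hcard : Fintype.card V = Fintype.card W := Fintype.card_congr e.toEquiv
  have hV : 0 < Fintype.card V := by
    rcases Nat.eq_zero_or_pos (Fintype.card V) with h0 | h0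
    · exfalso
      rw [h0, Nat.cast_zero, mul_zero] at hkδ
      have : k = 0 := by exact_mod_cast hkδ
      omega
    · exact h0
  obtain ⟨v⟩ := Fintype.card_pos_iff.1 hV
  have hdd : d = d' := deg_iso e hdr hdr' v
  subst hdd
  have h1 := hno (S.map e.toEquiv.toEmbedding) (by
    rw [Finset.card_map, ← hcard]
    exact hS)
  unfold expansion at h1 hSe
  rw [cut_iso, Finset.card_map] at h1
  linarith

end Pool.Agent.Lib.MP_8d8c46_lc.CW
end
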