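import Pool.Agent.Lib.MP_8d8c46_lc.Mg.G015
import Pool.Agent.Lib.MP_8d8c46_lc.Mg.G016
import Pool.Agent.Lib.MP_8d8c46_lc.CW.Defs

section

/-!
Small sets of equations of a random system have many variables.
-/

open scoped Classical
open Finset

namespace Pool.Agent.Lib.MP_8d8c46_lc

/-- The permutations that map `I` into `W`. -/
noncomputable def permInto (n : ℕ) (I W : Finset (Fin n)) : Finset (Equiv.Perm (Fin n)) :=
  univ.filter (fun π => ∀ i ∈ I, π i ∈ W)

lemma permInto_card (n : ℕ) (W I : Finset (Fin n)) :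
    (permInto n I W).card * n ^ I.card ≤ n.factorial * W.card ^ I.card := by
  induction I using Finset.induction_on with
  | empty =>
    simp only [card_empty, pow_zero, mul_one]
    refine (card_filter_le _ _).trans ?_
    rw [card_univ, Fintype.card_perm, Fintype.card_fin]
  | insert i₀ I hi₀ ih =>
    rw [card_insert_of_notMem hi₀]
    set A := permInto n I W with hA
    set A' := permInto n (insert i₀ I) W with hA'
    have hsub : A' ⊆ A := by
      intro π hπ
      simp only [hA, hA', permInto, mem_filter, mem_univ, true_and] at hπ ⊢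
      exact fun i hi => hπ i (mem_insert_of_mem hi)
    have hinj : A'.card * (Wᶜ).card ≤ (A \ A').card * W.card := by
      rw [← card_product, ← card_product]
      refine card_le_card_of_injOn
        (fun q => (Equiv.swap (q.1 i₀) q.2 * q.1, q.1 i₀)) ?_ ?_
      · rintro ⟨π, z⟩ hq
        simp only [coe_product, Set.mem_prod, mem_coe, mem_compl] at hq
        obtain ⟨hπ, hz⟩ := hq
        simp only [hA', permInto, mem_filter, mem_univ, true_and] at hπ
        simp only [coe_product, Set.mem_prod, mem_coe, mem_sdiff, hA, hA', permInto,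
          mem_filter, mem_univ, true_and]
        refine ⟨⟨?_, ?_⟩, hπ i₀ (mem_insert_self _ _)⟩
        · intro i hi
          rw [Equiv.Perm.mul_apply, Equiv.swap_apply_of_ne_of_ne]
          · exact hπ i (mem_insert_of_mem hi)
          · intro h
            have := π.injective h
            exact hi₀ (this ▸ hi)
          · intro h
            exact hz (h ▸ hπ i (mem_insert_of_mem hi))
        · intro h
          have h1 := h i₀ (mem_insert_self _ _)
          rw [Equiv.Perm.mul_apply, Equiv.swap_apply_left] at h1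
          exact hz h1
      · rintro ⟨π, z⟩ - ⟨π', z'⟩ - h
        simp only [Prod.mk.injEq] at h
        obtain ⟨h1, h2⟩ := h
        have h3 : z = z' := by
          have h4 := congrArg (fun σ : Equiv.Perm (Fin n) => σ i₀) h1
          simpa using h4
        subst h3
        rw [h2] at h1
        rw [mul_left_cancel h1]
    have hW : (Wᶜ).card + W.card = n := by
      rw [card_compl, Fintype.card_fin]
      have : W.card ≤ n := by simpa using card_le_univ W
      omega
    have hAA : (A \ A').card + A'.card = A.card := by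
      rw [card_sdiff_add_card_eq_card hsub]
    have hkey : A'.card * n ≤ A.card * W.card := by
      calc A'.card * n = A'.card * (Wᶜ).card + A'.card * W.card := by rw [← mul_add, hW]
        _ ≤ (A \ A').card * W.card + A'.card * W.card := Nat.add_le_add_right hinj _
        _ = A.card * W.card := by rw [← add_mul, hAA]
    calc A'.card * n ^ (I.card + 1) = A'.card * n * n ^ I.card := by ring
      _ ≤ A.card * W.card * n ^ I.card := Nat.mul_le_mul_right _ hkey
      _ = A.card * n ^ I.card * W.card := by ring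
      _ ≤ n.factorial * W.card ^ I.card * W.card := Nat.mul_le_mul_right _ ih
      _ = _ := by ring

section
variable {n D : ℕ}

/-- the row indices of the equations of slot `j` in `F` -/
noncomputable def slot (F : Finset (Fin n × Fin D)) (j : Fin D) : Finset (Fin n) :=
  (F.filter (fun e => e.2 = j)).image Prod.fst

lemma slot_card (F : Finset (Fin n × Fin D)) : ∑ j, (slot F j).card = F.card := by
  rw [card_eq_sum_card_fiberwise (f := Prod.snd) (s := F) (t := univ) (fun _ _ => by simp)]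
  refine sum_congr rfl (fun j _ => ?_)
  unfold slot
  refine card_image_of_injOn ?_
  rintro ⟨i, j₁⟩ h1 ⟨i', j₂⟩ h2 h
  simp only [coe_filter, Set.mem_ofPred_eq] at h1 h2
  simp only at h
  rw [h1.2, h2.2, h]

lemma mem_slot {F : Finset (Fin n × Fin D)} {i : Fin n} {j : Fin D} :
    i ∈ slot F j ↔ (i, j) ∈ F := by
  unfold slot
  simp only [mem_image, mem_filter, Prod.exists, exists_and_right]
  constructor
  · rintro ⟨i', ⟨j', h1, h2⟩, rfl⟩
    subst h2; exact h1
  · intro h
    exact ⟨i, ⟨j, h, rfl⟩, rfl⟩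

/-- The number of systems in which all variables of the equations of `F` are in `W`. -/
lemma count_into (F : Finset (Fin n × Fin D)) (W : Finset (Fin n)) :
    (univ.filter (fun ω : Fin D → Om n => ∀ e ∈ F, ∀ i, rx ω e i ∈ W)).card *
      n ^ (2 * F.card) ≤ Fintype.card (Om n) ^ D * W.card ^ (2 * F.card) := by
  have hsub : univ.filter (fun ω : Fin D → Om n => ∀ e ∈ F, ∀ i, rx ω e i ∈ W) ⊆
      Fintype.piFinset (fun j => permInto n (slot F j) W ×ˢ (permInto n (slot F j) W ×ˢ
        (univ : Finset (Fin n → ZMod 2)))) := by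
    intro ω hω
    simp only [mem_filter, mem_univ, true_and] at hω
    rw [Fintype.mem_piFinset]
    intro j
    simp only [mem_product, mem_univ, and_true, permInto, mem_filter, true_and]
    refine ⟨fun i hi => ?_, fun i hi => ?_⟩
    · exact hω (i, j) (mem_slot.1 hi) 1
    · exact hω (i, j) (mem_slot.1 hi) 2
  have hc := card_le_card hsub
  rw [Fintype.card_piFinset] at hc
  have h1 : ∀ j, (permInto n (slot F j) W ×ˢ (permInto n (slot F j) W ×ˢ
        (univ : Finset (Fin n → ZMod 2)))).card * n ^ (2 * (slot F j).card) ≤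
      Fintype.card (Om n) * W.card ^ (2 * (slot F j).card) := by
    intro j
    have h2 := permInto_card n W (slot F j)
    rw [card_product, card_product, card_univ]
    have h3 : Fintype.card (Om n) = n.factorial * (n.factorial *
        Fintype.card (Fin n → ZMod 2)) := by
      rw [Fintype.card_prod, Fintype.card_prod, Fintype.card_perm, Fintype.card_fin]
    rw [h3]
    set P := (permInto n (slot F j) W).card
    set B := Fintype.card (Fin n → ZMod 2)
    set k := (slot F j).card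
    calc P * (P * B) * n ^ (2 * k) = (P * n ^ k) * (P * n ^ k) * B := by ring
      _ ≤ (n.factorial * W.card ^ k) * (n.factorial * W.card ^ k) * B :=
          Nat.mul_le_mul_right _ (Nat.mul_le_mul h2 h2)
      _ = _ := by ring
  calc _ ≤ (∏ j, (permInto n (slot F j) W ×ˢ (permInto n (slot F j) W ×ˢ
        (univ : Finset (Fin n → ZMod 2)))).card) * n ^ (2 * F.card) :=
        Nat.mul_le_mul_right _ hc
    _ = ∏ j, ((permInto n (slot F j) W ×ˢ (permInto n (slot F j) W ×ˢ
        (univ : Finset (Fin n → ZMod 2)))).card * n ^ (2 * (slot F j).card)) := by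
        rw [prod_mul_distrib, prod_pow_eq_pow_sum, ← mul_sum, slot_card]
    _ ≤ ∏ j : Fin D, (Fintype.card (Om n) * W.card ^ (2 * (slot F j).card)) :=
        prod_le_prod' (fun j _ => h1 j)
    _ = _ := by
        rw [prod_mul_distrib, prod_pow_eq_pow_sum, ← mul_sum, slot_card, prod_const,
          card_univ, Fintype.card_fin]

/-- the size of the sets of variables to be excluded for `s` equations -/
def ws (s : ℕ) : ℕ := (7 * s - 1) / 4

lemma fact_lower (m : ℕ) : (m : ℝ) ^ m ≤ m.factorial * 3 ^ m := by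
  have h1 := Real.pow_div_factorial_le_exp (m : ℝ) (Nat.cast_nonneg m) m
  have h2 : (0 : ℝ) < m.factorial := by exact_mod_cast Nat.factorial_pos m
  rw [div_le_iff₀ h2] at h1
  refine h1.trans ?_
  rw [mul_comm]
  refine mul_le_mul_of_nonneg_left ?_ h2.le
  calc Real.exp m = Real.exp 1 ^ m := by rw [← Real.exp_nat_mul, mul_one]
    _ ≤ 3 ^ m := pow_le_pow_left₀ (Real.exp_pos _).le Real.exp_one_lt_three.le _

/-- The terms of the union bound. -/
lemma term_bound {s : ℕ} (hs : 1 ≤ s) {β : ℝ} (hβ0 : 0 < β) (hβ1 : β ≤ 1)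
    (hn : 0 < n) (hsn : 2 * (s : ℝ) ≤ β ^ 4 * n) :
    ((n.choose (ws s) : ℝ) * ((ws s * D).choose s)) * ((ws s : ℝ) / n) ^ (2 * s) ≤
      (54 * D * β) ^ s := by
  set w := ws s with hw
  have hw1 : 4 * w ≤ 7 * s - 1 := by rw [hw, ws]; omega
  have hw2 : 7 * s ≤ 4 * w + 4 := by rw [hw, ws]; omega
  have hwpos : 0 < w := by omega
  have hn' : (0 : ℝ) < n := by exact_mod_cast hn
  have hw' : (0 : ℝ) < w := by exact_mod_cast hwpos
  have hs' : (0 : ℝ) < s := by exact_mod_cast hs
  have hws : (w : ℝ) ≤ 2 * s := by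
    have : w ≤ 2 * s := by omega
    exact_mod_cast this
  have hfw : (0 : ℝ) < w.factorial := by exact_mod_cast Nat.factorial_pos w
  have hfs : (0 : ℝ) < s.factorial := by exact_mod_cast Nat.factorial_pos s
  obtain ⟨a, ha⟩ : ∃ a, 2 * s = w + a := ⟨2 * s - w, by omega⟩
  have h4a : s ≤ 4 * a := by omega
  have h1 : (n.choose w : ℝ) ≤ (n : ℝ) ^ w / w.factorial := Nat.choose_le_pow_div w n
  have h2 : (((w * D).choose s : ℕ) : ℝ) ≤ ((w * D : ℕ) : ℝ) ^ s / s.factorial :=
    Nat.choose_le_pow_div s (w * D)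
  have h3 : (1 : ℝ) / w.factorial ≤ 3 ^ w / (w : ℝ) ^ w := by
    rw [div_le_div_iff₀ hfw (by positivity), one_mul, mul_comm]
    exact fact_lower w
  have h4 : (1 : ℝ) / s.factorial ≤ 3 ^ s / (s : ℝ) ^ s := by
    rw [div_le_div_iff₀ hfs (by positivity), one_mul, mul_comm]
    exact fact_lower s
  have h1' : (n.choose w : ℝ) ≤ (n : ℝ) ^ w * (3 ^ w / (w : ℝ) ^ w) := by
    refine h1.trans ?_
    rw [div_eq_mul_one_div]
    exact mul_le_mul_of_nonneg_left h3 (by positivity)
  have h2' : (((w * D).choose s : ℕ) : ℝ) ≤ ((w : ℝ) * D) ^ s * (3 ^ s / (s : ℝ) ^ s) := by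
    refine h2.trans ?_
    rw [div_eq_mul_one_div]
    push_cast
    exact mul_le_mul_of_nonneg_left h4 (by positivity)
  calc ((n.choose w : ℝ) * ((w * D).choose s)) * ((w : ℝ) / n) ^ (2 * s)
      ≤ ((n : ℝ) ^ w * (3 ^ w / (w : ℝ) ^ w) * (((w : ℝ) * D) ^ s * (3 ^ s / (s : ℝ) ^ s))) *
        ((w : ℝ) / n) ^ (2 * s) := by
        gcongr
    _ = 3 ^ w * 3 ^ s * (D : ℝ) ^ s * ((w : ℝ) / s) ^ s * ((w : ℝ) / n) ^ a := by
        rw [ha, pow_add, mul_pow, div_pow, div_pow, div_pow]
        field_simp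
    _ ≤ 3 ^ (2 * s) * 3 ^ s * (D : ℝ) ^ s * 2 ^ s * (β ^ 4) ^ a := by
        have e1 : (w : ℝ) / s ≤ 2 := by rw [div_le_iff₀ hs']; exact hws
        have e2 : (w : ℝ) / n ≤ β ^ 4 := by
          rw [div_le_iff₀ hn']; linarith
        have e3 : (3 : ℝ) ^ w ≤ 3 ^ (2 * s) :=
          pow_le_pow_right₀ (by norm_num) (by omega)
        gcongr
    _ ≤ 3 ^ (2 * s) * 3 ^ s * (D : ℝ) ^ s * 2 ^ s * β ^ s := by
        have : (β ^ 4) ^ a ≤ β ^ s := by
          rw [← pow_mul]
          exact pow_le_pow_of_le_one hβ0.le hβ1 h4a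
        gcongr
    _ = (54 * D * β) ^ s := by
        rw [pow_mul, ← mul_pow, ← mul_pow, ← mul_pow, ← mul_pow]
        congr 1
        ring

/-- The variables of the equations in `F`. -/
noncomputable def varsOf {V E : Type*} (x : E → Fin 3 → V) (F : Finset E) : Finset V :=
  F.biUnion (fun e => univ.image (x e))

lemma mem_varsOf {V E : Type*} {x : E → Fin 3 → V} {F : Finset E} {v : V} :
    v ∈ varsOf x F ↔ ∃ e ∈ F, ∃ i, x e i = v := by
  simp [varsOf]

/-- A set of equations with many variables has many variables that occur exactly once. -/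
lemma bd_of_vars {V E : Type*} (x : E → Fin 3 → V) (F : Finset E) (U : Finset V)
    (hF : 7 * F.card ≤ 4 * (varsOf x F).card) (hU : 2 * U.card < F.card) :
    ∃ v, v ∉ U ∧ v ∈ bd x F := by
  by_contra hcon
  push Not at hcon
  have h1 : ∀ v ∈ varsOf x F, 1 ≤ occ x F v := by
    intro v hv
    obtain ⟨e, he, i, hi⟩ := mem_varsOf.1 hv
    unfold occ
    rw [Nat.one_le_iff_ne_zero, ← Nat.pos_iff_ne_zero, card_pos]
    exact ⟨(e, i), by simp [he, hi]⟩
  have h2 : ∀ v ∈ varsOf x F, 2 ≤ occ x F v + if v ∈ U then 1 else 0 := by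
    intro v hv
    have h3 := h1 v hv
    by_cases hvU : v ∈ U
    · rw [if_pos hvU]; omega
    · rw [if_neg hvU]
      have h4 : occ x F v ≠ 1 := fun h => hcon v hvU h
      omega
  have h3 : ∑ v ∈ varsOf x F, occ x F v = 3 * F.card := by
    have : ((F ×ˢ (univ : Finset (Fin 3)))).card = ∑ v ∈ varsOf x F, occ x F v := by
      refine card_eq_sum_card_fiberwise (f := fun q : E × Fin 3 => x q.1 q.2) ?_
      rintro ⟨e, i⟩ h
      simp only [coe_product, coe_univ, Set.mem_prod, mem_coe, Set.mem_univ, and_true] at h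
      simp only [mem_coe]
      exact mem_varsOf.2 ⟨e, h, i, rfl⟩
    rw [← this, card_product, card_univ, Fintype.card_fin]
    ring
  have h4 : ∑ v ∈ varsOf x F, (if v ∈ U then 1 else 0) ≤ U.card := by
    rw [← card_filter]
    exact card_le_card (fun v hv => (mem_filter.1 hv).2)
  have h5 := sum_le_sum h2
  rw [sum_const, smul_eq_mul, sum_add_distrib, h3] at h5
  omega

/-- Some set of at most `S` equations of the system has few variables. -/
def BadExp (S : ℕ) (ω : Fin D → Om n) : Prop :=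
  ∃ F : Finset (Fin n × Fin D), 1 ≤ F.card ∧ F.card ≤ S ∧
    4 * (varsOf (rx ω) F).card < 7 * F.card

lemma expands_of_not_bad {S s : ℕ} (hs : 2 * s ≤ S) {ω : Fin D → Om n} (h : ¬ BadExp S ω) :
    Expands (rx ω) s := by
  intro F hF U hU
  refine bd_of_vars (rx ω) F U ?_ hU
  by_contra hcon
  exact h ⟨F, by omega, hF.trans hs, by omega⟩

/-- Few systems have a small set of equations with few variables. -/
lemma card_badExp {S : ℕ} (hn : 0 < n) (hD : 0 < D)
    (hS : 2 * (S : ℝ) ≤ (1 / (432 * D)) ^ 4 * n) :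
    ((univ.filter (fun ω : Fin D → Om n => BadExp S ω)).card : ℝ) ≤
      (Fintype.card (Om n) : ℝ) ^ D / 7 := by
  set β : ℝ := 1 / (432 * D) with hβ
  have hD' : (1 : ℝ) ≤ D := by exact_mod_cast hD
  have hn' : (0 : ℝ) < n := by exact_mod_cast hn
  have hβ0 : 0 < β := by positivity
  have hβ1 : β ≤ 1 := by
    rw [hβ, div_le_one (by positivity)]; linarith
  have hβ8 : 54 * D * β = 1 / 8 := by
    rw [hβ]; field_simp; norm_num
  have hβ4 : β ^ 4 ≤ 1 := pow_le_one₀ hβ0.le hβ1
  -- the union bound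
  have hsub : univ.filter (fun ω : Fin D → Om n => BadExp S ω) ⊆
      (Icc 1 S).biUnion (fun s => (powersetCard (ws s) (univ : Finset (Fin n))).biUnion (fun W =>
        (powersetCard s (W ×ˢ (univ : Finset (Fin D)))).biUnion (fun F =>
          univ.filter (fun ω : Fin D → Om n => ∀ e ∈ F, ∀ i, rx ω e i ∈ W)))) := by
    intro ω hω
    simp only [mem_filter, mem_univ, true_and] at hω
    obtain ⟨F, hF1, hF2, hF3⟩ := hω
    have h1 : (varsOf (rx ω) F).card ≤ ws F.card := by unfold ws; omega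
    have h2 : ws F.card ≤ Fintype.card (Fin n) := by
      rw [Fintype.card_fin]
      have e1 : ws F.card ≤ 2 * S := by unfold ws; omega
      have e2 : ((2 * S : ℕ) : ℝ) ≤ n := by
        push_cast
        calc 2 * (S : ℝ) ≤ β ^ 4 * n := hS
          _ ≤ 1 * n := mul_le_mul_of_nonneg_right hβ4 hn'.le
          _ = n := one_mul _
      have e3 : 2 * S ≤ n := by exact_mod_cast e2
      omega
    obtain ⟨W, hW1, hW2⟩ := exists_superset_card_eq h1 h2
    simp only [mem_biUnion, mem_Icc, mem_powersetCard_univ, mem_filter, mem_univ, true_and]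
    refine ⟨F.card, ⟨hF1, hF2⟩, W, hW2, F, ?_, ?_⟩
    · rw [mem_powersetCard]
      refine ⟨?_, rfl⟩
      rintro ⟨i, j⟩ he
      rw [mem_product]
      refine ⟨hW1 (mem_varsOf.2 ⟨(i, j), he, 0, rfl⟩), mem_univ _⟩
    · intro e he i
      exact hW1 (mem_varsOf.2 ⟨e, he, i, rfl⟩)
  have hcnt : ∀ s ∈ Icc 1 S, (((powersetCard (ws s) (univ : Finset (Fin n))).biUnion (fun W =>
        (powersetCard s (W ×ˢ (univ : Finset (Fin D)))).biUnion (fun F =>
          univ.filter (fun ω : Fin D → Om n => ∀ e ∈ F, ∀ i, rx ω e i ∈ W)))).card : ℝ) ≤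
      (Fintype.card (Om n) : ℝ) ^ D * (1 / 8) ^ s := by
    intro s hs
    rw [mem_Icc] at hs
    have hone : ∀ W ∈ powersetCard (ws s) (univ : Finset (Fin n)),
        ∀ F ∈ powersetCard s (W ×ˢ (univ : Finset (Fin D))),
        ((univ.filter (fun ω : Fin D → Om n => ∀ e ∈ F, ∀ i, rx ω e i ∈ W)).card : ℝ) ≤
        (Fintype.card (Om n) : ℝ) ^ D * ((ws s : ℝ) / n) ^ (2 * s) := by
      intro W hW F hF
      have h1 := count_into F W
      rw [(mem_powersetCard.1 hW).2, (mem_powersetCard.1 hF).2] at h1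
      rw [div_pow, ← mul_div_assoc, le_div_iff₀ (by positivity)]
      exact_mod_cast h1
    have h2 : ((powersetCard (ws s) (univ : Finset (Fin n))).biUnion (fun W =>
        (powersetCard s (W ×ˢ (univ : Finset (Fin D)))).biUnion (fun F =>
          univ.filter (fun ω : Fin D → Om n => ∀ e ∈ F, ∀ i, rx ω e i ∈ W)))).card ≤
        ∑ W ∈ powersetCard (ws s) (univ : Finset (Fin n)),
          ∑ F ∈ powersetCard s (W ×ˢ (univ : Finset (Fin D))),
          (univ.filter (fun ω : Fin D → Om n => ∀ e ∈ F, ∀ i, rx ω e i ∈ W)).card :=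
      card_biUnion_le.trans (sum_le_sum (fun W _ => card_biUnion_le))
    calc _ ≤ ((∑ W ∈ powersetCard (ws s) (univ : Finset (Fin n)),
          ∑ F ∈ powersetCard s (W ×ˢ (univ : Finset (Fin D))),
          (univ.filter (fun ω : Fin D → Om n => ∀ e ∈ F, ∀ i, rx ω e i ∈ W)).card : ℕ) : ℝ) := by
          exact_mod_cast h2
      _ ≤ ∑ W ∈ powersetCard (ws s) (univ : Finset (Fin n)),
          ∑ F ∈ powersetCard s (W ×ˢ (univ : Finset (Fin D))),
          (Fintype.card (Om n) : ℝ) ^ D * ((ws s : ℝ) / n) ^ (2 * s) := by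
          push_cast
          exact sum_le_sum (fun W hW => sum_le_sum (fun F hF => hone W hW F hF))
      _ = ∑ W ∈ powersetCard (ws s) (univ : Finset (Fin n)), (((ws s * D).choose s : ℕ) : ℝ) *
          ((Fintype.card (Om n) : ℝ) ^ D * ((ws s : ℝ) / n) ^ (2 * s)) := by
          refine sum_congr rfl (fun W hW => ?_)
          rw [sum_const, card_powersetCard, card_product, (mem_powersetCard.1 hW).2,
            card_univ, Fintype.card_fin, nsmul_eq_mul]
      _ = (Fintype.card (Om n) : ℝ) ^ D *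
          (((n.choose (ws s) : ℝ) * ((ws s * D).choose s)) * ((ws s : ℝ) / n) ^ (2 * s)) := by
          rw [sum_const, card_powersetCard, card_univ, Fintype.card_fin, nsmul_eq_mul]
          ring
      _ ≤ (Fintype.card (Om n) : ℝ) ^ D * (54 * D * β) ^ s := by
          refine mul_le_mul_of_nonneg_left ?_ (by positivity)
          refine term_bound hs.1 hβ0 hβ1 hn ?_
          have : (s : ℝ) ≤ S := by exact_mod_cast hs.2
          linarith
      _ = _ := by rw [hβ8]
  calc ((univ.filter (fun ω : Fin D → Om n => BadExp S ω)).card : ℝ)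
      ≤ (((Icc 1 S).biUnion (fun s => (powersetCard (ws s) (univ : Finset (Fin n))).biUnion
        (fun W => (powersetCard s (W ×ˢ (univ : Finset (Fin D)))).biUnion (fun F =>
          univ.filter (fun ω : Fin D → Om n => ∀ e ∈ F, ∀ i, rx ω e i ∈ W))))).card : ℝ) := by
        exact_mod_cast card_le_card hsub
    _ ≤ ∑ s ∈ Icc 1 S, (((powersetCard (ws s) (univ : Finset (Fin n))).biUnion
        (fun W => (powersetCard s (W ×ˢ (univ : Finset (Fin D)))).biUnion (fun F =>
          univ.filter (fun ω : Fin D → Om n => ∀ e ∈ F, ∀ i, rx ω e i ∈ W)))).card : ℝ) := by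
        exact_mod_cast card_biUnion_le
    _ ≤ ∑ s ∈ Icc 1 S, (Fintype.card (Om n) : ℝ) ^ D * (1 / 8) ^ s := sum_le_sum hcnt
    _ ≤ (Fintype.card (Om n) : ℝ) ^ D / 7 := by
        rw [← mul_sum, div_eq_mul_one_div ((Fintype.card (Om n) : ℝ) ^ D) 7]
        refine mul_le_mul_of_nonneg_left ?_ (by positivity)
        have h1 : ∀ S : ℕ, ∑ s ∈ Icc 1 S, (1 / 8 : ℝ) ^ s = 1 / 7 - 1 / 7 * (1 / 8) ^ S := by
          intro S
          induction S with
          | zero => simp
          | succ S ih =>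
            rw [sum_Icc_succ_top (by omega), ih, pow_succ]
            ring
        rw [h1]
        have : (0 : ℝ) ≤ 1 / 7 * (1 / 8) ^ S := by positivity
        linarith

end

end Pool.Agent.Lib.MP_8d8c46_lc
end

section

/-!
# Campaign CW, task P1b: part (1) of the theorem
-/

set_option autoImplicit false

open scoped Classical
open Finset

namespace Pool.Agent.Lib.MP_8d8c46_lc.CW

/-- PROOF. `K = max (100 / δ) (8 / (η ^ 2 δ)) + 10`, `n = card V ≥ 1` (as `δ n > 0`), `n ^ (140 η) ≥ 1`. If `η ^ 2 δ n < 4` then `n < 4 / (η ^ 2 δ) ≤ K ≤ k`: `pebble_mono` to `n` pebbles, `PebbleEquiv.iso` (`Fin n ≃ V`), `not_iso`. Otherwise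
`large_case` with `r = k - 2`: `k ≥ (100 / δ) n ^ (140 η) + 10`. -/
theorem part_one {η δ : ℚ} (hη0 : 0 < η) (hη : η ≤ 1 / 200) (hδ0 : 0 < δ) (hδ : δ ≤ 1 / 2) :
    ∃ K : ℝ, 1 ≤ K ∧ ∀ (V W : Type) [Fintype V] [Fintype W] (G : SimpleGraph V) (H : SimpleGraph W),
      SSEYes η δ G → SSENo η δ H → ∀ k : ℕ, K * (Fintype.card V : ℝ) ^ (140 * (η : ℝ)) ≤ k →
        ¬ PebbleEquiv k G H := by
  have hη0' : (0 : ℝ) < (η : ℝ) := by exact_mod_cast hη0
  have hδ0' : (0 : ℝ) < (δ : ℝ) := by exact_mod_cast hδ0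
  have hKa : 100 / (δ : ℝ) + 10 ≤ max (100 / (δ : ℝ)) (8 / ((η : ℝ) ^ 2 * (δ : ℝ))) + 10 := by
    have := le_max_left (100 / (δ : ℝ)) (8 / ((η : ℝ) ^ 2 * (δ : ℝ)))
    linarith
  have hKb : 8 / ((η : ℝ) ^ 2 * (δ : ℝ)) ≤ max (100 / (δ : ℝ)) (8 / ((η : ℝ) ^ 2 * (δ : ℝ))) + 10 := by
    have := le_max_right (100 / (δ : ℝ)) (8 / ((η : ℝ) ^ 2 * (δ : ℝ)))
    linarith
  have h100 : (0 : ℝ) < 100 / (δ : ℝ) := by positivity
  refine ⟨max (100 / (δ : ℝ)) (8 / ((η : ℝ) ^ 2 * (δ : ℝ))) + 10, by linarith, ?_⟩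
  generalize max (100 / (δ : ℝ)) (8 / ((η : ℝ) ^ 2 * (δ : ℝ))) + 10 = K at hKa hKb
  intro V W _ _ G H hY hN k hk hp
  have hn : 0 < Fintype.card V := by
    obtain ⟨d, ⟨_, _, m, hm0, hm⟩, _⟩ := hY
    rcases Nat.eq_zero_or_pos (Fintype.card V) with h0 | h0
    · rw [h0] at hm
      simp only [Nat.cast_zero, mul_zero] at hm
      have : m = 0 := by exact_mod_cast hm
      omega
    · exact h0
  have hn1 : (1 : ℝ) ≤ (Fintype.card V : ℝ) := by exact_mod_cast hn
  have hX : (1 : ℝ) ≤ (Fintype.card V : ℝ) ^ (140 * (η : ℝ)) :=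
    Real.one_le_rpow hn1 (by positivity)
  set X : ℝ := (Fintype.card V : ℝ) ^ (140 * (η : ℝ)) with hXdef
  have hKk : K ≤ (k : ℝ) := by
    have hK0 : 0 ≤ K := by linarith
    nlinarith
  by_cases hs : (η : ℝ) ^ 2 * ((δ : ℝ) * Fintype.card V) < 4
  · have hnk : Fintype.card V ≤ k := by
      have h1 : (0 : ℝ) < (η : ℝ) ^ 2 * (δ : ℝ) := by positivity
      have h2 : (Fintype.card V : ℝ) ≤ 8 / ((η : ℝ) ^ 2 * (δ : ℝ)) := by
        rw [le_div_iff₀ h1]
        nlinarith
      have h3 : (Fintype.card V : ℝ) ≤ (k : ℝ) := le_trans h2 (le_trans hKb hKk)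
      exact_mod_cast h3
    have hp' := pebble_mono hnk hp
    have hiso := PebbleEquiv.iso (Fintype.equivFin V).symm hn hp'
    exact not_iso (lt_of_le_of_lt hη (by norm_num)) hY hN hiso
  · have hbig : 4 ≤ (η : ℝ) ^ 2 * ((δ : ℝ) * Fintype.card V) := not_lt.1 hs
    have hkX : 100 / (δ : ℝ) * X + 10 ≤ (k : ℝ) := by
      have h1 : (100 / (δ : ℝ) + 10) * X ≤ K * X :=
        mul_le_mul_of_nonneg_right hKa (by linarith)
      nlinarith
    have h90 : 90 / (δ : ℝ) * X ≤ 100 / (δ : ℝ) * X := by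
      have h1 : 90 / (δ : ℝ) ≤ 100 / (δ : ℝ) := by
        apply div_le_div_of_nonneg_right _ hδ0'.le
        norm_num
      exact mul_le_mul_of_nonneg_right h1 (by linarith)
    have h900 : 0 ≤ 90 / (δ : ℝ) * X := by
      have : (0 : ℝ) ≤ X := by linarith
      positivity
    have hk10 : 10 ≤ k := by
      have : (10 : ℝ) ≤ (k : ℝ) := by linarith
      exact_mod_cast this
    obtain ⟨r, rfl⟩ : ∃ r, k = r + 2 := ⟨k - 2, by omega⟩
    refine large_case hη0 hη hδ0 hδ hY hN hbig (r := r) (by omega) ?_ hp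
    push_cast at hkX
    linarith

end Pool.Agent.Lib.MP_8d8c46_lc.CW
end

section

/-!
# Campaign CW, task OR: an oracle for `SSE(η, δ)` which is invariant under the pebble game
-/

set_option autoImplicit false

open scoped Classical
open Finset

namespace Pool.Agent.Lib.MP_8d8c46_lc.CW

theorem pebble_symm {V W : Type} {G : SimpleGraph V} {H : SimpleGraph W} {k : ℕ}
    (hp : PebbleEquiv k G H) : PebbleEquiv k H G := by
  obtain ⟨𝒲, h0, h𝒲⟩ := hp
  refine ⟨{p | (fun i => (p i).map Prod.swap) ∈ 𝒲}, h0, ?_⟩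
  intro p hp
  obtain ⟨hiso, hmove⟩ := h𝒲 _ hp
  refine ⟨?_, fun i => ?_⟩
  · intro i j a b ha hb
    have h1 := hiso i j a.swap b.swap (by simp [ha]) (by simp [hb])
    exact ⟨h1.1.symm, h1.2.symm⟩
  · obtain ⟨f, hf⟩ := hmove i
    refine ⟨f.symm, fun w => ?_⟩
    have h1 := hf (f.symm w)
    show (fun j => (Function.update p i (some (w, f.symm w)) j).map Prod.swap) ∈ 𝒲
    convert h1 using 1
    funext j
    by_cases hj : j = i
    · subst hj
      simp
    · simp [Function.update_of_ne hj]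

/-- PROOF: the positions of the third game are those composed of positions of the two games with the same pebbles. -/
theorem pebble_trans {V W X : Type} {G : SimpleGraph V} {H : SimpleGraph W} {J : SimpleGraph X} {k : ℕ}
    (h1 : PebbleEquiv k G H) (h2 : PebbleEquiv k H J) : PebbleEquiv k G J := by
  obtain ⟨𝒲₁, h10, h1w⟩ := h1
  obtain ⟨𝒲₂, h20, h2w⟩ := h2
  refine ⟨{p | ∃ p₁ ∈ 𝒲₁, ∃ p₂ ∈ 𝒲₂, ∀ i y, p i = some y → ∃ w, p₁ i = some (y.1, w) ∧ p₂ i = some (w, y.2)},
    ⟨_, h10, _, h20, fun i y h => absurd h (by simp)⟩, ?_⟩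
  rintro p ⟨p₁, hp₁, p₂, hp₂, hpos⟩
  obtain ⟨hiso1, hmove1⟩ := h1w p₁ hp₁
  obtain ⟨hiso2, hmove2⟩ := h2w p₂ hp₂
  refine ⟨?_, fun i => ?_⟩
  · intro i j a b ha hb
    obtain ⟨w, hw1, hw2⟩ := hpos i a ha
    obtain ⟨w', hw1', hw2'⟩ := hpos j b hb
    have h3 := hiso1 i j _ _ hw1 hw1'
    have h4 := hiso2 i j _ _ hw2 hw2'
    exact ⟨h3.1.trans h4.1, h3.2.trans h4.2⟩
  · obtain ⟨f, hf⟩ := hmove1 i
    obtain ⟨g, hg⟩ := hmove2 i
    refine ⟨f.trans g, fun v => ⟨_, hf v, _, hg (f v), ?_⟩⟩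
    intro j y hy
    by_cases hj : j = i
    · subst hj
      rw [Function.update_self, Option.some.injEq] at hy
      subst hy
      exact ⟨f v, by simp, by simp⟩
    · rw [Function.update_of_ne hj] at hy ⊢
      rw [Function.update_of_ne hj]
      exact hpos j y hy

theorem pebble_card {V W : Type} [Fintype V] [Fintype W] {G : SimpleGraph V} {H : SimpleGraph W} {k : ℕ} (hk : 0 < k)
    (hp : PebbleEquiv k G H) : Fintype.card V = Fintype.card W := by
  obtain ⟨𝒲, h0, h𝒲⟩ := hp
  obtain ⟨f, -⟩ := (h𝒲 _ h0).2 ⟨0, hk⟩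
  exact Fintype.card_congr f

theorem pebble_refl {V : Type} {G : SimpleGraph V} {k : ℕ} : PebbleEquiv k G G :=
  PebbleEquiv.of_iso (SimpleGraph.Iso.refl)

/-- The oracle which answers yes on the graphs that are equivalent to a Yes instance. PROOF. `K` from `part_one`; `O W G` iff there are a Yes instance `G'` on some `V'` and `k ≥ K (card V') ^ (140 η)` with `PebbleEquiv k G' G`. Invariance: `k' ≥ K (card W) ^ (140 η)` and `PebbleEquiv k' G H`: `card V' = card W` (`pebble_card`; `k > 0` as `card V' > 0`, `K ≥ 1`),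
`min k k'` works for `G', H` by `pebble_mono`, `pebble_trans`. The other direction with `pebble_symm`. -/
theorem exists_oracle {η δ : ℚ} (hη0 : 0 < η) (hη : η ≤ 1 / 200) (hδ0 : 0 < δ) (hδ : δ ≤ 1 / 2) :
    ∃ O : Oracle, Solves η δ O ∧ ∃ K : ℝ, 1 ≤ K ∧ ∀ (V W : Type) [Fintype V] [Fintype W] (G : SimpleGraph V)
      (H : SimpleGraph W) (k : ℕ), 0 < k → K * (Fintype.card V : ℝ) ^ (140 * (η : ℝ)) ≤ k → PebbleEquiv k G H →
        (O V G ↔ O W H) := by
  obtain ⟨K, hK1, hK⟩ := part_one hη0 hη hδ0 hδ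
  have hη0' : (0 : ℝ) < (η : ℝ) := by exact_mod_cast hη0
  have hpos : ∀ (V' : Type) [Fintype V'] (G' : SimpleGraph V') (k : ℕ), SSEYes η δ G' →
      K * (Fintype.card V' : ℝ) ^ (140 * (η : ℝ)) ≤ k → 0 < k := by
    intro V' _ G' k hY hk
    obtain ⟨d, ⟨_, _, m, hm0, hm⟩, _⟩ := hY
    have hn : 0 < Fintype.card V' := by
      rcases Nat.eq_zero_or_pos (Fintype.card V') with h0 | h0
      · rw [h0] at hm
        simp only [Nat.cast_zero, mul_zero] at hm
        have : m = 0 := by exact_mod_cast hm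
        omega
      · exact h0
    have hn1 : (1 : ℝ) ≤ (Fintype.card V' : ℝ) := by exact_mod_cast hn
    have hX : (1 : ℝ) ≤ (Fintype.card V' : ℝ) ^ (140 * (η : ℝ)) := Real.one_le_rpow hn1 (by positivity)
    have : (0 : ℝ) < k := by nlinarith
    exact_mod_cast this
  refine ⟨fun W _ G => ∃ (V' : Type) (_ : Fintype V') (G' : SimpleGraph V') (k : ℕ), SSEYes η δ G' ∧
    K * (Fintype.card V' : ℝ) ^ (140 * (η : ℝ)) ≤ k ∧ PebbleEquiv k G' G, ?_, K, hK1, ?_⟩
  · intro W _ G
    refine ⟨fun hY => ⟨W, inferInstance, G, ⌈K * (Fintype.card W : ℝ) ^ (140 * (η : ℝ))⌉₊, hY, Nat.le_ceil _,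
      pebble_refl⟩, ?_⟩
    rintro hN ⟨V', _, G', k, hY, hk, hp⟩
    exact hK V' W G' G hY hN k hk hp
  · have main : ∀ (V W : Type) [Fintype V] [Fintype W] (G : SimpleGraph V) (H : SimpleGraph W) (k : ℕ),
        K * (Fintype.card V : ℝ) ^ (140 * (η : ℝ)) ≤ k → PebbleEquiv k G H →
        (∃ (V' : Type) (_ : Fintype V') (G' : SimpleGraph V') (k : ℕ), SSEYes η δ G' ∧
          K * (Fintype.card V' : ℝ) ^ (140 * (η : ℝ)) ≤ k ∧ PebbleEquiv k G' G) →
        (∃ (V' : Type) (_ : Fintype V') (G' : SimpleGraph V') (k : ℕ), SSEYes η δ G' ∧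
          K * (Fintype.card V' : ℝ) ^ (140 * (η : ℝ)) ≤ k ∧ PebbleEquiv k G' H) := by
      rintro V W _ _ G H k hk hp ⟨V', _, G', k', hY, hk', hp'⟩
      have hk0 : 0 < k' := hpos V' G' k' hY hk'
      have hcard : Fintype.card V' = Fintype.card V := pebble_card hk0 hp'
      refine ⟨V', inferInstance, G', min k k', hY, ?_, ?_⟩
      · rw [Nat.cast_min]
        refine le_min ?_ hk'
        rw [hcard]
        exact hk
      · exact pebble_trans (pebble_mono (min_le_right _ _) hp') (pebble_mono (min_le_left _ _) hp)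
    intro V W _ _ G H k hk0 hk hp
    exact ⟨main V W G H k hk hp, main W V H G k (by rw [← pebble_card hk0 hp]; exact hk) (pebble_symm hp)⟩

end Pool.Agent.Lib.MP_8d8c46_lc.CW
end
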