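import Pool.Agent.Lib.MP_8d8c46_lc.CW.Defs
import Pool.Agent.Lib.MP_8d8c46_lc.Pebble
import Pool.Agent.Lib.MP_8d8c46_lc.PermMGF

section

/-!
# Campaign CW: the pebble game on structures (definitions)
-/

set_option autoImplicit false

open scoped Classical
open Finset

namespace Pool.Agent.Lib.MP_8d8c46_lc.CW

/-- the pairs `(u j, w j)` -/
noncomputable def prs {V W : Type} {a : ℕ} (u : Fin a → V) (w : Fin a → W) : Finset (V × W) :=
  univ.image fun j => (u j, w j)

/-- some winning position of the `m`-pebble game covers `s` -/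
def Cov {ι V W : Type} (m : ℕ) (A : Struct ι V) (B : Struct ι W) (s : Finset (V × W)) : Prop :=
  ∃ Q : Set (Fin m → Option (V × W)), Wins m A B Q ∧ ∃ p ∈ Q, ∀ x ∈ s, ∃ i, p i = some x

end Pool.Agent.Lib.MP_8d8c46_lc.CW
end

section

/-!
Turning a symmetric matrix `W` of natural numbers (a multigraph with loops) into a simple
regular graph: every vertex is replaced by a copy of the affine plane over `ZMod p`, and an
edge of multiplicity `w` by `2w` quasi-random bipartite graphs on the two planes.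
-/

open scoped Classical
open Finset

namespace Pool.Agent.Lib.MP_8d8c46_lc

/-- the indicator of a proposition -/
noncomputable def indN (P : Prop) : ℕ := if P then 1 else 0

lemma indN_pos {P : Prop} (h : P) : indN P = 1 := if_pos h

lemma indN_neg {P : Prop} (h : ¬ P) : indN P = 0 := if_neg h

lemma indN_congr {P Q : Prop} (h : P ↔ Q) : indN P = indN Q := by rw [propext h]

lemma card_filter_indN {α : Type*} (s : Finset α) (P : α → Prop) [DecidablePred P] :
    (s.filter P).card = ∑ x ∈ s, indN (P x) := by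
  rw [card_filter]
  refine sum_congr rfl (fun x _ => ?_)
  by_cases h : P x
  · rw [if_pos h, indN_pos h]
  · rw [if_neg h, indN_neg h]

/-- the points of the affine plane over `ZMod p` -/
abbrev Pl (p : ℕ) := ZMod p × ZMod p

/-- The relation `z.2 - z'.2 = κ (z.1 - z'.1)^2`, `z.1 ≠ z'.1`. -/
def Rel {p : ℕ} (κ : ZMod p) (z z' : Pl p) : Prop :=
  z.1 ≠ z'.1 ∧ z.2 - z'.2 = κ * (z.1 - z'.1) ^ 2

/-- the elements `±1, ..., ±w` of `ZMod p` -/
noncomputable def pm (p w : ℕ) : Finset (ZMod p) :=
  ((Finset.Icc (-(w : ℤ)) w).erase 0).image (fun c : ℤ => (c : ZMod p))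

lemma Rel.neg {p : ℕ} {κ : ZMod p} {z z' : Pl p} (h : Rel κ z z') : Rel (-κ) z' z := by
  refine ⟨h.1.symm, ?_⟩
  have := h.2
  have e : z'.2 - z.2 = -(z.2 - z'.2) := by ring
  rw [e, this]; ring

lemma neg_mem_pm {p w : ℕ} {κ : ZMod p} (h : κ ∈ pm p w) : -κ ∈ pm p w := by
  unfold pm at *
  simp only [Finset.mem_image, Finset.mem_erase, Finset.mem_Icc] at *
  obtain ⟨c, ⟨h0, h1, h2⟩, rfl⟩ := h
  exact ⟨-c, ⟨by simpa using h0, by omega, by omega⟩, by push_cast; ring⟩

lemma card_pm {p w : ℕ} (h : 2 * w < p) : (pm p w).card = 2 * w := by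
  unfold pm
  rw [Finset.card_image_of_injOn]
  · rw [Finset.card_erase_of_mem (by simp), Int.card_Icc]
    omega
  · intro a ha b hb hab
    simp only [Finset.coe_erase, Finset.coe_Icc, Set.mem_sdiff, Set.mem_Icc,
      Set.mem_singleton_iff] at ha hb
    have := (ZMod.intCast_eq_intCast_iff_dvd_sub a b p).1 hab
    by_contra hne
    have h2 : b - a ≠ 0 := by omega
    have h3 := Int.le_of_dvd (by positivity : (0 : ℤ) < |b - a|) ((dvd_abs _ _).2 this)
    have h4 : |b - a| ≤ 2 * w := by rw [abs_le]; constructor <;> omega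
    omega

lemma zero_notMem_pm {p w : ℕ} (h : 2 * w < p) : (0 : ZMod p) ∉ pm p w := by
  unfold pm
  simp only [Finset.mem_image, Finset.mem_erase, Finset.mem_Icc, not_exists, not_and]
  rintro c ⟨h0, h1, h2⟩ hc
  have := (ZMod.intCast_zmod_eq_zero_iff_dvd c p).1 hc
  have h3 := Int.le_of_dvd (by positivity : (0 : ℤ) < |c|) ((dvd_abs _ _).2 this)
  have h4 : |c| ≤ w := by rw [abs_le]; constructor <;> omega
  omega

section count
variable {p : ℕ} [Fact p.Prime]

lemma Rel.unique {κ κ' : ZMod p} {z z' : Pl p} (h : Rel κ z z') (h' : Rel κ' z z') :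
    κ = κ' := by
  have h0 : (z.1 - z'.1) ^ 2 ≠ 0 := pow_ne_zero _ (sub_ne_zero.2 h.1)
  exact mul_right_cancel₀ h0 (h.2.symm.trans h'.2)

lemma card_rel (κ : ZMod p) (z : Pl p) :
    (univ.filter (fun z' : Pl p => Rel κ z z')).card = p - 1 := by
  have e : univ.filter (fun z' : Pl p => Rel κ z z') =
      (univ.erase z.1).image (fun a : ZMod p => ((a, z.2 - κ * (z.1 - a) ^ 2) : Pl p)) := by
    ext ⟨a, b⟩
    simp only [mem_filter, mem_univ, true_and, mem_image, mem_erase, ne_eq, and_true,
      Prod.mk.injEq]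
    constructor
    · rintro ⟨h1, h2⟩
      simp only at h1 h2
      exact ⟨a, fun h => h1 h.symm, rfl, by rw [← h2]; ring⟩
    · rintro ⟨a', h1, rfl, rfl⟩
      exact ⟨fun h => h1 h.symm, by simp⟩
  rw [e, card_image_of_injective, card_erase_of_mem (mem_univ _), card_univ, ZMod.card]
  intro a b hab
  exact (Prod.mk.inj hab).1

lemma card_rel' (κ : ZMod p) (z' : Pl p) :
    (univ.filter (fun z : Pl p => Rel κ z z')).card = p - 1 := by
  rw [← card_rel (-κ) z']
  congr 1
  ext z
  simp only [mem_filter, mem_univ, true_and]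
  exact ⟨Rel.neg, fun h => by simpa using h.neg⟩

lemma card_common {κ : ZMod p} (hp : 2 < p) (hκ : κ ≠ 0) {z₁ z₂ : Pl p} (hne : z₁ ≠ z₂) :
    (univ.filter (fun z : Pl p => Rel κ z z₁ ∧ Rel κ z z₂)).card ≤ 1 := by
  rw [card_le_one]
  rintro ⟨a, b⟩ h ⟨a', b'⟩ h'
  simp only [mem_filter, mem_univ, true_and] at h h'
  obtain ⟨⟨_, h1⟩, ⟨_, h2⟩⟩ := h
  obtain ⟨⟨_, h1'⟩, ⟨_, h2'⟩⟩ := h'
  simp only at h1 h2 h1' h2'
  have h12 : z₁.1 ≠ z₂.1 := by
    intro heq
    apply hne
    refine Prod.ext heq ?_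
    have : b - z₁.2 = b - z₂.2 := by rw [h1, h2, heq]
    linear_combination -this
  -- subtracting the two equations
  have e1 : z₂.2 - z₁.2 = κ * ((a - z₁.1) ^ 2 - (a - z₂.1) ^ 2) := by
    linear_combination h1 - h2
  have e2 : z₂.2 - z₁.2 = κ * ((a' - z₁.1) ^ 2 - (a' - z₂.1) ^ 2) := by
    linear_combination h1' - h2'
  have h2ne : (2 : ZMod p) ≠ 0 := by
    have : ((2 : ℕ) : ZMod p) ≠ 0 := by
      rw [Ne, ZMod.natCast_eq_zero_iff]
      intro h
      have := Nat.le_of_dvd (by norm_num) h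
      omega
    exact_mod_cast this
  have e3 : (κ * 2 * (z₂.1 - z₁.1)) * (a - a') = 0 := by
    linear_combination e2 - e1
  have e4 : κ * 2 * (z₂.1 - z₁.1) ≠ 0 :=
    mul_ne_zero (mul_ne_zero hκ h2ne) (sub_ne_zero.2 h12.symm)
  have e5 : a = a' := by
    rcases mul_eq_zero.1 e3 with h | h
    · exact absurd h e4
    · exact sub_eq_zero.1 h
  subst e5
  have : b = b' := by linear_combination h1 - h1'
  rw [this]

/-- number of related pairs in `A × B` -/
noncomputable def relCount (κ : ZMod p) (A B : Finset (Pl p)) : ℕ :=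
  ((A ×ˢ B).filter (fun q => Rel κ q.1 q.2)).card

omit [Fact p.Prime] in
lemma relCount_eq_sum (κ : ZMod p) (A B : Finset (Pl p)) :
    relCount κ A B = ∑ z ∈ A, (B.filter (fun z' => Rel κ z z')).card := by
  unfold relCount
  rw [card_filter, sum_product]
  refine sum_congr rfl (fun z _ => ?_)
  rw [card_filter]

lemma relCount_univ (κ : ZMod p) :
    relCount κ (univ : Finset (Pl p)) univ = p ^ 2 * (p - 1) := by
  rw [relCount_eq_sum, sum_congr rfl (g := fun _ => p - 1) (fun z _ => card_rel κ z), sum_const,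
    card_univ, Fintype.card_prod, ZMod.card, smul_eq_mul, sq]

/-- The relation is quasi-random. -/
lemma relCount_le {κ : ZMod p} (hp : 2 < p) (hκ : κ ≠ 0) (A B : Finset (Pl p)) :
    (relCount κ A B : ℝ) ≤ A.card * B.card / p + √(3 * p * (A.card * B.card)) := by
  have hp0 : (0 : ℝ) < p := by exact_mod_cast (by omega : 0 < p)
  set r : Pl p → ℝ := fun z => ((B.filter (fun z' => Rel κ z z')).card : ℝ) with hr
  have hsum : ∑ z : Pl p, r z = (p - 1 : ℝ) * B.card := by
    have h1 : ∑ z : Pl p, (B.filter (fun z' => Rel κ z z')).card = (p - 1) * B.card := by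
      simp_rw [card_filter]
      rw [sum_comm]
      simp_rw [← card_filter]
      rw [sum_congr rfl (g := fun _ => p - 1) (fun z' _ => card_rel' κ z'), sum_const,
        smul_eq_mul, mul_comm]
    have h2 : ((∑ z : Pl p, (B.filter (fun z' => Rel κ z z')).card : ℕ) : ℝ) =
        (((p - 1) * B.card : ℕ) : ℝ) := by rw [h1]
    have h3 : ((p - 1 : ℕ) : ℝ) = (p : ℝ) - 1 := by
      rw [Nat.cast_sub (by omega)]; simp
    rw [hr]
    push_cast [h3] at h2
    simpa using h2
  have hsq : ∑ z : Pl p, r z ^ 2 ≤ (p : ℝ) * B.card + (B.card : ℝ) ^ 2 := by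
    have h1 : ∀ z, r z ^ 2 = ∑ z₁ ∈ B, ∑ z₂ ∈ B,
        (if Rel κ z z₁ ∧ Rel κ z z₂ then (1 : ℝ) else 0) := by
      intro z
      simp only [hr, card_filter, Nat.cast_sum, sq, sum_mul_sum]
      refine sum_congr rfl (fun z₁ _ => sum_congr rfl (fun z₂ _ => ?_))
      by_cases h1 : Rel κ z z₁ <;> by_cases h2 : Rel κ z z₂ <;> simp [h1, h2]
    have h2 : ∑ z : Pl p, r z ^ 2 = ∑ z₁ ∈ B, ∑ z₂ ∈ B,
        ((univ.filter (fun z : Pl p => Rel κ z z₁ ∧ Rel κ z z₂)).card : ℝ) := by
      rw [sum_congr rfl (fun z _ => h1 z), sum_comm]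
      refine sum_congr rfl (fun z₁ _ => ?_)
      rw [sum_comm]
      refine sum_congr rfl (fun z₂ _ => ?_)
      rw [card_filter]; push_cast; rfl
    rw [h2]
    have h3 : ∀ z₁ ∈ B, ∑ z₂ ∈ B,
        ((univ.filter (fun z : Pl p => Rel κ z z₁ ∧ Rel κ z z₂)).card : ℝ) ≤
        p + B.card := by
      intro z₁ hz₁
      rw [← Finset.add_sum_erase _ _ hz₁]
      refine add_le_add ?_ ?_
      · have : (univ.filter (fun z : Pl p => Rel κ z z₁ ∧ Rel κ z z₁)).card ≤ p := by
          simp only [and_self, card_rel' κ z₁]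
          omega
        exact_mod_cast this
      · calc ∑ z₂ ∈ B.erase z₁, ((univ.filter (fun z : Pl p => Rel κ z z₁ ∧
              Rel κ z z₂)).card : ℝ) ≤ ∑ z₂ ∈ B.erase z₁, (1 : ℝ) := by
                refine sum_le_sum (fun z₂ hz₂ => ?_)
                exact_mod_cast card_common hp hκ (ne_of_mem_erase hz₂).symm
          _ ≤ B.card := by
                rw [sum_const, nsmul_eq_mul, mul_one]
                exact_mod_cast card_le_card (erase_subset _ _)
    calc _ ≤ ∑ z₁ ∈ B, ((p : ℝ) + B.card) := sum_le_sum h3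
      _ = _ := by rw [sum_const, nsmul_eq_mul]; ring
  have hB : (B.card : ℝ) ≤ (p : ℝ) ^ 2 := by
    have : B.card ≤ p * p := by
      calc B.card ≤ (univ : Finset (Pl p)).card := card_le_card (subset_univ _)
        _ = p * p := by rw [card_univ, Fintype.card_prod, ZMod.card]
    rw [sq]; exact_mod_cast this
  have hvar : ∑ z : Pl p, (r z - B.card / p) ^ 2 ≤ 3 * p * B.card := by
    have h1 : ∑ z : Pl p, (r z - B.card / p) ^ 2 = ∑ z : Pl p, r z ^ 2
        - 2 * (B.card / p) * ∑ z : Pl p, r z + (p : ℝ) ^ 2 * (B.card / p) ^ 2 := by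
      have : ∀ z : Pl p, (r z - B.card / p) ^ 2 =
          r z ^ 2 - 2 * (B.card / p) * r z + (B.card / p : ℝ) ^ 2 := fun z => by ring
      rw [sum_congr rfl (fun z _ => this z), sum_add_distrib, sum_sub_distrib, ← mul_sum,
        sum_const, card_univ, Fintype.card_prod, ZMod.card, nsmul_eq_mul]
      push_cast; ring
    rw [h1, hsum]
    have h2 : (p : ℝ) ^ 2 * (B.card / p) ^ 2 = (B.card : ℝ) ^ 2 := by
      field_simp
    have h3 : 2 * ((B.card : ℝ) / p) * ((p - 1 : ℝ) * B.card) =
        2 * (B.card : ℝ) ^ 2 - 2 * (B.card : ℝ) ^ 2 / p := by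
      field_simp
    have h4 : 2 * (B.card : ℝ) ^ 2 / p ≤ 2 * p * B.card := by
      rw [div_le_iff₀ hp0]
      nlinarith [mul_nonneg (Nat.cast_nonneg (α := ℝ) B.card)
        (sub_nonneg.2 hB)]
    rw [h2, h3]
    linarith
  have hcs : (∑ z ∈ A, (r z - B.card / p)) ^ 2 ≤ A.card * (3 * p * B.card) := by
    calc (∑ z ∈ A, (r z - B.card / p)) ^ 2
        = (∑ z ∈ A, 1 * (r z - B.card / p)) ^ 2 := by simp
      _ ≤ (∑ z ∈ A, (1 : ℝ) ^ 2) * ∑ z ∈ A, (r z - B.card / p) ^ 2 :=
          sum_mul_sq_le_sq_mul_sq _ _ _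
      _ ≤ A.card * (3 * p * B.card) := by
          simp only [one_pow, sum_const, nsmul_eq_mul, mul_one]
          refine mul_le_mul_of_nonneg_left ?_ (Nat.cast_nonneg _)
          exact (sum_le_sum_of_subset_of_nonneg (subset_univ A)
            (fun _ _ _ => sq_nonneg _)).trans hvar
  have hmain : (relCount κ A B : ℝ) = A.card * B.card / p + ∑ z ∈ A, (r z - B.card / p) := by
    rw [relCount_eq_sum, sum_sub_distrib, sum_const, nsmul_eq_mul]
    push_cast
    ring
  rw [hmain]
  refine add_le_add le_rfl ?_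
  refine Real.le_sqrt_of_sq_le (hcs.trans (le_of_eq ?_))
  ring

end count

section graph

variable {V : Type*}

/-- The simple graph obtained from a symmetric matrix `W` of natural numbers: the vertex set is
`V` times the plane over `ZMod p`, and `(u, z)`, `(v, z')` are adjacent if `z.1 ≠ z'.1` and
`(z.2 - z'.2) / (z.1 - z'.1)^2` is one of `±1, ..., ±W u v`. -/
noncomputable def blow (p : ℕ) (W : V → V → ℕ) (hW : ∀ u v, W u v = W v u) :
    SimpleGraph (V × Pl p) where
  Adj q r := ∃ κ ∈ pm p (W q.1 r.1), Rel κ q.2 r.2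
  symm := ⟨by
    rintro q r ⟨κ, hκ, h⟩
    exact ⟨-κ, by rw [hW]; exact neg_mem_pm hκ, h.neg⟩⟩
  loopless := ⟨by
    rintro q ⟨κ, _, h⟩
    exact h.1 rfl⟩

variable [Fintype V] {p : ℕ} [Fact p.Prime]

/-- the slice of `S` over `v` -/
noncomputable def sl (S : Finset (V × Pl p)) (v : V) : Finset (Pl p) :=
  univ.filter (fun z => (v, z) ∈ S)

lemma card_slices (S : Finset (V × Pl p)) : S.card = ∑ v, (sl S v).card := by
  have h1 : S.card = ∑ q : V × Pl p, if q ∈ S then 1 else 0 := by
    rw [← card_filter]; congr 1; ext q; simp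
  rw [h1, Fintype.sum_prod_type]
  refine sum_congr rfl (fun v _ => ?_)
  unfold sl
  rw [card_filter]

lemma ind_exists {C : Finset (ZMod p)} (z z' : Pl p) :
    indN (∃ κ ∈ C, Rel κ z z') = ∑ κ ∈ C, indN (Rel κ z z') := by
  by_cases h : ∃ κ ∈ C, Rel κ z z'
  · rw [indN_pos h]
    obtain ⟨κ, hκ, hr⟩ := h
    rw [Finset.sum_eq_single_of_mem κ hκ]
    · rw [indN_pos hr]
    · intro κ' _ hne
      exact indN_neg (fun h' => hne (h'.unique hr))
  · rw [indN_neg h]
    symm
    refine sum_eq_zero (fun κ hκ => indN_neg (fun hr => h ⟨κ, hκ, hr⟩))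

lemma blow_regular {W : V → V → ℕ} {hW : ∀ u v, W u v = W v u} {d : ℕ}
    (hd : ∀ v, ∑ u, W v u = d) (hp : ∀ u v, 2 * W u v < p) :
    Regular (blow p W hW) (2 * (p - 1) * d) := by
  rintro ⟨v, z⟩
  rw [card_filter_indN, Fintype.sum_prod_type]
  have h1 : ∀ u : V, ∑ z' : Pl p, indN ((blow p W hW).Adj (v, z) (u, z')) =
      2 * W v u * (p - 1) := by
    intro u
    have : ∀ z' : Pl p, indN ((blow p W hW).Adj (v, z) (u, z')) =
        ∑ κ ∈ pm p (W v u), indN (Rel κ z z') := fun z' => ind_exists z z'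
    rw [sum_congr rfl (fun z' _ => this z'), sum_comm]
    rw [sum_congr rfl (g := fun _ => p - 1)]
    · rw [sum_const, card_pm (hp v u), smul_eq_mul]
    · intro κ _
      rw [← card_filter_indN, card_rel]
  rw [sum_congr rfl (fun u _ => h1 u), ← sum_mul, ← mul_sum, hd]
  ring

lemma inside_blow {W : V → V → ℕ} {hW : ∀ u v, W u v = W v u} (S : Finset (V × Pl p)) :
    inside (blow p W hW) S =
      ∑ v, ∑ u, ∑ κ ∈ pm p (W v u), relCount κ (sl S v) (sl S u) := by
  unfold inside
  rw [card_filter_indN, Fintype.sum_prod_type, Fintype.sum_prod_type]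
  refine sum_congr rfl (fun v _ => ?_)
  have h1 : ∀ z : Pl p, ∑ r : V × Pl p, indN ((v, z) ∈ S ∧ r ∈ S ∧
      (blow p W hW).Adj (v, z) r) =
      ∑ u, ∑ z' : Pl p, indN (z ∈ sl S v ∧ z' ∈ sl S u ∧
        ∃ κ ∈ pm p (W v u), Rel κ z z') := by
    intro z
    rw [Fintype.sum_prod_type]
    refine sum_congr rfl (fun u _ => sum_congr rfl (fun z' _ => indN_congr ?_))
    simp only [sl, mem_filter, mem_univ, true_and]
    exact Iff.rfl
  refine (sum_congr rfl (fun z _ => h1 z)).trans ?_
  rw [sum_comm]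
  refine sum_congr rfl (fun u _ => ?_)
  have h2 : ∀ z z' : Pl p, indN (z ∈ sl S v ∧ z' ∈ sl S u ∧ ∃ κ ∈ pm p (W v u), Rel κ z z') =
      ∑ κ ∈ pm p (W v u), indN (z ∈ sl S v ∧ z' ∈ sl S u ∧ Rel κ z z') := by
    intro z z'
    by_cases hz : z ∈ sl S v
    · by_cases hz' : z' ∈ sl S u
      · simp only [hz, hz', true_and]
        exact ind_exists z z'
      · simp [hz', indN]
    · simp [hz, indN]
  simp_rw [h2]
  have h3 : ∀ z : Pl p, ∑ z' : Pl p, ∑ κ ∈ pm p (W v u),
      indN (z ∈ sl S v ∧ z' ∈ sl S u ∧ Rel κ z z') =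
      ∑ κ ∈ pm p (W v u), ∑ z' : Pl p,
      indN (z ∈ sl S v ∧ z' ∈ sl S u ∧ Rel κ z z') := fun z => sum_comm
  rw [sum_congr rfl (fun z _ => h3 z), sum_comm]
  refine sum_congr rfl (fun κ _ => ?_)
  unfold relCount
  rw [← Fintype.sum_prod_type' (f := fun z z' : Pl p =>
    indN (z ∈ sl S v ∧ z' ∈ sl S u ∧ Rel κ z z')), ← card_filter_indN]
  congr 1
  ext q
  simp only [mem_filter, mem_univ, true_and, mem_product, and_assoc]

lemma inside_blow_le {W : V → V → ℕ} {hW : ∀ u v, W u v = W v u} {d : ℕ}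
    (hd : ∀ v, ∑ u, W v u = d) (hp : ∀ u v, 2 * W u v < p) (hp2 : 2 < p)
    (S : Finset (V × Pl p)) :
    (inside (blow p W hW) S : ℝ) ≤
      2 / p * (∑ v, ∑ u, (W v u : ℝ) * ((sl S v).card * (sl S u).card)) +
        2 * √(3 * p) * d * S.card := by
  have hp0 : (0 : ℝ) < p := by exact_mod_cast (by omega : 0 < p)
  have h1 : ∀ v u, ((∑ κ ∈ pm p (W v u), relCount κ (sl S v) (sl S u) : ℕ) : ℝ) ≤
      2 / p * ((W v u : ℝ) * ((sl S v).card * (sl S u).card)) +
        √(3 * p) * (W v u * ((sl S v).card + (sl S u).card)) := by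
    intro v u
    have h2 : ∀ κ ∈ pm p (W v u), (relCount κ (sl S v) (sl S u) : ℝ) ≤
        (sl S v).card * (sl S u).card / p +
          √(3 * p) * (((sl S v).card + (sl S u).card) / 2) := by
      intro κ hκ
      have hκ0 : κ ≠ 0 := fun h => zero_notMem_pm (hp v u) (h ▸ hκ)
      refine (relCount_le hp2 hκ0 _ _).trans (add_le_add le_rfl ?_)
      rw [Real.sqrt_mul (by positivity)]
      refine mul_le_mul_of_nonneg_left ?_ (Real.sqrt_nonneg _)
      rw [Real.sqrt_le_left (by positivity)]
      nlinarith [sq_nonneg (((sl S v).card : ℝ) - (sl S u).card)]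
    push_cast
    refine (sum_le_sum h2).trans (le_of_eq ?_)
    rw [sum_const, card_pm (hp v u), nsmul_eq_mul]
    push_cast
    field_simp
  rw [inside_blow]
  push_cast
  have h3 : ∀ v u, (∑ κ ∈ pm p (W v u), (relCount κ (sl S v) (sl S u) : ℝ)) ≤
      2 / p * ((W v u : ℝ) * ((sl S v).card * (sl S u).card)) +
        √(3 * p) * (W v u * ((sl S v).card + (sl S u).card)) := by
    intro v u; have := h1 v u; push_cast at this; exact this
  refine (sum_le_sum (fun v _ => sum_le_sum (fun u _ => h3 v u))).trans (le_of_eq ?_)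
  simp only [sum_add_distrib, ← mul_sum]
  have hd' : ∀ v, ∑ u, (W v u : ℝ) = d := by intro v; exact_mod_cast hd v
  have hS : (S.card : ℝ) = ∑ v, ((sl S v).card : ℝ) := by
    rw [card_slices S]; push_cast; rfl
  have e1 : ∑ v, ∑ u, (W v u : ℝ) * ((sl S v).card + (sl S u).card) =
      2 * (d * S.card) := by
    simp only [mul_add, sum_add_distrib]
    have e2 : ∑ v, ∑ u, (W v u : ℝ) * (sl S v).card = d * S.card := by
      simp only [← sum_mul, hd']
      rw [hS, mul_sum]
    have e3 : ∑ v, ∑ u, (W v u : ℝ) * (sl S u).card = d * S.card := by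
      rw [sum_comm]
      rw [← e2]
      refine sum_congr rfl (fun u _ => sum_congr rfl (fun v _ => ?_))
      rw [hW v u]
    rw [e2, e3]; ring
  rw [e1]
  ring

lemma inside_blow_full {W : V → V → ℕ} {hW : ∀ u v, W u v = W v u}
    (hp : ∀ u v, 2 * W u v < p) (S₀ : Finset V) :
    inside (blow p W hW) (S₀ ×ˢ (univ : Finset (Pl p))) =
      2 * (p - 1) * p ^ 2 * ∑ v ∈ S₀, ∑ u ∈ S₀, W v u := by
  rw [inside_blow]
  have hsl : ∀ v, sl (S₀ ×ˢ (univ : Finset (Pl p))) v = if v ∈ S₀ then univ else ∅ := by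
    intro v
    ext z
    by_cases hv : v ∈ S₀ <;> simp [sl, hv]
  have h1 : ∀ v u, ∑ κ ∈ pm p (W v u), relCount κ (sl (S₀ ×ˢ (univ : Finset (Pl p))) v)
      (sl (S₀ ×ˢ (univ : Finset (Pl p))) u) =
      if v ∈ S₀ then (if u ∈ S₀ then 2 * W v u * (p ^ 2 * (p - 1)) else 0) else 0 := by
    intro v u
    rw [hsl, hsl]
    by_cases hv : v ∈ S₀
    · by_cases hu : u ∈ S₀
      · simp only [if_pos hv, if_pos hu]
        rw [sum_congr rfl (fun κ _ => relCount_univ κ), sum_const, card_pm (hp v u), smul_eq_mul]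
      · simp only [if_neg hu, relCount]
        simp
    · simp only [if_neg hv, relCount]
      simp
  simp_rw [h1]
  have h2 : ∀ v, ∑ u, (if v ∈ S₀ then (if u ∈ S₀ then 2 * W v u * (p ^ 2 * (p - 1)) else 0)
      else 0) = if v ∈ S₀ then ∑ u ∈ S₀, 2 * W v u * (p ^ 2 * (p - 1)) else 0 := by
    intro v
    by_cases hv : v ∈ S₀
    · simp only [if_pos hv, sum_ite_mem, univ_inter]
    · simp only [if_neg hv, sum_const_zero]
  rw [sum_congr rfl (fun v _ => h2 v), sum_ite_mem, univ_inter, mul_sum]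
  refine sum_congr rfl (fun v _ => ?_)
  rw [mul_sum]
  refine sum_congr rfl (fun u _ => ?_)
  ring

end graph

end Pool.Agent.Lib.MP_8d8c46_lc
end

section

/-!
Systems of equations `g (x e 0) + g (x e 1) + g (x e 2) = b e` over `ZMod 2`, the weighted graph
on the local solutions of the equations, and the pebble game on two such graphs.
-/

open scoped Classical
open Finset

namespace Pool.Agent.Lib.MP_8d8c46_lc

/-- labels of an equation: the values of its first two variables -/
abbrev Lab := ZMod 2 × ZMod 2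

section defs
variable {V E : Type*}

/-- The three values of the local solution `q = (e, α)` of equation `e`. -/
def sval (b : E → ZMod 2) (q : E × Lab) : Fin 3 → ZMod 2 :=
  ![q.2.1, q.2.2, b q.1 + q.2.1 + q.2.2]

/-- The number of pairs of slots of two local solutions that hold the same variable with the same
value. -/
noncomputable def links (x : E → Fin 3 → V) (b : E → ZMod 2) (q r : E × Lab) : ℕ :=
  (univ.filter (fun ij : Fin 3 × Fin 3 => x q.1 ij.1 = x r.1 ij.2 ∧
    sval b q ij.1 = sval b r ij.2)).card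

/-- The weight of the pair `(q, r)` of local solutions: the number of links, plus `u` on the
diagonal. -/
noncomputable def wgt (x : E → Fin 3 → V) (b : E → ZMod 2) (u : ℕ) (q r : E × Lab) : ℕ :=
  links x b q r + if q = r then u else 0

lemma links_symm (x : E → Fin 3 → V) (b : E → ZMod 2) (q r : E × Lab) :
    links x b q r = links x b r q := by
  unfold links
  refine Finset.card_bij (fun ij _ => (ij.2, ij.1)) ?_ ?_ ?_
  · intro ij h
    simp only [mem_filter, mem_univ, true_and] at h ⊢
    exact ⟨h.1.symm, h.2.symm⟩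
  · intro a _ b _ h
    simp only [Prod.mk.injEq] at h
    exact Prod.ext h.2 h.1
  · intro ij h
    simp only [mem_filter, mem_univ, true_and] at h
    refine ⟨(ij.2, ij.1), ?_, rfl⟩
    simp only [mem_filter, mem_univ, true_and]
    exact ⟨h.1.symm, h.2.symm⟩

lemma wgt_symm (x : E → Fin 3 → V) (b : E → ZMod 2) (u : ℕ) (q r : E × Lab) :
    wgt x b u q r = wgt x b u r q := by
  unfold wgt
  rw [links_symm]
  congr 1
  by_cases h : q = r
  · rw [if_pos h, if_pos h.symm]
  · rw [if_neg h, if_neg (fun h' => h h'.symm)]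

lemma links_le (x : E → Fin 3 → V) (b : E → ZMod 2) (q r : E × Lab) : links x b q r ≤ 9 := by
  unfold links
  refine (card_filter_le _ _).trans ?_
  simp

lemma wgt_le (x : E → Fin 3 → V) (b : E → ZMod 2) (u : ℕ) (q r : E × Lab) :
    wgt x b u q r ≤ 9 + u := by
  unfold wgt
  have := links_le x b q r
  split_ifs <;> omega

end defs

section game
variable {V E : Type*} (x : E → Fin 3 → V) (c : E → ZMod 2)

/-- the number of slots of equations in `F` that hold the variable `v` -/
noncomputable def occ (F : Finset E) (v : V) : ℕ :=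
  ((F ×ˢ (univ : Finset (Fin 3))).filter (fun q => x q.1 q.2 = v)).card

/-- the variables that occur exactly once in `F` -/
def bd (F : Finset E) : Set V := {v | occ x F v = 1}

/-- some assignment that agrees with `g` on `U` satisfies all equations in `F` -/
def Sat (U : Finset V) (g : V → ZMod 2) (F : Finset E) : Prop :=
  ∃ h : V → ZMod 2, (∀ v ∈ U, h v = g v) ∧ ∀ e ∈ F, h (x e 0) + h (x e 1) + h (x e 2) = c e

/-- Small sets of equations have many variables that occur exactly once. -/
def Expands (s : ℕ) : Prop :=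
  ∀ F : Finset E, F.card ≤ 2 * s → ∀ U : Finset V, 2 * U.card < F.card →
    ∃ v, v ∉ U ∧ v ∈ bd x F

variable {x c}

lemma sum_slots (h : V → ZMod 2) (e : E) :
    h (x e 0) + h (x e 1) + h (x e 2) = ∑ i, h (x e i) := by
  rw [Fin.sum_univ_three]

lemma Sat.extend {U : Finset V} {g : V → ZMod 2} {F : Finset E} {v : V} (hv : v ∉ U)
    (hb : v ∈ bd x F) (hsat : ∀ e ∈ F, Sat x c U g (F.erase e)) : Sat x c U g F := by
  have h1 : occ x F v = 1 := hb
  unfold occ at h1
  rw [card_eq_one] at h1
  obtain ⟨⟨e, i⟩, hei⟩ := h1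
  have hmem : (e, i) ∈ ((F ×ˢ (univ : Finset (Fin 3))).filter (fun q => x q.1 q.2 = v)) := by
    rw [hei]; exact mem_singleton_self _
  simp only [mem_filter, mem_product, mem_univ, and_true] at hmem
  obtain ⟨he, hxi⟩ := hmem
  have huniq : ∀ e' ∈ F, ∀ j, x e' j = v → e' = e ∧ j = i := by
    intro e' he' j hj
    have : (e', j) ∈ ((F ×ˢ (univ : Finset (Fin 3))).filter (fun q => x q.1 q.2 = v)) := by
      simp only [mem_filter, mem_product, mem_univ, and_true]
      exact ⟨he', hj⟩
    rw [hei, mem_singleton] at this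
    exact Prod.mk.inj this
  obtain ⟨h, hU, hF⟩ := hsat e he
  refine ⟨Function.update h v (h v + (c e - ∑ j, h (x e j))), ?_, ?_⟩
  · intro w hw
    rw [Function.update_of_ne (fun hwv : w = v => hv (hwv ▸ hw))]
    exact hU w hw
  · intro e' he'
    rw [sum_slots]
    by_cases hee : e' = e
    · subst hee
      have e1 : ∀ j, (Function.update h v (h v + (c e' - ∑ j, h (x e' j)))) (x e' j) =
          h (x e' j) + if j = i then (c e' - ∑ j, h (x e' j)) else 0 := by
        intro j
        by_cases hj : j = i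
        · subst hj
          rw [if_pos rfl, hxi, Function.update_self]
        · rw [if_neg hj, add_zero, Function.update_of_ne]
          exact fun hjv => hj (huniq e' he' j hjv).2
      rw [sum_congr rfl (fun j _ => e1 j), sum_add_distrib, sum_ite_eq' univ i]
      simp
    · have e1 : ∀ j, (Function.update h v (h v + (c e - ∑ j, h (x e j)))) (x e' j) =
          h (x e' j) := by
        intro j
        rw [Function.update_of_ne]
        exact fun hjv => hee (huniq e' he' j hjv).1
      rw [sum_congr rfl (fun j _ => e1 j), ← sum_slots]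
      exact hF e' (mem_erase.2 ⟨hee, he'⟩)

lemma sat_of_small {s : ℕ} (hexp : Expands x s) {U : Finset V} {g : V → ZMod 2} :
    ∀ n : ℕ, ∀ F : Finset E, F.card = n → n ≤ 2 * s →
      (∀ F' ⊆ F, F'.card ≤ 2 * U.card → Sat x c U g F') → Sat x c U g F := by
  intro n
  induction n with
  | zero =>
    intro F hF _ hs
    exact hs F Subset.rfl (by omega)
  | succ n ih =>
    intro F hF hn hs
    by_cases hle : F.card ≤ 2 * U.card
    · exact hs F Subset.rfl hle
    · obtain ⟨v, hv, hb⟩ := hexp F (by omega) U (by omega)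
      refine Sat.extend hv hb (fun e he => ?_)
      refine ih (F.erase e) (by rw [card_erase_of_mem he, hF]; rfl) (by omega) ?_
      intro F' hF' hc
      exact hs F' (hF'.trans (erase_subset _ _)) hc

variable (x c)

/-- a partial assignment that is consistent with every small set of equations -/
def Good (s : ℕ) (U : Finset V) (g : V → ZMod 2) : Prop :=
  ∀ F : Finset E, F.card ≤ s → Sat x c U g F

variable {x c}

lemma Good.mono {s : ℕ} {U U' : Finset V} {g : V → ZMod 2} (h : Good x c s U g)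
    (hU : U' ⊆ U) : Good x c s U' g := by
  intro F hF
  obtain ⟨h', h1, h2⟩ := h F hF
  exact ⟨h', fun v hv => h1 v (hU hv), h2⟩

lemma Good.congr {s : ℕ} {U : Finset V} {g g' : V → ZMod 2} (h : Good x c s U g)
    (hg : ∀ v ∈ U, g' v = g v) : Good x c s U g' := by
  intro F hF
  obtain ⟨h', h1, h2⟩ := h F hF
  exact ⟨h', fun v hv => by rw [h1 v hv, hg v hv], h2⟩

lemma good_empty {s : ℕ} (hexp : Expands x s) (g : V → ZMod 2) : Good x c s ∅ g := by
  intro F hF
  refine sat_of_small hexp F.card F rfl (by omega) (fun F' _ hc => ?_)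
  have : F' = ∅ := by
    rw [← card_eq_zero]
    simpa using hc
  subst this
  exact ⟨g, fun v _ => rfl, fun e he => absurd he (notMem_empty e)⟩

lemma Good.insert {s : ℕ} (hexp : Expands x s) {U : Finset V} {g : V → ZMod 2}
    (h : Good x c s U g) (hU : 2 * U.card ≤ s) (v : V) :
    ∃ g', (∀ w ∈ U, g' w = g w) ∧ Good x c s (insert v U) g' := by
  by_cases hv : v ∈ U
  · exact ⟨g, fun _ _ => rfl, by rwa [Finset.insert_eq_of_mem hv]⟩
  by_contra hcon
  push Not at hcon
  have h1 : ∀ β : ZMod 2, ∃ F : Finset E, F.card ≤ s ∧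
      ¬ Sat x c (Insert.insert v U) (Function.update g v β) F := by
    intro β
    have := hcon (Function.update g v β) (fun w hw =>
      Function.update_of_ne (fun hwv : w = v => hv (hwv ▸ hw)) _ _)
    unfold Good at this
    push Not at this
    exact this
  choose Fβ hcard hunsat using h1
  have hsat : Sat x c U g (Fβ 0 ∪ Fβ 1) := by
    refine sat_of_small hexp _ _ rfl ?_ (fun F' _ hc => h F' (by omega))
    have := card_union_le (Fβ 0) (Fβ 1)
    have := hcard 0
    have := hcard 1
    omega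
  obtain ⟨h', hU', hF⟩ := hsat
  refine hunsat (h' v) ⟨h', ?_, ?_⟩
  · intro w hw
    rcases mem_insert.1 hw with rfl | hw
    · rw [Function.update_self]
    · rw [Function.update_of_ne (fun hwv : w = v => hv (hwv ▸ hw))]
      exact hU' w hw
  · intro e he
    refine hF e ?_
    have : h' v = 0 ∨ h' v = 1 := by
      generalize h' v = β
      revert β; decide
    rcases this with h0 | h0
    · rw [h0] at he; exact mem_union_left _ he
    · rw [h0] at he; exact mem_union_right _ he

/-- the variables of an equation -/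
noncomputable def vars (x : E → Fin 3 → V) (e : E) : Finset V := univ.image (x e)

lemma card_vars (e : E) : (vars x e).card ≤ 3 := by
  unfold vars
  exact card_image_le.trans (by simp)

lemma Good.equation {s : ℕ} (hexp : Expands x s) {U : Finset V} {g : V → ZMod 2}
    (h : Good x c s U g) (hU : 2 * (U.card + 2) ≤ s) (e : E) :
    ∃ g', (∀ w ∈ U, g' w = g w) ∧ Good x c s (U ∪ vars x e) g' := by
  obtain ⟨g1, a1, b1⟩ := h.insert hexp (by omega) (x e 0)
  obtain ⟨g2, a2, b2⟩ := b1.insert hexp (by have := card_insert_le (x e 0) U; omega) (x e 1)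
  obtain ⟨g3, a3, b3⟩ := b2.insert hexp (by
    have := card_insert_le (x e 0) U
    have := card_insert_le (x e 1) (Insert.insert (x e 0) U)
    omega) (x e 2)
  refine ⟨g3, fun w hw => ?_, b3.mono ?_⟩
  · rw [a3 w (mem_insert_of_mem (mem_insert_of_mem hw)), a2 w (mem_insert_of_mem hw), a1 w hw]
  · intro w hw
    rcases mem_union.1 hw with hw | hw
    · exact mem_insert_of_mem (mem_insert_of_mem (mem_insert_of_mem hw))
    · unfold vars at hw
      obtain ⟨i, _, rfl⟩ := mem_image.1 hw
      fin_cases i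
      · exact mem_insert_of_mem (mem_insert_of_mem (mem_insert_self _ _))
      · exact mem_insert_of_mem (mem_insert_self _ _)
      · exact mem_insert_self _ _

/-- the local solution `q` shifted by `g` -/
def shiftq (x : E → Fin 3 → V) (g : V → ZMod 2) (q : E × Lab) : E × Lab :=
  (q.1, (q.2.1 + g (x q.1 0), q.2.2 + g (x q.1 1)))

lemma shiftq_shiftq (g : V → ZMod 2) (q : E × Lab) :
    shiftq x g (shiftq x g q) = q := by
  obtain ⟨e, a, a'⟩ := q
  simp only [shiftq, add_assoc, CharTwo.add_self_eq_zero, add_zero]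

lemma shiftq_injective (g : V → ZMod 2) : Function.Injective (shiftq x g) := by
  intro a a' h
  rw [← shiftq_shiftq (x := x) g a, h, shiftq_shiftq]

lemma sval_shiftq {b b' : E → ZMod 2} {g : V → ZMod 2} {q : E × Lab}
    (h : g (x q.1 0) + g (x q.1 1) + g (x q.1 2) = b q.1 + b' q.1) (i : Fin 3) :
    sval b' (shiftq x g q) i = sval b q i + g (x q.1 i) := by
  obtain ⟨e, a, a'⟩ := q
  fin_cases i
  · rfl
  · rfl
  · show b' e + (a + g (x e 0)) + (a' + g (x e 1)) = b e + a + a' + g (x e 2)
    simp only at h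
    have h2 : ∀ t : ZMod 2, t + t = 0 := CharTwo.add_self_eq_zero
    linear_combination h - h2 (g (x e 2)) + h2 (b' e)

lemma wgt_shiftq {b b' : E → ZMod 2} {g : V → ZMod 2} {q r : E × Lab} (u : ℕ)
    (hq : g (x q.1 0) + g (x q.1 1) + g (x q.1 2) = b q.1 + b' q.1)
    (hr : g (x r.1 0) + g (x r.1 1) + g (x r.1 2) = b r.1 + b' r.1) :
    wgt x b' u (shiftq x g q) (shiftq x g r) = wgt x b u q r := by
  unfold wgt
  congr 1
  · unfold links
    congr 1
    ext ij
    simp only [mem_filter, mem_univ, true_and]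
    rw [sval_shiftq hq, sval_shiftq hr]
    constructor
    · rintro ⟨h1, h2⟩
      have h1' : x q.1 ij.1 = x r.1 ij.2 := h1
      refine ⟨h1', ?_⟩
      rw [h1'] at h2
      exact add_right_cancel h2
    · rintro ⟨h1, h2⟩
      refine ⟨h1, ?_⟩
      rw [h2, h1]
  · by_cases h : q = r
    · rw [if_pos h, if_pos (by rw [h])]
    · rw [if_neg h, if_neg (fun h' => h (shiftq_injective g h'))]

/-- If the system with right-hand side `b + b'` is locally consistent, then Duplicator wins the
bijective pebble game on the blown-up graphs for `b` and `b'`. -/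
theorem xor_pebble {b b' : E → ZMod 2} {s k : ℕ} (hexp : Expands x s) (hk : 6 * k ≤ s) (u p : ℕ) :
    PebbleEquiv k (blow p (wgt x b u) (wgt_symm x b u)) (blow p (wgt x b' u) (wgt_symm x b' u)) := by
  set c : E → ZMod 2 := fun e => b e + b' e with hc
  refine ⟨{pos | ∃ (U : Finset V) (g : V → ZMod 2), Good x c s U g ∧
    ∀ i a, pos i = some a → vars x a.1.1.1 ⊆ U ∧ a.2 = (shiftq x g a.1.1, a.1.2)}, ?_, ?_⟩
  · exact ⟨∅, 0, good_empty hexp 0, fun i a h => by simp at h⟩
  · rintro pos ⟨U, g, hgood, hpos⟩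
    refine ⟨?_, ?_⟩
    · -- partial isomorphism
      intro i j a a' ha ha'
      obtain ⟨hvi, hai⟩ := hpos i a ha
      obtain ⟨hvj, haj⟩ := hpos j a' ha'
      have hs1 : 1 ≤ s := by
        have : 0 < k := lt_of_le_of_lt (Nat.zero_le _) i.2
        omega
      have heq : ∀ e, vars x e ⊆ U → g (x e 0) + g (x e 1) + g (x e 2) = b e + b' e := by
        intro e he
        obtain ⟨h, h1, h2⟩ := hgood {e} (by simpa using hs1)
        have h3 := h2 e (mem_singleton_self e)
        have h4 : ∀ i, x e i ∈ U := fun i => he (mem_image_of_mem _ (mem_univ i))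
        rw [h1 _ (h4 0), h1 _ (h4 1), h1 _ (h4 2)] at h3
        exact h3
      rw [hai, haj]
      constructor
      · constructor
        · intro h; rw [h]
        · intro h
          have h1 := (Prod.mk.inj h)
          exact Prod.ext (shiftq_injective g h1.1) h1.2
      · have hw := wgt_shiftq u (heq _ hvi) (heq _ hvj)
        show (∃ κ ∈ pm p (wgt x b u a.1.1 a'.1.1), Rel κ a.1.2 a'.1.2) ↔
          ∃ κ ∈ pm p (wgt x b' u (shiftq x g a.1.1) (shiftq x g a'.1.1)), Rel κ a.1.2 a'.1.2
        rw [hw]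
    · -- a move of Spoiler
      intro i
      set U' : Finset V := (univ.erase i).biUnion (fun j =>
        match pos j with
        | none => ∅
        | some a => vars x a.1.1.1) with hU'
      have hsub : U' ⊆ U := by
        intro v hv
        rw [hU', mem_biUnion] at hv
        obtain ⟨j, _, hj⟩ := hv
        cases hpj : pos j with
        | none => rw [hpj] at hj; exact absurd hj (notMem_empty v)
        | some a => rw [hpj] at hj; exact (hpos j a hpj).1 hj
      have hcard : U'.card + 3 ≤ 3 * k := by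
        have h1 : U'.card ≤ (univ.erase i).card * 3 := by
          refine card_biUnion_le_card_mul _ _ _ (fun j _ => ?_)
          cases hpj : pos j with
          | none => simp
          | some a => exact card_vars _
        rw [card_erase_of_mem (mem_univ i), card_univ, Fintype.card_fin] at h1
        have : 0 < k := lt_of_le_of_lt (Nat.zero_le _) i.2
        omega
      have hgood' := hgood.mono hsub
      have hex : ∀ e : E, ∃ g', (∀ w ∈ U', g' w = g w) ∧ Good x c s (U' ∪ vars x e) g' :=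
        fun e => hgood'.equation hexp (by omega) e
      choose g' hg1 hg2 using hex
      have hinv : Function.Involutive (fun q : (E × Lab) × Pl p =>
          ((shiftq x (g' q.1.1) q.1, q.2) : (E × Lab) × Pl p)) := by
        rintro ⟨⟨e, a⟩, z⟩
        simp only [Prod.mk.injEq, and_true]
        exact shiftq_shiftq (g' e) (e, a)
      refine ⟨hinv.toPerm, fun v => ?_⟩
      refine ⟨U' ∪ vars x v.1.1, g' v.1.1, hg2 _, ?_⟩
      intro j a ha
      by_cases hj : j = i
      · subst hj
        rw [Function.update_self, Option.some.injEq] at ha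
        subst ha
        exact ⟨subset_union_right, rfl⟩
      · rw [Function.update_of_ne hj] at ha
        obtain ⟨_, h2⟩ := hpos j a ha
        have h3 : vars x a.1.1.1 ⊆ U' := by
          intro w hw
          rw [hU', mem_biUnion]
          refine ⟨j, mem_erase.2 ⟨hj, mem_univ j⟩, ?_⟩
          rw [ha]; exact hw
        refine ⟨h3.trans subset_union_left, ?_⟩
        rw [h2]
        have h4 : ∀ t, g' v.1.1 (x a.1.1.1 t) = g (x a.1.1.1 t) := fun t =>
          hg1 _ _ (h3 (mem_image_of_mem _ (mem_univ t)))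
        simp only [shiftq, h4]

end game

end Pool.Agent.Lib.MP_8d8c46_lc
end

section

/-!
# Campaign CW: the 3-CNF formulas of a system of equations (definitions)

`x : E → Fin 3 → I` are the variables of the equations, `b : E → ZMod 2` the right sides. Every variable `v : I` has two copies
`emb (v, α)`, `α : ZMod 2`, among the variables `V` of the formula; the intended value of the copy is `g v + α`.
-/

set_option autoImplicit false

open scoped Classical
open Finset

namespace Pool.Agent.Lib.MP_8d8c46_lc.CW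

/-- the number of a truth value -/
def bz (b : Bool) : ZMod 2 := if b then 1 else 0

section
variable {I E V : Type} (emb : I × ZMod 2 ↪ V) (x : E → Fin 3 → I) (b : E → ZMod 2)

/-- the clause with the variables `(x e i, α i)` and the signs `σ` -/
noncomputable def ecl (e : E) (α : Fin 3 → ZMod 2) (σ : Fin 3 → Bool) : Finset (V × Bool) :=
  univ.image fun i => (emb (x e i, α i), σ i)

/-- the clauses of the equations: the signs `σ` are such that the falsifying assignment violates
the equation for the copies `(x e i, α i)` -/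
def phi : Formula V :=
  {c | ∃ e α σ, (∑ i, bz (!(σ i)) ≠ b e + ∑ i, α i) ∧ c.1 = ecl emb x e α σ}

/-- shift the copies of `v` by `g v` -/
noncomputable def sh (g : I → ZMod 2) (y : V) : V :=
  if h : ∃ q, emb q = y then emb (h.choose.1, h.choose.2 + g h.choose.1) else y

end

end Pool.Agent.Lib.MP_8d8c46_lc.CW
end

section

/-!
Random systems of equations built from random permutations, and the concentration of their
statistics, uniformly over all functions on the literals.
-/

open scoped Classical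
open Finset

namespace Pool.Agent.Lib.MP_8d8c46_lc

/-- two permutations of the variables and a vector of right-hand sides -/
abbrev Om (n : ℕ) := Equiv.Perm (Fin n) × Equiv.Perm (Fin n) × (Fin n → ZMod 2)

section
variable {n D : ℕ}

/-- the variables of the equation `e = (i, j)`: `i`, `π_j i` and `σ_j i` -/
def rx (ω : Fin D → Om n) (e : Fin n × Fin D) : Fin 3 → Fin n :=
  ![e.1, (ω e.2).1 e.1, (ω e.2).2.1 e.1]

/-- the right-hand side of the equation `e` -/
def rb (ω : Fin D → Om n) (e : Fin n × Fin D) : ZMod 2 := (ω e.2).2.2 e.1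

end

/-- Exponential moments over one random triple of permutations and bits. -/
theorem tri_mgf {B : ℝ} {n : ℕ} (φ : Fin n → Fin n → Fin n → ZMod 2 → ℝ)
    (hφ : ∀ i k l b, |φ i k l b| ≤ B) :
    ∑ o : Om n, Real.exp (∑ i, φ i (o.1 i) (o.2.1 i) (o.2.2 i)) ≤
      (Fintype.card (Om n) : ℝ) *
        Real.exp ((∑ i, ∑ k, ∑ l, ∑ b, φ i k l b) / (2 * n ^ 2) + 36 * B ^ 2 * n) := by
  rcases Nat.eq_zero_or_pos n with hn | hn
  · subst hn; simp
  have hn' : (0 : ℝ) < n := by exact_mod_cast hn
  have hcard : (Fintype.card (Om n) : ℝ) = n.factorial * n.factorial * 2 ^ n := by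
    rw [Fintype.card_prod, Fintype.card_prod, Fintype.card_perm, Fintype.card_fun,
      Fintype.card_fin, ZMod.card]
    push_cast; ring
  rw [Fintype.sum_prod_type]
  -- average over the bits
  set φ' : Fin n → Fin n → Fin n → ℝ := fun i k l => (∑ b, φ i k l b) / 2 with hφ'
  have hφ'B : ∀ i k l, |φ' i k l| ≤ B := by
    intro i k l
    rw [hφ', abs_div, abs_two, div_le_iff₀ (by norm_num : (0 : ℝ) < 2)]
    calc |∑ b, φ i k l b| ≤ ∑ b, |φ i k l b| := abs_sum_le_sum_abs _ _
      _ ≤ ∑ _b : ZMod 2, B := sum_le_sum (fun b _ => hφ i k l b)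
      _ = B * 2 := by rw [sum_const, card_univ, ZMod.card, nsmul_eq_mul]; push_cast; ring
  have hbits : ∀ (π σ : Equiv.Perm (Fin n)), ∑ β : Fin n → ZMod 2,
      Real.exp (∑ i, φ i (π i) (σ i) (β i)) ≤
      2 ^ n * Real.exp (∑ i, φ' i (π i) (σ i) + 4 * B ^ 2 * n) := by
    intro π σ
    have h1 : ∑ β : Fin n → ZMod 2, Real.exp (∑ i, φ i (π i) (σ i) (β i)) =
        ∏ i, ∑ b, Real.exp (φ i (π i) (σ i) b) := by
      rw [Finset.prod_univ_sum, Fintype.piFinset_univ]
      refine sum_congr rfl (fun β _ => ?_)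
      rw [Real.exp_sum]
    rw [h1]
    have h2 : ∀ i, ∑ b, Real.exp (φ i (π i) (σ i) b) ≤
        2 * Real.exp (φ' i (π i) (σ i) + 4 * B ^ 2) := by
      intro i
      have h3 := sum_exp_le (fun b => φ i (π i) (σ i) b) (C := 2 * B) (fun k l => by
        have h1 := hφ i (π i) (σ i) k
        have h2 := hφ i (π i) (σ i) l
        rw [abs_le] at *
        constructor <;> linarith)
      rw [ZMod.card] at h3
      refine h3.trans (le_of_eq ?_)
      have e1 : (2 * B) ^ 2 = 4 * B ^ 2 := by ring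
      rw [e1]
      norm_num [hφ']
    calc ∏ i, ∑ b, Real.exp (φ i (π i) (σ i) b)
        ≤ ∏ i, (2 * Real.exp (φ' i (π i) (σ i) + 4 * B ^ 2)) :=
          prod_le_prod (fun i _ => sum_nonneg (fun b _ => (Real.exp_pos _).le))
            (fun i _ => h2 i)
      _ = 2 ^ n * Real.exp (∑ i, φ' i (π i) (σ i) + 4 * B ^ 2 * n) := by
          rw [prod_mul_distrib, prod_const, card_univ, Fintype.card_fin, ← Real.exp_sum,
            sum_add_distrib, sum_const, card_univ, Fintype.card_fin, nsmul_eq_mul]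
          congr 2
          ring
  -- average over the second permutation
  set φ'' : Fin n → Fin n → ℝ := fun i k => (∑ l, φ' i k l) / n with hφ''
  have hφ''B : ∀ i k, |φ'' i k| ≤ B := by
    intro i k
    rw [hφ'', abs_div, abs_of_pos hn', div_le_iff₀ hn']
    calc |∑ l, φ' i k l| ≤ ∑ l, |φ' i k l| := abs_sum_le_sum_abs _ _
      _ ≤ ∑ _l : Fin n, B := sum_le_sum (fun l _ => hφ'B i k l)
      _ = B * n := by rw [sum_const, card_univ, Fintype.card_fin, nsmul_eq_mul]; ring
  have hσ : ∀ π : Equiv.Perm (Fin n), ∑ o : Equiv.Perm (Fin n) × (Fin n → ZMod 2),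
      Real.exp (∑ i, φ i (π i) (o.1 i) (o.2 i)) ≤
      n.factorial * 2 ^ n * Real.exp (∑ i, φ'' i (π i) + 20 * B ^ 2 * n) := by
    intro π
    rw [Fintype.sum_prod_type]
    have h1 := perm_mgf n (fun i l => φ' i (π i) l) (fun i l => hφ'B _ _ _)
    calc ∑ σ : Equiv.Perm (Fin n), ∑ β : Fin n → ZMod 2,
          Real.exp (∑ i, φ i (π i) (σ i) (β i))
        ≤ ∑ σ : Equiv.Perm (Fin n), 2 ^ n *
          Real.exp (∑ i, φ' i (π i) (σ i) + 4 * B ^ 2 * n) :=
          sum_le_sum (fun σ _ => hbits π σ)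
      _ = 2 ^ n * Real.exp (4 * B ^ 2 * n) *
          ∑ σ : Equiv.Perm (Fin n), Real.exp (∑ i, φ' i (π i) (σ i)) := by
          rw [mul_sum]
          refine sum_congr rfl (fun σ _ => ?_)
          rw [Real.exp_add]; ring
      _ ≤ 2 ^ n * Real.exp (4 * B ^ 2 * n) * ((n.factorial : ℝ) *
          Real.exp ((∑ i, ∑ l, φ' i (π i) l) / n + 16 * B ^ 2 * n)) :=
          mul_le_mul_of_nonneg_left h1 (by positivity)
      _ = n.factorial * 2 ^ n * (Real.exp (4 * B ^ 2 * n) *
          Real.exp ((∑ i, ∑ l, φ' i (π i) l) / n + 16 * B ^ 2 * n)) := by ring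
      _ = _ := by
          rw [← Real.exp_add]
          congr 2
          simp only [hφ'', sum_div]
          ring
  calc ∑ π : Equiv.Perm (Fin n), ∑ o : Equiv.Perm (Fin n) × (Fin n → ZMod 2),
        Real.exp (∑ i, φ i (π i) (o.1 i) (o.2 i))
      ≤ ∑ π : Equiv.Perm (Fin n), n.factorial * 2 ^ n *
        Real.exp (∑ i, φ'' i (π i) + 20 * B ^ 2 * n) := sum_le_sum (fun π _ => hσ π)
    _ = n.factorial * 2 ^ n * Real.exp (20 * B ^ 2 * n) *
        ∑ π : Equiv.Perm (Fin n), Real.exp (∑ i, φ'' i (π i)) := by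
        rw [mul_sum]
        refine sum_congr rfl (fun σ _ => ?_)
        rw [Real.exp_add]; ring
    _ ≤ n.factorial * 2 ^ n * Real.exp (20 * B ^ 2 * n) * ((n.factorial : ℝ) *
        Real.exp ((∑ i, ∑ k, φ'' i k) / n + 16 * B ^ 2 * n)) :=
        mul_le_mul_of_nonneg_left (perm_mgf n φ'' hφ''B) (by positivity)
    _ = n.factorial * n.factorial * 2 ^ n * (Real.exp (20 * B ^ 2 * n) *
        Real.exp ((∑ i, ∑ k, φ'' i k) / n + 16 * B ^ 2 * n)) := by ring
    _ = _ := by
        rw [hcard, ← Real.exp_add]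
        congr 2
        simp only [hφ'', hφ', ← sum_div]
        field_simp
        ring

/-- The sum of `ψ (F a + F b + F c)` over all triples. -/
noncomputable def tri {L : Type*} [Fintype L] (ψ : ℝ → ℝ) (F : L → ℝ) : ℝ :=
  ∑ a, ∑ b, ∑ c, ψ (F a + F b + F c)

section
variable {n D : ℕ}

/-- The sum of `ψ (F a + F b + F c)` over all local solutions, where `a, b, c` are the three
literals of the local solution. -/
noncomputable def emp (ω : Fin D → Om n) (ψ : ℝ → ℝ) (F : Fin n × ZMod 2 → ℝ) : ℝ :=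
  ∑ q : (Fin n × Fin D) × Lab, ψ (∑ i, F (rx ω q.1 i, sval (rb ω) q i))

/-- the contribution of one equation -/
noncomputable def contrib (ψ : ℝ → ℝ) (F : Fin n × ZMod 2 → ℝ) (i k l : Fin n) (b : ZMod 2) : ℝ :=
  ∑ α : Lab, ψ (F (i, α.1) + F (k, α.2) + F (l, b + α.1 + α.2))

lemma emp_eq (ω : Fin D → Om n) (ψ : ℝ → ℝ) (F : Fin n × ZMod 2 → ℝ) :
    emp ω ψ F = ∑ j, ∑ i, contrib ψ F i ((ω j).1 i) ((ω j).2.1 i) ((ω j).2.2 i) := by
  unfold emp
  rw [Fintype.sum_prod_type, Fintype.sum_prod_type, sum_comm]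
  refine sum_congr rfl (fun j _ => sum_congr rfl (fun i _ => ?_))
  unfold contrib
  refine sum_congr rfl (fun α _ => ?_)
  rw [Fin.sum_univ_three]
  rfl

lemma sum_contrib (ψ : ℝ → ℝ) (F : Fin n × ZMod 2 → ℝ) :
    ∑ i, ∑ k, ∑ l, ∑ b, contrib ψ F i k l b = tri ψ F := by
  unfold tri contrib
  rw [Fintype.sum_prod_type]
  refine sum_congr rfl (fun i _ => ?_)
  have h1 : ∀ α : ZMod 2, ∑ b : Fin n × ZMod 2, ∑ c : Fin n × ZMod 2,
      ψ (F (i, α) + F b + F c) = ∑ k, ∑ α' : ZMod 2, ∑ l, ∑ α'' : ZMod 2,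
      ψ (F (i, α) + F (k, α') + F (l, α'')) := by
    intro α
    rw [Fintype.sum_prod_type]
    refine sum_congr rfl (fun k _ => sum_congr rfl (fun α' _ => ?_))
    rw [Fintype.sum_prod_type]
  have h3 : ∑ α : ZMod 2, ∑ b : Fin n × ZMod 2, ∑ c : Fin n × ZMod 2,
      ψ (F (i, α) + F b + F c) = ∑ k, ∑ α : ZMod 2, ∑ α' : ZMod 2, ∑ l, ∑ α'' : ZMod 2,
      ψ (F (i, α) + F (k, α') + F (l, α'')) := by
    rw [sum_congr rfl (fun α _ => h1 α)]
    exact sum_comm
  rw [h3]
  refine sum_congr rfl (fun k _ => ?_)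
  have h2 : ∀ l : Fin n, ∑ b : ZMod 2, ∑ α : Lab,
      ψ (F (i, α.1) + F (k, α.2) + F (l, b + α.1 + α.2)) =
      ∑ α : ZMod 2, ∑ α' : ZMod 2, ∑ α'' : ZMod 2,
        ψ (F (i, α) + F (k, α') + F (l, α'')) := by
    intro l
    rw [sum_comm, Fintype.sum_prod_type]
    refine sum_congr rfl (fun α _ => sum_congr rfl (fun α' _ => ?_))
    rw [← Equiv.sum_comp (Equiv.addRight (α + α'))
      (fun α'' => ψ (F (i, α) + F (k, α') + F (l, α'')))]
    refine sum_congr rfl (fun b _ => ?_)
    rw [Equiv.coe_addRight, add_assoc b]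
  rw [sum_congr rfl (fun l _ => h2 l)]
  rw [sum_comm]
  refine sum_congr rfl (fun α _ => ?_)
  rw [sum_comm]

lemma emp_mgf {ψ : ℝ → ℝ} {F : Fin n × ZMod 2 → ℝ} {B : ℝ} (hF : ∀ ℓ, 0 ≤ F ℓ ∧ F ℓ ≤ 1)
    (hψ : ∀ T, 0 ≤ T → T ≤ 3 → |ψ T| ≤ B) (t : ℝ) :
    ∑ ω : Fin D → Om n, Real.exp (t * emp ω ψ F) ≤
      ((Fintype.card (Om n) : ℝ) *
        Real.exp (t * tri ψ F / (2 * n ^ 2) + 576 * (t * B) ^ 2 * n)) ^ D := by
  have h1 : ∀ ω : Fin D → Om n, Real.exp (t * emp ω ψ F) =
      ∏ j, Real.exp (∑ i, t * contrib ψ F i ((ω j).1 i) ((ω j).2.1 i) ((ω j).2.2 i)) := by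
    intro ω
    rw [emp_eq, mul_sum, Real.exp_sum]
    refine prod_congr rfl (fun j _ => ?_)
    rw [mul_sum]
  rw [sum_congr rfl (fun ω _ => h1 ω)]
  have h2 := Fintype.sum_pow (fun o : Om n => Real.exp (∑ i, t * contrib ψ F i (o.1 i) (o.2.1 i) (o.2.2 i))) D
  rw [← h2]
  refine pow_le_pow_left₀ (sum_nonneg (fun _ _ => (Real.exp_pos _).le)) ?_ D
  have hc : ∀ i k l b, |t * contrib ψ F i k l b| ≤ 4 * (|t| * B) := by
    intro i k l b
    rw [abs_mul]
    have : |contrib ψ F i k l b| ≤ 4 * B := by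
      unfold contrib
      calc _ ≤ ∑ α : Lab, |ψ (F (i, α.1) + F (k, α.2) + F (l, b + α.1 + α.2))| :=
            abs_sum_le_sum_abs _ _
        _ ≤ ∑ _α : Lab, B := by
            refine sum_le_sum (fun α _ => hψ _ ?_ ?_)
            · have := (hF (i, α.1)).1
              have := (hF (k, α.2)).1
              have := (hF (l, b + α.1 + α.2)).1
              linarith
            · have := (hF (i, α.1)).2
              have := (hF (k, α.2)).2
              have := (hF (l, b + α.1 + α.2)).2
              linarith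
        _ = 4 * B := by
            rw [sum_const, card_univ, Fintype.card_prod, ZMod.card, nsmul_eq_mul]
            norm_num
    calc |t| * |contrib ψ F i k l b| ≤ |t| * (4 * B) :=
          mul_le_mul_of_nonneg_left this (abs_nonneg t)
      _ = 4 * (|t| * B) := by ring
  refine (tri_mgf (fun i k l b => t * contrib ψ F i k l b) hc).trans (le_of_eq ?_)
  congr 2
  have e1 : ∑ i, ∑ k, ∑ l, ∑ b, t * contrib ψ F i k l b = t * tri ψ F := by
    rw [← sum_contrib]
    simp only [mul_sum]
  rw [e1]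
  have e2 : 36 * (4 * (|t| * B)) ^ 2 = 576 * (t * B) ^ 2 := by
    rw [mul_pow, mul_pow, mul_pow, sq_abs]; ring
  rw [e2]

/-- Chernoff bound for one function `F`. -/
lemma emp_tail {ψ : ℝ → ℝ} {F : Fin n × ZMod 2 → ℝ} {B ε : ℝ} (hF : ∀ ℓ, 0 ≤ F ℓ ∧ F ℓ ≤ 1)
    (hB : 0 < B) (hε : 0 ≤ ε) (hψ : ∀ T, 0 ≤ T → T ≤ 3 → |ψ T| ≤ B) :
    ((univ.filter (fun ω : Fin D → Om n =>
      D * (tri ψ F / (2 * n ^ 2) + 4 * n * ε) < emp ω ψ F)).card : ℝ) ≤
      (Fintype.card (Om n) : ℝ) ^ D * Real.exp (-(D * n * ε ^ 2 / (144 * B ^ 2))) := by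
  rcases Nat.eq_zero_or_pos n with hn | hn
  · subst hn
    simp only [CharP.cast_eq_zero, mul_zero, zero_mul, zero_div, neg_zero, Real.exp_zero, mul_one]
    refine (Nat.cast_le.mpr (card_filter_le _ _)).trans (le_of_eq ?_)
    rw [card_univ, Fintype.card_fun, Fintype.card_fin]
    push_cast; ring
  have hn' : (n : ℝ) ≠ 0 := by positivity
  set t : ℝ := ε / (288 * B ^ 2) with ht
  have ht0 : 0 ≤ t := by positivity
  set thr : ℝ := D * (tri ψ F / (2 * n ^ 2) + 4 * n * ε) with hthr
  have h1 : ((univ.filter (fun ω : Fin D → Om n => thr < emp ω ψ F)).card : ℝ) ≤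
      ∑ ω : Fin D → Om n, Real.exp (t * emp ω ψ F) * Real.exp (-(t * thr)) := by
    rw [card_filter]
    push_cast
    refine sum_le_sum (fun ω _ => ?_)
    split_ifs with h
    · rw [← Real.exp_add]
      refine Real.one_le_exp ?_
      nlinarith
    · positivity
  refine h1.trans ?_
  rw [← sum_mul]
  calc (∑ ω : Fin D → Om n, Real.exp (t * emp ω ψ F)) * Real.exp (-(t * thr))
      ≤ ((Fintype.card (Om n) : ℝ) *
        Real.exp (t * tri ψ F / (2 * n ^ 2) + 576 * (t * B) ^ 2 * n)) ^ D *
          Real.exp (-(t * thr)) :=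
        mul_le_mul_of_nonneg_right (emp_mgf hF hψ t) (Real.exp_pos _).le
    _ = _ := by
        rw [mul_pow, mul_assoc, ← Real.exp_nat_mul, ← Real.exp_add]
        congr 2
        rw [hthr, ht]
        field_simp
        ring

end

end Pool.Agent.Lib.MP_8d8c46_lc
end

section

/-!
# Campaign CW, task G1: positions of the game on structures
-/

set_option autoImplicit false

open scoped Classical
open Finset

namespace Pool.Agent.Lib.MP_8d8c46_lc.CW

section
variable {ι V W : Type} {A : Struct ι V} {B : Struct ι W} {m m' a : ℕ}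

theorem prs_card (u : Fin a → V) (w : Fin a → W) : (prs u w).card ≤ a := by
  unfold prs
  exact card_image_le.trans (by simp)

theorem prs_append (u u' : Fin a → V) (w w' : Fin a → W) :
    prs (Fin.append u u') (Fin.append w w') = prs u w ∪ prs u' w' := by
  ext x
  simp only [prs, mem_image, mem_univ, true_and, mem_union]
  constructor
  · rintro ⟨j, rfl⟩
    induction j using Fin.addCases with
    | left j => exact Or.inl ⟨j, by simp⟩
    | right j => exact Or.inr ⟨j, by rw [Fin.append_right, Fin.append_right]⟩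
  · rintro (⟨j, rfl⟩ | ⟨j, rfl⟩)
    · exact ⟨Fin.castAdd a j, by simp⟩
    · exact ⟨Fin.natAdd a j, by rw [Fin.append_right, Fin.append_right]⟩

theorem Cov.sub {s s' : Finset (V × W)} (h : Cov m A B s) (hs : s' ⊆ s) : Cov m A B s' := by
  obtain ⟨Q, hQ, p, hp, h1⟩ := h
  exact ⟨Q, hQ, p, hp, fun x hx => h1 x (hs hx)⟩

theorem Cov.eqv {u : Fin a → V} {w : Fin a → W} (h : Cov m A B (prs u w)) : Eqv m A u B w := by
  obtain ⟨Q, hQ, p, hp, h1⟩ := h
  refine ⟨Q, hQ, p, hp, fun j => h1 _ ?_⟩
  exact mem_image.2 ⟨j, mem_univ _, rfl⟩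

/-- PROOF: `Q' = {q : Fin m' → Option (V × W) | ∃ p ∈ Q, ∀ i x, q i = some x → ∃ i', p i' = some x}`. (1) Every `q ∈ Q'` is a partial isomorphism as all its pairs are pairs of `p`. (2) pick up pebble `i` of `q`: choose for each `i₁ ≠ i` with `q i₁ = some x` a pebble of `p` on `x`; these are
at most `m' - 1 < m` pebbles, let `i₀ : Fin m` be another one; move `i₀` with the bijection `f` of `Q`: the pairs of `Function.update q i (some (v, f v))` are pairs of `Function.update p i₀ (some (v, f v))`. So `Wins m' A B Q'`. (3) as `card s ≤ m'` there is `q : Fin m' → Option (V × W)`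
whose pairs are exactly the elements of `s` (an enumeration of `s`). -/
theorem Cov.pebbles {s : Finset (V × W)} (h : Cov m A B s) (hm : m' ≤ m) (hs : s.card ≤ m') : Cov m' A B s := by
  obtain ⟨Q, hQ, p, hp, h1⟩ := h
  refine ⟨{q : Fin m' → Option (V × W) | ∃ p ∈ Q, ∀ i x, q i = some x → ∃ i', p i' = some x},
    ?_, ?_⟩
  · rintro q ⟨p, hp, hq⟩
    refine ⟨⟨?_, ?_⟩, ?_⟩
    · intro i j a b hi hj
      obtain ⟨i', hi'⟩ := hq i a hi
      obtain ⟨j', hj'⟩ := hq j b hj
      exact (hQ p hp).1.1 i' j' a b hi' hj'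
    · intro t l hl
      apply (hQ p hp).1.2 t l
      intro a ha
      obtain ⟨i, hi⟩ := hl a ha
      exact hq i a hi
    · intro i
      have hm0 : 0 < m := lt_of_lt_of_le (Nat.pos_of_ne_zero (by rintro rfl; exact i.elim0)) hm
      have hc : ∀ i₁ : Fin m', ∃ i' : Fin m, ∀ x, q i₁ = some x → p i' = some x := by
        intro i₁
        rcases hx : q i₁ with _ | x
        · exact ⟨⟨0, hm0⟩, fun x h => by simp at h⟩
        · obtain ⟨i', hi'⟩ := hq i₁ x hx
          exact ⟨i', fun y hy => by rw [hi', ← hy]⟩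
      choose c hc using hc
      obtain ⟨i₀, hi₀⟩ : ∃ i₀ : Fin m, i₀ ∉ (univ.erase i).image c := by
        by_contra hcon
        push Not at hcon
        have h2 : (univ : Finset (Fin m)) ⊆ (univ.erase i).image c := fun x _ => hcon x
        have h3 := (card_le_card h2).trans card_image_le
        rw [card_univ, Fintype.card_fin, card_erase_of_mem (mem_univ _), card_univ,
          Fintype.card_fin] at h3
        have h4 : 0 < m' := Nat.pos_of_ne_zero (by rintro rfl; exact i.elim0)
        omega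
      obtain ⟨f, hf⟩ := (hQ p hp).2 i₀
      refine ⟨f, fun v => ⟨_, hf v, ?_⟩⟩
      intro i₁ x hx
      by_cases h5 : i₁ = i
      · subst h5
        rw [Function.update_self] at hx
        exact ⟨i₀, by rw [Function.update_self]; exact hx⟩
      · rw [Function.update_of_ne h5] at hx
        refine ⟨c i₁, ?_⟩
        have h6 : c i₁ ≠ i₀ := by
          intro h7
          exact hi₀ (h7 ▸ mem_image_of_mem c (mem_erase.2 ⟨h5, mem_univ _⟩))
        rw [Function.update_of_ne h6]
        exact hc i₁ x hx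
  · refine ⟨fun i => if h : i.val < s.card then some (s.equivFin.symm ⟨i.val, h⟩).1 else none,
      ⟨p, hp, ?_⟩, ?_⟩
    · intro i x hx
      by_cases h2 : i.val < s.card
      · simp only [h2, dif_pos, Option.some.injEq] at hx
        apply h1
        rw [← hx]
        exact (s.equivFin.symm ⟨i.val, h2⟩).2
      · simp [h2] at hx
    · intro x hx
      refine ⟨Fin.castLE hs (s.equivFin ⟨x, hx⟩), ?_⟩
      have h2 : (Fin.castLE hs (s.equivFin ⟨x, hx⟩)).val < s.card := (s.equivFin ⟨x, hx⟩).2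
      simp

/-- PROOF: choose a pebble for each `x ∈ s`; a pebble `i₀` is free; move it. -/
theorem Cov.move {s : Finset (V × W)} (h : Cov m A B s) (hs : s.card < m) :
    ∃ f : V ≃ W, ∀ v, Cov m A B (insert (v, f v) s) := by
  obtain ⟨Q, hQ, p, hp, h1⟩ := h
  have h2 : ∀ x : s, ∃ i, p i = some x.1 := fun x => h1 x.1 x.2
  choose c hc using h2
  obtain ⟨i₀, hi₀⟩ : ∃ i₀ : Fin m, i₀ ∉ s.attach.image c := by
    by_contra hcon
    push Not at hcon
    have h2 : (univ : Finset (Fin m)) ⊆ s.attach.image c := fun x _ => hcon x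
    have h3 := (card_le_card h2).trans card_image_le
    rw [card_univ, Fintype.card_fin, card_attach] at h3
    omega
  obtain ⟨f, hf⟩ := (hQ p hp).2 i₀
  refine ⟨f, fun v => ⟨Q, hQ, _, hf v, ?_⟩⟩
  intro x hx
  rcases mem_insert.1 hx with rfl | hx
  · exact ⟨i₀, by rw [Function.update_self]⟩
  · refine ⟨c ⟨x, hx⟩, ?_⟩
    have h6 : c ⟨x, hx⟩ ≠ i₀ := by
      intro h7
      exact hi₀ (h7 ▸ mem_image_of_mem c (mem_attach _ _))
    rw [Function.update_of_ne h6]
    exact hc ⟨x, hx⟩

/-- PROOF: induction on `a`. `a = 0`: the unique functions. Step: `f` from `Cov.move`; for every `v` the induction hypothesis for `insert (v, f v) s` gives `β v : (Fin a → V) ≃ (Fin a → W)`; `β` = the composition of `(Fin (a + 1) → V) ≃ V × (Fin a → V)`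
(`Fin.consEquiv`), `Equiv.prodShear f β` and the inverse for `W`; `prs (Fin.cons v u) (Fin.cons (f v) w) = insert (v, f v) (prs u w)`. -/
theorem Cov.tuple {s : Finset (V × W)} (h : Cov m A B s) (a : ℕ) (hs : s.card + a ≤ m) :
    ∃ β : (Fin a → V) ≃ (Fin a → W), ∀ u, Cov m A B (s ∪ prs u (β u)) := by
  induction a generalizing s with
  | zero =>
    refine ⟨Equiv.ofUnique _ _, fun u => ?_⟩
    have h2 : prs u ((Equiv.ofUnique (Fin 0 → V) (Fin 0 → W)) u) = ∅ := by
      simp [prs]
    rw [h2, union_empty]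
    exact h
  | succ a ih =>
    obtain ⟨f, hf⟩ := h.move (by omega)
    have h2 : ∀ v, ∃ β : (Fin a → V) ≃ (Fin a → W),
        ∀ u, Cov m A B (insert (v, f v) s ∪ prs u (β u)) := by
      intro v
      apply ih (hf v)
      have := card_insert_le (v, f v) s
      omega
    choose β hβ using h2
    refine ⟨(Fin.consEquiv fun _ => V).symm.trans
      ((Equiv.prodShear f β).trans (Fin.consEquiv fun _ => W)), fun u => ?_⟩
    have h3 : ((Fin.consEquiv fun _ => V).symm.trans
      ((Equiv.prodShear f β).trans (Fin.consEquiv fun _ => W))) u =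
        Fin.cons (f (u 0)) (β (u 0) (Fin.tail u)) := by
      rfl
    have h4 : s ∪ prs u (Fin.cons (f (u 0)) (β (u 0) (Fin.tail u)) : Fin (a + 1) → W) =
        insert (u 0, f (u 0)) s ∪ prs (Fin.tail u) (β (u 0) (Fin.tail u)) := by
      ext x
      simp only [prs, mem_union, mem_image, mem_univ, true_and, mem_insert]
      constructor
      · rintro (h5 | ⟨j, rfl⟩)
        · exact Or.inl (Or.inr h5)
        · induction j using Fin.cases with
          | zero => exact Or.inl (Or.inl (by simp))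
          | succ j => exact Or.inr ⟨j, by simp [Fin.tail]⟩
      · rintro ((rfl | h5) | ⟨j, rfl⟩)
        · exact Or.inr ⟨0, by simp⟩
        · exact Or.inl h5
        · exact Or.inr ⟨j.succ, by simp [Fin.tail]⟩
    rw [h3, h4]
    exact hβ (u 0) (Fin.tail u)

end

end Pool.Agent.Lib.MP_8d8c46_lc.CW
end
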