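import Pool.Agent.Lib.MP_8d8c46_lc.Mg.G002

section

set_option autoImplicit false

open Finset
open scoped Classical

namespace Pool.Agent.Lib.MP_8d8c46_lc.Gap

open Pool.Agent.Lib.MP_8d8c46_lc Pool.Agent.Lib.MP_8d8c46_lc.SDP Pool.Agent.Lib.MP_8d8c46_lc.EL

/-- Lower bound: `A03_law` with `S := T`, `T := ∅`. Upper bound by induction on `T` as in
`C6_bounds` (`SDP/Law.lean`): `law μ U ∅ = exp (-μ * U ∅) = 1`, and
`law μ U (insert v T) = law μ U T - ∑ R ∈ T.powerset, (-1)^|R| * exp (-μ * U ({v} ∪ R))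
≤ law μ U T + 2^k * (3 ζ)` (`Finset.sum_powerset_insert`, `A02_nonneg` with `S := T`, `T := {v}`);
so `law μ U T ≤ 1 + |T| * (2^k * (3 ζ))`; `ζ ≥ 0` follows from `hU ∅`. -/
theorem A04_bounds {V : Type*} [DecidableEq V] {k : ℕ} {ζ : ℝ} {U : Finset V → ℝ}
    (hU : ApxCov k ζ U) (hζ1 : ζ ≤ 1) (hU0 : U ∅ = 0) {μ : ℝ} (h0 : 0 ≤ μ) (h1 : μ ≤ 1)
    {T : Finset V} (h : T.card ≤ k) :
    -(2 ^ k * (3 * ζ)) ≤ law μ U T ∧ law μ U T ≤ 1 + k * (2 ^ k * (3 * ζ)) := by
  have hζ0 : 0 ≤ ζ := by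
    obtain ⟨w, -, hw⟩ := hU ∅ (by simp)
    exact (abs_nonneg _).trans (hw ∅ (Finset.Subset.refl _))
  have hA : 0 ≤ (2 : ℝ) ^ k * (3 * ζ) := by positivity
  constructor
  · have h2 := A03_law hU hζ1 h0 h1 (S := T) (T := ∅) (Finset.disjoint_empty_right _)
      (by simpa using h)
    simpa using h2
  · have key : ∀ T : Finset V, T.card ≤ k →
        law μ U T ≤ 1 + T.card * (2 ^ k * (3 * ζ)) := by
      intro T
      induction T using Finset.induction_on with
      | empty =>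
        intro _
        simp [law, hU0]
      | insert v T hv ih =>
        intro h
        have hc : T.card + 1 ≤ k := by rwa [Finset.card_insert_of_notMem hv] at h
        have h2 := A02_nonneg hU hζ1 h0 h1 (S := T) (T := {v}) (by
          refine (Finset.card_union_le _ _).trans ?_
          simpa using hc)
        have h3 : law μ U (insert v T) = law μ U T -
            ∑ R ∈ T.powerset, (-1) ^ R.card * Real.exp (-μ * U ({v} ∪ R)) := by
          unfold law
          rw [Finset.sum_powerset_insert hv, sub_eq_add_neg, ← Finset.sum_neg_distrib]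
          congr 1
          apply Finset.sum_congr rfl
          intro R hR
          rw [Finset.mem_powerset] at hR
          have hvR : v ∉ R := fun hh => hv (hR hh)
          rw [Finset.card_insert_of_notMem hvR, pow_succ, ← Finset.insert_eq]
          ring
        have h4 := ih (by omega)
        have h5 : (((insert v T).card : ℕ) : ℝ) = T.card + 1 := by
          rw [Finset.card_insert_of_notMem hv]
          push_cast
          rfl
        rw [h3, h5]
        linarith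
    refine (key T h).trans ?_
    have h6 : (T.card : ℝ) ≤ k := by exact_mod_cast h
    have h7 := mul_le_mul_of_nonneg_right h6 hA
    linarith

end Pool.Agent.Lib.MP_8d8c46_lc.Gap
end

section

set_option autoImplicit false

open Finset
open scoped Classical

namespace Pool.Agent.Lib.MP_8d8c46_lc.Gap

open Pool.Agent.Lib.MP_8d8c46_lc Pool.Agent.Lib.MP_8d8c46_lc.SDP Pool.Agent.Lib.MP_8d8c46_lc.EL

/-- The mixture is at most `1` in absolute value. Put `μ = -log (1 - δ) ∈ [0, 1]` (as `δ ≤ 1/2`: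
`log 2 ≤ 1`). If `T = ∅`, `X0 = (1 - κ) * law μ U ∅ + κ = 1`. Otherwise `δ^|T| ≤ 1/2`, and
`A04_bounds` gives `X0 ≤ (1 - κ) (1 + κ/2) + κ/2 ≤ 1` and
`X0 ≥ -(1 - κ) (2^k * (3 ζ)) ≥ -κ/2 ≥ -1` (`1 ≤ k`; `ζ ≥ 0` from `hU ∅`). -/
theorem A05_X0_le {V : Type*} [DecidableEq V] {k : ℕ} (hk : 1 ≤ k) {ζ : ℝ} {U : Finset V → ℝ}
    (hU : ApxCov k ζ U) (hU0 : U ∅ = 0) {δ κ : ℝ} (hδ0 : 0 < δ) (hδ1 : δ ≤ 1 / 2) (hκ0 : 0 ≤ κ)
    (hκ1 : κ ≤ 1) (hζ : k * (2 ^ k * (3 * ζ)) ≤ κ / 2) {T : Finset V} (h : T.card ≤ k) :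
    |X0 δ κ U T| ≤ 1 := by
  have hζ0 : 0 ≤ ζ := by
    obtain ⟨w, -, hw⟩ := hU ∅ (by simp)
    exact (abs_nonneg _).trans (hw ∅ (Finset.Subset.refl _))
  have hA : 0 ≤ (2 : ℝ) ^ k * (3 * ζ) := by positivity
  have hk' : (1 : ℝ) ≤ k := by exact_mod_cast hk
  have hA1 : (2 : ℝ) ^ k * (3 * ζ) ≤ κ / 2 :=
    (le_mul_of_one_le_left hA hk').trans hζ
  have h2k : (1 : ℝ) ≤ 2 ^ k := one_le_pow₀ (by norm_num)
  have hζ1 : ζ ≤ 1 := by
    have h3 : 3 * ζ ≤ (2 : ℝ) ^ k * (3 * ζ) := le_mul_of_one_le_left (by positivity) h2k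
    linarith
  have hpos : 0 < 1 - δ := by linarith
  have hμ0 : 0 ≤ -Real.log (1 - δ) := by
    have := Real.log_nonpos hpos.le (by linarith)
    linarith
  have hμ1 : -Real.log (1 - δ) ≤ 1 := by
    have h4 : Real.log (1 / 2) ≤ Real.log (1 - δ) := Real.log_le_log (by norm_num) (by linarith)
    have h5 : Real.log (1 / 2) = -Real.log 2 := by rw [one_div, Real.log_inv]
    have h6 := Real.log_two_lt_d9
    linarith
  rcases Finset.eq_empty_or_nonempty T with hT | hT
  · subst hT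
    have h7 : law (-Real.log (1 - δ)) U ∅ = 1 := by simp [law, hU0]
    unfold X0
    rw [h7, Finset.card_empty, pow_zero]
    have h8 : (1 - κ) * 1 + κ * 1 = 1 := by ring
    rw [h8, abs_one]
  · obtain ⟨hl, hu⟩ := A04_bounds hU hζ1 hU0 hμ0 hμ1 h
    have hp0 : 0 ≤ δ ^ T.card := by positivity
    have hp1 : δ ^ T.card ≤ 1 / 2 := by
      have h9 : δ ^ T.card ≤ δ ^ 1 :=
        pow_le_pow_of_le_one hδ0.le (by linarith) (Finset.card_pos.2 hT)
      rw [pow_one] at h9
      linarith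
    unfold X0
    set L := law (-Real.log (1 - δ)) U T with hL
    have h1κ : 0 ≤ 1 - κ := by linarith
    have hLu : L ≤ 1 + κ / 2 := by linarith
    have hLl : -(κ / 2) ≤ L := by linarith
    have e1 : (1 - κ) * L ≤ (1 - κ) * (1 + κ / 2) := mul_le_mul_of_nonneg_left hLu h1κ
    have e2 : (1 - κ) * -(κ / 2) ≤ (1 - κ) * L := mul_le_mul_of_nonneg_left hLl h1κ
    have e3 : κ * δ ^ T.card ≤ κ * (1 / 2) := mul_le_mul_of_nonneg_left hp1 hκ0
    have e4 : 0 ≤ κ * δ ^ T.card := mul_nonneg hκ0 hp0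
    have e5 : 0 ≤ κ * κ := mul_nonneg hκ0 hκ0
    have e6 : κ * κ ≤ κ := by nlinarith
    rw [abs_le]
    constructor
    · nlinarith
    · nlinarith

end Pool.Agent.Lib.MP_8d8c46_lc.Gap
end

section

set_option autoImplicit false

open Finset
open scoped Classical

namespace Pool.Agent.Lib.MP_8d8c46_lc.Gap

open Pool.Agent.Lib.MP_8d8c46_lc Pool.Agent.Lib.MP_8d8c46_lc.SDP Pool.Agent.Lib.MP_8d8c46_lc.EL

/-- Far points. Put `μ = -log (1 - δ)`, `exp (-μ) = 1 - δ`. If `U (insert v R) = U R + 1` for all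
`R ⊆ T` (`v ∉ T`) then by `Finset.sum_powerset_insert`
`law μ U (insert v T) = ∑ R ⊆ T, (-1)^|R| (exp (-μ U R) - exp (-μ (U R + 1))) = δ * law μ U T`,
so `X0 (insert v T) = δ * X0 T` and the term of `v` is `0`. Every other term is at most
`δ * 1 + 1 ≤ 2` by `hX`. -/
theorem A06_far {V : Type*} [Fintype V] [DecidableEq V] {k : ℕ} {U : Finset V → ℝ} {δ κ τ : ℝ}
    (hδ0 : 0 < δ) (hδ1 : δ ≤ 1 / 2) (hX : ∀ T : Finset V, T.card ≤ k → |X0 δ κ U T| ≤ 1)
    (hfar : ∀ T : Finset V, T.card + 1 ≤ k →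
      (((univ \ T).filter (fun v => ¬ ∀ R ⊆ T, U (insert v R) = U R + 1)).card : ℝ) ≤
        τ * Fintype.card V)
    (T : Finset V) (hT : T.card + 1 ≤ k) :
    ∑ v ∈ univ \ T, |δ * X0 δ κ U T - X0 δ κ U (insert v T)| ≤ 2 * τ * Fintype.card V := by
  have hpos : 0 < 1 - δ := by linarith
  have hstep : ∀ v ∈ univ \ T, |δ * X0 δ κ U T - X0 δ κ U (insert v T)| ≤
      if ¬ ∀ R ⊆ T, U (insert v R) = U R + 1 then 2 else 0 := by
    intro v hv
    have hvT : v ∉ T := (Finset.mem_sdiff.1 hv).2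
    by_cases hc : ∀ R ⊆ T, U (insert v R) = U R + 1
    · rw [if_neg (not_not.2 hc)]
      have hlaw : law (-Real.log (1 - δ)) U (insert v T) =
          δ * law (-Real.log (1 - δ)) U T := by
        unfold law
        rw [Finset.sum_powerset_insert hvT, ← Finset.sum_add_distrib, Finset.mul_sum]
        refine Finset.sum_congr rfl fun R hR => ?_
        rw [Finset.mem_powerset] at hR
        have hvR : v ∉ R := fun hh => hvT (hR hh)
        rw [Finset.card_insert_of_notMem hvR, hc R hR]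
        have h5 : Real.exp (- -Real.log (1 - δ) * (U R + 1)) =
            Real.exp (- -Real.log (1 - δ) * U R) * (1 - δ) := by
          rw [mul_add, mul_one, Real.exp_add, neg_neg, Real.exp_log hpos]
        rw [h5, pow_succ]
        ring
      have h6 : X0 δ κ U (insert v T) = δ * X0 δ κ U T := by
        unfold X0
        rw [hlaw, Finset.card_insert_of_notMem hvT, pow_succ]
        ring
      rw [h6, sub_self, abs_zero]
    · rw [if_pos hc]
      have h1 := hX T (by omega)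
      have h2 := hX (insert v T) (by rw [Finset.card_insert_of_notMem hvT]; exact hT)
      have h3 : |δ * X0 δ κ U T| ≤ 1 := by
        rw [abs_mul, abs_of_pos hδ0]
        nlinarith [abs_nonneg (X0 δ κ U T)]
      have h4 := abs_sub (δ * X0 δ κ U T) (X0 δ κ U (insert v T))
      linarith
  refine (Finset.sum_le_sum hstep).trans ?_
  rw [← Finset.sum_filter, Finset.sum_const, nsmul_eq_mul]
  have h7 := hfar T hT
  linarith

end Pool.Agent.Lib.MP_8d8c46_lc.Gap
end

section

set_option autoImplicit false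

open Finset
open scoped Classical

namespace Pool.Agent.Lib.MP_8d8c46_lc.Gap

open Pool.Agent.Lib.MP_8d8c46_lc Pool.Agent.Lib.MP_8d8c46_lc.SDP Pool.Agent.Lib.MP_8d8c46_lc.EL

/-- As `A4_stable` (`SDP/Abs.lean`), with an error: the sum for `X` differs from
`(1 - κ) * (sum for L) + κ δ^|S| (1 - δ)^|T|` (`A4_sum_pow`) by at most `2^|T| e ≤ 2^k e`;
`(1 - κ) * (sum for L) ≥ -e₁` and `δ^|S| (1 - δ)^|T| ≥ δ^(|S| + |T|) ≥ δ^k`. -/
theorem A07_stable {V : Type*} [DecidableEq V] {k : ℕ} {δ κ e e₁ : ℝ} (hδ0 : 0 < δ)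
    (hδ1 : δ ≤ 1 / 2) (hκ0 : 0 ≤ κ) (hκ1 : κ ≤ 1) (he1 : 0 ≤ e₁) (L X : Finset V → ℝ)
    (hL : ∀ S T : Finset V, Disjoint S T → (S ∪ T).card ≤ k →
      -e₁ ≤ ∑ R ∈ T.powerset, (-1) ^ R.card * L (S ∪ R))
    (hX : ∀ T : Finset V, T.card ≤ k → |X T - ((1 - κ) * L T + κ * δ ^ T.card)| ≤ e)
    (he : 2 ^ k * e + e₁ ≤ κ * δ ^ k) (S T : Finset V) (hd : Disjoint S T)
    (hc : (S ∪ T).card ≤ k) :
    0 ≤ ∑ R ∈ T.powerset, (-1) ^ R.card * X (S ∪ R) := by
  have hcard : S.card + T.card ≤ k := by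
    rw [← Finset.card_union_of_disjoint hd]; exact hc
  have he0 : 0 ≤ e := (abs_nonneg _).trans (hX ∅ (by simp))
  have h1 : ∑ R ∈ T.powerset, (-1 : ℝ) ^ R.card * ((1 - κ) * L (S ∪ R) + κ * δ ^ (S ∪ R).card) =
      (1 - κ) * ∑ R ∈ T.powerset, (-1) ^ R.card * L (S ∪ R) +
        κ * (δ ^ S.card * (1 - δ) ^ T.card) := by
    rw [← A4_sum_pow δ S T hd, Finset.mul_sum, Finset.mul_sum, ← Finset.sum_add_distrib]
    exact Finset.sum_congr rfl (fun R _ => by ring)
  have h2 : |∑ R ∈ T.powerset, (-1 : ℝ) ^ R.card * X (S ∪ R) -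
      ∑ R ∈ T.powerset, (-1 : ℝ) ^ R.card * ((1 - κ) * L (S ∪ R) + κ * δ ^ (S ∪ R).card)| ≤
      2 ^ k * e := by
    rw [← Finset.sum_sub_distrib]
    calc |∑ R ∈ T.powerset, ((-1 : ℝ) ^ R.card * X (S ∪ R) -
          (-1 : ℝ) ^ R.card * ((1 - κ) * L (S ∪ R) + κ * δ ^ (S ∪ R).card))|
        ≤ ∑ R ∈ T.powerset, |(-1 : ℝ) ^ R.card * X (S ∪ R) -
          (-1 : ℝ) ^ R.card * ((1 - κ) * L (S ∪ R) + κ * δ ^ (S ∪ R).card)| :=
          Finset.abs_sum_le_sum_abs _ _
      _ ≤ ∑ R ∈ T.powerset, e := by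
          refine Finset.sum_le_sum (fun R hR => ?_)
          rw [← mul_sub, abs_mul, abs_pow, abs_neg, abs_one, one_pow, one_mul]
          refine hX _ ?_
          exact (Finset.card_le_card (Finset.union_subset_union_right
            (Finset.mem_powerset.1 hR))).trans hc
      _ = 2 ^ T.card * e := by
          rw [Finset.sum_const, Finset.card_powerset, nsmul_eq_mul]; push_cast; ring
      _ ≤ 2 ^ k * e := by
          refine mul_le_mul_of_nonneg_right ?_ he0
          exact pow_le_pow_right₀ (by norm_num) (by omega)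
  have h3 : δ ^ k ≤ δ ^ S.card * (1 - δ) ^ T.card := by
    calc δ ^ k ≤ δ ^ (S.card + T.card) := pow_le_pow_of_le_one hδ0.le (by linarith) hcard
      _ = δ ^ S.card * δ ^ T.card := pow_add _ _ _
      _ ≤ δ ^ S.card * (1 - δ) ^ T.card := by
          refine mul_le_mul_of_nonneg_left ?_ (by positivity)
          exact pow_le_pow_left₀ hδ0.le (by linarith) _
  have h4 := hL S T hd hc
  have h5 : κ * δ ^ k ≤ κ * (δ ^ S.card * (1 - δ) ^ T.card) := mul_le_mul_of_nonneg_left h3 hκ0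
  have h6 : -e₁ ≤ (1 - κ) * ∑ R ∈ T.powerset, (-1) ^ R.card * L (S ∪ R) := by
    have a1 : (1 - κ) * (-e₁) ≤ (1 - κ) * ∑ R ∈ T.powerset, (-1) ^ R.card * L (S ∪ R) :=
      mul_le_mul_of_nonneg_left h4 (by linarith)
    have a2 : 0 ≤ κ * e₁ := mul_nonneg hκ0 he1
    have a3 : (1 - κ) * (-e₁) = κ * e₁ - e₁ := by ring
    linarith
  have h7 := (abs_le.1 h2).1
  linarith

end Pool.Agent.Lib.MP_8d8c46_lc.Gap
end

section

set_option autoImplicit false

open Finset
open scoped Classical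

namespace Pool.Agent.Lib.MP_8d8c46_lc.Gap

open Pool.Agent.Lib.MP_8d8c46_lc Pool.Agent.Lib.MP_8d8c46_lc.SDP Pool.Agent.Lib.MP_8d8c46_lc.EL

/-- The form of the centred kernel. With `N = |V|`, `c̄ = (∑ c) / N`, expand the right hand side:
`∑∑ c u c v C u v - 2 c̄ ∑ u, c u (∑ v, C u v) + c̄² ∑∑ C u v` (use the symmetry of `C`), and
`∑ u, ∑ v, c u c v (∑ w, C u w) / N = c̄ * ∑ u, c u (∑ w, C u w)` etc. -/
theorem A08_center {V : Type*} [Fintype V] [Nonempty V] {C : V → V → ℝ}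
    (hC : ∀ u v, C u v = C v u) (c : V → ℝ) :
    ∑ u, ∑ v, c u * c v * (C u v - (∑ w, C u w) / Fintype.card V - (∑ w, C v w) / Fintype.card V +
      (∑ w, ∑ w', C w w') / (Fintype.card V) ^ 2) =
    ∑ u, ∑ v, (c u - (∑ w, c w) / Fintype.card V) * (c v - (∑ w, c w) / Fintype.card V) *
      C u v := by
  obtain ⟨n, hn⟩ : ∃ n : ℝ, n = Fintype.card V := ⟨_, rfl⟩
  have hn0 : n ≠ 0 := by
    rw [hn]; exact_mod_cast Fintype.card_ne_zero
  rw [← hn]
  obtain ⟨m, hm⟩ : ∃ m : ℝ, m = (∑ u, c u) / n := ⟨_, rfl⟩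
  have hs : ∑ u, c u = m * n := by rw [hm]; field_simp
  rw [← hm]
  obtain ⟨r, hr⟩ : ∃ r : V → ℝ, r = fun u => ∑ w, C u w := ⟨_, rfl⟩
  have hru : ∀ u, ∑ w, C u w = r u := fun u => by rw [hr]
  obtain ⟨s, hS⟩ : ∃ s : ℝ, s = ∑ u, r u := ⟨_, rfl⟩
  obtain ⟨A, hA⟩ : ∃ A : ℝ, A = ∑ u, c u * r u := ⟨_, rfl⟩
  have hcol : ∀ v, ∑ u, C u v = r v := fun v => by
    rw [← hru v]; exact sum_congr rfl fun u _ => hC u v
  simp_rw [hru]
  rw [← hS]
  have l1 : ∑ u, ∑ v, c u * c v * (C u v - r u / n - r v / n + s / n ^ 2) =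
      ∑ u, ∑ v, c u * c v * C u v - (∑ u, c u * r u) * (∑ v, c v) / n
        - (∑ u, c u) * (∑ v, c v * r v) / n + (∑ u, c u) * (∑ v, c v) * (s / n ^ 2) := by
    rw [sum_mul_sum, sum_mul_sum, sum_mul_sum]
    simp_rw [sum_div, sum_mul]
    rw [← sum_sub_distrib, ← sum_sub_distrib, ← sum_add_distrib]
    refine sum_congr rfl fun u _ => ?_
    rw [← sum_sub_distrib, ← sum_sub_distrib, ← sum_add_distrib]
    refine sum_congr rfl fun v _ => ?_
    ring
  have l2 : ∑ u, ∑ v, (c u - m) * (c v - m) * C u v =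
      ∑ u, ∑ v, c u * c v * C u v - m * ∑ u, c u * ∑ v, C u v - m * ∑ v, c v * ∑ u, C u v
        + m * m * ∑ u, ∑ v, C u v := by
    have a1 : ∑ v, c v * ∑ u, C u v = ∑ u, ∑ v, c v * C u v := by
      simp_rw [mul_sum]; exact sum_comm
    rw [a1]
    simp_rw [mul_sum]
    rw [← sum_sub_distrib, ← sum_sub_distrib, ← sum_add_distrib]
    refine sum_congr rfl fun u _ => ?_
    rw [← sum_sub_distrib, ← sum_sub_distrib, ← sum_add_distrib]
    refine sum_congr rfl fun v _ => ?_
    ring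
  rw [l1, l2]
  simp_rw [hru, hcol]
  rw [← hS, ← hA, hs]
  field_simp

end Pool.Agent.Lib.MP_8d8c46_lc.Gap
end

section

set_option autoImplicit false

open Finset
open scoped Classical

namespace Pool.Agent.Lib.MP_8d8c46_lc.Gap

open Pool.Agent.Lib.MP_8d8c46_lc Pool.Agent.Lib.MP_8d8c46_lc.SDP Pool.Agent.Lib.MP_8d8c46_lc.EL

/-- A matrix with a prescribed small diagonal and row sums zero. Put `N = |V| ≥ 4`,
`X = (∑ d) / (2 N - 2)`, `x u = (d u - X) / (N - 2)`, `M u u = d u` and `M u v = -(x u + x v)` for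
`u ≠ v`. Then `∑ x = (∑ d - N X) / (N - 2) = X`, and the row sum is
`d u - ((N - 1) x u + (∑ x - x u)) = d u - ((N - 2) x u + X) = 0`. Bounds: `|X| ≤ t N / (2 N - 2) ≤ t`,
`|x u| ≤ 2 t / (N - 2) ≤ 4 t / N`, so `|M u v| ≤ 8 t / N`. For the form put
`c' = c - (∑ c) / N`; as all row and column sums vanish, `∑∑ c u c v M u v = ∑∑ c' u c' v M u v`,
at most `t ∑ c'² + (8 t / N) (∑ |c'|)² ≤ 9 t ∑ c'²`. -/
theorem A09_diag {V : Type*} [Fintype V] (hn : 4 ≤ Fintype.card V) (d : V → ℝ) {t : ℝ}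
    (hd : ∀ u, |d u| ≤ t) :
    ∃ M : V → V → ℝ, (∀ u v, M u v = M v u) ∧ (∀ u, M u u = d u) ∧ (∀ u, ∑ v, M u v = 0) ∧
      (∀ u v, u ≠ v → |M u v| ≤ 8 * t / Fintype.card V) ∧
      ∀ c : V → ℝ, |∑ u, ∑ v, c u * c v * M u v| ≤
        9 * t * ∑ u, (c u - (∑ w, c w) / Fintype.card V) ^ 2 := by
  obtain ⟨n, hnn⟩ : ∃ n : ℝ, n = Fintype.card V := ⟨_, rfl⟩
  have hn4 : (4 : ℝ) ≤ n := by rw [hnn]; exact_mod_cast hn
  have hn0 : n ≠ 0 := by linarith
  have hn2 : n - 2 ≠ 0 := by
    intro h; linarith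
  have hn22 : 2 * n - 2 ≠ 0 := by
    intro h; linarith
  have hnpos : 0 < n := by linarith
  have hV : Nonempty V := by
    rw [← Fintype.card_pos_iff]; omega
  have ht : 0 ≤ t := (abs_nonneg _).trans (hd hV.some)
  rw [← hnn]
  obtain ⟨X, hX⟩ : ∃ X : ℝ, X = (∑ u, d u) / (2 * n - 2) := ⟨_, rfl⟩
  have hXs : ∑ u, d u = X * (2 * n - 2) := by rw [hX, div_mul_cancel₀ _ hn22]
  obtain ⟨x, hx⟩ : ∃ x : V → ℝ, x = fun u => (d u - X) / (n - 2) := ⟨_, rfl⟩
  have hxu : ∀ u, x u = (d u - X) / (n - 2) := fun u => by rw [hx]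
  have hxm : ∀ u, x u * (n - 2) = d u - X := fun u => by rw [hxu, div_mul_cancel₀ _ hn2]
  have hxs : ∑ u, x u = X := by
    have h1 : (∑ u, x u) * (n - 2) = X * (n - 2) := by
      rw [sum_mul, sum_congr rfl fun u _ => hxm u, sum_sub_distrib, hXs, sum_const, card_univ,
        nsmul_eq_mul, ← hnn]
      ring
    exact mul_right_cancel₀ hn2 h1
  have hXt : |X| ≤ t := by
    rw [hX, abs_div, abs_of_pos (by linarith : (0 : ℝ) < 2 * n - 2), div_le_iff₀ (by linarith)]
    calc |∑ u, d u| ≤ ∑ u, |d u| := abs_sum_le_sum_abs _ _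
      _ ≤ ∑ _u : V, t := sum_le_sum fun u _ => hd u
      _ = n * t := by rw [sum_const, card_univ, nsmul_eq_mul, ← hnn]
      _ ≤ t * (2 * n - 2) := by nlinarith
  have hxt : ∀ u, |x u| ≤ 4 * t / n := by
    intro u
    rw [hxu, abs_div, abs_of_pos (by linarith : (0 : ℝ) < n - 2), div_le_div_iff₀ (by linarith) hnpos]
    have h1 : |d u - X| ≤ 2 * t := by
      have := abs_sub (d u) X
      have := hd u
      linarith
    calc |d u - X| * n ≤ 2 * t * n := mul_le_mul_of_nonneg_right h1 hnpos.le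
      _ ≤ 4 * t * (n - 2) := by nlinarith
  obtain ⟨M, hM⟩ : ∃ M : V → V → ℝ, M = fun u v => if u = v then d u else -(x u + x v) := ⟨_, rfl⟩
  have hMd : ∀ u, M u u = d u := fun u => by rw [hM]; exact if_pos rfl
  have hMo : ∀ u v, u ≠ v → M u v = -(x u + x v) := fun u v h => by rw [hM]; exact if_neg h
  have hMs : ∀ u v, M u v = M v u := by
    intro u v
    by_cases h : u = v
    · rw [h]
    · rw [hMo u v h, hMo v u (Ne.symm h)]; ring
  have hMb : ∀ u v, u ≠ v → |M u v| ≤ 8 * t / n := by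
    intro u v h
    rw [hMo u v h, abs_neg]
    have h1 := abs_add_le (x u) (x v)
    have h2 := hxt u
    have h3 := hxt v
    have h4 : 8 * t / n = 4 * t / n + 4 * t / n := by ring
    rw [h4]
    linarith
  have hMr : ∀ u, ∑ v, M u v = 0 := by
    intro u
    have h1 : ∀ v, M u v = -(x u + x v) + if u = v then d u + 2 * x u else 0 := by
      intro v
      by_cases h : u = v
      · subst h
        rw [if_pos rfl, hMd]; ring
      · rw [if_neg h, hMo u v h, add_zero]
    rw [sum_congr rfl fun v _ => h1 v, sum_add_distrib, sum_neg_distrib, sum_add_distrib, hxs,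
      sum_const, card_univ, nsmul_eq_mul, ← hnn, sum_ite_eq, if_pos (mem_univ u)]
    have h2 := hxm u
    linarith
  have hMc : ∀ v, ∑ u, M u v = 0 := by
    intro v
    rw [← hMr v]
    exact sum_congr rfl fun u _ => hMs u v
  refine ⟨M, hMs, hMd, hMr, hMb, ?_⟩
  intro c
  obtain ⟨m, hm⟩ : ∃ m : ℝ, m = (∑ u, c u) / n := ⟨_, rfl⟩
  rw [← hm]
  have e1 : ∑ u, ∑ v, c u * c v * M u v = ∑ u, ∑ v, (c u - m) * (c v - m) * M u v := by
    have e2 : ∑ u, ∑ v, (c u - m) * (c v - m) * M u v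
        = ∑ u, ∑ v, c u * c v * M u v - m * ∑ u, c u * ∑ v, M u v - m * ∑ v, c v * ∑ u, M u v
          + m * m * ∑ u, ∑ v, M u v := by
      have a1 : ∑ v, c v * ∑ u, M u v = ∑ u, ∑ v, c v * M u v := by
        simp_rw [mul_sum]; exact sum_comm
      rw [a1]
      simp_rw [mul_sum]
      rw [← sum_sub_distrib, ← sum_sub_distrib, ← sum_add_distrib]
      refine sum_congr rfl fun u _ => ?_
      rw [← sum_sub_distrib, ← sum_sub_distrib, ← sum_add_distrib]
      refine sum_congr rfl fun v _ => ?_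
      ring
    rw [e2]
    simp_rw [hMr, hMc]
    simp
  rw [e1]
  have hpt : ∀ u v, |(c u - m) * (c v - m) * M u v| ≤
      (if u = v then t * (c u - m) ^ 2 else 0) + |c u - m| * |c v - m| * (8 * t / n) := by
    intro u v
    have h8 : 0 ≤ |c u - m| * |c v - m| * (8 * t / n) := by positivity
    rw [abs_mul, abs_mul]
    by_cases h : u = v
    · subst h
      rw [if_pos rfl, hMd]
      have h1 : |c u - m| * |c u - m| = (c u - m) ^ 2 := by
        rw [abs_mul_abs_self, pow_two]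
      have h2 : |c u - m| * |c u - m| * |d u| ≤ t * (c u - m) ^ 2 := by
        rw [h1, mul_comm t]
        exact mul_le_mul_of_nonneg_left (hd u) (sq_nonneg _)
      linarith
    · rw [if_neg h, zero_add]
      exact mul_le_mul_of_nonneg_left (hMb u v h) (by positivity)
  have hcs : (∑ u, |c u - m|) ^ 2 ≤ n * ∑ u, (c u - m) ^ 2 := by
    have h1 := sq_sum_le_card_mul_sum_sq (s := (univ : Finset V)) (f := fun u => |c u - m|)
    simp only [sq_abs, card_univ] at h1
    rw [hnn]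
    exact h1
  calc |∑ u, ∑ v, (c u - m) * (c v - m) * M u v|
      ≤ ∑ u, |∑ v, (c u - m) * (c v - m) * M u v| := abs_sum_le_sum_abs _ _
    _ ≤ ∑ u, ∑ v, |(c u - m) * (c v - m) * M u v| :=
        sum_le_sum fun u _ => abs_sum_le_sum_abs _ _
    _ ≤ ∑ u, ∑ v, ((if u = v then t * (c u - m) ^ 2 else 0) +
        |c u - m| * |c v - m| * (8 * t / n)) :=
        sum_le_sum fun u _ => sum_le_sum fun v _ => hpt u v
    _ = t * ∑ u, (c u - m) ^ 2 + (∑ u, |c u - m|) ^ 2 * (8 * t / n) := by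
        rw [pow_two (∑ u, |c u - m|), sum_mul_sum, mul_sum, sum_mul, ← sum_add_distrib]
        refine sum_congr rfl fun u _ => ?_
        rw [sum_add_distrib, sum_ite_eq, if_pos (mem_univ u), sum_mul]
    _ ≤ t * ∑ u, (c u - m) ^ 2 + (n * ∑ u, (c u - m) ^ 2) * (8 * t / n) := by
        have h9 : 0 ≤ 8 * t / n := by positivity
        have := mul_le_mul_of_nonneg_right hcs h9
        linarith
    _ = 9 * t * ∑ u, (c u - m) ^ 2 := by
        field_simp
        ring

end Pool.Agent.Lib.MP_8d8c46_lc.Gap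
end

section

set_option autoImplicit false

open Finset
open scoped Classical

namespace Pool.Agent.Lib.MP_8d8c46_lc.Gap

open Pool.Agent.Lib.MP_8d8c46_lc Pool.Agent.Lib.MP_8d8c46_lc.SDP Pool.Agent.Lib.MP_8d8c46_lc.EL

/-- Exact row sums zero and exact diagonal. Let `N = |V|`, `r u = ∑ v, C u v ∈ [0, τ N]`,
`R = ∑ r ∈ [0, τ N²]`. Put `C₁ u v = C u v - r u / N - r v / N + R / N²` (row sums `0`),
`d u = C u u - C₁ u u = 2 r u / N - R / N² ∈ [-τ, 2 τ]`, take `M` from `A09_diag` for `d` and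
`t = 2 τ`, and `C' = C₁ + M`. Then `C' u u = c₀`, the row sums are zero,
`|C' u v - C u v| ≤ 2 τ + 16 τ / N ≤ 9 τ`, and by `A08_center`, the hypothesis `hC` for
`c' = c - (∑ c) / N` and `A09_diag`, `∑∑ c u c v C' u v ≥ lam ∑ c'² - 18 τ ∑ c'² ≥ 0`. -/
theorem A10_base {V : Type*} [Fintype V] (hn : 4 ≤ Fintype.card V) {C : V → V → ℝ}
    (hsym : ∀ u v, C u v = C v u) {c₀ lam τ : ℝ}
    (hC : ∀ c : V → ℝ, lam * ∑ u, c u ^ 2 ≤ ∑ u, ∑ v, c u * c v * C u v)
    (hdiag : ∀ u, C u u = c₀) (hr0 : ∀ u, 0 ≤ ∑ v, C u v)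
    (hr : ∀ u, ∑ v, C u v ≤ τ * Fintype.card V) (hτ0 : 0 ≤ τ) (hτ : 27 * τ ≤ lam) :
    ∃ C' : V → V → ℝ, PSDk C' ∧ (∀ u, C' u u = c₀) ∧ (∀ u, ∑ v, C' u v = 0) ∧
      ∀ u v, |C' u v - C u v| ≤ 9 * τ := by
  have hNpos : (0 : ℝ) < Fintype.card V := by
    have : 0 < Fintype.card V := by omega
    exact_mod_cast this
  have hN4 : (4 : ℝ) ≤ Fintype.card V := by exact_mod_cast hn
  have hne : Nonempty V := Fintype.card_pos_iff.1 (by omega)
  obtain ⟨N, hN⟩ : ∃ N : ℝ, N = Fintype.card V := ⟨_, rfl⟩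
  have hcardsum : ∀ a : ℝ, ∑ _v : V, a = N * a := by
    intro a
    rw [Finset.sum_const, Finset.card_univ, nsmul_eq_mul, hN]
  rw [← hN] at hNpos hN4
  obtain ⟨r, hr'⟩ : ∃ r : V → ℝ, r = fun u => ∑ v, C u v := ⟨_, rfl⟩
  obtain ⟨R, hR⟩ : ∃ R : ℝ, R = ∑ u, r u := ⟨_, rfl⟩
  have hru0 : ∀ u, 0 ≤ r u := by
    intro u
    rw [hr']
    exact hr0 u
  have hru : ∀ u, r u / N ≤ τ := by
    intro u
    rw [div_le_iff₀ hNpos, hr', hN]
    exact hr u
  have hru00 : ∀ u, 0 ≤ r u / N := fun u => div_nonneg (hru0 u) hNpos.le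
  have hR0 : 0 ≤ R / N ^ 2 := by
    rw [hR]
    exact div_nonneg (Finset.sum_nonneg fun u _ => hru0 u) (by positivity)
  have hR1 : R / N ^ 2 ≤ τ := by
    have h1 : R / N ^ 2 = (∑ u, r u / N) / N := by
      rw [hR, ← Finset.sum_div]
      field_simp
    rw [h1, div_le_iff₀ hNpos]
    calc ∑ u, r u / N ≤ ∑ _u : V, τ := Finset.sum_le_sum fun u _ => hru u
      _ = τ * N := by rw [hcardsum, mul_comm]
  obtain ⟨C₁, hC₁⟩ : ∃ C₁ : V → V → ℝ,
      C₁ = fun u v => C u v - r u / N - r v / N + R / N ^ 2 := ⟨_, rfl⟩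
  have hC₁s : ∀ u v, C₁ u v = C₁ v u := by
    intro u v
    rw [hC₁]
    simp only
    rw [hsym u v]
    ring
  have hC₁r : ∀ u, ∑ v, C₁ u v = 0 := by
    intro u
    rw [hC₁]
    simp only
    rw [Finset.sum_add_distrib, Finset.sum_sub_distrib, Finset.sum_sub_distrib, hcardsum,
      hcardsum, ← Finset.sum_div, ← hR]
    have h1 : ∑ v, C u v = r u := by rw [hr']
    rw [h1]
    field_simp
    ring
  obtain ⟨d, hd⟩ : ∃ d : V → ℝ, d = fun u => 2 * (r u / N) - R / N ^ 2 := ⟨_, rfl⟩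
  have hdb : ∀ u, |d u| ≤ 2 * τ := by
    intro u
    rw [hd, abs_le]
    have h1 := hru u
    have h2 := hru00 u
    constructor
    · simp only
      linarith
    · simp only
      linarith
  obtain ⟨M, hMs, hMd, hMr, hMo, hMf⟩ := A09_diag hn d hdb
  rw [← hN] at hMo
  refine ⟨fun u v => C₁ u v + M u v, ⟨fun u v => ?_, fun c => ?_⟩, fun u => ?_, fun u => ?_,
    fun u v => ?_⟩
  · change C₁ u v + M u v = C₁ v u + M v u
    rw [hC₁s u v, hMs u v]
  · have h1 : ∑ u, ∑ v, c u * c v * (C₁ u v + M u v) =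
        ∑ u, ∑ v, c u * c v * C₁ u v + ∑ u, ∑ v, c u * c v * M u v := by
      rw [← Finset.sum_add_distrib]
      refine Finset.sum_congr rfl fun u _ => ?_
      rw [← Finset.sum_add_distrib]
      exact Finset.sum_congr rfl fun v _ => mul_add _ _ _
    have h2 : ∑ u, ∑ v, c u * c v * C₁ u v =
        ∑ u, ∑ v, (c u - (∑ w, c w) / Fintype.card V) * (c v - (∑ w, c w) / Fintype.card V) *
          C u v := by
      rw [← A08_center hsym c]
      refine Finset.sum_congr rfl fun u _ => Finset.sum_congr rfl fun v _ => ?_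
      rw [hC₁, hR, hr', hN]
    have h3 := hC fun u => c u - (∑ w, c w) / Fintype.card V
    have h4 := (abs_le.1 (hMf c)).1
    have h5 : 0 ≤ ∑ u, (c u - (∑ w, c w) / Fintype.card V) ^ 2 :=
      Finset.sum_nonneg fun u _ => sq_nonneg _
    change 0 ≤ ∑ u, ∑ v, c u * c v * (C₁ u v + M u v)
    rw [h1, h2]
    nlinarith [mul_le_mul_of_nonneg_right hτ h5, mul_nonneg hτ0 h5]
  · change C₁ u u + M u u = c₀
    rw [hMd, hC₁, hd]
    simp only
    rw [hdiag u]
    ring
  · change ∑ v, (C₁ u v + M u v) = 0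
    rw [Finset.sum_add_distrib, hC₁r, hMr, add_zero]
  · change |C₁ u v + M u v - C u v| ≤ 9 * τ
    by_cases huv : u = v
    · subst huv
      have h1 : C₁ u u + M u u - C u u = 0 := by
        rw [hMd, hC₁, hd]
        simp only
        ring
      rw [h1, abs_zero]
      positivity
    · have h1 := hMo u v huv
      have h2 : 8 * (2 * τ) / N ≤ 4 * τ := by
        rw [div_le_iff₀ hNpos]
        nlinarith
      have h3 := abs_le.1 (h1.trans h2)
      have h4 : C₁ u v + M u v - C u v = -(r u / N) - r v / N + R / N ^ 2 + M u v := by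
        rw [hC₁]
        ring
      rw [h4, abs_le]
      have h5 := hru u
      have h6 := hru v
      have h7 := hru00 u
      have h8 := hru00 v
      constructor <;> linarith [h3.1, h3.2]

end Pool.Agent.Lib.MP_8d8c46_lc.Gap
end

section

set_option autoImplicit false

open Finset
open scoped Classical

namespace Pool.Agent.Lib.MP_8d8c46_lc.Gap

open Pool.Agent.Lib.MP_8d8c46_lc Pool.Agent.Lib.MP_8d8c46_lc.SDP Pool.Agent.Lib.MP_8d8c46_lc.EL

/-- Levels one and two from a covariance kernel (compare the end of the proof of `A3_base` in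
`SDP/Abs.lean`): `X2 T = 1` if `|T| = 0`, `δ` if `|T| = 1`, and otherwise
`δ^2 + (∑ u ∈ T, ∑ v ∈ T \ {u}, C' u v) / 2`. For `u = v` the last formula is right because
`δ^2 + C' u u = δ`. Size: for `T = ∅`: `∑ v, X2 {v} = δ N`; for `T = {u}`:
`∑ v, (δ^2 + C' u v) = δ^2 N = δ N X2 {u}`. The form of `BasicSDP` is
`(c₀ + δ ∑ c)^2 + ∑∑ c u c v C' u v`. -/
theorem A11_X2 {V : Type*} [Fintype V] [DecidableEq V] {δ : ℝ} (C' : V → V → ℝ) (hC : PSDk C')
    (hd : ∀ u, C' u u = δ * (1 - δ)) (hr : ∀ u, ∑ v, C' u v = 0) :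
    ∃ X2 : Finset V → ℝ, X2 ∅ = 1 ∧ (∀ v, X2 {v} = δ) ∧
      (∀ T : Finset V, T.card + 1 ≤ 2 → ∑ v, X2 (insert v T) = δ * Fintype.card V * X2 T) ∧
      BasicSDP X2 ∧ ∀ u v, X2 {u, v} = δ ^ 2 + C' u v := by
  set X2 : Finset V → ℝ := fun T => if T.card = 0 then 1 else if T.card = 1 then δ else
    δ ^ 2 + (∑ u ∈ T, ∑ v ∈ T \ {u}, C' u v) / 2 with hX2
  have hX0 : X2 ∅ = 1 := by simp [hX2]
  have hX1 : ∀ v, X2 {v} = δ := by
    intro v
    simp [hX2]
  have hXuv : ∀ u v, X2 {u, v} = δ ^ 2 + C' u v := by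
    intro u v
    by_cases huv : u = v
    · subst huv
      rw [Finset.pair_eq_singleton, hX1, hd]
      ring
    · have hcard : ({u, v} : Finset V).card = 2 := Finset.card_pair huv
      have e1 : ({u, v} : Finset V) \ {u} = {v} := by
        ext x
        simp only [Finset.mem_sdiff, Finset.mem_insert, Finset.mem_singleton]
        constructor
        · rintro ⟨h | h, h'⟩
          · exact absurd h h'
          · exact h
        · intro h
          exact ⟨Or.inr h, fun h' => huv (h'.symm.trans h)⟩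
      have e2 : ({u, v} : Finset V) \ {v} = {u} := by
        ext x
        simp only [Finset.mem_sdiff, Finset.mem_insert, Finset.mem_singleton]
        constructor
        · rintro ⟨h | h, h'⟩
          · exact h
          · exact absurd h h'
        · intro h
          exact ⟨Or.inl h, fun h' => huv (h.symm.trans h')⟩
      simp only [hX2, hcard]
      rw [if_neg (by norm_num), if_neg (by norm_num), Finset.sum_pair huv, e1, e2,
        Finset.sum_singleton, Finset.sum_singleton, hC.1 v u]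
      ring
  refine ⟨X2, hX0, hX1, ?_, ?_, ?_⟩
  · intro T hT
    rcases Nat.lt_or_ge T.card 1 with h | h
    · have hT0 : T = ∅ := Finset.card_eq_zero.mp (by omega)
      subst hT0
      have h1 : ∀ v : V, X2 (insert v ∅) = δ := fun v => hX1 v
      simp only [h1, hX0, Finset.sum_const, Finset.card_univ, nsmul_eq_mul]
      ring
    · obtain ⟨t, rfl⟩ := Finset.card_eq_one.mp (show T.card = 1 by omega)
      have h1 : ∀ v : V, X2 (insert v {t}) = δ ^ 2 + C' t v := fun v => by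
        rw [hC.1 t v]
        exact hXuv v t
      simp only [h1, hX1, Finset.sum_add_distrib, hr t, Finset.sum_const, Finset.card_univ,
        nsmul_eq_mul]
      ring
  · intro c₀ a
    have h1 := hC.2 a
    have h2 : ∑ u, ∑ v, a u * a v * X2 {u, v} =
        δ ^ 2 * (∑ v, a v) ^ 2 + ∑ u, ∑ v, a u * a v * C' u v := by
      have h3 : ∀ u v, a u * a v * X2 {u, v} = δ ^ 2 * (a u * a v) + a u * a v * C' u v := by
        intro u v
        rw [hXuv]
        ring
      simp only [h3, Finset.sum_add_distrib, ← Finset.mul_sum]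
      rw [← Finset.sum_mul, sq (∑ v, a v)]
    have h4 : ∑ v, a v * X2 {v} = δ * ∑ v, a v := by
      simp only [hX1]
      rw [← Finset.sum_mul, mul_comm]
    rw [h2, h4]
    have h5 := sq_nonneg (c₀ + δ * ∑ v, a v)
    nlinarith
  · exact hXuv

end Pool.Agent.Lib.MP_8d8c46_lc.Gap
end

section

set_option autoImplicit false

open Finset
open scoped Classical

namespace Pool.Agent.Lib.MP_8d8c46_lc.Gap

open Pool.Agent.Lib.MP_8d8c46_lc Pool.Agent.Lib.MP_8d8c46_lc.SDP Pool.Agent.Lib.MP_8d8c46_lc.EL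

/-- Unfold `law`; `Finset.sum_powerset_insert`. -/
theorem A12_law {V : Type*} [DecidableEq V] (μ : ℝ) {U : Finset V → ℝ} (h0 : U ∅ = 0)
    (h1 : ∀ v, U {v} = 1) :
    law μ U ∅ = 1 ∧ (∀ v, law μ U {v} = 1 - Real.exp (-μ)) ∧
      ∀ u v, u ≠ v → law μ U {u, v} = 1 - 2 * Real.exp (-μ) + Real.exp (-μ * U {u, v}) := by
  have hpair : ∀ u v : V, u ≠ v → ({u, v} : Finset V).powerset = {∅, {v}, {u}, {u, v}} := by
    intro u v huv
    ext S
    simp only [Finset.mem_powerset, Finset.mem_insert, Finset.mem_singleton]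
    constructor
    · intro h
      by_cases hu : u ∈ S
      · by_cases hv : v ∈ S
        · right; right; right
          apply Finset.Subset.antisymm h
          intro x hx
          rcases Finset.mem_insert.1 hx with rfl | hx
          · exact hu
          · rw [Finset.mem_singleton.1 hx]; exact hv
        · right; right; left
          apply Finset.Subset.antisymm
          · intro x hx
            rcases Finset.mem_insert.1 (h hx) with rfl | hx'
            · exact Finset.mem_singleton_self _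
            · rw [Finset.mem_singleton.1 hx'] at hx
              exact absurd hx hv
          · exact Finset.singleton_subset_iff.2 hu
      · by_cases hv : v ∈ S
        · right; left
          apply Finset.Subset.antisymm
          · intro x hx
            rcases Finset.mem_insert.1 (h hx) with rfl | hx'
            · exact absurd hx hu
            · exact hx'
          · exact Finset.singleton_subset_iff.2 hv
        · left
          apply Finset.eq_empty_of_forall_notMem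
          intro x hx
          rcases Finset.mem_insert.1 (h hx) with rfl | hx'
          · exact hu hx
          · rw [Finset.mem_singleton.1 hx'] at hx
            exact hv hx
    · rintro (rfl | rfl | rfl | rfl)
      · exact Finset.empty_subset _
      · exact Finset.singleton_subset_iff.2 (Finset.mem_insert_of_mem (Finset.mem_singleton_self _))
      · exact Finset.singleton_subset_iff.2 (Finset.mem_insert_self _ _)
      · exact Finset.Subset.refl _
  refine ⟨?_, fun v => ?_, fun u v huv => ?_⟩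
  · unfold law
    rw [Finset.powerset_empty, Finset.sum_singleton, h0, Finset.card_empty, pow_zero, mul_zero,
      Real.exp_zero, mul_one]
  · unfold law
    have hp : ({v} : Finset V).powerset = {∅, {v}} := by
      ext S
      rw [Finset.mem_powerset, Finset.subset_singleton_iff, Finset.mem_insert,
        Finset.mem_singleton]
    rw [hp, Finset.sum_pair (Finset.singleton_ne_empty v).symm, h0, h1, Finset.card_empty,
      Finset.card_singleton, pow_zero, pow_one, mul_zero, Real.exp_zero, mul_one, mul_one]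
    ring
  · unfold law
    rw [hpair u v huv, Finset.sum_insert, Finset.sum_insert, Finset.sum_pair, h0, h1, h1,
      Finset.card_empty, Finset.card_singleton, Finset.card_singleton, Finset.card_pair huv]
    · rw [mul_zero, Real.exp_zero, mul_one]
      ring
    · intro h
      have h2 := congrArg Finset.card h
      rw [Finset.card_singleton, Finset.card_pair huv] at h2
      omega
    · rw [Finset.mem_insert, Finset.mem_singleton]
      rintro (h | h)
      · exact huv (Finset.singleton_injective h).symm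
      · have h2 := congrArg Finset.card h
        rw [Finset.card_singleton, Finset.card_pair huv] at h2
        omega
    · rw [Finset.mem_insert, Finset.mem_insert, Finset.mem_singleton]
      rintro (h | h | h)
      · exact Finset.singleton_ne_empty v h.symm
      · exact Finset.singleton_ne_empty u h.symm
      · exact Finset.insert_ne_empty u {v} h.symm

end Pool.Agent.Lib.MP_8d8c46_lc.Gap
end

section

set_option autoImplicit false

open Finset
open scoped Classical

namespace Pool.Agent.Lib.MP_8d8c46_lc.Gap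

open Pool.Agent.Lib.MP_8d8c46_lc Pool.Agent.Lib.MP_8d8c46_lc.SDP Pool.Agent.Lib.MP_8d8c46_lc.EL

/-- The covariance kernel has some slack. Let `μ = -log (1 - δ) ∈ [0, 1]`,
`K u v = exp (μ * o u v) - 1`, which is positive semidefinite (`K5_exp`). On the diagonal
`K u u ≤ exp (μ (1 + ζ)) - 1 ≤ (1 + 2 ζ) / (1 - δ) - 1 = (δ + 2 ζ) / (1 - δ)`
(`exp (μ ζ) ≤ exp ζ ≤ 1 + 2 ζ` for `0 ≤ ζ ≤ 1`, e.g. `Real.exp_bound'` or
convexity), so `(1-κ) (1-δ)^2 K u u ≤ (1-κ) (1-δ) (δ + 2 ζ)` and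
`e u = δ (1-δ) - (1-κ) (1-δ)^2 K u u ≥ κ δ (1-δ) - 2 ζ (1-δ) ≥ κ δ (1-δ) / 2` by `4 ζ ≤ κ δ`.
The form in question is `(1-κ) (1-δ)^2 (form of K) + ∑ u, c u^2 e u`. -/
theorem A13_slack {V : Type*} [Fintype V] [DecidableEq V] {δ κ ζ : ℝ} (hδ0 : 0 < δ)
    (hδ1 : δ ≤ 1 / 2) (hκ0 : 0 < κ) (hκ1 : κ ≤ 1) (hζ0 : 0 ≤ ζ) (hζ1 : 4 * ζ ≤ κ * δ)
    {o : V → V → ℝ} (ho : PSDk o) (hd : ∀ u, o u u ≤ 1 + ζ) (hd0 : ∀ u, 0 ≤ o u u) (c : V → ℝ) :
    κ * δ * (1 - δ) / 2 * ∑ u, c u ^ 2 ≤ ∑ u, ∑ v, c u * c v *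
      (if u = v then δ * (1 - δ) else
        (1 - κ) * (1 - δ) ^ 2 * (Real.exp (-Real.log (1 - δ) * o u v) - 1)) := by
  have hd1 : 0 < 1 - δ := by linarith
  set μ : ℝ := -Real.log (1 - δ) with hμ
  have hlog : Real.log (1 - δ) ≤ 0 := Real.log_nonpos hd1.le (by linarith)
  have hμ0 : 0 ≤ μ := by rw [hμ]; linarith
  have hexpμ : Real.exp μ = 1 / (1 - δ) := by
    rw [hμ, Real.exp_neg, Real.exp_log hd1, one_div]
  have hμ1 : μ ≤ 1 := by
    have h1 : Real.exp μ ≤ 2 := by
      rw [hexpμ, div_le_iff₀ hd1]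
      linarith
    have h2 : μ ≤ Real.log 2 := by
      rw [Real.le_log_iff_exp_le (by norm_num)]
      exact h1
    have h3 := Real.log_two_lt_d9
    linarith
  have hζ8 : ζ ≤ 1 / 8 := by nlinarith
  have hK := K5_exp o ho hμ0
  set K : V → V → ℝ := fun u v => Real.exp (μ * o u v) - 1 with hKd
  have hexpζ : Real.exp ζ ≤ 1 + 2 * ζ := by
    have h1 := Real.add_one_le_exp (-ζ)
    have h2 : Real.exp ζ * Real.exp (-ζ) = 1 := by rw [← Real.exp_add, add_neg_cancel, Real.exp_zero]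
    have h3 : 0 < Real.exp ζ := Real.exp_pos _
    have h4 : Real.exp ζ * (1 - ζ) ≤ 1 := by
      calc Real.exp ζ * (1 - ζ) ≤ Real.exp ζ * Real.exp (-ζ) :=
            mul_le_mul_of_nonneg_left (by linarith) h3.le
        _ = 1 := h2
    have h5 : (1 : ℝ) ≤ (1 + 2 * ζ) * (1 - ζ) := by nlinarith
    have h6 : 0 < 1 - ζ := by linarith
    have h7 : Real.exp ζ * (1 - ζ) ≤ (1 + 2 * ζ) * (1 - ζ) := h4.trans h5
    exact le_of_mul_le_mul_right h7 h6
  have hKu : ∀ u, K u u ≤ (1 + 2 * ζ) / (1 - δ) - 1 := by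
    intro u
    have h1 : Real.exp (μ * o u u) ≤ Real.exp (μ + ζ) := by
      apply Real.exp_le_exp.2
      have h2 : μ * o u u ≤ μ * (1 + ζ) := mul_le_mul_of_nonneg_left (hd u) hμ0
      nlinarith
    have h2 : Real.exp (μ + ζ) ≤ (1 + 2 * ζ) / (1 - δ) := by
      rw [Real.exp_add, hexpμ, div_mul_eq_mul_div, one_mul]
      exact div_le_div_of_nonneg_right hexpζ hd1.le
    simp only [hKd]
    linarith
  have hKu0 : ∀ u, 0 ≤ K u u := by
    intro u
    have h1 := Real.add_one_le_exp (μ * o u u)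
    have h2 : 0 ≤ μ * o u u := mul_nonneg hμ0 (hd0 u)
    simp only [hKd]
    linarith
  have he : ∀ u, κ * δ * (1 - δ) / 2 ≤ δ * (1 - δ) - (1 - κ) * (1 - δ) ^ 2 * K u u := by
    intro u
    have h1 : (1 - δ) ^ 2 * K u u ≤ (1 - δ) * (δ + 2 * ζ) := by
      have h2 : (1 - δ) ^ 2 * K u u ≤ (1 - δ) ^ 2 * ((1 + 2 * ζ) / (1 - δ) - 1) :=
        mul_le_mul_of_nonneg_left (hKu u) (sq_nonneg _)
      have h3 : (1 - δ) ^ 2 * ((1 + 2 * ζ) / (1 - δ) - 1) = (1 - δ) * (δ + 2 * ζ) := by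
        field_simp
        ring
      linarith
    have h4 : (1 - κ) * ((1 - δ) ^ 2 * K u u) ≤ (1 - κ) * ((1 - δ) * (δ + 2 * ζ)) :=
      mul_le_mul_of_nonneg_left h1 (by linarith)
    have h5 : (1 - κ) * ((1 - δ) * (δ + 2 * ζ)) ≤ δ * (1 - δ) - κ * δ * (1 - δ) / 2 := by
      have h6 : (1 - κ) * (2 * ζ) ≤ κ * δ / 2 := by nlinarith
      have h7 : (1 - κ) * ((1 - δ) * (δ + 2 * ζ)) =
          (1 - δ) * ((1 - κ) * δ + (1 - κ) * (2 * ζ)) := by ring
      have h8 : δ * (1 - δ) - κ * δ * (1 - δ) / 2 = (1 - δ) * ((1 - κ) * δ + κ * δ / 2) := by ring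
      rw [h7, h8]
      exact mul_le_mul_of_nonneg_left (by linarith) hd1.le
    nlinarith
  have hform : ∑ u, ∑ v, c u * c v *
      (if u = v then δ * (1 - δ) else (1 - κ) * (1 - δ) ^ 2 * (Real.exp (μ * o u v) - 1)) =
      (1 - κ) * (1 - δ) ^ 2 * ∑ u, ∑ v, c u * c v * K u v +
        ∑ u, c u ^ 2 * (δ * (1 - δ) - (1 - κ) * (1 - δ) ^ 2 * K u u) := by
    rw [Finset.mul_sum, ← Finset.sum_add_distrib]
    refine Finset.sum_congr rfl fun u _ => ?_
    have h1 : ∀ v, c u * c v *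
        (if u = v then δ * (1 - δ) else (1 - κ) * (1 - δ) ^ 2 * (Real.exp (μ * o u v) - 1)) =
        (1 - κ) * (1 - δ) ^ 2 * (c u * c v * K u v) +
          (if u = v then c u ^ 2 * (δ * (1 - δ) - (1 - κ) * (1 - δ) ^ 2 * K u u) else 0) := by
      intro v
      by_cases h : u = v
      · subst h
        rw [if_pos rfl, if_pos rfl]
        ring
      · rw [if_neg h, if_neg h]
        simp only [hKd]
        ring
    rw [Finset.sum_congr rfl fun v _ => h1 v, Finset.sum_add_distrib, ← Finset.mul_sum,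
      Finset.sum_ite_eq univ u, if_pos (Finset.mem_univ u)]
  rw [hform, Finset.mul_sum]
  have h1 : 0 ≤ (1 - κ) * (1 - δ) ^ 2 * ∑ u, ∑ v, c u * c v * K u v :=
    mul_nonneg (mul_nonneg (by linarith) (sq_nonneg _)) (hK.2 c)
  have h2 : ∑ u, κ * δ * (1 - δ) / 2 * c u ^ 2 ≤
      ∑ u, c u ^ 2 * (δ * (1 - δ) - (1 - κ) * (1 - δ) ^ 2 * K u u) := by
    refine Finset.sum_le_sum fun u _ => ?_
    rw [mul_comm]
    exact mul_le_mul_of_nonneg_left (he u) (sq_nonneg _)
  linarith

end Pool.Agent.Lib.MP_8d8c46_lc.Gap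
end

section

set_option autoImplicit false

open Finset
open scoped Classical

namespace Pool.Agent.Lib.MP_8d8c46_lc.Gap

open Pool.Agent.Lib.MP_8d8c46_lc Pool.Agent.Lib.MP_8d8c46_lc.SDP Pool.Agent.Lib.MP_8d8c46_lc.EL

/-- Row sums. `0 ≤ o u v ≤ (o u u + o v v) / 2 ≤ 1 + ζ ≤ 2` (positive semidefinite, test with
`e_u - e_v`), `μ = -log (1 - δ) ∈ [0, 1]` and `exp (μ x) - 1 ≤ x exp x ≤ 8 x` for `0 ≤ x ≤ 2`
(`exp 2 < 7.4`); so the row sum is between `0` and `δ (1 - δ) + 8 ∑ v, o u v ≤ 1 + 8 ζ N ≤ 9 ζ N`. -/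
theorem A14_rows {V : Type*} [Fintype V] [DecidableEq V] {δ κ ζ : ℝ} (hδ0 : 0 < δ)
    (hδ1 : δ ≤ 1 / 2) (hκ0 : 0 < κ) (hκ1 : κ ≤ 1) (hζ0 : 0 ≤ ζ) (hζ1 : ζ ≤ 1)
    {o : V → V → ℝ} (ho : PSDk o) (hd : ∀ u, o u u ≤ 1 + ζ) (ho0 : ∀ u v, 0 ≤ o u v)
    (hr : ∀ u, ∑ v, o u v ≤ ζ * Fintype.card V) (hN : 1 ≤ ζ * Fintype.card V) (u : V) :
    0 ≤ ∑ v, (if u = v then δ * (1 - δ) else
        (1 - κ) * (1 - δ) ^ 2 * (Real.exp (-Real.log (1 - δ) * o u v) - 1)) ∧
    ∑ v, (if u = v then δ * (1 - δ) else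
        (1 - κ) * (1 - δ) ^ 2 * (Real.exp (-Real.log (1 - δ) * o u v) - 1)) ≤
      9 * ζ * Fintype.card V := by
  have hpos : 0 < 1 - δ := by linarith
  obtain ⟨μ, hμ⟩ : ∃ μ, μ = -Real.log (1 - δ) := ⟨_, rfl⟩
  have hμ0 : 0 ≤ μ := by
    rw [hμ]
    have := Real.log_nonpos hpos.le (by linarith : 1 - δ ≤ 1)
    linarith
  have hμ1 : μ ≤ 1 := by
    rw [hμ]
    have h1 : Real.log (1 / 2) ≤ Real.log (1 - δ) :=
      Real.log_le_log (by norm_num) (by linarith)
    have h2 : Real.log (1 / 2 : ℝ) = - Real.log 2 := by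
      rw [one_div, Real.log_inv]
    have h3 := Real.log_two_lt_d9
    linarith
  have hdiag : ∀ v, o u v ≤ 2 := by
    intro v
    by_cases huv : u = v
    · subst huv
      linarith [hd u]
    · have h1 := ho.2 (fun w => if w = u then 1 else if w = v then -1 else 0)
      have hin : ∀ w, (∑ w', (if w = u then (1:ℝ) else if w = v then -1 else 0) *
          (if w' = u then (1:ℝ) else if w' = v then -1 else 0) * o w w') =
          (if w = u then (1:ℝ) else if w = v then -1 else 0) * (o w u - o w v) := by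
        intro w
        have hs : ∀ w', (if w = u then (1:ℝ) else if w = v then -1 else 0) *
          (if w' = u then (1:ℝ) else if w' = v then -1 else 0) * o w w' =
          (if w' = u then (if w = u then (1:ℝ) else if w = v then -1 else 0) * o w w' else 0) +
          (if w' = v then -((if w = u then (1:ℝ) else if w = v then -1 else 0) * o w w') else 0) := by
          intro w'
          by_cases g1 : w' = u
          · subst g1
            rw [if_pos rfl, if_pos rfl, if_neg huv]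
            ring
          · by_cases g2 : w' = v
            · subst g2
              rw [if_neg g1, if_pos rfl, if_neg g1, if_pos rfl]
              ring
            · rw [if_neg g1, if_neg g2, if_neg g1, if_neg g2]
              ring
        rw [sum_congr rfl (fun w' _ => hs w'), sum_add_distrib, sum_ite_eq' univ u,
          sum_ite_eq' univ v, if_pos (mem_univ _), if_pos (mem_univ _)]
        ring
      have hout : (∑ w, (if w = u then (1:ℝ) else if w = v then -1 else 0) * (o w u - o w v)) =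
          (o u u - o u v) - (o v u - o v v) := by
        have hs : ∀ w, (if w = u then (1:ℝ) else if w = v then -1 else 0) * (o w u - o w v) =
          (if w = u then (o w u - o w v) else 0) +
          (if w = v then -(o w u - o w v) else 0) := by
          intro w'
          by_cases g1 : w' = u
          · subst g1
            rw [if_pos rfl, if_pos rfl, if_neg huv]
            ring
          · by_cases g2 : w' = v
            · subst g2
              rw [if_neg g1, if_pos rfl, if_neg g1, if_pos rfl]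
              ring
            · rw [if_neg g1, if_neg g2, if_neg g1, if_neg g2]
              ring
        rw [sum_congr rfl (fun w' _ => hs w'), sum_add_distrib, sum_ite_eq' univ u,
          sum_ite_eq' univ v, if_pos (mem_univ _), if_pos (mem_univ _)]
        ring
      rw [sum_congr rfl (fun w _ => hin w), hout] at h1
      have h2 := ho.1 u v
      have h3 := hd u
      have h4 := hd v
      linarith
  have hexp2 : Real.exp 2 ≤ 8 := by
    have h1 := Real.exp_one_lt_d9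
    have h2 : Real.exp 2 = Real.exp 1 * Real.exp 1 := by
      rw [← Real.exp_add]; norm_num
    rw [h2]
    have h3 := Real.exp_pos 1
    nlinarith [h1, h3]
  have hF : ∀ v, 0 ≤ Real.exp (μ * o u v) - 1 ∧ Real.exp (μ * o u v) - 1 ≤ 8 * o u v := by
    intro v
    have hx0 := ho0 u v
    have hx2 := hdiag v
    obtain ⟨x, hx⟩ : ∃ x, x = o u v := ⟨_, rfl⟩
    rw [← hx] at hx0 hx2 ⊢
    constructor
    · have := Real.one_le_exp (mul_nonneg hμ0 hx0)
      linarith
    · have h1 : Real.exp (μ * x) ≤ Real.exp x := by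
        apply Real.exp_le_exp.mpr
        have := mul_le_mul_of_nonneg_right hμ1 hx0
        linarith
      have h2 : Real.exp x ≤ Real.exp 2 := Real.exp_le_exp.mpr hx2
      have h3 : 1 - x ≤ Real.exp (-x) := by linarith [Real.add_one_le_exp (-x)]
      have h4 : (1 - x) * Real.exp x ≤ Real.exp (-x) * Real.exp x :=
        mul_le_mul_of_nonneg_right h3 (Real.exp_pos x).le
      have h5 : Real.exp (-x) * Real.exp x = 1 := by
        rw [← Real.exp_add]; simp
      have h6 : x * Real.exp x ≤ x * 8 := mul_le_mul_of_nonneg_left (by linarith) hx0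
      nlinarith [h1, h4, h5, h6]
  have hq0 : 0 ≤ (1 - κ) * (1 - δ) ^ 2 := mul_nonneg (by linarith) (by positivity)
  have hq1 : (1 - κ) * (1 - δ) ^ 2 ≤ 1 := by
    have h1 : (1 - δ) ^ 2 ≤ 1 := pow_le_one₀ hpos.le (by linarith)
    have h2 : 0 ≤ (1 - δ) ^ 2 := by positivity
    nlinarith [h1, h2, mul_nonneg hκ0.le h2]
  rw [← hμ]
  have hd0 : 0 ≤ δ * (1 - δ) := mul_nonneg hδ0.le hpos.le
  have hd1 : δ * (1 - δ) ≤ 1 := by nlinarith [hδ0, hpos, hd0]
  constructor
  · apply sum_nonneg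
    intro v _
    split_ifs with h
    · exact hd0
    · exact mul_nonneg hq0 (hF v).1
  · have hle : ∀ v, (if u = v then δ * (1 - δ) else
        (1 - κ) * (1 - δ) ^ 2 * (Real.exp (μ * o u v) - 1)) ≤
        (if u = v then (1:ℝ) else 0) + 8 * o u v := by
      intro v
      split_ifs with h
      · have := ho0 u v
        linarith
      · have h1 := hF v
        have h2 := mul_le_mul_of_nonneg_right hq1 h1.1
        linarith [h1.2]
    have h9 : ∑ v, ((if u = v then (1:ℝ) else 0) + 8 * o u v) = 1 + 8 * ∑ v, o u v := by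
      rw [sum_add_distrib, sum_ite_eq univ u, if_pos (mem_univ _), mul_sum]
    have h10 := sum_le_sum (s := univ) (fun v _ => hle v)
    rw [h9] at h10
    have h11 := hr u
    linarith

end Pool.Agent.Lib.MP_8d8c46_lc.Gap
end

section

set_option autoImplicit false

open Finset
open scoped Classical

namespace Pool.Agent.Lib.MP_8d8c46_lc.Gap

open Pool.Agent.Lib.MP_8d8c46_lc Pool.Agent.Lib.MP_8d8c46_lc.SDP Pool.Agent.Lib.MP_8d8c46_lc.EL

private theorem K03_psd {V : Type} [Fintype V] {D : ℕ} (π : V → Cube D) :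
    PSDk (fun u v : V => cor (π u) (π v) ^ 2) := by
  have hsq : ∀ x y : Cube D, cor x y ^ 2
      = ∑ i, ∑ j, (sg (x i) * sg (x j)) * (sg (y i) * sg (y j)) / (D : ℝ) ^ 2 := by
    intro x y
    unfold cor
    rw [div_pow, pow_two (∑ i, sg (x i + y i)), sum_mul_sum, sum_div]
    refine sum_congr rfl fun i _ => ?_
    rw [sum_div]
    refine sum_congr rfl fun j _ => ?_
    rw [sg_add, sg_add]
    ring
  refine ⟨fun u v => ?_, fun c => ?_⟩
  · change cor (π u) (π v) ^ 2 = cor (π v) (π u) ^ 2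
    unfold cor
    simp_rw [add_comm (π u _) (π v _)]
  · have h1 : ∀ u v : V, c u * c v * cor (π u) (π v) ^ 2
        = ∑ i, ∑ j, (c u * (sg (π u i) * sg (π u j))) * (c v * (sg (π v i) * sg (π v j)))
          / (D : ℝ) ^ 2 := by
      intro u v
      rw [hsq, mul_sum]
      refine sum_congr rfl fun i _ => ?_
      rw [mul_sum]
      refine sum_congr rfl fun j _ => ?_
      ring
    have h2 : ∑ u : V, ∑ v : V, c u * c v * cor (π u) (π v) ^ 2
        = ∑ i, ∑ j, (∑ u : V, c u * (sg (π u i) * sg (π u j))) ^ 2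
          / (D : ℝ) ^ 2 := by
      simp_rw [h1]
      calc ∑ u : V, ∑ v : V, ∑ i, ∑ j,
            (c u * (sg (π u i) * sg (π u j))) * (c v * (sg (π v i) * sg (π v j))) / (D : ℝ) ^ 2
          = ∑ u : V, ∑ i, ∑ v : V, ∑ j,
            (c u * (sg (π u i) * sg (π u j))) * (c v * (sg (π v i) * sg (π v j))) / (D : ℝ) ^ 2 :=
            sum_congr rfl fun u _ => sum_comm
        _ = ∑ i, ∑ u : V, ∑ v : V, ∑ j,
            (c u * (sg (π u i) * sg (π u j))) * (c v * (sg (π v i) * sg (π v j))) / (D : ℝ) ^ 2 :=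
            sum_comm
        _ = ∑ i, ∑ u : V, ∑ j, ∑ v : V,
            (c u * (sg (π u i) * sg (π u j))) * (c v * (sg (π v i) * sg (π v j))) / (D : ℝ) ^ 2 :=
            sum_congr rfl fun i _ => sum_congr rfl fun u _ => sum_comm
        _ = ∑ i, ∑ j, ∑ u : V, ∑ v : V,
            (c u * (sg (π u i) * sg (π u j))) * (c v * (sg (π v i) * sg (π v j))) / (D : ℝ) ^ 2 :=
            sum_congr rfl fun i _ => sum_comm
        _ = _ := by
            refine sum_congr rfl fun i _ => sum_congr rfl fun j _ => ?_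
            rw [pow_two (∑ u : V, c u * (sg (π u i) * sg (π u j))), sum_mul_sum,
              sum_div]
            exact sum_congr rfl fun u _ => by rw [sum_div]
    change 0 ≤ ∑ u : V, ∑ v : V, c u * c v * cor (π u) (π v) ^ 2
    rw [h2]
    exact sum_nonneg fun i _ => sum_nonneg fun j _ => by positivity

/-- `cor (pos p) (pos q) = (∑ i, sg (pos p i) * sg (pos q i)) / D`, so
`∑∑ c p c q cor^2 = D⁻² ∑ i, ∑ j, (∑ p, c p sg (pos p i) sg (pos p j))^2` (as in `E2_psd`,
`SDP/CubeK.lean`); then `K3_pow`. The rest from `E1_cor`. -/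
theorem K03_gram {R D b : ℕ} [NeZero b] {Y : Type} [Fintype Y] (hD : 1 ≤ D) (s : ℕ) :
    PSDk (gram s : (Tup R D b × Y) × Fin R → (Tup R D b × Y) × Fin R → ℝ) ∧
      (∀ p : (Tup R D b × Y) × Fin R, gram s p p = 1) ∧
      (∀ p q : (Tup R D b × Y) × Fin R, 0 ≤ gram s p q) ∧
      (∀ p q : (Tup R D b × Y) × Fin R, gram s p q ≤ 1) ∧
      ∀ p q : (Tup R D b × Y) × Fin R, gram s p q = gram s q p := by
  refine ⟨?_, fun p => ?_, fun p q => ?_, fun p q => ?_, fun p q => ?_⟩
  · exact K3_pow _ (K03_psd (V := (Tup R D b × Y) × Fin R) pos) s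
  · unfold gram
    rw [(E1_cor hD (pos p) (pos p)).2.1, one_pow, one_pow]
  · unfold gram
    positivity
  · unfold gram
    refine pow_le_one₀ (sq_nonneg _) ?_
    rw [sq_le_one_iff_abs_le_one]
    exact (E1_cor hD (pos p) (pos q)).2.2.1
  · unfold gram
    rw [(E1_cor hD (pos p) (pos q)).2.2.2.2]

end Pool.Agent.Lib.MP_8d8c46_lc.Gap
end

section

set_option autoImplicit false

open Finset
open scoped Classical

namespace Pool.Agent.Lib.MP_8d8c46_lc.Gap

open Pool.Agent.Lib.MP_8d8c46_lc Pool.Agent.Lib.MP_8d8c46_lc.SDP Pool.Agent.Lib.MP_8d8c46_lc.EL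

/-- Sum of the kernel over the points of the vertices, with weights. -/
private theorem K06_push {V : Type*} [Fintype V] {R : ℕ} (L : V × Fin R → V × Fin R → ℝ)
    (hL : PSDk L) (g : V × Fin R → ℝ) (c : V → ℝ) :
    0 ≤ ∑ u, ∑ v, c u * c v * ∑ i, ∑ j, g (u, i) * g (v, j) * L (u, i) (v, j) := by
  have h := hL.2 (fun p => c p.1 * g p)
  have h2 : ∑ p : V × Fin R, ∑ q : V × Fin R, c p.1 * g p * (c q.1 * g q) * L p q
      = ∑ u, ∑ v, c u * c v * ∑ i, ∑ j, g (u, i) * g (v, j) * L (u, i) (v, j) := by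
    rw [Fintype.sum_prod_type]
    refine sum_congr rfl fun u _ => ?_
    have h3 : ∀ i : Fin R, ∑ q : V × Fin R, c u * g (u, i) * (c q.1 * g q) * L (u, i) q
        = ∑ v, ∑ j, c u * g (u, i) * (c v * g (v, j)) * L (u, i) (v, j) := fun i =>
      Fintype.sum_prod_type _
    have h4 : ∑ i : Fin R, ∑ q : V × Fin R, c u * g (u, i) * (c q.1 * g q) * L (u, i) q
        = ∑ i : Fin R, ∑ v, ∑ j, c u * g (u, i) * (c v * g (v, j)) * L (u, i) (v, j) :=
      sum_congr rfl fun i _ => h3 i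
    rw [h4, sum_comm]
    refine sum_congr rfl fun v _ => ?_
    rw [mul_sum]
    refine sum_congr rfl fun i _ => ?_
    rw [mul_sum]
    exact sum_congr rfl fun j _ => by ring
  rw [← h2]
  exact h

/-- For fixed `t` let `g p = 1` if the tuple of `p` is good and `p` is active at time `t`, and `0`
otherwise. Then `oT u.1 v.1 = (1 / (R a)) ∑ t, ∑ i, ∑ j, g (u, i) g (v, j) lensP m (gram s (u,i) (v,j))`,
and `∑ u, ∑ v, c u c v oT u.1 v.1 = (1 / (R a)) ∑ t, ∑ p, ∑ q, (c p.1 g p) (c q.1 g q) L p q` with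
`L p q = lensP m (gram s p q)`, which is positive semidefinite by `L5_series` and `K4_series`
(`0 ≤ gram ≤ 1`). Symmetry and nonnegativity (`L2_close`) are clear. -/
theorem K06_psd {R D b : ℕ} [NeZero b] {Y : Type} [Fintype Y] (hD : 1 ≤ D) (γ : ℝ) (s m a : ℕ) :
    PSDk (fun u v : Tup R D b × Y => oT γ s m a u.1 v.1) ∧
      ∀ ω ω' : Tup R D b, 0 ≤ oT γ s m a ω ω' := by
  obtain ⟨hg1, -, hg3, hg4, -⟩ := K03_gram (R := R) (D := D) (b := b) (Y := Y) hD s
  obtain ⟨-, -, hu3, hu4, hu5⟩ := K03_gram (R := R) (D := D) (b := b) (Y := Unit) hD s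
  obtain ⟨cf, hcf, -, hser⟩ := L5_series m
  have hL : PSDk (fun p q : (Tup R D b × Y) × Fin R => lensP m (gram s p q)) :=
    K4_series (gram s) _ hg1 cf hcf fun p q => hser _ (hg3 p q) (hg4 p q)
  have hRa : (0 : ℝ) ≤ (R : ℝ) * a := by positivity
  have hcs : ∀ x y : Cube D, 0 ≤ (cor x y ^ 2) ^ s := fun x y => by positivity
  -- nonnegativity
  have hpair : ∀ (ω ω' : Tup R D b) (i j : Fin R), 0 ≤ lensP m ((cor (ω i).1 (ω' j).1 ^ 2) ^ s) := by
    intro ω ω' i j
    exact (L2_close m).2 _ (hcs _ _) (hu4 ((ω, ()), i) ((ω', ()), j)) |>.1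
  have hpos : ∀ ω ω' : Tup R D b, 0 ≤ oT γ s m a ω ω' := by
    intro ω ω'
    unfold oT
    split_ifs
    · refine div_nonneg (sum_nonneg fun t _ => sum_nonneg fun i _ => sum_nonneg fun j _ => ?_) hRa
      split_ifs
      · exact hpair ω ω' i j
      · exact le_refl _
    · exact le_refl _
  have hsymm : ∀ ω ω' : Tup R D b, oT γ s m a ω ω' = oT γ s m a ω' ω := by
    intro ω ω'
    have hc : ∀ i j : Fin R, (cor (ω i).1 (ω' j).1 ^ 2) ^ s = (cor (ω' j).1 (ω i).1 ^ 2) ^ s :=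
      fun i j => hu5 ((ω, ()), i) ((ω', ()), j)
    unfold oT
    by_cases h : good γ ω ∧ good γ ω'
    · rw [if_pos h, if_pos ⟨h.2, h.1⟩]
      congr 1
      refine sum_congr rfl fun t _ => ?_
      rw [sum_comm]
      refine sum_congr rfl fun j _ => sum_congr rfl fun i _ => ?_
      rw [hc i j]
      by_cases h2 : (t - (ω i).2).val < a ∧ (t - (ω' j).2).val < a
      · rw [if_pos h2, if_pos ⟨h2.2, h2.1⟩]
      · rw [if_neg h2, if_neg fun h3 => h2 ⟨h3.2, h3.1⟩]
    · rw [if_neg h, if_neg fun h3 => h ⟨h3.2, h3.1⟩]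
  refine ⟨⟨fun u v => hsymm u.1 v.1, fun c => ?_⟩, hpos⟩
  -- weights
  have key : ∀ u v : Tup R D b × Y, oT γ s m a u.1 v.1 = (∑ t : ZMod b, ∑ i, ∑ j,
      (if good γ u.1 ∧ (t - (u.1 i).2).val < a then (1 : ℝ) else 0) *
        (if good γ v.1 ∧ (t - (v.1 j).2).val < a then (1 : ℝ) else 0) *
        lensP m (gram s ((u, i) : (Tup R D b × Y) × Fin R) (v, j))) / (R * a) := by
    intro u v
    unfold oT
    by_cases h1 : good γ u.1
    · by_cases h2 : good γ v.1
      · rw [if_pos ⟨h1, h2⟩]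
        congr 1
        refine sum_congr rfl fun t _ => sum_congr rfl fun i _ => sum_congr rfl fun j _ => ?_
        by_cases h3 : (t - (u.1 i).2).val < a
        · by_cases h4 : (t - (v.1 j).2).val < a
          · rw [if_pos ⟨h3, h4⟩, if_pos ⟨h1, h3⟩, if_pos ⟨h2, h4⟩, one_mul, one_mul]
            rfl
          · have e1 : ¬ ((t - (u.1 i).2).val < a ∧ (t - (v.1 j).2).val < a) := fun h => h4 h.2
            have e2 : ¬ (good γ v.1 ∧ (t - (v.1 j).2).val < a) := fun h => h4 h.2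
            rw [if_neg e1, if_neg e2, mul_zero, zero_mul]
        · have e1 : ¬ ((t - (u.1 i).2).val < a ∧ (t - (v.1 j).2).val < a) := fun h => h3 h.1
          have e2 : ¬ (good γ u.1 ∧ (t - (u.1 i).2).val < a) := fun h => h3 h.2
          rw [if_neg e1, if_neg e2, zero_mul, zero_mul]
      · rw [if_neg fun h => h2 h.2]
        symm
        refine div_eq_zero_iff.2 (Or.inl ?_)
        refine sum_eq_zero fun t _ => sum_eq_zero fun i _ => sum_eq_zero fun j _ => ?_
        have h5 : ¬ (good γ v.1 ∧ (t - (v.1 j).2).val < a) := fun h => h2 h.1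
        rw [if_neg h5, mul_zero, zero_mul]
    · rw [if_neg fun h => h1 h.1]
      symm
      refine div_eq_zero_iff.2 (Or.inl ?_)
      refine sum_eq_zero fun t _ => sum_eq_zero fun i _ => sum_eq_zero fun j _ => ?_
      have h5 : ¬ (good γ u.1 ∧ (t - (u.1 i).2).val < a) := fun h => h1 h.1
      rw [if_neg h5, zero_mul, zero_mul]
  have h1 : ∑ u : Tup R D b × Y, ∑ v : Tup R D b × Y, c u * c v * oT γ s m a u.1 v.1
      = (∑ t : ZMod b, ∑ u : Tup R D b × Y, ∑ v : Tup R D b × Y, c u * c v * ∑ i, ∑ j,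
        (if good γ u.1 ∧ (t - (u.1 i).2).val < a then (1 : ℝ) else 0) *
        (if good γ v.1 ∧ (t - (v.1 j).2).val < a then (1 : ℝ) else 0) *
        lensP m (gram s ((u, i) : (Tup R D b × Y) × Fin R) (v, j))) / (R * a) := by
    have e1 : ∀ F : ZMod b → (Tup R D b × Y) → (Tup R D b × Y) → ℝ,
        ∑ t, ∑ u, ∑ v, c u * c v * F t u v = ∑ u, ∑ v, c u * c v * ∑ t, F t u v := by
      intro F
      rw [sum_comm]
      refine sum_congr rfl fun u _ => ?_
      rw [sum_comm]
      exact sum_congr rfl fun v _ => (mul_sum _ _ _).symm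
    rw [e1, sum_div]
    refine sum_congr rfl fun u _ => ?_
    rw [sum_div]
    refine sum_congr rfl fun v _ => ?_
    rw [key u v, mul_div_assoc]
  show 0 ≤ ∑ u : Tup R D b × Y, ∑ v : Tup R D b × Y, c u * c v * oT γ s m a u.1 v.1
  rw [h1]
  refine div_nonneg (sum_nonneg fun t _ => ?_) hRa
  exact K06_push _ hL
    (fun p => if good γ p.1.1 ∧ (t - (p.1.1 p.2).2).val < a then (1 : ℝ) else 0) c

end Pool.Agent.Lib.MP_8d8c46_lc.Gap
end
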