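import Pool.Agent.Lib.MP_8d8c46_lc.Mg.G002
import Pool.Agent.Lib.MP_8d8c46_lc.Mg.G003

section

set_option autoImplicit false

open Finset
open scoped Classical

namespace Pool.Agent.Lib.MP_8d8c46_lc.Gap

open Pool.Agent.Lib.MP_8d8c46_lc Pool.Agent.Lib.MP_8d8c46_lc.SDP Pool.Agent.Lib.MP_8d8c46_lc.EL

/-- With `μ = -log (1 - δ)` and `F x = (1 - δ)^2 (exp (μ x) - 1) + δ^2`. For `0 ≤ x ≤ 1` put
`y = 2 - x ∈ [1, 2]`: `F x = 1 - 2 exp (-μ) + exp (-μ y)`, and `δ (2 - y) ≤ F x` is proved as in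
`C5_close` (`SDP/Law.lean`): `exp (-μ y) = exp (-μ) exp (-(μ (y - 1))) ≥ exp (-μ) (1 - μ (y - 1))` and
`exp (-μ) (1 + μ) ≤ 1`. For `x > 1`: `F` is increasing, so
`F x ≥ F 1 ≥ δ ≥ δ (x - ζ)`. (In both cases `δ (x - ζ) ≤ F x`.) -/
theorem A15_pair {δ ζ x : ℝ} (hδ0 : 0 < δ) (hδ1 : δ ≤ 1 / 2) (hζ0 : 0 ≤ ζ) (hx0 : 0 ≤ x)
    (hx1 : x ≤ 1 + ζ) :
    δ * (x - ζ) ≤ (1 - δ) ^ 2 * (Real.exp (-Real.log (1 - δ) * x) - 1) + δ ^ 2 := by
  have hpos : 0 < 1 - δ := by linarith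
  obtain ⟨μ, hμ⟩ : ∃ μ, μ = -Real.log (1 - δ) := ⟨_, rfl⟩
  have hE : Real.exp (-μ) = 1 - δ := by
    rw [hμ, neg_neg, Real.exp_log hpos]
  have hμ0 : 0 ≤ μ := by
    rw [hμ]
    have := Real.log_nonpos hpos.le (by linarith : 1 - δ ≤ 1)
    linarith
  have hE1 : (1 - δ) * (1 + μ) ≤ 1 := by
    have h2 : 1 + μ ≤ Real.exp μ := by linarith [Real.add_one_le_exp μ]
    calc (1 - δ) * (1 + μ) ≤ (1 - δ) * Real.exp μ :=
          mul_le_mul_of_nonneg_left h2 hpos.le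
      _ = 1 := by rw [← hE, ← Real.exp_add]; simp
  rw [← hμ]
  have hsplit : (1 - δ) * Real.exp (μ * x) = Real.exp (-(μ * (1 - x))) := by
    rw [← hE, ← Real.exp_add]; congr 1; ring
  have hF : (1 - δ) ^ 2 * (Real.exp (μ * x) - 1) + δ ^ 2 =
      (1 - δ) * Real.exp (-(μ * (1 - x))) - (1 - 2 * δ) := by
    rw [← hsplit]; ring
  rw [hF]
  rcases le_total x 1 with hx | hx
  · have h3 : 1 - μ * (1 - x) ≤ Real.exp (-(μ * (1 - x))) := by
      linarith [Real.add_one_le_exp (-(μ * (1 - x)))]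
    have h4 : (1 - δ) * (1 - μ * (1 - x)) ≤ (1 - δ) * Real.exp (-(μ * (1 - x))) :=
      mul_le_mul_of_nonneg_left h3 hpos.le
    have h5 : 0 ≤ (1 - x) * (1 - (1 - δ) * (1 + μ)) :=
      mul_nonneg (by linarith) (by linarith)
    have h6 : 0 ≤ δ * ζ := mul_nonneg hδ0.le hζ0
    nlinarith [h4, h5, h6]
  · have h3 : 1 ≤ Real.exp (-(μ * (1 - x))) := by
      apply Real.one_le_exp
      have : 0 ≤ μ * (x - 1) := mul_nonneg hμ0 (by linarith)
      nlinarith [this]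
    have h4 : (1 - δ) * 1 ≤ (1 - δ) * Real.exp (-(μ * (1 - x))) :=
      mul_le_mul_of_nonneg_left h3 hpos.le
    have h5 : 0 ≤ δ * (1 - (x - ζ)) := mul_nonneg hδ0.le (by linarith)
    nlinarith [h4, h5]

end Pool.Agent.Lib.MP_8d8c46_lc.Gap
end

section

set_option autoImplicit false

open Finset
open scoped Classical

namespace Pool.Agent.Lib.MP_8d8c46_lc.Gap

open Pool.Agent.Lib.MP_8d8c46_lc Pool.Agent.Lib.MP_8d8c46_lc.SDP Pool.Agent.Lib.MP_8d8c46_lc.EL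

private theorem A16_two {V : Type} [Fintype V] [DecidableEq V] {o : V → V → ℝ} (ho : PSDk o)
    (u v : V) : 2 * o u v ≤ o u u + o v v := by
  have h := ho.2 (fun w => (if w = u then 1 else 0) - (if w = v then 1 else 0))
  simp only [sub_mul, mul_sub, Finset.sum_sub_distrib, ite_mul, mul_ite, one_mul, zero_mul, mul_one,
    mul_zero, Finset.sum_ite_eq', Finset.mem_univ, if_true] at h
  have h2 := ho.1 u v
  linarith

private theorem A16_par {k : ℕ} (hk : 2 ≤ k) {δ κ K ζ : ℝ} (hδ0 : 0 < δ) (hδ1 : δ ≤ 1 / 2)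
    (hκ0 : 0 < κ) (hκ1 : κ ≤ 1) (hK : 1 ≤ K) (hζ : ζ = κ * δ ^ k / (1000 * k * 2 ^ k * K)) :
    0 < ζ ∧ 8000 * ζ ≤ κ * δ ∧ k * (2 ^ k * (3 * ζ)) ≤ κ / 2 ∧
      2 ^ k * (100 * K * ζ) + 2 ^ k * (3 * ζ) ≤ κ * δ ^ k ∧ 2 * (k : ℝ) + 1 ≤ 1 / ζ ∧
        4 ≤ 1 / ζ := by
  have hkR : (2 : ℝ) ≤ k := by exact_mod_cast hk
  have hk0 : (0 : ℝ) < k := by linarith
  have ha : (4 : ℝ) ≤ 2 ^ k := by
    calc (4 : ℝ) = 2 ^ 2 := by norm_num
      _ ≤ 2 ^ k := pow_le_pow_right₀ (by norm_num) hk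
  have hK0 : 0 < K := by linarith
  have hden : (0 : ℝ) < 1000 * k * 2 ^ k * K := by positivity
  have hζ0 : 0 < ζ := by
    rw [hζ]
    positivity
  have heq : 1000 * k * 2 ^ k * K * ζ = κ * δ ^ k := by
    rw [hζ]
    field_simp
  have hδk : δ ^ k ≤ δ := by
    calc δ ^ k ≤ δ ^ 1 := pow_le_pow_of_le_one hδ0.le (by linarith) (by omega)
      _ = δ := pow_one δ
  have hp : κ * δ ^ k ≤ κ * δ := mul_le_mul_of_nonneg_left hδk hκ0.le
  have hp1 : κ * δ ≤ κ := by nlinarith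
  obtain ⟨a, hadef⟩ : ∃ a : ℝ, a = 2 ^ k := ⟨_, rfl⟩
  rw [← hadef] at heq ha ⊢
  have ha0 : 0 < a := by linarith
  have hkaK : 8 ≤ k * a * K := by
    have h1 : 8 ≤ (k : ℝ) * a := by nlinarith
    nlinarith
  have h1 : 8000 * ζ ≤ κ * δ := by
    have h2 : 8000 * ζ ≤ 1000 * (k * a * K) * ζ := by nlinarith
    calc 8000 * ζ ≤ 1000 * (k * a * K) * ζ := h2
      _ = 1000 * k * a * K * ζ := by ring
      _ = κ * δ ^ k := heq
      _ ≤ κ * δ := hp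
  have h3 : 1000 * (k * a * ζ) ≤ κ := by
    have h4 : 1000 * (k * a * ζ) * 1 ≤ 1000 * (k * a * ζ) * K :=
      mul_le_mul_of_nonneg_left hK (by positivity)
    have h5 : 1000 * (k * a * ζ) * K = κ * δ ^ k := by
      rw [← heq]
      ring
    linarith
  have h6 : 2000 * (a * K * ζ) ≤ κ * δ ^ k := by
    have h7 : 2000 * (a * K * ζ) ≤ k * (1000 * (a * K * ζ)) := by
      have : 0 ≤ 1000 * (a * K * ζ) := by positivity
      nlinarith
    calc 2000 * (a * K * ζ) ≤ k * (1000 * (a * K * ζ)) := h7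
      _ = κ * δ ^ k := by
        rw [← heq]
        ring
  have h8 : a * ζ ≤ a * K * ζ := by
    have : 0 ≤ a * ζ := by positivity
    nlinarith
  have h9 : 1000 * k * ζ ≤ 1 := by
    have h10 : 1000 * (k * ζ) ≤ 1000 * (k * a * ζ) := by
      have : 0 ≤ k * ζ := by positivity
      nlinarith
    linarith
  refine ⟨hζ0, h1, by linarith, by nlinarith, ?_, ?_⟩
  · rw [le_div_iff₀ hζ0]
    nlinarith
  · rw [le_div_iff₀ hζ0]
    nlinarith

/-- The abstract theorem. Let `K ≥ 1` be the constant of `A2_chain k hk`, and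
`ζ₀ = κ δ^k / (1000 * k * 2^k * K)`; so `ζ₀ ≤ 1/1000`, `4 ζ₀ ≤ κ δ`, `k * (2^k * (3 ζ₀)) ≤ κ/2`,
`27 * (9 ζ₀) ≤ κ δ (1-δ) / 2`, `|V| ≥ 1/ζ₀ ≥ 2 k + 1`. Let
`C u v = if u = v then δ (1-δ) else (1-κ) (1-δ)^2 (exp (μ * o u v) - 1)`, `μ = -log (1-δ)`.
`A13_slack`, `A14_rows` and `A10_base` (with `lam = κ δ (1-δ) / 2`, `τ = 9 ζ₀`, `c₀ = δ (1-δ)`) give `C'`
with `|C' - C| ≤ 81 ζ₀`; `A11_X2` gives `X2`. For `u ≠ v` (`A12_law`, `exp (-μ) = 1 - δ`)
`X0 {u, v} = (1-κ) (1 - 2 (1-δ) + exp (-μ U {u,v})) + κ δ^2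
= δ^2 + (1-κ) (exp (-μ U {u,v}) - (1-δ)^2)`, and `exp (-μ (2 - o u v)) = (1-δ)^2 exp (μ * o u v)`;
so by `A01_exp` (`U {u,v}` and `2 - o u v` are `≥ -1`)
`|X2 {u,v} - X0 {u,v}| ≤ 81 ζ₀ + 3 ζ₀`; for `|T| ≤ 1` the two functions agree; so `|X2 T - X0 T| ≤ 84 ζ₀` for
`|T| ≤ 2`. `A05_X0_le` and `A06_far` give the hypotheses of `A2_chain` with `ρ = 2 ζ₀`, `E = 84 ζ₀`,
and so `X` with `|X T - X0 T| ≤ K (84 + 2 + 1) ζ₀ ≤ 100 K ζ₀` for `|T| ≤ k`.
`A07_stable` with `L = law μ U`, `e = 100 K ζ₀`, `e₁ = 2^k (3 ζ₀)` (`A03_law`) gives the positivity;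
`BasicSDP X` from `BasicSDP X2` by `A6_basic_congr`. Finally
`X {u,v} = δ^2 + C' u v ≥ δ^2 + C u v - 81 ζ₀ ≥ (1-κ) ((1-δ)^2 (exp (μ * o) - 1) + δ^2) - 81 ζ₀
≥ (1-κ) δ (o - ζ₀) - 81 ζ₀ ≥ δ (o - 2 κ)` for `u ≠ v` (`A15_pair`, `o ≤ 1 + ζ₀` as in `A14_rows`). -/
theorem A16_abstract (k : ℕ) (hk : 2 ≤ k) (δ κ : ℝ) (hδ0 : 0 < δ) (hδ1 : δ ≤ 1 / 2) (hκ0 : 0 < κ)
    (hκ1 : κ ≤ 1) : ∃ ζ₀ : ℝ, 0 < ζ₀ ∧
    ∀ (V : Type) [Fintype V] [DecidableEq V] (U : Finset V → ℝ) (o : V → V → ℝ),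
      ApxCov k ζ₀ U → U ∅ = 0 → (∀ v, U {v} = 1) → PSDk o → (∀ u v, 0 ≤ o u v) →
      (∀ u, o u u ≤ 1 + ζ₀) → (∀ u v, u ≠ v → |U {u, v} - (2 - o u v)| ≤ ζ₀) →
      (∀ u, ∑ v, o u v ≤ ζ₀ * Fintype.card V) →
      (∀ T : Finset V, T.card + 1 ≤ k →
        (((univ \ T).filter (fun v => ¬ ∀ R ⊆ T, U (insert v R) = U R + 1)).card : ℝ) ≤
          ζ₀ * Fintype.card V) →
      1 / ζ₀ ≤ Fintype.card V →
      ∃ X : Finset V → ℝ, SA.SheraliAdams k (δ * Fintype.card V) X ∧ BasicSDP X ∧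
        (∀ v, X {v} = δ) ∧ ∀ u v, u ≠ v → δ * (o u v - 2 * κ) ≤ X {u, v} := by
  obtain ⟨K, hK1, hchain⟩ := A2_chain k hk
  have hKpos : 0 < K := by linarith
  obtain ⟨ζ₀, hζdef⟩ : ∃ ζ₀ : ℝ, ζ₀ = κ * δ ^ k / (1000 * k * 2 ^ k * K) := ⟨_, rfl⟩
  obtain ⟨hζ0, hζκ, hζk, hζe, hζn, hζ4⟩ := A16_par hk hδ0 hδ1 hκ0 hκ1 hK1 hζdef
  refine ⟨ζ₀, hζ0, ?_⟩
  intro V _ _ U o hU hU0 hU1 ho ho0 hod hUo hor hfar hn
  obtain ⟨n, hndef⟩ : ∃ n : ℝ, n = (Fintype.card V : ℝ) := ⟨_, rfl⟩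
  rw [← hndef] at hn
  have hnpos : 0 < n := lt_of_lt_of_le (by positivity) hn
  have hn1 : 1 ≤ ζ₀ * n := by
    rw [div_le_iff₀ hζ0] at hn
    linarith
  have hninv : 1 / n ≤ ζ₀ := by
    rw [div_le_iff₀ hnpos]
    exact hn1
  have hn2 : 2 * k + 1 ≤ Fintype.card V := by
    have h2 : (2 * (k : ℝ) + 1) ≤ (Fintype.card V : ℝ) := by
      rw [← hndef]
      exact hζn.trans hn
    exact_mod_cast h2
  have hn4 : 4 ≤ Fintype.card V := by
    have h2 : (4 : ℝ) ≤ (Fintype.card V : ℝ) := by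
      rw [← hndef]
      exact hζ4.trans hn
    exact_mod_cast h2
  have hκδ : κ * δ ≤ 1 / 2 := by nlinarith
  have hζ1 : ζ₀ ≤ 1 := by linarith
  obtain ⟨μ, hμdef⟩ : ∃ μ : ℝ, μ = -Real.log (1 - δ) := ⟨_, rfl⟩
  have h1δ : 0 < 1 - δ := by linarith
  have hμ0 : 0 ≤ μ := by
    rw [hμdef]
    have : Real.log (1 - δ) ≤ 0 := Real.log_nonpos (by linarith) (by linarith)
    linarith
  have hexp : Real.exp (-μ) = 1 - δ := by
    rw [hμdef, neg_neg, Real.exp_log h1δ]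
  have hμ1 : μ ≤ 1 := by
    by_contra hcon
    rw [not_le] at hcon
    have h1 : Real.exp (-μ) < Real.exp (-1) := Real.exp_lt_exp.2 (by linarith)
    have h2 : Real.exp (-1) < 1 / 2 := by
      rw [Real.exp_neg, inv_lt_comm₀ (Real.exp_pos _) (by norm_num)]
      have := Real.exp_one_gt_d9
      norm_num
      linarith
    rw [hexp] at h1
    linarith
  have ho1 : ∀ u v, o u v ≤ 1 + ζ₀ := by
    intro u v
    have h1 := A16_two ho u v
    have h2 := hod u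
    have h3 := hod v
    linarith
  obtain ⟨C, hC⟩ : ∃ C : V → V → ℝ, C = fun u v => if u = v then δ * (1 - δ) else
      (1 - κ) * (1 - δ) ^ 2 * (Real.exp (-Real.log (1 - δ) * o u v) - 1) := ⟨_, rfl⟩
  have hCuv : ∀ u v, u ≠ v → C u v = (1 - κ) * (1 - δ) ^ 2 * (Real.exp (μ * o u v) - 1) := by
    intro u v huv
    rw [hC, hμdef]
    exact if_neg huv
  obtain ⟨C', hC'psd, hC'd, hC'r, hC'c⟩ := A10_base (C := C) hn4 (c₀ := δ * (1 - δ))
    (lam := κ * δ * (1 - δ) / 2) (τ := 9 * ζ₀) (by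
      intro u v
      rw [hC]
      by_cases huv : u = v
      · rw [huv]
      · simp only [if_neg huv, if_neg (Ne.symm huv), ho.1 u v]) (by
      intro c
      rw [hC]
      exact A13_slack hδ0 hδ1 hκ0 hκ1 hζ0.le (by linarith) ho hod (fun u => ho0 u u) c) (by
      intro u
      rw [hC]
      exact if_pos rfl) (by
      intro u
      rw [hC]
      exact (A14_rows hδ0 hδ1 hκ0 hκ1 hζ0.le hζ1 ho hod ho0 hor (by rw [← hndef]; exact hn1) u).1)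
    (by
      intro u
      rw [hC]
      exact (A14_rows hδ0 hδ1 hκ0 hκ1 hζ0.le hζ1 ho hod ho0 hor (by rw [← hndef]; exact hn1) u).2)
    (by linarith) (by nlinarith)
  obtain ⟨X2, hX20, hX21, hX2size, hX2sdp, hX2uv⟩ := A11_X2 C' hC'psd hC'd hC'r
  obtain ⟨hlaw0, hlaw1, hlaw2⟩ := A12_law μ hU0 hU1
  have hX0 : ∀ T : Finset V, T.card ≤ k → |X0 δ κ U T| ≤ 1 := fun T hT =>
    A05_X0_le (by omega) hU hU0 hδ0 hδ1 hκ0.le hκ1 hζk hT
  have hX0e : ∀ T : Finset V, X0 δ κ U T = (1 - κ) * law μ U T + κ * δ ^ T.card := by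
    intro T
    rw [hμdef]
    rfl
  have hclose : ∀ T : Finset V, T.card ≤ 2 → |X2 T - X0 δ κ U T| ≤ 84 * ζ₀ := by
    intro T hT
    have hpos : 0 ≤ 84 * ζ₀ := by positivity
    rcases Nat.lt_or_ge T.card 2 with h | h
    · rcases Nat.lt_or_ge T.card 1 with h' | h'
      · have : T = ∅ := Finset.card_eq_zero.1 (by omega)
        subst this
        rw [hX20, hX0e]
        simp only [hlaw0, Finset.card_empty, pow_zero]
        rw [show (1 : ℝ) - ((1 - κ) * 1 + κ * 1) = 0 by ring, abs_zero]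
        exact hpos
      · obtain ⟨v, rfl⟩ := Finset.card_eq_one.1 (show T.card = 1 by omega)
        rw [hX21, hX0e]
        simp only [hlaw1, hexp, Finset.card_singleton, pow_one]
        rw [show δ - ((1 - κ) * (1 - (1 - δ)) + κ * δ) = 0 by ring, abs_zero]
        exact hpos
    · obtain ⟨u, v, huv, rfl⟩ := Finset.card_eq_two.1 (show T.card = 2 by omega)
      have h1 := hC'c u v
      have h2 := hUo u v huv
      have h3 := ho1 u v
      have h4 := ho0 u v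
      have h5 : |Real.exp (-μ * U {u, v}) - Real.exp (-μ * (2 - o u v))| ≤
          3 * |U {u, v} - (2 - o u v)| := by
        apply A01_exp hμ0 hμ1
        · have := (abs_le.1 h2).1
          linarith
        · linarith
      have h6 : Real.exp (-μ * (2 - o u v)) = (1 - δ) ^ 2 * Real.exp (μ * o u v) := by
        rw [← hexp, ← Real.exp_nat_mul, ← Real.exp_add]
        congr 1
        push_cast
        ring
      rw [hX2uv, hX0e, Finset.card_pair huv, hlaw2 u v huv, hexp]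
      have h7 : δ ^ 2 + C' u v - ((1 - κ) * (1 - 2 * (1 - δ) + Real.exp (-μ * U {u, v})) +
          κ * δ ^ 2) = (C' u v - C u v) -
            (1 - κ) * (Real.exp (-μ * U {u, v}) - Real.exp (-μ * (2 - o u v))) := by
        rw [hCuv u v huv, h6]
        ring
      rw [h7]
      have h8 : |(1 - κ) * (Real.exp (-μ * U {u, v}) - Real.exp (-μ * (2 - o u v)))| ≤
          3 * ζ₀ := by
        rw [abs_mul, abs_of_nonneg (by linarith : (0 : ℝ) ≤ 1 - κ)]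
        have h9 := abs_nonneg (Real.exp (-μ * U {u, v}) - Real.exp (-μ * (2 - o u v)))
        nlinarith
      have h10 := abs_sub (C' u v - C u v)
        ((1 - κ) * (Real.exp (-μ * U {u, v}) - Real.exp (-μ * (2 - o u v))))
      linarith
  obtain ⟨X, hXeq, hXsize, hXclose⟩ := hchain V hn2 δ (84 * ζ₀) (2 * ζ₀)
    hδ0.le (by linarith) (by positivity) (by positivity) (X0 δ κ U) X2 hX0
    (fun T hT => A06_far hδ0 hδ1 hX0 hfar T hT) hclose hX2size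
  have hXclose' : ∀ T : Finset V, T.card ≤ k →
      |X T - ((1 - κ) * law μ U T + κ * δ ^ T.card)| ≤ 100 * K * ζ₀ := by
    intro T hT
    have h1 := hXclose T hT
    rw [← hndef, hX0e] at h1
    refine h1.trans ?_
    have h2 : K * (84 * ζ₀ + 2 * ζ₀ + 1 / n) ≤ K * (100 * ζ₀) :=
      mul_le_mul_of_nonneg_left (by linarith) hKpos.le
    linarith
  refine ⟨X, ⟨by rw [hXeq ∅ (by simp), hX20], ?_, hXsize⟩, A6_basic_congr hXeq hX2sdp,
    fun v => by rw [hXeq {v} (by simp), hX21], ?_⟩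
  · intro S T hd hc
    refine A07_stable hδ0 hδ1 hκ0.le hκ1 (e₁ := 2 ^ k * (3 * ζ₀)) (by positivity) (law μ U) X ?_
      hXclose' hζe S T hd hc
    intro S T hd hc
    exact A03_law hU hζ1 hμ0 hμ1 hd hc
  · intro u v huv
    rw [hXeq {u, v} Finset.card_le_two, hX2uv]
    have h1 := (abs_le.1 (hC'c u v)).1
    have h2 := A15_pair hδ0 hδ1 hζ0.le (ho0 u v) (ho1 u v)
    rw [← hμdef] at h2
    rw [hCuv u v huv] at h1
    have h3 := mul_le_mul_of_nonneg_left h2 (by linarith : (0 : ℝ) ≤ 1 - κ)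
    have h4 := ho1 u v
    have h5 : κ * δ * o u v ≤ κ * δ * (1 + ζ₀) :=
      mul_le_mul_of_nonneg_left h4 (by positivity)
    have h6 : 0 ≤ κ * δ ^ 2 := by positivity
    have h7 : κ * δ * ζ₀ ≤ 1 * ζ₀ := mul_le_mul_of_nonneg_right (by linarith) hζ0.le
    have h8 : δ * ζ₀ ≤ 1 * ζ₀ := mul_le_mul_of_nonneg_right (by linarith) hζ0.le
    have h9 : 0 ≤ κ * δ * ζ₀ := by positivity
    nlinarith

end Pool.Agent.Lib.MP_8d8c46_lc.Gap
end

section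

set_option autoImplicit false

open Finset
open scoped Classical

namespace Pool.Agent.Lib.MP_8d8c46_lc.Gap

open Pool.Agent.Lib.MP_8d8c46_lc Pool.Agent.Lib.MP_8d8c46_lc.SDP Pool.Agent.Lib.MP_8d8c46_lc.EL

/-- Choice of the noise. For small rational `ν > 0` let `θ = 2 log (1 / (1 - 2 ν)) / log 3 > 0`; it tends
to `0` with `ν`, and `(1/3)^θ = (1 - 2 ν)^2`; all conditions hold for small `ν`. -/
theorem M01_nu {b : ℕ} (hb : 1 ≤ b) {ε : ℝ} (hε : 0 < ε) (s m : ℕ) :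
    ∃ (ν : ℚ) (θ : ℝ), 0 < ν ∧ ν ≤ 1 / 2 ∧ 0 < θ ∧ θ ≤ 1 ∧
      ((1 / 3 : ℝ) ^ θ) = (1 - 2 * (ν : ℝ)) ^ 2 ∧ (b : ℝ) ^ (θ / 8) ≤ 2 ∧
      3 / 2 * Real.sqrt ((m + 1) * (8 * s * (ν : ℝ))) ≤ ε := by
  have hb0 : (1 : ℝ) ≤ b := by exact_mod_cast hb
  have hc : 0 < min (1 / 8 : ℝ) (min (1 / (2 * b)) (ε ^ 2 / (18 * (m + 1) * (s + 1)))) := by
    refine lt_min (by norm_num) (lt_min (by positivity) (by positivity))
  obtain ⟨ν, hν0, hν1⟩ := exists_rat_btwn hc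
  rw [lt_min_iff, lt_min_iff] at hν1
  obtain ⟨h8, h2b, hε2⟩ := hν1
  have hν0' : (0 : ℚ) < ν := by exact_mod_cast hν0
  have hlog3 : 1 ≤ Real.log 3 := by
    rw [Real.le_log_iff_exp_le (by norm_num)]
    have := Real.exp_one_lt_d9
    linarith
  have ht : 0 < 1 - 2 * (ν : ℝ) := by linarith
  have hneg : Real.log (1 - 2 * (ν : ℝ)) < 0 := Real.log_neg ht (by linarith)
  have hlogb : -Real.log (1 - 2 * (ν : ℝ)) ≤ 4 * ν := by
    rw [← Real.log_inv]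
    refine (Real.log_le_sub_one_of_pos (inv_pos.mpr ht)).trans ?_
    rw [sub_le_iff_le_add, inv_le_comm₀ ht (by linarith), ← one_div, div_le_iff₀ (by linarith)]
    nlinarith
  refine ⟨ν, -(2 * Real.log (1 - 2 * (ν : ℝ))) / Real.log 3, hν0', ?_, ?_, ?_, ?_, ?_, ?_⟩
  · have : (ν : ℝ) ≤ ((1 / 2 : ℚ) : ℝ) := by push_cast; linarith
    exact_mod_cast this
  · apply div_pos (by linarith) (by linarith)
  · rw [div_le_one (by linarith)]
    linarith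
  · rw [Real.rpow_def_of_pos (by norm_num)]
    have h3 : Real.log (1 / 3) * (-(2 * Real.log (1 - 2 * (ν : ℝ))) / Real.log 3) =
        Real.log (1 - 2 * (ν : ℝ)) + Real.log (1 - 2 * (ν : ℝ)) := by
      rw [one_div, Real.log_inv]
      field_simp
      ring
    rw [h3, Real.exp_add, Real.exp_log ht, sq]
  · have hθ : -(2 * Real.log (1 - 2 * (ν : ℝ))) / Real.log 3 / 8 ≤ ν := by
      rw [div_div, div_le_iff₀ (by linarith)]
      nlinarith
    have hle : (b : ℝ) ^ (-(2 * Real.log (1 - 2 * (ν : ℝ))) / Real.log 3 / 8) ≤ (b : ℝ) ^ (ν : ℝ) :=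
      Real.rpow_le_rpow_of_exponent_le hb0 hθ
    refine hle.trans ?_
    rw [Real.rpow_def_of_pos (by linarith)]
    have hl : Real.log b ≤ b := by
      have := Real.log_le_sub_one_of_pos (show (0 : ℝ) < b by linarith)
      linarith
    have hl0 : 0 ≤ Real.log b := Real.log_nonneg hb0
    have h5 : Real.log b * ν ≤ 1 / 2 := by
      have h6 : (ν : ℝ) * (2 * b) ≤ 1 := by
        rw [← le_div_iff₀ (by positivity)]
        exact h2b.le
      nlinarith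
    have h7 : (1 / 2 : ℝ) ≤ Real.log 2 := by
      have := Real.log_two_gt_d9
      linarith
    calc Real.exp (Real.log b * ν) ≤ Real.exp (Real.log 2) := Real.exp_le_exp.mpr (by linarith)
      _ = 2 := Real.exp_log (by norm_num)
  · have h1 : ((m : ℝ) + 1) * (8 * s * (ν : ℝ)) ≤ (2 / 3 * ε) ^ 2 := by
      have h2 : (ν : ℝ) * (18 * (m + 1) * (s + 1)) ≤ ε ^ 2 := by
        rw [← le_div_iff₀ (by positivity)]
        exact hε2.le
      have h3 : 0 ≤ ((m : ℝ) + 1) * ν := by positivity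
      nlinarith
    have h4 := Real.sqrt_le_sqrt h1
    rw [Real.sqrt_sq (by positivity)] at h4
    linarith

end Pool.Agent.Lib.MP_8d8c46_lc.Gap
end
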