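import Pool.Agent.Lib.MP_8d8c46_lc.Mg.G002
import Pool.Agent.Lib.MP_8d8c46_lc.Mg.G003

section

set_option autoImplicit false

open Finset
open scoped Classical

namespace Pool.Agent.Lib.MP_8d8c46_lc.Gap

open Pool.Agent.Lib.MP_8d8c46_lc Pool.Agent.Lib.MP_8d8c46_lc.SDP Pool.Agent.Lib.MP_8d8c46_lc.EL

/-- Translation `t ↦ t - x` is a bijection of `ZMod b`, and the elements `y` with `y.val < a` are the
images of `0, ..., a - 1` (`a ≤ b`). -/
theorem K01_marks {b : ℕ} [NeZero b] {a : ℕ} (hab : a ≤ b) (x : ZMod b) :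
    ((univ : Finset (ZMod b)).filter (fun t => (t - x).val < a)).card = a := by
  have h := Finset.card_nbij' (s := (univ : Finset (ZMod b)).filter (fun t => (t - x).val < a))
    (t := Finset.range a) (fun t => (t - x).val) (fun k => (k : ZMod b) + x) ?_ ?_ ?_ ?_
  · rw [h, Finset.card_range]
  · intro t ht
    exact Finset.mem_coe.2 (Finset.mem_range.2 (Finset.mem_filter.1 (Finset.mem_coe.1 ht)).2)
  · intro k hk
    have hk' : k < a := Finset.mem_range.1 (Finset.mem_coe.1 hk)
    refine Finset.mem_coe.2 (Finset.mem_filter.2 ⟨Finset.mem_univ _, ?_⟩)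
    rw [add_sub_cancel_right, ZMod.val_natCast_of_lt (hk'.trans_le hab)]
    exact hk'
  · intro t _
    simp only [ZMod.natCast_val, ZMod.cast_id', id_eq, sub_add_cancel]
  · intro k hk
    have hk' : k < a := Finset.mem_range.1 (Finset.mem_coe.1 hk)
    change ((k : ZMod b) + x - x).val = k
    rw [add_sub_cancel_right, ZMod.val_natCast_of_lt (hk'.trans_le hab)]

end Pool.Agent.Lib.MP_8d8c46_lc.Gap
end

section

set_option autoImplicit false

open Finset
open scoped Classical

namespace Pool.Agent.Lib.MP_8d8c46_lc.Gap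

open Pool.Agent.Lib.MP_8d8c46_lc Pool.Agent.Lib.MP_8d8c46_lc.SDP Pool.Agent.Lib.MP_8d8c46_lc.EL

/-- Diagonal. For good `ω`: the terms with `i = j` give `(1 / (R a)) ∑ i, #{t active} = 1`
(`K01_marks`; `cor x x = 1`, `lensP m 1 = 1`), and the terms with `i ≠ j` are at most
`lensP m y ≤ y = (cor^2)^s ≤ cor^2 ≤ γ^2` (`L6_le`, `1 ≤ s`, `|cor| ≤ 1`), so altogether at most
`(1 / (R a)) b R^2 γ^2`. For `ω` not good, `0`. -/
theorem K07_diag {R D b : ℕ} [NeZero b] (hR : 1 ≤ R) (hD : 1 ≤ D) {γ : ℝ} (hγ : 0 ≤ γ)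
    {s : ℕ} (hs : 1 ≤ s) (m : ℕ) {a : ℕ} (ha : 1 ≤ a) (hab : a ≤ b) (ω : Tup R D b) :
    oT γ s m a ω ω ≤ 1 + b * R * γ ^ 2 / a := by
  have hR0 : (0 : ℝ) < R := by exact_mod_cast hR
  have ha0 : (0 : ℝ) < a := by exact_mod_cast ha
  have hb0 : (0 : ℝ) ≤ b := Nat.cast_nonneg b
  have hpos : 0 ≤ b * R * γ ^ 2 / a := by positivity
  unfold oT
  by_cases hg : good γ ω ∧ good γ ω
  · rw [if_pos hg]
    rw [div_le_iff₀ (by positivity)]
    have hterm : ∀ (t : ZMod b) (i j : Fin R),
        (if (t - (ω i).2).val < a ∧ (t - (ω j).2).val < a then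
          lensP m ((cor (ω i).1 (ω j).1 ^ 2) ^ s) else 0) ≤
        (if i = j then (if (t - (ω i).2).val < a then (1 : ℝ) else 0) else 0) + γ ^ 2 := by
      intro t i j
      have hc := E1_cor hD (ω i).1 (ω j).1
      have h2 : cor (ω i).1 (ω j).1 ^ 2 ≤ 1 := by
        have := abs_le.mp hc.2.2.1
        nlinarith
      have h3 : 0 ≤ cor (ω i).1 (ω j).1 ^ 2 := sq_nonneg _
      have h4 := L6_le m (pow_nonneg h3 s) (pow_le_one₀ h3 h2)
      by_cases hij : i = j
      · subst hij
        rw [if_pos rfl]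
        by_cases hact : (t - (ω i).2).val < a
        · rw [if_pos ⟨hact, hact⟩, if_pos hact]
          have h5 := pow_le_one₀ (n := s) h3 h2
          have := sq_nonneg γ
          linarith
        · rw [if_neg (fun h => hact h.1), if_neg hact]
          have := sq_nonneg γ
          linarith
      · rw [if_neg hij, zero_add]
        have h6 : (cor (ω i).1 (ω j).1 ^ 2) ^ s ≤ γ ^ 2 := by
          have h7 : (cor (ω i).1 (ω j).1 ^ 2) ^ s ≤ cor (ω i).1 (ω j).1 ^ 2 :=
            pow_le_of_le_one h3 h2 (by omega)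
          have h8 : cor (ω i).1 (ω j).1 ^ 2 ≤ γ ^ 2 := by
            have h9 := hg.1 i j hij
            exact sq_le_sq' (by linarith [abs_le.mp h9]) (abs_le.mp h9).2
          linarith
        split_ifs
        · linarith
        · exact sq_nonneg γ
    have hsum : (∑ t : ZMod b, ∑ i, ∑ j,
        if (t - (ω i).2).val < a ∧ (t - (ω j).2).val < a then
          lensP m ((cor (ω i).1 (ω j).1 ^ 2) ^ s) else 0) ≤
        ∑ t : ZMod b, ∑ i : Fin R, ∑ j : Fin R,
          ((if i = j then (if (t - (ω i).2).val < a then (1 : ℝ) else 0) else 0) + γ ^ 2) :=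
      Finset.sum_le_sum fun t _ => Finset.sum_le_sum fun i _ => Finset.sum_le_sum fun j _ =>
        hterm t i j
    refine le_trans hsum ?_
    have hin : ∀ (t : ZMod b) (i : Fin R), ∑ j : Fin R,
          ((if i = j then (if (t - (ω i).2).val < a then (1 : ℝ) else 0) else 0) + γ ^ 2) =
        (if (t - (ω i).2).val < a then (1 : ℝ) else 0) + R * γ ^ 2 := by
      intro t i
      rw [Finset.sum_add_distrib, Finset.sum_ite_eq, if_pos (Finset.mem_univ _)]
      simp
    simp only [hin]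
    rw [Finset.sum_comm]
    have hcount : ∀ i : Fin R, ∑ t : ZMod b,
        ((if (t - (ω i).2).val < a then (1 : ℝ) else 0) + R * γ ^ 2) = a + b * (R * γ ^ 2) := by
      intro i
      rw [Finset.sum_add_distrib, Finset.sum_boole, K01_marks hab]
      simp [ZMod.card]
    simp only [hcount]
    rw [Finset.sum_const, Finset.card_univ, Fintype.card_fin, nsmul_eq_mul]
    apply le_of_eq
    field_simp
  · rw [if_neg hg]
    linarith

end Pool.Agent.Lib.MP_8d8c46_lc.Gap
end

section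

set_option autoImplicit false

open Finset
open scoped Classical

namespace Pool.Agent.Lib.MP_8d8c46_lc.Gap

open Pool.Agent.Lib.MP_8d8c46_lc Pool.Agent.Lib.MP_8d8c46_lc.SDP Pool.Agent.Lib.MP_8d8c46_lc.EL

/-- The cliques over one vertex are the single points. -/
private theorem C01_clqs {V : Type} {R : ℕ} {near : V × Fin R → V × Fin R → Prop}
    (Act : Finset (V × Fin R)) (hN2 : ∀ p q, near p q → p.1 ≠ q.1) (v : V) :
    clqs near Act {v} = (Act.filter (fun p => p.1 = v)).image (fun p => {p}) := by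
  ext Q
  unfold clqs ov Clq
  simp only [mem_filter, mem_powerset, mem_image, mem_singleton]
  constructor
  · rintro ⟨hQ, ⟨p, hp⟩, hcl⟩
    have hp2 := mem_filter.1 (hQ hp)
    refine ⟨p, ⟨hp2.1, hp2.2⟩, ?_⟩
    symm
    rw [Finset.eq_singleton_iff_unique_mem]
    refine ⟨hp, fun q hq => ?_⟩
    by_contra hne
    have hq2 := mem_filter.1 (hQ hq)
    exact hN2 q p (hcl q hq p hp hne) (hq2.2.trans hp2.2.symm)
  · rintro ⟨p, ⟨hpA, hpv⟩, rfl⟩
    refine ⟨?_, singleton_nonempty p, ?_⟩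
    · intro q hq
      rw [mem_singleton] at hq
      subst hq
      exact mem_filter.2 ⟨hpA, hpv⟩
    · intro a ha b hb hab
      rw [mem_singleton] at ha hb
      exact absurd (ha.trans hb.symm) hab

/-- The only nonempty cliques over `{v}` are the sets `{p}` with `p.1 = v` (two different near points
are over different vertices), and `(-1)^(1+1) * I {p} = 1`; there are no nonempty sets over `∅`. -/
theorem C01_single {V : Type} {R : ℕ} {near : V × Fin R → V × Fin R → Prop}
    {I : Finset (V × Fin R) → ℝ} (Act : Finset (V × Fin R)) (h1 : ∀ p, I {p} = 1)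
    (hN2 : ∀ p q, near p q → p.1 ≠ q.1) :
    EE near I Act ∅ = 0 ∧
      ∀ v, EE near I Act {v} = ((Act.filter (fun p => p.1 = v)).card : ℝ) := by
  constructor
  · unfold EE
    have h : clqs near Act ∅ = ∅ := by
      ext Q
      unfold clqs ov
      simp only [mem_filter, mem_powerset]
      constructor
      · rintro ⟨hQ, ⟨p, hp⟩, -⟩
        have := (mem_filter.1 (hQ hp)).2
        simp at this
      · intro h
        simp at h
    rw [h, sum_empty]
  · intro v
    unfold EE
    rw [C01_clqs Act hN2 v, sum_image (fun a _ b _ h => singleton_injective h)]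
    rw [card_eq_sum_ones, Nat.cast_sum]
    refine sum_congr rfl fun p _ => ?_
    rw [h1, card_singleton]
    norm_num

end Pool.Agent.Lib.MP_8d8c46_lc.Gap
end

section

set_option autoImplicit false

open Finset
open scoped Classical

namespace Pool.Agent.Lib.MP_8d8c46_lc.Gap

open Pool.Agent.Lib.MP_8d8c46_lc Pool.Agent.Lib.MP_8d8c46_lc.SDP Pool.Agent.Lib.MP_8d8c46_lc.EL

private theorem C02_mem_ov {V : Type} {R : ℕ} (Act : Finset (V × Fin R)) (w : V)
    (p : V × Fin R) : p ∈ ov Act {w} ↔ p ∈ Act ∧ p.1 = w := by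
  unfold ov
  rw [mem_filter, mem_singleton]

private theorem C02_mem_ov2 {V : Type} [DecidableEq V] {R : ℕ} (Act : Finset (V × Fin R)) (u v : V)
    (p : V × Fin R) : p ∈ ov Act {u, v} ↔ p ∈ Act ∧ (p.1 = u ∨ p.1 = v) := by
  unfold ov
  simp only [mem_filter, mem_insert, mem_singleton]

private theorem C02_mem_clqs {V : Type} {R : ℕ} {near : V × Fin R → V × Fin R → Prop}
    (Act : Finset (V × Fin R)) (T : Finset V) (Q : Finset (V × Fin R)) :
    Q ∈ clqs near Act T ↔ (∀ p ∈ Q, p ∈ ov Act T) ∧ Q.Nonempty ∧ Clq near Q := by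
  unfold clqs
  rw [mem_filter, mem_powerset]
  rfl

/-- The decomposition of the cliques over two vertices. -/
private theorem C02_clqs {V : Type} [DecidableEq V] {R : ℕ} {near : V × Fin R → V × Fin R → Prop}
    (Act : Finset (V × Fin R)) (hN1 : ∀ p q, near p q → near q p)
    (hN2 : ∀ p q, near p q → p.1 ≠ q.1) {u v : V} :
    clqs near Act {u, v} = (clqs near Act {u} ∪ clqs near Act {v}) ∪
      ((ov Act {u} ×ˢ ov Act {v}).filter (fun x => near x.1 x.2)).image
        (fun x => ({x.1, x.2} : Finset (V × Fin R))) := by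
  ext Q
  rw [mem_union, mem_union, C02_mem_clqs, C02_mem_clqs, C02_mem_clqs, mem_image]
  constructor
  · rintro ⟨hQ, hne, hcl⟩
    by_cases h1 : ∀ p ∈ Q, p.1 = u
    · left; left
      exact ⟨fun p hp => (C02_mem_ov Act u p).2 ⟨((C02_mem_ov2 Act u v p).1 (hQ p hp)).1, h1 p hp⟩,
        hne, hcl⟩
    by_cases h2 : ∀ p ∈ Q, p.1 = v
    · left; right
      exact ⟨fun p hp => (C02_mem_ov Act v p).2 ⟨((C02_mem_ov2 Act u v p).1 (hQ p hp)).1, h2 p hp⟩,
        hne, hcl⟩
    right
    push Not at h1 h2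
    obtain ⟨q, hq, hqu⟩ := h1
    obtain ⟨p, hp, hpv⟩ := h2
    have hq1 := (C02_mem_ov2 Act u v q).1 (hQ q hq)
    have hp1 := (C02_mem_ov2 Act u v p).1 (hQ p hp)
    have hqv : q.1 = v := hq1.2.resolve_left hqu
    have hpu : p.1 = u := hp1.2.resolve_right hpv
    have hpq : p ≠ q := by
      rintro rfl
      exact hqu hpu
    refine ⟨(p, q), mem_filter.2 ⟨mem_product.2 ⟨(C02_mem_ov Act u p).2 ⟨hp1.1, hpu⟩,
      (C02_mem_ov Act v q).2 ⟨hq1.1, hqv⟩⟩, hcl p hp q hq hpq⟩, ?_⟩
    ext r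
    rw [mem_insert, mem_singleton]
    constructor
    · rintro (rfl | rfl)
      · exact hp
      · exact hq
    · intro hr
      have hr1 := (C02_mem_ov2 Act u v r).1 (hQ r hr)
      rcases hr1.2 with h | h
      · left
        by_contra hne'
        exact hN2 r p (hcl r hr p hp hne') (h.trans hpu.symm)
      · right
        by_contra hne'
        exact hN2 r q (hcl r hr q hq hne') (h.trans hqv.symm)
  · rintro ((⟨hQ, hne, hcl⟩ | ⟨hQ, hne, hcl⟩) | ⟨x, hx, rfl⟩)
    · refine ⟨fun p hp => ?_, hne, hcl⟩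
      have := (C02_mem_ov Act u p).1 (hQ p hp)
      exact (C02_mem_ov2 Act u v p).2 ⟨this.1, Or.inl this.2⟩
    · refine ⟨fun p hp => ?_, hne, hcl⟩
      have := (C02_mem_ov Act v p).1 (hQ p hp)
      exact (C02_mem_ov2 Act u v p).2 ⟨this.1, Or.inr this.2⟩
    · obtain ⟨p, q⟩ := x
      rw [mem_filter, mem_product] at hx
      obtain ⟨⟨hp, hq⟩, hn⟩ := hx
      simp only at hp hq hn
      have hp' := (C02_mem_ov Act u p).1 hp
      have hq' := (C02_mem_ov Act v q).1 hq
      refine ⟨fun r hr => ?_, ⟨p, mem_insert_self _ _⟩, ?_⟩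
      · rw [mem_insert, mem_singleton] at hr
        rcases hr with rfl | rfl
        · exact (C02_mem_ov2 Act u v _).2 ⟨hp'.1, Or.inl hp'.2⟩
        · exact (C02_mem_ov2 Act u v _).2 ⟨hq'.1, Or.inr hq'.2⟩
      · intro a ha b hb hab
        simp only at ha hb
        rw [mem_insert, mem_singleton] at ha hb
        rcases ha with rfl | rfl <;> rcases hb with rfl | rfl
        · exact absurd rfl hab
        · exact hn
        · exact hN1 _ _ hn
        · exact absurd rfl hab

/-- A nonempty clique over `{u, v}` has at most one point over `u` and at most one over `v`; so it is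
a single point over `u` or over `v`, or a pair `{p, q}` of near points with `p` over `u` and `q`
over `v` (each such set comes from exactly one pair `(p, q)`), with the sign `(-1)^3`. -/
theorem C02_pair {V : Type} [DecidableEq V] {R : ℕ} {near : V × Fin R → V × Fin R → Prop}
    {I : Finset (V × Fin R) → ℝ} (Act : Finset (V × Fin R))
    (hN1 : ∀ p q, near p q → near q p) (hN2 : ∀ p q, near p q → p.1 ≠ q.1) {u v : V}
    (huv : u ≠ v) :
    EE near I Act {u, v} = EE near I Act {u} + EE near I Act {v} -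
      ∑ p ∈ ov Act {u}, ∑ q ∈ ov Act {v}, if near p q then I {p, q} else 0 := by
  unfold EE
  rw [C02_clqs Act hN1 hN2]
  have hd1 : Disjoint (clqs near Act {u}) (clqs near Act {v}) := by
    rw [Finset.disjoint_left]
    intro Q h1 h2
    rw [C02_mem_clqs] at h1 h2
    obtain ⟨p, hp⟩ := h1.2.1
    have e1 := ((C02_mem_ov Act u p).1 (h1.1 p hp)).2
    have e2 := ((C02_mem_ov Act v p).1 (h2.1 p hp)).2
    exact huv (e1.symm.trans e2)
  have hd2 : Disjoint (clqs near Act {u} ∪ clqs near Act {v})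
      (((ov Act {u} ×ˢ ov Act {v}).filter (fun x => near x.1 x.2)).image
        (fun x => ({x.1, x.2} : Finset (V × Fin R)))) := by
    rw [Finset.disjoint_left]
    intro Q h1 h2
    rw [mem_union, C02_mem_clqs, C02_mem_clqs] at h1
    rw [mem_image] at h2
    obtain ⟨⟨p, q⟩, hx, rfl⟩ := h2
    rw [mem_filter, mem_product] at hx
    obtain ⟨⟨hp, hq⟩, hn⟩ := hx
    simp only at hp hq hn
    have hp' := (C02_mem_ov Act u p).1 hp
    have hq' := (C02_mem_ov Act v q).1 hq
    rcases h1 with h1 | h1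
    · have e := ((C02_mem_ov Act u q).1 (h1.1 q (by simp))).2
      exact huv (e.symm.trans hq'.2)
    · have e := ((C02_mem_ov Act v p).1 (h1.1 p (by simp))).2
      exact huv (hp'.2.symm.trans e)
  rw [sum_union hd2, sum_union hd1]
  have hinj : Set.InjOn (fun x : (V × Fin R) × (V × Fin R) => ({x.1, x.2} : Finset (V × Fin R)))
      (((ov Act {u} ×ˢ ov Act {v}).filter (fun x => near x.1 x.2) :
        Finset ((V × Fin R) × (V × Fin R))) : Set ((V × Fin R) × (V × Fin R))) := by
    rintro ⟨p, q⟩ hx ⟨p', q'⟩ hx' he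
    rw [mem_coe, mem_filter, mem_product] at hx hx'
    obtain ⟨⟨hp, hq⟩, hn⟩ := hx
    obtain ⟨⟨hp2, hq2⟩, hn2⟩ := hx'
    simp only at hp hq hn hp2 hq2 hn2 he
    have hp' := ((C02_mem_ov Act u p).1 hp).2
    have hq' := ((C02_mem_ov Act v q).1 hq).2
    have hp2' := ((C02_mem_ov Act u p').1 hp2).2
    have hq2' := ((C02_mem_ov Act v q').1 hq2).2
    have m1 : p ∈ ({p', q'} : Finset (V × Fin R)) := by
      rw [← he]; exact mem_insert_self _ _
    have m2 : q ∈ ({p', q'} : Finset (V × Fin R)) := by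
      rw [← he]; exact mem_insert_of_mem (mem_singleton_self _)
    rw [mem_insert, mem_singleton] at m1 m2
    have e1 : p = p' := by
      rcases m1 with h | h
      · exact h
      · exfalso
        rw [h] at hp'
        exact huv (hp'.symm.trans hq2')
    have e2 : q = q' := by
      rcases m2 with h | h
      · exfalso
        rw [h] at hq'
        exact huv (hp2'.symm.trans hq')
      · exact h
    rw [e1, e2]
  rw [sum_image hinj, sum_filter, sum_product]
  rw [sub_eq_add_neg, ← sum_neg_distrib]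
  congr 1
  refine sum_congr rfl fun p hp => ?_
  rw [← sum_neg_distrib]
  refine sum_congr rfl fun q hq => ?_
  have hpq : p ≠ q := by
    rintro rfl
    exact huv (((C02_mem_ov Act u p).1 hp).2.symm.trans ((C02_mem_ov Act v p).1 hq).2)
  by_cases h : near p q
  · simp only [if_pos h, card_pair hpq]
    ring
  · simp only [if_neg h, neg_zero]

end Pool.Agent.Lib.MP_8d8c46_lc.Gap
end

section

set_option autoImplicit false

open Finset
open scoped Classical

namespace Pool.Agent.Lib.MP_8d8c46_lc.Gap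

open Pool.Agent.Lib.MP_8d8c46_lc Pool.Agent.Lib.MP_8d8c46_lc.SDP Pool.Agent.Lib.MP_8d8c46_lc.EL

/-- Take `w` from `hU A`. For `∅ ≠ Q ⊆ A`
`capf U Q = ∑ B ⊆ A, w B * ∑ R ⊆ Q, (-1)^(|R|+1) [B ∩ R ≠ ∅]`, and for fixed `B`
`∑ R ⊆ Q, (-1)^(|R|+1) [B ∩ R ≠ ∅] = -∑ R ⊆ Q, (-1)^|R| + ∑ R ⊆ Q \ B, (-1)^|R| = [Q ⊆ B]`, because
`∑ R ⊆ Q, (-1)^|R|` is `0` for `Q ≠ ∅` and `1` for `Q = ∅` (`Finset.sum_powerset_neg_one_pow_card`). -/
theorem G01_atoms {P : Type*} [DecidableEq P] {n : ℕ} {U : Finset P → ℝ} (hU : LocCov n U)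
    {A : Finset P} (hA : A.card ≤ n) :
    ∃ w : Finset P → ℝ, (∀ B, 0 ≤ w B) ∧ ∀ Q ⊆ A, Q.Nonempty →
      capf U Q = ∑ B ∈ A.powerset.filter (fun B => Q ⊆ B), w B := by
  obtain ⟨w, hw, h⟩ := hU A hA
  refine ⟨w, hw, ?_⟩
  intro Q hQA hQ
  have key : ∀ B : Finset P, ∑ R ∈ Q.powerset, (-1 : ℝ) ^ (R.card + 1) *
      (if (B ∩ R).Nonempty then 1 else 0) = if Q ⊆ B then 1 else 0 := by
    intro B
    have hz : ∀ S : Finset P, ∑ R ∈ S.powerset, (-1 : ℝ) ^ R.card = if S = ∅ then 1 else 0 := by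
      intro S
      have h1 := Finset.sum_powerset_neg_one_pow_card (x := S)
      have h2 : ((∑ R ∈ S.powerset, (-1 : ℤ) ^ R.card : ℤ) : ℝ) =
          ((if S = ∅ then 1 else 0 : ℤ) : ℝ) := by rw [h1]
      push_cast at h2
      rw [h2]
    have h1 : ∑ R ∈ Q.powerset, (-1 : ℝ) ^ (R.card + 1) *
        (if (B ∩ R).Nonempty then 1 else 0) =
        (∑ R ∈ (Q \ B).powerset, (-1 : ℝ) ^ R.card) - ∑ R ∈ Q.powerset, (-1 : ℝ) ^ R.card := by
      have h2 : (Q \ B).powerset = Q.powerset.filter (fun R => ¬ (B ∩ R).Nonempty) := by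
        ext R
        simp only [Finset.mem_powerset, Finset.mem_filter, Finset.not_nonempty_iff_eq_empty,
          ← Finset.disjoint_iff_inter_eq_empty, Finset.subset_sdiff]
        rw [disjoint_comm]
      rw [h2, Finset.sum_filter, ← Finset.sum_sub_distrib]
      apply Finset.sum_congr rfl
      intro R _
      by_cases hR : (B ∩ R).Nonempty
      · simp [hR, pow_succ]
      · simp [hR, pow_succ]
    rw [h1, hz, hz, if_neg hQ.ne_empty, sub_zero]
    simp only [Finset.sdiff_eq_empty_iff_subset]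
  have h3 : capf U Q = ∑ B ∈ A.powerset, w B * (if Q ⊆ B then 1 else 0) := by
    unfold capf
    have h4 : ∀ R ∈ Q.powerset, (-1 : ℝ) ^ (R.card + 1) * U R =
        ∑ B ∈ A.powerset, w B * ((-1 : ℝ) ^ (R.card + 1) *
          (if (B ∩ R).Nonempty then 1 else 0)) := by
      intro R hR
      rw [h R ((Finset.mem_powerset.mp hR).trans hQA), Finset.sum_filter, Finset.mul_sum]
      apply Finset.sum_congr rfl
      intro B _
      split_ifs <;> ring
    rw [Finset.sum_congr rfl h4, Finset.sum_comm]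
    apply Finset.sum_congr rfl
    intro B _
    rw [← Finset.mul_sum, key B]
  rw [h3, Finset.sum_filter]
  apply Finset.sum_congr rfl
  intro B _
  split_ifs <;> ring

end Pool.Agent.Lib.MP_8d8c46_lc.Gap
end

section

set_option autoImplicit false

open Finset
open scoped Classical

namespace Pool.Agent.Lib.MP_8d8c46_lc.Gap

open Pool.Agent.Lib.MP_8d8c46_lc Pool.Agent.Lib.MP_8d8c46_lc.SDP Pool.Agent.Lib.MP_8d8c46_lc.EL

/-- From `G01_atoms` for `A = Q`: nonnegative, and fewer conditions for `Q' ⊆ Q`. The last two by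
unfolding `capf` (`U ∅ = 0` from `hU ∅`). -/
theorem G02_props {P : Type*} [DecidableEq P] {n : ℕ} {U : Finset P → ℝ} (hU : LocCov n U) :
    U ∅ = 0 ∧ (∀ Q : Finset P, Q.Nonempty → Q.card ≤ n → 0 ≤ capf U Q) ∧
      (∀ Q' Q : Finset P, Q' ⊆ Q → Q'.Nonempty → Q.card ≤ n → capf U Q ≤ capf U Q') ∧
      (∀ p, capf U {p} = U {p}) ∧
      ∀ p q, p ≠ q → capf U {p, q} = U {p} + U {q} - U {p, q} := by
  have h0 : U ∅ = 0 := by
    obtain ⟨w, -, hw⟩ := hU ∅ (by simp)
    rw [hw ∅ (subset_refl _)]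
    apply sum_eq_zero
    intro B hB
    simp at hB
  have hs : ∀ p, capf U {p} = U {p} := by
    intro p
    have hps : ({p} : Finset P).powerset = {∅, {p}} := by
      ext B; simp [Finset.subset_singleton_iff]
    unfold capf
    rw [hps, sum_insert (by simp), sum_singleton, h0]
    simp
  refine ⟨h0, ?_, ?_, hs, ?_⟩
  · intro Q hQ hQn
    obtain ⟨w, hw0, hw⟩ := G01_atoms hU hQn
    rw [hw Q (subset_refl _) hQ]
    exact sum_nonneg fun B _ => hw0 B
  · intro Q' Q hQQ hQ' hQn
    obtain ⟨w, hw0, hw⟩ := G01_atoms hU hQn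
    rw [hw Q (subset_refl _) (hQ'.mono hQQ), hw Q' hQQ hQ']
    apply sum_le_sum_of_subset_of_nonneg
    · intro B hB
      rw [mem_filter] at hB ⊢
      exact ⟨hB.1, hQQ.trans hB.2⟩
    · intro B _ _
      exact hw0 B
  · intro p q hpq
    have hq := hs q
    unfold capf at hq ⊢
    rw [sum_powerset_insert (by simpa using hpq), hq]
    have hps : ({q} : Finset P).powerset = {∅, {q}} := by
      ext B; simp [Finset.subset_singleton_iff]
    rw [hps, sum_insert (by simp), sum_singleton]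
    have e1 : insert p (∅ : Finset P) = {p} := by simp
    rw [e1, card_singleton, card_pair hpq]
    simp
    ring

end Pool.Agent.Lib.MP_8d8c46_lc.Gap
end

section

set_option autoImplicit false

open Finset
open scoped Classical

namespace Pool.Agent.Lib.MP_8d8c46_lc.Gap

open Pool.Agent.Lib.MP_8d8c46_lc Pool.Agent.Lib.MP_8d8c46_lc.SDP Pool.Agent.Lib.MP_8d8c46_lc.EL

private theorem K02_sg_add (s t : ZMod 2) : sg (s + t) = sg s * sg t := by
  have h2 : ∀ a : ZMod 2, a = 0 ∨ a = 1 := by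
    intro a
    fin_cases a
    · exact Or.inl rfl
    · exact Or.inr rfl
  have h11 : (1 : ZMod 2) + 1 = 0 := CharTwo.add_self_eq_zero 1
  have h0 : sg (0 : ZMod 2) = 1 := by unfold sg; rw [if_pos rfl]
  have h1 : sg (1 : ZMod 2) = -1 := by unfold sg; rw [if_neg one_ne_zero]
  rcases h2 s with rfl | rfl <;> rcases h2 t with rfl | rfl
  · rw [add_zero, h0, mul_one]
  · rw [zero_add, h0, one_mul]
  · rw [add_zero, h0, mul_one]
  · rw [h11, h0, h1]; norm_num

private theorem K02_cor {D : ℕ} (x y : Cube D) : cor x y = (∑ i, sg (x i) * sg (y i)) / D := by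
  unfold cor
  simp only [K02_sg_add]

/-- Bessel's inequality for almost orthogonal vectors. For `x : Cube D` let `x' i = sg (x i) / √D`
(a unit vector; `cor x y = ⟨x', y'⟩` as `sg (x i + y i) = sg (x i) * sg (y i)`). With
`c j = cor x (y j)`, `S = ∑ j ∈ J, c j²` and `v = ∑ j ∈ J, c j (y j)'`: `⟨x', v⟩ = S`,
`‖v‖² = ∑∑ c i c j cor (y i) (y j) ≤ ∑ c i² + γ (∑ |c i|)² ≤ (1 + |J| γ) S` (the diagonal terms are
`c i²`, `cor y y = 1`). Cauchy-Schwarz: `S² ≤ (1 + |J| γ) S`. -/
theorem K02_bessel {D : ℕ} (hD : 1 ≤ D) {ι : Type*} (J : Finset ι) (x : Cube D) (y : ι → Cube D)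
    {γ : ℝ} (hγ : 0 ≤ γ) (h : ∀ i ∈ J, ∀ j ∈ J, i ≠ j → |cor (y i) (y j)| ≤ γ) :
    ∑ j ∈ J, cor x (y j) ^ 2 ≤ 1 + J.card * γ := by
  have hD0 : (0 : ℝ) < D := by exact_mod_cast hD
  set c : ι → ℝ := fun j => cor x (y j) with hc
  set S : ℝ := ∑ j ∈ J, c j ^ 2 with hS
  have hS0 : 0 ≤ S := sum_nonneg fun j _ => sq_nonneg _
  -- the vector
  set v : Fin D → ℝ := fun k => ∑ j ∈ J, c j * sg (y j k) with hv
  have h1 : (∑ k, sg (x k) * v k) = S * D := by
    simp only [hv, mul_sum]
    rw [sum_comm, hS, sum_mul]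
    refine sum_congr rfl fun j _ => ?_
    have h2 : c j * D = ∑ k, sg (x k) * sg (y j k) := by
      simp only [hc]
      rw [K02_cor, div_mul_cancel₀ _ hD0.ne']
    rw [sq, mul_assoc, h2, mul_sum]
    exact sum_congr rfl fun k _ => by ring
  have hx1 : (∑ k, sg (x k) ^ 2) = D := by
    have h2 := (E1_cor hD x x).2.1
    rw [K02_cor, div_eq_one_iff_eq hD0.ne'] at h2
    rw [← h2]
    exact sum_congr rfl fun k _ => by ring
  have h3 : (∑ k, v k ^ 2) = (∑ i ∈ J, ∑ j ∈ J, c i * c j * cor (y i) (y j)) * D := by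
    have h4 : ∀ k, v k ^ 2 = ∑ i ∈ J, ∑ j ∈ J, (c i * sg (y i k)) * (c j * sg (y j k)) := by
      intro k
      simp only [hv]
      rw [sq, sum_mul_sum]
    simp only [h4]
    rw [sum_comm, sum_mul]
    refine sum_congr rfl fun i _ => ?_
    rw [sum_comm, sum_mul]
    refine sum_congr rfl fun j _ => ?_
    rw [K02_cor, mul_assoc, div_mul_cancel₀ _ hD0.ne', mul_sum]
    exact sum_congr rfl fun k _ => by ring
  have h5 : (∑ i ∈ J, ∑ j ∈ J, c i * c j * cor (y i) (y j)) ≤ (1 + J.card * γ) * S := by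
    have h6 : ∀ i ∈ J, ∀ j ∈ J, c i * c j * cor (y i) (y j) ≤
        (if i = j then c i ^ 2 else 0) + γ * (|c i| * |c j|) := by
      intro i hi j hj
      by_cases hij : i = j
      · subst hij
        rw [if_pos rfl, (E1_cor hD (y i) (y i)).2.1]
        have : 0 ≤ γ * (|c i| * |c i|) := by positivity
        nlinarith
      · rw [if_neg hij, zero_add]
        calc c i * c j * cor (y i) (y j) ≤ |c i * c j * cor (y i) (y j)| := le_abs_self _
          _ = (|c i| * |c j|) * |cor (y i) (y j)| := by rw [abs_mul, abs_mul]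
          _ ≤ (|c i| * |c j|) * γ :=
              mul_le_mul_of_nonneg_left (h i hi j hj hij) (by positivity)
          _ = γ * (|c i| * |c j|) := by ring
    calc (∑ i ∈ J, ∑ j ∈ J, c i * c j * cor (y i) (y j))
        ≤ ∑ i ∈ J, ∑ j ∈ J, ((if i = j then c i ^ 2 else 0) + γ * (|c i| * |c j|)) :=
          sum_le_sum fun i hi => sum_le_sum fun j hj => h6 i hi j hj
      _ = S + γ * (∑ i ∈ J, |c i|) ^ 2 := by
          simp only [sum_add_distrib]
          congr 1
          · rw [hS]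
            refine sum_congr rfl fun i hi => ?_
            rw [sum_ite_eq, if_pos hi]
          · rw [sq, sum_mul_sum, mul_sum]
            refine sum_congr rfl fun i _ => ?_
            rw [mul_sum]
      _ ≤ S + γ * (J.card * S) := by
          have h8 : (∑ i ∈ J, |c i|) ^ 2 ≤ J.card * ∑ i ∈ J, |c i| ^ 2 :=
            sq_sum_le_card_mul_sum_sq
          simp only [sq_abs] at h8
          have := mul_le_mul_of_nonneg_left h8 hγ
          linarith
      _ = (1 + J.card * γ) * S := by ring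
  have h9 : (S * D) ^ 2 ≤ D * (((1 + J.card * γ) * S) * D) := by
    rw [← h1]
    calc (∑ k, sg (x k) * v k) ^ 2 ≤ (∑ k, sg (x k) ^ 2) * ∑ k, v k ^ 2 :=
          sum_mul_sq_le_sq_mul_sq _ _ _
      _ ≤ D * (((1 + J.card * γ) * S) * D) := by
          rw [hx1, h3]
          have := mul_le_mul_of_nonneg_right h5 hD0.le
          exact mul_le_mul_of_nonneg_left this hD0.le
  have h10 : S * S ≤ (1 + J.card * γ) * S := by
    have h11 : (S * S) * (D * D : ℝ) ≤ ((1 + J.card * γ) * S) * (D * D) := by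
      calc (S * S) * (D * D : ℝ) = (S * D) ^ 2 := by ring
        _ ≤ D * (((1 + J.card * γ) * S) * D) := h9
        _ = ((1 + J.card * γ) * S) * (D * D) := by ring
    exact le_of_mul_le_mul_right h11 (by positivity)
  rcases hS0.eq_or_lt with h12 | h12
  · rw [← h12]
    positivity
  · exact le_of_mul_le_mul_right h10 h12

end Pool.Agent.Lib.MP_8d8c46_lc.Gap
end

section

set_option autoImplicit false

open Finset
open scoped Classical

namespace Pool.Agent.Lib.MP_8d8c46_lc.Gap

open Pool.Agent.Lib.MP_8d8c46_lc Pool.Agent.Lib.MP_8d8c46_lc.SDP Pool.Agent.Lib.MP_8d8c46_lc.EL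

/-- `near` is symmetric (`E1_cor`), joins different vertices, and two different points of the same
good tuple cannot both be near `p`: with `J = {q, q'}`, positions `pos q`, `pos q'` of correlation
at most `γ`, `K02_bessel` gives `3/4 + 3/4 ≤ 1 + 2 γ`. -/
theorem K04_near {R D b : ℕ} {Y : Type} (hD : 1 ≤ D) {γ : ℝ} (hγ0 : 0 ≤ γ) (hγ : γ ≤ 1 / 8) :
    (∀ p q : (Tup R D b × Y) × Fin R, near γ p q → near γ q p) ∧
      (∀ p q : (Tup R D b × Y) × Fin R, near γ p q → p.1 ≠ q.1) ∧
      ∀ p q q' : (Tup R D b × Y) × Fin R, near γ p q → near γ p q' → q.1 = q'.1 → q = q' := by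
  refine ⟨?_, ?_, ?_⟩
  · rintro p q ⟨h1, h2, h3, h4⟩
    refine ⟨fun h => h1 h.symm, h3, h2, ?_⟩
    rw [(E1_cor hD (pos q) (pos p)).2.2.2.2]
    exact h4
  · rintro p q ⟨h1, -, -, -⟩
    exact h1
  · rintro p ⟨v, i⟩ ⟨v', j⟩ ⟨-, -, hg, h4⟩ ⟨-, -, -, h4'⟩ hv
    have hv' : v = v' := hv
    subst hv'
    by_contra hne
    have hij : i ≠ j := fun h => hne (by rw [h])
    have hb := K02_bessel hD ({i, j} : Finset (Fin R)) (pos p) (fun k => (v.1 k).1) hγ0
      (fun k _ l _ hkl => hg k l hkl)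
    rw [sum_pair hij, card_pair hij] at hb
    have e1 : pos ((v, i) : (Tup R D b × Y) × Fin R) = (v.1 i).1 := rfl
    have e2 : pos ((v, j) : (Tup R D b × Y) × Fin R) = (v.1 j).1 := rfl
    rw [e1] at h4
    rw [e2] at h4'
    push_cast at hb
    linarith

end Pool.Agent.Lib.MP_8d8c46_lc.Gap
end

section

set_option autoImplicit false

open Finset
open scoped Classical

namespace Pool.Agent.Lib.MP_8d8c46_lc.Gap

open Pool.Agent.Lib.MP_8d8c46_lc Pool.Agent.Lib.MP_8d8c46_lc.SDP Pool.Agent.Lib.MP_8d8c46_lc.EL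

/-- Sums over the active points of one vertex. -/
private theorem K08_ovsum {R D b : ℕ} [NeZero b] {Y : Type} [Fintype Y] (a : ℕ)
    (t : ZMod b) (u : Tup R D b × Y) (f : (Tup R D b × Y) × Fin R → ℝ) :
    ∑ p ∈ ov (act Y a t) {u}, f p =
      ∑ i : Fin R, if (t - (u.1 i).2).val < a then f (u, i) else 0 := by
  unfold ov act
  rw [Finset.filter_filter, Finset.sum_filter, Fintype.sum_prod_type]
  rw [Finset.sum_eq_single u]
  · apply Finset.sum_congr rfl
    intro i _
    simp [mk]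
  · intro w _ hw
    apply Finset.sum_eq_zero
    intro i _
    rw [if_neg]
    rintro ⟨_, h⟩
    exact hw (Finset.mem_singleton.mp h)
  · intro h
    exact absurd (Finset.mem_univ _) h

private theorem K08_card {R D b : ℕ} [NeZero b] {Y : Type} [Fintype Y] (a : ℕ)
    (t : ZMod b) (u : Tup R D b × Y)
    [DecidablePred (fun p : (Tup R D b × Y) × Fin R => p.1 = u)] :
    (((act Y a t).filter (fun p : (Tup R D b × Y) × Fin R => p.1 = u)).card : ℝ) =
      ∑ i : Fin R, if (t - (u.1 i).2).val < a then (1 : ℝ) else 0 := by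
  rw [← K08_ovsum a t u (fun _ => 1)]
  have h : (act Y a t).filter (fun p : (Tup R D b × Y) × Fin R => p.1 = u) =
      ov (act Y a t) {u} := by
    ext p
    simp only [ov, Finset.mem_filter, Finset.mem_singleton]
  rw [h]
  simp

/-- `UU ∅ = 0` and `UU {v} = (∑ t, #{i : (v, i) active}) / (R a) = 1` by `C01_single` and
`K01_marks` (`capf U {p} = U {p} = 1`, `G02_props`, `G4_locCov`, `G5_single`). For `u ≠ v`, by
`C02_pair` (`capf U {p, q} = 1 + 1 - U {p, q} = lensP m (gram s p q)` for `p ≠ q`, `G10_pair`),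
`UU {u, v} = 2 - (1/(R a)) ∑ t, ∑ p, ∑ q, [near p q] lensP m (gram s p q)` over the active `p` over
`u` and `q` over `v`. If `u.1` or `v.1` is not good this is `2`, and `oT = 0`. If both are good the
difference to `2 - oT u.1 v.1` is `(1/(R a)) ∑ t, ∑ i, ∑ j` over the active pairs with
`cor^2 < 3/4` of `lensP m ((cor^2)^s) ≤ (cor^2)^s ≤ (3/4)^(s-1) cor^2` (`L6_le`), and
`∑ j, cor^2 ≤ 1 + R γ ≤ 2` (`K02_bessel`): at most
`(1/(R a)) * b * R * (3/4)^(s-1) * 2`. (`0 ≤ γ ≤ 1/8`, `R γ ≤ 1`.) -/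
theorem K08_values {R D b : ℕ} [NeZero b] {Y : Type} [Fintype Y] [DecidableEq Y] (hR : 1 ≤ R)
    (hD : 1 ≤ D) {γ : ℝ} (hγ0 : 0 ≤ γ) (hγ : γ ≤ 1 / 8) (hRγ : R * γ ≤ 1) {s : ℕ} (hs : 1 ≤ s)
    {m : ℕ} (hm : 1 ≤ m) {a : ℕ} (ha : 1 ≤ a) (hab : a ≤ b) :
    UU γ s m a (∅ : Finset (Tup R D b × Y)) = 0 ∧ (∀ v : Tup R D b × Y, UU γ s m a {v} = 1) ∧
      ∀ u v : Tup R D b × Y, u ≠ v →
        |UU γ s m a {u, v} - (2 - oT γ s m a u.1 v.1)| ≤ 2 * b / a * (3 / 4) ^ (s - 1) := by
  have hR0 : (0 : ℝ) < R := by exact_mod_cast hR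
  have ha0 : (0 : ℝ) < a := by exact_mod_cast ha
  have hRa : (0 : ℝ) < R * a := by positivity
  have hg := K03_gram (b := b) (Y := Y) (R := R) hD s
  have hL := G4_locCov hg.1 (2 * m + 1)
  obtain ⟨-, hpos, hmono, hsing, hpair⟩ := G02_props hL
  obtain ⟨hN1, hN2, hN3⟩ := K04_near (R := R) (D := D) (b := b) (Y := Y) hD hγ0 hγ
  have h1 : ∀ p : (Tup R D b × Y) × Fin R, capf (covU (2 * m + 1) (gram s)) {p} = 1 := by
    intro p
    rw [hsing p, G5_single hg.1 (by omega) p]
  have h2 : ∀ p q : (Tup R D b × Y) × Fin R, p ≠ q →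
      capf (covU (2 * m + 1) (gram s)) {p, q} = lensP m (gram s p q) := by
    intro p q hpq
    rw [hpair p q hpq, G5_single hg.1 (by omega) p, G5_single hg.1 (by omega) q,
      G10_pair hg.1 hg.2.1 hg.2.2.1 hm p q]
    ring
  have hE : ∀ (t : ZMod b) (v : Tup R D b × Y),
      EE (near γ) (capf (covU (2 * m + 1) (gram s))) (act Y a t) {v} =
        ∑ i : Fin R, if (t - (v.1 i).2).val < a then (1 : ℝ) else 0 := by
    intro t v
    rw [(C01_single (act Y a t) h1 hN2).2 v, K08_card]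
  have hcount : ∀ v : Tup R D b × Y, ∑ t : ZMod b, (∑ i : Fin R,
      if (t - (v.1 i).2).val < a then (1 : ℝ) else 0) = R * a := by
    intro v
    rw [Finset.sum_comm]
    have h3 : ∀ i : Fin R, ∑ t : ZMod b, (if (t - (v.1 i).2).val < a then (1 : ℝ) else 0) = a := by
      intro i
      rw [Finset.sum_boole, K01_marks hab]
    simp only [h3]
    rw [Finset.sum_const, Finset.card_univ, Fintype.card_fin, nsmul_eq_mul]
  refine ⟨?_, ?_, ?_⟩
  · unfold UU
    have h3 : ∀ t : ZMod b, EE (near γ) (capf (covU (2 * m + 1) (gram s))) (act Y a t)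
        (∅ : Finset (Tup R D b × Y)) = 0 := fun t => (C01_single (act Y a t) h1 hN2).1
    simp only [h3]
    simp
  · intro v
    unfold UU
    simp only [hE]
    rw [hcount v, div_self hRa.ne']
  · intro u v huv
    have hUU : UU γ s m a {u, v} = 2 - (∑ t : ZMod b, ∑ i : Fin R, ∑ j : Fin R,
        if (t - (u.1 i).2).val < a ∧ (t - (v.1 j).2).val < a then
          (if near γ (u, i) (v, j) then
            capf (covU (2 * m + 1) (gram s)) {(u, i), (v, j)} else 0) else 0) / (R * a) := by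
      unfold UU
      have h3 : ∀ t : ZMod b, EE (near γ) (capf (covU (2 * m + 1) (gram s))) (act Y a t)
          ({u, v} : Finset (Tup R D b × Y)) =
          (∑ i : Fin R, if (t - (u.1 i).2).val < a then (1 : ℝ) else 0) +
          (∑ i : Fin R, if (t - (v.1 i).2).val < a then (1 : ℝ) else 0) -
          ∑ i : Fin R, ∑ j : Fin R,
            if (t - (u.1 i).2).val < a ∧ (t - (v.1 j).2).val < a then
              (if near γ (u, i) (v, j) then
                capf (covU (2 * m + 1) (gram s)) {(u, i), (v, j)} else 0) else 0 := by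
        intro t
        rw [C02_pair (act Y a t) hN1 hN2 huv, hE, hE]
        congr 1
        rw [K08_ovsum]
        apply Finset.sum_congr rfl
        intro i _
        by_cases hi : (t - (u.1 i).2).val < a
        · rw [if_pos hi, K08_ovsum]
          apply Finset.sum_congr rfl
          intro j _
          by_cases hj : (t - (v.1 j).2).val < a
          · rw [if_pos hj, if_pos (show (t - (u.1 i).2).val < a ∧ (t - (v.1 j).2).val < a from ⟨hi, hj⟩)]
          · rw [if_neg hj, if_neg (fun h => hj h.2)]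
        · rw [if_neg hi]
          symm
          apply Finset.sum_eq_zero
          intro j _
          rw [if_neg (fun h => hi h.1)]
      simp only [h3]
      rw [Finset.sum_sub_distrib, Finset.sum_add_distrib, hcount u, hcount v, sub_div, add_div,
        div_self hRa.ne']
      norm_num
    have hnear : ∀ i j : Fin R, near γ (u, i) (v, j) ↔ (good γ u.1 ∧ good γ v.1 ∧
        3 / 4 ≤ cor (u.1 i).1 (v.1 j).1 ^ 2) := by
      intro i j
      constructor
      · intro h
        exact h.2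
      · intro h
        exact ⟨huv, h⟩
    have hrhs : 0 ≤ 2 * (b : ℝ) / a * (3 / 4) ^ (s - 1) := by positivity
    by_cases hgd : good γ u.1 ∧ good γ v.1
    · rw [hUU]
      unfold oT
      rw [if_pos hgd]
      have hdiff : (2 - (∑ t : ZMod b, ∑ i : Fin R, ∑ j : Fin R,
          if (t - (u.1 i).2).val < a ∧ (t - (v.1 j).2).val < a then
            (if near γ (u, i) (v, j) then
              capf (covU (2 * m + 1) (gram s)) {(u, i), (v, j)} else 0) else 0) / (R * a : ℝ)) -
          (2 - (∑ t : ZMod b, ∑ i, ∑ j,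
            if (t - (u.1 i).2).val < a ∧ (t - (v.1 j).2).val < a then
              lensP m ((cor (u.1 i).1 (v.1 j).1 ^ 2) ^ s) else 0) / (R * a : ℝ)) =
          (∑ t : ZMod b, ∑ i : Fin R, ∑ j : Fin R,
            if (t - (u.1 i).2).val < a ∧ (t - (v.1 j).2).val < a then
              (if near γ (u, i) (v, j) then 0 else
                lensP m ((cor (u.1 i).1 (v.1 j).1 ^ 2) ^ s)) else 0) / (R * a : ℝ) := by
        have h4 : ∀ x y : ℝ, (2 - x / (R * a)) - (2 - y / (R * a)) = (y - x) / (R * a) := by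
          intro x y
          ring
        rw [h4]
        congr 1
        rw [← Finset.sum_sub_distrib]
        apply Finset.sum_congr rfl
        intro t _
        rw [← Finset.sum_sub_distrib]
        apply Finset.sum_congr rfl
        intro i _
        rw [← Finset.sum_sub_distrib]
        apply Finset.sum_congr rfl
        intro j _
        have hne : ((u, i) : (Tup R D b × Y) × Fin R) ≠ (v, j) := fun h => huv (congrArg Prod.fst h)
        rw [h2 _ _ hne]
        have h5 : gram s ((u, i) : (Tup R D b × Y) × Fin R) (v, j) =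
            (cor (u.1 i).1 (v.1 j).1 ^ 2) ^ s := rfl
        rw [h5]
        split_ifs <;> ring
      rw [hdiff]
      have hcor : ∀ i j : Fin R, 0 ≤ cor (u.1 i).1 (v.1 j).1 ^ 2 ∧
          cor (u.1 i).1 (v.1 j).1 ^ 2 ≤ 1 := by
        intro i j
        have hc := E1_cor hD (u.1 i).1 (v.1 j).1
        have := abs_le.mp hc.2.2.1
        exact ⟨sq_nonneg _, by nlinarith⟩
      have hnn : ∀ i j : Fin R, 0 ≤ lensP m ((cor (u.1 i).1 (v.1 j).1 ^ 2) ^ s) := by
        intro i j
        exact ((L2_close m).2 _ (pow_nonneg (hcor i j).1 s)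
          (pow_le_one₀ (hcor i j).1 (hcor i j).2)).1
      have hterm0 : ∀ (t : ZMod b) (i j : Fin R),
          0 ≤ (if (t - (u.1 i).2).val < a ∧ (t - (v.1 j).2).val < a then
              (if near γ (u, i) (v, j) then 0 else
                lensP m ((cor (u.1 i).1 (v.1 j).1 ^ 2) ^ s)) else 0) := by
        intro t i j
        split_ifs
        · exact le_rfl
        · exact hnn i j
        · exact le_rfl
      have hterm1 : ∀ (t : ZMod b) (i j : Fin R),
          (if (t - (u.1 i).2).val < a ∧ (t - (v.1 j).2).val < a then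
              (if near γ (u, i) (v, j) then 0 else
                lensP m ((cor (u.1 i).1 (v.1 j).1 ^ 2) ^ s)) else 0) ≤
            (3 / 4) ^ (s - 1) * cor (u.1 i).1 (v.1 j).1 ^ 2 := by
        intro t i j
        have h6 : 0 ≤ (3 / 4 : ℝ) ^ (s - 1) * cor (u.1 i).1 (v.1 j).1 ^ 2 :=
          mul_nonneg (by positivity) (hcor i j).1
        split_ifs with h7 h8
        · exact h6
        · rw [hnear] at h8
          have h9 : cor (u.1 i).1 (v.1 j).1 ^ 2 ≤ 3 / 4 := by
            by_contra hcon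
            push Not at hcon
            exact h8 ⟨hgd.1, hgd.2, hcon.le⟩
          have h10 := L6_le m (pow_nonneg (hcor i j).1 s)
            (pow_le_one₀ (n := s) (hcor i j).1 (hcor i j).2)
          have h11 : (cor (u.1 i).1 (v.1 j).1 ^ 2) ^ s =
              (cor (u.1 i).1 (v.1 j).1 ^ 2) ^ (s - 1) * cor (u.1 i).1 (v.1 j).1 ^ 2 := by
            rw [← pow_succ]
            congr 1
            omega
          rw [h11] at h10 ⊢
          refine le_trans h10 ?_
          exact mul_le_mul_of_nonneg_right (pow_le_pow_left₀ (hcor i j).1 h9 _) (hcor i j).1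
        · exact h6
      have hsum0 : 0 ≤ (∑ t : ZMod b, ∑ i : Fin R, ∑ j : Fin R,
            if (t - (u.1 i).2).val < a ∧ (t - (v.1 j).2).val < a then
              (if near γ (u, i) (v, j) then 0 else
                lensP m ((cor (u.1 i).1 (v.1 j).1 ^ 2) ^ s)) else 0) :=
        Finset.sum_nonneg fun t _ => Finset.sum_nonneg fun i _ => Finset.sum_nonneg fun j _ =>
          hterm0 t i j
      have hrow : ∀ i : Fin R, ∑ j : Fin R, cor (u.1 i).1 (v.1 j).1 ^ 2 ≤ 2 := by
        intro i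
        have h12 := K02_bessel hD (Finset.univ : Finset (Fin R)) (u.1 i).1
          (fun j => (v.1 j).1) hγ0 (fun j _ j' _ hjj => hgd.2 j j' hjj)
        rw [Finset.card_univ, Fintype.card_fin] at h12
        linarith
      have hsum1 : (∑ t : ZMod b, ∑ i : Fin R, ∑ j : Fin R,
            if (t - (u.1 i).2).val < a ∧ (t - (v.1 j).2).val < a then
              (if near γ (u, i) (v, j) then 0 else
                lensP m ((cor (u.1 i).1 (v.1 j).1 ^ 2) ^ s)) else 0) ≤
          ∑ t : ZMod b, ∑ i : Fin R, (3 / 4 : ℝ) ^ (s - 1) * 2 := by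
        apply Finset.sum_le_sum
        intro t _
        apply Finset.sum_le_sum
        intro i _
        refine le_trans (Finset.sum_le_sum fun j _ => hterm1 t i j) ?_
        rw [← Finset.mul_sum]
        exact mul_le_mul_of_nonneg_left (hrow i) (by positivity)
      rw [abs_of_nonneg (div_nonneg hsum0 hRa.le), div_le_iff₀ hRa]
      refine le_trans hsum1 ?_
      rw [Finset.sum_const, Finset.sum_const, Finset.card_univ, Finset.card_univ, ZMod.card,
        Fintype.card_fin, nsmul_eq_mul, nsmul_eq_mul]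
      apply le_of_eq
      field_simp
    · have h3 : UU γ s m a {u, v} = 2 := by
        rw [hUU]
        have h4 : (∑ t : ZMod b, ∑ i : Fin R, ∑ j : Fin R,
            if (t - (u.1 i).2).val < a ∧ (t - (v.1 j).2).val < a then
              (if near γ (u, i) (v, j) then
                capf (covU (2 * m + 1) (gram s)) {(u, i), (v, j)} else 0) else 0) = 0 := by
          apply Finset.sum_eq_zero
          intro t _
          apply Finset.sum_eq_zero
          intro i _
          apply Finset.sum_eq_zero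
          intro j _
          have h5 : ¬ near γ (u, i) (v, j) := by
            rw [hnear]
            intro h
            exact hgd ⟨h.1, h.2.1⟩
          rw [if_neg h5, ite_self]
        rw [h4]
        simp
      have h4 : oT γ s m a u.1 v.1 = 0 := by
        unfold oT
        rw [if_neg hgd]
      rw [h3, h4]
      simpa using hrhs

end Pool.Agent.Lib.MP_8d8c46_lc.Gap
end

section

set_option autoImplicit false

open Finset
open scoped Classical

namespace Pool.Agent.Lib.MP_8d8c46_lc.Gap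

open Pool.Agent.Lib.MP_8d8c46_lc Pool.Agent.Lib.MP_8d8c46_lc.SDP Pool.Agent.Lib.MP_8d8c46_lc.EL

private lemma K09_inst {α : Type} (i j : Fintype α) (f : α → ℝ) : @avg α i f = @avg α j f := by
  rw [Subsingleton.elim i j]

private lemma K09_avg {D b : ℕ} [NeZero b] (hD : 1 ≤ D) (x : Cube D) :
    avg (fun y : Cube D × ZMod b => cor x y.1 ^ 2) = 1 / D := by
  unfold avg
  rw [Fintype.sum_prod_type]
  have h1 : ∀ y : Cube D, ∑ _z : ZMod b, cor x y ^ 2 = Fintype.card (ZMod b) * cor x y ^ 2 := by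
    intro y
    rw [sum_const, card_univ, nsmul_eq_mul]
  have h2 : ∑ y : Cube D, ∑ z : ZMod b, cor x ((y, z) : Cube D × ZMod b).1 ^ 2
      = Fintype.card (ZMod b) * (2 ^ D / (D : ℝ)) := by
    rw [← E3_mean hD x, mul_sum]
    exact sum_congr rfl fun y _ => h1 y
  rw [h2, Fintype.card_prod]
  have hc : (Fintype.card (Cube D) : ℝ) = 2 ^ D := F2_card D
  have hb : (Fintype.card (ZMod b) : ℝ) ≠ 0 := by exact_mod_cast Fintype.card_ne_zero
  push_cast
  rw [hc]
  have hD0 : (D : ℝ) ≠ 0 := by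
    have : (1 : ℝ) ≤ D := by exact_mod_cast hD
    linarith
  field_simp

/-- Means of functions of one coordinate, and Markov. The average of `cor x (v.1 j).1 ^ 2` over
`v : Tup R D b × Y` is the average of `cor x y ^ 2` over `y : Cube D`, i.e. `1 / D` (`E3_mean`,
`EL.avg_coord` or `Fintype.sum_equiv`/`Equiv.funSplitAt`). -/
theorem K09_mean {R D b : ℕ} [NeZero b] {Y : Type} [Fintype Y] (hD : 1 ≤ D) (x : Cube D)
    (j : Fin R) :
    ∑ v : Tup R D b × Y, cor x (v.1 j).1 ^ 2 = Fintype.card (Tup R D b × Y) / D ∧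
      ∀ θ : ℝ, 0 < θ →
        (((univ : Finset (Tup R D b × Y)).filter
          (fun v => θ ≤ cor x (v.1 j).1 ^ 2)).card : ℝ) ≤
          Fintype.card (Tup R D b × Y) / (D * θ) := by
  have h1 : avg (fun ω : Fin R → Cube D × ZMod b => (fun y : Cube D × ZMod b => cor x y.1 ^ 2) (ω j))
      = 1 / D := by
    exact (K09_inst _ _ _).trans
      ((avg_coord j (fun y : Cube D × ZMod b => cor x y.1 ^ 2)).trans (K09_avg hD x))
  have hT : (Fintype.card (Tup R D b) : ℝ) ≠ 0 := by exact_mod_cast Fintype.card_ne_zero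
  have h2 : ∑ ω : Tup R D b, cor x (ω j).1 ^ 2 = Fintype.card (Tup R D b) / D := by
    unfold avg at h1
    rw [div_eq_iff hT] at h1
    rw [show ∑ ω : Tup R D b, cor x (ω j).1 ^ 2
      = ∑ ω : Fin R → Cube D × ZMod b, (fun y : Cube D × ZMod b => cor x y.1 ^ 2) (ω j) from rfl, h1]
    ring
  have h3 : ∑ v : Tup R D b × Y, cor x (v.1 j).1 ^ 2 = Fintype.card (Tup R D b × Y) / D := by
    rw [Fintype.sum_prod_type]
    have h4 : ∀ ω : Tup R D b, ∑ _y : Y, cor x (ω j).1 ^ 2
        = Fintype.card Y * cor x (ω j).1 ^ 2 := by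
      intro ω
      rw [sum_const, card_univ, nsmul_eq_mul]
    calc ∑ ω : Tup R D b, ∑ y : Y, cor x (((ω, y) : Tup R D b × Y).1 j).1 ^ 2
        = ∑ ω : Tup R D b, Fintype.card Y * cor x (ω j).1 ^ 2 := sum_congr rfl fun ω _ => h4 ω
      _ = Fintype.card Y * (Fintype.card (Tup R D b) / D) := by rw [← mul_sum, h2]
      _ = _ := by
        rw [Fintype.card_prod]
        push_cast
        ring
  refine ⟨h3, fun θ hθ => ?_⟩
  refine (markov (f := fun v : Tup R D b × Y => cor x (v.1 j).1 ^ 2)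
    (fun v => sq_nonneg _) hθ).trans (le_of_eq ?_)
  rw [h3, div_div]

end Pool.Agent.Lib.MP_8d8c46_lc.Gap
end

section

set_option autoImplicit false

open Finset
open scoped Classical

namespace Pool.Agent.Lib.MP_8d8c46_lc.Gap

open Pool.Agent.Lib.MP_8d8c46_lc Pool.Agent.Lib.MP_8d8c46_lc.SDP Pool.Agent.Lib.MP_8d8c46_lc.EL

private lemma K10_cor {D : ℕ} (hD : 1 ≤ D) (x y : Cube D) : 0 ≤ cor x y ^ 2 ∧ cor x y ^ 2 ≤ 1 :=
  ⟨sq_nonneg _, (sq_le_one_iff_abs_le_one _).2 (E1_cor hD x y).2.2.1⟩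

private lemma K10_le {R D b : ℕ} [NeZero b] (hR : 1 ≤ R) (hD : 1 ≤ D) (γ : ℝ)
    {s : ℕ} (hs : 1 ≤ s) (m : ℕ) {a : ℕ} (ha : 1 ≤ a) (ω ω' : Tup R D b) :
    oT γ s m a ω ω' ≤ (∑ i, ∑ j, cor (ω i).1 (ω' j).1 ^ 2) * (b / (R * a)) := by
  have hRa : (0 : ℝ) < R * a := by
    have h1 : (0 : ℝ) < R := by exact_mod_cast hR
    have h2 : (0 : ℝ) < a := by exact_mod_cast ha
    positivity
  have hS : 0 ≤ ∑ i, ∑ j, cor (ω i).1 (ω' j).1 ^ 2 :=
    sum_nonneg fun i _ => sum_nonneg fun j _ => sq_nonneg _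
  unfold oT
  split_ifs with h
  · rw [div_le_iff₀ hRa]
    have h1 : ∀ t : ZMod b, (∑ i, ∑ j,
        if (t - (ω i).2).val < a ∧ (t - (ω' j).2).val < a then
          lensP m ((cor (ω i).1 (ω' j).1 ^ 2) ^ s) else 0) ≤ ∑ i, ∑ j, cor (ω i).1 (ω' j).1 ^ 2 := by
      intro t
      refine sum_le_sum fun i _ => sum_le_sum fun j _ => ?_
      obtain ⟨h2, h3⟩ := K10_cor hD (ω i).1 (ω' j).1
      split_ifs
      · exact (L6_le m (pow_nonneg h2 s) (pow_le_one₀ h2 h3)).trans
          (pow_le_of_le_one h2 h3 (by omega))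
      · exact h2
    calc _ ≤ ∑ _t : ZMod b, ∑ i, ∑ j, cor (ω i).1 (ω' j).1 ^ 2 := sum_le_sum fun t _ => h1 t
      _ = b * ∑ i, ∑ j, cor (ω i).1 (ω' j).1 ^ 2 := by
        rw [sum_const, card_univ, ZMod.card, nsmul_eq_mul]
      _ = _ := by
        field_simp
  · positivity

/-- `oT u.1 v.1 ≤ (1/(R a)) ∑ t, ∑ i, ∑ j, (cor^2)^s ≤ (b/(R a)) ∑ i, ∑ j, cor (u.1 i).1 (v.1 j).1 ^ 2`
(`L6_le`, `lensP ≤ y ≤ cor^2`; `0 ≤` everything), and sum over `v` with `K09_mean`. -/
theorem K10_row {R D b : ℕ} [NeZero b] {Y : Type} [Fintype Y] (hR : 1 ≤ R) (hD : 1 ≤ D) (γ : ℝ)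
    {s : ℕ} (hs : 1 ≤ s) (m : ℕ) {a : ℕ} (ha : 1 ≤ a) (u : Tup R D b × Y) :
    ∑ v : Tup R D b × Y, oT γ s m a u.1 v.1 ≤
      (b * R / (a * D) : ℝ) * Fintype.card (Tup R D b × Y) := by
  have hR0 : (R : ℝ) ≠ 0 := by
    have : (0 : ℝ) < R := by exact_mod_cast hR
    exact this.ne'
  calc ∑ v : Tup R D b × Y, oT γ s m a u.1 v.1
      ≤ ∑ v : Tup R D b × Y, (∑ i, ∑ j, cor (u.1 i).1 (v.1 j).1 ^ 2) * (b / (R * a)) :=
        sum_le_sum fun v _ => K10_le hR hD γ hs m ha u.1 v.1
    _ = (∑ i : Fin R, ∑ j : Fin R, ∑ v : Tup R D b × Y, cor (u.1 i).1 (v.1 j).1 ^ 2)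
          * (b / (R * a)) := by
        rw [← sum_mul, sum_comm]
        congr 1
        exact sum_congr rfl fun i _ => sum_comm
    _ = (∑ i : Fin R, ∑ j : Fin R, (Fintype.card (Tup R D b × Y) / D : ℝ)) * (b / (R * a)) := by
        congr 1
        exact sum_congr rfl fun i _ => sum_congr rfl fun j _ => (K09_mean hD (u.1 i).1 j).1
    _ = _ := by
        rw [sum_const, sum_const, card_univ, Fintype.card_fin, nsmul_eq_mul, nsmul_eq_mul]
        field_simp
    _ ≤ _ := le_refl _

end Pool.Agent.Lib.MP_8d8c46_lc.Gap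
end

section

set_option autoImplicit false

open Finset
open scoped Classical

namespace Pool.Agent.Lib.MP_8d8c46_lc.Gap

open Pool.Agent.Lib.MP_8d8c46_lc Pool.Agent.Lib.MP_8d8c46_lc.SDP Pool.Agent.Lib.MP_8d8c46_lc.EL

private theorem C03_ov {V : Type} {R : ℕ} (Act : Finset (V × Fin R)) (S : Finset V)
    (p : V × Fin R) : p ∈ ov Act S ↔ p ∈ Act ∧ p.1 ∈ S := by
  unfold ov
  rw [Finset.mem_filter]

/-- A nonempty clique over `insert v T` cannot contain points over `v` and points over `T`; so the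
nonempty cliques over `insert v T` are those over `T` and those over `{v}` (disjoint families
because `v ∉ T`). -/
theorem C03_far {V : Type} [DecidableEq V] {R : ℕ} {near : V × Fin R → V × Fin R → Prop}
    {I : Finset (V × Fin R) → ℝ} (Act : Finset (V × Fin R)) {v : V} {T : Finset V} (hv : v ∉ T)
    (hfar : ∀ p q, p.1 = v → q.1 ∈ T → ¬ near p q) :
    EE near I Act (insert v T) = EE near I Act T + EE near I Act {v} := by
  have hov : ∀ (S : Finset V) (p : V × Fin R), p ∈ ov Act S ↔ p ∈ Act ∧ p.1 ∈ S :=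
    fun S p => C03_ov Act S p
  have hcl : ∀ (S : Finset V) (Q : Finset (V × Fin R)), Q ∈ clqs near Act S ↔
      (Q ⊆ ov Act S) ∧ Q.Nonempty ∧ Clq near Q := by
    intro S Q
    unfold clqs
    rw [Finset.mem_filter, Finset.mem_powerset]
  have hun : clqs near Act (insert v T) = clqs near Act T ∪ clqs near Act {v} := by
    ext Q
    rw [Finset.mem_union, hcl, hcl, hcl]
    constructor
    · rintro ⟨hQ, hne, hc⟩
      by_cases h : ∃ p ∈ Q, p.1 = v
      · right
        obtain ⟨p, hp, hpv⟩ := h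
        refine ⟨?_, hne, hc⟩
        intro q hq
        rw [hov]
        have h1 := (hov _ _).1 (hQ hq)
        refine ⟨h1.1, ?_⟩
        rcases Finset.mem_insert.1 h1.2 with h2 | h2
        · rw [Finset.mem_singleton]
          exact h2
        · exfalso
          have hne' : p ≠ q := by
            intro heq
            rw [← heq, hpv] at h2
            exact hv h2
          exact hfar p q hpv h2 (hc p hp q hq hne')
      · left
        refine ⟨?_, hne, hc⟩
        intro q hq
        rw [hov]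
        have h1 := (hov _ _).1 (hQ hq)
        refine ⟨h1.1, ?_⟩
        rcases Finset.mem_insert.1 h1.2 with h2 | h2
        · exact absurd ⟨q, hq, h2⟩ h
        · exact h2
    · rintro (⟨hQ, hne, hc⟩ | ⟨hQ, hne, hc⟩)
      · refine ⟨fun q hq => ?_, hne, hc⟩
        rw [hov]
        have h1 := (hov _ _).1 (hQ hq)
        exact ⟨h1.1, Finset.mem_insert_of_mem h1.2⟩
      · refine ⟨fun q hq => ?_, hne, hc⟩
        rw [hov]
        have h1 := (hov _ _).1 (hQ hq)
        refine ⟨h1.1, ?_⟩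
        rw [Finset.mem_singleton.1 h1.2]
        exact Finset.mem_insert_self _ _
  have hdis : Disjoint (clqs near Act T) (clqs near Act {v}) := by
    rw [Finset.disjoint_left]
    intro Q h1 h2
    rw [hcl] at h1 h2
    obtain ⟨p, hp⟩ := h1.2.1
    have h3 := ((hov _ _).1 (h1.1 hp)).2
    have h4 := ((hov _ _).1 (h2.1 hp)).2
    rw [Finset.mem_singleton.1 h4] at h3
    exact hv h3
  unfold EE
  rw [hun, Finset.sum_union hdis]

end Pool.Agent.Lib.MP_8d8c46_lc.Gap
end

section

set_option autoImplicit false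

open Finset
open scoped Classical

namespace Pool.Agent.Lib.MP_8d8c46_lc.Gap

open Pool.Agent.Lib.MP_8d8c46_lc Pool.Agent.Lib.MP_8d8c46_lc.SDP Pool.Agent.Lib.MP_8d8c46_lc.EL

/-- If `v ∉ T` has no point near a point over `T`, then by `C03_far`
`EE (insert v R') = EE R' + EE {v}` for every `t` and `R' ⊆ T`, so
`UU (insert v R') = UU R' + UU {v} = UU R' + 1` (`K08_values`). Otherwise there are `u ∈ T`, `i`, `j`
with `3/4 ≤ cor (u.1 i).1 (v.1 j).1 ^ 2`; by `K09_mean` with `θ = 3/4` there are at most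
`k R R (4/3) / D * N ≤ (2 k R² / D) N` such `v`. -/
theorem K11_far {R D b : ℕ} [NeZero b] {Y : Type} [Fintype Y] [DecidableEq Y] (hR : 1 ≤ R)
    (hD : 1 ≤ D) {γ : ℝ} (hγ0 : 0 ≤ γ) (hγ : γ ≤ 1 / 8) (hRγ : R * γ ≤ 1) {s : ℕ} (hs : 1 ≤ s)
    {m : ℕ} (hm : 1 ≤ m) {a : ℕ} (ha : 1 ≤ a) (hab : a ≤ b) {k : ℕ}
    (T : Finset (Tup R D b × Y)) (hT : T.card ≤ k) :
    (((univ \ T).filter (fun v => ¬ ∀ R' ⊆ T, UU γ s m a (insert v R') =
      UU γ s m a R' + 1)).card : ℝ) ≤ 2 * k * R ^ 2 / D * Fintype.card (Tup R D b × Y) := by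
  have hD0 : (0 : ℝ) < D := by exact_mod_cast hD
  have hsub : (univ \ T).filter (fun v => ¬ ∀ R' ⊆ T, UU γ s m a (insert v R') =
      UU γ s m a R' + 1) ⊆
      (T ×ˢ (univ : Finset (Fin R × Fin R))).biUnion (fun x =>
        univ.filter (fun v : Tup R D b × Y =>
          (3 / 4 : ℝ) ≤ cor (x.1.1 x.2.1).1 (v.1 x.2.2).1 ^ 2)) := by
    intro v hv
    obtain ⟨hv1, hv2⟩ := mem_filter.1 hv
    have hvT : v ∉ T := (mem_sdiff.1 hv1).2
    by_contra hcon
    apply hv2
    intro R' hR'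
    have hfar : ∀ p q : (Tup R D b × Y) × Fin R, p.1 = v → q.1 ∈ R' → ¬ near γ p q := by
      intro p q hp hq hn
      apply hcon
      refine mem_biUnion.2 ⟨(q.1, (q.2, p.2)), mem_product.2 ⟨hR' hq, mem_univ _⟩,
        mem_filter.2 ⟨mem_univ _, ?_⟩⟩
      have h1 := hn.2.2.2
      have h2 := (E1_cor hD (pos p) (pos q)).2.2.2.2
      rw [h2] at h1
      rw [← hp]
      exact h1
    have hEE : ∀ t : ZMod b,
        EE (near γ) (capf (covU (2 * m + 1) (gram s))) (act Y a t) (insert v R') =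
          EE (near γ) (capf (covU (2 * m + 1) (gram s))) (act Y a t) R' +
            EE (near γ) (capf (covU (2 * m + 1) (gram s))) (act Y a t) {v} :=
      fun t => C03_far (act Y a t) (fun h => hvT (hR' h)) hfar
    have hone : UU γ s m a {v} = 1 := (K08_values hR hD hγ0 hγ hRγ hs hm ha hab).2.1 v
    have hU : UU γ s m a (insert v R') = UU γ s m a R' + UU γ s m a {v} := by
      unfold UU
      rw [← add_div, ← sum_add_distrib]
      congr 1
      exact sum_congr rfl fun t _ => hEE t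
    rw [hU, hone]
  have hone : ∀ x ∈ T ×ˢ (univ : Finset (Fin R × Fin R)),
      ((univ.filter (fun v : Tup R D b × Y =>
          (3 / 4 : ℝ) ≤ cor (x.1.1 x.2.1).1 (v.1 x.2.2).1 ^ 2)).card : ℝ) ≤
        Fintype.card (Tup R D b × Y) / (D * (3 / 4)) := fun x _ =>
    (K09_mean hD (x.1.1 x.2.1).1 x.2.2).2 (3 / 4) (by norm_num)
  have hN : (0 : ℝ) ≤ Fintype.card (Tup R D b × Y) := Nat.cast_nonneg _
  have hk : (T.card : ℝ) ≤ k := by exact_mod_cast hT
  calc (((univ \ T).filter (fun v => ¬ ∀ R' ⊆ T, UU γ s m a (insert v R') =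
      UU γ s m a R' + 1)).card : ℝ)
      ≤ (((T ×ˢ (univ : Finset (Fin R × Fin R))).biUnion (fun x =>
        univ.filter (fun v : Tup R D b × Y =>
          (3 / 4 : ℝ) ≤ cor (x.1.1 x.2.1).1 (v.1 x.2.2).1 ^ 2))).card : ℝ) := by
        exact_mod_cast card_le_card hsub
    _ ≤ ∑ x ∈ T ×ˢ (univ : Finset (Fin R × Fin R)),
        ((univ.filter (fun v : Tup R D b × Y =>
          (3 / 4 : ℝ) ≤ cor (x.1.1 x.2.1).1 (v.1 x.2.2).1 ^ 2)).card : ℝ) := by
        exact_mod_cast card_biUnion_le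
    _ ≤ ∑ x ∈ T ×ˢ (univ : Finset (Fin R × Fin R)),
        (Fintype.card (Tup R D b × Y) / (D * (3 / 4)) : ℝ) := sum_le_sum hone
    _ = T.card * (R * R) * (Fintype.card (Tup R D b × Y) / (D * (3 / 4))) := by
        rw [sum_const, card_product, card_univ, Fintype.card_prod, Fintype.card_fin, nsmul_eq_mul]
        push_cast
        ring
    _ ≤ k * (R * R) * (Fintype.card (Tup R D b × Y) / (D * (3 / 4))) := by gcongr
    _ ≤ 2 * k * R ^ 2 / D * Fintype.card (Tup R D b × Y) := by
        have h1 : k * (R * R) * (Fintype.card (Tup R D b × Y) / (D * (3 / 4)) : ℝ) =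
          4 / 3 * (k * R ^ 2 / D * Fintype.card (Tup R D b × Y)) := by
          field_simp
        have h2 : (2 * k * R ^ 2 / D * Fintype.card (Tup R D b × Y) : ℝ) =
          2 * (k * R ^ 2 / D * Fintype.card (Tup R D b × Y)) := by ring
        rw [h1, h2]
        have h3 : (0 : ℝ) ≤ k * R ^ 2 / D * Fintype.card (Tup R D b × Y) := by positivity
        linarith

end Pool.Agent.Lib.MP_8d8c46_lc.Gap
end

section

set_option autoImplicit false

open Finset
open scoped Classical

namespace Pool.Agent.Lib.MP_8d8c46_lc.Gap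

open Pool.Agent.Lib.MP_8d8c46_lc Pool.Agent.Lib.MP_8d8c46_lc.SDP Pool.Agent.Lib.MP_8d8c46_lc.EL

private lemma K12_inst {α : Type} (i j : Fintype α) (f : α → ℝ) : @avg α i f = @avg α j f := by
  rw [Subsingleton.elim i j]

private lemma K12_erase {α : Type} [Fintype α] (i j : DecidableEq α) (a : α) :
    @Finset.erase α i univ a = @Finset.erase α j univ a := by
  rw [Subsingleton.elim i j]

private lemma K12_upd {α β : Type} (i₀ : DecidableEq α) (ω : α → β) {i j : α} (hij : i ≠ j)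
    (a : β) : @Function.update α (fun _ => β) i₀ ω j a i = ω i := Function.update_of_ne hij a ω

private lemma K12_upd' {α β : Type} (i₀ : DecidableEq α) (ω : α → β) (j : α)
    (a : β) : @Function.update α (fun _ => β) i₀ ω j a j = a := Function.update_self j a ω

private lemma K12_avg {D b : ℕ} [NeZero b] (hD : 1 ≤ D) (x : Cube D) :
    avg (fun y : Cube D × ZMod b => cor x y.1 ^ 2) = 1 / D := by
  unfold avg
  rw [Fintype.sum_prod_type]
  have h1 : ∀ y : Cube D, ∑ _z : ZMod b, cor x y ^ 2 = Fintype.card (ZMod b) * cor x y ^ 2 := by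
    intro y
    rw [sum_const, card_univ, nsmul_eq_mul]
  have h2 : ∑ y : Cube D, ∑ z : ZMod b, cor x ((y, z) : Cube D × ZMod b).1 ^ 2
      = Fintype.card (ZMod b) * (2 ^ D / (D : ℝ)) := by
    rw [← E3_mean hD x, mul_sum]
    exact sum_congr rfl fun y _ => h1 y
  rw [h2, Fintype.card_prod]
  have hc : (Fintype.card (Cube D) : ℝ) = 2 ^ D := F2_card D
  have hb : (Fintype.card (ZMod b) : ℝ) ≠ 0 := by exact_mod_cast Fintype.card_ne_zero
  push_cast
  rw [hc]
  have hD0 : (D : ℝ) ≠ 0 := by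
    have : (1 : ℝ) ≤ D := by exact_mod_cast hD
    linarith
  field_simp

private lemma K12_pair {R D b : ℕ} [NeZero b] (hD : 1 ≤ D) {i j : Fin R} (hij : i ≠ j) :
    ∑ ω : Tup R D b, cor (ω i).1 (ω j).1 ^ 2 = Fintype.card (Tup R D b) / D := by
  have hT : (Fintype.card (Tup R D b) : ℝ) ≠ 0 := by exact_mod_cast Fintype.card_ne_zero
  have h0 := avg_cd (fun ω : Fin R → Cube D × ZMod b => cor (ω i).1 (ω j).1 ^ 2) (univ.erase j)
  have h1 : ∀ ω : Fin R → Cube D × ZMod b,
      cd (fun ω : Fin R → Cube D × ZMod b => cor (ω i).1 (ω j).1 ^ 2) (univ.erase j) ω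
        = 1 / D := by
    intro ω
    have h2 := cd_erase (fun ω : Fin R → Cube D × ZMod b => cor (ω i).1 (ω j).1 ^ 2) j ω
    rw [← K12_avg (b := b) hD (ω i).1]
    refine (congrArg (fun S => cd (fun ω : Fin R → Cube D × ZMod b =>
      cor (ω i).1 (ω j).1 ^ 2) S ω) (K12_erase _ _ j)).trans (h2.trans ?_)
    congr 1
    funext a
    rw [K12_upd _ _ hij, K12_upd']
  have h4 : avg (fun ω : Tup R D b => cor (ω i).1 (ω j).1 ^ 2) = 1 / D := by
    have h5 : avg (fun _ : Tup R D b => (1 / D : ℝ)) = 1 / D := avg_const _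
    rw [← h5]
    have h6 : (cd (fun ω : Fin R → Cube D × ZMod b => cor (ω i).1 (ω j).1 ^ 2) (univ.erase j))
        = fun _ => (1 / D : ℝ) := by
      funext ω
      exact h1 ω
    rw [← h6]
    exact (K12_inst _ _ _).trans (h0.symm.trans (K12_inst _ _ _))
  unfold avg at h4
  rw [div_eq_iff hT] at h4
  rw [h4]
  ring

/-- The tuples which are not good: union bound over the pairs `i ≠ j`. For fixed `i ≠ j` the number
of `ω` with `γ < |cor (ω i).1 (ω j).1|`, i.e. `γ² < cor^2`, is at most `(1 / (D γ²))` times the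
number of all tuples: for fixed values of the other coordinates the average over the `j`-th
coordinate of `cor x (ω j).1 ^2` is `1/D` (`E3_mean`). -/
theorem K12_bad {R D b : ℕ} [NeZero b] (hD : 1 ≤ D) {γ : ℝ} (hγ : 0 < γ) :
    (((univ : Finset (Tup R D b)).filter (fun ω => ¬ good γ ω)).card : ℝ) ≤
      R ^ 2 / (D * γ ^ 2) * Fintype.card (Tup R D b) := by
  have hD0 : (0 : ℝ) < D := by exact_mod_cast hD
  have hsub : (univ : Finset (Tup R D b)).filter (fun ω => ¬ good γ ω) ⊆
      ((univ : Finset (Fin R × Fin R)).filter (fun p => p.1 ≠ p.2)).biUnion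
        (fun p => univ.filter (fun ω : Tup R D b => γ ^ 2 ≤ cor (ω p.1).1 (ω p.2).1 ^ 2)) := by
    intro ω hω
    have h1 := (mem_filter.1 hω).2
    unfold good at h1
    push Not at h1
    obtain ⟨i, j, hij, h2⟩ := h1
    refine mem_biUnion.2 ⟨(i, j), mem_filter.2 ⟨mem_univ _, hij⟩, mem_filter.2 ⟨mem_univ _, ?_⟩⟩
    show γ ^ 2 ≤ cor (ω i).1 (ω j).1 ^ 2
    rw [← sq_abs (cor (ω i).1 (ω j).1)]
    exact pow_le_pow_left₀ hγ.le h2.le 2
  have hone : ∀ p ∈ (univ : Finset (Fin R × Fin R)).filter (fun p => p.1 ≠ p.2),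
      ((univ.filter (fun ω : Tup R D b => γ ^ 2 ≤ cor (ω p.1).1 (ω p.2).1 ^ 2)).card : ℝ) ≤
        Fintype.card (Tup R D b) / (D * γ ^ 2) := by
    intro p hp
    have hp2 := (mem_filter.1 hp).2
    refine (markov (f := fun ω : Tup R D b => cor (ω p.1).1 (ω p.2).1 ^ 2)
      (fun _ => sq_nonneg _) (by positivity : (0 : ℝ) < γ ^ 2)).trans (le_of_eq ?_)
    rw [K12_pair hD hp2, div_div]
  calc (((univ : Finset (Tup R D b)).filter (fun ω => ¬ good γ ω)).card : ℝ)
      ≤ ((((univ : Finset (Fin R × Fin R)).filter (fun p => p.1 ≠ p.2)).biUnion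
        (fun p => univ.filter (fun ω : Tup R D b => γ ^ 2 ≤ cor (ω p.1).1 (ω p.2).1 ^ 2))).card : ℝ) := by
        exact_mod_cast card_le_card hsub
    _ ≤ ∑ p ∈ (univ : Finset (Fin R × Fin R)).filter (fun p => p.1 ≠ p.2),
        ((univ.filter (fun ω : Tup R D b => γ ^ 2 ≤ cor (ω p.1).1 (ω p.2).1 ^ 2)).card : ℝ) := by
        exact_mod_cast card_biUnion_le
    _ ≤ ∑ p ∈ (univ : Finset (Fin R × Fin R)).filter (fun p => p.1 ≠ p.2),
        (Fintype.card (Tup R D b) / (D * γ ^ 2) : ℝ) := sum_le_sum hone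
    _ ≤ ∑ p : Fin R × Fin R, (Fintype.card (Tup R D b) / (D * γ ^ 2) : ℝ) :=
        sum_le_sum_of_subset_of_nonneg (filter_subset _ _) fun _ _ _ => by positivity
    _ = _ := by
        rw [sum_const, card_univ, Fintype.card_prod, Fintype.card_fin, nsmul_eq_mul]
        push_cast
        ring

end Pool.Agent.Lib.MP_8d8c46_lc.Gap
end

section

set_option autoImplicit false

open Finset
open scoped Classical

namespace Pool.Agent.Lib.MP_8d8c46_lc.Gap

open Pool.Agent.Lib.MP_8d8c46_lc Pool.Agent.Lib.MP_8d8c46_lc.SDP Pool.Agent.Lib.MP_8d8c46_lc.EL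

/-- Fix `v ∈ B`. A clique `Q` with `Q.image Prod.fst = B` contains a point `p` over `v`, exactly one
by `hN2`. The map `Q ↦ p.2` to `Fin R` is injective: if `Q, Q'` both contain `p` and `q ∈ Q` is
another point, there is `q' ∈ Q'` with `q'.1 = q.1` (`≠ p.1`), so `q' ≠ p`, both are near `p`, so
`q = q'` by `hN3`. -/
theorem C04_count {V : Type} [DecidableEq V] {R : ℕ} {near : V × Fin R → V × Fin R → Prop}
    (Act : Finset (V × Fin R)) (hN2 : ∀ p q, near p q → p.1 ≠ q.1)
    (hN3 : ∀ p q q', near p q → near p q' → q.1 = q'.1 → q = q') {B : Finset V}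
    (hB : B.Nonempty) :
    ((ov Act B).powerset.filter (fun Q => Clq near Q ∧ Q.image Prod.fst = B)).card ≤ R := by
  obtain ⟨v, hv⟩ := hB
  have key : ∀ Q ∈ (ov Act B).powerset.filter (fun Q => Clq near Q ∧ Q.image Prod.fst = B),
      ∃ p ∈ Q, p.1 = v := by
    intro Q hQ
    rw [Finset.mem_filter] at hQ
    have h1 : v ∈ Q.image Prod.fst := by
      rw [hQ.2.2]
      exact hv
    obtain ⟨p, hp, hpv⟩ := Finset.mem_image.1 h1
    exact ⟨p, hp, hpv⟩
  have hf : ∀ Q, ∃ i : Option (Fin R),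
      Q ∈ (ov Act B).powerset.filter (fun Q => Clq near Q ∧ Q.image Prod.fst = B) →
        ∃ j, i = some j ∧ (v, j) ∈ Q := by
    intro Q
    by_cases hQ : Q ∈ (ov Act B).powerset.filter (fun Q => Clq near Q ∧ Q.image Prod.fst = B)
    · obtain ⟨p, hp, hpv⟩ := key Q hQ
      refine ⟨some p.2, fun _ => ⟨p.2, rfl, ?_⟩⟩
      rw [← hpv]
      exact hp
    · exact ⟨none, fun h => absurd h hQ⟩
  choose f hf using hf
  have hsub : ∀ Q Q' : Finset (V × Fin R),
      Q ∈ (ov Act B).powerset.filter (fun Q => Clq near Q ∧ Q.image Prod.fst = B) →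
      Q' ∈ (ov Act B).powerset.filter (fun Q => Clq near Q ∧ Q.image Prod.fst = B) →
      ∀ j, (v, j) ∈ Q → (v, j) ∈ Q' → Q ⊆ Q' := by
    intro Q Q' hQ hQ' j hj hj' q hq
    rw [Finset.mem_filter] at hQ hQ'
    by_cases hqj : (v, j) = q
    · rw [← hqj]
      exact hj'
    · have hnear : near (v, j) q := hQ.2.1 _ hj _ hq hqj
      have h1 : q.1 ∈ Q'.image Prod.fst := by
        rw [hQ'.2.2, ← hQ.2.2]
        exact Finset.mem_image_of_mem _ hq
      obtain ⟨q', hq', hqq⟩ := Finset.mem_image.1 h1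
      have hne : (v, j) ≠ q' := by
        intro heq
        apply hN2 _ _ hnear
        rw [← hqq, ← heq]
      have hnear' : near (v, j) q' := hQ'.2.1 _ hj' _ hq' hne
      rw [hN3 _ _ _ hnear hnear' hqq.symm]
      exact hq'
  have hcard : ((ov Act B).powerset.filter
      (fun Q => Clq near Q ∧ Q.image Prod.fst = B)).card ≤
      ((univ : Finset (Fin R)).image some).card := by
    apply Finset.card_le_card_of_injOn f
    · intro Q hQ
      obtain ⟨j, hj, -⟩ := hf Q hQ
      rw [hj]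
      exact Finset.mem_coe.2 (Finset.mem_image_of_mem _ (Finset.mem_univ _))
    · intro Q hQ Q' hQ' heq
      obtain ⟨j, hj, hjQ⟩ := hf Q hQ
      obtain ⟨j', hj', hjQ'⟩ := hf Q' hQ'
      have hjj : j = j' := by
        have h1 : some j = some j' := by rw [← hj, ← hj']; exact heq
        exact Option.some_injective _ h1
      rw [← hjj] at hjQ'
      exact Finset.Subset.antisymm (hsub Q Q' hQ hQ' j hjQ hjQ') (hsub Q' Q hQ' hQ j hjQ' hjQ)
  refine hcard.trans ?_
  rw [Finset.card_image_of_injective _ (Option.some_injective _), Finset.card_univ,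
    Fintype.card_fin]

end Pool.Agent.Lib.MP_8d8c46_lc.Gap
end

section

set_option autoImplicit false

open Finset
open scoped Classical

namespace Pool.Agent.Lib.MP_8d8c46_lc.Gap

open Pool.Agent.Lib.MP_8d8c46_lc Pool.Agent.Lib.MP_8d8c46_lc.SDP Pool.Agent.Lib.MP_8d8c46_lc.EL

/-- `G01_atoms` for `A = Q₀ ∪ N`: the sum is `∑ B ⊆ A, Q₀ ⊆ B, w B * ∑ R ⊆ N ∩ B, (-1)^|R|`, and the
inner sum is `1` if `N ∩ B = ∅` and `0` otherwise. -/
theorem G03_alt {P : Type*} [DecidableEq P] {n : ℕ} {U : Finset P → ℝ} (hU : LocCov n U)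
    (Q₀ N : Finset P) (hQ : Q₀.Nonempty) (hd : Disjoint Q₀ N) (hc : (Q₀ ∪ N).card ≤ n) :
    0 ≤ ∑ R ∈ N.powerset, (-1) ^ R.card * capf U (Q₀ ∪ R) := by
  obtain ⟨w, hw0, hw⟩ := G01_atoms hU hc
  have h1 : ∀ R ∈ N.powerset, (-1 : ℝ) ^ R.card * capf U (Q₀ ∪ R) =
      ∑ B ∈ (Q₀ ∪ N).powerset.filter (fun B => Q₀ ⊆ B),
        w B * (if R ⊆ B then (-1) ^ R.card else 0) := by
    intro R hR
    rw [mem_powerset] at hR
    rw [hw (Q₀ ∪ R) (union_subset_union_right hR) (hQ.mono subset_union_left), mul_sum]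
    have hf : (Q₀ ∪ N).powerset.filter (fun B => Q₀ ∪ R ⊆ B) =
        ((Q₀ ∪ N).powerset.filter (fun B => Q₀ ⊆ B)).filter (fun B => R ⊆ B) := by
      ext B
      simp only [mem_filter, union_subset_iff, and_assoc]
    rw [hf, sum_filter]
    apply sum_congr rfl
    intro B _
    split_ifs <;> ring
  rw [sum_congr rfl h1, sum_comm]
  apply sum_nonneg
  intro B _
  rw [← mul_sum]
  apply mul_nonneg (hw0 B)
  have hp : N.powerset.filter (fun R => R ⊆ B) = (N ∩ B).powerset := by
    ext R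
    simp only [mem_filter, mem_powerset, subset_inter_iff]
  rw [← sum_filter, hp]
  have h := Finset.sum_powerset_neg_one_pow_card (x := N ∩ B)
  have h2 : (∑ R ∈ (N ∩ B).powerset, (-1 : ℝ) ^ R.card) =
      ((if N ∩ B = ∅ then 1 else 0 : ℤ) : ℝ) := by
    rw [← h]; push_cast; rfl
  rw [h2]
  split_ifs <;> simp

end Pool.Agent.Lib.MP_8d8c46_lc.Gap
end

section

set_option autoImplicit false

open Finset
open scoped Classical

namespace Pool.Agent.Lib.MP_8d8c46_lc.Gap

open Pool.Agent.Lib.MP_8d8c46_lc Pool.Agent.Lib.MP_8d8c46_lc.SDP Pool.Agent.Lib.MP_8d8c46_lc.EL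

/-- Let `U = covU (2 m + 1) (gram s)`; `LocCov (2 m + 1) U` (`G4_locCov`, `K03_gram`), `U {p} = 1`
(`G5_single`) and `U {p, q} = 2 - lensP m (gram s p q)` (`G10_pair`). By `G02_props`
`0 ≤ capf U Q ≤ capf U {p, q} = lensP m (gram s p q) ≤ gram s p q` (`L6_le`). As `p.1 ≠ q.1` and both
tuples are good (they have near points), not near means `cor (pos p) (pos q)^2 < 3/4`. -/
theorem K05_small {R D b : ℕ} [NeZero b] {Y : Type} [Fintype Y] (hD : 1 ≤ D) {m : ℕ} (hm : 1 ≤ m)
    (s : ℕ) {γ : ℝ} (Q : Finset ((Tup R D b × Y) × Fin R)) (p q : (Tup R D b × Y) × Fin R)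
    (hQ : Q.card ≤ 2 * m + 1) (hp : p ∈ Q) (hq : q ∈ Q) (hpq : p.1 ≠ q.1) (hn : ¬ near γ p q)
    (h1 : ∃ r, near γ r p) (h2 : ∃ r, near γ r q) :
    |capf (covU (2 * m + 1) (gram s)) Q| ≤ (3 / 4) ^ s := by
  have hg := K03_gram (b := b) (Y := Y) (R := R) hD s
  have hL := G4_locCov hg.1 (2 * m + 1)
  obtain ⟨-, hpos, hmono, -, hpair⟩ := G02_props hL
  have hne : p ≠ q := fun h => hpq (by rw [h])
  have hsub : ({p, q} : Finset ((Tup R D b × Y) × Fin R)) ⊆ Q := by
    intro x hx
    simp only [Finset.mem_insert, Finset.mem_singleton] at hx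
    rcases hx with rfl | rfl
    · exact hp
    · exact hq
  have hle := hmono {p, q} Q hsub ⟨p, by simp⟩ hQ
  rw [hpair p q hne, G5_single hg.1 (by omega) p, G5_single hg.1 (by omega) q,
    G10_pair hg.1 hg.2.1 hg.2.2.1 hm p q] at hle
  have h0 := hpos Q ⟨p, hp⟩ hQ
  have h3 : gram s p q ≤ (3 / 4) ^ s := by
    unfold gram
    refine pow_le_pow_left₀ (sq_nonneg _) ?_ s
    by_contra hcon
    push Not at hcon
    obtain ⟨r, hr⟩ := h1
    obtain ⟨r', hr'⟩ := h2
    exact hn ⟨hpq, hr.2.2.1, hr'.2.2.1, hcon.le⟩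
  have h4 := L6_le m (hg.2.2.1 p q) (hg.2.2.2.1 p q)
  rw [abs_of_nonneg h0]
  linarith

end Pool.Agent.Lib.MP_8d8c46_lc.Gap
end

section

set_option autoImplicit false

open Finset
open scoped Classical

namespace Pool.Agent.Lib.MP_8d8c46_lc.Gap

open Pool.Agent.Lib.MP_8d8c46_lc Pool.Agent.Lib.MP_8d8c46_lc.SDP Pool.Agent.Lib.MP_8d8c46_lc.EL

/-- The overlap of a tuple with a permuted noisy copy. In the definition of `oT` keep only the terms
`j = σ i` with `(ω i).2 = (ω' (σ i)).2` (all terms are nonnegative, `L2_close`); for such `i` both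
conditions on `t` agree, and there are `a` values of `t` (`K01_marks`). -/
theorem L01_lower {R D b : ℕ} [NeZero b] (hR : 1 ≤ R) (hD : 1 ≤ D) {γ : ℝ} (s m : ℕ) {a : ℕ}
    (ha : 1 ≤ a) (hab : a ≤ b) {ω ω' : Tup R D b} (h : good γ ω) (h' : good γ ω')
    (σ : Equiv.Perm (Fin R)) :
    (∑ i, if (ω i).2 = (ω' (σ i)).2 then
      lensP m ((cor (ω i).1 (ω' (σ i)).1 ^ 2) ^ s) else 0) / R ≤ oT γ s m a ω ω' := by
  have hR0 : (0 : ℝ) < R := by exact_mod_cast hR
  have ha0 : (0 : ℝ) < a := by exact_mod_cast ha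
  unfold oT
  rw [if_pos ⟨h, h'⟩]
  have hnn : ∀ i j : Fin R, 0 ≤ lensP m ((cor (ω i).1 (ω' j).1 ^ 2) ^ s) := by
    intro i j
    have hc := E1_cor hD (ω i).1 (ω' j).1
    have h2 : cor (ω i).1 (ω' j).1 ^ 2 ≤ 1 := by
      have := abs_le.mp hc.2.2.1
      nlinarith
    have h3 : 0 ≤ cor (ω i).1 (ω' j).1 ^ 2 := sq_nonneg _
    exact ((L2_close m).2 _ (pow_nonneg h3 s) (pow_le_one₀ h3 h2)).1
  rw [div_le_div_iff₀ hR0 (by positivity)]
  have key : (a : ℝ) * (∑ i, if (ω i).2 = (ω' (σ i)).2 then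
      lensP m ((cor (ω i).1 (ω' (σ i)).1 ^ 2) ^ s) else 0) ≤
      ∑ t : ZMod b, ∑ i, ∑ j, if (t - (ω i).2).val < a ∧ (t - (ω' j).2).val < a then
        lensP m ((cor (ω i).1 (ω' j).1 ^ 2) ^ s) else 0 := by
    rw [Finset.mul_sum, Finset.sum_comm]
    apply Finset.sum_le_sum
    intro i _
    have h1 : ∀ t : ZMod b, (if (t - (ω i).2).val < a ∧ (t - (ω' (σ i)).2).val < a then
        lensP m ((cor (ω i).1 (ω' (σ i)).1 ^ 2) ^ s) else 0) ≤
        ∑ j, if (t - (ω i).2).val < a ∧ (t - (ω' j).2).val < a then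
          lensP m ((cor (ω i).1 (ω' j).1 ^ 2) ^ s) else 0 := by
      intro t
      refine Finset.single_le_sum (f := fun j => if (t - (ω i).2).val < a ∧
        (t - (ω' j).2).val < a then lensP m ((cor (ω i).1 (ω' j).1 ^ 2) ^ s) else 0) ?_
        (Finset.mem_univ (σ i))
      intro j _
      split_ifs
      · exact hnn i j
      · exact le_rfl
    refine le_trans ?_ (Finset.sum_le_sum fun t _ => h1 t)
    by_cases hm : (ω i).2 = (ω' (σ i)).2
    · rw [if_pos hm]
      have h2 : ∀ t : ZMod b, (if (t - (ω i).2).val < a ∧ (t - (ω' (σ i)).2).val < a then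
          lensP m ((cor (ω i).1 (ω' (σ i)).1 ^ 2) ^ s) else 0) =
          (if (t - (ω i).2).val < a then (1 : ℝ) else 0) *
            lensP m ((cor (ω i).1 (ω' (σ i)).1 ^ 2) ^ s) := by
        intro t
        rw [← hm]
        by_cases hact : (t - (ω i).2).val < a
        · rw [if_pos ⟨hact, hact⟩, if_pos hact, one_mul]
        · rw [if_neg (fun h => hact h.1), if_neg hact, zero_mul]
      rw [Finset.sum_congr rfl fun t _ => h2 t, ← Finset.sum_mul, Finset.sum_boole,
        K01_marks hab]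
    · rw [if_neg hm, mul_zero]
      apply Finset.sum_nonneg
      intro t _
      split_ifs
      · exact hnn i (σ i)
      · exact le_rfl
  nlinarith

end Pool.Agent.Lib.MP_8d8c46_lc.Gap
end
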