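import Pool.Agent.Lib.MP_8d8c46_lc.Mg.G002
import Pool.Agent.Lib.MP_8d8c46_lc.Mg.G005
import Pool.Agent.Lib.MP_8d8c46_lc.Mg.G003

section

set_option autoImplicit false

open Finset
open scoped Classical

namespace Pool.Agent.Lib.MP_8d8c46_lc.Gap

open Pool.Agent.Lib.MP_8d8c46_lc Pool.Agent.Lib.MP_8d8c46_lc.SDP Pool.Agent.Lib.MP_8d8c46_lc.EL

private theorem C05_mem_ov {V : Type} {R : ℕ} (Act : Finset (V × Fin R)) (T : Finset V)
    (p : V × Fin R) : p ∈ ov Act T ↔ p ∈ Act ∧ p.1 ∈ T := by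
  unfold ov
  rw [mem_filter]

/-- Extensions of a clique. Let `B = Q₀.image Prod.fst ⊆ A`, so `|Q₀| = |B|` (`hN2`: `Prod.fst` is
injective on cliques), fix `p₀ ∈ Q₀`, and let `N` be the set of the points `q ∈ ov Act (A \ B)` which
are near all points of `Q₀`. By `hN3` (with `p₀`) `Prod.fst` is injective on `N`, so
`|Q₀ ∪ N| ≤ |B| + |A \ B| = |A| ≤ n`, and `Prod.fst` is injective on `Q₀ ∪ N`. If `Q'` is in the
index set then `Q' ⊆ N`; so the sum is
`∑ Q' ⊆ N, (-1)^|Q'| I (Q₀ ∪ Q') - ∑ over the Q' ⊆ N for which Q₀ ∪ Q' is not a clique`. The first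
sum is `≥ 0` by `hI2`. In the second every term is at most `ζ` in absolute value: take `p ≠ q` in
`Q₀ ∪ Q'` which are not near; as `Q₀` is a clique and points of `N` are near all points of `Q₀`
(`hN1`), both are in `Q' ⊆ N`, so both are near `p₀`, and `p.1 ≠ q.1`: use `hI3` with
`Q = Q₀ ∪ Q'`. There are at most `2^|N| ≤ 2^n` sets `Q'`. -/
theorem C05_inner {V : Type} [DecidableEq V] {R n : ℕ} {near : V × Fin R → V × Fin R → Prop}
    {I : Finset (V × Fin R) → ℝ} (Act : Finset (V × Fin R)) {ζ : ℝ} (hζ : 0 ≤ ζ)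
    (hI2 : ∀ Q₀ N : Finset (V × Fin R), Q₀.Nonempty → Disjoint Q₀ N → (Q₀ ∪ N).card ≤ n →
      0 ≤ ∑ Q' ∈ N.powerset, (-1) ^ Q'.card * I (Q₀ ∪ Q'))
    (hI3 : ∀ (Q : Finset (V × Fin R)) (p q : V × Fin R), Q.card ≤ n → p ∈ Q → q ∈ Q →
      p.1 ≠ q.1 → ¬ near p q → (∃ r, near r p) → (∃ r, near r q) → |I Q| ≤ ζ)
    (hN1 : ∀ p q, near p q → near q p) (hN2 : ∀ p q, near p q → p.1 ≠ q.1)
    (hN3 : ∀ p q q', near p q → near p q' → q.1 = q'.1 → q = q') {A : Finset V}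
    (hA : A.card ≤ n) (Q₀ : Finset (V × Fin R)) (hQ : Q₀.Nonempty) (hc : Clq near Q₀)
    (hQA : Q₀ ⊆ ov Act A) :
    -(2 ^ n * ζ) ≤ ∑ Q' ∈ (ov Act (A \ Q₀.image Prod.fst)).powerset.filter
      (fun Q' => Clq near (Q₀ ∪ Q')), (-1) ^ Q'.card * I (Q₀ ∪ Q') := by
  obtain ⟨p₀, hp₀⟩ := hQ
  set B := Q₀.image Prod.fst with hB
  set O := ov Act (A \ B) with hO
  set N := O.filter (fun q => ∀ p ∈ Q₀, near p q) with hN
  have hO1 : ∀ q ∈ O, q.1 ∈ A ∧ q.1 ∉ B := by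
    intro q hq
    have h1 := ((C05_mem_ov _ _ _).1 hq).2
    exact mem_sdiff.1 h1
  have hOQ : ∀ q ∈ O, ∀ p ∈ Q₀, p.1 ≠ q.1 := by
    intro q hq p hp h
    exact (hO1 q hq).2 (by rw [← h]; exact mem_image_of_mem _ hp)
  have hNO : N ⊆ O := filter_subset _ _
  have hdis : Disjoint Q₀ N := by
    rw [disjoint_left]
    intro p hp hpN
    exact hOQ p (hNO hpN) p hp rfl
  have hNn : ∀ q ∈ N, ∀ p ∈ Q₀, near p q := fun q hq => (mem_filter.1 hq).2
  have hinj : Set.InjOn Prod.fst ((Q₀ ∪ N : Finset (V × Fin R)) : Set (V × Fin R)) := by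
    intro p hp q hq hpq
    rw [mem_coe, mem_union] at hp hq
    by_contra hne
    rcases hp with hp | hp <;> rcases hq with hq | hq
    · exact hN2 p q (hc p hp q hq hne) hpq
    · exact hOQ q (hNO hq) p hp hpq
    · exact hOQ p (hNO hp) q hq hpq.symm
    · exact hne (hN3 p₀ p q (hNn p hp p₀ hp₀) (hNn q hq p₀ hp₀) hpq)
  have hcard : (Q₀ ∪ N).card ≤ n := by
    rw [← card_image_of_injOn hinj]
    refine (card_le_card ?_).trans hA
    intro v hv
    obtain ⟨p, hp, rfl⟩ := mem_image.1 hv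
    rcases mem_union.1 hp with hp | hp
    · exact ((C05_mem_ov _ _ _).1 (hQA hp)).2
    · exact (hO1 p (hNO hp)).1
  have hset : O.powerset.filter (fun Q' => Clq near (Q₀ ∪ Q')) =
      N.powerset.filter (fun Q' => Clq near (Q₀ ∪ Q')) := by
    ext Q'
    rw [mem_filter, mem_filter, mem_powerset, mem_powerset]
    constructor
    · rintro ⟨h1, h2⟩
      refine ⟨fun q hq => mem_filter.2 ⟨h1 hq, fun p hp => ?_⟩, h2⟩
      exact h2 p (mem_union_left _ hp) q (mem_union_right _ hq)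
        (fun h => hOQ q (h1 hq) p hp (by rw [h]))
    · rintro ⟨h1, h2⟩
      exact ⟨h1.trans hNO, h2⟩
  rw [hset]
  have hsplit := sum_filter_add_sum_filter_not N.powerset (fun Q' => Clq near (Q₀ ∪ Q'))
    (fun Q' => (-1 : ℝ) ^ Q'.card * I (Q₀ ∪ Q'))
  have hfirst := hI2 Q₀ N ⟨p₀, hp₀⟩ hdis hcard
  have hterm : ∀ Q' ∈ N.powerset.filter (fun Q' => ¬ Clq near (Q₀ ∪ Q')),
      (-1 : ℝ) ^ Q'.card * I (Q₀ ∪ Q') ≤ ζ := by
    intro Q' hQ'
    obtain ⟨h1, h2⟩ := mem_filter.1 hQ'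
    rw [mem_powerset] at h1
    unfold Clq at h2
    push Not at h2
    obtain ⟨p, hp, q, hq, hne, hnn⟩ := h2
    have hpQ : p ∈ Q' := by
      rcases mem_union.1 hp with hp1 | hp1
      · exfalso
        rcases mem_union.1 hq with hq1 | hq1
        · exact hnn (hc p hp1 q hq1 hne)
        · exact hnn (hNn q (h1 hq1) p hp1)
      · exact hp1
    have hqQ : q ∈ Q' := by
      rcases mem_union.1 hq with hq1 | hq1
      · exact absurd (hN1 _ _ (hNn p (h1 hpQ) q hq1)) hnn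
      · exact hq1
    have hpq1 : p.1 ≠ q.1 := fun h =>
      hne (hN3 p₀ p q (hNn p (h1 hpQ) p₀ hp₀) (hNn q (h1 hqQ) p₀ hp₀) h)
    have hcQ : (Q₀ ∪ Q').card ≤ n := (card_le_card (union_subset_union (Subset.refl _) h1)).trans hcard
    have h3 := hI3 (Q₀ ∪ Q') p q hcQ hp hq hpq1 hnn ⟨p₀, hNn p (h1 hpQ) p₀ hp₀⟩
      ⟨p₀, hNn q (h1 hqQ) p₀ hp₀⟩
    refine (le_abs_self _).trans ?_
    rw [abs_mul, abs_pow, abs_neg, abs_one, one_pow, one_mul]
    exact h3
  have hsecond : ∑ Q' ∈ N.powerset.filter (fun Q' => ¬ Clq near (Q₀ ∪ Q')),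
      (-1 : ℝ) ^ Q'.card * I (Q₀ ∪ Q') ≤ 2 ^ n * ζ := by
    refine (sum_le_card_nsmul _ _ ζ hterm).trans ?_
    rw [nsmul_eq_mul]
    refine mul_le_mul_of_nonneg_right ?_ hζ
    have h4 : (N.powerset.filter (fun Q' => ¬ Clq near (Q₀ ∪ Q'))).card ≤ 2 ^ n := by
      refine (card_le_card (filter_subset _ _)).trans ?_
      rw [card_powerset]
      exact Nat.pow_le_pow_right (by norm_num) ((card_le_card subset_union_right).trans hcard)
    exact_mod_cast h4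
  linarith

end Pool.Agent.Lib.MP_8d8c46_lc.Gap
end

section

set_option autoImplicit false

open Finset
open scoped Classical

namespace Pool.Agent.Lib.MP_8d8c46_lc.Gap

open Pool.Agent.Lib.MP_8d8c46_lc Pool.Agent.Lib.MP_8d8c46_lc.SDP Pool.Agent.Lib.MP_8d8c46_lc.EL

/-- Splitting a clique `Q` over `A` into its part `Q₀` over `B` and its part `Q'` over `A \ B`:
`Q = Q₀ ∪ Q'` is a bijection between the two index sets (`Q₀ = Q.filter (·.1 ∈ B)`; every subset of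
a clique is a clique). Signs: `|Q| = |Q₀| + |Q'|` and `|Q₀| = |B|` (`hN2`: `Prod.fst` is injective
on cliques), so `(-1)^(|Q| + |B|) = (-1)^|Q'|`. Use `Finset.sum_sigma'` and
`Finset.sum_bij'` / `Finset.sum_nbij'`. -/
theorem C06_decomp {V : Type} [DecidableEq V] {R : ℕ} {near : V × Fin R → V × Fin R → Prop}
    {I : Finset (V × Fin R) → ℝ} (Act : Finset (V × Fin R))
    (hN2 : ∀ p q, near p q → p.1 ≠ q.1) {A B : Finset V} (hB : B ⊆ A) :
    ∑ Q ∈ (ov Act A).powerset.filter (fun Q => Clq near Q ∧ B ⊆ Q.image Prod.fst),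
      (-1) ^ (Q.card + B.card) * I Q =
    ∑ Q₀ ∈ (ov Act B).powerset.filter (fun Q => Clq near Q ∧ Q.image Prod.fst = B),
      ∑ Q' ∈ (ov Act (A \ B)).powerset.filter (fun Q' => Clq near (Q₀ ∪ Q')),
        (-1) ^ Q'.card * I (Q₀ ∪ Q') := by
  rw [Finset.sum_sigma']
  have hmono : ∀ {Q Q₁ : Finset (V × Fin R)}, Q₁ ⊆ Q → Clq near Q → Clq near Q₁ :=
    fun hQ h p hp q hq hpq => h p (hQ hp) q (hQ hq) hpq
  have hov : ∀ {S : Finset V} {p : V × Fin R}, p ∈ ov Act S ↔ p ∈ Act ∧ p.1 ∈ S := by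
    intro S p
    simp only [ov, Finset.mem_filter]
  have hU : ∀ Q : Finset (V × Fin R),
      Q.filter (fun p => p.1 ∈ B) ∪ Q.filter (fun p => p.1 ∉ B) = Q := by
    intro Q
    ext p
    rw [Finset.mem_union, Finset.mem_filter, Finset.mem_filter]
    tauto
  refine Finset.sum_nbij'
    (fun Q => ⟨Q.filter (fun p => p.1 ∈ B), Q.filter (fun p => p.1 ∉ B)⟩)
    (fun x => x.1 ∪ x.2) ?_ ?_ ?_ ?_ ?_
  · intro Q hQ
    obtain ⟨h1, h2, h3⟩ := Finset.mem_filter.1 hQ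
    have h1' := Finset.mem_powerset.1 h1
    refine Finset.mem_sigma.2 ⟨Finset.mem_filter.2 ⟨Finset.mem_powerset.2 ?_, ?_, ?_⟩,
      Finset.mem_filter.2 ⟨Finset.mem_powerset.2 ?_, ?_⟩⟩
    · intro p hp
      obtain ⟨h4, h5⟩ := Finset.mem_filter.1 hp
      exact hov.2 ⟨(hov.1 (h1' h4)).1, h5⟩
    · exact hmono (Finset.filter_subset _ _) h2
    · ext x
      rw [Finset.mem_image]
      constructor
      · rintro ⟨p, hp, rfl⟩
        exact (Finset.mem_filter.1 hp).2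
      · intro hx
        obtain ⟨p, hp, rfl⟩ := Finset.mem_image.1 (h3 hx)
        exact ⟨p, Finset.mem_filter.2 ⟨hp, hx⟩, rfl⟩
    · intro p hp
      obtain ⟨h4, h5⟩ := Finset.mem_filter.1 hp
      obtain ⟨h6, h7⟩ := hov.1 (h1' h4)
      exact hov.2 ⟨h6, Finset.mem_sdiff.2 ⟨h7, h5⟩⟩
    · change Clq near (Q.filter (fun p => p.1 ∈ B) ∪ Q.filter (fun p => p.1 ∉ B))
      rw [hU]
      exact h2
  · rintro ⟨Q₀, Q'⟩ hx
    obtain ⟨h1, h2⟩ := Finset.mem_sigma.1 hx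
    obtain ⟨h3, h4, h5⟩ := Finset.mem_filter.1 h1
    obtain ⟨h6, h7⟩ := Finset.mem_filter.1 h2
    have h3' := Finset.mem_powerset.1 h3
    have h6' := Finset.mem_powerset.1 h6
    change Q₀.image Prod.fst = B at h5
    change Clq near (Q₀ ∪ Q') at h7
    change Q₀ ∪ Q' ∈ _
    refine Finset.mem_filter.2 ⟨Finset.mem_powerset.2 ?_, h7, ?_⟩
    · intro p hp
      rcases Finset.mem_union.1 hp with hp | hp
      · obtain ⟨h8, h9⟩ := hov.1 (h3' hp)
        exact hov.2 ⟨h8, hB h9⟩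
      · obtain ⟨h8, h9⟩ := hov.1 (h6' hp)
        exact hov.2 ⟨h8, (Finset.mem_sdiff.1 h9).1⟩
    · rw [← h5]
      exact Finset.image_subset_image Finset.subset_union_left
  · intro Q _
    exact hU Q
  · rintro ⟨Q₀, Q'⟩ hx
    obtain ⟨h1, h2⟩ := Finset.mem_sigma.1 hx
    obtain ⟨h3, h4, h5⟩ := Finset.mem_filter.1 h1
    obtain ⟨h6, h7⟩ := Finset.mem_filter.1 h2
    have h3' : Q₀ ⊆ _ := Finset.mem_powerset.1 h3
    have h6' : Q' ⊆ _ := Finset.mem_powerset.1 h6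
    have ha : (Q₀ ∪ Q').filter (fun p => p.1 ∈ B) = Q₀ := by
      ext p
      rw [Finset.mem_filter, Finset.mem_union]
      constructor
      · rintro ⟨hp | hp, hpB⟩
        · exact hp
        · exact absurd hpB (Finset.mem_sdiff.1 (hov.1 (h6' hp)).2).2
      · intro hp
        exact ⟨Or.inl hp, (hov.1 (h3' hp)).2⟩
    have hb : (Q₀ ∪ Q').filter (fun p => p.1 ∉ B) = Q' := by
      ext p
      rw [Finset.mem_filter, Finset.mem_union]
      constructor
      · rintro ⟨hp | hp, hpB⟩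
        · exact absurd (hov.1 (h3' hp)).2 hpB
        · exact hp
      · intro hp
        exact ⟨Or.inr hp, (Finset.mem_sdiff.1 (hov.1 (h6' hp)).2).2⟩
    change (⟨(Q₀ ∪ Q').filter (fun p => p.1 ∈ B), (Q₀ ∪ Q').filter (fun p => p.1 ∉ B)⟩ :
      (_ : Finset (V × Fin R)) × Finset (V × Fin R)) = ⟨Q₀, Q'⟩
    rw [ha, hb]
  · intro Q hQ
    obtain ⟨h1, h2, h3⟩ := Finset.mem_filter.1 hQ
    change (-1) ^ (Q.card + B.card) * I Q = (-1) ^ (Q.filter (fun p => p.1 ∉ B)).card *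
      I (Q.filter (fun p => p.1 ∈ B) ∪ Q.filter (fun p => p.1 ∉ B))
    rw [hU]
    have himg : (Q.filter (fun p => p.1 ∈ B)).image Prod.fst = B := by
      ext x
      rw [Finset.mem_image]
      constructor
      · rintro ⟨p, hp, rfl⟩
        exact (Finset.mem_filter.1 hp).2
      · intro hx
        obtain ⟨p, hp, rfl⟩ := Finset.mem_image.1 (h3 hx)
        exact ⟨p, Finset.mem_filter.2 ⟨hp, hx⟩, rfl⟩
    have hcard : (Q.filter (fun p => p.1 ∈ B)).card = B.card := by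
      refine Eq.trans ?_ (congrArg Finset.card himg)
      refine (Finset.card_image_of_injOn ?_).symm
      intro p hp q hq hpq
      by_contra hne
      have hp' : p ∈ Q := (Finset.mem_filter.1 (Finset.mem_coe.1 hp)).1
      have hq' : q ∈ Q := (Finset.mem_filter.1 (Finset.mem_coe.1 hq)).1
      exact hN2 p q (h2 p hp' q hq' hne) hpq
    have hsum : (Q.filter (fun p => p.1 ∈ B)).card + (Q.filter (fun p => p.1 ∉ B)).card =
        Q.card := Finset.card_filter_add_card_filter_not (fun p : V × Fin R => p.1 ∈ B)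
    have h8 : Q.card + B.card = (Q.filter (fun p => p.1 ∉ B)).card + (B.card + B.card) := by
      omega
    rw [h8, pow_add, ← two_mul, pow_mul]
    norm_num

end Pool.Agent.Lib.MP_8d8c46_lc.Gap
end

section

set_option autoImplicit false

open Finset
open scoped Classical

namespace Pool.Agent.Lib.MP_8d8c46_lc.Gap

open Pool.Agent.Lib.MP_8d8c46_lc Pool.Agent.Lib.MP_8d8c46_lc.SDP Pool.Agent.Lib.MP_8d8c46_lc.EL

private theorem C07_pow {V : Type} [DecidableEq V] (S : Finset V) :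
    ∑ B ∈ S.powerset, (-1 : ℝ) ^ B.card = (0 : ℝ) ^ S.card := by
  have h := Finset.sum_pow_mul_eq_add_pow (-1 : ℝ) 1 S
  simp only [one_pow, mul_one] at h
  rw [h]
  norm_num

private theorem C07_inner {V : Type} [DecidableEq V] (S T : Finset V) :
    ∑ B ∈ S.powerset.filter (fun B => (B ∩ T).Nonempty), (-1 : ℝ) ^ B.card =
      (0 : ℝ) ^ S.card - (0 : ℝ) ^ (S \ T).card := by
  have h1 := Finset.sum_filter_add_sum_filter_not S.powerset (fun B => (B ∩ T).Nonempty)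
    (fun B => (-1 : ℝ) ^ B.card)
  have h2 : S.powerset.filter (fun B => ¬ (B ∩ T).Nonempty) = (S \ T).powerset := by
    ext B
    rw [Finset.mem_filter, Finset.mem_powerset, Finset.mem_powerset, Finset.not_nonempty_iff_eq_empty,
      Finset.subset_sdiff, Finset.disjoint_iff_inter_eq_empty]
  rw [h2, C07_pow, C07_pow] at h1
  linarith

/-- Moebius inversion. Exchange the sums on the right: every clique `Q ⊆ ov Act A` contributes
`(-1)^|Q| I Q * ∑ over B ⊆ S with B ∩ T ≠ ∅ of (-1)^|B|`, where `S = Q.image Prod.fst ⊆ A`. For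
`S = ∅` the inner sum is `0`. For `S ≠ ∅` it is
`∑ B ⊆ S, (-1)^|B| - ∑ B ⊆ S \ T, (-1)^|B| = 0 - [S ⊆ T]`. So the right side is
`∑ over nonempty cliques Q with Q.image Prod.fst ⊆ T of (-1)^(|Q|+1) I Q`, which is
`EE near I Act T`. -/
theorem C07_moebius {V : Type} [DecidableEq V] {R : ℕ} (near : V × Fin R → V × Fin R → Prop)
    (I : Finset (V × Fin R) → ℝ) (Act : Finset (V × Fin R)) {A T : Finset V} (hT : T ⊆ A) :
    EE near I Act T = ∑ B ∈ A.powerset.filter (fun B => (B ∩ T).Nonempty),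
      ∑ Q ∈ (ov Act A).powerset.filter (fun Q => Clq near Q ∧ B ⊆ Q.image Prod.fst),
        (-1) ^ (Q.card + B.card) * I Q := by
  have hov : ∀ {S : Finset V} {p : V × Fin R}, p ∈ ov Act S ↔ p ∈ Act ∧ p.1 ∈ S := by
    intro S p
    simp only [ov, Finset.mem_filter]
  have hswap : ∑ B ∈ A.powerset.filter (fun B => (B ∩ T).Nonempty),
      ∑ Q ∈ (ov Act A).powerset.filter (fun Q => Clq near Q ∧ B ⊆ Q.image Prod.fst),
        (-1) ^ (Q.card + B.card) * I Q =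
      ∑ Q ∈ (ov Act A).powerset.filter (fun Q => Clq near Q),
        ∑ B ∈ (Q.image Prod.fst).powerset.filter (fun B => (B ∩ T).Nonempty),
          (-1) ^ (Q.card + B.card) * I Q := by
    refine Finset.sum_comm' ?_
    intro B Q
    rw [Finset.mem_filter, Finset.mem_filter, Finset.mem_filter, Finset.mem_filter,
      Finset.mem_powerset, Finset.mem_powerset, Finset.mem_powerset]
    constructor
    · rintro ⟨⟨h1, h2⟩, h3, h4, h5⟩
      exact ⟨⟨h5, h2⟩, h3, h4⟩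
    · rintro ⟨⟨h5, h2⟩, h3, h4⟩
      refine ⟨⟨fun x hx => ?_, h2⟩, h3, h4, h5⟩
      obtain ⟨p, hp, rfl⟩ := Finset.mem_image.1 (h5 hx)
      exact (hov.1 (h3 hp)).2
  rw [hswap]
  have hterm : ∀ Q : Finset (V × Fin R),
      ∑ B ∈ (Q.image Prod.fst).powerset.filter (fun B => (B ∩ T).Nonempty),
        (-1 : ℝ) ^ (Q.card + B.card) * I Q =
      (-1) ^ Q.card * I Q * ((0 : ℝ) ^ (Q.image Prod.fst).card -
        (0 : ℝ) ^ (Q.image Prod.fst \ T).card) := by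
    intro Q
    rw [← C07_inner, Finset.mul_sum]
    refine Finset.sum_congr rfl fun B _ => ?_
    rw [pow_add]
    ring
  rw [Finset.sum_congr rfl fun Q _ => hterm Q]
  unfold EE
  have hsub : clqs near Act T ⊆ (ov Act A).powerset.filter (fun Q => Clq near Q) := by
    intro Q hQ
    unfold clqs at hQ
    obtain ⟨h1, h2, h3⟩ := Finset.mem_filter.1 hQ
    refine Finset.mem_filter.2 ⟨Finset.mem_powerset.2 fun p hp => ?_, h3⟩
    obtain ⟨h4, h5⟩ := hov.1 (Finset.mem_powerset.1 h1 hp)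
    exact hov.2 ⟨h4, hT h5⟩
  rw [← Finset.sum_subset hsub]
  · refine Finset.sum_congr rfl fun Q hQ => ?_
    unfold clqs at hQ
    obtain ⟨h1, h2, h3⟩ := Finset.mem_filter.1 hQ
    have h4 : Q.image Prod.fst \ T = ∅ := by
      rw [Finset.sdiff_eq_empty_iff_subset]
      intro x hx
      obtain ⟨p, hp, rfl⟩ := Finset.mem_image.1 hx
      exact (hov.1 (Finset.mem_powerset.1 h1 hp)).2
    have h5 : (Q.image Prod.fst).card ≠ 0 := by
      rw [Finset.card_ne_zero]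
      exact h2.image _
    rw [h4, Finset.card_empty, pow_zero, zero_pow h5, pow_succ]
    ring
  · intro Q hQ hQ'
    obtain ⟨h1, h3⟩ := Finset.mem_filter.1 hQ
    rcases Finset.eq_empty_or_nonempty Q with rfl | hne
    · simp
    · have h5 : (Q.image Prod.fst).card ≠ 0 := by
        rw [Finset.card_ne_zero]
        exact hne.image _
      have h6 : (Q.image Prod.fst \ T).card ≠ 0 := by
        intro h7
        apply hQ'
        unfold clqs
        refine Finset.mem_filter.2 ⟨Finset.mem_powerset.2 fun p hp => ?_, hne, h3⟩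
        rw [Finset.card_eq_zero, Finset.sdiff_eq_empty_iff_subset] at h7
        exact hov.2 ⟨(hov.1 (Finset.mem_powerset.1 h1 hp)).1,
          h7 (Finset.mem_image_of_mem Prod.fst hp)⟩
      rw [zero_pow h5, zero_pow h6, sub_self, mul_zero]

end Pool.Agent.Lib.MP_8d8c46_lc.Gap
end

section

set_option autoImplicit false

open Finset
open scoped Classical

namespace Pool.Agent.Lib.MP_8d8c46_lc.Gap

open Pool.Agent.Lib.MP_8d8c46_lc Pool.Agent.Lib.MP_8d8c46_lc.SDP Pool.Agent.Lib.MP_8d8c46_lc.EL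

/-- `w B` is the inner sum of `C07_moebius` if `∅ ≠ B ⊆ A`, and `0` otherwise. By `C06_decomp` it is a
sum over at most `R` cliques `Q₀` with `Q₀.image Prod.fst = B` (`C04_count`) of sums which are
`≥ -(2^n ζ)` by `C05_inner`. -/
theorem C08_atoms {V : Type} [DecidableEq V] {R n : ℕ} {near : V × Fin R → V × Fin R → Prop}
    {I : Finset (V × Fin R) → ℝ} (Act : Finset (V × Fin R)) {ζ : ℝ} (hζ : 0 ≤ ζ)
    (hI2 : ∀ Q₀ N : Finset (V × Fin R), Q₀.Nonempty → Disjoint Q₀ N → (Q₀ ∪ N).card ≤ n →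
      0 ≤ ∑ Q' ∈ N.powerset, (-1) ^ Q'.card * I (Q₀ ∪ Q'))
    (hI3 : ∀ (Q : Finset (V × Fin R)) (p q : V × Fin R), Q.card ≤ n → p ∈ Q → q ∈ Q →
      p.1 ≠ q.1 → ¬ near p q → (∃ r, near r p) → (∃ r, near r q) → |I Q| ≤ ζ)
    (hN1 : ∀ p q, near p q → near q p) (hN2 : ∀ p q, near p q → p.1 ≠ q.1)
    (hN3 : ∀ p q q', near p q → near p q' → q.1 = q'.1 → q = q') {A : Finset V}
    (hA : A.card ≤ n) :
    ∃ w : Finset V → ℝ, (∀ B, -(R * (2 ^ n * ζ)) ≤ w B) ∧ ∀ T ⊆ A,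
      EE near I Act T = ∑ B ∈ A.powerset.filter (fun B => (B ∩ T).Nonempty), w B := by
  refine ⟨fun B => if B.Nonempty ∧ B ⊆ A then
      ∑ Q ∈ (ov Act A).powerset.filter (fun Q => Clq near Q ∧ B ⊆ Q.image Prod.fst),
        (-1) ^ (Q.card + B.card) * I Q else 0, ?_, ?_⟩
  · intro B
    have hpos : (0 : ℝ) ≤ 2 ^ n * ζ := by positivity
    by_cases hB : B.Nonempty ∧ B ⊆ A
    · simp only [if_pos hB]
      rw [C06_decomp Act hN2 hB.2]
      have h1 : ∀ Q₀ ∈ (ov Act B).powerset.filter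
          (fun Q => Clq near Q ∧ Q.image Prod.fst = B), -(2 ^ n * ζ) ≤
          ∑ Q' ∈ (ov Act (A \ B)).powerset.filter (fun Q' => Clq near (Q₀ ∪ Q')),
            (-1) ^ Q'.card * I (Q₀ ∪ Q') := by
        intro Q₀ hQ₀
        rw [Finset.mem_filter, Finset.mem_powerset] at hQ₀
        obtain ⟨hsub, hc, him⟩ := hQ₀
        have hne : Q₀.Nonempty := by
          have : (Q₀.image Prod.fst).Nonempty := by rw [him]; exact hB.1
          exact Finset.image_nonempty.mp this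
        have hQA : Q₀ ⊆ ov Act A := by
          intro p hp
          have h2 := hsub hp
          simp only [ov, Finset.mem_filter] at h2 ⊢
          exact ⟨h2.1, hB.2 h2.2⟩
        have h3 := C05_inner Act hζ hI2 hI3 hN1 hN2 hN3 hA Q₀ hne hc hQA
        rw [him] at h3
        exact h3
      have h4 := Finset.card_nsmul_le_sum _ _ _ h1
      have h5 := C04_count (near := near) Act hN2 hN3 hB.1
      refine le_trans ?_ h4
      rw [nsmul_eq_mul]
      have h6 : ((((ov Act B).powerset.filter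
          (fun Q => Clq near Q ∧ Q.image Prod.fst = B)).card : ℕ) : ℝ) ≤ (R : ℝ) := by
        exact_mod_cast h5
      nlinarith
    · simp only [if_neg hB]
      have : (0 : ℝ) ≤ R * (2 ^ n * ζ) := by positivity
      linarith
  · intro T hT
    rw [C07_moebius near I Act hT]
    apply Finset.sum_congr rfl
    intro B hB
    rw [Finset.mem_filter, Finset.mem_powerset] at hB
    have : B.Nonempty ∧ B ⊆ A := ⟨hB.2.mono Finset.inter_subset_left, hB.1⟩
    simp only [if_pos this]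

end Pool.Agent.Lib.MP_8d8c46_lc.Gap
end

section

set_option autoImplicit false

open Finset
open scoped Classical

namespace Pool.Agent.Lib.MP_8d8c46_lc.Gap

open Pool.Agent.Lib.MP_8d8c46_lc Pool.Agent.Lib.MP_8d8c46_lc.SDP Pool.Agent.Lib.MP_8d8c46_lc.EL

/-- Add `C08_atoms` over `t` and divide by `M`: with `w B = (∑ t, w_t B) / M` one has
`(∑ t, EE T) / M = ∑ B, w B` and `w B ≥ -e`, `e = |τ| R 2^n ζ / M`. Take `w⁺ = max w 0`; then
`|w⁺ B - w B| ≤ e` and there are at most `2^|A| ≤ 2^n` sets `B`. -/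
theorem C09_apx {V τ : Type} [DecidableEq V] [Fintype τ] {R n : ℕ}
    {near : V × Fin R → V × Fin R → Prop} {I : Finset (V × Fin R) → ℝ}
    (Act : τ → Finset (V × Fin R)) {ζ M : ℝ} (hζ : 0 ≤ ζ) (hM : 0 < M)
    (hI2 : ∀ Q₀ N : Finset (V × Fin R), Q₀.Nonempty → Disjoint Q₀ N → (Q₀ ∪ N).card ≤ n →
      0 ≤ ∑ Q' ∈ N.powerset, (-1) ^ Q'.card * I (Q₀ ∪ Q'))
    (hI3 : ∀ (Q : Finset (V × Fin R)) (p q : V × Fin R), Q.card ≤ n → p ∈ Q → q ∈ Q →
      p.1 ≠ q.1 → ¬ near p q → (∃ r, near r p) → (∃ r, near r q) → |I Q| ≤ ζ)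
    (hN1 : ∀ p q, near p q → near q p) (hN2 : ∀ p q, near p q → p.1 ≠ q.1)
    (hN3 : ∀ p q q', near p q → near p q' → q.1 = q'.1 → q = q') :
    ApxCov n (2 ^ n * (Fintype.card τ * (R * (2 ^ n * ζ)) / M))
      (fun T => (∑ t, EE near I (Act t) T) / M) := by
  intro A hA
  choose w hw1 hw2 using fun t => C08_atoms (Act t) hζ hI2 hI3 hN1 hN2 hN3 hA
  set e : ℝ := Fintype.card τ * (R * (2 ^ n * ζ)) / M with he
  have he0 : 0 ≤ e := by rw [he]; positivity
  have hlow : ∀ B, -e ≤ (∑ t, w t B) / M := by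
    intro B
    rw [he, ← neg_div]
    apply div_le_div_of_nonneg_right _ hM.le
    have h1 : ∀ t ∈ (Finset.univ : Finset τ), -(R * (2 ^ n * ζ)) ≤ w t B := fun t _ => hw1 t B
    have h2 := Finset.card_nsmul_le_sum _ _ _ h1
    rw [nsmul_eq_mul, Finset.card_univ] at h2
    linarith
  refine ⟨fun B => max ((∑ t, w t B) / M) 0, fun B => le_max_right _ _, ?_⟩
  intro T hT
  have h1 : (∑ t, EE near I (Act t) T) / M =
      ∑ B ∈ A.powerset.filter (fun B => (B ∩ T).Nonempty), (∑ t, w t B) / M := by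
    rw [← Finset.sum_div]
    congr 1
    rw [Finset.sum_comm]
    exact Finset.sum_congr rfl fun t _ => hw2 t T hT
  simp only
  rw [h1, ← Finset.sum_sub_distrib]
  refine le_trans (Finset.abs_sum_le_sum_abs _ _) ?_
  have h2 : ∀ B ∈ A.powerset.filter (fun B => (B ∩ T).Nonempty),
      |(∑ t, w t B) / M - max ((∑ t, w t B) / M) 0| ≤ e := by
    intro B _
    have h3 := hlow B
    rcases le_total 0 ((∑ t, w t B) / M) with h | h
    · rw [max_eq_left h]
      simpa using he0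
    · rw [max_eq_right h, sub_zero, abs_of_nonpos h]
      linarith
  refine le_trans (Finset.sum_le_card_nsmul _ _ _ h2) ?_
  rw [nsmul_eq_mul]
  have h4 : ((A.powerset.filter (fun B => (B ∩ T).Nonempty)).card : ℝ) ≤ 2 ^ n := by
    have h5 : (A.powerset.filter (fun B => (B ∩ T).Nonempty)).card ≤ 2 ^ n := by
      refine le_trans (Finset.card_filter_le _ _) ?_
      rw [Finset.card_powerset]
      exact Nat.pow_le_pow_right (by norm_num) hA
    exact_mod_cast h5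
  exact mul_le_mul_of_nonneg_right h4 he0

end Pool.Agent.Lib.MP_8d8c46_lc.Gap
end

section

set_option autoImplicit false

open Finset
open scoped Classical

namespace Pool.Agent.Lib.MP_8d8c46_lc.Gap

open Pool.Agent.Lib.MP_8d8c46_lc Pool.Agent.Lib.MP_8d8c46_lc.SDP Pool.Agent.Lib.MP_8d8c46_lc.EL

/-- `C09_apx` with `n = 2 m + 1`, `I = capf (covU (2 m + 1) (gram s))` (`hI2` is `G03_alt` with
`G4_locCov` and `K03_gram`; `hI3` is `K05_small` with `ζ = (3/4)^s`), `near γ` (`K04_near`),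
`Act = act Y a`, `M = R a`; `|ZMod b| = b`. Then
`2^n (b R 2^n ζ / (R a)) = 4^n (b / a) (3/4)^s`, and `k ≤ 2 m + 1`. -/
theorem K13_apx {R D b : ℕ} [NeZero b] {Y : Type} [Fintype Y] [DecidableEq Y] (hR : 1 ≤ R)
    (hD : 1 ≤ D) {γ : ℝ} (hγ0 : 0 ≤ γ) (hγ : γ ≤ 1 / 8) (s : ℕ) {m : ℕ} (hm : 1 ≤ m) {a : ℕ}
    (ha : 1 ≤ a) {k : ℕ} (hk : k ≤ 2 * m + 1) :
    ApxCov k (4 ^ (2 * m + 1) * (b / a) * (3 / 4) ^ s)
      (UU γ s m a : Finset (Tup R D b × Y) → ℝ) := by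
  have hR0 : (0 : ℝ) < R := by exact_mod_cast hR
  have ha0 : (0 : ℝ) < a := by exact_mod_cast ha
  obtain ⟨hN1, hN2, hN3⟩ := K04_near (R := R) (D := D) (b := b) (Y := Y) hD hγ0 hγ
  have hloc : LocCov (2 * m + 1) (covU (2 * m + 1)
      (gram s : (Tup R D b × Y) × Fin R → (Tup R D b × Y) × Fin R → ℝ)) :=
    G4_locCov (K03_gram hD s).1 (2 * m + 1)
  have hC := C09_apx (V := Tup R D b × Y) (τ := ZMod b) (R := R) (n := 2 * m + 1)
    (near := near γ)
    (I := capf (covU (2 * m + 1) (gram s))) (act Y a) (ζ := (3 / 4) ^ s) (M := R * a)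
    (by positivity) (by positivity)
    (fun Q₀ N hQ hd hc => G03_alt hloc Q₀ N hQ hd hc)
    (fun Q p q hQ hp hq hpq hn h1 h2 => K05_small hD hm s Q p q hQ hp hq hpq hn h1 h2)
    hN1 hN2 hN3
  have hval : (2 : ℝ) ^ (2 * m + 1) * (Fintype.card (ZMod b) * (R * (2 ^ (2 * m + 1) * (3 / 4) ^ s))
      / (R * a)) = 4 ^ (2 * m + 1) * (b / a) * (3 / 4) ^ s := by
    have h4 : (4 : ℝ) ^ (2 * m + 1) = 2 ^ (2 * m + 1) * 2 ^ (2 * m + 1) := by
      rw [← mul_pow]; norm_num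
    rw [ZMod.card, h4]
    field_simp
  rw [hval] at hC
  intro A hA
  exact hC A (hA.trans hk)

end Pool.Agent.Lib.MP_8d8c46_lc.Gap
end

section

set_option autoImplicit false

open Finset
open scoped Classical

namespace Pool.Agent.Lib.MP_8d8c46_lc.Gap

open Pool.Agent.Lib.MP_8d8c46_lc Pool.Agent.Lib.MP_8d8c46_lc.SDP Pool.Agent.Lib.MP_8d8c46_lc.EL

/-- The mean of `cor 0 (z + z')` is `(1 - 2 ν)^2`: `cor 0 (z + z') = (∑ i, sg (z i) sg (z' i)) / D` and
`∑ z, bw ν z * sg (z i) = 1 - 2 ν` (`Z1_sums` for the character `a = Pi.single i 1`, of weight `1`). -/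
theorem L03_mean {D : ℕ} (hD : 1 ≤ D) {ν : ℝ} (hν0 : 0 ≤ ν) (hν1 : ν ≤ 1) :
    ∑ z, ∑ z', bw ν z * bw ν z' * cor (0 : Cube D) (z + z') = (1 - 2 * ν) ^ 2 := by
  have hD0 : (D : ℝ) ≠ 0 := by
    have : 0 < D := hD
    exact_mod_cast this.ne'
  have hone : ∀ i : Fin D, ∑ z : Cube D, bw ν z * sg (z i) = 1 - 2 * ν := by
    intro i
    have h1 := (Z1_sums (D := D) hν0 hν1).2.2.1 (Pi.single i 1)
    have h2 : wt (Pi.single i 1 : Cube D) = 1 := by
      unfold wt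
      rw [Finset.card_eq_one]
      refine ⟨i, ?_⟩
      ext j
      rw [Finset.mem_filter, Finset.mem_singleton]
      constructor
      · rintro ⟨-, h3⟩
        by_contra hji
        exact h3 (Pi.single_eq_of_ne hji 1)
      · rintro rfl
        refine ⟨Finset.mem_univ _, ?_⟩
        rw [Pi.single_eq_same]
        exact one_ne_zero
    rw [h2, pow_one] at h1
    rw [← h1]
    refine Finset.sum_congr rfl fun z _ => ?_
    congr 1
    unfold ch
    congr 1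
    rw [Finset.sum_eq_single i]
    · rw [Pi.single_eq_same, one_mul]
    · intro j _ hji
      rw [Pi.single_eq_of_ne hji, zero_mul]
    · intro h3
      exact absurd (Finset.mem_univ i) h3
  have hcor : ∀ z z' : Cube D, bw ν z * bw ν z' * cor (0 : Cube D) (z + z') =
      (∑ i, (bw ν z * sg (z i)) * (bw ν z' * sg (z' i))) / D := by
    intro z z'
    unfold cor
    rw [← mul_div_assoc, Finset.mul_sum]
    congr 1
    refine Finset.sum_congr rfl fun i _ => ?_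
    have h3 : (0 : Cube D) i + (z + z') i = z i + z' i := by
      change 0 + (z i + z' i) = z i + z' i
      rw [zero_add]
    rw [h3, sg_add]
    ring
  have h4 : ∑ z, ∑ z', bw ν z * bw ν z' * cor (0 : Cube D) (z + z') =
      (∑ i : Fin D, (∑ z : Cube D, bw ν z * sg (z i)) * (∑ z' : Cube D, bw ν z' * sg (z' i))) /
        D := by
    simp_rw [hcor, ← Finset.sum_div]
    congr 1
    simp_rw [Finset.sum_mul_sum]
    rw [Finset.sum_comm]
    rw [Finset.sum_comm]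
    have h5 : ∀ z : Cube D, ∑ z' : Cube D, ∑ i, (bw ν z * sg (z i)) * (bw ν z' * sg (z' i)) =
        ∑ i, ∑ z' : Cube D, (bw ν z * sg (z i)) * (bw ν z' * sg (z' i)) := fun z =>
      Finset.sum_comm
    rw [Finset.sum_congr rfl fun z _ => h5 z, Finset.sum_comm]
  rw [h4]
  simp_rw [hone]
  rw [Finset.sum_const, Finset.card_univ, Fintype.card_fin, nsmul_eq_mul]
  field_simp

end Pool.Agent.Lib.MP_8d8c46_lc.Gap
end

section

set_option autoImplicit false

open Finset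
open scoped Classical

namespace Pool.Agent.Lib.MP_8d8c46_lc.Gap

open Pool.Agent.Lib.MP_8d8c46_lc Pool.Agent.Lib.MP_8d8c46_lc.SDP Pool.Agent.Lib.MP_8d8c46_lc.EL

/-- For `y = (x^2)^s` with `|x| ≤ 1` Bernoulli gives `1 - y = 1 - |x|^(2s) ≤ 2 s (1 - |x|) ≤ 2 s (1 - x)`,
so by `L2_close` `1 - lensP m y ≤ (3/2) √((m+1) 2 s (1 - x))`. For weights `p` with sum `1` one has
`∑ p √g ≤ √(∑ p g)` (Cauchy-Schwarz, or `Real.sqrt` concave), so with `x = cor 0 (z + z')`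
and `L03_mean`: `∑∑ bw bw (1 - lensP) ≤ (3/2) √((m+1) 2 s (1 - (1-2ν)^2)) ≤ (3/2) √((m+1) 8 s ν)`. -/
theorem L04_close {D : ℕ} (hD : 1 ≤ D) {ν : ℝ} (hν0 : 0 ≤ ν) (hν1 : ν ≤ 1) (s m : ℕ) :
    1 - 3 / 2 * Real.sqrt ((m + 1) * (8 * s * ν)) ≤
      ∑ z, ∑ z', bw ν z * bw ν z' * lensP m ((cor (0 : Cube D) (z + z') ^ 2) ^ s) := by
  obtain ⟨hbw, hsum, -⟩ := Z1_sums (D := D) hν0 hν1
  have hsum2 : ∑ z : Cube D, ∑ z' : Cube D, bw ν z * bw ν z' = 1 := by
    rw [← Finset.sum_mul_sum, hsum, one_mul]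
  have hmean := L03_mean hD hν0 hν1
  set x : Cube D → Cube D → ℝ := fun z z' => cor (0 : Cube D) (z + z') with hx
  have hx1 : ∀ z z', |x z z'| ≤ 1 := fun z z' => (E1_cor hD 0 (z + z')).2.2.1
  have hterm : ∀ z z', bw ν z * bw ν z' * (1 - lensP m ((x z z' ^ 2) ^ s)) ≤
      3 / 2 * (Real.sqrt (bw ν z * bw ν z') *
        Real.sqrt (bw ν z * bw ν z' * ((m + 1) * (2 * s * (1 - x z z'))))) := by
    intro z z'
    have hp : 0 ≤ bw ν z * bw ν z' := mul_nonneg (hbw z) (hbw z')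
    have hsq : x z z' ^ 2 ≤ 1 := by
      rw [← sq_abs]
      exact pow_le_one₀ (abs_nonneg _) (hx1 z z')
    have h1 := ((L2_close m).2 ((x z z' ^ 2) ^ s) (by positivity)
      (pow_le_one₀ (sq_nonneg _) hsq)).2
    have hB : 1 - (x z z' ^ 2) ^ s ≤ 2 * s * (1 - x z z') := by
      have h2 := one_add_mul_le_pow (a := |x z z'| - 1)
        (by linarith [abs_nonneg (x z z')]) (2 * s)
      have h3 : (1 + (|x z z'| - 1)) ^ (2 * s) = (x z z' ^ 2) ^ s := by
        rw [add_sub_cancel, pow_mul, sq_abs]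
      rw [h3] at h2
      push_cast at h2
      have h4 : x z z' ≤ |x z z'| := le_abs_self _
      have h5 : 2 * (s : ℝ) * (1 - |x z z'|) ≤ 2 * s * (1 - x z z') :=
        mul_le_mul_of_nonneg_left (by linarith) (by positivity)
      linarith
    have h6 : Real.sqrt ((m + 1) * (1 - (x z z' ^ 2) ^ s)) ≤
        Real.sqrt ((m + 1) * (2 * s * (1 - x z z'))) :=
      Real.sqrt_le_sqrt (mul_le_mul_of_nonneg_left hB (by positivity))
    have h7 : Real.sqrt (bw ν z * bw ν z') *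
        Real.sqrt (bw ν z * bw ν z' * ((m + 1) * (2 * s * (1 - x z z')))) =
        bw ν z * bw ν z' * Real.sqrt ((m + 1) * (2 * s * (1 - x z z'))) := by
      rw [Real.sqrt_mul hp, ← mul_assoc, Real.mul_self_sqrt hp]
    rw [h7]
    calc bw ν z * bw ν z' * (1 - lensP m ((x z z' ^ 2) ^ s))
        ≤ bw ν z * bw ν z' * (3 / 2 * Real.sqrt ((m + 1) * (2 * s * (1 - x z z')))) :=
          mul_le_mul_of_nonneg_left (by linarith) hp
      _ = _ := by ring
  have hnn : ∀ z z', 0 ≤ bw ν z * bw ν z' * ((m + 1) * (2 * s * (1 - x z z'))) := by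
    intro z z'
    have hp : 0 ≤ bw ν z * bw ν z' := mul_nonneg (hbw z) (hbw z')
    have h8 : 0 ≤ 1 - x z z' := by linarith [le_abs_self (x z z'), hx1 z z']
    positivity
  have hCS := Real.sum_sqrt_mul_sqrt_le (Finset.univ : Finset (Cube D × Cube D))
    (f := fun q => bw ν q.1 * bw ν q.2)
    (g := fun q => bw ν q.1 * bw ν q.2 * ((m + 1) * (2 * s * (1 - x q.1 q.2))))
    (fun q => mul_nonneg (hbw q.1) (hbw q.2)) (fun q => hnn q.1 q.2)
  rw [Fintype.sum_prod_type, Fintype.sum_prod_type, Fintype.sum_prod_type] at hCS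
  simp only at hCS
  rw [hsum2, Real.sqrt_one, one_mul] at hCS
  have hg : ∑ z : Cube D, ∑ z' : Cube D,
      bw ν z * bw ν z' * ((m + 1) * (2 * s * (1 - x z z'))) =
      (m + 1) * (2 * s * (1 - (1 - 2 * ν) ^ 2)) := by
    have h9 : ∀ z z' : Cube D, bw ν z * bw ν z' * ((m + 1) * (2 * s * (1 - x z z'))) =
        ((m + 1) * (2 * s)) * (bw ν z * bw ν z') -
          ((m + 1) * (2 * s)) * (bw ν z * bw ν z' * x z z') := by
      intro z z'
      ring
    have h11 : ∀ (A : ℝ) (p : Cube D → Cube D → ℝ), ∑ z : Cube D, ∑ z' : Cube D, A * p z z' =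
        A * ∑ z : Cube D, ∑ z' : Cube D, p z z' := by
      intro A p
      simp_rw [Finset.mul_sum]
    simp_rw [h9, Finset.sum_sub_distrib]
    rw [h11, h11 _ (fun z z' => bw ν z * bw ν z' * x z z'), hsum2, hmean]
    ring
  have hle : Real.sqrt (∑ z : Cube D, ∑ z' : Cube D,
      bw ν z * bw ν z' * ((m + 1) * (2 * s * (1 - x z z')))) ≤
      Real.sqrt ((m + 1) * (8 * s * ν)) := by
    rw [hg]
    apply Real.sqrt_le_sqrt
    apply mul_le_mul_of_nonneg_left _ (by positivity)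
    have h10 : 0 ≤ (s : ℝ) * (ν * ν) := by positivity
    nlinarith
  have htot : ∑ z : Cube D, ∑ z' : Cube D,
      bw ν z * bw ν z' * (1 - lensP m ((x z z' ^ 2) ^ s)) ≤
      3 / 2 * Real.sqrt ((m + 1) * (8 * s * ν)) := by
    refine (Finset.sum_le_sum fun z _ => Finset.sum_le_sum fun z' _ => hterm z z').trans ?_
    simp_rw [← Finset.mul_sum]
    exact mul_le_mul_of_nonneg_left (hCS.trans hle) (by norm_num)
  have hsplit : ∑ z : Cube D, ∑ z' : Cube D,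
      bw ν z * bw ν z' * (1 - lensP m ((x z z' ^ 2) ^ s)) =
      1 - ∑ z : Cube D, ∑ z' : Cube D, bw ν z * bw ν z' * lensP m ((x z z' ^ 2) ^ s) := by
    simp_rw [mul_sub, mul_one, Finset.sum_sub_distrib]
    rw [hsum2]
  rw [hsplit] at htot
  linarith

end Pool.Agent.Lib.MP_8d8c46_lc.Gap
end

section

set_option autoImplicit false

open Finset
open scoped Classical

namespace Pool.Agent.Lib.MP_8d8c46_lc.Gap

open Pool.Agent.Lib.MP_8d8c46_lc Pool.Agent.Lib.MP_8d8c46_lc.SDP Pool.Agent.Lib.MP_8d8c46_lc.EL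

/-- Drop the first term of `w1` (everything is nonnegative, `L2_close`); in the rest only the `q` with
`q.2 = p.2` contribute: `(1 - c) ∑ y, ∑ z, bw ν z * bw ν (p.1 + y + z) * F (cor p.1 y)`,
`F x = lensP m ((x^2)^s)`. Substitute `z' = p.1 + y + z`, i.e. `y = p.1 + z + z'`
(in `Cube D` every element is its own negative), and `cor p.1 (p.1 + z + z') = cor 0 (z + z')`
(`E1_cor`). -/
theorem L02_step {D b : ℕ} [NeZero b] (hD : 1 ≤ D) {c ν : ℝ} (hc0 : 0 ≤ c) (hc1 : c ≤ 1)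
    (hν0 : 0 ≤ ν) (hν1 : ν ≤ 1) (s m : ℕ) (p : Cube D × ZMod b) :
    (1 - c) * ∑ z, ∑ z', bw ν z * bw ν z' * lensP m ((cor (0 : Cube D) (z + z') ^ 2) ^ s) ≤
      ∑ q : Cube D × ZMod b, w1 c ν p q *
        (if p.2 = q.2 then lensP m ((cor p.1 q.1 ^ 2) ^ s) else 0) := by
  have hbw : ∀ z : Cube D, 0 ≤ bw ν z := (Z1_sums (D := D) hν0 hν1).1
  have hF : ∀ y : Cube D, 0 ≤ lensP m ((cor p.1 y ^ 2) ^ s) := by
    intro y
    have h1 := (E1_cor hD p.1 y).2.2.1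
    have h2 : cor p.1 y ^ 2 ≤ 1 := by
      rw [← sq_abs]
      exact pow_le_one₀ (abs_nonneg _) h1
    exact ((L2_close m).2 _ (by positivity) (pow_le_one₀ (sq_nonneg _) h2)).1
  have hterm : ∀ q : Cube D × ZMod b,
      (if p.2 = q.2 then (1 - c) * ((∑ z, bw ν z * bw ν (p.1 + q.1 + z)) *
        lensP m ((cor p.1 q.1 ^ 2) ^ s)) else 0) ≤
      w1 c ν p q * (if p.2 = q.2 then lensP m ((cor p.1 q.1 ^ 2) ^ s) else 0) := by
    intro q
    unfold w1
    split_ifs with h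
    · have h3 : 0 ≤ c / (2 ^ D * b) := by positivity
      have h4 : 0 ≤ c / (2 ^ D * b) * lensP m ((cor p.1 q.1 ^ 2) ^ s) := mul_nonneg h3 (hF q.1)
      rw [add_mul]
      have h5 : (1 - c) * (∑ z, bw ν z * bw ν (p.1 + q.1 + z)) *
          lensP m ((cor p.1 q.1 ^ 2) ^ s) = (1 - c) * ((∑ z, bw ν z * bw ν (p.1 + q.1 + z)) *
          lensP m ((cor p.1 q.1 ^ 2) ^ s)) := by ring
      rw [h5]
      linarith
    · simp
  refine le_trans (le_of_eq ?_) (Finset.sum_le_sum fun q _ => hterm q)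
  rw [Fintype.sum_prod_type]
  have hinner : ∀ y : Cube D, (∑ t : ZMod b, if p.2 = t then
      (1 - c) * ((∑ z, bw ν z * bw ν (p.1 + y + z)) * lensP m ((cor p.1 y ^ 2) ^ s)) else 0) =
      (1 - c) * ((∑ z, bw ν z * bw ν (p.1 + y + z)) * lensP m ((cor p.1 y ^ 2) ^ s)) := by
    intro y
    rw [Finset.sum_ite_eq, if_pos (Finset.mem_univ _)]
  rw [Finset.sum_congr rfl fun y _ => hinner y, ← Finset.mul_sum]
  congr 1
  have h6 : ∀ y : Cube D, (∑ z, bw ν z * bw ν (p.1 + y + z)) * lensP m ((cor p.1 y ^ 2) ^ s) =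
      ∑ z, bw ν z * (bw ν (p.1 + y + z) * lensP m ((cor (0 : Cube D) (z + (p.1 + y + z)) ^ 2) ^ s)) := by
    intro y
    rw [Finset.sum_mul]
    refine Finset.sum_congr rfl fun z _ => ?_
    have h7 : z + (p.1 + y + z) = p.1 + y := by
      funext i
      have h8 : z i + z i = 0 := CharTwo.add_self_eq_zero (z i)
      change z i + (p.1 i + y i + z i) = p.1 i + y i
      calc z i + (p.1 i + y i + z i) = (z i + z i) + (p.1 i + y i) := by ring
        _ = p.1 i + y i := by rw [h8, zero_add]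
    rw [h7, ← (E1_cor hD p.1 y).2.2.2.1]
    ring
  rw [Finset.sum_congr rfl fun y _ => h6 y]
  conv_rhs => rw [Finset.sum_comm]
  refine Finset.sum_congr rfl fun z _ => ?_
  rw [← Finset.mul_sum]
  simp only [mul_assoc]
  rw [← Finset.mul_sum]
  congr 1
  have h9 := Equiv.sum_comp ((Equiv.addLeft p.1).trans (Equiv.addRight z))
    (fun z' : Cube D => bw ν z' * lensP m ((cor (0 : Cube D) (z + z') ^ 2) ^ s))
  exact h9.symm

end Pool.Agent.Lib.MP_8d8c46_lc.Gap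
end

section

set_option autoImplicit false

open Finset
open scoped Classical

namespace Pool.Agent.Lib.MP_8d8c46_lc.Gap

open Pool.Agent.Lib.MP_8d8c46_lc Pool.Agent.Lib.MP_8d8c46_lc.SDP Pool.Agent.Lib.MP_8d8c46_lc.EL

/-- Properties of one step. Symmetry: `p.1 + q.1 = q.1 + p.1`. Sum over `q`: the first part gives `c`
(`2^D b` terms), the second `(1 - c) ∑ y, ∑ z, bw ν z * bw ν (p.1 + y + z) = 1 - c`
(`Z1_sums`; translation). -/
theorem W01_w1 {D b : ℕ} [NeZero b] {c ν : ℝ} (hc0 : 0 ≤ c) (hc1 : c ≤ 1) (hν0 : 0 ≤ ν)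
    (hν1 : ν ≤ 1) :
    (∀ p q : Cube D × ZMod b, w1 c ν p q = w1 c ν q p) ∧
      (∀ p q : Cube D × ZMod b, 0 ≤ w1 c ν p q) ∧
      ∀ p : Cube D × ZMod b, ∑ q, w1 c ν p q = 1 := by
  obtain ⟨hbw, hsum, -⟩ := Z1_sums (D := D) hν0 hν1
  refine ⟨?_, ?_, ?_⟩
  · intro p q
    unfold w1
    have h1 : (p.2 = q.2) = (q.2 = p.2) := propext eq_comm
    simp only [h1, add_comm p.1 q.1]
  · intro p q
    unfold w1
    have h1 : 0 ≤ c / (2 ^ D * b) := by positivity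
    have h2 : 0 ≤ (if p.2 = q.2 then ∑ z, bw ν z * bw ν (p.1 + q.1 + z) else 0 : ℝ) := by
      split_ifs
      · exact Finset.sum_nonneg fun z _ => mul_nonneg (hbw _) (hbw _)
      · exact le_rfl
    have h3 : 0 ≤ 1 - c := by linarith
    have h4 := mul_nonneg h3 h2
    linarith
  · intro p
    unfold w1
    rw [Finset.sum_add_distrib, ← Finset.mul_sum]
    have hb : (b : ℝ) ≠ 0 := Nat.cast_ne_zero.2 (NeZero.ne b)
    have hcard : ((Finset.univ : Finset (Cube D × ZMod b)).card : ℝ) = 2 ^ D * b := by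
      rw [Finset.card_univ, Fintype.card_prod, ZMod.card, Fintype.card_pi]
      simp
    have h1 : ∑ _q : Cube D × ZMod b, c / (2 ^ D * (b : ℝ)) = c := by
      rw [Finset.sum_const, nsmul_eq_mul, hcard]
      field_simp
    have h2 : ∑ q : Cube D × ZMod b,
        (if p.2 = q.2 then ∑ z, bw ν z * bw ν (p.1 + q.1 + z) else 0) = 1 := by
      rw [Fintype.sum_prod_type]
      have h3 : ∀ y : Cube D, (∑ t : ZMod b,
          if p.2 = t then ∑ z, bw ν z * bw ν (p.1 + y + z) else 0) =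
          ∑ z, bw ν z * bw ν (p.1 + y + z) := by
        intro y
        rw [Finset.sum_ite_eq, if_pos (Finset.mem_univ _)]
      rw [Finset.sum_congr rfl fun y _ => h3 y, Finset.sum_comm]
      have h4 : ∀ z : Cube D, ∑ y : Cube D, bw ν z * bw ν (p.1 + y + z) = bw ν z := by
        intro z
        rw [← Finset.mul_sum]
        have h5 := Equiv.sum_comp ((Equiv.addLeft p.1).trans (Equiv.addRight z))
          (fun z' : Cube D => bw ν z')
        have h6 : ∑ y : Cube D, bw ν (p.1 + y + z) = 1 := h5.trans hsum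
        rw [h6, mul_one]
      rw [Finset.sum_congr rfl fun z _ => h4 z, hsum]
    rw [h1, h2]
    ring

end Pool.Agent.Lib.MP_8d8c46_lc.Gap
end

section

set_option autoImplicit false

open Finset
open scoped Classical

namespace Pool.Agent.Lib.MP_8d8c46_lc.Gap

open Pool.Agent.Lib.MP_8d8c46_lc Pool.Agent.Lib.MP_8d8c46_lc.SDP Pool.Agent.Lib.MP_8d8c46_lc.EL

private theorem W02_perm {R D b : ℕ} (c ν : ℝ) (ω ω' : Tup R D b) (σ : Equiv.Perm (Fin R)) :
    WW c ν (fun i => ω (σ i)) (fun i => ω' (σ i)) = WW c ν ω ω' :=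
  Equiv.prod_comp σ fun i => w1 c ν (ω i) (ω' i)

private theorem W02_sum {R D b : ℕ} [NeZero b] {c ν : ℝ}
    (h3 : ∀ p : Cube D × ZMod b, ∑ q, w1 c ν p q = 1) (ω : Tup R D b) :
    ∑ ω' : Tup R D b, WW c ν ω ω' = 1 := by
  have h := Finset.prod_univ_sum (fun _ : Fin R => (univ : Finset (Cube D × ZMod b)))
    (fun i q => w1 c ν (ω i) q)
  rw [Fintype.piFinset_univ] at h
  have h4 : ∏ i : Fin R, ∑ q, w1 c ν (ω i) q = 1 := prod_eq_one fun i _ => h3 (ω i)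
  rw [h4] at h
  exact h.symm

/-- From `W01_w1`: `∑ ω', ∏ i, w1 (ω i) (ω' i) = ∏ i, ∑ q, w1 (ω i) q = 1` (`Finset.prod_univ_sum`,
`Fintype.piFinset_univ`), permuting the coordinates of `ω'` is a bijection, there are `R!`
permutations, and `WW ω (ω' ∘ σ) = WW (ω ∘ σ⁻¹) ω' = WW ω' (ω ∘ σ⁻¹)`. -/
theorem W02_TT {R D b : ℕ} [NeZero b] {c ν : ℝ} (hc0 : 0 ≤ c) (hc1 : c ≤ 1) (hν0 : 0 ≤ ν)
    (hν1 : ν ≤ 1) :
    (∀ ω ω' : Tup R D b, TT c ν ω ω' = TT c ν ω' ω) ∧ (∀ ω ω' : Tup R D b, 0 ≤ TT c ν ω ω') ∧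
      (∀ ω : Tup R D b, ∑ ω', TT c ν ω ω' = 1) ∧
      ∀ ω ω' : Tup R D b, ∀ σ : Equiv.Perm (Fin R),
        WW c ν (fun i => ω (σ i)) (fun i => ω' (σ i)) = WW c ν ω ω' := by
  obtain ⟨h1, h2, h3⟩ := W01_w1 (D := D) (b := b) hc0 hc1 hν0 hν1
  have hsym : ∀ ω ω' : Tup R D b, WW c ν ω ω' = WW c ν ω' ω := fun ω ω' =>
    prod_congr rfl fun i _ => h1 _ _
  have hnn : ∀ ω ω' : Tup R D b, 0 ≤ WW c ν ω ω' := fun ω ω' => prod_nonneg fun i _ => h2 _ _
  refine ⟨fun ω ω' => ?_, fun ω ω' => ?_, fun ω => ?_, fun ω ω' σ => W02_perm c ν ω ω' σ⟩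
  · unfold TT
    congr 1
    refine Fintype.sum_equiv (Equiv.inv (Equiv.Perm (Fin R))) _ _ fun σ => ?_
    have h := W02_perm c ν ω (fun i => ω' (σ i)) σ⁻¹
    rw [hsym] at h
    rw [← h]
    congr 1
    funext i
    exact congrArg ω' (by simp)
  · exact div_nonneg (sum_nonneg fun σ _ => hnn _ _) (by positivity)
  · unfold TT
    rw [← sum_div, sum_comm]
    have h : ∀ σ : Equiv.Perm (Fin R), ∑ ω' : Tup R D b, WW c ν ω (fun i => ω' (σ i)) = 1 := by
      intro σ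
      rw [← W02_sum h3 ω]
      exact Fintype.sum_equiv (Equiv.arrowCongr σ.symm (Equiv.refl _)) _ _ fun ω' => rfl
    rw [sum_congr rfl fun σ _ => h σ]
    rw [sum_const, card_univ, Fintype.card_perm, Fintype.card_fin, nsmul_eq_mul, mul_one]
    exact div_self (Nat.cast_ne_zero.2 (Nat.factorial_ne_zero R))

end Pool.Agent.Lib.MP_8d8c46_lc.Gap
end

section

set_option autoImplicit false

open Finset
open scoped Classical

namespace Pool.Agent.Lib.MP_8d8c46_lc.Gap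

open Pool.Agent.Lib.MP_8d8c46_lc Pool.Agent.Lib.MP_8d8c46_lc.SDP Pool.Agent.Lib.MP_8d8c46_lc.EL

/-- The overlap of one coordinate. -/
private noncomputable def L05_F {D b : ℕ} (s m : ℕ) (p q : Cube D × ZMod b) : ℝ :=
  if p.2 = q.2 then lensP m ((cor p.1 q.1 ^ 2) ^ s) else 0

private theorem L05_F_mem {D b : ℕ} (hD : 1 ≤ D) (s m : ℕ) (p q : Cube D × ZMod b) :
    0 ≤ L05_F s m p q ∧ L05_F s m p q ≤ 1 := by
  have h1 : cor p.1 q.1 ^ 2 ≤ 1 := by
    have := (E1_cor hD p.1 q.1).2.2.1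
    rw [← sq_abs]
    exact pow_le_one₀ (abs_nonneg _) this
  have h2 : (cor p.1 q.1 ^ 2) ^ s ≤ 1 := pow_le_one₀ (sq_nonneg _) h1
  have h3 : 0 ≤ (cor p.1 q.1 ^ 2) ^ s := pow_nonneg (sq_nonneg _) _
  unfold L05_F
  split_ifs
  · exact ⟨((L2_close m).2 _ h3 h2).1, (L6_le m h3 h2).trans h2⟩
  · exact ⟨le_refl _, zero_le_one⟩

private theorem L05_marg {R D b : ℕ} [NeZero b] {c ν : ℝ} (hc0 : 0 ≤ c) (hc1 : c ≤ 1)
    (hν0 : 0 ≤ ν) (hν1 : ν ≤ 1) (i : Fin R) (ω : Tup R D b) (f : Cube D × ZMod b → ℝ) :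
    ∑ ω' : Tup R D b, WW c ν ω ω' * f (ω' i) = ∑ q, w1 c ν (ω i) q * f q := by
  have h0 : ∀ ω' : Tup R D b, WW c ν ω ω' * f (ω' i) =
      ∏ j, (w1 c ν (ω j) (ω' j) * (if j = i then f (ω' j) else 1)) := by
    intro ω'
    rw [Finset.prod_mul_distrib, Finset.prod_ite_eq' univ i (fun j => f (ω' j))]
    simp [WW]
  rw [Finset.sum_congr rfl fun ω' _ => h0 ω']
  have h1 := Finset.prod_univ_sum (fun _ : Fin R => (univ : Finset (Cube D × ZMod b)))
    (fun j q => w1 c ν (ω j) q * (if j = i then f q else 1))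
  rw [Fintype.piFinset_univ] at h1
  rw [← h1, Finset.prod_eq_single i]
  · simp
  · intro j _ hj
    simp only [if_neg hj, mul_one]
    exact (W01_w1 hc0 hc1 hν0 hν1).2.2 (ω j)
  · intro h
    exact absurd (mem_univ i) h

private theorem L05_perm {R D b : ℕ} [NeZero b] {c ν : ℝ} (hc0 : 0 ≤ c) (hc1 : c ≤ 1)
    (hν0 : 0 ≤ ν) (hν1 : ν ≤ 1) (i : Fin R) (σ : Equiv.Perm (Fin R)) (ω : Tup R D b)
    (f : Cube D × ZMod b → ℝ) :
    ∑ ω' : Tup R D b, WW c ν ω (fun j => ω' (σ j)) * f (ω' (σ i)) =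
      ∑ q, w1 c ν (ω i) q * f q := by
  rw [← L05_marg hc0 hc1 hν0 hν1 i ω f]
  exact Fintype.sum_equiv (σ.symm.arrowCongr (Equiv.refl (Cube D × ZMod b))) _ _ (fun ω' => rfl)

private theorem L05_G {R D b : ℕ} [NeZero b] (hR : 1 ≤ R) (hD : 1 ≤ D) (s m : ℕ)
    {c ν : ℝ} (hc0 : 0 ≤ c) (hc1 : c ≤ 1) (hν0 : 0 ≤ ν) (hν1 : ν ≤ 1) (ω : Tup R D b) :
    (1 - c) * ∑ z, ∑ z', bw ν z * bw ν z' * lensP m ((cor (0 : Cube D) (z + z') ^ 2) ^ s) ≤
      ∑ ω' : Tup R D b, (∑ σ : Equiv.Perm (Fin R), WW c ν ω (fun i => ω' (σ i)) *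
        ((∑ i, L05_F s m (ω i) (ω' (σ i))) / R)) / (R.factorial : ℝ) := by
  have hR0 : (0 : ℝ) < R := by exact_mod_cast hR
  have hf0 : (0 : ℝ) < (R.factorial : ℝ) := by exact_mod_cast R.factorial_pos
  set L : ℝ := (1 - c) * ∑ z, ∑ z', bw ν z * bw ν z' *
    lensP m ((cor (0 : Cube D) (z + z') ^ 2) ^ s) with hL
  rw [← Finset.sum_div, Finset.sum_comm, le_div_iff₀ hf0]
  have h1 : ∀ σ : Equiv.Perm (Fin R), L ≤
      ∑ ω' : Tup R D b, WW c ν ω (fun i => ω' (σ i)) *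
        ((∑ i, L05_F s m (ω i) (ω' (σ i))) / R) := by
    intro σ
    have h2 : ∀ ω' : Tup R D b, WW c ν ω (fun i => ω' (σ i)) *
        ((∑ i, L05_F s m (ω i) (ω' (σ i))) / R) =
        (∑ i, WW c ν ω (fun i => ω' (σ i)) * L05_F s m (ω i) (ω' (σ i))) / R := by
      intro ω'
      rw [← Finset.mul_sum]
      ring
    rw [Finset.sum_congr rfl fun ω' _ => h2 ω', ← Finset.sum_div, Finset.sum_comm,
      le_div_iff₀ hR0]
    have h3 : ∀ i : Fin R, L ≤
        ∑ ω' : Tup R D b, WW c ν ω (fun i => ω' (σ i)) * L05_F s m (ω i) (ω' (σ i)) := by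
      intro i
      rw [L05_perm hc0 hc1 hν0 hν1 i σ ω (fun q => L05_F s m (ω i) q)]
      exact L02_step hD hc0 hc1 hν0 hν1 s m (ω i)
    have h4 := Finset.sum_le_sum (fun i (_ : i ∈ (univ : Finset (Fin R))) => h3 i)
    rw [Finset.sum_const, card_univ, Fintype.card_fin, nsmul_eq_mul] at h4
    rw [mul_comm _ (R : ℝ)]
    exact h4
  have h5 := Finset.sum_le_sum (fun σ (_ : σ ∈ (univ : Finset (Equiv.Perm (Fin R)))) => h1 σ)
  rw [Finset.sum_const, card_univ, Fintype.card_perm, Fintype.card_fin, nsmul_eq_mul] at h5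
  rw [mul_comm _ (R.factorial : ℝ)]
  exact h5

private theorem L05_point {R D b : ℕ} [NeZero b] (hR : 1 ≤ R) (hD : 1 ≤ D) (γ : ℝ) (s m : ℕ)
    {a : ℕ} (ha : 1 ≤ a) (hab : a ≤ b) (ω ω' : Tup R D b) (σ : Equiv.Perm (Fin R)) :
    (∑ i, L05_F s m (ω i) (ω' (σ i))) / R - (if good γ ω then 0 else 1) -
      (if good γ ω' then 0 else 1) ≤ oT γ s m a ω ω' := by
  have hR0 : (0 : ℝ) < R := by exact_mod_cast hR
  by_cases h : good γ ω ∧ good γ ω'
  · rw [if_pos h.1, if_pos h.2, sub_zero, sub_zero]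
    exact L01_lower hR hD s m ha hab h.1 h.2 σ
  · have h1 : oT γ s m a ω ω' = 0 := by
      unfold oT
      rw [if_neg h]
    rw [h1]
    have h2 : (∑ i, L05_F s m (ω i) (ω' (σ i))) / R ≤ 1 := by
      rw [div_le_one hR0]
      calc ∑ i, L05_F s m (ω i) (ω' (σ i)) ≤ ∑ _i : Fin R, (1 : ℝ) :=
            Finset.sum_le_sum fun i _ => (L05_F_mem hD s m _ _).2
        _ = R := by simp
    have h3 : (1 : ℝ) ≤ (if good γ ω then 0 else 1) + (if good γ ω' then 0 else 1) := by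
      by_cases h4 : good γ ω
      · have h5 : ¬ good γ ω' := fun h5 => h ⟨h4, h5⟩
        rw [if_pos h4, if_neg h5]
        norm_num
      · rw [if_neg h4]
        split_ifs <;> norm_num
    linarith

private theorem L05_row {R D b : ℕ} [NeZero b] (hR : 1 ≤ R) (hD : 1 ≤ D) (γ : ℝ) (s m : ℕ)
    {a : ℕ} (ha : 1 ≤ a) (hab : a ≤ b) {c ν : ℝ} (hc0 : 0 ≤ c) (hc1 : c ≤ 1) (hν0 : 0 ≤ ν)
    (hν1 : ν ≤ 1) (ω : Tup R D b) :
    (1 - c) * (∑ z, ∑ z', bw ν z * bw ν z' * lensP m ((cor (0 : Cube D) (z + z') ^ 2) ^ s)) -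
      (if good γ ω then 0 else 1) - ∑ ω' : Tup R D b, TT c ν ω ω' * (if good γ ω' then 0 else 1) ≤
    ∑ ω' : Tup R D b, TT c ν ω ω' * oT γ s m a ω ω' := by
  have hf0 : (0 : ℝ) < (R.factorial : ℝ) := by exact_mod_cast R.factorial_pos
  have h1 : ∀ ω' : Tup R D b,
      (∑ σ : Equiv.Perm (Fin R), WW c ν ω (fun i => ω' (σ i)) *
        ((∑ i, L05_F s m (ω i) (ω' (σ i))) / R)) / (R.factorial : ℝ) -
        TT c ν ω ω' * (if good γ ω then 0 else 1) - TT c ν ω ω' * (if good γ ω' then 0 else 1) ≤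
      TT c ν ω ω' * oT γ s m a ω ω' := by
    intro ω'
    have h2 : ∀ σ : Equiv.Perm (Fin R), WW c ν ω (fun i => ω' (σ i)) *
        ((∑ i, L05_F s m (ω i) (ω' (σ i))) / R - (if good γ ω then 0 else 1) -
          (if good γ ω' then 0 else 1)) ≤
        WW c ν ω (fun i => ω' (σ i)) * oT γ s m a ω ω' := by
      intro σ
      apply mul_le_mul_of_nonneg_left (L05_point hR hD γ s m ha hab ω ω' σ)
      unfold WW
      exact Finset.prod_nonneg fun i _ => (W01_w1 hc0 hc1 hν0 hν1).2.1 _ _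
    have h3 := Finset.sum_le_sum
      (fun σ (_ : σ ∈ (univ : Finset (Equiv.Perm (Fin R)))) => h2 σ)
    have h4 := div_le_div_of_nonneg_right h3 hf0.le
    have h5 : (∑ σ : Equiv.Perm (Fin R), WW c ν ω (fun i => ω' (σ i)) *
        ((∑ i, L05_F s m (ω i) (ω' (σ i))) / R - (if good γ ω then 0 else 1) -
          (if good γ ω' then 0 else 1))) / (R.factorial : ℝ) =
        (∑ σ : Equiv.Perm (Fin R), WW c ν ω (fun i => ω' (σ i)) *
        ((∑ i, L05_F s m (ω i) (ω' (σ i))) / R)) / (R.factorial : ℝ) -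
        TT c ν ω ω' * (if good γ ω then 0 else 1) -
        TT c ν ω ω' * (if good γ ω' then 0 else 1) := by
      unfold TT
      rw [Finset.sum_congr rfl fun σ _ => mul_sub _ _ _, Finset.sum_sub_distrib,
        Finset.sum_congr rfl fun σ _ => mul_sub _ _ _, Finset.sum_sub_distrib,
        ← Finset.sum_mul, ← Finset.sum_mul]
      ring
    have h6 : (∑ σ : Equiv.Perm (Fin R), WW c ν ω (fun i => ω' (σ i)) *
        oT γ s m a ω ω') / (R.factorial : ℝ) = TT c ν ω ω' * oT γ s m a ω ω' := by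
      unfold TT
      rw [← Finset.sum_mul]
      ring
    rw [h5, h6] at h4
    exact h4
  have h7 := Finset.sum_le_sum (fun ω' (_ : ω' ∈ (univ : Finset (Tup R D b))) => h1 ω')
  rw [Finset.sum_sub_distrib, Finset.sum_sub_distrib, ← Finset.sum_mul,
    (W02_TT hc0 hc1 hν0 hν1).2.2.1 ω, one_mul] at h7
  have h8 := L05_G hR hD s m hc0 hc1 hν0 hν1 ω
  linarith

/-- The mean overlap of the endpoints of a step. For all `ω, ω', σ` one has, with
`ℓ p q = if p.2 = q.2 then lensP m ((cor p.1 q.1 ^ 2)^s) else 0 ∈ [0, 1]`,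
`oT ω ω' ≥ (∑ i, ℓ (ω i) (ω' (σ i))) / R - [ω not good] - [ω' not good]` (`L01_lower` if both are good,
otherwise the right side is `≤ 0`, `oT ≥ 0`). Multiply by `WW ω (ω' ∘ σ) / R!`, sum over `σ` and `ω'`:
for fixed `σ`, `∑ ω', WW ω (ω' ∘ σ) ℓ (ω i) (ω' (σ i)) = ∑ q, w1 (ω i) q ℓ (ω i) q ≥ (1-c) Λ`
(`L02_step`; substitute `ω'' = ω' ∘ σ`, the other coordinates sum to `1`, `Finset.prod_univ_sum`).
Finally `∑ ω, ∑ ω', TT ω ω' [ω' not good] = #not good` (symmetry and row sums of `TT`). -/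
theorem L05_mean {R D b : ℕ} [NeZero b] (hR : 1 ≤ R) (hD : 1 ≤ D) (γ : ℝ) (s m : ℕ)
    {a : ℕ} (ha : 1 ≤ a) (hab : a ≤ b) {c ν : ℝ} (hc0 : 0 ≤ c) (hc1 : c ≤ 1) (hν0 : 0 ≤ ν)
    (hν1 : ν ≤ 1) :
    ((1 - c) * ∑ z, ∑ z', bw ν z * bw ν z' * lensP m ((cor (0 : Cube D) (z + z') ^ 2) ^ s)) *
        Fintype.card (Tup R D b) -
      2 * (((univ : Finset (Tup R D b)).filter (fun ω => ¬ good γ ω)).card : ℝ) ≤
    ∑ ω : Tup R D b, ∑ ω' : Tup R D b, TT c ν ω ω' * oT γ s m a ω ω' := by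
  have h1 := Finset.sum_le_sum (fun ω (_ : ω ∈ (univ : Finset (Tup R D b))) =>
    L05_row hR hD γ s m ha hab hc0 hc1 hν0 hν1 ω)
  rw [Finset.sum_sub_distrib, Finset.sum_sub_distrib, Finset.sum_const, card_univ,
    nsmul_eq_mul] at h1
  have hB : ∑ ω : Tup R D b, (if good γ ω then (0 : ℝ) else 1) =
      (((univ : Finset (Tup R D b)).filter (fun ω => ¬ good γ ω)).card : ℝ) := by
    rw [Finset.card_filter, Nat.cast_sum]
    refine Finset.sum_congr rfl fun ω _ => ?_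
    by_cases h : good γ ω
    · rw [if_pos h, if_neg (not_not.2 h), Nat.cast_zero]
    · rw [if_neg h, if_pos h, Nat.cast_one]
  have hT : ∑ ω : Tup R D b, ∑ ω' : Tup R D b, TT c ν ω ω' * (if good γ ω' then (0 : ℝ) else 1) =
      ∑ ω' : Tup R D b, (if good γ ω' then (0 : ℝ) else 1) := by
    rw [Finset.sum_comm]
    refine Finset.sum_congr rfl fun ω' _ => ?_
    rw [← Finset.sum_mul, Finset.sum_congr rfl fun ω _ => (W02_TT hc0 hc1 hν0 hν1).1 ω ω',
      (W02_TT hc0 hc1 hν0 hν1).2.2.1 ω', one_mul]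
  rw [hT, hB] at h1
  linarith

end Pool.Agent.Lib.MP_8d8c46_lc.Gap
end

section

set_option autoImplicit false

open Finset
open scoped Classical

namespace Pool.Agent.Lib.MP_8d8c46_lc.Gap

open Pool.Agent.Lib.MP_8d8c46_lc Pool.Agent.Lib.MP_8d8c46_lc.SDP Pool.Agent.Lib.MP_8d8c46_lc.EL

/-- Choice of `M = ⌈3 / ε⌉₊ ≤ 4 / ε`: `(1 - ε/2)^M ≤ exp (-ε M / 2) ≤ exp (-3/2) ≤ 1/4`, and
`2 δ ≤ 2 (η/4)^(16/ε) = 2 (1/2)^(16/ε) (η/2)^(16/ε) ≤ (η/2)^(4 M)` because `16 / ε ≥ 4 M` and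
`η/2 ≤ 1`, `16/ε ≥ 1`. Also `δ ≤ (1/8)^16 ≤ 1/2`. -/
theorem M02_M {η ε δ : ℝ} (hη0 : 0 < η) (hη1 : η ≤ 1 / 2) (hε0 : 0 < ε) (hε1 : ε ≤ 1)
    (hδ0 : 0 < δ) (hδ : δ ≤ (η / 4) ^ (16 / ε)) :
    δ ≤ 1 / 2 ∧ ∃ M : ℕ, 1 ≤ M ∧ (1 - ε / 2) ^ M ≤ 1 / 4 ∧ 2 * δ ≤ (η / 2) ^ (4 * M) := by
  have hx : (16 : ℝ) ≤ 16 / ε := by
    rw [le_div_iff₀ hε0]; nlinarith
  have hx0 : 0 ≤ 16 / ε := by linarith
  have h4 : (η / 4) ^ (16 / ε) = (1 / 2) ^ (16 / ε) * (η / 2) ^ (16 / ε) := by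
    rw [← Real.mul_rpow (by norm_num) (by linarith)]
    congr 1; ring
  have hhalf : (1 / 2 : ℝ) ^ (16 / ε) ≤ 1 / 2 := by
    calc (1 / 2 : ℝ) ^ (16 / ε) ≤ (1 / 2 : ℝ) ^ (1 : ℝ) :=
          Real.rpow_le_rpow_of_exponent_ge (by norm_num) (by norm_num) (by linarith)
      _ = 1 / 2 := Real.rpow_one _
  have hη2 : 0 ≤ (η / 2) ^ (16 / ε) := Real.rpow_nonneg (by linarith) _
  have hη21 : (η / 2) ^ (16 / ε) ≤ 1 := Real.rpow_le_one (by linarith) (by linarith) hx0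
  refine ⟨?_, ⌈3 / ε⌉₊, ?_, ?_, ?_⟩
  · rw [h4] at hδ
    nlinarith
  · apply Nat.one_le_iff_ne_zero.mpr
    intro h
    rw [Nat.ceil_eq_zero] at h
    have : 0 < 3 / ε := by positivity
    linarith
  · have hM : 3 ≤ ε * (⌈3 / ε⌉₊ : ℝ) := by
      have := Nat.le_ceil (3 / ε)
      rw [div_le_iff₀ hε0] at this
      linarith
    have h1 : 1 - ε / 2 ≤ Real.exp (-(ε / 2)) := by
      have := Real.add_one_le_exp (-(ε / 2))
      linarith
    have h2 : (1 - ε / 2) ^ ⌈3 / ε⌉₊ ≤ Real.exp (-(ε / 2)) ^ ⌈3 / ε⌉₊ :=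
      pow_le_pow_left₀ (by linarith) h1 _
    refine h2.trans ?_
    rw [← Real.exp_nat_mul]
    have h3 : (⌈3 / ε⌉₊ : ℝ) * (-(ε / 2)) ≤ -(3 / 2) := by linarith
    refine (Real.exp_le_exp.mpr h3).trans ?_
    rw [Real.exp_neg, ← one_div]
    apply one_div_le_one_div_of_le (by norm_num)
    have h5 : Real.exp (3 / 2) ^ 2 = Real.exp 1 ^ 3 := by
      rw [← Real.exp_nat_mul, ← Real.exp_nat_mul]
      congr 1; norm_num
    have h6 : (2.7182818283 : ℝ) < Real.exp 1 := Real.exp_one_gt_d9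
    have h7 : (2.7 : ℝ) ^ 3 ≤ Real.exp 1 ^ 3 := pow_le_pow_left₀ (by norm_num) (by linarith) 3
    have h8 : 0 < Real.exp (3 / 2) := Real.exp_pos _
    nlinarith
  · have hM : 4 * (⌈3 / ε⌉₊ : ℝ) ≤ 16 / ε := by
      have h1 := Nat.ceil_lt_add_one (show 0 ≤ 3 / ε by positivity)
      have h2 : 1 ≤ 1 / ε := by rw [le_div_iff₀ hε0]; linarith
      have h3 : 16 / ε = 4 * (3 / ε + 1 / ε) := by ring
      rw [h3]
      linarith
    have h2 : (η / 2) ^ (16 / ε) ≤ (η / 2) ^ (4 * ⌈3 / ε⌉₊) := by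
      rw [← Real.rpow_natCast]
      apply Real.rpow_le_rpow_of_exponent_ge (by linarith) (by linarith)
      push_cast
      exact hM
    rw [h4] at hδ
    have h5 : 2 * δ ≤ (η / 2) ^ (16 / ε) := by nlinarith
    linarith

end Pool.Agent.Lib.MP_8d8c46_lc.Gap
end

section

set_option autoImplicit false

open Finset
open scoped Classical

namespace Pool.Agent.Lib.MP_8d8c46_lc.Gap

open Pool.Agent.Lib.MP_8d8c46_lc Pool.Agent.Lib.MP_8d8c46_lc.SDP Pool.Agent.Lib.MP_8d8c46_lc.EL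

/-- Permuting the coordinates. -/
private def W04_E {R D b : ℕ} (σ : Equiv.Perm (Fin R)) : Tup R D b ≃ Tup R D b where
  toFun ω := fun i => ω (σ i)
  invFun ω := fun i => ω (σ.symm i)
  left_inv ω := by funext i; simp
  right_inv ω := by funext i; simp

private theorem W04_WW {R D b : ℕ} [NeZero b] (c ν : ℝ) (ω ω' : Tup R D b)
    (σ : Equiv.Perm (Fin R)) :
    WW c ν (W04_E σ ω) (W04_E σ ω') = WW c ν ω ω' := by
  unfold WW
  exact Equiv.prod_comp σ (fun i => w1 c ν (ω i) (ω' i))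

private theorem W04_Sy {R D b : ℕ} (f : Tup R D b → ℝ) (ω : Tup R D b)
    (π : Equiv.Perm (Fin R)) : Sy f (W04_E π ω) = Sy f ω := by
  unfold Sy
  congr 1
  exact Equiv.sum_comp (Equiv.mulLeft π) (fun σ : Equiv.Perm (Fin R) => f (fun i => ω (σ i)))

/-- The form of `TT`. `∑ ω', TT ω ω' f ω' = ∑ ω', WW ω ω' (Sy f) ω' =: F ω` (substitute
`ω' ∘ σ`, and `σ ↦ σ⁻¹` in the sum over all permutations), and `F (ω ∘ π) = F ω` (`W02_TT`, and
`Sy f (ω' ∘ π) = Sy f ω'`). So `∑ ω, f ω F ω = ∑ ω, f (ω ∘ π) F ω` for every `π`; average over `π`. -/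
theorem W04_form {R D b : ℕ} [NeZero b] (c ν : ℝ) (f : Tup R D b → ℝ) :
    ∑ ω, f ω * ∑ ω', TT c ν ω ω' * f ω' = ∑ ω, Sy f ω * ∑ ω', WW c ν ω ω' * Sy f ω' := by
  have hfac : (R.factorial : ℝ) ≠ 0 := by exact_mod_cast R.factorial_ne_zero
  -- step 1
  have h1 : ∀ ω : Tup R D b, ∑ ω', TT c ν ω ω' * f ω' = ∑ ω', WW c ν ω ω' * Sy f ω' := by
    intro ω
    have e1 : ∑ ω', TT c ν ω ω' * f ω' =
        (∑ σ : Equiv.Perm (Fin R), ∑ ω' : Tup R D b, WW c ν ω (W04_E σ ω') * f ω') /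
          (R.factorial : ℝ) := by
      rw [sum_comm, sum_div]
      apply sum_congr rfl
      intro ω' _
      rw [← sum_mul, mul_div_right_comm]
      rfl
    have e2 : ∑ ω', WW c ν ω ω' * Sy f ω' =
        (∑ σ : Equiv.Perm (Fin R), ∑ ω' : Tup R D b, WW c ν ω ω' * f (W04_E σ ω')) /
          (R.factorial : ℝ) := by
      rw [sum_comm, sum_div]
      apply sum_congr rfl
      intro ω' _
      rw [← mul_sum, mul_div_assoc]
      rfl
    rw [e1, e2]
    congr 1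
    rw [← Equiv.sum_comp (Equiv.inv (Equiv.Perm (Fin R)))]
    apply sum_congr rfl
    intro σ _
    rw [← Equiv.sum_comp (W04_E (R := R) (D := D) (b := b) σ)]
    apply sum_congr rfl
    intro ω' _
    have : W04_E ((Equiv.inv (Equiv.Perm (Fin R))) σ) (W04_E σ ω') = ω' := by
      funext i
      show ω' (σ (σ⁻¹ i)) = ω' i
      simp
    rw [this]
  simp only [h1]
  -- step 2
  have h2 : ∀ (π : Equiv.Perm (Fin R)) (ω : Tup R D b),
      ∑ ω', WW c ν (W04_E π ω) ω' * Sy f ω' = ∑ ω', WW c ν ω ω' * Sy f ω' := by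
    intro π ω
    rw [← Equiv.sum_comp (W04_E (R := R) (D := D) (b := b) π)]
    apply sum_congr rfl
    intro ω' _
    rw [W04_WW, W04_Sy]
  -- step 3
  have e3 : ∑ ω, Sy f ω * ∑ ω', WW c ν ω ω' * Sy f ω' =
      (∑ π : Equiv.Perm (Fin R), ∑ ω : Tup R D b, f (W04_E π ω) *
        ∑ ω', WW c ν ω ω' * Sy f ω') / (R.factorial : ℝ) := by
    rw [sum_comm, sum_div]
    apply sum_congr rfl
    intro ω _
    rw [← sum_mul, mul_div_right_comm]
    rfl
  rw [e3]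
  have e4 : ∀ π : Equiv.Perm (Fin R), ∑ ω : Tup R D b, f (W04_E π ω) *
        ∑ ω', WW c ν ω ω' * Sy f ω' = ∑ ω : Tup R D b, f ω * ∑ ω', WW c ν ω ω' * Sy f ω' := by
    intro π
    rw [← Equiv.sum_comp (W04_E (R := R) (D := D) (b := b) π)
      (fun ω => f ω * ∑ ω', WW c ν ω ω' * Sy f ω')]
    apply sum_congr rfl
    intro ω _
    rw [h2]
  rw [sum_congr rfl (fun π _ => e4 π), sum_const, card_univ, Fintype.card_perm, Fintype.card_fin,
    nsmul_eq_mul]
  field_simp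

end Pool.Agent.Lib.MP_8d8c46_lc.Gap
end

section

set_option autoImplicit false

open Finset
open scoped Classical

namespace Pool.Agent.Lib.MP_8d8c46_lc.Gap

open Pool.Agent.Lib.MP_8d8c46_lc Pool.Agent.Lib.MP_8d8c46_lc.SDP Pool.Agent.Lib.MP_8d8c46_lc.EL

private theorem W03_cast (q : ℚ) : (q : ℝ) ∈ (Rat.castHom ℝ).fieldRange := ⟨q, rfl⟩

private theorem W03_nat (n : ℕ) : (n : ℝ) ∈ (Rat.castHom ℝ).fieldRange := natCast_mem _ n

private theorem W03_bw {D : ℕ} (ν : ℚ) (z : Cube D) :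
    bw (ν : ℝ) z ∈ (Rat.castHom ℝ).fieldRange := by
  unfold bw
  exact mul_mem (pow_mem (W03_cast ν) _) (pow_mem (sub_mem (one_mem _) (W03_cast ν)) _)

private theorem W03_w1 {D b : ℕ} [NeZero b] (c ν : ℚ) (p q : Cube D × ZMod b) :
    w1 (c : ℝ) (ν : ℝ) p q ∈ (Rat.castHom ℝ).fieldRange := by
  unfold w1
  refine add_mem (div_mem (W03_cast c) (mul_mem (pow_mem ?_ _) (W03_nat b)))
    (mul_mem (sub_mem (one_mem _) (W03_cast c)) ?_)
  · exact_mod_cast W03_nat 2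
  · split_ifs
    · exact sum_mem fun z _ => mul_mem (W03_bw ν _) (W03_bw ν _)
    · exact zero_mem _

private theorem W03_mem {R D b : ℕ} [NeZero b] (c ν : ℚ) (ω ω' : Tup R D b) :
    TT (c : ℝ) (ν : ℝ) ω ω' ∈ (Rat.castHom ℝ).fieldRange := by
  unfold TT
  refine div_mem (sum_mem fun σ _ => ?_) (W03_nat _)
  unfold WW
  exact prod_mem fun i _ => W03_w1 c ν _ _

/-- The numbers `TT c ν ω ω'` are rational: they are built from `c`, `ν` and natural numbers by the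
field operations, so they lie in the subfield `(Rat.castHom ℝ).fieldRange` (`sum_mem`, `prod_mem`,
`div_mem`, ...; `bw ν z = ν^(wt z) (1-ν)^(D - wt z)`). Let `D₀` be a common denominator (the product
of all denominators) and `N ω ω' = (D₀ * q ω ω').num.toNat` with `q` the rational value. The row
sums are `D₀` by `W02_TT`. -/
theorem W03_rational {R D b : ℕ} [NeZero b] {c ν : ℚ} (hc0 : 0 ≤ c) (hc1 : c ≤ 1) (hν0 : 0 ≤ ν)
    (hν1 : ν ≤ 1) :
    ∃ (D₀ : ℕ) (N : Tup R D b → Tup R D b → ℕ), 1 ≤ D₀ ∧ (∀ ω ω', N ω ω' = N ω' ω) ∧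
      (∀ ω, ∑ ω', N ω ω' = D₀) ∧
      ∀ ω ω', (N ω ω' : ℝ) = D₀ * TT (c : ℝ) (ν : ℝ) ω ω' := by
  obtain ⟨hsym, hnn, hrow, -⟩ := W02_TT (R := R) (D := D) (b := b) (c := (c : ℝ)) (ν := (ν : ℝ))
    (by exact_mod_cast hc0) (by exact_mod_cast hc1) (by exact_mod_cast hν0) (by exact_mod_cast hν1)
  have hq : ∀ ω ω' : Tup R D b, ∃ q : ℚ, (q : ℝ) = TT (c : ℝ) (ν : ℝ) ω ω' := by
    intro ω ω'
    obtain ⟨q, hq⟩ := W03_mem c ν ω ω'
    exact ⟨q, hq⟩
  choose q hq using hq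
  have hden : ∀ ω ω', (q ω ω').den ∣ ∏ ω, ∏ ω', (q ω ω').den := by
    intro ω ω'
    exact (dvd_prod_of_mem (fun ω' => (q ω ω').den) (mem_univ ω')).trans
      (dvd_prod_of_mem (fun ω => ∏ ω', (q ω ω').den) (mem_univ ω))
  have hpos : 0 < ∏ ω, ∏ ω', (q ω ω').den :=
    prod_pos fun ω _ => prod_pos fun ω' _ => (q ω ω').den_pos
  set D₀ : ℕ := ∏ ω, ∏ ω', (q ω ω').den with hD₀
  have hN : ∀ ω ω' : Tup R D b, ∃ n : ℕ, (n : ℝ) = D₀ * TT (c : ℝ) (ν : ℝ) ω ω' := by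
    intro ω ω'
    obtain ⟨k, hk⟩ := hden ω ω'
    have hq0 : 0 ≤ q ω ω' := by
      have := hnn ω ω'
      rw [← hq] at this
      exact_mod_cast this
    obtain ⟨n, hn⟩ := Int.eq_ofNat_of_zero_le (Rat.num_nonneg.mpr hq0)
    refine ⟨k * n, ?_⟩
    rw [hk, ← hq]
    have hd : ((q ω ω').den : ℝ) ≠ 0 := by exact_mod_cast (q ω ω').den_pos.ne'
    have h2 : (q ω ω' : ℝ) = (n : ℝ) / ((q ω ω').den : ℝ) := by
      have h3 : ((q ω ω').num : ℝ) / ((q ω ω').den : ℝ) = (q ω ω' : ℝ) := by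
        exact_mod_cast congrArg (fun x : ℚ => (x : ℝ)) (Rat.num_div_den (q ω ω'))
      rw [← h3, hn]
      simp
    rw [h2]
    push_cast
    field_simp
  choose N hN using hN
  refine ⟨D₀, N, hpos, ?_, ?_, hN⟩
  · intro ω ω'
    have : (N ω ω' : ℝ) = N ω' ω := by rw [hN, hN, hsym]
    exact_mod_cast this
  · intro ω
    have : ((∑ ω', N ω ω' : ℕ) : ℝ) = D₀ := by
      push_cast
      rw [sum_congr rfl (fun ω' _ => hN ω ω'), ← mul_sum, hrow, mul_one]
    exact_mod_cast this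

end Pool.Agent.Lib.MP_8d8c46_lc.Gap
end
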