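import Pool.Agent.Lib.MP_8d8c46_lc.Mg.G002

section

set_option autoImplicit false

open Finset
open scoped Classical

namespace Pool.Agent.Lib.MP_8d8c46_lc.Gap

open Pool.Agent.Lib.MP_8d8c46_lc Pool.Agent.Lib.MP_8d8c46_lc.SDP Pool.Agent.Lib.MP_8d8c46_lc.EL

private theorem R01_core {β K : ℝ} (hβ : 0 < β) :
    ∃ D₀ : ℕ, 1 ≤ D₀ ∧ ∀ D ≥ D₀, ∀ d : ℝ, 32 * (D : ℝ) / β ^ 2 ≤ d → d ≤ K * D →
      (2 : ℝ) ^ D * (2 * Real.exp (-(β ^ 2 * d / 16))) + d * Real.exp (-(1 / 2 * D / 3)) +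
        (d ^ 2 * ((1 - 1 / 2) ^ 2 + (1 / 2) ^ 2) ^ D + d * (1 - 1 / 2) ^ D) < 1 := by
  have hβ2 : 0 < β ^ 2 := by positivity
  have hs1 : |Real.exp (-((1 / 2 : ℝ) / 3))| < 1 := by
    rw [abs_of_pos (Real.exp_pos _), Real.exp_lt_one_iff]
    norm_num
  have hr1 : |(1 - 1 / 2 : ℝ) ^ 2 + (1 / 2) ^ 2| < 1 := by
    rw [abs_of_pos (by norm_num)]
    norm_num
  have hν1 : |(1 - 1 / 2 : ℝ)| < 1 := by
    rw [abs_of_pos (by norm_num)]
    norm_num
  have he2 : |2 * Real.exp (-2)| < 1 := by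
    rw [abs_of_pos (by positivity), Real.exp_neg]
    have h3 := Real.add_one_lt_exp (show (2 : ℝ) ≠ 0 by norm_num)
    rw [← div_eq_mul_inv, div_lt_one (Real.exp_pos _)]
    linarith
  have T1 := (tendsto_pow_const_mul_const_pow_of_abs_lt_one 0 he2).const_mul 2
  have T2 := (tendsto_pow_const_mul_const_pow_of_abs_lt_one 1 hs1).const_mul K
  have T3 := (tendsto_pow_const_mul_const_pow_of_abs_lt_one 2 hr1).const_mul (K ^ 2)
  have T4 := (tendsto_pow_const_mul_const_pow_of_abs_lt_one 1 hν1).const_mul K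
  have T := (T1.add T2).add (T3.add T4)
  simp only [mul_zero, add_zero] at T
  obtain ⟨D₀, hD₀⟩ := Filter.eventually_atTop.1 (T.eventually_lt_const one_pos)
  refine ⟨max D₀ 1, le_max_right _ _, fun D hD d hd1 hdK => ?_⟩
  have h2 := hD₀ D ((le_max_left _ _).trans hD)
  have hd0 : 0 ≤ d := le_trans (by positivity) hd1
  have e1 : (2 : ℝ) ^ D * (2 * Real.exp (-(β ^ 2 * d / 16))) ≤
      2 * ((D : ℝ) ^ 0 * (2 * Real.exp (-2)) ^ D) := by
    have h3 : Real.exp (-(β ^ 2 * d / 16)) ≤ Real.exp (-2) ^ D := by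
      rw [← Real.exp_nat_mul]
      apply Real.exp_le_exp.2
      have h4 : 32 * (D : ℝ) ≤ β ^ 2 * d := by
        rw [div_le_iff₀ hβ2] at hd1
        linarith
      linarith
    rw [pow_zero, one_mul, mul_pow]
    have h5 : (0 : ℝ) < 2 ^ D := by positivity
    nlinarith
  have e2 : d * Real.exp (-(1 / 2 * D / 3)) ≤
      K * ((D : ℝ) ^ 1 * Real.exp (-((1 / 2 : ℝ) / 3)) ^ D) := by
    have h3 : Real.exp (-(1 / 2 * D / 3)) = Real.exp (-((1 / 2 : ℝ) / 3)) ^ D := by
      rw [← Real.exp_nat_mul]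
      congr 1
      ring
    rw [h3, pow_one, ← mul_assoc]
    exact mul_le_mul_of_nonneg_right hdK (by positivity)
  have e3 : d ^ 2 * ((1 - 1 / 2) ^ 2 + (1 / 2) ^ 2) ^ D ≤
      K ^ 2 * ((D : ℝ) ^ 2 * ((1 - 1 / 2) ^ 2 + (1 / 2) ^ 2) ^ D) := by
    rw [← mul_assoc, ← mul_pow K]
    exact mul_le_mul_of_nonneg_right (pow_le_pow_left₀ hd0 hdK 2) (by positivity)
  have e4 : d * (1 - 1 / 2) ^ D ≤ K * ((D : ℝ) ^ 1 * (1 - 1 / 2) ^ D) := by
    rw [pow_one, ← mul_assoc]
    have h3 : (0 : ℝ) ≤ 1 - 1 / 2 := by norm_num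
    exact mul_le_mul_of_nonneg_right hdK (by positivity)
  linarith

/-- Numerics: with `cc = ⌈32 D / β²⌉` all error terms tend to `0` as `D → ∞`, uniformly in
`1 ≤ t ≤ t₀`: `2^D * 2 exp (-β² cc t / 16) ≤ 2^(D+1) exp (-2 D)`, and
`d = cc t ≤ (32 D / β² + 1) t₀` is polynomial in `D`, the other factors `exp (-D/6)`, `(1/2)^D` are
exponentially small. (Compare `Z6_num` in `SDP/Gen.lean`.) -/
theorem R01_num {β : ℝ} (hβ : 0 < β) (t₀ : ℕ) :
    ∃ D₀ : ℕ, 1 ≤ D₀ ∧ ∀ D ≥ D₀, ∃ cc : ℕ, 1 ≤ cc ∧ ∀ t : ℕ, 1 ≤ t → t ≤ t₀ →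
      (2 : ℝ) ^ D * (2 * Real.exp (-(β ^ 2 * (cc * t : ℕ) / 16))) +
        (cc * t : ℕ) * Real.exp (-(1 / 2 * D / 3)) +
        (((cc * t : ℕ) : ℝ) ^ 2 * ((1 - 1 / 2) ^ 2 + (1 / 2) ^ 2) ^ D +
          (cc * t : ℕ) * (1 - 1 / 2) ^ D) < 1 := by
  obtain ⟨D₀, h0, hD₀⟩ := R01_core (K := (32 / β ^ 2 + 1) * t₀) hβ
  have hβ2 : 0 < β ^ 2 := by positivity
  refine ⟨D₀, h0, fun D hD => ⟨⌈32 * (D : ℝ) / β ^ 2⌉₊, ?_, fun t ht1 ht2 => ?_⟩⟩
  · have hD1 : 1 ≤ D := h0.trans hD
    have hDpos : (0 : ℝ) < D := by exact_mod_cast hD1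
    exact Nat.ceil_pos.2 (by positivity)
  · have hD1 : 1 ≤ D := h0.trans hD
    have hD1' : (1 : ℝ) ≤ D := by exact_mod_cast hD1
    have ht1' : (1 : ℝ) ≤ t := by exact_mod_cast ht1
    have ht2' : (t : ℝ) ≤ t₀ := by exact_mod_cast ht2
    have hc1 := Nat.le_ceil (32 * (D : ℝ) / β ^ 2)
    have hc2 := (Nat.ceil_lt_add_one (show 0 ≤ 32 * (D : ℝ) / β ^ 2 by positivity)).le
    have hc0 : (0 : ℝ) ≤ 32 * (D : ℝ) / β ^ 2 := by positivity
    refine hD₀ D hD _ ?_ ?_
    · push_cast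
      nlinarith
    · push_cast
      have h1 : ((⌈32 * (D : ℝ) / β ^ 2⌉₊ : ℕ) : ℝ) ≤ (32 / β ^ 2 + 1) * D := by
        calc ((⌈32 * (D : ℝ) / β ^ 2⌉₊ : ℕ) : ℝ) ≤ 32 * (D : ℝ) / β ^ 2 + 1 := hc2
          _ ≤ 32 * (D : ℝ) / β ^ 2 + D := by linarith
          _ = (32 / β ^ 2 + 1) * D := by ring
      calc ((⌈32 * (D : ℝ) / β ^ 2⌉₊ : ℕ) : ℝ) * t ≤ ((32 / β ^ 2 + 1) * D) * t₀ :=
            mul_le_mul h1 ht2' (by linarith) (by positivity)
        _ = (32 / β ^ 2 + 1) * t₀ * D := by ring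

end Pool.Agent.Lib.MP_8d8c46_lc.Gap
end

section

set_option autoImplicit false

open Finset
open scoped Classical

namespace Pool.Agent.Lib.MP_8d8c46_lc.Gap

open Pool.Agent.Lib.MP_8d8c46_lc Pool.Agent.Lib.MP_8d8c46_lc.SDP Pool.Agent.Lib.MP_8d8c46_lc.EL

/-- `Z7_tuple` (`SDP/Gen.lean`) with `ν = 1/2` and `d = cc t`: for `a ≠ 0` one has `wt a ≥ 1`, so
`(1 - 2 ν)^(wt a) = 0` and `|∑ i, ch a (z i)| ≤ β cc t`. Let `J t` be the image of the injective tuple
`z` for `1 ≤ t ≤ t₀`, and `J t = ∅` otherwise. -/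
theorem R02_sets {β : ℝ} (hβ : 0 < β) (hβ4 : β ≤ 4) (t₀ : ℕ) :
    ∃ D₀ : ℕ, 1 ≤ D₀ ∧ ∀ D ≥ D₀, ∃ (cc : ℕ) (J : ℕ → Finset (Cube D)), 1 ≤ cc ∧
      (∀ t, (0 : Cube D) ∉ J t) ∧ ∀ t ≤ t₀, (J t).card = cc * t ∧
        ∀ a : Cube D, a ≠ 0 → |∑ z ∈ J t, ch a z| ≤ β * (cc * t) := by
  obtain ⟨D₀, hD₀, hnum⟩ := R01_num hβ t₀
  refine ⟨D₀, hD₀, fun D hD => ?_⟩
  obtain ⟨cc, hcc, hlt⟩ := hnum D hD
  have key : ∀ t : ℕ, ∃ J : Finset (Cube D), (0 : Cube D) ∉ J ∧ (t ≤ t₀ → J.card = cc * t ∧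
      ∀ a : Cube D, a ≠ 0 → |∑ z ∈ J, ch a z| ≤ β * (cc * t)) := by
    intro t
    by_cases ht : 1 ≤ t ∧ t ≤ t₀
    · obtain ⟨z, hz1, hz2, -, hz4⟩ := Z7_tuple (D := D) (d := cc * t) (ν := 1 / 2) (β := β)
        (by norm_num) (by norm_num) hβ.le hβ4 (hlt t ht.1 ht.2)
      refine ⟨univ.image z, ?_, fun _ => ⟨?_, ?_⟩⟩
      · intro h0
        obtain ⟨i, -, hi⟩ := Finset.mem_image.1 h0
        exact hz2 i hi
      · rw [Finset.card_image_of_injective _ hz1, Finset.card_univ, Fintype.card_fin]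
      · intro a ha
        rw [Finset.sum_image (fun x _ y _ h => hz1 h)]
        have hwt : wt a ≠ 0 := by
          intro h
          apply ha
          funext i
          by_contra hi
          have hmem : i ∈ univ.filter (fun i => a i ≠ 0) :=
            Finset.mem_filter.2 ⟨Finset.mem_univ _, hi⟩
          have hemp : univ.filter (fun i => a i ≠ 0) = ∅ := Finset.card_eq_zero.1 h
          rw [hemp] at hmem
          exact absurd hmem (Finset.notMem_empty _)
        have h4 := hz4 a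
        have h0 : (1 - 2 * (1 / 2 : ℝ)) ^ wt a = 0 := by
          rw [show (1 - 2 * (1 / 2 : ℝ)) = 0 by norm_num]
          exact zero_pow hwt
        rw [h0] at h4
        simp only [sub_zero] at h4
        push_cast at h4
        exact h4
    · refine ⟨∅, Finset.notMem_empty _, fun ht' => ?_⟩
      have h0 : t = 0 := by
        by_contra h
        exact ht ⟨Nat.one_le_iff_ne_zero.2 h, ht'⟩
      subst h0
      refine ⟨by simp, fun a _ => by simp⟩
  choose J hJ0 hJ using key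
  exact ⟨cc, J, hcc, hJ0, fun t ht => hJ t ht⟩

end Pool.Agent.Lib.MP_8d8c46_lc.Gap
end

section

set_option autoImplicit false

open Finset
open scoped Classical

namespace Pool.Agent.Lib.MP_8d8c46_lc.Gap

open Pool.Agent.Lib.MP_8d8c46_lc Pool.Agent.Lib.MP_8d8c46_lc.SDP Pool.Agent.Lib.MP_8d8c46_lc.EL

theorem R03_aux {D : ℕ} (K : Finset (Cube D)) (x : Cube D) (c : ℝ) :
    (∑ y : Cube D, if x + y ∈ K then c else 0) = K.card * c := by
  refine (Equiv.sum_comp (Equiv.addLeft x) (fun z => if z ∈ K then c else 0)).trans ?_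
  rw [← Finset.sum_filter]
  simp

/-- For fixed `w, w'` and `x` the neighbours `(w', y)` of `(w, x)` are the `y = x + z`,
`z ∈ J (N w w')`. So the number of neighbours of `(w, x)` is
`∑ w', (J (N w w')).card = cc ∑ w', N w w' = cc D₀`, and
`∑ over adjacent pairs of F e.1.1 e.2.1 = ∑ w, ∑ w', 2^D cc N w w' F w w'`. -/
theorem R03_count {W : Type} [Fintype W] {D : ℕ} (N : W → W → ℕ) (J : ℕ → Finset (Cube D))
    (hN : ∀ w w', N w w' = N w' w) (hJ : ∀ t, (0 : Cube D) ∉ J t) {D₀ cc : ℕ}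
    (hrow : ∀ w, ∑ w', N w w' = D₀) (hcard : ∀ w w', (J (N w w')).card = cc * N w w') :
    Regular (grf N J hN hJ) (cc * D₀) ∧ ∀ F : W → W → ℝ,
      ∑ e ∈ univ.filter (fun e : (W × Cube D) × (W × Cube D) => (grf N J hN hJ).Adj e.1 e.2),
        F e.1.1 e.2.1 = 2 ^ D * cc * ∑ w, ∑ w', N w w' * F w w' := by
  refine ⟨?_, ?_⟩
  · intro v
    have h0 : ((univ.filter (fun u => (grf N J hN hJ).Adj v u)).card : ℝ) =
        ∑ u : W × Cube D, if (grf N J hN hJ).Adj v u then (1 : ℝ) else 0 := by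
      rw [← Finset.sum_filter]
      simp
    have h1 : ((univ.filter (fun u => (grf N J hN hJ).Adj v u)).card : ℝ) = ((cc * D₀ : ℕ) : ℝ) := by
      rw [h0, Fintype.sum_prod_type]
      have h2 : ∀ w' : W, (∑ y : Cube D, if (grf N J hN hJ).Adj v (w', y) then (1 : ℝ) else 0) =
          cc * (N v.1 w' : ℝ) := by
        intro w'
        have h3 := R03_aux (J (N v.1 w')) v.2 1
        rw [hcard] at h3
        push_cast at h3
        rw [mul_one] at h3
        refine Eq.trans (sum_congr rfl fun y _ => ?_) h3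
        refine if_congr Iff.rfl rfl rfl
      rw [sum_congr rfl fun w' _ => h2 w', ← Finset.mul_sum, ← hrow v.1]
      push_cast
      rfl
    exact_mod_cast h1
  · intro F
    rw [Finset.sum_filter, Fintype.sum_prod_type, Fintype.sum_prod_type, Finset.mul_sum]
    refine sum_congr rfl fun w _ => ?_
    have h2 : ∀ x : Cube D, (∑ u : W × Cube D, if (grf N J hN hJ).Adj (w, x) u then F w u.1 else 0) =
        cc * ∑ w', (N w w' : ℝ) * F w w' := by
      intro x
      rw [Fintype.sum_prod_type, Finset.mul_sum]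
      refine sum_congr rfl fun w' _ => ?_
      have h3 := R03_aux (J (N w w')) x (F w w')
      rw [hcard] at h3
      push_cast at h3
      rw [mul_assoc] at h3
      refine Eq.trans (sum_congr rfl fun y _ => ?_) h3
      refine if_congr Iff.rfl rfl rfl
    have h4 : (∑ x : Cube D, ∑ u : W × Cube D,
        if (grf N J hN hJ).Adj (w, x) u then F w u.1 else 0) =
        ∑ x : Cube D, (cc : ℝ) * ∑ w', (N w w' : ℝ) * F w w' := sum_congr rfl fun x _ => h2 x
    refine h4.trans ?_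
    rw [sum_const, card_univ, nsmul_eq_mul, F2_card]
    ring

end Pool.Agent.Lib.MP_8d8c46_lc.Gap
end

section

set_option autoImplicit false

open Finset
open scoped Classical

namespace Pool.Agent.Lib.MP_8d8c46_lc.Gap

open Pool.Agent.Lib.MP_8d8c46_lc Pool.Agent.Lib.MP_8d8c46_lc.SDP Pool.Agent.Lib.MP_8d8c46_lc.EL

/-- The fraction of the fibre over `w` that lies in `S`. -/
noncomputable def fr {W : Type} {D : ℕ} (S : Finset (W × Cube D)) (w : W) : ℝ :=
  avg (fun x : Cube D => if (w, x) ∈ S then (1 : ℝ) else 0)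

/-- `0 ≤ fr S w ≤ 1` and the mean of `fr S` is `|S| / (|W| 2^D)`. -/
theorem R04_fr {W : Type} [Fintype W] {D : ℕ} (S : Finset (W × Cube D)) :
    (∀ w, 0 ≤ fr S w) ∧ (∀ w, fr S w ≤ 1) ∧
      avg (fr S) = S.card / (Fintype.card W * 2 ^ D) ∧ ∑ w, fr S w = S.card / 2 ^ D := by
  have h4 : ∑ w, fr S w = S.card / 2 ^ D := by
    have h5 : (S.card : ℝ) = ∑ w : W, ∑ x : Cube D, if (w, x) ∈ S then (1 : ℝ) else 0 := by
      rw [← Fintype.sum_prod_type (fun p : W × Cube D => if p ∈ S then (1 : ℝ) else 0),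
        ← Finset.sum_filter]
      simp
    rw [h5, Finset.sum_div]
    refine sum_congr rfl fun w _ => ?_
    unfold fr avg
    rw [F2_card]
  refine ⟨?_, ?_, ?_, h4⟩
  · intro w
    refine avg_nonneg fun x => ?_
    split_ifs <;> norm_num
  · intro w
    have h1 : fr S w ≤ avg (fun _ : Cube D => (1 : ℝ)) := by
      refine avg_mono fun x => ?_
      split_ifs <;> norm_num
    rwa [avg_const] at h1
  · unfold avg
    rw [h4, div_div, mul_comm]

end Pool.Agent.Lib.MP_8d8c46_lc.Gap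
end

section

set_option autoImplicit false

open Finset
open scoped Classical

namespace Pool.Agent.Lib.MP_8d8c46_lc.Gap

open Pool.Agent.Lib.MP_8d8c46_lc Pool.Agent.Lib.MP_8d8c46_lc.SDP Pool.Agent.Lib.MP_8d8c46_lc.EL

theorem R05_conv {D : ℕ} (h g : Cube D → ℝ) (z : Cube D) :
    ∑ x, h x * g (x + z) = 2 ^ D * ∑ a, fc h a * fc g a * ch a z := by
  have h1 : ∀ x, h x * g (x + z) = ∑ a, fc g a * ch a z * (h x * ch a x) := by
    intro x
    rw [F2_inv g (x + z), Finset.mul_sum]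
    refine sum_congr rfl fun a _ => ?_
    rw [(F1_ch a 0 x z).1]
    ring
  rw [sum_congr rfl fun x _ => h1 x, Finset.sum_comm, Finset.mul_sum]
  refine sum_congr rfl fun a _ => ?_
  rw [← Finset.mul_sum]
  have h2 : (∑ x, h x * ch a x) = 2 ^ D * fc h a := by
    unfold fc avg
    rw [F2_card]
    field_simp
  rw [h2]
  ring

theorem R05_pair {D : ℕ} (K : Finset (Cube D)) (h g : Cube D → ℝ) :
    ∑ x : Cube D, ∑ y : Cube D, (if x + y ∈ K then h x * g y else 0) =
      2 ^ D * ∑ a, fc h a * fc g a * ∑ z ∈ K, ch a z := by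
  have hself : ∀ x : Cube D, x + x = 0 := fun x => by
    funext i
    exact CharTwo.add_self_eq_zero (x i)
  have h1 : ∀ x : Cube D, (∑ y : Cube D, (if x + y ∈ K then h x * g y else 0)) =
      ∑ z ∈ K, h x * g (x + z) := by
    intro x
    refine (Equiv.sum_comp (Equiv.addLeft x)
      (fun y => if x + y ∈ K then h x * g y else 0)).symm.trans ?_
    rw [← Finset.sum_filter_add_sum_filter_not univ (fun z => z ∈ K)]
    have h2 : (∑ z ∈ univ.filter (fun z => ¬ z ∈ K),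
        (fun y => if x + y ∈ K then h x * g y else 0) ((Equiv.addLeft x) z)) = 0 := by
      refine sum_eq_zero fun z hz => ?_
      have hz' := (mem_filter.1 hz).2
      show (if x + (x + z) ∈ K then h x * g (x + z) else 0) = 0
      rw [← add_assoc, hself, zero_add, if_neg hz']
    rw [h2, add_zero]
    have h3 : univ.filter (fun z => z ∈ K) = K := by
      ext z
      simp
    rw [h3]
    refine sum_congr rfl fun z hz => ?_
    show (if x + (x + z) ∈ K then h x * g (x + z) else 0) = h x * g (x + z)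
    rw [← add_assoc, hself, zero_add, if_pos hz]
  rw [sum_congr rfl fun x _ => h1 x, Finset.sum_comm, sum_congr rfl fun z _ => R05_conv h g z,
    ← Finset.mul_sum, Finset.sum_comm]
  congr 1
  refine sum_congr rfl fun a _ => ?_
  rw [Finset.mul_sum]

theorem R05_bound {D : ℕ} (K : Finset (Cube D)) (h g : Cube D → ℝ) {M : ℝ} (hM0 : 0 ≤ M)
    (hM : ∀ a : Cube D, a ≠ 0 → |∑ z ∈ K, ch a z| ≤ M) :
    ∑ a, fc h a * fc g a * ∑ z ∈ K, ch a z ≤
      K.card * (avg h * avg g) + M * (((∑ a, fc h a ^ 2) + ∑ a, fc g a ^ 2) / 2) := by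
  have h0 : ∀ f : Cube D → ℝ, fc f 0 = avg f := by
    intro f
    unfold fc
    congr 1
    funext x
    rw [(F1_ch 0 0 x 0).2.2.1, (F1_ch x 0 0 0).2.2.2.2.1, mul_one]
  have hterm : ∀ a : Cube D, fc h a * fc g a * ∑ z ∈ K, ch a z ≤
      (if a = 0 then (K.card : ℝ) * (avg h * avg g) else 0) +
        M * ((fc h a ^ 2 + fc g a ^ 2) / 2) := by
    intro a
    by_cases ha : a = 0
    · rw [if_pos ha, ha, h0, h0]
      have h3 : ∑ z ∈ K, ch (0 : Cube D) z = K.card := by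
        rw [sum_congr rfl fun z _ => (F1_ch (0 : Cube D) z z 0).2.2.1.trans
          (F1_ch z 0 0 0).2.2.2.2.1]
        simp
      rw [h3]
      have h4 : 0 ≤ M * ((avg h ^ 2 + avg g ^ 2) / 2) := by positivity
      linarith
    · rw [if_neg ha, zero_add]
      have h3 := hM a ha
      have h4 : fc h a * fc g a * ∑ z ∈ K, ch a z ≤ |fc h a * fc g a| * |∑ z ∈ K, ch a z| := by
        rw [← abs_mul]
        exact le_abs_self _
      have h5 : |fc h a * fc g a| * |∑ z ∈ K, ch a z| ≤ |fc h a * fc g a| * M :=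
        mul_le_mul_of_nonneg_left h3 (abs_nonneg _)
      have h6 : |fc h a * fc g a| ≤ (fc h a ^ 2 + fc g a ^ 2) / 2 := by
        rw [abs_le]
        constructor
        · nlinarith [sq_nonneg (fc h a + fc g a)]
        · nlinarith [sq_nonneg (fc h a - fc g a)]
      have h7 : |fc h a * fc g a| * M ≤ (fc h a ^ 2 + fc g a ^ 2) / 2 * M :=
        mul_le_mul_of_nonneg_right h6 hM0
      linarith
  refine (sum_le_sum fun a _ => hterm a).trans (le_of_eq ?_)
  rw [sum_add_distrib, Finset.sum_ite_eq' univ (0 : Cube D), if_pos (mem_univ _),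
    ← Finset.mul_sum, ← Finset.sum_div, sum_add_distrib]

/-- Let `f w x = [(w, x) ∈ S]`. The number of adjacent ordered pairs inside `S` is
`∑ w, ∑ w', ∑ z ∈ J (N w w'), ∑ x, f w x * f w' (x + z)`, and
`∑ x, f w x * f w' (x + z) = 2^D ∑ a, fc (f w) a * fc (f w') a * ch a z` (polarise `F2_conv`, or
directly from `F2_inv` and `F1_ch`). The term `a = 0` gives `2^D ∑∑ cc N w w' fr w fr w'`
(`fc (f w) 0 = fr S w`). The terms with `a ≠ 0` are at most
`2^D ∑ w, ∑ w', ∑ a, |fc (f w) a| |fc (f w') a| β cc t₀ ≤ 2^D β cc t₀ |W| ∑ w, ∑ a, fc (f w) a²` (`2xy ≤ x² + y²`)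
`= β cc t₀ |W| |S|`, because `∑ a, fc (f w) a² = avg (f w)² = fr S w` (`F2_parseval`). -/
theorem R05_inside {W : Type} [Fintype W] {D : ℕ} (N : W → W → ℕ) (J : ℕ → Finset (Cube D))
    (hN : ∀ w w', N w w' = N w' w) (hJ : ∀ t, (0 : Cube D) ∉ J t) {cc t₀ : ℕ} {β : ℝ}
    (hβ : 0 ≤ β) (ht : ∀ w w', N w w' ≤ t₀) (hcard : ∀ w w', (J (N w w')).card = cc * N w w')
    (hch : ∀ w w', ∀ a : Cube D, a ≠ 0 → |∑ z ∈ J (N w w'), ch a z| ≤ β * (cc * N w w'))
    (S : Finset (W × Cube D)) :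
    (inside (grf N J hN hJ) S : ℝ) ≤ 2 ^ D * cc * ∑ w, ∑ w', N w w' * (fr S w * fr S w') +
      β * cc * t₀ * Fintype.card W * S.card := by
  set f : W → Cube D → ℝ := fun w x => if (w, x) ∈ S then (1 : ℝ) else 0 with hf
  have hfr : ∀ w, avg (f w) = fr S w := fun w => rfl
  have hpar : ∀ w, ∑ a, fc (f w) a ^ 2 = fr S w := by
    intro w
    rw [(F2_parseval (f w)).2.1, ← hfr]
    congr 1
    funext x
    simp only [hf]
    split_ifs <;> norm_num
  have h1 : (inside (grf N J hN hJ) S : ℝ) =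
      ∑ w, ∑ w', ∑ x : Cube D, ∑ y : Cube D,
        (if x + y ∈ J (N w w') then f w x * f w' y else 0) := by
    have h2 : (inside (grf N J hN hJ) S : ℝ) =
        ∑ p : (W × Cube D) × (W × Cube D),
          if p.1 ∈ S ∧ p.2 ∈ S ∧ (grf N J hN hJ).Adj p.1 p.2 then (1 : ℝ) else 0 := by
      unfold inside
      rw [Finset.sum_boole]
      norm_cast
      refine congrArg Finset.card ?_
      ext p
      simp only [mem_filter]
    rw [h2, Fintype.sum_prod_type, Fintype.sum_prod_type]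
    refine sum_congr rfl fun w _ => ?_
    rw [sum_congr rfl (fun x _ => Fintype.sum_prod_type _), Finset.sum_comm]
    refine sum_congr rfl fun w' _ => sum_congr rfl fun x _ => sum_congr rfl fun y _ => ?_
    have h3 : (grf N J hN hJ).Adj (w, x) (w', y) ↔ x + y ∈ J (N w w') := Iff.rfl
    simp only [hf, h3]
    by_cases h4 : (w, x) ∈ S <;> by_cases h5 : (w', y) ∈ S <;>
      by_cases h6 : x + y ∈ J (N w w') <;> simp [h4, h5, h6]
  have h2 : ∀ w w', (∑ x : Cube D, ∑ y : Cube D,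
        (if x + y ∈ J (N w w') then f w x * f w' y else 0)) ≤
      2 ^ D * (cc * N w w' * (fr S w * fr S w') +
        β * cc * t₀ * ((fr S w + fr S w') / 2)) := by
    intro w w'
    rw [R05_pair]
    have h3 := R05_bound (J (N w w')) (f w) (f w') (M := β * cc * t₀) (by positivity)
      (fun a ha => (hch w w' a ha).trans (by
        have h4 : (N w w' : ℝ) ≤ t₀ := by exact_mod_cast ht w w'
        have h5 : (cc : ℝ) * N w w' ≤ cc * t₀ := mul_le_mul_of_nonneg_left h4 (Nat.cast_nonneg _)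
        calc β * (cc * N w w') ≤ β * (cc * t₀) := mul_le_mul_of_nonneg_left h5 hβ
          _ = β * cc * t₀ := by ring))
    rw [hpar, hpar, hfr, hfr, hcard] at h3
    push_cast at h3
    exact mul_le_mul_of_nonneg_left h3 (by positivity)
  rw [h1]
  refine (sum_le_sum fun w _ => sum_le_sum fun w' _ => h2 w w').trans (le_of_eq ?_)
  have h4 := (R04_fr S).2.2.2
  have h5 : (S.card : ℝ) = 2 ^ D * ∑ w, fr S w := by
    rw [h4]
    field_simp
  have h6 : ∑ w : W, ∑ w' : W, (fr S w + fr S w') = 2 * Fintype.card W * ∑ w, fr S w := by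
    simp only [sum_add_distrib, sum_const, card_univ, nsmul_eq_mul, ← Finset.mul_sum]
    ring
  have h7 : ∑ w, ∑ w', (2 : ℝ) ^ D * (cc * N w w' * (fr S w * fr S w') +
        β * cc * t₀ * ((fr S w + fr S w') / 2)) =
      2 ^ D * cc * ∑ w, ∑ w', N w w' * (fr S w * fr S w') +
        2 ^ D * (β * cc * t₀ / 2) * ∑ w : W, ∑ w' : W, (fr S w + fr S w') := by
    rw [Finset.mul_sum, Finset.mul_sum, ← sum_add_distrib]
    refine sum_congr rfl fun w _ => ?_
    rw [Finset.mul_sum, Finset.mul_sum, ← sum_add_distrib]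
    refine sum_congr rfl fun w' _ => ?_
    ring
  rw [h7, h6, h5]
  ring

end Pool.Agent.Lib.MP_8d8c46_lc.Gap
end

section

set_option autoImplicit false

open Finset
open scoped Classical

namespace Pool.Agent.Lib.MP_8d8c46_lc.Gap

open Pool.Agent.Lib.MP_8d8c46_lc Pool.Agent.Lib.MP_8d8c46_lc.SDP Pool.Agent.Lib.MP_8d8c46_lc.EL

/-- The graph. `N w w' ≤ D₀`; take `β = min 4 (ξ / |W|)`, `t₀ = D₀`, and `D ≥ N₀` from `R02_sets`,
`G = grf N J`, `d = cc D₀` (so `d / D₀ = cc`). The error of `R05_inside` is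
`β cc D₀ |W| |S| ≤ ξ (cc D₀) |S|`. -/
theorem R06_graph {W : Type} [Fintype W] [Nonempty W] (N : W → W → ℕ)
    (hN : ∀ w w', N w w' = N w' w) {D₀ : ℕ} (hD₀ : 1 ≤ D₀) (hrow : ∀ w, ∑ w', N w w' = D₀)
    {ξ : ℝ} (hξ : 0 < ξ) (N₀ : ℕ) :
    ∃ (D d : ℕ) (G : SimpleGraph (W × Cube D)), N₀ ≤ D ∧ 1 ≤ d ∧ Regular G d ∧
      (∀ S : Finset (W × Cube D), (inside G S : ℝ) ≤
        2 ^ D * (d / D₀) * ∑ w, ∑ w', N w w' * (fr S w * fr S w') + ξ * (d * S.card)) ∧
      ∀ F : W → W → ℝ,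
        ∑ e ∈ univ.filter (fun e : (W × Cube D) × (W × Cube D) => G.Adj e.1 e.2),
          F e.1.1 e.2.1 = 2 ^ D * (d / D₀) * ∑ w, ∑ w', N w w' * F w w' := by
  have hW : (0 : ℝ) < Fintype.card W := by exact_mod_cast Fintype.card_pos
  have hD₀' : (0 : ℝ) < D₀ := by exact_mod_cast hD₀
  obtain ⟨β, hβ⟩ : ∃ β : ℝ, β = min 4 (ξ / Fintype.card W) := ⟨_, rfl⟩
  have hβ0 : 0 < β := by
    rw [hβ]
    exact lt_min (by norm_num) (div_pos hξ hW)
  have hβ4 : β ≤ 4 := by
    rw [hβ]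
    exact min_le_left _ _
  have hβW : β * Fintype.card W ≤ ξ := by
    calc β * Fintype.card W ≤ ξ / Fintype.card W * Fintype.card W :=
          mul_le_mul_of_nonneg_right (by rw [hβ]; exact min_le_right _ _) hW.le
      _ = ξ := div_mul_cancel₀ _ hW.ne'
  obtain ⟨D₁, _, hD₁⟩ := R02_sets hβ0 hβ4 D₀
  obtain ⟨cc, J, hcc, hJ0, hJ⟩ := hD₁ (max D₁ N₀) (le_max_left _ _)
  have hND : ∀ w w', N w w' ≤ D₀ := fun w w' => by
    rw [← hrow w]
    exact Finset.single_le_sum (f := fun w' => N w w') (fun _ _ => Nat.zero_le _)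
      (Finset.mem_univ w')
  have hcard : ∀ w w', (J (N w w')).card = cc * N w w' := fun w w' => (hJ _ (hND w w')).1
  obtain ⟨hreg, hcount⟩ := R03_count N J hN hJ0 hrow hcard
  have hdiv : (((cc * D₀ : ℕ) : ℝ) / D₀) = cc := by
    rw [Nat.cast_mul, mul_div_assoc, div_self hD₀'.ne', mul_one]
  refine ⟨max D₁ N₀, cc * D₀, grf N J hN hJ0, le_max_right _ _, Nat.mul_pos hcc hD₀, hreg, ?_, ?_⟩
  · intro S
    have h1 := R05_inside N J hN hJ0 hβ0.le hND hcard (fun w w' => (hJ _ (hND w w')).2) S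
    refine h1.trans ?_
    rw [hdiv]
    have h2 : β * cc * D₀ * Fintype.card W * S.card ≤ ξ * (((cc * D₀ : ℕ) : ℝ) * S.card) := by
      rw [Nat.cast_mul]
      calc β * cc * D₀ * Fintype.card W * S.card
          = (β * Fintype.card W) * ((cc : ℝ) * D₀ * S.card) := by ring
        _ ≤ ξ * ((cc : ℝ) * D₀ * S.card) := mul_le_mul_of_nonneg_right hβW (by positivity)
    linarith
  · intro F
    rw [hcount F, hdiv]

end Pool.Agent.Lib.MP_8d8c46_lc.Gap
end

section

set_option autoImplicit false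

open Finset
open scoped Classical

namespace Pool.Agent.Lib.MP_8d8c46_lc.Gap

open Pool.Agent.Lib.MP_8d8c46_lc Pool.Agent.Lib.MP_8d8c46_lc.SDP Pool.Agent.Lib.MP_8d8c46_lc.EL

/-- One coordinate. Write `⟨u, v⟩ = avg_j (u j * v j)`, `m j = avg (F j)`, `h a j = F j a - m j`, so
`avg_a h a j = 0` and `(F j a + m j) / 2 = m j + h a j / 2`. For every `a`
`|m + h/2|^2 = |m|^2 + ⟨m, h⟩ + |h|^2 / 4`; its square is
`|m|^4 + ⟨m,h⟩^2 + |h|^4/16 + 2 |m|^2 ⟨m,h⟩ + |m|^2 |h|^2 / 2 + ⟨m,h⟩ |h|^2 / 2`. The average of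
`|m|^2 ⟨m,h⟩` is `0`; `⟨m,h⟩^2 ≤ |m|^2 |h|^2` (Cauchy-Schwarz) and
`⟨m,h⟩ |h|^2 / 2 ≤ (1/2) |m|^2 |h|^2 + (1/8) |h|^4` (from `⟨m,h⟩ x ≤ ⟨m,h⟩^2 + x^2/4`). So the left side is at
most `|m|^4 + 2 |m|^2 avg |h|^2 + (3/16) avg |h|^4`, and
`avg_a |F a|^2 = |m|^2 + avg |h|^2`. -/
theorem S01_one {A ι : Type} [Fintype A] [Nonempty A] [Fintype ι] [Nonempty ι] (F : ι → A → ℝ) :
    avg (fun a => avg (fun j => ((F j a + avg (F j)) / 2) ^ 2) ^ 2) ≤
      avg (fun a => avg (fun j => F j a ^ 2)) ^ 2 +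
        3 / 16 * avg (fun a => avg (fun j => (F j a - avg (F j)) ^ 2) ^ 2) := by
  have hcomm : ∀ f : ι → A → ℝ, avg (fun a => avg (fun j => f j a)) = avg (fun j => avg (f j)) := by
    intro f
    unfold avg
    rw [← Finset.sum_div, ← Finset.sum_div, Finset.sum_comm]
    ring
  set m : ι → ℝ := fun j => avg (F j) with hm
  set h : ι → A → ℝ := fun j a => F j a - m j with hh
  set M : ℝ := avg (fun j => m j ^ 2) with hM
  set X : A → ℝ := fun a => avg (fun j => m j * h j a) with hX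
  set H : A → ℝ := fun a => avg (fun j => h j a ^ 2) with hH
  have hM0 : 0 ≤ M := avg_nonneg fun j => sq_nonneg _
  have hH0 : ∀ a, 0 ≤ H a := fun a => avg_nonneg fun j => sq_nonneg _
  have hXavg : avg X = 0 := by
    rw [hX, hcomm (fun j a => m j * h j a)]
    have h1 : ∀ j, avg (fun a => m j * h j a) = 0 := by
      intro j
      rw [avg_const_mul, hh]
      change m j * avg (fun a => F j a - m j) = 0
      rw [avg_sub, avg_const]
      change m j * (avg (F j) - avg (F j)) = 0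
      rw [sub_self, mul_zero]
    change avg (fun j => avg (fun a => m j * h j a)) = 0
    rw [show (fun j => avg (fun a => m j * h j a)) = fun _ => (0 : ℝ) from funext h1, avg_const]
  have hCS : ∀ a, X a ^ 2 ≤ M * H a := by
    intro a
    rw [hX, hM, hH]
    change avg (fun j => m j * h j a) ^ 2 ≤ avg (fun j => m j ^ 2) * avg (fun j => h j a ^ 2)
    unfold avg
    rw [div_pow, div_mul_div_comm, ← pow_two]
    exact div_le_div_of_nonneg_right (Finset.sum_mul_sq_le_sq_mul_sq _ _ _) (sq_nonneg _)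
  have hL : ∀ a, avg (fun j => ((F j a + avg (F j)) / 2) ^ 2) = M + X a + 1 / 4 * H a := by
    intro a
    have h1 : (fun j => ((F j a + avg (F j)) / 2) ^ 2) =
        fun j => (m j ^ 2 + m j * h j a) + 1 / 4 * h j a ^ 2 := by
      funext j
      change ((F j a + m j) / 2) ^ 2 = (m j ^ 2 + m j * (F j a - m j)) + 1 / 4 * (F j a - m j) ^ 2
      ring
    rw [h1, avg_add, avg_add, avg_const_mul]
  have hR : avg (fun a => avg (fun j => F j a ^ 2)) = M + avg H := by
    have h1 : (fun a => avg (fun j => F j a ^ 2)) = fun a => (M + 2 * X a) + H a := by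
      funext a
      have h2 : (fun j => F j a ^ 2) = fun j => (m j ^ 2 + 2 * (m j * h j a)) + h j a ^ 2 := by
        funext j
        change F j a ^ 2 = (m j ^ 2 + 2 * (m j * (F j a - m j))) + (F j a - m j) ^ 2
        ring
      rw [h2, avg_add, avg_add, avg_const_mul]
    rw [h1, avg_add, avg_add, avg_const, avg_const_mul, hXavg, mul_zero, add_zero]
  have hpt : ∀ a, avg (fun j => ((F j a + avg (F j)) / 2) ^ 2) ^ 2 ≤
      (M ^ 2 + (2 * M) * X a) + ((2 * M) * H a + 3 / 16 * H a ^ 2) := by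
    intro a
    rw [hL a]
    have h1 := hCS a
    nlinarith [sq_nonneg (X a - H a / 2), hH0 a]
  refine (avg_mono hpt).trans ?_
  rw [avg_add, avg_add, avg_add, avg_const, avg_const_mul, avg_const_mul, avg_const_mul, hXavg, hR]
  have h3 : avg (fun a => avg (fun j => (F j a - avg (F j)) ^ 2) ^ 2) = avg (fun a => H a ^ 2) := rfl
  rw [h3]
  nlinarith [sq_nonneg (avg H)]

end Pool.Agent.Lib.MP_8d8c46_lc.Gap
end

section

set_option autoImplicit false

open Finset
open scoped Classical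

namespace Pool.Agent.Lib.MP_8d8c46_lc.Gap

open Pool.Agent.Lib.MP_8d8c46_lc Pool.Agent.Lib.MP_8d8c46_lc.SDP Pool.Agent.Lib.MP_8d8c46_lc.EL

private theorem S02_univ {U A : Type} [Fintype U] [Fintype A] [Nonempty A] (f : (U → A) → ℝ)
    (x : U → A) : cd f univ x = f x :=
  cd_self_of_dep (fun x y h => congrArg f (funext fun u => h u (mem_univ u))) x

private theorem S02_set {U : Type} [Fintype U] (T : Finset U) (i : U) :
    (univ \ T) ∩ univ.erase i = univ \ insert i T := by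
  ext u
  simp only [mem_inter, mem_sdiff, mem_univ, true_and, mem_erase, and_true, mem_insert]
  tauto

/-- Recursion. `Finset.sum_powerset_insert`; `univ \ insert i T = (univ \ T) ∩ univ.erase i`, so
`cd f (univ \ insert i T) = cd (cd f (univ \ T)) (univ.erase i)` (`EL.cd_cd`), and `cd · (univ.erase i)`
is linear (`EL.cd_sum`, `EL.cd_const_mul`). For `J = ∅`: `cd f univ = f`. -/
theorem S02_rec {U A : Type} [Fintype U] [Fintype A] [Nonempty A] (f : (U → A) → ℝ) :
    (∀ x, NJ ∅ f x = f x) ∧ (∀ x, LJ ∅ f x = f x) ∧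
      (∀ (J : Finset U) (i : U), i ∉ J → ∀ x,
        NJ (insert i J) f x = (NJ J f x + cd (NJ J f) (univ.erase i) x) / 2) ∧
      ∀ (J : Finset U) (i : U), i ∉ J → ∀ x,
        LJ (insert i J) f x = LJ J f x - cd (LJ J f) (univ.erase i) x := by
  have hc : ∀ (T : Finset U) (i : U) (x : U → A),
      cd (cd f (univ \ T)) (univ.erase i) x = cd f (univ \ insert i T) x := by
    intro T i x
    rw [cd_cd, ← S02_set T i]
  refine ⟨fun x => ?_, fun x => ?_, fun J i hi x => ?_, fun J i hi x => ?_⟩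
  · unfold NJ
    rw [powerset_empty, sum_singleton, card_empty, pow_zero, div_one, sdiff_empty]
    exact S02_univ f x
  · unfold LJ
    rw [powerset_empty, sum_singleton, card_empty, pow_zero, one_mul, sdiff_empty]
    exact S02_univ f x
  · have h1 : cd (NJ J f) (univ.erase i) x
        = (∑ T ∈ J.powerset, cd f (univ \ insert i T) x) / 2 ^ J.card := by
      have e : NJ J f = fun x => (1 / 2 ^ J.card) * ∑ T ∈ J.powerset, cd f (univ \ T) x := by
        funext y
        unfold NJ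
        ring
      rw [e, cd_const_mul, cd_sum]
      rw [sum_congr rfl fun T _ => hc T i x]
      ring
    rw [h1]
    unfold NJ
    rw [sum_powerset_insert hi, card_insert_of_notMem hi, pow_succ]
    field_simp
  · have h1 : cd (LJ J f) (univ.erase i) x
        = ∑ T ∈ J.powerset, (-1) ^ T.card * cd f (univ \ insert i T) x := by
      have e : LJ J f = fun x => ∑ T ∈ J.powerset, (-1) ^ T.card * cd f (univ \ T) x := by
        funext y
        rfl
      rw [e, cd_sum]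
      refine sum_congr rfl fun T _ => ?_
      rw [cd_const_mul, hc]
    rw [h1]
    unfold LJ
    rw [sum_powerset_insert hi, sub_eq_add_neg, ← sum_neg_distrib]
    congr 1
    refine sum_congr rfl fun T hT => ?_
    have hiT : i ∉ T := fun h => hi (mem_powerset.1 hT h)
    rw [card_insert_of_notMem hiT, pow_succ]
    ring

end Pool.Agent.Lib.MP_8d8c46_lc.Gap
end

section

set_option autoImplicit false

open Finset
open scoped Classical

namespace Pool.Agent.Lib.MP_8d8c46_lc.Gap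

open Pool.Agent.Lib.MP_8d8c46_lc Pool.Agent.Lib.MP_8d8c46_lc.SDP Pool.Agent.Lib.MP_8d8c46_lc.EL

private theorem S03_NJ {U A : Type} [Fintype U] [Fintype A] [Nonempty A] (f : (U → A) → ℝ)
    (J W : Finset U) (x : U → A) : cd (NJ J f) W x = NJ J (cd f W) x := by
  have h1 : cd (NJ J f) W x = (∑ T ∈ J.powerset, cd (cd f (univ \ T)) W x) / 2 ^ J.card := by
    have h2 : NJ J f = fun x => (1 / 2 ^ J.card) * ∑ T ∈ J.powerset, cd f (univ \ T) x := by
      funext y
      unfold NJ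
      ring
    rw [h2, cd_const_mul, cd_sum]
    ring
  rw [h1]
  unfold NJ
  congr 1
  refine sum_congr rfl fun T _ => ?_
  rw [cd_cd, cd_cd, inter_comm]

private theorem S03_LJ {U A : Type} [Fintype U] [Fintype A] [Nonempty A] (f : (U → A) → ℝ)
    (S W : Finset U) (x : U → A) : cd (LJ S f) W x = LJ S (cd f W) x := by
  have h1 : cd (LJ S f) W x = ∑ T ∈ S.powerset, (-1) ^ T.card * cd (cd f (univ \ T)) W x := by
    have h2 : LJ S f = fun x => ∑ T ∈ S.powerset, (-1) ^ T.card * cd f (univ \ T) x := rfl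
    rw [h2, cd_sum]
    refine sum_congr rfl fun T _ => ?_
    rw [cd_const_mul]
  rw [h1]
  unfold LJ
  refine sum_congr rfl fun T _ => ?_
  rw [cd_cd, cd_cd, inter_comm]

private theorem S03_sub {U A : Type} [Fintype U] [Fintype A] [Nonempty A] (f g : (U → A) → ℝ)
    (S : Finset U) (x : U → A) : LJ S (fun y => f y - g y) x = LJ S f x - LJ S g x := by
  unfold LJ
  rw [← sum_sub_distrib]
  refine sum_congr rfl fun T _ => ?_
  rw [← mul_sub]
  congr 1
  exact avg_sub _ _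

/-- Commutation: `NJ J`, `LJ S` are linear combinations of the averages `cd · W`, which are linear and
satisfy `cd (cd f W) W' = cd f (W ∩ W')` (`EL.cd_cd`, `EL.cd_sum`, `EL.cd_const_mul`). For the last
one: `cd (LJ {i} f) W = cd (f - cd f (univ.erase i)) W`, use `S02_rec` for `LJ (insert i S)`. -/
theorem S03_comm {U A : Type} [Fintype U] [Fintype A] [Nonempty A] (f : (U → A) → ℝ)
    (J S W : Finset U) (x : U → A) :
    cd (NJ J f) W x = NJ J (cd f W) x ∧ cd (LJ S f) W x = LJ S (cd f W) x ∧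
      LJ S (NJ J f) x = NJ J (LJ S f) x ∧
      ∀ i, i ∉ S → LJ S (LJ {i} f) x = LJ (insert i S) f x := by
  refine ⟨S03_NJ f J W x, S03_LJ f S W x, ?_, ?_⟩
  · unfold LJ
    simp only [S03_NJ]
    unfold NJ
    have h1 : ∀ T : Finset U, cd (fun y => ∑ T' ∈ S.powerset, (-1) ^ T'.card *
        cd f (univ \ T') y) (univ \ T) x =
        ∑ T' ∈ S.powerset, (-1) ^ T'.card * cd (cd f (univ \ T')) (univ \ T) x := by
      intro T
      rw [cd_sum]
      exact sum_congr rfl fun T' _ => cd_const_mul _ _ _ _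
    have h2 : (LJ S f) = fun y => ∑ T' ∈ S.powerset, (-1) ^ T'.card * cd f (univ \ T') y := rfl
    rw [← h2] at h1
    have h3 : ∀ T : Finset U, cd (fun x => LJ S f x) (univ \ T) x =
        ∑ T' ∈ S.powerset, (-1) ^ T'.card * cd (cd f (univ \ T')) (univ \ T) x := h1
    simp only [h2] at h3
    simp only [h3]
    rw [sum_comm, sum_div]
    refine sum_congr rfl fun T _ => ?_
    rw [mul_div_assoc', mul_sum]
  · intro i hi
    have h1 : LJ {i} f = fun y => f y - cd f (univ.erase i) y := by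
      funext y
      have h2 := (S02_rec f).2.2.2 ∅ i (by simp) y
      have h3 : LJ (∅ : Finset U) f = f := by
        funext z
        exact (S02_rec f).2.1 z
      rw [h3] at h2
      have h4 : (insert i ∅ : Finset U) = {i} := by simp
      rw [h4] at h2
      exact h2
    rw [h1, S03_sub, (S02_rec f).2.2.2 S i hi x, S03_LJ]

end Pool.Agent.Lib.MP_8d8c46_lc.Gap
end

section

set_option autoImplicit false

open Finset
open scoped Classical

namespace Pool.Agent.Lib.MP_8d8c46_lc.Gap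

open Pool.Agent.Lib.MP_8d8c46_lc Pool.Agent.Lib.MP_8d8c46_lc.SDP Pool.Agent.Lib.MP_8d8c46_lc.EL

/-- The expansion of the pseudo-set. Adjacent vertices are different; the number of adjacent ordered
pairs is `2^D (d / D₀) ∑∑ N = 2^D d |W|` (`hF` for `F = 1`), so the sum over the adjacent pairs of
`X {u} - X {u, v} ≤ δ - δ (o u.1 v.1 - 2 κ)` is at most
`δ (1 + 2 κ) 2^D d |W| - δ 2^D (d / D₀) ∑∑ N o ≤ δ 2^D d |W| (1 + 2 κ - L)`; divide by
`d (δ |W| 2^D)`. -/
theorem M04_yes {W : Type} [Fintype W] [DecidableEq W] [Nonempty W] {D₀ : ℕ} (hD₀ : 1 ≤ D₀)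
    {N : W → W → ℕ} (hrow : ∀ w, ∑ w', N w w' = D₀) {δ κ L : ℝ} (hδ0 : 0 < δ) {D d : ℕ}
    (hd : 1 ≤ d) {G : SimpleGraph (W × Cube D)}
    (hF : ∀ F : W → W → ℝ,
        ∑ e ∈ univ.filter (fun e : (W × Cube D) × (W × Cube D) => G.Adj e.1 e.2),
          F e.1.1 e.2.1 = 2 ^ D * (d / D₀) * ∑ w, ∑ w', N w w' * F w w')
    {o : W → W → ℝ} (hL : L * Fintype.card W ≤ (∑ w, ∑ w', N w w' * o w w') / D₀)
    {X : Finset (W × Cube D) → ℝ} (hX1 : ∀ v, X {v} = δ)
    (hX2 : ∀ u v, u ≠ v → δ * (o u.1 v.1 - 2 * κ) ≤ X {u, v}) :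
    SA.pseudoExpansion G d (δ * Fintype.card (W × Cube D)) X ≤ 1 + 2 * κ - L := by
  have hcard : (Fintype.card (W × Cube D) : ℝ) = Fintype.card W * 2 ^ D := by
    rw [Fintype.card_prod, Fintype.card_pi]
    simp
  have hW : (0 : ℝ) < Fintype.card W := by exact_mod_cast Fintype.card_pos
  have hd' : (0 : ℝ) < d := by exact_mod_cast hd
  have hD' : (0 : ℝ) < D₀ := by exact_mod_cast hD₀
  have hs1 : ∑ e ∈ univ.filter (fun e : (W × Cube D) × (W × Cube D) => G.Adj e.1 e.2),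
      (X {e.1} - X {e.1, e.2}) ≤
      ∑ e ∈ univ.filter (fun e : (W × Cube D) × (W × Cube D) => G.Adj e.1 e.2),
        (fun w w' => δ * (1 + 2 * κ - o w w')) e.1.1 e.2.1 := by
    refine Finset.sum_le_sum fun e he => ?_
    have hne : e.1 ≠ e.2 := (Finset.mem_filter.1 he).2.ne
    have h2 := hX2 e.1 e.2 hne
    rw [hX1]
    beta_reduce
    linarith
  have hs2 : ∑ w, ∑ w', (N w w' : ℝ) * (δ * (1 + 2 * κ - o w w')) =
      δ * ((1 + 2 * κ) * (D₀ * Fintype.card W) - ∑ w, ∑ w', N w w' * o w w') := by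
    have h3 : ∑ w, ∑ w', (N w w' : ℝ) = D₀ * Fintype.card W := by
      have h4 : ∀ w, ∑ w', (N w w' : ℝ) = D₀ := by
        intro w
        exact_mod_cast hrow w
      simp only [h4, Finset.sum_const, Finset.card_univ, nsmul_eq_mul]
      ring
    rw [← h3, Finset.mul_sum, ← Finset.sum_sub_distrib, Finset.mul_sum]
    refine Finset.sum_congr rfl fun w _ => ?_
    rw [Finset.mul_sum, ← Finset.sum_sub_distrib, Finset.mul_sum]
    exact Finset.sum_congr rfl fun w' _ => by ring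
  have hF' := hF (fun w w' => δ * (1 + 2 * κ - o w w'))
  beta_reduce at hF' hs1
  rw [hs2] at hF'
  rw [hF'] at hs1
  unfold SA.pseudoExpansion
  rw [hcard, div_le_iff₀ (by positivity)]
  have hL' : L * Fintype.card W * D₀ ≤ ∑ w, ∑ w', N w w' * o w w' := by
    rwa [le_div_iff₀ hD'] at hL
  refine le_trans (le_of_eq ?_) (hs1.trans ?_)
  · refine Finset.sum_congr ?_ fun _ _ => rfl
    ext e
    simp only [Finset.mem_filter]
  · have h5 : 2 ^ D * ((d : ℝ) / D₀) *
        (δ * ((1 + 2 * κ) * (D₀ * Fintype.card W) - ∑ w, ∑ w', N w w' * o w w')) ≤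
        2 ^ D * ((d : ℝ) / D₀) *
        (δ * ((1 + 2 * κ) * (D₀ * Fintype.card W) - L * Fintype.card W * D₀)) := by
      refine mul_le_mul_of_nonneg_left ?_ (by positivity)
      exact mul_le_mul_of_nonneg_left (by linarith) hδ0.le
    refine h5.trans (le_of_eq ?_)
    field_simp

end Pool.Agent.Lib.MP_8d8c46_lc.Gap
end
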