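import Pool.Agent.Lib.MP_8d8c46_lc.Mg.G002
import Pool.Agent.Lib.MP_8d8c46_lc.Mg.G006

section

set_option autoImplicit false

open Finset
open scoped Classical

namespace Pool.Agent.Lib.MP_8d8c46_lc.Gap

open Pool.Agent.Lib.MP_8d8c46_lc Pool.Agent.Lib.MP_8d8c46_lc.SDP Pool.Agent.Lib.MP_8d8c46_lc.EL

private theorem S04_mx {U A : Type} (W : Finset U) {i : U} (hi : i ∈ W) (a : A) (x y : U → A) :
    mx W (Function.update x i a) y = Function.update (mx W x y) i a := by
  funext u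
  unfold mx
  by_cases hu : u = i
  · subst hu
    rw [if_pos hi, Function.update_self, Function.update_self]
  · rw [Function.update_of_ne hu, Function.update_of_ne hu]

private theorem S04_cd {U A : Type} [Fintype U] [Fintype A] (f : (U → A) → ℝ)
    (W : Finset U) {i : U} (hi : i ∈ W) (a : A) (x : U → A) :
    cd (fun y => f (Function.update y i a)) W x = cd f W (Function.update x i a) := by
  unfold cd
  simp only [S04_mx W hi]

/-- Fixing a coordinate outside `J`. For `i ∈ W`: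
`mx W (Function.update x i a) y = Function.update (mx W x y) i a`, so
`cd f W (Function.update x i a) = cd (fun x => f (Function.update x i a)) W x`; the sets `univ \ T`,
`T ⊆ J`, contain `i`. The last statement is `avg_cd` for `univ.erase i` with `cd_erase`. -/
theorem S04_update {U A : Type} [Fintype U] [Fintype A] [Nonempty A] (f : (U → A) → ℝ)
    (J : Finset U) {i : U} (hi : i ∉ J) (a : A) (x : U → A) :
    NJ J (fun y => f (Function.update y i a)) x = NJ J f (Function.update x i a) ∧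
      LJ J (fun y => f (Function.update y i a)) x = LJ J f (Function.update x i a) ∧
      avg (fun x => avg (fun a => f (Function.update x i a))) = avg f := by
  have hW : ∀ T ∈ J.powerset, i ∈ univ \ T := fun T hT =>
    mem_sdiff.2 ⟨mem_univ _, fun h => hi (mem_powerset.1 hT h)⟩
  refine ⟨?_, ?_, ?_⟩
  · unfold NJ
    congr 1
    exact sum_congr rfl fun T hT => S04_cd f _ (hW T hT) a x
  · unfold LJ
    refine sum_congr rfl fun T hT => ?_
    rw [S04_cd f _ (hW T hT) a x]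
  · rw [← avg_cd f (univ.erase i)]
    congr 1
    funext x
    rw [cd_erase]

end Pool.Agent.Lib.MP_8d8c46_lc.Gap
end

section

set_option autoImplicit false

open Finset
open scoped Classical

namespace Pool.Agent.Lib.MP_8d8c46_lc.Gap

open Pool.Agent.Lib.MP_8d8c46_lc Pool.Agent.Lib.MP_8d8c46_lc.SDP Pool.Agent.Lib.MP_8d8c46_lc.EL

private theorem S07_cd {U A : Type} [Fintype U] [Fintype A] [Nonempty A] (f : (U → A) → ℝ)
    (S : Finset U) (lo hi : ℝ) (h1 : ∀ x, lo ≤ f x) (h2 : ∀ x, f x ≤ hi) (x : U → A) :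
    lo ≤ cd f S x ∧ cd f S x ≤ hi := by
  have : Nonempty (U → A) := inferInstance
  unfold cd
  constructor
  · calc lo = avg (fun _ : U → A => lo) := (avg_const lo).symm
      _ ≤ _ := avg_mono fun y => h1 _
  · calc _ ≤ avg (fun _ : U → A => hi) := avg_mono fun y => h2 _
      _ = hi := avg_const hi

/-- `cd` preserves bounds (it is an average), `LJ S` is a sum of `2^|S|` averages with signs, and
`NJ J` is an average of averages. The average of `NJ J f` is that of `f` (`avg_cd`). -/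
theorem S07_bounds {U A : Type} [Fintype U] [Fintype A] [Nonempty A] (f : (U → A) → ℝ)
    (J : Finset U) :
    (∀ B : ℝ, (∀ x, |f x| ≤ B) → ∀ x, |LJ J f x| ≤ 2 ^ J.card * B) ∧
      (∀ lo hi : ℝ, (∀ x, lo ≤ f x) → (∀ x, f x ≤ hi) → ∀ x, lo ≤ NJ J f x ∧ NJ J f x ≤ hi) ∧
      (∀ (S : Finset U) (lo hi : ℝ), (∀ x, lo ≤ f x) → (∀ x, f x ≤ hi) →
        ∀ x, lo ≤ cd f S x ∧ cd f S x ≤ hi) ∧ avg (NJ J f) = avg f := by
  refine ⟨?_, ?_, S07_cd f, ?_⟩
  · intro B hB x
    unfold LJ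
    calc |∑ T ∈ J.powerset, (-1) ^ T.card * cd f (univ \ T) x|
        ≤ ∑ T ∈ J.powerset, |(-1) ^ T.card * cd f (univ \ T) x| := abs_sum_le_sum_abs _ _
      _ ≤ ∑ _T ∈ J.powerset, B := by
          refine sum_le_sum fun T _ => ?_
          rw [abs_mul, abs_pow, abs_neg, abs_one, one_pow, one_mul]
          have h := S07_cd f (univ \ T) (-B) B (fun y => (abs_le.1 (hB y)).1)
            (fun y => (abs_le.1 (hB y)).2) x
          exact abs_le.2 h
      _ = 2 ^ J.card * B := by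
          rw [sum_const, card_powerset, nsmul_eq_mul]
          push_cast
          ring
  · intro lo hi h1 h2 x
    unfold NJ
    have hp : (0 : ℝ) < 2 ^ J.card := by positivity
    rw [le_div_iff₀ hp, div_le_iff₀ hp]
    have hc : ∀ c : ℝ, ∑ _T ∈ J.powerset, c = c * 2 ^ J.card := by
      intro c
      rw [sum_const, card_powerset, nsmul_eq_mul]
      push_cast
      ring
    constructor
    · rw [← hc]
      exact sum_le_sum fun T _ => (S07_cd f (univ \ T) lo hi h1 h2 x).1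
    · rw [← hc]
      exact sum_le_sum fun T _ => (S07_cd f (univ \ T) lo hi h1 h2 x).2
  · have h1 : NJ J f = fun x => (1 / 2 ^ J.card) * ∑ T ∈ J.powerset, cd f (univ \ T) x := by
      funext x
      unfold NJ
      ring
    rw [h1, avg_const_mul, avg_sum]
    have h2 : ∀ T ∈ J.powerset, avg (cd f (univ \ T)) = avg f := fun T _ => avg_cd f _
    rw [sum_congr rfl h2, sum_const, card_powerset, nsmul_eq_mul]
    have hp : (2 : ℝ) ^ J.card ≠ 0 := by positivity
    push_cast
    field_simp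

end Pool.Agent.Lib.MP_8d8c46_lc.Gap
end

section

set_option autoImplicit false

open Finset
open scoped Classical

namespace Pool.Agent.Lib.MP_8d8c46_lc.Gap

open Pool.Agent.Lib.MP_8d8c46_lc Pool.Agent.Lib.MP_8d8c46_lc.SDP Pool.Agent.Lib.MP_8d8c46_lc.EL

private theorem S08_moebius {U : Type} (W : Finset U) : ∀ g : Finset U → ℝ,
    ∑ T ∈ W.powerset, ∑ S ∈ T.powerset, (-1 : ℝ) ^ (T \ S).card * g S = g W := by
  induction W using Finset.induction_on with
  | empty =>
    intro g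
    simp
  | insert a W ha ih =>
    intro g
    rw [sum_powerset_insert ha, ← sum_add_distrib, ← ih (fun S => g (insert a S))]
    refine sum_congr rfl fun T hT => ?_
    have haT : a ∉ T := fun h => ha (mem_powerset.1 hT h)
    rw [sum_powerset_insert haT, ← add_assoc, ← sum_add_distrib]
    have h1 : ∑ S ∈ T.powerset, ((-1 : ℝ) ^ (T \ S).card * g S +
        (-1 : ℝ) ^ (insert a T \ S).card * g S) = 0 := by
      refine sum_eq_zero fun S hS => ?_
      have haS : a ∉ S := fun h => haT (mem_powerset.1 hS h)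
      have h2 : insert a T \ S = insert a (T \ S) := by
        ext v
        simp only [mem_sdiff, mem_insert]
        by_cases hv : v = a
        · subst hv; simp [haS]
        · simp [hv]
      have h3 : a ∉ T \ S := by simp [haT]
      rw [h2, card_insert_of_notMem h3, pow_succ]
      ring
    rw [h1, zero_add]
    refine sum_congr rfl fun S hS => ?_
    have haS : a ∉ S := fun h => haT (mem_powerset.1 hS h)
    have h2 : insert a T \ insert a S = T \ S := by
      ext v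
      simp only [mem_sdiff, mem_insert]
      by_cases hv : v = a
      · subst hv; simp [haT]
      · simp [hv]
    rw [h2]

/-- Moebius inversion: `∑ T ⊆ W, es f T = ∑ T ⊆ W, ∑ S ⊆ T, (-1)^|T \ S| cd f S`, and the coefficient
of `cd f S` is `∑ over T with S ⊆ T ⊆ W of (-1)^|T \ S|`, which is `1` if `S = W` and `0` otherwise. -/
theorem S08_inv {U A : Type} [Fintype U] [Fintype A] [Nonempty A] (f : (U → A) → ℝ)
    (W : Finset U) (x : U → A) : cd f W x = ∑ T ∈ W.powerset, es f T x := by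
  have h := S08_moebius W (fun S => cd f S x)
  rw [← h]
  rfl

end Pool.Agent.Lib.MP_8d8c46_lc.Gap
end

section

set_option autoImplicit false

open Finset
open scoped Classical

namespace Pool.Agent.Lib.MP_8d8c46_lc.Gap

open Pool.Agent.Lib.MP_8d8c46_lc Pool.Agent.Lib.MP_8d8c46_lc.SDP Pool.Agent.Lib.MP_8d8c46_lc.EL

private theorem S09_alt {U : Type} (S : Finset U) :
    ∑ T ∈ S.powerset, (-1 : ℝ) ^ T.card = if S = ∅ then 1 else 0 := by
  have h := Finset.sum_powerset_neg_one_pow_card (x := S)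
  have h2 : ((∑ T ∈ S.powerset, (-1 : ℤ) ^ T.card : ℤ) : ℝ) = ((if S = ∅ then 1 else 0 : ℤ) : ℝ) := by
    rw [← h]
  push_cast at h2
  exact h2

private theorem S09_swap {U A : Type} [Fintype U] [Fintype A] [Nonempty A] (f : (U → A) → ℝ)
    (S : Finset U) (x : U → A) (c : Finset U → ℝ) :
    ∑ T' ∈ S.powerset, c T' * cd f (univ \ T') x =
      ∑ T : Finset U, (∑ T' ∈ (S \ T).powerset, c T') * es f T x := by
  have h1 : ∀ T' : Finset U, cd f (univ \ T') x =
      ∑ T : Finset U, if Disjoint T T' then es f T x else 0 := by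
    intro T'
    rw [S08_inv, ← sum_filter]
    refine sum_congr ?_ fun _ _ => rfl
    ext T
    simp only [mem_powerset, mem_filter, mem_univ, true_and]
    constructor
    · intro h
      rw [Finset.disjoint_left]
      intro v hv hv'
      exact (mem_sdiff.1 (h hv)).2 hv'
    · intro h v hv
      rw [mem_sdiff]
      exact ⟨mem_univ _, fun hv' => Finset.disjoint_left.1 h hv hv'⟩
  simp only [h1, mul_sum, sum_mul]
  rw [sum_comm]
  refine sum_congr rfl fun T _ => ?_
  have h2 : (S \ T).powerset = S.powerset.filter (fun T' => Disjoint T T') := by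
    ext T'
    simp only [mem_powerset, mem_filter]
    constructor
    · intro h
      refine ⟨fun v hv => (mem_sdiff.1 (h hv)).1, ?_⟩
      rw [Finset.disjoint_left]
      intro v hv hv'
      exact (mem_sdiff.1 (h hv')).2 hv
    · rintro ⟨h, h'⟩ v hv
      rw [mem_sdiff]
      exact ⟨h hv, fun hv' => Finset.disjoint_left.1 h' hv' hv⟩
  rw [h2, sum_filter]
  refine sum_congr rfl fun T' _ => ?_
  split_ifs <;> simp

/-- `LJ S f = ∑ T' ⊆ S, (-1)^|T'| ∑ T ⊆ univ \ T', es f T = ∑ T, es f T * ∑ T' ⊆ S \ T, (-1)^|T'|`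
(`S08_inv`), and the inner sum is `1` if `S ⊆ T` and `0` otherwise. Similarly
`NJ univ f = 2^(-|U|) ∑ T, es f T * #{T' : T' ∩ T = ∅} = ∑ T, (1/2)^|T| es f T`. -/
theorem S09_expand {U A : Type} [Fintype U] [Fintype A] [Nonempty A] (f : (U → A) → ℝ)
    (S : Finset U) (x : U → A) :
    LJ S f x = ∑ T ∈ univ.filter (fun T => S ⊆ T), es f T x ∧
      NJ univ f x = ∑ T : Finset U, (1 / 2) ^ T.card * es f T x := by
  constructor
  · unfold LJ
    rw [S09_swap f S x (fun T => (-1 : ℝ) ^ T.card), sum_filter]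
    refine sum_congr rfl fun T _ => ?_
    rw [S09_alt]
    by_cases h : S ⊆ T
    · rw [if_pos h, if_pos (sdiff_eq_empty_iff_subset.2 h), one_mul]
    · rw [if_neg h, if_neg (fun h' => h (sdiff_eq_empty_iff_subset.1 h')), zero_mul]
  · unfold NJ
    have h1 := S09_swap f univ x (fun _ => (1 : ℝ))
    simp only [one_mul] at h1
    rw [h1, sum_div]
    refine sum_congr rfl fun T _ => ?_
    rw [sum_const, card_powerset, nsmul_eq_mul, mul_one, mul_div_right_comm]
    congr 1
    have h2 : (univ \ T).card = (univ : Finset U).card - T.card := by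
      rw [card_sdiff_of_subset (subset_univ _)]
    have h3 : T.card ≤ (univ : Finset U).card := card_le_card (subset_univ _)
    rw [h2]
    push_cast
    rw [one_div, inv_pow, div_eq_iff (by positivity), ← div_eq_inv_mul, eq_div_iff (by positivity),
      ← pow_add]
    congr 1
    omega

end Pool.Agent.Lib.MP_8d8c46_lc.Gap
end

section

set_option autoImplicit false

open Finset
open scoped Classical

namespace Pool.Agent.Lib.MP_8d8c46_lc.Gap

open Pool.Agent.Lib.MP_8d8c46_lc Pool.Agent.Lib.MP_8d8c46_lc.SDP Pool.Agent.Lib.MP_8d8c46_lc.EL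

/-- Orthogonality (`EL.es_orth`): for all coefficients `c`,
`avg (∑ T, c T es f T)^2 = ∑ T, c T^2 nr f T` and
`avg (f * ∑ T, c T es f T) = ∑ T, c T nr f T` (`EL.avg_mul_self_es`). With `c = 1`
and `f = ∑ es f T` (`S08_inv` for `W = univ`, `cd f univ = f`): Parseval. -/
theorem S10_parseval {U A : Type} [Fintype U] [Fintype A] [Nonempty A] (f : (U → A) → ℝ)
    (c : Finset U → ℝ) :
    avg (fun x => (∑ T, c T * es f T x) ^ 2) = ∑ T, c T ^ 2 * nr f T ∧
      avg (fun x => f x * ∑ T, c T * es f T x) = ∑ T, c T * nr f T ∧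
      avg (fun x => f x ^ 2) = ∑ T, nr f T := by
  have h2 : ∀ c : Finset U → ℝ, avg (fun x => f x * ∑ T, c T * es f T x) =
      ∑ T, c T * nr f T := by
    intro c
    have e : (fun x => f x * ∑ T, c T * es f T x) =
        fun x => ∑ T, c T * (f x * es f T x) := by
      funext x
      rw [mul_sum]
      exact sum_congr rfl fun T _ => by ring
    rw [e, avg_sum]
    refine sum_congr rfl fun T _ => ?_
    rw [avg_const_mul, avg_mul_self_es]
  refine ⟨?_, h2 c, ?_⟩
  · have e : (fun x => (∑ T, c T * es f T x) ^ 2) =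
        fun x => ∑ T, ∑ T', (c T * c T') * (es f T x * es f T' x) := by
      funext x
      rw [sq, sum_mul_sum]
      exact sum_congr rfl fun T _ => sum_congr rfl fun T' _ => by ring
    rw [e, avg_sum]
    refine sum_congr rfl fun T _ => ?_
    rw [avg_sum, Finset.sum_eq_single T]
    · rw [avg_const_mul, ← sq]
      congr 1
      unfold nr
      congr 1; funext x; ring
    · intro T' _ hne
      rw [avg_const_mul, es_orth f f (Ne.symm hne), mul_zero]
    · intro h; exact absurd (mem_univ T) h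
  · have h3 := h2 (fun _ => 1)
    simp only [one_mul] at h3
    rw [← h3]
    congr 1
    funext x
    have h4 : ∑ T : Finset U, es f T x = f x := by
      have h5 := S08_inv f univ x
      rw [powerset_univ] at h5
      rw [← h5]
      refine cd_self_of_dep (fun x y h => ?_) x
      congr 1
      funext u
      exact h u (mem_univ u)
    rw [h4, sq]

end Pool.Agent.Lib.MP_8d8c46_lc.Gap
end

section

set_option autoImplicit false

open Finset
open scoped Classical

namespace Pool.Agent.Lib.MP_8d8c46_lc.Gap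

open Pool.Agent.Lib.MP_8d8c46_lc Pool.Agent.Lib.MP_8d8c46_lc.SDP Pool.Agent.Lib.MP_8d8c46_lc.EL

private theorem S11_cd_es {U A : Type} [Fintype U] [Fintype A] [Nonempty A] (f : (U → A) → ℝ)
    (T W : Finset U) (x : U → A) : cd (es f T) W x = if T ⊆ W then es f T x else 0 := by
  split_ifs with h
  · exact cd_self_of_dep ((es_dep f T).mono h) x
  · obtain ⟨u, hu, hu'⟩ := not_subset.1 h
    have h1 : (univ.erase u) ∩ W = W := by
      ext v
      simp only [mem_inter, mem_erase, mem_univ, and_true]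
      constructor
      · exact fun h => h.2
      · exact fun h => ⟨fun h' => hu' (h' ▸ h), h⟩
    have h2 := cd_cd (es f T) (univ.erase u) W x
    rw [h1] at h2
    rw [← h2]
    have h3 : cd (es f T) (univ.erase u) = fun _ => 0 := by
      funext y
      rw [cd_erase]
      exact es_mz f hu y
    rw [h3]
    have : Nonempty (U → A) := inferInstance
    exact avg_const 0

private theorem S11_es_es {U A : Type} [Fintype U] [Fintype A] [Nonempty A] (f : (U → A) → ℝ)
    (R T : Finset U) (x : U → A) : es (es f R) T x = if R = T then es f T x else 0 := by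
  have h0 : es (es f R) T x = ∑ S ∈ T.powerset, (-1) ^ (T \ S).card *
      (if R ⊆ S then es f R x else 0) := by
    unfold es
    refine sum_congr rfl fun S _ => ?_
    congr 1
    exact S11_cd_es f R S x
  rw [h0]
  split_ifs with h
  · subst h
    rw [Finset.sum_eq_single R]
    · simp
    · intro S hS hne
      rw [if_neg, mul_zero]
      intro h'
      exact hne (Subset.antisymm (mem_powerset.1 hS) h')
    · intro h'
      exact absurd (mem_powerset.2 (Subset.refl R)) h'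
  · by_cases hRT : R ⊆ T
    · obtain ⟨u, hu, hu'⟩ : ∃ u ∈ T, u ∉ R := by
        by_contra hcon
        push Not at hcon
        exact h (Subset.antisymm hRT hcon)
      refine sum_powerset_cancel hu (fun S => if R ⊆ S then es f R x else 0) fun S _ _ => ?_
      have h1 : R ⊆ insert u S ↔ R ⊆ S := by
        constructor
        · intro h2 v hv
          rcases mem_insert.1 (h2 hv) with h3 | h3
          · exact absurd (h3 ▸ hv) hu'
          · exact h3
        · exact fun h2 => h2.trans (subset_insert _ _)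
      simp only [h1]
    · refine sum_eq_zero fun S hS => ?_
      rw [if_neg, mul_zero]
      exact fun h' => hRT (h'.trans (mem_powerset.1 hS))

private theorem S11_es_sum {U A : Type} [Fintype U] [Fintype A] [Nonempty A] (f : (U → A) → ℝ)
    (c : Finset U → ℝ) (T : Finset U) (x : U → A) :
    es (fun x => ∑ R : Finset U, c R * es f R x) T x = c T * es f T x := by
  have h1 : es (fun x => ∑ R : Finset U, c R * es f R x) T x =
      ∑ R : Finset U, c R * es (es f R) T x := by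
    have h2 : ∀ S : Finset U, cd (fun x => ∑ R : Finset U, c R * es f R x) S x =
        ∑ R : Finset U, c R * cd (es f R) S x := by
      intro S
      rw [cd_sum]
      exact sum_congr rfl fun R _ => cd_const_mul _ _ _ _
    calc es (fun x => ∑ R : Finset U, c R * es f R x) T x
        = ∑ S ∈ T.powerset, (-1) ^ (T \ S).card * ∑ R : Finset U, c R * cd (es f R) S x :=
          sum_congr rfl fun S _ => by rw [h2]
      _ = ∑ S ∈ T.powerset, ∑ R : Finset U, c R * ((-1) ^ (T \ S).card * cd (es f R) S x) := by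
          refine sum_congr rfl fun S _ => ?_
          rw [mul_sum]
          exact sum_congr rfl fun R _ => by ring
      _ = ∑ R : Finset U, ∑ S ∈ T.powerset, c R * ((-1) ^ (T \ S).card * cd (es f R) S x) :=
          sum_comm
      _ = ∑ R : Finset U, c R * es (es f R) T x := by
          refine sum_congr rfl fun R _ => ?_
          rw [← mul_sum]
          rfl
  rw [h1, Finset.sum_eq_single T]
  · rw [S11_es_es, if_pos rfl]
  · intro R _ hne
    rw [S11_es_es, if_neg hne, mul_zero]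
  · intro h
    exact absurd (mem_univ T) h

/-- `NJ univ f = ∑ T, (1/2)^|T| es f T` (`S09`), hence `cd (NJ univ f) W = ∑ T ⊆ W, (1/2)^|T| es f T`
(`cd (es f T) W` is `es f T` for `T ⊆ W` (`EL.es_dep`, `EL.cd_self_of_dep`) and `0` otherwise
(`EL.es_mz`, `EL.cd_erase`, `EL.cd_cd`)), so `es (NJ univ f) T = (1/2)^|T| es f T` by the definition of
`es` or by uniqueness. So `LJ S (NJ univ f) = ∑ T ⊇ S, (1/2)^|T| es f T` and
`NJ univ (NJ univ f) = ∑ T, (1/4)^|T| es f T`; use `S10_parseval`. -/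
theorem S11_norms {U A : Type} [Fintype U] [Fintype A] [Nonempty A] (f : (U → A) → ℝ)
    (S : Finset U) :
    avg (fun x => LJ S (NJ univ f) x ^ 2) =
        ∑ T ∈ univ.filter (fun T => S ⊆ T), (1 / 4) ^ T.card * nr f T ∧
      avg (fun x => f x * NJ univ (NJ univ f) x) = ∑ T : Finset U, (1 / 4) ^ T.card * nr f T ∧
      avg (fun x => f x * cd f S x) = ∑ T ∈ S.powerset, nr f T := by
  have hg : NJ univ f = fun x => ∑ T : Finset U, (1 / 2) ^ T.card * es f T x := by
    funext x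
    exact (S09_expand f S x).2
  have hes : ∀ (T : Finset U) (x : U → A), es (NJ univ f) T x = (1 / 2) ^ T.card * es f T x := by
    intro T x
    rw [hg]
    exact S11_es_sum f (fun T => (1 / 2) ^ T.card) T x
  refine ⟨?_, ?_, ?_⟩
  · have h1 : (fun x => LJ S (NJ univ f) x ^ 2) =
        fun x => (∑ T : Finset U, (if S ⊆ T then (1 / 2) ^ T.card else 0) * es f T x) ^ 2 := by
      funext x
      rw [(S09_expand (NJ univ f) S x).1, sum_filter]
      congr 1
      refine sum_congr rfl fun T _ => ?_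
      rw [hes]
      split_ifs <;> simp
    rw [h1, (S10_parseval f _).1, sum_filter]
    refine sum_congr rfl fun T _ => ?_
    split_ifs
    · rw [← pow_mul, mul_comm T.card 2, pow_mul]
      norm_num
    · simp
  · have h1 : (fun x => f x * NJ univ (NJ univ f) x) =
        fun x => f x * ∑ T : Finset U, (1 / 4) ^ T.card * es f T x := by
      funext x
      rw [(S09_expand (NJ univ f) S x).2]
      congr 1
      refine sum_congr rfl fun T _ => ?_
      rw [hes, ← mul_assoc, ← mul_pow]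
      norm_num
    rw [h1, (S10_parseval f _).2.1]
  · have h1 : (fun x => f x * cd f S x) = fun x => f x * lv f S.powerset x := by
      funext x
      rw [S08_inv]
      rfl
    rw [h1, avg_mul_lv]

end Pool.Agent.Lib.MP_8d8c46_lc.Gap
end

section

set_option autoImplicit false

open Finset
open scoped Classical

namespace Pool.Agent.Lib.MP_8d8c46_lc.Gap

open Pool.Agent.Lib.MP_8d8c46_lc Pool.Agent.Lib.MP_8d8c46_lc.SDP Pool.Agent.Lib.MP_8d8c46_lc.EL

private lemma S12_cd {U A : Type} [Fintype U] [Fintype A] [Nonempty A] (f : (U → A) → ℝ)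
    (hf : ∀ (π : Equiv.Perm U) (x : U → A), f (fun i => x (π i)) = f x) (π : Equiv.Perm U)
    (S : Finset U) (x : U → A) :
    cd f (S.map π.toEmbedding) x = cd f S (fun i => x (π i)) := by
  unfold cd
  rw [← avg_equiv (Equiv.arrowCongr π.symm (Equiv.refl A))
    (fun y => f (mx S (fun i => x (π i)) y))]
  congr 1
  funext y
  rw [← hf π (mx (S.map π.toEmbedding) x y)]
  congr 1
  funext u
  unfold mx
  by_cases hu : u ∈ S
  · have h1 : π u ∈ S.map π.toEmbedding := Finset.mem_map.2 ⟨u, hu, rfl⟩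
    rw [if_pos h1, if_pos hu]
  · have h1 : π u ∉ S.map π.toEmbedding := by
      intro h
      obtain ⟨v, hv, hvu⟩ := Finset.mem_map.1 h
      have : v = u := π.injective hvu
      exact hu (this ▸ hv)
    rw [if_neg h1, if_neg hu]
    rfl

private lemma S12_es {U A : Type} [Fintype U] [Fintype A] [Nonempty A] (f : (U → A) → ℝ)
    (hf : ∀ (π : Equiv.Perm U) (x : U → A), f (fun i => x (π i)) = f x) (π : Equiv.Perm U)
    (T : Finset U) (x : U → A) :
    es f (T.map π.toEmbedding) x = es f T (fun i => x (π i)) := by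
  unfold es
  symm
  refine Finset.sum_bij (fun S _ => S.map π.toEmbedding) ?_ ?_ ?_ ?_
  · intro S hS
    rw [Finset.mem_powerset] at hS ⊢
    exact Finset.map_subset_map.2 hS
  · intro S _ S' _ h
    exact Finset.map_injective _ h
  · intro S' hS'
    rw [Finset.mem_powerset] at hS'
    obtain ⟨S, hS, rfl⟩ := Finset.subset_map_iff.1 hS'
    exact ⟨S, Finset.mem_powerset.2 hS, rfl⟩
  · intro S hS
    rw [S12_cd f hf π S x]
    congr 2
    rw [← Finset.map_sdiff, Finset.card_map]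

private lemma S12_nr {U A : Type} [Fintype U] [Fintype A] [Nonempty A] (f : (U → A) → ℝ)
    (hf : ∀ (π : Equiv.Perm U) (x : U → A), f (fun i => x (π i)) = f x) (π : Equiv.Perm U)
    (T : Finset U) : nr f (T.map π.toEmbedding) = nr f T := by
  unfold nr
  simp only [S12_es f hf π T]
  exact avg_equiv (Equiv.arrowCongr π.symm (Equiv.refl A)) (fun x => es f T x ^ 2)

private lemma S12_binom (t s : ℕ) : (t.choose s : ℝ) * (1 / 4) ^ t ≤ (1 / 3) ^ s := by
  by_cases hst : s ≤ t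
  · have h1 : (t.choose s : ℝ) * 3 ^ s ≤ 4 ^ t := by
      have h2 : (t.choose s) * 3 ^ s ≤ 4 ^ t := by
        have h3 := add_pow 3 1 t
        norm_num at h3
        rw [h3]
        have h4 := Finset.single_le_sum (f := fun m => 3 ^ m * t.choose m)
          (s := Finset.range (t + 1)) (fun _ _ => Nat.zero_le _)
          (Finset.mem_range.2 (Nat.lt_succ_of_le hst))
        rw [mul_comm]
        exact h4
      exact_mod_cast h2
    rw [one_div_pow, one_div_pow, mul_one_div, div_le_div_iff₀ (by positivity) (by positivity)]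
    linarith
  · rw [Nat.choose_eq_zero_of_lt (not_le.1 hst)]
    simp

/-- For a symmetric function `nr f (T.map π) = nr f T` (`es f` of the permuted set is `es f` at the
permuted point: `cd f (S.map π) x = cd f S (x ∘ π)`). So
`Φ S = ∑ T ⊇ S, (1/4)^|T| nr f T` (`S11_norms`) only depends on `|S|`
(any two sets of the same size are related by a permutation), and with `s = |S|`
`C(n, s) Φ S = ∑ over S' with |S'| = s of Φ S' = ∑ T, C(|T|, s) (1/4)^|T| nr f T ≤
(1/3)^s ∑ T, nr f T = (1/3)^s avg f²`, because `C(t, s) 3^s ≤ (1 + 3)^t`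
(one term of the binomial formula). -/
theorem S12_sym {U A : Type} [Fintype U] [Fintype A] [Nonempty A] (f : (U → A) → ℝ)
    (hf : ∀ (π : Equiv.Perm U) (x : U → A), f (fun i => x (π i)) = f x) (S : Finset U) :
    ((Fintype.card U).choose S.card : ℝ) * avg (fun x => LJ S (NJ univ f) x ^ 2) ≤
      (1 / 3) ^ S.card * avg (fun x => f x ^ 2) := by
  obtain ⟨Φ, hΦ⟩ : ∃ Φ : Finset U → ℝ, Φ = fun S =>
      ∑ T ∈ univ.filter (fun T => S ⊆ T), (1 / 4) ^ T.card * nr f T := ⟨_, rfl⟩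
  have h0 : avg (fun x => LJ S (NJ univ f) x ^ 2) = Φ S := by
    rw [(S11_norms f S).1, hΦ]
  have hperm : ∀ (π : Equiv.Perm U) (S' : Finset U), Φ (S'.map π.toEmbedding) = Φ S' := by
    intro π S'
    rw [hΦ]
    symm
    refine Finset.sum_bij (fun T _ => T.map π.toEmbedding) ?_ ?_ ?_ ?_
    · intro T hT
      rw [Finset.mem_filter] at hT ⊢
      exact ⟨Finset.mem_univ _, Finset.map_subset_map.2 hT.2⟩
    · intro T _ T' _ h
      exact Finset.map_injective _ h
    · intro T' hT'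
      refine ⟨T'.map π.symm.toEmbedding, ?_, ?_⟩
      · rw [Finset.mem_filter] at hT' ⊢
        refine ⟨Finset.mem_univ _, ?_⟩
        intro u hu
        rw [Finset.mem_map]
        refine ⟨π u, hT'.2 (Finset.mem_map.2 ⟨u, hu, rfl⟩), ?_⟩
        simp
      · ext u
        simp
    · intro T _
      rw [S12_nr f hf π T, Finset.card_map]
  have hcard : ∀ S' : Finset U, S'.card = S.card → Φ S' = Φ S := by
    intro S' hS'
    obtain ⟨e⟩ : Nonempty (S ≃ S') := ⟨Finset.equivOfCardEq hS'.symm⟩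
    obtain ⟨π, hπ⟩ : ∃ π : Equiv.Perm U, ∀ u : S, π u = e u := by
      refine ⟨Equiv.extendSubtype e, fun u => ?_⟩
      exact Equiv.extendSubtype_apply_of_mem e u u.2
    have h1 : S.map π.toEmbedding = S' := by
      ext v
      rw [Finset.mem_map]
      constructor
      · rintro ⟨u, hu, rfl⟩
        have := hπ ⟨u, hu⟩
        show π u ∈ S'
        rw [this]
        exact (e ⟨u, hu⟩).2
      · intro hv
        refine ⟨e.symm ⟨v, hv⟩, (e.symm ⟨v, hv⟩).2, ?_⟩
        show π (e.symm ⟨v, hv⟩ : S) = v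
        rw [hπ, Equiv.apply_symm_apply]
    rw [← h1, hperm]
  rw [h0]
  have hsum : ((Fintype.card U).choose S.card : ℝ) * Φ S =
      ∑ S' ∈ (univ : Finset U).powersetCard S.card, Φ S' := by
    rw [Finset.sum_congr rfl (fun S' hS' => hcard S' (Finset.mem_powersetCard.1 hS').2),
      Finset.sum_const, Finset.card_powersetCard, Finset.card_univ, nsmul_eq_mul]
  rw [hsum, hΦ, (S10_parseval f (fun _ => 1)).2.2, Finset.mul_sum]
  simp only [Finset.sum_filter]
  rw [Finset.sum_comm]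
  apply Finset.sum_le_sum
  intro T _
  have h1 : ∑ S' ∈ (univ : Finset U).powersetCard S.card,
      (if S' ⊆ T then (1 / 4 : ℝ) ^ T.card * nr f T else 0) =
      (T.card.choose S.card : ℝ) * ((1 / 4) ^ T.card * nr f T) := by
    rw [← Finset.sum_filter, Finset.sum_const, nsmul_eq_mul]
    congr 2
    rw [← Finset.card_powersetCard]
    congr 1
    ext S'
    simp only [Finset.mem_filter, Finset.mem_powersetCard, Finset.subset_univ, true_and]
    exact and_comm
  rw [h1, ← mul_assoc]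
  exact mul_le_mul_of_nonneg_right (S12_binom T.card S.card) (nr_nonneg f T)

end Pool.Agent.Lib.MP_8d8c46_lc.Gap
end

section

set_option autoImplicit false

open Finset
open scoped Classical

namespace Pool.Agent.Lib.MP_8d8c46_lc.Gap

open Pool.Agent.Lib.MP_8d8c46_lc Pool.Agent.Lib.MP_8d8c46_lc.SDP Pool.Agent.Lib.MP_8d8c46_lc.EL

private theorem S13_dd {n : ℕ} (y z : Cube n) : y + z + z = y := by
  funext i
  simp only [Pi.add_apply]
  rw [add_assoc, CharTwo.add_self_eq_zero, add_zero]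

private theorem S13_shift {n : ℕ} (φ g : Cube n → ℝ) (z : Cube n) :
    avg (fun x => φ (x + z) * g x) = avg (fun y => φ y * g (y + z)) := by
  rw [← avg_equiv (Equiv.addRight z) (fun y => φ y * g (y + z))]
  congr 1
  funext x
  simp only [Equiv.coe_addRight]
  rw [S13_dd]

private theorem S13_adj {n : ℕ} (ν : ℝ) (φ ψ : Cube n → ℝ) :
    avg (fun x => (∑ z, bw ν z * φ (x + z)) * ψ x) =
        avg (fun x => φ x * ∑ z, bw ν z * ψ (x + z)) := by
  have h1 : (fun x => (∑ z, bw ν z * φ (x + z)) * ψ x) =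
      fun x => ∑ z, bw ν z * (φ (x + z) * ψ x) := by
    funext x
    rw [sum_mul]
    exact sum_congr rfl fun z _ => by ring
  have h2 : (fun x => φ x * ∑ z, bw ν z * ψ (x + z)) =
      fun x => ∑ z, bw ν z * (φ x * ψ (x + z)) := by
    funext x
    rw [mul_sum]
    exact sum_congr rfl fun z _ => by ring
  rw [h1, h2, avg_sum, avg_sum]
  refine sum_congr rfl fun z _ => ?_
  rw [avg_const_mul, avg_const_mul, S13_shift]

private theorem S13_fc {n : ℕ} {ν : ℝ} (h0 : 0 ≤ ν) (h1 : ν ≤ 1) (φ : Cube n → ℝ) (a : Cube n) :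
    fc (fun x => ∑ z, bw ν z * φ (x + z)) a = (1 - 2 * ν) ^ wt a * fc φ a := by
  unfold fc
  rw [S13_adj]
  have h2 : (fun x => φ x * ∑ z, bw ν z * ch a (x + z)) =
      fun x => (1 - 2 * ν) ^ wt a * (φ x * ch a x) := by
    funext x
    have h3 : ∑ z, bw ν z * ch a (x + z) = ch a x * ∑ z, bw ν z * ch a z := by
      rw [mul_sum]
      refine sum_congr rfl fun z _ => ?_
      rw [F1_addr]
      ring
    rw [h3, (Z1_sums h0 h1).2.2.1 a]
    ring
  rw [h2, avg_const_mul]

/-- `τ φ x = ∑ z, bw ν z * φ (x + z)` has Fourier coefficients `(1-2ν)^(wt a) fc φ a` (`Z1_sums`,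
`F1_ch`: translate), so by `F2_parseval`, `((1-2ν)^2)^(wt a) = ((1/3)^θ)^(wt a)` and `F5_interp`
`avg (τ φ)^2 = ∑ a, ((1/3)^θ)^(wt a) fc φ a^2 ≤ (avg φ)^(1 + θ/2)`. Also
`avg (τ φ)^2 ≤ avg φ^2`, and `τ` is self-adjoint (`x ↦ x + z` is an involution). -/
theorem S13_noise {n : ℕ} {ν θ : ℝ} (hν0 : 0 ≤ ν) (hν1 : ν ≤ 1 / 2) (hθ0 : 0 ≤ θ) (hθ1 : θ ≤ 1)
    (hθ : ((1 / 3 : ℝ) ^ θ) = (1 - 2 * ν) ^ 2) (φ ψ : Cube n → ℝ) :
    ((∀ x, 0 ≤ φ x) → (∀ x, φ x ≤ 1) →
      avg (fun x => (∑ z, bw ν z * φ (x + z)) ^ 2) ≤ avg φ ^ (1 + θ / 2)) ∧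
      avg (fun x => (∑ z, bw ν z * φ (x + z)) ^ 2) ≤ avg (fun x => φ x ^ 2) ∧
      avg (fun x => (∑ z, bw ν z * φ (x + z)) * ψ x) =
        avg (fun x => φ x * ∑ z, bw ν z * ψ (x + z)) := by
  have hν : ν ≤ 1 := by linarith
  have hP : avg (fun x => (∑ z, bw ν z * φ (x + z)) ^ 2) =
      ∑ a, ((1 - 2 * ν) ^ 2) ^ wt a * fc φ a ^ 2 := by
    rw [← (F2_parseval (fun x => ∑ z, bw ν z * φ (x + z))).2.1]
    refine sum_congr rfl fun a _ => ?_
    rw [S13_fc hν0 hν, mul_pow, ← pow_mul, ← pow_mul, mul_comm (wt a) 2]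
  refine ⟨fun h0 h1 => ?_, ?_, S13_adj ν φ ψ⟩
  · rw [hP, ← hθ]
    exact F5_interp φ h0 h1 hθ0 hθ1
  · rw [hP, ← (F2_parseval φ).2.1]
    refine sum_le_sum fun a _ => ?_
    have h2 : ((1 - 2 * ν) ^ 2) ^ wt a ≤ 1 := by
      refine pow_le_one₀ (sq_nonneg _) ?_
      refine pow_le_one₀ (by linarith) (by linarith)
    nlinarith [sq_nonneg (fc φ a)]

end Pool.Agent.Lib.MP_8d8c46_lc.Gap
end

section

set_option autoImplicit false

open Finset
open scoped Classical

namespace Pool.Agent.Lib.MP_8d8c46_lc.Gap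

open Pool.Agent.Lib.MP_8d8c46_lc Pool.Agent.Lib.MP_8d8c46_lc.SDP Pool.Agent.Lib.MP_8d8c46_lc.EL

/-- Let `u x = ∑ z, bw ν z * φ (x + z) ∈ [0, 1]` and `α = avg φ² ∈ [0, 1]`. If `α = 0` then `φ = 0`, `u = 0`.
Otherwise let `t = α^(θ/16) ∈ (0, 1]` and `ψ = u * [u > t] ∈ [0, 1]`. Pointwise
`u⁴ ≤ t² u² + u ψ` (if `u ≤ t`: `u⁴ ≤ t² u²`; else `u⁴ ≤ u²`). Now `avg u² ≤ α` (`S13`), and
`avg (u ψ) = avg (φ * τ ψ) ≤ √α * √(avg (τ ψ)²) ≤ √α * √((avg ψ)^(1+θ/2))` (Cauchy-Schwarz, `S13` for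
`ψ`), `avg ψ ≤ avg (u² / t) ≤ α / t`. So `avg u⁴ ≤ t² α + α^(1 + θ/4) t^(-(1/2 + θ/4))`
`≤ 2 α^(1 + θ/8)`: the exponents are `1 + θ/8` and
`1 + θ/4 - (θ/16)(1/2 + θ/4) ≥ 1 + θ/8`, and `α ≤ 1`. -/
theorem S14_fourth {n : ℕ} {ν θ : ℝ} (hν0 : 0 ≤ ν) (hν1 : ν ≤ 1 / 2) (hθ0 : 0 ≤ θ) (hθ1 : θ ≤ 1)
    (hθ : ((1 / 3 : ℝ) ^ θ) = (1 - 2 * ν) ^ 2) (φ : Cube n → ℝ) (h0 : ∀ x, 0 ≤ φ x)
    (h1 : ∀ x, φ x ≤ 1) :
    avg (fun x => (∑ z, bw ν z * φ (x + z)) ^ 4) ≤ 2 * avg (fun x => φ x ^ 2) ^ (1 + θ / 8) := by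
  have hν1' : ν ≤ 1 := by linarith
  have hbw := Z1_sums (D := n) hν0 hν1'
  obtain ⟨hb0, hb1, -⟩ := hbw
  set u : Cube n → ℝ := fun x => ∑ z, bw ν z * φ (x + z) with hu
  set α : ℝ := avg (fun x => φ x ^ 2) with hα
  have hu0 : ∀ x, 0 ≤ u x := fun x => Finset.sum_nonneg fun z _ => mul_nonneg (hb0 z) (h0 _)
  have hu1 : ∀ x, u x ≤ 1 := by
    intro x
    calc u x ≤ ∑ z, bw ν z * 1 :=
          Finset.sum_le_sum fun z _ => mul_le_mul_of_nonneg_left (h1 _) (hb0 z)
      _ = 1 := by simp only [mul_one]; exact hb1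
  have hα0 : 0 ≤ α := avg_nonneg fun x => sq_nonneg _
  have hα1 : α ≤ 1 := by
    have := avg_mono (f := fun x : Cube n => φ x ^ 2) (g := fun _ => (1 : ℝ))
      (fun x => pow_le_one₀ (h0 x) (h1 x))
    rwa [avg_const] at this
  have hu2 : avg (fun x => u x ^ 2) ≤ α := (S13_noise hν0 hν1 hθ0 hθ1 hθ φ φ).2.1
  change avg (fun x => u x ^ 4) ≤ 2 * α ^ (1 + θ / 8)
  rcases hα0.eq_or_lt with hz | hpos
  · have h2 : avg (fun x => u x ^ 4) ≤ avg (fun x => u x ^ 2) :=
      avg_mono fun x => pow_le_pow_of_le_one (hu0 x) (hu1 x) (by norm_num)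
    have h3 : 0 ≤ 2 * α ^ (1 + θ / 8) := by positivity
    linarith
  have hlog : ∀ {p q : ℝ}, p ≤ q → α ^ q ≤ α ^ p := fun hpq =>
    Real.rpow_le_rpow_of_exponent_ge hpos hα1 hpq
  set t : ℝ := α ^ (θ / 16) with ht
  have ht0 : 0 < t := Real.rpow_pos_of_pos hpos _
  set ψ : Cube n → ℝ := fun x => if t < u x then u x else 0 with hψ
  have hψ0 : ∀ x, 0 ≤ ψ x := by
    intro x
    simp only [hψ]
    split_ifs
    · exact hu0 x
    · exact le_refl _
  have hψ1 : ∀ x, ψ x ≤ 1 := by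
    intro x
    simp only [hψ]
    split_ifs
    · exact hu1 x
    · exact zero_le_one
  have hpt : ∀ x, u x ^ 4 ≤ t ^ 2 * u x ^ 2 + u x * ψ x := by
    intro x
    have e0 := hu0 x
    have e1 := hu1 x
    have e2 : 0 ≤ u x ^ 2 := sq_nonneg _
    simp only [hψ]
    split_ifs with h
    · have e3 : u x ^ 4 ≤ u x ^ 2 := pow_le_pow_of_le_one e0 e1 (by norm_num)
      have e4 : 0 ≤ t ^ 2 * u x ^ 2 := by positivity
      nlinarith
    · have h' : u x ≤ t := not_lt.1 h
      have e3 : u x ^ 2 ≤ t ^ 2 := pow_le_pow_left₀ e0 h' 2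
      have e4 := mul_le_mul_of_nonneg_right e3 e2
      nlinarith
  have hψu : ∀ x, ψ x ≤ u x ^ 2 * t⁻¹ := by
    intro x
    simp only [hψ]
    split_ifs with h
    · rw [← div_eq_mul_inv, le_div_iff₀ ht0]
      have := hu0 x
      nlinarith
    · have := hu0 x
      positivity
  have hψα : avg ψ ≤ α ^ (1 - θ / 16) := by
    have h2 := avg_mono hψu
    rw [avg_mul_const] at h2
    have h3 : α ^ (1 - θ / 16) = α * t⁻¹ := by
      rw [Real.rpow_sub hpos, Real.rpow_one, div_eq_mul_inv]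
    rw [h3]
    exact h2.trans (mul_le_mul_of_nonneg_right hu2 (inv_nonneg.2 ht0.le))
  have hψn : 0 ≤ avg ψ := avg_nonneg hψ0
  have hB : avg (fun x => u x * ψ x) = avg (fun x => φ x * ∑ z, bw ν z * ψ (x + z)) :=
    (S13_noise hν0 hν1 hθ0 hθ1 hθ φ ψ).2.2
  have hcs := avg_cs φ (fun x => ∑ z, bw ν z * ψ (x + z))
  have hτ := (S13_noise hν0 hν1 hθ0 hθ1 hθ ψ ψ).1 hψ0 hψ1
  have hB0 : 0 ≤ avg (fun x => u x * ψ x) := avg_nonneg fun x => mul_nonneg (hu0 x) (hψ0 x)
  have hB2 : avg (fun x => u x * ψ x) ^ 2 ≤ (α ^ (1 + θ / 8)) ^ 2 := by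
    have e1 : (avg ψ) ^ (1 + θ / 2) ≤ (α ^ (1 - θ / 16)) ^ (1 + θ / 2) :=
      Real.rpow_le_rpow hψn hψα (by linarith)
    have e2 : (α ^ (1 - θ / 16)) ^ (1 + θ / 2) = α ^ ((1 - θ / 16) * (1 + θ / 2)) := by
      rw [← Real.rpow_mul hα0]
    have e3 : α * α ^ ((1 - θ / 16) * (1 + θ / 2)) = α ^ (1 + (1 - θ / 16) * (1 + θ / 2)) := by
      rw [Real.rpow_add hpos, Real.rpow_one]
    have e4 : (α ^ (1 + θ / 8)) ^ 2 = α ^ (2 * (1 + θ / 8)) := by
      rw [← Real.rpow_natCast, ← Real.rpow_mul hα0]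
      congr 1
      push_cast
      ring
    have e5 : α ^ (1 + (1 - θ / 16) * (1 + θ / 2)) ≤ α ^ (2 * (1 + θ / 8)) := by
      apply hlog
      nlinarith
    rw [e4, hB]
    calc avg (fun x => φ x * ∑ z, bw ν z * ψ (x + z)) ^ 2 ≤
          α * avg (fun x => (∑ z, bw ν z * ψ (x + z)) ^ 2) := hcs
      _ ≤ α * α ^ ((1 - θ / 16) * (1 + θ / 2)) := by
          apply mul_le_mul_of_nonneg_left _ hα0
          rw [← e2]
          exact hτ.trans e1
      _ = α ^ (1 + (1 - θ / 16) * (1 + θ / 2)) := e3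
      _ ≤ _ := e5
  have hB3 : avg (fun x => u x * ψ x) ≤ α ^ (1 + θ / 8) :=
    (pow_le_pow_iff_left₀ hB0 (Real.rpow_nonneg hα0 _) two_ne_zero).1 hB2
  have h4 := avg_mono hpt
  rw [avg_add, avg_const_mul] at h4
  have h5 : t ^ 2 * α = α ^ (1 + θ / 8) := by
    rw [ht, ← Real.rpow_natCast, ← Real.rpow_mul hα0]
    have : α ^ (θ / 16 * ((2 : ℕ) : ℝ)) * α = α ^ (θ / 16 * ((2 : ℕ) : ℝ) + 1) := by
      rw [Real.rpow_add hpos, Real.rpow_one]
    rw [this]
    congr 1
    push_cast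
    ring
  have h6 : t ^ 2 * avg (fun x => u x ^ 2) ≤ t ^ 2 * α :=
    mul_le_mul_of_nonneg_left hu2 (sq_nonneg _)
  rw [h5] at h6
  linarith

end Pool.Agent.Lib.MP_8d8c46_lc.Gap
end

section

set_option autoImplicit false

open Finset
open scoped Classical

namespace Pool.Agent.Lib.MP_8d8c46_lc.Gap

open Pool.Agent.Lib.MP_8d8c46_lc Pool.Agent.Lib.MP_8d8c46_lc.SDP Pool.Agent.Lib.MP_8d8c46_lc.EL

private def S15_e (R D : ℕ) : (Fin R → Cube D) ≃ Cube (R * D) :=
  (Equiv.curry (Fin R) (Fin D) (ZMod 2)).symm.trans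
    (Equiv.arrowCongr finProdFinEquiv (Equiv.refl (ZMod 2)))

private theorem S15_e_apply {R D : ℕ} (x : Fin R → Cube D) (k : Fin (R * D)) :
    S15_e R D x k = x (finProdFinEquiv.symm k).1 (finProdFinEquiv.symm k).2 := rfl

private theorem S15_e_add {R D : ℕ} (x z : Fin R → Cube D) :
    S15_e R D (x + z) = S15_e R D x + S15_e R D z := rfl

private theorem S15_bw {R D : ℕ} (ν : ℝ) (z : Fin R → Cube D) :
    bw ν (S15_e R D z) = ∏ i, bw ν (z i) := by
  have hbw : ∀ {m : ℕ} (z : Cube m), bw ν z = ∏ i, (if z i = 0 then 1 - ν else ν) := fun z =>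
    Z1_pow_wt ν (1 - ν) z
  rw [hbw]
  have h1 : ∏ k, (if S15_e R D z k = 0 then 1 - ν else ν) =
      ∏ p : Fin R × Fin D, (if z p.1 p.2 = 0 then 1 - ν else ν) := by
    rw [← finProdFinEquiv.prod_comp (fun k => if S15_e R D z k = 0 then 1 - ν else ν)]
    refine prod_congr rfl fun p _ => ?_
    rw [S15_e_apply, Equiv.symm_apply_apply]
  rw [h1, Fintype.prod_prod_type]
  exact prod_congr rfl fun i _ => (hbw (z i)).symm

/-- The same for `Fin R → Cube D`, which is `Cube (R * D)` after reindexing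
(`e x k = x (finProdFinEquiv.symm k).1 (finProdFinEquiv.symm k).2`; `e` is additive and bijective, and
`bw ν (e z) = ∏ i, bw ν (z i)`, because `bw ν z = ∏ j, (if z j = 0 then 1 - ν else ν)` (`Z1_pow_wt`)). -/
theorem S15_tuple {R D : ℕ} {ν θ : ℝ} (hν0 : 0 ≤ ν) (hν1 : ν ≤ 1 / 2) (hθ0 : 0 ≤ θ)
    (hθ1 : θ ≤ 1) (hθ : ((1 / 3 : ℝ) ^ θ) = (1 - 2 * ν) ^ 2) (φ : (Fin R → Cube D) → ℝ)
    (h0 : ∀ x, 0 ≤ φ x) (h1 : ∀ x, φ x ≤ 1) :
    avg (fun x : Fin R → Cube D => (∑ z : Fin R → Cube D, (∏ i, bw ν (z i)) * φ (x + z)) ^ 4) ≤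
      2 * avg (fun x => φ x ^ 2) ^ (1 + θ / 8) := by
  have h := S14_fourth (n := R * D) hν0 hν1 hθ0 hθ1 hθ (fun y => φ ((S15_e R D).symm y))
    (fun y => h0 _) (fun y => h1 _)
  rw [← avg_equiv (S15_e R D) (fun x => (∑ z, bw ν z * φ ((S15_e R D).symm (x + z))) ^ 4),
    ← avg_equiv (S15_e R D) (fun x => φ ((S15_e R D).symm x) ^ 2)] at h
  simp only [Equiv.symm_apply_apply] at h
  have h2 : ∀ x : Fin R → Cube D,
      ∑ z, bw ν z * φ ((S15_e R D).symm (S15_e R D x + z)) =
        ∑ z : Fin R → Cube D, (∏ i, bw ν (z i)) * φ (x + z) := by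
    intro x
    rw [← (S15_e R D).sum_comp (fun z => bw ν z * φ ((S15_e R D).symm (S15_e R D x + z)))]
    refine sum_congr rfl fun z _ => ?_
    rw [S15_bw, ← S15_e_add, Equiv.symm_apply_apply]
  simp only [h2] at h
  exact h

end Pool.Agent.Lib.MP_8d8c46_lc.Gap
end

section

set_option autoImplicit false

open Finset
open scoped Classical

namespace Pool.Agent.Lib.MP_8d8c46_lc.Gap

open Pool.Agent.Lib.MP_8d8c46_lc Pool.Agent.Lib.MP_8d8c46_lc.SDP Pool.Agent.Lib.MP_8d8c46_lc.EL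

private theorem S16_pt {R : ℕ} {B : Type} [Fintype B] [Nonempty B] (S : Finset (Fin R))
    (α : (Fin R → B) → ℝ) (h0 : ∀ y, 0 ≤ α y) (hS : DepOn S α) (y₀ : Fin R → B) :
    α y₀ ≤ (Fintype.card B : ℝ) ^ S.card * avg α := by
  have hB : (0 : ℝ) < Fintype.card B := by exact_mod_cast Fintype.card_pos
  set P : Finset (Fin R → B) := Fintype.piFinset (fun i => if i ∈ S then {y₀ i} else univ) with hP
  have hcard : (P.card : ℝ) * (Fintype.card B : ℝ) ^ S.card = (Fintype.card B : ℝ) ^ R := by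
    rw [hP, Fintype.card_piFinset]
    have h1 : ∀ i : Fin R, ((if i ∈ S then ({y₀ i} : Finset B) else univ).card) =
        if i ∈ S then 1 else Fintype.card B := by
      intro i
      split_ifs
      · exact card_singleton _
      · exact card_univ
    simp only [h1]
    rw [prod_ite, prod_const_one, one_mul, prod_const]
    push_cast
    rw [← pow_add]
    congr 1
    have h2 := Finset.card_filter_add_card_filter_not (s := (univ : Finset (Fin R)))
      (fun i => i ∈ S)
    have h3 : (univ.filter (fun i => i ∈ S)) = S := by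
      ext i
      simp
    rw [card_univ, Fintype.card_fin, h3] at h2
    omega
  have h4 : (P.card : ℝ) * α y₀ ≤ ∑ y, α y := by
    calc (P.card : ℝ) * α y₀ = ∑ y ∈ P, α y := by
          rw [← nsmul_eq_mul, ← sum_const]
          refine sum_congr rfl fun y hy => ?_
          refine hS _ _ fun u hu => ?_
          have h5 := (Fintype.mem_piFinset.1 hy) u
          rw [if_pos hu] at h5
          exact (mem_singleton.1 h5).symm
      _ ≤ ∑ y, α y := sum_le_sum_of_subset_of_nonneg (subset_univ _) fun y _ _ => h0 y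
  have h6 : (Fintype.card (Fin R → B) : ℝ) = (Fintype.card B : ℝ) ^ R := by
    rw [Fintype.card_fun, Fintype.card_fin]
    push_cast
    rfl
  unfold avg
  rw [h6, ← hcard]
  have h7 : (0 : ℝ) < (Fintype.card B : ℝ) ^ S.card := by positivity
  have h8 : (0 : ℝ) < P.card := by
    have h9 : (0 : ℝ) < (P.card : ℝ) * (Fintype.card B : ℝ) ^ S.card := by
      rw [hcard]; positivity
    exact pos_of_mul_pos_left h9 h7.le
  rw [mul_div_assoc', le_div_iff₀ (by positivity)]
  nlinarith [mul_le_mul_of_nonneg_right h4 h7.le]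

/-- If `α ≥ 0` depends only on the coordinates in `S` then `α y₀ ≤ |B|^|S| avg α` for every `y₀` (the
points `y` which agree with `y₀` on `S` are the fraction `|B|^(-|S|)` of all points; or
`α y₀ = cd α S y₀`). So `avg (α^(1+t)) ≤ (|B|^|S| avg α)^t avg α`. -/
theorem S16_dep {R : ℕ} {B : Type} [Fintype B] [Nonempty B] (S : Finset (Fin R))
    (α : (Fin R → B) → ℝ) (h0 : ∀ y, 0 ≤ α y) (hS : DepOn S α) {t : ℝ} (ht : 0 ≤ t) :
    avg (fun y => α y ^ (1 + t)) ≤
      ((Fintype.card B : ℝ) ^ S.card) ^ t * avg α ^ (1 + t) := by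
  have hα : 0 ≤ avg α := avg_nonneg h0
  have hB : (0 : ℝ) < Fintype.card B := by exact_mod_cast Fintype.card_pos
  set N : ℝ := (Fintype.card B : ℝ) ^ S.card with hN
  have hN0 : 0 ≤ N := by positivity
  calc avg (fun y => α y ^ (1 + t)) ≤ avg (fun y => (N * avg α) ^ t * α y) := by
        refine avg_mono fun y => ?_
        rw [Real.rpow_add_of_nonneg (h0 y) (by norm_num) ht, Real.rpow_one, mul_comm]
        exact mul_le_mul_of_nonneg_right
          (Real.rpow_le_rpow (h0 y) (S16_pt S α h0 hS y) ht) (h0 y)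
    _ = (N * avg α) ^ t * avg α := avg_const_mul _ _
    _ = N ^ t * avg α ^ (1 + t) := by
        rw [Real.mul_rpow hN0 hα, Real.rpow_add_of_nonneg hα (by norm_num) ht, Real.rpow_one]
        ring

end Pool.Agent.Lib.MP_8d8c46_lc.Gap
end

section

set_option autoImplicit false

open Finset
open scoped Classical

namespace Pool.Agent.Lib.MP_8d8c46_lc.Gap

open Pool.Agent.Lib.MP_8d8c46_lc Pool.Agent.Lib.MP_8d8c46_lc.SDP Pool.Agent.Lib.MP_8d8c46_lc.EL

/-- marks and positions -/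
private def S17_e (R D b : ℕ) : ((Fin R → ZMod b) × (Fin R → Cube D)) ≃ Tup R D b where
  toFun z i := (z.2 i, z.1 i)
  invFun x := (fun i => (x i).2, fun i => (x i).1)
  left_inv _ := rfl
  right_inv _ := rfl

private lemma S17_avg {R D b : ℕ} [NeZero b] (g : Tup R D b → ℝ) :
    avg g = avg (fun y : Fin R → ZMod b => avg (fun p : Fin R → Cube D =>
      g (fun i => (p i, y i)))) := by
  rw [avg_avg]
  exact (avg_equiv (S17_e R D b) g).symm

/-- Split a tuple into positions and marks (`avg` over `Tup R D b` is the iterated average over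
`Fin R → ZMod b` and `Fin R → Cube D`, by the obvious equivalence, `EL.avg_avg`, `avg_equiv`). For
fixed marks `y` `S15_tuple` bounds the average over the positions of `(nz ν φ)^4` by
`2 (α y)^(1+θ/8)`, where `α y` is the average over the positions of `φ²`; `α` only depends on the
marks `y i`, `i ∈ S`. Then `S16_dep` with `t = θ/8`, `B = ZMod b`. -/
theorem S17_marks {R D b : ℕ} [NeZero b] {ν θ : ℝ} (hν0 : 0 ≤ ν) (hν1 : ν ≤ 1 / 2)
    (hθ0 : 0 ≤ θ) (hθ1 : θ ≤ 1) (hθ : ((1 / 3 : ℝ) ^ θ) = (1 - 2 * ν) ^ 2)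
    (S : Finset (Fin R)) (φ : Tup R D b → ℝ) (h0 : ∀ x, 0 ≤ φ x) (h1 : ∀ x, φ x ≤ 1)
    (hS : DepOn S φ) :
    avg (fun x => nz ν φ x ^ 4) ≤
      2 * ((b : ℝ) ^ S.card) ^ (θ / 8) * avg (fun x => φ x ^ 2) ^ (1 + θ / 8) := by
  obtain ⟨α, hα⟩ : ∃ α : (Fin R → ZMod b) → ℝ, α = fun y => avg (fun p : Fin R → Cube D =>
      φ (fun i => (p i, y i)) ^ 2) := ⟨_, rfl⟩
  have hα0 : ∀ y, 0 ≤ α y := by
    intro y
    rw [hα]
    exact avg_nonneg (fun _ => sq_nonneg _)
  have hαS : DepOn S α := by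
    intro y y' hyy
    rw [hα]
    show avg (fun p : Fin R → Cube D => φ (fun i => (p i, y i)) ^ 2) =
      avg (fun p : Fin R → Cube D => φ (fun i => (p i, y' i)) ^ 2)
    congr 1
    funext p
    congr 1
    apply hS
    intro u hu
    show (p u, y u) = (p u, y' u)
    rw [hyy u hu]
  have h2 : avg (fun x => nz ν φ x ^ 4) ≤ avg (fun y => 2 * α y ^ (1 + θ / 8)) := by
    rw [S17_avg]
    apply avg_mono
    intro y
    have h3 := S15_tuple hν0 hν1 hθ0 hθ1 hθ (fun q : Fin R → Cube D => φ (fun i => (q i, y i)))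
      (fun _ => h0 _) (fun _ => h1 _)
    rw [hα]
    exact h3
  refine h2.trans ?_
  rw [avg_const_mul]
  have h4 := S16_dep S α hα0 hαS (t := θ / 8) (by linarith)
  rw [ZMod.card] at h4
  have h5 : avg α = avg (fun x => φ x ^ 2) := by
    rw [S17_avg (fun x => φ x ^ 2), hα]
  rw [h5] at h4
  calc 2 * avg (fun y => α y ^ (1 + θ / 8))
      ≤ 2 * (((b : ℝ) ^ S.card) ^ (θ / 8) * avg (fun x => φ x ^ 2) ^ (1 + θ / 8)) :=
        mul_le_mul_of_nonneg_left h4 (by norm_num)
    _ = _ := by ring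

end Pool.Agent.Lib.MP_8d8c46_lc.Gap
end

section

set_option autoImplicit false

open Finset
open scoped Classical

namespace Pool.Agent.Lib.MP_8d8c46_lc.Gap

open Pool.Agent.Lib.MP_8d8c46_lc Pool.Agent.Lib.MP_8d8c46_lc.SDP Pool.Agent.Lib.MP_8d8c46_lc.EL

/-- the translation of the positions -/
private def S18_tr {R D b : ℕ} (z : Fin R → Cube D) (ω : Tup R D b) : Tup R D b :=
  fun i => ((ω i).1 + z i, (ω i).2)

private theorem S18_invol {R D b : ℕ} (z : Fin R → Cube D) (ω : Tup R D b) :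
    S18_tr z (S18_tr z ω) = ω := by
  funext i
  unfold S18_tr
  refine Prod.ext ?_ rfl
  funext j
  simp only [Pi.add_apply]
  rw [add_assoc, CharTwo.add_self_eq_zero, add_zero]

private def S18_equiv {R D b : ℕ} (z : Fin R → Cube D) : Tup R D b ≃ Tup R D b where
  toFun := S18_tr z
  invFun := S18_tr z
  left_inv := S18_invol z
  right_inv := S18_invol z

private theorem S18_mx {R D b : ℕ} (z : Fin R → Cube D) (S : Finset (Fin R)) (x y : Tup R D b) :
    S18_tr z (mx S x y) = mx S (S18_tr z x) (S18_tr z y) := by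
  funext i
  unfold S18_tr mx
  split_ifs <;> rfl

private theorem S18_inner {R D b : ℕ} {hX : Fintype (Tup R D b)} (G : Tup R D b → ℝ)
    (S : Finset (Fin R)) (ω : Tup R D b) (z : Fin R → Cube D) :
    avg (fun y => G (S18_tr z (mx S ω y)) ^ 2) =
      avg (fun y => G (mx S (S18_tr z ω) y) ^ 2) := by
  simp only [S18_mx]
  exact avg_equiv (S18_equiv z) (fun y => G (mx S (S18_tr z ω) y) ^ 2)

private theorem S18_gen {X Z : Type} {hX : Fintype X} {hZ : Fintype Z} (p : Z → ℝ)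
    (hp0 : ∀ z, 0 ≤ p z) (F : Z → X → ℝ) (c : Z → ℝ) (hF2 : ∀ z, avg (fun y => F z y ^ 2) = c z) :
    avg (fun y => (∑ z, p z * F z y) ^ 2) ≤ (∑ z, p z * Real.sqrt (c z)) ^ 2 := by
  have hc0 : ∀ z, 0 ≤ c z := fun z => by
    rw [← hF2]
    exact avg_nonneg fun y => sq_nonneg _
  have h1 : avg (fun y => (∑ z, p z * F z y) ^ 2) =
      ∑ z, ∑ z', p z * p z' * avg (fun y => F z y * F z' y) := by
    have h2 : (fun y => (∑ z, p z * F z y) ^ 2) =
        fun y => ∑ z, ∑ z', (p z * p z') * (F z y * F z' y) := by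
      funext y
      rw [sq, sum_mul_sum]
      exact sum_congr rfl fun z _ => sum_congr rfl fun z' _ => by ring
    rw [h2, avg_sum]
    refine sum_congr rfl fun z _ => ?_
    rw [avg_sum]
    refine sum_congr rfl fun z' _ => ?_
    rw [avg_const_mul]
  have h4 : (∑ z, p z * Real.sqrt (c z)) ^ 2 =
      ∑ z, ∑ z', p z * p z' * (Real.sqrt (c z) * Real.sqrt (c z')) := by
    rw [sq, sum_mul_sum]
    exact sum_congr rfl fun z _ => sum_congr rfl fun z' _ => by ring
  rw [h1, h4]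
  refine sum_le_sum fun z _ => sum_le_sum fun z' _ => ?_
  refine mul_le_mul_of_nonneg_left ?_ (mul_nonneg (hp0 z) (hp0 z'))
  have h5 := avg_cs (F z) (F z')
  rw [hF2, hF2] at h5
  have h6 : (Real.sqrt (c z) * Real.sqrt (c z')) ^ 2 = c z * c z' := by
    rw [mul_pow, Real.sq_sqrt (hc0 z), Real.sq_sqrt (hc0 z')]
  rw [← h6] at h5
  exact (abs_le_of_sq_le_sq' h5 (by positivity)).2

/-- Minkowski. For `z : Fin R → Cube D` write `ω + z` for the translated tuple and
`F z y = G (mx S (ω + z) (y + z))`; then `nz ν G (mx S ω y) = ∑ z, p z * F z y` with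
`p z = ∏ i, bw ν (z i) ≥ 0`, and `avg_y (F z y)² = avg_y G (mx S (ω + z) y)² = (φ (ω + z))²`, where
`φ x = √(cd (G²) S x)` (translation invariance of the average). So
`cd ((nz ν G)²) S ω = avg_y (∑ z, p z F z y)² = ∑ z, ∑ z', p z p z' avg_y (F z y * F z' y) ≤
∑ z, ∑ z', p z p z' φ (ω + z) φ (ω + z') = (nz ν φ ω)²` by Cauchy-Schwarz. -/
theorem S18_minkowski {R D b : ℕ} [NeZero b] {ν : ℝ} (hν0 : 0 ≤ ν) (hν1 : ν ≤ 1)
    (G : Tup R D b → ℝ) (S : Finset (Fin R)) (ω : Tup R D b) :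
    cd (fun y => nz ν G y ^ 2) S ω ≤
      (nz ν (fun x => Real.sqrt (cd (fun y => G y ^ 2) S x)) ω) ^ 2 := by
  exact S18_gen (fun z => ∏ i, bw ν (z i))
    (fun z => prod_nonneg fun i _ => (Z1_sums hν0 hν1).1 (z i))
    (fun z y => G (S18_tr z (mx S ω y))) (fun z => cd (fun y => G y ^ 2) S (S18_tr z ω))
    (fun z => S18_inner G S ω z)

end Pool.Agent.Lib.MP_8d8c46_lc.Gap
end

section

set_option autoImplicit false

open Finset
open scoped Classical

namespace Pool.Agent.Lib.MP_8d8c46_lc.Gap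

open Pool.Agent.Lib.MP_8d8c46_lc Pool.Agent.Lib.MP_8d8c46_lc.SDP Pool.Agent.Lib.MP_8d8c46_lc.EL

/-- the translation of the positions -/
private def W06_tr {R D b : ℕ} (z : Fin R → Cube D) (ω : Tup R D b) : Tup R D b :=
  fun i => ((ω i).1 + z i, (ω i).2)

private theorem W06_invol {R D b : ℕ} (z : Fin R → Cube D) (ω : Tup R D b) :
    W06_tr z (W06_tr z ω) = ω := by
  funext i
  unfold W06_tr
  refine Prod.ext ?_ rfl
  funext j
  simp only [Pi.add_apply]
  rw [add_assoc, CharTwo.add_self_eq_zero, add_zero]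

private def W06_equiv {R D b : ℕ} (z : Fin R → Cube D) : Tup R D b ≃ Tup R D b where
  toFun := W06_tr z
  invFun := W06_tr z
  left_inv := W06_invol z
  right_inv := W06_invol z

private theorem W06_mx {R D b : ℕ} (z : Fin R → Cube D) (S : Finset (Fin R)) (x y : Tup R D b) :
    W06_tr z (mx S x y) = mx S (W06_tr z x) (W06_tr z y) := by
  funext i
  unfold W06_tr mx
  split_ifs <;> rfl

private theorem W06_sum {R D b : ℕ} {hX : Fintype (Tup R D b)} (f g : Tup R D b → ℝ)
    (z : Fin R → Cube D) : ∑ ω, f ω * g (W06_tr z ω) = ∑ ω, f (W06_tr z ω) * g ω := by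
  rw [← (W06_equiv z).sum_comp (fun ω => f ω * g (W06_tr z ω))]
  refine sum_congr rfl fun ω _ => ?_
  have h1 : (W06_equiv z) ω = W06_tr z ω := rfl
  rw [h1, W06_invol]

private theorem W06_avg {R D b : ℕ} {hX : Fintype (Tup R D b)} (f : Tup R D b → ℝ)
    (z : Fin R → Cube D) : avg (fun ω => f (W06_tr z ω)) = avg f :=
  avg_equiv (W06_equiv z) f

private theorem W06_adj {R D b : ℕ} {hX : Fintype (Tup R D b)} (ν : ℝ) (f g : Tup R D b → ℝ) :
    ∑ ω, f ω * nz ν g ω = ∑ ω, nz ν f ω * g ω := by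
  have hn : ∀ (g : Tup R D b → ℝ) (ω), nz ν g ω = ∑ z, (∏ i, bw ν (z i)) * g (W06_tr z ω) :=
    fun _ _ => rfl
  simp only [hn, mul_sum, sum_mul]
  rw [sum_comm, sum_comm (s := univ) (t := univ)
    (f := fun ω z => (∏ i, bw ν (z i)) * f (W06_tr z ω) * g ω)]
  refine sum_congr rfl fun z _ => ?_
  have h1 := W06_sum (hX := hX) f g z
  calc ∑ ω, f ω * ((∏ i, bw ν (z i)) * g (W06_tr z ω))
      = (∏ i, bw ν (z i)) * ∑ ω, f ω * g (W06_tr z ω) := by
        rw [mul_sum]
        exact sum_congr rfl fun ω _ => by ring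
    _ = ∑ ω, (∏ i, bw ν (z i)) * f (W06_tr z ω) * g ω := by
        rw [h1, mul_sum]
        exact sum_congr rfl fun ω _ => by ring

private theorem W06_avg_nz {R D b : ℕ} {hX : Fintype (Tup R D b)} {ν : ℝ}
    (h1 : ∑ z : Fin R → Cube D, ∏ i, bw ν (z i) = 1) (f : Tup R D b → ℝ) :
    avg (nz ν f) = avg f := by
  have hn : nz ν f = fun ω => ∑ z, (∏ i, bw ν (z i)) * f (W06_tr z ω) := rfl
  rw [hn, avg_sum]
  have h2 : ∀ z ∈ (univ : Finset (Fin R → Cube D)),
      avg (fun ω => (∏ i, bw ν (z i)) * f (W06_tr z ω)) = (∏ i, bw ν (z i)) * avg f := by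
    intro z _
    rw [avg_const_mul, W06_avg]
  rw [sum_congr rfl h2, ← sum_mul, h1, one_mul]

private theorem W06_cd {R D b : ℕ} {hX : Fintype (Tup R D b)} (ν : ℝ) (f : Tup R D b → ℝ)
    (S : Finset (Fin R)) (ω : Tup R D b) :
    nz ν (fun x => avg (fun y => f (mx S x y))) ω = avg (fun y => nz ν f (mx S ω y)) := by
  have hn : ∀ (g : Tup R D b → ℝ) (ω), nz ν g ω = ∑ z, (∏ i, bw ν (z i)) * g (W06_tr z ω) :=
    fun _ _ => rfl
  simp only [hn]
  rw [avg_sum]
  refine sum_congr rfl fun z _ => ?_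
  rw [avg_const_mul]
  congr 1
  simp only [W06_mx]
  exact (W06_avg (fun y => f (mx S (W06_tr z ω) y)) z).symm

/-- The noise operator is self-adjoint (translations `ω ↦ ω + z` are bijections and involutions), it
commutes with the averages `cd` (for `mx S ω y` shift also `y`, and `avg` over `y` is translation
invariant), and it preserves averages and bounds (`Z1_sums`: the weights are nonnegative with
sum `∏ i, 1 = 1`, `Finset.prod_univ_sum`). -/
theorem W06_nz {R D b : ℕ} [NeZero b] {ν : ℝ} (hν0 : 0 ≤ ν) (hν1 : ν ≤ 1) :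
    (∀ f g : Tup R D b → ℝ, ∑ ω, f ω * nz ν g ω = ∑ ω, nz ν f ω * g ω) ∧
      (∀ (f : Tup R D b → ℝ) (S : Finset (Fin R)) (ω : Tup R D b),
        nz ν (cd f S) ω = cd (nz ν f) S ω) ∧
      (∀ f : Tup R D b → ℝ, avg (nz ν f) = avg f) ∧
      (∀ (f : Tup R D b → ℝ) (lo hi : ℝ), (∀ ω, lo ≤ f ω) → (∀ ω, f ω ≤ hi) →
        ∀ ω, lo ≤ nz ν f ω ∧ nz ν f ω ≤ hi) ∧
      ∑ z : Fin R → Cube D, ∏ i, bw ν (z i) = 1 := by
  have h5 : ∑ z : Fin R → Cube D, ∏ i, bw ν (z i) = 1 := Z7_total hν0 hν1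
  refine ⟨fun f g => W06_adj ν f g, fun f S ω => W06_cd ν f S ω, fun f => W06_avg_nz h5 f, ?_, h5⟩
  intro f lo hi hlo hhi ω
  have hp : ∀ z : Fin R → Cube D, 0 ≤ ∏ i, bw ν (z i) := fun z =>
    prod_nonneg fun i _ => (Z1_sums hν0 hν1).1 (z i)
  unfold nz
  constructor
  · calc lo = ∑ z : Fin R → Cube D, (∏ i, bw ν (z i)) * lo := by rw [← sum_mul, h5, one_mul]
      _ ≤ _ := sum_le_sum fun z _ => mul_le_mul_of_nonneg_left (hlo _) (hp z)
  · calc _ ≤ ∑ z : Fin R → Cube D, (∏ i, bw ν (z i)) * hi :=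
          sum_le_sum fun z _ => mul_le_mul_of_nonneg_left (hhi _) (hp z)
      _ = hi := by rw [← sum_mul, h5, one_mul]

end Pool.Agent.Lib.MP_8d8c46_lc.Gap
end

section

set_option autoImplicit false

open Finset
open scoped Classical

namespace Pool.Agent.Lib.MP_8d8c46_lc.Gap

open Pool.Agent.Lib.MP_8d8c46_lc Pool.Agent.Lib.MP_8d8c46_lc.SDP Pool.Agent.Lib.MP_8d8c46_lc.EL

private theorem S19_nz_sum {R D b : ℕ} {ι : Type} (ν : ℝ) (J : Finset ι) (c : ι → ℝ)
    (g : ι → Tup R D b → ℝ) (ω : Tup R D b) :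
    nz ν (fun x => ∑ T ∈ J, c T * g T x) ω = ∑ T ∈ J, c T * nz ν (g T) ω := by
  unfold nz
  simp only [mul_sum]
  rw [sum_comm]
  exact sum_congr rfl fun T _ => sum_congr rfl fun z _ => by ring

private theorem S19_NJ {U A : Type} [Fintype U] [Fintype A]
    (N : ((U → A) → ℝ) → (U → A) → ℝ)
    (hlin : ∀ (J : Finset (Finset U)) (c : Finset U → ℝ) (g : Finset U → (U → A) → ℝ) (x : U → A),
      N (fun x => ∑ T ∈ J, c T * g T x) x = ∑ T ∈ J, c T * N (g T) x)
    (hcd : ∀ f S x, N (cd f S) x = cd (N f) S x)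
    (J : Finset U) (f : (U → A) → ℝ) : NJ J (N f) = N (NJ J f) := by
  funext x
  have h1 : NJ J f = fun x => ∑ T ∈ J.powerset, (1 / 2 ^ J.card) * cd f (univ \ T) x := by
    funext y
    unfold NJ
    rw [← mul_sum]
    ring
  rw [h1, hlin]
  unfold NJ
  rw [sum_div]
  refine sum_congr rfl fun T _ => ?_
  rw [hcd]
  ring

private theorem S19_LJ {U A : Type} [Fintype U] [Fintype A]
    (N : ((U → A) → ℝ) → (U → A) → ℝ)
    (hlin : ∀ (J : Finset (Finset U)) (c : Finset U → ℝ) (g : Finset U → (U → A) → ℝ) (x : U → A),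
      N (fun x => ∑ T ∈ J, c T * g T x) x = ∑ T ∈ J, c T * N (g T) x)
    (hcd : ∀ f S x, N (cd f S) x = cd (N f) S x)
    (J : Finset U) (f : (U → A) → ℝ) : LJ J (N f) = N (LJ J f) := by
  funext x
  have h1 : LJ J f = fun x => ∑ T ∈ J.powerset, (-1) ^ T.card * cd f (univ \ T) x := rfl
  rw [h1, hlin]
  unfold LJ
  refine sum_congr rfl fun T _ => ?_
  rw [hcd]

private theorem S19_inst {X : Type} (i1 i2 : Fintype X) (f : X → ℝ) :
    @avg X i1 f = @avg X i2 f := by
  rw [Subsingleton.elim i1 i2]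

private theorem S19_cd_nonneg {U A : Type} [Fintype U] [Fintype A] (f : (U → A) → ℝ)
    (h : ∀ x, 0 ≤ f x) (S : Finset U) (x : U → A) : 0 ≤ cd f S x := avg_nonneg fun _ => h _

private theorem S19_real {X B C s4 t : ℝ} (hX : 0 ≤ X) (hB : 0 ≤ B) (hXC : X ≤ C)
    (hs4 : 1 ≤ s4) (ht : 0 ≤ t) :
    s4 ^ 2 * (2 * B * (X / s4) ^ (1 + t)) ≤ 2 * s4 * B * C ^ (1 + t) := by
  have hs0 : 0 < s4 := by linarith
  have h1 : (X / s4) ^ (1 + t) ≤ C ^ (1 + t) / s4 := by
    rw [Real.div_rpow hX hs0.le]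
    have h2 : X ^ (1 + t) ≤ C ^ (1 + t) := Real.rpow_le_rpow hX hXC (by linarith)
    have h3 : s4 ≤ s4 ^ (1 + t) := by
      calc s4 = s4 ^ (1 : ℝ) := (Real.rpow_one _).symm
        _ ≤ s4 ^ (1 + t) := Real.rpow_le_rpow_of_exponent_le hs4 (by linarith)
    have h4 : 0 ≤ C ^ (1 + t) := Real.rpow_nonneg (hX.trans hXC) _
    exact div_le_div₀ h4 h2 hs0 h3
  calc s4 ^ 2 * (2 * B * (X / s4) ^ (1 + t)) ≤ s4 ^ 2 * (2 * B * (C ^ (1 + t) / s4)) := by
        gcongr
    _ = 2 * s4 * B * C ^ (1 + t) := by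
        field_simp

/-- One term. Let `s = |S|`, `G = LJ S (NJ univ h)`, so `|G| ≤ 2^s` (`S07_bounds`, `NJ univ h ∈ [0,1]`) and
`LJ S (NJ univ (nz ν h)) = nz ν G` (`W06_nz`: `nz` is linear and commutes with `cd`). Let
`φ x = √(cd (G²) S x) ∈ [0, 2^s]`; it depends only on `S` (`EL.cd_dep`). By `S18_minkowski` the left side
is at most `avg (nz ν φ)^4 = 16^s avg (nz ν (φ / 2^s))^4`, by `S17_marks` at most
`16^s * 2 (b^s)^(θ/8) (4^(-s) avg φ²)^(1+θ/8) ≤ 2 * 4^s (b^s)^(θ/8) (avg φ²)^(1+θ/8)`, and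
`avg φ² = avg G² ≤ (1/3)^s / C(R, s)` by `S12_sym` (`avg h² ≤ 1`). -/
theorem S19_term {R D b : ℕ} [NeZero b] {ν θ : ℝ} (hν0 : 0 ≤ ν) (hν1 : ν ≤ 1 / 2)
    (hθ0 : 0 ≤ θ) (hθ1 : θ ≤ 1) (hθ : ((1 / 3 : ℝ) ^ θ) = (1 - 2 * ν) ^ 2)
    (h : Tup R D b → ℝ) (h0 : ∀ x, 0 ≤ h x) (h1 : ∀ x, h x ≤ 1)
    (hs : ∀ (π : Equiv.Perm (Fin R)) (x : Tup R D b), h (fun i => x (π i)) = h x)
    (S : Finset (Fin R)) :
    avg (fun x => cd (fun y => LJ S (NJ univ (nz ν h)) y ^ 2) S x ^ 2) ≤
      2 * 4 ^ S.card * ((b : ℝ) ^ S.card) ^ (θ / 8) *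
        ((1 / 3) ^ S.card / (R.choose S.card : ℝ)) ^ (1 + θ / 8) := by
  have hν : ν ≤ 1 := by linarith
  set s : ℕ := S.card with hsdef
  set G : Tup R D b → ℝ := LJ S (NJ univ h) with hG
  have hcomm : LJ S (NJ univ (nz ν h)) = nz ν G := by
    rw [S19_NJ (nz ν) (fun J c g x => S19_nz_sum ν J c g x)
        (fun f S x => (W06_nz hν0 hν).2.1 f S x),
      S19_LJ (nz ν) (fun J c g x => S19_nz_sum ν J c g x)
        (fun f S x => (W06_nz hν0 hν).2.1 f S x)]
  -- bounds of G
  have hN := (S07_bounds h univ).2.1 0 1 h0 h1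
  have hGb : ∀ x, |G x| ≤ 2 ^ s := by
    intro x
    have h2 := (S07_bounds (NJ univ h) S).1 1
      (fun y => abs_le.2 ⟨by linarith [(hN y).1], (hN y).2⟩) x
    rw [mul_one] at h2
    exact h2
  have h4s : ((2 : ℝ) ^ s) ^ 2 = 4 ^ s := by
    rw [← pow_mul, mul_comm, pow_mul]
    norm_num
  have hG2 : ∀ x, G x ^ 2 ≤ 4 ^ s := by
    intro x
    rw [← h4s, ← sq_abs]
    exact pow_le_pow_left₀ (abs_nonneg _) (hGb x) 2
  set c : Tup R D b → ℝ := cd (fun y => G y ^ 2) S with hc
  have hcb := (S07_bounds (fun y => G y ^ 2) S).2.2.1 S 0 (4 ^ s) (fun x => sq_nonneg _) hG2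
  set φ : Tup R D b → ℝ := fun x => Real.sqrt (c x) with hφ
  set ψ : Tup R D b → ℝ := fun x => φ x / 2 ^ s with hψ
  have h2s : (0 : ℝ) < 2 ^ s := by positivity
  have hψ0 : ∀ x, 0 ≤ ψ x := fun x => div_nonneg (Real.sqrt_nonneg _) h2s.le
  have hψ1 : ∀ x, ψ x ≤ 1 := by
    intro x
    rw [hψ]
    simp only
    rw [div_le_one h2s, hφ]
    simp only
    rw [Real.sqrt_le_left h2s.le, h4s]
    exact (hcb x).2
  have hψS : DepOn S ψ := by
    intro x y hxy
    simp only [hψ, hφ, hc]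
    rw [cd_dep (fun y => G y ^ 2) S x y hxy]
  -- Minkowski
  have hM : ∀ x, cd (fun y => LJ S (NJ univ (nz ν h)) y ^ 2) S x ^ 2 ≤
      (4 ^ s) ^ 2 * (nz ν ψ x ^ 4) := by
    intro x
    rw [hcomm]
    have h5 := S18_minkowski hν0 hν G S x
    have h6 : 0 ≤ cd (fun y => nz ν G y ^ 2) S x :=
      S19_cd_nonneg _ (fun y => sq_nonneg _) S x
    have h7 : nz ν φ x = 2 ^ s * nz ν ψ x := by
      unfold nz
      rw [mul_sum]
      refine sum_congr rfl fun z _ => ?_
      simp only [hψ]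
      field_simp
    calc cd (fun y => nz ν G y ^ 2) S x ^ 2 ≤ ((nz ν φ x) ^ 2) ^ 2 :=
          pow_le_pow_left₀ h6 h5 2
      _ = (4 ^ s) ^ 2 * (nz ν ψ x ^ 4) := by
          rw [h7, ← h4s]
          ring
  have hav : avg (fun x => ψ x ^ 2) = avg (fun x => G x ^ 2) / 4 ^ s := by
    have h8 : (fun x => ψ x ^ 2) = fun x => (1 / 4 ^ s) * c x := by
      funext x
      simp only [hψ, hφ]
      rw [div_pow, Real.sq_sqrt (hcb x).1, h4s]
      ring
    have h9 : avg c = avg (fun x => G x ^ 2) :=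
      (S19_inst _ _ _).trans ((avg_cd (fun y => G y ^ 2) S).trans (S19_inst _ _ _))
    rw [h8, avg_const_mul, h9]
    ring
  have hX0 : 0 ≤ avg (fun x => G x ^ 2) := avg_nonneg fun x => sq_nonneg _
  have hh2 : avg (fun x => h x ^ 2) ≤ 1 := by
    have : Nonempty (Tup R D b) := inferInstance
    calc avg (fun x => h x ^ 2) ≤ avg (fun _ : Tup R D b => (1 : ℝ)) :=
          avg_mono fun x => pow_le_one₀ (h0 x) (h1 x)
      _ = 1 := avg_const 1
  have hXC : avg (fun x => G x ^ 2) ≤ (1 / 3) ^ s / (R.choose s : ℝ) := by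
    have h9' := S12_sym h hs S
    rw [Fintype.card_fin, ← hG] at h9'
    have h9 : (R.choose s : ℝ) * avg (fun x => G x ^ 2) ≤
        (1 / 3) ^ S.card * avg (fun x => h x ^ 2) := by
      convert h9' using 2 <;> exact S19_inst _ _ _
    have h10 : (0 : ℝ) < R.choose s := by
      have : s ≤ R := by
        have := card_le_univ S
        rwa [Fintype.card_fin] at this
      exact_mod_cast Nat.choose_pos this
    rw [le_div_iff₀ h10, mul_comm]
    refine h9.trans ?_
    have : (0 : ℝ) ≤ (1 / 3) ^ S.card := by positivity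
    calc (1 / 3 : ℝ) ^ S.card * avg (fun x => h x ^ 2) ≤ (1 / 3) ^ S.card * 1 :=
          mul_le_mul_of_nonneg_left hh2 this
      _ = (1 / 3) ^ s := mul_one _
  calc avg (fun x => cd (fun y => LJ S (NJ univ (nz ν h)) y ^ 2) S x ^ 2)
      ≤ avg (fun x => (4 ^ s) ^ 2 * (nz ν ψ x ^ 4)) := avg_mono hM
    _ = (4 ^ s) ^ 2 * avg (fun x => nz ν ψ x ^ 4) := avg_const_mul _ _
    _ ≤ (4 ^ s) ^ 2 * (2 * ((b : ℝ) ^ s) ^ (θ / 8) * avg (fun x => ψ x ^ 2) ^ (1 + θ / 8)) :=
        mul_le_mul_of_nonneg_left (S17_marks hν0 hν1 hθ0 hθ1 hθ S ψ hψ0 hψ1 hψS) (by positivity)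
    _ ≤ 2 * 4 ^ s * ((b : ℝ) ^ s) ^ (θ / 8) *
        ((1 / 3) ^ s / (R.choose s : ℝ)) ^ (1 + θ / 8) := by
        rw [hav]
        exact S19_real hX0 (by positivity) hXC (one_le_pow₀ (by norm_num)) (by positivity)

end Pool.Agent.Lib.MP_8d8c46_lc.Gap
end

section

set_option autoImplicit false

open Finset
open scoped Classical

namespace Pool.Agent.Lib.MP_8d8c46_lc.Gap

open Pool.Agent.Lib.MP_8d8c46_lc Pool.Agent.Lib.MP_8d8c46_lc.SDP Pool.Agent.Lib.MP_8d8c46_lc.EL

private theorem S20_choose : ∀ {R s : ℕ}, 1 ≤ s → s < R → R ≤ R.choose s := by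
  intro R
  induction R with
  | zero => intro s _ h; omega
  | succ R ih =>
    intro s h1 h2
    obtain ⟨t, rfl⟩ : ∃ t, s = t + 1 := ⟨s - 1, by omega⟩
    rw [Nat.choose_succ_succ']
    rcases Nat.eq_zero_or_pos t with h0 | h0
    · subst h0
      rw [Nat.choose_zero_right]
      have h4 : R.choose (0 + 1) = R := Nat.choose_one_right R
      omega
    · have := ih h0 (by omega)
      have h3 : 0 < R.choose (t + 1) := Nat.choose_pos (by omega)
      omega

private theorem S20_geo (R : ℕ) : ∑ s ∈ Icc 1 R, (1 / 2 : ℝ) ^ s = 1 - (1 / 2 : ℝ) ^ R := by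
  induction R with
  | zero => simp
  | succ R ih =>
    rw [Finset.sum_Icc_succ_top (by omega), ih, pow_succ]
    ring

/-- For `1 ≤ s ≤ R - 1` one has `C(R, s) ≥ R`, so the sum is at most
`2 (R^(-θ/8) ∑ s ≥ 1, (1/2)^s + (1/2)^R) ≤ 2 R^(-θ/8) + 2 (1/2)^R → 0`. -/
theorem S20_num {θ β : ℝ} (hθ : 0 < θ) (hβ : 0 < β) :
    ∃ R₀ : ℕ, 1 ≤ R₀ ∧ ∀ R ≥ R₀,
      2 * ∑ s ∈ Icc 1 R, (1 / 2 : ℝ) ^ s * ((R.choose s : ℝ) ^ (-(θ / 8))) ≤ β := by
  have h8 : 0 < θ / 8 := by linarith
  have hlim1 : Filter.Tendsto (fun R : ℕ => (R : ℝ) ^ (-(θ / 8))) Filter.atTop (nhds 0) :=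
    (tendsto_rpow_neg_atTop h8).comp tendsto_natCast_atTop_atTop
  have hlim2 : Filter.Tendsto (fun R : ℕ => (1 / 2 : ℝ) ^ R) Filter.atTop (nhds 0) :=
    tendsto_pow_atTop_nhds_zero_of_lt_one (by norm_num) (by norm_num)
  have hβ4 : (0 : ℝ) < β / 4 := by linarith
  obtain ⟨R₁, hR₁⟩ := Filter.eventually_atTop.mp (hlim1.eventually (ge_mem_nhds hβ4))
  obtain ⟨R₂, hR₂⟩ := Filter.eventually_atTop.mp (hlim2.eventually (ge_mem_nhds hβ4))
  refine ⟨max 1 (max R₁ R₂), le_max_left _ _, ?_⟩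
  intro R hR
  have hR1 : 1 ≤ R := le_trans (le_max_left _ _) hR
  have h1 := hR₁ R (le_trans (le_trans (le_max_left _ _) (le_max_right _ _)) hR)
  have h2 := hR₂ R (le_trans (le_trans (le_max_right _ _) (le_max_right _ _)) hR)
  have hterm : ∀ s ∈ Icc 1 R, (1 / 2 : ℝ) ^ s * ((R.choose s : ℝ) ^ (-(θ / 8)))
      ≤ (1 / 2 : ℝ) ^ s * (R : ℝ) ^ (-(θ / 8)) + (if s = R then (1 / 2 : ℝ) ^ R else 0) := by
    intro s hs
    rw [mem_Icc] at hs
    have hRpos : (0 : ℝ) < R := by exact_mod_cast hR1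
    by_cases hsR : s = R
    · subst hsR
      rw [if_pos rfl, Nat.choose_self, Nat.cast_one, Real.one_rpow, mul_one]
      have : 0 ≤ (1 / 2 : ℝ) ^ s * (s : ℝ) ^ (-(θ / 8)) := by positivity
      linarith
    · rw [if_neg hsR, add_zero]
      refine mul_le_mul_of_nonneg_left ?_ (by positivity)
      refine Real.rpow_le_rpow_of_nonpos hRpos ?_ (by linarith)
      exact_mod_cast S20_choose hs.1 (lt_of_le_of_ne hs.2 hsR)
  have hgeo : ∑ s ∈ Icc 1 R, (1 / 2 : ℝ) ^ s ≤ 1 := by
    have := S20_geo R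
    have hp : (0 : ℝ) < (1 / 2 : ℝ) ^ R := by positivity
    linarith
  have hsum := Finset.sum_le_sum hterm
  rw [Finset.sum_add_distrib, ← Finset.sum_mul, Finset.sum_ite_eq' (Icc 1 R) R,
    if_pos (mem_Icc.mpr ⟨hR1, le_rfl⟩)] at hsum
  have hx : 0 ≤ (R : ℝ) ^ (-(θ / 8)) := by positivity
  have hm : (∑ s ∈ Icc 1 R, (1 / 2 : ℝ) ^ s) * (R : ℝ) ^ (-(θ / 8)) ≤ 1 * (R : ℝ) ^ (-(θ / 8)) :=
    mul_le_mul_of_nonneg_right hgeo hx
  linarith

end Pool.Agent.Lib.MP_8d8c46_lc.Gap
end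

section

set_option autoImplicit false

open Finset
open scoped Classical

namespace Pool.Agent.Lib.MP_8d8c46_lc.Gap

open Pool.Agent.Lib.MP_8d8c46_lc Pool.Agent.Lib.MP_8d8c46_lc.SDP Pool.Agent.Lib.MP_8d8c46_lc.EL

/-- Power means: with `w T = nr g T ≥ 0`, `W = ∑ w ≤ avg g²` (`EL.bessel`),
`(∑ ρ^|T| w T)^M ≤ W^(M-1) ∑ (ρ^|T|)^M w T` (`inner_le_nnorm_mul_nnorm`, or
`Real.pow_arith_mean_le_arith_mean_pow`, or `Finset.inner_le_Lp_mul_Lq`; `W = 0` is trivial) and
`(ρ^|T|)^M = (ρ^M)^|T| ≤ (1/4)^|T|`. -/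
theorem S22_power {U A : Type} [Fintype U] [Fintype A] [Nonempty A] (g : (U → A) → ℝ) {ρ : ℝ}
    (hρ0 : 0 ≤ ρ) {M : ℕ} (hM : 1 ≤ M) (hρ : ρ ^ M ≤ 1 / 4) :
    (∑ T : Finset U, ρ ^ T.card * nr g T) ^ M ≤
      avg (fun x => g x ^ 2) ^ (M - 1) * ∑ T : Finset U, (1 / 4) ^ T.card * nr g T := by
  have hw : ∀ T : Finset U, 0 ≤ nr g T := fun T => nr_nonneg g T
  have hW : ∑ T : Finset U, nr g T ≤ avg (fun x => g x ^ 2) := bessel g univ
  have hW0 : 0 ≤ ∑ T : Finset U, nr g T := sum_nonneg fun T _ => hw T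
  have hS0 : 0 ≤ ∑ T : Finset U, (1 / 4 : ℝ) ^ T.card * nr g T :=
    sum_nonneg fun T _ => mul_nonneg (by positivity) (hw T)
  rcases eq_or_lt_of_le hW0 with h0 | h0
  · have h1 : ∀ T : Finset U, nr g T = 0 := by
      intro T
      exact (sum_eq_zero_iff_of_nonneg fun T _ => hw T).1 h0.symm T (mem_univ T)
    have h2 : ∑ T : Finset U, ρ ^ T.card * nr g T = 0 :=
      sum_eq_zero fun T _ => by rw [h1, mul_zero]
    have h3 : ∑ T : Finset U, (1 / 4 : ℝ) ^ T.card * nr g T = 0 :=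
      sum_eq_zero fun T _ => by rw [h1, mul_zero]
    rw [h2, h3, mul_zero, zero_pow (by omega)]
  · set W : ℝ := ∑ T : Finset U, nr g T with hWdef
    have h1 := Real.pow_arith_mean_le_arith_mean_pow univ (fun T : Finset U => nr g T / W)
      (fun T => ρ ^ T.card) (fun T _ => div_nonneg (hw T) hW0)
      (by rw [← sum_div, div_self h0.ne']) (fun T _ => pow_nonneg hρ0 _) M
    have h2 : ∑ T : Finset U, nr g T / W * ρ ^ T.card =
        (∑ T : Finset U, ρ ^ T.card * nr g T) / W := by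
      rw [sum_div]
      exact sum_congr rfl fun T _ => by ring
    have h3 : ∑ T : Finset U, nr g T / W * (ρ ^ T.card) ^ M ≤
        (∑ T : Finset U, (1 / 4 : ℝ) ^ T.card * nr g T) / W := by
      rw [sum_div]
      refine sum_le_sum fun T _ => ?_
      have h4 : (ρ ^ T.card) ^ M ≤ (1 / 4 : ℝ) ^ T.card := by
        rw [← pow_mul, mul_comm, pow_mul]
        exact pow_le_pow_left₀ (pow_nonneg hρ0 _) hρ _
      calc nr g T / W * (ρ ^ T.card) ^ M ≤ nr g T / W * (1 / 4 : ℝ) ^ T.card :=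
            mul_le_mul_of_nonneg_left h4 (div_nonneg (hw T) hW0)
        _ = (1 / 4 : ℝ) ^ T.card * nr g T / W := by ring
    rw [h2] at h1
    have h5 := h1.trans h3
    rw [div_pow, div_le_div_iff₀ (pow_pos h0 _) h0] at h5
    obtain ⟨m, rfl⟩ : ∃ m, M = m + 1 := ⟨M - 1, by omega⟩
    rw [Nat.add_sub_cancel]
    have h6 : (∑ T : Finset U, ρ ^ T.card * nr g T) ^ (m + 1) ≤
        W ^ m * ∑ T : Finset U, (1 / 4 : ℝ) ^ T.card * nr g T := by
      have h7 : (∑ T : Finset U, ρ ^ T.card * nr g T) ^ (m + 1) * W ≤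
          (W ^ m * ∑ T : Finset U, (1 / 4 : ℝ) ^ T.card * nr g T) * W := by
        refine h5.trans (le_of_eq ?_)
        rw [pow_succ]
        ring
      exact le_of_mul_le_mul_right h7 h0
    refine h6.trans (mul_le_mul_of_nonneg_right ?_ hS0)
    exact pow_le_pow_left₀ hW0 hW m

end Pool.Agent.Lib.MP_8d8c46_lc.Gap
end

section

set_option autoImplicit false

open Finset
open scoped Classical

namespace Pool.Agent.Lib.MP_8d8c46_lc.Gap

open Pool.Agent.Lib.MP_8d8c46_lc Pool.Agent.Lib.MP_8d8c46_lc.SDP Pool.Agent.Lib.MP_8d8c46_lc.EL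

/-- the operator with a product kernel -/
private noncomputable def W05_op {R : ℕ} {A : Type} [Fintype A] (k : Fin R → A → A → ℝ)
    (h : (Fin R → A) → ℝ) (ω : Fin R → A) : ℝ := ∑ ω', (∏ i, k i (ω i) (ω' i)) * h ω'

private lemma W05_comp {R : ℕ} {A : Type} [Fintype A] (k l : Fin R → A → A → ℝ)
    (h : (Fin R → A) → ℝ) (ω : Fin R → A) :
    W05_op k (W05_op l h) ω = W05_op (fun i p q => ∑ r, k i p r * l i r q) h ω := by
  unfold W05_op
  simp only [Finset.mul_sum]
  rw [Finset.sum_comm]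
  apply Finset.sum_congr rfl
  intro ω' _
  rw [Fintype.prod_sum, Finset.sum_mul]
  apply Finset.sum_congr rfl
  intro ρ _
  rw [Finset.prod_mul_distrib]
  ring

/-- an operator that evaluates at moved points -/
private lemma W05_eval {R : ℕ} {A B : Type} [Fintype A] [Fintype B] (g : Fin R → B → A → A)
    (w : Fin R → B → ℝ) (h : (Fin R → A) → ℝ) (ω : Fin R → A) :
    ∑ z : Fin R → B, (∏ i, w i (z i)) * h (fun i => g i (z i) (ω i)) =
      W05_op (fun i p q => ∑ z, w i z * if g i z p = q then 1 else 0) h ω := by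
  unfold W05_op
  have h1 : ∀ z : Fin R → B, (∏ i, w i (z i)) * h (fun i => g i (z i) (ω i)) =
      ∑ ω', (∏ i, (w i (z i) * if g i (z i) (ω i) = ω' i then 1 else 0)) * h ω' := by
    intro z
    rw [Finset.sum_eq_single (fun i => g i (z i) (ω i))]
    · congr 1
      apply Finset.prod_congr rfl
      intro i _
      rw [if_pos rfl, mul_one]
    · intro ω' _ hne
      obtain ⟨i, hi⟩ : ∃ i, g i (z i) (ω i) ≠ ω' i := by
        by_contra hcon
        push Not at hcon
        exact hne (funext fun i => (hcon i).symm)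
      rw [Finset.prod_eq_zero (Finset.mem_univ i), zero_mul]
      rw [if_neg hi, mul_zero]
    · intro hcon
      exact absurd (Finset.mem_univ _) hcon
  simp only [h1]
  rw [Finset.sum_comm]
  apply Finset.sum_congr rfl
  intro ω' _
  rw [← Finset.sum_mul, Fintype.prod_sum]

/-- the kernel of the average -/
private noncomputable def W05_k {R : ℕ} {A : Type} [Fintype A] (S : Finset (Fin R)) (i : Fin R)
    (p q : A) : ℝ := if i ∈ S then (if p = q then 1 else 0) else 1 / (Fintype.card A : ℝ)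

private lemma W05_ksum {R : ℕ} {A : Type} [Fintype A] (S : Finset (Fin R)) (i : Fin R)
    (F : A → ℝ) (q : A) :
    ∑ r, F r * W05_k S i r q = if i ∈ S then F q else (∑ r, F r) * (1 / (Fintype.card A : ℝ)) := by
  unfold W05_k
  by_cases hi : i ∈ S
  · simp only [if_pos hi]
    rw [Finset.sum_eq_single q]
    · rw [if_pos rfl, mul_one]
    · intro r _ hr
      rw [if_neg hr, mul_zero]
    · intro hcon
      exact absurd (Finset.mem_univ _) hcon
  · simp only [if_neg hi]
    rw [← Finset.sum_mul]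

private lemma W05_cd {R : ℕ} {A : Type} [Fintype A] [Nonempty A] (S : Finset (Fin R))
    (h : (Fin R → A) → ℝ) (ω : Fin R → A) :
    cd h S ω = W05_op (W05_k S) h ω := by
  have hA : (0:ℝ) < Fintype.card A := by exact_mod_cast Fintype.card_pos
  have h1 := W05_eval (fun (i : Fin R) (b a : A) => if i ∈ S then a else b)
    (fun _ _ => 1 / (Fintype.card A : ℝ)) h ω
  have h2 : cd h S ω = ∑ z : Fin R → A, (∏ _i : Fin R, 1 / (Fintype.card A : ℝ)) *
      h (fun i => if i ∈ S then ω i else z i) := by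
    rw [← Finset.mul_sum, Finset.prod_const, Finset.card_univ, one_div_pow, Fintype.card_fin,
      mul_comm, mul_one_div]
    unfold cd avg
    have e1 : ∀ F : (Fin R → A) → ℝ, (@Finset.sum (Fin R → A) ℝ _
        (@Finset.univ (Fin R → A) (@Pi.instFintype (Fin R) (fun _ => A)
          (fun a b => Classical.propDecidable (a = b)) (Fin.fintype R) fun _ => inferInstance)) F) =
        ∑ z : Fin R → A, F z := by
      intro F
      apply Finset.sum_congr _ (fun _ _ => rfl)
      ext z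
      simp only [Finset.mem_univ]
    have e2 : (@Fintype.card (Fin R → A) (@Pi.instFintype (Fin R) (fun _ => A)
          (fun a b => Classical.propDecidable (a = b)) (Fin.fintype R)
            fun _ => inferInstance)) = Fintype.card A ^ R := by
      exact (@Fintype.card_fun (Fin R) A (fun a b => Classical.propDecidable (a = b))
        (Fin.fintype R) _).trans (by rw [Fintype.card_fin])
    rw [e1, e2]
    push_cast
    congr 1
    apply Finset.sum_congr rfl
    intro z _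
    congr 1
    funext i
    unfold mx
    by_cases hi : i ∈ S
    · rw [if_pos hi, if_pos hi]
    · rw [if_neg hi, if_neg hi]
  rw [h2, h1]
  congr 1
  funext i p q
  unfold W05_k
  by_cases hi : i ∈ S
  · simp only [if_pos hi]
    rw [Finset.sum_const, Finset.card_univ, nsmul_eq_mul, ← mul_assoc]
    rw [mul_one_div, div_self hA.ne', one_mul]
  · simp only [if_neg hi]
    rw [Finset.sum_eq_single q]
    · rw [if_pos rfl, mul_one]
    · intro b _ hb
      rw [if_neg hb, mul_zero]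
    · intro hcon
      exact absurd (Finset.mem_univ _) hcon

private lemma W05_add {D : ℕ} (x y : Cube D) : x + (x + y) = y := by
  rw [← add_assoc]
  have h : x + x = 0 := by
    funext i
    exact CharTwo.add_self_eq_zero (x i)
  rw [h, zero_add]

private lemma W05_nz {R D b : ℕ} [NeZero b] (ν : ℝ) (h : Tup R D b → ℝ) (ω : Tup R D b) :
    nz ν h ω = W05_op (fun _ p q => if p.2 = q.2 then bw ν (p.1 + q.1) else 0) h ω := by
  have h1 := W05_eval (fun (_ : Fin R) (z : Cube D) (a : Cube D × ZMod b) => (a.1 + z, a.2))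
    (fun _ z => bw ν z) h ω
  unfold nz
  rw [h1]
  congr 1
  funext i p q
  by_cases hpq : p.2 = q.2
  · rw [if_pos hpq, Finset.sum_eq_single (p.1 + q.1)]
    · rw [if_pos, mul_one]
      rw [W05_add, hpq]
    · intro z _ hz
      rw [if_neg, mul_zero]
      intro hcon
      apply hz
      rw [← hcon]
      exact (W05_add p.1 z).symm
    · intro hcon
      exact absurd (Finset.mem_univ _) hcon
  · rw [if_neg hpq]
    apply Finset.sum_eq_zero
    intro z _
    rw [if_neg, mul_zero]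
    intro hcon
    apply hpq
    rw [← hcon]

/-- the kernel of two steps of noise in one coordinate -/
private noncomputable def W05_t {D b : ℕ} (ν : ℝ) (p q : Cube D × ZMod b) : ℝ :=
  if p.2 = q.2 then ∑ z, bw ν z * bw ν (p.1 + q.1 + z) else 0

private lemma W05_tt {D b : ℕ} [NeZero b] (ν : ℝ) (p q : Cube D × ZMod b) :
    ∑ r : Cube D × ZMod b, (if p.2 = r.2 then bw ν (p.1 + r.1) else 0) *
      (if r.2 = q.2 then bw ν (r.1 + q.1) else 0) = W05_t ν p q := by
  rw [Fintype.sum_prod_type]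
  have h1 : ∀ y : Cube D, ∑ m : ZMod b, (if p.2 = m then bw ν (p.1 + y) else 0) *
      (if m = q.2 then bw ν (y + q.1) else 0) =
      if p.2 = q.2 then bw ν (p.1 + y) * bw ν (y + q.1) else 0 := by
    intro y
    rw [Finset.sum_eq_single p.2]
    · rw [if_pos rfl]
      by_cases h : p.2 = q.2
      · rw [if_pos h, if_pos h]
      · rw [if_neg h, if_neg h, mul_zero]
    · intro m _ hm
      rw [if_neg (Ne.symm hm), zero_mul]
    · intro hcon
      exact absurd (Finset.mem_univ _) hcon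
  simp only [h1]
  unfold W05_t
  by_cases h : p.2 = q.2
  · simp only [if_pos h]
    refine Fintype.sum_equiv (Equiv.addLeft p.1) _ _ ?_
    intro y
    show bw ν (p.1 + y) * bw ν (y + q.1) = bw ν (p.1 + y) * bw ν (p.1 + q.1 + (p.1 + y))
    congr 2
    have h2 : p.1 + q.1 + (p.1 + y) = p.1 + (p.1 + (y + q.1)) := by
      abel
    rw [h2, W05_add]
  · simp only [if_neg h, Finset.sum_const_zero]

private lemma W05_tsum {D b : ℕ} [NeZero b] {ν : ℝ} (hν0 : 0 ≤ ν) (hν1 : ν ≤ 1)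
    (p : Cube D × ZMod b) : ∑ q : Cube D × ZMod b, W05_t ν p q = 1 := by
  obtain ⟨-, hs, -⟩ := Z1_sums (D := D) hν0 hν1
  unfold W05_t
  rw [Fintype.sum_prod_type]
  have h1 : ∀ y : Cube D, ∑ m : ZMod b, (if p.2 = m then ∑ z, bw ν z * bw ν (p.1 + y + z) else 0) =
      ∑ z, bw ν z * bw ν (p.1 + y + z) := by
    intro y
    rw [Finset.sum_eq_single p.2]
    · rw [if_pos rfl]
    · intro m _ hm
      rw [if_neg (Ne.symm hm)]
    · intro hcon
      exact absurd (Finset.mem_univ _) hcon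
  simp only [h1]
  rw [Finset.sum_comm]
  have h2 : ∀ z : Cube D, ∑ y : Cube D, bw ν z * bw ν (p.1 + y + z) = bw ν z := by
    intro z
    rw [← Finset.mul_sum]
    have h3 : ∑ y : Cube D, bw ν (p.1 + y + z) = 1 := by
      rw [← hs]
      refine Fintype.sum_equiv (Equiv.addLeft (p.1 + z)) _ _ ?_
      intro y
      show bw ν (p.1 + y + z) = bw ν (p.1 + z + y)
      congr 1
      abel
    rw [h3, mul_one]
  simp only [h2]
  exact hs

private lemma W05_rhs {R D b : ℕ} [NeZero b] {ν : ℝ} (hν0 : 0 ≤ ν) (hν1 : ν ≤ 1)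
    (S : Finset (Fin R)) (h : Tup R D b → ℝ) (ω : Tup R D b) :
    nz ν (nz ν (cd h S)) ω = W05_op (fun i p q => if i ∈ S then W05_t ν p q else
      1 / ((2:ℝ) ^ D * b)) h ω := by
  have h1 : nz ν (cd h S) = W05_op (fun _ p q => if p.2 = q.2 then bw ν (p.1 + q.1) else 0)
      (W05_op (W05_k S) h) := by
    funext ω'
    rw [W05_nz]
    congr 1
    funext ω''
    exact W05_cd S h ω''
  rw [W05_nz, h1, W05_comp, W05_comp]
  congr 1
  have hcard : (Fintype.card (Cube D × ZMod b) : ℝ) = 2 ^ D * b := by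
    rw [Fintype.card_prod, Fintype.card_fun, ZMod.card, ZMod.card, Fintype.card_fin]
    push_cast
    rfl
  funext i p q
  simp only [W05_tt]
  rw [W05_ksum]
  by_cases hi : i ∈ S
  · rw [if_pos hi, if_pos hi]
  · rw [if_neg hi, if_neg hi, W05_tsum hν0 hν1, one_mul, hcard]

/-- Expand the product over the coordinates. `WW ω ω' = ∏ i, (c / (2^D b) + (1-c) t (ω i) (ω' i))`,
`t p q = if p.2 = q.2 then ∑ z, bw ν z * bw ν (p.1 + q.1 + z) else 0`; by `Finset.prod_add` this is
`∑ S, (1-c)^|S| (c / (2^D b))^(R - |S|) ∏ i ∈ S, t (ω i) (ω' i)` (`Finset.prod_add` gives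
`∑ S ⊆ univ, (∏ i ∈ S, ..) * ∏ i ∈ univ \ S, ..`). For fixed `S`,
`(2^D b)^(-(R-|S|)) ∑ ω', (∏ i ∈ S, t (ω i) (ω' i)) h ω' = nz ν (nz ν (cd h S)) ω`: the right side is
`∑ z, ∑ z', ∏ i, bw (z i) bw (z' i) * avg (fun y => h (mx S (ω + z + z') y))`, in which the sums over
`z i, z' i`, `i ∉ S`, are `1` (`Z1_sums`), and for `i ∈ S` one substitutes
`(ω' i).1 = (ω i).1 + z i + z' i`. (A convenient way: both sides are linear in `h`, so take
`h ω' = ∏ i, h i (ω' i)`, e.g. an indicator function of a point, for which everything is a product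
over `i`.) -/
theorem W05_expand {R D b : ℕ} [NeZero b] {ν : ℝ} (hν0 : 0 ≤ ν) (hν1 : ν ≤ 1) (c : ℝ)
    (h : Tup R D b → ℝ) (ω : Tup R D b) :
    ∑ ω', WW c ν ω ω' * h ω' =
      ∑ S : Finset (Fin R), (1 - c) ^ S.card * c ^ (R - S.card) * nz ν (nz ν (cd h S)) ω := by
  simp only [W05_rhs hν0 hν1]
  unfold W05_op
  simp only [Finset.mul_sum]
  rw [Finset.sum_comm]
  apply Finset.sum_congr rfl
  intro ω' _
  have h1 : WW c ν ω ω' = ∏ i, ((1 - c) * W05_t ν (ω i) (ω' i) + c / ((2:ℝ) ^ D * b)) := by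
    unfold WW w1 W05_t
    apply Finset.prod_congr rfl
    intro i _
    rw [add_comm]
  rw [h1, Finset.prod_add, Finset.sum_mul, Finset.powerset_univ]
  apply Finset.sum_congr rfl
  intro S _
  have h2 : (∏ i, if i ∈ S then W05_t ν (ω i) (ω' i) else 1 / ((2:ℝ) ^ D * b)) =
      (∏ i ∈ S, W05_t ν (ω i) (ω' i)) * (1 / ((2:ℝ) ^ D * b)) ^ (R - S.card) := by
    have h3 := Finset.prod_piecewise (univ : Finset (Fin R)) S
      (fun i => W05_t ν (ω i) (ω' i)) (fun _ => 1 / ((2:ℝ) ^ D * b))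
    rw [Finset.univ_inter, Finset.prod_const, Finset.card_sdiff_of_subset (Finset.subset_univ S),
      Finset.card_univ, Fintype.card_fin] at h3
    rw [← h3]
    rfl
  rw [h2, Finset.prod_mul_distrib, Finset.prod_const, Finset.prod_const,
    Finset.card_sdiff_of_subset (Finset.subset_univ S), Finset.card_univ, Fintype.card_fin]
  have h4 : (c / ((2:ℝ) ^ D * b)) ^ (R - S.card) =
      c ^ (R - S.card) * (1 / ((2:ℝ) ^ D * b)) ^ (R - S.card) := by
    rw [← mul_pow, mul_one_div]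
  rw [h4]
  ring

end Pool.Agent.Lib.MP_8d8c46_lc.Gap
end

section

set_option autoImplicit false

open Finset
open scoped Classical

namespace Pool.Agent.Lib.MP_8d8c46_lc.Gap

open Pool.Agent.Lib.MP_8d8c46_lc Pool.Agent.Lib.MP_8d8c46_lc.SDP Pool.Agent.Lib.MP_8d8c46_lc.EL

private lemma S23_inst {α : Type} (i j : Fintype α) (f : α → ℝ) :
    (@Finset.sum α ℝ _ (@Finset.univ α i) f) / (@Fintype.card α i : ℝ) = @avg α j f := by
  rw [Subsingleton.elim i j]
  rfl

theorem S23_coef {R : ℕ} (c : ℝ) (T : Finset (Fin R)) :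
    ∑ S ∈ (univ : Finset (Finset (Fin R))).filter (fun S => T ⊆ S),
      (1 - c) ^ S.card * c ^ (R - S.card) = (1 - c) ^ T.card := by
  have h1 : ∑ S ∈ (univ : Finset (Finset (Fin R))).filter (fun S => T ⊆ S),
      (1 - c) ^ S.card * c ^ (R - S.card) =
      ∑ S' ∈ (univ \ T).powerset, (1 - c) ^ T.card *
        ((1 - c) ^ S'.card * c ^ ((univ \ T).card - S'.card)) := by
    refine Finset.sum_nbij' (fun S => S \ T) (fun S' => T ∪ S') ?_ ?_ ?_ ?_ ?_
    · intro S _
      rw [Finset.mem_powerset]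
      exact Finset.sdiff_subset_sdiff (Finset.subset_univ _) (Finset.Subset.refl _)
    · intro S' _
      exact Finset.mem_filter.2 ⟨Finset.mem_univ _, Finset.subset_union_left⟩
    · intro S hS
      have hS' := (Finset.mem_filter.1 hS).2
      exact Finset.union_sdiff_of_subset hS'
    · intro S' hS'
      have hd : Disjoint S' T := by
        rw [Finset.mem_powerset] at hS'
        exact Finset.disjoint_of_subset_left hS' Finset.sdiff_disjoint
      show (T ∪ S') \ T = S'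
      rw [Finset.union_sdiff_left]
      exact Finset.sdiff_eq_self_of_disjoint hd
    · intro S hS
      have hS' := (Finset.mem_filter.1 hS).2
      have hc : (S \ T).card + T.card = S.card := Finset.card_sdiff_add_card_eq_card hS'
      have hu : (univ \ T).card + T.card = R := by
        rw [Finset.card_sdiff_add_card_eq_card (Finset.subset_univ T), Finset.card_univ,
          Fintype.card_fin]
      have e1 : (univ \ T).card - (S \ T).card = R - S.card := by omega
      rw [e1, ← hc, pow_add]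
      ring
  rw [h1, ← Finset.mul_sum, Finset.sum_pow_mul_eq_add_pow]
  simp

/-- `W04_form`, then with `h = Sy f` by `W05_expand` the form is
`∑ S, (1-c)^|S| c^(R-|S|) ∑ ω, h ω * nz ν (nz ν (cd h S)) ω`, and by `W06_nz`
`∑ ω, h * nz (nz (cd h S)) = ∑ ω, nz h * cd (nz h) S`. By `S11_norms` `avg (g * cd g S) = ∑ T ⊆ S, nr g T`
(`g = nz ν h`), and the coefficient of `nr g T` is `∑ S ⊇ T, (1-c)^|S| c^(R-|S|) = (1-c)^|T|`
(write `S = T ∪ S'`, `S' ⊆ univ \ T`, `Finset.sum_pow_mul_eq_add_pow` or `Finset.prod_add`). -/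
theorem S23_form {R D b : ℕ} [NeZero b] {c ν : ℝ} (hν0 : 0 ≤ ν) (hν1 : ν ≤ 1)
    (f : Tup R D b → ℝ) :
    (∑ ω, f ω * ∑ ω', TT c ν ω ω' * f ω') / Fintype.card (Tup R D b) =
      ∑ T : Finset (Fin R), (1 - c) ^ T.card * nr (nz ν (Sy f)) T := by
  obtain ⟨hself, hcomm, -, -, -⟩ := W06_nz (R := R) (D := D) (b := b) hν0 hν1
  set h : Tup R D b → ℝ := Sy f with hh
  have h1 : ∑ ω, f ω * ∑ ω', TT c ν ω ω' * f ω' =
      ∑ S : Finset (Fin R), (1 - c) ^ S.card * c ^ (R - S.card) *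
        ∑ ω, nz ν h ω * cd (nz ν h) S ω := by
    rw [W04_form, ← hh]
    calc ∑ ω, h ω * ∑ ω', WW c ν ω ω' * h ω'
        = ∑ ω, ∑ S : Finset (Fin R), (1 - c) ^ S.card * c ^ (R - S.card) *
            (h ω * nz ν (nz ν (cd h S)) ω) := by
          refine Finset.sum_congr rfl fun ω _ => ?_
          rw [W05_expand hν0 hν1 c h ω, Finset.mul_sum]
          exact Finset.sum_congr rfl fun S _ => by ring
      _ = ∑ S : Finset (Fin R), ∑ ω, (1 - c) ^ S.card * c ^ (R - S.card) *
            (h ω * nz ν (nz ν (cd h S)) ω) := Finset.sum_comm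
      _ = _ := by
          refine Finset.sum_congr rfl fun S _ => ?_
          rw [← Finset.mul_sum, hself h (nz ν (cd h S))]
          congr 1
          exact Finset.sum_congr rfl fun ω _ => by rw [hcomm h S ω]
  rw [h1, Finset.sum_div]
  have h2 : ∀ S : Finset (Fin R), (1 - c) ^ S.card * c ^ (R - S.card) *
      (∑ ω, nz ν h ω * cd (nz ν h) S ω) / (Fintype.card (Tup R D b) : ℝ) =
      (1 - c) ^ S.card * c ^ (R - S.card) * ∑ T ∈ S.powerset, nr (nz ν h) T := by
    intro S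
    rw [← (S11_norms (nz ν h) S).2.2, mul_div_assoc]
    exact congrArg (fun t => (1 - c) ^ S.card * c ^ (R - S.card) * t) (S23_inst _ _ _)
  rw [Finset.sum_congr rfl fun S _ => h2 S]
  have h3 : ∀ S : Finset (Fin R), (1 - c) ^ S.card * c ^ (R - S.card) *
      ∑ T ∈ S.powerset, nr (nz ν h) T =
      ∑ T : Finset (Fin R), if T ⊆ S then
        (1 - c) ^ S.card * c ^ (R - S.card) * nr (nz ν h) T else 0 := by
    intro S
    rw [Finset.mul_sum, ← Finset.sum_filter]
    refine Finset.sum_congr ?_ fun _ _ => rfl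
    ext T
    rw [Finset.mem_powerset, Finset.mem_filter]
    exact ⟨fun h => ⟨Finset.mem_univ _, h⟩, fun h => h.2⟩
  rw [Finset.sum_congr rfl fun S _ => h3 S, Finset.sum_comm]
  refine Finset.sum_congr rfl fun T _ => ?_
  rw [← Finset.sum_filter, ← Finset.sum_mul, S23_coef]

end Pool.Agent.Lib.MP_8d8c46_lc.Gap
end
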