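import Pool.Agent.Lib.MP_8d8c46_lc.Mg.G002
import Pool.Agent.Lib.MP_8d8c46_lc.Mg.G004
import Pool.Agent.Lib.MP_8d8c46_lc.Mg.G003
import Pool.Agent.Lib.MP_8d8c46_lc.Mg.G005
import Pool.Agent.Lib.MP_8d8c46_lc.Mg.G006
import Pool.Agent.Lib.MP_8d8c46_lc.Mg.G008
import Pool.Agent.Lib.MP_8d8c46_lc.Mg.G009
import Pool.Agent.Lib.MP_8d8c46_lc.Gap.W07

section

set_option autoImplicit false

open Finset
open scoped Classical

namespace Pool.Agent.Lib.MP_8d8c46_lc.Gap

open Pool.Agent.Lib.MP_8d8c46_lc Pool.Agent.Lib.MP_8d8c46_lc.SDP Pool.Agent.Lib.MP_8d8c46_lc.EL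

private lemma K14_card {R D b : ℕ} [NeZero b] (hR : 1 ≤ R) (Y : Type) [Fintype Y] [Nonempty Y] :
    (D : ℝ) ≤ Fintype.card (Tup R D b × Y) := by
  have h1 : D ≤ 2 ^ D := Nat.lt_two_pow_self.le
  have hb : 1 ≤ b := NeZero.one_le
  have h2 : Fintype.card (Cube D × ZMod b) = 2 ^ D * b := by
    simp [ZMod.card]
  have h3 : Fintype.card (Tup R D b) = (2 ^ D * b) ^ R := by
    rw [← h2]
    simp
  have h4 : 2 ^ D ≤ 2 ^ D * b := Nat.le_mul_of_pos_right _ hb
  have h5 : 2 ^ D * b ≤ (2 ^ D * b) ^ R := Nat.le_self_pow (by omega) _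
  have h6 : 1 ≤ Fintype.card Y := Fintype.card_pos
  have h7 : D ≤ Fintype.card (Tup R D b × Y) := by
    rw [Fintype.card_prod, h3]
    calc D ≤ 2 ^ D * b := h1.trans h4
      _ ≤ (2 ^ D * b) ^ R := h5
      _ ≤ (2 ^ D * b) ^ R * Fintype.card Y := Nat.le_mul_of_pos_right _ h6
  exact_mod_cast h7

/-- Completeness. Take `ζ₀` from `A16_abstract k hk (a/b) κ`, `m = k`, and `s ≥ 1` with
`4^(2 m + 1) (b/a) (3/4)^s ≤ ζ₀` and `2 b / a * (3/4)^(s-1) ≤ ζ₀`. Given `R`, take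
`γ = min (1/8) (1/R)` made smaller so that `b R γ² / a ≤ ζ₀`; and then `D₀` so large that for `D ≥ D₀`:
`b R / (a D) ≤ ζ₀`, `2 k R² / D ≤ ζ₀`, `R² / (D γ²) ≤ κ`, `1/ζ₀ ≤ 2^D ≤ |Tup R D b × Y|` (`R ≥ 1`). Apply
`A16_abstract` with `U = UU γ s m a` and `o u v = oT γ s m a u.1 v.1`. (`δ = a / b ≤ 1/2`.) -/
theorem K14_complete {k a b : ℕ} [NeZero b] (hk : 2 ≤ k) (ha : 1 ≤ a) (hab : 2 * a ≤ b) {κ : ℝ}
    (hκ0 : 0 < κ) (hκ1 : κ ≤ 1) :
    ∃ s m : ℕ, 1 ≤ s ∧ 1 ≤ m ∧ ∀ R : ℕ, 1 ≤ R → ∃ (γ : ℝ) (D₀ : ℕ), 0 < γ ∧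
      ∀ D ≥ D₀, ∀ (Y : Type) [Fintype Y] [DecidableEq Y] [Nonempty Y],
        (((univ : Finset (Tup R D b)).filter (fun ω => ¬ good γ ω)).card : ℝ) ≤
          κ * Fintype.card (Tup R D b) ∧
        ∃ X : Finset (Tup R D b × Y) → ℝ,
          SA.SheraliAdams k ((a / b : ℝ) * Fintype.card (Tup R D b × Y)) X ∧ BasicSDP X ∧
          (∀ v, X {v} = (a / b : ℝ)) ∧
          ∀ u v, u ≠ v → (a / b : ℝ) * (oT γ s m a u.1 v.1 - 2 * κ) ≤ X {u, v} := by
  have ha0 : (0 : ℝ) < a := by exact_mod_cast ha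
  have hb0 : (0 : ℝ) < b := by exact_mod_cast (show 0 < b by omega)
  have hab' : a ≤ b := by omega
  have hδ0 : (0 : ℝ) < a / b := by positivity
  have hδ1 : (a / b : ℝ) ≤ 1 / 2 := by
    rw [div_le_div_iff₀ hb0 (by norm_num)]
    have : (2 * a : ℝ) ≤ b := by exact_mod_cast hab
    linarith
  obtain ⟨ζ₀, hζ, hmain⟩ := A16_abstract k hk (a / b : ℝ) κ hδ0 hδ1 hκ0 hκ1
  obtain ⟨s', hs'⟩ := exists_pow_lt_of_lt_one
    (show (0 : ℝ) < ζ₀ / (4 ^ (2 * k + 1) * (b / a) + 2 * b / a) by positivity)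
    (show (3 / 4 : ℝ) < 1 by norm_num)
  have hden : (0 : ℝ) < 4 ^ (2 * k + 1) * (b / a) + 2 * b / a := by positivity
  rw [lt_div_iff₀ hden] at hs'
  have hs1 : (2 * b / a * (3 / 4) ^ s' : ℝ) ≤ ζ₀ := by
    have h1 : (0 : ℝ) ≤ (3 / 4) ^ s' * (4 ^ (2 * k + 1) * (b / a)) := by positivity
    have h2 : (3 / 4 : ℝ) ^ s' * (4 ^ (2 * k + 1) * (b / a) + 2 * b / a) =
      (3 / 4) ^ s' * (4 ^ (2 * k + 1) * (b / a)) + 2 * b / a * (3 / 4) ^ s' := by ring
    linarith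
  have hs2 : (4 ^ (2 * k + 1) * (b / a) * (3 / 4) ^ (s' + 1) : ℝ) ≤ ζ₀ := by
    have h1 : (0 : ℝ) ≤ (3 / 4) ^ s' * (4 ^ (2 * k + 1) * (b / a)) := by positivity
    have h2 : (3 / 4 : ℝ) ^ s' * (4 ^ (2 * k + 1) * (b / a) + 2 * b / a) =
      (3 / 4) ^ s' * (4 ^ (2 * k + 1) * (b / a)) + 2 * b / a * (3 / 4) ^ s' := by ring
    have h3 : (0 : ℝ) ≤ 2 * b / a * (3 / 4) ^ s' := by positivity
    have h4 : (4 ^ (2 * k + 1) * (b / a) * (3 / 4) ^ (s' + 1) : ℝ) =
      3 / 4 * ((3 / 4) ^ s' * (4 ^ (2 * k + 1) * (b / a))) := by ring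
    rw [h4]
    linarith
  refine ⟨s' + 1, k, by omega, by omega, ?_⟩
  intro R hR
  have hR0 : (0 : ℝ) < R := by exact_mod_cast hR
  obtain ⟨γ, hγ0, hγ8, hγR, hγζ⟩ : ∃ γ : ℝ, 0 < γ ∧ γ ≤ 1 / 8 ∧ R * γ ≤ 1 ∧
      b * R * γ ^ 2 / a ≤ ζ₀ := by
    refine ⟨min (1 / 8) (min (1 / R) (ζ₀ * a / (b * R))), by positivity, min_le_left _ _, ?_, ?_⟩
    · have h1 : min (1 / 8 : ℝ) (min (1 / R) (ζ₀ * a / (b * R))) ≤ 1 / R :=
        (min_le_right _ _).trans (min_le_left _ _)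
      calc R * min (1 / 8 : ℝ) (min (1 / R) (ζ₀ * a / (b * R))) ≤ R * (1 / R) := by gcongr
        _ = 1 := by field_simp
    · have h0 : 0 < min (1 / 8 : ℝ) (min (1 / R) (ζ₀ * a / (b * R))) := by positivity
      have h1 : min (1 / 8 : ℝ) (min (1 / R) (ζ₀ * a / (b * R))) ≤ ζ₀ * a / (b * R) :=
        (min_le_right _ _).trans (min_le_right _ _)
      have h2 : min (1 / 8 : ℝ) (min (1 / R) (ζ₀ * a / (b * R))) ≤ 1 / 8 := min_le_left _ _
      generalize min (1 / 8 : ℝ) (min (1 / R) (ζ₀ * a / (b * R))) = g at h0 h1 h2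
      have h3 : g ^ 2 ≤ ζ₀ * a / (b * R) := by nlinarith
      calc b * R * g ^ 2 / a ≤ b * R * (ζ₀ * a / (b * R)) / a := by gcongr
        _ = ζ₀ := by field_simp
  refine ⟨γ, ⌈b * R / (a * ζ₀) + 2 * k * R ^ 2 / ζ₀ + R ^ 2 / (κ * γ ^ 2) + 1 / ζ₀ + 1⌉₊,
    hγ0, ?_⟩
  intro D hDD Y _ _ _
  have hDD' : b * R / (a * ζ₀) + 2 * k * R ^ 2 / ζ₀ + R ^ 2 / (κ * γ ^ 2) + 1 / ζ₀ + 1 ≤ (D : ℝ) :=
    (Nat.le_ceil _).trans (by exact_mod_cast hDD)
  have e1 : (0 : ℝ) ≤ b * R / (a * ζ₀) := by positivity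
  have e2 : (0 : ℝ) ≤ 2 * k * R ^ 2 / ζ₀ := by positivity
  have e3 : (0 : ℝ) ≤ R ^ 2 / (κ * γ ^ 2) := by positivity
  have e4 : (0 : ℝ) ≤ 1 / ζ₀ := by positivity
  have hD1 : (1 : ℝ) ≤ D := by linarith
  have hD : 1 ≤ D := by exact_mod_cast hD1
  have hD0 : (0 : ℝ) < D := by linarith
  have f1 : (b * R / (a * D) : ℝ) ≤ ζ₀ := by
    have h1 : b * R / (a * ζ₀) ≤ (D : ℝ) := by linarith
    rw [div_le_iff₀ (by positivity)] at h1 ⊢
    nlinarith
  have f2 : (2 * k * R ^ 2 / D : ℝ) ≤ ζ₀ := by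
    have h1 : 2 * k * R ^ 2 / ζ₀ ≤ (D : ℝ) := by linarith
    rw [div_le_iff₀ (by positivity)] at h1 ⊢
    nlinarith
  have f3 : (R ^ 2 / (D * γ ^ 2) : ℝ) ≤ κ := by
    have h1 : R ^ 2 / (κ * γ ^ 2) ≤ (D : ℝ) := by linarith
    rw [div_le_iff₀ (by positivity)] at h1 ⊢
    nlinarith
  have hN : (0 : ℝ) ≤ Fintype.card (Tup R D b × Y) := Nat.cast_nonneg _
  have hT : (0 : ℝ) ≤ Fintype.card (Tup R D b) := Nat.cast_nonneg _
  constructor
  · exact (K12_bad hD hγ0).trans (mul_le_mul_of_nonneg_right f3 hT)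
  · have hs : 1 ≤ s' + 1 := by omega
    have hm : 1 ≤ k := by omega
    have hK8 := K08_values (R := R) (D := D) (b := b) (Y := Y) hR hD hγ0.le hγ8 hγR hs hm ha hab'
    have hK6 := K06_psd (R := R) (D := D) (b := b) (Y := Y) hD γ (s' + 1) k a
    refine hmain (Tup R D b × Y) (UU γ (s' + 1) k a)
      (fun u v => oT γ (s' + 1) k a u.1 v.1) ?_ hK8.1 hK8.2.1 hK6.1
      (fun u v => hK6.2 u.1 v.1) ?_ ?_ ?_ ?_ ?_
    · intro A hA
      obtain ⟨w, hw0, hw⟩ := K13_apx (R := R) (D := D) (b := b) (Y := Y) hR hD hγ0.le hγ8 (s' + 1)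
        hm ha (show k ≤ 2 * k + 1 by omega) A hA
      exact ⟨w, hw0, fun T hT => (hw T hT).trans hs2⟩
    · intro u
      exact (K07_diag hR hD hγ0.le hs k ha hab' u.1).trans (by linarith)
    · intro u v huv
      exact (hK8.2.2 u v huv).trans hs1
    · intro u
      exact (K10_row hR hD γ hs k ha u).trans (mul_le_mul_of_nonneg_right f1 hN)
    · intro T hTk
      exact (K11_far hR hD hγ0.le hγ8 hγR hs hm ha hab' T (k := k) (by omega)).trans
        (mul_le_mul_of_nonneg_right f2 hN)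
    · have h1 : 1 / ζ₀ ≤ (D : ℝ) := by linarith
      exact h1.trans (K14_card hR Y)

end Pool.Agent.Lib.MP_8d8c46_lc.Gap
end

section

set_option autoImplicit false

open Finset
open scoped Classical

namespace Pool.Agent.Lib.MP_8d8c46_lc.Gap

open Pool.Agent.Lib.MP_8d8c46_lc Pool.Agent.Lib.MP_8d8c46_lc.SDP Pool.Agent.Lib.MP_8d8c46_lc.EL

/-- The main inequality, by induction on `J` (`Finset.induction_on`, generalising `ι` and `f`).
`J = ∅`: `univ \ (∅ \ ∅) = univ`, `cd g univ = g`, equality. Step from `J` to `J' = insert i J`: fix `x`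
and let `F j a = NJ J (f j) (update x i a)`. By `S02_rec` and `cd_erase`
`NJ J' (f j) (update x i a) = (F j a + avg (F j)) / 2`, and
`F j a - avg (F j) = LJ {i} (NJ J (f j)) (update x i a) = NJ J (LJ {i} (f j)) (update x i a)` (`S02`, `S03`).
By `S04` (last part) the left side is `avg_x avg_a (avg_j (NJ J' (f j) (update x i a))²)²`; apply
`S01_one` for every `x`:
(1) `avg_x (avg_a avg_j (F j a)²)²`: with the index set `A × ι` and the functions
`f' (a, j) y = f j (update y i a)` this is `avg_x (avg_{(a,j)} (NJ J (f' (a,j)) x)²)²` (`S04`), by induction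
at most `∑ S ⊆ J, (3/16)^|S| avg_x (cd (fun y => avg_{(a,j)} (LJ S (f' (a,j)) y)²) (univ \ (J \ S)) x)²`, and
`avg_{(a,j)} (LJ S (f' (a,j)) y)² = cd (fun y => avg_j (LJ S (f j) y)²) (univ.erase i) y` (`S04`, `cd_erase`), so
by `cd_cd` the inner function is `cd (…) (univ.erase i ∩ (univ \ (J \ S))) = cd (…) (univ \ (J' \ S))`: the
term of `S` (with `i ∉ S`) for `J'`.
(2) `(3/16) avg_x avg_a (avg_j (NJ J (LJ {i} (f j)) (update x i a))²)² =
(3/16) avg_x (avg_j (NJ J (LJ {i} (f j)) x)²)²`, by induction for the functions `LJ {i} (f j)` at most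
`∑ S ⊆ J, (3/16)^(|S|+1) avg_x (cd (fun y => avg_j (LJ (insert i S) (f j) y)²) (univ \ (J \ S)) x)²` (`S03`), and
`J \ S = J' \ insert i S`: the term of `insert i S` for `J'`.
Add up with `Finset.sum_powerset_insert`. -/
theorem S05_global {U A : Type} [Fintype U] [Fintype A] [Nonempty A] (J : Finset U) :
    ∀ (ι : Type) [Fintype ι] [Nonempty ι] (f : ι → (U → A) → ℝ),
      avg (fun x => avg (fun j => NJ J (f j) x ^ 2) ^ 2) ≤
        ∑ S ∈ J.powerset, (3 / 16) ^ S.card *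
          avg (fun x => cd (fun y => avg (fun j => LJ S (f j) y ^ 2)) (univ \ (J \ S)) x ^ 2) := by
  induction J using Finset.induction_on with
  | empty =>
    intro ι _ _ f
    rw [Finset.powerset_empty, Finset.sum_singleton, Finset.card_empty, pow_zero, one_mul]
    apply le_of_eq
    congr 1
    funext x
    have h1 : cd (fun y => avg (fun j => LJ ∅ (f j) y ^ 2)) (univ \ (∅ \ ∅)) x =
        avg (fun j => LJ ∅ (f j) x ^ 2) := by
      apply cd_self_of_dep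
      intro y z hyz
      have : y = z := by
        funext u
        exact hyz u (by simp)
      rw [this]
    rw [h1]
    congr 2
    funext j
    rw [(S02_rec (f j)).1 x, (S02_rec (f j)).2.1 x]
  | insert i J hi ih =>
    intro ι _ _ f
    -- the two parts
    have hF : ∀ (x : U → A) (j : ι) (a : A), NJ (insert i J) (f j) (Function.update x i a) =
        (NJ J (f j) (Function.update x i a) +
          avg (fun b => NJ J (f j) (Function.update x i b))) / 2 := by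
      intro x j a
      rw [(S02_rec (f j)).2.2.1 J i hi, cd_erase]
      simp only [Function.update_idem]
    have hL : ∀ (x : U → A) (j : ι) (a : A), NJ J (f j) (Function.update x i a) -
          avg (fun b => NJ J (f j) (Function.update x i b)) =
        NJ J (LJ {i} (f j)) (Function.update x i a) := by
      intro x j a
      rw [← (S03_comm (f j) J {i} ∅ (Function.update x i a)).2.2.1]
      have h1 := (S02_rec (NJ J (f j))).2.2.2 ∅ i (Finset.notMem_empty i) (Function.update x i a)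
      have h2 : (insert i (∅ : Finset U)) = {i} := by simp
      have h3 : LJ (∅ : Finset U) (NJ J (f j)) = NJ J (f j) := by
        funext y
        exact (S02_rec (NJ J (f j))).2.1 y
      rw [h2, h3, cd_erase] at h1
      simp only [Function.update_idem] at h1
      exact h1.symm
    have hup : ∀ G : (U → A) → ℝ, avg (fun x => avg (fun a => G (Function.update x i a))) = avg G :=
      fun G => (S04_update G J hi (Classical.arbitrary A) (Classical.arbitrary (U → A))).2.2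
    have hone : avg (fun x => avg (fun j => NJ (insert i J) (f j) x ^ 2) ^ 2) ≤
        avg (fun x => avg (fun a => avg (fun j => NJ J (f j) (Function.update x i a) ^ 2)) ^ 2) +
          3 / 16 * avg (fun x => avg (fun a =>
            avg (fun j => NJ J (LJ {i} (f j)) (Function.update x i a) ^ 2) ^ 2)) := by
      rw [← hup (fun x => avg (fun j => NJ (insert i J) (f j) x ^ 2) ^ 2), ← avg_const_mul,
        ← avg_add]
      apply avg_mono
      intro x
      have h1 := S01_one (fun (j : ι) (a : A) => NJ J (f j) (Function.update x i a))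
      simp only [hF]
      simp only [hL] at h1
      exact h1
    have hfst : avg (fun x => avg (fun a => avg (fun j =>
        NJ J (f j) (Function.update x i a) ^ 2)) ^ 2) ≤
        ∑ S ∈ J.powerset, (3 / 16) ^ S.card * avg (fun x =>
          cd (fun y => avg (fun j => LJ S (f j) y ^ 2)) (univ \ (insert i J \ S)) x ^ 2) := by
      have h1 := ih (A × ι) (fun z y => f z.2 (Function.update y i z.1))
      have h2 : (fun x : U → A => avg (fun a => avg (fun j =>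
          NJ J (f j) (Function.update x i a) ^ 2)) ^ 2) =
          fun x => avg (fun z : A × ι =>
            NJ J (fun y => f z.2 (Function.update y i z.1)) x ^ 2) ^ 2 := by
        funext x
        rw [avg_avg]
        congr 2
        funext z
        rw [(S04_update (f z.2) J hi z.1 x).1]
      rw [h2]
      refine h1.trans (le_of_eq ?_)
      apply Finset.sum_congr rfl
      intro S hS
      have hiS : i ∉ S := fun h => hi (Finset.mem_powerset.1 hS h)
      congr 2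
      funext x
      congr 1
      have h3 : (fun y : U → A => avg (fun z : A × ι =>
          LJ S (fun y => f z.2 (Function.update y i z.1)) y ^ 2)) =
          cd (fun y => avg (fun j => LJ S (f j) y ^ 2)) (univ.erase i) := by
        funext y
        rw [cd_erase, avg_avg]
        congr 1
        funext z
        rw [(S04_update (f z.2) S hiS z.1 y).2.1]
      rw [h3, cd_cd]
      congr 1
      ext u
      simp only [Finset.mem_inter, Finset.mem_erase, Finset.mem_sdiff, Finset.mem_univ,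
        Finset.mem_insert, true_and, and_true]
      by_cases hu : u = i
      · subst hu
        simp [hiS]
      · simp [hu]
    have hsnd : 3 / 16 * avg (fun x => avg (fun a =>
        avg (fun j => NJ J (LJ {i} (f j)) (Function.update x i a) ^ 2) ^ 2)) ≤
        ∑ S ∈ J.powerset, (3 / 16) ^ (insert i S).card * avg (fun x =>
          cd (fun y => avg (fun j => LJ (insert i S) (f j) y ^ 2))
            (univ \ (insert i J \ insert i S)) x ^ 2) := by
      rw [hup (fun x => avg (fun j => NJ J (LJ {i} (f j)) x ^ 2) ^ 2)]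
      have h1 := ih ι (fun j => LJ {i} (f j))
      refine (mul_le_mul_of_nonneg_left h1 (by norm_num)).trans (le_of_eq ?_)
      rw [Finset.mul_sum]
      apply Finset.sum_congr rfl
      intro S hS
      have hiS : i ∉ S := fun h => hi (Finset.mem_powerset.1 hS h)
      rw [Finset.card_insert_of_notMem hiS, pow_succ', ← mul_assoc]
      congr 2
      funext x
      congr 1
      have h3 : (fun y : U → A => avg (fun j => LJ S (LJ {i} (f j)) y ^ 2)) =
          fun y => avg (fun j => LJ (insert i S) (f j) y ^ 2) := by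
        funext y
        congr 1
        funext j
        rw [(S03_comm (f j) J S ∅ y).2.2.2 i hiS]
      rw [h3]
      congr 1
      ext u
      simp only [Finset.mem_sdiff, Finset.mem_univ, Finset.mem_insert, true_and, not_and, not_not,
        not_or]
      by_cases hu : u = i
      · subst hu
        simp [hi]
      · simp [hu]
    rw [Finset.sum_powerset_insert hi]
    exact hone.trans (add_le_add hfst hsnd)

end Pool.Agent.Lib.MP_8d8c46_lc.Gap
end

section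

set_option autoImplicit false

open Finset
open scoped Classical

namespace Pool.Agent.Lib.MP_8d8c46_lc.Gap

open Pool.Agent.Lib.MP_8d8c46_lc Pool.Agent.Lib.MP_8d8c46_lc.SDP Pool.Agent.Lib.MP_8d8c46_lc.EL

/-- `S05_global` for `J = univ`, `ι = Unit`; `univ \ (univ \ S) = S`. -/
theorem S06_scalar {U A : Type} [Fintype U] [Fintype A] [Nonempty A] (g : (U → A) → ℝ) :
    avg (fun x => NJ univ g x ^ 4) ≤
      ∑ S : Finset U, (3 / 16) ^ S.card *
        avg (fun x => cd (fun y => LJ S g y ^ 2) S x ^ 2) := by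
  have h := S05_global (univ : Finset U) Unit (fun _ => g)
  have hu : ∀ c : ℝ, avg (fun _ : Unit => c) = c := fun c => avg_const c
  simp only [hu] at h
  have h1 : (fun x => NJ univ g x ^ 4) = fun x => (NJ univ g x ^ 2) ^ 2 := by
    funext x
    ring
  rw [h1]
  refine h.trans (le_of_eq ?_)
  rw [powerset_univ]
  refine sum_congr rfl fun S _ => ?_
  have h2 : (univ : Finset U) \ (univ \ S) = S := by
    ext v
    simp
  rw [h2]

end Pool.Agent.Lib.MP_8d8c46_lc.Gap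
end

section

set_option autoImplicit false

open Finset
open scoped Classical

namespace Pool.Agent.Lib.MP_8d8c46_lc.Gap

open Pool.Agent.Lib.MP_8d8c46_lc Pool.Agent.Lib.MP_8d8c46_lc.SDP Pool.Agent.Lib.MP_8d8c46_lc.EL

/-- Let `g = nz ν h`, `g' = NJ univ g ∈ [0, 1]`, `avg g' = avg h`. `S06_scalar` for `g'`: the term `S = ∅`
is `(avg g'²)² ≤ (avg h)²` (`LJ ∅ g' = g'`, `cd · ∅ = avg`, `g'² ≤ g'`). For `|S| = s ≥ 1` `S19_term` and
`b^(θ/8) ≤ 2` bound the term by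
`(3/16)^s * 2 * 4^s * 2^s * (1/3)^s * C(R,s)^(-(1+θ/8)) = 2 (1/2)^s C(R,s)^(-1-θ/8)` (use
`(1/3)^(s(1+θ/8)) ≤ (1/3)^s`); there are `C(R,s)` such sets, so the sum over `S ≠ ∅` is at most the sum
of `S20_num` with the given `β`. -/
theorem S21_fourth {b : ℕ} [NeZero b] {ν θ β : ℝ} (hν0 : 0 ≤ ν) (hν1 : ν ≤ 1 / 2)
    (hθ0 : 0 < θ) (hθ1 : θ ≤ 1) (hθ : ((1 / 3 : ℝ) ^ θ) = (1 - 2 * ν) ^ 2)
    (hb : (b : ℝ) ^ (θ / 8) ≤ 2) (hβ : 0 < β) :
    ∃ R₀ : ℕ, 1 ≤ R₀ ∧ ∀ R ≥ R₀, ∀ (D : ℕ) (h : Tup R D b → ℝ), (∀ x, 0 ≤ h x) →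
      (∀ x, h x ≤ 1) →
      (∀ (π : Equiv.Perm (Fin R)) (x : Tup R D b), h (fun i => x (π i)) = h x) →
      avg (fun x => NJ univ (NJ univ (nz ν h)) x ^ 4) ≤ avg h ^ 2 + β := by
  obtain ⟨R₀, hR₀, hnum⟩ := S20_num hθ0 hβ
  refine ⟨R₀, hR₀, ?_⟩
  intro R hR D h h0 h1 hs
  have hW := W06_nz (R := R) (D := D) (b := b) hν0 (by linarith : ν ≤ 1)
  set g : Tup R D b → ℝ := NJ univ (nz ν h) with hg
  have hB := S07_bounds (nz ν h) (univ : Finset (Fin R))
  have hnz : ∀ x, 0 ≤ nz ν h x ∧ nz ν h x ≤ 1 := hW.2.2.2.1 h 0 1 h0 h1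
  have hg01 : ∀ x, 0 ≤ g x ∧ g x ≤ 1 := hB.2.1 0 1 (fun x => (hnz x).1) (fun x => (hnz x).2)
  have hA : ∀ F : (Fin R → Cube D × ZMod b) → ℝ, @avg (Fin R → Cube D × ZMod b)
      (@Pi.instFintype (Fin R) (fun _ => Cube D × ZMod b)
        (fun a b => Classical.propDecidable (a = b)) _ _) F = avg F := by
    intro F
    congr 1
    exact Subsingleton.elim _ _
  have hgavg : avg g = avg h := by
    have h2 := hB.2.2.2
    rw [hA, hA] at h2
    exact h2.trans (hW.2.2.1 h)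
  have h6 := S06_scalar g
  rw [hA] at h6
  refine h6.trans ?_
  set f : ℕ → ℝ := fun s => if s = 0 then avg h ^ 2 else
    2 * (1 / 2 : ℝ) ^ s * ((R.choose s : ℝ) ^ (-(1 + θ / 8))) with hf
  have hterm : ∀ S : Finset (Fin R), (3 / 16 : ℝ) ^ S.card *
      avg (fun x => cd (fun y => LJ S g y ^ 2) S x ^ 2) ≤ f S.card := by
    intro S
    rcases Finset.eq_empty_or_nonempty S with rfl | hne
    · rw [hf]
      simp only [Finset.card_empty, if_true, pow_zero, one_mul]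
      have hL : ∀ y, LJ ∅ g y = g y := (S02_rec g).2.1
      have h2 : ∀ x : Tup R D b, cd (fun y => LJ ∅ g y ^ 2) ∅ x = avg (fun y => g y ^ 2) := by
        intro x
        unfold cd
        rw [hA]
        congr 1
        funext y
        have h3 : mx (∅ : Finset (Fin R)) x y = y := by
          funext u
          unfold mx
          rw [if_neg (Finset.notMem_empty u)]
        change LJ ∅ g (mx ∅ x y) ^ 2 = g y ^ 2
        rw [h3, hL]
      rw [show (fun x : Tup R D b => cd (fun y => LJ ∅ g y ^ 2) ∅ x ^ 2) =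
        fun _ => avg (fun y => g y ^ 2) ^ 2 from funext fun x => by rw [h2 x], avg_const]
      have h4 : 0 ≤ avg (fun y => g y ^ 2) := avg_nonneg fun y => sq_nonneg _
      have h5 : avg (fun y => g y ^ 2) ≤ avg g := avg_mono fun y => by
        have h6 := (hg01 y).1
        have h7 := (hg01 y).2
        nlinarith
      rw [← hgavg]
      exact pow_le_pow_left₀ h4 h5 2
    · have hc : S.card ≠ 0 := Finset.card_ne_zero.mpr hne
      rw [hf]
      simp only [if_neg hc]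
      have hle : S.card ≤ R := by
        have := Finset.card_le_univ S
        rwa [Fintype.card_fin] at this
      have hCpos : (0 : ℝ) < (R.choose S.card : ℝ) := by
        exact_mod_cast Nat.choose_pos hle
      have hT := S19_term hν0 hν1 hθ0.le hθ1 hθ h h0 h1 hs S
      have e1 : ((b : ℝ) ^ S.card) ^ (θ / 8) ≤ 2 ^ S.card := by
        rw [← Real.rpow_natCast, ← Real.rpow_mul (Nat.cast_nonneg b), mul_comm,
          Real.rpow_mul (Nat.cast_nonneg b), Real.rpow_natCast]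
        exact pow_le_pow_left₀ (Real.rpow_nonneg (Nat.cast_nonneg b) _) hb _
      have e2 : ((1 / 3 : ℝ) ^ S.card / (R.choose S.card : ℝ)) ^ (1 + θ / 8) ≤
          (1 / 3 : ℝ) ^ S.card * (R.choose S.card : ℝ) ^ (-(1 + θ / 8)) := by
        rw [Real.div_rpow (by positivity) hCpos.le, Real.rpow_neg hCpos.le, div_eq_mul_inv]
        refine mul_le_mul_of_nonneg_right ?_ (by positivity)
        calc ((1 / 3 : ℝ) ^ S.card) ^ (1 + θ / 8) ≤ ((1 / 3 : ℝ) ^ S.card) ^ (1 : ℝ) :=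
              Real.rpow_le_rpow_of_exponent_ge (by positivity)
                (pow_le_one₀ (by norm_num) (by norm_num)) (by linarith)
          _ = (1 / 3 : ℝ) ^ S.card := Real.rpow_one _
      have e3 : avg (fun x => cd (fun y => LJ S g y ^ 2) S x ^ 2) ≤
          2 * 4 ^ S.card * 2 ^ S.card *
            ((1 / 3 : ℝ) ^ S.card * (R.choose S.card : ℝ) ^ (-(1 + θ / 8))) := by
        refine hT.trans ?_
        refine mul_le_mul (mul_le_mul_of_nonneg_left e1 (by positivity)) e2 ?_ (by positivity)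
        exact Real.rpow_nonneg (by positivity) _
      calc (3 / 16 : ℝ) ^ S.card * avg (fun x => cd (fun y => LJ S g y ^ 2) S x ^ 2)
          ≤ (3 / 16 : ℝ) ^ S.card * (2 * 4 ^ S.card * 2 ^ S.card *
            ((1 / 3 : ℝ) ^ S.card * (R.choose S.card : ℝ) ^ (-(1 + θ / 8)))) :=
            mul_le_mul_of_nonneg_left e3 (by positivity)
        _ = 2 * ((3 / 16 : ℝ) ^ S.card * 4 ^ S.card * 2 ^ S.card * (1 / 3 : ℝ) ^ S.card) *
            (R.choose S.card : ℝ) ^ (-(1 + θ / 8)) := by ring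
        _ = 2 * (1 / 2 : ℝ) ^ S.card * (R.choose S.card : ℝ) ^ (-(1 + θ / 8)) := by
            rw [← mul_pow, ← mul_pow, ← mul_pow]
            norm_num
  have hsum : ∑ S : Finset (Fin R), f S.card =
      f 0 + ∑ m ∈ Icc 1 R, (R.choose m : ℝ) * f m := by
    have h2 := Finset.sum_powerset_apply_card (x := (univ : Finset (Fin R))) f
    rw [Finset.powerset_univ, Finset.card_univ, Fintype.card_fin] at h2
    rw [h2]
    have h3 : Finset.range (R + 1) = insert 0 (Icc 1 R) := by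
      ext m
      rw [Finset.mem_range, Finset.mem_insert, Finset.mem_Icc]
      omega
    rw [h3, Finset.sum_insert (by rw [Finset.mem_Icc]; omega)]
    simp only [Nat.choose_zero_right, one_smul, nsmul_eq_mul]
  refine (Finset.sum_le_sum fun S _ => (show _ ≤ f S.card by rw [hA]; exact hterm S)).trans ?_
  rw [hsum]
  have h0f : f 0 = avg h ^ 2 := by rw [hf]; simp
  rw [h0f]
  refine add_le_add le_rfl ?_
  refine le_trans (le_of_eq ?_) (hnum R hR)
  rw [Finset.mul_sum]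
  refine Finset.sum_congr rfl fun m hm => ?_
  rw [Finset.mem_Icc] at hm
  have hm0 : m ≠ 0 := by omega
  have hCpos : (0 : ℝ) < (R.choose m : ℝ) := by
    exact_mod_cast Nat.choose_pos hm.2
  rw [hf]
  simp only [if_neg hm0]
  have e4 : (R.choose m : ℝ) * (R.choose m : ℝ) ^ (-(1 + θ / 8)) =
      (R.choose m : ℝ) ^ (-(θ / 8)) := by
    nth_rewrite 1 [← Real.rpow_one (R.choose m : ℝ)]
    rw [← Real.rpow_add hCpos]
    congr 1
    ring
  rw [← e4]
  ring

end Pool.Agent.Lib.MP_8d8c46_lc.Gap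
end

section

set_option autoImplicit false

open Finset
open scoped Classical

namespace Pool.Agent.Lib.MP_8d8c46_lc.Gap

open Pool.Agent.Lib.MP_8d8c46_lc Pool.Agent.Lib.MP_8d8c46_lc.SDP Pool.Agent.Lib.MP_8d8c46_lc.EL

private lemma S24_inst {α : Type} (i j : Fintype α) (f : α → ℝ) : @avg α i f = @avg α j f := by
  rw [Subsingleton.elim i j]

/-- Soundness. Take `R₀` from `S21_fourth` with `β = δ²`. Let `h = Sy f` (symmetric, in `[0,1]`, mean `δ`:
`W07_Sy`), `g = nz ν h ∈ [0,1]`, mean `δ` (`W06_nz`), `Q = ∑ T, (1/4)^|T| nr g T = avg (g * NJ univ (NJ univ g))`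
(`S11_norms`). By `F4_holder` `Q^4 ≤ δ^3 (δ² + δ²) = 2 δ^5`. By `S23_form` and `S22_power` (`ρ = 1 - c`)
the quotient `q` in question satisfies `0 ≤ q`, `q^M ≤ (avg g²)^(M-1) Q ≤ δ^(M-1) Q`, so
`q^(4 M) ≤ δ^(4M-4) * 2 δ^5 = 2 δ^(4M+1)`. -/
theorem S24_sound {b : ℕ} [NeZero b] {δ c ν θ : ℝ} (hδ0 : 0 < δ) (hδ1 : δ ≤ 1) (hc0 : 0 ≤ c)
    (hc1 : c ≤ 1) {M : ℕ} (hM : 1 ≤ M) (hcM : (1 - c) ^ M ≤ 1 / 4) (hν0 : 0 ≤ ν)
    (hν1 : ν ≤ 1 / 2) (hθ0 : 0 < θ) (hθ1 : θ ≤ 1) (hθ : ((1 / 3 : ℝ) ^ θ) = (1 - 2 * ν) ^ 2)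
    (hb : (b : ℝ) ^ (θ / 8) ≤ 2) :
    ∃ R₀ : ℕ, 1 ≤ R₀ ∧ ∀ R ≥ R₀, ∀ (D : ℕ) (f : Tup R D b → ℝ), (∀ ω, 0 ≤ f ω) →
      (∀ ω, f ω ≤ 1) → avg f = δ →
      0 ≤ (∑ ω, f ω * ∑ ω', TT c ν ω ω' * f ω') / Fintype.card (Tup R D b) ∧
      ((∑ ω, f ω * ∑ ω', TT c ν ω ω' * f ω') / Fintype.card (Tup R D b)) ^ (4 * M) ≤
        2 * δ ^ (4 * M + 1) := by
  obtain ⟨R₀, hR₀, hmain⟩ := S21_fourth (β := δ ^ 2) hν0 hν1 hθ0 hθ1 hθ hb (by positivity)
  refine ⟨R₀, hR₀, ?_⟩
  intro R hR D f hf0 hf1 hav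
  have hν1' : ν ≤ 1 := by linarith
  obtain ⟨hsym, havS, hbdS, -⟩ := W07_Sy f
  obtain ⟨-, -, havN, hbdN, -⟩ := W06_nz (R := R) (D := D) (b := b) hν0 hν1'
  have hh := hbdS 0 1 hf0 hf1
  have hg := hbdN (Sy f) 0 1 (fun ω => (hh ω).1) (fun ω => (hh ω).2)
  have h21 := hmain R hR D (Sy f) (fun ω => (hh ω).1) (fun ω => (hh ω).2) hsym
  have havg : avg (nz ν (Sy f)) = δ := by rw [havN, havS, hav]
  obtain ⟨g, hgdef⟩ : ∃ g, g = nz ν (Sy f) := ⟨_, rfl⟩
  rw [havS, hav] at h21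
  rw [S23_form hν0 hν1' f]
  rw [← hgdef] at hg h21 havg ⊢
  have hQ : avg (fun x => g x * NJ univ (NJ univ g) x) =
      ∑ T : Finset (Fin R), (1 / 4 : ℝ) ^ T.card * nr g T := by
    exact (S24_inst _ _ _).trans (S11_norms g ∅).2.1
  have hF := F4_holder g (NJ univ (NJ univ g)) (fun ω => (hg ω).1) (fun ω => (hg ω).2)
  have h22 : (∑ T : Finset (Fin R), (1 - c) ^ T.card * nr g T) ^ M ≤
      avg (fun x => g x ^ 2) ^ (M - 1) * ∑ T : Finset (Fin R), (1 / 4 : ℝ) ^ T.card * nr g T := by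
    refine (S22_power g (ρ := 1 - c) (by linarith) hM hcM).trans (le_of_eq ?_)
    exact congrArg (fun t => t ^ (M - 1) * ∑ T : Finset (Fin R), (1 / 4 : ℝ) ^ T.card * nr g T)
      (S24_inst _ _ _)
  have hterm : ∀ T : Finset (Fin R), 0 ≤ (1 - c) ^ T.card * nr g T := fun T =>
    mul_nonneg (pow_nonneg (by linarith) _) (nr_nonneg g T)
  have hq0 : 0 ≤ ∑ T : Finset (Fin R), (1 - c) ^ T.card * nr g T :=
    Finset.sum_nonneg fun T _ => hterm T
  have hQ0 : 0 ≤ ∑ T : Finset (Fin R), (1 / 4 : ℝ) ^ T.card * nr g T :=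
    Finset.sum_nonneg fun T _ => mul_nonneg (by positivity) (nr_nonneg g T)
  refine ⟨hq0, ?_⟩
  have hg2 : avg (fun x => g x ^ 2) ≤ δ := by
    rw [← havg]
    unfold avg
    refine div_le_div_of_nonneg_right (Finset.sum_le_sum fun x _ => ?_) (Nat.cast_nonneg _)
    have h1 := (hg x).1
    have h2 := (hg x).2
    nlinarith
  have hg20 : 0 ≤ avg (fun x => g x ^ 2) := by
    unfold avg
    exact div_nonneg (Finset.sum_nonneg fun x _ => sq_nonneg _) (Nat.cast_nonneg _)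
  obtain ⟨q, hqdef⟩ : ∃ q, q = ∑ T : Finset (Fin R), (1 - c) ^ T.card * nr g T := ⟨_, rfl⟩
  obtain ⟨Q, hQdef⟩ : ∃ Q, Q = ∑ T : Finset (Fin R), (1 / 4 : ℝ) ^ T.card * nr g T := ⟨_, rfl⟩
  rw [← hqdef] at h22 hq0 ⊢
  rw [← hQdef] at h22 hQ0 hQ
  rw [hQ, havg] at hF
  have hQ4 : Q ^ 4 ≤ 2 * δ ^ 5 := by
    have h3 : δ ^ 3 * avg (fun x => NJ univ (NJ univ g) x ^ 4) ≤ δ ^ 3 * (δ ^ 2 + δ ^ 2) :=
      mul_le_mul_of_nonneg_left h21 (by positivity)
    calc Q ^ 4 ≤ δ ^ 3 * avg (fun x => NJ univ (NJ univ g) x ^ 4) := hF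
      _ ≤ δ ^ 3 * (δ ^ 2 + δ ^ 2) := h3
      _ = 2 * δ ^ 5 := by ring
  have hqM : q ^ M ≤ δ ^ (M - 1) * Q :=
    h22.trans (mul_le_mul_of_nonneg_right (pow_le_pow_left₀ hg20 hg2 _) hQ0)
  have hfin : q ^ (4 * M) ≤ (δ ^ (M - 1) * Q) ^ 4 := by
    rw [mul_comm 4 M, pow_mul]
    exact pow_le_pow_left₀ (pow_nonneg hq0 _) hqM 4
  refine hfin.trans ?_
  have hexp : 4 * M + 1 = (M - 1) * 4 + 5 := by omega
  calc (δ ^ (M - 1) * Q) ^ 4 = δ ^ ((M - 1) * 4) * Q ^ 4 := by rw [mul_pow, ← pow_mul]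
    _ ≤ δ ^ ((M - 1) * 4) * (2 * δ ^ 5) := mul_le_mul_of_nonneg_left hQ4 (by positivity)
    _ = 2 * δ ^ (4 * M + 1) := by rw [hexp, pow_add]; ring

end Pool.Agent.Lib.MP_8d8c46_lc.Gap
end

section

set_option autoImplicit false

open Finset
open scoped Classical

namespace Pool.Agent.Lib.MP_8d8c46_lc.Gap

open Pool.Agent.Lib.MP_8d8c46_lc Pool.Agent.Lib.MP_8d8c46_lc.SDP Pool.Agent.Lib.MP_8d8c46_lc.EL

/-- Completing the No side. With `c = ε/2`, `M` from `M02_M`, `R₀` from `S24_sound`. For `|S| = δ |W| 2^D'`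
the function `f = fr S` has mean `δ` (`R04_fr`), and `∑∑ N f f = D₀ ∑∑ TT f f = D₀ |W| q` with
`q^(4M) ≤ 2 δ^(4M+1) = (2 δ) δ^(4M) ≤ ((η/2) δ)^(4M)`, so `q ≤ (η/2) δ`
(`pow_le_pow_iff_left₀`). -/
theorem M03_no {W : Type} [Fintype W] [Nonempty W] {D₀ : ℕ} (hD₀ : 1 ≤ D₀) {N : W → W → ℕ}
    {T : W → W → ℝ} (hNT : ∀ w w', (N w w' : ℝ) = D₀ * T w w') {η δ : ℝ} (hη0 : 0 < η)
    (hδ0 : 0 < δ) {M : ℕ} (hM : 1 ≤ M) (h2 : 2 * δ ≤ (η / 2) ^ (4 * M))
    (hs : ∀ f : W → ℝ, (∀ w, 0 ≤ f w) → (∀ w, f w ≤ 1) → avg f = δ →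
      0 ≤ (∑ w, f w * ∑ w', T w w' * f w') / Fintype.card W ∧
      ((∑ w, f w * ∑ w', T w w' * f w') / Fintype.card W) ^ (4 * M) ≤ 2 * δ ^ (4 * M + 1))
    {D d : ℕ} {G : SimpleGraph (W × Cube D)}
    (hin : ∀ S : Finset (W × Cube D), (inside G S : ℝ) ≤
        2 ^ D * (d / D₀) * ∑ w, ∑ w', N w w' * (fr S w * fr S w') + η / 2 * (d * S.card))
    (S : Finset (W × Cube D)) (hS : (S.card : ℝ) = δ * Fintype.card (W × Cube D)) :
    (inside G S : ℝ) ≤ η * (d * S.card) := by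
  obtain ⟨hf0, hf1, havg, hsum⟩ := R04_fr S
  have hW : (0 : ℝ) < Fintype.card W := by exact_mod_cast Fintype.card_pos
  have hD₀' : (0 : ℝ) < D₀ := by exact_mod_cast hD₀
  have hcube : (Fintype.card (Cube D) : ℝ) = 2 ^ D := by
    simp [Cube, ZMod.card]
  have hS' : (S.card : ℝ) = δ * (Fintype.card W * 2 ^ D) := by
    rw [hS, Fintype.card_prod, Nat.cast_mul, hcube]
  have hmean : avg (fr S) = δ := by
    rw [havg, hS', mul_div_assoc, div_self (by positivity), mul_one]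
  obtain ⟨hq0, hq1⟩ := hs (fr S) hf0 hf1 hmean
  obtain ⟨q, hq⟩ : ∃ q : ℝ, q = (∑ w, fr S w * ∑ w', T w w' * fr S w') / Fintype.card W :=
    ⟨_, rfl⟩
  rw [← hq] at hq0 hq1
  have hq2 : q ≤ η / 2 * δ := by
    have h3 : q ^ (4 * M) ≤ (η / 2 * δ) ^ (4 * M) := by
      calc q ^ (4 * M) ≤ 2 * δ ^ (4 * M + 1) := hq1
        _ = 2 * δ * δ ^ (4 * M) := by rw [pow_succ]; ring
        _ ≤ (η / 2) ^ (4 * M) * δ ^ (4 * M) :=
          mul_le_mul_of_nonneg_right h2 (by positivity)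
        _ = (η / 2 * δ) ^ (4 * M) := by rw [mul_pow]
    exact (pow_le_pow_iff_left₀ hq0 (by positivity) (by omega)).1 h3
  have hNN : ∑ w, ∑ w', (N w w' : ℝ) * (fr S w * fr S w') = D₀ * (Fintype.card W * q) := by
    rw [hq, mul_div_cancel₀ _ hW.ne', Finset.mul_sum]
    refine Finset.sum_congr rfl fun w _ => ?_
    rw [Finset.mul_sum, Finset.mul_sum]
    refine Finset.sum_congr rfl fun w' _ => ?_
    rw [hNT]
    ring
  refine (hin S).trans ?_
  rw [hNN]
  have h4 : (2 : ℝ) ^ D * (d / D₀) * (D₀ * (Fintype.card W * q)) =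
      2 ^ D * d * Fintype.card W * q := by
    field_simp
  rw [h4]
  have h5 : (2 : ℝ) ^ D * d * Fintype.card W * q ≤ 2 ^ D * d * Fintype.card W * (η / 2 * δ) :=
    mul_le_mul_of_nonneg_left hq2 (by positivity)
  have h6 : (2 : ℝ) ^ D * d * Fintype.card W * (η / 2 * δ) = η / 2 * (d * S.card) := by
    rw [hS']
    ring
  linarith

end Pool.Agent.Lib.MP_8d8c46_lc.Gap
end
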