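import Mathlib
import Pool.Agent.Lib.MP_8d8c46_lc.Avg

section

/-!
# CV4: approximate duality for convex programs with closed convex constraints

PROOF. Let `C : Set (X → ℝ)` be the set of the functions
`fun x => mu + ∑ i, (κ i - ∑ j, lam i j * A i (pt x) j)` with `0 ≤ mu` and
`∀ i, ∀ z ∈ K i, ∑ j, lam i j * z j ≤ κ i`. `C` is a convex cone: it contains `0` (all data `0`) and
is closed under addition and multiplication by `t ≥ 0`. Let `f x := o (pt x) + c`.
CLAIM: `f ∈ closure C`. Then, the norm of `X → ℝ` being the sup norm, `Metric.mem_closure_iff` gives an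
element of `C` at distance `< τ` from `f`, and `dist_pi_le`/`dist_le_pi_dist`/`Real.dist_eq` finish.
Proof of the claim. `closure C` is closed and convex (`Convex.closure`), nonempty. If `f ∉ closure C`,
by `geometric_hahn_banach_point_closed` there are a continuous linear functional `ℓ` on `X → ℝ` and `u : ℝ`
with `ℓ f < u` and `u < ℓ g` for all `g ∈ closure C`. As `0 ∈ C`, `u < 0`; and for `g ∈ C`,
`ℓ g ≥ 0`: otherwise `t • g ∈ C` with `t` large gives `ℓ (t • g) < u`. So `ℓ ≥ 0` on `C` and `ℓ f < 0`.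
Put `w x := ℓ (Pi.single x 1)`, so `ℓ g = ∑ x, w x * g x` for all `g`
(`pi_eq_sum_univ`, `map_sum`). The constant function `1` is in `C` (`mu = 1`), so `S := ∑ x, w x ≥ 0`.
Let `z := ∑ x, w x • pt x`, so `A i z = ∑ x, w x • A i (pt x)` and `o z = ∑ x, w x * o (pt x)`, and
`ℓ f = o z + S * c`. For each `i`, `λ : Fin m → ℝ` and `κ` with `∑ j, λ j * v j ≤ κ` on `K i`, the function
`fun x => κ - ∑ j, λ j * A i (pt x) j` is in `C` (all other data `0`; `lam := Pi.single i λ`,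
`κ := Pi.single i κ`), so (*) `0 ≤ S * κ - ∑ j, λ j * A i z j`.
 * Case `S > 0`. Let `y := S⁻¹ • z`. Then `A i y ∈ K i` for all `i`: if not, `K i` being closed and
   convex (and nonempty, it contains `A i (pt x₀)`), `geometric_hahn_banach_closed_point` gives a linear
   functional `v ↦ ∑ j, λ j * v j` and `κ` with `∑ j, λ j v j < κ` on `K i` and `κ < ∑ j, λ j * A i y j`, which
   contradicts (*) divided by `S`. So `y` is feasible, `0 ≤ o y + c`, and `ℓ f = S (o y + c) ≥ 0`, a contradiction.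
 * Case `S = 0`. Fix `x₀ : X`. For every `t ≥ 0` the point `y_t := pt x₀ + t • z` is feasible: if
   `A i y_t ∉ K i`, separate as before: `∑ j, λ j v j < κ` on `K i` and `κ < ∑ j, λ j * A i y_t j =
   ∑ j, λ j * A i (pt x₀) j + t * ∑ j, λ j * A i z j ≤ κ + 0`, using (*) with `S = 0`; a contradiction. So
   `0 ≤ o (pt x₀) + t * o z + c` for all `t ≥ 0`, hence `o z ≥ 0` (otherwise take `t` large), and
   `ℓ f = o z ≥ 0`, a contradiction.
-/

set_option autoImplicit false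

open scoped Classical
open Finset

namespace Pool.Agent.Lib.MP_8d8c46_lc.EL

/-- a continuous linear functional on `Fin m → ℝ` is given by its coefficients -/
private lemma CV4_coeff {ι : Type} [Fintype ι] (f : (ι → ℝ) →L[ℝ] ℝ) :
    ∃ lam : ι → ℝ, ∀ v : ι → ℝ, f v = ∑ j, lam j * v j := by
  refine ⟨fun j => f (Pi.single j 1), fun v => ?_⟩
  conv_lhs => rw [pi_eq_sum_univ' v]
  rw [map_sum]
  refine sum_congr rfl (fun j _ => ?_)
  rw [map_smul, smul_eq_mul, mul_comm]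

/-- Separation of a point from a closed convex set, with explicit coefficients. -/
private lemma CV4_sep {m : ℕ} {K : Set (Fin m → ℝ)} (hc : Convex ℝ K) (hcl : IsClosed K)
    {v : Fin m → ℝ} (hv : v ∉ K) :
    ∃ (lam : Fin m → ℝ) (κ : ℝ), (∀ z ∈ K, ∑ j, lam j * z j < κ) ∧ κ < ∑ j, lam j * v j := by
  obtain ⟨f, u, h1, h2⟩ := geometric_hahn_banach_closed_point hc hcl hv
  obtain ⟨lam, hlam⟩ := CV4_coeff f
  refine ⟨lam, u, fun z hz => ?_, ?_⟩
  · rw [← hlam z]; exact h1 z hz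
  · rw [← hlam v]; exact h2

theorem approx_dual {X : Type} [Fintype X] [Nonempty X] {n R m : ℕ}
    (A : Fin R → (Fin n → ℝ) →ₗ[ℝ] (Fin m → ℝ)) (K : Fin R → Set (Fin m → ℝ))
    (hc : ∀ i, Convex ℝ (K i)) (hcl : ∀ i, IsClosed (K i)) (pt : X → Fin n → ℝ)
    (hpt : ∀ x i, A i (pt x) ∈ K i) (o : (Fin n → ℝ) →ₗ[ℝ] ℝ) (c : ℝ)
    (ho : ∀ y, (∀ i, A i y ∈ K i) → 0 ≤ o y + c) {τ : ℝ} (hτ : 0 < τ) :
    ∃ (lam : Fin R → Fin m → ℝ) (κ : Fin R → ℝ) (mu : ℝ), 0 ≤ mu ∧
      (∀ i, ∀ z ∈ K i, ∑ j, lam i j * z j ≤ κ i) ∧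
      ∀ x, |o (pt x) + c - (mu + ∑ i, (κ i - ∑ j, lam i j * A i (pt x) j))| ≤ τ := by
  set F : (Fin R → Fin m → ℝ) → (Fin R → ℝ) → ℝ → X → ℝ := fun lam κ mu x =>
    mu + ∑ i, (κ i - ∑ j, lam i j * A i (pt x) j) with hF
  set C : Set (X → ℝ) := {g | ∃ (lam : Fin R → Fin m → ℝ) (κ : Fin R → ℝ) (mu : ℝ), 0 ≤ mu ∧
    (∀ i, ∀ z ∈ K i, ∑ j, lam i j * z j ≤ κ i) ∧ g = F lam κ mu} with hC
  have hsmul : ∀ t : ℝ, 0 ≤ t → ∀ g ∈ C, t • g ∈ C := by
    rintro t ht g ⟨lam, κ, mu, h1, h2, rfl⟩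
    refine ⟨fun i j => t * lam i j, fun i => t * κ i, t * mu, mul_nonneg ht h1, fun i z hz => ?_, ?_⟩
    · calc ∑ j, t * lam i j * z j = t * ∑ j, lam i j * z j := by
            rw [mul_sum]; exact sum_congr rfl (fun j _ => by ring)
        _ ≤ t * κ i := mul_le_mul_of_nonneg_left (h2 i z hz) ht
    · funext x
      simp only [hF, Pi.smul_apply, smul_eq_mul]
      rw [mul_add, mul_sum]
      congr 1
      refine sum_congr rfl (fun i _ => ?_)
      rw [mul_sub, mul_sum]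
      congr 1
      exact sum_congr rfl (fun j _ => by ring)
  have hadd : ∀ g ∈ C, ∀ g' ∈ C, g + g' ∈ C := by
    rintro g ⟨lam, κ, mu, h1, h2, rfl⟩ g' ⟨lam', κ', mu', h1', h2', rfl⟩
    refine ⟨fun i j => lam i j + lam' i j, fun i => κ i + κ' i, mu + mu', add_nonneg h1 h1',
      fun i z hz => ?_, ?_⟩
    · calc ∑ j, (lam i j + lam' i j) * z j = ∑ j, lam i j * z j + ∑ j, lam' i j * z j := by
            rw [← sum_add_distrib]; exact sum_congr rfl (fun j _ => by ring)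
        _ ≤ κ i + κ' i := add_le_add (h2 i z hz) (h2' i z hz)
    · funext x
      simp only [hF, Pi.add_apply]
      have : ∀ i, κ i + κ' i - ∑ j, (lam i j + lam' i j) * A i (pt x) j =
          (κ i - ∑ j, lam i j * A i (pt x) j) + (κ' i - ∑ j, lam' i j * A i (pt x) j) := by
        intro i
        have : ∑ j, (lam i j + lam' i j) * A i (pt x) j =
            ∑ j, lam i j * A i (pt x) j + ∑ j, lam' i j * A i (pt x) j := by
          rw [← sum_add_distrib]; exact sum_congr rfl (fun j _ => by ring)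
        rw [this]; ring
      simp only [this]
      rw [sum_add_distrib]
      ring
  have hzero : (0 : X → ℝ) ∈ C := by
    refine ⟨fun _ _ => 0, fun _ => 0, 0, le_rfl, fun i z _ => by simp, ?_⟩
    funext x
    simp [hF]
  have hone : (fun _ => 1 : X → ℝ) ∈ C := by
    refine ⟨fun _ _ => 0, fun _ => 0, 1, zero_le_one, fun i z _ => by simp, ?_⟩
    funext x
    simp [hF]
  have hconv : Convex ℝ C := by
    intro g hg g' hg' a b ha hb _
    exact hadd _ (hsmul a ha g hg) _ (hsmul b hb g' hg')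
  set f : X → ℝ := fun x => o (pt x) + c with hf
  have hmem : f ∈ closure C := by
    by_contra hnot
    obtain ⟨ℓ, u, h1, h2⟩ := geometric_hahn_banach_point_closed hconv.closure isClosed_closure hnot
    have hu : u < 0 := by
      have := h2 0 (subset_closure hzero)
      rwa [map_zero] at this
    have hℓ : ∀ g ∈ C, 0 ≤ ℓ g := by
      intro g hg
      by_contra hneg
      push Not at hneg
      have h3 := h2 _ (subset_closure (hsmul (u / ℓ g) (div_nonneg_of_nonpos hu.le hneg.le) g hg))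
      rw [map_smul, smul_eq_mul, div_mul_cancel₀ _ hneg.ne] at h3
      exact lt_irrefl _ h3
    have hℓf : ℓ f < 0 := h1.trans hu
    obtain ⟨w, hℓw⟩ := CV4_coeff ℓ
    set S : ℝ := ∑ x, w x with hS
    have hS0 : 0 ≤ S := by
      have := hℓ _ hone
      rw [hℓw] at this
      simpa [hS] using this
    set z : Fin n → ℝ := ∑ x, w x • pt x with hz
    have hAz : ∀ i j, A i z j = ∑ x, w x * A i (pt x) j := by
      intro i j
      rw [hz, map_sum, Finset.sum_apply]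
      refine sum_congr rfl (fun x _ => ?_)
      rw [map_smul, Pi.smul_apply, smul_eq_mul]
    have hoz : o z = ∑ x, w x * o (pt x) := by
      rw [hz, map_sum]
      refine sum_congr rfl (fun x _ => ?_)
      rw [map_smul, smul_eq_mul]
    have hℓf' : ℓ f = o z + S * c := by
      rw [hℓw, hoz, hS, sum_mul, ← sum_add_distrib]
      refine sum_congr rfl (fun x _ => ?_)
      rw [hf]; ring
    -- the inequality for one constraint
    have hstar : ∀ (i : Fin R) (lam : Fin m → ℝ) (κ : ℝ), (∀ v ∈ K i, ∑ j, lam j * v j ≤ κ) →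
        ∑ j, lam j * A i z j ≤ S * κ := by
      intro i lam κ hκ
      have h3 : (fun x => κ - ∑ j, lam j * A i (pt x) j : X → ℝ) ∈ C := by
        refine ⟨fun i' j => if i' = i then lam j else 0, fun i' => if i' = i then κ else 0, 0, le_rfl,
          fun i' v hv => ?_, ?_⟩
        · by_cases hi : i' = i
          · subst hi
            simpa using hκ v hv
          · simp [hi]
        · funext x
          simp only [hF]
          rw [zero_add, Finset.sum_eq_single i]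
          · simp
          · intro i' _ hi'
            simp [hi']
          · intro h; exact absurd (mem_univ i) h
      have h4 := hℓ _ h3
      rw [hℓw] at h4
      have h5 : ∑ x, w x * (κ - ∑ j, lam j * A i (pt x) j) = S * κ - ∑ j, lam j * A i z j := by
        have h6 : ∑ j, lam j * A i z j = ∑ x, w x * ∑ j, lam j * A i (pt x) j := by
          simp only [hAz, mul_sum]
          rw [sum_comm]
          refine sum_congr rfl (fun x _ => sum_congr rfl (fun j _ => by ring))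
        rw [h6, hS, sum_mul, ← sum_sub_distrib]
        exact sum_congr rfl (fun x _ => by ring)
      rw [h5] at h4
      linarith
    rcases hS0.lt_or_eq with hpos | hzero'
    · -- the case `S > 0`
      have hfeas : ∀ i, A i (S⁻¹ • z) ∈ K i := by
        intro i
        by_contra hni
        obtain ⟨lam, κ, h3, h4⟩ := CV4_sep (hc i) (hcl i) hni
        have h5 := hstar i lam κ (fun v hv => (h3 v hv).le)
        have h6 : ∑ j, lam j * A i (S⁻¹ • z) j = S⁻¹ * ∑ j, lam j * A i z j := by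
          rw [map_smul, mul_sum]
          refine sum_congr rfl (fun j _ => ?_)
          rw [Pi.smul_apply, smul_eq_mul]; ring
        rw [h6] at h4
        have h7 : S⁻¹ * ∑ j, lam j * A i z j ≤ S⁻¹ * (S * κ) :=
          mul_le_mul_of_nonneg_left h5 (inv_pos.2 hpos).le
        rw [← mul_assoc, inv_mul_cancel₀ hpos.ne', one_mul] at h7
        linarith
      have h3 := ho _ hfeas
      rw [map_smul, smul_eq_mul] at h3
      have h4 := mul_nonneg hpos.le h3
      rw [mul_add, ← mul_assoc, mul_inv_cancel₀ hpos.ne', one_mul] at h4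
      rw [hℓf'] at hℓf
      linarith
    · -- the case `S = 0`
      obtain ⟨x₀⟩ : Nonempty X := inferInstance
      have hfeas : ∀ t : ℝ, 0 ≤ t → ∀ i, A i (pt x₀ + t • z) ∈ K i := by
        intro t ht i
        by_contra hni
        obtain ⟨lam, κ, h3, h4⟩ := CV4_sep (hc i) (hcl i) hni
        have h5 := hstar i lam κ (fun v hv => (h3 v hv).le)
        rw [← hzero', zero_mul] at h5
        have h6 : ∑ j, lam j * A i (pt x₀ + t • z) j =
            ∑ j, lam j * A i (pt x₀) j + t * ∑ j, lam j * A i z j := by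
          rw [map_add, map_smul, mul_sum, ← sum_add_distrib]
          refine sum_congr rfl (fun j _ => ?_)
          rw [Pi.add_apply, Pi.smul_apply, smul_eq_mul]; ring
        have h7 := h3 _ (hpt x₀ i)
        have h8 := mul_nonpos_of_nonneg_of_nonpos ht h5
        rw [h6] at h4
        linarith
      have h3 : 0 ≤ o z := by
        by_contra hneg
        push Not at hneg
        have h4 := ho _ (hfeas ((|o (pt x₀) + c| + 1) / (-(o z)))
          (div_nonneg (by positivity) (by linarith)))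
        rw [map_add, map_smul, smul_eq_mul] at h4
        have h5 : (|o (pt x₀) + c| + 1) / (-(o z)) * o z = -(|o (pt x₀) + c| + 1) := by
          rw [div_mul_eq_mul_div, div_neg, mul_div_assoc, div_self hneg.ne, mul_one]
        rw [h5] at h4
        have := le_abs_self (o (pt x₀) + c)
        linarith
      rw [hℓf', ← hzero', zero_mul, add_zero] at hℓf
      linarith
  obtain ⟨g, ⟨lam, κ, mu, h1, h2, rfl⟩, hdist⟩ := Metric.mem_closure_iff.1 hmem τ hτ
  refine ⟨lam, κ, mu, h1, h2, fun x => ?_⟩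
  have h3 := (dist_le_pi_dist f (F lam κ mu) x).trans hdist.le
  rw [Real.dist_eq] at h3
  exact h3

end Pool.Agent.Lib.MP_8d8c46_lc.EL
end

section

/-!
# CV2: orthonormal coordinates on a finite-dimensional space of functions

PROOF. Let `n = card X > 0`. Transport `E` to a submodule `E'` of `EuclideanSpace ℝ X`
(`E' := E.map (WithLp.linearEquiv 2 ℝ (X → ℝ)).symm.toLinearMap` or similar); `finrank E' = finrank E`
(`LinearEquiv.finrank_map_eq`). Let `b := stdOrthonormalBasis ℝ E'`, an orthonormal basis indexed by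
`Fin (finrank ℝ E')`. For `j : Fin m` put
`e j := fun x => √n * ((b ⟨j, hj⟩ : E') : EuclideanSpace ℝ X) x` if `hj : (j : ℕ) < finrank ℝ E'`, and `0` otherwise.
Then `avg (e j ^ 2) = (∑ x, n * (b_j x)^2) / n = ‖b_j‖² = 1` (or `0`).
For `g ∈ E` let `g' ∈ E'` be its image, `g' = ∑ i, ⟪b i, g'⟫ • b i` (`b.sum_repr`), put
`c j := ⟪b_j, g'⟫ / √n` (`0` if `j` is out of range). Then `g x = ∑ j, c j * e j x` and
`∑ j, c j ^ 2 = (∑ i, ⟪b i, g'⟫ ^ 2) / n = ‖g'‖² / n = (∑ x, g x ^ 2) / n = avg (g ^ 2)`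
(`b.sum_sq_norm_inner_right`/`OrthonormalBasis.sum_sq_norm_inner...` or `EuclideanSpace.norm_eq` with
`b.repr.norm_map`). For the sums over `Fin m` versus `Fin (finrank)`: both are equal because the
extra terms vanish (`Fin.castLE`, `Finset.sum_subset`, or `Fin.sum_univ_eq_sum_range`).
(Any other proof is fine, e.g. induction on the dimension.)
-/

set_option autoImplicit false
set_option linter.unusedSectionVars false

open scoped Classical
open Finset

namespace Pool.Agent.Lib.MP_8d8c46_lc.EL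

private lemma CV2_sum_fin {k m : ℕ} (hk : k ≤ m) (f : Fin k → ℝ) :
    ∑ j : Fin m, (if hj : (j : ℕ) < k then f ⟨j, hj⟩ else 0) = ∑ i : Fin k, f i := by
  obtain ⟨d, rfl⟩ := Nat.exists_eq_add_of_le hk
  rw [Fin.sum_univ_add]
  have h1 : ∀ i : Fin k, (if hj : ((Fin.castAdd d i : Fin (k + d)) : ℕ) < k then
      f ⟨(Fin.castAdd d i : Fin (k + d)), hj⟩ else 0) = f i := by
    intro i
    rw [dif_pos (by simp)]
    rfl
  have h2 : ∀ i : Fin d, (if hj : ((Fin.natAdd k i : Fin (k + d)) : ℕ) < k then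
      f ⟨(Fin.natAdd k i : Fin (k + d)), hj⟩ else 0) = 0 := by
    intro i
    rw [dif_neg (by simp)]
  rw [Finset.sum_congr rfl (fun i _ => h1 i), Finset.sum_congr rfl (fun i _ => h2 i)]
  simp

private lemma CV2_norm {X : Type} [Fintype X] (v : EuclideanSpace ℝ X) :
    ∑ x, v x ^ 2 = ‖v‖ ^ 2 := by
  rw [EuclideanSpace.norm_sq_eq]
  refine Finset.sum_congr rfl fun x _ => ?_
  rw [Real.norm_eq_abs, sq_abs]

lemma exists_coords {X : Type} [Fintype X] [Nonempty X] (E : Submodule ℝ (X → ℝ)) {m : ℕ}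
    (hm : Module.finrank ℝ E ≤ m) :
    ∃ e : Fin m → X → ℝ, (∀ j, avg (fun x => e j x ^ 2) ≤ 1) ∧
      ∀ g ∈ E, ∃ c : Fin m → ℝ, (∀ x, g x = ∑ j, c j * e j x) ∧
        ∑ j, c j ^ 2 = avg (fun x => g x ^ 2) := by
  let L : (X → ℝ) ≃ₗ[ℝ] EuclideanSpace ℝ X := (WithLp.linearEquiv 2 ℝ (X → ℝ)).symm
  let E' : Submodule ℝ (EuclideanSpace ℝ X) := E.map (L : (X → ℝ) →ₗ[ℝ] EuclideanSpace ℝ X)
  have hfr : Module.finrank ℝ E' = Module.finrank ℝ E := LinearEquiv.finrank_map_eq L E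
  have hkm : Module.finrank ℝ E' ≤ m := hfr ▸ hm
  let b : OrthonormalBasis (Fin (Module.finrank ℝ E')) ℝ E' := stdOrthonormalBasis ℝ E'
  have hN : (0 : ℝ) < Fintype.card X := by exact_mod_cast Fintype.card_pos
  have hsN : (0 : ℝ) < √(Fintype.card X) := Real.sqrt_pos.2 hN
  have hsq : √(Fintype.card X : ℝ) ^ 2 = Fintype.card X := Real.sq_sqrt hN.le
  refine ⟨fun j x => if hj : (j : ℕ) < Module.finrank ℝ E' then
    √(Fintype.card X) * ((b ⟨j, hj⟩ : E') : EuclideanSpace ℝ X) x else 0, ?_, ?_⟩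
  · intro j
    by_cases hj : (j : ℕ) < Module.finrank ℝ E'
    · simp only [dif_pos hj]
      have h1 : ∑ x, ((b ⟨j, hj⟩ : E') : EuclideanSpace ℝ X) x ^ 2 = 1 := by
        rw [CV2_norm]
        have h2 : ‖((b ⟨j, hj⟩ : E') : EuclideanSpace ℝ X)‖ = 1 := b.orthonormal.1 ⟨j, hj⟩
        rw [h2, one_pow]
      unfold avg
      simp only [mul_pow, hsq]
      rw [← Finset.mul_sum, h1, mul_one, div_self hN.ne']
    · simp only [dif_neg hj]
      unfold avg
      simp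
  · intro g hg
    let g' : E' := ⟨L g, Submodule.mem_map_of_mem hg⟩
    have hg' : ∀ x, ((g' : E') : EuclideanSpace ℝ X) x = g x := fun x => rfl
    refine ⟨fun j => if hj : (j : ℕ) < Module.finrank ℝ E' then
      b.repr g' ⟨j, hj⟩ / √(Fintype.card X) else 0, ?_, ?_⟩
    · intro x
      have h1 : ∀ j : Fin m, (if hj : (j : ℕ) < Module.finrank ℝ E' then
          b.repr g' ⟨j, hj⟩ / √(Fintype.card X) else 0) *
          (if hj : (j : ℕ) < Module.finrank ℝ E' then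
            √(Fintype.card X) * ((b ⟨j, hj⟩ : E') : EuclideanSpace ℝ X) x else 0) =
          (if hj : (j : ℕ) < Module.finrank ℝ E' then
            b.repr g' ⟨j, hj⟩ * ((b ⟨j, hj⟩ : E') : EuclideanSpace ℝ X) x else 0) := by
        intro j
        by_cases hj : (j : ℕ) < Module.finrank ℝ E'
        · rw [dif_pos hj, dif_pos hj, dif_pos hj]
          field_simp
        · rw [dif_neg hj, dif_neg hj, dif_neg hj, mul_zero]
      rw [Finset.sum_congr rfl (fun j _ => h1 j), CV2_sum_fin hkm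
        (fun i => b.repr g' i * ((b i : E') : EuclideanSpace ℝ X) x)]
      have h2 : ((∑ i, b.repr g' i • b i : E') : EuclideanSpace ℝ X) = (g' : E') :=
        congrArg _ (b.sum_repr g')
      rw [← hg' x, ← h2, AddSubmonoidClass.coe_finsetSum]
      simp
    · have h1 : ∀ j : Fin m, (if hj : (j : ℕ) < Module.finrank ℝ E' then
          b.repr g' ⟨j, hj⟩ / √(Fintype.card X) else 0) ^ 2 =
          (if hj : (j : ℕ) < Module.finrank ℝ E' then
            b.repr g' ⟨j, hj⟩ ^ 2 / Fintype.card X else 0) := by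
        intro j
        by_cases hj : (j : ℕ) < Module.finrank ℝ E'
        · rw [dif_pos hj, dif_pos hj, div_pow, hsq]
        · rw [dif_neg hj, dif_neg hj]
          norm_num
      rw [Finset.sum_congr rfl (fun j _ => h1 j), CV2_sum_fin hkm
        (fun i => b.repr g' i ^ 2 / Fintype.card X), ← Finset.sum_div, CV2_norm,
        b.repr.norm_map]
      unfold avg
      congr 1
      have h3 : ‖g'‖ = ‖((g' : E') : EuclideanSpace ℝ X)‖ := rfl
      rw [h3, ← CV2_norm]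
      rfl

end Pool.Agent.Lib.MP_8d8c46_lc.EL
end

section

/-!
# CV3: a finite net inside a bounded set of `ℝᵐ`

PROOF. For `c ∈ G` every coordinate has `|c j| ≤ ρ` (since `c j ^ 2 ≤ ∑ c j ^ 2 ≤ ρ ^ 2`), so
`t j := ⌊(c j + ρ) / s⌋₊` is a natural number with `t j ≤ 2 ρ / s < B`. This defines
`cell : G → (Fin m → Fin B)`. Two points `c, w ∈ G` of the same cell have `|c j - w j| ≤ s` for all `j`
(both `(c j + ρ)/s` and `(w j + ρ)/s` lie in `[t j, t j + 1)`: `Nat.floor_le`, `Nat.lt_floor_add_one`),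
so `∑ j (c j - w j) ^ 2 ≤ m s ^ 2`. Let `W` be the image of the cells that occur under a choice of
a point of `G` in the cell: `W := (univ.filter (fun t => ∃ c ∈ G, cell c = t)).image pick`; its
cardinality is at most `card (Fin m → Fin B) = B ^ m`.
(If `B = 0` then `2 ρ / s < 0` is impossible.)
-/

set_option autoImplicit false

open scoped Classical
open Finset

namespace Pool.Agent.Lib.MP_8d8c46_lc.EL

lemma exists_net {m : ℕ} (G : Set (Fin m → ℝ)) {ρ s : ℝ} (hρ : 0 ≤ ρ) (hs : 0 < s)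
    (hG : ∀ c ∈ G, ∑ j, c j ^ 2 ≤ ρ ^ 2) {B : ℕ} (hB : 2 * ρ / s < B) :
    ∃ W : Finset (Fin m → ℝ), (∀ w ∈ W, w ∈ G) ∧ W.card ≤ B ^ m ∧
      ∀ c ∈ G, ∃ w ∈ W, ∑ j, (c j - w j) ^ 2 ≤ m * s ^ 2 := by
  have hcoord : ∀ c ∈ G, ∀ j, -ρ ≤ c j ∧ c j ≤ ρ := by
    intro c hc j
    have h1 : c j ^ 2 ≤ ρ ^ 2 :=
      (Finset.single_le_sum (f := fun j => c j ^ 2) (fun i _ => sq_nonneg _)
        (Finset.mem_univ j)).trans (hG c hc)
    exact abs_le.1 (abs_le_of_sq_le_sq h1 hρ)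
  have hlt : ∀ c ∈ G, ∀ j, ⌊(c j + ρ) / s⌋₊ < B := by
    intro c hc j
    obtain ⟨h1, h2⟩ := hcoord c hc j
    have h3 : (⌊(c j + ρ) / s⌋₊ : ℝ) ≤ (c j + ρ) / s :=
      Nat.floor_le (div_nonneg (by linarith) hs.le)
    have h4 : (c j + ρ) / s ≤ 2 * ρ / s := by
      apply div_le_div_of_nonneg_right _ hs.le
      linarith
    exact_mod_cast h3.trans_lt (h4.trans_lt hB)
  let cell : (Fin m → ℝ) → Fin m → ℕ := fun c j => ⌊(c j + ρ) / s⌋₊
  let pick : (Fin m → Fin B) → (Fin m → ℝ) := fun t =>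
    if h : ∃ c ∈ G, ∀ j, cell c j = t j then h.choose else 0
  refine ⟨(univ.filter (fun t : Fin m → Fin B => ∃ c ∈ G, ∀ j, cell c j = t j)).image pick,
    ?_, ?_, ?_⟩
  · intro w hw
    obtain ⟨t, ht, rfl⟩ := Finset.mem_image.1 hw
    have h := (Finset.mem_filter.1 ht).2
    simp only [pick, dif_pos h]
    exact h.choose_spec.1
  · refine Finset.card_image_le.trans ((Finset.card_filter_le _ _).trans ?_)
    rw [Finset.card_univ, Fintype.card_fun, Fintype.card_fin, Fintype.card_fin]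
  · intro c hc
    let t : Fin m → Fin B := fun j => ⟨cell c j, hlt c hc j⟩
    have ht : ∃ c ∈ G, ∀ j, cell c j = t j := ⟨c, hc, fun j => rfl⟩
    refine ⟨pick t, Finset.mem_image.2 ⟨t, Finset.mem_filter.2 ⟨Finset.mem_univ _, ht⟩, rfl⟩, ?_⟩
    have hp : pick t = ht.choose := by
      simp only [pick, dif_pos ht]
    obtain ⟨hw1, hw2⟩ := ht.choose_spec
    rw [← hp] at hw1 hw2
    have hj : ∀ j, (c j - pick t j) ^ 2 ≤ s ^ 2 := by
      intro j
      have e1 : ⌊(pick t j + ρ) / s⌋₊ = ⌊(c j + ρ) / s⌋₊ := hw2 j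
      have h1 := Nat.floor_le (div_nonneg (by linarith [(hcoord c hc j).1] : 0 ≤ c j + ρ) hs.le)
      have h2 := Nat.lt_floor_add_one ((c j + ρ) / s)
      have h3 := Nat.floor_le
        (div_nonneg (by linarith [(hcoord _ hw1 j).1] : 0 ≤ pick t j + ρ) hs.le)
      have h4 := Nat.lt_floor_add_one ((pick t j + ρ) / s)
      rw [e1] at h3 h4
      have h5 : (c j + ρ) / s - (pick t j + ρ) / s ≤ 1 := by linarith
      have h6 : -1 ≤ (c j + ρ) / s - (pick t j + ρ) / s := by linarith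
      rw [← sub_div] at h5 h6
      rw [div_le_one hs] at h5
      rw [le_div_iff₀ hs] at h6
      apply sq_le_sq'
      · linarith
      · linarith
    calc ∑ j, (c j - pick t j) ^ 2 ≤ ∑ _j : Fin m, s ^ 2 := Finset.sum_le_sum fun j _ => hj j
      _ = m * s ^ 2 := by rw [Finset.sum_const, Finset.card_univ, Fintype.card_fin, nsmul_eq_mul]

end Pool.Agent.Lib.MP_8d8c46_lc.EL
end

section

/-!
Farkas' lemma for finitely many linear functionals, and its affine form.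
-/

open scoped Classical
open Finset

namespace Pool.Agent.Lib.MP_8d8c46_lc

/-- Farkas' lemma. -/
theorem farkas_hom {V : Type*} [AddCommGroup V] [Module ℝ V] :
    ∀ (m : ℕ) (a : Fin m → (V →ₗ[ℝ] ℝ)) (b : V →ₗ[ℝ] ℝ),
      (∀ x, (∀ i, 0 ≤ a i x) → 0 ≤ b x) →
      ∃ lam : Fin m → ℝ, (∀ i, 0 ≤ lam i) ∧ ∀ x, b x = ∑ i, lam i * a i x := by
  intro m
  induction m with
  | zero =>
    intro a b h
    refine ⟨fun i => 0, fun i => le_rfl, fun x => ?_⟩
    have h1 := h x (fun i => i.elim0)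
    have h2 := h (-x) (fun i => i.elim0)
    rw [map_neg] at h2
    simp only [univ_eq_empty, sum_empty]
    linarith
  | succ m ih =>
    intro a b h
    by_cases hc : ∀ x, (∀ i : Fin m, 0 ≤ a i.castSucc x) → 0 ≤ b x
    · obtain ⟨lam, h1, h2⟩ := ih (fun i => a i.castSucc) b hc
      refine ⟨Fin.snoc lam 0, fun i => ?_, fun x => ?_⟩
      · refine Fin.lastCases ?_ (fun i => ?_) i
        · rw [Fin.snoc_last]
        · rw [Fin.snoc_castSucc]; exact h1 i
      · rw [Fin.sum_univ_castSucc, Fin.snoc_last, zero_mul, add_zero, h2]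
        exact sum_congr rfl (fun i _ => by rw [Fin.snoc_castSucc])
    · push Not at hc
      obtain ⟨z, hz, hbz⟩ := hc
      have hlast : a (Fin.last m) z < 0 := by
        by_contra hcon
        push Not at hcon
        have := h z (fun i => by
          refine Fin.lastCases ?_ (fun i => ?_) i
          · exact hcon
          · exact hz i)
        linarith
      -- normalise
      set r : ℝ := -(a (Fin.last m) z) with hr
      have hr0 : 0 < r := by rw [hr]; linarith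
      set z' : V := r⁻¹ • z with hz'
      have hl' : a (Fin.last m) z' = -1 := by
        rw [hz', map_smul, smul_eq_mul]
        have : a (Fin.last m) z = -r := by rw [hr]; ring
        rw [this]; field_simp
      have hb' : b z' < 0 := by
        rw [hz', map_smul, smul_eq_mul]
        exact mul_neg_of_pos_of_neg (inv_pos.2 hr0) hbz
      have ha' : ∀ i : Fin m, 0 ≤ a i.castSucc z' := by
        intro i
        rw [hz', map_smul, smul_eq_mul]
        exact mul_nonneg (inv_pos.2 hr0).le (hz i)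
      set a' : Fin m → (V →ₗ[ℝ] ℝ) := fun i =>
        a i.castSucc + (a i.castSucc z') • a (Fin.last m) with hadef
      set b' : V →ₗ[ℝ] ℝ := b + (b z') • a (Fin.last m) with hbdef
      have hshift : ∀ (f : V →ₗ[ℝ] ℝ) (x : V),
          (f + (f z') • a (Fin.last m)) x = f (x + (a (Fin.last m) x) • z') := by
        intro f x
        have e : f ((a (Fin.last m) x) • z') = (a (Fin.last m) x) * f z' := by
          rw [LinearMap.map_smul, smul_eq_mul]
        rw [LinearMap.add_apply, LinearMap.smul_apply, map_add, e, smul_eq_mul, mul_comm]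
      obtain ⟨lam, h1, h2⟩ := ih a' b' (by
        intro x hx
        rw [hbdef, hshift]
        apply h
        intro i
        refine Fin.lastCases ?_ (fun i => ?_) i
        · rw [map_add, map_smul, smul_eq_mul, hl']
          apply le_of_eq; ring
        · have := hx i
          rw [hadef] at this
          simp only at this
          rw [hshift] at this
          exact this)
      refine ⟨Fin.snoc lam (∑ i, lam i * a i.castSucc z' - b z'), fun i => ?_, fun x => ?_⟩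
      · refine Fin.lastCases ?_ (fun i => ?_) i
        · rw [Fin.snoc_last]
          have : 0 ≤ ∑ i, lam i * a i.castSucc z' :=
            sum_nonneg (fun i _ => mul_nonneg (h1 i) (ha' i))
          linarith
        · rw [Fin.snoc_castSucc]; exact h1 i
      · rw [Fin.sum_univ_castSucc, Fin.snoc_last]
        have h3 := h2 x
        rw [hbdef, hadef] at h3
        simp only [LinearMap.add_apply, LinearMap.smul_apply, smul_eq_mul] at h3
        have h4 : ∑ i, lam i * (a i.castSucc x + a i.castSucc z' * a (Fin.last m) x) =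
            ∑ i, lam i * a i.castSucc x + (∑ i, lam i * a i.castSucc z') * a (Fin.last m) x := by
          rw [sum_mul, ← sum_add_distrib]
          exact sum_congr rfl (fun i _ => by ring)
        rw [h4] at h3
        have h5 : ∑ i : Fin m, (Fin.snoc lam (∑ i, lam i * a i.castSucc z' - b z') :
            Fin (m + 1) → ℝ) i.castSucc * a i.castSucc x = ∑ i, lam i * a i.castSucc x :=
          sum_congr rfl (fun i _ => by rw [Fin.snoc_castSucc])
        rw [h5]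
        linarith

/-- The affine form: a linear inequality that holds on a nonempty polyhedron is a nonnegative
combination of the defining inequalities. -/
theorem farkas_aff {n R : ℕ} (A : Fin R → Fin n → ℝ) (b : Fin R → ℝ) (w : Fin n → ℝ) (β : ℝ)
    (hne : ∃ y : Fin n → ℝ, ∀ i, ∑ t, A i t * y t ≤ b i)
    (h : ∀ y : Fin n → ℝ, (∀ i, ∑ t, A i t * y t ≤ b i) → β ≤ ∑ t, w t * y t) :
    ∃ (lam : Fin R → ℝ) (mu : ℝ), (∀ i, 0 ≤ lam i) ∧ 0 ≤ mu ∧
      ∀ y : Fin n → ℝ, ∑ t, w t * y t - β = mu + ∑ i, lam i * (b i - ∑ t, A i t * y t) := by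
  obtain ⟨y₀, hy₀⟩ := hne
  -- homogenisation
  let dotF : (Fin n → ℝ) → ((Fin n → ℝ) →ₗ[ℝ] ℝ) := fun c =>
    { toFun := fun y => ∑ t, c t * y t
      map_add' := fun y y' => by
        rw [← sum_add_distrib]
        exact sum_congr rfl (fun t _ => by rw [Pi.add_apply]; ring)
      map_smul' := fun r y => by
        rw [RingHom.id_apply, smul_eq_mul, mul_sum]
        exact sum_congr rfl (fun t _ => by rw [Pi.smul_apply, smul_eq_mul]; ring) }
  have hdot : ∀ c y, dotF c y = ∑ t, c t * y t := fun c y => rfl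
  let F : Fin (R + 1) → (((Fin n → ℝ) × ℝ) →ₗ[ℝ] ℝ) :=
    Fin.snoc (fun i => (b i) • LinearMap.snd ℝ (Fin n → ℝ) ℝ -
      (dotF (A i)).comp (LinearMap.fst ℝ (Fin n → ℝ) ℝ)) (LinearMap.snd ℝ (Fin n → ℝ) ℝ)
  let g : ((Fin n → ℝ) × ℝ) →ₗ[ℝ] ℝ :=
    (dotF w).comp (LinearMap.fst ℝ (Fin n → ℝ) ℝ) - β • LinearMap.snd ℝ (Fin n → ℝ) ℝ
  have hF1 : ∀ (i : Fin R) (x : (Fin n → ℝ) × ℝ), F i.castSucc x =
      b i * x.2 - ∑ t, A i t * x.1 t := by
    intro i x
    simp only [F, Fin.snoc_castSucc, LinearMap.sub_apply, LinearMap.smul_apply,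
      LinearMap.snd_apply, smul_eq_mul, LinearMap.comp_apply, LinearMap.fst_apply, hdot]
  have hF2 : ∀ x : (Fin n → ℝ) × ℝ, F (Fin.last R) x = x.2 := by
    intro x
    simp only [F, Fin.snoc_last, LinearMap.snd_apply]
  have hg : ∀ x : (Fin n → ℝ) × ℝ, g x = ∑ t, w t * x.1 t - β * x.2 := by
    intro x
    simp only [g, LinearMap.sub_apply, LinearMap.smul_apply,
      LinearMap.snd_apply, smul_eq_mul, LinearMap.comp_apply, LinearMap.fst_apply, hdot]
  obtain ⟨lam, h1, h2⟩ := farkas_hom (R + 1) F g (by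
    rintro ⟨y, r⟩ hx
    have hr : 0 ≤ r := by
      have := hx (Fin.last R)
      rwa [hF2] at this
    have hy : ∀ i, ∑ t, A i t * y t ≤ b i * r := by
      intro i
      have := hx i.castSucc
      rw [hF1] at this
      simp only at this
      linarith
    rw [hg]
    simp only
    rcases hr.eq_or_lt with hr0 | hr0
    · -- recession direction
      rw [← hr0, mul_zero, sub_zero]
      by_contra hcon
      push Not at hcon
      -- go far along `y`
      set W := ∑ t, w t * y t with hW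
      set s : ℝ := (∑ t, w t * y₀ t - β + 1) / (-W) with hs
      have hpos : 0 < -W := by linarith
      have hnum : 0 ≤ ∑ t, w t * y₀ t - β := by have := h y₀ hy₀; linarith
      have hs0 : 0 ≤ s := div_nonneg (by linarith) hpos.le
      have hfe : ∀ i, ∑ t, A i t * (y₀ t + s * y t) ≤ b i := by
        intro i
        have e : ∑ t, A i t * (y₀ t + s * y t) = ∑ t, A i t * y₀ t + s * ∑ t, A i t * y t := by
          rw [mul_sum, ← sum_add_distrib]
          exact sum_congr rfl (fun t _ => by ring)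
        have h3 := hy i
        rw [← hr0, mul_zero] at h3
        rw [e]
        nlinarith [hy₀ i]
      have h3 := h (fun t => y₀ t + s * y t) hfe
      have e : ∑ t, w t * (y₀ t + s * y t) = ∑ t, w t * y₀ t + s * W := by
        rw [hW, mul_sum, ← sum_add_distrib]
        exact sum_congr rfl (fun t _ => by ring)
      rw [e] at h3
      have h4 : s * (-W) = ∑ t, w t * y₀ t - β + 1 := by
        rw [hs, div_mul_cancel₀ _ hpos.ne']
      linarith
    · have hfe : ∀ i, ∑ t, A i t * (y t / r) ≤ b i := by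
        intro i
        have e : ∑ t, A i t * (y t / r) = (∑ t, A i t * y t) / r := by
          rw [sum_div]; exact sum_congr rfl (fun t _ => by ring)
        rw [e, div_le_iff₀ hr0]
        exact hy i
      have h3 := h (fun t => y t / r) hfe
      have e : ∑ t, w t * (y t / r) = (∑ t, w t * y t) / r := by
        rw [sum_div]; exact sum_congr rfl (fun t _ => by ring)
      rw [e, le_div_iff₀ hr0] at h3
      linarith)
  refine ⟨fun i => lam i.castSucc, lam (Fin.last R), fun i => h1 _, h1 _, fun y => ?_⟩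
  have h3 := h2 (y, 1)
  rw [hg, Fin.sum_univ_castSucc, hF2] at h3
  simp only [mul_one, hF1] at h3
  rw [h3, add_comm]

end Pool.Agent.Lib.MP_8d8c46_lc
end

section

/-!
The choice of the parameters.
-/

set_option autoImplicit false

open Filter Topology

namespace Pool.Agent.Lib.MP_8d8c46_lc.EL

/-- `m` is large -/
lemma exists_m {ρ A Γ : ℝ} (h0 : 0 ≤ ρ) (h1 : ρ < 1) :
    ∃ m : ℕ, 1 ≤ m ∧ 64 * ρ ^ m ≤ 1 / 4 ∧ 256 * (Γ * A) ≤ 2 ^ m := by
  have e1 : ∀ᶠ m : ℕ in atTop, ρ ^ m ≤ 1 / 256 :=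
    (tendsto_pow_atTop_nhds_zero_of_lt_one h0 h1).eventually_le_const (by norm_num)
  have e2 : ∀ᶠ m : ℕ in atTop, 256 * (Γ * A) ≤ (2 : ℝ) ^ m :=
    (tendsto_pow_atTop_atTop_of_one_lt (by norm_num : (1 : ℝ) < 2)).eventually_ge_atTop _
  obtain ⟨m, hm1, hm2, hm3⟩ := ((eventually_ge_atTop 1).and (e1.and e2)).exists
  exact ⟨m, hm1, by linarith, hm3⟩

/-- the number of rounds -/
lemma p_rounds {q d m : ℕ} (hq : 0 < q) {ρ : ℝ} (h0 : 0 ≤ ρ) (h1 : ρ < 1)
    (hm : 64 * ρ ^ m ≤ 1 / 4) :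
    ∀ᶠ a : ℕ in atTop, ∀ L : ℕ, m * a ≤ L → L < m * (a + 1) →
      ((8 ^ a * q + (8 ^ a * q) ^ 2 * (L + 1) : ℕ) : ℝ) * ((1 + d) * ρ ^ L) < 1 - ρ ^ 2 := by
  have hρ2 : ρ ^ 2 < 1 := by nlinarith
  have e1 : Tendsto (fun a : ℕ => (q : ℝ) ^ 2 * (1 + d) * ((m * (a + 1) + 1) * (1 / 4) ^ a)) atTop
      (𝓝 0) := by
    have h2 : Tendsto (fun a : ℕ => (a : ℝ) * (1 / 4) ^ a) atTop (𝓝 0) :=
      tendsto_self_mul_const_pow_of_lt_one (by norm_num) (by norm_num)
    have h3 : Tendsto (fun a : ℕ => ((1 : ℝ) / 4) ^ a) atTop (𝓝 0) :=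
      tendsto_pow_atTop_nhds_zero_of_lt_one (by norm_num) (by norm_num)
    have h4 := (((h2.const_mul (m : ℝ)).add (h3.const_mul ((m : ℝ) + 1))).const_mul
      ((q : ℝ) ^ 2 * (1 + d)))
    rw [mul_zero, mul_zero, add_zero, mul_zero] at h4
    refine h4.congr (fun a => ?_)
    ring
  filter_upwards [e1.eventually_lt_const (sub_pos.2 hρ2)] with a ha L hL1 hL2
  refine lt_of_le_of_lt ?_ ha
  have h5 : (8 ^ a * q + (8 ^ a * q) ^ 2 * (L + 1) : ℕ) ≤ (8 ^ a * q) ^ 2 * (m * (a + 1) + 1) := by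
    have h6 : 1 ≤ 8 ^ a * q := Nat.mul_pos (by positivity) hq
    have h7 : 8 ^ a * q ≤ (8 ^ a * q) ^ 2 := by nlinarith
    calc 8 ^ a * q + (8 ^ a * q) ^ 2 * (L + 1)
        ≤ (8 ^ a * q) ^ 2 + (8 ^ a * q) ^ 2 * (L + 1) := Nat.add_le_add_right h7 _
      _ = (8 ^ a * q) ^ 2 * (L + 2) := by ring
      _ ≤ (8 ^ a * q) ^ 2 * (m * (a + 1) + 1) := Nat.mul_le_mul_left _ (by omega)
  have h6 : ρ ^ L ≤ (ρ ^ m) ^ a := by
    rw [← pow_mul]
    exact pow_le_pow_of_le_one h0 h1.le hL1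
  have h8 : ((8 : ℝ) ^ a) ^ 2 * (ρ ^ m) ^ a ≤ (1 / 4) ^ a := by
    have : ((8 : ℝ) ^ a) ^ 2 * (ρ ^ m) ^ a = (64 * ρ ^ m) ^ a := by
      rw [mul_pow, ← pow_mul, mul_comm a 2, pow_mul]; norm_num
    rw [this]
    exact pow_le_pow_left₀ (by positivity) hm a
  calc ((8 ^ a * q + (8 ^ a * q) ^ 2 * (L + 1) : ℕ) : ℝ) * ((1 + d) * ρ ^ L)
      ≤ (((8 ^ a * q) ^ 2 * (m * (a + 1) + 1) : ℕ) : ℝ) * ((1 + d) * (ρ ^ m) ^ a) := by
        gcongr
    _ = (q : ℝ) ^ 2 * (1 + d) * ((m * (a + 1) + 1) * (((8 : ℝ) ^ a) ^ 2 * (ρ ^ m) ^ a)) := by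
        push_cast; ring
    _ ≤ _ := by gcongr

/-- the main condition -/
lemma p_main {m : ℕ} {A Γ y : ℝ} (hA : 1 ≤ A) (hΓ : 1 ≤ Γ) (hy : 0 < y)
    (hm : 256 * (Γ * A) ≤ 2 ^ m) :
    ∀ᶠ a : ℕ in atTop, ∀ L : ℕ, m * a ≤ L →
      (2 * A) ^ 2 * ((4 * Γ) ^ (a + 2) * (4 * A) ^ (a + 2) * (8 ^ a * 4 * (1 / 2) ^ L)) ≤
        y ^ 2 := by
  have e1 : Tendsto (fun a : ℕ => ((2 * A) ^ 2 * (16 * (Γ * A)) ^ 2 * 4) * (1 / 2) ^ a) atTop
      (𝓝 0) := by
    have h3 : Tendsto (fun a : ℕ => ((1 : ℝ) / 2) ^ a) atTop (𝓝 0) :=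
      tendsto_pow_atTop_nhds_zero_of_lt_one (by norm_num) (by norm_num)
    have h4 := h3.const_mul ((2 * A) ^ 2 * (16 * (Γ * A)) ^ 2 * 4)
    rw [mul_zero] at h4
    exact h4
  filter_upwards [e1.eventually_le_const (by positivity : 0 < y ^ 2)] with a ha L hL
  refine le_trans ?_ ha
  have hΓA : 0 < Γ * A := by positivity
  have h1 : ((1 : ℝ) / 2) ^ L ≤ (1 / 2 ^ m) ^ a := by
    calc ((1 : ℝ) / 2) ^ L ≤ (1 / 2) ^ (m * a) :=
          pow_le_pow_of_le_one (by norm_num) (by norm_num) hL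
      _ = (1 / 2 ^ m) ^ a := by rw [pow_mul, div_pow, one_pow]
  have h2 : (16 * (Γ * A)) ^ a * 8 ^ a * (1 / 2 ^ m) ^ a ≤ (1 / 2) ^ a := by
    rw [← mul_pow, ← mul_pow]
    refine pow_le_pow_left₀ (by positivity) ?_ a
    rw [mul_one_div, div_le_iff₀ (by positivity)]
    linarith
  calc (2 * A) ^ 2 * ((4 * Γ) ^ (a + 2) * (4 * A) ^ (a + 2) * (8 ^ a * 4 * (1 / 2) ^ L))
      = ((2 * A) ^ 2 * (16 * (Γ * A)) ^ 2 * 4) *
        ((16 * (Γ * A)) ^ a * 8 ^ a * (1 / 2) ^ L) := by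
        have : (4 * Γ) ^ (a + 2) * (4 * A) ^ (a + 2) = (16 * (Γ * A)) ^ a * (16 * (Γ * A)) ^ 2 := by
          rw [← mul_pow, ← pow_add]; ring
        rw [this]; ring
    _ ≤ ((2 * A) ^ 2 * (16 * (Γ * A)) ^ 2 * 4) *
        ((16 * (Γ * A)) ^ a * 8 ^ a * (1 / 2 ^ m) ^ a) := by gcongr
    _ ≤ _ := by gcongr

/-- the last condition -/
lemma p_fin {m : ℕ} {C Γ y : ℝ} (hC : 1 ≤ C) (hΓ : 1 ≤ Γ) (hy : 0 < y) (hy2 : 6 * y ≤ 1) :
    ∀ᶠ a : ℕ in atTop, ∀ L : ℕ, L < m * (a + 1) → ∀ u : ℝ, 0 ≤ u → u ≤ C ^ (L + 1) →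
      y ^ (2 * (8 ^ a - (2 ^ a + 2))) * (2 ^ (2 ^ a + 2) * (u * Γ) ^ (2 ^ a + 2) *
        2 ^ (2 ^ (a + 2))) ≤ 1 := by
  obtain ⟨β, hβ⟩ : ∃ β : ℕ, C * Γ ≤ 2 ^ β := by
    obtain ⟨β, hβ⟩ := pow_unbounded_of_one_lt (C * Γ) (by norm_num : (1 : ℝ) < 2)
    exact ⟨β, hβ.le⟩
  have e1 : ∀ᶠ a : ℕ in atTop, 3 * (1 + β * (m * (a + 1))) + 10 ≤ 2 * 4 ^ a := by
    have h2 : Tendsto (fun a : ℕ => (a : ℝ) * (1 / 4) ^ a) atTop (𝓝 0) :=
      tendsto_self_mul_const_pow_of_lt_one (by norm_num) (by norm_num)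
    have h3 : Tendsto (fun a : ℕ => ((1 : ℝ) / 4) ^ a) atTop (𝓝 0) :=
      tendsto_pow_atTop_nhds_zero_of_lt_one (by norm_num) (by norm_num)
    have h4 : Tendsto (fun a : ℕ => (3 * (1 + (β : ℝ) * (m * (a + 1))) + 10) * (1 / 4) ^ a) atTop
        (𝓝 0) := by
      have h5 := (h2.const_mul (3 * (β : ℝ) * m)).add (h3.const_mul (3 * (β : ℝ) * m + 13))
      rw [mul_zero, mul_zero, add_zero] at h5
      refine h5.congr (fun a => ?_)
      ring
    filter_upwards [h4.eventually_le_const (by norm_num : (0 : ℝ) < 2)] with a ha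
    have h6 : (3 * (1 + (β : ℝ) * (m * (a + 1))) + 10) ≤ 2 * 4 ^ a := by
      rw [one_div, inv_pow, ← div_eq_mul_inv, div_le_iff₀ (by positivity)] at ha
      exact ha
    exact_mod_cast h6
  filter_upwards [e1, eventually_ge_atTop 1] with a ha ha1 L hL u hu0 hu
  have h2a : (1 : ℕ) ≤ 2 ^ a := Nat.one_le_two_pow
  have h8 : 8 ^ a = 2 ^ a * 4 ^ a := by rw [← mul_pow]; norm_num
  have hD : 2 ^ a + 2 ≤ 3 * 2 ^ a := by omega
  have hD8 : 2 ^ a + 2 ≤ 8 ^ a := by
    rw [h8]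
    have h4 : 4 ≤ 4 ^ a := by
      calc 4 = 4 ^ 1 := by norm_num
        _ ≤ 4 ^ a := Nat.pow_le_pow_right (by norm_num) ha1
    nlinarith
  have hexp : (2 ^ a + 2) + β * (m * (a + 1)) * (2 ^ a + 2) + 2 ^ (a + 2) ≤
      2 * (8 ^ a - (2 ^ a + 2)) := by
    have h9 : (2 ^ a + 2) + β * (m * (a + 1)) * (2 ^ a + 2) + 2 ^ (a + 2) + 2 * (2 ^ a + 2) ≤
        2 * 8 ^ a := by
      calc (2 ^ a + 2) + β * (m * (a + 1)) * (2 ^ a + 2) + 2 ^ (a + 2) + 2 * (2 ^ a + 2)
          = (1 + β * (m * (a + 1))) * (2 ^ a + 2) + 2 ^ a * 4 + 2 * (2 ^ a + 2) := by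
            rw [pow_add]; ring
        _ ≤ (1 + β * (m * (a + 1))) * (3 * 2 ^ a) + 2 ^ a * 4 + 2 * (3 * 2 ^ a) := by gcongr
        _ = 2 ^ a * (3 * (1 + β * (m * (a + 1))) + 10) := by ring
        _ ≤ 2 ^ a * (2 * 4 ^ a) := Nat.mul_le_mul_left _ ha
        _ = 2 * 8 ^ a := by rw [h8]; ring
    omega
  have hy3 : y ≤ 1 / 2 := by linarith
  have h10 : y ^ (2 * (8 ^ a - (2 ^ a + 2))) ≤ (1 / 2) ^ (2 * (8 ^ a - (2 ^ a + 2))) :=
    pow_le_pow_left₀ hy.le hy3 _
  have h11 : u * Γ ≤ 2 ^ (β * (m * (a + 1))) := by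
    calc u * Γ ≤ C ^ (L + 1) * Γ ^ (L + 1) := by
          refine mul_le_mul hu ?_ (by linarith) (by positivity)
          calc Γ = Γ ^ 1 := (pow_one _).symm
            _ ≤ Γ ^ (L + 1) := pow_le_pow_right₀ hΓ (by omega)
      _ = (C * Γ) ^ (L + 1) := by rw [mul_pow]
      _ ≤ (2 ^ β) ^ (L + 1) := pow_le_pow_left₀ (by positivity) hβ _
      _ = 2 ^ (β * (L + 1)) := by rw [pow_mul]
      _ ≤ 2 ^ (β * (m * (a + 1))) :=
          pow_le_pow_right₀ (by norm_num) (Nat.mul_le_mul_left _ (by omega))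
  have h12 : (2 : ℝ) ^ (2 ^ a + 2) * (u * Γ) ^ (2 ^ a + 2) * 2 ^ (2 ^ (a + 2)) ≤
      2 ^ (2 * (8 ^ a - (2 ^ a + 2))) := by
    calc (2 : ℝ) ^ (2 ^ a + 2) * (u * Γ) ^ (2 ^ a + 2) * 2 ^ (2 ^ (a + 2))
        ≤ (2 : ℝ) ^ (2 ^ a + 2) * (2 ^ (β * (m * (a + 1)))) ^ (2 ^ a + 2) * 2 ^ (2 ^ (a + 2)) := by
          have : 0 ≤ u * Γ := by positivity
          gcongr
      _ = 2 ^ ((2 ^ a + 2) + β * (m * (a + 1)) * (2 ^ a + 2) + 2 ^ (a + 2)) := by
          rw [← pow_mul, ← pow_add, ← pow_add]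
      _ ≤ _ := pow_le_pow_right₀ (by norm_num) hexp
  calc y ^ (2 * (8 ^ a - (2 ^ a + 2))) * (2 ^ (2 ^ a + 2) * (u * Γ) ^ (2 ^ a + 2) *
        2 ^ (2 ^ (a + 2)))
      ≤ (1 / 2) ^ (2 * (8 ^ a - (2 ^ a + 2))) * 2 ^ (2 * (8 ^ a - (2 ^ a + 2))) := by
        have : 0 ≤ u * Γ := by positivity
        gcongr
    _ = 1 := by rw [← mul_pow]; norm_num

/-- the deleted edges -/
lemma p_del {q m : ℕ} (hm : 1 ≤ m) {ε : ℝ} (hε : 0 < ε) :
    ∀ᶠ a : ℕ in atTop, ∀ L : ℕ, m * a ≤ L → 16 * (q : ℝ) * L ^ 2 / 2 ^ L ≤ ε := by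
  have h5 : Tendsto (fun L : ℕ => 16 * (q : ℝ) * L ^ 2 / 2 ^ L) atTop (𝓝 0) := by
    have h6 : Tendsto (fun L : ℕ => (L : ℝ) ^ 2 * (1 / 2) ^ L) atTop (𝓝 0) :=
      tendsto_pow_const_mul_const_pow_of_abs_lt_one 2 (by rw [abs_lt]; constructor <;> norm_num)
    have h7 := h6.const_mul (16 * (q : ℝ))
    rw [mul_zero] at h7
    refine h7.congr (fun L => ?_)
    rw [one_div, inv_pow]
    ring
  obtain ⟨L₀, hL₀⟩ := eventually_atTop.1 (h5.eventually_le_const hε)
  filter_upwards [eventually_ge_atTop L₀] with a ha L hL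
  refine hL₀ L (ha.trans ?_)
  calc a = 1 * a := (one_mul a).symm
    _ ≤ m * a := Nat.mul_le_mul_right _ hm
    _ ≤ L := hL

lemma p_eps {ε : ℝ} (hε : 0 < ε) : ∀ᶠ a : ℕ in atTop, 32 ≤ ε * 2 ^ (2 ^ a) := by
  have h1 : Tendsto (fun a : ℕ => (2 : ℝ) ^ a) atTop atTop :=
    tendsto_pow_atTop_atTop_of_one_lt (by norm_num)
  filter_upwards [h1.eventually_ge_atTop (32 / ε)] with a ha
  rw [div_le_iff₀ hε] at ha
  have h2 : (2 : ℝ) ^ a ≤ 2 ^ (2 ^ a) :=
    pow_le_pow_right₀ (by norm_num) (Nat.lt_two_pow_self).le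
  nlinarith

end Pool.Agent.Lib.MP_8d8c46_lc.EL
end

section

/-!
The choice of the parameters.
-/

set_option autoImplicit false

open Filter Topology

namespace Pool.Agent.Lib.MP_8d8c46_lc.SA

/-- `ρ` and `τ` -/
lemma exists_rho {q : ℕ} (hq : 0 < q) {ε : ℝ} (hε : 0 < ε) :
    ∃ r τ : ℝ, 0 < r ∧ r < 1 ∧ 0 < τ ∧
      (q : ℝ) * (q * (τ + 16 * (1 - r ^ 4) / τ ^ 2)) ≤ ε / 2 := by
  have hq' : (1 : ℝ) ≤ q := by exact_mod_cast hq
  obtain ⟨e, he⟩ : ∃ e : ℝ, e = min ε 1 := ⟨_, rfl⟩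
  have he0 : 0 < e := by rw [he]; exact lt_min hε one_pos
  have he1 : e ≤ 1 := by rw [he]; exact min_le_right _ _
  have heε : e ≤ ε := by rw [he]; exact min_le_left _ _
  obtain ⟨τ, hτ⟩ : ∃ τ : ℝ, τ = e / (4 * q ^ 2) := ⟨_, rfl⟩
  have hτ0 : 0 < τ := by rw [hτ]; positivity
  have hτ1 : τ ≤ 1 := by
    rw [hτ, div_le_one (by positivity)]
    nlinarith
  obtain ⟨s, hs⟩ : ∃ s : ℝ, s = e * τ ^ 2 / (256 * q ^ 2) := ⟨_, rfl⟩
  have hs0 : 0 < s := by rw [hs]; positivity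
  have hs1 : s < 1 := by
    rw [hs, div_lt_one (by positivity)]
    have h1 : e * τ ^ 2 ≤ 1 * 1 ^ 2 :=
      mul_le_mul he1 (pow_le_pow_left₀ hτ0.le hτ1 2) (by positivity) (by norm_num)
    nlinarith
  refine ⟨1 - s, τ, by linarith, by linarith, hτ0, ?_⟩
  have h1 : 1 - (1 - s) ^ 4 ≤ 4 * s := by
    have := one_add_mul_le_pow (a := -s) (by linarith) 4
    have h2 : (1 + -s) ^ 4 = (1 - s) ^ 4 := by ring
    rw [h2] at this
    push_cast at this
    linarith
  have h2 : 16 * (1 - (1 - s) ^ 4) / τ ^ 2 ≤ 16 * (4 * s) / τ ^ 2 := by gcongr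
  have h3 : (q : ℝ) * (q * (τ + 16 * (4 * s) / τ ^ 2)) = e / 2 := by
    rw [hs]
    have : τ + 16 * (4 * (e * τ ^ 2 / (256 * q ^ 2))) / τ ^ 2 = τ + e / (4 * q ^ 2) := by
      field_simp
      ring
    rw [this, hτ]
    field_simp
    ring
  have h4 : (q : ℝ) * (q * (τ + 16 * (1 - (1 - s) ^ 4) / τ ^ 2)) ≤
      (q : ℝ) * (q * (τ + 16 * (4 * s) / τ ^ 2)) := by gcongr
  linarith

/-- `L` is large -/
lemma exists_L {q d : ℕ} {r C ε : ℝ} (hr0 : 0 < r) (hr1 : r < 1) (hε : 0 < ε) :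
    ∃ L₀ : ℕ, ∀ L ≥ L₀, 1 ≤ L ∧
      (q : ℝ) ^ 2 * C ^ 2 * (L + 2) * (1 + d) * (r ^ 2) ^ L < 1 - (r ^ 4) ^ 2 ∧
      16 * (q : ℝ) * L ^ 2 / 2 ^ L ≤ ε / 2 := by
  have hr2 : r ^ 2 < 1 := by nlinarith
  have hr8 : (r ^ 4) ^ 2 < 1 := by
    rw [← pow_mul]
    exact pow_lt_one₀ hr0.le hr1 (by norm_num)
  have h1 : Tendsto (fun L : ℕ => (q : ℝ) ^ 2 * C ^ 2 * (L + 2) * (1 + d) * (r ^ 2) ^ L)
      atTop (𝓝 0) := by
    have h2 : Tendsto (fun L : ℕ => (L : ℝ) * (r ^ 2) ^ L) atTop (𝓝 0) :=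
      tendsto_self_mul_const_pow_of_lt_one (by positivity) hr2
    have h3 : Tendsto (fun L : ℕ => (r ^ 2) ^ L) atTop (𝓝 0) :=
      tendsto_pow_atTop_nhds_zero_of_lt_one (by positivity) hr2
    have h4 := (h2.add (h3.const_mul 2)).const_mul ((q : ℝ) ^ 2 * C ^ 2 * (1 + d))
    rw [mul_zero, add_zero, mul_zero] at h4
    refine h4.congr (fun L => ?_)
    ring
  have h5 : Tendsto (fun L : ℕ => 16 * (q : ℝ) * L ^ 2 / 2 ^ L) atTop (𝓝 0) := by
    have h6 : Tendsto (fun L : ℕ => (L : ℝ) ^ 2 * (1 / 2) ^ L) atTop (𝓝 0) :=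
      tendsto_pow_const_mul_const_pow_of_abs_lt_one 2 (by rw [abs_lt]; constructor <;> norm_num)
    have h7 := h6.const_mul (16 * (q : ℝ))
    rw [mul_zero] at h7
    refine h7.congr (fun L => ?_)
    rw [one_div, inv_pow]
    ring
  have e1 := (h1.eventually_lt_const (sub_pos.2 hr8))
  have e2 := (h5.eventually_le_const (half_pos hε))
  obtain ⟨L₀, hL₀⟩ := eventually_atTop.1 ((eventually_ge_atTop 1).and (e1.and e2))
  exact ⟨L₀, fun L hL => hL₀ L hL⟩

/-- the main estimate for the number of rounds -/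
lemma rounds {q d E L k n : ℕ} {r c C : ℝ} (hr0 : 0 < r) (hc : 0 ≤ c)
    (hE : (E : ℝ) ^ c = 1 / r) (hk : (k : ℝ) ≤ (n : ℝ) ^ c)
    {m : ℕ} (hn : n ≤ m * E ^ L) (hC : C = (m : ℝ) ^ c) (hkq : 1 ≤ k * q)
    (hmain : (q : ℝ) ^ 2 * C ^ 2 * (L + 2) * (1 + d) * (r ^ 2) ^ L < 1 - (r ^ 4) ^ 2) :
    ((k * q + (k * q) ^ 2 * (L + 1) : ℕ) : ℝ) * ((1 + d) * (r ^ 4) ^ L) < 1 - (r ^ 4) ^ 2 := by
  have h1 : (n : ℝ) ^ c ≤ C / r ^ L := by
    calc (n : ℝ) ^ c ≤ ((m : ℝ) * (E : ℝ) ^ L) ^ c :=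
          Real.rpow_le_rpow (Nat.cast_nonneg _) (by exact_mod_cast hn) hc
      _ = C / r ^ L := by
          rw [Real.mul_rpow (Nat.cast_nonneg _) (by positivity), ← hC, ← Real.rpow_natCast,
            ← Real.rpow_mul (Nat.cast_nonneg _), mul_comm (L : ℝ) c,
            Real.rpow_mul (Nat.cast_nonneg _), hE, Real.rpow_natCast, one_div, inv_pow,
            div_eq_mul_inv]
  have hC0 : 0 ≤ C := by rw [hC]; positivity
  have h2 : (k : ℝ) ^ 2 * (r ^ 4) ^ L ≤ C ^ 2 * (r ^ 2) ^ L := by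
    calc (k : ℝ) ^ 2 * (r ^ 4) ^ L ≤ (C / r ^ L) ^ 2 * (r ^ 4) ^ L := by
          gcongr
          exact hk.trans h1
      _ = C ^ 2 * (r ^ 2) ^ L := by
          have h5 : r ^ (4 * L) = r ^ (2 * L) * r ^ (L * 2) := by
            rw [← pow_add]; congr 1; omega
          rw [div_pow, div_mul_eq_mul_div, mul_div_assoc, ← pow_mul, ← pow_mul, ← pow_mul, h5,
            mul_div_assoc, div_self (pow_pos hr0 _).ne', mul_one]
  have h3 : ((k * q + (k * q) ^ 2 * (L + 1) : ℕ) : ℝ) ≤ (k : ℝ) ^ 2 * (q ^ 2 * (L + 2)) := by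
    have h4 : k * q + (k * q) ^ 2 * (L + 1) ≤ k ^ 2 * (q ^ 2 * (L + 2)) := by nlinarith
    exact_mod_cast h4
  calc ((k * q + (k * q) ^ 2 * (L + 1) : ℕ) : ℝ) * ((1 + d) * (r ^ 4) ^ L)
      ≤ ((k : ℝ) ^ 2 * (q ^ 2 * (L + 2))) * ((1 + d) * (r ^ 4) ^ L) := by gcongr
    _ = (q ^ 2 * (L + 2) * (1 + d)) * ((k : ℝ) ^ 2 * (r ^ 4) ^ L) := by ring
    _ ≤ (q ^ 2 * (L + 2) * (1 + d)) * (C ^ 2 * (r ^ 2) ^ L) := by gcongr
    _ = (q : ℝ) ^ 2 * C ^ 2 * (L + 2) * (1 + d) * (r ^ 2) ^ L := by ring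
    _ < _ := hmain

/-- the bound for the deleted edges -/
lemma deleted {q d E L N R : ℕ} {ε : ℝ} (hd : 1 ≤ d) (hL : 1 ≤ L) (hE : E = 2 * (4 * d + 1) ^ 2)
    (hN : E ^ L ≤ N) (hR : (R : ℝ) ≤ 4 * (2 * ((2 * L : ℕ) : ℝ) ^ 2 * (4 * d + 1) ^ (2 * L)))
    (hmain : 16 * (q : ℝ) * L ^ 2 / 2 ^ L ≤ ε / 2) :
    (q : ℝ) * R / (d * ((2 * d * N : ℕ) : ℝ)) ≤ ε / 2 := by
  have hd' : (1 : ℝ) ≤ d := by exact_mod_cast hd
  have hN' : (2 : ℝ) ^ L * (4 * d + 1) ^ (2 * L) ≤ N := by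
    have h1 : 2 ^ L * (4 * d + 1) ^ (2 * L) ≤ N := by
      rw [hE, mul_pow, ← pow_mul] at hN
      exact hN
    exact_mod_cast h1
  have h2 : (0 : ℝ) < (2 : ℝ) ^ L * (4 * d + 1) ^ (2 * L) := by positivity
  have hN0 : (0 : ℝ) < N := h2.trans_le hN'
  refine le_trans ?_ hmain
  rw [div_le_div_iff₀ (by push_cast; positivity) (by positivity)]
  have hR' : (R : ℝ) ≤ 32 * L ^ 2 * (4 * d + 1) ^ (2 * L) := by
    refine hR.trans (le_of_eq ?_)
    push_cast
    ring
  calc (q : ℝ) * R * 2 ^ L ≤ (q : ℝ) * (32 * L ^ 2 * (4 * d + 1) ^ (2 * L)) * 2 ^ L := by gcongr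
    _ = 32 * (q : ℝ) * L ^ 2 * (2 ^ L * (4 * d + 1) ^ (2 * L)) := by ring
    _ ≤ 32 * (q : ℝ) * L ^ 2 * N := by gcongr
    _ = 16 * (q : ℝ) * L ^ 2 * (1 * (2 * 1 * N)) := by ring
    _ ≤ 16 * (q : ℝ) * L ^ 2 * (d * (2 * d * N)) := by gcongr
    _ = _ := by push_cast; ring

end Pool.Agent.Lib.MP_8d8c46_lc.SA
end
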