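import Pool.Agent.Lib.MP_8d8c46_lc.Avg

section

/-!
Characters of `Fin n → (Fin j → ZMod 2)` with values `±1`, and the level inequality for
bounded densities.
-/

open scoped Classical
open Finset

namespace Pool.Agent.Lib.MP_8d8c46_lc

/-- the sign `(-1) ^ t` -/
noncomputable def sg (t : ZMod 2) : ℝ := if t = 0 then 1 else -1

lemma sg_zero : sg 0 = 1 := if_pos rfl

lemma zmod2_cases (t : ZMod 2) : t = 0 ∨ t = 1 := by
  revert t; decide

lemma sg_one : sg 1 = -1 := if_neg (by decide)

lemma sg_add (s t : ZMod 2) : sg (s + t) = sg s * sg t := by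
  rcases zmod2_cases s with rfl | rfl <;> rcases zmod2_cases t with rfl | rfl
  · simp [sg_zero]
  · simp [sg_zero, sg_one]
  · simp [sg_zero, sg_one]
  · have : (1 : ZMod 2) + 1 = 0 := by decide
    rw [this, sg_zero, sg_one]; norm_num

lemma sg_mul_self (t : ZMod 2) : sg t * sg t = 1 := by
  rcases zmod2_cases t with rfl | rfl
  · simp [sg_zero]
  · simp [sg_one]

lemma abs_sg (t : ZMod 2) : |sg t| = 1 := by
  rcases zmod2_cases t with rfl | rfl
  · simp [sg_zero]
  · simp [sg_one]

lemma sg_le_one (t : ZMod 2) : sg t ≤ 1 := (le_abs_self _).trans (abs_sg t).le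

lemma sg_sum {ι : Type*} (s : Finset ι) (f : ι → ZMod 2) :
    sg (∑ i ∈ s, f i) = ∏ i ∈ s, sg (f i) := by
  induction s using Finset.induction_on with
  | empty => simp [sg_zero]
  | insert a s ha ih => rw [sum_insert ha, prod_insert ha, sg_add, ih]

lemma sum_sg_hom {X : Type*} [AddCommGroup X] [Fintype X] (φ : X →+ ZMod 2)
    (h : ∃ x, φ x ≠ 0) : ∑ x, sg (φ x) = 0 := by
  obtain ⟨x₀, h₀⟩ := h
  have h1 : φ x₀ = 1 := (zmod2_cases _).resolve_left h₀
  have h2 : ∑ x, sg (φ x) = ∑ x, sg (φ (x + x₀)) :=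
    (Equiv.sum_comp (Equiv.addRight x₀) (fun x => sg (φ x))).symm
  have h3 : ∑ x, sg (φ (x + x₀)) = -∑ x, sg (φ x) := by
    rw [← sum_neg_distrib]
    refine sum_congr rfl (fun x _ => ?_)
    rw [map_add, h1, sg_add, sg_one]; ring
  linarith

/-- labels -/
abbrev Lb (j : ℕ) := Fin j → ZMod 2

lemma lb_add_self {j : ℕ} (a : Lb j) : a + a = 0 := by
  funext l; exact CharTwo.add_self_eq_zero _

/-- the pairing of two labels -/
def dt {j : ℕ} (a b : Lb j) : ZMod 2 := ∑ l, a l * b l

lemma dt_add_left {j : ℕ} (a a' b : Lb j) : dt (a + a') b = dt a b + dt a' b := by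
  unfold dt; rw [← sum_add_distrib]
  exact sum_congr rfl (fun l _ => by rw [Pi.add_apply]; ring)

lemma dt_add_right {j : ℕ} (a b b' : Lb j) : dt a (b + b') = dt a b + dt a b' := by
  unfold dt; rw [← sum_add_distrib]
  exact sum_congr rfl (fun l _ => by rw [Pi.add_apply]; ring)

lemma dt_comm {j : ℕ} (a b : Lb j) : dt a b = dt b a := by
  unfold dt
  exact sum_congr rfl (fun l _ => mul_comm _ _)

lemma dt_zero_left {j : ℕ} (b : Lb j) : dt 0 b = 0 := by simp [dt]

lemma dt_zero_right {j : ℕ} (b : Lb j) : dt b 0 = 0 := by simp [dt]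

lemma dt_sum_left {j : ℕ} {ι : Type*} (s : Finset ι) (f : ι → Lb j) (b : Lb j) :
    dt (∑ i ∈ s, f i) b = ∑ i ∈ s, dt (f i) b := by
  induction s using Finset.induction_on with
  | empty => simp [dt_zero_left]
  | insert a s ha ih => rw [sum_insert ha, sum_insert ha, dt_add_left, ih]

lemma exists_dt_ne {j : ℕ} {a : Lb j} (h : a ≠ 0) : ∃ b, dt a b ≠ 0 := by
  have : ∃ l, a l ≠ 0 := by
    by_contra hcon
    push Not at hcon
    exact h (funext hcon)
  obtain ⟨l, hl⟩ := this
  refine ⟨Pi.single l 1, ?_⟩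
  unfold dt
  rw [Finset.sum_eq_single l]
  · simpa using hl
  · intro l' _ hne
    simp [hne]
  · simp

/-- the pairing of two vectors of labels -/
def pr {n j : ℕ} (β x : Fin n → Lb j) : ZMod 2 := ∑ u, dt (β u) (x u)

section pr
variable {n j : ℕ}

lemma pr_add_left (β γ x : Fin n → Lb j) : pr (β + γ) x = pr β x + pr γ x := by
  unfold pr; rw [← sum_add_distrib]
  exact sum_congr rfl (fun l _ => by rw [Pi.add_apply, dt_add_left])

lemma pr_add_right (β x y : Fin n → Lb j) : pr β (x + y) = pr β x + pr β y := by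
  unfold pr; rw [← sum_add_distrib]
  exact sum_congr rfl (fun l _ => by rw [Pi.add_apply, dt_add_right])

lemma pr_zero_left (x : Fin n → Lb j) : pr 0 x = 0 := by
  unfold pr; simp [dt_zero_left]

lemma pr_zero_right (x : Fin n → Lb j) : pr x 0 = 0 := by
  unfold pr; simp [dt_zero_right]

lemma exists_pr_ne {β : Fin n → Lb j} (h : β ≠ 0) : ∃ x, pr β x ≠ 0 := by
  have : ∃ u, β u ≠ 0 := by
    by_contra hcon
    push Not at hcon
    exact h (funext hcon)
  obtain ⟨u, hu⟩ := this
  obtain ⟨b, hb⟩ := exists_dt_ne hu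
  refine ⟨Pi.single u b, ?_⟩
  unfold pr
  rw [Finset.sum_eq_single u]
  · simpa using hb
  · intro u' _ hne
    rw [Pi.single_eq_of_ne hne, dt_zero_right]
  · simp

/-- the pairing as a homomorphism -/
def prHom (β : Fin n → Lb j) : (Fin n → Lb j) →+ ZMod 2 where
  toFun := pr β
  map_zero' := pr_zero_right β
  map_add' := pr_add_right β

/-- the character of index `β` -/
noncomputable def chr (β x : Fin n → Lb j) : ℝ := sg (pr β x)

lemma chr_add_left (β γ x : Fin n → Lb j) : chr (β + γ) x = chr β x * chr γ x := by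
  unfold chr; rw [pr_add_left, sg_add]

lemma chr_add_right (β x y : Fin n → Lb j) : chr β (x + y) = chr β x * chr β y := by
  unfold chr; rw [pr_add_right, sg_add]

lemma chr_zero_left (x : Fin n → Lb j) : chr 0 x = 1 := by
  unfold chr; rw [pr_zero_left, sg_zero]

lemma abs_chr (β x : Fin n → Lb j) : |chr β x| = 1 := abs_sg _

lemma avg_chr (β : Fin n → Lb j) : avg (chr β) = if β = 0 then 1 else 0 := by
  by_cases h : β = 0
  · rw [if_pos h, h]
    have : (chr (0 : Fin n → Lb j)) = fun _ => 1 := funext chr_zero_left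
    rw [this, avg_const]
  · rw [if_neg h]
    unfold avg
    have h1 := sum_sg_hom (prHom β) (exists_pr_ne h)
    have h2 : ∑ x, chr β x = 0 := h1
    rw [h2, zero_div]

lemma add_eq_zero_iff_lb (β γ : Fin n → Lb j) : β + γ = 0 ↔ β = γ := by
  have h : ∀ γ : Fin n → Lb j, γ + γ = 0 := fun γ => by funext u; exact lb_add_self _
  constructor
  · intro h1
    calc β = β + (γ + γ) := by rw [h, add_zero]
      _ = (β + γ) + γ := by rw [add_assoc]
      _ = γ := by rw [h1, zero_add]
  · rintro rfl
    exact h β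

lemma avg_chr_mul (β γ : Fin n → Lb j) :
    avg (fun x => chr β x * chr γ x) = if β = γ then 1 else 0 := by
  have h : (fun x => chr β x * chr γ x) = chr (β + γ) := by
    funext x; rw [chr_add_left]
  rw [h, avg_chr, if_congr (add_eq_zero_iff_lb β γ) rfl rfl]

lemma parseval (F : Finset (Fin n → Lb j)) (a : (Fin n → Lb j) → ℝ) :
    avg (fun x => (∑ β ∈ F, a β * chr β x) ^ 2) = ∑ β ∈ F, a β ^ 2 := by
  have h1 : (fun x => (∑ β ∈ F, a β * chr β x) ^ 2) =
      fun x => ∑ β ∈ F, ∑ γ ∈ F, (a β * a γ) * (chr β x * chr γ x) := by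
    funext x
    rw [sq, sum_mul_sum]
    exact sum_congr rfl (fun β _ => sum_congr rfl (fun γ _ => by ring))
  rw [h1, avg_sum]
  refine sum_congr rfl (fun β hβ => ?_)
  rw [avg_sum]
  have h2 : ∀ γ ∈ F, avg (fun x => (a β * a γ) * (chr β x * chr γ x)) =
      if β = γ then a β * a γ else 0 := by
    intro γ _
    rw [avg_const_mul, avg_chr_mul]
    split_ifs <;> ring
  rw [sum_congr rfl h2, sum_ite_eq, if_pos hβ, sq]

/-- the support of a vector of labels -/
noncomputable def sp (β : Fin n → Lb j) : Finset (Fin n) := univ.filter (fun u => β u ≠ 0)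

lemma mem_sp {β : Fin n → Lb j} {u : Fin n} : u ∈ sp β ↔ β u ≠ 0 := by
  unfold sp; simp

lemma chr_congr {β x y : Fin n → Lb j} (h : ∀ u ∈ sp β, x u = y u) : chr β x = chr β y := by
  unfold chr pr
  congr 1
  refine sum_congr rfl (fun u _ => ?_)
  by_cases hu : β u = 0
  · rw [hu, dt_zero_left, dt_zero_left]
  · rw [h u (mem_sp.2 hu)]

/-- the indices of characters of support size at most `k` -/
noncomputable def lowk (n j k : ℕ) : Finset (Fin n → Lb j) := univ.filter (fun β => (sp β).card ≤ k)

lemma mem_lowk {k : ℕ} {β : Fin n → Lb j} : β ∈ lowk n j k ↔ (sp β).card ≤ k := by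
  unfold lowk; simp

lemma deg_sum {k : ℕ} (F : Finset (Fin n → Lb j)) (hF : ∀ β ∈ F, (sp β).card ≤ k)
    (a : (Fin n → Lb j) → ℝ) : Deg k (fun x => ∑ β ∈ F, a β * chr β x) := by
  unfold Deg
  have h : (fun x => ∑ β ∈ F, a β * chr β x) = ∑ β ∈ F, a β • chr β := by
    funext x
    rw [Finset.sum_apply]
    rfl
  rw [h]
  refine Submodule.sum_mem _ (fun β hβ => Submodule.smul_mem _ _ (Submodule.subset_span ?_))
  exact ⟨sp β, hF β hβ, fun x y hxy => chr_congr hxy⟩

/-- the Fourier coefficient -/
noncomputable def ft (g : (Fin n → Lb j) → ℝ) (β : Fin n → Lb j) : ℝ :=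
  avg (fun x => g x * chr β x)

lemma abs_ft_le (g : (Fin n → Lb j) → ℝ) (β : Fin n → Lb j) :
    |ft g β| ≤ avg (fun x => |g x|) := by
  unfold ft
  refine (abs_avg_le _).trans (le_of_eq ?_)
  congr 1
  funext x
  rw [abs_mul, abs_chr, mul_one]

lemma avg_mul_sum (g : (Fin n → Lb j) → ℝ) (F : Finset (Fin n → Lb j))
    (a : (Fin n → Lb j) → ℝ) :
    avg (fun x => g x * ∑ β ∈ F, a β * chr β x) = ∑ β ∈ F, a β * ft g β := by
  have h : (fun x => g x * ∑ β ∈ F, a β * chr β x) =
      fun x => ∑ β ∈ F, a β * (g x * chr β x) := by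
    funext x
    rw [mul_sum]
    exact sum_congr rfl (fun β _ => by ring)
  rw [h, avg_sum]
  exact sum_congr rfl (fun β _ => by rw [avg_const_mul]; rfl)

end pr

/-- hypercontractivity with constant `C` -/
def HC (A : Type) [Fintype A] (k i : ℕ) (C : ℝ) : Prop :=
  ∀ (n : ℕ) (f : (Fin n → A) → ℝ), Deg k f →
    avg (fun x => f x ^ (2 ^ (i + 1))) ≤ C * (avg (fun x => f x ^ 2)) ^ (2 ^ i)

/-- Jensen's inequality for a density. -/
lemma jensen {α : Type*} [Fintype α] [Nonempty α] {g : α → ℝ} (hg : ∀ x, 0 ≤ g x)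
    (h1 : avg g = 1) (f : α → ℝ) {m : ℕ} (hm : Even m) :
    (avg (fun x => g x * f x)) ^ m ≤ avg (fun x => g x * f x ^ m) := by
  have hc : (0 : ℝ) < Fintype.card α := by exact_mod_cast Fintype.card_pos
  have h2 : ∑ x, g x / (Fintype.card α : ℝ) = 1 := by
    rw [← sum_div]; exact h1
  have h3 := Real.pow_arith_mean_le_arith_mean_pow_of_even univ
    (fun x => g x / (Fintype.card α : ℝ)) f (fun x _ => div_nonneg (hg x) hc.le) h2 hm
  unfold avg
  rw [sum_div, sum_div]
  convert h3 using 2
  · exact sum_congr rfl (fun x _ => by ring)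
  · ring

/-- The level inequality: the low degree part of a bounded density is small. -/
theorem level_ineq {n j k i : ℕ} {C : ℝ} (hC : HC (Lb j) k i C) {g : (Fin n → Lb j) → ℝ}
    (hg : ∀ x, 0 ≤ g x) (h1 : avg g = 1) {M : ℝ} (hM : ∀ x, g x ≤ M) :
    (∑ β ∈ lowk n j k, ft g β ^ 2) ^ (2 ^ i) ≤ C * M := by
  set W := ∑ β ∈ lowk n j k, ft g β ^ 2 with hW
  set f : (Fin n → Lb j) → ℝ := fun x => ∑ β ∈ lowk n j k, ft g β * chr β x with hf
  have hW0 : 0 ≤ W := sum_nonneg (fun _ _ => sq_nonneg _)
  have e1 : avg (fun x => f x ^ 2) = W := parseval _ _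
  have e2 : avg (fun x => g x * f x) = W := by
    rw [hf, avg_mul_sum, hW]
    exact sum_congr rfl (fun β _ => by ring)
  have hd : Deg k f := deg_sum _ (fun β hβ => mem_lowk.1 hβ) _
  have h3 := hC n f hd
  rw [e1] at h3
  have hev : Even (2 ^ (i + 1)) := by
    rw [pow_succ]; exact even_two.mul_left _
  have h4 := jensen hg h1 f hev
  rw [e2] at h4
  have hM0 : 0 ≤ M := (hg 0).trans (hM 0)
  have h5 : avg (fun x => g x * f x ^ (2 ^ (i + 1))) ≤ M * avg (fun x => f x ^ (2 ^ (i + 1))) := by
    rw [← avg_const_mul]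
    exact avg_mono (fun x => mul_le_mul_of_nonneg_right (hM x) (hev.pow_nonneg _))
  have h6 : W ^ (2 ^ (i + 1)) ≤ M * (C * W ^ (2 ^ i)) :=
    h4.trans (h5.trans (mul_le_mul_of_nonneg_left h3 hM0))
  have h7 : W ^ (2 ^ (i + 1)) = W ^ (2 ^ i) * W ^ (2 ^ i) := by
    rw [← pow_add]; congr 1; rw [pow_succ]; ring
  rcases hW0.eq_or_lt with h0 | hpos
  · -- `W = 0` is impossible, since the constant coefficient is `1`
    exfalso
    have hz : ft g 0 = 1 := by
      unfold ft
      rw [← h1]; congr 1; funext x; rw [chr_zero_left, mul_one]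
    have hle : ft g 0 ^ 2 ≤ W := by
      rw [hW]
      refine single_le_sum (f := fun β => ft g β ^ 2) (fun _ _ => sq_nonneg _) (mem_lowk.2 ?_)
      have : sp (0 : Fin n → Lb j) = ∅ := by
        ext u; simp [mem_sp]
      rw [this]; simp
    rw [hz, ← h0] at hle
    norm_num at hle
  · have hp : 0 < W ^ (2 ^ i) := pow_pos hpos _
    rw [h7] at h6
    have h8 : W ^ (2 ^ i) * W ^ (2 ^ i) ≤ (C * M) * W ^ (2 ^ i) := by
      calc _ ≤ _ := h6
        _ = _ := by ring
    exact le_of_mul_le_mul_right h8 hp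

end Pool.Agent.Lib.MP_8d8c46_lc
end

section

/-!
Hypercontractivity for functions of bounded degree on finite product spaces.
-/

open scoped Classical
open Finset

namespace Pool.Agent.Lib.MP_8d8c46_lc

section deg
variable {A : Type} {n : ℕ}

lemma Deg.add {k : ℕ} {f g : (Fin n → A) → ℝ} (hf : Deg k f) (hg : Deg k g) :
    Deg k (fun x => f x + g x) := Submodule.add_mem _ hf hg

lemma Deg.mul {a b : ℕ} {f g : (Fin n → A) → ℝ} (hf : Deg a f) (hg : Deg b g) :
    Deg (a + b) (fun x => f x * g x) := by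
  unfold Deg at *
  induction hf using Submodule.span_induction with
  | mem f hf =>
    obtain ⟨K, hK, hKf⟩ := hf
    induction hg using Submodule.span_induction with
    | mem g hg =>
      obtain ⟨K', hK', hKg⟩ := hg
      refine Submodule.subset_span ⟨K ∪ K', (card_union_le _ _).trans (by omega), ?_⟩
      intro x y h
      simp only
      rw [hKf x y (fun i hi => h i (mem_union_left _ hi)),
        hKg x y (fun i hi => h i (mem_union_right _ hi))]
    | zero =>
      have : (fun x => f x * (0 : (Fin n → A) → ℝ) x) = 0 := by funext x; simp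
      rw [this]; exact Submodule.zero_mem _
    | add g g' _ _ h h' =>
      have : (fun x => f x * (g + g') x) = (fun x => f x * g x) + (fun x => f x * g' x) := by
        funext x; simp [mul_add]
      rw [this]; exact Submodule.add_mem _ h h'
    | smul r g _ h =>
      have : (fun x => f x * (r • g) x) = r • (fun x => f x * g x) := by
        funext x; simp; ring
      rw [this]; exact Submodule.smul_mem _ _ h
  | zero =>
    have : (fun x => (0 : (Fin n → A) → ℝ) x * g x) = 0 := by funext x; simp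
    rw [this]; exact Submodule.zero_mem _
  | add f f' _ _ h h' =>
    have : (fun x => (f + f') x * g x) = (fun x => f x * g x) + (fun x => f' x * g x) := by
      funext x; simp [add_mul]
    rw [this]; exact Submodule.add_mem _ h h'
  | smul r f _ h =>
    have : (fun x => (r • f) x * g x) = r • (fun x => f x * g x) := by
      funext x; simp; ring
    rw [this]; exact Submodule.smul_mem _ _ h

lemma Deg.pow {k : ℕ} {f : (Fin n → A) → ℝ} (hf : Deg k f) (m : ℕ) :
    Deg (k * m) (fun x => f x ^ m) := by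
  induction m with
  | zero =>
    simp only [mul_zero, pow_zero]
    exact Submodule.subset_span ⟨∅, by simp, fun _ _ _ => rfl⟩
  | succ m ih =>
    have h := ih.mul hf
    have e : k * (m + 1) = k * m + k := by ring
    rw [e]
    convert h using 2
    exact pow_succ _ _

end deg

section bonami
variable {A : Type} [Fintype A] [Nonempty A]

omit [Nonempty A] in
/-- splitting off the first coordinate -/
lemma avg_cons {n : ℕ} (f : (Fin (n + 1) → A) → ℝ) :
    avg f = avg (fun y : A => avg (fun x : Fin n → A => f (Fin.cons y x))) := by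
  have h1 : avg f = avg (fun z : A × (Fin n → A) => f (Fin.cons z.1 z.2)) :=
    (avg_equiv (Fin.consEquiv (fun _ : Fin (n + 1) => A)) f).symm
  rw [h1]
  unfold avg
  rw [Fintype.sum_prod_type, Fintype.card_prod, ← sum_div, div_div]
  push_cast
  rw [mul_comm]

omit [Nonempty A] in
lemma avg_comm' {n : ℕ} (f : A → (Fin n → A) → ℝ) :
    avg (fun y => avg (fun x => f y x)) = avg (fun x => avg (fun y => f y x)) := by
  unfold avg
  rw [← sum_div, ← sum_div, sum_comm, div_div, div_div, mul_comm]

/-- the average over the first coordinate -/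
noncomputable def f0 {n : ℕ} (f : (Fin (n + 1) → A) → ℝ) (x : Fin n → A) : ℝ :=
  avg (fun y : A => f (Fin.cons y x))

/-- the difference -/
noncomputable def f1 {n : ℕ} (f : (Fin (n + 1) → A) → ℝ) (y : A) (x : Fin n → A) : ℝ :=
  f (Fin.cons y x) - f0 f x

omit [Nonempty A] in
lemma deg_f0 {n k : ℕ} {f : (Fin (n + 1) → A) → ℝ} (hf : Deg k f) : Deg k (f0 f) := by
  unfold Deg at *
  induction hf using Submodule.span_induction with
  | mem f hf =>
    obtain ⟨K, hK, hKf⟩ := hf
    refine Submodule.subset_span ⟨univ.filter (fun i => i.succ ∈ K), ?_, ?_⟩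
    · refine le_trans ?_ hK
      refine card_le_card_of_injOn Fin.succ (fun i hi => ?_) (Fin.succ_injective n).injOn
      simpa using hi
    · intro x y h
      unfold f0
      congr 1
      funext a
      apply hKf
      intro i hi
      refine Fin.cases ?_ (fun i' => ?_) i (motive := fun i => i ∈ K →
        (Fin.cons a x : Fin (n + 1) → A) i = (Fin.cons a y : Fin (n + 1) → A) i) hi
      · intro _; rfl
      · intro hi'
        rw [Fin.cons_succ, Fin.cons_succ]
        exact h i' (by simpa using hi')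
  | zero =>
    have : f0 (0 : (Fin (n + 1) → A) → ℝ) = 0 := by
      funext x; unfold f0 avg; simp
    rw [this]; exact Submodule.zero_mem _
  | add f g _ _ h h' =>
    have : f0 (f + g) = f0 f + f0 g := by
      funext x; unfold f0; rw [Pi.add_apply]
      exact avg_add _ _
    rw [this]; exact Submodule.add_mem _ h h'
  | smul r f _ h =>
    have : f0 (r • f) = r • f0 f := by
      funext x; unfold f0; rw [Pi.smul_apply, smul_eq_mul]
      exact avg_const_mul _ _
    rw [this]; exact Submodule.smul_mem _ _ h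

omit [Nonempty A] in
lemma f1_add {n : ℕ} (f g : (Fin (n + 1) → A) → ℝ) (y : A) : f1 (f + g) y = f1 f y + f1 g y := by
  funext x
  rw [Pi.add_apply]
  unfold f1 f0
  have : avg (fun y => (f + g) (Fin.cons y x)) = avg (fun y => f (Fin.cons y x)) +
      avg (fun y => g (Fin.cons y x)) := avg_add _ _
  rw [this, Pi.add_apply]; ring

omit [Nonempty A] in
lemma f1_smul {n : ℕ} (r : ℝ) (f : (Fin (n + 1) → A) → ℝ) (y : A) :
    f1 (r • f) y = r • f1 f y := by
  funext x
  rw [Pi.smul_apply, smul_eq_mul]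
  unfold f1 f0
  have : avg (fun y => (r • f) (Fin.cons y x)) = r * avg (fun y => f (Fin.cons y x)) :=
    avg_const_mul _ _
  rw [this, Pi.smul_apply, smul_eq_mul]; ring

omit [Nonempty A] in
lemma f1_zero {n : ℕ} (y : A) : f1 (0 : (Fin (n + 1) → A) → ℝ) y = 0 := by
  funext x; unfold f1 f0 avg; simp

lemma f1_gen {n : ℕ} {f : (Fin (n + 1) → A) → ℝ} {K : Finset (Fin (n + 1))}
    (h0 : (0 : Fin (n + 1)) ∉ K) (hKf : ∀ x y, (∀ i ∈ K, x i = y i) → f x = f y) (y : A) :
    f1 f y = 0 := by
  funext x
  unfold f1 f0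
  have : (fun y' => f (Fin.cons y' x)) = fun _ => f (Fin.cons y x) := by
    funext y'
    apply hKf
    intro i hi
    refine Fin.cases ?_ (fun i' => ?_) i (motive := fun i => i ∈ K →
        (Fin.cons y' x : Fin (n + 1) → A) i = (Fin.cons y x : Fin (n + 1) → A) i) hi
    · intro h; exact absurd h h0
    · intro _; rw [Fin.cons_succ, Fin.cons_succ]
  rw [this, avg_const]
  simp

lemma deg_f1 {n k : ℕ} {f : (Fin (n + 1) → A) → ℝ} (hf : Deg (k + 1) f) (y : A) :
    Deg k (f1 f y) := by
  unfold Deg at *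
  induction hf using Submodule.span_induction with
  | mem f hf =>
    obtain ⟨K, hK, hKf⟩ := hf
    by_cases h0 : (0 : Fin (n + 1)) ∈ K
    · refine Submodule.subset_span ⟨univ.filter (fun i => i.succ ∈ K), ?_, ?_⟩
      · have h1 : (univ.filter (fun i : Fin n => i.succ ∈ K)).card ≤ (K.erase 0).card := by
          refine card_le_card_of_injOn Fin.succ (fun i hi => ?_) (Fin.succ_injective n).injOn
          simp only [coe_erase, Set.mem_sdiff, mem_coe, Set.mem_singleton_iff]
          exact ⟨by simpa using hi, Fin.succ_ne_zero i⟩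
        rw [card_erase_of_mem h0] at h1
        omega
      · intro x x' h
        have key : ∀ a : A, f (Fin.cons a x) = f (Fin.cons a x') := by
          intro a
          apply hKf
          intro i hi
          refine Fin.cases ?_ (fun i' => ?_) i (motive := fun i => i ∈ K →
            (Fin.cons a x : Fin (n + 1) → A) i = (Fin.cons a x' : Fin (n + 1) → A) i) hi
          · intro _; rfl
          · intro hi'
            rw [Fin.cons_succ, Fin.cons_succ]
            exact h i' (by simpa using hi')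
        unfold f1 f0
        rw [key y]
        congr 2
        funext a
        exact key a
    · rw [f1_gen h0 hKf]
      exact Submodule.zero_mem _
  | zero => rw [f1_zero]; exact Submodule.zero_mem _
  | add f g _ _ h h' => rw [f1_add]; exact Submodule.add_mem _ h h'
  | smul r f _ h => rw [f1_smul]; exact Submodule.smul_mem _ _ h

lemma f1_eq_zero {n : ℕ} {f : (Fin (n + 1) → A) → ℝ} (hf : Deg 0 f) (y : A) : f1 f y = 0 := by
  unfold Deg at *
  induction hf using Submodule.span_induction with
  | mem f hf =>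
    obtain ⟨K, hK, hKf⟩ := hf
    have : K = ∅ := card_eq_zero.1 (by omega)
    subst this
    exact f1_gen (by simp) hKf y
  | zero => exact f1_zero y
  | add f g _ _ h h' => rw [f1_add, h, h', add_zero]
  | smul r f _ h => rw [f1_smul, h, smul_zero]

/-- Cauchy-Schwarz. -/
lemma avg_cs {α : Type*} [Fintype α] (f g : α → ℝ) :
    (avg (fun x => f x * g x)) ^ 2 ≤ avg (fun x => f x ^ 2) * avg (fun x => g x ^ 2) := by
  unfold avg
  have h := sum_mul_sq_le_sq_mul_sq univ f g
  rw [div_pow, div_mul_div_comm, sq (Fintype.card α : ℝ)]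
  exact div_le_div_of_nonneg_right h (mul_nonneg (Nat.cast_nonneg _) (Nat.cast_nonneg _))

theorem bonami : ∀ (n k : ℕ) (f : (Fin n → A) → ℝ), Deg k f →
    avg (fun x => f x ^ 4) ≤ (4 * (Fintype.card A : ℝ)) ^ (2 * k) * (avg (fun x => f x ^ 2)) ^ 2 := by
  have hq : (1 : ℝ) ≤ Fintype.card A := by exact_mod_cast Fintype.card_pos
  set B : ℝ := 4 * (Fintype.card A : ℝ) with hB
  have hB4 : 4 ≤ B := by rw [hB]; linarith
  have hB1 : 1 ≤ B := by linarith
  have hB0 : 0 < B := by linarith
  intro n
  induction n with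
  | zero =>
    intro k f _
    have h1 : ∀ m : ℕ, avg (fun x => f x ^ m) = f default ^ m := by
      intro m
      unfold avg
      simp [Fintype.card_unique, Unique.eq_default]
    rw [h1, h1, ← pow_mul]
    have h2 : (1 : ℝ) ≤ B ^ (2 * k) := one_le_pow₀ hB1
    have h3 : (0 : ℝ) ≤ f default ^ 4 := by positivity
    have h4 : (2 * 2 : ℕ) = 4 := rfl
    rw [h4]
    nlinarith
  | succ n ih =>
    intro k f hf
    set g0 := f0 f with hg0
    have hd0 : Deg k g0 := deg_f0 hf
    -- basic identities
    have hfe : ∀ y x, f (Fin.cons y x) = g0 x + f1 f y x := by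
      intro y x; unfold f1; ring
    have hmean : ∀ x, avg (fun y => f1 f y x) = 0 := by
      intro x
      have h1 : (fun y => f1 f y x) = fun y => f (Fin.cons y x) - f0 f x := rfl
      rw [h1, avg_sub, avg_const]
      unfold f0; ring
    set P := avg (fun x => g0 x ^ 2) with hP
    set a : A → ℝ := fun y => avg (fun x => f1 f y x ^ 2) with ha
    set Q := avg a with hQ
    have hP0 : 0 ≤ P := avg_nonneg (fun _ => sq_nonneg _)
    have ha0 : ∀ y, 0 ≤ a y := fun y => avg_nonneg (fun _ => sq_nonneg _)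
    have hQ0 : 0 ≤ Q := avg_nonneg ha0
    have hcross : ∀ w : (Fin n → A) → ℝ,
        avg (fun y => avg (fun x => w x * f1 f y x)) = 0 := by
      intro w
      rw [avg_comm']
      have : (fun x => avg (fun y => w x * f1 f y x)) = fun _ => 0 := by
        funext x; rw [avg_const_mul, hmean, mul_zero]
      rw [this, avg_const]
    have hsq : avg (fun x => f x ^ 2) = P + Q := by
      rw [avg_cons]
      have h1 : ∀ y, avg (fun x => f (Fin.cons y x) ^ 2) =
          P + (avg (fun x => 2 * g0 x * f1 f y x) + a y) := by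
        intro y
        have h2 : (fun x => f (Fin.cons y x) ^ 2) =
            fun x => g0 x ^ 2 + (2 * g0 x * f1 f y x + f1 f y x ^ 2) := by
          funext x; rw [hfe]; ring
        rw [h2, avg_add, avg_add]
      simp_rw [h1]
      rw [avg_add, avg_add, avg_const, hcross, zero_add]
    rw [hsq]
    -- fourth moment
    have h4 : avg (fun x => f x ^ 4) ≤ avg (fun x => g0 x ^ 4) +
        (8 * avg (fun y => avg (fun x => g0 x ^ 2 * f1 f y x ^ 2)) +
          3 * avg (fun y => avg (fun x => f1 f y x ^ 4))) := by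
      rw [avg_cons]
      have h1 : ∀ y, avg (fun x => f (Fin.cons y x) ^ 4) ≤
          avg (fun x => g0 x ^ 4) + (avg (fun x => 4 * g0 x ^ 3 * f1 f y x) +
            (8 * avg (fun x => g0 x ^ 2 * f1 f y x ^ 2) + 3 * avg (fun x => f1 f y x ^ 4))) := by
        intro y
        rw [← avg_const_mul, ← avg_const_mul, ← avg_add, ← avg_add, ← avg_add]
        refine avg_mono (fun x => ?_)
        rw [hfe]
        nlinarith [mul_nonneg (sq_nonneg (f1 f y x)) (sq_nonneg (g0 x - f1 f y x))]
      refine (avg_mono h1).trans (le_of_eq ?_)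
      rw [avg_add, avg_add, avg_add, avg_const, hcross, avg_const_mul, avg_const_mul, zero_add]
    refine h4.trans ?_
    have e0 : avg (fun x => g0 x ^ 4) ≤ B ^ (2 * k) * P ^ 2 := ih k g0 hd0
    rcases Nat.eq_zero_or_pos k with hk | hk
    · subst hk
      have hz : ∀ y, f1 f y = 0 := fun y => f1_eq_zero hf y
      have z1 : avg (fun y => avg (fun x => g0 x ^ 2 * f1 f y x ^ 2)) = 0 := by
        simp_rw [hz]; simp [avg]
      have z2 : avg (fun y => avg (fun x => f1 f y x ^ 4)) = 0 := by
        simp_rw [hz]; simp [avg]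
      have z3 : Q = 0 := by
        rw [hQ, ha]; simp_rw [hz]; simp [avg]
      rw [z1, z2, z3]
      simpa using e0
    · obtain ⟨k', rfl⟩ : ∃ k', k = k' + 1 := ⟨k - 1, by omega⟩
      have hd1 : ∀ y, Deg k' (f1 f y) := fun y => deg_f1 hf y
      have e1 : ∀ y, avg (fun x => f1 f y x ^ 4) ≤ B ^ (2 * k') * a y ^ 2 := fun y =>
        ih k' _ (hd1 y)
      have e2 : ∀ y, avg (fun x => g0 x ^ 2 * f1 f y x ^ 2) ≤ B ^ (2 * k' + 1) * P * a y := by
        intro y
        have h5 := avg_cs (fun x => g0 x ^ 2) (fun x => f1 f y x ^ 2)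
        simp only [← pow_mul] at h5
        have h6 : avg (fun x => g0 x ^ (2 * 2)) * avg (fun x => f1 f y x ^ (2 * 2)) ≤
            (B ^ (2 * k' + 1) * P * a y) ^ 2 := by
          calc avg (fun x => g0 x ^ (2 * 2)) * avg (fun x => f1 f y x ^ (2 * 2))
              ≤ (B ^ (2 * (k' + 1)) * P ^ 2) * (B ^ (2 * k') * a y ^ 2) := by
                refine mul_le_mul e0 (e1 y)
                  (avg_nonneg (fun _ => (even_two.mul_left 2).pow_nonneg _)) (by positivity)
            _ = (B ^ (2 * k' + 1) * P * a y) ^ 2 := by ring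
        exact le_of_sq_le_sq (h5.trans h6) (by have := ha0 y; positivity)
      have e3 : avg (fun y => a y ^ 2) ≤ (Fintype.card A : ℝ) * Q ^ 2 := by
        have h7 : ∑ y, a y ^ 2 ≤ (∑ y, a y) ^ 2 := by
          rw [sq (∑ y, a y), sum_mul]
          refine sum_le_sum (fun y _ => ?_)
          rw [sq]
          exact mul_le_mul_of_nonneg_left
            (single_le_sum (f := a) (fun y _ => ha0 y) (mem_univ y)) (ha0 y)
        have hc : (0 : ℝ) < Fintype.card A := by linarith
        rw [hQ]
        unfold avg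
        rw [div_pow, div_le_iff₀ hc]
        calc ∑ y, a y ^ 2 ≤ (∑ y, a y) ^ 2 := h7
          _ = _ := by field_simp
      have s1 : avg (fun y => avg (fun x => g0 x ^ 2 * f1 f y x ^ 2)) ≤
          B ^ (2 * k' + 1) * P * Q := by
        refine (avg_mono e2).trans (le_of_eq ?_)
        rw [avg_const_mul]
      have s2 : avg (fun y => avg (fun x => f1 f y x ^ 4)) ≤
          B ^ (2 * k') * ((Fintype.card A : ℝ) * Q ^ 2) := by
        refine (avg_mono e1).trans ?_
        rw [avg_const_mul]
        exact mul_le_mul_of_nonneg_left e3 (by positivity)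
      have hBk : 0 < B ^ (2 * k') := by positivity
      have t1 : B ^ (2 * (k' + 1)) = B ^ (2 * k') * B ^ 2 := by ring
      have t2 : B ^ (2 * k' + 1) = B ^ (2 * k') * B := by ring
      have hcA : 3 * (Fintype.card A : ℝ) ≤ B ^ 2 := by
        rw [hB]; nlinarith
      have hPQ : 0 ≤ P * Q := mul_nonneg hP0 hQ0
      have key : B ^ 2 * P ^ 2 + 8 * (B * P * Q) + 3 * ((Fintype.card A : ℝ) * Q ^ 2) ≤
          B ^ 2 * (P + Q) ^ 2 := by
        have u1 : 8 * (B * P * Q) ≤ 2 * (B ^ 2 * (P * Q)) := by
          have : 4 * B ≤ B ^ 2 := by nlinarith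
          nlinarith
        have u2 : 3 * ((Fintype.card A : ℝ) * Q ^ 2) ≤ B ^ 2 * Q ^ 2 := by
          nlinarith [sq_nonneg Q]
        nlinarith
      calc avg (fun x => g0 x ^ 4) + (8 * avg (fun y => avg (fun x => g0 x ^ 2 * f1 f y x ^ 2)) +
            3 * avg (fun y => avg (fun x => f1 f y x ^ 4)))
          ≤ B ^ (2 * (k' + 1)) * P ^ 2 + (8 * (B ^ (2 * k' + 1) * P * Q) +
            3 * (B ^ (2 * k') * ((Fintype.card A : ℝ) * Q ^ 2))) := by
            linarith
        _ = B ^ (2 * k') * (B ^ 2 * P ^ 2 + 8 * (B * P * Q) +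
            3 * ((Fintype.card A : ℝ) * Q ^ 2)) := by rw [t1, t2]; ring
        _ ≤ B ^ (2 * k') * (B ^ 2 * (P + Q) ^ 2) := mul_le_mul_of_nonneg_left key hBk.le
        _ = _ := by rw [t1]; ring

/-- Hypercontractivity for all even norms of the form `2 ^ (i + 1)`. -/
theorem hyper (A : Type) [Fintype A] [Nonempty A] (k i : ℕ) : ∃ C : ℝ, 0 < C ∧ HC A k i C := by
  induction i with
  | zero =>
    refine ⟨1, one_pos, fun n f _ => ?_⟩
    simp
  | succ i ih =>
    obtain ⟨C, hC0, hC⟩ := ih
    have hq : (1 : ℝ) ≤ Fintype.card A := by exact_mod_cast Fintype.card_pos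
    refine ⟨(4 * (Fintype.card A : ℝ)) ^ (2 * (k * 2 ^ i)) * C ^ 2, by positivity,
      fun n f hf => ?_⟩
    have h1 := bonami n (k * 2 ^ i) _ (hf.pow (2 ^ i))
    have e1 : ∀ x, (f x ^ 2 ^ i) ^ 4 = f x ^ 2 ^ (i + 1 + 1) := by
      intro x; rw [← pow_mul]; congr 1; rw [pow_succ, pow_succ]; ring
    have e2 : ∀ x, (f x ^ 2 ^ i) ^ 2 = f x ^ 2 ^ (i + 1) := by
      intro x; rw [← pow_mul, pow_succ]
    simp only [e1, e2] at h1
    refine h1.trans ?_
    have h2 := hC n f hf
    have h3 : 0 ≤ avg (fun x => f x ^ 2 ^ (i + 1)) := by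
      refine avg_nonneg (fun x => ?_)
      have : Even (2 ^ (i + 1)) := by rw [pow_succ]; exact even_two.mul_left _
      exact this.pow_nonneg _
    calc (4 * (Fintype.card A : ℝ)) ^ (2 * (k * 2 ^ i)) * avg (fun x => f x ^ 2 ^ (i + 1)) ^ 2
        ≤ (4 * (Fintype.card A : ℝ)) ^ (2 * (k * 2 ^ i)) *
          (C * avg (fun x => f x ^ 2) ^ 2 ^ i) ^ 2 := by
          refine mul_le_mul_of_nonneg_left (pow_le_pow_left₀ h3 h2 2) (by positivity)
      _ = _ := by
          rw [mul_pow C, ← pow_mul, pow_succ 2 i]; ring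

end bonami

end Pool.Agent.Lib.MP_8d8c46_lc
end

section

/-!
The Efron–Stein decomposition of functions on a finite product space.
-/

set_option autoImplicit false
set_option linter.unusedSectionVars false

open scoped Classical
open Finset

namespace Pool.Agent.Lib.MP_8d8c46_lc.EL

section
variable {U A : Type} [Fintype U] [Fintype A]

/-- `x` on `S` and `y` elsewhere -/
noncomputable def mx (S : Finset U) (x y : U → A) (u : U) : A := if u ∈ S then x u else y u

/-- `f` depends only on the coordinates in `S` -/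
def DepOn (S : Finset U) (f : (U → A) → ℝ) : Prop := ∀ x y, (∀ u ∈ S, x u = y u) → f x = f y

/-- the average of `f` over the coordinates outside `S` -/
noncomputable def cd (f : (U → A) → ℝ) (S : Finset U) (x : U → A) : ℝ :=
  avg (fun y => f (mx S x y))

/-- exchange of coordinates between two points -/
noncomputable def swp (S : Finset U) : ((U → A) × (U → A)) ≃ ((U → A) × (U → A)) where
  toFun z := (mx S z.1 z.2, mx S z.2 z.1)
  invFun z := (mx S z.1 z.2, mx S z.2 z.1)
  left_inv z := by
    refine Prod.ext ?_ ?_ <;> funext u <;> simp only [mx] <;> split_ifs <;> rfl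
  right_inv z := by
    refine Prod.ext ?_ ?_ <;> funext u <;> simp only [mx] <;> split_ifs <;> rfl

lemma avg_avg {α β : Type} [Fintype α] [Fintype β] (F : α → β → ℝ) :
    avg (fun x => avg (fun y => F x y)) = avg (fun z : α × β => F z.1 z.2) := by
  unfold avg
  rw [← sum_div, Fintype.sum_prod_type, Fintype.card_prod, Nat.cast_mul, div_div, mul_comm]

lemma avg_comm2 {α β : Type} [Fintype α] [Fintype β] (F : α → β → ℝ) :
    avg (fun x => avg (fun y => F x y)) = avg (fun y => avg (fun x => F x y)) := by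
  rw [avg_avg, avg_avg]
  exact (avg_equiv (Equiv.prodComm β α) (fun z => F z.1 z.2)).symm

lemma avg_swp (S : Finset U) (F : (U → A) → (U → A) → ℝ) :
    avg (fun x => avg (fun y => F (mx S x y) (mx S y x))) = avg (fun x => avg (fun y => F x y)) := by
  rw [avg_avg, avg_avg]
  exact avg_equiv (swp S) (fun z => F z.1 z.2)

variable [Nonempty A]

lemma avg_mx (S : Finset U) (f : (U → A) → ℝ) :
    avg (fun x => avg (fun y => f (mx S x y))) = avg f := by
  rw [avg_swp S (fun x _ => f x)]
  congr 1; funext x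
  exact avg_const _

lemma avg_cd (f : (U → A) → ℝ) (S : Finset U) : avg (cd f S) = avg f := avg_mx S f

omit [Nonempty A] [Fintype U] [Fintype A] in
lemma mx_congr {S : Finset U} {x x' y : U → A} (h : ∀ u ∈ S, x u = x' u) :
    mx S x y = mx S x' y := by
  funext u
  unfold mx
  split_ifs with hu
  · exact h u hu
  · rfl

omit [Nonempty A] in
lemma cd_dep (f : (U → A) → ℝ) (S : Finset U) : DepOn S (cd f S) := by
  intro x y h
  unfold cd
  congr 1; funext z
  rw [mx_congr h]

omit [Nonempty A] [Fintype U] [Fintype A] in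
lemma DepOn.mx {S : Finset U} {f : (U → A) → ℝ} (h : DepOn S f) (x y : U → A) :
    f (mx S x y) = f x := h _ _ (fun u hu => by unfold EL.mx; rw [if_pos hu])

omit [Nonempty A] [Fintype U] [Fintype A] in
lemma DepOn.mono {S T : Finset U} {f : (U → A) → ℝ} (h : DepOn S f) (hST : S ⊆ T) : DepOn T f :=
  fun x y hxy => h x y (fun u hu => hxy u (hST hu))

omit [Fintype U] [Fintype A] [Nonempty A] in
lemma DepOn.mul {S : Finset U} {f g : (U → A) → ℝ} (h : DepOn S f) (h' : DepOn S g) :
    DepOn S (fun x => f x * g x) := fun x y hxy => by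
  simp only
  rw [h x y hxy, h' x y hxy]

lemma avg_mul_cd {f h : (U → A) → ℝ} {S : Finset U} (hh : DepOn S h) :
    avg (fun x => f x * h x) = avg (fun x => cd f S x * h x) := by
  have h1 : (fun x => cd f S x * h x) =
      fun x => avg (fun y => f (mx S x y) * h (mx S x y)) := by
    funext x
    unfold cd
    rw [← avg_mul_const]
    congr 1; funext y
    rw [hh.mx]
  rw [h1, avg_mx S (fun x => f x * h x)]

lemma cd_cd (f : (U → A) → ℝ) (S T : Finset U) (x : U → A) :
    cd (cd f S) T x = cd f (S ∩ T) x := by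
  unfold cd
  have h1 : ∀ y z : U → A, mx S (mx T x y) z = mx (S ∩ T) x (mx S y z) := by
    intro y z
    funext u
    unfold mx
    by_cases hS : u ∈ S <;> by_cases hT : u ∈ T <;> simp [hS, hT]
  simp only [h1]
  exact avg_mx S (fun y => f (mx (S ∩ T) x y))

lemma cd_self_of_dep {f : (U → A) → ℝ} {S : Finset U} (h : DepOn S f) (x : U → A) :
    cd f S x = f x := by
  unfold cd
  have : (fun y => f (mx S x y)) = fun _ => f x := by
    funext y; exact h.mx x y
  rw [this, avg_const]

/-- the average over the coordinate `u` vanishes -/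
def MZ (u : U) (h : (U → A) → ℝ) : Prop := ∀ x, avg (fun a => h (Function.update x u a)) = 0

lemma avg_coord (u : U) (φ : A → ℝ) : avg (fun y : U → A => φ (y u)) = avg φ := by
  have h1 := avg_equiv (Equiv.funSplitAt u A) (fun z : A × ({j // j ≠ u} → A) => φ z.1)
  have h2 : (fun x : U → A => φ ((Equiv.funSplitAt u A) x).1) = fun x => φ (x u) := by
    funext x; rfl
  rw [h2] at h1
  rw [h1, ← avg_avg (fun (a : A) (_ : {j // j ≠ u} → A) => φ a)]
  congr 1; funext a
  exact avg_const _

lemma cd_erase (f : (U → A) → ℝ) (u : U) (x : U → A) :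
    cd f (univ.erase u) x = avg (fun a => f (Function.update x u a)) := by
  unfold cd
  rw [← avg_coord u (fun a => f (Function.update x u a))]
  congr 1; funext y
  congr 1
  funext v
  unfold mx
  by_cases hv : v = u
  · subst hv; simp
  · simp [hv]

/-- A function whose average over `u` vanishes is orthogonal to those which do not depend on `u`. -/
lemma avg_mz {f h : (U → A) → ℝ} {u : U} {S : Finset U} (hh : MZ u h) (hf : DepOn S f)
    (hu : u ∉ S) : avg (fun x => f x * h x) = 0 := by
  have h1 : DepOn (univ.erase u) f := hf.mono (fun v hv => by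
    rw [mem_erase]; exact ⟨fun h => hu (h ▸ hv), mem_univ _⟩)
  have h2 : (fun x => f x * h x) = fun x => h x * f x := by funext x; ring
  rw [h2, avg_mul_cd h1]
  have h3 : (fun x => cd h (univ.erase u) x * f x) = fun _ => 0 := by
    funext x
    rw [cd_erase, hh x, zero_mul]
  rw [h3]
  have : Nonempty (U → A) := inferInstance
  exact avg_const 0

/-- the Efron–Stein component -/
noncomputable def es (f : (U → A) → ℝ) (T : Finset U) (x : U → A) : ℝ :=
  ∑ S ∈ T.powerset, (-1) ^ (T \ S).card * cd f S x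

omit [Nonempty A] in
lemma es_dep (f : (U → A) → ℝ) (T : Finset U) : DepOn T (es f T) := by
  intro x y h
  unfold es
  refine sum_congr rfl (fun S hS => ?_)
  rw [cd_dep f S x y (fun u hu => h u (mem_powerset.1 hS hu))]

/-- cancellation in pairs -/
lemma sum_powerset_cancel {T : Finset U} {u : U} (hu : u ∈ T) (F : Finset U → ℝ)
    (hF : ∀ S, u ∉ S → S ⊆ T → F (insert u S) = F S) :
    ∑ S ∈ T.powerset, (-1) ^ (T \ S).card * F S = 0 := by
  have h1 : T = insert u (T.erase u) := (insert_erase hu).symm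
  have hue : u ∉ T.erase u := by simp
  have h2 : ∑ S ∈ T.powerset, (-1 : ℝ) ^ (T \ S).card * F S =
      ∑ S ∈ (insert u (T.erase u)).powerset, (-1 : ℝ) ^ (T \ S).card * F S := by rw [← h1]
  rw [h2, sum_powerset_insert hue, ← sum_add_distrib]
  refine sum_eq_zero (fun S hS => ?_)
  rw [mem_powerset] at hS
  have huS : u ∉ S := fun h => hue (hS h)
  have hST : S ⊆ T := hS.trans (erase_subset _ _)
  rw [hF S huS hST]
  have h3 : T \ S = insert u (T \ insert u S) := by
    ext v
    simp only [mem_sdiff, mem_insert]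
    by_cases hv : v = u
    · subst hv; simp [hu, huS]
    · simp [hv]
  have h4 : u ∉ T \ insert u S := by simp
  rw [h3, card_insert_of_notMem h4, pow_succ]
  ring

lemma cd_const_mul (c : ℝ) (f : (U → A) → ℝ) (S : Finset U) (x : U → A) :
    cd (fun x => c * f x) S x = c * cd f S x := avg_const_mul _ _

lemma cd_sum {ι : Type*} (s : Finset ι) (f : ι → (U → A) → ℝ) (S : Finset U) (x : U → A) :
    cd (fun x => ∑ i ∈ s, f i x) S x = ∑ i ∈ s, cd (f i) S x := avg_sum _ _

lemma es_mz (f : (U → A) → ℝ) {T : Finset U} {u : U} (hu : u ∈ T) : MZ u (es f T) := by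
  intro x
  rw [← cd_erase]
  have h1 : cd (es f T) (univ.erase u) x =
      ∑ S ∈ T.powerset, (-1) ^ (T \ S).card * cd f (S ∩ univ.erase u) x := by
    have : es f T = fun x => ∑ S ∈ T.powerset, (-1) ^ (T \ S).card * cd f S x := rfl
    rw [this, cd_sum]
    refine sum_congr rfl (fun S _ => ?_)
    rw [cd_const_mul, cd_cd]
  rw [h1]
  refine sum_powerset_cancel hu (fun S => cd f (S ∩ univ.erase u) x) (fun S _ _ => ?_)
  have : insert u S ∩ univ.erase u = S ∩ univ.erase u := by
    ext v
    simp only [mem_inter, mem_insert, mem_erase, mem_univ, and_true]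
    tauto
  simp only [this]

/-- The inner product with a function in level `T` only sees the component. -/
lemma avg_mul_es {f h : (U → A) → ℝ} {T : Finset U} (hd : DepOn T h) (hz : ∀ u ∈ T, MZ u h) :
    avg (fun x => f x * h x) = avg (fun x => es f T x * h x) := by
  have h1 : (fun x => es f T x * h x) =
      fun x => ∑ S ∈ T.powerset, (-1) ^ (T \ S).card * (cd f S x * h x) := by
    funext x
    unfold es
    rw [sum_mul]
    exact sum_congr rfl (fun S _ => by ring)
  rw [h1, avg_sum, Finset.sum_eq_single T]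
  · rw [avg_const_mul, sdiff_self]
    simp only [bot_eq_empty, card_empty, pow_zero, one_mul]
    exact avg_mul_cd hd
  · intro S hS hne
    rw [mem_powerset] at hS
    rw [avg_const_mul]
    obtain ⟨u, huT, huS⟩ : ∃ u ∈ T, u ∉ S := by
      by_contra hcon
      push Not at hcon
      exact hne (Subset.antisymm hS hcon)
    rw [avg_mz (hz u huT) (cd_dep f S) huS, mul_zero]
  · intro h
    exact absurd (mem_powerset.2 (Subset.refl T)) h

lemma es_orth (f g : (U → A) → ℝ) {T T' : Finset U} (hne : T ≠ T') :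
    avg (fun x => es f T x * es g T' x) = 0 := by
  by_cases h : T' ⊆ T
  · obtain ⟨u, hu, hu'⟩ : ∃ u ∈ T, u ∉ T' := by
      by_contra hcon
      push Not at hcon
      exact hne (Subset.antisymm hcon h)
    have h1 : (fun x => es f T x * es g T' x) = fun x => es g T' x * es f T x := by
      funext x; ring
    rw [h1]
    exact avg_mz (es_mz f hu) (es_dep g T') hu'
  · obtain ⟨u, hu, hu'⟩ := not_subset.1 h
    exact avg_mz (es_mz g hu) (es_dep f T) hu'

/-- the squared norm of a component -/
noncomputable def nr (f : (U → A) → ℝ) (T : Finset U) : ℝ := avg (fun x => es f T x ^ 2)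

omit [Nonempty A] in
lemma nr_nonneg (f : (U → A) → ℝ) (T : Finset U) : 0 ≤ nr f T := avg_nonneg (fun _ => sq_nonneg _)

lemma avg_mul_self_es (f : (U → A) → ℝ) (T : Finset U) :
    avg (fun x => f x * es f T x) = nr f T := by
  rw [avg_mul_es (es_dep f T) (fun u hu => es_mz f hu)]
  unfold nr
  congr 1; funext x; ring

/-- the part of level `i` -/
noncomputable def lv (f : (U → A) → ℝ) (𝒮 : Finset (Finset U)) (x : U → A) : ℝ := ∑ T ∈ 𝒮, es f T x

lemma avg_mul_lv (f : (U → A) → ℝ) (𝒮 : Finset (Finset U)) :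
    avg (fun x => f x * lv f 𝒮 x) = ∑ T ∈ 𝒮, nr f T := by
  unfold lv
  simp only [mul_sum]
  rw [avg_sum]
  exact sum_congr rfl (fun T _ => avg_mul_self_es f T)

lemma avg_lv_sq (f : (U → A) → ℝ) (𝒮 : Finset (Finset U)) :
    avg (fun x => lv f 𝒮 x ^ 2) = ∑ T ∈ 𝒮, nr f T := by
  have h1 : (fun x => lv f 𝒮 x ^ 2) = fun x => ∑ T ∈ 𝒮, ∑ T' ∈ 𝒮, es f T x * es f T' x := by
    funext x
    unfold lv
    rw [sq, sum_mul_sum]
  rw [h1, avg_sum]
  refine sum_congr rfl (fun T hT => ?_)
  rw [avg_sum, Finset.sum_eq_single T]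
  · unfold nr
    congr 1; funext x; ring
  · intro T' _ hne
    exact es_orth f f (Ne.symm hne)
  · intro h; exact absurd hT h

/-- Bessel's inequality. -/
lemma bessel (f : (U → A) → ℝ) (𝒮 : Finset (Finset U)) :
    ∑ T ∈ 𝒮, nr f T ≤ avg (fun x => f x ^ 2) := by
  have h1 : 0 ≤ avg (fun x => (f x - lv f 𝒮 x) ^ 2) := avg_nonneg (fun _ => sq_nonneg _)
  have h2 : (fun x => (f x - lv f 𝒮 x) ^ 2) =
      fun x => (f x ^ 2 + (-2) * (f x * lv f 𝒮 x)) + lv f 𝒮 x ^ 2 := by
    funext x; ring
  rw [h2, avg_add, avg_add, avg_const_mul, avg_mul_lv, avg_lv_sq] at h1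
  linarith

/-- the mean absolute value of a component -/
noncomputable def n1 (f : (U → A) → ℝ) (T : Finset U) : ℝ := avg (fun x => |es f T x|)

omit [Nonempty A] in
lemma n1_nonneg (f : (U → A) → ℝ) (T : Finset U) : 0 ≤ n1 f T := avg_nonneg (fun _ => abs_nonneg _)

lemma n1_sq_le (f : (U → A) → ℝ) (T : Finset U) : n1 f T ^ 2 ≤ nr f T := by
  unfold n1 nr
  have h := avg_cs (fun x => |es f T x|) (fun _ => (1 : ℝ))
  simp only [mul_one, one_pow, sq_abs] at h
  rw [avg_const, mul_one] at h
  exact h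

end

end Pool.Agent.Lib.MP_8d8c46_lc.EL
end
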