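import Pool.Agent.Lib.MP_8d8c46_lc.Problem
import Pool.Agent.Lib.MP_8d8c46_lc.SA.Defs
import Pool.Agent.Lib.MP_8d8c46_lc.SDP.Relax
import Pool.Agent.Lib.MP_8d8c46_lc.Mg.G023

section

/-!
Definitions for the gap of the Sherali–Adams relaxation strengthened by the basic semidefinite
program.
-/

set_option autoImplicit false

open Finset
open scoped Classical

namespace Pool.Agent.Lib.MP_8d8c46_lc.SDP

/-- `U T` behaves like the measure of the union of the sets `E a`, `a ∈ T`, on every set of at most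
`k` points. -/
def LocCov {V : Type*} [DecidableEq V] (k : ℕ) (U : Finset V → ℝ) : Prop :=
  ∀ A : Finset V, A.card ≤ k → ∃ w : Finset V → ℝ, (∀ B, 0 ≤ w B) ∧
    ∀ T ⊆ A, U T = ∑ B ∈ A.powerset.filter (fun B => (B ∩ T).Nonempty), w B

/-- The probability that all points of `T` are covered by a Poisson process of intensity `μ`. -/
noncomputable def law {V : Type*} (μ : ℝ) (U : Finset V → ℝ) (T : Finset V) : ℝ :=
  ∑ R ∈ T.powerset, (-1) ^ R.card * Real.exp (-μ * U R)

/-- Symmetric positive semidefinite kernels. -/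
def PSDk {V : Type*} [Fintype V] (K : V → V → ℝ) : Prop :=
  (∀ u v, K u v = K v u) ∧ ∀ c : V → ℝ, 0 ≤ ∑ u, ∑ v, c u * c v * K u v

/-- `Φ m σ = ∫ (1 - x²)^m` over `[σ, 1]`. -/
noncomputable def Phi (m : ℕ) (σ : ℝ) : ℝ := ∫ x in σ..1, (1 - x ^ 2) ^ m

/-- The relative volume of the intersection of two balls of radius `1/√2` in dimension `2 m + 1`
whose centres are unit vectors with inner product `y`. -/
noncomputable def lensP (m : ℕ) (y : ℝ) : ℝ := Phi m (Real.sqrt (1 - y)) / Phi m 0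

/-- The Euclidean space of dimension `n`. -/
abbrev En (n : ℕ) : Type := EuclideanSpace ℝ (Fin n)

/-- the radius `1/√2` -/
noncomputable def rad : ℝ := Real.sqrt (1 / 2)

/-- The relative volume of the union of the balls of radius `rad` around vectors with Gram matrix
`g`, in dimension `n`. -/
noncomputable def covU {V : Type*} (n : ℕ) (g : V → V → ℝ) (T : Finset V) : ℝ :=
  if h : ∃ ψ : V → En n, ∀ a ∈ T, ∀ b ∈ T, inner ℝ (ψ a) (ψ b) = g a b then
    MeasureTheory.volume.real (⋃ a ∈ T, Metric.closedBall (h.choose a) rad) /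
      MeasureTheory.volume.real (Metric.closedBall (0 : En n) rad)
  else 0

/-- The discrete cube. -/
abbrev Cube (D : ℕ) : Type := Fin D → ZMod 2

/-- The Hamming weight. -/
noncomputable def wt {D : ℕ} (x : Cube D) : ℕ := (univ.filter (fun i => x i ≠ 0)).card

/-- The correlation of two points of the cube. -/
noncomputable def cor {D : ℕ} (x y : Cube D) : ℝ := (∑ i, sg (x i + y i)) / D

/-- The characters of the cube. -/
noncomputable def ch {D : ℕ} (a x : Cube D) : ℝ := sg (∑ i, a i * x i)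

/-- Fourier coefficients. -/
noncomputable def fc {D : ℕ} (h : Cube D → ℝ) (a : Cube D) : ℝ := avg (fun x => h x * ch a x)

/-- The blown up Cayley graph. -/
def cay {D : ℕ} (q : ℕ) (Z : Finset (Cube D)) (hZ : (0 : Cube D) ∉ Z) :
    SimpleGraph (Cube D × Fin q) where
  Adj u v := u.1 + v.1 ∈ Z
  symm := ⟨by
    intro u v h
    rwa [add_comm]⟩
  loopless := ⟨by
    intro u h
    apply hZ
    have h2 : u.1 + u.1 = 0 := by
      funext i
      exact CharTwo.add_self_eq_zero (u.1 i)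
    rwa [h2] at h⟩

end Pool.Agent.Lib.MP_8d8c46_lc.SDP
end

section

set_option autoImplicit false

open Finset
open scoped Classical

namespace Pool.Agent.Lib.MP_8d8c46_lc.SDP

-- BEGIN J1
/-- the coefficients of the right inverse -/
noncomputable def J1_c (K i : ℕ) : ℝ :=
  (-1) ^ i * (i.factorial : ℝ) / (((K : ℝ) + 1) * (K.descFactorial i : ℝ))

lemma J1_c_zero (K : ℕ) : ((K : ℝ) + 1) * J1_c K 0 = 1 := by
  unfold J1_c
  have : (K : ℝ) + 1 ≠ 0 := by positivity
  simp
  field_simp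

lemma J1_c_succ (K i : ℕ) (h : i + 1 ≤ K) :
    ((K : ℝ) - i) * J1_c K (i + 1) + ((i : ℝ) + 1) * J1_c K i = 0 := by
  unfold J1_c
  have h1 : (K : ℝ) + 1 ≠ 0 := by positivity
  have h2 : (K.descFactorial i : ℝ) ≠ 0 := by
    have : K.descFactorial i ≠ 0 := by
      rw [Ne, Nat.descFactorial_eq_zero_iff_lt]
      omega
    exact_mod_cast this
  have h3 : (K : ℝ) - i ≠ 0 := by
    have : (i : ℝ) + 1 ≤ K := by exact_mod_cast h
    intro h4
    linarith
  have h4 : (K.descFactorial (i + 1) : ℝ) = ((K : ℝ) - i) * (K.descFactorial i : ℝ) := by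
    rw [Nat.descFactorial_succ, Nat.cast_mul, Nat.cast_sub (by omega)]
  rw [h4, Nat.factorial_succ, pow_succ]
  push_cast
  field_simp
  ring

lemma J1_c_abs (K i : ℕ) (h : i ≤ K) :
    |J1_c K i| * (K.choose i : ℝ) = 1 / ((K : ℝ) + 1) := by
  unfold J1_c
  have h1 : (0 : ℝ) < (K : ℝ) + 1 := by positivity
  have h2 : (0 : ℝ) < (K.descFactorial i : ℝ) := by
    have : 0 < K.descFactorial i := Nat.descFactorial_pos.2 h
    exact_mod_cast this
  have h3 : (K.descFactorial i : ℝ) = (i.factorial : ℝ) * (K.choose i : ℝ) := by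
    exact_mod_cast Nat.descFactorial_eq_factorial_mul_choose K i
  rw [abs_div, abs_mul, abs_pow, abs_neg, abs_one, one_pow, one_mul,
    abs_of_pos (by positivity : (0 : ℝ) < (i.factorial : ℝ)),
    abs_of_pos (mul_pos h1 h2)]
  rw [div_mul_eq_mul_div, ← h3]
  field_simp

lemma J1_count {V : Type*} [Fintype V] [DecidableEq V] (j i : ℕ) (U : Finset V)
    (hU : U.card = j + 1) :
    ((powersetCard j (univ : Finset V)).filter (fun T => (T \ U).card = i)).card ≤
      (j + 1).choose (j - i) * (Fintype.card V - (j + 1)).choose i := by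
  have h1 : (powersetCard (j - i) U ×ˢ powersetCard i (univ \ U)).card =
      (j + 1).choose (j - i) * (Fintype.card V - (j + 1)).choose i := by
    rw [card_product, card_powersetCard, card_powersetCard, hU, card_univ_sdiff, hU]
  rw [← h1]
  refine card_le_card_of_injOn (fun T => (T ∩ U, T \ U)) ?_ ?_
  · intro T hT
    rw [coe_filter, Set.mem_ofPred_eq, mem_powersetCard] at hT
    rw [mem_coe, mem_product, mem_powersetCard, mem_powersetCard]
    refine ⟨⟨inter_subset_right, ?_⟩, ?_, hT.2⟩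
    · show (T ∩ U).card = j - i
      have h2 := card_inter_add_card_sdiff T U
      have h3 := hT.1.2
      have h4 := hT.2
      omega
    · exact sdiff_subset_sdiff (subset_univ _) subset_rfl
  · intro T _ T' _ h
    simp only [Prod.mk.injEq] at h
    rw [← sdiff_union_inter T U, ← sdiff_union_inter T' U, h.1, h.2]

/-- A right inverse of the inclusion map from the `(j+1)`-subsets to the `j`-subsets with a bound.
Let `n = |V|`, `c i = (-1)^i * i! / ((n - j) (n - j - 1) ⋯ (n - j - i))` and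
`Y U = ∑ i ∈ range (j + 1), c i * ∑ T with |T| = j and |T \ U| = i, f T` (for `|U| = j + 1`).
For fixed `T₀` with `|T₀| = j` and `T` with `|T| = j`, `|T \ T₀| = l`, the number of `v ∉ T₀` with
`|T \ insert v T₀| = l` is `n - j - l` (all `v ∉ T ∪ T₀`), and it is `l` for `l - 1`
(the `v ∈ T \ T₀`). So the coefficient of `f T` in `∑ v ∉ T₀, Y (insert v T₀)` is
`c l * (n - j - l) + c (l - 1) * l`, which is `1` for `l = 0` (only `T = T₀`) and `0` for `l ≥ 1`.
Bound: the number of `T` with `|T| = j`, `|T \ U| = i` is `C(j+1, j-i) * C(n-j-1, i)`, and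
`i! * C(n-j-1, i) = (n-j-1) ⋯ (n-j-i)`, so
`|Y U| ≤ M / (n - j) * ∑ i, C(j+1, i+1) ≤ 2^(j+1) M / (n - j)`.
(Any other proof is fine, e.g. induction with a worse constant is NOT enough only if it changes the
statement; keep the constant `2^(j+1)`.) -/
theorem J1_raise {V : Type*} [Fintype V] [DecidableEq V] (j : ℕ)
    (hn : 2 * j + 1 ≤ Fintype.card V) (f : Finset V → ℝ) (M : ℝ)
    (hf : ∀ T : Finset V, T.card = j → |f T| ≤ M) :
    ∃ Y : Finset V → ℝ,
      (∀ T : Finset V, T.card = j → ∑ v ∈ univ \ T, Y (insert v T) = f T) ∧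
      ∀ U : Finset V, U.card = j + 1 → |Y U| ≤ 2 ^ (j + 1) * M / ((Fintype.card V : ℝ) - j) := by
  obtain ⟨K, hK⟩ : ∃ K : ℕ, Fintype.card V = j + K + 1 := ⟨Fintype.card V - j - 1, by omega⟩
  have hjK : j ≤ K := by omega
  refine ⟨fun U => ∑ T ∈ powersetCard j (univ : Finset V), J1_c K (T \ U).card * f T, ?_, ?_⟩
  · intro T₀ hT₀
    show ∑ v ∈ univ \ T₀, ∑ T ∈ powersetCard j (univ : Finset V),
      J1_c K (T \ insert v T₀).card * f T = f T₀
    rw [sum_comm]
    have key : ∀ T ∈ powersetCard j (univ : Finset V),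
        ∑ v ∈ univ \ T₀, J1_c K (T \ insert v T₀).card * f T =
          if T = T₀ then f T else 0 := by
      intro T hT
      have hTc : T.card = j := (mem_powersetCard.1 hT).2
      rw [← sum_mul]
      have hsub : T \ T₀ ⊆ univ \ T₀ := sdiff_subset_sdiff (subset_univ _) subset_rfl
      rw [← sum_sdiff hsub]
      have e1 : ∑ v ∈ T \ T₀, J1_c K (T \ insert v T₀).card =
          ((T \ T₀).card : ℝ) * J1_c K ((T \ T₀).card - 1) := by
        rw [← nsmul_eq_mul, ← sum_const]
        refine sum_congr rfl fun v hv => ?_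
        have e5 : T \ insert v T₀ = (T \ T₀).erase v := by
          ext x
          simp only [mem_sdiff, mem_insert, not_or, mem_erase]
          tauto
        rw [e5, card_erase_of_mem hv]
      have e2 : ∑ v ∈ (univ \ T₀) \ (T \ T₀), J1_c K (T \ insert v T₀).card =
          (((univ \ T₀) \ (T \ T₀)).card : ℝ) * J1_c K (T \ T₀).card := by
        rw [← nsmul_eq_mul, ← sum_const]
        refine sum_congr rfl fun v hv => ?_
        have hv2 : v ∉ T := by
          intro hvT
          rw [mem_sdiff, mem_sdiff] at hv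
          exact hv.2 (mem_sdiff.2 ⟨hvT, hv.1.2⟩)
        congr 2
        ext x
        simp only [mem_sdiff, mem_insert, not_or]
        constructor
        · rintro ⟨h1, -, h3⟩
          exact ⟨h1, h3⟩
        · rintro ⟨h1, h3⟩
          exact ⟨h1, fun h => hv2 (h ▸ h1), h3⟩
      have e3 : (((univ \ T₀) \ (T \ T₀)).card : ℝ) = (K : ℝ) + 1 - (T \ T₀).card := by
        have h1 : ((univ \ T₀) \ (T \ T₀)).card = (univ \ T₀ : Finset V).card - (T \ T₀).card :=
          card_sdiff_of_subset hsub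
        have h2 : (univ \ T₀ : Finset V).card = K + 1 := by
          rw [card_univ_sdiff, hT₀, hK]
          omega
        have h3 : (T \ T₀).card ≤ K + 1 := by
          rw [← h2]
          exact card_le_card hsub
        rw [h1, h2, Nat.cast_sub h3]
        push_cast
        ring
      rw [e1, e2, e3]
      rcases Nat.eq_zero_or_pos (T \ T₀).card with h0 | hpos
      · have hTT : T = T₀ := by
          have h1 : T \ T₀ = ∅ := card_eq_zero.1 h0
          exact eq_of_subset_of_card_le (sdiff_eq_empty_iff_subset.1 h1) (by rw [hTc, hT₀])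
        rw [if_pos hTT, h0]
        have := J1_c_zero K
        simp only [Nat.cast_zero, zero_mul, add_zero, sub_zero]
        rw [this, one_mul]
      · have hTT : T ≠ T₀ := by
          rintro rfl
          simp at hpos
        rw [if_neg hTT]
        obtain ⟨i, hi⟩ : ∃ i, (T \ T₀).card = i + 1 := ⟨(T \ T₀).card - 1, by omega⟩
        have hle : i + 1 ≤ K := by
          have : (T \ T₀).card ≤ T.card := card_le_card sdiff_subset
          omega
        have h5 := J1_c_succ K i hle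
        rw [hi, Nat.add_sub_cancel]
        push_cast
        have h6 : ((K : ℝ) + 1 - (↑i + 1)) * J1_c K (i + 1) + (↑i + 1) * J1_c K i = 0 := by
          rw [← h5]
          ring
        rw [h6, zero_mul]
    rw [sum_congr rfl key, sum_ite_eq' (powersetCard j (univ : Finset V)) T₀]
    rw [if_pos (mem_powersetCard.2 ⟨subset_univ _, hT₀⟩)]
  · intro U hU
    have hM : 0 ≤ M := by
      obtain ⟨T, hT⟩ : ∃ T : Finset V, T.card = j := by
        obtain ⟨T, _, hT⟩ := exists_subset_card_eq (s := (univ : Finset V)) (n := j)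
          (by rw [card_univ]; omega)
        exact ⟨T, hT⟩
      exact (abs_nonneg _).trans (hf T hT)
    show |∑ T ∈ powersetCard j (univ : Finset V), J1_c K (T \ U).card * f T| ≤ _
    have hmaps : ∀ T ∈ powersetCard j (univ : Finset V), (T \ U).card ∈ range (j + 1) := by
      intro T hT
      have hTc : T.card = j := (mem_powersetCard.1 hT).2
      have : (T \ U).card ≤ T.card := card_le_card sdiff_subset
      rw [mem_range]
      omega
    calc |∑ T ∈ powersetCard j (univ : Finset V), J1_c K (T \ U).card * f T|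
        ≤ ∑ T ∈ powersetCard j (univ : Finset V), |J1_c K (T \ U).card * f T| :=
          abs_sum_le_sum_abs _ _
      _ ≤ ∑ T ∈ powersetCard j (univ : Finset V), |J1_c K (T \ U).card| * M := by
          refine sum_le_sum fun T hT => ?_
          rw [abs_mul]
          exact mul_le_mul_of_nonneg_left (hf T (mem_powersetCard.1 hT).2) (abs_nonneg _)
      _ = ∑ i ∈ range (j + 1), ∑ T ∈ (powersetCard j (univ : Finset V)).filter
            (fun T => (T \ U).card = i), |J1_c K (T \ U).card| * M :=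
          (sum_fiberwise_of_maps_to hmaps _).symm
      _ ≤ ∑ i ∈ range (j + 1), ((j + 1).choose (j - i) : ℝ) * (M / ((K : ℝ) + 1)) := by
          refine sum_le_sum fun i hi => ?_
          have hij : i ≤ j := by
            rw [mem_range] at hi
            omega
          have e1 : ∑ T ∈ (powersetCard j (univ : Finset V)).filter
              (fun T => (T \ U).card = i), |J1_c K (T \ U).card| * M =
              (((powersetCard j (univ : Finset V)).filter
                (fun T => (T \ U).card = i)).card : ℝ) * (|J1_c K i| * M) := by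
            rw [← nsmul_eq_mul, ← sum_const]
            refine sum_congr rfl fun T hT => ?_
            rw [(mem_filter.1 hT).2]
          rw [e1]
          have e2 : (((powersetCard j (univ : Finset V)).filter
                (fun T => (T \ U).card = i)).card : ℝ) ≤
              ((j + 1).choose (j - i) : ℝ) * (K.choose i : ℝ) := by
            have h1 := J1_count j i U hU
            have h2 : Fintype.card V - (j + 1) = K := by omega
            rw [h2] at h1
            exact_mod_cast h1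
          have e3 := J1_c_abs K i (hij.trans hjK)
          calc _ ≤ (((j + 1).choose (j - i) : ℝ) * (K.choose i : ℝ)) * (|J1_c K i| * M) :=
                mul_le_mul_of_nonneg_right e2 (mul_nonneg (abs_nonneg _) hM)
            _ = ((j + 1).choose (j - i) : ℝ) * ((|J1_c K i| * (K.choose i : ℝ)) * M) := by ring
            _ = ((j + 1).choose (j - i) : ℝ) * (M / ((K : ℝ) + 1)) := by
                rw [e3]
                ring
      _ = (∑ i ∈ range (j + 1), ((j + 1).choose (j - i) : ℝ)) * (M / ((K : ℝ) + 1)) := by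
          rw [sum_mul]
      _ ≤ 2 ^ (j + 1) * (M / ((K : ℝ) + 1)) := by
          refine mul_le_mul_of_nonneg_right ?_ (div_nonneg hM (by positivity))
          have h1 : ∑ i ∈ range (j + 1), (j + 1).choose (j - i) =
              ∑ i ∈ range (j + 1), (j + 1).choose i := by
            have := sum_range_reflect (fun i => (j + 1).choose i) (j + 1)
            rw [← this]
            refine sum_congr rfl fun i _ => ?_
            congr 1
          have h2 : ∑ i ∈ range (j + 1), (j + 1).choose i ≤ 2 ^ (j + 1) := by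
            rw [← Nat.sum_range_choose (j + 1), sum_range_succ _ (j + 1)]
            exact Nat.le_add_right _ _
          have h3 : ∑ i ∈ range (j + 1), (j + 1).choose (j - i) ≤ 2 ^ (j + 1) := h1.trans_le h2
          exact_mod_cast h3
      _ = 2 ^ (j + 1) * M / ((Fintype.card V : ℝ) - j) := by
          rw [hK]
          push_cast
          rw [mul_div_assoc]
          congr 2
          ring
-- END J1

end Pool.Agent.Lib.MP_8d8c46_lc.SDP
end

section

set_option autoImplicit false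

open Finset
open scoped Classical

namespace Pool.Agent.Lib.MP_8d8c46_lc.SDP

section
variable {V : Type*} [Fintype V]

-- BEGIN K1
/-- Sums, nonnegative multiples, constants, the diagonal. (`∑∑ c u c v = (∑ c)^2`.) -/
theorem K1_basic : (∀ K L : V → V → ℝ, PSDk K → PSDk L → PSDk (fun u v => K u v + L u v)) ∧
    (∀ (a : ℝ) (K : V → V → ℝ), 0 ≤ a → PSDk K → PSDk (fun u v => a * K u v)) ∧
    (∀ a : ℝ, 0 ≤ a → PSDk (fun _ _ : V => a)) ∧
    (∀ a : ℝ, 0 ≤ a → PSDk (fun u v : V => if u = v then a else 0)) := by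
  refine ⟨fun K L hK hL => ⟨fun u v => ?_, fun c => ?_⟩, fun a K ha hK => ⟨fun u v => ?_, fun c => ?_⟩,
    fun a ha => ⟨fun u v => rfl, fun c => ?_⟩, fun a ha => ⟨fun u v => ?_, fun c => ?_⟩⟩
  · show K u v + L u v = K v u + L v u
    rw [hK.1 u v, hL.1 u v]
  · have h1 := hK.2 c
    have h2 := hL.2 c
    have h3 : ∑ u, ∑ v, c u * c v * (K u v + L u v)
        = ∑ u, ∑ v, c u * c v * K u v + ∑ u, ∑ v, c u * c v * L u v := by
      rw [← sum_add_distrib]
      refine sum_congr rfl fun u _ => ?_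
      rw [← sum_add_distrib]
      exact sum_congr rfl fun v _ => by ring
    rw [h3]
    linarith
  · show a * K u v = a * K v u
    rw [hK.1 u v]
  · have h1 := hK.2 c
    have h3 : ∑ u, ∑ v, c u * c v * (a * K u v) = a * ∑ u, ∑ v, c u * c v * K u v := by
      rw [mul_sum]
      refine sum_congr rfl fun u _ => ?_
      rw [mul_sum]
      exact sum_congr rfl fun v _ => by ring
    rw [h3]
    exact mul_nonneg ha h1
  · have h3 : ∑ u, ∑ v, c u * c v * a = a * (∑ u, c u) ^ 2 := by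
      rw [pow_two, sum_mul_sum, mul_sum]
      refine sum_congr rfl fun u _ => ?_
      rw [mul_sum]
      exact sum_congr rfl fun v _ => by ring
    rw [h3]
    positivity
  · show (if u = v then a else 0) = (if v = u then a else 0)
    by_cases h : u = v
    · subst h; rfl
    · rw [if_neg h, if_neg (Ne.symm h)]
  · have h3 : ∑ u, ∑ v, c u * c v * (if u = v then a else 0) = ∑ u, a * c u ^ 2 := by
      refine sum_congr rfl fun u _ => ?_
      rw [sum_eq_single u]
      · rw [if_pos rfl]; ring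
      · intro v _ hv
        rw [if_neg (Ne.symm hv), mul_zero]
      · intro h; exact absurd (mem_univ u) h
    rw [h3]
    exact sum_nonneg fun u _ => by positivity
-- END K1

-- BEGIN K2
private lemma K2_iff (K : V → V → ℝ) : PSDk K ↔ (Matrix.of K).PosSemidef := by
  have key : ∀ c : V → ℝ, star c ⬝ᵥ (Matrix.of K).mulVec c = ∑ u, ∑ v, c u * c v * K u v := by
    intro c
    simp only [dotProduct, Matrix.mulVec, star_trivial, Matrix.of_apply]
    refine sum_congr rfl fun u _ => ?_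
    rw [mul_sum]
    exact sum_congr rfl fun v _ => by ring
  rw [Matrix.posSemidef_iff_dotProduct_mulVec]
  constructor
  · rintro ⟨h1, h2⟩
    refine ⟨?_, fun c => by rw [key]; exact h2 c⟩
    ext u v
    rw [Matrix.conjTranspose_apply, star_trivial, Matrix.of_apply, Matrix.of_apply]
    exact h1 v u
  · rintro ⟨h1, h2⟩
    refine ⟨fun u v => ?_, fun c => by rw [← key]; exact h2 c⟩
    have := h1.apply u v
    rw [star_trivial, Matrix.of_apply, Matrix.of_apply] at this
    exact this.symm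

/-- The Schur product theorem. (Mathlib may have `Matrix.PosSemidef.hadamard`; otherwise: the matrix
`K` is `Bᵀ B`, so `∑∑ c u c v K u v L u v = ∑ r, ∑∑ (c u B r u) (c v B r v) L u v ≥ 0`.) -/
theorem K2_mul (K L : V → V → ℝ) (hK : PSDk K) (hL : PSDk L) :
    PSDk (fun u v => K u v * L u v) := by
  rw [K2_iff] at hK hL ⊢
  exact hK.hadamard hL
-- END K2

-- BEGIN K3
/-- Powers, by induction from `K1_basic` and `K2_mul`. -/
theorem K3_pow (K : V → V → ℝ) (hK : PSDk K) (i : ℕ) : PSDk (fun u v => K u v ^ i) := by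
  induction i with
  | zero =>
    have h := K1_basic (V := V).2.2.1 1 zero_le_one
    simpa using h
  | succ i ih =>
    have h := K2_mul _ _ ih hK
    simpa [pow_succ] using h
-- END K3

-- BEGIN K4
/-- Power series with nonnegative coefficients: limit of the partial sums. -/
theorem K4_series (K L : V → V → ℝ) (hK : PSDk K) (b : ℕ → ℝ) (hb : ∀ i, 0 ≤ b i)
    (h : ∀ u v, HasSum (fun i => b i * K u v ^ i) (L u v)) : PSDk L := by
  refine ⟨fun u v => ?_, fun c => ?_⟩
  · have h1 := h u v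
    have h2 := h v u
    have h3 : (fun i => b i * K u v ^ i) = fun i => b i * K v u ^ i := by
      funext i; rw [hK.1 u v]
    rw [h3] at h1
    exact h1.unique h2
  · have h1 : HasSum (fun i => ∑ u, ∑ v, c u * c v * (b i * K u v ^ i)) (∑ u, ∑ v, c u * c v * L u v) :=
      hasSum_sum fun u _ => hasSum_sum fun v _ => (h u v).mul_left _
    refine h1.nonneg fun i => ?_
    exact (K1_basic (V := V).2.1 (b i) _ (hb i) (K3_pow K hK i)).2 c
-- END K4

-- BEGIN K5
/-- `exp (μ K) - 1 = ∑ i ≥ 1, μ^i K^i / i!`. Use `K4_series` with `b 0 = 0`. -/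
theorem K5_exp (K : V → V → ℝ) (hK : PSDk K) {μ : ℝ} (hμ : 0 ≤ μ) :
    PSDk (fun u v => Real.exp (μ * K u v) - 1) := by
  refine K4_series K _ hK (fun i => if i = 0 then 0 else μ ^ i / i.factorial) (fun i => ?_) fun u v => ?_
  · split_ifs
    · exact le_rfl
    · positivity
  · have h1 : HasSum (fun i : ℕ => (μ * K u v) ^ i / i.factorial) (Real.exp (μ * K u v)) := by
      rw [Real.exp_eq_exp_ℝ]
      exact NormedSpace.expSeries_div_hasSum_exp (μ * K u v)
    have h2 : HasSum (fun i : ℕ => if i = 0 then (1 : ℝ) else 0) 1 := by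
      have := hasSum_ite_eq (0 : ℕ) (1 : ℝ)
      exact this
    have h3 := h1.sub h2
    refine h3.congr_fun ?_
    intro i
    by_cases hi : i = 0
    · subst hi; simp
    · rw [if_neg hi, if_neg hi, mul_pow]; ring
-- END K5

-- BEGIN K6
open scoped MatrixOrder in
private lemma K6_sqrt {n : Type*} [Fintype n] (M : Matrix n n ℝ) (hM : M.PosSemidef) :
    ∃ B : Matrix n n ℝ, ∀ a b, ∑ r, B r a * B r b = M a b := by
  have h0 : (0 : Matrix n n ℝ) ≤ M := hM.nonneg
  have h1 := CFC.sqrt_mul_sqrt_self M h0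
  have h2 : (CFC.sqrt M).PosSemidef := Matrix.nonneg_iff_posSemidef.1 (CFC.sqrt_nonneg M)
  refine ⟨CFC.sqrt M, fun a b => ?_⟩
  conv_rhs => rw [← h1, Matrix.mul_apply]
  refine sum_congr rfl fun r _ => ?_
  have h3 := h2.1.apply a r
  rw [star_trivial] at h3
  rw [h3]

/-- Every Gram matrix of size at most `n` is realised in dimension `n`. The matrix
`(g a b)`, `a, b ∈ A`, is positive semidefinite, so it is `Bᵀ B` with a square matrix `B` of size
`|A| ≤ n` (`Matrix.PosSemidef` square root, or `Matrix.posSemidef_iff_eq_conjTranspose_mul_self`);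
take the columns, with an injection of the index set into `Fin n`, and extend by `0`. -/
theorem K6_gram {g : V → V → ℝ} (hg : PSDk g) (n : ℕ) (A : Finset V) (hA : A.card ≤ n) :
    ∃ ψ : V → En n, ∀ a ∈ A, ∀ b ∈ A, inner ℝ (ψ a) (ψ b) = g a b := by
  rw [K2_iff] at hg
  have h1 : ((Matrix.of g).submatrix (Subtype.val : A → V) (Subtype.val : A → V)).PosSemidef :=
    hg.submatrix _
  obtain ⟨B, hB⟩ := K6_sqrt _ h1
  obtain ⟨ι⟩ : Nonempty (A ↪ Fin n) := by
    apply Function.Embedding.nonempty_of_card_le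
    simpa using hA
  refine ⟨fun a => WithLp.toLp 2 (fun i => if h : a ∈ A then
    (if h2 : ∃ r : A, ι r = i then B h2.choose ⟨a, h⟩ else 0) else 0), ?_⟩
  intro a ha b hb
  rw [PiLp.inner_apply]
  have h2 : ∀ i : Fin n, inner ℝ
      ((WithLp.toLp 2 (fun i => if h : a ∈ A then
        (if h2 : ∃ r : A, ι r = i then B h2.choose ⟨a, h⟩ else 0) else 0) : En n) i)
      ((WithLp.toLp 2 (fun i => if h : b ∈ A then
        (if h2 : ∃ r : A, ι r = i then B h2.choose ⟨b, h⟩ else 0) else 0) : En n) i)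
      = if h2 : ∃ r : A, ι r = i then B h2.choose ⟨a, ha⟩ * B h2.choose ⟨b, hb⟩ else 0 := by
    intro i
    simp only [ha, hb, dif_pos]
    by_cases h : ∃ r : A, ι r = i
    · simp only [dif_pos h]
      rw [real_inner_eq_re_inner ℝ]
      simp [mul_comm]
    · simp only [dif_neg h]
      simp
  rw [sum_congr rfl fun i _ => h2 i]
  have h3 : ∑ i : Fin n, (if h2 : ∃ r : A, ι r = i then B h2.choose ⟨a, ha⟩ * B h2.choose ⟨b, hb⟩ else 0)
      = ∑ r : A, B r ⟨a, ha⟩ * B r ⟨b, hb⟩ := by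
    symm
    refine sum_of_injOn ι ι.injective.injOn (fun _ _ => by simp) ?_ ?_
    · intro i _ hi
      rw [dif_neg]
      rintro ⟨r, hr⟩
      exact hi ⟨r, by simp, hr⟩
    · intro r _
      have h4 : ∃ r' : A, ι r' = ι r := ⟨r, rfl⟩
      rw [dif_pos h4]
      have h5 : h4.choose = r := ι.injective h4.choose_spec
      rw [h5]
  rw [h3, hB]
  rfl
-- END K6

-- BEGIN K7
/-- Removing the constant mode. With `R` the row sum and `n = |V|`, write `c = c' + c̄` with
`∑ c' = 0`; the constant vector is an eigenvector, so `∑∑ c u c v (K u v - R / n) =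
∑∑ c' u c' v K u v`. -/
theorem K7_center [Nonempty V] {K : V → V → ℝ} (hK : PSDk K) {R : ℝ}
    (hrow : ∀ u, ∑ v, K u v = R) : PSDk (fun u v => K u v - R / Fintype.card V) := by
  refine ⟨fun u v => ?_, fun c => ?_⟩
  · show K u v - R / Fintype.card V = K v u - R / Fintype.card V
    rw [hK.1 u v]
  obtain ⟨n, hn⟩ : ∃ n : ℝ, n = Fintype.card V := ⟨_, rfl⟩
  have hn0 : n ≠ 0 := by
    rw [hn]; exact_mod_cast Fintype.card_ne_zero
  rw [← hn]
  obtain ⟨m, hm⟩ : ∃ m : ℝ, m = (∑ u, c u) / n := ⟨_, rfl⟩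
  have hs : ∑ u, c u = m * n := by rw [hm]; field_simp
  have h1 := hK.2 (fun u => c u - m)
  have hcol : ∀ v, ∑ u, K u v = R := fun v => by
    rw [← hrow v]; exact sum_congr rfl fun u _ => hK.1 u v
  have e1 : ∑ u, ∑ v, (c u - m) * (c v - m) * K u v
      = ∑ u, ∑ v, c u * c v * K u v - m * ∑ u, c u * ∑ v, K u v - m * ∑ v, c v * ∑ u, K u v
        + m * m * ∑ u, ∑ v, K u v := by
    have a1 : ∑ v, c v * ∑ u, K u v = ∑ u, ∑ v, c v * K u v := by
      simp_rw [mul_sum]; exact sum_comm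
    rw [a1]
    simp_rw [mul_sum]
    rw [← sum_sub_distrib, ← sum_sub_distrib, ← sum_add_distrib]
    refine sum_congr rfl fun u _ => ?_
    rw [← sum_sub_distrib, ← sum_sub_distrib, ← sum_add_distrib]
    refine sum_congr rfl fun v _ => ?_
    ring
  have e2 : ∑ u, ∑ v, c u * c v * (K u v - R / n)
      = ∑ u, ∑ v, c u * c v * K u v - (R / n) * ((∑ u, c u) * ∑ v, c v) := by
    rw [sum_mul_sum, mul_sum, ← sum_sub_distrib]
    refine sum_congr rfl fun u _ => ?_
    rw [mul_sum, ← sum_sub_distrib]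
    refine sum_congr rfl fun v _ => ?_
    ring
  rw [e1] at h1
  simp_rw [hrow, hcol] at h1
  rw [← sum_mul, hs, sum_const, card_univ, nsmul_eq_mul, ← hn] at h1
  rw [e2, hs]
  have e3 : R / n * (m * n * (m * n)) = m * m * (n * R) := by field_simp
  rw [e3]
  linarith
-- END K7

-- BEGIN K8
/-- Entries of a positive semidefinite kernel with unit diagonal are at most `1`:
take `c = e_u - e_v`. -/
theorem K8_le_one {K : V → V → ℝ} (hK : PSDk K) (h1 : ∀ u, K u u = 1) (u v : V) : K u v ≤ 1 := by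
  by_cases huv : u = v
  · rw [huv, h1]
  · have h2 := hK.2 (fun w => (if w = u then 1 else 0) - (if w = v then 1 else 0))
    have h3 : ∑ a, ∑ b, ((if a = u then (1 : ℝ) else 0) - (if a = v then 1 else 0)) *
        ((if b = u then (1 : ℝ) else 0) - (if b = v then 1 else 0)) * K a b
        = K u u - K u v - K v u + K v v := by
      have h4 : ∀ a, ∑ b, ((if a = u then (1 : ℝ) else 0) - (if a = v then 1 else 0)) *
        ((if b = u then (1 : ℝ) else 0) - (if b = v then 1 else 0)) * K a b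
          = ((if a = u then (1 : ℝ) else 0) - (if a = v then 1 else 0)) * (K a u - K a v) := by
        intro a
        simp_rw [mul_assoc]
        rw [← mul_sum]
        congr 1
        simp_rw [sub_mul, ite_mul, one_mul, zero_mul]
        rw [sum_sub_distrib, sum_ite_eq', sum_ite_eq']
        simp
      rw [sum_congr rfl fun a _ => h4 a]
      simp_rw [sub_mul, ite_mul, one_mul, zero_mul]
      rw [sum_sub_distrib, sum_ite_eq', sum_ite_eq']
      simp
      ring
    rw [h3, h1, h1, hK.1 v u] at h2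
    linarith
-- END K8

end

end Pool.Agent.Lib.MP_8d8c46_lc.SDP
end

section

set_option autoImplicit false

open Finset
open scoped Classical

namespace Pool.Agent.Lib.MP_8d8c46_lc.SDP

section
variable {V : Type*} [DecidableEq V]

-- BEGIN C1
theorem C1_aux {S T : Finset V} (h : Disjoint S T) : ∀ e : Finset V → ℝ,
    ∑ R ∈ T.powerset, (-1 : ℝ) ^ R.card * ∑ Q ∈ (S ∪ R).powerset, (-1) ^ Q.card * e Q =
      ∑ R ∈ S.powerset, (-1) ^ R.card * e (T ∪ R) := by
  induction T using Finset.induction_on with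
  | empty =>
    intro e
    simp
  | insert v T hv ih =>
    intro e
    rw [Finset.disjoint_insert_right] at h
    have ih2 := ih h.2 (fun X => e (insert v X))
    simp only [Finset.insert_union]
    rw [← ih2, Finset.sum_powerset_insert hv, ← Finset.sum_add_distrib]
    apply Finset.sum_congr rfl
    intro R hR
    rw [Finset.mem_powerset] at hR
    have hvR : v ∉ R := fun hh => hv (hR hh)
    have hvSR : v ∉ S ∪ R := by
      rw [Finset.mem_union, not_or]
      exact ⟨h.1, hvR⟩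
    rw [Finset.card_insert_of_notMem hvR, Finset.union_insert, Finset.sum_powerset_insert hvSR]
    have h3 : ∑ Q ∈ (S ∪ R).powerset, (-1 : ℝ) ^ (insert v Q).card * e (insert v Q) =
        - ∑ Q ∈ (S ∪ R).powerset, (-1 : ℝ) ^ Q.card * e (insert v Q) := by
      rw [← Finset.sum_neg_distrib]
      apply Finset.sum_congr rfl
      intro Q hQ
      rw [Finset.mem_powerset] at hQ
      have hvQ : v ∉ Q := fun hh => hvSR (hQ hh)
      rw [Finset.card_insert_of_notMem hvQ, pow_succ]
      ring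
    rw [h3, pow_succ]
    ring

/-- Inclusion-exclusion. Expand `law μ U (S ∪ R) = ∑ over Q ⊆ S ∪ R`; write `Q = Q₁ ∪ Q₂` uniquely
with `Q₁ ⊆ S`, `Q₂ ⊆ R` (S and T are disjoint), and use, for every fixed `Q₁` and the function
`e Q₂ = exp (-μ * U (Q₁ ∪ Q₂))`, the Moebius identity
`∑ R ⊆ T, (-1)^|R| ∑ Q₂ ⊆ R, (-1)^|Q₂| e Q₂ = e T`. -/
theorem C1_incl_excl (μ : ℝ) (U : Finset V → ℝ) {S T : Finset V} (h : Disjoint S T) :
    ∑ R ∈ T.powerset, (-1) ^ R.card * law μ U (S ∪ R) =
      ∑ R ∈ S.powerset, (-1) ^ R.card * Real.exp (-μ * U (T ∪ R)) :=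
  C1_aux h (fun Q => Real.exp (-μ * U Q))
-- END C1

-- BEGIN C2
theorem C2_aux (w : Finset V → ℝ) (hw : ∀ B, 0 ≤ w B) {μ : ℝ} (hμ : 0 ≤ μ) (T : Finset V)
    (F : Finset (Finset V)) : ∀ S : Finset V,
    0 ≤ ∑ R ∈ S.powerset, (-1 : ℝ) ^ R.card *
      Real.exp (-μ * ∑ B ∈ F.filter (fun B => (B ∩ (T ∪ R)).Nonempty), w B) := by
  induction F using Finset.induction_on with
  | empty =>
    intro S
    simp only [Finset.filter_empty, Finset.sum_empty, mul_zero, Real.exp_zero, mul_one]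
    have h := Finset.sum_powerset_neg_one_pow_card (x := S)
    have h2 : (∑ R ∈ S.powerset, (-1 : ℝ) ^ R.card) = ((if S = ∅ then 1 else 0 : ℤ) : ℝ) := by
      rw [← h]; push_cast; rfl
    rw [h2]
    split_ifs <;> simp
  | insert B₀ F hB ih =>
    intro S
    have hE0 : 0 < Real.exp (-μ * w B₀) := Real.exp_pos _
    have hE1 : Real.exp (-μ * w B₀) ≤ 1 := by
      rw [Real.exp_le_one_iff]
      nlinarith [mul_nonneg hμ (hw B₀)]
    have hsum : ∀ R : Finset V,
        Real.exp (-μ * ∑ B ∈ (insert B₀ F).filter (fun B => (B ∩ (T ∪ R)).Nonempty), w B) =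
        Real.exp (-μ * w B₀) *
          Real.exp (-μ * ∑ B ∈ F.filter (fun B => (B ∩ (T ∪ R)).Nonempty), w B) +
        (1 - Real.exp (-μ * w B₀)) * (if (B₀ ∩ (T ∪ R)).Nonempty then 0 else
          Real.exp (-μ * ∑ B ∈ F.filter (fun B => (B ∩ (T ∪ R)).Nonempty), w B)) := by
      intro R
      rw [Finset.filter_insert]
      split_ifs with hP
      · rw [Finset.sum_insert (by simp [hB]), mul_add, Real.exp_add]
        ring
      · ring
    simp only [hsum, mul_add, Finset.sum_add_distrib]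
    apply add_nonneg
    · have := mul_nonneg hE0.le (ih S)
      rw [Finset.mul_sum] at this
      convert this using 2
      ring
    · by_cases hT : (B₀ ∩ T).Nonempty
      · have hall : ∀ R : Finset V, (B₀ ∩ (T ∪ R)).Nonempty := by
          intro R
          exact hT.mono (Finset.inter_subset_inter_left Finset.subset_union_left)
        simp [hall]
      · have hiff : ∀ R : Finset V, (B₀ ∩ (T ∪ R)).Nonempty ↔ ¬ Disjoint R B₀ := by
          intro R
          rw [Finset.not_disjoint_iff_nonempty_inter, Finset.inter_union_distrib_left,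
            Finset.not_nonempty_iff_eq_empty.mp hT, Finset.empty_union, Finset.inter_comm]
        have hpow : S.powerset.filter (fun R => Disjoint R B₀) = (S \ B₀).powerset := by
          ext R
          simp only [Finset.mem_filter, Finset.mem_powerset, Finset.subset_sdiff]
        have h1 := mul_nonneg (sub_nonneg.mpr hE1) (ih (S \ B₀))
        rw [← hpow, Finset.sum_filter, Finset.mul_sum] at h1
        convert h1 using 2 with R hR
        by_cases hd : Disjoint R B₀
        · have : ¬ (B₀ ∩ (T ∪ R)).Nonempty := by rw [hiff]; simpa using hd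
          rw [if_neg this, if_pos hd]
          ring
        · have : (B₀ ∩ (T ∪ R)).Nonempty := by rw [hiff]; exact hd
          rw [if_pos this, if_neg hd]
          ring

/-- Positivity of the Poisson law. Take `w` from `hU (S ∪ T)` and put `A = S ∪ T`. For `W ⊆ A`,
`exp (-μ * U W) = ∏ B ∈ A.powerset, (if (B ∩ W).Nonempty then exp (-μ * w B) else 1)
 = ∏ B ∈ A.powerset, (e B + (1 - e B) * [B ∩ W = ∅])` with `e B = exp (-μ * w B) ∈ (0, 1]`.
Expand the product (`Finset.prod_add` or `Finset.prod_add'`): it is the sum over the families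
`F ⊆ A.powerset` of `(∏ B ∈ F, (1 - e B)) * (∏ B ∉ F, e B) * [W ∩ ⋃ F = ∅]`.
So the sum in question is a combination with nonnegative coefficients of the sums
`∑ R ⊆ S, (-1)^|R| [(T ∪ R) ∩ ⋃ F = ∅]`, and such a sum is `0` if `T` meets `⋃ F`, and otherwise it
is `∑ R ⊆ S \ ⋃ F, (-1)^|R|`, which is `1` or `0`. -/
theorem C2_nonneg {k : ℕ} {U : Finset V → ℝ} (hU : LocCov k U) {μ : ℝ} (hμ : 0 ≤ μ)
    {S T : Finset V} (h : (S ∪ T).card ≤ k) :
    0 ≤ ∑ R ∈ S.powerset, (-1) ^ R.card * Real.exp (-μ * U (T ∪ R)) := by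
  obtain ⟨w, hw, hw2⟩ := hU (S ∪ T) h
  have := C2_aux w hw hμ T (S ∪ T).powerset S
  convert this using 2 with R hR
  rw [hw2 (T ∪ R) ?_]
  rw [Finset.mem_powerset] at hR
  exact Finset.union_subset Finset.subset_union_right (hR.trans Finset.subset_union_left)
-- END C2

-- BEGIN C3
/-- One and two points. From `LocCov`: `U ∅ = 0`, `U {u} ≤ U {u, v} ≤ U {u} + U {v}`.
For `u = v` the set `{u, v}` is `{u}`, and both sides of the formula are `1 - exp (-μ)`. -/
theorem C3_pair {k : ℕ} (hk : 2 ≤ k) {U : Finset V → ℝ} (hU : LocCov k U)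
    (h1 : ∀ v, U {v} = 1) (μ : ℝ) :
    law μ U ∅ = 1 ∧ (∀ v, law μ U {v} = 1 - Real.exp (-μ)) ∧
      (∀ u v, law μ U {u, v} = 1 - 2 * Real.exp (-μ) + Real.exp (-μ * U {u, v})) ∧
      (∀ u v, 1 ≤ U {u, v} ∧ U {u, v} ≤ 2) := by
  have h0 : U ∅ = 0 := by
    obtain ⟨w, -, hw⟩ := hU ∅ (by simp)
    rw [hw ∅ (subset_refl _)]
    apply sum_eq_zero
    intro B hB
    simp at hB
  have hs : ∀ v, law μ U {v} = 1 - Real.exp (-μ) := by
    intro v
    have hps : ({v} : Finset V).powerset = {∅, {v}} := by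
      ext B; simp [Finset.subset_singleton_iff]
    unfold law
    rw [hps, sum_insert (by simp), sum_singleton, h0, h1]
    simp
    ring
  refine ⟨?_, hs, ?_, ?_⟩
  · unfold law
    simp [h0]
  · intro u v
    by_cases huv : u = v
    · subst huv
      have : ({u, u} : Finset V) = {u} := by simp
      rw [this, hs, h1]
      ring_nf
    · unfold law
      rw [sum_powerset_insert (by simpa using huv)]
      have hv := hs v
      unfold law at hv
      rw [hv]
      have hps : ({v} : Finset V).powerset = {∅, {v}} := by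
        ext B; simp [Finset.subset_singleton_iff]
      rw [hps, sum_insert (by simp), sum_singleton]
      have e1 : insert u (∅ : Finset V) = {u} := by simp
      rw [e1, h1, card_singleton, card_pair huv]
      simp
      ring
  · intro u v
    obtain ⟨w, hw0, hw⟩ := hU {u, v} ((card_le_two).trans hk)
    have hu : U {u} = ∑ B ∈ ({u, v} : Finset V).powerset.filter
        (fun B => (B ∩ {u}).Nonempty), w B := hw _ (by simp)
    have hv : U {v} = ∑ B ∈ ({u, v} : Finset V).powerset.filter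
        (fun B => (B ∩ {v}).Nonempty), w B := hw _ (by simp)
    have huv : U {u, v} = ∑ B ∈ ({u, v} : Finset V).powerset.filter
        (fun B => (B ∩ {u, v}).Nonempty), w B := hw _ (subset_refl _)
    constructor
    · rw [← h1 u, hu, huv]
      apply sum_le_sum_of_subset_of_nonneg
      · intro B hB
        rw [mem_filter] at hB ⊢
        refine ⟨hB.1, hB.2.mono (inter_subset_inter_left (by simp))⟩
      · intro B _ _
        exact hw0 B
    · have h2 : (2 : ℝ) = U {u} + U {v} := by rw [h1, h1]; norm_num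
      rw [h2, hu, hv, huv]
      have hle : ∑ B ∈ ({u, v} : Finset V).powerset.filter
          (fun B => (B ∩ {u, v}).Nonempty), w B ≤
          ∑ B ∈ (({u, v} : Finset V).powerset.filter (fun B => (B ∩ {u}).Nonempty)) ∪
            (({u, v} : Finset V).powerset.filter (fun B => (B ∩ {v}).Nonempty)), w B := by
        apply sum_le_sum_of_subset_of_nonneg
        · intro B hB
          rw [mem_filter] at hB
          obtain ⟨x, hx⟩ := hB.2
          rw [mem_inter, mem_insert, mem_singleton] at hx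
          rw [mem_union, mem_filter, mem_filter]
          rcases hx.2 with h | h
          · left
            exact ⟨hB.1, ⟨x, mem_inter.2 ⟨hx.1, mem_singleton.2 h⟩⟩⟩
          · right
            exact ⟨hB.1, ⟨x, mem_inter.2 ⟨hx.1, mem_singleton.2 h⟩⟩⟩
        · intro B _ _
          exact hw0 B
      refine hle.trans ?_
      rw [← sum_union_inter]
      have : 0 ≤ ∑ B ∈ (({u, v} : Finset V).powerset.filter (fun B => (B ∩ {u}).Nonempty)) ∩
            (({u, v} : Finset V).powerset.filter (fun B => (B ∩ {v}).Nonempty)), w B :=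
        sum_nonneg (fun B _ => hw0 B)
      linarith
-- END C3

-- BEGIN C4
theorem C4_convex {μ o : ℝ} (h0 : 0 ≤ o) (h1 : o ≤ 1) :
    Real.exp (μ * o) - 1 ≤ o * (Real.exp μ - 1) := by
  have h := convexOn_exp.2 (Set.mem_univ (0 : ℝ)) (Set.mem_univ μ) (sub_nonneg.mpr h1) h0
    (by ring)
  simp only [smul_eq_mul, mul_zero, zero_add, Real.exp_zero, mul_one] at h
  rw [mul_comm o μ] at h
  linarith

theorem C4_over {k : ℕ} {U : Finset V → ℝ} (hU : LocCov k U)
    (h1 : ∀ v, U {v} = 1) {T : Finset V} {v : V} (hT : (insert v T).card ≤ k)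
    {R : Finset V} (hR : R ⊆ T) :
    0 ≤ U R ∧ 0 ≤ U R + 1 - U (insert v R) ∧ U R + 1 - U (insert v R) ≤ 1 ∧
      U R + 1 - U (insert v R) ≤ ∑ u ∈ T, (2 - U {u, v}) := by
  obtain ⟨w, hw, hw2⟩ := hU (insert v T) hT
  have hRA : R ⊆ insert v T := hR.trans (Finset.subset_insert _ _)
  have hvA : ({v} : Finset V) ⊆ insert v T := by simp
  have hvRA : insert v R ⊆ insert v T := Finset.insert_subset_insert _ hR
  set P := (insert v T).powerset with hP
  have eR : U R = ∑ B ∈ P, if (B ∩ R).Nonempty then w B else 0 := by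
    rw [hw2 R hRA, Finset.sum_filter]
  have ev : (1 : ℝ) = ∑ B ∈ P, if v ∈ B then w B else 0 := by
    rw [← h1 v, hw2 {v} hvA, Finset.sum_filter]
    apply Finset.sum_congr rfl
    intro B _
    congr 1
    by_cases hvB : v ∈ B
    · simp [hvB]
    · simp [hvB]
  have evR : U (insert v R) = ∑ B ∈ P, if (B ∩ insert v R).Nonempty then w B else 0 := by
    rw [hw2 (insert v R) hvRA, Finset.sum_filter]
  have ho : U R + 1 - U (insert v R) =
      ∑ B ∈ P, if v ∈ B ∧ (B ∩ R).Nonempty then w B else 0 := by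
    rw [eR, evR]
    nth_rewrite 1 [ev]
    rw [← Finset.sum_add_distrib, ← Finset.sum_sub_distrib]
    apply Finset.sum_congr rfl
    intro B _
    by_cases hvB : v ∈ B
    · have : (B ∩ insert v R).Nonempty := ⟨v, by simp [hvB]⟩
      simp only [hvB, this, if_true, true_and]
      ring
    · have : B ∩ insert v R = B ∩ R := by
        rw [Finset.inter_insert_of_notMem hvB]
      simp only [hvB, this, if_false, false_and]
      ring
  have hpair : ∀ u ∈ T, 2 - U {u, v} = ∑ B ∈ P, if v ∈ B ∧ u ∈ B then w B else 0 := by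
    intro u hu
    have huA : ({u} : Finset V) ⊆ insert v T := by
      simp [hu]
    have huvA : ({u, v} : Finset V) ⊆ insert v T := by
      intro x hx
      simp only [Finset.mem_insert, Finset.mem_singleton] at hx ⊢
      rcases hx with rfl | rfl
      · exact Or.inr hu
      · exact Or.inl rfl
    have eu : (1 : ℝ) = ∑ B ∈ P, if u ∈ B then w B else 0 := by
      rw [← h1 u, hw2 {u} huA, Finset.sum_filter]
      apply Finset.sum_congr rfl
      intro B _
      congr 1
      by_cases huB : u ∈ B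
      · simp [huB]
      · simp [huB]
    have euv : U {u, v} = ∑ B ∈ P, if (B ∩ {u, v}).Nonempty then w B else 0 := by
      rw [hw2 {u, v} huvA, Finset.sum_filter]
    have : (2 : ℝ) = 1 + 1 := by norm_num
    rw [this, euv]
    nth_rewrite 1 [eu]
    rw [ev, ← Finset.sum_add_distrib, ← Finset.sum_sub_distrib]
    apply Finset.sum_congr rfl
    intro B _
    by_cases hvB : v ∈ B <;> by_cases huB : u ∈ B
    · have : (B ∩ {u, v}).Nonempty := ⟨v, by simp [hvB]⟩
      simp only [hvB, huB, this, if_true, true_and]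
      ring
    · have : (B ∩ {u, v}).Nonempty := ⟨v, by simp [hvB]⟩
      simp only [hvB, huB, this, if_true, if_false, and_false]
      ring
    · have : (B ∩ {u, v}).Nonempty := ⟨u, by simp [huB]⟩
      simp only [hvB, huB, this, if_true, if_false, false_and]
      ring
    · have : ¬ (B ∩ {u, v}).Nonempty := by
        rintro ⟨x, hx⟩
        simp only [Finset.mem_inter, Finset.mem_insert, Finset.mem_singleton] at hx
        obtain ⟨hx1, rfl | rfl⟩ := hx
        · exact huB hx1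
        · exact hvB hx1
      simp only [hvB, huB, this, if_false, false_and]
      ring
  refine ⟨?_, ?_, ?_, ?_⟩
  · rw [eR]
    apply Finset.sum_nonneg
    intro B _
    split_ifs
    · exact hw B
    · exact le_rfl
  · rw [ho]
    apply Finset.sum_nonneg
    intro B _
    split_ifs
    · exact hw B
    · exact le_rfl
  · rw [ho]
    refine le_trans ?_ ev.ge
    apply Finset.sum_le_sum
    intro B _
    by_cases hvB : v ∈ B
    · simp only [hvB, true_and, if_true]
      split_ifs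
      · exact le_rfl
      · exact hw B
    · simp [hvB]
  · rw [ho, Finset.sum_congr rfl hpair, Finset.sum_comm]
    apply Finset.sum_le_sum
    intro B _
    have hnn : ∀ u ∈ T, 0 ≤ (if v ∈ B ∧ u ∈ B then w B else 0) := by
      intro u _
      split_ifs
      · exact hw B
      · exact le_rfl
    split_ifs with hc
    · obtain ⟨hvB, u, hu⟩ := hc
      rw [Finset.mem_inter] at hu
      refine le_trans ?_ (Finset.single_le_sum hnn (hR hu.2))
      simp [hvB, hu.1]
    · exact Finset.sum_nonneg hnn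

/-- A point `v` far from `T` is almost independent of `T`. For `R ⊆ T` put
`o = U R + 1 - U (insert v R)`. By `LocCov` (used for `insert v T`) `0 ≤ o ≤ 1` and
`o ≤ ∑ u ∈ R, (2 - U {u, v})`, because `o` is the sum of `w B` over the `B` with `v ∈ B` and
`B ∩ R` nonempty, and `2 - U {u, v}` is the sum of `w B` over the `B` that contain `u` and `v`
(recall `U {u} = U {v} = 1`). Now
`law μ U (insert v T) = ∑ R ⊆ T, (-1)^|R| (exp (-μ U R) - exp (-μ U (insert v R)))` and
`exp (-μ U (insert v R)) = exp (-μ U R) * exp (-μ) * exp (μ o)`, so the difference in question is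
`- ∑ R ⊆ T, (-1)^|R| exp (-μ U R) exp (-μ) (exp (μ o) - 1)`. Finally `0 ≤ U R`, so
`exp (-μ U R) ≤ 1`, and by convexity `exp (μ o) - 1 ≤ o (exp μ - 1)`, with
`exp (-μ) (exp μ - 1) = 1 - exp (-μ)`. -/
theorem C4_far {k : ℕ} {U : Finset V → ℝ} (hU : LocCov k U)
    (h1 : ∀ v, U {v} = 1) {μ : ℝ} (hμ : 0 ≤ μ) {T : Finset V} {v : V} (hv : v ∉ T)
    (hT : T.card + 1 ≤ k) :
    |law μ U (insert v T) - (1 - Real.exp (-μ)) * law μ U T| ≤
      2 ^ T.card * (1 - Real.exp (-μ)) * ∑ u ∈ T, (2 - U {u, v}) := by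
  have hT' : (insert v T).card ≤ k := by rwa [Finset.card_insert_of_notMem hv]
  have hE0 : 0 < Real.exp (-μ) := Real.exp_pos _
  have hE1 : Real.exp (-μ) ≤ 1 := by rw [Real.exp_le_one_iff]; linarith
  have hEE : Real.exp (-μ) * Real.exp μ = 1 := by rw [← Real.exp_add]; simp
  have hdiff : law μ U (insert v T) - (1 - Real.exp (-μ)) * law μ U T =
      ∑ R ∈ T.powerset, (-1) ^ R.card * (Real.exp (-μ * U R) * Real.exp (-μ) *
        (1 - Real.exp (μ * (U R + 1 - U (insert v R))))) := by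
    unfold law
    rw [Finset.sum_powerset_insert hv, Finset.mul_sum, ← Finset.sum_add_distrib,
      ← Finset.sum_sub_distrib]
    apply Finset.sum_congr rfl
    intro R hR
    rw [Finset.mem_powerset] at hR
    have hvR : v ∉ R := fun hh => hv (hR hh)
    have hexp : Real.exp (-μ * U (insert v R)) = Real.exp (-μ * U R) * Real.exp (-μ) *
        Real.exp (μ * (U R + 1 - U (insert v R))) := by
      rw [← Real.exp_add, ← Real.exp_add]
      congr 1
      ring
    rw [Finset.card_insert_of_notMem hvR, pow_succ, hexp]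
    ring
  rw [hdiff]
  refine (Finset.abs_sum_le_sum_abs _ _).trans ?_
  have hterm : ∀ R ∈ T.powerset, |(-1 : ℝ) ^ R.card * (Real.exp (-μ * U R) * Real.exp (-μ) *
        (1 - Real.exp (μ * (U R + 1 - U (insert v R)))))| ≤
        (1 - Real.exp (-μ)) * ∑ u ∈ T, (2 - U {u, v}) := by
    intro R hR
    rw [Finset.mem_powerset] at hR
    obtain ⟨a1, a2, a3, a4⟩ := C4_over hU h1 hT' hR
    rw [abs_mul, abs_pow, abs_neg, abs_one, one_pow, one_mul, abs_mul,
      abs_of_nonneg (mul_nonneg (Real.exp_pos _).le hE0.le)]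
    have hge : 1 ≤ Real.exp (μ * (U R + 1 - U (insert v R))) :=
      Real.one_le_exp (mul_nonneg hμ a2)
    rw [abs_sub_comm, abs_of_nonneg (by linarith)]
    have hc := C4_convex (μ := μ) a2 a3
    have hR1 : Real.exp (-μ * U R) ≤ 1 := by
      rw [Real.exp_le_one_iff]
      nlinarith [mul_nonneg hμ a1]
    calc Real.exp (-μ * U R) * Real.exp (-μ) *
          (Real.exp (μ * (U R + 1 - U (insert v R))) - 1)
        ≤ 1 * Real.exp (-μ) * ((U R + 1 - U (insert v R)) * (Real.exp μ - 1)) := by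
          apply mul_le_mul _ hc (by linarith) (by positivity)
          exact mul_le_mul_of_nonneg_right hR1 hE0.le
      _ = (U R + 1 - U (insert v R)) * (Real.exp (-μ) * Real.exp μ - Real.exp (-μ)) := by ring
      _ = (U R + 1 - U (insert v R)) * (1 - Real.exp (-μ)) := by rw [hEE]
      _ ≤ (∑ u ∈ T, (2 - U {u, v})) * (1 - Real.exp (-μ)) :=
          mul_le_mul_of_nonneg_right a4 (by linarith)
      _ = (1 - Real.exp (-μ)) * ∑ u ∈ T, (2 - U {u, v}) := by ring
  refine (Finset.sum_le_sum hterm).trans ?_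
  rw [Finset.sum_const, Finset.card_powerset, nsmul_eq_mul]
  push_cast
  rw [mul_assoc]
-- END C4

-- BEGIN C5
/-- Two points that are often covered together. With `p = 2 - U {u, v} ∈ [0, 1]` and
`δ = 1 - exp (-μ)`, `C3_pair` gives `δ - law μ U {u, v} = exp (-μ) (1 - exp (-μ (1 - p)))
≤ exp (-μ) μ (1 - p) ≤ δ (1 - p)`, since `exp μ - 1 ≥ μ`. -/
theorem C5_close {k : ℕ} (hk : 2 ≤ k) {U : Finset V → ℝ} (hU : LocCov k U)
    (h1 : ∀ v, U {v} = 1) {μ : ℝ} (hμ : 0 ≤ μ) (u v : V) :
    (1 - Real.exp (-μ)) * (2 - U {u, v}) ≤ law μ U {u, v} := by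
  obtain ⟨-, -, hp, hb⟩ := C3_pair hk hU h1 μ
  rw [hp u v]
  obtain ⟨hb1, hb2⟩ := hb u v
  generalize U {u, v} = x at hb1 hb2 ⊢
  have hE0 : 0 < Real.exp (-μ) := Real.exp_pos _
  have hE1 : Real.exp (-μ) * (1 + μ) ≤ 1 := by
    have h2 : 1 + μ ≤ Real.exp μ := by linarith [Real.add_one_le_exp μ]
    calc Real.exp (-μ) * (1 + μ) ≤ Real.exp (-μ) * Real.exp μ :=
          mul_le_mul_of_nonneg_left h2 hE0.le
      _ = 1 := by rw [← Real.exp_add]; simp
  have hsplit : Real.exp (-μ * x) = Real.exp (-μ) * Real.exp (-(μ * (x - 1))) := by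
    rw [← Real.exp_add]; congr 1; ring
  have h3 : 1 - μ * (x - 1) ≤ Real.exp (-(μ * (x - 1))) := by
    linarith [Real.add_one_le_exp (-(μ * (x - 1)))]
  rw [hsplit]
  have h4 : Real.exp (-μ) * (1 - μ * (x - 1)) ≤ Real.exp (-μ) * Real.exp (-(μ * (x - 1))) :=
    mul_le_mul_of_nonneg_left h3 hE0.le
  have h5 : 0 ≤ (x - 1) * (1 - Real.exp (-μ) * (1 + μ)) :=
    mul_nonneg (by linarith) (by linarith)
  nlinarith [h4, h5]
-- END C5

-- BEGIN C6
/-- The law is a probability: `0 ≤ law μ U T ≤ 1` for `|T| ≤ k`. The lower bound is `C2_nonneg` with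
`T := ∅`. For the upper bound use `C2_nonneg` for all ways to split `T`: the sum over `S ⊆ T` of
`∑ R ⊆ S, (-1)^|R| exp (-μ U ((T \ S) ∪ R))` is `exp (-μ U ∅) = 1` (each term is nonnegative, and
the term with `S = T` is `law μ U T`). Alternatively prove by the expansion of `C2`. -/
theorem C6_bounds {k : ℕ} {U : Finset V → ℝ} (hU : LocCov k U) {μ : ℝ} (hμ : 0 ≤ μ)
    {T : Finset V} (h : T.card ≤ k) : 0 ≤ law μ U T ∧ law μ U T ≤ 1 := by
  constructor
  · have := C2_nonneg hU hμ (S := T) (T := ∅) (by simpa using h)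
    simpa [law] using this
  · induction T using Finset.induction_on with
    | empty =>
      obtain ⟨w, _, hw2⟩ := hU ∅ (by simp)
      have h0 := hw2 ∅ (Finset.Subset.refl _)
      simp at h0
      simp [law, h0]
    | insert v T hv ih =>
      have hc : T.card + 1 ≤ k := by rwa [Finset.card_insert_of_notMem hv] at h
      refine le_trans ?_ (ih (by omega))
      have h2 := C2_nonneg hU hμ (S := T) (T := {v}) (by
        refine (Finset.card_union_le _ _).trans ?_
        simpa using hc)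
      have h3 : law μ U (insert v T) = law μ U T -
          ∑ R ∈ T.powerset, (-1) ^ R.card * Real.exp (-μ * U ({v} ∪ R)) := by
        unfold law
        rw [Finset.sum_powerset_insert hv, sub_eq_add_neg, ← Finset.sum_neg_distrib]
        congr 1
        apply Finset.sum_congr rfl
        intro R hR
        rw [Finset.mem_powerset] at hR
        have hvR : v ∉ R := fun hh => hv (hR hh)
        rw [Finset.card_insert_of_notMem hvR, pow_succ, ← Finset.insert_eq]
        ring
      rw [h3]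
      linarith
-- END C6

end

end Pool.Agent.Lib.MP_8d8c46_lc.SDP
end

section

set_option autoImplicit false

open Finset
open scoped Classical

namespace Pool.Agent.Lib.MP_8d8c46_lc.SDP

-- BEGIN E1
theorem E1_sg (t : ZMod 2) : sg t = 1 - 2 * (if t ≠ 0 then (1 : ℝ) else 0) := by
  rcases zmod2_cases t with rfl | rfl
  · simp [sg_zero]
  · rw [sg_one]; norm_num

/-- Correlation and weight. `sg (x i + y i)` is `1` if `x i = y i` and `-1` otherwise. So
`cor x y = 1 - 2 wt (x + y) / D`, `cor x x = 1`, `|cor x y| ≤ 1`, `cor x y = cor 0 (x + y)`, and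
`cor` is symmetric. -/
theorem E1_cor {D : ℕ} (hD : 1 ≤ D) (x y : Cube D) :
    cor x y = 1 - 2 * (wt (x + y) : ℝ) / D ∧ cor x x = 1 ∧ |cor x y| ≤ 1 ∧
      cor x y = cor 0 (x + y) ∧ cor x y = cor y x := by
  have hD0 : (0 : ℝ) < D := by exact_mod_cast hD
  have hs : ∀ i : Fin D, x i + x i = 0 := fun i => CharTwo.add_self_eq_zero (x i)
  refine ⟨?_, ?_, ?_, ?_, ?_⟩
  · unfold cor wt
    have h1 : ∑ i, sg (x i + y i) =
        D - 2 * ((univ.filter (fun i => (x + y) i ≠ 0)).card : ℝ) := by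
      rw [Finset.card_filter]
      push_cast
      rw [Finset.mul_sum]
      have h2 : (D : ℝ) = ∑ _i : Fin D, (1 : ℝ) := by simp
      rw [h2, ← Finset.sum_sub_distrib]
      exact sum_congr rfl fun i _ => E1_sg _
    rw [h1]
    field_simp
  · unfold cor
    simp only [hs, sg_zero, sum_const, card_univ, Fintype.card_fin, nsmul_eq_mul, mul_one]
    exact div_self hD0.ne'
  · unfold cor
    rw [abs_div, abs_of_pos hD0, div_le_one hD0]
    calc |∑ i, sg (x i + y i)| ≤ ∑ i, |sg (x i + y i)| := abs_sum_le_sum_abs _ _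
      _ = D := by simp [abs_sg]
  · unfold cor
    simp
  · unfold cor
    congr 1
    exact sum_congr rfl fun i _ => by rw [add_comm]
-- END E1

-- BEGIN E2
/-- The kernel `cor^2` is positive semidefinite:
`cor x y = (∑ i, sg (x i) * sg (y i)) / D`, so `∑∑ c u c v cor^2 =
D⁻² ∑ i, ∑ j, (∑ u, c u sg (u i) sg (u j))^2`. -/
theorem E2_psd (D q : ℕ) : PSDk (fun u v : Cube D × Fin q => cor u.1 v.1 ^ 2) := by
  have hsq : ∀ x y : Cube D, cor x y ^ 2
      = ∑ i, ∑ j, (sg (x i) * sg (x j)) * (sg (y i) * sg (y j)) / (D : ℝ) ^ 2 := by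
    intro x y
    unfold cor
    rw [div_pow, pow_two (∑ i, sg (x i + y i)), sum_mul_sum, sum_div]
    refine sum_congr rfl fun i _ => ?_
    rw [sum_div]
    refine sum_congr rfl fun j _ => ?_
    rw [sg_add, sg_add]
    ring
  refine ⟨fun u v => ?_, fun c => ?_⟩
  · show cor u.1 v.1 ^ 2 = cor v.1 u.1 ^ 2
    unfold cor
    simp_rw [add_comm (u.1 _) (v.1 _)]
  · have h1 : ∀ u v : Cube D × Fin q, c u * c v * cor u.1 v.1 ^ 2
        = ∑ i, ∑ j, (c u * (sg (u.1 i) * sg (u.1 j))) * (c v * (sg (v.1 i) * sg (v.1 j)))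
          / (D : ℝ) ^ 2 := by
      intro u v
      rw [hsq, mul_sum]
      refine sum_congr rfl fun i _ => ?_
      rw [mul_sum]
      refine sum_congr rfl fun j _ => ?_
      ring
    have h2 : ∑ u : Cube D × Fin q, ∑ v : Cube D × Fin q, c u * c v * cor u.1 v.1 ^ 2
        = ∑ i, ∑ j, (∑ u : Cube D × Fin q, c u * (sg (u.1 i) * sg (u.1 j))) ^ 2
          / (D : ℝ) ^ 2 := by
      simp_rw [h1]
      calc ∑ u : Cube D × Fin q, ∑ v : Cube D × Fin q, ∑ i, ∑ j,
            (c u * (sg (u.1 i) * sg (u.1 j))) * (c v * (sg (v.1 i) * sg (v.1 j))) / (D : ℝ) ^ 2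
          = ∑ u : Cube D × Fin q, ∑ i, ∑ v : Cube D × Fin q, ∑ j,
            (c u * (sg (u.1 i) * sg (u.1 j))) * (c v * (sg (v.1 i) * sg (v.1 j))) / (D : ℝ) ^ 2 :=
            sum_congr rfl fun u _ => sum_comm
        _ = ∑ i, ∑ u : Cube D × Fin q, ∑ v : Cube D × Fin q, ∑ j,
            (c u * (sg (u.1 i) * sg (u.1 j))) * (c v * (sg (v.1 i) * sg (v.1 j))) / (D : ℝ) ^ 2 :=
            sum_comm
        _ = ∑ i, ∑ u : Cube D × Fin q, ∑ j, ∑ v : Cube D × Fin q,
            (c u * (sg (u.1 i) * sg (u.1 j))) * (c v * (sg (v.1 i) * sg (v.1 j))) / (D : ℝ) ^ 2 :=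
            sum_congr rfl fun i _ => sum_congr rfl fun u _ => sum_comm
        _ = ∑ i, ∑ j, ∑ u : Cube D × Fin q, ∑ v : Cube D × Fin q,
            (c u * (sg (u.1 i) * sg (u.1 j))) * (c v * (sg (v.1 i) * sg (v.1 j))) / (D : ℝ) ^ 2 :=
            sum_congr rfl fun i _ => sum_comm
        _ = _ := by
            refine sum_congr rfl fun i _ => sum_congr rfl fun j _ => ?_
            rw [pow_two (∑ u : Cube D × Fin q, c u * (sg (u.1 i) * sg (u.1 j))), sum_mul_sum,
              sum_div]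
            exact sum_congr rfl fun u _ => by rw [sum_div]
    show 0 ≤ ∑ u : Cube D × Fin q, ∑ v : Cube D × Fin q, c u * c v * cor u.1 v.1 ^ 2
    rw [h2]
    exact sum_nonneg fun i _ => sum_nonneg fun j _ => by positivity
-- END E2

-- BEGIN E3
theorem E3_inner {D : ℕ} (x : Cube D) (i j : Fin D) :
    ∑ y : Cube D, sg (x i + y i) * sg (x j + y j) = if i = j then 2 ^ D else 0 := by
  by_cases hij : i = j
  · subst hij
    rw [if_pos rfl]
    simp only [sg_mul_self, sum_const, card_univ, nsmul_eq_mul, mul_one]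
    rw [Fintype.card_pi]
    simp
  · rw [if_neg hij]
    have h1 : ∀ y : Cube D, sg (x i + y i) * sg (x j + y j) =
        sg (x i + x j) * sg (y i + y j) := by
      intro y
      rw [← sg_add, ← sg_add]
      congr 1
      ring
    simp only [h1]
    rw [← mul_sum]
    let φ : Cube D →+ ZMod 2 :=
      { toFun := fun y => y i + y j
        map_zero' := by simp
        map_add' := by intro a b; simp only [Pi.add_apply]; ring }
    have h2 : ∑ y : Cube D, sg (φ y) = 0 := by
      apply sum_sg_hom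
      refine ⟨Pi.single i 1, ?_⟩
      show (Pi.single i 1 : Cube D) i + (Pi.single i 1 : Cube D) j ≠ 0
      rw [Pi.single_eq_same, Pi.single_eq_of_ne (Ne.symm hij)]
      decide
    have h3 : ∑ y : Cube D, sg (y i + y j) = 0 := h2
    rw [h3, mul_zero]

/-- The mean of `cor^2`: `∑ y, cor x y^2 = D⁻² ∑ i, ∑ j, ∑ y, sg (x i + y i) sg (x j + y j)`, and the
inner sum is `2^D` if `i = j` and `0` otherwise. -/
theorem E3_mean {D : ℕ} (hD : 1 ≤ D) (x : Cube D) : ∑ y, cor x y ^ 2 = 2 ^ D / (D : ℝ) := by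
  have hD0 : (D : ℝ) ≠ 0 := by
    have : (1 : ℝ) ≤ D := by exact_mod_cast hD
    linarith
  have h1 : ∀ y : Cube D, cor x y ^ 2 =
      (∑ i, ∑ j, sg (x i + y i) * sg (x j + y j)) / (D : ℝ) ^ 2 := by
    intro y
    unfold cor
    rw [div_pow, sq (∑ i, sg (x i + y i)), sum_mul_sum]
  simp only [h1]
  rw [← sum_div, sum_comm]
  have h2 : ∀ i : Fin D, ∑ y : Cube D, ∑ j, sg (x i + y i) * sg (x j + y j) = 2 ^ D := by
    intro i
    rw [sum_comm]
    simp only [E3_inner]
    simp
  simp only [h2, sum_const, card_univ, Fintype.card_fin, nsmul_eq_mul]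
  field_simp
-- END E3

-- BEGIN E4
theorem E4_row {D : ℕ} (hD : 1 ≤ D) (q : ℕ) (F : ℝ → ℝ) (u : Cube D × Fin q) :
    ∑ v : Cube D × Fin q, F (cor u.1 v.1) = q * ∑ z : Cube D, F (cor 0 z) := by
  rw [Fintype.sum_prod_type]
  simp only [Finset.sum_const, Finset.card_univ, Fintype.card_fin, nsmul_eq_mul]
  rw [← Finset.mul_sum]
  congr 1
  refine Fintype.sum_equiv (Equiv.addLeft u.1) _ _ (fun v => ?_)
  rw [(E1_cor hD u.1 v).2.2.2.1]
  rfl
-- END E4

end Pool.Agent.Lib.MP_8d8c46_lc.SDP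
end

section

set_option autoImplicit false

open Finset
open scoped Classical

namespace Pool.Agent.Lib.MP_8d8c46_lc.SDP

-- BEGIN F1
theorem F1_addr {D : ℕ} (a x y : Cube D) : ch a (x + y) = ch a x * ch a y := by
  unfold ch
  rw [← sg_add, ← sum_add_distrib]
  congr 1
  exact sum_congr rfl fun i _ => by rw [Pi.add_apply, mul_add]

theorem F1_comm {D : ℕ} (a x : Cube D) : ch a x = ch x a := by
  unfold ch
  congr 1
  exact sum_congr rfl fun i _ => mul_comm _ _

/-- Characters: multiplicativity, symmetry, values `±1`, orthogonality, product formula. -/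
theorem F1_ch {D : ℕ} (a b x y : Cube D) :
    ch a (x + y) = ch a x * ch a y ∧ ch (a + b) x = ch a x * ch b x ∧ ch a x = ch x a ∧
      ch a x * ch a x = 1 ∧ ch a 0 = 1 ∧
      (∑ z, ch a z = if a = 0 then (2 : ℝ) ^ D else 0) ∧
      ch a x = ∏ i, sg (a i * x i) := by
  refine ⟨F1_addr a x y, ?_, F1_comm a x, sg_mul_self _, ?_, ?_, ?_⟩
  · rw [F1_comm (a + b), F1_addr, F1_comm x a, F1_comm x b]
  · unfold ch
    simp [sg_zero]
  · by_cases ha : a = 0
    · rw [if_pos ha, ha]
      unfold ch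
      simp only [Pi.zero_apply, zero_mul, sum_const_zero, sg_zero, sum_const, card_univ,
        nsmul_eq_mul, mul_one]
      rw [Fintype.card_fun, ZMod.card, Fintype.card_fin]
      push_cast
      rfl
    · rw [if_neg ha]
      let φ : Cube D →+ ZMod 2 :=
        { toFun := fun z => ∑ i, a i * z i
          map_zero' := by simp
          map_add' := fun z w => by
            rw [← sum_add_distrib]
            exact sum_congr rfl fun i _ => by rw [Pi.add_apply, mul_add] }
      have h1 : ∃ l, a l ≠ 0 := by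
        by_contra hcon
        push Not at hcon
        exact ha (funext hcon)
      obtain ⟨l, hl⟩ := h1
      have h2 : ∃ z, φ z ≠ 0 := by
        refine ⟨Pi.single l 1, ?_⟩
        change ∑ i, a i * (Pi.single l 1 : Cube D) i ≠ 0
        rw [Finset.sum_eq_single l]
        · simpa using hl
        · intro i _ hne
          simp [hne]
        · simp
      exact sum_sg_hom φ h2
  · unfold ch
    rw [sg_sum]
-- END F1

-- BEGIN F2
theorem F2_card (D : ℕ) : (Fintype.card (Cube D) : ℝ) = 2 ^ D := by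
  rw [Fintype.card_fun, ZMod.card, Fintype.card_fin]
  push_cast
  rfl

theorem F2_inv {D : ℕ} (h : Cube D → ℝ) (x : Cube D) : h x = ∑ a, fc h a * ch a x := by
  have hN : (0 : ℝ) < Fintype.card (Cube D) := by rw [F2_card]; positivity
  have h1 : ∀ a, fc h a * ch a x = (∑ y, h y * ch (x + y) a) / Fintype.card (Cube D) := by
    intro a
    unfold fc avg
    rw [div_mul_eq_mul_div, Finset.sum_mul]
    congr 1
    refine sum_congr rfl fun y _ => ?_
    rw [(F1_ch (x + y) 0 a 0).2.2.1, (F1_ch a 0 x y).1]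
    ring
  rw [sum_congr rfl fun a _ => h1 a, ← Finset.sum_div, Finset.sum_comm]
  have h2 : ∀ y, ∑ a, h y * ch (x + y) a = if y = x then h x * 2 ^ D else 0 := by
    intro y
    rw [← Finset.mul_sum, (F1_ch (x + y) 0 0 0).2.2.2.2.2.1]
    have h3 : x + y = 0 ↔ y = x := by
      have hs : ∀ z : Cube D, z + z = 0 := fun z => by
        funext i; exact CharTwo.add_self_eq_zero (z i)
      constructor
      · intro h4
        calc y = (x + x) + y := by rw [hs, zero_add]
          _ = x + (x + y) := by rw [add_assoc]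
          _ = x := by rw [h4, add_zero]
      · rintro rfl
        exact hs y
    by_cases h4 : y = x
    · rw [if_pos (h3.2 h4), if_pos h4, h4]
    · rw [if_neg (fun h5 => h4 (h3.1 h5)), if_neg h4, mul_zero]
  rw [sum_congr rfl fun y _ => h2 y, Finset.sum_ite_eq' univ x, if_pos (mem_univ x), F2_card]
  rw [mul_div_assoc, div_self (by positivity), mul_one]

theorem F2_conv {D : ℕ} (h : Cube D → ℝ) (z : Cube D) :
    avg (fun x => h x * h (x + z)) = ∑ a, fc h a ^ 2 * ch a z := by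
  have h1 : ∀ x, h x * h (x + z) = ∑ a, fc h a * ch a z * (h x * ch a x) := by
    intro x
    rw [F2_inv h (x + z), Finset.mul_sum]
    refine sum_congr rfl fun a _ => ?_
    rw [(F1_ch a 0 x z).1]
    ring
  unfold avg
  rw [sum_congr rfl fun x _ => h1 x, Finset.sum_comm, Finset.sum_div]
  refine sum_congr rfl fun a _ => ?_
  rw [← Finset.mul_sum, mul_div_assoc]
  have h2 : (∑ x, h x * ch a x) / (Fintype.card (Cube D) : ℝ) = fc h a := rfl
  rw [h2]
  ring

/-- Fourier inversion, Parseval and convolution. -/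
theorem F2_parseval {D : ℕ} (h : Cube D → ℝ) :
    (∀ x, h x = ∑ a, fc h a * ch a x) ∧ (∑ a, fc h a ^ 2 = avg (fun x => h x ^ 2)) ∧
      ∀ z, avg (fun x => h x * h (x + z)) = ∑ a, fc h a ^ 2 * ch a z := by
  refine ⟨F2_inv h, ?_, F2_conv h⟩
  have h1 := F2_conv h 0
  have h2 : (fun x => h x * h (x + 0)) = fun x => h x ^ 2 := by
    funext x
    rw [add_zero, sq]
  rw [h2] at h1
  rw [h1]
  refine sum_congr rfl fun a _ => ?_
  rw [(F1_ch a 0 0 0).2.2.2.2.1, mul_one]
-- END F2

-- BEGIN F3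
theorem F3_sum_cons {D : ℕ} (f : Cube (D + 1) → ℝ) :
    ∑ x, f x = ∑ y : Cube D, (f (Fin.cons 0 y) + f (Fin.cons 1 y)) := by
  have e := Equiv.sum_comp (Fin.consEquiv (fun _ : Fin (D + 1) => ZMod 2)) f
  rw [← e, Fintype.sum_prod_type]
  have h2 : ∀ g : ZMod 2 → ℝ, ∑ s, g s = g 0 + g 1 := fun g => Fin.sum_univ_two g
  rw [h2, ← sum_add_distrib]
  rfl

theorem F3_wt_cons {D : ℕ} (s : ZMod 2) (y : Cube D) :
    wt (Fin.cons s y : Cube (D + 1)) = (if s ≠ 0 then 1 else 0) + wt y := by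
  unfold wt
  rw [Finset.card_filter, Finset.card_filter, Fin.sum_univ_succ]
  simp

theorem F3_ch_cons {D : ℕ} (s t : ZMod 2) (a x : Cube D) :
    ch (Fin.cons s a : Cube (D + 1)) (Fin.cons t x) = sg (s * t) * ch a x := by
  unfold ch
  rw [Fin.sum_univ_succ, sg_add]
  simp

theorem F3_card (D : ℕ) : (Fintype.card (Cube D) : ℝ) = 2 ^ D := by
  simp [Cube, ZMod.card]

/-- The Bonami inequality: `‖T f‖_4 ≤ ‖f‖_2` for the noise operator with parameter `1/√3`, i.e. for
`g x = ∑ a, (1/√3)^(wt a) c a ch a x` one has `avg g^4 ≤ (∑ c a^2)^2`. Induction on `D`: split off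
one coordinate, `g = g₀ + (1/√3) s g₁` with `s = ±1` that coordinate, so that
`avg g^4 = avg g₀^4 + 6 (1/3) avg (g₀² g₁²) + (1/9) avg g₁^4 ≤ (A + B)^2` with
`A = ∑ c a^2` over `a` with zero first coordinate, `B` the rest (Cauchy-Schwarz and the induction
hypothesis). -/
theorem F3_bonami : ∀ (D : ℕ) (c : Cube D → ℝ),
    avg (fun x => (∑ a, (1 / Real.sqrt 3) ^ wt a * c a * ch a x) ^ 4) ≤ (∑ a, c a ^ 2) ^ 2 := by
  intro D
  induction D with
  | zero =>
    intro c
    unfold avg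
    have hu : ∀ f : Cube 0 → ℝ, ∑ x, f x = f default := fun f => by
      rw [Fintype.sum_unique f]
      exact congrArg f (Subsingleton.elim _ _)
    rw [hu, hu, hu]
    have h1 : wt (default : Cube 0) = 0 := by unfold wt; simp
    have h2 : ch (default : Cube 0) default = 1 := by unfold ch; simp [sg_zero]
    rw [h1, h2]
    simp only [pow_zero, one_mul, mul_one, Fintype.card_unique, Nat.cast_one, div_one]
    apply le_of_eq
    ring
  | succ D ih =>
    intro c
    set r : ℝ := 1 / Real.sqrt 3 with hr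
    have hr2 : r ^ 2 = 1 / 3 := by
      rw [hr, div_pow, Real.sq_sqrt (by norm_num)]; norm_num
    set c0 : Cube D → ℝ := fun a => c (Fin.cons 0 a) with hc0
    set c1 : Cube D → ℝ := fun a => c (Fin.cons 1 a) with hc1
    set g0 : Cube D → ℝ := fun x => ∑ a, r ^ wt a * c0 a * ch a x with hg0
    set g1 : Cube D → ℝ := fun x => ∑ a, r ^ wt a * c1 a * ch a x with hg1
    have hA : ∑ a, c a ^ 2 = ∑ a, c0 a ^ 2 + ∑ a, c1 a ^ 2 := by
      rw [F3_sum_cons, sum_add_distrib]
    have hG : ∀ (t : ZMod 2) (x : Cube D),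
        ∑ a, r ^ wt a * c a * ch a (Fin.cons t x : Cube (D + 1)) = g0 x + r * sg t * g1 x := by
      intro t x
      rw [F3_sum_cons]
      simp only [F3_wt_cons, F3_ch_cons]
      rw [sum_add_distrib, hg0, hg1]
      simp only [ne_eq, not_true_eq_false, if_false, zero_add, zero_mul, sg_zero, one_mul,
        one_ne_zero, not_false_eq_true, if_true, pow_add, pow_one]
      rw [Finset.mul_sum]
      congr 1
      refine sum_congr rfl fun a _ => ?_
      rw [hc1]
      ring
    have i0 := ih c0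
    have i1 := ih c1
    unfold avg at i0 i1 ⊢
    have hN : (0 : ℝ) < Fintype.card (Cube D) := by rw [F3_card]; positivity
    have hN2 : (Fintype.card (Cube (D + 1)) : ℝ) = 2 * Fintype.card (Cube D) := by
      rw [F3_card, F3_card]; ring
    rw [div_le_iff₀ hN] at i0 i1
    rw [hN2, div_le_iff₀ (by positivity), F3_sum_cons, hA]
    simp only [hG, sg_zero, sg_one]
    set N : ℝ := (Fintype.card (Cube D) : ℝ) with hNdef
    set A : ℝ := ∑ a, c0 a ^ 2 with hAdef
    set B : ℝ := ∑ a, c1 a ^ 2 with hBdef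
    have hA0 : 0 ≤ A := Finset.sum_nonneg fun _ _ => sq_nonneg _
    have hB0 : 0 ≤ B := Finset.sum_nonneg fun _ _ => sq_nonneg _
    have hexp : ∀ x, (g0 x + r * 1 * g1 x) ^ 4 + (g0 x + r * (-1) * g1 x) ^ 4 =
        2 * g0 x ^ 4 + 4 * (g0 x ^ 2 * g1 x ^ 2) + 2 / 9 * g1 x ^ 4 := by
      intro x
      have hr4 : r ^ 4 = 1 / 9 := by
        have : r ^ 4 = (r ^ 2) ^ 2 := by ring
        rw [this, hr2]; norm_num
      have : (g0 x + r * 1 * g1 x) ^ 4 + (g0 x + r * (-1) * g1 x) ^ 4 =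
        2 * g0 x ^ 4 + 12 * r ^ 2 * (g0 x ^ 2 * g1 x ^ 2) + 2 * r ^ 4 * g1 x ^ 4 := by ring
      rw [this, hr2, hr4]; ring
    simp only [hexp, sum_add_distrib, ← Finset.mul_sum]
    set S0 : ℝ := ∑ x, g0 x ^ 4 with hS0
    set S1 : ℝ := ∑ x, g1 x ^ 4 with hS1
    set S : ℝ := ∑ x, g0 x ^ 2 * g1 x ^ 2 with hS
    have hCS : S ^ 2 ≤ S0 * S1 := by
      have h := Finset.sum_mul_sq_le_sq_mul_sq (univ : Finset (Cube D)) (fun x => g0 x ^ 2)
        (fun x => g1 x ^ 2)
      have e0 : ∑ x : Cube D, (g0 x ^ 2) ^ 2 = S0 := by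
        rw [hS0]; exact sum_congr rfl fun x _ => by ring
      have e1 : ∑ x : Cube D, (g1 x ^ 2) ^ 2 = S1 := by
        rw [hS1]; exact sum_congr rfl fun x _ => by ring
      rw [e0, e1] at h
      exact h
    have hS0' : 0 ≤ S0 := Finset.sum_nonneg fun _ _ => by positivity
    have hS1' : 0 ≤ S1 := Finset.sum_nonneg fun _ _ => by positivity
    have hSle : S ≤ N * (A * B) := by
      refine (abs_le_of_sq_le_sq' ?_ (by positivity)).2
      calc S ^ 2 ≤ S0 * S1 := hCS
        _ ≤ (A ^ 2 * N) * (B ^ 2 * N) := mul_le_mul i0 i1 hS1' (by positivity)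
        _ = (N * (A * B)) ^ 2 := by ring
    nlinarith [mul_nonneg hN.le (mul_nonneg hA0 hB0), mul_nonneg hN.le (sq_nonneg B)]
-- END F3

-- BEGIN F4
theorem F4_holder {ι : Type*} [Fintype ι] (h g : ι → ℝ) (h0 : ∀ x, 0 ≤ h x)
    (h1 : ∀ x, h x ≤ 1) : avg (fun x => h x * g x) ^ 4 ≤ avg h ^ 3 * avg (fun x => g x ^ 4) := by
  rcases isEmpty_or_nonempty ι with hι | hι
  · unfold avg
    simp
  have hN : (0 : ℝ) < Fintype.card ι := by exact_mod_cast Fintype.card_pos
  have c1 : (∑ x, h x * g x) ^ 2 ≤ (∑ x, h x) * ∑ x, h x * g x ^ 2 := by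
    have h2 := Finset.sum_mul_sq_le_sq_mul_sq (univ : Finset ι) (fun x => Real.sqrt (h x))
      (fun x => Real.sqrt (h x) * g x)
    have e1 : ∑ x, Real.sqrt (h x) * (Real.sqrt (h x) * g x) = ∑ x, h x * g x :=
      sum_congr rfl fun x _ => by rw [← mul_assoc, Real.mul_self_sqrt (h0 x)]
    have e2 : ∑ x, Real.sqrt (h x) ^ 2 = ∑ x, h x :=
      sum_congr rfl fun x _ => Real.sq_sqrt (h0 x)
    have e3 : ∑ x, (Real.sqrt (h x) * g x) ^ 2 = ∑ x, h x * g x ^ 2 :=
      sum_congr rfl fun x _ => by rw [mul_pow, Real.sq_sqrt (h0 x)]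
    rw [e1, e2, e3] at h2
    exact h2
  have c2 : (∑ x, h x * g x ^ 2) ^ 2 ≤ (∑ x, h x) * ∑ x, g x ^ 4 := by
    have h2 := Finset.sum_mul_sq_le_sq_mul_sq (univ : Finset ι) (fun x => Real.sqrt (h x))
      (fun x => Real.sqrt (h x) * g x ^ 2)
    have e1 : ∑ x, Real.sqrt (h x) * (Real.sqrt (h x) * g x ^ 2) = ∑ x, h x * g x ^ 2 :=
      sum_congr rfl fun x _ => by rw [← mul_assoc, Real.mul_self_sqrt (h0 x)]
    have e2 : ∑ x, Real.sqrt (h x) ^ 2 = ∑ x, h x :=
      sum_congr rfl fun x _ => Real.sq_sqrt (h0 x)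
    have e3 : ∑ x, (Real.sqrt (h x) * g x ^ 2) ^ 2 ≤ ∑ x, g x ^ 4 := by
      refine sum_le_sum fun x _ => ?_
      rw [mul_pow, Real.sq_sqrt (h0 x)]
      have : (g x ^ 2) ^ 2 = g x ^ 4 := by ring
      rw [this]
      have hg : 0 ≤ g x ^ 4 := by positivity
      nlinarith [h1 x]
    rw [e1, e2] at h2
    exact h2.trans (mul_le_mul_of_nonneg_left e3 (Finset.sum_nonneg fun x _ => h0 x))
  have hH : 0 ≤ ∑ x, h x := Finset.sum_nonneg fun x _ => h0 x
  have c3 : (∑ x, h x * g x) ^ 4 ≤ (∑ x, h x) ^ 3 * ∑ x, g x ^ 4 := by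
    have hS : 0 ≤ ∑ x, h x * g x ^ 2 :=
      Finset.sum_nonneg fun x _ => mul_nonneg (h0 x) (sq_nonneg _)
    calc (∑ x, h x * g x) ^ 4 = ((∑ x, h x * g x) ^ 2) ^ 2 := by ring
      _ ≤ ((∑ x, h x) * ∑ x, h x * g x ^ 2) ^ 2 := by
          exact pow_le_pow_left₀ (sq_nonneg _) c1 2
      _ = (∑ x, h x) ^ 2 * (∑ x, h x * g x ^ 2) ^ 2 := by ring
      _ ≤ (∑ x, h x) ^ 2 * ((∑ x, h x) * ∑ x, g x ^ 4) :=
          mul_le_mul_of_nonneg_left c2 (sq_nonneg _)
      _ = (∑ x, h x) ^ 3 * ∑ x, g x ^ 4 := by ring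
  unfold avg
  rw [div_pow, div_pow, div_mul_div_comm]
  have : (Fintype.card ι : ℝ) ^ 3 * (Fintype.card ι : ℝ) = (Fintype.card ι : ℝ) ^ 4 := by ring
  rw [this]
  exact div_le_div_of_nonneg_right c3 (by positivity)

/-- The dual inequality for functions with values in `[0, 1]`. Let
`W = ∑ a, (1/3)^(wt a) fc h a^2` and `g x = ∑ a, (1/√3)^(wt a) ((1/√3)^(wt a) fc h a) ch a x`. Then
`W = avg (h * g) ≤ (avg h^(4/3))^(3/4) * (avg g^4)^(1/4) ≤ (avg h)^(3/4) * W^(1/2)`
by Hoelder, `h^(4/3) ≤ h`, and `F3_bonami` with `c a = (1/√3)^(wt a) fc h a`. So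
`W^(1/2) ≤ (avg h)^(3/4)`. -/
theorem F4_dual {D : ℕ} (h : Cube D → ℝ) (h0 : ∀ x, 0 ≤ h x) (h1 : ∀ x, h x ≤ 1) :
    ∑ a, (1 / 3 : ℝ) ^ wt a * fc h a ^ 2 ≤ avg h ^ (3 / 2 : ℝ) := by
  have hr2 : (1 / Real.sqrt 3) ^ 2 = 1 / 3 := by
    rw [div_pow, Real.sq_sqrt (by norm_num)]; norm_num
  have hrr : ∀ n : ℕ, (1 / Real.sqrt 3) ^ n * (1 / Real.sqrt 3) ^ n = (1 / 3 : ℝ) ^ n := by
    intro n
    rw [← mul_pow, ← sq, hr2]
  set W : ℝ := ∑ a, (1 / 3 : ℝ) ^ wt a * fc h a ^ 2 with hW
  have hW0 : 0 ≤ W := Finset.sum_nonneg fun a _ => by positivity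
  have hm0 : 0 ≤ avg h := by
    unfold avg
    exact div_nonneg (Finset.sum_nonneg fun x _ => h0 x) (Nat.cast_nonneg _)
  set g : Cube D → ℝ := fun x => ∑ a, (1 / Real.sqrt 3) ^ wt a *
    ((1 / Real.sqrt 3) ^ wt a * fc h a) * ch a x with hg
  have hb := F3_bonami D (fun a => (1 / Real.sqrt 3) ^ wt a * fc h a)
  have e1 : ∑ a : Cube D, ((1 / Real.sqrt 3) ^ wt a * fc h a) ^ 2 = W := by
    rw [hW]
    refine sum_congr rfl fun a _ => ?_
    rw [mul_pow, sq ((1 / Real.sqrt 3) ^ wt a), hrr]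
  rw [e1] at hb
  have e2 : avg (fun x => h x * g x) = W := by
    unfold avg
    have : ∀ x, h x * g x = ∑ a, (1 / 3 : ℝ) ^ wt a * fc h a * (h x * ch a x) := by
      intro x
      rw [hg, Finset.mul_sum]
      refine sum_congr rfl fun a _ => ?_
      rw [← hrr]; ring
    simp only [this]
    rw [Finset.sum_comm, Finset.sum_div, hW]
    refine sum_congr rfl fun a _ => ?_
    rw [← Finset.mul_sum, mul_div_assoc]
    have : (∑ x, h x * ch a x) / (Fintype.card (Cube D) : ℝ) = fc h a := rfl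
    rw [this]; ring
  have hH := F4_holder h g h0 h1
  rw [e2] at hH
  have h3 : W ^ 4 ≤ avg h ^ 3 * W ^ 2 :=
    hH.trans (mul_le_mul_of_nonneg_left hb (by positivity))
  rcases eq_or_lt_of_le hW0 with hz | hpos
  · rw [← hz]; exact Real.rpow_nonneg hm0 _
  have h4 : W ^ 2 ≤ avg h ^ 3 := by
    have hp : 0 < W ^ 2 := by positivity
    have : W ^ 2 * W ^ 2 ≤ avg h ^ 3 * W ^ 2 := by
      calc W ^ 2 * W ^ 2 = W ^ 4 := by ring
        _ ≤ _ := h3
    exact le_of_mul_le_mul_right this hp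
  have h5 : (avg h ^ (3 / 2 : ℝ)) ^ 2 = avg h ^ 3 := by
    rw [← Real.rpow_natCast (avg h ^ (3 / 2 : ℝ)) 2, ← Real.rpow_mul hm0]
    have : (3 / 2 : ℝ) * ((2 : ℕ) : ℝ) = ((3 : ℕ) : ℝ) := by norm_num
    rw [this, Real.rpow_natCast]
  exact (abs_le_of_sq_le_sq' (by rw [h5]; exact h4) (Real.rpow_nonneg hm0 _)).2
-- END F4

-- BEGIN F5
/-- Interpolation. With `e a = fc h a^2` and `t = (1/3)^(wt a)`, Hoelder gives
`∑ t^θ e ≤ (∑ e)^(1-θ) (∑ t e)^θ ≤ (avg h)^(1-θ) (avg h)^(3θ/2)` because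
`∑ e = avg h^2 ≤ avg h` (`F2_parseval`) and `F4_dual`. (`avg h = 0` is trivial.) -/
theorem F5_interp {D : ℕ} (h : Cube D → ℝ) (h0 : ∀ x, 0 ≤ h x) (h1 : ∀ x, h x ≤ 1)
    {θ : ℝ} (hθ0 : 0 ≤ θ) (hθ1 : θ ≤ 1) :
    ∑ a, ((1 / 3 : ℝ) ^ θ) ^ wt a * fc h a ^ 2 ≤ avg h ^ (1 + θ / 2) := by
  have hm0 : 0 ≤ avg h := by
    unfold avg
    exact div_nonneg (Finset.sum_nonneg fun x _ => h0 x) (Nat.cast_nonneg _)
  have hE : ∑ a, fc h a ^ 2 ≤ avg h := by
    rw [(F2_parseval h).2.1]
    unfold avg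
    refine div_le_div_of_nonneg_right (sum_le_sum fun x _ => ?_) (Nat.cast_nonneg _)
    nlinarith [h0 x, h1 x]
  have hT := F4_dual h h0 h1
  have hpt : ∀ a : Cube D, ((1 / 3 : ℝ) ^ θ) ^ wt a = ((1 / 3 : ℝ) ^ wt a) ^ θ := by
    intro a
    rw [← Real.rpow_natCast ((1 / 3 : ℝ) ^ θ), ← Real.rpow_mul (by norm_num), mul_comm,
      Real.rpow_mul (by norm_num), Real.rpow_natCast]
  simp only [hpt]
  rcases eq_or_lt_of_le hm0 with hz | hpos
  · have hE0 : ∀ a, fc h a ^ 2 = 0 := by
      intro a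
      have h2 : fc h a ^ 2 ≤ ∑ a, fc h a ^ 2 :=
        Finset.single_le_sum (f := fun a => fc h a ^ 2) (fun b _ => sq_nonneg _) (mem_univ a)
      rw [← hz] at hE
      exact le_antisymm (h2.trans hE) (sq_nonneg _)
    simp only [hE0, mul_zero, sum_const_zero]
    exact Real.rpow_nonneg hm0 _
  · set m : ℝ := avg h with hm
    have key : ∀ a : Cube D, ((1 / 3 : ℝ) ^ wt a) ^ θ * (m ^ (1 / 2 : ℝ)) ^ (1 - θ) ≤
        θ * (1 / 3 : ℝ) ^ wt a + (1 - θ) * m ^ (1 / 2 : ℝ) := by
      intro a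
      exact Real.geom_mean_le_arith_mean2_weighted hθ0 (by linarith) (by positivity)
        (by positivity) (by ring)
    have hs : (∑ a, ((1 / 3 : ℝ) ^ wt a) ^ θ * fc h a ^ 2) * (m ^ (1 / 2 : ℝ)) ^ (1 - θ) ≤
        θ * ∑ a, (1 / 3 : ℝ) ^ wt a * fc h a ^ 2 + (1 - θ) * m ^ (1 / 2 : ℝ) *
          ∑ a, fc h a ^ 2 := by
      rw [Finset.sum_mul, Finset.mul_sum, Finset.mul_sum, ← sum_add_distrib]
      refine sum_le_sum fun a _ => ?_
      have := mul_le_mul_of_nonneg_right (key a) (sq_nonneg (fc h a))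
      linarith
    have hl : 0 < m ^ (1 / 2 : ℝ) := Real.rpow_pos_of_pos hpos _
    have e1 : m ^ (1 / 2 : ℝ) * m = m ^ (3 / 2 : ℝ) := by
      nth_rewrite 2 [← Real.rpow_one m]
      rw [← Real.rpow_add hpos]; norm_num
    have h2 : θ * ∑ a, (1 / 3 : ℝ) ^ wt a * fc h a ^ 2 + (1 - θ) * m ^ (1 / 2 : ℝ) *
          ∑ a, fc h a ^ 2 ≤ m ^ (3 / 2 : ℝ) := by
      have i1 : θ * ∑ a, (1 / 3 : ℝ) ^ wt a * fc h a ^ 2 ≤ θ * m ^ (3 / 2 : ℝ) :=
        mul_le_mul_of_nonneg_left hT hθ0
      have i2 : (1 - θ) * m ^ (1 / 2 : ℝ) * ∑ a, fc h a ^ 2 ≤ (1 - θ) * m ^ (1 / 2 : ℝ) * m :=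
        mul_le_mul_of_nonneg_left hE (mul_nonneg (by linarith) hl.le)
      have i3 : (1 - θ) * m ^ (1 / 2 : ℝ) * m = (1 - θ) * m ^ (3 / 2 : ℝ) := by
        rw [mul_assoc, e1]
      rw [i3] at i2
      linarith
    have h3 := hs.trans h2
    have e2 : m ^ (3 / 2 : ℝ) = m ^ (1 + θ / 2) * (m ^ (1 / 2 : ℝ)) ^ (1 - θ) := by
      rw [← Real.rpow_mul hpos.le, ← Real.rpow_add hpos]
      congr 1; ring
    rw [e2] at h3
    exact le_of_mul_le_mul_right h3 (Real.rpow_pos_of_pos hl _)
-- END F5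

end Pool.Agent.Lib.MP_8d8c46_lc.SDP
end

section

set_option autoImplicit false

open Finset
open scoped Classical

namespace Pool.Agent.Lib.MP_8d8c46_lc.SDP

/-- The noise distribution with rate `ν` on the cube. -/
noncomputable def bw {D : ℕ} (ν : ℝ) (z : Cube D) : ℝ := ν ^ wt z * (1 - ν) ^ (D - wt z)

/-- The product distribution on `d`-tuples. -/
noncomputable def bwt {D d : ℕ} (ν : ℝ) (z : Fin d → Cube D) : ℝ := ∏ i, bw ν (z i)

-- BEGIN Z1
theorem Z1_pow_wt {D : ℕ} (u v : ℝ) (z : Cube D) :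
    u ^ wt z * v ^ (D - wt z) = ∏ i, (if z i = 0 then v else u) := by
  have hcard : (univ.filter (fun i => z i = 0)).card = D - wt z := by
    have h := Finset.card_filter_add_card_filter_not (s := (univ : Finset (Fin D)))
      (fun i => z i = 0)
    rw [Finset.card_univ, Fintype.card_fin] at h
    unfold wt
    simp only [ne_eq]
    omega
  rw [Finset.prod_ite, Finset.prod_const, Finset.prod_const, hcard]
  unfold wt
  rw [mul_comm]

theorem Z1_prod_sum {D : ℕ} (f : Fin D → ZMod 2 → ℝ) :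
    ∑ z : Cube D, ∏ i, f i (z i) = ∏ i, (f i 0 + f i 1) := by
  have h : ∏ i : Fin D, ∑ x : ZMod 2, f i x = ∑ z : Cube D, ∏ i, f i (z i) := by
    rw [Finset.prod_univ_sum, Fintype.piFinset_univ]
  rw [← h]
  refine Finset.prod_congr rfl fun i _ => ?_
  exact Fin.sum_univ_two (f i)

/-- `bw ν z = ∏ i, (if z i = 0 then 1 - ν else ν)`. So `∑ bw = 1`, and
`∑ z, bw ν z * ch a z = ∏ i, (1 - ν + ν sg (a i)) = (1 - 2 ν)^(wt a)`. Also
`∑ z, bw ν z * exp (s * wt z) = (1 - ν + ν exp s)^D` and `∑ z, bw ν z ^ 2 = ((1-ν)^2 + ν^2)^D`,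
`bw ν 0 = (1 - ν)^D`. -/
theorem Z1_sums {D : ℕ} {ν : ℝ} (h0 : 0 ≤ ν) (h1 : ν ≤ 1) :
    (∀ z : Cube D, 0 ≤ bw ν z) ∧ (∑ z : Cube D, bw ν z = 1) ∧
      (∀ a : Cube D, ∑ z, bw ν z * ch a z = (1 - 2 * ν) ^ wt a) ∧
      (∀ s : ℝ, ∑ z : Cube D, bw ν z * Real.exp (s * wt z) = (1 - ν + ν * Real.exp s) ^ D) ∧
      (∑ z : Cube D, bw ν z ^ 2 = ((1 - ν) ^ 2 + ν ^ 2) ^ D) ∧ bw ν (0 : Cube D) = (1 - ν) ^ D := by
  have h10 : (1 : ZMod 2) ≠ 0 := one_ne_zero
  have hbw : ∀ z : Cube D, bw ν z = ∏ i, (if z i = 0 then 1 - ν else ν) := fun z =>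
    Z1_pow_wt ν (1 - ν) z
  have hnn : 0 ≤ 1 - ν := by linarith
  refine ⟨?_, ?_, ?_, ?_, ?_, ?_⟩
  · intro z
    unfold bw
    positivity
  · rw [Finset.sum_congr rfl fun z _ => hbw z,
      Z1_prod_sum (fun _ x => if x = 0 then 1 - ν else ν)]
    simp [h10]
  · intro a
    have h2 : ∀ z : Cube D, bw ν z * ch a z =
        ∏ i, ((if z i = 0 then 1 - ν else ν) * sg (a i * z i)) := by
      intro z
      rw [hbw z, (F1_ch a a z z).2.2.2.2.2.2, ← Finset.prod_mul_distrib]
    rw [Finset.sum_congr rfl fun z _ => h2 z,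
      Z1_prod_sum (fun i x => (if x = 0 then 1 - ν else ν) * sg (a i * x))]
    have h3 : ∀ i : Fin D, ((if (0 : ZMod 2) = 0 then 1 - ν else ν) * sg (a i * 0) +
        (if (1 : ZMod 2) = 0 then 1 - ν else ν) * sg (a i * 1)) =
        if a i = 0 then 1 else 1 - 2 * ν := by
      intro i
      rcases zmod2_cases (a i) with h | h
      · simp [h, sg_zero, h10]
      · simp [h, sg_zero, sg_one, h10]
        ring
    rw [Finset.prod_congr rfl fun i _ => h3 i, ← Z1_pow_wt (1 - 2 * ν) 1 a]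
    simp
  · intro s
    have h2 : ∀ z : Cube D, bw ν z * Real.exp (s * wt z) =
        ∏ i, (if z i = 0 then 1 - ν else ν * Real.exp s) := by
      intro z
      rw [← Z1_pow_wt (ν * Real.exp s) (1 - ν) z]
      unfold bw
      rw [mul_comm s, Real.exp_nat_mul, mul_pow]
      ring
    rw [Finset.sum_congr rfl fun z _ => h2 z,
      Z1_prod_sum (fun _ x => if x = 0 then 1 - ν else ν * Real.exp s)]
    simp [h10]
  · have h2 : ∀ z : Cube D, bw ν z ^ 2 =
        ∏ i, (if z i = 0 then (1 - ν) ^ 2 else ν ^ 2) := by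
      intro z
      rw [← Z1_pow_wt (ν ^ 2) ((1 - ν) ^ 2) z]
      unfold bw
      rw [mul_pow, ← pow_mul, ← pow_mul, ← pow_mul, ← pow_mul]
      congr 1 <;> congr 1 <;> ring
    rw [Finset.sum_congr rfl fun z _ => h2 z,
      Z1_prod_sum (fun _ x => if x = 0 then (1 - ν) ^ 2 else ν ^ 2)]
    simp [h10]
  · rw [hbw 0]
    simp
-- END Z1

-- BEGIN Z2
/-- `ch a z` is `1` or `-1`, so its absolute value is `1`. -/
theorem Z2_abs_ch {D : ℕ} (a z : Cube D) : |ch a z| = 1 := by
  have h := (F1_ch a a z z).2.2.2.1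
  have h2 : |ch a z| * |ch a z| = 1 := by rw [← abs_mul, h, abs_one]
  nlinarith [abs_nonneg (ch a z)]

theorem Z2_abs_pow {ν : ℝ} (h0 : 0 ≤ ν) (h1 : ν ≤ 1) (n : ℕ) : |(1 - 2 * ν) ^ n| ≤ 1 := by
  rw [abs_pow]
  apply pow_le_one₀ (abs_nonneg _)
  rw [abs_le]
  constructor <;> linarith

theorem Z2_term {D : ℕ} {ν : ℝ} (h0 : 0 ≤ ν) (h1 : ν ≤ 1) (a z : Cube D) {s : ℝ}
    (hs : |s| ≤ 1 / 2) :
    Real.exp (s * (ch a z - (1 - 2 * ν) ^ wt a)) ≤
      1 + s * (ch a z - (1 - 2 * ν) ^ wt a) + 4 * s ^ 2 := by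
  have hc := Z2_abs_ch a z
  have hp := Z2_abs_pow h0 h1 (wt a)
  set ρ := (1 - 2 * ν) ^ wt a with hρ
  set c := ch a z with hcd
  have hd : |c - ρ| ≤ 2 := by
    calc |c - ρ| ≤ |c| + |ρ| := abs_sub _ _
      _ ≤ 2 := by linarith
  have ht : |s * (c - ρ)| ≤ 1 := by
    rw [abs_mul]
    calc |s| * |c - ρ| ≤ (1 / 2) * 2 := by
          apply mul_le_mul hs hd (abs_nonneg _) (by norm_num)
      _ = 1 := by norm_num
  have he := Real.abs_exp_sub_one_sub_id_le ht
  have he2 := (abs_le.1 he).2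
  have hsq : (s * (c - ρ)) ^ 2 ≤ 4 * s ^ 2 := by
    have h4 : (c - ρ) ^ 2 ≤ 4 := by
      rw [← sq_abs]
      nlinarith [abs_nonneg (c - ρ)]
    have : (s * (c - ρ)) ^ 2 = s ^ 2 * (c - ρ) ^ 2 := by ring
    rw [this]
    nlinarith [sq_nonneg s]
  linarith

/-- Exponential moment of a character. With `ρ = (1 - 2 ν)^(wt a) ∈ [-1, 1]` and `|s| ≤ 1/2`, the
number `t = s (ch a z - ρ)` satisfies `|t| ≤ 1`, so `exp t ≤ 1 + t + t^2 ≤ 1 + t + 4 s^2`; take the
mean (the mean of `t` is `0`): at most `1 + 4 s^2 ≤ exp (4 s^2)`. -/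
theorem Z2_mgf {D : ℕ} {ν : ℝ} (h0 : 0 ≤ ν) (h1 : ν ≤ 1) (a : Cube D) {s : ℝ} (hs : |s| ≤ 1 / 2) :
    ∑ z : Cube D, bw ν z * Real.exp (s * (ch a z - (1 - 2 * ν) ^ wt a)) ≤ Real.exp (4 * s ^ 2) := by
  obtain ⟨hnn, hone, hch, -⟩ := Z1_sums (D := D) h0 h1
  have hle : ∑ z : Cube D, bw ν z * Real.exp (s * (ch a z - (1 - 2 * ν) ^ wt a)) ≤
      ∑ z : Cube D, bw ν z * (1 + s * (ch a z - (1 - 2 * ν) ^ wt a) + 4 * s ^ 2) :=
    Finset.sum_le_sum fun z _ => mul_le_mul_of_nonneg_left (Z2_term h0 h1 a z hs) (hnn z)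
  have heq : ∑ z : Cube D, bw ν z * (1 + s * (ch a z - (1 - 2 * ν) ^ wt a) + 4 * s ^ 2) =
      1 + 4 * s ^ 2 := by
    have h2 : ∀ z : Cube D, bw ν z * (1 + s * (ch a z - (1 - 2 * ν) ^ wt a) + 4 * s ^ 2) =
        (1 - s * (1 - 2 * ν) ^ wt a + 4 * s ^ 2) * bw ν z + s * (bw ν z * ch a z) := by
      intro z
      ring
    rw [Finset.sum_congr rfl fun z _ => h2 z, Finset.sum_add_distrib, ← Finset.mul_sum,
      ← Finset.mul_sum, hone, hch a]
    ring
  calc ∑ z : Cube D, bw ν z * Real.exp (s * (ch a z - (1 - 2 * ν) ^ wt a)) ≤ 1 + 4 * s ^ 2 := by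
        rw [← heq]; exact hle
    _ ≤ Real.exp (4 * s ^ 2) := by
        have := Real.add_one_le_exp (4 * s ^ 2)
        linarith
-- END Z2

-- BEGIN Z3
theorem Z3_nonneg {D d : ℕ} {ν : ℝ} (h0 : 0 ≤ ν) (h1 : ν ≤ 1) (z : Fin d → Cube D) :
    0 ≤ bwt ν z :=
  Finset.prod_nonneg fun i _ => (Z1_sums (D := D) h0 h1).1 (z i)

theorem Z3_tuple {D d : ℕ} {ν : ℝ} (h0 : 0 ≤ ν) (h1 : ν ≤ 1) (a : Cube D) {s : ℝ}
    (hs : |s| ≤ 1 / 2) :
    ∑ z : Fin d → Cube D, bwt ν z * Real.exp (s * ∑ i, (ch a (z i) - (1 - 2 * ν) ^ wt a)) ≤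
      Real.exp (4 * s ^ 2 * d) := by
  have heq : ∑ z : Fin d → Cube D,
      bwt ν z * Real.exp (s * ∑ i, (ch a (z i) - (1 - 2 * ν) ^ wt a)) =
      (∑ z : Cube D, bw ν z * Real.exp (s * (ch a z - (1 - 2 * ν) ^ wt a))) ^ d := by
    rw [Fintype.sum_pow]
    refine Finset.sum_congr rfl fun z _ => ?_
    rw [Finset.mul_sum, Real.exp_sum, bwt, ← Finset.prod_mul_distrib]
  rw [heq]
  have hnn : 0 ≤ ∑ z : Cube D, bw ν z * Real.exp (s * (ch a z - (1 - 2 * ν) ^ wt a)) :=
    Finset.sum_nonneg fun z _ => mul_nonneg ((Z1_sums (D := D) h0 h1).1 z) (Real.exp_pos _).le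
  calc (∑ z : Cube D, bw ν z * Real.exp (s * (ch a z - (1 - 2 * ν) ^ wt a))) ^ d
      ≤ (Real.exp (4 * s ^ 2)) ^ d := pow_le_pow_left₀ hnn (Z2_mgf h0 h1 a hs) d
    _ = Real.exp (4 * s ^ 2 * d) := by
        rw [← Real.exp_nat_mul]
        congr 1
        ring

/-- Chernoff for one character. `∑ over tuples bwt * exp (s ∑ i, (ch a (z i) - ρ)) =
(∑ z, bw * exp (s (ch a z - ρ)))^d ≤ exp (4 s^2 d)`; Markov with `s = β/8` and `s = -β/8`:
`2 exp (4 s^2 d - |s| β d) = 2 exp (-β^2 d / 16)`. (Here `β ≤ 4`.) -/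
theorem Z3_chernoff {D d : ℕ} {ν β : ℝ} (h0 : 0 ≤ ν) (h1 : ν ≤ 1) (hβ0 : 0 ≤ β) (hβ : β ≤ 4)
    (a : Cube D) :
    ∑ z ∈ univ.filter (fun z : Fin d → Cube D =>
        β * d < |∑ i, (ch a (z i) - (1 - 2 * ν) ^ wt a)|), bwt ν z ≤
      2 * Real.exp (-(β ^ 2 * d / 16)) := by
  have hs1 : |β / 8| ≤ 1 / 2 := by
    rw [abs_of_nonneg (by positivity)]
    linarith
  have hs2 : |-(β / 8)| ≤ 1 / 2 := by
    rw [abs_neg]
    exact hs1
  have hA := Z3_tuple (d := d) h0 h1 a hs1
  have hB := Z3_tuple (d := d) h0 h1 a hs2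
  set S : (Fin d → Cube D) → ℝ := fun z => ∑ i, (ch a (z i) - (1 - 2 * ν) ^ wt a) with hS
  have hterm : ∀ z ∈ univ.filter (fun z : Fin d → Cube D => β * d < |S z|),
      bwt ν z ≤ Real.exp (-(β / 8 * (β * d))) *
        (bwt ν z * Real.exp (β / 8 * S z) + bwt ν z * Real.exp (-(β / 8) * S z)) := by
    intro z hz
    have hz' : β * d < |S z| := (Finset.mem_filter.1 hz).2
    have hw := Z3_nonneg h0 h1 z
    have h8 : 0 ≤ β / 8 := by positivity
    have hexp : 1 ≤ Real.exp (-(β / 8 * (β * d))) *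
        (Real.exp (β / 8 * S z) + Real.exp (-(β / 8) * S z)) := by
      rw [mul_add, ← Real.exp_add, ← Real.exp_add]
      rcases lt_abs.1 hz' with h | h
      · have h3 : 0 ≤ -(β / 8 * (β * d)) + β / 8 * S z := by nlinarith
        have h4 := Real.one_le_exp h3
        have h5 := Real.exp_pos (-(β / 8 * (β * d)) + -(β / 8) * S z)
        linarith
      · have h3 : 0 ≤ -(β / 8 * (β * d)) + -(β / 8) * S z := by nlinarith
        have h4 := Real.one_le_exp h3
        have h5 := Real.exp_pos (-(β / 8 * (β * d)) + β / 8 * S z)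
        linarith
    calc bwt ν z = bwt ν z * 1 := (mul_one _).symm
      _ ≤ bwt ν z * (Real.exp (-(β / 8 * (β * d))) *
        (Real.exp (β / 8 * S z) + Real.exp (-(β / 8) * S z))) :=
          mul_le_mul_of_nonneg_left hexp hw
      _ = _ := by ring
  have hnn : ∀ z : Fin d → Cube D, 0 ≤ Real.exp (-(β / 8 * (β * d))) *
        (bwt ν z * Real.exp (β / 8 * S z) + bwt ν z * Real.exp (-(β / 8) * S z)) := by
    intro z
    have hw := Z3_nonneg h0 h1 z
    positivity
  calc ∑ z ∈ univ.filter (fun z : Fin d → Cube D => β * d < |S z|), bwt ν z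
      ≤ ∑ z ∈ univ.filter (fun z : Fin d → Cube D => β * d < |S z|),
        Real.exp (-(β / 8 * (β * d))) *
        (bwt ν z * Real.exp (β / 8 * S z) + bwt ν z * Real.exp (-(β / 8) * S z)) :=
        Finset.sum_le_sum hterm
    _ ≤ ∑ z : Fin d → Cube D, Real.exp (-(β / 8 * (β * d))) *
        (bwt ν z * Real.exp (β / 8 * S z) + bwt ν z * Real.exp (-(β / 8) * S z)) :=
        Finset.sum_le_sum_of_subset_of_nonneg (Finset.filter_subset _ _) fun z _ _ => hnn z
    _ = Real.exp (-(β / 8 * (β * d))) * (∑ z : Fin d → Cube D, bwt ν z * Real.exp (β / 8 * S z) +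
          ∑ z : Fin d → Cube D, bwt ν z * Real.exp (-(β / 8) * S z)) := by
        rw [← Finset.mul_sum, Finset.sum_add_distrib]
    _ ≤ Real.exp (-(β / 8 * (β * d))) * (Real.exp (4 * (β / 8) ^ 2 * d) +
          Real.exp (4 * (-(β / 8)) ^ 2 * d)) :=
        mul_le_mul_of_nonneg_left (add_le_add hA hB) (Real.exp_pos _).le
    _ = 2 * Real.exp (-(β ^ 2 * d / 16)) := by
        have e1 : Real.exp (-(β / 8 * (β * d))) * (Real.exp (4 * (β / 8) ^ 2 * d) +
          Real.exp (4 * (-(β / 8)) ^ 2 * d)) =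
          2 * (Real.exp (-(β / 8 * (β * d))) * Real.exp (4 * (β / 8) ^ 2 * d)) := by
          have : (-(β / 8)) ^ 2 = (β / 8) ^ 2 := by ring
          rw [this]
          ring
        rw [e1, ← Real.exp_add]
        congr 2
        ring
-- END Z3

-- BEGIN Z4
theorem Z4_marg {D d : ℕ} {ν : ℝ} (h0 : 0 ≤ ν) (h1 : ν ≤ 1) (f : Cube D → ℝ) (i : Fin d) :
    ∑ z : Fin d → Cube D, bwt ν z * f (z i) = ∑ x : Cube D, bw ν x * f x := by
  have hone := (Z1_sums (D := D) h0 h1).2.1
  have h2 : ∀ z : Fin d → Cube D, bwt ν z * f (z i) =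
      ∏ j, (bw ν (z j) * if j = i then f (z j) else 1) := by
    intro z
    rw [Finset.prod_mul_distrib, Finset.prod_ite_eq' univ i (fun j => f (z j))]
    simp [bwt]
  have h3 : ∏ j : Fin d, ∑ x : Cube D, (bw ν x * if j = i then f x else 1) =
      ∑ z : Fin d → Cube D, ∏ j, (bw ν (z j) * if j = i then f (z j) else 1) := by
    rw [Finset.prod_univ_sum, Fintype.piFinset_univ]
  rw [Finset.sum_congr rfl fun z _ => h2 z, ← h3]
  have h4 : ∀ j : Fin d, ∑ x : Cube D, (bw ν x * if j = i then f x else 1) =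
      if j = i then ∑ x : Cube D, bw ν x * f x else 1 := by
    intro j
    by_cases hj : j = i
    · simp [hj]
    · simp [hj, hone]
  rw [Finset.prod_congr rfl fun j _ => h4 j,
    Finset.prod_ite_eq' univ i (fun _ => ∑ x : Cube D, bw ν x * f x)]
  simp

theorem Z4_nonneg {D d : ℕ} {ν : ℝ} (h0 : 0 ≤ ν) (h1 : ν ≤ 1) (z : Fin d → Cube D) :
    0 ≤ bwt ν z :=
  Finset.prod_nonneg fun i _ => (Z1_sums (D := D) h0 h1).1 (z i)

/-- Large weights are unlikely. Chernoff with `s = 1/2`: for one vector,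
`P(wt z > 2 ν D) ≤ exp (-ν D) * (1 - ν + ν exp (1/2))^D ≤ exp (ν D (exp (1/2) - 2))
≤ exp (-ν D / 3)` (`exp (1/2) ≤ 1.65`; `Z1_sums`). Union bound over `i`. -/
theorem Z4_weight {D d : ℕ} {ν : ℝ} (h0 : 0 ≤ ν) (h1 : ν ≤ 1) :
    ∑ z ∈ univ.filter (fun z : Fin d → Cube D => ∃ i, 2 * ν * D < (wt (z i) : ℝ)), bwt ν z ≤
      d * Real.exp (-(ν * D / 3)) := by
  obtain ⟨hnn, hone, -, hexp, -⟩ := Z1_sums (D := D) h0 h1
  -- union bound
  have hterm : ∀ z ∈ univ.filter (fun z : Fin d → Cube D => ∃ i, 2 * ν * D < (wt (z i) : ℝ)),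
      bwt ν z ≤ ∑ i : Fin d, bwt ν z * Real.exp (1 / 2 * (wt (z i) : ℝ)) *
        Real.exp (-(ν * D)) := by
    intro z hz
    obtain ⟨i, hi⟩ := (Finset.mem_filter.1 hz).2
    have hw := Z4_nonneg h0 h1 z
    have h5 : bwt ν z ≤ bwt ν z * Real.exp (1 / 2 * (wt (z i) : ℝ)) * Real.exp (-(ν * D)) := by
      rw [mul_assoc, ← Real.exp_add]
      have h6 : 1 ≤ Real.exp (1 / 2 * (wt (z i) : ℝ) + -(ν * D)) := by
        apply Real.one_le_exp
        linarith
      calc bwt ν z = bwt ν z * 1 := (mul_one _).symm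
        _ ≤ _ := mul_le_mul_of_nonneg_left h6 hw
    refine h5.trans ?_
    refine Finset.single_le_sum (f := fun i : Fin d => bwt ν z *
      Real.exp (1 / 2 * (wt (z i) : ℝ)) * Real.exp (-(ν * D))) (fun j _ => ?_) (Finset.mem_univ i)
    positivity
  have hnum : Real.exp (-(ν * D)) * (1 - ν + ν * Real.exp (1 / 2)) ^ D ≤
      Real.exp (-(ν * D / 3)) := by
    have he : Real.exp (1 / 2) ≤ 5 / 3 := by
      have h7 : Real.exp (1 / 2) ^ 2 = Real.exp 1 := by
        rw [← Real.exp_nat_mul]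
        norm_num
      have h8 : Real.exp 1 < 2.7182818286 := Real.exp_one_lt_d9
      have h9 : 0 < Real.exp (1 / 2) := Real.exp_pos _
      nlinarith
    have hb : 1 - ν + ν * Real.exp (1 / 2) ≤ Real.exp (2 / 3 * ν) := by
      have h10 := Real.add_one_le_exp (2 / 3 * ν)
      nlinarith
    have hb0 : 0 ≤ 1 - ν + ν * Real.exp (1 / 2) := by
      have : 0 ≤ ν * Real.exp (1 / 2) := by positivity
      linarith
    calc Real.exp (-(ν * D)) * (1 - ν + ν * Real.exp (1 / 2)) ^ D
        ≤ Real.exp (-(ν * D)) * (Real.exp (2 / 3 * ν)) ^ D :=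
          mul_le_mul_of_nonneg_left (pow_le_pow_left₀ hb0 hb D) (Real.exp_pos _).le
      _ = Real.exp (-(ν * D / 3)) := by
          rw [← Real.exp_nat_mul, ← Real.exp_add]
          congr 1
          ring
  calc ∑ z ∈ univ.filter (fun z : Fin d → Cube D => ∃ i, 2 * ν * D < (wt (z i) : ℝ)), bwt ν z
      ≤ ∑ z ∈ univ.filter (fun z : Fin d → Cube D => ∃ i, 2 * ν * D < (wt (z i) : ℝ)),
        ∑ i : Fin d, bwt ν z * Real.exp (1 / 2 * (wt (z i) : ℝ)) * Real.exp (-(ν * D)) :=
        Finset.sum_le_sum hterm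
    _ ≤ ∑ z : Fin d → Cube D, ∑ i : Fin d, bwt ν z * Real.exp (1 / 2 * (wt (z i) : ℝ)) *
          Real.exp (-(ν * D)) := by
        refine Finset.sum_le_sum_of_subset_of_nonneg (Finset.filter_subset _ _) fun z _ _ => ?_
        refine Finset.sum_nonneg fun i _ => ?_
        have hw := Z4_nonneg h0 h1 z
        positivity
    _ = ∑ i : Fin d, ∑ z : Fin d → Cube D, bwt ν z * Real.exp (1 / 2 * (wt (z i) : ℝ)) *
          Real.exp (-(ν * D)) := Finset.sum_comm
    _ = ∑ i : Fin d, (1 - ν + ν * Real.exp (1 / 2)) ^ D * Real.exp (-(ν * D)) := by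
        refine Finset.sum_congr rfl fun i _ => ?_
        rw [← Finset.sum_mul, Z4_marg h0 h1 (fun x => Real.exp (1 / 2 * (wt x : ℝ))) i,
          hexp (1 / 2)]
    _ = d * (Real.exp (-(ν * D)) * (1 - ν + ν * Real.exp (1 / 2)) ^ D) := by
        rw [Finset.sum_const, Finset.card_univ, Fintype.card_fin, nsmul_eq_mul]
        ring
    _ ≤ d * Real.exp (-(ν * D / 3)) := mul_le_mul_of_nonneg_left hnum (Nat.cast_nonneg d)
-- END Z4

-- BEGIN Z5
theorem Z5_nonneg {D d : ℕ} {ν : ℝ} (h0 : 0 ≤ ν) (h1 : ν ≤ 1) (z : Fin d → Cube D) :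
    0 ≤ bwt ν z :=
  Finset.prod_nonneg fun i _ => (Z1_sums (D := D) h0 h1).1 (z i)

/-- expectation of a product of functions of the coordinates -/
theorem Z5_prod {D d : ℕ} {ν : ℝ} (f : Fin d → Cube D → ℝ) :
    ∑ z : Fin d → Cube D, bwt ν z * ∏ i, f i (z i) = ∏ i, ∑ x : Cube D, bw ν x * f i x := by
  rw [Finset.prod_univ_sum, Fintype.piFinset_univ]
  refine Finset.sum_congr rfl fun z _ => ?_
  rw [bwt, ← Finset.prod_mul_distrib]

theorem Z5_one {D d : ℕ} {ν : ℝ} (h0 : 0 ≤ ν) (h1 : ν ≤ 1) (x : Cube D) (i : Fin d) :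
    ∑ z : Fin d → Cube D, bwt ν z * (if z i = x then 1 else 0) = bw ν x := by
  have hone := (Z1_sums (D := D) h0 h1).2.1
  have h := Z5_prod (ν := ν) (fun (j : Fin d) (y : Cube D) =>
    if j = i then (if y = x then (1 : ℝ) else 0) else 1)
  have hl : ∀ z : Fin d → Cube D, ∏ j : Fin d, (if j = i then (if z j = x then (1 : ℝ) else 0)
      else 1) = if z i = x then 1 else 0 := by
    intro z
    rw [Finset.prod_ite_eq' univ i (fun j => if z j = x then (1 : ℝ) else 0)]
    simp
  have hr : ∏ j : Fin d, ∑ y : Cube D, bw ν y * (if j = i then (if y = x then (1 : ℝ) else 0)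
      else 1) = bw ν x := by
    rw [Finset.prod_eq_single i]
    · simp
    · intro j _ hj
      simp [hj, hone]
    · intro hi
      exact absurd (Finset.mem_univ i) hi
  rw [hr] at h
  rw [← h]
  exact Finset.sum_congr rfl fun z _ => by rw [hl z]

theorem Z5_two {D d : ℕ} {ν : ℝ} (h0 : 0 ≤ ν) (h1 : ν ≤ 1) (x : Cube D) {i j : Fin d}
    (hij : i ≠ j) :
    ∑ z : Fin d → Cube D, bwt ν z * ((if z i = x then 1 else 0) * (if z j = x then 1 else 0)) =
      bw ν x ^ 2 := by
  have hone := (Z1_sums (D := D) h0 h1).2.1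
  have h := Z5_prod (ν := ν) (fun (l : Fin d) (y : Cube D) =>
    (if l = i then (if y = x then (1 : ℝ) else 0) else 1) *
    (if l = j then (if y = x then (1 : ℝ) else 0) else 1))
  have hl : ∀ z : Fin d → Cube D, ∏ l : Fin d,
      ((if l = i then (if z l = x then (1 : ℝ) else 0) else 1) *
        (if l = j then (if z l = x then (1 : ℝ) else 0) else 1)) =
      (if z i = x then 1 else 0) * (if z j = x then 1 else 0) := by
    intro z
    rw [Finset.prod_mul_distrib,
      Finset.prod_ite_eq' univ i (fun l => if z l = x then (1 : ℝ) else 0),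
      Finset.prod_ite_eq' univ j (fun l => if z l = x then (1 : ℝ) else 0)]
    simp
  have hr : ∏ l : Fin d, ∑ y : Cube D, bw ν y *
      ((if l = i then (if y = x then (1 : ℝ) else 0) else 1) *
        (if l = j then (if y = x then (1 : ℝ) else 0) else 1)) = bw ν x ^ 2 := by
    have hterm : ∀ l : Fin d, ∑ y : Cube D, bw ν y *
      ((if l = i then (if y = x then (1 : ℝ) else 0) else 1) *
        (if l = j then (if y = x then (1 : ℝ) else 0) else 1)) =
        (if l = i then bw ν x else 1) * (if l = j then bw ν x else 1) := by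
      intro l
      by_cases hli : l = i
      · have hlj : l ≠ j := fun h => hij (hli.symm.trans h)
        simp [hli, hij]
      · by_cases hlj : l = j
        · have hji : j ≠ i := fun h => hij h.symm
          simp [hlj, hji]
        · simp [hli, hlj, hone]
    rw [Finset.prod_congr rfl fun l _ => hterm l, Finset.prod_mul_distrib,
      Finset.prod_ite_eq' univ i (fun _ => bw ν x), Finset.prod_ite_eq' univ j (fun _ => bw ν x)]
    simp
    ring
  rw [hr] at h
  rw [← h]
  exact Finset.sum_congr rfl fun z _ => by rw [hl z]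

/-- Collisions and zero are unlikely: union bound over the pairs `i ≠ j` and over `i`;
`P(z i = z j) = ∑ z, bw ν z^2` and `P(z i = 0) = bw ν 0` (`Z1_sums`). -/
theorem Z5_collision {D d : ℕ} {ν : ℝ} (h0 : 0 ≤ ν) (h1 : ν ≤ 1) :
    ∑ z ∈ univ.filter (fun z : Fin d → Cube D => ¬ Function.Injective z ∨ ∃ i, z i = 0),
      bwt ν z ≤ (d : ℝ) ^ 2 * ((1 - ν) ^ 2 + ν ^ 2) ^ D + d * (1 - ν) ^ D := by
  obtain ⟨hnn, hone, -, -, hsq, hzero⟩ := Z1_sums (D := D) h0 h1
  -- the two majorants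
  set P : (Fin d → Cube D) → ℝ := fun z => ∑ i : Fin d, ∑ j : Fin d, ∑ x : Cube D,
    (if i ≠ j then (if z i = x then (1 : ℝ) else 0) * (if z j = x then 1 else 0) else 0) with hP
  set Q : (Fin d → Cube D) → ℝ := fun z => ∑ i : Fin d, (if z i = 0 then (1 : ℝ) else 0) with hQ
  have hPt : ∀ (z : Fin d → Cube D) (i j : Fin d) (x : Cube D),
      0 ≤ (if i ≠ j then (if z i = x then (1 : ℝ) else 0) * (if z j = x then 1 else 0) else 0) := by
    intro z i j x
    split_ifs <;> norm_num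
  have hP0 : ∀ z, 0 ≤ P z := fun z => Finset.sum_nonneg fun i _ => Finset.sum_nonneg fun j _ =>
    Finset.sum_nonneg fun x _ => hPt z i j x
  have hQt : ∀ (z : Fin d → Cube D) (i : Fin d), 0 ≤ (if z i = 0 then (1 : ℝ) else 0) := by
    intro z i
    split_ifs <;> norm_num
  have hQ0 : ∀ z, 0 ≤ Q z := fun z => Finset.sum_nonneg fun i _ => hQt z i
  have hbad : ∀ z : Fin d → Cube D, (¬ Function.Injective z ∨ ∃ i, z i = 0) →
      1 ≤ P z + Q z := by
    intro z hz
    rcases hz with h | ⟨i, hi⟩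
    · rw [Function.Injective] at h
      push Not at h
      obtain ⟨i, j, hzij, hne⟩ := h
      have h1 : (1 : ℝ) ≤ P z := by
        calc (1 : ℝ) = (if i ≠ j then (if z i = z i then (1 : ℝ) else 0) *
              (if z j = z i then 1 else 0) else 0) := by
              simp [hne, hzij]
          _ ≤ ∑ x : Cube D, (if i ≠ j then (if z i = x then (1 : ℝ) else 0) *
              (if z j = x then 1 else 0) else 0) :=
              Finset.single_le_sum (f := fun x : Cube D => (if i ≠ j then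
                (if z i = x then (1 : ℝ) else 0) * (if z j = x then 1 else 0) else 0))
                (fun x _ => hPt z i j x) (Finset.mem_univ (z i))
          _ ≤ ∑ j' : Fin d, ∑ x : Cube D, (if i ≠ j' then (if z i = x then (1 : ℝ) else 0) *
              (if z j' = x then 1 else 0) else 0) :=
              Finset.single_le_sum (f := fun j' : Fin d => ∑ x : Cube D, (if i ≠ j' then
                (if z i = x then (1 : ℝ) else 0) * (if z j' = x then 1 else 0) else 0))
                (fun j' _ => Finset.sum_nonneg fun x _ => hPt z i j' x) (Finset.mem_univ j)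
          _ ≤ P z :=
              Finset.single_le_sum (f := fun i' : Fin d => ∑ j' : Fin d, ∑ x : Cube D,
                (if i' ≠ j' then
                (if z i' = x then (1 : ℝ) else 0) * (if z j' = x then 1 else 0) else 0))
                (fun i' _ => Finset.sum_nonneg fun j' _ => Finset.sum_nonneg fun x _ =>
                  hPt z i' j' x) (Finset.mem_univ i)
      have := hQ0 z
      linarith
    · have h1 : (1 : ℝ) ≤ Q z := by
        calc (1 : ℝ) = (if z i = 0 then (1 : ℝ) else 0) := by simp [hi]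
          _ ≤ Q z := Finset.single_le_sum (f := fun i' : Fin d => (if z i' = 0 then (1 : ℝ) else 0))
                (fun i' _ => hQt z i') (Finset.mem_univ i)
      have := hP0 z
      linarith
  have hsumP : ∑ z : Fin d → Cube D, bwt ν z * P z ≤
      (d : ℝ) ^ 2 * ((1 - ν) ^ 2 + ν ^ 2) ^ D := by
    have e1 : ∑ z : Fin d → Cube D, bwt ν z * P z = ∑ i : Fin d, ∑ j : Fin d, ∑ x : Cube D,
        ∑ z : Fin d → Cube D, bwt ν z *
          (if i ≠ j then (if z i = x then (1 : ℝ) else 0) * (if z j = x then 1 else 0) else 0) := by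
      have e2 : ∀ z : Fin d → Cube D, bwt ν z * P z = ∑ i : Fin d, ∑ j : Fin d, ∑ x : Cube D,
          bwt ν z *
          (if i ≠ j then (if z i = x then (1 : ℝ) else 0) * (if z j = x then 1 else 0) else 0) := by
        intro z
        simp only [hP, Finset.mul_sum]
      rw [Finset.sum_congr rfl fun z _ => e2 z, Finset.sum_comm]
      refine Finset.sum_congr rfl fun i _ => ?_
      rw [Finset.sum_comm]
      refine Finset.sum_congr rfl fun j _ => ?_
      rw [Finset.sum_comm]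
    have e3 : ∀ (i j : Fin d) (x : Cube D), ∑ z : Fin d → Cube D, bwt ν z *
          (if i ≠ j then (if z i = x then (1 : ℝ) else 0) * (if z j = x then 1 else 0) else 0) ≤
          bw ν x ^ 2 := by
      intro i j x
      by_cases hij : i = j
      · simp only [hij, ne_eq, not_true_eq_false, if_false, mul_zero, Finset.sum_const_zero]
        positivity
      · simp only [ne_eq, hij, not_false_eq_true, if_true]
        exact (Z5_two h0 h1 x hij).le
    rw [e1]
    calc ∑ i : Fin d, ∑ j : Fin d, ∑ x : Cube D,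
        ∑ z : Fin d → Cube D, bwt ν z *
          (if i ≠ j then (if z i = x then (1 : ℝ) else 0) * (if z j = x then 1 else 0) else 0)
        ≤ ∑ i : Fin d, ∑ j : Fin d, ∑ x : Cube D, bw ν x ^ 2 :=
          Finset.sum_le_sum fun i _ => Finset.sum_le_sum fun j _ => Finset.sum_le_sum fun x _ =>
            e3 i j x
      _ = (d : ℝ) ^ 2 * ((1 - ν) ^ 2 + ν ^ 2) ^ D := by
          rw [hsq]
          simp only [Finset.sum_const, Finset.card_univ, Fintype.card_fin, nsmul_eq_mul]
          ring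
  have hsumQ : ∑ z : Fin d → Cube D, bwt ν z * Q z = d * (1 - ν) ^ D := by
    have e2 : ∀ z : Fin d → Cube D, bwt ν z * Q z = ∑ i : Fin d,
        bwt ν z * (if z i = 0 then (1 : ℝ) else 0) := by
      intro z
      simp only [hQ, Finset.mul_sum]
    rw [Finset.sum_congr rfl fun z _ => e2 z, Finset.sum_comm,
      Finset.sum_congr rfl fun i _ => Z5_one h0 h1 (0 : Cube D) i]
    rw [hzero]
    simp only [Finset.sum_const, Finset.card_univ, Fintype.card_fin, nsmul_eq_mul]
  calc ∑ z ∈ univ.filter (fun z : Fin d → Cube D => ¬ Function.Injective z ∨ ∃ i, z i = 0), bwt ν z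
      ≤ ∑ z ∈ univ.filter (fun z : Fin d → Cube D => ¬ Function.Injective z ∨ ∃ i, z i = 0),
        bwt ν z * (P z + Q z) := by
        refine Finset.sum_le_sum fun z hz => ?_
        have h := hbad z (Finset.mem_filter.1 hz).2
        have hw := Z5_nonneg h0 h1 z
        nlinarith
    _ ≤ ∑ z : Fin d → Cube D, bwt ν z * (P z + Q z) := by
        refine Finset.sum_le_sum_of_subset_of_nonneg (Finset.filter_subset _ _) fun z _ _ => ?_
        exact mul_nonneg (Z5_nonneg h0 h1 z) (add_nonneg (hP0 z) (hQ0 z))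
    _ = ∑ z : Fin d → Cube D, bwt ν z * P z + ∑ z : Fin d → Cube D, bwt ν z * Q z := by
        rw [← Finset.sum_add_distrib]
        exact Finset.sum_congr rfl fun z _ => by ring
    _ ≤ _ := by
        rw [hsumQ]
        linarith
-- END Z5

-- BEGIN Z6
/-- Numerics: with `d = ⌈32 D / β^2⌉` all error terms tend to `0` as `D → ∞`
(`2^D * 2 exp (-2 D) → 0` because `2 < e^2`; the others are polynomial times exponentially
small, since `(1-ν)^2 + ν^2 < 1`). -/
theorem Z6_num {ν β : ℝ} (h0 : 0 < ν) (h1 : ν < 1 / 2) (hβ : 0 < β) :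
    ∃ D₀ : ℕ, 1 ≤ D₀ ∧ ∀ D ≥ D₀, ∃ d : ℕ, 1 ≤ d ∧
      (2 : ℝ) ^ D * (2 * Real.exp (-(β ^ 2 * d / 16))) + d * Real.exp (-(ν * D / 3)) +
        ((d : ℝ) ^ 2 * ((1 - ν) ^ 2 + ν ^ 2) ^ D + d * (1 - ν) ^ D) < 1 := by
  have hβ2 : 0 < β ^ 2 := by positivity
  obtain ⟨K, hK⟩ : ∃ K : ℝ, K = 32 / β ^ 2 + 1 := ⟨_, rfl⟩
  have hK0 : 0 < K := by rw [hK]; positivity
  have hs1 : |Real.exp (-(ν / 3))| < 1 := by
    rw [abs_of_pos (Real.exp_pos _), Real.exp_lt_one_iff]
    linarith
  have hr0 : 0 ≤ (1 - ν) ^ 2 + ν ^ 2 := by positivity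
  have hr1 : |(1 - ν) ^ 2 + ν ^ 2| < 1 := by
    rw [abs_of_nonneg hr0]
    nlinarith
  have hν1 : |1 - ν| < 1 := by
    rw [abs_of_pos (by linarith)]
    linarith
  have he2 : |2 * Real.exp (-2)| < 1 := by
    rw [abs_of_pos (by positivity), Real.exp_neg]
    have h3 := Real.add_one_lt_exp (show (2 : ℝ) ≠ 0 by norm_num)
    rw [← div_eq_mul_inv, div_lt_one (Real.exp_pos _)]
    linarith
  have T1 := (tendsto_pow_const_mul_const_pow_of_abs_lt_one 0 he2).const_mul 2
  have T2 := (tendsto_pow_const_mul_const_pow_of_abs_lt_one 1 hs1).const_mul K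
  have T3 := (tendsto_pow_const_mul_const_pow_of_abs_lt_one 2 hr1).const_mul (K ^ 2)
  have T4 := (tendsto_pow_const_mul_const_pow_of_abs_lt_one 1 hν1).const_mul K
  have T := (T1.add T2).add (T3.add T4)
  simp only [mul_zero, add_zero] at T
  obtain ⟨D₀, hD₀⟩ := Filter.eventually_atTop.1 (T.eventually_lt_const one_pos)
  refine ⟨max D₀ 1, le_max_right _ _, fun D hD => ⟨⌈32 * (D : ℝ) / β ^ 2⌉₊, ?_, ?_⟩⟩
  · have hD1 : 1 ≤ D := (le_max_right _ _).trans hD
    have hDpos : (0 : ℝ) < D := by exact_mod_cast hD1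
    exact Nat.ceil_pos.2 (by positivity)
  · have hD1 : 1 ≤ D := (le_max_right _ _).trans hD
    have hD1' : (1 : ℝ) ≤ D := by exact_mod_cast hD1
    have hDpos : (0 : ℝ) < D := by linarith
    have h2 := hD₀ D ((le_max_left _ _).trans hD)
    have hd1 := Nat.le_ceil (32 * (D : ℝ) / β ^ 2)
    have hd2 := (Nat.ceil_lt_add_one (show 0 ≤ 32 * (D : ℝ) / β ^ 2 by positivity)).le
    generalize hd : ((⌈32 * (D : ℝ) / β ^ 2⌉₊ : ℕ) : ℝ) = d at hd1 hd2 ⊢
    have hdK : d ≤ K * D := by
      calc d ≤ 32 * (D : ℝ) / β ^ 2 + 1 := hd2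
        _ ≤ 32 * (D : ℝ) / β ^ 2 + D := by linarith
        _ = K * D := by rw [hK]; ring
    have hd0 : 0 ≤ d := le_trans (by positivity) hd1
    have e1 : (2 : ℝ) ^ D * (2 * Real.exp (-(β ^ 2 * d / 16))) ≤
        2 * ((D : ℝ) ^ 0 * (2 * Real.exp (-2)) ^ D) := by
      have h3 : Real.exp (-(β ^ 2 * d / 16)) ≤ Real.exp (-2) ^ D := by
        rw [← Real.exp_nat_mul]
        apply Real.exp_le_exp.2
        have h4 : 32 * (D : ℝ) ≤ β ^ 2 * d := by
          rw [div_le_iff₀ hβ2] at hd1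
          linarith
        linarith
      rw [pow_zero, one_mul, mul_pow]
      have h5 : (0 : ℝ) < 2 ^ D := by positivity
      nlinarith
    have e2 : d * Real.exp (-(ν * D / 3)) ≤ K * ((D : ℝ) ^ 1 * Real.exp (-(ν / 3)) ^ D) := by
      have h3 : Real.exp (-(ν * D / 3)) = Real.exp (-(ν / 3)) ^ D := by
        rw [← Real.exp_nat_mul]
        congr 1
        ring
      rw [h3, pow_one, ← mul_assoc]
      exact mul_le_mul_of_nonneg_right hdK (by positivity)
    have e3 : d ^ 2 * ((1 - ν) ^ 2 + ν ^ 2) ^ D ≤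
        K ^ 2 * ((D : ℝ) ^ 2 * ((1 - ν) ^ 2 + ν ^ 2) ^ D) := by
      rw [← mul_assoc, ← mul_pow K]
      exact mul_le_mul_of_nonneg_right (pow_le_pow_left₀ hd0 hdK 2) (by positivity)
    have e4 : d * (1 - ν) ^ D ≤ K * ((D : ℝ) ^ 1 * (1 - ν) ^ D) := by
      rw [pow_one, ← mul_assoc]
      have h3 : 0 ≤ 1 - ν := by linarith
      exact mul_le_mul_of_nonneg_right hdK (by positivity)
    linarith
-- END Z6

-- BEGIN Z7
theorem Z7_nonneg {D d : ℕ} {ν : ℝ} (h0 : 0 ≤ ν) (h1 : ν ≤ 1) (z : Fin d → Cube D) :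
    0 ≤ bwt ν z :=
  Finset.prod_nonneg fun i _ => (Z1_sums (D := D) h0 h1).1 (z i)

theorem Z7_total {D d : ℕ} {ν : ℝ} (h0 : 0 ≤ ν) (h1 : ν ≤ 1) :
    ∑ z : Fin d → Cube D, bwt ν z = 1 := by
  have h : (∑ z : Cube D, bw ν z) ^ d = ∑ z : Fin d → Cube D, bwt ν z := by
    rw [Fintype.sum_pow]
    rfl
  rw [← h, (Z1_sums (D := D) h0 h1).2.1, one_pow]

/-- A good tuple. -/
theorem Z7_tuple {D d : ℕ} {ν β : ℝ} (h0 : 0 ≤ ν) (h1 : ν ≤ 1) (hβ0 : 0 ≤ β) (hβ : β ≤ 4)
    (hlt : (2 : ℝ) ^ D * (2 * Real.exp (-(β ^ 2 * d / 16))) + d * Real.exp (-(ν * D / 3)) +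
        ((d : ℝ) ^ 2 * ((1 - ν) ^ 2 + ν ^ 2) ^ D + d * (1 - ν) ^ D) < 1) :
    ∃ z : Fin d → Cube D, Function.Injective z ∧ (∀ i, z i ≠ 0) ∧
      (∀ i, (wt (z i) : ℝ) ≤ 2 * ν * D) ∧
      ∀ a : Cube D, |∑ i, (ch a (z i) - (1 - 2 * ν) ^ wt a)| ≤ β * d := by
  by_contra hcon
  push Not at hcon
  set A : Cube D → Finset (Fin d → Cube D) := fun a => univ.filter (fun z : Fin d → Cube D =>
        β * d < |∑ i, (ch a (z i) - (1 - 2 * ν) ^ wt a)|) with hA
  set B : Finset (Fin d → Cube D) :=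
    univ.filter (fun z : Fin d → Cube D => ∃ i, 2 * ν * D < (wt (z i) : ℝ)) with hB
  set C : Finset (Fin d → Cube D) :=
    univ.filter (fun z : Fin d → Cube D => ¬ Function.Injective z ∨ ∃ i, z i = 0) with hC
  have hcov : (univ : Finset (Fin d → Cube D)) ⊆ (univ.biUnion A) ∪ (B ∪ C) := by
    intro z _
    by_cases hz1 : Function.Injective z
    · by_cases hz2 : ∃ i, z i = 0
      · exact Finset.mem_union_right _ (Finset.mem_union_right _
          (Finset.mem_filter.2 ⟨Finset.mem_univ _, Or.inr hz2⟩))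
      · by_cases hz3 : ∃ i, 2 * ν * D < (wt (z i) : ℝ)
        · exact Finset.mem_union_right _ (Finset.mem_union_left _
            (Finset.mem_filter.2 ⟨Finset.mem_univ _, hz3⟩))
        · push Not at hz2 hz3
          obtain ⟨a, ha⟩ := hcon z hz1 hz2 hz3
          exact Finset.mem_union_left _ (Finset.mem_biUnion.2 ⟨a, Finset.mem_univ _,
            Finset.mem_filter.2 ⟨Finset.mem_univ _, ha⟩⟩)
    · exact Finset.mem_union_right _ (Finset.mem_union_right _
          (Finset.mem_filter.2 ⟨Finset.mem_univ _, Or.inl hz1⟩))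
  have hnn : ∀ z : Fin d → Cube D, 0 ≤ bwt ν z := fun z => Z7_nonneg h0 h1 z
  have hun : ∀ (S T : Finset (Fin d → Cube D)), ∑ z ∈ S ∪ T, bwt ν z ≤
      ∑ z ∈ S, bwt ν z + ∑ z ∈ T, bwt ν z := by
    intro S T
    rw [← Finset.sum_union_inter]
    have : 0 ≤ ∑ z ∈ S ∩ T, bwt ν z := Finset.sum_nonneg fun z _ => hnn z
    linarith
  have hbi : ∀ s : Finset (Cube D), ∑ z ∈ s.biUnion A, bwt ν z ≤
      ∑ a ∈ s, ∑ z ∈ A a, bwt ν z := by
    intro s
    induction s using Finset.induction_on with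
    | empty => simp
    | insert a s ha ih =>
      rw [Finset.biUnion_insert, Finset.sum_insert ha]
      exact (hun _ _).trans (by linarith)
  have hAb : ∑ z ∈ (univ.biUnion A), bwt ν z ≤
      (2 : ℝ) ^ D * (2 * Real.exp (-(β ^ 2 * d / 16))) := by
    refine (hbi univ).trans ?_
    calc ∑ a : Cube D, ∑ z ∈ A a, bwt ν z
        ≤ ∑ a : Cube D, 2 * Real.exp (-(β ^ 2 * d / 16)) :=
          Finset.sum_le_sum fun a _ => Z3_chernoff h0 h1 hβ0 hβ a
      _ = (2 : ℝ) ^ D * (2 * Real.exp (-(β ^ 2 * d / 16))) := by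
          rw [Finset.sum_const, nsmul_eq_mul, Finset.card_univ]
          congr 1
          rw [Fintype.card_fun, ZMod.card, Fintype.card_fin]
          push_cast
          rfl
  have hBb := Z4_weight (D := D) (d := d) h0 h1
  have hCb := Z5_collision (D := D) (d := d) h0 h1
  have htot := Z7_total (D := D) (d := d) h0 h1
  have hfin : (1 : ℝ) ≤ ∑ z ∈ (univ.biUnion A) ∪ (B ∪ C), bwt ν z := by
    rw [← htot]
    exact Finset.sum_le_sum_of_subset_of_nonneg hcov fun z _ _ => hnn z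
  have h2 := hun (univ.biUnion A) (B ∪ C)
  have h3 := hun B C
  linarith

/-- Good generators exist: total mass of the tuples is `1` (`∏ (∑ bw)`), the bad tuples have mass
`< 1` by `Z3`-`Z6` and a union bound over the `2^D` characters `a`; take a good tuple `z` and
`Z = image z univ`, which has `d` elements. (For `β > 4` the condition on the characters is
trivial, or use `min β 4`.) -/
theorem Z7_exists {ν β : ℝ} (h0 : 0 < ν) (h1 : ν < 1 / 2) (hβ : 0 < β) :
    ∃ D₀ : ℕ, ∀ D ≥ D₀, ∃ Z : Finset (Cube D), (0 : Cube D) ∉ Z ∧ Z.Nonempty ∧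
      (∀ z ∈ Z, (wt z : ℝ) ≤ 2 * ν * D) ∧
      ∀ a : Cube D, |∑ z ∈ Z, ch a z - Z.card * (1 - 2 * ν) ^ wt a| ≤ β * Z.card := by
  have hβ' : 0 < min β 4 := lt_min hβ (by norm_num)
  obtain ⟨D₀, -, hD⟩ := Z6_num h0 h1 hβ'
  refine ⟨D₀, fun D hDD => ?_⟩
  obtain ⟨d, hd, hlt⟩ := hD D hDD
  obtain ⟨z, hinj, hz0, hzw, hza⟩ := Z7_tuple (D := D) (d := d) h0.le (by linarith) hβ'.le
    (min_le_right _ _) hlt
  have hcard : (univ.image z).card = d := by
    rw [Finset.card_image_of_injective _ hinj, Finset.card_univ, Fintype.card_fin]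
  refine ⟨univ.image z, ?_, ?_, ?_, ?_⟩
  · intro h
    obtain ⟨i, -, hi⟩ := Finset.mem_image.1 h
    exact hz0 i hi
  · exact ⟨z ⟨0, hd⟩, Finset.mem_image_of_mem _ (Finset.mem_univ _)⟩
  · intro x hx
    obtain ⟨i, -, rfl⟩ := Finset.mem_image.1 hx
    exact hzw i
  · intro a
    rw [hcard, Finset.sum_image (fun i _ j _ h => hinj h)]
    have h := hza a
    rw [Finset.sum_sub_distrib, Finset.sum_const, Finset.card_univ, Fintype.card_fin,
      nsmul_eq_mul] at h
    refine h.trans ?_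
    exact mul_le_mul_of_nonneg_right (min_le_left _ _) (Nat.cast_nonneg d)
-- END Z7

end Pool.Agent.Lib.MP_8d8c46_lc.SDP
end

section

set_option autoImplicit false

open Finset
open scoped Classical

namespace Pool.Agent.Lib.MP_8d8c46_lc.SDP

-- BEGIN L1
/-- `Phi m 0 ≥ (2/3) / √(m+1)`: for `0 ≤ x ≤ 1/√(m+1)` Bernoulli gives
`(1 - x^2)^m ≥ 1 - m x^2`, and the integrand is nonnegative on `[0, 1]`;
`∫_0^a (1 - m x^2) = a - m a^3 / 3` with `a = 1/√(m+1)`, `m a^2 ≤ 1`. -/
theorem L1_phi_zero (m : ℕ) : (2 / 3) / Real.sqrt (m + 1) ≤ Phi m 0 := by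
  have hm : (0 : ℝ) ≤ m := Nat.cast_nonneg m
  obtain ⟨a, ha⟩ : ∃ a : ℝ, a = 1 / Real.sqrt (m + 1) := ⟨_, rfl⟩
  have hs1 : 1 ≤ Real.sqrt (m + 1) := by
    rw [Real.one_le_sqrt]
    linarith
  have ha0 : 0 < a := by rw [ha]; positivity
  have ha1 : a ≤ 1 := by
    rw [ha, div_le_one (by linarith)]
    exact hs1
  have hma : (m : ℝ) * a ^ 2 ≤ 1 := by
    rw [ha, div_pow, Real.sq_sqrt (by linarith), one_pow, mul_one_div, div_le_one (by linarith)]
    linarith
  have hcont : Continuous fun x : ℝ => (1 - x ^ 2) ^ m := by fun_prop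
  have hsplit : Phi m 0 = (∫ x in (0 : ℝ)..a, (1 - x ^ 2) ^ m) +
      ∫ x in a..1, (1 - x ^ 2) ^ m := by
    rw [Phi, intervalIntegral.integral_add_adjacent_intervals (hcont.intervalIntegrable _ _)
      (hcont.intervalIntegrable _ _)]
  have h1 : 0 ≤ ∫ x in a..1, (1 - x ^ 2) ^ m := by
    apply intervalIntegral.integral_nonneg ha1
    intro x hx
    have hx0 : 0 ≤ x := ha0.le.trans hx.1
    apply pow_nonneg
    nlinarith [hx.2]
  have h2 : (∫ x in (0 : ℝ)..a, (1 - (m : ℝ) * x ^ 2)) ≤ ∫ x in (0 : ℝ)..a, (1 - x ^ 2) ^ m := by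
    apply intervalIntegral.integral_mono_on ha0.le
    · exact (by fun_prop : Continuous fun x : ℝ => 1 - (m : ℝ) * x ^ 2).intervalIntegrable _ _
    · exact hcont.intervalIntegrable _ _
    · intro x hx
      have h3 : (-2 : ℝ) ≤ -x ^ 2 := by nlinarith [hx.1, hx.2]
      have h4 := one_add_mul_le_pow h3 m
      calc 1 - (m : ℝ) * x ^ 2 = 1 + (m : ℝ) * (-x ^ 2) := by ring
        _ ≤ (1 + -x ^ 2) ^ m := h4
        _ = (1 - x ^ 2) ^ m := by ring
  have h3 : (∫ x in (0 : ℝ)..a, (1 - (m : ℝ) * x ^ 2)) = a - m * a ^ 3 / 3 := by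
    rw [intervalIntegral.integral_sub (by simp)
      ((by fun_prop : Continuous fun x : ℝ => (m : ℝ) * x ^ 2).intervalIntegrable _ _),
      intervalIntegral.integral_const_mul, integral_pow]
    simp
    ring
  have h4 : (2 / 3) / Real.sqrt (m + 1) = 2 / 3 * a := by rw [ha]; ring
  rw [h4, hsplit]
  have h5 : (m : ℝ) * a ^ 3 ≤ a := by nlinarith
  linarith
-- END L1

-- BEGIN L2
/-- `lensP m 1 = 1` and for `0 ≤ y ≤ 1`: `1 - lensP m y = (∫_0^{√(1-y)} (1 - x^2)^m) / Phi m 0
≤ √(1-y) / Phi m 0`. Also `0 ≤ lensP m y`. -/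
theorem L2_close (m : ℕ) : lensP m 1 = 1 ∧ ∀ y : ℝ, 0 ≤ y → y ≤ 1 →
    0 ≤ lensP m y ∧ 1 - lensP m y ≤ 3 / 2 * Real.sqrt ((m + 1) * (1 - y)) := by
  have hm : (0 : ℝ) ≤ m := Nat.cast_nonneg m
  have hs1 : 0 < Real.sqrt (m + 1) := Real.sqrt_pos.mpr (by linarith)
  have hP : 0 < Phi m 0 := lt_of_lt_of_le (by positivity) (L1_phi_zero m)
  refine ⟨?_, ?_⟩
  · rw [lensP, sub_self, Real.sqrt_zero, div_self hP.ne']
  intro y h0 h1
  have hcont : Continuous fun x : ℝ => (1 - x ^ 2) ^ m := by fun_prop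
  obtain ⟨s, hs⟩ : ∃ s : ℝ, s = Real.sqrt (1 - y) := ⟨_, rfl⟩
  have hs0 : 0 ≤ s := by rw [hs]; exact Real.sqrt_nonneg _
  have hsle : s ≤ 1 := by
    rw [hs, Real.sqrt_le_left zero_le_one]
    linarith
  have hsplit : Phi m 0 = (∫ x in (0 : ℝ)..s, (1 - x ^ 2) ^ m) + Phi m s := by
    rw [Phi, Phi, intervalIntegral.integral_add_adjacent_intervals (hcont.intervalIntegrable _ _)
      (hcont.intervalIntegrable _ _)]
  constructor
  · rw [lensP, ← hs]
    apply div_nonneg _ hP.le
    rw [Phi]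
    apply intervalIntegral.integral_nonneg hsle
    intro x hx
    have hx0 : 0 ≤ x := hs0.trans hx.1
    apply pow_nonneg
    nlinarith [hx.2]
  · have h2 : (∫ x in (0 : ℝ)..s, (1 - x ^ 2) ^ m) ≤ s := by
      have h3 : (∫ x in (0 : ℝ)..s, (1 - x ^ 2) ^ m) ≤ ∫ x in (0 : ℝ)..s, (1 : ℝ) := by
        apply intervalIntegral.integral_mono_on hs0 (hcont.intervalIntegrable _ _)
          (by simp)
        intro x hx
        apply pow_le_one₀
        · nlinarith [hx.1, hx.2]
        · nlinarith [hx.1, hx.2]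
      simpa using h3
    have h3 : 1 - lensP m y = (∫ x in (0 : ℝ)..s, (1 - x ^ 2) ^ m) / Phi m 0 := by
      rw [lensP, ← hs, eq_div_iff hP.ne', sub_mul, div_mul_cancel₀ _ hP.ne']
      linarith
    rw [h3, Real.sqrt_mul (by linarith), ← hs, div_le_iff₀ hP]
    have h4 := L1_phi_zero m
    rw [div_le_iff₀ hs1] at h4
    nlinarith
-- END L2

-- BEGIN L3
theorem L3_coeff (n : ℕ) :
    Ring.choose ((1 / 2 : ℝ) + n - 1) n = (Nat.centralBinom n : ℝ) / 4 ^ n := by
  rw [← Ring.multichoose_eq]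
  have h := Ring.factorial_nsmul_multichoose_eq_ascPochhammer (1 / 2 : ℝ) n
  rw [Polynomial.ascPochhammer_smeval_eq_eval, nsmul_eq_mul] at h
  have h2 : (ascPochhammer ℝ n).eval (1 / 2) =
      (n.factorial : ℝ) * ((Nat.centralBinom n : ℝ) / 4 ^ n) := by
    clear h
    induction n with
    | zero => simp
    | succ n ih =>
      rw [ascPochhammer_succ_eval, ih]
      have h3 : ((n : ℝ) + 1) * (Nat.centralBinom (n + 1) : ℝ) =
          2 * (2 * n + 1) * Nat.centralBinom n := by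
        exact_mod_cast Nat.succ_mul_centralBinom_succ n
      rw [Nat.factorial_succ, pow_succ]
      push_cast
      have h4 : ((n : ℝ) + 1) * (n.factorial : ℝ) * ((Nat.centralBinom (n + 1) : ℝ) / (4 ^ n * 4)) =
          (n.factorial : ℝ) * (((n : ℝ) + 1) * (Nat.centralBinom (n + 1) : ℝ)) / (4 ^ n * 4) := by
        ring
      rw [h4, h3]
      field_simp
      ring
  rw [h2] at h
  exact mul_left_cancel₀ (by exact_mod_cast n.factorial_ne_zero) h

/-- The binomial series of `(1 - w)^(-1/2)` (Mathlib: `Mathlib/Analysis/Analytic/Binomial.lean`, or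
by the differential equation `2 (1 - w) s' = s` for the sum `s` of the series). -/
theorem L3_binom : ∀ w : ℝ, 0 ≤ w → w < 1 →
    HasSum (fun i : ℕ => (Nat.centralBinom i : ℝ) / 4 ^ i * w ^ i) (1 / Real.sqrt (1 - w)) := by
  intro w h0 h1
  have h := Real.one_div_one_sub_rpow_hasFPowerSeriesOnBall_zero (1 / 2)
  have hw : w ∈ Metric.eball (0 : ℝ) 1 := by
    rw [Metric.mem_eball, edist_zero_right, enorm_eq_nnnorm]
    rw [← ENNReal.coe_one, ENNReal.coe_lt_coe, ← NNReal.coe_lt_coe, coe_nnnorm,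
      Real.norm_eq_abs, abs_of_nonneg h0]
    exact_mod_cast h1
  have h2 := h.hasSum hw
  simp only [zero_add, FormalMultilinearSeries.ofScalars_apply_eq, L3_coeff, smul_eq_mul] at h2
  rw [← Real.sqrt_eq_rpow] at h2
  exact h2
-- END L3

-- BEGIN L4
/-- Substitution `x = √(1 - w)`: for `0 ≤ y < 1`,
`Phi m (√(1-y)) = (1/2) ∫_0^y w^m (1 - w)^(-1/2) dw`. (Both sides vanish at `0` and have the
same derivative `(1/2) y^m (1-y)^(-1/2)` on `(0, 1)`; for `y = 0`: `Phi m 1 = 0`.) -/
theorem L4_subst (m : ℕ) {y : ℝ} (h0 : 0 ≤ y) (h1 : y < 1) :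
    Phi m (Real.sqrt (1 - y)) = (1 / 2) * ∫ w in (0 : ℝ)..y, w ^ m * (1 / Real.sqrt (1 - w)) := by
  have hcont : Continuous fun x : ℝ => (1 - x ^ 2) ^ m := by fun_prop
  have hder : ∀ t ∈ Set.uIcc 0 y, HasDerivAt (fun t => Phi m (Real.sqrt (1 - t)))
      ((1 / 2) * (t ^ m * (1 / Real.sqrt (1 - t)))) t := by
    intro t ht
    rw [Set.uIcc_of_le h0] at ht
    have ht1 : 0 < 1 - t := by linarith [ht.2]
    have hd1 : HasDerivAt (fun u => Phi m u) (-((1 - (Real.sqrt (1 - t)) ^ 2) ^ m))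
        (Real.sqrt (1 - t)) := by
      unfold Phi
      exact intervalIntegral.integral_hasDerivAt_left (hcont.intervalIntegrable _ _)
        hcont.aestronglyMeasurable.stronglyMeasurableAtFilter hcont.continuousAt
    have hd2 : HasDerivAt (fun t : ℝ => Real.sqrt (1 - t)) ((-1) / (2 * Real.sqrt (1 - t))) t := by
      have h3 : HasDerivAt (fun t : ℝ => 1 - t) (-1) t := by
        simpa using (hasDerivAt_id t).const_sub 1
      exact h3.sqrt ht1.ne'
    have h4 := hd1.comp t hd2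
    have hs : 0 < Real.sqrt (1 - t) := Real.sqrt_pos.mpr ht1
    have h5 : (1 / 2) * (t ^ m * (1 / Real.sqrt (1 - t))) =
        -(1 - Real.sqrt (1 - t) ^ 2) ^ m * (-1 / (2 * Real.sqrt (1 - t))) := by
      rw [Real.sq_sqrt ht1.le]
      field_simp
      ring
    rw [h5]
    exact h4
  have hint : IntervalIntegrable (fun t : ℝ => (1 / 2) * (t ^ m * (1 / Real.sqrt (1 - t))))
      MeasureTheory.volume 0 y := by
    apply ContinuousOn.intervalIntegrable
    intro t ht
    rw [Set.uIcc_of_le h0] at ht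
    have ht1 : 0 < 1 - t := by linarith [ht.2]
    have hs : Real.sqrt (1 - t) ≠ 0 := (Real.sqrt_pos.mpr ht1).ne'
    apply ContinuousAt.continuousWithinAt
    fun_prop (disch := assumption)
  have h := intervalIntegral.integral_eq_sub_of_hasDerivAt hder hint
  rw [← intervalIntegral.integral_const_mul, h]
  simp [Phi]
-- END L4

-- BEGIN L5
theorem L5_lt (m : ℕ) {y : ℝ} (h0 : 0 ≤ y) (h1 : y < 1) :
    HasSum (fun i : ℕ => (Nat.centralBinom i : ℝ) / 4 ^ i / (2 * ((i : ℝ) + (m + 1))) *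
      y ^ (i + (m + 1))) (Phi m (Real.sqrt (1 - y))) := by
  obtain ⟨c, hc⟩ : ∃ c : ℕ → ℝ, c = fun i => (Nat.centralBinom i : ℝ) / 4 ^ i := ⟨_, rfl⟩
  have hc0 : ∀ i, 0 ≤ c i := by intro i; rw [hc]; positivity
  have hL3 : ∀ w : ℝ, 0 ≤ w → w < 1 → HasSum (fun i : ℕ => c i * w ^ i)
      (1 / Real.sqrt (1 - w)) := by rw [hc]; exact L3_binom
  have hs := (hL3 y h0 h1).summable
  have h := intervalIntegral.hasSum_integral_of_dominated_convergence (μ := MeasureTheory.volume)
    (a := 0) (b := y) (F := fun (n : ℕ) (t : ℝ) => t ^ m * (c n * t ^ n))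
    (f := fun t => t ^ m * (1 / Real.sqrt (1 - t))) (fun n _ => c n * y ^ n)
    (fun n => (by fun_prop : Continuous fun t : ℝ => t ^ m * (c n * t ^ n)).aestronglyMeasurable)
    (fun n => Filter.Eventually.of_forall fun t ht => by
      rw [Set.uIoc_of_le h0] at ht
      have ht0 : 0 ≤ t := ht.1.le
      have ht1 : t ≤ 1 := ht.2.trans h1.le
      rw [Real.norm_eq_abs, abs_of_nonneg (mul_nonneg (pow_nonneg ht0 _)
        (mul_nonneg (hc0 n) (pow_nonneg ht0 _)))]
      calc t ^ m * (c n * t ^ n) ≤ 1 * (c n * t ^ n) :=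
            mul_le_mul_of_nonneg_right (pow_le_one₀ ht0 ht1)
              (mul_nonneg (hc0 n) (pow_nonneg ht0 _))
        _ = c n * t ^ n := one_mul _
        _ ≤ c n * y ^ n := mul_le_mul_of_nonneg_left (pow_le_pow_left₀ ht0 ht.2 n) (hc0 n))
    (Filter.Eventually.of_forall fun t _ => hs)
    (by simp)
    (Filter.Eventually.of_forall fun t ht => by
      rw [Set.uIoc_of_le h0] at ht
      exact (hL3 t ht.1.le (ht.2.trans_lt h1)).mul_left _)
  have h2 := h.mul_left (1 / 2)
  rw [← L4_subst m h0 h1] at h2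
  have h3 : (fun i : ℕ => (1 / 2 : ℝ) * ∫ t in (0 : ℝ)..y, t ^ m * (c i * t ^ i)) =
      fun i : ℕ => (Nat.centralBinom i : ℝ) / 4 ^ i / (2 * ((i : ℝ) + (m + 1))) *
        y ^ (i + (m + 1)) := by
    funext i
    have h4 : (fun t : ℝ => t ^ m * (c i * t ^ i)) = fun t => c i * t ^ (i + m) := by
      funext t
      rw [pow_add]
      ring
    rw [h4, intervalIntegral.integral_const_mul, integral_pow, hc]
    have h5 : (0 : ℝ) < (i : ℝ) + (m + 1) := by positivity
    simp only [ne_eq, Nat.add_eq_zero_iff, one_ne_zero, and_false, not_false_eq_true, zero_pow,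
      sub_zero]
    rw [add_assoc i m 1]
    push_cast
    field_simp
    ring
  rw [h3] at h2
  exact h2

/-- The Taylor coefficients of `lensP m` are nonnegative and the series converges on `[0, 1]`.
By `L3_binom` and `L4_subst`, integrating term by term,
`Phi m (√(1-y)) = ∑ i, (centralBinom i / 4^i) * y^(m+1+i) / (2 (m+1+i))` for `0 ≤ y < 1`.
At `y = 1`: the partial sums at `1` are limits of the partial sums at `y < 1`, which are at most
`Phi m (√(1-y)) ≤ Phi m 0`; so the series converges at `1`, and its sum is the limit of the sums at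
`y → 1` (monotone), i.e. `Phi m 0` by continuity. Put `b i = 0` for `i ≤ m` and
`b (m+1+i) = (centralBinom i / 4^i) / (2 (m+1+i)) / Phi m 0`. -/
theorem L5_series (m : ℕ) : ∃ b : ℕ → ℝ, (∀ i, 0 ≤ b i) ∧ b 0 = 0 ∧
    ∀ y : ℝ, 0 ≤ y → y ≤ 1 → HasSum (fun i => b i * y ^ i) (lensP m y) := by
  have hm : (0 : ℝ) ≤ m := Nat.cast_nonneg m
  have hs1 : 0 < Real.sqrt (m + 1) := Real.sqrt_pos.mpr (by linarith)
  have hP : 0 < Phi m 0 := lt_of_lt_of_le (by positivity) (L1_phi_zero m)
  obtain ⟨b, hb⟩ : ∃ b : ℕ → ℝ, b = fun n => if n < m + 1 then 0 else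
      (Nat.centralBinom (n - (m + 1)) : ℝ) / 4 ^ (n - (m + 1)) / (2 * n) / Phi m 0 := ⟨_, rfl⟩
  have hb0 : ∀ i, 0 ≤ b i := by
    intro i
    rw [hb]
    simp only
    split_ifs
    · exact le_rfl
    · positivity
  have hlt : ∀ y : ℝ, 0 ≤ y → y < 1 → HasSum (fun i => b i * y ^ i) (lensP m y) := by
    intro y h0 h1
    have h := (L5_lt m h0 h1).div_const (Phi m 0)
    have h2 : (fun i : ℕ => (Nat.centralBinom i : ℝ) / 4 ^ i / (2 * ((i : ℝ) + (m + 1))) *
        y ^ (i + (m + 1)) / Phi m 0) = fun i => b (i + (m + 1)) * y ^ (i + (m + 1)) := by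
      funext i
      rw [hb]
      simp only [add_tsub_cancel_right]
      rw [if_neg (by omega)]
      push_cast
      ring
    rw [h2] at h
    have h3 := (hasSum_nat_add_iff (f := fun i => b i * y ^ i) (m + 1)).mp h
    have h4 : ∑ i ∈ Finset.range (m + 1), b i * y ^ i = 0 := by
      apply Finset.sum_eq_zero
      intro i hi
      have h5 : b i = 0 := by
        rw [hb]
        simp only
        rw [if_pos (Finset.mem_range.mp hi)]
      rw [h5, zero_mul]
    rw [h4, add_zero] at h3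
    exact h3
  have hle1 : ∀ y : ℝ, 0 ≤ y → y ≤ 1 → lensP m y ≤ 1 := by
    intro y h0 h1
    have hcont : Continuous fun x : ℝ => (1 - x ^ 2) ^ m := by fun_prop
    have hs0 : 0 ≤ Real.sqrt (1 - y) := Real.sqrt_nonneg _
    have hsle : Real.sqrt (1 - y) ≤ 1 := by
      rw [Real.sqrt_le_left zero_le_one]
      linarith
    have hsplit : Phi m 0 = (∫ x in (0 : ℝ)..(Real.sqrt (1 - y)), (1 - x ^ 2) ^ m) +
        Phi m (Real.sqrt (1 - y)) := by
      rw [Phi, Phi, intervalIntegral.integral_add_adjacent_intervals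
        (hcont.intervalIntegrable _ _) (hcont.intervalIntegrable _ _)]
    have h2 : 0 ≤ ∫ x in (0 : ℝ)..(Real.sqrt (1 - y)), (1 - x ^ 2) ^ m := by
      apply intervalIntegral.integral_nonneg hs0
      intro x hx
      apply pow_nonneg
      nlinarith [hx.1, hx.2]
    rw [lensP, div_le_one hP]
    linarith
  have hne : (nhdsWithin (1 : ℝ) (Set.Iio 1)).NeBot := inferInstance
  have hev : ∀ᶠ y in nhdsWithin (1 : ℝ) (Set.Iio 1), 0 ≤ y ∧ y < 1 := by
    have h1 : ∀ᶠ y in nhdsWithin (1 : ℝ) (Set.Iio 1), y ∈ Set.Iio (1 : ℝ) :=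
      eventually_mem_nhdsWithin
    have h2 : ∀ᶠ y in nhdsWithin (1 : ℝ) (Set.Iio 1), (0 : ℝ) < y :=
      (eventually_gt_nhds one_pos).filter_mono nhdsWithin_le_nhds
    filter_upwards [h1, h2] with y h3 h4
    exact ⟨h4.le, h3⟩
  have hfin : ∀ s : Finset ℕ, ∑ i ∈ s, b i ≤ 1 := by
    intro s
    have ht : Filter.Tendsto (fun y : ℝ => ∑ i ∈ s, b i * y ^ i)
        (nhdsWithin (1 : ℝ) (Set.Iio 1)) (nhds (∑ i ∈ s, b i * 1 ^ i)) :=
      ((by fun_prop : Continuous fun y : ℝ => ∑ i ∈ s, b i * y ^ i).tendsto 1).mono_left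
        nhdsWithin_le_nhds
    have h2 : ∑ i ∈ s, b i * (1 : ℝ) ^ i ≤ 1 := by
      refine le_of_tendsto ht ?_
      filter_upwards [hev] with y hy
      exact (sum_le_hasSum s (fun i _ => mul_nonneg (hb0 i) (pow_nonneg hy.1 i))
        (hlt y hy.1 hy.2)).trans (hle1 y hy.1 hy.2.le)
    simpa using h2
  have hsum : Summable b := summable_of_sum_le hb0 hfin
  have hT1 : ∑' i, b i ≤ 1 := hsum.tsum_le_of_sum_le hfin
  have hT2 : 1 ≤ ∑' i, b i := by
    have ht : Filter.Tendsto (fun y : ℝ => 1 - 3 / 2 * Real.sqrt ((m + 1) * (1 - y)))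
        (nhdsWithin (1 : ℝ) (Set.Iio 1))
        (nhds (1 - 3 / 2 * Real.sqrt ((m + 1) * (1 - (1 : ℝ))))) :=
      ((by fun_prop : Continuous fun y : ℝ =>
        1 - 3 / 2 * Real.sqrt ((m + 1) * (1 - y))).tendsto 1).mono_left nhdsWithin_le_nhds
    rw [sub_self, mul_zero, Real.sqrt_zero, mul_zero, sub_zero] at ht
    refine le_of_tendsto ht ?_
    filter_upwards [hev] with y hy
    have h2 := ((L2_close m).2 y hy.1 hy.2.le).2
    have h3 : lensP m y ≤ ∑' i, b i := by
      refine hasSum_le (fun i => ?_) (hlt y hy.1 hy.2) hsum.hasSum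
      exact mul_le_of_le_one_right (hb0 i) (pow_le_one₀ hy.1 hy.2.le)
    linarith
  refine ⟨b, hb0, ?_, ?_⟩
  · rw [hb]
    simp
  · intro y h0 h1
    rcases lt_or_eq_of_le h1 with h2 | h2
    · exact hlt y h0 h2
    · rw [h2, (L2_close m).1]
      simp only [one_pow, mul_one]
      have h3 := hsum.hasSum
      rwa [le_antisymm hT1 hT2] at h3
-- END L5

-- BEGIN L6
theorem L6_le (m : ℕ) {y : ℝ} (h0 : 0 ≤ y) (h1 : y ≤ 1) : lensP m y ≤ y := by
  obtain ⟨b, hb, hb0, hbs⟩ := L5_series m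
  have hone := hbs 1 zero_le_one le_rfl
  rw [(L2_close m).1] at hone
  have h2 := (hone.mul_left y)
  rw [mul_one] at h2
  refine hasSum_le (fun i => ?_) (hbs y h0 h1) h2
  rcases Nat.eq_zero_or_pos i with rfl | hi
  · simp [hb0]
  · rw [one_pow, mul_one, mul_comm y]
    refine mul_le_mul_of_nonneg_left ?_ (hb i)
    calc y ^ i ≤ y ^ 1 := pow_le_pow_of_le_one h0 h1 hi
      _ = y := pow_one y
-- END L6

end Pool.Agent.Lib.MP_8d8c46_lc.SDP
end
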