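import Pool.Agent.Lib.MP_8d8c46_lc.Mg.G001
import Pool.Agent.Lib.MP_8d8c46_lc.Mg.G023

section

set_option autoImplicit false

open Finset
open scoped Classical

namespace Pool.Agent.Lib.MP_8d8c46_lc.SDP

-- BEGIN A1
/-- Raising the level by one. Put `n = |V|`, and for `|T| = j`
`f T = (δ n - j) X T - ∑ v ∉ T, X0 (insert v T)`. Then
`|f T| ≤ |δ n - j| |X T - X0 T| + ∑ v ∉ T, |δ X0 T - X0 (insert v T)| + j (1 - δ) |X0 T|
≤ n E + ρ n + j =: M` (use `(δ n - j) X0 T = ∑ v ∉ T, δ X0 T - (1 - δ) j X0 T`). Take `Y` from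
`J1_raise` and `X' T = X T` for `|T| ≤ j`, `X' T = X0 T + Y T` for `|T| = j + 1` (anything, say
`X0 T`, for larger `T`). For `|T| = j`: `∑ v, X' (insert v T) = j X T + ∑ v ∉ T, (X0 + Y)(insert v T)
= δ n X T`. Bound: `n - j ≥ n / 2`, so `|Y| ≤ 2^(j+1) (nE + ρ n + j) / (n - j)
≤ 2^(j+2) (E + ρ + j / n)`. -/
theorem A1_step {V : Type*} [Fintype V] [DecidableEq V] {k j : ℕ} (hj : j + 1 ≤ k)
    (hn : 2 * k + 1 ≤ Fintype.card V) {δ E ρ : ℝ} (hδ0 : 0 ≤ δ) (hδ1 : δ ≤ 1) (hE : 0 ≤ E)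
    (hρ : 0 ≤ ρ) (X0 X : Finset V → ℝ) (hX0 : ∀ T : Finset V, T.card ≤ k → |X0 T| ≤ 1)
    (hfar : ∀ T : Finset V, T.card + 1 ≤ k →
      ∑ v ∈ univ \ T, |δ * X0 T - X0 (insert v T)| ≤ ρ * Fintype.card V)
    (hclose : ∀ T : Finset V, T.card ≤ j → |X T - X0 T| ≤ E)
    (hsize : ∀ T : Finset V, T.card + 1 ≤ j →
      ∑ v, X (insert v T) = δ * Fintype.card V * X T) :
    ∃ X' : Finset V → ℝ, (∀ T : Finset V, T.card ≤ j → X' T = X T) ∧
      (∀ T : Finset V, T.card + 1 ≤ j + 1 →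
        ∑ v, X' (insert v T) = δ * Fintype.card V * X' T) ∧
      ∀ T : Finset V, T.card ≤ j + 1 →
        |X' T - X0 T| ≤ 2 ^ (k + 2) * (E + ρ + k / Fintype.card V) := by
  have hn2 : (2 * k + 1 : ℝ) ≤ (Fintype.card V : ℝ) := by exact_mod_cast hn
  have hjk : (j : ℝ) + 1 ≤ k := by exact_mod_cast hj
  have hj0 : (0 : ℝ) ≤ j := Nat.cast_nonneg j
  have hnpos : (0 : ℝ) < (Fintype.card V : ℝ) := by linarith
  set n : ℝ := (Fintype.card V : ℝ) with hndef
  let f : Finset V → ℝ := fun T => (δ * n - j) * X T - ∑ v ∈ univ \ T, X0 (insert v T)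
  have hcard : ∀ T : Finset V, T.card = j → ((univ \ T).card : ℝ) = n - j := by
    intro T hT
    have h1 : (univ \ T).card + T.card = Fintype.card V := by
      rw [← card_univ]
      exact card_sdiff_add_card_eq_card (subset_univ T)
    have h2 : ((univ \ T).card : ℝ) + (T.card : ℝ) = n := by
      rw [hndef]; exact_mod_cast h1
    rw [hT] at h2
    linarith
  have hf : ∀ T : Finset V, T.card = j → |f T| ≤ n * E + ρ * n + j := by
    intro T hT
    have h1 : f T = (δ * n - j) * (X T - X0 T) +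
        ∑ v ∈ univ \ T, (δ * X0 T - X0 (insert v T)) - (1 - δ) * j * X0 T := by
      simp only [f]
      rw [sum_sub_distrib, sum_const, nsmul_eq_mul, hcard T hT]
      ring
    rw [h1]
    have a1 : |(δ * n - j) * (X T - X0 T)| ≤ n * E := by
      rw [abs_mul]
      apply mul_le_mul _ (hclose T (by omega)) (abs_nonneg _) hnpos.le
      rw [abs_le]
      constructor
      · nlinarith [mul_nonneg hδ0 hnpos.le]
      · nlinarith [mul_nonneg hδ0 hnpos.le]
    have a2 : |∑ v ∈ univ \ T, (δ * X0 T - X0 (insert v T))| ≤ ρ * n :=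
      (abs_sum_le_sum_abs _ _).trans (hfar T (by omega))
    have a3 : |(1 - δ) * j * X0 T| ≤ j := by
      have hx := hX0 T (by omega)
      rw [abs_mul, abs_of_nonneg (mul_nonneg (by linarith) hj0)]
      have : (1 - δ) * j ≤ j := by nlinarith
      calc (1 - δ) * j * |X0 T| ≤ j * 1 :=
            mul_le_mul this hx (abs_nonneg _) hj0
        _ = j := mul_one _
    calc |(δ * n - j) * (X T - X0 T) + ∑ v ∈ univ \ T, (δ * X0 T - X0 (insert v T)) -
          (1 - δ) * j * X0 T|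
        ≤ |(δ * n - j) * (X T - X0 T) + ∑ v ∈ univ \ T, (δ * X0 T - X0 (insert v T))| +
          |(1 - δ) * j * X0 T| := abs_sub _ _
      _ ≤ (|(δ * n - j) * (X T - X0 T)| + |∑ v ∈ univ \ T, (δ * X0 T - X0 (insert v T))|) +
          |(1 - δ) * j * X0 T| := by gcongr; exact abs_add_le _ _
      _ ≤ n * E + ρ * n + j := by linarith
  obtain ⟨Y, hY1, hY2⟩ := J1_raise j (by omega) f (n * E + ρ * n + j) hf
  refine ⟨fun T => if T.card ≤ j then X T else X0 T + Y T, ?_, ?_, ?_⟩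
  · intro T hT
    exact if_pos hT
  · intro T hT
    have hTj : T.card ≤ j := by omega
    simp only [if_pos hTj]
    rcases Nat.lt_or_ge T.card j with hlt | hge
    · rw [← hsize T (by omega)]
      apply sum_congr rfl
      intro v _
      rw [if_pos]
      exact (card_insert_le v T).trans (by omega)
    · have hTe : T.card = j := by omega
      rw [← sum_sdiff (subset_univ T)]
      have hin : ∑ v ∈ T, (if (insert v T).card ≤ j then X (insert v T)
          else X0 (insert v T) + Y (insert v T)) = j * X T := by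
        rw [← hTe, ← nsmul_eq_mul, ← sum_const]
        apply sum_congr rfl
        intro v hv
        rw [insert_eq_of_mem hv, if_pos le_rfl]
      have hout : ∑ v ∈ univ \ T, (if (insert v T).card ≤ j then X (insert v T)
          else X0 (insert v T) + Y (insert v T)) =
          ∑ v ∈ univ \ T, X0 (insert v T) + ∑ v ∈ univ \ T, Y (insert v T) := by
        rw [← sum_add_distrib]
        apply sum_congr rfl
        intro v hv
        rw [mem_sdiff] at hv
        rw [if_neg]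
        rw [card_insert_of_notMem hv.2]
        omega
      rw [hin, hout, hY1 T hTe]
      simp only [f]
      ring
  · intro T hT
    have hk0 : (0 : ℝ) ≤ k := Nat.cast_nonneg k
    have hkn : (0 : ℝ) ≤ k / n := div_nonneg hk0 hnpos.le
    by_cases hTj : T.card ≤ j
    · simp only [if_pos hTj]
      refine (hclose T hTj).trans ?_
      have h1 : (1 : ℝ) ≤ 2 ^ (k + 2) := one_le_pow₀ (by norm_num)
      nlinarith
    · simp only [if_neg hTj]
      have hTe : T.card = j + 1 := by omega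
      have h1 := hY2 T hTe
      have h2 : X0 T + Y T - X0 T = Y T := by ring
      rw [h2]
      refine h1.trans ?_
      have h3 : n / 2 ≤ n - j := by linarith
      have h4 : 0 ≤ n * E + ρ * n + j := by positivity
      have h5 : (0 : ℝ) < n / 2 := by linarith
      calc 2 ^ (j + 1) * (n * E + ρ * n + j) / (n - j)
          ≤ 2 ^ (j + 1) * (n * E + ρ * n + j) / (n / 2) := by
            apply div_le_div_of_nonneg_left _ h5 h3
            positivity
        _ = 2 ^ (j + 2) * (E + ρ + j / n) := by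
            field_simp
            ring
        _ ≤ 2 ^ (k + 2) * (E + ρ + k / n) := by
            have h6 : (2 : ℝ) ^ (j + 2) ≤ 2 ^ (k + 2) :=
              pow_le_pow_right₀ (by norm_num) (by omega)
            have h7 : (j : ℝ) / n ≤ k / n := by
              apply div_le_div_of_nonneg_right _ hnpos.le
              linarith
            apply mul_le_mul h6 (by linarith) _ (by positivity)
            positivity
-- END A1

-- BEGIN A2
theorem A2_chain (k : ℕ) (hk : 2 ≤ k) : ∃ K : ℝ, 1 ≤ K ∧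
    ∀ (V : Type) [Fintype V] [DecidableEq V] (_ : 2 * k + 1 ≤ Fintype.card V) (δ E ρ : ℝ)
      (_ : 0 ≤ δ) (_ : δ ≤ 1) (_ : 0 ≤ E) (_ : 0 ≤ ρ) (X0 X2 : Finset V → ℝ)
      (_ : ∀ T : Finset V, T.card ≤ k → |X0 T| ≤ 1)
      (_ : ∀ T : Finset V, T.card + 1 ≤ k →
        ∑ v ∈ univ \ T, |δ * X0 T - X0 (insert v T)| ≤ ρ * Fintype.card V)
      (_ : ∀ T : Finset V, T.card ≤ 2 → |X2 T - X0 T| ≤ E)
      (_ : ∀ T : Finset V, T.card + 1 ≤ 2 →
        ∑ v, X2 (insert v T) = δ * Fintype.card V * X2 T),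
      ∃ X : Finset V → ℝ, (∀ T : Finset V, T.card ≤ 2 → X T = X2 T) ∧
        (∀ T : Finset V, T.card + 1 ≤ k →
          ∑ v, X (insert v T) = δ * Fintype.card V * X T) ∧
        ∀ T : Finset V, T.card ≤ k → |X T - X0 T| ≤ K * (E + ρ + 1 / Fintype.card V) := by
  obtain ⟨a, ha⟩ : ∃ a : ℝ, a = 2 ^ (k + 2) := ⟨_, rfl⟩
  have ha1 : 1 ≤ a := by rw [ha]; exact one_le_pow₀ (by norm_num)
  have h2a : 1 ≤ 2 * a := by linarith
  have hkR : (1 : ℝ) ≤ k := by exact_mod_cast (by omega : 1 ≤ k)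
  refine ⟨(2 * a) ^ k * k, by
    have := one_le_pow₀ (n := k) h2a
    nlinarith, ?_⟩
  intro V _ _ hn δ E ρ hδ0 hδ1 hE hρ X0 X2 hX0 hfar hclose hsize
  obtain ⟨n, hndef⟩ : ∃ n : ℝ, n = (Fintype.card V : ℝ) := ⟨_, rfl⟩
  have hnpos : 0 < n := by
    rw [hndef]; exact_mod_cast (by omega : 0 < Fintype.card V)
  obtain ⟨τ, hτ⟩ : ∃ τ : ℝ, τ = ρ + k / n := ⟨_, rfl⟩
  have hτ0 : 0 ≤ τ := by rw [hτ]; positivity
  have key : ∀ i : ℕ, i + 2 ≤ k → ∃ X : Finset V → ℝ, (∀ T : Finset V, T.card ≤ 2 → X T = X2 T) ∧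
      (∀ T : Finset V, T.card + 1 ≤ i + 2 →
        ∑ v, X (insert v T) = δ * Fintype.card V * X T) ∧
      ∀ T : Finset V, T.card ≤ i + 2 → |X T - X0 T| ≤ (2 * a) ^ i * (E + τ) := by
    intro i
    induction i with
    | zero =>
      intro _
      refine ⟨X2, fun T _ => rfl, fun T hT => hsize T (by omega), fun T hT => ?_⟩
      rw [pow_zero, one_mul]
      exact (hclose T (by omega)).trans (by linarith)
    | succ i ih =>
      intro hi
      obtain ⟨X, h1, h2, h3⟩ := ih (by omega)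
      obtain ⟨X', g1, g2, g3⟩ := A1_step (k := k) (j := i + 2) (by omega) hn hδ0 hδ1
        (E := (2 * a) ^ i * (E + τ)) (ρ := ρ) (by positivity) hρ X0 X hX0 hfar h3 h2
      refine ⟨X', fun T hT => by rw [g1 T (by omega), h1 T hT], fun T hT => g2 T (by omega),
        fun T hT => ?_⟩
      refine (g3 T (by omega)).trans ?_
      rw [← ha, ← hndef, add_assoc, ← hτ, pow_succ]
      have h4 : (1 : ℝ) ≤ (2 * a) ^ i := one_le_pow₀ h2a
      have h5 : τ ≤ (2 * a) ^ i * (E + τ) := by nlinarith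
      have h6 : a * ((2 * a) ^ i * (E + τ) + τ) ≤ a * ((2 * a) ^ i * (E + τ) +
          (2 * a) ^ i * (E + τ)) := mul_le_mul_of_nonneg_left (by linarith) (by linarith)
      refine h6.trans (le_of_eq (by ring))
  obtain ⟨X, h1, h2, h3⟩ := key (k - 2) (by omega)
  rw [show k - 2 + 2 = k by omega] at h2 h3
  refine ⟨X, h1, h2, fun T hT => (h3 T hT).trans ?_⟩
  have h4 : (2 * a) ^ (k - 2) ≤ (2 * a) ^ k := pow_le_pow_right₀ h2a (by omega)
  have h5 : E + τ ≤ k * (E + ρ + 1 / Fintype.card V) := by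
    rw [hτ, ← hndef]
    have h6 : (k : ℝ) / n = k * (1 / n) := by ring
    rw [h6]
    nlinarith
  calc (2 * a) ^ (k - 2) * (E + τ) ≤ (2 * a) ^ k * (k * (E + ρ + 1 / Fintype.card V)) := by
        refine mul_le_mul h4 h5 (by positivity) (by positivity)
    _ = (2 * a) ^ k * k * (E + ρ + 1 / Fintype.card V) := by ring
-- END A2

-- BEGIN A3
/-- Levels one and two with exact row sums. Let `n = |V|`, `C u v = (1-κ)(1-δ)^2 K u v +
κ δ (1-δ) [u = v]` (`PSDk` by `K1_basic`), row sum `Rc = (1-κ)(1-δ)^2 R + κ δ (1-δ)`,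
`c = Rc / (n δ (1-δ)) ≤ τ + 1/n ≤ 1/2`, `C' u v = (C u v - Rc/n) / (1 - c)`. By `K7_center` `C'` is
`PSDk`, its row sums are `0`, `C' u u = δ (1-δ)`, and `|C' - C| = c |C - δ(1-δ)| / (1-c) ≤ 2 c`.
Put `X2 T = 1, δ` for `|T| = 0, 1` and `X2 {u, v} = δ^2 + C' u v` for `u ≠ v` (this formula is also
right for `u = v`); e.g. for `|T| = 2` define `X2 T = δ^2 + (∑ u ∈ T, ∑ v ∈ T \ {u}, C' u v) / 2`.
The form of `BasicSDP` is `(c₀ + δ ∑ c)^2 + ∑∑ c u c v C' u v`. -/
theorem A3_base {V : Type*} [Fintype V] [DecidableEq V] [Nonempty V] (K : V → V → ℝ)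
    (hK : PSDk K) {δ κ τ R : ℝ} (hδ0 : 0 < δ) (hδ1 : δ ≤ 1 / 2) (hκ0 : 0 ≤ κ) (hκ1 : κ ≤ 1)
    (hdiag : ∀ u, K u u = δ / (1 - δ)) (hle : ∀ u v, 0 ≤ K u v ∧ K u v ≤ δ / (1 - δ))
    (hrow : ∀ u, ∑ v, K u v = R) (hR : (1 - δ) * R ≤ δ * (τ * Fintype.card V)) (hτ0 : 0 ≤ τ)
    (hτ : τ + 1 / Fintype.card V ≤ 1 / 2) :
    ∃ X2 : Finset V → ℝ, X2 ∅ = 1 ∧ (∀ v, X2 {v} = δ) ∧
      (∀ T : Finset V, T.card + 1 ≤ 2 → ∑ v, X2 (insert v T) = δ * Fintype.card V * X2 T) ∧
      BasicSDP X2 ∧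
      ∀ u v, u ≠ v → |X2 {u, v} - (δ ^ 2 + (1 - κ) * (1 - δ) ^ 2 * K u v)| ≤
        2 * (τ + 1 / Fintype.card V) := by
  obtain ⟨K1, K2, -, K4⟩ := K1_basic (V := V)
  set N : ℝ := (Fintype.card V : ℝ) with hN
  have hN0 : 0 < N := by rw [hN]; exact_mod_cast Fintype.card_pos
  have hd : 0 < 1 - δ := by linarith
  have hdd : 0 < δ * (1 - δ) := mul_pos hδ0 hd
  have hκ' : 0 ≤ 1 - κ := by linarith
  -- the kernel C
  set C : V → V → ℝ := fun u v => (1 - κ) * (1 - δ) ^ 2 * K u v +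
    (if u = v then κ * (δ * (1 - δ)) else 0) with hC
  have hD : PSDk (fun u v : V => if u = v then κ * (δ * (1 - δ)) else 0) := by
    have h1 := K4 (κ * (δ * (1 - δ))) (by positivity)
    have h2 : (fun u v : V => if u = v then κ * (δ * (1 - δ)) else 0) =
        fun u v : V => @ite ℝ (u = v) (Classical.propDecidable (u = v)) (κ * (δ * (1 - δ))) 0 := by
      funext u v
      by_cases h : u = v
      · rw [if_pos h, if_pos h]
      · rw [if_neg h, if_neg h]
    rw [h2]
    exact h1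
  have hCp : PSDk C := K1 _ _ (K2 _ _ (by positivity) hK) hD
  set Rc : ℝ := (1 - κ) * (1 - δ) ^ 2 * R + κ * (δ * (1 - δ)) with hRc
  have hCrow : ∀ u, ∑ v, C u v = Rc := by
    intro u
    simp only [hC, Finset.sum_add_distrib, ← Finset.mul_sum, hrow u]
    rw [Finset.sum_ite_eq univ u]
    simp [hRc]
  have hCd : ∀ u, C u u = δ * (1 - δ) := by
    intro u
    simp only [hC, if_true, hdiag u]
    field_simp
    ring
  have hC0 : ∀ u v, 0 ≤ C u v := by
    intro u v
    have h1 := (hle u v).1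
    simp only [hC]
    split_ifs <;> positivity
  have hC1 : ∀ u v, C u v ≤ δ * (1 - δ) := by
    intro u v
    by_cases huv : u = v
    · rw [huv, hCd v]
    · have h1 := (hle u v).2
      simp only [hC, if_neg huv, add_zero]
      have h2 : (1 - κ) * (1 - δ) ^ 2 * K u v ≤ 1 * (1 - δ) ^ 2 * (δ / (1 - δ)) := by
        have := (hle u v).1
        gcongr
        linarith
      refine h2.trans (le_of_eq ?_)
      field_simp
  have hR0 : 0 ≤ R := by
    obtain ⟨u⟩ := ‹Nonempty V›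
    rw [← hrow u]
    exact Finset.sum_nonneg fun v _ => (hle u v).1
  have hRc0 : 0 ≤ Rc := by
    rw [hRc]
    positivity
  set c : ℝ := Rc / (N * (δ * (1 - δ))) with hc
  have hc0 : 0 ≤ c := by positivity
  have hcle : c ≤ τ + 1 / N := by
    rw [hc, div_le_iff₀ (by positivity)]
    have h1 : (1 - κ) * (1 - δ) ^ 2 * R ≤ (1 - δ) * (δ * (τ * N)) := by
      have h2 : (1 - κ) * (1 - δ) ^ 2 * R = ((1 - κ) * (1 - δ)) * ((1 - δ) * R) := by ring
      rw [h2]
      have h3 : 0 ≤ (1 - δ) * R := by positivity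
      have h4 : (1 - κ) * (1 - δ) ≤ 1 - δ := by nlinarith
      calc ((1 - κ) * (1 - δ)) * ((1 - δ) * R) ≤ (1 - δ) * ((1 - δ) * R) :=
            mul_le_mul_of_nonneg_right h4 h3
        _ ≤ (1 - δ) * (δ * (τ * N)) := mul_le_mul_of_nonneg_left hR hd.le
    have h5 : κ * (δ * (1 - δ)) ≤ δ * (1 - δ) := by nlinarith
    have h6 : (τ + 1 / N) * (N * (δ * (1 - δ))) = (1 - δ) * (δ * (τ * N)) + δ * (1 - δ) := by
      field_simp
    rw [h6, hRc]
    linarith
  have hc1 : c ≤ 1 / 2 := hcle.trans hτ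
  have h1c : 0 < 1 - c := by linarith
  have hRcN : Rc / N = c * (δ * (1 - δ)) := by
    rw [hc]
    field_simp
  set C' : V → V → ℝ := fun u v => 1 / (1 - c) * (C u v - Rc / N) with hC'
  have hC'p : PSDk C' := K2 _ _ (by positivity) (K7_center hCp hCrow)
  have hC'row : ∀ u, ∑ v, C' u v = 0 := by
    intro u
    simp only [hC', ← Finset.mul_sum, Finset.sum_sub_distrib, hCrow u, Finset.sum_const,
      Finset.card_univ, nsmul_eq_mul]
    rw [← hN]
    field_simp
    ring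
  have hC'd : ∀ u, C' u u = δ * (1 - δ) := by
    intro u
    simp only [hC', hCd u, hRcN]
    field_simp
  have hclose : ∀ u v, |C' u v - C u v| ≤ 2 * (τ + 1 / N) := by
    intro u v
    have h1 : C' u v - C u v = c / (1 - c) * (C u v - δ * (1 - δ)) := by
      simp only [hC', hRcN]
      field_simp
      ring
    have h2 : |C u v - δ * (1 - δ)| ≤ 1 := by
      rw [abs_le]
      constructor
      · nlinarith [hC0 u v, hC1 u v]
      · nlinarith [hC0 u v, hC1 u v]
    have h3 : c / (1 - c) ≤ 2 * c := by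
      rw [div_le_iff₀ h1c]
      nlinarith
    have h4 : 0 ≤ c / (1 - c) := by positivity
    rw [h1, abs_mul, abs_of_nonneg h4]
    calc c / (1 - c) * |C u v - δ * (1 - δ)| ≤ 2 * c * 1 :=
          mul_le_mul h3 h2 (abs_nonneg _) (by positivity)
      _ ≤ 2 * (τ + 1 / N) := by linarith
  -- the pseudo-probabilities
  set X2 : Finset V → ℝ := fun T => if T.card = 0 then 1 else if T.card = 1 then δ else
    δ ^ 2 + (∑ u ∈ T, ∑ v ∈ T \ {u}, C' u v) / 2 with hX2
  have hX0 : X2 ∅ = 1 := by simp [hX2]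
  have hX1 : ∀ v, X2 {v} = δ := by
    intro v
    simp [hX2]
  have hXuv : ∀ u v, X2 {u, v} = δ ^ 2 + C' u v := by
    intro u v
    by_cases huv : u = v
    · subst huv
      rw [Finset.pair_eq_singleton, hX1, hC'd]
      ring
    · have hcard : ({u, v} : Finset V).card = 2 := Finset.card_pair huv
      have e1 : ({u, v} : Finset V) \ {u} = {v} := by
        ext x
        simp only [Finset.mem_sdiff, Finset.mem_insert, Finset.mem_singleton]
        constructor
        · rintro ⟨h | h, h'⟩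
          · exact absurd h h'
          · exact h
        · intro h
          exact ⟨Or.inr h, fun h' => huv (h'.symm.trans h)⟩
      have e2 : ({u, v} : Finset V) \ {v} = {u} := by
        ext x
        simp only [Finset.mem_sdiff, Finset.mem_insert, Finset.mem_singleton]
        constructor
        · rintro ⟨h | h, h'⟩
          · exact h
          · exact absurd h h'
        · intro h
          exact ⟨Or.inl h, fun h' => huv (h.symm.trans h')⟩
      simp only [hX2, hcard]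
      rw [if_neg (by norm_num), if_neg (by norm_num), Finset.sum_pair huv, e1, e2,
        Finset.sum_singleton, Finset.sum_singleton, hC'p.1 v u]
      ring
  refine ⟨X2, hX0, hX1, ?_, ?_, ?_⟩
  · intro T hT
    rcases Nat.lt_or_ge T.card 1 with h | h
    · have hT0 : T = ∅ := Finset.card_eq_zero.mp (by omega)
      subst hT0
      have h1 : ∀ v : V, X2 (insert v ∅) = δ := fun v => hX1 v
      simp only [h1, hX0, Finset.sum_const, Finset.card_univ, nsmul_eq_mul]
      rw [← hN]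
      ring
    · obtain ⟨t, rfl⟩ := Finset.card_eq_one.mp (show T.card = 1 by omega)
      have h1 : ∀ v : V, X2 (insert v {t}) = δ ^ 2 + C' t v := fun v => by
        rw [hC'p.1 t v]
        exact hXuv v t
      simp only [h1, hX1, Finset.sum_add_distrib, hC'row t, Finset.sum_const, Finset.card_univ,
        nsmul_eq_mul]
      rw [← hN]
      ring
  · intro c₀ a
    have h1 := hC'p.2 a
    have h2 : ∑ u, ∑ v, a u * a v * X2 {u, v} =
        δ ^ 2 * (∑ v, a v) ^ 2 + ∑ u, ∑ v, a u * a v * C' u v := by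
      have h3 : ∀ u v, a u * a v * X2 {u, v} = δ ^ 2 * (a u * a v) + a u * a v * C' u v := by
        intro u v
        rw [hXuv]
        ring
      simp only [h3, Finset.sum_add_distrib, ← Finset.mul_sum]
      rw [← Finset.sum_mul, sq (∑ v, a v)]
    have h4 : ∑ v, a v * X2 {v} = δ * ∑ v, a v := by
      simp only [hX1]
      rw [← Finset.sum_mul, mul_comm]
    rw [h2, h4]
    have h5 := sq_nonneg (c₀ + δ * ∑ v, a v)
    nlinarith
  · intro u v huv
    rw [hXuv]
    have h1 : δ ^ 2 + C' u v - (δ ^ 2 + (1 - κ) * (1 - δ) ^ 2 * K u v) = C' u v - C u v := by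
      simp only [hC, if_neg huv]
      ring
    rw [h1]
    exact hclose u v
-- END A3

-- BEGIN A4
lemma A4_sum_pow {V : Type*} [DecidableEq V] (δ : ℝ) (S T : Finset V) (hd : Disjoint S T) :
    ∑ R ∈ T.powerset, (-1 : ℝ) ^ R.card * δ ^ (S ∪ R).card = δ ^ S.card * (1 - δ) ^ T.card := by
  have h1 : ∀ R ∈ T.powerset, (-1 : ℝ) ^ R.card * δ ^ (S ∪ R).card =
      δ ^ S.card * ((-δ) ^ R.card * 1 ^ (T.card - R.card)) := by
    intro R hR
    have hRT := Finset.mem_powerset.1 hR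
    rw [Finset.card_union_of_disjoint (Finset.disjoint_of_subset_right hRT hd), pow_add, one_pow,
      neg_pow δ]
    ring
  rw [Finset.sum_congr rfl h1, ← Finset.mul_sum, Finset.sum_pow_mul_eq_add_pow]
  congr 2
  ring

theorem A4_stable {V : Type*} [DecidableEq V] {k : ℕ} {δ κ e : ℝ} (hδ0 : 0 < δ)
    (hδ1 : δ ≤ 1 / 2) (hκ0 : 0 ≤ κ) (hκ1 : κ ≤ 1) (L X : Finset V → ℝ)
    (hL : ∀ S T : Finset V, Disjoint S T → (S ∪ T).card ≤ k →
      0 ≤ ∑ R ∈ T.powerset, (-1) ^ R.card * L (S ∪ R))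
    (hX : ∀ T : Finset V, T.card ≤ k → |X T - ((1 - κ) * L T + κ * δ ^ T.card)| ≤ e)
    (he : 2 ^ k * e ≤ κ * δ ^ k) (S T : Finset V) (hd : Disjoint S T) (hc : (S ∪ T).card ≤ k) :
    0 ≤ ∑ R ∈ T.powerset, (-1) ^ R.card * X (S ∪ R) := by
  have hcard : S.card + T.card ≤ k := by
    rw [← Finset.card_union_of_disjoint hd]; exact hc
  have he0 : 0 ≤ e := (abs_nonneg _).trans (hX ∅ (by simp))
  have h1 : ∑ R ∈ T.powerset, (-1 : ℝ) ^ R.card * ((1 - κ) * L (S ∪ R) + κ * δ ^ (S ∪ R).card) =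
      (1 - κ) * ∑ R ∈ T.powerset, (-1) ^ R.card * L (S ∪ R) +
        κ * (δ ^ S.card * (1 - δ) ^ T.card) := by
    rw [← A4_sum_pow δ S T hd, Finset.mul_sum, Finset.mul_sum, ← Finset.sum_add_distrib]
    exact Finset.sum_congr rfl (fun R _ => by ring)
  have h2 : |∑ R ∈ T.powerset, (-1 : ℝ) ^ R.card * X (S ∪ R) -
      ∑ R ∈ T.powerset, (-1 : ℝ) ^ R.card * ((1 - κ) * L (S ∪ R) + κ * δ ^ (S ∪ R).card)| ≤
      2 ^ k * e := by
    rw [← Finset.sum_sub_distrib]
    calc |∑ R ∈ T.powerset, ((-1 : ℝ) ^ R.card * X (S ∪ R) -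
          (-1 : ℝ) ^ R.card * ((1 - κ) * L (S ∪ R) + κ * δ ^ (S ∪ R).card))|
        ≤ ∑ R ∈ T.powerset, |(-1 : ℝ) ^ R.card * X (S ∪ R) -
          (-1 : ℝ) ^ R.card * ((1 - κ) * L (S ∪ R) + κ * δ ^ (S ∪ R).card)| :=
          Finset.abs_sum_le_sum_abs _ _
      _ ≤ ∑ R ∈ T.powerset, e := by
          refine Finset.sum_le_sum (fun R hR => ?_)
          rw [← mul_sub, abs_mul, abs_pow, abs_neg, abs_one, one_pow, one_mul]
          refine hX _ ?_
          exact (Finset.card_le_card (Finset.union_subset_union_right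
            (Finset.mem_powerset.1 hR))).trans hc
      _ = 2 ^ T.card * e := by
          rw [Finset.sum_const, Finset.card_powerset, nsmul_eq_mul]; push_cast; ring
      _ ≤ 2 ^ k * e := by
          refine mul_le_mul_of_nonneg_right ?_ he0
          exact pow_le_pow_right₀ (by norm_num) (by omega)
  have h3 : δ ^ k ≤ δ ^ S.card * (1 - δ) ^ T.card := by
    calc δ ^ k ≤ δ ^ (S.card + T.card) := pow_le_pow_of_le_one hδ0.le (by linarith) hcard
      _ = δ ^ S.card * δ ^ T.card := pow_add _ _ _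
      _ ≤ δ ^ S.card * (1 - δ) ^ T.card := by
          refine mul_le_mul_of_nonneg_left ?_ (by positivity)
          exact pow_le_pow_left₀ hδ0.le (by linarith) _
  have h4 := hL S T hd hc
  have h5 : κ * δ ^ k ≤ κ * (δ ^ S.card * (1 - δ) ^ T.card) := mul_le_mul_of_nonneg_left h3 hκ0
  have h6 : 0 ≤ (1 - κ) * ∑ R ∈ T.powerset, (-1) ^ R.card * L (S ∪ R) :=
    mul_nonneg (by linarith) h4
  have h7 := (abs_le.1 h2).1
  linarith
-- END A4

-- BEGIN A5
/-- The far sums for `X0 = (1-κ) law + κ δ^|·|`, with `μ = - log (1 - δ)`, `1 - exp (-μ) = δ`. By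
`C4_far` (and `δ ≤ 1`), for `|T| + 1 ≤ k`, `v ∉ T`,
`|δ X0 T - X0 (insert v T)| ≤ 2^k ∑ u ∈ T, (2 - U {u, v})`
(the term `κ δ^|·|` contributes `0`); sum over `v`, exchange the sums, and use
`∑ v, (2 - U {u, v}) ≤ τ n`: the total is at most `2^k k τ n`. (`2 - U {u, v} ≥ 0` by `C3_pair`;
here `k ≥ 2`.) Also `|X0 T| ≤ 1` by `C6_bounds`. -/
theorem A5_far {V : Type*} [Fintype V] [DecidableEq V] {k : ℕ} (hk : 2 ≤ k) {U : Finset V → ℝ}
    (hU : LocCov k U) (h1 : ∀ v, U {v} = 1) {δ κ τ : ℝ} (hδ0 : 0 < δ) (hδ1 : δ ≤ 1 / 2)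
    (hκ0 : 0 ≤ κ) (hκ1 : κ ≤ 1) (hτ : ∀ u, ∑ v, (2 - U {u, v}) ≤ τ * Fintype.card V) :
    (∀ T : Finset V, T.card ≤ k →
      |(1 - κ) * law (-Real.log (1 - δ)) U T + κ * δ ^ T.card| ≤ 1) ∧
    ∀ T : Finset V, T.card + 1 ≤ k →
      ∑ v ∈ univ \ T, |δ * ((1 - κ) * law (-Real.log (1 - δ)) U T + κ * δ ^ T.card) -
        ((1 - κ) * law (-Real.log (1 - δ)) U (insert v T) + κ * δ ^ (insert v T).card)| ≤
        2 ^ k * k * τ * Fintype.card V := by
  have hpos : (0 : ℝ) < 1 - δ := by linarith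
  have hμ0 : 0 ≤ -Real.log (1 - δ) := by
    have := Real.log_nonpos hpos.le (by linarith)
    linarith
  have hexp : 1 - Real.exp (-(-Real.log (1 - δ))) = δ := by
    rw [neg_neg, Real.exp_log hpos]; ring
  have hpair := fun u v => (C3_pair hk hU h1 0).2.2.2 u v
  refine ⟨fun T hT => ?_, fun T hT => ?_⟩
  · obtain ⟨a1, a2⟩ := C6_bounds hU hμ0 hT
    have b1 : 0 ≤ δ ^ T.card := by positivity
    have b2 : δ ^ T.card ≤ 1 := pow_le_one₀ hδ0.le (by linarith)
    rw [abs_le]
    constructor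
    · have : 0 ≤ (1 - κ) * law (-Real.log (1 - δ)) U T := mul_nonneg (by linarith) a1
      have : 0 ≤ κ * δ ^ T.card := mul_nonneg hκ0 b1
      linarith
    · nlinarith [mul_le_mul_of_nonneg_left a2 (show (0 : ℝ) ≤ 1 - κ by linarith),
        mul_le_mul_of_nonneg_left b2 hκ0]
  · have hbd : ∀ v ∈ univ \ T, |δ * ((1 - κ) * law (-Real.log (1 - δ)) U T + κ * δ ^ T.card) -
        ((1 - κ) * law (-Real.log (1 - δ)) U (insert v T) + κ * δ ^ (insert v T).card)|
        ≤ 2 ^ k * ∑ u ∈ T, (2 - U {u, v}) := by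
      intro v hv
      have hvT : v ∉ T := (mem_sdiff.1 hv).2
      have h2 := C4_far hU h1 hμ0 hvT hT
      rw [hexp] at h2
      rw [card_insert_of_notMem hvT]
      have h3 : δ * ((1 - κ) * law (-Real.log (1 - δ)) U T + κ * δ ^ T.card) -
        ((1 - κ) * law (-Real.log (1 - δ)) U (insert v T) + κ * δ ^ (T.card + 1))
          = -((1 - κ) * (law (-Real.log (1 - δ)) U (insert v T)
              - δ * law (-Real.log (1 - δ)) U T)) := by ring
      rw [h3, abs_neg, abs_mul, abs_of_nonneg (show (0 : ℝ) ≤ 1 - κ by linarith)]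
      have h4 : 0 ≤ ∑ u ∈ T, (2 - U {u, v}) := sum_nonneg fun u _ => by
        have := (hpair u v).2
        linarith
      have h5 : (2 : ℝ) ^ T.card ≤ 2 ^ k := pow_le_pow_right₀ (by norm_num) (by omega)
      have h6 : (2 : ℝ) ^ T.card * δ * ∑ u ∈ T, (2 - U {u, v})
          ≤ 2 ^ k * ∑ u ∈ T, (2 - U {u, v}) := by
        refine mul_le_mul_of_nonneg_right ?_ h4
        have : (2 : ℝ) ^ T.card * δ ≤ 2 ^ T.card * 1 :=
          mul_le_mul_of_nonneg_left (by linarith) (by positivity)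
        linarith
      calc (1 - κ) * |law (-Real.log (1 - δ)) U (insert v T) - δ * law (-Real.log (1 - δ)) U T|
          ≤ 1 * |law (-Real.log (1 - δ)) U (insert v T) - δ * law (-Real.log (1 - δ)) U T| :=
            mul_le_mul_of_nonneg_right (by linarith) (abs_nonneg _)
        _ ≤ _ := by rw [one_mul]; exact h2.trans h6
    refine (sum_le_sum hbd).trans ?_
    rw [← mul_sum, sum_comm]
    have h7 : ∀ u ∈ T, ∑ v ∈ univ \ T, (2 - U {u, v}) ≤ τ * Fintype.card V := by
      intro u _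
      refine le_trans ?_ (hτ u)
      refine sum_le_sum_of_subset_of_nonneg (subset_univ _) fun v _ _ => ?_
      have := (hpair u v).2
      linarith
    have h8 : ∑ u ∈ T, ∑ v ∈ univ \ T, (2 - U {u, v}) ≤ T.card * (τ * Fintype.card V) := by
      have := sum_le_sum h7
      rwa [sum_const, nsmul_eq_mul] at this
    have h9 : (T.card : ℝ) ≤ k := by exact_mod_cast (by omega : T.card ≤ k)
    by_cases hV : Nonempty V
    · obtain ⟨u⟩ := hV
      have h10 : 0 ≤ τ * Fintype.card V := le_trans (sum_nonneg fun v _ => by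
        have := (hpair u v).2
        linarith) (hτ u)
      calc (2 : ℝ) ^ k * ∑ u ∈ T, ∑ v ∈ univ \ T, (2 - U {u, v})
          ≤ 2 ^ k * (k * (τ * Fintype.card V)) :=
            mul_le_mul_of_nonneg_left (h8.trans (mul_le_mul_of_nonneg_right h9 h10))
              (by positivity)
        _ = _ := by ring
    · rw [not_nonempty_iff] at hV
      have hT0 : T = ∅ := eq_empty_of_isEmpty T
      rw [hT0]
      simp
-- END A5

-- BEGIN A6
lemma A6_exp_le {μ p : ℝ} (h0 : 0 ≤ p) (h1 : p ≤ 1) :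
    Real.exp (μ * p) - 1 ≤ p * (Real.exp μ - 1) := by
  have h := convexOn_exp.2 (Set.mem_univ (0 : ℝ)) (Set.mem_univ μ) (sub_nonneg.2 h1) h0
    (by ring)
  simp only [smul_eq_mul, mul_zero, zero_add, Real.exp_zero, mul_one] at h
  rw [mul_comm μ p]
  linarith

lemma A6_basic_congr {V : Type*} [Fintype V] [DecidableEq V] {X Y : Finset V → ℝ}
    (h : ∀ T : Finset V, T.card ≤ 2 → X T = Y T) (hY : BasicSDP Y) : BasicSDP X := by
  intro c₀ c
  have h1 : ∀ v, X {v} = Y {v} := fun v => h _ (by simp)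
  have h2 : ∀ u v, X {u, v} = Y {u, v} := fun u v => h _ (Finset.card_le_two)
  simp only [h1, h2]
  exact hY c₀ c

theorem A6_abstract (k : ℕ) (hk : 2 ≤ k) (δ κ : ℝ) (hδ0 : 0 < δ) (hδ1 : δ ≤ 1 / 2) (hκ0 : 0 < κ)
    (hκ1 : κ ≤ 1) : ∃ τ₀ : ℝ, 0 < τ₀ ∧
    ∀ (V : Type) [Fintype V] [DecidableEq V] (U : Finset V → ℝ) (R : ℝ),
      LocCov k U → (∀ v, U {v} = 1) →
      PSDk (fun u v => Real.exp (-Real.log (1 - δ) * (2 - U {u, v})) - 1) →
      (∀ u, ∑ v, (Real.exp (-Real.log (1 - δ) * (2 - U {u, v})) - 1) = R) →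
      (∀ u, ∑ v, (2 - U {u, v}) ≤ τ₀ * Fintype.card V) → 1 / τ₀ ≤ Fintype.card V →
      ∃ X : Finset V → ℝ, SA.SheraliAdams k (δ * Fintype.card V) X ∧ BasicSDP X ∧
        (∀ v, X {v} = δ) ∧ ∀ u v, δ * (2 - U {u, v} - 2 * κ) ≤ X {u, v} := by
  obtain ⟨K, hK1, hchain⟩ := A2_chain k hk
  have hKpos : 0 < K := by linarith
  obtain ⟨M, hM⟩ : ∃ M : ℝ, M = 5 + 2 ^ k * k := ⟨_, rfl⟩
  have hMpos : 0 < M := by rw [hM]; positivity
  obtain ⟨τ₀, hτdef⟩ : ∃ τ₀ : ℝ, τ₀ = min (min (1 / (2 * (k : ℝ) + 1)) (1 / 4))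
    (κ * δ ^ k / (2 ^ k * (K * M))) := ⟨_, rfl⟩
  have hτ0 : 0 < τ₀ := by
    rw [hτdef]
    refine lt_min (lt_min (by positivity) (by norm_num)) (by positivity)
  have hτ1 : τ₀ ≤ 1 / (2 * (k : ℝ) + 1) := by
    rw [hτdef]; exact (min_le_left _ _).trans (min_le_left _ _)
  have hτ2 : τ₀ ≤ 1 / 4 := by
    rw [hτdef]; exact (min_le_left _ _).trans (min_le_right _ _)
  have hτ3 : τ₀ ≤ κ * δ ^ k / (2 ^ k * (K * M)) := by
    rw [hτdef]; exact min_le_right _ _
  refine ⟨τ₀, hτ0, ?_⟩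
  intro V _ _ U R hU hU1 hpsd hrow hsum hn
  obtain ⟨n, hndef⟩ : ∃ n : ℝ, n = (Fintype.card V : ℝ) := ⟨_, rfl⟩
  have hnpos : 0 < n := by rw [hndef]; exact lt_of_lt_of_le (by positivity) hn
  have hninv : 1 / n ≤ τ₀ := by
    rw [div_le_iff₀ hnpos]
    rw [← hndef, div_le_iff₀ hτ0] at hn
    linarith
  have hn2 : 2 * k + 1 ≤ Fintype.card V := by
    have h1 : (2 * (k : ℝ) + 1) ≤ 1 / τ₀ := by
      rw [le_div_iff₀ hτ0]
      rw [le_div_iff₀ (by positivity)] at hτ1
      linarith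
    have h2 : (2 * (k : ℝ) + 1) ≤ (Fintype.card V : ℝ) := h1.trans hn
    exact_mod_cast h2
  have : Nonempty V := Fintype.card_pos_iff.1 (by omega)
  obtain ⟨μ, hμdef⟩ : ∃ μ : ℝ, μ = -Real.log (1 - δ) := ⟨_, rfl⟩
  have h1δ : 0 < 1 - δ := by linarith
  have hμ0 : 0 ≤ μ := by
    rw [hμdef]
    have : Real.log (1 - δ) ≤ 0 := Real.log_nonpos (by linarith) (by linarith)
    linarith
  have hexp : Real.exp (-μ) = 1 - δ := by
    rw [hμdef, neg_neg, Real.exp_log h1δ]
  have hexp' : Real.exp μ = 1 / (1 - δ) := by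
    have : Real.exp μ = (Real.exp (-μ))⁻¹ := by rw [Real.exp_neg, inv_inv]
    rw [this, hexp, one_div]
  have hexp1 : Real.exp μ - 1 = δ / (1 - δ) := by
    rw [hexp']; field_simp; ring
  obtain ⟨hlaw0, hlaw1, hlaw2, hUb⟩ := C3_pair hk hU hU1 μ
  have hlaw1' : ∀ v, law μ U {v} = δ := fun v => by rw [hlaw1, hexp]; ring
  obtain ⟨Kf, hKf⟩ : ∃ Kf : V → V → ℝ, Kf = fun u v => Real.exp (μ * (2 - U {u, v})) - 1 :=
    ⟨_, rfl⟩
  have hKpsd : PSDk Kf := by rw [hKf, hμdef]; exact hpsd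
  have hlawK : ∀ u v, law μ U {u, v} = δ ^ 2 + (1 - δ) ^ 2 * Kf u v := by
    intro u v
    have h3 : Real.exp (-μ * U {u, v}) = (1 - δ) ^ 2 * Real.exp (μ * (2 - U {u, v})) := by
      rw [← hexp, ← Real.exp_nat_mul, ← Real.exp_add]
      congr 1
      push_cast
      ring
    rw [hlaw2, hexp, h3, hKf]
    ring
  have hdiag : ∀ u, Kf u u = δ / (1 - δ) := by
    intro u
    rw [hKf]
    simp only [Finset.insert_eq_of_mem (Finset.mem_singleton_self u), hU1]
    rw [← hexp1]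
    norm_num
  have hKle' : ∀ u v, Kf u v ≤ (2 - U {u, v}) * (δ / (1 - δ)) := by
    intro u v
    rw [hKf, ← hexp1]
    exact A6_exp_le (by linarith [(hUb u v).2]) (by linarith [(hUb u v).1])
  have hδδ : 0 < δ / (1 - δ) := by positivity
  have hle : ∀ u v, 0 ≤ Kf u v ∧ Kf u v ≤ δ / (1 - δ) := by
    intro u v
    have h4 := (hUb u v)
    constructor
    · rw [hKf]
      have : 1 ≤ Real.exp (μ * (2 - U {u, v})) :=
        Real.one_le_exp (mul_nonneg hμ0 (by linarith))
      simpa using this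
    · refine (hKle' u v).trans ?_
      nlinarith
  have hrow' : ∀ u, ∑ v, Kf u v = R := by
    intro u; rw [hKf, hμdef]; exact hrow u
  have hR : (1 - δ) * R ≤ δ * (τ₀ * Fintype.card V) := by
    obtain ⟨u⟩ := ‹Nonempty V›
    rw [← hrow' u]
    have h5 : ∑ v, Kf u v ≤ (∑ v, (2 - U {u, v})) * (δ / (1 - δ)) := by
      rw [Finset.sum_mul]
      exact Finset.sum_le_sum (fun v _ => hKle' u v)
    have h6 := hsum u
    have h7 : ∑ v, Kf u v ≤ (τ₀ * Fintype.card V) * (δ / (1 - δ)) :=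
      h5.trans (mul_le_mul_of_nonneg_right h6 hδδ.le)
    have h8 := mul_le_mul_of_nonneg_left h7 h1δ.le
    refine h8.trans (le_of_eq ?_)
    field_simp
  obtain ⟨X2, hX20, hX21, hX2size, hX2sdp, hX2close⟩ :=
    A3_base Kf hKpsd hδ0 hδ1 hκ0.le hκ1 hdiag hle hrow' hR hτ0.le (by
      rw [← hndef]; linarith)
  obtain ⟨X0, hX0def⟩ : ∃ X0 : Finset V → ℝ,
      X0 = fun T => (1 - κ) * law μ U T + κ * δ ^ T.card := ⟨_, rfl⟩
  obtain ⟨hfar1, hfar2⟩ := A5_far hk hU hU1 hδ0 hδ1 hκ0.le hκ1 hsum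
  rw [← hμdef] at hfar1 hfar2
  have hclose : ∀ T : Finset V, T.card ≤ 2 → |X2 T - X0 T| ≤ 2 * (τ₀ + 1 / n) := by
    intro T hT
    have hpos : 0 ≤ 2 * (τ₀ + 1 / n) := by positivity
    rcases Nat.lt_or_ge T.card 2 with h | h
    · rcases Nat.lt_or_ge T.card 1 with h' | h'
      · have : T = ∅ := Finset.card_eq_zero.1 (by omega)
        subst this
        rw [hX20, hX0def]
        simp only [hlaw0, Finset.card_empty, pow_zero]
        rw [show (1 : ℝ) - ((1 - κ) * 1 + κ * 1) = 0 by ring, abs_zero]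
        exact hpos
      · obtain ⟨v, rfl⟩ := Finset.card_eq_one.1 (show T.card = 1 by omega)
        rw [hX21, hX0def]
        simp only [hlaw1', Finset.card_singleton, pow_one]
        rw [show δ - ((1 - κ) * δ + κ * δ) = 0 by ring, abs_zero]
        exact hpos
    · obtain ⟨u, v, huv, rfl⟩ := Finset.card_eq_two.1 (show T.card = 2 by omega)
      have := hX2close u v huv
      rw [← hndef] at this
      rw [hX0def]
      simp only [hlawK, Finset.card_pair huv]
      convert this using 2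
      ring
  obtain ⟨X, hXeq, hXsize, hXclose⟩ := hchain V hn2 δ (2 * (τ₀ + 1 / n)) (2 ^ k * k * τ₀)
    hδ0.le (by linarith) (by positivity) (by positivity) X0 X2 (by rw [hX0def]; exact hfar1)
    (by rw [hX0def]; exact hfar2) hclose hX2size
  obtain ⟨e, hedef⟩ : ∃ e : ℝ, e = K * (M * τ₀) := ⟨_, rfl⟩
  have hXclose' : ∀ T : Finset V, T.card ≤ k → |X T - X0 T| ≤ e := by
    intro T hT
    refine (hXclose T hT).trans ?_
    rw [hedef, hM, ← hndef]
    refine mul_le_mul_of_nonneg_left ?_ hKpos.le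
    rw [add_mul]
    linarith
  have he1 : 2 ^ k * e ≤ κ * δ ^ k := by
    rw [le_div_iff₀ (by positivity)] at hτ3
    rw [hedef]
    calc 2 ^ k * (K * (M * τ₀)) = τ₀ * (2 ^ k * (K * M)) := by ring
      _ ≤ κ * δ ^ k := hτ3
  have he0 : 0 ≤ e := by rw [hedef]; positivity
  have he2 : e ≤ κ * δ := by
    have h9 : δ ^ k ≤ δ := by
      calc δ ^ k ≤ δ ^ 1 := pow_le_pow_of_le_one hδ0.le (by linarith) (by omega)
        _ = δ := pow_one δ
    have h10 : (1 : ℝ) ≤ 2 ^ k := one_le_pow₀ (by norm_num)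
    nlinarith
  refine ⟨X, ⟨by rw [hXeq ∅ (by simp), hX20], ?_, hXsize⟩, A6_basic_congr hXeq hX2sdp,
    fun v => by rw [hXeq {v} (by simp), hX21], ?_⟩
  · intro S T hd hc
    refine A4_stable hδ0 hδ1 hκ0.le hκ1 (law μ U) X ?_ (by
      intro T hT
      have := hXclose' T hT
      rwa [hX0def] at this) he1 S T hd hc
    intro S T hd hc
    rw [C1_incl_excl μ U hd]
    exact C2_nonneg hU hμ0 hc
  · intro u v
    by_cases huv : u = v
    · subst huv
      rw [Finset.insert_eq_of_mem (Finset.mem_singleton_self u), hU1, hXeq {u} (by simp), hX21]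
      nlinarith
    · have h11 := hXclose' {u, v} (Finset.card_le_two.trans hk)
      have h12 := (abs_le.1 h11).1
      have h13 := C5_close hk hU hU1 hμ0 u v
      rw [hexp] at h13
      have h14 : X0 {u, v} = (1 - κ) * law μ U {u, v} + κ * δ ^ 2 := by
        rw [hX0def]; simp only [Finset.card_pair huv]
      have h15 := (hUb u v)
      have h16 : δ * (2 - U {u, v}) ≤ law μ U {u, v} := by linarith
      have h17 : (1 - κ) * (δ * (2 - U {u, v})) ≤ (1 - κ) * law μ U {u, v} :=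
        mul_le_mul_of_nonneg_left h16 (by linarith)
      have h18 : 0 ≤ κ * δ ^ 2 := by positivity
      have h19 : κ * δ * (2 - U {u, v}) ≤ κ * δ * 1 :=
        mul_le_mul_of_nonneg_left (by linarith) (by positivity)
      nlinarith
-- END A6

end Pool.Agent.Lib.MP_8d8c46_lc.SDP
end

section

set_option autoImplicit false

open Finset MeasureTheory
open scoped Classical

namespace Pool.Agent.Lib.MP_8d8c46_lc.SDP

-- BEGIN G1
/-- Two finite families of vectors with the same Gram matrix differ by an isometry. The map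
`∑ c a ψ a ↦ ∑ c a ψ' a` is well defined and isometric on the span of `ψ '' T`; extend it by
`LinearIsometry.extend`, and use that a linear isometry of a finite dimensional space to itself is
an equivalence (`LinearIsometry.toLinearIsometryEquiv`). -/
theorem G1_isom {n : ℕ} {ι : Type*} (ψ ψ' : ι → En n) (T : Finset ι)
    (h : ∀ a ∈ T, ∀ b ∈ T, inner ℝ (ψ a) (ψ b) = inner ℝ (ψ' a) (ψ' b)) :
    ∃ L : En n ≃ₗᵢ[ℝ] En n, ∀ a ∈ T, L (ψ a) = ψ' a := by
  let f : (T → ℝ) →ₗ[ℝ] En n := Fintype.linearCombination ℝ (fun a : T => ψ a)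
  let f' : (T → ℝ) →ₗ[ℝ] En n := Fintype.linearCombination ℝ (fun a : T => ψ' a)
  have hnorm : ∀ c : T → ℝ, ‖f' c‖ = ‖f c‖ := by
    intro c
    have h1 : inner ℝ (f c) (f c) = inner ℝ (f' c) (f' c) := by
      have e1 : f c = ∑ a : T, c a • ψ a := Fintype.linearCombination_apply ℝ _ c
      have e2 : f' c = ∑ a : T, c a • ψ' a := Fintype.linearCombination_apply ℝ _ c
      rw [e1, e2]
      simp only [sum_inner, inner_sum, inner_smul_left, inner_smul_right]
      simp only [h _ (Subtype.coe_prop _) _ (Subtype.coe_prop _)]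
    rw [real_inner_self_eq_norm_sq, real_inner_self_eq_norm_sq] at h1
    exact ((sq_eq_sq₀ (norm_nonneg _) (norm_nonneg _)).1 h1).symm
  have hker : LinearMap.ker f ≤ LinearMap.ker f' := by
    intro c hc
    rw [LinearMap.mem_ker] at hc ⊢
    rw [← norm_eq_zero, hnorm c, hc, norm_zero]
  let L0 : LinearMap.range f →ₗ[ℝ] En n :=
    ((LinearMap.ker f).liftQ f' hker) ∘ₗ (f.quotKerEquivRange.symm : LinearMap.range f →ₗ[ℝ] _)
  have hL0 : ∀ c : T → ℝ, ∀ hm : f c ∈ LinearMap.range f, L0 ⟨f c, hm⟩ = f' c := by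
    intro c hm
    show ((LinearMap.ker f).liftQ f' hker) (f.quotKerEquivRange.symm ⟨f c, hm⟩) = f' c
    rw [LinearMap.quotKerEquivRange_symm_apply_image]
    rfl
  let L1 : LinearMap.range f →ₗᵢ[ℝ] En n :=
    { L0 with
      norm_map' := by
        rintro ⟨x, hx⟩
        obtain ⟨c, rfl⟩ := hx
        have h5 := hL0 c (LinearMap.mem_range_self f c)
        calc ‖L0 ⟨f c, LinearMap.mem_range_self f c⟩‖ = ‖f' c‖ := by rw [h5]
          _ = ‖f c‖ := hnorm c }
  refine ⟨L1.extend.toLinearIsometryEquiv rfl, fun a ha => ?_⟩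
  have hfa : f (Pi.single ⟨a, ha⟩ 1) = ψ a := by
    simp [f, Fintype.linearCombination_apply_single]
  have hfa' : f' (Pi.single ⟨a, ha⟩ 1) = ψ' a := by
    simp [f', Fintype.linearCombination_apply_single]
  have hm : f (Pi.single ⟨a, ha⟩ 1) ∈ LinearMap.range f := LinearMap.mem_range_self _ _
  have h2 := L1.extend_apply ⟨f (Pi.single ⟨a, ha⟩ 1), hm⟩
  have h3 : L1 ⟨f (Pi.single ⟨a, ha⟩ 1), hm⟩ = f' (Pi.single ⟨a, ha⟩ 1) := hL0 _ _
  rw [h3, hfa'] at h2
  rw [← h2]
  show L1.extend (ψ a) = _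
  rw [← hfa]
-- END G1

-- BEGIN G2
/-- `covU` may be computed with any realisation: by `G1_isom` and invariance of the volume under
`LinearIsometryEquiv` (`LinearIsometryEquiv.measurePreserving`). -/
theorem G2_covU_eq {V : Type*} (n : ℕ) (g : V → V → ℝ) (T : Finset V) (ψ : V → En n)
    (h : ∀ a ∈ T, ∀ b ∈ T, inner ℝ (ψ a) (ψ b) = g a b) :
    covU n g T = volume.real (⋃ a ∈ T, Metric.closedBall (ψ a) rad) /
      volume.real (Metric.closedBall (0 : En n) rad) := by
  have hex : ∃ ψ : V → En n, ∀ a ∈ T, ∀ b ∈ T, inner ℝ (ψ a) (ψ b) = g a b := ⟨ψ, h⟩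
  have h0 : covU n g T = volume.real (⋃ a ∈ T, Metric.closedBall (hex.choose a) rad) /
      volume.real (Metric.closedBall (0 : En n) rad) := by
    unfold covU
    rw [dif_pos hex]
  rw [h0]
  have hspec := hex.choose_spec
  set ψ' : V → En n := hex.choose with hψ'
  obtain ⟨L, hL⟩ := G1_isom ψ' ψ T (fun a ha b hb => by rw [hspec a ha b hb, h a ha b hb])
  congr 1
  have hset : (⋃ a ∈ T, Metric.closedBall (ψ' a) rad) =
      L ⁻¹' (⋃ a ∈ T, Metric.closedBall (ψ a) rad) := by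
    ext x
    simp only [Set.mem_iUnion, Set.mem_preimage, Metric.mem_closedBall, exists_prop]
    constructor
    · rintro ⟨a, ha, hx⟩
      refine ⟨a, ha, ?_⟩
      rw [← hL a ha, L.dist_map]
      exact hx
    · rintro ⟨a, ha, hx⟩
      refine ⟨a, ha, ?_⟩
      rw [← hL a ha, L.dist_map] at hx
      exact hx
  have hm : MeasurableSet (⋃ a ∈ T, Metric.closedBall (ψ a) rad) :=
    Finset.measurableSet_biUnion T fun a _ => measurableSet_closedBall
  rw [hset, measureReal_def, measureReal_def,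
    L.measurePreserving.measure_preimage hm.nullMeasurableSet]
-- END G2

-- BEGIN G3
/-- The measure of the union of the `E a`, `a ∈ T`, is the sum of the measures of the atoms
`(⋂ a ∈ B, E a) \ ⋃ a ∈ A \ B, E a` over the `B ⊆ A` that meet `T` (`w B = 0` unless
`B ⊆ A` is nonempty). -/
theorem G3_atoms {V Ω : Type*} [DecidableEq V] [MeasurableSpace Ω] (ν : Measure Ω) (A : Finset V)
    (E : V → Set Ω) (hE : ∀ a, MeasurableSet (E a)) (hf : ∀ a, ν (E a) ≠ ⊤) :
    ∃ w : Finset V → ℝ, (∀ B, 0 ≤ w B) ∧ ∀ T ⊆ A, ν.real (⋃ a ∈ T, E a) =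
      ∑ B ∈ A.powerset.filter (fun B => (B ∩ T).Nonempty), w B := by
  have hmeas : ∀ B ∈ A.powerset, MeasurableSet {x | A.filter (fun a => x ∈ E a) = B} := by
    intro B hB
    rw [Finset.mem_powerset] at hB
    have : {x | A.filter (fun a => x ∈ E a) = B} =
        ⋂ a ∈ A, (if a ∈ B then E a else (E a)ᶜ) := by
      ext x
      simp only [Set.mem_setOf_eq, Set.mem_iInter]
      constructor
      · intro h a ha
        split_ifs with haB
        · rw [← h, Finset.mem_filter] at haB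
          exact haB.2
        · intro hx
          apply haB
          rw [← h, Finset.mem_filter]
          exact ⟨ha, hx⟩
      · intro h
        ext a
        rw [Finset.mem_filter]
        constructor
        · rintro ⟨ha, hx⟩
          by_contra haB
          have := h a ha
          rw [if_neg haB] at this
          exact this hx
        · intro haB
          have := h a (hB haB)
          rw [if_pos haB] at this
          exact ⟨hB haB, this⟩
    rw [this]
    apply Finset.measurableSet_biInter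
    intro a _
    split_ifs
    · exact hE a
    · exact (hE a).compl
  refine ⟨fun B => ν.real {x | A.filter (fun a => x ∈ E a) = B},
    fun B => measureReal_nonneg, ?_⟩
  intro T hT
  have hU : (⋃ a ∈ T, E a) = ⋃ B ∈ A.powerset.filter (fun B => (B ∩ T).Nonempty),
      {x | A.filter (fun a => x ∈ E a) = B} := by
    ext x
    simp only [Set.mem_iUnion, Set.mem_setOf_eq, Finset.mem_filter, Finset.mem_powerset]
    constructor
    · rintro ⟨a, ha, hx⟩
      exact ⟨_, ⟨Finset.filter_subset _ _, a, by simp [ha, hx, hT ha]⟩, rfl⟩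
    · rintro ⟨B, ⟨_, a, ha⟩, rfl⟩
      rw [Finset.mem_inter, Finset.mem_filter] at ha
      exact ⟨a, ha.2, ha.1.2⟩
  rw [hU]
  apply measureReal_biUnion_finset
  · intro B _ B' _ hne
    refine Set.disjoint_left.mpr ?_
    intro x hx hx'
    exact hne (hx.symm.trans hx')
  · intro B hB
    exact hmeas B (Finset.mem_filter.mp hB).1
  · intro B hB
    obtain ⟨_, a, ha⟩ := Finset.mem_filter.mp hB
    rw [Finset.mem_inter] at ha
    refine ne_top_of_le_ne_top (hf a) (measure_mono ?_)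
    intro x hx
    have : a ∈ A.filter (fun a => x ∈ E a) := by
      rw [Set.mem_setOf_eq] at hx
      rw [hx]
      exact ha.1
    exact (Finset.mem_filter.mp this).2
-- END G3

-- BEGIN G4
/-- From `K6_gram`, `G2_covU_eq` (for all `T ⊆ A` with the same `ψ`) and `G3_atoms`. -/
theorem G4_locCov {V : Type*} [Fintype V] [DecidableEq V] {g : V → V → ℝ} (hg : PSDk g) (n : ℕ) :
    LocCov n (covU n g) := by
  intro A hA
  obtain ⟨ψ, hψ⟩ := K6_gram hg n A hA
  obtain ⟨w, hw0, hw⟩ := G3_atoms (volume : Measure (En n)) A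
    (fun a => Metric.closedBall (ψ a) rad) (fun a => measurableSet_closedBall)
    (fun a => (isCompact_closedBall (ψ a) rad).measure_lt_top.ne)
  refine ⟨fun B => w B / volume.real (Metric.closedBall (0 : En n) rad),
    fun B => div_nonneg (hw0 B) measureReal_nonneg, ?_⟩
  intro T hT
  rw [G2_covU_eq n g T ψ (fun a ha b hb => hψ a (hT ha) b (hT hb)), hw T hT, Finset.sum_div]
-- END G4

-- BEGIN G5
/-- One ball: translation invariance; the volume of a ball of positive radius is positive. -/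
theorem G5_single {V : Type*} [Fintype V] [DecidableEq V] {g : V → V → ℝ} (hg : PSDk g) {n : ℕ}
    (hn : 1 ≤ n) (v : V) : covU n g {v} = 1 := by
  obtain ⟨ψ, hψ⟩ := K6_gram hg n {v} (by simpa using hn)
  rw [G2_covU_eq n g {v} ψ hψ]
  have h1 : (⋃ a ∈ ({v} : Finset V), Metric.closedBall (ψ a) rad) =
      Metric.closedBall (ψ v) rad := by simp
  have hr : 0 < rad := by unfold rad; positivity
  rw [h1, Measure.addHaar_real_closedBall_center]
  refine div_self ?_
  have h3 : 0 < volume (Metric.closedBall (0 : En n) rad) :=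
    Metric.measure_closedBall_pos _ _ hr
  have h4 : volume (Metric.closedBall (0 : En n) rad) ≠ ⊤ :=
    (isCompact_closedBall (0 : En n) rad).measure_lt_top.ne
  exact (ENNReal.toReal_pos h3.ne' h4).ne'
-- END G5

-- BEGIN G6
/-- Move the two centres to `∓ (s/2) e_0` by an isometry (translation by the midpoint, then a linear
isometry taking `(b - a)/s` to `e_0`, e.g. by `G1_isom`; for `s = 0` only the translation).
In coordinates `‖z ∓ (s/2) e_0‖^2 = ‖z‖^2 ∓ s z_0 + s^2/4`, so both are `≤ r^2` iff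
`‖z‖^2 + s |z_0| + s^2/4 ≤ r^2`. -/
theorem G6_move (m : ℕ) (a b : En (2 * m + 1)) (s r : ℝ) (hs : ‖a - b‖ = s) (hr : 0 < r) :
    volume.real (Metric.closedBall a r ∩ Metric.closedBall b r) =
      volume.real {z : En (2 * m + 1) | ‖z‖ ^ 2 + s * |z 0| + s ^ 2 / 4 ≤ r ^ 2} := by
  have hs0 : 0 ≤ s := hs ▸ norm_nonneg _
  set e : En (2 * m + 1) := EuclideanSpace.single 0 (s / 2) with he
  set c : En (2 * m + 1) := (1 / 2 : ℝ) • (a - b) with hc
  set p : En (2 * m + 1) := (1 / 2 : ℝ) • (a + b) with hp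
  have hnc : inner ℝ c c = s ^ 2 / 4 := by
    rw [real_inner_self_eq_norm_sq, hc, norm_smul, hs]
    norm_num
    ring
  have hne : inner ℝ e e = s ^ 2 / 4 := by
    rw [real_inner_self_eq_norm_sq, he, EuclideanSpace.norm_single, Real.norm_eq_abs, sq_abs]
    ring
  obtain ⟨L, hL⟩ := G1_isom (fun _ : Unit => c) (fun _ : Unit => e) {()} (by
    intro x _ y _
    rw [hnc, hne])
  have hLc : L c = e := hL () (Finset.mem_singleton_self _)
  set S : Set (En (2 * m + 1)) :=
    {z : En (2 * m + 1) | ‖z‖ ^ 2 + s * |z 0| + s ^ 2 / 4 ≤ r ^ 2} with hS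
  have hSm : MeasurableSet S := by
    refine IsClosed.measurableSet ?_
    refine isClosed_le ?_ continuous_const
    fun_prop
  have hmp : MeasurePreserving (fun z : En (2 * m + 1) => L (z - p)) volume volume :=
    L.measurePreserving.comp (measurePreserving_sub_right volume p)
  have hnorm : ∀ (w : En (2 * m + 1)) (δ : ℝ), (δ = 1 ∨ δ = -1) →
      ‖w - δ • e‖ ^ 2 = ‖w‖ ^ 2 - δ * (s * w 0) + s ^ 2 / 4 := by
    intro w δ hδ
    have h1 : inner ℝ w (δ • e) = δ * (s / 2 * w 0) := by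
      rw [inner_smul_right, he, EuclideanSpace.inner_single_right]
      simp
    rw [norm_sub_sq_real, h1, norm_smul, mul_pow, ← real_inner_self_eq_norm_sq e, hne]
    rcases hδ with h | h <;> rw [h] <;> simp <;> ring
  have hset : Metric.closedBall a r ∩ Metric.closedBall b r =
      (fun z : En (2 * m + 1) => L (z - p)) ⁻¹' S := by
    ext z
    set w := L (z - p) with hw
    have hza : ‖z - a‖ ^ 2 = ‖w‖ ^ 2 - s * w 0 + s ^ 2 / 4 := by
      have h1 : z - a = (z - p) - c := by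
        rw [hp, hc]
        module
      have h2 := hnorm w 1 (Or.inl rfl)
      rw [h1, ← L.norm_map, map_sub, hLc, ← hw]
      rw [one_smul, one_mul] at h2
      exact h2
    have hzb : ‖z - b‖ ^ 2 = ‖w‖ ^ 2 + s * w 0 + s ^ 2 / 4 := by
      have h1 : z - b = (z - p) + c := by
        rw [hp, hc]
        module
      have h2 := hnorm w (-1) (Or.inr rfl)
      rw [h1, ← L.norm_map, map_add, hLc, ← hw]
      rw [neg_one_smul, sub_neg_eq_add] at h2
      rw [h2]
      ring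
    rw [Set.mem_inter_iff, Metric.mem_closedBall, Metric.mem_closedBall, dist_eq_norm,
      dist_eq_norm, Set.mem_preimage, hS, Set.mem_setOf_eq]
    change ‖z - a‖ ≤ r ∧ ‖z - b‖ ≤ r ↔ ‖w‖ ^ 2 + s * |w 0| + s ^ 2 / 4 ≤ r ^ 2
    rw [← sq_le_sq₀ (norm_nonneg (z - a)) hr.le, ← sq_le_sq₀ (norm_nonneg (z - b)) hr.le, hza, hzb]
    have h5 : s * |w 0| = |s * w 0| := by rw [abs_mul, abs_of_nonneg hs0]
    rw [h5]
    constructor
    · rintro ⟨h6, h7⟩
      rcases abs_cases (s * w 0) with ⟨h8, _⟩ | ⟨h8, _⟩ <;> rw [h8] <;> linarith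
    · intro h6
      have h7 := le_abs_self (s * w 0)
      have h8 := neg_abs_le (s * w 0)
      constructor <;> linarith
  rw [hset, measureReal_def, measureReal_def, hmp.measure_preimage hSm.nullMeasurableSet]
-- END G6

-- BEGIN G7
/-- The splitting `En (n + 1) = ℝ × En n` preserves the volume. -/
theorem G7_split (n : ℕ) : MeasurePreserving
    (fun z : En (n + 1) => ((z 0, WithLp.toLp 2 (fun i : Fin n => z i.succ)) : ℝ × En n))
    volume (volume.prod volume) := by
  have h1 := PiLp.volume_preserving_ofLp (Fin (n + 1))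
  have h2 := volume_preserving_piFinSuccAbove (fun _ : Fin (n + 1) => ℝ) 0
  have h3 := (MeasurePreserving.id (volume : Measure ℝ)).prod (PiLp.volume_preserving_toLp (Fin n))
  exact h3.comp (h2.comp h1)

/-- Fubini: `En (2m+1)` is `ℝ × En (2m)` with `‖z‖^2 = z_0^2 + ‖z'‖^2`
(`EuclideanSpace.volume_preserving...`, `MeasurableEquiv.piFinSuccAbove`,
`volume_preserving_piFinSuccAbove`), and the section of the set over `z_0 = x` is the closed ball
of radius `√(r^2 - (|x| + s/2)^2)` in `En (2m)` if `|x| ≤ r - s/2` and empty otherwise; its volume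
is the `2m`-th power of the radius times the volume of the unit ball
(`MeasureTheory.Measure.addHaar_closedBall`). -/
theorem G7_slice (m : ℕ) (s r : ℝ) (hs : 0 ≤ s) (hr : 0 < r) (hsr : s ≤ 2 * r) :
    volume.real {z : En (2 * m + 1) | ‖z‖ ^ 2 + s * |z 0| + s ^ 2 / 4 ≤ r ^ 2} =
      volume.real (Metric.closedBall (0 : En (2 * m)) 1) *
        ∫ x in (-(r - s / 2))..(r - s / 2), (r ^ 2 - (|x| + s / 2) ^ 2) ^ m := by
  set S' : Set (ℝ × En (2 * m)) :=
    {p | p.1 ^ 2 + ‖p.2‖ ^ 2 + s * |p.1| + s ^ 2 / 4 ≤ r ^ 2} with hS'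
  have hS'm : MeasurableSet S' := by
    refine IsClosed.measurableSet ?_
    refine isClosed_le ?_ continuous_const
    fun_prop
  set K : ENNReal := volume (Metric.closedBall (0 : En (2 * m)) 1) with hK
  set f : ℝ → ℝ := fun x => (r ^ 2 - (|x| + s / 2) ^ 2) ^ m with hf
  have hpre : {z : En (2 * m + 1) | ‖z‖ ^ 2 + s * |z 0| + s ^ 2 / 4 ≤ r ^ 2} =
      (fun z : En (2 * m + 1) =>
        ((z 0, WithLp.toLp 2 (fun i : Fin (2 * m) => z i.succ)) : ℝ × En (2 * m))) ⁻¹' S' := by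
    ext z
    rw [Set.mem_preimage, hS', Set.mem_setOf_eq, Set.mem_setOf_eq]
    have h1 : ‖z‖ ^ 2 = z 0 ^ 2 + ‖(WithLp.toLp 2 (fun i : Fin (2 * m) => z i.succ) :
        En (2 * m))‖ ^ 2 := by
      rw [EuclideanSpace.real_norm_sq_eq, EuclideanSpace.real_norm_sq_eq, Fin.sum_univ_succ]
    rw [h1]
  have hsec : ∀ x : ℝ, volume (Prod.mk x ⁻¹' S') =
      (Set.Icc (-(r - s / 2)) (r - s / 2)).indicator (fun x => ENNReal.ofReal (f x) * K) x := by
    intro x
    by_cases hx : x ∈ Set.Icc (-(r - s / 2)) (r - s / 2)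
    · rw [Set.indicator_of_mem hx]
      have hx' : |x| ≤ r - s / 2 := abs_le.mpr hx
      have h0 : 0 ≤ |x| + s / 2 := by positivity
      have hρ : 0 ≤ r ^ 2 - (|x| + s / 2) ^ 2 := by
        have : (|x| + s / 2) ^ 2 ≤ r ^ 2 := by
          apply pow_le_pow_left₀ h0
          linarith
        linarith
      have h1 : Prod.mk x ⁻¹' S' =
          Metric.closedBall (0 : En (2 * m)) (Real.sqrt (r ^ 2 - (|x| + s / 2) ^ 2)) := by
        ext y
        rw [Set.mem_preimage, hS', Set.mem_setOf_eq, mem_closedBall_zero_iff,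
          Real.le_sqrt (norm_nonneg _) hρ]
        have h2 : x ^ 2 = |x| ^ 2 := (sq_abs x).symm
        constructor
        · intro h
          simp only at h
          nlinarith
        · intro h
          simp only
          nlinarith
      rw [h1, Measure.addHaar_closedBall' _ _ (Real.sqrt_nonneg _), finrank_euclideanSpace_fin]
      congr 2
      rw [pow_mul, Real.sq_sqrt hρ]
    · rw [Set.indicator_of_notMem hx]
      have hx' : r - s / 2 < |x| := by
        by_contra h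
        exact hx (abs_le.mp (not_lt.mp h))
      have h1 : Prod.mk x ⁻¹' S' = ∅ := by
        rw [Set.eq_empty_iff_forall_notMem]
        intro y hy
        rw [Set.mem_preimage, hS', Set.mem_setOf_eq] at hy
        simp only at hy
        have h2 : x ^ 2 = |x| ^ 2 := (sq_abs x).symm
        have h3 : r ^ 2 < (|x| + s / 2) ^ 2 := by
          apply pow_lt_pow_left₀ _ hr.le (by norm_num)
          linarith
        have h4 := sq_nonneg ‖y‖
        nlinarith
      rw [h1, measure_empty]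
  have hle : -(r - s / 2) ≤ r - s / 2 := by linarith
  have hfc : Continuous f := by
    rw [hf]
    fun_prop
  have hvol : volume {z : En (2 * m + 1) | ‖z‖ ^ 2 + s * |z 0| + s ^ 2 / 4 ≤ r ^ 2} =
      (∫⁻ x in Set.Icc (-(r - s / 2)) (r - s / 2), ENNReal.ofReal (f x)) * K := by
    rw [hpre, (G7_split (2 * m)).measure_preimage hS'm.nullMeasurableSet,
      Measure.prod_apply hS'm, lintegral_congr hsec, lintegral_indicator measurableSet_Icc,
      lintegral_mul_const]
    exact hfc.measurable.ennreal_ofReal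
  rw [measureReal_def, hvol, ENNReal.toReal_mul, mul_comm, measureReal_def]
  congr 1
  rw [intervalIntegral.integral_of_le hle, ← integral_Icc_eq_integral_Ioc,
    integral_eq_lintegral_of_nonneg_ae]
  · refine (ae_restrict_iff' measurableSet_Icc).mpr (Filter.Eventually.of_forall fun x hx => ?_)
    have hx' : |x| ≤ r - s / 2 := abs_le.mpr hx
    have h0 : 0 ≤ |x| + s / 2 := by positivity
    have : (|x| + s / 2) ^ 2 ≤ r ^ 2 := by
      apply pow_le_pow_left₀ h0
      linarith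
    exact pow_nonneg (by linarith) m
  · exact hfc.aestronglyMeasurable
-- END G7

-- BEGIN G8
/-- The one-dimensional integral for `r = 1/√2` and `s = √(2 (1 - y))`: by symmetry it is
`2 ∫_{s/2}^r (1/2 - x^2)^m dx`, and `x = ξ/√2` gives `2 (1/√2) (1/2)^m Phi m (√(1-y))`. -/
theorem G8_int (m : ℕ) {y : ℝ} (h0 : 0 ≤ y) (h1 : y ≤ 1) :
    (∫ x in (-(rad - Real.sqrt (2 * (1 - y)) / 2))..(rad - Real.sqrt (2 * (1 - y)) / 2),
      (rad ^ 2 - (|x| + Real.sqrt (2 * (1 - y)) / 2) ^ 2) ^ m) =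
      2 * rad * (1 / 2) ^ m * Phi m (Real.sqrt (1 - y)) := by
  set σ : ℝ := Real.sqrt (1 - y) with hσ
  have hy : 0 ≤ 1 - y := by linarith
  have hσ1 : σ ≤ 1 := by
    rw [hσ]
    exact Real.sqrt_le_one.2 (by linarith)
  have hr2 : rad ^ 2 = 1 / 2 := by
    unfold rad
    exact Real.sq_sqrt (by norm_num)
  have hr0 : 0 < rad := by
    unfold rad
    exact Real.sqrt_pos.2 (by norm_num)
  have hs : Real.sqrt (2 * (1 - y)) / 2 = rad * σ := by
    have e1 : (2 : ℝ) * (1 - y) = 2 ^ 2 * (1 / 2 * (1 - y)) := by ring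
    rw [e1, Real.sqrt_mul (by norm_num), Real.sqrt_sq (by norm_num),
      Real.sqrt_mul (by norm_num)]
    unfold rad
    ring
  rw [hs]
  set c : ℝ := rad - rad * σ with hc
  have hc0 : 0 ≤ c := by
    have : rad * σ ≤ rad * 1 := mul_le_mul_of_nonneg_left hσ1 hr0.le
    rw [hc]
    linarith
  have hcont : Continuous fun x : ℝ => (rad ^ 2 - (|x| + rad * σ) ^ 2) ^ m := by fun_prop
  have hsplit : (∫ x in (-c)..c, (rad ^ 2 - (|x| + rad * σ) ^ 2) ^ m) =
      (∫ x in (-c)..0, (rad ^ 2 - (|x| + rad * σ) ^ 2) ^ m) +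
        ∫ x in (0 : ℝ)..c, (rad ^ 2 - (|x| + rad * σ) ^ 2) ^ m :=
    (intervalIntegral.integral_add_adjacent_intervals (hcont.intervalIntegrable _ _)
      (hcont.intervalIntegrable _ _)).symm
  have hneg : (∫ x in (-c)..0, (rad ^ 2 - (|x| + rad * σ) ^ 2) ^ m) =
      ∫ x in (0 : ℝ)..c, (rad ^ 2 - (|x| + rad * σ) ^ 2) ^ m := by
    have h5 := intervalIntegral.integral_comp_neg (a := 0) (b := c)
      (fun x : ℝ => (rad ^ 2 - (|x| + rad * σ) ^ 2) ^ m)
    simp only [abs_neg, neg_zero] at h5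
    exact h5.symm
  have habs : (∫ x in (0 : ℝ)..c, (rad ^ 2 - (|x| + rad * σ) ^ 2) ^ m) =
      ∫ x in (0 : ℝ)..c, (rad ^ 2 - (x + rad * σ) ^ 2) ^ m := by
    refine intervalIntegral.integral_congr fun x hx => ?_
    rw [Set.uIcc_of_le hc0] at hx
    show (rad ^ 2 - (|x| + rad * σ) ^ 2) ^ m = (rad ^ 2 - (x + rad * σ) ^ 2) ^ m
    rw [abs_of_nonneg hx.1]
  have hsub : (∫ ξ in σ..1, (rad ^ 2 - ((rad * ξ - rad * σ) + rad * σ) ^ 2) ^ m) =
      rad⁻¹ * ∫ x in (0 : ℝ)..c, (rad ^ 2 - (x + rad * σ) ^ 2) ^ m := by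
    have h6 := intervalIntegral.integral_comp_mul_sub (a := σ) (b := 1)
      (fun x : ℝ => (rad ^ 2 - (x + rad * σ) ^ 2) ^ m) hr0.ne' (rad * σ)
    rw [h6, sub_self, mul_one, smul_eq_mul]
  have hphi : (∫ ξ in σ..1, (rad ^ 2 - ((rad * ξ - rad * σ) + rad * σ) ^ 2) ^ m) =
      (1 / 2) ^ m * Phi m σ := by
    unfold Phi
    rw [← intervalIntegral.integral_const_mul]
    refine intervalIntegral.integral_congr fun ξ _ => ?_
    show (rad ^ 2 - ((rad * ξ - rad * σ) + rad * σ) ^ 2) ^ m = (1 / 2) ^ m * (1 - ξ ^ 2) ^ m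
    rw [← mul_pow, sub_add_cancel, mul_pow, hr2]
    congr 1
    ring
  rw [hsplit, hneg, habs]
  have h7 : (∫ x in (0 : ℝ)..c, (rad ^ 2 - (x + rad * σ) ^ 2) ^ m) =
      rad * ((1 / 2) ^ m * Phi m σ) := by
    rw [← hphi, hsub, ← mul_assoc, mul_inv_cancel₀ hr0.ne', one_mul]
  rw [h7]
  ring
-- END G8

-- BEGIN G9
/-- The lens formula: `G6_move`, `G7_slice` and `G8_int` for the given `y` and for `y = 1`
(`s = 0`, the whole ball; `Phi m 0 > 0` by `L1_phi_zero`). -/
theorem G9_lens (m : ℕ) (a b : En (2 * m + 1)) {y : ℝ} (h0 : 0 ≤ y) (h1 : y ≤ 1)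
    (hab : ‖a - b‖ ^ 2 = 2 * (1 - y)) :
    volume.real (Metric.closedBall a rad ∩ Metric.closedBall b rad) =
      volume.real (Metric.closedBall (0 : En (2 * m + 1)) rad) * lensP m y := by
  have hrad : 0 < rad := by unfold rad; positivity
  have hrad2 : rad ^ 2 = 1 / 2 := by
    unfold rad
    exact Real.sq_sqrt (by norm_num)
  have key : ∀ (a b : En (2 * m + 1)) (y : ℝ), 0 ≤ y → y ≤ 1 → ‖a - b‖ ^ 2 = 2 * (1 - y) →
      volume.real (Metric.closedBall a rad ∩ Metric.closedBall b rad) =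
        volume.real (Metric.closedBall (0 : En (2 * m)) 1) *
          (2 * rad * (1 / 2) ^ m * Phi m (Real.sqrt (1 - y))) := by
    intro a b y h0 h1 hab
    have hs : ‖a - b‖ = Real.sqrt (2 * (1 - y)) := by
      rw [← hab, Real.sqrt_sq (norm_nonneg _)]
    rw [G6_move m a b _ rad hs hrad, G7_slice m _ rad (Real.sqrt_nonneg _) hrad, G8_int m h0 h1]
    rw [Real.sqrt_le_left (by positivity)]
    rw [mul_pow, hrad2]
    linarith
  have hP : 0 < Phi m 0 := lt_of_lt_of_le (by positivity) (L1_phi_zero m)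
  have h2 := key 0 0 1 zero_le_one le_rfl (by simp)
  rw [Set.inter_self, sub_self, Real.sqrt_zero] at h2
  rw [key a b y h0 h1 hab, h2, lensP]
  field_simp
-- END G9

-- BEGIN G10
/-- Two balls: `vol (A ∪ B) = vol A + vol B - vol (A ∩ B)`, `K6_gram`, `G2_covU_eq`, `G9_lens`,
with `‖ψ u - ψ v‖^2 = 2 - 2 g u v`. For `u = v` both sides are `1` (`L2_close`). -/
theorem G10_pair {V : Type*} [Fintype V] [DecidableEq V] {g : V → V → ℝ} (hg : PSDk g)
    (h1 : ∀ v, g v v = 1) (h0 : ∀ u v, 0 ≤ g u v) {m : ℕ} (hm : 1 ≤ m) (u v : V) :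
    covU (2 * m + 1) g {u, v} = 2 - lensP m (g u v) := by
  have hrad : 0 < rad := by unfold rad; positivity
  have hcard : ({u, v} : Finset V).card ≤ 2 * m + 1 := by
    refine (Finset.card_le_two).trans (by omega)
  obtain ⟨ψ, hψ⟩ := K6_gram hg (2 * m + 1) ({u, v} : Finset V) hcard
  rw [G2_covU_eq (2 * m + 1) g ({u, v} : Finset V) ψ hψ]
  have hu : u ∈ ({u, v} : Finset V) := by simp
  have hv : v ∈ ({u, v} : Finset V) := by simp
  have huu := hψ u hu u hu
  have hvv := hψ v hv v hv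
  have huv := hψ u hu v hv
  rw [h1] at huu hvv
  have hab : ‖ψ u - ψ v‖ ^ 2 = 2 * (1 - g u v) := by
    rw [norm_sub_sq_real, ← real_inner_self_eq_norm_sq, ← real_inner_self_eq_norm_sq, huu, hvv,
      huv]
    ring
  have hU : (⋃ a ∈ ({u, v} : Finset V), Metric.closedBall (ψ a) rad) =
      Metric.closedBall (ψ u) rad ∪ Metric.closedBall (ψ v) rad := by
    ext z
    simp
  have hball : ∀ c : En (2 * m + 1), volume.real (Metric.closedBall c rad) =
      volume.real (Metric.closedBall (0 : En (2 * m + 1)) rad) := by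
    intro c
    simp only [Measure.real]
    rw [Measure.addHaar_closedBall_center]
  have hfin : ∀ c : En (2 * m + 1), volume (Metric.closedBall c rad) ≠ ⊤ :=
    fun c => measure_closedBall_lt_top.ne
  have hpos : 0 < volume.real (Metric.closedBall (0 : En (2 * m + 1)) rad) := by
    rw [Measure.real, ENNReal.toReal_pos_iff]
    exact ⟨Metric.measure_closedBall_pos _ _ hrad, measure_closedBall_lt_top⟩
  have hunion := measureReal_union_add_inter (μ := volume) (s := Metric.closedBall (ψ u) rad)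
    (t := Metric.closedBall (ψ v) rad) Metric.isClosed_closedBall.measurableSet
    (hfin _) (hfin _)
  have hlens := G9_lens m (ψ u) (ψ v) (h0 u v) (K8_le_one hg h1 u v) hab
  rw [hlens, hball (ψ u), hball (ψ v)] at hunion
  rw [hU, div_eq_iff hpos.ne']
  linarith
-- END G10

end Pool.Agent.Lib.MP_8d8c46_lc.SDP
end

section

set_option autoImplicit false

open Finset
open scoped Classical

namespace Pool.Agent.Lib.MP_8d8c46_lc.SDP

-- BEGIN H1
/-- The neighbours of `(x, a)` are the `(x + z, b)`, `z ∈ Z`, `b : Fin q`. -/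
theorem H1_regular {D q : ℕ} (Z : Finset (Cube D)) (hZ : (0 : Cube D) ∉ Z) :
    Regular (cay q Z hZ) (Z.card * q) := by
  have hself : ∀ x : Cube D, x + x = 0 := fun x => by
    funext i
    exact CharTwo.add_self_eq_zero (x i)
  intro v
  have h1 : (Z ×ˢ (univ : Finset (Fin q))).card = Z.card * q := by
    rw [card_product, card_univ, Fintype.card_fin]
  rw [← h1]
  refine card_nbij' (fun u => (v.1 + u.1, u.2)) (fun w => (v.1 + w.1, w.2)) ?_ ?_ ?_ ?_
  · intro u hu
    have h2 : v.1 + u.1 ∈ Z := (mem_filter.1 (mem_coe.1 hu)).2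
    exact mem_coe.2 (mem_product.2 ⟨h2, mem_univ _⟩)
  · intro w hw
    have h2 := (mem_product.1 (mem_coe.1 hw)).1
    refine mem_coe.2 (mem_filter.2 ⟨mem_univ _, ?_⟩)
    show v.1 + (v.1 + w.1) ∈ Z
    rw [← add_assoc, hself, zero_add]
    exact h2
  · intro u _
    show (v.1 + (v.1 + u.1), u.2) = u
    rw [← add_assoc, hself, zero_add]
  · intro w _
    show (v.1 + (v.1 + w.1), w.2) = w
    rw [← add_assoc, hself, zero_add]
-- END H1

/-- The fraction of the fibre over `x` that lies in `S`. -/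
noncomputable def frac {D q : ℕ} (S : Finset (Cube D × Fin q)) (x : Cube D) : ℝ :=
  ((univ.filter (fun a : Fin q => (x, a) ∈ S)).card : ℝ) / q

-- BEGIN H2
/-- `0 ≤ frac ≤ 1`, the mean of `frac S` is `|S| / (2^D q)`, and the number of ordered pairs of
adjacent vertices inside `S` is `∑ x, ∑ z ∈ Z, (q frac S x) (q frac S (x + z))`. -/
theorem H2_inside {D q : ℕ} (hq : 1 ≤ q) (Z : Finset (Cube D)) (hZ : (0 : Cube D) ∉ Z)
    (S : Finset (Cube D × Fin q)) :
    (∀ x, 0 ≤ frac S x) ∧ (∀ x, frac S x ≤ 1) ∧ (avg (frac S) = S.card / (2 ^ D * q)) ∧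
      (inside (cay q Z hZ) S : ℝ) = (q : ℝ) ^ 2 * ∑ z ∈ Z, ∑ x, frac S x * frac S (x + z) := by
  have hq0 : (0 : ℝ) < q := by exact_mod_cast hq
  have hself : ∀ x : Cube D, x + x = 0 := fun x => by
    funext i
    exact CharTwo.add_self_eq_zero (x i)
  have hcard : (Fintype.card (Cube D) : ℝ) = 2 ^ D := by
    rw [Fintype.card_fun, ZMod.card, Fintype.card_fin]
    push_cast
    rfl
  have hfr : ∀ x, (q : ℝ) * frac S x = ∑ a : Fin q, if (x, a) ∈ S then (1 : ℝ) else 0 := by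
    intro x
    unfold frac
    rw [mul_div_cancel₀ _ hq0.ne', sum_boole]
  refine ⟨fun x => by unfold frac; positivity, fun x => ?_, ?_, ?_⟩
  · unfold frac
    rw [div_le_one hq0]
    have h1 := card_le_univ (univ.filter (fun a : Fin q => (x, a) ∈ S))
    rw [Fintype.card_fin] at h1
    exact_mod_cast h1
  · have h1 : (S.card : ℝ) = q * ∑ x, frac S x := by
      rw [mul_sum]
      simp_rw [hfr]
      rw [← Fintype.sum_prod_type (f := fun p : Cube D × Fin q => if p ∈ S then (1 : ℝ) else 0),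
        sum_boole, filter_univ_mem]
    unfold avg
    rw [h1, hcard]
    field_simp
  · have h1 : (inside (cay q Z hZ) S : ℝ) = ∑ u : Cube D × Fin q, ∑ v : Cube D × Fin q,
        if u ∈ S ∧ v ∈ S ∧ u.1 + v.1 ∈ Z then (1 : ℝ) else 0 := by
      have e1 : inside (cay q Z hZ) S = (univ.filter
          (fun p : (Cube D × Fin q) × (Cube D × Fin q) =>
            p.1 ∈ S ∧ p.2 ∈ S ∧ p.1.1 + p.2.1 ∈ Z)).card := by
        unfold inside
        congr 1
        ext p
        simp only [mem_filter, mem_univ, true_and]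
        exact Iff.rfl
      rw [e1, ← sum_boole]
      exact Fintype.sum_prod_type _
    rw [h1]
    have h2 : ∀ u : Cube D × Fin q, (∑ v : Cube D × Fin q,
        if u ∈ S ∧ v ∈ S ∧ u.1 + v.1 ∈ Z then (1 : ℝ) else 0)
        = (if u ∈ S then (1 : ℝ) else 0) * ∑ z ∈ Z, q * frac S (u.1 + z) := by
      intro u
      rw [Fintype.sum_prod_type]
      have h3 : ∀ y : Cube D, (∑ b : Fin q, if u ∈ S ∧ (y, b) ∈ S ∧ u.1 + (y, b).1 ∈ Z
          then (1 : ℝ) else 0)
          = (if u ∈ S then (1 : ℝ) else 0) * ((if u.1 + y ∈ Z then (1 : ℝ) else 0)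
            * (q * frac S y)) := by
        intro y
        rw [hfr, mul_sum, mul_sum]
        refine sum_congr rfl fun b _ => ?_
        by_cases a1 : u ∈ S <;> by_cases a2 : (y, b) ∈ S <;> by_cases a3 : u.1 + y ∈ Z <;>
          simp [a1, a2, a3]
      rw [sum_congr rfl fun y _ => h3 y, ← mul_sum]
      congr 1
      have h4 : ∑ y : Cube D, (if u.1 + y ∈ Z then (1 : ℝ) else 0) * (q * frac S y)
          = ∑ z : Cube D, (if z ∈ Z then (1 : ℝ) else 0) * (q * frac S (u.1 + z)) := by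
        refine Fintype.sum_equiv (Equiv.addLeft u.1) _ _ fun y => ?_
        show _ = (if u.1 + y ∈ Z then (1 : ℝ) else 0) * (q * frac S (u.1 + (u.1 + y)))
        rw [← add_assoc, hself, zero_add]
      rw [h4]
      simp_rw [ite_mul, one_mul, zero_mul]
      rw [sum_ite_mem, univ_inter]
    rw [sum_congr rfl fun u _ => h2 u, Fintype.sum_prod_type]
    have h5 : ∀ x : Cube D, (∑ a : Fin q, (if (x, a) ∈ S then (1 : ℝ) else 0) *
        ∑ z ∈ Z, q * frac S ((x, a).1 + z))
        = ∑ z ∈ Z, (q : ℝ) ^ 2 * (frac S x * frac S (x + z)) := by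
      intro x
      show (∑ a : Fin q, (if (x, a) ∈ S then (1 : ℝ) else 0) *
        ∑ z ∈ Z, q * frac S (x + z)) = _
      rw [← sum_mul, ← hfr, mul_sum]
      exact sum_congr rfl fun z _ => by ring
    rw [sum_congr rfl fun x _ => h5 x, sum_comm, mul_sum]
    exact sum_congr rfl fun z _ => by rw [mul_sum]
-- END H2

-- BEGIN H3
/-- The expander mixing type bound. By `H2_inside` and `F2_parseval`
`inside = q^2 2^D ∑ a, fc h a^2 ∑ z ∈ Z, ch a z ≤ q^2 2^D |Z| ∑ a, fc h a^2 ((1/3)^θ)^(wt a) + β`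
with `h = frac S`; use `F5_interp` and `∑ fc^2 = avg h^2 ≤ avg h`. With `δ = |S| / (2^D q) = avg h`
this is at most `q^2 2^D |Z| (δ^(1+θ/2) + β δ) = (δ^(θ/2) + β) (|Z| q) |S|`. -/
theorem H3_bound {D q : ℕ} (hq : 1 ≤ q) (Z : Finset (Cube D)) (hZ : (0 : Cube D) ∉ Z)
    {θ β : ℝ} (hθ0 : 0 ≤ θ) (hθ1 : θ ≤ 1)
    (hch : ∀ a : Cube D, ∑ z ∈ Z, ch a z ≤ Z.card * (((1 / 3 : ℝ) ^ θ) ^ wt a + β))
    (S : Finset (Cube D × Fin q)) (hS : S.Nonempty) :
    (inside (cay q Z hZ) S : ℝ) ≤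
      (((S.card : ℝ) / (2 ^ D * q)) ^ (θ / 2) + β) * ((Z.card * q : ℕ) * S.card) := by
  obtain ⟨h0, h1, havg, hin⟩ := H2_inside hq Z hZ S
  obtain ⟨-, hpar, hconv⟩ := F2_parseval (frac S)
  have hint := F5_interp (frac S) h0 h1 hθ0 hθ1
  rw [hin]
  rcases Z.eq_empty_or_nonempty with rfl | hZn
  · simp
  have hZc : (0 : ℝ) < Z.card := by exact_mod_cast hZn.card_pos
  have hβ : 0 ≤ β := by
    have h := hch 0
    have e1 : ∀ z : Cube D, ch (0 : Cube D) z = 1 := by
      intro z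
      unfold ch
      simp [sg_zero]
    have e2 : wt (0 : Cube D) = 0 := by
      unfold wt
      simp
    rw [Finset.sum_congr rfl (fun z _ => e1 z), e2, pow_zero, Finset.sum_const, nsmul_eq_mul,
      mul_one] at h
    by_contra hneg
    push Not at hneg
    nlinarith
  have hN : (0 : ℝ) < 2 ^ D := by positivity
  have hq0 : (0 : ℝ) < q := by exact_mod_cast hq
  have hcard : (Fintype.card (Cube D) : ℝ) = 2 ^ D := by
    simp [Cube, ZMod.card]
  have hSc : (0 : ℝ) < S.card := by exact_mod_cast hS.card_pos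
  set α : ℝ := (S.card : ℝ) / (2 ^ D * q) with hα
  have hα0 : 0 < α := by positivity
  have hsum : ∀ z, ∑ x, frac S x * frac S (x + z) = 2 ^ D * ∑ a, fc (frac S) a ^ 2 * ch a z := by
    intro z
    rw [← hconv z]
    unfold avg
    rw [hcard]
    field_simp
  have hle1 : ∑ a, fc (frac S) a ^ 2 ≤ α := by
    rw [hpar, ← havg]
    unfold avg
    apply div_le_div_of_nonneg_right _ (by positivity)
    apply Finset.sum_le_sum
    intro x _
    nlinarith [h0 x, h1 x]
  have hpow : avg (frac S) ^ (1 + θ / 2) = α * α ^ (θ / 2) := by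
    rw [havg, Real.rpow_add hα0, Real.rpow_one]
  rw [hpow] at hint
  have hmain : ∑ z ∈ Z, ∑ x, frac S x * frac S (x + z) ≤
      2 ^ D * (Z.card * (α * α ^ (θ / 2) + β * α)) := by
    rw [Finset.sum_congr rfl (fun z _ => hsum z), ← Finset.mul_sum, Finset.sum_comm]
    apply mul_le_mul_of_nonneg_left _ hN.le
    calc ∑ a, ∑ z ∈ Z, fc (frac S) a ^ 2 * ch a z
        = ∑ a, fc (frac S) a ^ 2 * ∑ z ∈ Z, ch a z := by
          apply Finset.sum_congr rfl
          intro a _
          rw [Finset.mul_sum]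
      _ ≤ ∑ a, fc (frac S) a ^ 2 * (Z.card * (((1 / 3 : ℝ) ^ θ) ^ wt a + β)) := by
          apply Finset.sum_le_sum
          intro a _
          exact mul_le_mul_of_nonneg_left (hch a) (sq_nonneg _)
      _ = Z.card * (∑ a, ((1 / 3 : ℝ) ^ θ) ^ wt a * fc (frac S) a ^ 2 +
            β * ∑ a, fc (frac S) a ^ 2) := by
          rw [Finset.mul_sum, ← Finset.sum_add_distrib, Finset.mul_sum]
          apply Finset.sum_congr rfl
          intro a _
          ring
      _ ≤ Z.card * (α * α ^ (θ / 2) + β * α) := by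
          apply mul_le_mul_of_nonneg_left _ hZc.le
          exact add_le_add hint (mul_le_mul_of_nonneg_left hle1 hβ)
  calc (q : ℝ) ^ 2 * ∑ z ∈ Z, ∑ x, frac S x * frac S (x + z)
      ≤ (q : ℝ) ^ 2 * (2 ^ D * (Z.card * (α * α ^ (θ / 2) + β * α))) :=
        mul_le_mul_of_nonneg_left hmain (by positivity)
    _ = (α ^ (θ / 2) + β) * (Z.card * q * (2 ^ D * q * α)) := by ring
    _ = (α ^ (θ / 2) + β) * ((Z.card * q : ℕ) * S.card) := by
        have : 2 ^ D * q * α = S.card := by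
          rw [hα]
          field_simp
        rw [this]
        push_cast
        ring
-- END H3

end Pool.Agent.Lib.MP_8d8c46_lc.SDP
end

section

set_option autoImplicit false

open Finset
open scoped Classical

namespace Pool.Agent.Lib.MP_8d8c46_lc.SDP

lemma locCov_mono {V : Type*} [DecidableEq V] {k l : ℕ} (h : k ≤ l) {U : Finset V → ℝ}
    (hU : LocCov l U) : LocCov k U := fun A hA => hU A (hA.trans h)

lemma sheraliAdams_mono {V : Type*} [Fintype V] [DecidableEq V] {k l : ℕ} (h : k ≤ l) {s : ℝ}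
    {X : Finset V → ℝ} (hX : SA.SheraliAdams l s X) : SA.SheraliAdams k s X :=
  ⟨hX.one, fun S T hd hc => hX.nonneg S T hd (hc.trans h), fun T hT => hX.size T (hT.trans h)⟩

/-- The geometric data on the blown up cube: everything that `A6_abstract` needs. -/
theorem cube_data {m D q : ℕ} (hm : 1 ≤ m) (hD : 1 ≤ D) {δ τ₀ : ℝ} (hδ0 : 0 < δ)
    (hδ1 : δ ≤ 1 / 2) (hτ : 1 / (D : ℝ) ≤ τ₀) :
    ∃ (U : Finset (Cube D × Fin q) → ℝ) (R : ℝ), LocCov (2 * m + 1) U ∧ (∀ v, U {v} = 1) ∧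
      PSDk (fun u v => Real.exp (-Real.log (1 - δ) * (2 - U {u, v})) - 1) ∧
      (∀ u, ∑ v, (Real.exp (-Real.log (1 - δ) * (2 - U {u, v})) - 1) = R) ∧
      (∀ u, ∑ v, (2 - U {u, v}) ≤ τ₀ * Fintype.card (Cube D × Fin q)) ∧
      ∀ u v, 2 - U {u, v} = lensP m (cor u.1 v.1 ^ 2) := by
  have hg : PSDk (fun u v : Cube D × Fin q => cor u.1 v.1 ^ 2) := E2_psd D q
  have hg1 : ∀ v : Cube D × Fin q, cor v.1 v.1 ^ 2 = 1 := fun v => by
    rw [(E1_cor hD v.1 v.1).2.1]; norm_num
  have hg0 : ∀ u v : Cube D × Fin q, 0 ≤ cor u.1 v.1 ^ 2 := fun u v => by positivity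
  have hgle : ∀ u v : Cube D × Fin q, cor u.1 v.1 ^ 2 ≤ 1 := fun u v => K8_le_one hg hg1 u v
  have hpair : ∀ u v : Cube D × Fin q,
      2 - covU (2 * m + 1) (fun u v : Cube D × Fin q => cor u.1 v.1 ^ 2) {u, v} =
        lensP m (cor u.1 v.1 ^ 2) := by
    intro u v
    rw [G10_pair hg hg1 hg0 hm u v]
    ring
  have hμ : 0 ≤ -Real.log (1 - δ) := by
    have : Real.log (1 - δ) ≤ 0 := Real.log_nonpos (by linarith) (by linarith)
    linarith
  obtain ⟨b, hb, hb0, hbs⟩ := L5_series m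
  have hL : PSDk (fun u v : Cube D × Fin q => lensP m (cor u.1 v.1 ^ 2)) :=
    K4_series _ _ hg b hb (fun u v => hbs _ (hg0 u v) (hgle u v))
  have hexp := K5_exp _ hL hμ
  refine ⟨covU (2 * m + 1) (fun u v : Cube D × Fin q => cor u.1 v.1 ^ 2),
    q * ∑ z : Cube D, (Real.exp (-Real.log (1 - δ) * lensP m (cor 0 z ^ 2)) - 1),
    G4_locCov hg _, fun v => G5_single hg (by omega) v, ?_, ?_, ?_, hpair⟩
  · simp only [hpair]
    exact hexp
  · intro u
    simp only [hpair]
    exact E4_row hD q (fun c => Real.exp (-Real.log (1 - δ) * lensP m (c ^ 2)) - 1) u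
  · intro u
    simp only [hpair]
    have hDR : (0 : ℝ) < D := by exact_mod_cast hD
    calc ∑ v : Cube D × Fin q, lensP m (cor u.1 v.1 ^ 2)
        ≤ ∑ v : Cube D × Fin q, cor u.1 v.1 ^ 2 :=
          Finset.sum_le_sum (fun v _ => L6_le m (hg0 u v) (hgle u v))
      _ = q * ∑ z : Cube D, cor 0 z ^ 2 := E4_row hD q (fun c => c ^ 2) u
      _ = q * (2 ^ D / (D : ℝ)) := by rw [E3_mean hD]
      _ = (1 / (D : ℝ)) * (2 ^ D * q) := by ring
      _ ≤ τ₀ * (2 ^ D * q) := by gcongr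
      _ = τ₀ * Fintype.card (Cube D × Fin q) := by
          rw [Fintype.card_prod, Fintype.card_fun, ZMod.card, Fintype.card_fin, Fintype.card_fin]
          push_cast
          ring

lemma log_three_le : Real.log 3 ≤ 2 := by
  have h := Real.exp_one_gt_d9
  rw [Real.log_le_iff_le_exp (by norm_num)]
  have : Real.exp 2 = Real.exp 1 * Real.exp 1 := by rw [← Real.exp_add]; norm_num
  rw [this]
  nlinarith

lemma theta_exists {ν : ℝ} (h0 : 0 < ν) (h1 : ν ≤ 1 / 3) :
    ∃ θ : ℝ, ν ≤ θ ∧ θ ≤ 1 ∧ ((1 / 3 : ℝ) ^ θ) = 1 - 2 * ν := by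
  have h3 : 0 < Real.log 3 := Real.log_pos (by norm_num)
  have hpos : 0 < 1 - 2 * ν := by linarith
  have hlog : Real.log (1 - 2 * ν) ≤ -(2 * ν) := by
    have := Real.log_le_sub_one_of_pos hpos
    linarith
  have hlog2 : -Real.log 3 ≤ Real.log (1 - 2 * ν) := by
    rw [← Real.log_inv]
    exact Real.log_le_log (by norm_num) (by norm_num; linarith)
  refine ⟨-Real.log (1 - 2 * ν) / Real.log 3, ?_, ?_, ?_⟩
  · rw [le_div_iff₀ h3]
    have := log_three_le
    nlinarith
  · rw [div_le_one h3]; linarith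
  · rw [Real.rpow_def_of_pos (by norm_num), one_div, Real.log_inv]
    rw [show -Real.log 3 * (-Real.log (1 - 2 * ν) / Real.log 3) = Real.log (1 - 2 * ν) by
      field_simp]
    exact Real.exp_log hpos

/-- the choice of `δ` -/
lemma delta_small {η δ ε : ℝ} (hη0 : 0 < η) (hη1 : η ≤ 1 / 2) (hε0 : 0 < ε) (hε1 : ε ≤ 1) (k : ℕ)
    (hδ0 : 0 < δ) (hδ : δ ≤ η ^ (288 * ((k : ℝ) + 2) / ε ^ 2)) {θ : ℝ}
    (hθ : ε ^ 2 / (72 * ((k : ℝ) + 2)) ≤ θ) : δ ≤ 1 / 2 ∧ δ ^ (θ / 2) ≤ η / 2 := by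
  have hk : (0 : ℝ) ≤ k := Nat.cast_nonneg k
  have he : 1 ≤ 288 * ((k : ℝ) + 2) / ε ^ 2 := by
    rw [le_div_iff₀ (by positivity)]
    nlinarith [pow_le_one₀ (n := 2) hε0.le hε1]
  have h1 : δ ≤ 1 / 2 := by
    calc δ ≤ η ^ (288 * ((k : ℝ) + 2) / ε ^ 2) := hδ
      _ ≤ η ^ (1 : ℝ) := Real.rpow_le_rpow_of_exponent_ge hη0 (by linarith) he
      _ = η := Real.rpow_one η
      _ ≤ 1 / 2 := hη1
  refine ⟨h1, ?_⟩
  have h2 : (0 : ℝ) < ε ^ 2 / (72 * ((k : ℝ) + 2)) := by positivity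
  calc δ ^ (θ / 2) ≤ δ ^ ((ε ^ 2 / (72 * ((k : ℝ) + 2))) / 2) :=
        Real.rpow_le_rpow_of_exponent_ge hδ0 (by linarith) (by linarith)
    _ ≤ (η ^ (288 * ((k : ℝ) + 2) / ε ^ 2)) ^ ((ε ^ 2 / (72 * ((k : ℝ) + 2))) / 2) :=
        Real.rpow_le_rpow hδ0.le hδ (by positivity)
    _ = η ^ (2 : ℝ) := by
        rw [← Real.rpow_mul hη0.le]
        congr 1
        field_simp
        norm_num
    _ = η ^ 2 := by norm_num
    _ ≤ η / 2 := by nlinarith

/-- Adjacent vertices are close. -/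
lemma edge_close {m D : ℕ} (hD : 1 ≤ D) {ν : ℝ} (h0 : 0 ≤ ν) (h1 : 4 * ν ≤ 1) (x y : Cube D)
    (hw : (wt (x + y) : ℝ) ≤ 2 * ν * D) :
    1 - 3 / 2 * Real.sqrt ((m + 1) * (8 * ν)) ≤ lensP m (cor x y ^ 2) := by
  have hDR : (0 : ℝ) < D := by exact_mod_cast hD
  obtain ⟨hc, -, habs, -, -⟩ := E1_cor hD x y
  have hc1 : 1 - 4 * ν ≤ cor x y := by
    rw [hc]
    have : 2 * (wt (x + y) : ℝ) / D ≤ 4 * ν := by
      rw [div_le_iff₀ hDR]; nlinarith
    linarith
  have hle : cor x y ^ 2 ≤ 1 := by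
    have := (sq_le_one_iff_abs_le_one (cor x y)).2 habs
    exact this
  have hge : 1 - 8 * ν ≤ cor x y ^ 2 := by nlinarith
  have h2 := ((L2_close m).2 (cor x y ^ 2) (by positivity) hle).2
  have h3 : Real.sqrt ((m + 1) * (1 - cor x y ^ 2)) ≤ Real.sqrt ((m + 1) * (8 * ν)) := by
    apply Real.sqrt_le_sqrt
    have : (0 : ℝ) ≤ (m : ℝ) + 1 := by positivity
    nlinarith
  linarith

/-- The gap theorem for real parameters. -/
theorem main_real {η δ ε : ℝ} (hη0 : 0 < η) (hη1 : η ≤ 1 / 2) (hε0 : 0 < ε) (hε1 : ε ≤ 1) (k : ℕ)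
    (hδ0 : 0 < δ) (hδ : δ ≤ η ^ (288 * ((k : ℝ) + 2) / ε ^ 2)) (q : ℕ) (hq : 1 ≤ q) (N₀ : ℕ) :
    ∃ (D : ℕ) (Z : Finset (Cube D)) (hZ : (0 : Cube D) ∉ Z),
      N₀ ≤ Fintype.card (Cube D × Fin q) ∧ 1 ≤ Z.card * q ∧
      (∀ S : Finset (Cube D × Fin q), (S.card : ℝ) = δ * Fintype.card (Cube D × Fin q) →
        (inside (cay q Z hZ) S : ℝ) ≤ η * ((Z.card * q : ℕ) * S.card)) ∧
      ∃ X : Finset (Cube D × Fin q) → ℝ,
        SA.SheraliAdams k (δ * Fintype.card (Cube D × Fin q)) X ∧ BasicSDP X ∧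
        SA.pseudoExpansion (cay q Z hZ) (Z.card * q) (δ * Fintype.card (Cube D × Fin q)) X ≤ ε := by
  have hk : (0 : ℝ) ≤ k := Nat.cast_nonneg k
  obtain ⟨ν, hν⟩ : ∃ ν : ℝ, ν = ε ^ 2 / (72 * ((k : ℝ) + 2)) := ⟨_, rfl⟩
  have hν0 : 0 < ν := by rw [hν]; positivity
  have hν1 : ν ≤ 1 / 144 := by
    rw [hν, div_le_iff₀ (by positivity)]
    nlinarith [pow_le_one₀ (n := 2) hε0.le hε1]
  obtain ⟨θ, hθν, hθ1, hθ⟩ := theta_exists hν0 (by linarith)
  obtain ⟨hδ2, hδη⟩ := delta_small hη0 hη1 hε0 hε1 k hδ0 hδ (hν ▸ hθν)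
  obtain ⟨τ₀, hτ₀, hA⟩ := A6_abstract (max k 2) (le_max_right _ _) δ (ε / 4) hδ0 hδ2
    (by positivity) (by linarith)
  obtain ⟨D₀, hD₀⟩ := Z7_exists hν0 (by linarith) (β := η / 2) (by positivity)
  obtain ⟨D₁, hD₁⟩ := exists_nat_ge (1 / τ₀)
  obtain ⟨D, hD⟩ : ∃ D : ℕ, D = D₀ + D₁ + N₀ + 1 := ⟨_, rfl⟩
  have hD1 : 1 ≤ D := by omega
  obtain ⟨Z, hZ0, hZne, hZw, hZch⟩ := hD₀ D (by omega)
  have hDR : (1 : ℝ) ≤ D := by exact_mod_cast hD1
  have hcard : Fintype.card (Cube D × Fin q) = 2 ^ D * q := by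
    rw [Fintype.card_prod, Fintype.card_fun, ZMod.card, Fintype.card_fin, Fintype.card_fin]
  have hcardR : (Fintype.card (Cube D × Fin q) : ℝ) = 2 ^ D * q := by
    rw [hcard]; push_cast; ring
  have hDle : D ≤ 2 ^ D * q := by
    calc D ≤ 2 ^ D := Nat.lt_two_pow_self.le
      _ = 2 ^ D * 1 := by ring
      _ ≤ 2 ^ D * q := Nat.mul_le_mul_left _ hq
  have hDinv : 1 / τ₀ ≤ (D : ℝ) := by
    have : (D₁ : ℝ) ≤ D := by exact_mod_cast (by omega)
    linarith
  have hτD : 1 / (D : ℝ) ≤ τ₀ := by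
    rw [div_le_iff₀ (by linarith)]
    rw [div_le_iff₀ hτ₀] at hDinv
    linarith
  have hZc : 1 ≤ Z.card := hZne.card_pos
  have hqR : (1 : ℝ) ≤ q := by exact_mod_cast hq
  have hZR : (1 : ℝ) ≤ Z.card := by exact_mod_cast hZc
  obtain ⟨U, R, hU, hU1, hUpsd, hUrow, hUsum, hUpair⟩ :=
    cube_data (m := k + 1) (D := D) (q := q) (by omega) hD1 hδ0 hδ2 hτD
  have hU' : LocCov (max k 2) U := locCov_mono (by omega) hU
  have hnR : 1 / τ₀ ≤ (Fintype.card (Cube D × Fin q) : ℝ) := by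
    have : (D : ℝ) ≤ (Fintype.card (Cube D × Fin q) : ℝ) := by
      rw [hcard]; exact_mod_cast hDle
    linarith
  obtain ⟨X, hX, hXsdp, hX1, hX2⟩ := hA (Cube D × Fin q) U R hU' hU1 hUpsd hUrow hUsum hnR
  refine ⟨D, Z, hZ0, by rw [hcard]; omega, Nat.mul_pos hZc hq, ?_, X,
    sheraliAdams_mono (le_max_left _ _) hX, hXsdp, ?_⟩
  · intro S hS
    rcases S.eq_empty_or_nonempty with h | hne
    · exfalso
      rw [h, Finset.card_empty, hcardR] at hS
      have : 0 < δ * (2 ^ D * q) := by positivity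
      rw [Nat.cast_zero] at hS
      linarith
    · have hb := H3_bound hq Z hZ0 (by linarith) hθ1 (β := η / 2) (fun a => by
        have := (abs_le.1 (hZch a)).2
        rw [hθ]
        linarith) S hne
      refine hb.trans ?_
      have hfr : (S.card : ℝ) / (2 ^ D * q) = δ := by
        rw [hS, hcardR]
        field_simp
      rw [hfr]
      have h5 : δ ^ (θ / 2) + η / 2 ≤ η := by linarith
      exact mul_le_mul_of_nonneg_right h5 (mul_nonneg (Nat.cast_nonneg _) (Nat.cast_nonneg _))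
  · unfold SA.pseudoExpansion
    have hpos : 0 < ((Z.card * q : ℕ) : ℝ) * (δ * Fintype.card (Cube D × Fin q)) := by
      rw [hcardR]; push_cast; positivity
    rw [div_le_iff₀ hpos]
    have hterm : ∀ e ∈ univ.filter (fun e : (Cube D × Fin q) × (Cube D × Fin q) =>
        (cay q Z hZ0).Adj e.1 e.2), X {e.1} - X {e.1, e.2} ≤ ε * δ := by
      intro e he
      have hadj : e.1.1 + e.2.1 ∈ Z := (Finset.mem_filter.1 he).2
      have h6 := edge_close (m := k + 1) hD1 hν0.le (by linarith) e.1.1 e.2.1 (hZw _ hadj)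
      have h7 : Real.sqrt (((k + 1 : ℕ) + 1) * (8 * ν)) = ε / 3 := by
        rw [Real.sqrt_eq_iff_mul_self_eq (by positivity) (by positivity), hν]
        push_cast
        field_simp
        ring
      rw [h7, ← hUpair] at h6
      have h8 := hX2 e.1 e.2
      have h9 := mul_le_mul_of_nonneg_left h6 hδ0.le
      rw [hX1]
      nlinarith
    have hcnt : ((univ.filter (fun e : (Cube D × Fin q) × (Cube D × Fin q) =>
        (cay q Z hZ0).Adj e.1 e.2)).card : ℝ) =
        ((Z.card * q : ℕ) : ℝ) * Fintype.card (Cube D × Fin q) := by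
      have hreg := H1_regular (q := q) Z hZ0
      have h10 := inside_add_cut hreg (univ : Finset (Cube D × Fin q))
      have h11 : cut (cay q Z hZ0) (univ : Finset (Cube D × Fin q)) = 0 := by
        unfold cut
        simp
      rw [h11, add_zero, Finset.card_univ] at h10
      rw [← Nat.cast_mul, ← h10]
      unfold inside
      simp
    calc ∑ e ∈ univ.filter (fun e : (Cube D × Fin q) × (Cube D × Fin q) =>
        (cay q Z hZ0).Adj e.1 e.2), (X {e.1} - X {e.1, e.2})
        ≤ ∑ e ∈ univ.filter (fun e : (Cube D × Fin q) × (Cube D × Fin q) =>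
        (cay q Z hZ0).Adj e.1 e.2), ε * δ := Finset.sum_le_sum hterm
      _ = ε * (((Z.card * q : ℕ) : ℝ) * (δ * Fintype.card (Cube D × Fin q))) := by
          rw [Finset.sum_const, nsmul_eq_mul, hcnt]
          ring

end Pool.Agent.Lib.MP_8d8c46_lc.SDP
end

section

/-!
Definitions for the gap instances of small-set expansion with a density `δ` that does not depend
on the number of rounds.
-/

set_option autoImplicit false

open Finset
open scoped Classical

namespace Pool.Agent.Lib.MP_8d8c46_lc.Gap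

open Pool.Agent.Lib.MP_8d8c46_lc Pool.Agent.Lib.MP_8d8c46_lc.SDP Pool.Agent.Lib.MP_8d8c46_lc.EL

/-! ### Abstract part -/

/-- `U T` is up to `ζ` the measure of the union of the sets `E a`, `a ∈ T`, on every set of at most
`k` points. -/
def ApxCov {V : Type*} [DecidableEq V] (k : ℕ) (ζ : ℝ) (U : Finset V → ℝ) : Prop :=
  ∀ A : Finset V, A.card ≤ k → ∃ w : Finset V → ℝ, (∀ B, 0 ≤ w B) ∧
    ∀ T ⊆ A, |U T - ∑ B ∈ A.powerset.filter (fun B => (B ∩ T).Nonempty), w B| ≤ ζ

/-- The mixture of the law with the product law. -/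
noncomputable def X0 {V : Type*} (δ κ : ℝ) (U : Finset V → ℝ) (T : Finset V) : ℝ :=
  (1 - κ) * law (-Real.log (1 - δ)) U T + κ * δ ^ T.card

/-- The measure of the intersection, by inclusion and exclusion from the measures of unions. -/
noncomputable def capf {P : Type*} (U : Finset P → ℝ) (Q : Finset P) : ℝ :=
  ∑ R ∈ Q.powerset, (-1) ^ (R.card + 1) * U R

/-! ### Cliques of near points -/

/-- All pairs of points of `Q` are near. -/
def Clq {P : Type*} (near : P → P → Prop) (Q : Finset P) : Prop :=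
  ∀ p ∈ Q, ∀ q ∈ Q, p ≠ q → near p q

/-- The points of `Act` over the vertices of `T`. -/
noncomputable def ov {V : Type*} {R : ℕ} (Act : Finset (V × Fin R)) (T : Finset V) :
    Finset (V × Fin R) :=
  Act.filter (fun p => p.1 ∈ T)

/-- The nonempty cliques of points of `Act` over `T`. -/
noncomputable def clqs {V : Type*} {R : ℕ} (near : V × Fin R → V × Fin R → Prop)
    (Act : Finset (V × Fin R)) (T : Finset V) : Finset (Finset (V × Fin R)) :=
  (ov Act T).powerset.filter (fun Q => Q.Nonempty ∧ Clq near Q)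

/-- The sum of `±I Q` over the nonempty cliques `Q` of points of `Act` over `T`. -/
noncomputable def EE {V : Type*} {R : ℕ} (near : V × Fin R → V × Fin R → Prop)
    (I : Finset (V × Fin R) → ℝ) (Act : Finset (V × Fin R)) (T : Finset V) : ℝ :=
  ∑ Q ∈ clqs near Act T, (-1) ^ (Q.card + 1) * I Q

/-! ### Tuples of points of the cube with marks -/

/-- A tuple of `R` points of the cube with marks. -/
abbrev Tup (R D b : ℕ) : Type := Fin R → Cube D × ZMod b

/-- The position of a point. -/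
def pos {R D b : ℕ} {Y : Type} (p : (Tup R D b × Y) × Fin R) : Cube D := (p.1.1 p.2).1

/-- The mark of a point. -/
def mk {R D b : ℕ} {Y : Type} (p : (Tup R D b × Y) × Fin R) : ZMod b := (p.1.1 p.2).2

/-- The points that are active at time `t`. -/
noncomputable def act {R D b : ℕ} [NeZero b] (Y : Type) [Fintype Y] (a : ℕ) (t : ZMod b) :
    Finset ((Tup R D b × Y) × Fin R) :=
  univ.filter (fun p => (t - mk p).val < a)

/-- The points of the tuple are pairwise almost orthogonal. -/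
def good {R D b : ℕ} (γ : ℝ) (ω : Tup R D b) : Prop :=
  ∀ i j, i ≠ j → |cor (ω i).1 (ω j).1| ≤ γ

/-- Points of different vertices with good tuples and with close positions. -/
def near {R D b : ℕ} {Y : Type} (γ : ℝ) (p q : (Tup R D b × Y) × Fin R) : Prop :=
  p.1 ≠ q.1 ∧ good γ p.1.1 ∧ good γ q.1.1 ∧ 3 / 4 ≤ cor (pos p) (pos q) ^ 2

/-- The Gram matrix of the realisation of the points. -/
noncomputable def gram {R D b : ℕ} {Y : Type} (s : ℕ) (p q : (Tup R D b × Y) × Fin R) : ℝ :=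
  (cor (pos p) (pos q) ^ 2) ^ s

/-- The measure of the union of the sets of the vertices of `T`. -/
noncomputable def UU {R D b : ℕ} [NeZero b] {Y : Type} [Fintype Y] (γ : ℝ) (s m a : ℕ)
    (T : Finset (Tup R D b × Y)) : ℝ :=
  (∑ t : ZMod b, EE (near γ) (capf (covU (2 * m + 1) (gram s))) (act Y a t) T) / (R * a)

/-- The overlap of two tuples. -/
noncomputable def oT {R D b : ℕ} [NeZero b] (γ : ℝ) (s m a : ℕ) (ω ω' : Tup R D b) : ℝ :=
  if good γ ω ∧ good γ ω' then
    (∑ t : ZMod b, ∑ i, ∑ j,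
      if (t - (ω i).2).val < a ∧ (t - (ω' j).2).val < a then
        lensP m ((cor (ω i).1 (ω' j).1 ^ 2) ^ s) else 0) / (R * a)
  else 0

/-! ### The operator -/

/-- One step in one coordinate: with probability `c` a new point, otherwise noise. -/
noncomputable def w1 {D b : ℕ} (c ν : ℝ) (p q : Cube D × ZMod b) : ℝ :=
  c / (2 ^ D * b) + (1 - c) * (if p.2 = q.2 then ∑ z, bw ν z * bw ν (p.1 + q.1 + z) else 0)

/-- One step in all coordinates. -/
noncomputable def WW {R D b : ℕ} (c ν : ℝ) (ω ω' : Tup R D b) : ℝ := ∏ i, w1 c ν (ω i) (ω' i)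

/-- One step in all coordinates and a random permutation. -/
noncomputable def TT {R D b : ℕ} (c ν : ℝ) (ω ω' : Tup R D b) : ℝ :=
  (∑ σ : Equiv.Perm (Fin R), WW c ν ω (fun i => ω' (σ i))) / (R.factorial : ℝ)

/-- Symmetrisation. -/
noncomputable def Sy {R D b : ℕ} (f : Tup R D b → ℝ) (ω : Tup R D b) : ℝ :=
  (∑ σ : Equiv.Perm (Fin R), f (fun i => ω (σ i))) / (R.factorial : ℝ)

/-- The noise operator on the positions. -/
noncomputable def nz {R D b : ℕ} (ν : ℝ) (f : Tup R D b → ℝ) (ω : Tup R D b) : ℝ :=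
  ∑ z : Fin R → Cube D, (∏ i, bw ν (z i)) * f (fun i => ((ω i).1 + z i, (ω i).2))

/-! ### Operators on product spaces -/

section
variable {U A : Type} [Fintype U] [Fintype A]

/-- Every coordinate in `J` is averaged with probability one half. -/
noncomputable def NJ (J : Finset U) (f : (U → A) → ℝ) (x : U → A) : ℝ :=
  (∑ T ∈ J.powerset, cd f (univ \ T) x) / 2 ^ J.card

/-- The part of `f` which depends on all coordinates in `S`. -/
noncomputable def LJ (S : Finset U) (f : (U → A) → ℝ) (x : U → A) : ℝ :=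
  ∑ T ∈ S.powerset, (-1) ^ T.card * cd f (univ \ T) x

end

/-! ### The graph -/

/-- The graph on `W × Cube D` in which the number of neighbours of `(w, x)` over `w'` is the size of
`J (N w w')`. -/
def grf {W : Type} {D : ℕ} (N : W → W → ℕ) (J : ℕ → Finset (Cube D))
    (hN : ∀ w w', N w w' = N w' w) (hJ : ∀ t, (0 : Cube D) ∉ J t) : SimpleGraph (W × Cube D) where
  Adj u v := u.2 + v.2 ∈ J (N u.1 v.1)
  symm := ⟨by
    intro u v h
    rw [add_comm, hN]
    exact h⟩
  loopless := ⟨by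
    intro u h
    apply hJ (N u.1 u.1)
    have h2 : u.2 + u.2 = 0 := by
      funext i
      exact CharTwo.add_self_eq_zero (u.2 i)
    rwa [h2] at h⟩

end Pool.Agent.Lib.MP_8d8c46_lc.Gap
end

section

set_option autoImplicit false

open Finset
open scoped Classical

namespace Pool.Agent.Lib.MP_8d8c46_lc.Gap

open Pool.Agent.Lib.MP_8d8c46_lc Pool.Agent.Lib.MP_8d8c46_lc.SDP Pool.Agent.Lib.MP_8d8c46_lc.EL

/-- Let `x ≤ y` (otherwise exchange them). Then
`exp (-μ x) - exp (-μ y) = exp (-μ x) * (1 - exp (-μ (y - x)))`, and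
`0 ≤ 1 - exp (-t) ≤ t` for `t = μ (y - x) ≥ 0` (`Real.add_one_le_exp`), `exp (-μ x) ≤ exp 1 < 3`
(`Real.exp_one_lt_three` or `Real.exp_one_lt_d9`), because `-μ x ≤ μ ≤ 1`. -/
theorem A01_exp {μ x y : ℝ} (h0 : 0 ≤ μ) (h1 : μ ≤ 1) (hx : -1 ≤ x) (hy : -1 ≤ y) :
    |Real.exp (-μ * x) - Real.exp (-μ * y)| ≤ 3 * |x - y| := by
  have key : ∀ x y : ℝ, -1 ≤ x → x ≤ y →
      |Real.exp (-μ * x) - Real.exp (-μ * y)| ≤ 3 * |x - y| := by
    intro x y hx hxy
    have e : Real.exp (-μ * y) = Real.exp (-μ * x) * Real.exp (-(μ * (y - x))) := by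
      rw [← Real.exp_add]
      congr 1
      ring
    have ht : 0 ≤ μ * (y - x) := mul_nonneg h0 (by linarith)
    have h2 : Real.exp (-μ * x) ≤ 3 := by
      have h3 : -μ * x ≤ 1 := by nlinarith
      exact (Real.exp_le_exp.2 h3).trans (by linarith [Real.exp_one_lt_d9])
    have h4 : 1 - Real.exp (-(μ * (y - x))) ≤ y - x := by
      have := Real.add_one_le_exp (-(μ * (y - x)))
      nlinarith
    have h5 : 0 ≤ 1 - Real.exp (-(μ * (y - x))) := by
      have : Real.exp (-(μ * (y - x))) ≤ 1 := Real.exp_le_one_iff.2 (by linarith)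
      linarith
    have h6 : 0 ≤ Real.exp (-μ * x) := (Real.exp_pos _).le
    have e2 : Real.exp (-μ * x) - Real.exp (-μ * y) =
        Real.exp (-μ * x) * (1 - Real.exp (-(μ * (y - x)))) := by rw [e]; ring
    rw [e2, abs_of_nonneg (mul_nonneg h6 h5), abs_sub_comm, abs_of_nonneg (by linarith)]
    exact mul_le_mul h2 h4 h5 (by norm_num)
  rcases le_total x y with hxy | hxy
  · exact key x y hx hxy
  · rw [abs_sub_comm, abs_sub_comm x y]
    exact key y x hy hxy

end Pool.Agent.Lib.MP_8d8c46_lc.Gap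
end

section

set_option autoImplicit false

open Finset
open scoped Classical

namespace Pool.Agent.Lib.MP_8d8c46_lc.Gap

open Pool.Agent.Lib.MP_8d8c46_lc Pool.Agent.Lib.MP_8d8c46_lc.SDP Pool.Agent.Lib.MP_8d8c46_lc.EL

/-- Approximate positivity. Take `w` from `hU (S ∪ T)` and put
`U' W = ∑ B ∈ (S ∪ T).powerset.filter (fun B => (B ∩ W).Nonempty), w B`, so `0 ≤ U' W` and
`|U W - U' W| ≤ ζ` for `W ⊆ S ∪ T` (so `U W ≥ -ζ ≥ -1`; `ζ ≥ 0` follows from this inequality).
`C2_aux w hw h0 T (S ∪ T).powerset S` says that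
`0 ≤ ∑ R ∈ S.powerset, (-1)^|R| * exp (-μ * U' (T ∪ R))`, and every term changes by at most `3 ζ`
(`A01_exp`) if `U'` is replaced by `U`; there are `2^|S| ≤ 2^k` terms. -/
theorem A02_nonneg {V : Type*} [DecidableEq V] {k : ℕ} {ζ : ℝ} {U : Finset V → ℝ}
    (hU : ApxCov k ζ U) (hζ1 : ζ ≤ 1) {μ : ℝ} (h0 : 0 ≤ μ) (h1 : μ ≤ 1) {S T : Finset V}
    (h : (S ∪ T).card ≤ k) :
    -(2 ^ k * (3 * ζ)) ≤ ∑ R ∈ S.powerset, (-1) ^ R.card * Real.exp (-μ * U (T ∪ R)) := by
  obtain ⟨w, hw, hw2⟩ := hU (S ∪ T) h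
  have hζ0 : 0 ≤ ζ := (abs_nonneg _).trans (hw2 ∅ (Finset.empty_subset _))
  have h2 := C2_aux w hw h0 T (S ∪ T).powerset S
  have hterm : ∀ R ∈ S.powerset,
      (-1 : ℝ) ^ R.card * Real.exp (-μ * ∑ B ∈ (S ∪ T).powerset.filter
        (fun B => (B ∩ (T ∪ R)).Nonempty), w B) - 3 * ζ ≤
      (-1) ^ R.card * Real.exp (-μ * U (T ∪ R)) := by
    intro R hR
    rw [Finset.mem_powerset] at hR
    have h3 := hw2 (T ∪ R)
      (Finset.union_subset Finset.subset_union_right (hR.trans Finset.subset_union_left))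
    have h4 : 0 ≤ ∑ B ∈ (S ∪ T).powerset.filter (fun B => (B ∩ (T ∪ R)).Nonempty), w B :=
      Finset.sum_nonneg (fun B _ => hw B)
    have h3' := abs_le.1 h3
    have h5 := A01_exp h0 h1 (x := ∑ B ∈ (S ∪ T).powerset.filter
      (fun B => (B ∩ (T ∪ R)).Nonempty), w B) (y := U (T ∪ R)) (by linarith) (by linarith [h3'.1])
    have h6 : |(-1 : ℝ) ^ R.card * Real.exp (-μ * ∑ B ∈ (S ∪ T).powerset.filter
        (fun B => (B ∩ (T ∪ R)).Nonempty), w B) -
        (-1) ^ R.card * Real.exp (-μ * U (T ∪ R))| ≤ 3 * ζ := by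
      rw [← mul_sub, abs_mul, abs_pow, abs_neg, abs_one, one_pow, one_mul]
      refine h5.trans ?_
      rw [abs_sub_comm]
      linarith
    have h7 := (abs_le.1 h6).2
    linarith
  have h8 := Finset.sum_le_sum hterm
  rw [Finset.sum_sub_distrib, Finset.sum_const, Finset.card_powerset, nsmul_eq_mul] at h8
  have h9 : ((2 ^ S.card : ℕ) : ℝ) ≤ 2 ^ k := by
    push_cast
    exact pow_le_pow_right₀ (by norm_num) ((Finset.card_le_card Finset.subset_union_left).trans h)
  have h10 : ((2 ^ S.card : ℕ) : ℝ) * (3 * ζ) ≤ 2 ^ k * (3 * ζ) :=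
    mul_le_mul_of_nonneg_right h9 (by linarith)
  linarith

end Pool.Agent.Lib.MP_8d8c46_lc.Gap
end

section

set_option autoImplicit false

open Finset
open scoped Classical

namespace Pool.Agent.Lib.MP_8d8c46_lc.Gap

open Pool.Agent.Lib.MP_8d8c46_lc Pool.Agent.Lib.MP_8d8c46_lc.SDP Pool.Agent.Lib.MP_8d8c46_lc.EL

/-- `C1_incl_excl` and `A02_nonneg`. -/
theorem A03_law {V : Type*} [DecidableEq V] {k : ℕ} {ζ : ℝ} {U : Finset V → ℝ}
    (hU : ApxCov k ζ U) (hζ1 : ζ ≤ 1) {μ : ℝ} (h0 : 0 ≤ μ) (h1 : μ ≤ 1) {S T : Finset V}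
    (hd : Disjoint S T) (h : (S ∪ T).card ≤ k) :
    -(2 ^ k * (3 * ζ)) ≤ ∑ R ∈ T.powerset, (-1) ^ R.card * law μ U (S ∪ R) := by
  rw [C1_incl_excl μ U hd]
  exact A02_nonneg hU hζ1 h0 h1 h

end Pool.Agent.Lib.MP_8d8c46_lc.Gap
end
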