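import Pool.Agent.Lib.MP_8d8c46_lc.EL.Core3

section

/-! T01 : H01 -/

set_option autoImplicit false
set_option linter.unusedSectionVars false

open scoped Classical
open Finset

namespace Pool.Agent.Lib.MP_8d8c46_lc.MC

open Pool.Agent.Lib.MP_8d8c46_lc.EL

private lemma t01_exp_le (x : ℝ) : Real.exp x ≤ x + Real.exp (x ^ 2) := by
  have h1 : 1 + x ^ 2 ≤ Real.exp (x ^ 2) := by
    have := Real.add_one_le_exp (x ^ 2); linarith
  by_cases hx : |x| ≤ 1
  · have h2 := Real.abs_exp_sub_one_sub_id_le hx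
    have h3 := (abs_le.1 h2).2
    linarith
  · rw [not_le] at hx
    rcases lt_abs.1 hx with h | h
    · have h2 : Real.exp x ≤ Real.exp (x ^ 2) := Real.exp_le_exp.2 (by nlinarith)
      linarith
    · have h2 : Real.exp x ≤ 1 := by
        rw [Real.exp_le_one_iff]; linarith
      nlinarith

private lemma t01_main (r : ℕ) (hr : 1 ≤ r) (x : ℝ) (hx : 0 ≤ x) :
    (1 + x) ^ (2 * r) - 2 * r * x ≤ (1 + 8 * r * x ^ 2) ^ r := by
  have hr' : (1 : ℝ) ≤ r := by exact_mod_cast hr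
  by_cases h : 4 * r * x ^ 2 ≤ 1
  · have h1 : (1 + x) ^ (2 * r) ≤ Real.exp (2 * r * x) := by
      have h2 : 1 + x ≤ Real.exp x := by
        have := Real.add_one_le_exp x; linarith
      calc (1 + x) ^ (2 * r) ≤ Real.exp x ^ (2 * r) := pow_le_pow_left₀ (by linarith) h2 _
        _ = Real.exp (2 * r * x) := by
            rw [← Real.exp_nat_mul]
            push_cast
            rfl
    have h3 := t01_exp_le (2 * r * x)
    have h4 : Real.exp ((2 * r * x) ^ 2) ≤ (1 + 8 * r * x ^ 2) ^ r := by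
      have h5 : Real.exp ((2 * r * x) ^ 2) = Real.exp (4 * r * x ^ 2) ^ r := by
        rw [← Real.exp_nat_mul]
        congr 1
        ring
      rw [h5]
      refine pow_le_pow_left₀ (Real.exp_pos _).le ?_ _
      have h6 : |4 * r * x ^ 2| ≤ 1 := by
        rw [abs_of_nonneg (by positivity)]
        exact h
      have h7 := (abs_le.1 (Real.abs_exp_sub_one_sub_id_le h6)).2
      have h8 : 0 ≤ 4 * r * x ^ 2 := by positivity
      nlinarith
    linarith
  · push Not at h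
    have hx0 : 0 < x := by
      rcases hx.eq_or_lt with h0 | h0
      · rw [← h0] at h
        norm_num at h
      · exact h0
    have h1 : 2 ≤ (8 * r - 1) * x := by
      have h2 : (0 : ℝ) ≤ (8 * r - 1) * x := mul_nonneg (by linarith) hx
      have h3 : (2 : ℝ) ^ 2 ≤ ((8 * r - 1) * x) ^ 2 := by
        have h4 : (16 : ℝ) * r ≤ (8 * r - 1) ^ 2 := by nlinarith
        have h5 : (16 : ℝ) * r * x ^ 2 ≤ (8 * r - 1) ^ 2 * x ^ 2 :=
          mul_le_mul_of_nonneg_right h4 (sq_nonneg x)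
        calc (2 : ℝ) ^ 2 ≤ 16 * r * x ^ 2 := by linarith
          _ ≤ (8 * r - 1) ^ 2 * x ^ 2 := h5
          _ = ((8 * r - 1) * x) ^ 2 := by ring
      exact le_of_sq_le_sq h3 h2
    have h2 : (1 + x) ^ 2 ≤ 1 + 8 * r * x ^ 2 := by nlinarith
    have h3 : (1 + x) ^ (2 * r) ≤ (1 + 8 * r * x ^ 2) ^ r := by
      rw [pow_mul]
      exact pow_le_pow_left₀ (sq_nonneg _) h2 _
    have h4 : (0 : ℝ) ≤ 2 * r * x := by positivity
    linarith

/-- H01.
Proof. a = 0: c^(2r) ≤ (8 r c²)^r. a > 0: divide by a^(2r), x = c/a ≥ 0; claim (1+x)^(2r) - 2 r x ≤ (1 + 8 r x²)^r.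
If 4 r x² ≤ 1: (1+x)^(2r) ≤ exp(2 r x) and exp y ≤ y + exp(y²) (`exp_le_add_exp_sq` in PermMGF.lean, needs import, or reprove) with y = 2 r x give (1+x)^(2r) - 2rx ≤ exp(4 r² x²) = (exp(4 r x²))^r ≤ (1 + 8 r x²)^r since exp s ≤ 1 + 2 s for 0 ≤ s ≤ 1.
If 4 r x² > 1: then 2 x ≤ (8 r - 1) x² (as x > 1/(2√r) ≥ 2/(8r-1)), so (1+x)² ≤ 1 + 8 r x²; raise to the power r and drop 2 r x ≥ 0. -/
theorem scal (r : ℕ) (hr : 1 ≤ r) (a c : ℝ) (ha : 0 ≤ a) (hc : 0 ≤ c) :
    (a + c) ^ (2 * r) - 2 * r * a ^ (2 * r - 1) * c ≤ (a ^ 2 + 8 * r * c ^ 2) ^ r := by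
  have hr' : (1 : ℝ) ≤ r := by exact_mod_cast hr
  rcases ha.eq_or_lt with h0 | h0
  · rw [← h0, zero_pow (by omega : 2 * r - 1 ≠ 0), zero_add, mul_zero, zero_mul, sub_zero,
      zero_pow two_ne_zero, zero_add, pow_mul]
    refine pow_le_pow_left₀ (sq_nonneg _) ?_ _
    nlinarith [sq_nonneg c]
  · obtain ⟨x, rfl⟩ : ∃ x, c = a * x := ⟨c / a, by field_simp⟩
    have hx : 0 ≤ x := by
      by_contra hneg
      push Not at hneg
      nlinarith
    have key := t01_main r hr x hx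
    have e1 : (a + a * x) ^ (2 * r) = a ^ (2 * r) * (1 + x) ^ (2 * r) := by
      rw [← mul_pow]; ring
    have e2 : 2 * r * a ^ (2 * r - 1) * (a * x) = a ^ (2 * r) * (2 * r * x) := by
      have : a ^ (2 * r) = a ^ (2 * r - 1) * a := by
        rw [← pow_succ]; congr 1; omega
      rw [this]; ring
    have e3 : (a ^ 2 + 8 * r * (a * x) ^ 2) ^ r = a ^ (2 * r) * (1 + 8 * r * x ^ 2) ^ r := by
      rw [pow_mul, ← mul_pow]; ring
    rw [e1, e2, e3, ← mul_sub]
    exact mul_le_mul_of_nonneg_left key (by positivity)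

end Pool.Agent.Lib.MP_8d8c46_lc.MC
end

section

/-! T02 : H02 -/

set_option autoImplicit false
set_option linter.unusedSectionVars false

open scoped Classical
open Finset

namespace Pool.Agent.Lib.MP_8d8c46_lc.MC

open Pool.Agent.Lib.MP_8d8c46_lc.EL

private lemma t02_young (i j n : ℕ) (hn : 0 < n) (hij : i + j = n) (x y : ℝ) (hx : 0 ≤ x)
    (hy : 0 ≤ y) : x ^ i * y ^ j ≤ (i / n) * x ^ n + (j / n) * y ^ n := by
  have hn' : (0 : ℝ) < n := by exact_mod_cast hn
  have h := Real.geom_mean_le_arith_mean2_weighted (w₁ := (i / n : ℝ)) (w₂ := (j / n : ℝ))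
    (p₁ := x ^ n) (p₂ := y ^ n) (by positivity) (by positivity) (by positivity) (by positivity)
    (by rw [← add_div, ← Nat.cast_add, hij, div_self hn'.ne'])
  have e1 : (x ^ n) ^ (i / n : ℝ) = x ^ i := by
    rw [← Real.rpow_natCast x n, ← Real.rpow_mul hx, mul_div_cancel₀ _ hn'.ne',
      Real.rpow_natCast]
  have e2 : (y ^ n) ^ (j / n : ℝ) = y ^ j := by
    rw [← Real.rpow_natCast y n, ← Real.rpow_mul hy, mul_div_cancel₀ _ hn'.ne',
      Real.rpow_natCast]
  rw [e1, e2] at h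
  exact h

private lemma t02_pos {α : Type*} [Fintype α] [Nonempty α] (r j : ℕ) (hr : 1 ≤ r)
    (hj : j ≤ 2 * r) (f g : α → ℝ) {a c : ℝ} (ha : 0 < a) (hc : 0 < c)
    (hf : avg (fun x => f x ^ (2 * r)) ≤ a ^ (2 * r))
    (hg : avg (fun x => g x ^ (2 * r)) ≤ c ^ (2 * r)) :
    |avg (fun x => f x ^ (2 * r - j) * g x ^ j)| ≤ a ^ (2 * r - j) * c ^ j := by
  have hn : 0 < 2 * r := by omega
  have hn' : (0 : ℝ) < (2 * r : ℕ) := by exact_mod_cast hn
  set i := 2 * r - j with hi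
  have hij : i + j = 2 * r := by omega
  refine (abs_avg_le _).trans ?_
  have hpt : ∀ x, |f x ^ i * g x ^ j| ≤ (a ^ i * c ^ j) *
      ((i / (2 * r : ℕ)) * (f x ^ (2 * r) / a ^ (2 * r)) +
        (j / (2 * r : ℕ)) * (g x ^ (2 * r) / c ^ (2 * r))) := by
    intro x
    have h := t02_young i j (2 * r) hn hij (|f x| / a) (|g x| / c) (by positivity) (by positivity)
    rw [div_pow, div_pow, div_pow, div_pow] at h
    have hev : Even (2 * r) := even_two_mul r
    rw [hev.pow_abs, hev.pow_abs] at h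
    rw [abs_mul, abs_pow, abs_pow]
    have e : |f x| ^ i * |g x| ^ j = (a ^ i * c ^ j) * (|f x| ^ i / a ^ i * (|g x| ^ j / c ^ j)) := by
      field_simp
    rw [e]
    exact mul_le_mul_of_nonneg_left h (by positivity)
  refine (avg_mono hpt).trans ?_
  rw [avg_const_mul, avg_add, avg_const_mul, avg_const_mul]
  have e1 : avg (fun x => f x ^ (2 * r) / a ^ (2 * r)) ≤ 1 := by
    have : avg (fun x => f x ^ (2 * r) / a ^ (2 * r)) =
        avg (fun x => f x ^ (2 * r)) * (a ^ (2 * r))⁻¹ := by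
      rw [← avg_mul_const]; rfl
    rw [this, ← div_eq_mul_inv, div_le_one (by positivity)]
    exact hf
  have e2 : avg (fun x => g x ^ (2 * r) / c ^ (2 * r)) ≤ 1 := by
    have : avg (fun x => g x ^ (2 * r) / c ^ (2 * r)) =
        avg (fun x => g x ^ (2 * r)) * (c ^ (2 * r))⁻¹ := by
      rw [← avg_mul_const]; rfl
    rw [this, ← div_eq_mul_inv, div_le_one (by positivity)]
    exact hg
  have h3 : (i / (2 * r : ℕ) : ℝ) * avg (fun x => f x ^ (2 * r) / a ^ (2 * r)) +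
      (j / (2 * r : ℕ)) * avg (fun x => g x ^ (2 * r) / c ^ (2 * r)) ≤ 1 := by
    have h4 : (i / (2 * r : ℕ) : ℝ) * avg (fun x => f x ^ (2 * r) / a ^ (2 * r)) ≤
        (i / (2 * r : ℕ) : ℝ) * 1 := mul_le_mul_of_nonneg_left e1 (by positivity)
    have h5 : (j / (2 * r : ℕ) : ℝ) * avg (fun x => g x ^ (2 * r) / c ^ (2 * r)) ≤
        (j / (2 * r : ℕ) : ℝ) * 1 := mul_le_mul_of_nonneg_left e2 (by positivity)
    have h6 : (i / (2 * r : ℕ) : ℝ) * 1 + (j / (2 * r : ℕ) : ℝ) * 1 = 1 := by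
      rw [mul_one, mul_one, ← add_div, ← Nat.cast_add, hij, div_self hn'.ne']
    linarith
  calc (a ^ i * c ^ j) * ((i / (2 * r : ℕ) : ℝ) * avg (fun x => f x ^ (2 * r) / a ^ (2 * r)) +
      (j / (2 * r : ℕ)) * avg (fun x => g x ^ (2 * r) / c ^ (2 * r)))
      ≤ (a ^ i * c ^ j) * 1 := mul_le_mul_of_nonneg_left h3 (by positivity)
    _ = a ^ i * c ^ j := mul_one _

/-- H02.
Hölder. If a = 0 then f = 0 (average of the nonnegative f^(2r) is ≤ 0); similarly c = 0; treat these cases (0^0 = 1). Else, by the weighted AM-GM inequality (`Real.inner_le_nnorm_mul_nnorm`/`Real.geom_mean_le_arith_mean2_weighted` or Young): |f/a|^(2r-j) |g/c|^j ≤ ((2r-j)/(2r)) |f/a|^(2r) + (j/(2r)) |g/c|^(2r) pointwise; average: ≤ 1. (|avg F| ≤ avg |F| is `abs_avg_le`.) -/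
theorem holder2 {α : Type*} [Fintype α] [Nonempty α] (r j : ℕ) (hr : 1 ≤ r) (hj : j ≤ 2 * r)
    (f g : α → ℝ) {a c : ℝ} (ha : 0 ≤ a) (hc : 0 ≤ c)
    (hf : avg (fun x => f x ^ (2 * r)) ≤ a ^ (2 * r))
    (hg : avg (fun x => g x ^ (2 * r)) ≤ c ^ (2 * r)) :
    |avg (fun x => f x ^ (2 * r - j) * g x ^ j)| ≤ a ^ (2 * r - j) * c ^ j := by
  have hcont : Continuous (fun ε : ℝ => (a + ε) ^ (2 * r - j) * (c + ε) ^ j) := by fun_prop
  have hlim : Filter.Tendsto (fun ε : ℝ => (a + ε) ^ (2 * r - j) * (c + ε) ^ j)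
      (nhdsWithin 0 (Set.Ioi 0)) (nhds (a ^ (2 * r - j) * c ^ j)) := by
    have h := (hcont.tendsto 0).mono_left (nhdsWithin_le_nhds (s := Set.Ioi 0))
    simpa using h
  refine ge_of_tendsto hlim ?_
  filter_upwards [self_mem_nhdsWithin] with ε hε
  have hε' : 0 < ε := hε
  refine t02_pos r j hr hj f g (by linarith) (by linarith)
    (hf.trans (pow_le_pow_left₀ ha (by linarith) _))
    (hg.trans (pow_le_pow_left₀ hc (by linarith) _))

end Pool.Agent.Lib.MP_8d8c46_lc.MC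
end

section

/-! T03 : H03 -/

set_option autoImplicit false
set_option linter.unusedSectionVars false

open scoped Classical
open Finset

namespace Pool.Agent.Lib.MP_8d8c46_lc.MC

open Pool.Agent.Lib.MP_8d8c46_lc.EL

private lemma t03_avg_prod {α β : Type} [Fintype α] [Fintype β] (F : α × β → ℝ) :
    avg F = avg (fun y => avg (fun x => F (y, x))) := by
  unfold avg
  rw [Fintype.sum_prod_type, Fintype.card_prod, ← sum_div, div_div]
  push_cast
  rw [mul_comm]

/-- H03.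
Induction on n exactly as `bonami` in Hyper.lean (which is the case r = 2); use its f0, f1, deg_f0, deg_f1, f1_eq_zero, avg_cons, avg_comm'. Write q = |A|, K = 8 r q. n = 0 or k = 0: f is constant (k = 0: f1 = 0 and f = f0; then induction). Step: f(x', y) = f0(x') + f1(x', y), the mean of f1 over y is 0, f0 has degree ≤ k, f1(·, y) has degree ≤ k-1. Let X = avg f0², Y = avg f1² (over all coordinates), so avg f² = X + Y. Induction: avg f0^(2r) ≤ K^(rk) X^r =: a^(2r) with a = √(K^k X); avg f1^(2r) = avg_y avg_x' f1^(2r) ≤ avg_y K^(r(k-1)) (avg_x' f1(·,y)²)^r ≤ K^(r(k-1)) (q Y)^r =: c^(2r), c = √(K^(k-1) q Y) (each avg_x' f1(·,y)² ≤ q Y). Expand f^(2r) = Σ_j C(2r,j) f0^(2r-j) f1^j; the term j = 1 has mean 0; by H02 the others are ≤ C(2r,j) a^(2r-j) c^j. So avg f^(2r) ≤ (a+c)^(2r) - 2 r a^(2r-1) c ≤ (a² + 8 r c²)^r (H01) = (K^k X + 8 r q K^(k-1) Y)^r = K^(rk) (X+Y)^r. -/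
theorem hyp_even {A : Type} [Fintype A] [Nonempty A] (r : ℕ) (hr : 1 ≤ r) :
    ∀ (n k : ℕ) (f : (Fin n → A) → ℝ), Deg k f →
      avg (fun x => f x ^ (2 * r)) ≤
        (8 * r * (Fintype.card A : ℝ)) ^ (r * k) * (avg (fun x => f x ^ 2)) ^ r := by
  have hq : (1 : ℝ) ≤ Fintype.card A := by exact_mod_cast Fintype.card_pos
  have hr' : (1 : ℝ) ≤ r := by exact_mod_cast hr
  set q : ℝ := (Fintype.card A : ℝ) with hqdef
  set K : ℝ := 8 * r * q with hK
  have hK1 : 1 ≤ K := by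
    rw [hK]
    nlinarith
  have hK0 : 0 < K := by linarith
  have hr0 : r ≠ 0 := by omega
  intro n
  induction n with
  | zero =>
    intro k f _
    have h1 : ∀ m : ℕ, avg (fun x => f x ^ m) = f default ^ m := by
      intro m
      unfold avg
      simp [Fintype.card_unique, Unique.eq_default]
    rw [h1, h1, ← pow_mul]
    have h2 : (1 : ℝ) ≤ K ^ (r * k) := one_le_pow₀ hK1
    have h3 : (0 : ℝ) ≤ f default ^ (2 * r) := (even_two_mul r).pow_nonneg _
    nlinarith
  | succ n ih =>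
    intro k f hf
    set g0 := f0 f with hg0
    have hd0 : Deg k g0 := deg_f0 hf
    have hfe : ∀ y x, f (Fin.cons y x) = g0 x + f1 f y x := by
      intro y x; unfold f1; ring
    have hmean : ∀ x, avg (fun y => f1 f y x) = 0 := by
      intro x
      have h1 : (fun y => f1 f y x) = fun y => f (Fin.cons y x) - f0 f x := rfl
      rw [h1, avg_sub, avg_const]
      unfold f0; ring
    set P := avg (fun x => g0 x ^ 2) with hP
    set a : A → ℝ := fun y => avg (fun x => f1 f y x ^ 2) with ha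
    set Q := avg a with hQ
    have hP0 : 0 ≤ P := avg_nonneg (fun _ => sq_nonneg _)
    have ha0 : ∀ y, 0 ≤ a y := fun y => avg_nonneg (fun _ => sq_nonneg _)
    have hQ0 : 0 ≤ Q := avg_nonneg ha0
    have hcross : ∀ w : (Fin n → A) → ℝ,
        avg (fun y => avg (fun x => w x * f1 f y x)) = 0 := by
      intro w
      rw [avg_comm']
      have : (fun x => avg (fun y => w x * f1 f y x)) = fun _ => 0 := by
        funext x; rw [avg_const_mul, hmean, mul_zero]
      rw [this, avg_const]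
    have hsq : avg (fun x => f x ^ 2) = P + Q := by
      rw [avg_cons]
      have h1 : ∀ y, avg (fun x => f (Fin.cons y x) ^ 2) =
          P + (avg (fun x => 2 * g0 x * f1 f y x) + a y) := by
        intro y
        have h2 : (fun x => f (Fin.cons y x) ^ 2) =
            fun x => g0 x ^ 2 + (2 * g0 x * f1 f y x + f1 f y x ^ 2) := by
          funext x; rw [hfe]; ring
        rw [h2, avg_add, avg_add]
      simp_rw [h1]
      rw [avg_add, avg_add, avg_const, hcross, zero_add]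
    rw [hsq]
    have e0 : avg (fun x => g0 x ^ (2 * r)) ≤ K ^ (r * k) * P ^ r := ih k g0 hd0
    rcases Nat.eq_zero_or_pos k with hk | hk
    · subst hk
      have hz : ∀ y, f1 f y = 0 := fun y => f1_eq_zero hf y
      have z1 : avg (fun x => f x ^ (2 * r)) = avg (fun x => g0 x ^ (2 * r)) := by
        rw [avg_cons]
        have : ∀ y : A, avg (fun x => f (Fin.cons y x) ^ (2 * r)) =
            avg (fun x => g0 x ^ (2 * r)) := by
          intro y
          congr 1
          funext x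
          rw [hfe, hz y, Pi.zero_apply, add_zero]
        simp_rw [this]
        rw [avg_const]
      have z3 : Q = 0 := by
        rw [hQ, ha]; simp_rw [hz]; simp [avg]
      rw [z1, z3, add_zero]
      exact e0
    · obtain ⟨k', rfl⟩ : ∃ k', k = k' + 1 := ⟨k - 1, by omega⟩
      have hd1 : ∀ y, Deg k' (f1 f y) := fun y => deg_f1 hf y
      have e1 : ∀ y, avg (fun x => f1 f y x ^ (2 * r)) ≤ K ^ (r * k') * a y ^ r := fun y =>
        ih k' _ (hd1 y)
      have hay : ∀ y, a y ≤ q * Q := by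
        intro y
        rw [hQ, hqdef, card_mul_avg]
        exact single_le_sum (f := a) (fun y _ => ha0 y) (mem_univ y)
      set G : A × (Fin n → A) → ℝ := fun z => g0 z.2 with hG
      set F : A × (Fin n → A) → ℝ := fun z => f1 f z.1 z.2 with hF
      set α := √(K ^ (k' + 1) * P) with hα
      set c := √(K ^ k' * (q * Q)) with hc
      have hα2 : α ^ 2 = K ^ (k' + 1) * P := Real.sq_sqrt (by positivity)
      have hc2 : c ^ 2 = K ^ k' * (q * Q) := Real.sq_sqrt (by positivity)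
      have hα0 : 0 ≤ α := Real.sqrt_nonneg _
      have hc0 : 0 ≤ c := Real.sqrt_nonneg _
      have hGb : avg (fun z => G z ^ (2 * r)) ≤ α ^ (2 * r) := by
        rw [t03_avg_prod, pow_mul α, hα2, mul_pow, ← pow_mul, mul_comm (k' + 1) r]
        have h1 : (fun y : A => avg (fun x => G (y, x) ^ (2 * r))) =
            fun _ => avg (fun x => g0 x ^ (2 * r)) := rfl
        rw [h1, avg_const]
        exact e0
      have hFb : avg (fun z => F z ^ (2 * r)) ≤ c ^ (2 * r) := by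
        rw [t03_avg_prod, pow_mul c, hc2, mul_pow, ← pow_mul, mul_comm k' r]
        have h1 : ∀ y, avg (fun x => F (y, x) ^ (2 * r)) ≤ K ^ (r * k') * (q * Q) ^ r := by
          intro y
          refine (e1 y).trans ?_
          refine mul_le_mul_of_nonneg_left ?_ (by positivity)
          exact pow_le_pow_left₀ (ha0 y) (hay y) _
        refine (avg_mono h1).trans (le_of_eq ?_)
        rw [avg_const]
      have hexp : avg (fun x => f x ^ (2 * r)) =
          ∑ m ∈ range (2 * r + 1), ((2 * r).choose m : ℝ) *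
            avg (fun z => G z ^ (2 * r - m) * F z ^ m) := by
        rw [avg_cons, ← t03_avg_prod (fun z : A × (Fin n → A) => f (Fin.cons z.1 z.2) ^ (2 * r))]
        have h1 : (fun z : A × (Fin n → A) => f (Fin.cons z.1 z.2) ^ (2 * r)) =
            fun z => ∑ m ∈ range (2 * r + 1), ((2 * r).choose m : ℝ) *
              (G z ^ (2 * r - m) * F z ^ m) := by
          funext z
          rw [hfe, add_comm, add_pow]
          refine sum_congr rfl (fun m _ => ?_)
          simp only [hG, hF]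
          ring
        rw [h1, avg_sum]
        refine sum_congr rfl (fun m _ => ?_)
        rw [avg_const_mul]
      have hterm : ∀ m ∈ range (2 * r + 1), ((2 * r).choose m : ℝ) *
          avg (fun z => G z ^ (2 * r - m) * F z ^ m) ≤
          ((2 * r).choose m : ℝ) * (α ^ (2 * r - m) * c ^ m) -
            (if m = 1 then 2 * r * α ^ (2 * r - 1) * c else 0) := by
        intro m hm
        have hm' : m ≤ 2 * r := by rw [mem_range] at hm; omega
        by_cases h1 : m = 1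
        · subst h1
          rw [if_pos rfl]
          have h2 : avg (fun z => G z ^ (2 * r - 1) * F z ^ 1) = 0 := by
            rw [t03_avg_prod]
            have := hcross (fun x => g0 x ^ (2 * r - 1))
            rw [← this]
            congr 1
            funext y
            congr 1
            funext x
            simp only [hG, hF, pow_one]
          rw [h2, mul_zero, Nat.choose_one_right, pow_one]
          push_cast
          have : (2 * (r : ℝ) * (α ^ (2 * r - 1) * c)) - 2 * r * α ^ (2 * r - 1) * c = 0 := by ring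
          rw [this]
        · rw [if_neg h1, sub_zero]
          refine mul_le_mul_of_nonneg_left ?_ (Nat.cast_nonneg _)
          exact (le_abs_self _).trans (holder2 r m hr hm' G F hα0 hc0 hGb hFb)
      rw [hexp]
      refine (sum_le_sum hterm).trans ?_
      rw [sum_sub_distrib, sum_ite_eq' (range (2 * r + 1)) 1,
        if_pos (by rw [mem_range]; omega)]
      have hbin : ∑ m ∈ range (2 * r + 1), ((2 * r).choose m : ℝ) * (α ^ (2 * r - m) * c ^ m) =
          (α + c) ^ (2 * r) := by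
        rw [add_comm α c, add_pow]
        refine sum_congr rfl (fun m _ => ?_)
        ring
      rw [hbin]
      refine (scal r hr α c hα0 hc0).trans (le_of_eq ?_)
      rw [hα2, hc2]
      have : K ^ (k' + 1) * P + 8 * r * (K ^ k' * (q * Q)) = K ^ (k' + 1) * (P + Q) := by
        rw [pow_succ]
        have h8 : 8 * (r : ℝ) * (K ^ k' * (q * Q)) = K ^ k' * (8 * r * q) * Q := by ring
        rw [h8, ← hK]
        ring
      rw [this, mul_pow, ← pow_mul, mul_comm (k' + 1) r]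

end Pool.Agent.Lib.MP_8d8c46_lc.MC
end

section

/-! T04 : H04, H05 -/

set_option autoImplicit false
set_option linter.unusedSectionVars false

open scoped Classical
open Finset

namespace Pool.Agent.Lib.MP_8d8c46_lc.MC

open Pool.Agent.Lib.MP_8d8c46_lc.EL

section
variable {U A : Type} [Fintype U] [Fintype A] [Nonempty A]

/-- H04.
Transfer of H03 along an equivalence U ≃ Fin n, exactly as `hyper_sum` in EL/Level.lean. -/
theorem hyp_even_sum (r k : ℕ) (hr : 1 ≤ r) {ι : Type} (s : Finset ι) (S : ι → Finset U)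
    (hS : ∀ T ∈ s, (S T).card ≤ k)
    (F : ι → (U → A) → ℝ) (hF : ∀ T ∈ s, DepOn (S T) (F T)) :
    avg (fun x => (∑ T ∈ s, F T x) ^ (2 * r)) ≤
      (8 * r * (Fintype.card A : ℝ)) ^ (r * k) * (avg (fun x => (∑ T ∈ s, F T x) ^ 2)) ^ r := by
  obtain ⟨n, hn⟩ : ∃ n, n = Fintype.card U := ⟨_, rfl⟩
  let e : U ≃ Fin n := (Fintype.equivFin U).trans (finCongr hn.symm)
  let φ : (Fin n → A) ≃ (U → A) := Equiv.arrowCongr e.symm (Equiv.refl A)
  have hφ : ∀ (y : Fin n → A) (u : U), φ y u = y (e u) := fun _ _ => rfl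
  have hd : Deg k (fun y : Fin n → A => ∑ T ∈ s, F T (φ y)) := by
    have h1 : (fun y : Fin n → A => ∑ T ∈ s, F T (φ y)) =
        ∑ T ∈ s, (fun y : Fin n → A => F T (φ y)) := by
      funext y; rw [Finset.sum_apply]
    unfold Deg
    rw [h1]
    refine Submodule.sum_mem _ (fun T hT =>
      Submodule.subset_span ⟨(S T).map e.toEmbedding, ?_, ?_⟩)
    · rw [card_map]; exact hS T hT
    · intro x y hxy
      refine hF T hT _ _ (fun u hu => ?_)
      rw [hφ, hφ]
      exact hxy _ (mem_map.2 ⟨u, hu, rfl⟩)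
  have h := hyp_even r hr n k _ hd
  have e1 := avg_equiv φ (fun x => (∑ T ∈ s, F T x) ^ (2 * r))
  have e2 := avg_equiv φ (fun x => (∑ T ∈ s, F T x) ^ 2)
  rw [e1, e2] at h
  exact h

/-- H05. The level inequality.
Exactly as `level_bound` in EL/Level.lean, with 2^i replaced by r and 2^(i+1) by 2r and H04 instead of hyper_sum (index type Finset U, S = id). -/
theorem level_sharp {g : (U → A) → ℝ} (hg : ∀ x, 0 ≤ g x) {M : ℝ} (hM : ∀ x, g x ≤ M) (r k : ℕ)
    (hr : 1 ≤ r) (𝒮 : Finset (Finset U)) (h𝒮 : ∀ T ∈ 𝒮, T.card ≤ k) :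
    (∑ T ∈ 𝒮, nr g T) ^ r ≤
      (avg g) ^ (2 * r - 1) * M * (8 * r * (Fintype.card A : ℝ)) ^ (r * k) := by
  set W := ∑ T ∈ 𝒮, nr g T with hW
  have hW0 : 0 ≤ W := sum_nonneg (fun T _ => nr_nonneg g T)
  have hx : Nonempty (U → A) := inferInstance
  obtain ⟨x₀⟩ := hx
  have hM0 : 0 ≤ M := (hg x₀).trans (hM x₀)
  have ha0 : 0 ≤ avg g := avg_nonneg hg
  have hpos : 0 < r := by omega
  rcases ha0.eq_or_lt with ha | ha
  · -- `g` vanishes
    have h1 : ∀ x, g x = 0 := by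
      have h2 : ∑ x, g x = 0 := by
        rw [← card_mul_avg, ← ha, mul_zero]
      rw [sum_eq_zero_iff_of_nonneg (fun x _ => hg x)] at h2
      exact fun x => h2 x (mem_univ x)
    have h3 : W = 0 := by
      rw [hW, ← avg_mul_lv g 𝒮]
      have : (fun x => g x * lv g 𝒮 x) = fun _ => 0 := by
        funext x; rw [h1 x, zero_mul]
      rw [this]
      exact avg_const 0
    rw [h3, zero_pow hpos.ne']
    positivity
  · set a := avg g with hadef
    set f := lv g 𝒮 with hf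
    have e1 : avg (fun x => f x ^ 2) = W := avg_lv_sq g 𝒮
    have e2 : avg (fun x => g x * f x) = W := avg_mul_lv g 𝒮
    have h3 : avg (fun x => f x ^ (2 * r)) ≤
        (8 * r * (Fintype.card A : ℝ)) ^ (r * k) * W ^ r := by
      have := hyp_even_sum r k hr 𝒮 id h𝒮 (fun T => es g T) (fun T _ => es_dep g T)
      rw [← e1]
      exact this
    have hev : Even (2 * r) := even_two_mul r
    have h4 := jensen (g := fun x => a⁻¹ * g x) (fun x => mul_nonneg (inv_pos.2 ha).le (hg x))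
      (by rw [avg_const_mul]; exact inv_mul_cancel₀ ha.ne') f hev
    have e3 : avg (fun x => a⁻¹ * g x * f x) = a⁻¹ * W := by
      rw [← e2, ← avg_const_mul]
      congr 1; funext x; ring
    have e4 : avg (fun x => a⁻¹ * g x * f x ^ (2 * r)) ≤
        a⁻¹ * (M * avg (fun x => f x ^ (2 * r))) := by
      rw [← avg_const_mul, ← avg_const_mul]
      refine avg_mono (fun x => ?_)
      rw [mul_assoc]
      refine mul_le_mul_of_nonneg_left ?_ (inv_pos.2 ha).le
      exact mul_le_mul_of_nonneg_right (hM x) (hev.pow_nonneg _)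
    rw [e3] at h4
    set Q := (8 * r * (Fintype.card A : ℝ)) ^ (r * k) with hQ
    have hQ0 : 0 ≤ Q := by rw [hQ]; positivity
    have h5 : (a⁻¹ * W) ^ (2 * r) ≤ a⁻¹ * (M * (Q * W ^ r)) := by
      refine (h4.trans e4).trans ?_
      refine mul_le_mul_of_nonneg_left ?_ (inv_pos.2 ha).le
      exact mul_le_mul_of_nonneg_left h3 hM0
    have h6 : W ^ (2 * r) ≤ a ^ (2 * r - 1) * M * Q * W ^ r := by
      have h7 : a ^ (2 * r) * (a⁻¹ * W) ^ (2 * r) = W ^ (2 * r) := by
        rw [← mul_pow, ← mul_assoc, mul_inv_cancel₀ ha.ne', one_mul]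
      have h8 : a ^ (2 * r) = a ^ (2 * r - 1) * a := by
        rw [← pow_succ]
        congr 1
        omega
      rw [← h7]
      calc a ^ (2 * r) * (a⁻¹ * W) ^ (2 * r)
          ≤ a ^ (2 * r) * (a⁻¹ * (M * (Q * W ^ r))) :=
            mul_le_mul_of_nonneg_left h5 (by positivity)
        _ = a ^ (2 * r - 1) * M * Q * W ^ r := by
            rw [h8]; field_simp
    rcases hW0.eq_or_lt with hz | hWp
    · rw [← hz, zero_pow hpos.ne']
      positivity
    · have hp : 0 < W ^ r := pow_pos hWp _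
      have h7 : W ^ (2 * r) = W ^ r * W ^ r := by
        rw [← pow_add]; congr 1; ring
      rw [h7] at h6
      exact le_of_mul_le_mul_right h6 hp

end

end Pool.Agent.Lib.MP_8d8c46_lc.MC
end

section

/-! T06 : H09, H10 -/

set_option autoImplicit false
set_option linter.unusedSectionVars false

open scoped Classical
open Finset

namespace Pool.Agent.Lib.MP_8d8c46_lc.MC

open Pool.Agent.Lib.MP_8d8c46_lc.EL

private lemma t06_amgm {ι : Type} (s : Finset ι) (y : ι → ℝ) (k : ℕ) (hk0 : 0 < k)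
    (hk : s.card ≤ k) (hy : ∀ i ∈ s, 0 ≤ y i) :
    ∏ i ∈ s, y i ≤ ((k : ℝ) - s.card) / k + ∑ i ∈ s, (1 / k : ℝ) * y i ^ k := by
  have hk' : (0 : ℝ) < k := by exact_mod_cast hk0
  have hks : (s.card : ℝ) ≤ k := by exact_mod_cast hk
  let w : Option ι → ℝ := fun o => o.elim (((k : ℝ) - s.card) / k) (fun _ => 1 / k)
  let z : Option ι → ℝ := fun o => o.elim 1 (fun i => y i ^ k)
  have h := Real.geom_mean_le_arith_mean_weighted (insertNone s) w z ?_ ?_ ?_
  · rw [prod_insertNone, sum_insertNone] at h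
    have e0 : z none ^ w none = 1 := Real.one_rpow _
    have e1 : ∀ i ∈ s, z (some i) ^ w (some i) = y i := by
      intro i hi
      change (y i ^ k) ^ (1 / k : ℝ) = y i
      rw [one_div, Real.pow_rpow_inv_natCast (hy i hi) hk0.ne']
    rw [e0, one_mul, prod_congr rfl e1] at h
    refine h.trans (le_of_eq ?_)
    change ((k : ℝ) - s.card) / k * 1 + ∑ i ∈ s, (1 / k : ℝ) * y i ^ k = _
    rw [mul_one]
  · intro o ho
    cases o with
    | none => exact div_nonneg (by linarith) hk'.le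
    | some i => exact div_nonneg zero_le_one hk'.le
  · rw [sum_insertNone]
    change ((k : ℝ) - s.card) / k + ∑ _i ∈ s, (1 / k : ℝ) = 1
    rw [sum_const, nsmul_eq_mul]
    field_simp
    ring
  · intro o ho
    cases o with
    | none => exact zero_le_one
    | some i =>
      rw [some_mem_insertNone] at ho
      exact pow_nonneg (hy i ho) _

private lemma t06_pos {α ι : Type} [Fintype α] [Nonempty α] (s : Finset ι) (f : ι → α → ℝ)
    (c : ι → ℝ) (k : ℕ) (hk0 : 0 < k) (hk : s.card ≤ k) (hc : ∀ i ∈ s, 0 < c i)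
    (h : ∀ i ∈ s, avg (fun x => |f i x| ^ k) ≤ c i ^ k) :
    avg (fun x => ∏ i ∈ s, |f i x|) ≤ ∏ i ∈ s, c i := by
  have hk' : (0 : ℝ) < k := by exact_mod_cast hk0
  have hP : 0 ≤ ∏ i ∈ s, c i := prod_nonneg (fun i hi => (hc i hi).le)
  have hpt : ∀ x, ∏ i ∈ s, |f i x| ≤ (∏ i ∈ s, c i) *
      (((k : ℝ) - s.card) / k + ∑ i ∈ s, (1 / k : ℝ) * (|f i x| ^ k * (c i ^ k)⁻¹)) := by
    intro x
    have h1 := t06_amgm s (fun i => |f i x| / c i) k hk0 hk
      (fun i hi => div_nonneg (abs_nonneg _) (hc i hi).le)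
    have e : ∏ i ∈ s, |f i x| = (∏ i ∈ s, c i) * ∏ i ∈ s, |f i x| / c i := by
      rw [← prod_mul_distrib]
      refine prod_congr rfl (fun i hi => ?_)
      have := (hc i hi).ne'
      field_simp
    rw [e]
    refine mul_le_mul_of_nonneg_left (h1.trans (le_of_eq ?_)) hP
    congr 1
    refine sum_congr rfl (fun i _ => ?_)
    rw [div_pow, div_eq_mul_inv (|f i x| ^ k)]
  refine (avg_mono hpt).trans ?_
  rw [avg_const_mul, avg_add, avg_const, avg_sum]
  have h2 : ∑ i ∈ s, avg (fun x => (1 / k : ℝ) * (|f i x| ^ k * (c i ^ k)⁻¹)) ≤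
      ∑ _i ∈ s, (1 / k : ℝ) := by
    refine sum_le_sum (fun i hi => ?_)
    rw [avg_const_mul, avg_mul_const]
    have hci : 0 < c i ^ k := pow_pos (hc i hi) _
    have h3 : avg (fun x => |f i x| ^ k) * (c i ^ k)⁻¹ ≤ 1 := by
      rw [← div_eq_mul_inv, div_le_one hci]
      exact h i hi
    calc (1 / k : ℝ) * (avg (fun x => |f i x| ^ k) * (c i ^ k)⁻¹) ≤ (1 / k : ℝ) * 1 :=
          mul_le_mul_of_nonneg_left h3 (by positivity)
      _ = 1 / k := mul_one _
  have h4 : ((k : ℝ) - s.card) / k + ∑ _i ∈ s, (1 / k : ℝ) = 1 := by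
    rw [sum_const, nsmul_eq_mul]
    field_simp
    ring
  calc (∏ i ∈ s, c i) * (((k : ℝ) - s.card) / k +
        ∑ i ∈ s, avg (fun x => (1 / k : ℝ) * (|f i x| ^ k * (c i ^ k)⁻¹)))
      ≤ (∏ i ∈ s, c i) * 1 := by
        refine mul_le_mul_of_nonneg_left ?_ hP
        linarith
    _ = ∏ i ∈ s, c i := mul_one _

/-- H09.
Hölder for several functions. If some c i = 0 (i ∈ s) then f i = 0 everywhere and both sides are 0. Else by weighted AM-GM with weights 1/k for i ∈ s and (k - |s|)/k for the constant 1: Π |f i x|/c i ≤ Σ (1/k) (|f i x|/c i)^k + (k-|s|)/k (`Real.inner_le...`, `Real.geom_mean_le_arith_mean_weighted`); average ≤ 1. -/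
theorem holder_prod {α ι : Type} [Fintype α] [Nonempty α] (s : Finset ι) (f : ι → α → ℝ)
    (c : ι → ℝ) (k : ℕ) (hk0 : 0 < k) (hk : s.card ≤ k) (hc : ∀ i ∈ s, 0 ≤ c i)
    (h : ∀ i ∈ s, avg (fun x => |f i x| ^ k) ≤ c i ^ k) :
    avg (fun x => ∏ i ∈ s, |f i x|) ≤ ∏ i ∈ s, c i := by
  have hcont : Continuous (fun ε : ℝ => ∏ i ∈ s, (c i + ε)) := by fun_prop
  have hlim : Filter.Tendsto (fun ε : ℝ => ∏ i ∈ s, (c i + ε))
      (nhdsWithin 0 (Set.Ioi 0)) (nhds (∏ i ∈ s, c i)) := by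
    have h := (hcont.tendsto 0).mono_left (nhdsWithin_le_nhds (s := Set.Ioi 0))
    simpa using h
  refine ge_of_tendsto hlim ?_
  filter_upwards [self_mem_nhdsWithin] with ε hε
  have hε' : 0 < ε := hε
  refine t06_pos s f (fun i => c i + ε) k hk0 hk (fun i hi => ?_) (fun i hi => ?_)
  · have := hc i hi
    linarith
  · exact (h i hi).trans (pow_le_pow_left₀ (hc i hi) (by linarith) _)

/-- H10.
Minkowski. Convexity (`inner_le_Lp_mul_Lq` or `pow_arith_mean_le_arith_mean_pow`): with C = Σ c i > 0: |Σ f i|^k ≤ (Σ (c i / C) (C |f i| / c i))^k ≤ Σ (c i / C) (C |f i| / c i)^k; average ≤ C^k. Empty s: both sides 0 (k ≥ 1). -/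
theorem mink {α : Type} [Fintype α] [Nonempty α] {ι : Type} (s : Finset ι) (f : ι → α → ℝ)
    (c : ι → ℝ) (k : ℕ) (hk : 1 ≤ k) (hc : ∀ i ∈ s, 0 < c i)
    (h : ∀ i ∈ s, avg (fun x => |f i x| ^ k) ≤ c i ^ k) :
    avg (fun x => |∑ i ∈ s, f i x| ^ k) ≤ (∑ i ∈ s, c i) ^ k := by
  have hk0 : k ≠ 0 := by omega
  rcases s.eq_empty_or_nonempty with hs | hs
  · subst hs
    simp only [sum_empty, abs_zero]
    rw [avg_const]
  · set C := ∑ i ∈ s, c i with hC
    have hC0 : 0 < C := sum_pos hc hs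
    have hpt : ∀ x, |∑ i ∈ s, f i x| ^ k ≤
        ∑ i ∈ s, (c i / C) * (C ^ k * (c i ^ k)⁻¹ * |f i x| ^ k) := by
      intro x
      have h1 : |∑ i ∈ s, f i x| ≤ ∑ i ∈ s, (c i / C) * (C * |f i x| / c i) := by
        refine (abs_sum_le_sum_abs _ _).trans (le_of_eq ?_)
        refine sum_congr rfl (fun i hi => ?_)
        have := (hc i hi).ne'
        field_simp
      have h2 := Real.pow_arith_mean_le_arith_mean_pow s (fun i => c i / C)
        (fun i => C * |f i x| / c i) (fun i hi => div_nonneg (hc i hi).le hC0.le)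
        (by rw [← sum_div, ← hC, div_self hC0.ne'])
        (fun i hi => div_nonneg (mul_nonneg hC0.le (abs_nonneg _)) (hc i hi).le) k
      refine (pow_le_pow_left₀ (abs_nonneg _) h1 k).trans (h2.trans (le_of_eq ?_))
      refine sum_congr rfl (fun i hi => ?_)
      rw [div_pow, mul_pow]
      ring
    refine (avg_mono hpt).trans ?_
    rw [avg_sum]
    have h3 : ∀ i ∈ s, avg (fun x => (c i / C) * (C ^ k * (c i ^ k)⁻¹ * |f i x| ^ k)) ≤
        (c i / C) * C ^ k := by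
      intro i hi
      rw [avg_const_mul, avg_const_mul]
      refine mul_le_mul_of_nonneg_left ?_ (div_nonneg (hc i hi).le hC0.le)
      have hci : 0 < c i ^ k := pow_pos (hc i hi) _
      calc C ^ k * (c i ^ k)⁻¹ * avg (fun x => |f i x| ^ k)
          ≤ C ^ k * (c i ^ k)⁻¹ * c i ^ k :=
            mul_le_mul_of_nonneg_left (h i hi) (by positivity)
        _ = C ^ k := by
            rw [mul_assoc, inv_mul_cancel₀ hci.ne', mul_one]
    refine (sum_le_sum h3).trans (le_of_eq ?_)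
    rw [← sum_mul, ← sum_div, ← hC, div_self hC0.ne', one_mul]

end Pool.Agent.Lib.MP_8d8c46_lc.MC
end

section

/-! T07 : H11, H12 -/

set_option autoImplicit false
set_option linter.unusedSectionVars false

open scoped Classical
open Finset

namespace Pool.Agent.Lib.MP_8d8c46_lc.MC

open Pool.Agent.Lib.MP_8d8c46_lc.EL

/-- H11.
Π(1 + D e) = Σ_{S ⊆ s} Π_{e ∈ S} D e (`Finset.prod_one_add` or prod_add); for S ≠ ∅ |avg Π_{e∈S} D e| ≤ b^|S| by H09; Σ_{S ≠ ∅} b^|S| = (1+b)^|s| - 1. -/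
theorem prod_low {α E : Type} [Fintype α] [Nonempty α] (s : Finset E) (D : E → α → ℝ) {b : ℝ}
    (hb : 0 ≤ b) (k : ℕ) (hk0 : 0 < k) (hk : s.card ≤ k)
    (h : ∀ e ∈ s, avg (fun x => |D e x| ^ k) ≤ b ^ k) :
    |avg (fun x => ∏ e ∈ s, (1 + D e x)) - 1| ≤ (1 + b) ^ s.card - 1 := by
  have h1 : avg (fun x => ∏ e ∈ s, (1 + D e x)) =
      ∑ S ∈ s.powerset, avg (fun x => ∏ e ∈ S, D e x) := by
    rw [← avg_sum]
    congr 1
    funext x
    rw [prod_one_add]
  have h2 : (1 + b) ^ s.card = ∑ S ∈ s.powerset, b ^ S.card := by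
    have := prod_one_add (f := fun _ : E => b) s
    simp only [prod_const] at this
    exact this
  have hmem : ∅ ∈ s.powerset := empty_mem_powerset s
  rw [h1, h2, ← add_sum_erase _ _ hmem, ← add_sum_erase _ _ hmem]
  simp only [prod_empty, card_empty, pow_zero]
  rw [avg_const, add_sub_cancel_left, add_sub_cancel_left]
  refine (abs_sum_le_sum_abs _ _).trans (sum_le_sum (fun S hS => ?_))
  have hSs : S ⊆ s := mem_powerset.1 (mem_of_mem_erase hS)
  refine (abs_avg_le _).trans ?_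
  have h3 := holder_prod S D (fun _ => b) k hk0 ((card_le_card hSs).trans hk)
    (fun _ _ => hb) (fun e he => h e (hSs he))
  rw [prod_const] at h3
  refine le_trans (le_of_eq ?_) h3
  congr 1
  funext x
  exact abs_prod _ _

private lemma t07_pos {α E : Type} [Fintype α] [Nonempty α] (s : Finset E) (D : E → α → ℝ)
    {b : ℝ} (hb : 0 < b) (k : ℕ) (hk0 : 0 < k) (hk : 2 * s.card ≤ k)
    (h : ∀ e ∈ s, avg (fun x => |D e x| ^ k) ≤ b ^ k) :
    avg (fun x => (∏ e ∈ s, (1 + D e x)) ^ 2) ≤ (1 + b) ^ (2 * s.card) := by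
  have h1 : ∀ e ∈ s, avg (fun x => |1 + D e x| ^ k) ≤ (1 + b) ^ k := by
    intro e he
    have h2 := mink (univ : Finset Bool) (fun (j : Bool) (x : α) => if j then 1 else D e x)
      (fun j => if j then 1 else b) k (by omega) (fun j _ => by cases j <;> simp [hb])
      (fun j _ => by
        cases j
        · simpa using h e he
        · simp only [if_true, abs_one, one_pow]
          rw [avg_const])
    simp only [Fintype.sum_bool] at h2
    simpa using h2
  have h3 := holder_prod (s ×ˢ (univ : Finset Bool)) (fun p x => 1 + D p.1 x)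
    (fun _ => 1 + b) k hk0 (by rw [card_product, card_univ, Fintype.card_bool]; omega)
    (fun _ _ => by linarith) (fun p hp => h1 p.1 (mem_product.1 hp).1)
  rw [prod_const, card_product, card_univ, Fintype.card_bool, mul_comm s.card 2] at h3
  refine le_trans (le_of_eq ?_) h3
  congr 1
  funext x
  rw [prod_product, ← prod_pow]
  refine prod_congr rfl (fun e _ => ?_)
  change (1 + D e x) ^ 2 = ∏ _y : Bool, |1 + D e x|
  rw [prod_const, card_univ, Fintype.card_bool, sq_abs]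

/-- H12.
By H10 for the two functions 1 and D e (b = 0: then D e = 0): avg |1 + D e|^k ≤ (1+b)^k. The square of the product is a product over s × Bool (or s.disjSum s) of |1 + D e|; H09. -/
theorem prod_low_sq {α E : Type} [Fintype α] [Nonempty α] (s : Finset E) (D : E → α → ℝ) {b : ℝ}
    (hb : 0 ≤ b) (k : ℕ) (hk0 : 0 < k) (hk : 2 * s.card ≤ k)
    (h : ∀ e ∈ s, avg (fun x => |D e x| ^ k) ≤ b ^ k) :
    avg (fun x => (∏ e ∈ s, (1 + D e x)) ^ 2) ≤ (1 + b) ^ (2 * s.card) := by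
  have hcont : Continuous (fun ε : ℝ => (1 + (b + ε)) ^ (2 * s.card)) := by fun_prop
  have hlim : Filter.Tendsto (fun ε : ℝ => (1 + (b + ε)) ^ (2 * s.card))
      (nhdsWithin 0 (Set.Ioi 0)) (nhds ((1 + b) ^ (2 * s.card))) := by
    have h := (hcont.tendsto 0).mono_left (nhdsWithin_le_nhds (s := Set.Ioi 0))
    simpa using h
  refine ge_of_tendsto hlim ?_
  filter_upwards [self_mem_nhdsWithin] with ε hε
  have hε' : 0 < ε := hε
  exact t07_pos s D (by linarith) k hk0 hk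
    (fun e he => (h e he).trans (pow_le_pow_left₀ hb (by linarith) _))

end Pool.Agent.Lib.MP_8d8c46_lc.MC
end

section

/-! T08 : H13 -/

set_option autoImplicit false
set_option linter.unusedSectionVars false

open scoped Classical
open Finset

namespace Pool.Agent.Lib.MP_8d8c46_lc.MC

open Pool.Agent.Lib.MP_8d8c46_lc.EL

private lemma t08_cs {α : Type} [Fintype α] (f g : α → ℝ) {a c : ℝ} (ha : 0 ≤ a) (hc : 0 ≤ c)
    (hf : avg (fun x => f x ^ 2) ≤ a ^ 2) (hg : avg (fun x => g x ^ 2) ≤ c ^ 2) :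
    avg (fun x => |f x| * |g x|) ≤ a * c := by
  have h := avg_cs (fun x => |f x|) (fun x => |g x|)
  simp only [sq_abs] at h
  have h1 : avg (fun x => f x ^ 2) * avg (fun x => g x ^ 2) ≤ (a * c) ^ 2 := by
    rw [mul_pow]
    exact mul_le_mul hf hg (avg_nonneg (fun _ => sq_nonneg _)) (sq_nonneg _)
  exact le_of_sq_le_sq (h.trans h1) (mul_nonneg ha hc)

/-- H13.
Induction on s (Finset.induction_on), statement for all subsets. insert e s': Πg - Πlow = g e (Π_{s'} g - Π_{s'} low) + H e Π_{s'} low; avg|.| ≤ M * (induction) + avg(|H e| |Π_{s'} low|) ≤ M * ... + ζ (1+b)^|s'| by Cauchy–Schwarz and H12. -/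
theorem prod_high {α E : Type} [Fintype α] [Nonempty α] (s : Finset E) (g D H : E → α → ℝ)
    {b M ζ : ℝ} (hb : 0 ≤ b) (hM : 1 ≤ M) (hζ : 0 ≤ ζ) (k : ℕ) (hk0 : 0 < k)
    (hk : 2 * s.card ≤ k) (hg : ∀ e ∈ s, ∀ x, g e x = 1 + D e x + H e x)
    (hgM : ∀ e ∈ s, ∀ x, |g e x| ≤ M)
    (hH : ∀ e ∈ s, avg (fun x => H e x ^ 2) ≤ ζ ^ 2)
    (h : ∀ e ∈ s, avg (fun x => |D e x| ^ k) ≤ b ^ k) :
    avg (fun x => |∏ e ∈ s, g e x - ∏ e ∈ s, (1 + D e x)|) ≤
      s.card * M ^ s.card * (1 + b) ^ s.card * ζ := by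
  induction s using Finset.induction_on with
  | empty =>
    simp only [prod_empty, sub_self, abs_zero, card_empty, Nat.cast_zero, zero_mul]
    rw [avg_const]
  | insert e s he ih =>
    rw [card_insert_of_notMem he] at hk ⊢
    have hsub : ∀ e' ∈ s, e' ∈ insert e s := fun e' h' => mem_insert_of_mem h'
    have ih' := ih (by omega) (fun e' h' => hg e' (hsub e' h'))
      (fun e' h' => hgM e' (hsub e' h')) (fun e' h' => hH e' (hsub e' h'))
      (fun e' h' => h e' (hsub e' h'))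
    have hlow := prod_low_sq s D hb k hk0 (by omega) (fun e' h' => h e' (hsub e' h'))
    have hM0 : 0 ≤ M := by linarith
    have hpt : ∀ x, |∏ e' ∈ insert e s, g e' x - ∏ e' ∈ insert e s, (1 + D e' x)| ≤
        M * |∏ e' ∈ s, g e' x - ∏ e' ∈ s, (1 + D e' x)| +
          |H e x| * |∏ e' ∈ s, (1 + D e' x)| := by
      intro x
      rw [prod_insert he, prod_insert he]
      have e1 : g e x * ∏ e' ∈ s, g e' x - (1 + D e x) * ∏ e' ∈ s, (1 + D e' x) =
          g e x * (∏ e' ∈ s, g e' x - ∏ e' ∈ s, (1 + D e' x)) +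
            H e x * ∏ e' ∈ s, (1 + D e' x) := by
        rw [hg e (mem_insert_self e s) x]
        ring
      rw [e1]
      refine (abs_add_le _ _).trans ?_
      rw [abs_mul, abs_mul]
      exact add_le_add (mul_le_mul_of_nonneg_right (hgM e (mem_insert_self e s) x)
        (abs_nonneg _)) le_rfl
    refine (avg_mono hpt).trans ?_
    rw [avg_add, avg_const_mul]
    have hcs : avg (fun x => |H e x| * |∏ e' ∈ s, (1 + D e' x)|) ≤ ζ * (1 + b) ^ s.card := by
      refine t08_cs (H e) (fun x => ∏ e' ∈ s, (1 + D e' x)) hζ (by positivity)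
        (hH e (mem_insert_self e s)) ?_
      rw [← pow_mul, mul_comm s.card 2]
      exact hlow
    have h1 : M * avg (fun x => |∏ e' ∈ s, g e' x - ∏ e' ∈ s, (1 + D e' x)|) ≤
        M * (s.card * M ^ s.card * (1 + b) ^ s.card * ζ) := mul_le_mul_of_nonneg_left ih' hM0
    have hMp : 1 ≤ M ^ (s.card + 1) := one_le_pow₀ hM
    have hbp : (1 + b) ^ s.card ≤ (1 + b) ^ (s.card + 1) :=
      pow_le_pow_right₀ (by linarith) (Nat.le_succ _)
    have hb0 : 0 ≤ (1 + b) ^ s.card := by positivity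
    have h2 : M * (s.card * M ^ s.card * (1 + b) ^ s.card * ζ) ≤
        s.card * M ^ (s.card + 1) * (1 + b) ^ (s.card + 1) * ζ := by
      have : M * (s.card * M ^ s.card * (1 + b) ^ s.card * ζ) =
          s.card * M ^ (s.card + 1) * (1 + b) ^ s.card * ζ := by
        rw [pow_succ]; ring
      rw [this]
      gcongr
    have h3 : ζ * (1 + b) ^ s.card ≤ M ^ (s.card + 1) * (1 + b) ^ (s.card + 1) * ζ := by
      calc ζ * (1 + b) ^ s.card = 1 * (1 + b) ^ s.card * ζ := by ring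
        _ ≤ M ^ (s.card + 1) * (1 + b) ^ (s.card + 1) * ζ := by gcongr
    push_cast
    have h4 : ((s.card : ℝ) + 1) * M ^ (s.card + 1) * (1 + b) ^ (s.card + 1) * ζ =
        s.card * M ^ (s.card + 1) * (1 + b) ^ (s.card + 1) * ζ +
          M ^ (s.card + 1) * (1 + b) ^ (s.card + 1) * ζ := by ring
    rw [h4]
    linarith

end Pool.Agent.Lib.MP_8d8c46_lc.MC
end

section

/-! T09 : H14 -/

set_option autoImplicit false
set_option linter.unusedSectionVars false

open scoped Classical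
open Finset

namespace Pool.Agent.Lib.MP_8d8c46_lc.MC

open Pool.Agent.Lib.MP_8d8c46_lc.EL

private lemma t09_geom (y : ℝ) (hy : 0 ≤ y) (hy2 : 2 * y ≤ 1) (L : ℕ) :
    ∑ t ∈ Ico 1 L, y ^ t ≤ 2 * y := by
  rcases Nat.eq_zero_or_pos L with h0 | hL
  · subst h0
    simp only [zero_le, Ico_eq_empty_of_le, sum_empty]
    linarith
  · have hy1 : y < 1 := by linarith
    have h1 : ∑ t ∈ Ico 1 L, y ^ t = y * ∑ t ∈ range (L - 1), y ^ t := by
      rw [sum_Ico_eq_sum_range, mul_sum]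
      refine sum_congr rfl (fun t _ => ?_)
      rw [pow_add, pow_one]
    have h2 : ∑ t ∈ range (L - 1), y ^ t ≤ 2 := by
      have h3 : (∑ t ∈ range (L - 1), y ^ t) * (1 - y) = 1 - y ^ (L - 1) := by
        rw [geom_sum_mul_neg]
      have h4 : 0 ≤ y ^ (L - 1) := pow_nonneg hy _
      have h5 : 0 ≤ ∑ t ∈ range (L - 1), y ^ t := sum_nonneg (fun t _ => pow_nonneg hy _)
      nlinarith
    rw [h1]
    nlinarith

/-- H14. The product of functions whose levels are small.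
D e = Σ_{t ∈ Ico 1 L} G e t. By H04 (k := 2t, r := m): avg |G e t|^(2m) ≤ (8 m q)^(2 t m) (β²)^(t m) = (((8 m q) β)^t)^(2m). H10 (exponent 2m, c t = (8 m q β)^t): avg |D e|^(2m) ≤ b^(2m), b = 16 m q β (geometric sum, 8 m q β ≤ 1/2). Then H11 and H13 with s = univ, k = 2m. -/
theorem prod_close {U A E : Type} [Fintype U] [Fintype A] [Nonempty A] [Fintype E]
    (g : E → (U → A) → ℝ) (G : E → ℕ → (U → A) → ℝ) (H : E → (U → A) → ℝ) (L m : ℕ)
    (hm : Fintype.card E = m) (hm1 : 1 ≤ m) {β ζ M : ℝ} (hβ : 0 < β) (hζ : 0 ≤ ζ) (hM : 1 ≤ M)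
    (hβ2 : 2 * (8 * m * (Fintype.card A : ℝ)) * β ≤ 1)
    (hg : ∀ e x, g e x = 1 + ∑ t ∈ Ico 1 L, G e t x + H e x)
    (hgM : ∀ e x, |g e x| ≤ M)
    (hH : ∀ e, avg (fun x => H e x ^ 2) ≤ ζ ^ 2)
    (hG : ∀ e, ∀ t ∈ Ico 1 L, avg (fun x => G e t x ^ 2) ≤ (β ^ 2) ^ t)
    (hGd : ∀ e, ∀ t ∈ Ico 1 L, ∃ (ι : Type) (s : Finset ι) (S : ι → Finset U)
      (F : ι → (U → A) → ℝ), (∀ T ∈ s, (S T).card ≤ 2 * t) ∧ (∀ T ∈ s, DepOn (S T) (F T)) ∧
      ∀ x, G e t x = ∑ T ∈ s, F T x) :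
    |avg (fun x => ∏ e, g e x) - 1| ≤
      ((1 + 16 * m * (Fintype.card A : ℝ) * β) ^ m - 1) +
        m * M ^ m * (1 + 16 * m * (Fintype.card A : ℝ) * β) ^ m * ζ := by
  have hq : (1 : ℝ) ≤ Fintype.card A := by exact_mod_cast Fintype.card_pos
  have hm' : (1 : ℝ) ≤ m := by exact_mod_cast hm1
  set q : ℝ := (Fintype.card A : ℝ) with hqdef
  set K : ℝ := 8 * m * q with hK
  have hK0 : 0 < K := by rw [hK]; positivity
  set y : ℝ := K * β with hy
  have hy0 : 0 < y := mul_pos hK0 hβ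
  set b : ℝ := 16 * m * q * β with hb
  have hby : b = 2 * y := by rw [hb, hy, hK]; ring
  have hb0 : 0 ≤ b := by rw [hby]; linarith
  set D : E → (U → A) → ℝ := fun e x => ∑ t ∈ Ico 1 L, G e t x with hD
  have hev : Even (2 * m) := even_two_mul m
  have hGp : ∀ e, ∀ t ∈ Ico 1 L, avg (fun x => |G e t x| ^ (2 * m)) ≤ (y ^ t) ^ (2 * m) := by
    intro e t ht
    obtain ⟨ι, s, S, F, hS, hF, hsum⟩ := hGd e t ht
    have h1 := hyp_even_sum (U := U) (A := A) m (2 * t) hm1 s S hS F hF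
    simp only [← hsum] at h1
    simp only [hev.pow_abs]
    refine h1.trans ?_
    have h2 : (avg (fun x => G e t x ^ 2)) ^ m ≤ ((β ^ 2) ^ t) ^ m :=
      pow_le_pow_left₀ (avg_nonneg (fun _ => sq_nonneg _)) (hG e t ht) _
    refine (mul_le_mul_of_nonneg_left h2 (by positivity)).trans (le_of_eq ?_)
    rw [← hqdef, ← hK, hy, ← pow_mul, ← pow_mul, ← pow_mul, mul_pow]
    ring
  have hDp : ∀ e ∈ (univ : Finset E), avg (fun x => |D e x| ^ (2 * m)) ≤ b ^ (2 * m) := by
    intro e _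
    have h1 := mink (Ico 1 L) (fun t x => G e t x) (fun t => y ^ t) (2 * m) (by omega)
      (fun t _ => pow_pos hy0 t) (fun t ht => hGp e t ht)
    refine h1.trans ?_
    refine pow_le_pow_left₀ (sum_nonneg (fun t _ => (pow_pos hy0 t).le)) ?_ _
    rw [hby]
    exact t09_geom y hy0.le (by rw [hy, hK]; linarith) L
  have hcard : (univ : Finset E).card = m := by rw [card_univ, hm]
  have h1 := prod_low (univ : Finset E) D hb0 (2 * m) (by omega) (by omega) hDp
  have h2 := prod_high (univ : Finset E) g D H hb0 hM hζ (2 * m) (by omega) (by omega)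
    (fun e _ x => hg e x) (fun e _ x => hgM e x) (fun e _ => hH e) hDp
  rw [hcard] at h1 h2
  have h3 : |avg (fun x => ∏ e, g e x) - avg (fun x => ∏ e, (1 + D e x))| ≤
      m * M ^ m * (1 + b) ^ m * ζ := by
    rw [← avg_sub]
    exact (abs_avg_le _).trans h2
  have h4 : avg (fun x => ∏ e, g e x) - 1 =
      (avg (fun x => ∏ e, g e x) - avg (fun x => ∏ e, (1 + D e x))) +
        (avg (fun x => ∏ e, (1 + D e x)) - 1) := by ring
  rw [h4]
  refine (abs_add_le _ _).trans ?_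
  linarith

end Pool.Agent.Lib.MP_8d8c46_lc.MC
end

section

/-! T05 : H06, H07, H08 -/

set_option autoImplicit false
set_option linter.unusedSectionVars false

open scoped Classical
open Finset

namespace Pool.Agent.Lib.MP_8d8c46_lc.MC

open Pool.Agent.Lib.MP_8d8c46_lc.EL

section
variable {U A : Type} [Fintype U] [Fintype A] [Nonempty A]

/-- H06.
As `pow_trick` in EL/Core3.lean: (W/z)^m ≤ z^(m-1) B^m ≤ z^(m-1) B^m c^m t ≤ c^m B^m (z+t)^m. -/
theorem pow_trick' {m : ℕ} (hm : 1 ≤ m) {W z t B c : ℝ} (hW : 0 ≤ W) (hz : 0 < z) (ht : 0 ≤ t)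
    (hB : 0 ≤ B) (hc : 1 ≤ c) (h : W ^ m ≤ z ^ (2 * m - 1) * B ^ m) (ht1 : 1 ≤ c ^ m * t) :
    W / z ≤ c * (z + t) * B := by
  have hc0 : 0 ≤ c := by linarith
  have h0 : 0 ≤ c * (z + t) * B := by positivity
  have hm0 : m ≠ 0 := by omega
  refine (pow_le_pow_iff_left₀ (div_nonneg hW hz.le) h0 hm0).1 ?_
  have h1 : (W / z) ^ m ≤ z ^ (m - 1) * B ^ m := by
    rw [div_pow, div_le_iff₀ (by positivity)]
    refine h.trans (le_of_eq ?_)
    have : z ^ (2 * m - 1) = z ^ (m - 1) * z ^ m := by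
      rw [← pow_add]; congr 1; omega
    rw [this]; ring
  have h2 : z ^ (m - 1) * t ≤ (z + t) ^ m := by
    calc z ^ (m - 1) * t ≤ (z + t) ^ (m - 1) * (z + t) := by
          refine mul_le_mul ?_ (by linarith) ht (by positivity)
          exact pow_le_pow_left₀ hz.le (by linarith) _
      _ = (z + t) ^ m := by rw [← pow_succ]; congr 1; omega
  calc (W / z) ^ m ≤ z ^ (m - 1) * B ^ m := h1
    _ ≤ z ^ (m - 1) * B ^ m * (c ^ m * t) := by
        refine le_mul_of_one_le_right (by positivity) ht1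
    _ = (c ^ m * B ^ m) * (z ^ (m - 1) * t) := by ring
    _ ≤ (c ^ m * B ^ m) * (z + t) ^ m := mul_le_mul_of_nonneg_left h2 (by positivity)
    _ = _ := by rw [mul_pow, mul_pow]; ring

end

section
variable {U Γ : Type} [Fintype U] [Fintype Γ] [Nonempty Γ]
variable {𝒜 : Finset (Equiv.Perm U × (U → Γ))} {I : Finset U} {τ₀ : Equiv.Perm U} {b : U → Γ}

/-- H07.
As `first_factor` in EL/Core3.lean with H05 (k, r) and H06 with c = 2^k, B = (8 r |Γ|)^k, t = Z / |S|: 2 * 2^k * (8 r |Γ|)^k = 2 (16 r |Γ|)^k. -/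
theorem first_sharp (h𝒜 : ∀ ω ∈ 𝒜, ∀ u ∈ I, ω.1 u = τ₀ u ∧ ω.2 u = b u) {k r : ℕ} (hr : 1 ≤ r)
    (hN : ((univ.filter (fun τ : Equiv.Perm U => ∀ u ∈ I, τ u = τ₀ u)).card : ℝ) ≤
      2 ^ (k * r) * ∑ τ, zz 𝒜 I b τ) (𝒯 : Finset (Finset U))
    (h𝒯 : 𝒯 ⊆ powersetCard k univ) :
    ∑ τ, (∑ T ∈ 𝒯, nr (Fb 𝒜 I b τ) T) / zz 𝒜 I b τ ≤
      2 * (16 * r * (Fintype.card Γ : ℝ)) ^ k * ∑ τ, zz 𝒜 I b τ := by
  set 𝒮 := univ.filter (fun τ : Equiv.Perm U => ∀ u ∈ I, τ u = τ₀ u) with h𝒮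
  set Z := ∑ τ, zz 𝒜 I b τ with hZ
  set B := (8 * r * (Fintype.card Γ : ℝ)) ^ k with hB
  have hZ0 : 0 ≤ Z := sum_nonneg (fun τ _ => zz_nonneg τ)
  have hB0 : 0 ≤ B := by rw [hB]; positivity
  have h𝒮0 : (0 : ℝ) < 𝒮.card := by
    have : τ₀ ∈ 𝒮 := by rw [h𝒮, mem_filter]; exact ⟨mem_univ _, fun _ _ => rfl⟩
    exact_mod_cast card_pos.2 ⟨_, this⟩
  set t := Z / 𝒮.card with ht
  have ht0 : 0 ≤ t := div_nonneg hZ0 h𝒮0.le
  have ht1 : 1 ≤ ((2 : ℝ) ^ k) ^ r * t := by
    rw [ht, ← mul_div_assoc, le_div_iff₀ h𝒮0, one_mul, ← pow_mul]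
    exact hN
  have hout : ∀ τ, τ ∉ 𝒮 → zz 𝒜 I b τ = 0 := by
    intro τ hτ
    have : ¬ ∀ u ∈ I, τ u = τ₀ u := fun h => hτ (by rw [h𝒮, mem_filter]; exact ⟨mem_univ _, h⟩)
    unfold zz
    rw [zz_eq_zero h𝒜 this]
    exact avg_const 0
  have h1 : ∑ τ, (∑ T ∈ 𝒯, nr (Fb 𝒜 I b τ) T) / zz 𝒜 I b τ =
      ∑ τ ∈ 𝒮, (∑ T ∈ 𝒯, nr (Fb 𝒜 I b τ) T) / zz 𝒜 I b τ := by
    symm
    refine sum_subset (subset_univ _) (fun τ _ hτ => ?_)
    rw [hout τ hτ, div_zero]
  rw [h1]
  have h2 : ∀ τ ∈ 𝒮, (∑ T ∈ 𝒯, nr (Fb 𝒜 I b τ) T) / zz 𝒜 I b τ ≤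
      2 ^ k * (zz 𝒜 I b τ + t) * B := by
    intro τ _
    rcases (zz_nonneg (𝒜 := 𝒜) (I := I) (b := b) τ).eq_or_lt with h | h
    · rw [← h, div_zero]
      positivity
    · have h3 := level_sharp (g := Fb 𝒜 I b τ) (fun w => In_nonneg _ _ _) (M := 1)
        (fun w => In_le_one _ _ _) r k hr 𝒯 (fun T hT => (mem_powersetCard.1 (h𝒯 hT)).2.le)
      refine pow_trick' hr
        (sum_nonneg (fun T _ => nr_nonneg _ _)) h ht0 hB0 (one_le_pow₀ (by norm_num)) ?_ ht1
      refine h3.trans (le_of_eq ?_)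
      rw [mul_one, hB, ← pow_mul, mul_comm k r]
      rfl
  refine (sum_le_sum h2).trans ?_
  have h4 : ∑ τ ∈ 𝒮, zz 𝒜 I b τ ≤ Z :=
    sum_le_sum_of_subset_of_nonneg (subset_univ _) (fun τ _ _ => zz_nonneg τ)
  have h5 : ∑ τ ∈ 𝒮, 2 ^ k * (zz 𝒜 I b τ + t) * B =
      2 ^ k * B * (∑ τ ∈ 𝒮, zz 𝒜 I b τ + 𝒮.card * t) := by
    rw [← sum_mul, ← mul_sum, sum_add_distrib, sum_const, nsmul_eq_mul]; ring
  rw [h5]
  have h6 : (𝒮.card : ℝ) * t = Z := by rw [ht]; field_simp
  rw [h6]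
  have h7 : (16 * r * (Fintype.card Γ : ℝ)) ^ k = 2 ^ k * B := by
    rw [hB, ← mul_pow]; ring
  rw [h7]
  have h8 : 0 ≤ 2 ^ k * B := by positivity
  nlinarith

/-- H08.
Each term is ≤ 1, and is 0 for τ outside of the filtered set (there Fb = 0 by `zz_eq_zero`, so zz = 0 and x/0 = 0): Bessel (`bessel`): Σ_T nr (Fb τ) T ≤ avg (Fb τ ^2) = avg (Fb τ) = zz (values 0/1, `In_sq`). -/
theorem first_parseval (h𝒜 : ∀ ω ∈ 𝒜, ∀ u ∈ I, ω.1 u = τ₀ u ∧ ω.2 u = b u)
    (𝒯 : Finset (Finset U)) :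
    ∑ τ, (∑ T ∈ 𝒯, nr (Fb 𝒜 I b τ) T) / zz 𝒜 I b τ ≤
      ((univ.filter (fun τ : Equiv.Perm U => ∀ u ∈ I, τ u = τ₀ u)).card : ℝ) := by
  set 𝒮 := univ.filter (fun τ : Equiv.Perm U => ∀ u ∈ I, τ u = τ₀ u) with h𝒮
  have hout : ∀ τ, τ ∉ 𝒮 → zz 𝒜 I b τ = 0 := by
    intro τ hτ
    have : ¬ ∀ u ∈ I, τ u = τ₀ u := fun h => hτ (by rw [h𝒮, mem_filter]; exact ⟨mem_univ _, h⟩)
    unfold zz
    rw [zz_eq_zero h𝒜 this]
    exact avg_const 0
  have h1 : ∑ τ, (∑ T ∈ 𝒯, nr (Fb 𝒜 I b τ) T) / zz 𝒜 I b τ =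
      ∑ τ ∈ 𝒮, (∑ T ∈ 𝒯, nr (Fb 𝒜 I b τ) T) / zz 𝒜 I b τ := by
    symm
    refine sum_subset (subset_univ _) (fun τ _ hτ => ?_)
    rw [hout τ hτ, div_zero]
  rw [h1]
  have h2 : ∀ τ ∈ 𝒮, (∑ T ∈ 𝒯, nr (Fb 𝒜 I b τ) T) / zz 𝒜 I b τ ≤ 1 := by
    intro τ _
    refine div_le_one_of_le₀ ?_ (zz_nonneg τ)
    refine (bessel (Fb 𝒜 I b τ) 𝒯).trans (le_of_eq ?_)
    unfold zz
    congr 1
    funext w
    exact In_sq _ _ _
  refine (sum_le_sum h2).trans (le_of_eq ?_)
  rw [sum_const, nsmul_eq_mul, mul_one]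

end

end Pool.Agent.Lib.MP_8d8c46_lc.MC
end
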