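import Pool.Agent.Lib.MP_8d8c46_lc.MC.DKern
import Pool.Agent.Lib.MP_8d8c46_lc.MC.DForest
import Pool.Agent.Lib.MP_8d8c46_lc.MC.DOne
import Pool.Agent.Lib.MP_8d8c46_lc.MC.DLev
import Pool.Agent.Lib.MP_8d8c46_lc.MC.DR
import Pool.Agent.Lib.MP_8d8c46_lc.MC.DPart
import Pool.Agent.Lib.MP_8d8c46_lc.MC.DInd

section

/-! T10 : K01, K02, K03, K04, K05 -/

set_option autoImplicit false
set_option linter.unusedSectionVars false

open scoped Classical
open Finset

namespace Pool.Agent.Lib.MP_8d8c46_lc.MC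

open Pool.Agent.Lib.MP_8d8c46_lc.EL

section
variable {q : ℕ} [NeZero q]

/-- K01.
The sum of the if is q; divided by card (ZMod q) = q gives 1. -/
theorem avg_th : avg (fun z : ZMod q => th z) = 0 := by
  unfold avg th
  rw [sum_sub_distrib, sum_ite_eq' univ (0 : ZMod q) (fun _ => (q : ℝ))]
  simp [ZMod.card]

/-- K02.
avg_equiv with Equiv.subLeft c. -/
theorem avg_th_sub (c : ZMod q) (F : ZMod q → ℝ) :
    avg (fun a => F (c - a)) = avg F :=
  avg_equiv (Equiv.subLeft c) F

/-- K03.
Value 1 - σ ≥ 0 if z ≠ 0; 1 + σ (q - 1) ≥ 0 if z = 0 (q ≥ 1). -/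
theorem ka_nonneg {σ : ℝ} (h0 : 0 ≤ σ) (h1 : σ ≤ 1) (z : ZMod q) : 0 ≤ ka σ z := by
  unfold ka th
  split_ifs with h
  · have : (1 : ℝ) ≤ q := by exact_mod_cast Nat.one_le_iff_ne_zero.2 (NeZero.ne q)
    have h2 : 0 ≤ σ * ((q : ℝ) - 1) := mul_nonneg h0 (by linarith)
    linarith
  · linarith

/-- K04.
avg is linear, K01, avg_const. -/
theorem avg_ka (σ : ℝ) : avg (fun z : ZMod q => ka σ z) = 1 := by
  unfold ka
  rw [avg_add, avg_const, avg_const_mul, avg_th]
  ring

private theorem t10_avg_prod {U A : Type} [Fintype U] [Fintype A] [Nonempty A] (S : Finset U)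
    (g : U → A → ℝ) : avg (fun w : U → A => ∏ u ∈ S, g u (w u)) = ∏ u ∈ S, avg (g u) := by
  have hA : (Fintype.card A : ℝ) ≠ 0 := by exact_mod_cast Fintype.card_ne_zero
  have e1 : ∀ w : U → A, ∏ u ∈ S, g u (w u) =
      ∏ u : U, (if u ∈ S then g u (w u) else 1) := by
    intro w
    rw [prod_ite_mem, univ_inter]
  have e2 : ∏ u ∈ S, avg (g u) = ∏ u : U, (if u ∈ S then avg (g u) else 1) := by
    rw [prod_ite_mem, univ_inter]
  rw [e2]
  simp only [e1]
  unfold avg
  have e3 : ∑ w : U → A, ∏ u : U, (if u ∈ S then g u (w u) else 1) =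
      ∏ u : U, ∑ a : A, (if u ∈ S then g u a else 1) := by
    rw [prod_univ_sum, Fintype.piFinset_univ]
  rw [e3]
  have e4 : (Fintype.card (U → A) : ℝ) = ∏ _u : U, (Fintype.card A : ℝ) := by
    rw [Fintype.card_pi]; push_cast; rfl
  rw [e4, ← prod_div_distrib]
  refine prod_congr rfl fun u _ => ?_
  split_ifs with h
  · rfl
  · rw [sum_const, card_univ, nsmul_eq_mul, mul_one, div_self hA]

private theorem t10_cd {U : Type} [Fintype U] (f : (U → ZMod q) → ℝ) (S : Finset U)
    (y : U → ZMod q) :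
    cd f S y = avg (fun w => f w * ∏ u ∈ S, (if w u - y u = 0 then (q : ℝ) else 0)) := by
  have h1 := avg_mx S (fun w => f w * ∏ u ∈ S, (if w u - y u = 0 then (q : ℝ) else 0))
  rw [← h1]
  have h2 : ∀ w' w : U → ZMod q,
      f (mx S w' w) * ∏ u ∈ S, (if mx S w' w u - y u = 0 then (q : ℝ) else 0) =
      f (mx S y w) * ∏ u ∈ S, (if w' u - y u = 0 then (q : ℝ) else 0) := by
    intro w' w
    have h3 : ∏ u ∈ S, (if mx S w' w u - y u = 0 then (q : ℝ) else 0) =
        ∏ u ∈ S, (if w' u - y u = 0 then (q : ℝ) else 0) := by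
      refine prod_congr rfl fun u hu => ?_
      have : mx S w' w u = w' u := by unfold mx; rw [if_pos hu]
      rw [this]
    rw [h3]
    by_cases h : ∀ u ∈ S, w' u - y u = 0
    · rw [mx_congr (fun u hu => sub_eq_zero.1 (h u hu))]
    · push Not at h
      obtain ⟨u, hu, hne⟩ := h
      rw [prod_eq_zero hu (by rw [if_neg hne]), mul_zero, mul_zero]
  simp only [h2]
  have h4 : avg (fun w' : U → ZMod q => ∏ u ∈ S, (if w' u - y u = 0 then (q : ℝ) else 0)) = 1 := by
    rw [t10_avg_prod S (fun u a => if a - y u = 0 then (q : ℝ) else 0)]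
    refine prod_eq_one fun u _ => ?_
    unfold avg
    simp only [sub_eq_zero]
    rw [sum_ite_eq' univ (y u) (fun _ => (q : ℝ))]
    have : (q : ℝ) ≠ 0 := by exact_mod_cast NeZero.ne q
    simp [ZMod.card, this]
  have h5 : ∀ w' : U → ZMod q, avg (fun w : U → ZMod q => f (mx S y w) *
      ∏ u ∈ S, (if w' u - y u = 0 then (q : ℝ) else 0)) =
      cd f S y * ∏ u ∈ S, (if w' u - y u = 0 then (q : ℝ) else 0) := by
    intro w'
    rw [avg_mul_const]; rfl
  simp only [h5]
  rw [avg_const_mul, h4, mul_one]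

/-- K05. The Efron–Stein components in terms of the kernel.
Expand Π_{u∈J} (q 1[w u = y u] - 1) = Σ_{S ⊆ J} (-1)^|J \ S| Π_{u∈S} q 1[w u = y u] (`Finset.prod_sub`/prod_add); avg_w f w Π_{u∈S} q 1[w u = y u] = cd f S y = avg_w f (mx S y w): by avg_mx, avg_w F w = avg_{w'} avg_w F (mx S w' w), the product is q^|S| 1[w' = y on S], whose average over w' is 1. (Note th (w u - y u): w u - y u = 0 iff w u = y u.) -/
theorem es_kernel {U : Type} [Fintype U] (f : (U → ZMod q) → ℝ) (J : Finset U)
    (y : U → ZMod q) :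
    es f J y = avg (fun w => f w * ∏ u ∈ J, th (w u - y u)) := by
  have h1 : ∀ w : U → ZMod q, f w * ∏ u ∈ J, th (w u - y u) =
      ∑ S ∈ J.powerset, (-1) ^ (J \ S).card *
        (f w * ∏ u ∈ S, (if w u - y u = 0 then (q : ℝ) else 0)) := by
    intro w
    have h2 : ∏ u ∈ J, th (w u - y u) =
        ∏ u ∈ J, ((if w u - y u = 0 then (q : ℝ) else 0) + (-1)) := by
      refine prod_congr rfl fun u _ => ?_
      unfold th; ring
    rw [h2, prod_add, mul_sum]
    refine sum_congr rfl fun S _ => ?_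
    rw [prod_const]; ring
  simp only [h1]
  rw [avg_sum]
  unfold es
  refine sum_congr rfl fun S _ => ?_
  rw [avg_const_mul, ← t10_cd]

end

end Pool.Agent.Lib.MP_8d8c46_lc.MC
end

section

/-! T16 : F01 -/

set_option autoImplicit false
set_option linter.unusedSectionVars false

open scoped Classical
open Finset

namespace Pool.Agent.Lib.MP_8d8c46_lc.MC

open Pool.Agent.Lib.MP_8d8c46_lc.EL

section

variable {V : Type} [Fintype V] {q : ℕ} [NeZero q]

private lemma t16_dn_update (σ : ℝ) (F : Finset (V × V × ZMod q)) (w : V) (hw : w ∉ vts F)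
    (x : V → ZMod q) (a : ZMod q) : dn σ F (Function.update x w a) = dn σ F x := by
  unfold dn
  apply Finset.prod_congr rfl
  intro f hf
  have h1 : f.1 ≠ w := by
    rintro rfl
    exact hw (mem_union_left _ (mem_image_of_mem _ hf))
  have h2 : f.2.1 ≠ w := by
    rintro rfl
    exact hw (mem_union_right _ (mem_image_of_mem (fun f => f.2.1) hf))
  rw [Function.update_of_ne h1, Function.update_of_ne h2]

private lemma t16_core {σ : ℝ} (h0 : 0 ≤ σ) (h1 : σ ≤ 1) (F F' : Finset (V × V × ZMod q)) (o w : V)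
    (how : o ≠ w) (hw : w ∉ vts F) (τ : ZMod q ≃ ZMod q)
    (hF' : ∀ x : V → ZMod q, dn σ F' x = ka σ (τ.symm (x w - x o)) * dn σ F x)
    (ρ : V → V)
    (ih : ∀ (Φ : (V → ZMod q) → ℝ) (a b : ℝ),
      (∀ h : V → ZMod q, a ≤ avg (fun X : V → ZMod q => Φ (fun v => h v + X (ρ v))) ∧
        avg (fun X : V → ZMod q => Φ (fun v => h v + X (ρ v))) ≤ b) →
      a ≤ avg (fun x => dn σ F x * Φ x) ∧ avg (fun x => dn σ F x * Φ x) ≤ b)
    (Φ : (V → ZMod q) → ℝ) (a b : ℝ)
    (hΦ : ∀ h : V → ZMod q,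
      a ≤ avg (fun X : V → ZMod q => Φ (fun v => h v + X (Function.update ρ w (ρ o) v))) ∧
      avg (fun X : V → ZMod q => Φ (fun v => h v + X (Function.update ρ w (ρ o) v))) ≤ b) :
    a ≤ avg (fun x => dn σ F' x * Φ x) ∧ avg (fun x => dn σ F' x * Φ x) ≤ b := by
  set Φ' : (V → ZMod q) → ℝ := fun x =>
    avg (fun z : ZMod q => ka σ z * Φ (Function.update x w (x o + τ z))) with hΦ'
  have hmain : avg (fun x => dn σ F' x * Φ x) = avg (fun x => dn σ F x * Φ' x) := by
    set G : (V → ZMod q) → ℝ := fun x => ka σ (τ.symm (x w - x o)) * Φ x with hG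
    have hd : DepOn (univ.erase w) (fun x => dn σ F x) := by
      intro x y hxy
      have h2 : y = Function.update x w (y w) := by
        funext v
        by_cases hv : v = w
        · subst hv; simp
        · rw [Function.update_of_ne hv]
          exact (hxy v (mem_erase.2 ⟨hv, mem_univ _⟩)).symm
      simp only
      rw [h2, t16_dn_update σ F w hw]
    have h3 : avg (fun x => dn σ F' x * Φ x) = avg (fun x => G x * dn σ F x) := by
      congr 1; funext x
      rw [hF', hG]; ring
    rw [h3, avg_mul_cd hd]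
    congr 1; funext x
    rw [cd_erase, mul_comm]
    congr 1
    rw [hΦ', hG]
    simp only
    rw [← avg_equiv (Equiv.trans τ (Equiv.addLeft (x o)))
      (fun a => ka σ (τ.symm (Function.update x w a w - Function.update x w a o)) *
        Φ (Function.update x w a))]
    congr 1; funext z
    simp only [Equiv.trans_apply, Equiv.coe_addLeft, Function.update_self,
      Function.update_of_ne how]
    have h4 : x o + τ z - x o = τ z := by ring
    rw [h4, Equiv.symm_apply_apply]
  rw [hmain]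
  apply ih Φ' a b
  intro h
  have hexp : avg (fun X : V → ZMod q => Φ' (fun v => h v + X (ρ v))) =
      avg (fun z : ZMod q => ka σ z * avg (fun X : V → ZMod q =>
        Φ (fun v => Function.update h w (h o + τ z) v + X (Function.update ρ w (ρ o) v)))) := by
    rw [hΦ']
    simp only
    rw [avg_comm2]
    congr 1; funext z
    rw [avg_const_mul]
    congr 2; funext X
    congr 1; funext v
    by_cases hv : v = w
    · subst hv
      simp only [Function.update_self]
      ring
    · simp only [Function.update_of_ne hv]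
  rw [hexp]
  have hk := avg_ka (q := q) σ
  constructor
  · calc a = a * avg (fun z : ZMod q => ka σ z) := by rw [hk, mul_one]
      _ = avg (fun z : ZMod q => a * ka σ z) := (avg_const_mul _ _).symm
      _ ≤ _ := by
          apply avg_mono
          intro z
          rw [mul_comm]
          exact mul_le_mul_of_nonneg_left (hΦ _).1 (ka_nonneg h0 h1 z)
  · calc _ ≤ avg (fun z : ZMod q => b * ka σ z) := by
          apply avg_mono
          intro z
          rw [mul_comm b]
          exact mul_le_mul_of_nonneg_left (hΦ _).2 (ka_nonneg h0 h1 z)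
      _ = b * avg (fun z : ZMod q => ka σ z) := avg_const_mul _ _
      _ = b := by rw [hk, mul_one]

private lemma t16_vts_insert (F : Finset (V × V × ZMod q)) (l r : V) (c : ZMod q) (v : V) :
    v ∈ vts (insert (l, r, c) F) ↔ v = l ∨ v = r ∨ v ∈ vts F := by
  unfold vts
  simp only [mem_union, mem_image, mem_insert]
  constructor
  · rintro (⟨f, hf | hf, rfl⟩ | ⟨f, hf | hf, rfl⟩)
    · left; rw [hf]
    · right; right; left; exact ⟨f, hf, rfl⟩
    · right; left; rw [hf]
    · right; right; right; exact ⟨f, hf, rfl⟩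
  · rintro (rfl | rfl | ⟨f, hf, rfl⟩ | ⟨f, hf, rfl⟩)
    · left; exact ⟨_, Or.inl rfl, rfl⟩
    · right; exact ⟨_, Or.inl rfl, rfl⟩
    · left; exact ⟨f, Or.inr hf, rfl⟩
    · right; exact ⟨f, Or.inr hf, rfl⟩

private lemma t16_rho (F : Finset (V × V × ZMod q)) (l r : V) (c : ZMod q) (o w : V)
    (how : (o = l ∧ w = r) ∨ (o = r ∧ w = l))
    (ρ : V → V) (hρ1 : ∀ v, v ∉ vts F → ρ v = v) (hρ2 : ∀ v ∈ vts F, ρ v ∈ vts F) :
    (∀ v, v ∉ vts (insert (l, r, c) F) → Function.update ρ w (ρ o) v = v) ∧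
      (∀ v ∈ vts (insert (l, r, c) F), Function.update ρ w (ρ o) v ∈ vts (insert (l, r, c) F)) := by
  have key : ∀ v, (v = l ∨ v = r ∨ v ∈ vts F) → (ρ v = l ∨ ρ v = r ∨ ρ v ∈ vts F) := by
    intro v hv
    by_cases h : v ∈ vts F
    · exact Or.inr (Or.inr (hρ2 v h))
    · rw [hρ1 v h]; exact hv
  constructor
  · intro v hv
    rw [t16_vts_insert] at hv
    push Not at hv
    obtain ⟨hl, hr, hF⟩ := hv
    have hvw : v ≠ w := by
      rcases how with ⟨_, rfl⟩ | ⟨_, rfl⟩
      · exact hr
      · exact hl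
    rw [Function.update_of_ne hvw]
    exact hρ1 v hF
  · intro v hv
    rw [t16_vts_insert] at hv ⊢
    by_cases hvw : v = w
    · subst hvw
      rw [Function.update_self]
      apply key
      rcases how with ⟨rfl, _⟩ | ⟨rfl, _⟩
      · exact Or.inl rfl
      · exact Or.inr (Or.inl rfl)
    · rw [Function.update_of_ne hvw]
      exact key v hv

/-- F01. One more edge. -/
theorem forest_step {σ : ℝ} (h0 : 0 ≤ σ) (h1 : σ ≤ 1) (F : Finset (V × V × ZMod q)) (l r : V)
    (c : ZMod q) (hne : l ≠ r) (hr : l ∉ vts F ∨ r ∉ vts F)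
    (ρ : V → V) (hρ1 : ∀ v, v ∉ vts F → ρ v = v) (hρ2 : ∀ v ∈ vts F, ρ v ∈ vts F)
    (ih : ∀ (Φ : (V → ZMod q) → ℝ) (a b : ℝ),
      (∀ h : V → ZMod q, a ≤ avg (fun X : V → ZMod q => Φ (fun v => h v + X (ρ v))) ∧
        avg (fun X : V → ZMod q => Φ (fun v => h v + X (ρ v))) ≤ b) →
      a ≤ avg (fun x => dn σ F x * Φ x) ∧ avg (fun x => dn σ F x * Φ x) ≤ b) :
    ∃ ρ' : V → V, (∀ v, v ∉ vts (insert (l, r, c) F) → ρ' v = v) ∧
      (∀ v ∈ vts (insert (l, r, c) F), ρ' v ∈ vts (insert (l, r, c) F)) ∧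
      ∀ (Φ : (V → ZMod q) → ℝ) (a b : ℝ),
      (∀ h : V → ZMod q, a ≤ avg (fun X : V → ZMod q => Φ (fun v => h v + X (ρ' v))) ∧
        avg (fun X : V → ZMod q => Φ (fun v => h v + X (ρ' v))) ≤ b) →
      a ≤ avg (fun x => dn σ (insert (l, r, c) F) x * Φ x) ∧
        avg (fun x => dn σ (insert (l, r, c) F) x * Φ x) ≤ b := by
  have hnot : (l, r, c) ∉ F := by
    intro hmem
    rcases hr with h | h
    · exact h (mem_union_left _ (mem_image_of_mem (fun f => f.1) hmem))
    · exact h (mem_union_right _ (mem_image_of_mem (fun f => f.2.1) hmem))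
  have hdn : ∀ x : V → ZMod q, dn σ (insert (l, r, c) F) x =
      ka σ (c - x r + x l) * dn σ F x := by
    intro x
    unfold dn
    rw [Finset.prod_insert hnot]
  rcases hr with h | h
  · -- the new vertex is l
    obtain ⟨h2, h3⟩ := t16_rho F l r c r l (Or.inr ⟨rfl, rfl⟩) ρ hρ1 hρ2
    refine ⟨Function.update ρ l (ρ r), h2, h3, ?_⟩
    intro Φ a b hΦ
    refine t16_core h0 h1 F _ r l hne.symm h (Equiv.subRight c) ?_ ρ ih Φ a b hΦ
    intro x
    rw [hdn]
    congr 2
    simp only [Equiv.subRight_symm_apply]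
    ring
  · obtain ⟨h2, h3⟩ := t16_rho F l r c l r (Or.inl ⟨rfl, rfl⟩) ρ hρ1 hρ2
    refine ⟨Function.update ρ r (ρ l), h2, h3, ?_⟩
    intro Φ a b hΦ
    refine t16_core h0 h1 F _ l r hne h (Equiv.subLeft c) ?_ ρ ih Φ a b hΦ
    intro x
    rw [hdn]
    congr 2
    simp only [Equiv.subLeft_symm_apply]
    ring

end

end Pool.Agent.Lib.MP_8d8c46_lc.MC
end

section

/-! T17 : F02 -/

set_option autoImplicit false
set_option linter.unusedSectionVars false

open scoped Classical
open Finset

namespace Pool.Agent.Lib.MP_8d8c46_lc.MC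

open Pool.Agent.Lib.MP_8d8c46_lc.EL

section
variable {V : Type} [Fintype V] {q : ℕ} [NeZero q]

/-- F02. The equations of a forest leave the rest uniform.
Induction on Forest with F01; empty: dn = 1, ρ = id, avg Φ(h + X) with h = 0 (take h = 0). -/
theorem forest_avg {σ : ℝ} (h0 : 0 ≤ σ) (h1 : σ ≤ 1) {F : Finset (V × V × ZMod q)}
    (hF : Forest F) :
    ∃ ρ : V → V, (∀ v, v ∉ vts F → ρ v = v) ∧ (∀ v ∈ vts F, ρ v ∈ vts F) ∧
      ∀ (Φ : (V → ZMod q) → ℝ) (a b : ℝ),
      (∀ h : V → ZMod q, a ≤ avg (fun X : V → ZMod q => Φ (fun v => h v + X (ρ v))) ∧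
        avg (fun X : V → ZMod q => Φ (fun v => h v + X (ρ v))) ≤ b) →
      a ≤ avg (fun x => dn σ F x * Φ x) ∧ avg (fun x => dn σ F x * Φ x) ≤ b := by
  induction hF with
  | empty =>
    refine ⟨id, fun _ _ => rfl, fun v hv => hv, fun Φ a b hab => ?_⟩
    have h2 := hab (fun _ => 0)
    simp only [zero_add, id] at h2
    have e : ∀ x : V → ZMod q, dn σ ∅ x * Φ x = Φ x := by
      intro x; simp [dn]
    simp only [e]
    exact h2
  | add F l r c h hne hnew ih =>
    obtain ⟨ρ, hρ1, hρ2, hρ3⟩ := ih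
    exact forest_step h0 h1 F l r c hne hnew ρ hρ1 hρ2 hρ3

end

end Pool.Agent.Lib.MP_8d8c46_lc.MC
end

section

/-! T18 : O01, O02, O03 -/

set_option autoImplicit false
set_option linter.unusedSectionVars false

open scoped Classical
open Finset

namespace Pool.Agent.Lib.MP_8d8c46_lc.MC

open Pool.Agent.Lib.MP_8d8c46_lc.EL

section
variable {N q : ℕ} [NeZero q]

/-- O01.
Π_{u∈s}(1 + σ th) = Σ_{J⊆s} σ^|J| Π_J th; group by |J| (Finset.sum_powerset / powerset_card_disjiUnion); |univ \ I| ≤ N. -/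
theorem gg_eq_sum (σ : ℝ) (R : Finset (LP N q)) (I : Finset (Fin N)) (xl xr : Fin N → ZMod q) :
    gg σ R I xl xr = ∑ t ∈ range (N + 1), gt σ R I t xl xr := by
  have hprod : ∀ ω : LP N q, ∏ u ∈ univ \ I, ka σ (ω.2 u - xr (ω.1 u) + xl u) =
      ∑ t ∈ range (N + 1), σ ^ t * ∑ J ∈ powersetCard t (univ \ I),
        ∏ u ∈ J, th (ω.2 u - xr (ω.1 u) + xl u) := by
    intro ω
    unfold ka
    rw [prod_one_add, sum_powerset]
    have hle : (univ \ I).card + 1 ≤ N + 1 := by
      have := card_le_univ (univ \ I)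
      rw [Fintype.card_fin] at this
      omega
    have hsub : range ((univ \ I).card + 1) ⊆ range (N + 1) := range_subset_range.2 hle
    rw [← sum_subset hsub]
    · refine sum_congr rfl fun t _ => ?_
      rw [mul_sum]
      refine sum_congr rfl fun J hJ => ?_
      rw [prod_mul_distrib, prod_const, (mem_powersetCard.1 hJ).2]
    · intro t _ ht
      rw [mem_range, not_lt] at ht
      rw [powersetCard_eq_empty.2 (by omega), sum_empty, mul_zero]
  unfold gg gt
  simp only [hprod]
  rw [← sum_div, sum_comm]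
  congr 1
  refine sum_congr rfl fun t _ => ?_
  rw [mul_sum]

/-- O02.
powersetCard 0 = {∅}; the sum is |R|. -/
theorem gt_zero (σ : ℝ) {R : Finset (LP N q)} (hR : R.Nonempty) (I : Finset (Fin N))
    (xl xr : Fin N → ZMod q) : gt σ R I 0 xl xr = 1 := by
  unfold gt
  have h : (R.card : ℝ) ≠ 0 := by
    have := hR.card_pos
    exact_mod_cast this.ne'
  simp [h]

/-- O03.
All factors are ≥ 0 (K03). -/
theorem gg_nonneg {σ : ℝ} (h0 : 0 ≤ σ) (h1 : σ ≤ 1) (R : Finset (LP N q)) (I : Finset (Fin N))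
    (xl xr : Fin N → ZMod q) : 0 ≤ gg σ R I xl xr := by
  unfold gg
  exact div_nonneg (sum_nonneg fun ω _ => prod_nonneg fun u _ => ka_nonneg h0 h1 _)
    (Nat.cast_nonneg _)

end

end Pool.Agent.Lib.MP_8d8c46_lc.MC
end

section

/-! T20 : O05, O06 -/

set_option autoImplicit false
set_option linter.unusedSectionVars false

open scoped Classical
open Finset

namespace Pool.Agent.Lib.MP_8d8c46_lc.MC

open Pool.Agent.Lib.MP_8d8c46_lc.EL

section
variable {N q : ℕ} [NeZero q]

private theorem t20_inj (ω : LP N q) : Function.Injective (fun u : Fin N => (u, ω.1 u)) := by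
  intro a b h
  exact congrArg Prod.fst h

/-- O05.
For each ω ∈ R the sets J ∈ powersetCard t (univ \ I) correspond to T = J.image (fun u => (u, ω.1 u)), i.e. to the T of card t with p.1 ∉ I and ω.1 p.1 = p.2 for p ∈ T; the products agree. Exchange the sums. -/
theorem gt_eq_sum (σ : ℝ) (R : Finset (LP N q)) (I : Finset (Fin N)) (t : ℕ)
    (xl xr : Fin N → ZMod q) :
    gt σ R I t xl xr = σ ^ t * ∑ T ∈ TT R I t, tm R T xl xr := by
  unfold gt tm
  rw [← sum_div, mul_div_assoc]
  congr 2
  have hex : ∑ T ∈ TT R I t, ∑ ω ∈ R.filter (fun ω => ∀ p ∈ T, ω.1 p.1 = p.2),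
      ∏ p ∈ T, th (ω.2 p.1 - xr p.2 + xl p.1) =
      ∑ ω ∈ R, ∑ T ∈ (TT R I t).filter (fun T => ∀ p ∈ T, ω.1 p.1 = p.2),
        ∏ p ∈ T, th (ω.2 p.1 - xr p.2 + xl p.1) := by
    simp only [sum_filter]
    rw [sum_comm]
  rw [hex]
  refine sum_congr rfl fun ω hω => ?_
  have himg : (TT R I t).filter (fun T => ∀ p ∈ T, ω.1 p.1 = p.2) =
      (powersetCard t (univ \ I)).image (fun J => J.image (fun u => (u, ω.1 u))) := by
    ext T
    simp only [mem_filter, mem_image, TT]
    constructor
    · rintro ⟨⟨hT1, hT2, -⟩, hT3⟩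
      refine ⟨T.image Prod.fst, ?_, ?_⟩
      · rw [mem_powersetCard] at hT1 ⊢
        refine ⟨?_, ?_⟩
        · intro u hu
          obtain ⟨p, hp, rfl⟩ := mem_image.1 hu
          simp [hT2 p hp]
        · rw [card_image_of_injOn, hT1.2]
          intro p hp p' hp' heq
          have h1 := hT3 p hp
          have h2 := hT3 p' hp'
          have heq' : p.1 = p'.1 := heq
          refine Prod.ext heq' ?_
          rw [← h1, ← h2, heq']
      · ext p
        simp only [mem_image]
        constructor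
        · rintro ⟨u, ⟨p', hp', rfl⟩, rfl⟩
          have h1 := hT3 p' hp'
          rw [h1]; exact hp'
        · intro hp
          exact ⟨p.1, ⟨p, hp, rfl⟩, by rw [hT3 p hp]⟩
    · rintro ⟨J, hJ, rfl⟩
      rw [mem_powersetCard] at hJ
      refine ⟨⟨?_, ?_, ω, hω, ?_⟩, ?_⟩
      · rw [mem_powersetCard]
        refine ⟨subset_univ _, ?_⟩
        rw [card_image_of_injective _ (t20_inj ω), hJ.2]
      · intro p hp
        obtain ⟨u, hu, rfl⟩ := mem_image.1 hp
        have := hJ.1 hu
        simpa using this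
      · intro p hp
        obtain ⟨u, hu, rfl⟩ := mem_image.1 hp
        rfl
      · intro p hp
        obtain ⟨u, hu, rfl⟩ := mem_image.1 hp
        rfl
  rw [himg, sum_image]
  · refine sum_congr rfl fun J _ => ?_
    rw [prod_image (fun a _ b _ h => t20_inj ω h)]
  · intro J _ J' _ h
    exact image_injective (t20_inj ω) h

/-- O06. Elements of `TT` are partial matchings.
Take ω from the definition of TT; p.2 = ω.1 p.1 and ω.1 is injective. -/
theorem TT_inj {R : Finset (LP N q)} {I : Finset (Fin N)} {t : ℕ} {T : Finset (Fin N × Fin N)}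
    (hT : T ∈ TT R I t) : (∀ p ∈ T, ∀ p' ∈ T, p.1 = p'.1 → p = p') ∧
      (∀ p ∈ T, ∀ p' ∈ T, p.2 = p'.2 → p = p') := by
  unfold TT at hT
  rw [mem_filter] at hT
  obtain ⟨-, -, ω, -, hω⟩ := hT
  refine ⟨fun p hp p' hp' h => Prod.ext h ?_, fun p hp p' hp' h => Prod.ext ?_ h⟩
  · rw [← hω p hp, ← hω p' hp', h]
  · apply ω.1.injective
    rw [hω p hp, hω p' hp', h]

end

end Pool.Agent.Lib.MP_8d8c46_lc.MC
end

section

/-! T28 : O14, Q06, Q01 -/

set_option autoImplicit false
set_option linter.unusedSectionVars false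

open scoped Classical
open Finset

namespace Pool.Agent.Lib.MP_8d8c46_lc.MC

open Pool.Agent.Lib.MP_8d8c46_lc.EL

section
variable {N q : ℕ} [NeZero q] {V : Type} [Fintype V]

/-- O14. The levels are sums of functions of few coordinates.
O05; ι = Finset (Fin N × Fin N), s = TT, D T = T.image (ρ ∘ L ∘ fst) ∪ T.image (ρ ∘ Rr ∘ snd), F T = σ^t * tm R T. -/
theorem gt_dep (S : Sit V N q) (σ : ℝ) (R : Finset (LP N q)) (I : Finset (Fin N)) (t : ℕ)
    (h : V → ZMod q) : ∃ (ι : Type) (s : Finset ι) (D : ι → Finset V)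
      (F : ι → (V → ZMod q) → ℝ), (∀ T ∈ s, (D T).card ≤ 2 * t) ∧ (∀ T ∈ s, DepOn (D T) (F T)) ∧
      ∀ X, gt σ R I t (S.xl h X) (S.xr h X) = ∑ T ∈ s, F T X := by
  refine ⟨Finset (Fin N × Fin N), TT R I t,
    fun T => T.image (fun p => S.ρ (S.L p.1)) ∪ T.image (fun p => S.ρ (S.Rr p.2)),
    fun T X => σ ^ t * tm R T (S.xl h X) (S.xr h X), ?_, ?_, ?_⟩
  · intro T hT
    have hc : T.card = t := (mem_powersetCard.1 (mem_filter.1 hT).1).2
    refine (card_union_le _ _).trans ?_
    have h1 := card_image_le (s := T) (f := fun p => S.ρ (S.L p.1))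
    have h2 := card_image_le (s := T) (f := fun p => S.ρ (S.Rr p.2))
    omega
  · intro T hT x y hxy
    have h1 : tm R T (S.xl h x) (S.xr h x) = tm R T (S.xl h y) (S.xr h y) := by
      unfold tm
      congr 1
      refine sum_congr rfl fun ω _ => prod_congr rfl fun p hp => ?_
      have e1 : S.xl h x p.1 = S.xl h y p.1 := by
        unfold Sit.xl
        rw [hxy _ (mem_union_left _ (mem_image_of_mem (fun p => S.ρ (S.L p.1)) hp))]
      have e2 : S.xr h x p.2 = S.xr h y p.2 := by
        unfold Sit.xr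
        rw [hxy _ (mem_union_right _ (mem_image_of_mem (fun p => S.ρ (S.Rr p.2)) hp))]
      rw [e1, e2]
    show σ ^ t * tm R T (S.xl h x) (S.xr h x) = σ ^ t * tm R T (S.xl h y) (S.xr h y)
    rw [h1]
  · intro X
    rw [gt_eq_sum, mul_sum]

/-- Q06. The levels above the number of free places vanish.
powersetCard t (univ \ I) = ∅ as |univ \ I| = N - |I| < t. -/
theorem gt_eq_zero (σ : ℝ) (R : Finset (LP N q)) (I : Finset (Fin N)) {t : ℕ}
    (ht : N - I.card < t) (xl xr : Fin N → ZMod q) : gt σ R I t xl xr = 0 := by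
  unfold gt
  have h : powersetCard t (univ \ I) = ∅ := by
    refine powersetCard_eq_empty.2 ?_
    have h1 : (univ \ I).card = N - I.card := by
      rw [card_sdiff_of_subset (subset_univ _), card_univ, Fintype.card_fin]
    rw [h1]
    exact ht
  simp [h]

/-- Q01. The hypothesis of `sum_norm`.
TT: T = graph of some ω₀ over J = T.image fst, |J| = t, J disjoint from I; {ω ∈ R : ω.1 p.1 = p.2 ∀ p ∈ T} = {ω ∈ R : ω.1 u = ω₀.1 u ∀ u ∈ J}; SprP. -/
theorem sprP_TT {γ : ℝ} (hγ : 0 ≤ γ) {R : Finset (LP N q)} {I : Finset (Fin N)}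
    (h : SprP γ R I) {t : ℕ} {T : Finset (Fin N × Fin N)} (hT : T ∈ TT R I t) :
    ((R.filter (fun ω => ∀ p ∈ T, ω.1 p.1 = p.2)).card : ℝ) ≤
      (2 * γ ^ t * ((N - I.card - t).factorial : ℝ) / (N - I.card).factorial) * R.card := by
  obtain ⟨hT1, hT2, ω₀, hω₀, hT3⟩ : T ∈ powersetCard t univ ∧ (∀ p ∈ T, p.1 ∉ I) ∧
      ∃ ω ∈ R, ∀ p ∈ T, ω.1 p.1 = p.2 := by
    have h1 := mem_filter.1 hT
    exact ⟨h1.1, h1.2.1, h1.2.2⟩
  have hc : T.card = t := (mem_powersetCard.1 hT1).2
  have hJc : (T.image Prod.fst).card = t := by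
    rw [card_image_of_injOn, hc]
    intro p hp p' hp' he
    exact (TT_inj hT).1 p hp p' hp' he
  have hJd : Disjoint (T.image Prod.fst) I := by
    rw [disjoint_left]
    intro u hu
    obtain ⟨p, hp, rfl⟩ := mem_image.1 hu
    exact hT2 p hp
  have hf : R.filter (fun ω => ∀ p ∈ T, ω.1 p.1 = p.2) =
      R.filter (fun ω => ∀ u ∈ T.image Prod.fst, ω.1 u = ω₀.1 u) := by
    refine filter_congr fun ω _ => ⟨fun h1 u hu => ?_, fun h1 p hp => ?_⟩
    · obtain ⟨p, hp, rfl⟩ := mem_image.1 hu
      rw [h1 p hp, hT3 p hp]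
    · rw [h1 p.1 (mem_image_of_mem _ hp), hT3 p hp]
  have h2 := h (T.image Prod.fst) hJd (fun u => ω₀.1 u)
  rw [hJc] at h2
  rw [hf]
  have hpos : (0 : ℝ) < ((N - I.card).factorial : ℝ) := by
    exact_mod_cast Nat.factorial_pos _
  have h3 : (2 * γ ^ t * ((N - I.card - t).factorial : ℝ) / (N - I.card).factorial) * R.card =
      (2 * γ ^ t * (R.card * ((N - I.card - t).factorial : ℝ))) / (N - I.card).factorial := by
    ring
  rw [h3, le_div_iff₀ hpos]
  exact h2

end

end Pool.Agent.Lib.MP_8d8c46_lc.MC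
end

section

/-! T22 : O08 -/

set_option autoImplicit false
set_option linter.unusedSectionVars false

open scoped Classical
open Finset

namespace Pool.Agent.Lib.MP_8d8c46_lc.MC

open Pool.Agent.Lib.MP_8d8c46_lc.EL

section

variable {N q : ℕ} [NeZero q] {V : Type} [Fintype V]

private noncomputable def t22_key (S : Sit V N q) (p : Fin N × Fin N) : V :=
  if S.Rr p.2 ∈ S.W then S.L p.1 else S.Rr p.2

private noncomputable def t22_val (S : Sit V N q) (s : Fin N → ZMod q) (p : Fin N × Fin N) :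
    ZMod q := if S.Rr p.2 ∈ S.W then - s p.1 else s p.1

private noncomputable def t22_del (S : Sit V N q) (T : Finset (Fin N × Fin N))
    (s : Fin N → ZMod q) (w : V) : ZMod q :=
  ∑ p ∈ T, if t22_key S p = w then t22_val S s p else 0

private lemma t22_key_notMem (S : Sit V N q) {R : Finset (LP N q)} {I : Finset (Fin N)}
    (hNI : S.NI R I) {t : ℕ} {T : Finset (Fin N × Fin N)} (hT : T ∈ TT R I t)
    {p : Fin N × Fin N} (hp : p ∈ T) : t22_key S p ∉ S.W := by
  unfold t22_key
  unfold TT at hT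
  rw [mem_filter] at hT
  obtain ⟨_, hI, ω, hω, hωT⟩ := hT
  split_ifs with h
  · intro h2
    apply hNI ω hω p.1 (hI p hp)
    refine ⟨h2, ?_⟩
    rw [hωT p hp]
    exact h
  · exact h

private lemma t22_del_key (S : Sit V N q) {R : Finset (LP N q)} {I : Finset (Fin N)}
    {t : ℕ} {T : Finset (Fin N × Fin N)} (hT : T ∈ TT R I t)
    {p : Fin N × Fin N} (hp : p ∈ T) (s : Fin N → ZMod q) :
    t22_del S T s (t22_key S p) = t22_val S s p := by
  unfold t22_del
  rw [Finset.sum_eq_single p]
  · rw [if_pos rfl]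
  · intro p' hp' hne
    rw [if_neg]
    intro h
    apply hne
    obtain ⟨h1, h2⟩ := TT_inj hT
    unfold t22_key at h
    split_ifs at h with ha hb
    · exact h1 p' hp' p hp (S.hL h)
    · exact absurd h (S.hLR _ _)
    · exact absurd h.symm (S.hLR _ _)
    · exact h2 p' hp' p hp (S.hR h)
  · intro h
    exact absurd hp h

private lemma t22_del_of_ne (S : Sit V N q) {T : Finset (Fin N × Fin N)} (s : Fin N → ZMod q)
    {w : V} (hw : ∀ p ∈ T, t22_key S p ≠ w) : t22_del S T s w = 0 := by
  unfold t22_del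
  apply Finset.sum_eq_zero
  intro p hp
  rw [if_neg (hw p hp)]

private lemma t22_shift (S : Sit V N q) {R : Finset (LP N q)} {I : Finset (Fin N)}
    (hNI : S.NI R I) {t : ℕ} {T : Finset (Fin N × Fin N)} (hT : T ∈ TT R I t)
    {p : Fin N × Fin N} (hp : p ∈ T) (s : Fin N → ZMod q) :
    t22_del S T s (S.ρ (S.Rr p.2)) - t22_del S T s (S.ρ (S.L p.1)) = s p.1 := by
  obtain ⟨h1, h2⟩ := TT_inj hT
  have hkey := fun p' hp' => t22_key_notMem S hNI hT (p := p') hp'
  by_cases hR : S.Rr p.2 ∉ S.W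
  · have hk : t22_key S p = S.Rr p.2 := by unfold t22_key; rw [if_neg hR]
    have e1 : t22_del S T s (S.ρ (S.Rr p.2)) = s p.1 := by
      rw [S.hρ1 _ hR, ← hk, t22_del_key S hT hp s]
      unfold t22_val; rw [if_neg hR]
    have e2 : t22_del S T s (S.ρ (S.L p.1)) = 0 := by
      apply t22_del_of_ne
      intro p' hp' h
      by_cases hL : S.L p.1 ∈ S.W
      · exact hkey p' hp' (h ▸ S.hρ2 _ hL)
      · rw [S.hρ1 _ hL] at h
        have hcopy := h
        unfold t22_key at hcopy
        split_ifs at hcopy with ha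
        · have h3 : p' = p := h1 p' hp' p hp (S.hL hcopy)
          rw [h3, hk] at h
          exact S.hLR _ _ h.symm
        · exact S.hLR _ _ hcopy.symm
    rw [e1, e2, sub_zero]
  · push Not at hR
    have hk : t22_key S p = S.L p.1 := by unfold t22_key; rw [if_pos hR]
    have hL : S.L p.1 ∉ S.W := hk ▸ hkey p hp
    have e1 : t22_del S T s (S.ρ (S.L p.1)) = - s p.1 := by
      rw [S.hρ1 _ hL, ← hk, t22_del_key S hT hp s]
      unfold t22_val; rw [if_pos hR]
    have e2 : t22_del S T s (S.ρ (S.Rr p.2)) = 0 := by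
      apply t22_del_of_ne
      intro p' hp' h
      exact hkey p' hp' (h ▸ S.hρ2 _ hR)
    rw [e1, e2]
    ring

/-- O08. The differences along a partial matching are uniform. -/
theorem unif (S : Sit V N q) {R : Finset (LP N q)} {I : Finset (Fin N)} (hNI : S.NI R I)
    {t : ℕ} {T : Finset (Fin N × Fin N)} (hT : T ∈ TT R I t) (h : V → ZMod q)
    (F : (Fin N → ZMod q) → ℝ)
    (hF : ∀ y y', (∀ p ∈ T, y p.1 = y' p.1) → F y = F y') :
    avg (fun X => F (fun u => ∑ p ∈ T.filter (fun p => p.1 = u),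
      (S.xr h X p.2 - S.xl h X p.1))) = avg F := by
  set y : (V → ZMod q) → Fin N → ZMod q := fun X u => ∑ p ∈ T.filter (fun p => p.1 = u),
      (S.xr h X p.2 - S.xl h X p.1) with hy
  have hyp : ∀ (X : V → ZMod q) (p : Fin N × Fin N), p ∈ T →
      y X p.1 = S.xr h X p.2 - S.xl h X p.1 := by
    intro X p hp
    obtain ⟨h1, h2⟩ := TT_inj hT
    rw [hy]
    simp only
    have h3 : T.filter (fun p' => p'.1 = p.1) = {p} := by
      ext p'
      rw [mem_filter, mem_singleton]
      constructor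
      · rintro ⟨ha, hb⟩
        exact h1 p' ha p hp hb
      · rintro rfl
        exact ⟨hp, rfl⟩
    rw [h3, sum_singleton]
  have hs : ∀ s : Fin N → ZMod q, avg (fun X => F (y X)) = avg (fun X => F (fun u => y X u + s u)) := by
    intro s
    rw [← avg_equiv (Equiv.addRight (t22_del S T s)) (fun X => F (y X))]
    congr 1; funext X
    apply hF
    intro p hp
    rw [hyp _ p hp, hyp _ p hp]
    have h3 := t22_shift S hNI hT hp s
    simp only [Equiv.coe_addRight, Sit.xr, Sit.xl, Pi.add_apply]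
    linear_combination h3
  have h4 : avg (fun X => F (y X)) =
      avg (fun s : Fin N → ZMod q => avg (fun X => F (fun u => y X u + s u))) := by
    have h5 : (fun s : Fin N → ZMod q => avg (fun X => F (fun u => y X u + s u))) =
        fun _ => avg (fun X => F (y X)) := by
      funext s
      exact (hs s).symm
    rw [h5, avg_const]
  rw [h4, avg_comm2]
  have h6 : (fun X : V → ZMod q => avg (fun s : Fin N → ZMod q => F (fun u => y X u + s u))) =
      fun _ => avg F := by
    funext X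
    rw [← avg_equiv (Equiv.addLeft (y X)) F]
    rfl
  rw [h6, avg_const]

end

end Pool.Agent.Lib.MP_8d8c46_lc.MC
end

section

/-! T21 : O07 -/

set_option autoImplicit false
set_option linter.unusedSectionVars false

open scoped Classical
open Finset

namespace Pool.Agent.Lib.MP_8d8c46_lc.MC

open Pool.Agent.Lib.MP_8d8c46_lc.EL

section
variable {N q : ℕ} [NeZero q] {V : Type} [Fintype V]

private theorem t21_rho_ne (S : Sit V N q) {z y : V} (hz : z ∉ S.W) (hy : y ≠ z) :
    S.ρ y ≠ z := by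
  by_cases h : y ∈ S.W
  · intro h2
    exact hz (h2 ▸ S.hρ2 y h)
  · rw [S.hρ1 y h]; exact hy

private theorem t21_dep (S : Sit V N q) {R : Finset (LP N q)} {T : Finset (Fin N × Fin N)}
    (h : V → ZMod q) {z : V} (hz : z ∉ S.W) (hzT : z ∉ S.out T) :
    DepOn (univ.erase z) (fun X => tm R T (S.xl h X) (S.xr h X)) := by
  intro X Y hXY
  have hz2 : ∀ p ∈ T, S.L p.1 ≠ z ∧ S.Rr p.2 ≠ z := by
    intro p hp
    constructor
    · intro h1
      apply hzT
      unfold Sit.out
      rw [mem_sdiff, mem_union]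
      exact ⟨Or.inl (mem_image.2 ⟨p, hp, h1⟩), hz⟩
    · intro h1
      apply hzT
      unfold Sit.out
      rw [mem_sdiff, mem_union]
      exact ⟨Or.inr (mem_image.2 ⟨p, hp, h1⟩), hz⟩
  have hX : ∀ y, S.ρ y ≠ z → X (S.ρ y) = Y (S.ρ y) := fun y hy =>
    hXY _ (mem_erase.2 ⟨hy, mem_univ _⟩)
  simp only
  unfold tm
  congr 1
  refine sum_congr rfl fun ω _ => prod_congr rfl fun p hp => ?_
  obtain ⟨h1, h2⟩ := hz2 p hp
  unfold Sit.xl Sit.xr
  rw [hX _ (t21_rho_ne S hz h1), hX _ (t21_rho_ne S hz h2)]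

private theorem t21_avg_add (c : ZMod q) : avg (fun a : ZMod q => th (c + a)) = 0 := by
  rw [← avg_th (q := q)]
  exact avg_equiv (Equiv.addLeft c) (fun z => th z)

private theorem t21_avg_sub (c : ZMod q) : avg (fun a : ZMod q => th (c - a)) = 0 := by
  rw [← avg_th (q := q)]
  exact avg_th_sub c (fun z => th z)

private theorem t21_mz (S : Sit V N q) {R : Finset (LP N q)} {I : Finset (Fin N)}
    {t : ℕ} {T : Finset (Fin N × Fin N)} (hT : T ∈ TT R I t)
    (h : V → ZMod q) {z : V} (hzT : z ∈ S.out T) :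
    MZ z (fun X => tm R T (S.xl h X) (S.xr h X)) := by
  obtain ⟨hi1, hi2⟩ := TT_inj hT
  unfold Sit.out at hzT
  rw [mem_sdiff, mem_union] at hzT
  obtain ⟨hz1, hz⟩ := hzT
  intro X
  -- one special factor
  obtain ⟨p₀, hp₀, hmean, hother⟩ : ∃ p₀ ∈ T,
      (∀ ω : LP N q, avg (fun a : ZMod q => th (ω.2 p₀.1 -
        S.xr h (Function.update X z a) p₀.2 + S.xl h (Function.update X z a) p₀.1)) = 0) ∧
      ∀ p ∈ T, p ≠ p₀ → ∀ a : ZMod q, S.xr h (Function.update X z a) p.2 = S.xr h X p.2 ∧
        S.xl h (Function.update X z a) p.1 = S.xl h X p.1 := by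
    have hupd : ∀ y, y ≠ z → ∀ a : ZMod q, Function.update X z a (S.ρ y) = X (S.ρ y) := by
      intro y hy a
      rw [Function.update_of_ne (t21_rho_ne S hz hy)]
    rcases hz1 with hz1 | hz1
    · obtain ⟨p₀, hp₀, hp₀z⟩ := mem_image.1 hz1
      refine ⟨p₀, hp₀, fun ω => ?_, fun p hp hne a => ⟨?_, ?_⟩⟩
      · have e1 : ∀ a : ZMod q, ω.2 p₀.1 - S.xr h (Function.update X z a) p₀.2 +
            S.xl h (Function.update X z a) p₀.1 =
            (ω.2 p₀.1 - (h (S.Rr p₀.2) + X (S.ρ (S.Rr p₀.2))) + h (S.L p₀.1)) + a := by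
          intro a
          unfold Sit.xl Sit.xr
          have hne : S.Rr p₀.2 ≠ z := fun hh => S.hLR p₀.1 p₀.2 (hp₀z.trans hh.symm)
          rw [hupd _ hne a, S.hρ1 (S.L p₀.1) (hp₀z ▸ hz)]
          have : Function.update X z a (S.L p₀.1) = a := by rw [hp₀z, Function.update_self]
          rw [this]; ring
        simp only [e1]
        exact t21_avg_add _
      · unfold Sit.xr
        have hne : S.Rr p.2 ≠ z := fun hh => S.hLR p₀.1 p.2 (hp₀z.trans hh.symm)
        rw [hupd _ hne a]
      · unfold Sit.xl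
        have hne : S.L p.1 ≠ z := fun hh => hne (hi1 p hp p₀ hp₀ (S.hL (hh.trans hp₀z.symm)))
        rw [hupd _ hne a]
    · obtain ⟨p₀, hp₀, hp₀z⟩ := mem_image.1 hz1
      refine ⟨p₀, hp₀, fun ω => ?_, fun p hp hne a => ⟨?_, ?_⟩⟩
      · have e1 : ∀ a : ZMod q, ω.2 p₀.1 - S.xr h (Function.update X z a) p₀.2 +
            S.xl h (Function.update X z a) p₀.1 =
            (ω.2 p₀.1 - h (S.Rr p₀.2) + (h (S.L p₀.1) + X (S.ρ (S.L p₀.1)))) - a := by
          intro a
          unfold Sit.xl Sit.xr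
          have hne : S.L p₀.1 ≠ z := fun hh => S.hLR p₀.1 p₀.2 (hh.trans hp₀z.symm)
          rw [hupd _ hne a, S.hρ1 (S.Rr p₀.2) (hp₀z ▸ hz)]
          have : Function.update X z a (S.Rr p₀.2) = a := by rw [hp₀z, Function.update_self]
          rw [this]; ring
        simp only [e1]
        exact t21_avg_sub _
      · unfold Sit.xr
        have hne : S.Rr p.2 ≠ z := fun hh => hne (hi2 p hp p₀ hp₀ (S.hR (hh.trans hp₀z.symm)))
        rw [hupd _ hne a]
      · unfold Sit.xl
        have hne : S.L p.1 ≠ z := fun hh => S.hLR p.1 p₀.2 (hh.trans hp₀z.symm)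
        rw [hupd _ hne a]
  have e2 : ∀ a : ZMod q, tm R T (S.xl h (Function.update X z a)) (S.xr h (Function.update X z a)) =
      (∑ ω ∈ R.filter (fun ω => ∀ p ∈ T, ω.1 p.1 = p.2),
        (∏ p ∈ T.erase p₀, th (ω.2 p.1 - S.xr h X p.2 + S.xl h X p.1)) *
        th (ω.2 p₀.1 - S.xr h (Function.update X z a) p₀.2 +
          S.xl h (Function.update X z a) p₀.1)) * (1 / (R.card : ℝ)) := by
    intro a
    unfold tm
    rw [div_eq_mul_one_div]
    congr 1
    refine sum_congr rfl fun ω _ => ?_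
    rw [← prod_erase_mul T _ hp₀]
    congr 1
    refine prod_congr rfl fun p hp => ?_
    obtain ⟨e3, e4⟩ := hother p (mem_of_mem_erase hp) (ne_of_mem_erase hp) a
    rw [e3, e4]
  simp only [e2]
  rw [avg_mul_const, avg_sum]
  have e5 : ∀ ω ∈ R.filter (fun ω => ∀ p ∈ T, ω.1 p.1 = p.2),
      avg (fun a : ZMod q => (∏ p ∈ T.erase p₀, th (ω.2 p.1 - S.xr h X p.2 + S.xl h X p.1)) *
        th (ω.2 p₀.1 - S.xr h (Function.update X z a) p₀.2 +
          S.xl h (Function.update X z a) p₀.1)) = 0 := by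
    intro ω _
    rw [avg_const_mul, hmean ω, mul_zero]
  rw [sum_eq_zero e5, zero_mul]

/-- O07. Different sets of endpoints give orthogonal functions.
Say z ∈ out T \ out T' (else exchange; commutativity). z ∉ W, z = L p.1 or z = Rr p.2 for exactly one p ∈ T, and no other pair of T and no pair of T' involves z. As z ∉ W: ρ v = z iff v = z. So tm R T' does not depend on X z; and the average of tm R T over X z is 0: in each summand exactly the factor of p depends on X z, it is th(const ∓ X z) (the other endpoint of p is ≠ z), whose mean is 0 (K01, K02). Use avg_mz of EL/ES (MZ, DepOn). NOTE: NI gives that not both endpoints of p are in W; here only z ∉ W is used. -/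
theorem orth (S : Sit V N q) {R : Finset (LP N q)} {I : Finset (Fin N)} (hNI : S.NI R I)
    {t : ℕ} {T T' : Finset (Fin N × Fin N)} (hT : T ∈ TT R I t) (hT' : T' ∈ TT R I t)
    (hne : S.out T ≠ S.out T') (h : V → ZMod q) :
    avg (fun X => tm R T (S.xl h X) (S.xr h X) * tm R T' (S.xl h X) (S.xr h X)) = 0 := by
  have hW : ∀ {T : Finset (Fin N × Fin N)} {z : V}, z ∈ S.out T → z ∉ S.W := by
    intro T z hz
    unfold Sit.out at hz
    exact (mem_sdiff.1 hz).2
  by_cases hsub : S.out T ⊆ S.out T'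
  · obtain ⟨z, hz1, hz2⟩ : ∃ z ∈ S.out T', z ∉ S.out T := by
      by_contra hcon
      push Not at hcon
      exact hne (Subset.antisymm hsub hcon)
    exact avg_mz (t21_mz S hT' h hz1) (t21_dep S h (hW hz1) hz2) (by simp)
  · obtain ⟨z, hz1, hz2⟩ := not_subset.1 hsub
    have := avg_mz (t21_mz S hT h hz1) (t21_dep (R := R) S h (hW hz1) hz2) (by simp)
    rw [← this]
    congr 1
    funext X
    ring

end

end Pool.Agent.Lib.MP_8d8c46_lc.MC
end

section

/-! T25 : O11 -/

set_option autoImplicit false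
set_option linter.unusedSectionVars false

open scoped Classical
open Finset

namespace Pool.Agent.Lib.MP_8d8c46_lc.MC

open Pool.Agent.Lib.MP_8d8c46_lc.EL

section
variable {N q : ℕ} [NeZero q] {V : Type} [Fintype V]

/-- O11. The norm of a level in terms of the number of sets of values with the same endpoints.
gt = σ^t Σ_T tm (O05). avg (Σ_T tm)² = Σ_{T,T'} avg tm tm' = Σ_O Σ_{T,T' with out = O} (O07) = Σ_O avg (Σ_{out T = O} tm)² ≤ Σ_O #{..} Σ_{out T = O} avg tm² ≤ n Σ_T avg tm². -/
theorem norm_gt (S : Sit V N q) {R : Finset (LP N q)} {I : Finset (Fin N)} (hNI : S.NI R I)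
    {t : ℕ} {n : ℝ} (hn : ∀ O : Finset V,
      (((TT R I t).filter (fun T => S.out T = O)).card : ℝ) ≤ n) (σ : ℝ) (h : V → ZMod q) :
    avg (fun X => gt σ R I t (S.xl h X) (S.xr h X) ^ 2) ≤
      σ ^ (2 * t) * (n * ∑ T ∈ TT R I t, avg (fun X => tm R T (S.xl h X) (S.xr h X) ^ 2)) := by
  set a : Finset (Fin N × Fin N) → (V → ZMod q) → ℝ := fun T X => tm R T (S.xl h X) (S.xr h X)
    with ha
  have e0 : ∀ X, gt σ R I t (S.xl h X) (S.xr h X) ^ 2 =
      σ ^ (2 * t) * ∑ T ∈ TT R I t, ∑ T' ∈ TT R I t, a T X * a T' X := by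
    intro X
    rw [gt_eq_sum, mul_pow, ← pow_mul, mul_comm t 2, sq (∑ T ∈ TT R I t, _), sum_mul_sum]
  have e1 : avg (fun X => gt σ R I t (S.xl h X) (S.xr h X) ^ 2) =
      σ ^ (2 * t) * ∑ T ∈ TT R I t, ∑ T' ∈ TT R I t, avg (fun X => a T X * a T' X) := by
    simp_rw [e0]
    rw [avg_const_mul, avg_sum]
    congr 1
    refine sum_congr rfl fun T _ => ?_
    rw [avg_sum]
  rw [e1]
  have hs : 0 ≤ σ ^ (2 * t) := by rw [pow_mul]; positivity
  refine mul_le_mul_of_nonneg_left ?_ hs
  set A : Finset (Fin N × Fin N) → ℝ := fun T => avg (fun X => a T X ^ 2) with hA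
  have hA0 : ∀ T, 0 ≤ A T := fun T => avg_nonneg (fun X => sq_nonneg _)
  have h1 : ∀ T ∈ TT R I t, ∀ T' ∈ TT R I t, avg (fun X => a T X * a T' X) ≤
      (if S.out T' = S.out T then A T / 2 else 0) + (if S.out T' = S.out T then A T' / 2 else 0) := by
    intro T hT T' hT'
    by_cases ho : S.out T' = S.out T
    · rw [if_pos ho, if_pos ho]
      have h2 : avg (fun X => a T X * a T' X) ≤ avg (fun X => 1 / 2 * a T X ^ 2 + 1 / 2 * a T' X ^ 2) := by
        refine avg_mono fun X => ?_
        nlinarith [sq_nonneg (a T X - a T' X)]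
      rw [avg_add, avg_const_mul, avg_const_mul] at h2
      refine h2.trans (le_of_eq ?_)
      rw [hA]; ring
    · rw [if_neg ho, if_neg ho, add_zero]
      exact (orth S hNI hT hT' (fun e => ho e.symm) h).le
  have h2 : ∑ T ∈ TT R I t, ∑ T' ∈ TT R I t, avg (fun X => a T X * a T' X) ≤
      ∑ T ∈ TT R I t, ∑ T' ∈ TT R I t,
        ((if S.out T' = S.out T then A T / 2 else 0) + (if S.out T' = S.out T then A T' / 2 else 0)) :=
    sum_le_sum fun T hT => sum_le_sum fun T' hT' => h1 T hT T' hT'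
  refine h2.trans ?_
  have h3 : ∑ T ∈ TT R I t, ∑ T' ∈ TT R I t, (if S.out T' = S.out T then A T / 2 else 0) ≤
      n * ∑ T ∈ TT R I t, A T / 2 := by
    rw [mul_sum]
    refine sum_le_sum fun T hT => ?_
    rw [← sum_filter, sum_const, nsmul_eq_mul]
    exact mul_le_mul_of_nonneg_right (hn (S.out T)) (by have := hA0 T; positivity)
  have h4 : ∑ T ∈ TT R I t, ∑ T' ∈ TT R I t, (if S.out T' = S.out T then A T' / 2 else 0) =
      ∑ T ∈ TT R I t, ∑ T' ∈ TT R I t, (if S.out T' = S.out T then A T / 2 else 0) := by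
    rw [sum_comm]
    refine sum_congr rfl fun T _ => sum_congr rfl fun T' _ => ?_
    by_cases ho : S.out T' = S.out T
    · rw [if_pos ho, if_pos ho.symm]
    · rw [if_neg ho, if_neg (fun e => ho e.symm)]
  simp_rw [sum_add_distrib]
  rw [h4]
  have h5 : n * ∑ T ∈ TT R I t, A T / 2 + n * ∑ T ∈ TT R I t, A T / 2 = n * ∑ T ∈ TT R I t, A T := by
    rw [← sum_div]; ring
  calc _ ≤ n * ∑ T ∈ TT R I t, A T / 2 + n * ∑ T ∈ TT R I t, A T / 2 := add_le_add h3 h3
    _ = n * ∑ T ∈ TT R I t, A T := h5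

end

end Pool.Agent.Lib.MP_8d8c46_lc.MC
end

section

/-! T26 : O12 -/

set_option autoImplicit false
set_option linter.unusedSectionVars false

open scoped Classical
open Finset

namespace Pool.Agent.Lib.MP_8d8c46_lc.MC

open Pool.Agent.Lib.MP_8d8c46_lc.EL

section
variable {N q : ℕ} [NeZero q] {V : Type} [Fintype V]

private noncomputable def t26_key (S : Sit V N q) (p : Fin N × Fin N) : V :=
  if S.L p.1 ∈ S.W then S.Rr p.2 else S.L p.1

private noncomputable def t26_val (S : Sit V N q) (p : Fin N × Fin N) : Fin N :=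
  if S.L p.1 ∈ S.W then p.1 else p.2

private lemma t26_inj (S : Sit V N q) {p p' : Fin N × Fin N} (h1 : t26_key S p = t26_key S p')
    (h2 : t26_val S p = t26_val S p') : p = p' := by
  unfold t26_key at h1
  unfold t26_val at h2
  split_ifs at h1 h2
  · exact Prod.ext h2 (S.hR h1)
  · exact absurd h1.symm (S.hLR _ _)
  · exact absurd h1 (S.hLR _ _)
  · exact Prod.ext (S.hL h1) h2

private lemma t26_key_inj (S : Sit V N q) {ω : LP N q} {p p' : Fin N × Fin N}
    (hp : ω.1 p.1 = p.2) (hp' : ω.1 p'.1 = p'.2) (h1 : t26_key S p = t26_key S p') : p = p' := by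
  unfold t26_key at h1
  split_ifs at h1
  · have h2 := S.hR h1
    refine Prod.ext ?_ h2
    rw [← hp, ← hp'] at h2
    exact ω.1.injective h2
  · exact absurd h1.symm (S.hLR _ _)
  · exact absurd h1 (S.hLR _ _)
  · have h2 := S.hL h1
    refine Prod.ext h2 ?_
    rw [← hp, ← hp', h2]

private noncomputable def t26_enc (S : Sit V N q) (T : Finset (Fin N × Fin N)) (k : V) :
    Option (Fin N) :=
  if h : ∃ p ∈ T, t26_key S p = k then some (t26_val S h.choose) else none

private lemma t26_enc_mem (S : Sit V N q) {ω : LP N q} {T : Finset (Fin N × Fin N)}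
    (hω : ∀ p ∈ T, ω.1 p.1 = p.2) {p : Fin N × Fin N} (hp : p ∈ T) :
    t26_enc S T (t26_key S p) = some (t26_val S p) := by
  have h : ∃ p' ∈ T, t26_key S p' = t26_key S p := ⟨p, hp, rfl⟩
  unfold t26_enc
  rw [dif_pos h]
  have := h.choose_spec
  rw [t26_key_inj S (hω _ this.1) (hω _ hp) this.2]

private lemma t26_enc_inj (S : Sit V N q) {ω ω' : LP N q} {T T' : Finset (Fin N × Fin N)}
    (hω : ∀ p ∈ T, ω.1 p.1 = p.2) (hω' : ∀ p ∈ T', ω'.1 p.1 = p.2)
    (h : t26_enc S T = t26_enc S T') : T ⊆ T' := by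
  intro p hp
  have h1 := t26_enc_mem S hω hp
  rw [h] at h1
  unfold t26_enc at h1
  split_ifs at h1 with h2
  have h3 := h2.choose_spec
  have h4 : t26_val S h2.choose = t26_val S p := Option.some.inj h1
  rw [← t26_inj S h3.2 h4]
  exact h3.1

/-- O12. The first count.
If the set is empty fine. |O| ≤ 2t. Key of p ∈ T: L p.1 if L p.1 ∉ W, else Rr p.2 (∉ W by NI); keys are distinct elements of O; K = set of keys ⊆ O (at most 2^(2t) choices, card t), value of a key: the other element of Fin N of the pair (p.2 if the key is L p.1, else p.1). The value v of a key L p.1 satisfies Rr v ∈ O ∪ W, the value u of a key Rr p.2 satisfies L u ∈ W, so at most 2t + w values. T is determined by K and the values: at most 4^t (2t + w)^t ≤ (8 (t + w + 1))^t. -/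
theorem count_low (S : Sit V N q) {R : Finset (LP N q)} {I : Finset (Fin N)} (hNI : S.NI R I)
    (t : ℕ) (O : Finset V) :
    (((TT R I t).filter (fun T => S.out T = O)).card : ℝ) ≤ (8 * (t + S.W.card + 1)) ^ t := by
  obtain ⟨F, hF⟩ : ∃ F, F = (TT R I t).filter (fun T => S.out T = O) := ⟨_, rfl⟩
  rw [← hF]
  rcases F.eq_empty_or_nonempty with h0 | ⟨T0, hT0⟩
  · rw [h0, card_empty]
    push_cast
    positivity
  have hmem : ∀ T ∈ F, T.card = t ∧ (∀ p ∈ T, p.1 ∉ I) ∧ (∃ ω ∈ R, ∀ p ∈ T, ω.1 p.1 = p.2) ∧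
      S.out T = O := by
    intro T hT
    rw [hF, mem_filter] at hT
    obtain ⟨h1, h2⟩ := hT
    unfold TT at h1
    rw [mem_filter, mem_powersetCard] at h1
    exact ⟨h1.1.2, h1.2.1, h1.2.2, h2⟩
  have hO : O.card ≤ 2 * t := by
    obtain ⟨h1, _, _, h4⟩ := hmem T0 hT0
    rw [← h4]
    unfold Sit.out
    refine (card_le_card sdiff_subset).trans ((card_union_le _ _).trans ?_)
    have h5 : (T0.image (fun p => S.L p.1)).card ≤ T0.card := card_image_le
    have h6 : (T0.image (fun p => S.Rr p.2)).card ≤ T0.card := card_image_le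
    omega
  obtain ⟨A, hA⟩ : ∃ A : Finset (Fin N),
      A = univ.filter (fun x => S.Rr x ∈ O ∪ S.W) ∪ univ.filter (fun x => S.L x ∈ S.W) :=
    ⟨_, rfl⟩
  have hAc : A.card ≤ 2 * t + 2 * S.W.card := by
    rw [hA]
    refine (card_union_le _ _).trans ?_
    have h1 : (univ.filter (fun x => S.Rr x ∈ O ∪ S.W)).card ≤ (O ∪ S.W).card := by
      refine card_le_card_of_injOn S.Rr (fun x hx => ?_) S.hR.injOn
      have := (mem_filter.1 hx).2
      exact this
    have h2 : (univ.filter (fun x => S.L x ∈ S.W)).card ≤ S.W.card := by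
      refine card_le_card_of_injOn S.L (fun x hx => ?_) S.hL.injOn
      have := (mem_filter.1 hx).2
      exact this
    have h3 := card_union_le O S.W
    omega
  have hkey : ∀ T ∈ F, ∀ p ∈ T, t26_key S p ∈ O ∧ t26_val S p ∈ A := by
    intro T hT p hp
    obtain ⟨h1, h2, ⟨ω, hω, h3⟩, h4⟩ := hmem T hT
    have h5 := hNI ω hω p.1 (h2 p hp)
    rw [h3 p hp] at h5
    have hRO : S.Rr p.2 ∉ S.W → S.Rr p.2 ∈ O := by
      intro h
      rw [← h4]
      unfold Sit.out
      rw [mem_sdiff, mem_union]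
      exact ⟨Or.inr (mem_image_of_mem (fun p : Fin N × Fin N => S.Rr p.2) hp), h⟩
    have hLO : S.L p.1 ∉ S.W → S.L p.1 ∈ O := by
      intro h
      rw [← h4]
      unfold Sit.out
      rw [mem_sdiff, mem_union]
      exact ⟨Or.inl (mem_image_of_mem (fun p : Fin N × Fin N => S.L p.1) hp), h⟩
    unfold t26_key t26_val
    split_ifs with h6
    · refine ⟨hRO (fun h => h5 ⟨h6, h⟩), ?_⟩
      rw [hA, mem_union]
      right
      simp [h6]
    · refine ⟨hLO h6, ?_⟩
      rw [hA, mem_union]
      left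
      rw [mem_filter]
      refine ⟨mem_univ _, ?_⟩
      rw [mem_union]
      by_cases h7 : S.Rr p.2 ∈ S.W
      · exact Or.inr h7
      · exact Or.inl (hRO h7)
  -- the possible codes
  obtain ⟨P, hP⟩ : ∃ P : Finset V → Finset (V → Option (Fin N)), P = fun K =>
      Fintype.piFinset (fun k => if k ∈ K then A.image some else {none}) := ⟨_, rfl⟩
  have hPc : ∀ K ∈ powersetCard t O, (P K).card ≤ (2 * t + 2 * S.W.card) ^ t := by
    intro K hK
    rw [hP]
    simp only
    rw [Fintype.card_piFinset]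
    have h1 : ∀ k : V, (if k ∈ K then A.image some else ({none} : Finset (Option (Fin N)))).card ≤
        if k ∈ K then 2 * t + 2 * S.W.card else 1 := by
      intro k
      split_ifs
      · exact card_image_le.trans hAc
      · simp
    refine (prod_le_prod' (fun k _ => h1 k)).trans (le_of_eq ?_)
    rw [prod_ite_mem, univ_inter, prod_const, (mem_powersetCard.1 hK).2]
  have hcount : F.card ≤ ((powersetCard t O).biUnion P).card := by
    refine card_le_card_of_injOn (t26_enc S) (fun T hT => ?_) (fun T hT T' hT' h => ?_)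
    · have hT := hT
      obtain ⟨h1, h2, ⟨ω, hω, h3⟩, h4⟩ := hmem T hT
      rw [mem_coe, mem_biUnion]
      refine ⟨T.image (t26_key S), ?_, ?_⟩
      · rw [mem_powersetCard]
        refine ⟨?_, ?_⟩
        · intro k hk
          obtain ⟨p, hp, rfl⟩ := mem_image.1 hk
          exact (hkey T hT p hp).1
        · rw [card_image_of_injOn, h1]
          intro p hp p' hp' hpp
          exact t26_key_inj S (h3 p hp) (h3 p' hp') hpp
      · rw [hP]
        simp only
        rw [Fintype.mem_piFinset]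
        intro k
        by_cases hk : k ∈ T.image (t26_key S)
        · rw [if_pos hk]
          obtain ⟨p, hp, rfl⟩ := mem_image.1 hk
          rw [t26_enc_mem S h3 hp]
          exact mem_image_of_mem _ (hkey T hT p hp).2
        · rw [if_neg hk, mem_singleton]
          unfold t26_enc
          rw [dif_neg]
          rintro ⟨p, hp, h⟩
          exact hk (mem_image.2 ⟨p, hp, h⟩)
    · obtain ⟨_, _, ⟨ω, _, h3⟩, _⟩ := hmem T hT
      obtain ⟨_, _, ⟨ω', _, h3'⟩, _⟩ := hmem T' hT'
      exact Subset.antisymm (t26_enc_inj S h3 h3' h) (t26_enc_inj S h3' h3 h.symm)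
  have h2 : F.card ≤ (8 * (t + S.W.card + 1)) ^ t := by
    refine hcount.trans (card_biUnion_le.trans ((sum_le_sum hPc).trans ?_))
    rw [sum_const, card_powersetCard, smul_eq_mul]
    have h3 : O.card.choose t ≤ 4 ^ t := by
      calc O.card.choose t ≤ 2 ^ O.card := Nat.choose_le_two_pow _ _
        _ ≤ 2 ^ (2 * t) := Nat.pow_le_pow_right (by norm_num) hO
        _ = 4 ^ t := by rw [pow_mul]; norm_num
    calc O.card.choose t * (2 * t + 2 * S.W.card) ^ t ≤ 4 ^ t * (2 * t + 2 * S.W.card) ^ t :=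
          Nat.mul_le_mul_right _ h3
      _ = (4 * (2 * t + 2 * S.W.card)) ^ t := (mul_pow _ _ _).symm
      _ ≤ (8 * (t + S.W.card + 1)) ^ t := Nat.pow_le_pow_left (by omega) _
  exact_mod_cast h2

end

end Pool.Agent.Lib.MP_8d8c46_lc.MC
end

section

/-! T27 : O13 -/

set_option autoImplicit false
set_option linter.unusedSectionVars false

open scoped Classical
open Finset

namespace Pool.Agent.Lib.MP_8d8c46_lc.MC

open Pool.Agent.Lib.MP_8d8c46_lc.EL

section
variable {N q : ℕ} [NeZero q] {V : Type} [Fintype V]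

/-- `v` is the partner of `x` in `T` -/
private def t27_rel (S : Sit V N q) (T : Finset (Fin N × Fin N)) (x : V) (v : Fin N) : Prop :=
  ∃ p ∈ T, (S.L p.1 = x ∧ p.2 = v) ∨ (S.Rr p.2 = x ∧ p.1 = v)

private lemma t27_rel_uniq (S : Sit V N q) {ω : LP N q} {T : Finset (Fin N × Fin N)}
    (hω : ∀ p ∈ T, ω.1 p.1 = p.2) {x : V} {v v' : Fin N} (h : t27_rel S T x v)
    (h' : t27_rel S T x v') : v = v' := by
  obtain ⟨p, hp, h1⟩ := h
  obtain ⟨p', hp', h1'⟩ := h'
  rcases h1 with ⟨h1, h2⟩ | ⟨h1, h2⟩ <;> rcases h1' with ⟨h1', h2'⟩ | ⟨h1', h2'⟩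
  · have h3 := S.hL (h1.trans h1'.symm)
    rw [← h2, ← h2', ← hω p hp, ← hω p' hp', h3]
  · exact absurd (h1.trans h1'.symm) (S.hLR _ _)
  · exact absurd (h1'.trans h1.symm) (S.hLR _ _)
  · have h3 := S.hR (h1.trans h1'.symm)
    rw [← hω p hp, ← hω p' hp'] at h3
    rw [← h2, ← h2', ω.1.injective h3]

private noncomputable def t27_enc (S : Sit V N q) (T : Finset (Fin N × Fin N)) (x : S.W) :
    Option (Fin N) :=
  if h : ∃ v, t27_rel S T x v then some h.choose else none

private lemma t27_enc_iff (S : Sit V N q) {ω : LP N q} {T : Finset (Fin N × Fin N)}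
    (hω : ∀ p ∈ T, ω.1 p.1 = p.2) (x : S.W) (v : Fin N) :
    t27_enc S T x = some v ↔ t27_rel S T x v := by
  unfold t27_enc
  constructor
  · intro h
    split_ifs at h with h1
    rw [← Option.some.inj h]
    exact h1.choose_spec
  · intro h
    have h1 : ∃ v, t27_rel S T x v := ⟨v, h⟩
    rw [dif_pos h1, t27_rel_uniq S hω h1.choose_spec h]

/-- the pairs with an endpoint in `W` -/
private lemma t27_low (S : Sit V N q) {ω ω' : LP N q} {T T' : Finset (Fin N × Fin N)}
    (hω : ∀ p ∈ T, ω.1 p.1 = p.2) (hω' : ∀ p ∈ T', ω'.1 p.1 = p.2)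
    (h : t27_enc S T = t27_enc S T') {p : Fin N × Fin N} (hp : p ∈ T)
    (hW : S.L p.1 ∈ S.W ∨ S.Rr p.2 ∈ S.W) : p ∈ T' := by
  rcases hW with hW | hW
  · have h1 : t27_rel S T (⟨S.L p.1, hW⟩ : S.W) p.2 := ⟨p, hp, Or.inl ⟨rfl, rfl⟩⟩
    rw [← t27_enc_iff S hω, h, t27_enc_iff S hω'] at h1
    obtain ⟨p', hp', h2⟩ := h1
    rcases h2 with ⟨h2, h3⟩ | ⟨h2, h3⟩
    · rw [← Prod.ext (S.hL h2) h3]
      exact hp'
    · exact absurd h2.symm (S.hLR _ _)
  · have h1 : t27_rel S T (⟨S.Rr p.2, hW⟩ : S.W) p.1 := ⟨p, hp, Or.inr ⟨rfl, rfl⟩⟩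
    rw [← t27_enc_iff S hω, h, t27_enc_iff S hω'] at h1
    obtain ⟨p', hp', h2⟩ := h1
    rcases h2 with ⟨h2, h3⟩ | ⟨h2, h3⟩
    · exact absurd h2 (S.hLR _ _)
    · rw [← Prod.ext h3 (S.hR h2)]
      exact hp'

/-- the pairs without an endpoint in `W` -/
private noncomputable def t27_hi (S : Sit V N q) (T : Finset (Fin N × Fin N)) :
    Finset (Fin N × Fin N) := T.filter (fun p => S.L p.1 ∉ S.W ∧ S.Rr p.2 ∉ S.W)

private lemma t27_fst (S : Sit V N q) {ω ω' : LP N q} {T T' : Finset (Fin N × Fin N)}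
    (hω : ∀ p ∈ T, ω.1 p.1 = p.2) (hω' : ∀ p ∈ T', ω'.1 p.1 = p.2)
    (h : t27_enc S T = t27_enc S T') (hO : S.out T = S.out T') :
    (t27_hi S T).image Prod.fst ⊆ (t27_hi S T').image Prod.fst := by
  intro u hu
  obtain ⟨p, hp, rfl⟩ := mem_image.1 hu
  unfold t27_hi at hp
  rw [mem_filter] at hp
  obtain ⟨hp, h1, h2⟩ := hp
  have h3 : S.L p.1 ∈ S.out T' := by
    rw [← hO]
    unfold Sit.out
    rw [mem_sdiff, mem_union]
    exact ⟨Or.inl (mem_image_of_mem (fun p : Fin N × Fin N => S.L p.1) hp), h1⟩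
  unfold Sit.out at h3
  rw [mem_sdiff, mem_union, mem_image, mem_image] at h3
  rcases h3.1 with ⟨p', hp', h4⟩ | ⟨p', hp', h4⟩
  · have h5 := S.hL h4
    rw [mem_image]
    refine ⟨p', ?_, h5⟩
    unfold t27_hi
    rw [mem_filter]
    refine ⟨hp', by rw [h5]; exact h1, fun h6 => ?_⟩
    have h7 := t27_low S hω' hω h.symm hp' (Or.inr h6)
    have h8 : p = p' := by
      refine Prod.ext h5.symm ?_
      rw [← hω p hp, ← hω p' h7, h5]
    rw [← h8] at h6
    exact h2 h6
  · exact absurd h4.symm (S.hLR _ _)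

private lemma t27_snd (S : Sit V N q) {ω ω' : LP N q} {T T' : Finset (Fin N × Fin N)}
    (hω : ∀ p ∈ T, ω.1 p.1 = p.2) (hω' : ∀ p ∈ T', ω'.1 p.1 = p.2)
    (h : t27_enc S T = t27_enc S T') (hO : S.out T = S.out T') :
    (t27_hi S T).image Prod.snd ⊆ (t27_hi S T').image Prod.snd := by
  intro u hu
  obtain ⟨p, hp, rfl⟩ := mem_image.1 hu
  unfold t27_hi at hp
  rw [mem_filter] at hp
  obtain ⟨hp, h1, h2⟩ := hp
  have h3 : S.Rr p.2 ∈ S.out T' := by
    rw [← hO]
    unfold Sit.out
    rw [mem_sdiff, mem_union]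
    exact ⟨Or.inr (mem_image_of_mem (fun p : Fin N × Fin N => S.Rr p.2) hp), h2⟩
  unfold Sit.out at h3
  rw [mem_sdiff, mem_union, mem_image, mem_image] at h3
  rcases h3.1 with ⟨p', hp', h4⟩ | ⟨p', hp', h4⟩
  · exact absurd h4 (S.hLR _ _)
  · have h5 := S.hR h4
    rw [mem_image]
    refine ⟨p', ?_, h5⟩
    unfold t27_hi
    rw [mem_filter]
    refine ⟨hp', fun h6 => ?_, by rw [h5]; exact h2⟩
    have h7 := t27_low S hω' hω h.symm hp' (Or.inl h6)
    have h8 : p = p' := by
      refine Prod.ext ?_ h5.symm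
      have h9 := h5
      rw [← hω p hp, ← hω p' h7] at h9
      exact (ω.1.injective h9).symm
    rw [← h8] at h6
    exact h1 h6

/-- O13. The second count.
T = T₁ ∪ T₀, T₁ = pairs with an endpoint in W. T₁ is determined by the function W → Option (Fin N) which gives the partner in T of a vertex of W: at most (N+1)^w. Given T₁, T₀ is a perfect matching between {u : L u ∈ O, u ∉ T₁.fst} and {v : Rr v ∈ O, v ∉ T₁.snd}: T₀ is the graph of an injection between sets of size |T₀| ≤ t: at most t! choices. (E.g. bound the fibre of T ↦ partner function by the number of bijections between two fixed sets of card r ≤ t.) -/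
theorem count_high (S : Sit V N q) {R : Finset (LP N q)} {I : Finset (Fin N)} (hNI : S.NI R I)
    (t : ℕ) (O : Finset V) :
    (((TT R I t).filter (fun T => S.out T = O)).card : ℝ) ≤
      (N + 1 : ℝ) ^ S.W.card * t.factorial := by
  obtain ⟨F, hF⟩ : ∃ F, F = (TT R I t).filter (fun T => S.out T = O) := ⟨_, rfl⟩
  rw [← hF]
  have hmem : ∀ T ∈ F, T.card = t ∧ (∃ ω : LP N q, ∀ p ∈ T, ω.1 p.1 = p.2) ∧
      S.out T = O := by
    intro T hT
    rw [hF, mem_filter] at hT
    obtain ⟨h1, h2⟩ := hT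
    unfold TT at h1
    rw [mem_filter, mem_powersetCard] at h1
    obtain ⟨ω, _, h3⟩ := h1.2.2
    exact ⟨h1.1.2, ⟨ω, h3⟩, h2⟩
  have hfib : ∀ e ∈ F.image (t27_enc S), (F.filter (fun T => t27_enc S T = e)).card ≤
      t.factorial := by
    intro e he
    obtain ⟨T0, hT0, rfl⟩ := mem_image.1 he
    obtain ⟨h01, ⟨ω0, h02⟩, h03⟩ := hmem T0 hT0
    obtain ⟨U, hU⟩ : ∃ U, U = (t27_hi S T0).image Prod.fst := ⟨_, rfl⟩
    obtain ⟨U', hU'⟩ : ∃ U', U' = (t27_hi S T0).image Prod.snd := ⟨_, rfl⟩
    obtain ⟨r, hr⟩ : ∃ r, r = (t27_hi S T0).card := ⟨_, rfl⟩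
    have hrt : r ≤ t := by
      rw [hr, ← h01]
      exact card_le_card (filter_subset _ _)
    have hin : ∀ p ∈ t27_hi S T0, ω0.1 p.1 = p.2 := fun p hp => h02 p (filter_subset _ _ hp)
    have hUc : Fintype.card U = r := by
      rw [Fintype.card_coe, hU, card_image_of_injOn, hr]
      intro p hp p' hp' h
      refine Prod.ext h ?_
      rw [← hin p hp, ← hin p' hp', h]
    have hUc' : Fintype.card U' = r := by
      rw [Fintype.card_coe, hU', card_image_of_injOn, hr]
      intro p hp p' hp' h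
      refine Prod.ext ?_ h
      have h9 : p.2 = p'.2 := h
      rw [← hin p hp, ← hin p' hp'] at h9
      exact ω0.1.injective h9
    have hle : (F.filter (fun T => t27_enc S T = t27_enc S T0)).card ≤
        (univ : Finset (U ↪ U')).card := by
      -- the embedding of `T`
      have hem : ∀ T ∈ F.filter (fun T => t27_enc S T = t27_enc S T0), ∃ f : U ↪ U',
          ∀ p : Fin N × Fin N, p ∈ t27_hi S T ↔ ∃ h : p.1 ∈ U, (f ⟨p.1, h⟩ : Fin N) = p.2 := by
        intro T hT
        rw [mem_filter] at hT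
        obtain ⟨h1, ⟨ω, h2⟩, h3⟩ := hmem T hT.1
        have hinT : ∀ p ∈ t27_hi S T, ω.1 p.1 = p.2 := fun p hp => h2 p (filter_subset _ _ hp)
        have e1 : (t27_hi S T).image Prod.fst = U := by
          rw [hU]
          exact Subset.antisymm (t27_fst S h2 h02 hT.2 (h3.trans h03.symm))
            (t27_fst S h02 h2 hT.2.symm (h03.trans h3.symm))
        have e2 : (t27_hi S T).image Prod.snd = U' := by
          rw [hU']
          exact Subset.antisymm (t27_snd S h2 h02 hT.2 (h3.trans h03.symm))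
            (t27_snd S h02 h2 hT.2.symm (h03.trans h3.symm))
        have e3 : ∀ u : U, ω.1 (u : Fin N) ∈ U' := by
          rintro ⟨u, hu⟩
          rw [← e1] at hu
          obtain ⟨p, hp, rfl⟩ := mem_image.1 hu
          rw [← e2, hinT p hp]
          exact mem_image_of_mem _ hp
        refine ⟨⟨fun u => ⟨ω.1 (u : Fin N), e3 u⟩, ?_⟩, ?_⟩
        · intro u u' h
          have h4 : ω.1 (u : Fin N) = ω.1 (u' : Fin N) := congrArg Subtype.val h
          exact Subtype.ext (ω.1.injective h4)
        · intro p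
          constructor
          · intro hp
            refine ⟨by rw [← e1]; exact mem_image_of_mem _ hp, ?_⟩
            exact hinT p hp
          · rintro ⟨h4, h5⟩
            have h4' := h4
            rw [← e1] at h4'
            obtain ⟨p', hp', h6⟩ := mem_image.1 h4'
            have h7 : ω.1 p.1 = p.2 := h5
            have h8 : p = p' := by
              refine Prod.ext h6.symm ?_
              rw [← h7, ← hinT p' hp', h6]
            rw [h8]
            exact hp'
      have hne : Nonempty (U ↪ U') := ⟨(hem T0 (mem_filter.2 ⟨hT0, rfl⟩)).choose⟩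
      choose! f hf using hem
      refine card_le_card_of_injOn f (fun T _ => mem_univ _) (fun T hT T' hT' h => ?_)
      have e4 : t27_hi S T = t27_hi S T' := by
        ext p
        rw [hf T hT p, hf T' hT' p, h]
      have hT1 := (mem_filter.1 hT)
      have hT1' := (mem_filter.1 hT')
      obtain ⟨h1, ⟨ω, h2⟩, h3⟩ := hmem T hT1.1
      obtain ⟨h1', ⟨ω', h2'⟩, h3'⟩ := hmem T' hT1'.1
      have e5 : t27_enc S T = t27_enc S T' := hT1.2.trans hT1'.2.symm
      ext p
      by_cases hW : S.L p.1 ∈ S.W ∨ S.Rr p.2 ∈ S.W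
      · exact ⟨fun hp => t27_low S h2 h2' e5 hp hW, fun hp => t27_low S h2' h2 e5.symm hp hW⟩
      · push Not at hW
        have e6 : ∀ T : Finset (Fin N × Fin N), p ∈ T ↔ p ∈ t27_hi S T := by
          intro T
          unfold t27_hi
          rw [mem_filter]
          exact ⟨fun h => ⟨h, hW⟩, fun h => h.1⟩
        rw [e6 T, e6 T', e4]
    refine hle.trans ?_
    rw [card_univ, Fintype.card_embedding_eq, hUc, hUc', Nat.descFactorial_self]
    exact Nat.factorial_le hrt
  have h1 := card_le_mul_card_image F t.factorial hfib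
  have h2 : (F.image (t27_enc S)).card ≤ (N + 1) ^ S.W.card := by
    refine (card_le_univ _).trans (le_of_eq ?_)
    rw [Fintype.card_fun, Fintype.card_option, Fintype.card_coe, Fintype.card_fin]
  have h3 : F.card ≤ (N + 1) ^ S.W.card * t.factorial := by
    refine h1.trans ?_
    rw [mul_comm]
    exact Nat.mul_le_mul_right _ h2
  exact_mod_cast h3

end

end Pool.Agent.Lib.MP_8d8c46_lc.MC
end

section

/-! T32 : R01, R02, R03, R04 -/

set_option autoImplicit false
set_option linter.unusedSectionVars false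

open scoped Classical
open Finset

namespace Pool.Agent.Lib.MP_8d8c46_lc.MC

open Pool.Agent.Lib.MP_8d8c46_lc.EL
open Pool.Agent.Lib.MP_8d8c46_lc.SA (BV Om)

section
variable {d N q : ℕ} [NeZero q]

/-- R01.
unfold VR, simp. -/
theorem mem_VR_false {R : Pl d → Finset (LP N q)} {I : Pl d → Finset (Fin N)} {a : Fin d}
    {u : Fin N} : ((false, a, u) : BV d N) ∈ VR R I ↔ ∃ b, u ∈ I (a, b) := by
  unfold VR
  simp

/-- R02.
unfold VR, simp. -/
theorem mem_VR_true {R : Pl d → Finset (LP N q)} {I : Pl d → Finset (Fin N)} {b : Fin d}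
    {v : Fin N} : ((true, b, v) : BV d N) ∈ VR R I ↔
      ∃ a, ∃ ω ∈ R (a, b), ∃ u ∈ I (a, b), ω.1 u = v := by
  unfold VR
  simp

private theorem t32_mem_vts {V : Type} [Fintype V] (F : Finset (V × V × ZMod q)) (x : V) :
    x ∈ vts F ↔ (∃ f ∈ F, f.1 = x) ∨ ∃ f ∈ F, f.2.1 = x := by
  unfold vts
  rw [mem_union, mem_image, mem_image]

/-- R03.
ω ∈ rc R means ω e ∈ R e for all e; for the right vertices use Agr to replace the element of R (a,b) by ω (a,b). -/
theorem vts_EF {R : Pl d → Finset (LP N q)} {I : Pl d → Finset (Fin N)}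
    (hA : ∀ e, Agr (R e) (I e)) {ω : Om d N q} (hω : ω ∈ rc R) : vts (EF ω I) = VR R I := by
  unfold rc at hω
  rw [Fintype.mem_piFinset] at hω
  ext ⟨s, a, u⟩
  rw [t32_mem_vts]
  unfold EF
  cases s with
  | false =>
    rw [mem_VR_false]
    constructor
    · rintro (⟨f, hf, hf2⟩ | ⟨f, hf, hf2⟩)
      · rw [mem_biUnion] at hf
        obtain ⟨e, -, he⟩ := hf
        obtain ⟨v, hv, rfl⟩ := mem_image.1 he
        simp only [Prod.mk.injEq, true_and] at hf2
        obtain ⟨h1, h2⟩ := hf2
        subst h1 h2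
        exact ⟨e.2, hv⟩
      · rw [mem_biUnion] at hf
        obtain ⟨e, -, he⟩ := hf
        obtain ⟨v, hv, rfl⟩ := mem_image.1 he
        simp at hf2
    · rintro ⟨b, hb⟩
      left
      refine ⟨(((false, a, u) : BV d N), ((true, b, (ω (a, b)).1 u) : BV d N), (ω (a, b)).2 u),
        ?_, rfl⟩
      rw [mem_biUnion]
      exact ⟨(a, b), mem_univ _, mem_image.2 ⟨u, hb, rfl⟩⟩
  | true =>
    rw [mem_VR_true]
    constructor
    · rintro (⟨f, hf, hf2⟩ | ⟨f, hf, hf2⟩)
      · rw [mem_biUnion] at hf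
        obtain ⟨e, -, he⟩ := hf
        obtain ⟨v, hv, rfl⟩ := mem_image.1 he
        simp at hf2
      · rw [mem_biUnion] at hf
        obtain ⟨e, -, he⟩ := hf
        obtain ⟨v, hv, rfl⟩ := mem_image.1 he
        simp only [Prod.mk.injEq, true_and] at hf2
        obtain ⟨h1, h2⟩ := hf2
        subst h1
        exact ⟨e.1, ω e, hω e, v, hv, h2⟩
    · rintro ⟨b, ω', hω', v, hv, hv2⟩
      right
      refine ⟨(((false, b, v) : BV d N), ((true, a, (ω (b, a)).1 v) : BV d N), (ω (b, a)).2 v),
        ?_, ?_⟩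
      · rw [mem_biUnion]
        exact ⟨(b, a), mem_univ _, mem_image.2 ⟨v, hv, rfl⟩⟩
      · have := (hA (b, a) ω' hω' (ω (b, a)) (hω (b, a)) v hv).1
        simp only [Prod.mk.injEq, true_and]
        rw [← this, hv2]

/-- R04.
Agr, image_congr. -/
theorem EF_congr {R : Pl d → Finset (LP N q)} {I : Pl d → Finset (Fin N)}
    (hA : ∀ e, Agr (R e) (I e)) {ω ω' : Om d N q} (hω : ω ∈ rc R) (hω' : ω' ∈ rc R) :
    EF ω I = EF ω' I := by
  unfold rc at hω hω'
  rw [Fintype.mem_piFinset] at hω hω'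
  unfold EF
  refine biUnion_congr rfl fun e _ => ?_
  refine image_congr fun u hu => ?_
  have := hA e (ω e) (hω e) (ω' e) (hω' e) u hu
  rw [this.1, this.2]

end

end Pool.Agent.Lib.MP_8d8c46_lc.MC
end

section

/-! T34 : R07, R08, R09 -/

set_option autoImplicit false
set_option linter.unusedSectionVars false

open scoped Classical
open Finset

namespace Pool.Agent.Lib.MP_8d8c46_lc.MC

open Pool.Agent.Lib.MP_8d8c46_lc.EL
open Pool.Agent.Lib.MP_8d8c46_lc.SA (BV Om)

section
variable {d N q : ℕ} [NeZero q]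

/-- R07.
The left vertices of VR are in the image of the union over e of {e} × I e under (e, u) ↦ (false, e.1, u). -/
theorem card_left {R : Pl d → Finset (LP N q)} {I : Pl d → Finset (Fin N)} :
    ((VR R I).filter (fun x => x.1 = false)).card ≤ ∑ e, (I e).card := by
  have hsub : (VR R I).filter (fun x => x.1 = false) ⊆
      (univ : Finset (Pl d)).biUnion (fun e => (I e).image (fun u => ((false, e.1, u) : BV d N))) := by
    rintro ⟨b, a, u⟩ hx
    rw [mem_filter] at hx
    obtain ⟨hx1, hx2⟩ := hx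
    simp only at hx2
    subst hx2
    rw [VR, mem_filter] at hx1
    replace hx1 := hx1.2
    rcases hx1 with ⟨_, c, hc⟩ | ⟨h, _⟩
    · rw [mem_biUnion]
      refine ⟨(a, c), mem_univ _, ?_⟩
      rw [mem_image]
      exact ⟨u, hc, rfl⟩
    · exact absurd h (by simp)
  refine (card_le_card hsub).trans (card_biUnion_le.trans (sum_le_sum fun e _ => card_image_le))

/-- R08.
Right vertices: image of the union over e of {e} × I e under (e, u) ↦ (true, e.2, (ω₀ e).1 u) with ω₀ e a fixed element of R e (if some R e is empty it does not contribute); Agr. -/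
theorem card_right {R : Pl d → Finset (LP N q)} {I : Pl d → Finset (Fin N)}
    (hA : ∀ e, Agr (R e) (I e)) :
    ((VR R I).filter (fun x => x.1 = true)).card ≤ ∑ e, (I e).card := by
  let w : Pl d → LP N q := fun e => if h : (R e).Nonempty then h.choose else (1, fun _ => 0)
  have hw : ∀ e, (R e).Nonempty → w e ∈ R e := by
    intro e he
    simp only [w, dif_pos he]
    exact he.choose_spec
  have hsub : (VR R I).filter (fun x => x.1 = true) ⊆
      (univ : Finset (Pl d)).biUnion (fun e => (I e).image (fun u => ((true, e.2, (w e).1 u) : BV d N))) := by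
    rintro ⟨b, c, z⟩ hx
    rw [mem_filter] at hx
    obtain ⟨hx1, hx2⟩ := hx
    simp only at hx2
    subst hx2
    rw [VR, mem_filter] at hx1
    replace hx1 := hx1.2
    rcases hx1 with ⟨h, _⟩ | ⟨_, a, ω, hω, u, hu, huz⟩
    · exact absurd h (by simp)
    · rw [mem_biUnion]
      refine ⟨(a, c), mem_univ _, ?_⟩
      rw [mem_image]
      refine ⟨u, hu, ?_⟩
      have h1 := (hA (a, c) (w (a, c)) (hw _ ⟨ω, hω⟩) ω hω u hu).1
      simp only at huz ⊢
      rw [h1, huz]
  refine (card_le_card hsub).trans (card_biUnion_le.trans (sum_le_sum fun e _ => card_image_le))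

/-- R09.
R07 + R08. -/
theorem card_VR {R : Pl d → Finset (LP N q)} {I : Pl d → Finset (Fin N)}
    (hA : ∀ e, Agr (R e) (I e)) : (VR R I).card ≤ 2 * ∑ e, (I e).card := by
  have h1 : (VR R I) ⊆ (VR R I).filter (fun x => x.1 = false) ∪ (VR R I).filter (fun x => x.1 = true) := by
    intro x hx
    rw [mem_union, mem_filter, mem_filter]
    rcases Bool.eq_false_or_eq_true x.1 with h | h
    · exact Or.inr ⟨hx, h⟩
    · exact Or.inl ⟨hx, h⟩
  have h2 := (card_le_card h1).trans (card_union_le _ _)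
  have h3 := card_left (R := R) (I := I)
  have h4 := card_right hA
  omega

end

end Pool.Agent.Lib.MP_8d8c46_lc.MC
end

section

/-! T15 : P07, P08 -/

set_option autoImplicit false
set_option linter.unusedSectionVars false

open scoped Classical
open Finset

namespace Pool.Agent.Lib.MP_8d8c46_lc.MC


section
variable {N q : ℕ} [NeZero q]

theorem t15_perm {γ : ℝ} {R : Finset (LP N q)} {I : Finset (Fin N)} (h : Spr γ R I)
    (T : Finset (Fin N)) (hT : Disjoint T I) (a : Fin N → Fin N) :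
    ((R.filter (fun ω => ∀ u ∈ T, ω.1 u = a u)).card : ℝ) * (N - I.card).factorial ≤
      γ ^ T.card * (R.card * ((N - I.card - T.card).factorial : ℝ)) := by
  classical
  have hqpos : (0 : ℝ) < (q : ℝ) := by
    have := NeZero.pos q
    exact_mod_cast this
  set A := R.filter (fun ω => ∀ u ∈ T, ω.1 u = a u) with hA
  let ext : (T → ZMod q) → Fin N → ZMod q := fun b u => if hu : u ∈ T then b ⟨u, hu⟩ else 0
  have h1 : A.card = ∑ b : T → ZMod q, (A.filter (fun ω => (fun u : T => ω.2 u) = b)).card :=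
    Finset.card_eq_sum_card_fiberwise (fun ω _ => Finset.mem_coe.mpr (Finset.mem_univ _))
  have h2 : ∀ b : T → ZMod q, (A.filter (fun ω => (fun u : T => ω.2 u) = b)).card ≤
      (cyl R T a (ext b)).card := by
    intro b
    refine Finset.card_le_card fun ω hω => ?_
    rw [Finset.mem_filter, hA, Finset.mem_filter] at hω
    obtain ⟨⟨k1, k2⟩, k3⟩ := hω
    rw [cyl, Finset.mem_filter]
    refine ⟨k1, fun u hu => ⟨k2 u hu, ?_⟩⟩
    have k4 := congrFun k3 ⟨u, hu⟩
    simp only [ext, dif_pos hu]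
    exact k4
  have h3 : ∀ b : T → ZMod q, ((cyl R T a (ext b)).card : ℝ) *
      ((N - I.card).factorial * (q : ℝ) ^ T.card) ≤
      γ ^ T.card * (R.card * ((N - I.card - T.card).factorial : ℝ)) := fun b => h T hT a (ext b)
  have hcardF : (Fintype.card (T → ZMod q) : ℝ) = (q : ℝ) ^ T.card := by
    rw [Fintype.card_fun, ZMod.card, Fintype.card_coe]
    push_cast
    rfl
  have h4 : (A.card : ℝ) * ((N - I.card).factorial * (q : ℝ) ^ T.card) ≤
      (q : ℝ) ^ T.card * (γ ^ T.card * (R.card * ((N - I.card - T.card).factorial : ℝ))) := by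
    calc (A.card : ℝ) * ((N - I.card).factorial * (q : ℝ) ^ T.card)
        = ∑ b : T → ZMod q, ((A.filter (fun ω => (fun u : T => ω.2 u) = b)).card : ℝ) *
          ((N - I.card).factorial * (q : ℝ) ^ T.card) := by
            rw [h1, Nat.cast_sum, Finset.sum_mul]
      _ ≤ ∑ b : T → ZMod q, (γ ^ T.card * (R.card * ((N - I.card - T.card).factorial : ℝ))) := by
            refine Finset.sum_le_sum fun b _ => le_trans ?_ (h3 b)
            refine mul_le_mul_of_nonneg_right ?_ (by positivity)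
            exact_mod_cast h2 b
      _ = (q : ℝ) ^ T.card * (γ ^ T.card * (R.card * ((N - I.card - T.card).factorial : ℝ))) := by
            rw [Finset.sum_const, nsmul_eq_mul, Finset.card_univ, hcardF]
  have h5 : (0 : ℝ) < (q : ℝ) ^ T.card := by positivity
  refine le_of_mul_le_mul_left ?_ h5
  calc (q : ℝ) ^ T.card * ((A.card : ℝ) * (N - I.card).factorial)
      = (A.card : ℝ) * ((N - I.card).factorial * (q : ℝ) ^ T.card) := by ring
    _ ≤ _ := h4

/-- P07. The probability of one value.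
Sum over the label c of u: {ω.1 u = v} = ⋃_c cyl R {u} v c; each has card ≤ γ |R| (N-|I|-1)! / ((N-|I|)! q); (N-|I|)! = (N-|I|) (N-|I|-1)! as |I| < N. -/
theorem spr_one {γ : ℝ} {R : Finset (LP N q)} {I : Finset (Fin N)} (h : Spr γ R I)
    {u : Fin N} (hu : u ∉ I) (v : Fin N) :
    ((R.filter (fun ω => ω.1 u = v)).card : ℝ) * ((N : ℝ) - I.card) ≤ γ * R.card := by
  have hI : ({u} : Finset (Fin N)).card = 1 := Finset.card_singleton u
  have h1 := t15_perm h {u} (Finset.disjoint_singleton_left.mpr hu) (fun _ => v)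
  rw [hI, pow_one] at h1
  have h2 : R.filter (fun ω => ∀ w ∈ ({u} : Finset (Fin N)), ω.1 w = v) =
      R.filter (fun ω => ω.1 u = v) := by
    refine Finset.filter_congr fun ω _ => ?_
    simp
  rw [h2] at h1
  have hlt : I.card < N := by
    have h3 : I.card < (insert u I).card := by
      rw [Finset.card_insert_of_notMem hu]
      omega
    have h4 : (insert u I).card ≤ N := by simpa using Finset.card_le_univ (insert u I)
    omega
  have h5 : ((N - I.card).factorial : ℝ) = ((N : ℝ) - I.card) * ((N - I.card - 1).factorial : ℝ) := by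
    have h6 := Nat.mul_factorial_pred (n := N - I.card) (by omega)
    rw [← h6, Nat.cast_mul, Nat.cast_sub hlt.le]
  rw [h5] at h1
  have h7 : (0 : ℝ) < ((N - I.card - 1).factorial : ℝ) := by positivity
  refine le_of_mul_le_mul_right ?_ h7
  calc ((R.filter (fun ω => ω.1 u = v)).card : ℝ) * ((N : ℝ) - I.card) *
        ((N - I.card - 1).factorial : ℝ)
      = ((R.filter (fun ω => ω.1 u = v)).card : ℝ) * (((N : ℝ) - I.card) *
        ((N - I.card - 1).factorial : ℝ)) := by ring
    _ ≤ γ * (R.card * ((N - I.card - 1).factorial : ℝ)) := h1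
    _ = γ * R.card * ((N - I.card - 1).factorial : ℝ) := by ring

/-- P08. The probability of several values of the permutation.
Sum over the labels of T (functions T → ZMod q, q^|T| of them) of Spr; fiberwise counting as in exists_spread (EL/Core5). -/
theorem spr_perm {γ : ℝ} {R : Finset (LP N q)} {I : Finset (Fin N)} (h : Spr γ R I)
    (T : Finset (Fin N)) (hT : Disjoint T I) (a : Fin N → Fin N) :
    ((R.filter (fun ω => ∀ u ∈ T, ω.1 u = a u)).card : ℝ) * (N - I.card).factorial ≤
      γ ^ T.card * (R.card * ((N - I.card - T.card).factorial : ℝ)) := by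
  exact t15_perm h T hT a

end

end Pool.Agent.Lib.MP_8d8c46_lc.MC
end

section

/-! T35 : R10, R11 -/

set_option autoImplicit false
set_option linter.unusedSectionVars false

open scoped Classical
open Finset

namespace Pool.Agent.Lib.MP_8d8c46_lc.MC

open Pool.Agent.Lib.MP_8d8c46_lc.EL
open Pool.Agent.Lib.MP_8d8c46_lc.SA (BV Om)

section
variable {d N q : ℕ} [NeZero q]

/-- R10.
|R e \ R0 e| ≤ Σ over u ∉ I e with (false,e.1,u) ∈ VR, v' with (true,e.2,v') ∈ VR of #{ω ∈ R e : ω.1 u = v'} ≤ v * v * γ |R e| / (N - |I e|) (P07, R07, R08, |I e| ≤ v) ≤ v² γ |R e| /(N - v) ≤ |R e| / 2. -/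
theorem card_R0 {γ : ℝ} (hγ : 1 ≤ γ) {v : ℕ} {R : Pl d → Finset (LP N q)}
    {I : Pl d → Finset (Fin N)} (hS : St γ v R I) (hv : v < N)
    (h : 2 * γ * (v : ℝ) ^ 2 ≤ N - v) (e : Pl d) :
    ((R e).card : ℝ) ≤ 2 * (R0 R I e).card := by
  let LV : Finset (Fin N) := univ.filter (fun u => u ∉ I e ∧ (false, e.1, u) ∈ VR R I)
  let RV : Finset (Fin N) := univ.filter (fun z => (true, e.2, z) ∈ VR R I)
  have hLV : LV.card ≤ v := by
    have h1 : LV.card ≤ ((VR R I).filter (fun x => x.1 = false)).card := by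
      have h2 : LV.image (fun u => ((false, e.1, u) : BV d N)) ⊆ (VR R I).filter (fun x => x.1 = false) := by
        intro x hx
        obtain ⟨u, hu, rfl⟩ := mem_image.mp hx
        rw [mem_filter]
        exact ⟨(mem_filter.mp hu).2.2, rfl⟩
      have h3 := card_le_card h2
      rwa [card_image_of_injective _ (by
        intro u u' huu
        simpa using huu)] at h3
    exact h1.trans (card_left.trans hS.card)
  have hRV : RV.card ≤ v := by
    have h1 : RV.card ≤ ((VR R I).filter (fun x => x.1 = true)).card := by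
      have h2 : RV.image (fun u => ((true, e.2, u) : BV d N)) ⊆ (VR R I).filter (fun x => x.1 = true) := by
        intro x hx
        obtain ⟨u, hu, rfl⟩ := mem_image.mp hx
        rw [mem_filter]
        exact ⟨(mem_filter.mp hu).2, rfl⟩
      have h3 := card_le_card h2
      rwa [card_image_of_injective _ (by
        intro u u' huu
        simpa using huu)] at h3
    exact h1.trans ((card_right hS.agr).trans hS.card)
  have hIe : ((I e).card : ℝ) ≤ v := by
    have h1 : (I e).card ≤ ∑ e, (I e).card :=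
      single_le_sum (f := fun e => (I e).card) (fun _ _ => Nat.zero_le _) (mem_univ e)
    exact_mod_cast h1.trans hS.card
  have hsub : (R e) \ (R0 R I e) ⊆ (LV ×ˢ RV).biUnion (fun p => (R e).filter (fun ω => ω.1 p.1 = p.2)) := by
    intro ω hω
    rw [mem_sdiff] at hω
    obtain ⟨hω1, hω2⟩ := hω
    have h1 : ∃ u, u ∉ I e ∧ (false, e.1, u) ∈ VR R I ∧ (true, e.2, ω.1 u) ∈ VR R I := by
      by_contra hcon
      push Not at hcon
      apply hω2
      rw [R0, mem_filter]
      refine ⟨hω1, fun u hu hh => hcon u hu hh.1 hh.2⟩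
    obtain ⟨u, hu, hu1, hu2⟩ := h1
    rw [mem_biUnion]
    refine ⟨(u, ω.1 u), ?_, ?_⟩
    · rw [mem_product]
      exact ⟨mem_filter.mpr ⟨mem_univ _, hu, hu1⟩, mem_filter.mpr ⟨mem_univ _, hu2⟩⟩
    · rw [mem_filter]
      exact ⟨hω1, rfl⟩
  have hNv : (0 : ℝ) < N - v := by
    have : (v : ℝ) < N := by exact_mod_cast hv
    linarith
  have hbad : (((R e) \ (R0 R I e)).card : ℝ) * (N - v) ≤ (v : ℝ) ^ 2 * (γ * (R e).card) := by
    have h1 : (((R e) \ (R0 R I e)).card : ℝ) ≤ ∑ p ∈ LV ×ˢ RV, (((R e).filter (fun ω => ω.1 p.1 = p.2)).card : ℝ) := by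
      exact_mod_cast (card_le_card hsub).trans card_biUnion_le
    calc (((R e) \ (R0 R I e)).card : ℝ) * (N - v)
        ≤ (∑ p ∈ LV ×ˢ RV, (((R e).filter (fun ω => ω.1 p.1 = p.2)).card : ℝ)) * (N - v) := by gcongr
      _ = ∑ p ∈ LV ×ˢ RV, (((R e).filter (fun ω => ω.1 p.1 = p.2)).card : ℝ) * (N - v) := by rw [sum_mul]
      _ ≤ ∑ _p ∈ LV ×ˢ RV, γ * (R e).card := by
          refine sum_le_sum fun p hp => ?_
          have hp1 : p.1 ∉ I e := (mem_filter.mp (mem_product.mp hp).1).2.1
          have h2 := spr_one (hS.spr e) hp1 p.2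
          refine le_trans ?_ h2
          gcongr
      _ = ((LV ×ˢ RV).card : ℝ) * (γ * (R e).card) := by rw [sum_const, nsmul_eq_mul]
      _ ≤ (v : ℝ) ^ 2 * (γ * (R e).card) := by
          have h3 : ((LV ×ˢ RV).card : ℝ) ≤ (v : ℝ) ^ 2 := by
            rw [card_product]
            have : LV.card * RV.card ≤ v * v := Nat.mul_le_mul hLV hRV
            calc ((LV.card * RV.card : ℕ) : ℝ) ≤ ((v * v : ℕ) : ℝ) := by exact_mod_cast this
              _ = (v : ℝ) ^ 2 := by push_cast; ring
          have : 0 ≤ γ * ((R e).card : ℝ) := by positivity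
          exact mul_le_mul_of_nonneg_right h3 this
  have h5 : 2 * (((R e) \ (R0 R I e)).card : ℝ) ≤ (R e).card := by
    have h6 : 2 * (((R e) \ (R0 R I e)).card : ℝ) * (N - v) ≤ (R e).card * (N - v) := by
      calc 2 * (((R e) \ (R0 R I e)).card : ℝ) * (N - v) ≤ 2 * ((v : ℝ) ^ 2 * (γ * (R e).card)) := by linarith
        _ = (2 * γ * (v : ℝ) ^ 2) * (R e).card := by ring
        _ ≤ (N - v) * (R e).card := by gcongr
        _ = (R e).card * (N - v) := by ring
    exact le_of_mul_le_mul_right h6 hNv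
  have h7 : ((R e).card : ℝ) = ((R e) \ (R0 R I e)).card + (R0 R I e).card := by
    have h8 : R0 R I e ⊆ R e := filter_subset _ _
    exact_mod_cast (card_sdiff_add_card_eq_card h8).symm
  linarith

/-- R11.
P08, filter monotone, R10. -/
theorem sprP_R0 {γ : ℝ} (hγ : 1 ≤ γ) {v : ℕ} {R : Pl d → Finset (LP N q)}
    {I : Pl d → Finset (Fin N)} (hS : St γ v R I) (hv : v < N)
    (h : 2 * γ * (v : ℝ) ^ 2 ≤ N - v) (e : Pl d) : SprP γ (R0 R I e) (I e) := by
  intro T hT a
  have h1 := spr_perm (hS.spr e) T hT a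
  have h2 := card_R0 hγ hS hv h e
  have h3 : (((R0 R I e).filter (fun ω => ∀ u ∈ T, ω.1 u = a u)).card : ℝ) ≤
      ((R e).filter (fun ω => ∀ u ∈ T, ω.1 u = a u)).card := by
    exact_mod_cast card_le_card (filter_subset_filter _ (filter_subset _ _))
  calc (((R0 R I e).filter (fun ω => ∀ u ∈ T, ω.1 u = a u)).card : ℝ) * (N - (I e).card).factorial
      ≤ ((R e).filter (fun ω => ∀ u ∈ T, ω.1 u = a u)).card * (N - (I e).card).factorial := by gcongr
    _ ≤ γ ^ T.card * ((R e).card * ((N - (I e).card - T.card).factorial : ℝ)) := h1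
    _ ≤ γ ^ T.card * ((2 * (R0 R I e).card) * ((N - (I e).card - T.card).factorial : ℝ)) := by
        gcongr
    _ = 2 * γ ^ T.card * ((R0 R I e).card * ((N - (I e).card - T.card).factorial : ℝ)) := by ring

end

end Pool.Agent.Lib.MP_8d8c46_lc.MC
end

section

/-! T33 : R05, R06 -/

set_option autoImplicit false
set_option linter.unusedSectionVars false

open scoped Classical
open Finset

namespace Pool.Agent.Lib.MP_8d8c46_lc.MC

open Pool.Agent.Lib.MP_8d8c46_lc.EL
open Pool.Agent.Lib.MP_8d8c46_lc.SA (BV Om)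

section
variable {d N q : ℕ} [NeZero q]

/-- R05.
The sets in the biUnion are pairwise disjoint and the image maps are injective: prod_biUnion, prod_image. -/
theorem dn_EF (σ : ℝ) (ω : Om d N q) (I : Pl d → Finset (Fin N)) (x : BV d N → ZMod q) :
    dn σ (EF ω I) x = ∏ e : Pl d, ∏ u ∈ I e,
      ka σ ((ω e).2 u - x (true, e.2, (ω e).1 u) + x (false, e.1, u)) := by
  unfold dn EF
  rw [prod_biUnion]
  · refine prod_congr rfl fun e _ => ?_
    rw [prod_image]
    intro u _ v _ h
    simp only [Prod.mk.injEq] at h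
    exact h.1.2.2
  · intro e _ e' _ hne
    simp only [Function.onFun]
    rw [disjoint_left]
    intro f hf hf'
    obtain ⟨u, hu, rfl⟩ := mem_image.1 hf
    obtain ⟨v, hv, h⟩ := mem_image.1 hf'
    simp only [Prod.mk.injEq] at h
    exact hne (Prod.ext h.1.2.1.symm h.2.1.2.1.symm)

/-- R06.
Both say: ω e ∈ R e for all e and for all e, u ∉ I e, not both endpoints in VR R I. -/
theorem rc0_eq (R : Pl d → Finset (LP N q)) (I : Pl d → Finset (Fin N)) :
    rc0 R I = rc (R0 R I) := by
  ext ω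
  unfold rc0
  rw [mem_filter]
  unfold rc R0 NIs
  rw [Fintype.mem_piFinset, Fintype.mem_piFinset]
  simp only [mem_filter]
  constructor
  · rintro ⟨h1, h2⟩ e
    exact ⟨h1 e, fun u hu => h2 e u hu⟩
  · intro h
    exact ⟨fun e => (h e).1, fun e u hu => (h e).2 u hu⟩

end

end Pool.Agent.Lib.MP_8d8c46_lc.MC
end

section

/-! T36 : R12 -/

set_option autoImplicit false
set_option linter.unusedSectionVars false

open scoped Classical
open Finset

namespace Pool.Agent.Lib.MP_8d8c46_lc.MC

open Pool.Agent.Lib.MP_8d8c46_lc.EL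
open Pool.Agent.Lib.MP_8d8c46_lc.SA (BV Om)

section
variable {d N q : ℕ} [NeZero q]

/-- R12. The planted mass of a rectangle.
Exchange sum and avg. For fixed x: Σ_{ω ∈ piFinset R'} Π_e Π_u ka = Π_e Σ_{w ∈ R' e} Π_u ka (Finset.prod_univ_sum). For w ∈ R' e the factors u ∈ I e are equal to those of ω₀ e (Agr) and give dn (EF ω₀ I) x (R05) after multiplication over e; the others give |R' e| gg. -/
theorem sum_wY (σ : ℝ) {R' : Pl d → Finset (LP N q)} {I : Pl d → Finset (Fin N)}
    (hA : ∀ e, Agr (R' e) (I e)) (hR : ∀ e, (R' e).Nonempty) {ω₀ : Om d N q}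
    (hω₀ : ω₀ ∈ rc R') :
    ∑ ω ∈ rc R', wY σ ω = (rc R').card * avg (fun x : BV d N → ZMod q => dn σ (EF ω₀ I) x *
      ∏ e : Pl d, gg σ (R' e) (I e) (fun u => x (false, e.1, u)) (fun v => x (true, e.2, v))) := by
  classical
  have hin : ∀ (x : BV d N → ZMod q) (e : Pl d),
      ∑ w ∈ R' e, ∏ u : Fin N, ka σ (w.2 u - x (true, e.2, w.1 u) + x (false, e.1, u)) =
      (∏ u ∈ I e, ka σ ((ω₀ e).2 u - x (true, e.2, (ω₀ e).1 u) + x (false, e.1, u))) *
        ((R' e).card * gg σ (R' e) (I e) (fun u => x (false, e.1, u))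
          (fun v => x (true, e.2, v))) := by
    intro x e
    have hω₀e : ω₀ e ∈ R' e := Fintype.mem_piFinset.mp hω₀ e
    have hc : ((R' e).card : ℝ) ≠ 0 := by
      have := (hR e).card_pos
      positivity
    have h1 : ((R' e).card : ℝ) * gg σ (R' e) (I e) (fun u => x (false, e.1, u))
          (fun v => x (true, e.2, v)) = ∑ w ∈ R' e, ∏ u ∈ univ \ I e,
          ka σ (w.2 u - x (true, e.2, w.1 u) + x (false, e.1, u)) := by
      unfold gg
      rw [mul_div_cancel₀ _ hc]
    rw [h1, Finset.mul_sum]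
    refine Finset.sum_congr rfl fun w hw => ?_
    have h2 : ∏ u ∈ I e, ka σ ((ω₀ e).2 u - x (true, e.2, (ω₀ e).1 u) + x (false, e.1, u)) =
        ∏ u ∈ I e, ka σ (w.2 u - x (true, e.2, w.1 u) + x (false, e.1, u)) := by
      refine Finset.prod_congr rfl fun u hu => ?_
      obtain ⟨k1, k2⟩ := hA e (ω₀ e) hω₀e w hw u hu
      rw [k1, k2]
    rw [h2, mul_comm, Finset.prod_sdiff (Finset.subset_univ _)]
  have hx : ∀ x : BV d N → ZMod q, ∑ ω ∈ rc R', ∏ e : Pl d, ∏ u : Fin N,
      ka σ ((ω e).2 u - x (true, e.2, (ω e).1 u) + x (false, e.1, u)) =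
      (rc R').card * (dn σ (EF ω₀ I) x * ∏ e : Pl d, gg σ (R' e) (I e)
        (fun u => x (false, e.1, u)) (fun v => x (true, e.2, v))) := by
    intro x
    have h1 := Finset.prod_univ_sum R' (fun (e : Pl d) (w : LP N q) =>
      ∏ u : Fin N, ka σ (w.2 u - x (true, e.2, w.1 u) + x (false, e.1, u)))
    have h2 : ∑ ω ∈ rc R', ∏ e : Pl d, ∏ u : Fin N,
        ka σ ((ω e).2 u - x (true, e.2, (ω e).1 u) + x (false, e.1, u)) =
        ∏ e : Pl d, ∑ w ∈ R' e, ∏ u : Fin N,
          ka σ (w.2 u - x (true, e.2, w.1 u) + x (false, e.1, u)) := h1.symm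
    rw [h2, Finset.prod_congr rfl fun e _ => hin x e, Finset.prod_mul_distrib,
      Finset.prod_mul_distrib, dn_EF]
    have h3 : ((rc R').card : ℝ) = ∏ e : Pl d, ((R' e).card : ℝ) := by
      unfold rc
      rw [Fintype.card_piFinset, Nat.cast_prod]
    rw [h3]
    ring
  have h4 : ∑ ω ∈ rc R', wY σ ω = avg (fun x : BV d N → ZMod q => ∑ ω ∈ rc R',
      ∏ e : Pl d, ∏ u : Fin N,
        ka σ ((ω e).2 u - x (true, e.2, (ω e).1 u) + x (false, e.1, u))) := by
    unfold wY avg
    rw [← Finset.sum_div, Finset.sum_comm]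
  rw [h4]
  have h5 : (fun x : BV d N → ZMod q => ∑ ω ∈ rc R', ∏ e : Pl d, ∏ u : Fin N,
        ka σ ((ω e).2 u - x (true, e.2, (ω e).1 u) + x (false, e.1, u))) =
      fun x => ((rc R').card : ℝ) * (dn σ (EF ω₀ I) x * ∏ e : Pl d, gg σ (R' e) (I e)
        (fun u => x (false, e.1, u)) (fun v => x (true, e.2, v))) := funext hx
  rw [h5]
  exact avg_const_mul _ _

end

end Pool.Agent.Lib.MP_8d8c46_lc.MC
end

section

/-! T42 : I03 -/

set_option autoImplicit false
set_option linter.unusedSectionVars false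

open scoped Classical
open Finset

namespace Pool.Agent.Lib.MP_8d8c46_lc.MC

open Pool.Agent.Lib.MP_8d8c46_lc.EL
open Pool.Agent.Lib.MP_8d8c46_lc.SA (BV Om)

section
variable {d N q : ℕ} [NeZero q]

/-- I03. New pairs are rarely joined by an unknown edge.
Such an ω has some e, u ∉ I e with x = (false,e.1,u), y = (true,e.2,(ω e).1 u) ∈ W, and (x,y) not both in W₀. The number of pairs (x, y) of a left and a right vertex of W not both in W₀ is pcW W - pcW W₀. For a fixed pair x = (false,a,u), y = (true,b,v'), e = (a,b), u ∉ I e: #{ω ∈ rc R : (ω e).1 u = v'} = Π_{e'≠e}|R e'| * #{..} ≤ |rc R| γ/(N - |I e|) ≤ |rc R| γ/(N - v) (P07; if u ∈ I e the pair does not count). rc = piFinset: card is the product. -/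
theorem new_pairs {γ : ℝ} (hγ : 0 ≤ γ) {v : ℕ} (hv : v < N) {R : Pl d → Finset (LP N q)}
    {I : Pl d → Finset (Fin N)} (hspr : ∀ e, Spr γ (R e) (I e)) (hc : ∑ e, (I e).card ≤ v)
    {W₀ W : Finset (BV d N)} (hW : W₀ ⊆ W) :
    (((rc R).filter (fun ω => NIs W₀ I ω ∧ ¬ NIs W I ω)).card : ℝ) ≤
      (rc R).card * (γ * ((pcW W : ℝ) - pcW W₀) / (N - v)) := by
  have hNv : (0 : ℝ) < (N : ℝ) - v := by
    have : (v : ℝ) < N := by exact_mod_cast hv
    linarith
  -- one pair
  have hone : ∀ (e : Pl d) (u v' : Fin N), u ∉ I e →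
      (((rc R).filter (fun ω => (ω e).1 u = v')).card : ℝ) ≤ (rc R).card * (γ / (N - v)) := by
    intro e u v' hu
    have h1 : (rc R).filter (fun ω => (ω e).1 u = v') =
        rc (Function.update R e ((R e).filter (fun ω => ω.1 u = v'))) := by
      ext ω
      unfold rc
      rw [mem_filter, Fintype.mem_piFinset, Fintype.mem_piFinset]
      constructor
      · rintro ⟨h2, h3⟩ e'
        by_cases he : e' = e
        · subst he; rw [Function.update_self]; exact mem_filter.2 ⟨h2 _, h3⟩
        · rw [Function.update_of_ne he]; exact h2 e'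
      · intro h2
        have h3 := h2 e
        rw [Function.update_self, mem_filter] at h3
        refine ⟨fun e' => ?_, h3.2⟩
        by_cases he : e' = e
        · subst he; exact h3.1
        · have h4 := h2 e'
          rw [Function.update_of_ne he] at h4
          exact h4
    rw [h1]
    obtain ⟨A, hA⟩ : ∃ A : ℝ, A = ∏ e' ∈ univ.erase e, ((R e').card : ℝ) := ⟨_, rfl⟩
    have hA0 : 0 ≤ A := by rw [hA]; exact prod_nonneg (fun _ _ => Nat.cast_nonneg _)
    have e1 : ∀ X : Finset (LP N q),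
        ((rc (Function.update R e X)).card : ℝ) = X.card * A := by
      intro X
      unfold rc
      rw [Fintype.card_piFinset]
      push_cast
      rw [← mul_prod_erase univ _ (mem_univ e), Function.update_self, hA]
      congr 1
      refine prod_congr rfl (fun e' he' => ?_)
      rw [Function.update_of_ne (mem_erase.1 he').1]
    have e2 : ((rc R).card : ℝ) = (R e).card * A := by
      unfold rc
      rw [Fintype.card_piFinset]
      push_cast
      rw [← mul_prod_erase univ _ (mem_univ e), hA]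
    rw [e1, e2]
    have h3 := spr_one (hspr e) hu v'
    have h4 : (N : ℝ) - v ≤ (N : ℝ) - (I e).card := by
      have h5 : (I e).card ≤ v :=
        (single_le_sum (f := fun e => (I e).card) (fun _ _ => Nat.zero_le _) (mem_univ e)).trans hc
      have h6 : ((I e).card : ℝ) ≤ v := by exact_mod_cast h5
      linarith
    have h7 : ((((R e).filter (fun ω => ω.1 u = v')).card : ℝ)) ≤ (R e).card * (γ / (N - v)) := by
      rw [← mul_div_assoc, le_div_iff₀ hNv]
      calc ((((R e).filter (fun ω => ω.1 u = v')).card : ℝ)) * ((N : ℝ) - v)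
          ≤ ((((R e).filter (fun ω => ω.1 u = v')).card : ℝ)) * ((N : ℝ) - (I e).card) :=
            mul_le_mul_of_nonneg_left h4 (Nat.cast_nonneg _)
        _ ≤ γ * (R e).card := h3
        _ = _ := mul_comm _ _
    calc ((((R e).filter (fun ω => ω.1 u = v')).card : ℝ)) * A
        ≤ ((R e).card * (γ / (N - v))) * A := mul_le_mul_of_nonneg_right h7 hA0
      _ = _ := by ring
  obtain ⟨P, hP⟩ : ∃ P : Finset (BV d N × BV d N), P =
      ((W.filter (fun x => x.1 = false)) ×ˢ (W.filter (fun x => x.1 = true))) \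
        ((W₀.filter (fun x => x.1 = false)) ×ˢ (W₀.filter (fun x => x.1 = true))) := ⟨_, rfl⟩
  have hPc : (P.card : ℝ) = (pcW W : ℝ) - pcW W₀ := by
    have h1 : ((W₀.filter (fun x => x.1 = false)) ×ˢ (W₀.filter (fun x => x.1 = true))) ⊆
        ((W.filter (fun x => x.1 = false)) ×ˢ (W.filter (fun x => x.1 = true))) :=
      product_subset_product (filter_subset_filter _ hW) (filter_subset_filter _ hW)
    have h2 := card_sdiff_add_card_eq_card h1
    rw [← hP, card_product, card_product] at h2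
    unfold pcW
    rw [← h2]
    push_cast
    ring
  have hsub : ((rc R).filter (fun ω => NIs W₀ I ω ∧ ¬ NIs W I ω)) ⊆
      (P.filter (fun p => p.1.2.2 ∉ I (p.1.2.1, p.2.2.1))).biUnion
        (fun p => (rc R).filter (fun ω => (ω (p.1.2.1, p.2.2.1)).1 p.1.2.2 = p.2.2.2)) := by
    intro ω hω
    obtain ⟨h1, h2, h3⟩ := mem_filter.1 hω
    unfold NIs at h3
    push Not at h3
    obtain ⟨e, u, hu, h4, h5⟩ := h3
    rw [mem_biUnion]
    refine ⟨((false, e.1, u), (true, e.2, (ω e).1 u)), ?_, ?_⟩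
    · rw [mem_filter, hP, mem_sdiff, mem_product, mem_product, mem_filter, mem_filter,
        mem_filter, mem_filter]
      refine ⟨⟨⟨⟨h4, rfl⟩, ⟨h5, rfl⟩⟩, fun h6 => ?_⟩, hu⟩
      exact h2 e u hu ⟨h6.1.1, h6.2.1⟩
    · rw [mem_filter]
      exact ⟨h1, rfl⟩
  calc (((rc R).filter (fun ω => NIs W₀ I ω ∧ ¬ NIs W I ω)).card : ℝ)
      ≤ ∑ p ∈ P.filter (fun p => p.1.2.2 ∉ I (p.1.2.1, p.2.2.1)),
        (((rc R).filter (fun ω => (ω (p.1.2.1, p.2.2.1)).1 p.1.2.2 = p.2.2.2)).card : ℝ) := by
        exact_mod_cast (card_le_card hsub).trans card_biUnion_le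
    _ ≤ ∑ p ∈ P.filter (fun p => p.1.2.2 ∉ I (p.1.2.1, p.2.2.1)),
        ((rc R).card * (γ / (N - v)) : ℝ) :=
        sum_le_sum (fun p hp => hone _ _ _ (mem_filter.1 hp).2)
    _ = ((P.filter (fun p => p.1.2.2 ∉ I (p.1.2.1, p.2.2.1))).card : ℝ) *
        ((rc R).card * (γ / (N - v)) : ℝ) := by rw [sum_const, nsmul_eq_mul]
    _ ≤ (P.card : ℝ) * ((rc R).card * (γ / (N - v)) : ℝ) := by
        refine mul_le_mul_of_nonneg_right ?_
          (mul_nonneg (Nat.cast_nonneg _) (div_nonneg hγ hNv.le))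
        exact_mod_cast card_le_card (filter_subset _ _)
    _ = _ := by rw [hPc]; ring

end

end Pool.Agent.Lib.MP_8d8c46_lc.MC
end

section

/-! T41 : I01, I02 -/

set_option autoImplicit false
set_option linter.unusedSectionVars false

open scoped Classical
open Finset

namespace Pool.Agent.Lib.MP_8d8c46_lc.MC

open Pool.Agent.Lib.MP_8d8c46_lc.EL
open Pool.Agent.Lib.MP_8d8c46_lc.SA (BV Om)

section
variable {d N q : ℕ} [NeZero q]

/-- I01.
R01, R02 (for the right vertices: the element ω ∈ R (a,b) may be replaced by an element of R₁ (a,b) ⊆ R (a,b), by Agr on I). -/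
theorem VR_mono {R R₁ : Pl d → Finset (LP N q)} {I I₁ : Pl d → Finset (Fin N)}
    (hA : ∀ e, Agr (R e) (I e)) (hne : ∀ e, (R₁ e).Nonempty)
    (hR : ∀ e, R₁ e ⊆ R e) (hI : ∀ e, I e ⊆ I₁ e) : VR R I ⊆ VR R₁ I₁ := by
  rintro ⟨s, a, u⟩ hx
  cases s
  · rw [mem_VR_false] at hx ⊢
    obtain ⟨b, hb⟩ := hx
    exact ⟨b, hI _ hb⟩
  · rw [mem_VR_true] at hx ⊢
    obtain ⟨a', ω, hω, u', hu', h⟩ := hx
    obtain ⟨ω', hω'⟩ := hne (a', a)
    refine ⟨a', ω', hω', u', hI _ hu', ?_⟩
    rw [(hA _ ω' (hR _ hω') ω hω u' hu').1]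
    exact h

/-- I02.
R07, R08, St.card. -/
theorem pcW_le {γ : ℝ} {v : ℕ} {R : Pl d → Finset (LP N q)} {I : Pl d → Finset (Fin N)}
    (hS : St γ v R I) : (pcW (VR R I) : ℝ) ≤ (v : ℝ) ^ 2 := by
  have h1 : pcW (VR R I) ≤ v ^ 2 := by
    rw [sq]
    exact Nat.mul_le_mul (card_left.trans hS.card) ((card_right hS.agr).trans hS.card)
  exact_mod_cast h1

end

end Pool.Agent.Lib.MP_8d8c46_lc.MC
end

section

/-! T43 : I04 -/

set_option autoImplicit false
set_option linter.unusedSectionVars false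

open scoped Classical
open Finset

namespace Pool.Agent.Lib.MP_8d8c46_lc.MC

open Pool.Agent.Lib.MP_8d8c46_lc.EL
open Pool.Agent.Lib.MP_8d8c46_lc.SA (BV Om)

section
variable {d N q : ℕ} [NeZero q]

/-- left vertices of the known edges -/
theorem mem_vts_EF_false {ω : Om d N q} {I : Pl d → Finset (Fin N)} {a : Fin d} {u : Fin N} :
    ((false, a, u) : BV d N) ∈ vts (EF ω I) ↔ ∃ b, u ∈ I (a, b) := by
  unfold vts EF
  simp only [mem_union, mem_image, mem_biUnion, mem_univ, true_and]
  constructor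
  · rintro (⟨f, ⟨e, u', hu', rfl⟩, hf⟩ | ⟨f, ⟨e, u', hu', rfl⟩, hf⟩)
    · simp only [Prod.mk.injEq, true_and] at hf
      obtain ⟨h1, h2⟩ := hf
      subst h1 h2
      exact ⟨e.2, hu'⟩
    · simp at hf
  · rintro ⟨b, hb⟩
    exact Or.inl ⟨_, ⟨(a, b), u, hb, rfl⟩, rfl⟩

/-- right vertices of the known edges -/
theorem mem_vts_EF_true {ω : Om d N q} {I : Pl d → Finset (Fin N)} {b : Fin d} {v : Fin N} :
    ((true, b, v) : BV d N) ∈ vts (EF ω I) ↔ ∃ a, ∃ u ∈ I (a, b), (ω (a, b)).1 u = v := by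
  unfold vts EF
  simp only [mem_union, mem_image, mem_biUnion, mem_univ, true_and]
  constructor
  · rintro (⟨f, ⟨e, u', hu', rfl⟩, hf⟩ | ⟨f, ⟨e, u', hu', rfl⟩, hf⟩)
    · simp at hf
    · simp only [Prod.mk.injEq, true_and] at hf
      obtain ⟨h1, h2⟩ := hf
      subst h1
      exact ⟨e.1, u', hu', h2⟩
  · rintro ⟨a, u, hu, h⟩
    exact Or.inr ⟨_, ⟨(a, b), u, hu, rfl⟩, by rw [← h]⟩

/-- I04. One player learns more edges, none of which lies inside the touched vertices.
Induction on the finite set I' \ I e: adding u: the edge ((false,e.1,u), (true,e.2,(ω e).1 u), label) is added to EF (EF ω (update I e (insert u J)) = insert .. (EF ω (update I e J))). ω ∈ rc0 R I: not both endpoints are in VR R I = vts (EF ω I) (R03); the one which is not is also not an endpoint of the edges of e added before (distinct u, injectivity of (ω e).1). Forest.add. -/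
theorem forest_update {R : Pl d → Finset (LP N q)} {I : Pl d → Finset (Fin N)}
    (hA : ∀ e, Agr (R e) (I e)) {ω : Om d N q} (hω : ω ∈ rc0 R I) (hF : Forest (EF ω I))
    (e : Pl d) {I' : Finset (Fin N)} (hI : I e ⊆ I') :
    Forest (EF ω (Function.update I e I')) := by
  have hrc : ω ∈ rc R := (mem_filter.1 hω).1
  have hrc' := Fintype.mem_piFinset.1 hrc
  have hN : NIs (VR R I) I ω := (mem_filter.1 hω).2
  have key : ∀ J : Finset (Fin N), Disjoint J (I e) →
      Forest (EF ω (Function.update I e (I e ∪ J))) := by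
    intro J
    induction J using Finset.induction_on with
    | empty =>
      intro _
      rw [union_empty, Function.update_eq_self]
      exact hF
    | insert u J hu ih =>
      intro hd
      rw [disjoint_insert_left] at hd
      have ih' := ih hd.2
      have h1 : EF ω (Function.update I e (I e ∪ insert u J)) =
          insert (((false, e.1, u) : BV d N), ((true, e.2, (ω e).1 u) : BV d N), (ω e).2 u)
            (EF ω (Function.update I e (I e ∪ J))) := by
        ext f
        unfold EF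
        simp only [mem_insert, mem_biUnion, mem_univ, true_and, mem_image]
        constructor
        · rintro ⟨e', u', hu', rfl⟩
          by_cases he : e' = e
          · subst he
            rw [Function.update_self, mem_union, mem_insert] at hu'
            rcases hu' with hu' | rfl | hu'
            · exact Or.inr ⟨e', u', by rw [Function.update_self]; exact mem_union_left _ hu', rfl⟩
            · exact Or.inl rfl
            · exact Or.inr ⟨e', u', by rw [Function.update_self]; exact mem_union_right _ hu', rfl⟩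
          · rw [Function.update_of_ne he] at hu'
            exact Or.inr ⟨e', u', by rw [Function.update_of_ne he]; exact hu', rfl⟩
        · rintro (rfl | ⟨e', u', hu', rfl⟩)
          · exact ⟨e, u, by rw [Function.update_self]; simp, rfl⟩
          · refine ⟨e', u', ?_, rfl⟩
            by_cases he : e' = e
            · subst he
              rw [Function.update_self] at hu' ⊢
              rw [mem_union] at hu' ⊢
              rw [mem_insert]
              tauto
            · rw [Function.update_of_ne he] at hu' ⊢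
              exact hu'
      rw [h1]
      have hne : ((false, e.1, u) : BV d N) ≠ ((true, e.2, (ω e).1 u) : BV d N) := by
        intro h
        have h9 := congrArg Prod.fst h
        simp at h9
      suffices hnew : ((false, e.1, u) : BV d N) ∉ vts (EF ω (Function.update I e (I e ∪ J))) ∨
          ((true, e.2, (ω e).1 u) : BV d N) ∉ vts (EF ω (Function.update I e (I e ∪ J))) by
        have h5 := Forest.add _ _ _ ((ω e).2 u) ih' hne hnew
        exact Eq.mp (by congr <;> first | exact Subsingleton.elim _ _ | (funext τ; congr <;> exact Subsingleton.elim _ _)) h5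
      by_contra hcon
      push Not at hcon
      obtain ⟨hl, hr⟩ := hcon
      refine hN e u hd.1 ⟨?_, ?_⟩
      · rw [mem_vts_EF_false] at hl
        obtain ⟨b, hb⟩ := hl
        rw [mem_VR_false]
        by_cases he : (e.1, b) = e
        · rw [he, Function.update_self, mem_union] at hb
          exact (hb.elim hd.1 hu).elim
        · rw [Function.update_of_ne he] at hb
          exact ⟨b, hb⟩
      · rw [mem_vts_EF_true] at hr
        obtain ⟨a, u', hu', h2⟩ := hr
        rw [mem_VR_true]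
        by_cases he : (a, e.2) = e
        · rw [he] at h2 hu'
          rw [Function.update_self, mem_union] at hu'
          have h3 : u' = u := (ω e).1.injective h2
          subst h3
          exact (hu'.elim hd.1 hu).elim
        · rw [Function.update_of_ne he] at hu'
          exact ⟨a, ω (a, e.2), hrc' _, u', hu', h2⟩
  have h2 := key (I' \ I e) sdiff_disjoint
  rw [union_sdiff_of_subset hI] at h2
  exact h2

end

end Pool.Agent.Lib.MP_8d8c46_lc.MC
end

section

/-! T44 : I05, I06 -/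

set_option autoImplicit false
set_option linter.unusedSectionVars false

open scoped Classical
open Finset

namespace Pool.Agent.Lib.MP_8d8c46_lc.MC

open Pool.Agent.Lib.MP_8d8c46_lc.EL
open Pool.Agent.Lib.MP_8d8c46_lc.SA (BV Om)

section
variable {d N q : ℕ} [NeZero q]

/-- I05.
Let R₁, I₁ be the updates, W₁ = VR R₁ I₁ ⊇ W = VR R I (I01; nonempty: we may assume the left side nonempty). ω' ∈ rc0 R₁ I₁: ω' ∈ rc R. Let u ∉ I e'. If u ∉ I₁ e' then not both endpoints are in W₁ ⊇ W. If u ∈ I₁ e' (so e' = e, u ∈ I' \ I e): ω' e and ω e are in R' and agree on I' ∋ u (Agr R' I'), and ω ∈ rc0 R I says that not both endpoints are in W. -/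
theorem rc0_update {R : Pl d → Finset (LP N q)} {I : Pl d → Finset (Fin N)}
    (hA : ∀ e, Agr (R e) (I e)) (e : Pl d) {R' : Finset (LP N q)} {I' : Finset (Fin N)}
    (hR : R' ⊆ R e) (hI : I e ⊆ I') (hA' : Agr R' I') {ω : Om d N q} (hω : ω ∈ rc0 R I)
    (hω' : ω e ∈ R') :
    rc0 (Function.update R e R') (Function.update I e I') ⊆ rc0 R I := by
  intro ω₂ h2
  have hω1 := Fintype.mem_piFinset.1 (mem_filter.1 hω).1
  have hne₁ : ∀ e', (Function.update R e R' e').Nonempty := by
    intro e'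
    by_cases he : e' = e
    · subst he; rw [Function.update_self]; exact ⟨_, hω'⟩
    · rw [Function.update_of_ne he]; exact ⟨_, hω1 e'⟩
  have hsub : VR R I ⊆ VR (Function.update R e R') (Function.update I e I') := by
    refine VR_mono hA hne₁ (fun e' => ?_) (fun e' => ?_)
    · by_cases he : e' = e
      · subst he; rw [Function.update_self]; exact hR
      · rw [Function.update_of_ne he]
    · by_cases he : e' = e
      · subst he; rw [Function.update_self]; exact hI
      · rw [Function.update_of_ne he]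
  have h2f := mem_filter.1 h2
  have h2' := Fintype.mem_piFinset.1 h2f.1
  refine mem_filter.2 ⟨Fintype.mem_piFinset.2 (fun e' => ?_), ?_⟩
  · have h3 := h2' e'
    by_cases he : e' = e
    · subst he; rw [Function.update_self] at h3; exact hR h3
    · rw [Function.update_of_ne he] at h3; exact h3
  · intro e' u hu hcon
    by_cases he : e' = e
    · subst he
      by_cases hu' : u ∈ I'
      · have h4 := h2' e'
        rw [Function.update_self] at h4
        have h3 := (hA' _ h4 _ hω' u hu').1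
        rw [h3] at hcon
        exact (mem_filter.1 hω).2 e' u hu hcon
      · exact h2f.2 e' u (by rw [Function.update_self]; exact hu') ⟨hsub hcon.1, hsub hcon.2⟩
    · exact h2f.2 e' u (by rw [Function.update_of_ne he]; exact hu) ⟨hsub hcon.1, hsub hcon.2⟩

/-- I06. The new state.
Agr, Spr, nonempty: componentwise (Function.update). forest: for ω' ∈ rc0 R₁ I₁ : EF ω' I₁ = EF ω₁ I₁ where ω₁ = update ω' ... simpler: ω'' := Function.update ω e (ω e) = ω ∈ rc R₁, as ω e ∈ R' and ω e' ∈ R e'; so ω ∈ rc R₁ and R04 gives EF ω' I₁ = EF ω I₁, a forest by I04. -/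
theorem St_update {γ : ℝ} {v : ℕ} {R : Pl d → Finset (LP N q)} {I : Pl d → Finset (Fin N)}
    (hS : St γ v R I) (e : Pl d) {R' : Finset (LP N q)} {I' : Finset (Fin N)}
    (hR : R' ⊆ R e) (hne : R'.Nonempty) (hI : I e ⊆ I') (hA' : Agr R' I')
    (hspr : Spr γ R' I')
    (hc : ∑ e', (Function.update I e I' e').card ≤ v) {ω : Om d N q} (hω : ω ∈ rc0 R I)
    (hω' : ω e ∈ R') : St γ v (Function.update R e R') (Function.update I e I') := by
  have hω1 := Fintype.mem_piFinset.1 (mem_filter.1 hω).1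
  have hA₁ : ∀ e', Agr (Function.update R e R' e') (Function.update I e I' e') := by
    intro e'
    by_cases he : e' = e
    · subst he; rw [Function.update_self, Function.update_self]; exact hA'
    · rw [Function.update_of_ne he, Function.update_of_ne he]; exact hS.agr e'
  have hrc₁ : ω ∈ rc (Function.update R e R') := by
    refine Fintype.mem_piFinset.2 (fun e' => ?_)
    by_cases he : e' = e
    · subst he; rw [Function.update_self]; exact hω'
    · rw [Function.update_of_ne he]; exact hω1 e'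
  refine ⟨hA₁, ?_, ?_, hc, ?_⟩
  · intro e'
    by_cases he : e' = e
    · subst he; rw [Function.update_self, Function.update_self]; exact hspr
    · rw [Function.update_of_ne he, Function.update_of_ne he]; exact hS.spr e'
  · intro e'
    by_cases he : e' = e
    · subst he; rw [Function.update_self]; exact hne
    · rw [Function.update_of_ne he]; exact hS.ne e'
  · intro ω₂ hω₂
    rw [EF_congr hA₁ (mem_filter.1 hω₂).1 hrc₁]
    exact forest_update hS.agr hω (hS.forest ω hω) e hI

end

end Pool.Agent.Lib.MP_8d8c46_lc.MC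
end
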