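import Pool.Agent.Lib.MP_8d8c46_lc.EL.Core3

section

/-!
The lower bound for the main part.
-/

set_option autoImplicit false
set_option linter.unusedSectionVars false

open scoped Classical
open Finset

namespace Pool.Agent.Lib.MP_8d8c46_lc.EL

section
variable {U A Γ : Type} [Fintype U] [Fintype A] [Nonempty A] [Fintype Γ] [Nonempty Γ]
  {near : U → U → Prop} {k : ℕ} (P : PDist U A near k) (𝔞 : Act Γ A)

lemma avg_D {W : Finset U} (hW : W.card ≤ k) : avg (P.D W) = 1 := by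
  have h1 := sum_avg_dl P (φ := fun _ => (1 : ℝ)) (W := W) (fun _ _ _ => rfl) hW
  have h2 := sum_avg_dl P (φ := fun _ => (1 : ℝ)) (W := ∅) (fun _ _ _ => rfl) (by simp)
  simp only [mul_one] at h1 h2
  have h3 : avg (P.D ∅) = 1 := by
    have : P.D ∅ = fun _ => 1 := funext P.empty
    rw [this]
    exact avg_const 1
  calc avg (P.D W) = avg (fun x => P.D W x) := rfl
    _ = avg (fun x => P.D ∅ x) := by rw [← h1, h2]
    _ = 1 := h3

/-- the component with the coordinates in `I` fixed -/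
noncomputable def Dla (I : Finset U) (α' : U → A) (T : Finset U) (y : U → A) : ℝ :=
  dl P I T (mx I α' y)

lemma Dla_dep (I : Finset U) (α' : U → A) (T : Finset U) : DepOn T (Dla P I α' T) := by
  intro x y h
  unfold Dla
  refine dl_dep P I T _ _ (fun u hu => ?_)
  unfold mx
  split_ifs with h1
  · rfl
  · rw [mem_union] at hu
    exact h u (hu.resolve_left h1)

lemma Dla_mz {I T : Finset U} (hd : Disjoint I T) (hk : I.card + T.card ≤ k) (α' : U → A) {u : U}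
    (hu : u ∈ T) : MZ u (Dla P I α' T) := by
  intro x
  have huI : u ∉ I := fun h => (disjoint_left.1 hd h) hu
  have h1 : ∀ a, mx I α' (Function.update x u a) = Function.update (mx I α' x) u a := by
    intro a
    funext v
    by_cases hv : v = u
    · subst hv; simp [mx, huI]
    · simp [mx, hv]
  unfold Dla
  simp only [h1]
  exact dl_mz P hd hk hu _

lemma D_mx (I : Finset U) (α' y : U → A) : P.D I (mx I α' y) = P.D I α' := (P.dep I).mx α' y

lemma abs_Dla {I T : Finset U} (hd : Disjoint I T) (hk : I.card + T.card ≤ k) (α' y : U → A) :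
    |Dla P I α' T y| ≤ (2 * (Fintype.card A : ℝ)) ^ T.card * P.D I α' := by
  have := abs_dl_le P hd hk (mx I α' y)
  rwa [D_mx] at this

variable {𝒜 : Finset (Equiv.Perm U × (U → Γ))} {I : Finset U} {τ₀ : Equiv.Perm U} {b : U → Γ}

/-- the correlation with the coordinates in `I` fixed -/
noncomputable def EE (𝒜 : Finset (Equiv.Perm U × (U → Γ))) (I : Finset U) (τ₀ : Equiv.Perm U)
    (b : U → Γ) (g : (U → A) → ℝ) (τ : Equiv.Perm U) (α : U → A) (T : Finset U) : ℝ :=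
  avg (fun w => Fb 𝒜 I b τ w * avg (fun x => Dla P I (ax 𝔞 b (α ∘ τ₀)) T (ax 𝔞 w (x ∘ τ)) *
    g (mx (I.image τ₀) α x)))

lemma inner_eq {τ : Equiv.Perm U} (hτ : ∀ u ∈ I, τ u = τ₀ u) (w : U → Γ) (T : Finset U)
    (g : (U → A) → ℝ) :
    avg (fun x => dl P I T (ax 𝔞 (mx I b w) (x ∘ τ)) * g x) =
      avg (fun α => avg (fun x => Dla P I (ax 𝔞 b (α ∘ τ₀)) T (ax 𝔞 w (x ∘ τ)) *
        g (mx (I.image τ₀) α x))) := by
  rw [← avg_mx (I.image τ₀) (fun x => dl P I T (ax 𝔞 (mx I b w) (x ∘ τ)) * g x)]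
  congr 1; funext α
  congr 1; funext x
  congr 1
  unfold Dla
  congr 1
  funext u
  by_cases hu : u ∈ I
  · have h1 : τ u ∈ I.image τ₀ := by rw [hτ u hu]; exact mem_image_of_mem _ hu
    simp only [ax, mx, hu, if_true, Function.comp_apply, h1]
    rw [hτ u hu]
  · have h1 : τ u ∉ I.image τ₀ := by
      intro h
      obtain ⟨v, hv, hvu⟩ := mem_image.1 h
      rw [← hτ v hv] at hvu
      exact hu (τ.injective hvu ▸ hv)
    simp only [ax, mx, hu, if_false, Function.comp_apply, h1]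

lemma main_eq (h𝒜 : ∀ ω ∈ 𝒜, ∀ u ∈ I, ω.1 u = τ₀ u ∧ ω.2 u = b u) (g : (U → A) → ℝ)
    (𝒯 : Finset (Finset U)) (τ : Equiv.Perm U) :
    avg (fun w => In 𝒜 τ w * ∑ T ∈ 𝒯, avg (fun x => dl P I T (ax 𝔞 w (x ∘ τ)) * g x)) =
      kap I b * avg (fun α => ∑ T ∈ 𝒯, EE P 𝔞 𝒜 I τ₀ b g τ α T) := by
  rw [avg_In h𝒜 τ (fun w => ∑ T ∈ 𝒯, avg (fun x => dl P I T (ax 𝔞 w (x ∘ τ)) * g x))]
  congr 1
  by_cases hτ : ∀ u ∈ I, τ u = τ₀ u
  · have h1 : (fun w => Fb 𝒜 I b τ w * ∑ T ∈ 𝒯, avg (fun x =>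
        dl P I T (ax 𝔞 (mx I b w) (x ∘ τ)) * g x)) =
        fun w => ∑ T ∈ 𝒯, avg (fun α => Fb 𝒜 I b τ w * avg (fun x =>
          Dla P I (ax 𝔞 b (α ∘ τ₀)) T (ax 𝔞 w (x ∘ τ)) * g (mx (I.image τ₀) α x))) := by
      funext w
      rw [mul_sum]
      refine sum_congr rfl (fun T _ => ?_)
      rw [inner_eq P 𝔞 hτ w T g, avg_const_mul]
    rw [h1, avg_sum, avg_sum]
    refine sum_congr rfl (fun T _ => ?_)
    rw [avg_comm2]
    rfl
  · have h0 := zz_eq_zero h𝒜 hτ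
    have h1 : ∀ α T, EE P 𝔞 𝒜 I τ₀ b g τ α T = 0 := by
      intro α T
      unfold EE
      rw [h0]
      simp only [zero_mul]
      exact avg_const 0
    simp only [h1, h0, zero_mul, sum_const_zero]
    rw [avg_const, avg_const]

lemma EE_empty (g : (U → A) → ℝ) (τ : Equiv.Perm U) (α : U → A) :
    EE P 𝔞 𝒜 I τ₀ b g τ α ∅ = P.D I (ax 𝔞 b (α ∘ τ₀)) *
      avg (fun x => g (mx (I.image τ₀) α x)) * zz 𝒜 I b τ := by
  unfold EE
  have h1 : ∀ y, Dla P I (ax 𝔞 b (α ∘ τ₀)) ∅ y = P.D I (ax 𝔞 b (α ∘ τ₀)) := by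
    intro y
    unfold Dla
    rw [dl_empty_right, D_mx]
  simp only [h1, avg_const_mul]
  rw [avg_mul_const]
  unfold zz
  have : avg (fun w => Fb 𝒜 I b τ w) = avg (Fb 𝒜 I b τ) := rfl
  rw [this]
  ring

lemma abs_EE {T : Finset U} (hd : Disjoint I T) (hk : I.card + T.card ≤ k) (g : (U → A) → ℝ)
    (τ : Equiv.Perm U) (α : U → A) :
    |EE P 𝔞 𝒜 I τ₀ b g τ α T| ≤ if Pd near I T then P.D I (ax 𝔞 b (α ∘ τ₀)) *
      ((2 * (Fintype.card A : ℝ)) ^ T.card * (n1 (Fb 𝒜 I b τ) T *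
        n1 (fun x => g (mx (I.image τ₀) α x)) (T.image τ))) else 0 := by
  split_ifs with hPd
  · have h1 := bil 𝔞 (Dla_dep P I (ax 𝔞 b (α ∘ τ₀)) T)
      (fun u hu => Dla_mz P hd hk (ax 𝔞 b (α ∘ τ₀)) hu)
      (abs_Dla P hd hk (ax 𝔞 b (α ∘ τ₀))) (Fb 𝒜 I b τ)
      (fun x => g (mx (I.image τ₀) α x)) τ
    have h2 : EE P 𝔞 𝒜 I τ₀ b g τ α T = avg (fun w => avg (fun x => Fb 𝒜 I b τ w *
        Dla P I (ax 𝔞 b (α ∘ τ₀)) T (ax 𝔞 w (x ∘ τ)) * g (mx (I.image τ₀) α x))) := by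
      unfold EE
      congr 1; funext w
      rw [← avg_const_mul]
      congr 1; funext x; ring
    rw [h2]
    refine h1.trans (le_of_eq ?_)
    ring
  · have h1 : ∀ y, Dla P I (ax 𝔞 b (α ∘ τ₀)) T y = 0 := fun y => dl_eq_zero P hd hk hPd _
    unfold EE
    simp only [h1, zero_mul]
    rw [avg_const]
    simp only [mul_zero]
    rw [avg_const, abs_zero]

/-- The lower bound for the main part. -/
theorem main_lower {K l i₀ k' : ℕ} (hK : 1 ≤ K) (hsym : ∀ u v, near u v → near v u)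
    (hball : ∀ u, (univ.filter (fun v => near u v)).card ≤ K) {s : ℝ} (hs : 1 ≤ s)
    (hsn : s ^ 2 = Fintype.card U) (hk' : k' + I.card ≤ k) (hkl : k ≤ l)
    (h𝒜 : ∀ ω ∈ 𝒜, ∀ u ∈ I, ω.1 u = τ₀ u ∧ ω.2 u = b u)
    (hN : ((univ.filter (fun τ : Equiv.Perm U => ∀ u ∈ I, τ u = τ₀ u)).card : ℝ) ≤
      2 ^ (2 ^ i₀) * ∑ τ, zz 𝒜 I b τ)
    (hspz : Spread (zz 𝒜 I b) (I.image τ₀) l (4 / Fintype.card U))
    {y : ℝ} (hy0 : 0 ≤ y) (hy : 6 * y ≤ 1)
    (hyc : (2 * (Fintype.card A : ℝ)) ^ 2 * ((4 * (Fintype.card Γ : ℝ)) ^ i₀ *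
      (4 * (Fintype.card A : ℝ)) ^ i₀ * (l * K * s * (4 / Fintype.card U))) ≤ y ^ 2)
    {g : (U → A) → ℝ} (hg : ∀ x, 0 ≤ g x) {M : ℝ} (hM : ∀ x, g x ≤ M)
    (hM2 : M ≤ 2 ^ (2 ^ i₀)) :
    -(6 * y) * (kap I b * ∑ τ, zz 𝒜 I b τ) ≤
      ∑ τ, avg (fun w => In 𝒜 τ w *
        ∑ T ∈ univ.filter (fun T : Finset U => Disjoint I T ∧ T.card ≤ k'),
          avg (fun x => dl P I T (ax 𝔞 w (x ∘ τ)) * g x)) := by
  set 𝒯 := univ.filter (fun T : Finset U => Disjoint I T ∧ T.card ≤ k') with h𝒯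
  set Z := ∑ τ, zz 𝒜 I b τ with hZ
  set κ := kap I b with hκ
  have hZ0 : 0 ≤ Z := sum_nonneg (fun τ _ => zz_nonneg τ)
  have hκ0 : 0 < κ := kap_pos
  have hU0 : (0 : ℝ) < Fintype.card U := by rw [← hsn]; positivity
  set c' : ℝ := l * K * s * (4 / Fintype.card U) with hc'
  have hc'0 : 0 ≤ c' := by rw [hc']; positivity
  have hA := card_A_pos (A := A)
  have hΓ := card_A_pos (A := Γ)
  set dα : (U → A) → ℝ := fun α => P.D I (ax 𝔞 b (α ∘ τ₀)) with hdα
  set gα : (U → A) → (U → A) → ℝ := fun α x => g (mx (I.image τ₀) α x) with hgα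
  set aα : (U → A) → ℝ := fun α => avg (gα α) with haα
  have hIk : I.card ≤ k := by omega
  have hd0 : ∀ α, 0 ≤ dα α := fun α => P.nonneg I hIk _
  have ha0 : ∀ α, 0 ≤ aα α := fun α => avg_nonneg (fun x => hg _)
  have hd1 : avg dα = 1 := by
    have := avg_equiv (axe 𝔞 τ₀ b) (P.D I)
    rw [avg_D P hIk] at this
    exact this
  -- the sum over all `τ` for fixed `α`
  let 𝒯i : ℕ → Finset (Finset U) := fun i => 𝒯.filter (fun T => T.card = i ∧ Pd near I T)
  have hlev : ∀ α, ∀ i ∈ Icc 1 k', (2 * (Fintype.card A : ℝ)) ^ i *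
      ∑ τ, ∑ T ∈ 𝒯i i, n1 (Fb 𝒜 I b τ) T * n1 (gα α) (T.image τ) ≤
      3 * y ^ i * (Z * (1 + aα α)) := by
    intro α i hi
    rw [mem_Icc] at hi
    have h𝒯i : ∀ T ∈ 𝒯i i, T.card = i ∧ Pd near I T := fun T hT => (mem_filter.1 hT).2
    have hsub : 𝒯i i ⊆ powersetCard i univ := fun T hT =>
      mem_powersetCard.2 ⟨subset_univ _, (h𝒯i T hT).1⟩
    have hdis : ∀ T ∈ 𝒯i i, Disjoint I T := fun T hT =>
      ((mem_filter.1 (mem_filter.1 hT).1).2).1
    set BΓ := ((4 * (Fintype.card Γ : ℝ)) ^ i₀) ^ i with hBΓ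
    set BA := ((4 * (Fintype.card A : ℝ)) ^ i₀) ^ i with hBA
    have hBΓ0 : 0 ≤ BΓ := by rw [hBΓ]; positivity
    have hBA0 : 0 ≤ BA := by rw [hBA]; positivity
    have h1 := cs_level (univ : Finset (Equiv.Perm U)) (zz 𝒜 I b) zz_nonneg (Fb 𝒜 I b)
      (fun τ h T => by rw [Fb_eq_zero h]; exact n1_zero T) (gα α) (𝒯i i)
      (P := 4 * BΓ * Z) (Q := c' ^ i * Z * (2 * (1 + aα α) ^ 2 * BA))
      (first_factor h𝒜 hN i (𝒯i i) hsub) (by
        have h2 := weight_image hK hsym hball hs hsn (ν := zz 𝒜 I b) zz_nonneg (I := I)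
          (I' := I.image τ₀) (c := 4 / Fintype.card U) (by positivity) hspz (i := i)
          (by omega) (𝒯i i) h𝒯i (fun τ hτ T hT => by
            have hτI : ∀ u ∈ I, τ u = τ₀ u := by
              by_contra hcon
              apply hτ
              unfold zz
              rw [zz_eq_zero h𝒜 hcon]
              exact avg_const 0
            rw [disjoint_left]
            intro v hv hv'
            obtain ⟨u, hu, rfl⟩ := mem_image.1 hv
            obtain ⟨u', hu', he⟩ := mem_image.1 hv'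
            rw [← hτI u' hu'] at he
            have := τ.injective he
            subst this
            exact disjoint_left.1 (hdis T hT) hu' hu) (gα α)
        refine h2.trans ?_
        refine mul_le_mul_of_nonneg_left ?_ (by positivity)
        exact second_level (fun x => hg _) (fun x => hM _) hM2 i)
    refine (mul_le_mul_of_nonneg_left h1 (by positivity)).trans ?_
    have ha := ha0 α
    have e1 : (2 * (Fintype.card A : ℝ)) ^ i = √(((2 * (Fintype.card A : ℝ)) ^ i) ^ 2) :=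
      (Real.sqrt_sq (by positivity)).symm
    have e2 : 3 * y ^ i * (Z * (1 + aα α)) = √((3 * y ^ i * (Z * (1 + aα α))) ^ 2) :=
      (Real.sqrt_sq (by positivity)).symm
    rw [e1, e2, ← Real.sqrt_mul (by positivity)]
    refine Real.sqrt_le_sqrt ?_
    have h4 : ((2 * (Fintype.card A : ℝ)) ^ i) ^ 2 * (BΓ * BA * c' ^ i) ≤ (y ^ i) ^ 2 := by
      calc ((2 * (Fintype.card A : ℝ)) ^ i) ^ 2 * (BΓ * BA * c' ^ i) =
          ((2 * (Fintype.card A : ℝ)) ^ 2 * ((4 * (Fintype.card Γ : ℝ)) ^ i₀ *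
            (4 * (Fintype.card A : ℝ)) ^ i₀ * c')) ^ i := by
            rw [hBΓ, hBA, ← pow_mul, mul_comm i 2, pow_mul, ← mul_pow, ← mul_pow, ← mul_pow]
        _ ≤ (y ^ 2) ^ i := pow_le_pow_left₀ (by positivity) hyc i
        _ = (y ^ i) ^ 2 := by rw [← pow_mul, ← pow_mul, mul_comm i 2]
    calc ((2 * (Fintype.card A : ℝ)) ^ i) ^ 2 * (4 * BΓ * Z * (c' ^ i * Z * (2 * (1 + aα α) ^ 2 * BA)))
        = (((2 * (Fintype.card A : ℝ)) ^ i) ^ 2 * (BΓ * BA * c' ^ i)) *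
            (8 * (Z * (1 + aα α)) ^ 2) := by ring
      _ ≤ (y ^ i) ^ 2 * (8 * (Z * (1 + aα α)) ^ 2) :=
          mul_le_mul_of_nonneg_right h4 (by positivity)
      _ ≤ (y ^ i) ^ 2 * (9 * (Z * (1 + aα α)) ^ 2) := by
          refine mul_le_mul_of_nonneg_left ?_ (by positivity)
          have : 0 ≤ (Z * (1 + aα α)) ^ 2 := sq_nonneg _
          linarith
      _ = (3 * y ^ i * (Z * (1 + aα α))) ^ 2 := by ring
  have hα : ∀ α, dα α * (aα α * Z) - dα α * (6 * y * (Z * (1 + aα α))) ≤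
      ∑ τ, ∑ T ∈ 𝒯, EE P 𝔞 𝒜 I τ₀ b g τ α T := by
    intro α
    have hemp : ∅ ∈ 𝒯 := by
      rw [h𝒯, mem_filter]
      exact ⟨mem_univ _, disjoint_empty_right _, by simp⟩
    have h1 : ∀ τ, ∑ T ∈ 𝒯, EE P 𝔞 𝒜 I τ₀ b g τ α T =
        dα α * aα α * zz 𝒜 I b τ + ∑ T ∈ 𝒯.erase ∅, EE P 𝔞 𝒜 I τ₀ b g τ α T := by
      intro τ
      rw [← add_sum_erase 𝒯 _ hemp, EE_empty]
    have h2 : |∑ τ, ∑ T ∈ 𝒯.erase ∅, EE P 𝔞 𝒜 I τ₀ b g τ α T| ≤
        dα α * (6 * y * (Z * (1 + aα α))) := by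
      have h3 : ∀ τ : Equiv.Perm U, |∑ T ∈ 𝒯.erase ∅, EE P 𝔞 𝒜 I τ₀ b g τ α T| ≤
          ∑ i ∈ Icc 1 k', dα α * ((2 * (Fintype.card A : ℝ)) ^ i *
            ∑ T ∈ 𝒯i i, n1 (Fb 𝒜 I b τ) T * n1 (gα α) (T.image τ)) := by
        intro τ
        refine (abs_sum_le_sum_abs _ _).trans ?_
        have h4 : ∀ T ∈ 𝒯.erase ∅, |EE P 𝔞 𝒜 I τ₀ b g τ α T| ≤
            if Pd near I T then dα α *
              ((2 * (Fintype.card A : ℝ)) ^ T.card * (n1 (Fb 𝒜 I b τ) T *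
                n1 (gα α) (T.image τ))) else 0 := by
          intro T hT
          rw [mem_erase, h𝒯, mem_filter] at hT
          exact abs_EE P 𝔞 hT.2.2.1 (by have := hT.2.2.2; omega) g τ α
        refine (sum_le_sum h4).trans (le_of_eq ?_)
        have hmaps : ∀ T ∈ 𝒯.erase ∅, T.card ∈ Icc 1 k' := by
          intro T hT
          rw [mem_erase, h𝒯, mem_filter] at hT
          rw [mem_Icc]
          exact ⟨card_pos.2 (nonempty_iff_ne_empty.2 hT.1), hT.2.2.2⟩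
        rw [← sum_fiberwise_of_maps_to hmaps]
        refine sum_congr rfl (fun i hi => ?_)
        rw [mul_sum, mul_sum, ← sum_filter, filter_filter]
        have h5 : (𝒯.erase ∅).filter (fun T => T.card = i ∧ Pd near I T) = 𝒯i i := by
          ext T
          simp only [𝒯i, mem_filter, mem_erase]
          constructor
          · rintro ⟨⟨_, h⟩, h'⟩; exact ⟨h, h'⟩
          · rintro ⟨h, h'⟩
            refine ⟨⟨?_, h⟩, h'⟩
            rintro rfl
            rw [card_empty] at h'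
            have := (mem_Icc.1 hi).1
            omega
        rw [h5]
        refine sum_congr rfl (fun T hT => ?_)
        rw [(mem_filter.1 hT).2.1]
      refine (abs_sum_le_sum_abs _ _).trans ((sum_le_sum (fun τ _ => h3 τ)).trans ?_)
      rw [sum_comm]
      have h6 : ∀ i ∈ Icc 1 k', ∑ τ, dα α * ((2 * (Fintype.card A : ℝ)) ^ i *
            ∑ T ∈ 𝒯i i, n1 (Fb 𝒜 I b τ) T * n1 (gα α) (T.image τ)) ≤
          dα α * (3 * y ^ i * (Z * (1 + aα α))) := by
        intro i hi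
        rw [← mul_sum, ← mul_sum]
        exact mul_le_mul_of_nonneg_left (hlev α i hi) (hd0 α)
      refine (sum_le_sum h6).trans ?_
      rw [← mul_sum, ← sum_mul, ← mul_sum]
      refine mul_le_mul_of_nonneg_left ?_ (hd0 α)
      have h7 := geom_le hy0 (by linarith) 1 k'
      rw [pow_one] at h7
      have ha := ha0 α
      refine mul_le_mul_of_nonneg_right (by linarith) (by positivity)
    rw [sum_congr rfl (fun τ _ => h1 τ), sum_add_distrib, ← mul_sum, ← hZ]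
    have h3 := (abs_le.1 h2).1
    nlinarith
  -- assemble
  have hfin : ∑ τ, avg (fun w => In 𝒜 τ w * ∑ T ∈ 𝒯, avg (fun x =>
      dl P I T (ax 𝔞 w (x ∘ τ)) * g x)) =
      κ * avg (fun α => ∑ τ, ∑ T ∈ 𝒯, EE P 𝔞 𝒜 I τ₀ b g τ α T) := by
    rw [sum_congr rfl (fun τ _ => main_eq P 𝔞 h𝒜 g 𝒯 τ), ← mul_sum, avg_sum]
  rw [hfin]
  set X0 := avg (fun α => dα α * aα α) with hX0
  have hX00 : 0 ≤ X0 := avg_nonneg (fun α => mul_nonneg (hd0 α) (ha0 α))
  have h1 : avg (fun α => dα α * (aα α * Z) - dα α * (6 * y * (Z * (1 + aα α)))) =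
      Z * X0 - 6 * y * Z * (1 + X0) := by
    have e1 : (fun α => dα α * (aα α * Z) - dα α * (6 * y * (Z * (1 + aα α)))) =
        fun α => (Z - 6 * y * Z) * (dα α * aα α) + (-(6 * y * Z)) * dα α := by
      funext α; ring
    rw [e1, avg_add, avg_const_mul, avg_const_mul]
    have : avg (fun α => dα α) = 1 := hd1
    rw [this]; ring
  have h2 := avg_mono hα
  rw [h1] at h2
  have h3 : -(6 * y) * Z ≤ Z * X0 - 6 * y * Z * (1 + X0) := by
    have : 0 ≤ Z * X0 * (1 - 6 * y) := mul_nonneg (mul_nonneg hZ0 hX00) (by linarith)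
    nlinarith
  calc -(6 * y) * (κ * Z) = κ * (-(6 * y) * Z) := by ring
    _ ≤ κ * (Z * X0 - 6 * y * Z * (1 + X0)) := mul_le_mul_of_nonneg_left h3 hκ0.le
    _ ≤ _ := mul_le_mul_of_nonneg_left h2 hκ0.le

end

end Pool.Agent.Lib.MP_8d8c46_lc.EL
end

section

/-!
Selection of a spread part of a set of relabellings, and the tail bound.
-/

set_option autoImplicit false
set_option linter.unusedSectionVars false

open scoped Classical
open Finset

namespace Pool.Agent.Lib.MP_8d8c46_lc.EL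

section
variable {U Γ : Type} [Fintype U] [Fintype Γ] [Nonempty Γ]

/-- the functions with prescribed values on `I` -/
lemma card_fun_fixed (I : Finset U) (b : U → Γ) :
    (univ.filter (fun w : U → Γ => ∀ u ∈ I, w u = b u)).card ≤
      Fintype.card Γ ^ (Fintype.card U - I.card) := by
  have h1 : Fintype.card ({u : U // u ∉ I} → Γ) = Fintype.card Γ ^ (Fintype.card U - I.card) := by
    rw [Fintype.card_fun, Fintype.card_subtype_compl, Fintype.card_coe]
  rw [← h1, ← card_univ]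
  refine card_le_card_of_injOn (fun w u => w u) (fun _ _ => mem_coe.2 (mem_univ _)) ?_
  intro w hw w' hw' h
  simp only [coe_filter, mem_univ, true_and, Set.mem_ofPred_eq] at hw hw'
  funext u
  by_cases hu : u ∈ I
  · rw [hw u hu, hw' u hu]
  · exact congrFun h ⟨u, hu⟩

lemma kap_card (I : Finset U) (b : U → Γ) : (Fintype.card (U → Γ) : ℝ) * kap I b ≤
    (Fintype.card Γ : ℝ) ^ (Fintype.card U - I.card) := by
  unfold kap
  rw [card_mul_avg, sum_boole]
  exact_mod_cast card_fun_fixed I b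

/-- The selection. -/
theorem exists_spread {D l : ℕ} (hn : 2 * (D + l) ≤ Fintype.card U) (hU : 0 < Fintype.card U)
    {𝒜₀ : Finset (Equiv.Perm U × (U → Γ))} (h0 : 𝒜₀.Nonempty)
    (hD : (Fintype.card (Equiv.Perm U × (U → Γ)) : ℝ) ≤ 2 ^ D * 𝒜₀.card) :
    ∃ (𝒜 : Finset (Equiv.Perm U × (U → Γ))) (I : Finset U) (τ₀ : Equiv.Perm U) (b : U → Γ),
      𝒜 ⊆ 𝒜₀ ∧ (∀ ω ∈ 𝒜, ∀ u ∈ I, ω.1 u = τ₀ u ∧ ω.2 u = b u) ∧ I.card ≤ D ∧
      ((Fintype.card (Equiv.Perm U × (U → Γ)) : ℝ) ≤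
        2 ^ D * (Fintype.card U * Fintype.card Γ / 4) ^ I.card * 𝒜.card) ∧
      (∀ T : Finset U, T.card ≤ l → Disjoint T I → ∀ a : U → U,
        ((𝒜.filter (fun ω => ∀ u ∈ T, ω.1 u = a u)).card : ℝ) ≤
          (4 / Fintype.card U) ^ T.card * 𝒜.card) ∧
      ((univ.filter (fun τ : Equiv.Perm U => ∀ u ∈ I, τ u = τ₀ u)).card : ℝ) ≤
        2 ^ D * ∑ τ, zz 𝒜 I b τ := by
  set n := Fintype.card U with hndef
  have hnR : (0 : ℝ) < n := by exact_mod_cast hU
  have hΓ := card_A_pos (A := Γ)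
  set θ : ℝ := n * Fintype.card Γ / 4 with hθ
  have hθ0 : 0 < θ := by rw [hθ]; positivity
  let cyl : Finset U × (U → U) × (U → Γ) → Finset (Equiv.Perm U × (U → Γ)) := fun t =>
    𝒜₀.filter (fun ω => ∀ u ∈ t.1, ω.1 u = t.2.1 u ∧ ω.2 u = t.2.2 u)
  set F := (univ : Finset (Finset U × (U → U) × (U → Γ))).filter (fun t => 2 * t.1.card ≤ n)
    with hF
  obtain ⟨b₀⟩ : Nonempty (U → Γ) := inferInstance
  have hFne : F.Nonempty := ⟨(∅, id, b₀), by rw [hF, mem_filter]; simp⟩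
  obtain ⟨t, ht, hmax⟩ := exists_max_image F (fun t => ((cyl t).card : ℝ) * θ ^ t.1.card) hFne
  obtain ⟨I, a, b⟩ := t
  rw [hF, mem_filter] at ht
  have hI2 : 2 * I.card ≤ n := ht.2
  set 𝒜 := cyl (I, a, b) with h𝒜
  set m := I.card with hm
  have hbig : (𝒜₀.card : ℝ) ≤ (𝒜.card : ℝ) * θ ^ m := by
    have h1 := hmax (∅, id, b₀) (by rw [hF, mem_filter]; simp)
    have h2 : cyl (∅, id, b₀) = 𝒜₀ := by simp [cyl]
    simp only [h2, card_empty, pow_zero, mul_one] at h1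
    exact h1
  have h𝒜₀ : (0 : ℝ) < 𝒜₀.card := by exact_mod_cast h0.card_pos
  have h𝒜pos : (0 : ℝ) < 𝒜.card := by
    by_contra hcon
    have : (𝒜.card : ℝ) = 0 := le_antisymm (not_lt.1 hcon) (Nat.cast_nonneg _)
    rw [this, zero_mul] at hbig
    linarith
  have h𝒜ne : 𝒜.Nonempty := card_pos.1 (by exact_mod_cast h𝒜pos)
  obtain ⟨ω₀, hω₀⟩ := h𝒜ne
  set τ₀ := ω₀.1 with hτ₀
  have hmem : ∀ ω ∈ 𝒜, ∀ u ∈ I, ω.1 u = a u ∧ ω.2 u = b u := by
    intro ω hω
    exact (mem_filter.1 hω).2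
  have haτ : ∀ u ∈ I, a u = τ₀ u := fun u hu => ((hmem ω₀ hω₀ u hu).1).symm
  have hmem' : ∀ ω ∈ 𝒜, ∀ u ∈ I, ω.1 u = τ₀ u ∧ ω.2 u = b u := by
    intro ω hω u hu
    have := hmem ω hω u hu
    exact ⟨this.1.trans (haτ u hu), this.2⟩
  have hΩ : (Fintype.card (Equiv.Perm U × (U → Γ)) : ℝ) =
      n.factorial * (Fintype.card Γ : ℝ) ^ n := by
    rw [Fintype.card_prod, Fintype.card_perm, Fintype.card_fun]
    push_cast; rfl
  have hc : (Fintype.card (Equiv.Perm U × (U → Γ)) : ℝ) ≤ 2 ^ D * θ ^ m * 𝒜.card := by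
    calc _ ≤ 2 ^ D * (𝒜₀.card : ℝ) := hD
      _ ≤ 2 ^ D * ((𝒜.card : ℝ) * θ ^ m) := mul_le_mul_of_nonneg_left hbig (by positivity)
      _ = _ := by ring
  have hGn : (Fintype.card Γ : ℝ) ^ n = (Fintype.card Γ : ℝ) ^ m * (Fintype.card Γ : ℝ) ^ (n - m) := by
    rw [← pow_add]; congr 1; omega
  have hΓp : (0 : ℝ) < Fintype.card Γ := by linarith
  -- cardinality of the cylinder
  have hcyl : (𝒜.card : ℝ) ≤ (n - m).factorial * (Fintype.card Γ : ℝ) ^ (n - m) := by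
    have h1 : 𝒜 ⊆ (univ.filter (fun τ : Equiv.Perm U => ∀ u ∈ I, τ u = a u)) ×ˢ
        (univ.filter (fun w : U → Γ => ∀ u ∈ I, w u = b u)) := by
      intro ω hω
      rw [mem_product, mem_filter, mem_filter]
      exact ⟨⟨mem_univ _, fun u hu => (hmem ω hω u hu).1⟩,
        ⟨mem_univ _, fun u hu => (hmem ω hω u hu).2⟩⟩
    have h2 := card_le_card h1
    rw [card_product] at h2
    have h3 := h2.trans (Nat.mul_le_mul (card_perm_fixedU I a) (card_fun_fixed I b))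
    exact_mod_cast h3
  have hfb := fact_bound hI2
  have hnf : (0 : ℝ) < n.factorial := by exact_mod_cast Nat.factorial_pos n
  have hmD : m ≤ D := by
    rw [hΩ, hGn] at hc
    have h1 : (n.factorial : ℝ) * ((Fintype.card Γ : ℝ) ^ m * (Fintype.card Γ : ℝ) ^ (n - m)) ≤
        2 ^ D * θ ^ m * ((n - m).factorial * (Fintype.card Γ : ℝ) ^ (n - m)) :=
      hc.trans (mul_le_mul_of_nonneg_left hcyl (by positivity))
    have h2 : θ ^ m * 4 ^ m = (n : ℝ) ^ m * (Fintype.card Γ : ℝ) ^ m := by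
      rw [← mul_pow, ← mul_pow]; congr 1; rw [hθ]; ring
    have hq : (0 : ℝ) < (Fintype.card Γ : ℝ) ^ m * (Fintype.card Γ : ℝ) ^ (n - m) := by positivity
    have h3 : (n.factorial : ℝ) * 4 ^ m ≤ 2 ^ D * (2 ^ m * n.factorial) := by
      refine le_of_mul_le_mul_right ?_ hq
      calc (n.factorial : ℝ) * 4 ^ m * ((Fintype.card Γ : ℝ) ^ m * (Fintype.card Γ : ℝ) ^ (n - m))
          = 4 ^ m * ((n.factorial : ℝ) * ((Fintype.card Γ : ℝ) ^ m *
              (Fintype.card Γ : ℝ) ^ (n - m))) := by ring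
        _ ≤ 4 ^ m * (2 ^ D * θ ^ m * ((n - m).factorial * (Fintype.card Γ : ℝ) ^ (n - m))) :=
            mul_le_mul_of_nonneg_left h1 (by positivity)
        _ = 2 ^ D * (((n - m).factorial : ℝ) * (n : ℝ) ^ m) *
              ((Fintype.card Γ : ℝ) ^ m * (Fintype.card Γ : ℝ) ^ (n - m)) := by
            have : 4 ^ m * (2 ^ D * θ ^ m * ((n - m).factorial * (Fintype.card Γ : ℝ) ^ (n - m))) =
              2 ^ D * (θ ^ m * 4 ^ m) * ((n - m).factorial * (Fintype.card Γ : ℝ) ^ (n - m)) := by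
              ring
            rw [this, h2]; ring
        _ ≤ 2 ^ D * (2 ^ m * n.factorial) *
              ((Fintype.card Γ : ℝ) ^ m * (Fintype.card Γ : ℝ) ^ (n - m)) := by
            refine mul_le_mul_of_nonneg_right ?_ hq.le
            exact mul_le_mul_of_nonneg_left hfb (by positivity)
    have h4 : (2 : ℝ) ^ m ≤ 2 ^ D := by
      have e : (4 : ℝ) ^ m = 2 ^ m * 2 ^ m := by rw [← mul_pow]; norm_num
      rw [e] at h3
      have hq2 : (0 : ℝ) < 2 ^ m * n.factorial := by positivity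
      refine le_of_mul_le_mul_right ?_ hq2
      calc (2 : ℝ) ^ m * (2 ^ m * n.factorial) = n.factorial * (2 ^ m * 2 ^ m) := by ring
        _ ≤ _ := h3
    exact (Nat.pow_le_pow_iff_right (by norm_num : 1 < 2)).1 (by exact_mod_cast h4)
  refine ⟨𝒜, I, τ₀, b, filter_subset _ _, hmem', hmD, hc, ?_, ?_⟩
  · -- spreadness
    intro T hT hTI a'
    have hTI' : Disjoint I T := hTI.symm
    have hfib : ∀ ω ∈ 𝒜.filter (fun ω => ∀ u ∈ T, ω.1 u = a' u),
        (fun (ω : Equiv.Perm U × (U → Γ)) (u : T) => ω.2 u) ω ∈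
          ((univ : Finset (T → Γ)) : Set (T → Γ)) := fun _ _ => mem_coe.2 (mem_univ _)
    have h1 := card_eq_sum_card_fiberwise hfib
    have h2 : ∀ β ∈ (univ : Finset (T → Γ)),
        (((𝒜.filter (fun ω => ∀ u ∈ T, ω.1 u = a' u)).filter
          (fun ω => (fun u : T => ω.2 u) = β)).card : ℝ) ≤ 𝒜.card / θ ^ T.card := by
      intro β _
      rw [le_div_iff₀ (by positivity)]
      let a'' : U → U := fun u => if u ∈ T then a' u else a u
      let b'' : U → Γ := fun u => if h : u ∈ T then β ⟨u, h⟩ else b u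
      have h3 := hmax (I ∪ T, a'', b'') (by
        rw [hF, mem_filter]
        refine ⟨mem_univ _, ?_⟩
        have := card_union_le I T
        simp only
        omega)
      have h4 : (I ∪ T).card = I.card + T.card := card_union_of_disjoint hTI'
      have h5 : (𝒜.filter (fun ω => ∀ u ∈ T, ω.1 u = a' u)).filter
          (fun ω => (fun u : T => ω.2 u) = β) ⊆ cyl (I ∪ T, a'', b'') := by
        intro ω hω
        rw [mem_filter, mem_filter] at hω
        obtain ⟨⟨hω1, hω2⟩, hω3⟩ := hω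
        refine mem_filter.2 ⟨(mem_filter.1 hω1).1, fun u hu => ?_⟩
        simp only [a'', b'']
        by_cases huT : u ∈ T
        · rw [if_pos huT, dif_pos huT]
          exact ⟨hω2 u huT, congrFun hω3 ⟨u, huT⟩⟩
        · rw [if_neg huT, dif_neg huT]
          rw [mem_union] at hu
          exact hmem ω hω1 u (hu.resolve_right huT)
      have h6 : (((𝒜.filter (fun ω => ∀ u ∈ T, ω.1 u = a' u)).filter
          (fun ω => (fun u : T => ω.2 u) = β)).card : ℝ) ≤ ((cyl (I ∪ T, a'', b'')).card : ℝ) := by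
        exact_mod_cast card_le_card h5
      simp only [h4, pow_add] at h3
      have hθm : 0 < θ ^ I.card := by positivity
      refine le_of_mul_le_mul_right ?_ hθm
      calc (((𝒜.filter (fun ω => ∀ u ∈ T, ω.1 u = a' u)).filter
          (fun ω => (fun u : T => ω.2 u) = β)).card : ℝ) * θ ^ T.card * θ ^ I.card
          ≤ ((cyl (I ∪ T, a'', b'')).card : ℝ) * θ ^ T.card * θ ^ I.card := by gcongr
        _ = ((cyl (I ∪ T, a'', b'')).card : ℝ) * (θ ^ I.card * θ ^ T.card) := by ring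
        _ ≤ (𝒜.card : ℝ) * θ ^ I.card := h3
    have h3 : ((𝒜.filter (fun ω => ∀ u ∈ T, ω.1 u = a' u)).card : ℝ) ≤
        (Fintype.card Γ : ℝ) ^ T.card * (𝒜.card / θ ^ T.card) := by
      rw [h1]
      push_cast
      refine (sum_le_card_nsmul _ _ _ h2).trans (le_of_eq ?_)
      rw [card_univ, Fintype.card_fun, Fintype.card_coe, nsmul_eq_mul]
      push_cast; ring
    refine h3.trans (le_of_eq ?_)
    have h4 : (4 / (n : ℝ)) ^ T.card = (Fintype.card Γ : ℝ) ^ T.card / θ ^ T.card := by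
      rw [← div_pow]; congr 1; rw [hθ]; field_simp
    rw [h4]; ring
  · -- the number of permutations
    have h1 : ((univ.filter (fun τ : Equiv.Perm U => ∀ u ∈ I, τ u = τ₀ u)).card : ℝ) ≤
        (n - m).factorial := by exact_mod_cast card_perm_fixedU I τ₀
    refine h1.trans ?_
    set Z := ∑ τ, zz 𝒜 I b τ with hZ
    have hZ0 : 0 ≤ Z := sum_nonneg (fun τ _ => zz_nonneg τ)
    have h2 : (𝒜.card : ℝ) ≤ (Fintype.card Γ : ℝ) ^ (n - m) * Z := by
      rw [← sum_zz_univ hmem']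
      exact mul_le_mul_of_nonneg_right (kap_card I b) hZ0
    rw [hΩ, hGn] at hc
    have h3 : (n.factorial : ℝ) * ((Fintype.card Γ : ℝ) ^ m * (Fintype.card Γ : ℝ) ^ (n - m)) ≤
        2 ^ D * θ ^ m * ((Fintype.card Γ : ℝ) ^ (n - m) * Z) :=
      hc.trans (mul_le_mul_of_nonneg_left h2 (by positivity))
    have h4 : θ ^ m * 4 ^ m = (n : ℝ) ^ m * (Fintype.card Γ : ℝ) ^ m := by
      rw [← mul_pow, ← mul_pow]; congr 1; rw [hθ]; ring
    have hq : (0 : ℝ) < (Fintype.card Γ : ℝ) ^ m * (Fintype.card Γ : ℝ) ^ (n - m) := by positivity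
    have h5 : (n.factorial : ℝ) * 4 ^ m ≤ 2 ^ D * (n : ℝ) ^ m * Z := by
      refine le_of_mul_le_mul_right ?_ hq
      calc (n.factorial : ℝ) * 4 ^ m * ((Fintype.card Γ : ℝ) ^ m * (Fintype.card Γ : ℝ) ^ (n - m))
          = 4 ^ m * ((n.factorial : ℝ) * ((Fintype.card Γ : ℝ) ^ m *
              (Fintype.card Γ : ℝ) ^ (n - m))) := by ring
        _ ≤ 4 ^ m * (2 ^ D * θ ^ m * ((Fintype.card Γ : ℝ) ^ (n - m) * Z)) :=
            mul_le_mul_of_nonneg_left h3 (by positivity)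
        _ = 2 ^ D * (θ ^ m * 4 ^ m) * ((Fintype.card Γ : ℝ) ^ (n - m) * Z) := by ring
        _ = _ := by rw [h4]; ring
    have hnm : (0 : ℝ) < (n : ℝ) ^ m := by positivity
    refine le_of_mul_le_mul_right ?_ hnm
    calc ((n - m).factorial : ℝ) * (n : ℝ) ^ m ≤ 2 ^ m * n.factorial := hfb
      _ ≤ 4 ^ m * n.factorial := by
          refine mul_le_mul_of_nonneg_right ?_ hnf.le
          exact pow_le_pow_left₀ (by norm_num) (by norm_num) _
      _ = n.factorial * 4 ^ m := by ring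
      _ ≤ 2 ^ D * (n : ℝ) ^ m * Z := h5
      _ = 2 ^ D * Z * (n : ℝ) ^ m := by ring

end

end Pool.Agent.Lib.MP_8d8c46_lc.EL
end
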