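import Pool.Agent.Lib.MP_8d8c46_lc.MC.DPart
import Pool.Agent.Lib.MP_8d8c46_lc.Mg.G019
import Pool.Agent.Lib.MP_8d8c46_lc.MC.DOne
import Pool.Agent.Lib.MP_8d8c46_lc.Mg.G011
import Pool.Agent.Lib.MP_8d8c46_lc.Mg.G010
import Pool.Agent.Lib.MP_8d8c46_lc.MC.DR
import Pool.Agent.Lib.MP_8d8c46_lc.MC.DInd

section

/-! T11 : P01, P02, P03 -/

set_option autoImplicit false
set_option linter.unusedSectionVars false

open scoped Classical
open Finset

namespace Pool.Agent.Lib.MP_8d8c46_lc.MC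


section
variable {N q : ℕ} [NeZero q]

private lemma t11_card_eq {α : Type} {p : α → Prop} (i1 i2 : Fintype α)
    (d1 d2 : DecidablePred p) :
    (@Finset.filter α p d1 (@Finset.univ α i1)).card =
      (@Finset.filter α p d2 (@Finset.univ α i2)).card := by
  have e1 : i1 = i2 := Subsingleton.elim _ _
  have e2 : d1 = d2 := Subsingleton.elim _ _
  subst e1
  subst e2
  rfl

private lemma t11_perm (I : Finset (Fin N)) (a : Fin N → Fin N) :
    (univ.filter (fun τ : Equiv.Perm (Fin N) => ∀ u ∈ I, τ u = a u)).card ≤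
      (N - I.card).factorial := by
  have h := EL.card_perm_fixedU I a
  rw [Fintype.card_fin] at h
  exact (t11_card_eq _ _ _ _).le.trans h

private lemma t11_fun (I : Finset (Fin N)) (c : Fin N → ZMod q) :
    (univ.filter (fun w : Fin N → ZMod q => ∀ u ∈ I, w u = c u)).card ≤ q ^ (N - I.card) := by
  have h := EL.card_fun_fixed (Γ := ZMod q) I c
  rw [Fintype.card_fin, ZMod.card] at h
  exact (t11_card_eq _ _ _ _).le.trans h

private lemma t11_cyl (I : Finset (Fin N)) (a : Fin N → Fin N) (c : Fin N → ZMod q) :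
    ((univ.filter (fun ω : LP N q => ∀ u ∈ I, ω.1 u = a u ∧ ω.2 u = c u)).card : ℝ) ≤
      fr N q I.card := by
  have h1 : univ.filter (fun ω : LP N q => ∀ u ∈ I, ω.1 u = a u ∧ ω.2 u = c u) ⊆
      univ.filter (fun τ : Equiv.Perm (Fin N) => ∀ u ∈ I, τ u = a u) ×ˢ
        univ.filter (fun w : Fin N → ZMod q => ∀ u ∈ I, w u = c u) := by
    intro ω hω
    have hω' := (mem_filter.mp hω).2
    rw [mem_product, mem_filter, mem_filter]
    exact ⟨⟨mem_univ _, fun u hu => (hω' u hu).1⟩, ⟨mem_univ _, fun u hu => (hω' u hu).2⟩⟩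
  have h2 := card_le_card h1
  rw [card_product] at h2
  have h3 := h2.trans (Nat.mul_le_mul (t11_perm I a) (t11_fun I c))
  unfold fr
  exact_mod_cast h3

/-- P01.
R empty: trivial. Else fix ω₀ ∈ R: R ⊆ {τ = τ₀ on I} × {w = w₀ on I}; `card_perm_fixedU` (EL/Core1) and `card_fun_fixed` (EL/Core5; import it or reprove). -/
theorem card_le_fr {R : Finset (LP N q)} {I : Finset (Fin N)} (h : Agr R I) :
    (R.card : ℝ) ≤ fr N q I.card := by
  rcases R.eq_empty_or_nonempty with hR | ⟨ω₀, hω₀⟩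
  · rw [hR, card_empty, Nat.cast_zero]
    unfold fr
    positivity
  · refine le_trans ?_ (t11_cyl I (fun u => ω₀.1 u) (fun u => ω₀.2 u))
    have h1 : R ⊆ univ.filter (fun ω : LP N q => ∀ u ∈ I, ω.1 u = ω₀.1 u ∧ ω.2 u = ω₀.2 u) := by
      intro ω hω
      exact mem_filter.mpr ⟨mem_univ _, fun u hu => h ω hω ω₀ hω₀ u hu⟩
    exact_mod_cast card_le_card h1

/-- P02.
γ^|I| ≤ γ^|I| fr / |R| as fr / |R| ≥ 1 by P01. -/
theorem zt_ge {γ : ℝ} (hγ : 1 ≤ γ) {R : Finset (LP N q)} {I : Finset (Fin N)} (h : Agr R I)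
    (hR : R.Nonempty) : √(γ ^ I.card) ≤ zt γ R I := by
  have hRc : (0 : ℝ) < R.card := by exact_mod_cast card_pos.mpr hR
  unfold zt
  refine Real.sqrt_le_sqrt ?_
  rw [le_div_iff₀ hRc]
  exact mul_le_mul_of_nonneg_left (card_le_fr h) (by positivity)

/-- P03.
cyl ⊆ {τ = a on T} × {w = c on T}, card ≤ (N-|T|)! q^(N-|T|) (card_perm_fixedU, card_fun_fixed); |univ| = N! q^N; γ^|T| ≥ 1. -/
theorem spr_univ {γ : ℝ} (hγ : 1 ≤ γ) : Spr γ (univ : Finset (LP N q)) ∅ := by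
  intro T _ a c
  have hT : T.card ≤ N := by
    have := card_le_univ T
    rwa [Fintype.card_fin] at this
  have h1 : ((cyl (univ : Finset (LP N q)) T a c).card : ℝ) ≤ fr N q T.card := t11_cyl T a c
  have h2 : ((univ : Finset (LP N q)).card : ℝ) = (N.factorial : ℝ) * (q : ℝ) ^ N := by
    rw [card_univ, Fintype.card_prod, Fintype.card_perm, Fintype.card_fun, Fintype.card_fin,
      ZMod.card]
    push_cast
    rfl
  have h3 : (q : ℝ) ^ N = (q : ℝ) ^ (N - T.card) * (q : ℝ) ^ T.card := by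
    rw [← pow_add, Nat.sub_add_cancel hT]
  rw [h2, card_empty, Nat.sub_zero, h3]
  have h4 : (1 : ℝ) ≤ γ ^ T.card := one_le_pow₀ hγ
  unfold fr at h1
  calc ((cyl (univ : Finset (LP N q)) T a c).card : ℝ) * ((N.factorial : ℝ) * (q : ℝ) ^ T.card)
      ≤ (((N - T.card).factorial : ℝ) * (q : ℝ) ^ (N - T.card)) *
          ((N.factorial : ℝ) * (q : ℝ) ^ T.card) :=
        mul_le_mul_of_nonneg_right h1 (by positivity)
    _ = 1 * ((N.factorial : ℝ) * ((q : ℝ) ^ (N - T.card) * (q : ℝ) ^ T.card) *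
          ((N - T.card).factorial : ℝ)) := by ring
    _ ≤ γ ^ T.card * ((N.factorial : ℝ) * ((q : ℝ) ^ (N - T.card) * (q : ℝ) ^ T.card) *
          ((N - T.card).factorial : ℝ)) :=
        mul_le_mul_of_nonneg_right h4 (by positivity)

end

end Pool.Agent.Lib.MP_8d8c46_lc.MC
end

section

/-! T19 : O04 -/

set_option autoImplicit false
set_option linter.unusedSectionVars false

open scoped Classical
open Finset

namespace Pool.Agent.Lib.MP_8d8c46_lc.MC

open Pool.Agent.Lib.MP_8d8c46_lc.EL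

section
variable {N q : ℕ} [NeZero q]

private theorem t19_sum_ka (σ : ℝ) (a b : ZMod q) : ∑ c : ZMod q, ka σ (c - a + b) = q := by
  have h1 : ∑ c : ZMod q, ka σ (c - a + b) = ∑ c : ZMod q, ka σ c := by
    rw [← Equiv.sum_comp (Equiv.addRight (-a + b)) (fun c => ka σ c)]
    refine sum_congr rfl fun c _ => ?_
    congr 1
    simp only [Equiv.coe_addRight]
    ring
  have h2 := card_mul_avg (fun z : ZMod q => ka σ z)
  rw [avg_ka, mul_one, ZMod.card] at h2
  rw [h1, ← h2]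

/-- O04.
Fix ω₀ ∈ R. R ⊆ {τ = τ₀ on I} × {w = b on I}; the sum over all such (τ, w) of Π_{u∉I} ka(w u - xr(τ u) + xl u) is Σ_τ Π_{u∉I} Σ_{c} ka(c - ...) = #{τ} q^(N-|I|) ≤ fr (sum over w with w = b on I of a product over univ \ I: Finset.prod_univ_sum / piFinset; Σ_c ka(c - s) = q by K04). -/
theorem gg_le {σ : ℝ} (h0 : 0 ≤ σ) (h1 : σ ≤ 1) {R : Finset (LP N q)} {I : Finset (Fin N)}
    (hR : R.Nonempty) (h : Agr R I) (xl xr : Fin N → ZMod q) :
    gg σ R I xl xr ≤ fr N q I.card / R.card := by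
  obtain ⟨ω₀, hω₀⟩ := hR
  unfold gg
  refine div_le_div_of_nonneg_right ?_ (Nat.cast_nonneg _)
  set P : Finset (Equiv.Perm (Fin N)) := univ.filter (fun τ => ∀ u ∈ I, τ u = ω₀.1 u) with hP
  set W : Finset (Fin N → ZMod q) :=
    Fintype.piFinset (fun u => if u ∈ I then {ω₀.2 u} else univ) with hW
  have hsub : R ⊆ P ×ˢ W := by
    intro ω hω
    rw [mem_product]
    refine ⟨?_, ?_⟩
    · rw [hP, mem_filter]
      exact ⟨mem_univ _, fun u hu => (h ω hω ω₀ hω₀ u hu).1⟩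
    · rw [hW, Fintype.mem_piFinset]
      intro u
      split_ifs with hu
      · rw [mem_singleton]; exact (h ω hω ω₀ hω₀ u hu).2
      · exact mem_univ _
  have hW2 : ∀ τ : Equiv.Perm (Fin N), ∑ w ∈ W, ∏ u ∈ univ \ I, ka σ (w u - xr (τ u) + xl u) =
      (q : ℝ) ^ (N - I.card) := by
    intro τ
    have e1 : ∀ w : Fin N → ZMod q, ∏ u ∈ univ \ I, ka σ (w u - xr (τ u) + xl u) =
        ∏ u, (if u ∈ univ \ I then ka σ (w u - xr (τ u) + xl u) else 1) := by
      intro w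
      rw [prod_ite_mem, univ_inter]
    simp only [e1]
    rw [hW, ← prod_univ_sum (fun u => if u ∈ I then {ω₀.2 u} else univ)
      (fun u c => if u ∈ univ \ I then ka σ (c - xr (τ u) + xl u) else 1)]
    have e2 : ∀ u : Fin N, ∑ c ∈ (if u ∈ I then {ω₀.2 u} else univ),
        (if u ∈ univ \ I then ka σ (c - xr (τ u) + xl u) else 1) =
        if u ∈ univ \ I then (q : ℝ) else 1 := by
      intro u
      by_cases hu : u ∈ I
      · simp [hu]
      · have hu' : u ∈ univ \ I := by simp [hu]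
        simp only [if_neg hu, if_pos hu']
        exact t19_sum_ka σ _ _
    simp only [e2]
    rw [prod_ite_mem, univ_inter, prod_const, card_sdiff_of_subset (subset_univ _), card_univ,
      Fintype.card_fin]
  have hPc : (P.card : ℝ) ≤ ((N - I.card).factorial : ℝ) := by
    have := card_perm_fixedU I (ω₀.1 : Fin N → Fin N)
    rw [Fintype.card_fin] at this
    refine le_trans (le_of_eq ?_) (Nat.cast_le.2 this)
    rw [hP]
    congr 2
    ext τ
    simp only [mem_filter]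
    have hu : ∀ i : Fintype (Equiv.Perm (Fin N)), τ ∈ (@univ _ i) := fun i => mem_univ τ
    exact ⟨fun h => ⟨hu _, h.2⟩, fun h => ⟨hu _, h.2⟩⟩
  calc ∑ ω ∈ R, ∏ u ∈ univ \ I, ka σ (ω.2 u - xr (ω.1 u) + xl u)
      ≤ ∑ ω ∈ P ×ˢ W, ∏ u ∈ univ \ I, ka σ (ω.2 u - xr (ω.1 u) + xl u) :=
        sum_le_sum_of_subset_of_nonneg hsub fun ω _ _ => prod_nonneg fun u _ => ka_nonneg h0 h1 _
    _ = ∑ τ ∈ P, ∑ w ∈ W, ∏ u ∈ univ \ I, ka σ (w u - xr (τ u) + xl u) := by
        rw [sum_product]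
    _ = P.card * (q : ℝ) ^ (N - I.card) := by
        simp only [hW2]
        rw [sum_const, nsmul_eq_mul]
    _ ≤ ((N - I.card).factorial : ℝ) * (q : ℝ) ^ (N - I.card) :=
        mul_le_mul_of_nonneg_right hPc (by positivity)

end

end Pool.Agent.Lib.MP_8d8c46_lc.MC
end

section

/-! T23 : O09 -/

set_option autoImplicit false
set_option linter.unusedSectionVars false

open scoped Classical
open Finset

namespace Pool.Agent.Lib.MP_8d8c46_lc.MC

open Pool.Agent.Lib.MP_8d8c46_lc.EL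

section

variable {q : ℕ} [NeZero q] {U : Type} [Fintype U]

private lemma t23_cs {ι : Type} (s : Finset ι) (z e : ι → ℝ) (hz : ∀ i ∈ s, 0 ≤ z i)
    (h0 : ∀ i ∈ s, z i = 0 → e i = 0) :
    (∑ i ∈ s, e i) ^ 2 ≤ (∑ i ∈ s, z i) * ∑ i ∈ s, e i ^ 2 / z i := by
  have h1 : ∑ i ∈ s, e i = ∑ i ∈ s, √(z i) * (e i / √(z i)) := by
    apply sum_congr rfl
    intro i hi
    by_cases h : z i = 0
    · rw [h0 i hi h]; simp
    · have : √(z i) ≠ 0 := by
        rw [Real.sqrt_ne_zero (hz i hi)]; exact h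
      field_simp
  rw [h1]
  refine (sum_mul_sq_le_sq_mul_sq _ _ _).trans (le_of_eq ?_)
  congr 1
  · apply sum_congr rfl
    intro i hi
    exact Real.sq_sqrt (hz i hi)
  · apply sum_congr rfl
    intro i hi
    rw [div_pow, Real.sq_sqrt (hz i hi)]

private lemma t23_es_zero (J : Finset U) (y : U → ZMod q) :
    es (fun _ : U → ZMod q => (0 : ℝ)) J y = 0 := by
  unfold es cd
  refine sum_eq_zero (fun S _ => ?_)
  rw [avg_const, mul_zero]

private lemma t23_core {R : Finset (Equiv.Perm U × (U → ZMod q))} {I : Finset U}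
    (hR : R.Nonempty) (τ₀ : Equiv.Perm U) (b : U → ZMod q)
    (hA : ∀ ω ∈ R, ∀ u ∈ I, ω.1 u = τ₀ u ∧ ω.2 u = b u)
    {T : Finset (U × U)} (hTI : ∀ p ∈ T, p.1 ∉ I) {P : ℝ}
    (hP : ((R.filter (fun ω => ∀ p ∈ T, ω.1 p.1 = p.2)).card : ℝ) ≤ P * R.card) :
    avg (fun y : U → ZMod q => ((∑ ω ∈ R.filter (fun ω => ∀ p ∈ T, ω.1 p.1 = p.2),
      ∏ u ∈ T.image Prod.fst, th (ω.2 u - y u)) / R.card) ^ 2) * ∑ τ, zz R I b τ ≤
      P * ∑ τ ∈ univ.filter (fun τ : Equiv.Perm U => ∀ p ∈ T, τ p.1 = p.2),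
        nr (Fb R I b τ) (T.image Prod.fst) / zz R I b τ := by
  set J := T.image Prod.fst with hJ
  set 𝒬 := univ.filter (fun τ : Equiv.Perm U => ∀ p ∈ T, τ p.1 = p.2) with h𝒬
  set Z := ∑ τ, zz R I b τ with hZ
  set C := (Fintype.card (U → ZMod q) : ℝ) * kap I b with hC
  have hCpos : 0 < C := by
    have : (0 : ℝ) < Fintype.card (U → ZMod q) := by exact_mod_cast Fintype.card_pos
    exact mul_pos this kap_pos
  have hRC : C * Z = R.card := sum_zz_univ hA
  have hRpos : (0 : ℝ) < R.card := by exact_mod_cast hR.card_pos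
  have hZpos : 0 < Z := by
    by_contra hcon
    push Not at hcon
    have : C * Z ≤ 0 := mul_nonpos_of_nonneg_of_nonpos hCpos.le hcon
    linarith
  have hJI : ∀ u ∈ J, u ∉ I := by
    intro u hu
    rw [hJ, mem_image] at hu
    obtain ⟨p, hp, rfl⟩ := hu
    exact hTI p hp
  -- the function of the differences
  set B : (U → ZMod q) → ℝ := fun y =>
    (∑ ω ∈ R.filter (fun ω => ∀ p ∈ T, ω.1 p.1 = p.2), ∏ u ∈ J, th (ω.2 u - y u)) / R.card
    with hB
  have hB1 : ∀ y, B y = (∑ τ ∈ 𝒬, es (Fb R I b τ) J y) / Z := by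
    intro y
    have h1 : ∑ ω ∈ R.filter (fun ω => ∀ p ∈ T, ω.1 p.1 = p.2), ∏ u ∈ J, th (ω.2 u - y u) =
        ∑ τ ∈ 𝒬, ∑ w : U → ZMod q, In R τ w * ∏ u ∈ J, th (w u - y u) := by
      have h2 : ∀ z : Equiv.Perm U × (U → ZMod q),
          In R z.1 z.2 * ∏ u ∈ J, th (z.2 u - y u) =
          if z ∈ R then ∏ u ∈ J, th (z.2 u - y u) else 0 := by
        intro z
        unfold In
        by_cases hz : z ∈ R
        · rw [if_pos hz, if_pos hz, one_mul]
        · rw [if_neg hz, if_neg hz, zero_mul]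
      rw [← sum_product' 𝒬 univ (fun τ w => In R τ w * ∏ u ∈ J, th (w u - y u)),
        sum_congr rfl (fun z _ => h2 z), ← sum_filter]
      apply sum_congr _ (fun _ _ => rfl)
      ext ω
      simp only [mem_filter, mem_product, h𝒬, mem_univ, true_and, and_true]
      tauto
    have h3 : ∀ τ ∈ 𝒬, ∑ w : U → ZMod q, In R τ w * ∏ u ∈ J, th (w u - y u) =
        C * es (Fb R I b τ) J y := by
      intro τ _
      rw [← card_mul_avg, avg_In hA τ (fun w => ∏ u ∈ J, th (w u - y u)), es_kernel, hC,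
        mul_assoc]
      congr 3
      funext w
      congr 1
      apply prod_congr rfl
      intro u hu
      have : mx I b w u = w u := by
        unfold mx; rw [if_neg (hJI u hu)]
      rw [this]
    rw [hB]
    simp only
    rw [h1, sum_congr rfl h3, ← mul_sum, ← hRC, mul_div_mul_left _ _ hCpos.ne']
  have hzQ : ∑ τ ∈ 𝒬, zz R I b τ ≤ P * Z := by
    have h1 := sum_zz hA 𝒬
    have h2 : R.filter (fun ω => ω.1 ∈ 𝒬) = R.filter (fun ω => ∀ p ∈ T, ω.1 p.1 = p.2) := by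
      ext ω
      simp only [mem_filter, h𝒬, mem_univ, true_and]
    rw [h2] at h1
    rw [← h1, ← hRC] at hP
    have h3 : C * ∑ τ ∈ 𝒬, zz R I b τ ≤ C * (P * Z) := by
      calc C * ∑ τ ∈ 𝒬, zz R I b τ ≤ P * (C * Z) := hP
        _ = C * (P * Z) := by ring
    exact le_of_mul_le_mul_left h3 hCpos
  have hterm0 : ∀ y, 0 ≤ ∑ τ ∈ 𝒬, es (Fb R I b τ) J y ^ 2 / zz R I b τ := by
    intro y
    exact sum_nonneg (fun τ _ => div_nonneg (sq_nonneg _) (zz_nonneg τ))
  have hBy : ∀ y, B y ^ 2 * Z ≤ P * ∑ τ ∈ 𝒬, es (Fb R I b τ) J y ^ 2 / zz R I b τ := by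
    intro y
    rw [hB1, div_pow]
    have h1 := t23_cs 𝒬 (fun τ => zz R I b τ) (fun τ => es (Fb R I b τ) J y)
      (fun τ _ => zz_nonneg τ) (by
        intro τ _ hz
        rw [Fb_eq_zero hz]
        exact t23_es_zero J y)
    have h2 : (∑ τ ∈ 𝒬, es (Fb R I b τ) J y) ^ 2 ≤
        (P * Z) * ∑ τ ∈ 𝒬, es (Fb R I b τ) J y ^ 2 / zz R I b τ :=
      h1.trans (mul_le_mul_of_nonneg_right hzQ (hterm0 y))
    have h3 : (∑ τ ∈ 𝒬, es (Fb R I b τ) J y) ^ 2 / Z ^ 2 * Z =
        (∑ τ ∈ 𝒬, es (Fb R I b τ) J y) ^ 2 / Z := by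
      field_simp
    rw [h3, div_le_iff₀ hZpos]
    calc (∑ τ ∈ 𝒬, es (Fb R I b τ) J y) ^ 2 ≤ (P * Z) * ∑ τ ∈ 𝒬, es (Fb R I b τ) J y ^ 2 / zz R I b τ := h2
      _ = P * (∑ τ ∈ 𝒬, es (Fb R I b τ) J y ^ 2 / zz R I b τ) * Z := by ring
  rw [← avg_mul_const]
  calc avg (fun y => B y ^ 2 * Z) ≤
      avg (fun y => P * ∑ τ ∈ 𝒬, es (Fb R I b τ) J y ^ 2 / zz R I b τ) := avg_mono hBy
    _ = P * ∑ τ ∈ 𝒬, nr (Fb R I b τ) J / zz R I b τ := by
        rw [avg_const_mul, avg_sum]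
        congr 1
        apply sum_congr rfl
        intro τ _
        unfold nr
        have : (fun y => es (Fb R I b τ) J y ^ 2 / zz R I b τ) =
            fun y => es (Fb R I b τ) J y ^ 2 * (zz R I b τ)⁻¹ := by
          funext y; rw [div_eq_mul_inv]
        rw [this, avg_mul_const, div_eq_mul_inv]

end

section

variable {N q : ℕ} [NeZero q] {V : Type} [Fintype V]

/-- O09. The norm of one term. -/
theorem norm_hT (S : Sit V N q) {R : Finset (LP N q)} {I : Finset (Fin N)} (hNI : S.NI R I)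
    (hR : R.Nonempty) (τ₀ : Equiv.Perm (Fin N)) (b : Fin N → ZMod q)
    (hA : ∀ ω ∈ R, ∀ u ∈ I, ω.1 u = τ₀ u ∧ ω.2 u = b u)
    {t : ℕ} {T : Finset (Fin N × Fin N)} (hT : T ∈ TT R I t) {P : ℝ}
    (hP : ((R.filter (fun ω => ∀ p ∈ T, ω.1 p.1 = p.2)).card : ℝ) ≤ P * R.card)
    (h : V → ZMod q) :
    avg (fun X => tm R T (S.xl h X) (S.xr h X) ^ 2) * ∑ τ, zz R I b τ ≤
      P * ∑ τ ∈ univ.filter (fun τ : Equiv.Perm (Fin N) => ∀ p ∈ T, τ p.1 = p.2),
        nr (Fb R I b τ) (T.image Prod.fst) / zz R I b τ := by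
  obtain ⟨hinj1, hinj2⟩ := TT_inj hT
  have hTmem := hT
  unfold TT at hTmem
  rw [mem_filter] at hTmem
  obtain ⟨_, hTI, _⟩ := hTmem
  have htm : ∀ X : V → ZMod q, tm R T (S.xl h X) (S.xr h X) =
      (fun y : Fin N → ZMod q => (∑ ω ∈ R.filter (fun ω => ∀ p ∈ T, ω.1 p.1 = p.2),
      ∏ u ∈ T.image Prod.fst, th (ω.2 u - y u)) / (R.card : ℝ))
      (fun u => ∑ p ∈ T.filter (fun p => p.1 = u), (S.xr h X p.2 - S.xl h X p.1)) := by
    intro X
    unfold tm
    simp only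
    congr 1
    apply sum_congr rfl
    intro ω _
    rw [prod_image (fun p hp p' hp' hpp => hinj1 p hp p' hp' hpp)]
    apply prod_congr rfl
    intro p hp
    have h3 : T.filter (fun p' => p'.1 = p.1) = {p} := by
      ext p'
      rw [mem_filter, mem_singleton]
      constructor
      · rintro ⟨ha, hb⟩
        exact hinj1 p' ha p hp hb
      · rintro rfl
        exact ⟨hp, rfl⟩
    rw [h3, sum_singleton]
    congr 1
    ring
  have havg : avg (fun X => tm R T (S.xl h X) (S.xr h X) ^ 2) =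
      avg (fun y : Fin N → ZMod q => ((∑ ω ∈ R.filter (fun ω => ∀ p ∈ T, ω.1 p.1 = p.2),
      ∏ u ∈ T.image Prod.fst, th (ω.2 u - y u)) / (R.card : ℝ)) ^ 2) := by
    rw [← unif S hNI hT h]
    · congr 1; funext X
      rw [htm X]
    · intro y y' hyy
      congr 2
      apply sum_congr rfl
      intro ω _
      apply prod_congr rfl
      intro u hu
      rw [mem_image] at hu
      obtain ⟨p, hp, rfl⟩ := hu
      rw [hyy p hp]
  rw [havg]
  have hcore := t23_core hR τ₀ b hA hTI (P := P) (Eq.mp (by congr <;> first | exact Subsingleton.elim _ _ | (funext τ; congr <;> exact Subsingleton.elim _ _)) hP)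
  exact Eq.mp (by congr <;> first | exact Subsingleton.elim _ _ | (funext τ; congr <;> first | exact Subsingleton.elim _ _ | (funext τ; congr <;> first | exact Subsingleton.elim _ _ | (funext τ; congr <;> exact Subsingleton.elim _ _)))) hcore

end

end Pool.Agent.Lib.MP_8d8c46_lc.MC
end

section

/-! T24 : O10 -/

set_option autoImplicit false
set_option linter.unusedSectionVars false

open scoped Classical
open Finset

namespace Pool.Agent.Lib.MP_8d8c46_lc.MC

open Pool.Agent.Lib.MP_8d8c46_lc.EL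

section
variable {N q : ℕ} [NeZero q] {V : Type} [Fintype V]

/-- O10. The sum of the norms.
Sum O09 over T ∈ TT; exchange: for each τ the map T ↦ T.image fst from {T ∈ TT, T ⊆ graph τ} to powersetCard t (univ \ I) is injective and nr/zz ≥ 0. -/
theorem sum_norm (S : Sit V N q) {R : Finset (LP N q)} {I : Finset (Fin N)} (hNI : S.NI R I)
    (hR : R.Nonempty) (τ₀ : Equiv.Perm (Fin N)) (b : Fin N → ZMod q)
    (hA : ∀ ω ∈ R, ∀ u ∈ I, ω.1 u = τ₀ u ∧ ω.2 u = b u) {t : ℕ} {P : ℝ} (hP0 : 0 ≤ P)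
    (hP : ∀ T ∈ TT R I t,
      ((R.filter (fun ω => ∀ p ∈ T, ω.1 p.1 = p.2)).card : ℝ) ≤ P * R.card)
    (h : V → ZMod q) :
    (∑ T ∈ TT R I t, avg (fun X => tm R T (S.xl h X) (S.xr h X) ^ 2)) *
        ∑ τ, zz R I b τ ≤
      P * ∑ τ : Equiv.Perm (Fin N), (∑ J ∈ powersetCard t (univ \ I), nr (Fb R I b τ) J) /
        zz R I b τ := by
  have h1 : ∀ T ∈ TT R I t, avg (fun X => tm R T (S.xl h X) (S.xr h X) ^ 2) * ∑ τ, zz R I b τ ≤
      P * ∑ τ ∈ univ.filter (fun τ : Equiv.Perm (Fin N) => ∀ p ∈ T, τ p.1 = p.2),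
        nr (Fb R I b τ) (T.image Prod.fst) / zz R I b τ :=
    fun T hT => norm_hT S hNI hR τ₀ b hA hT (hP T hT) h
  rw [sum_mul]
  refine (sum_le_sum h1).trans ?_
  rw [← mul_sum]
  refine mul_le_mul_of_nonneg_left ?_ hP0
  simp_rw [sum_filter]
  rw [sum_comm]
  refine sum_le_sum fun τ _ => ?_
  rw [← sum_filter, ← sum_div]
  refine div_le_div_of_nonneg_right ?_ (zz_nonneg τ)
  have hgr : ∀ T ∈ (TT R I t).filter (fun T => ∀ p ∈ T, τ p.1 = p.2),
      T = (T.image Prod.fst).image (fun u => (u, τ u)) := by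
    intro T hT
    rw [mem_filter] at hT
    rw [image_image]
    ext p
    rw [mem_image]
    constructor
    · intro hp
      refine ⟨p, hp, ?_⟩
      show (p.1, τ p.1) = p
      rw [hT.2 p hp]
    · rintro ⟨p', hp', rfl⟩
      show (p'.1, τ p'.1) ∈ T
      rw [hT.2 p' hp']
      exact hp'
  have hinj : Set.InjOn (fun T : Finset (Fin N × Fin N) => T.image Prod.fst)
      ((TT R I t).filter (fun T => ∀ p ∈ T, τ p.1 = p.2) : Finset _) := by
    intro T hT T' hT' e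
    have e' : T.image Prod.fst = T'.image Prod.fst := e
    rw [hgr T hT, hgr T' hT', e']
  rw [← sum_image (f := fun J => nr (Fb R I b τ) J) hinj]
  refine sum_le_sum_of_subset_of_nonneg ?_ (fun J _ _ => nr_nonneg _ _)
  intro J hJ
  rw [mem_image] at hJ
  obtain ⟨T, hT, rfl⟩ := hJ
  have hT' := (mem_filter.1 hT)
  have hT1 : T.card = t ∧ ∀ p ∈ T, p.1 ∉ I := by
    have h2 := mem_filter.1 hT'.1
    exact ⟨(mem_powersetCard.1 h2.1).2, h2.2.1⟩
  rw [mem_powersetCard]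
  refine ⟨?_, ?_⟩
  · intro u hu
    obtain ⟨p, hp, rfl⟩ := mem_image.1 hu
    exact mem_sdiff.2 ⟨mem_univ _, hT1.2 p hp⟩
  · rw [card_image_of_injOn, hT1.1]
    intro p hp p' hp' e
    have e1 : p.1 = p'.1 := e
    refine Prod.ext e1 ?_
    rw [← hT'.2 p hp, ← hT'.2 p' hp', e1]

end

end Pool.Agent.Lib.MP_8d8c46_lc.MC
end

section

/-! T29 : Q02, Q03 -/

set_option autoImplicit false
set_option linter.unusedSectionVars false

open scoped Classical
open Finset

namespace Pool.Agent.Lib.MP_8d8c46_lc.MC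

open Pool.Agent.Lib.MP_8d8c46_lc.EL

section
variable {q : ℕ} [NeZero q] {U : Type} [Fintype U]

private lemma t29_zz {R : Finset (Equiv.Perm U × (U → ZMod q))} {I : Finset U}
    (τ₀ : Equiv.Perm U) (b : U → ZMod q)
    (hA : ∀ ω ∈ R, ∀ u ∈ I, ω.1 u = τ₀ u ∧ ω.2 u = b u) :
    (R.card : ℝ) ≤ (q : ℝ) ^ (Fintype.card U - I.card) * ∑ τ, zz R I b τ := by
  rw [← sum_zz_univ hA]
  apply mul_le_mul_of_nonneg_right _ (sum_nonneg (fun τ _ => zz_nonneg τ))
  have := kap_card (Γ := ZMod q) I b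
  rwa [ZMod.card] at this

private lemma t29_fs {R : Finset (Equiv.Perm U × (U → ZMod q))} {I : Finset U}
    (τ₀ : Equiv.Perm U) (b : U → ZMod q)
    (hA : ∀ ω ∈ R, ∀ u ∈ I, ω.1 u = τ₀ u ∧ ω.2 u = b u) {t r : ℕ} (hr : 1 ≤ r)
    (hD : ((Fintype.card U - I.card).factorial : ℝ) * (q : ℝ) ^ (Fintype.card U - I.card) ≤
      2 ^ (t * r) * R.card) :
    ∑ τ : Equiv.Perm U, (∑ J ∈ powersetCard t (univ \ I), nr (Fb R I b τ) J) / zz R I b τ ≤
      2 * (16 * r * (q : ℝ)) ^ t * ∑ τ, zz R I b τ := by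
  have hq : (0 : ℝ) < (q : ℝ) ^ (Fintype.card U - I.card) := by
    have : (0 : ℝ) < q := by exact_mod_cast Nat.pos_of_ne_zero (NeZero.ne q)
    positivity
  have h := first_sharp hA (k := t) (r := r) hr (by
    have h1 : ((univ.filter (fun τ : Equiv.Perm U => ∀ u ∈ I, τ u = τ₀ u)).card : ℝ) ≤
        (Fintype.card U - I.card).factorial := by
      exact_mod_cast card_perm_fixedU I τ₀
    refine h1.trans ?_
    have h2 := t29_zz τ₀ b hA
    have h3 : ((Fintype.card U - I.card).factorial : ℝ) * (q : ℝ) ^ (Fintype.card U - I.card) ≤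
        (2 ^ (t * r) * ∑ τ, zz R I b τ) * (q : ℝ) ^ (Fintype.card U - I.card) := by
      refine hD.trans ?_
      calc (2 : ℝ) ^ (t * r) * R.card ≤
          2 ^ (t * r) * ((q : ℝ) ^ (Fintype.card U - I.card) * ∑ τ, zz R I b τ) :=
            mul_le_mul_of_nonneg_left h2 (by positivity)
        _ = _ := by ring
    exact le_of_mul_le_mul_right h3 hq) (powersetCard t (univ \ I))
    (powersetCard_mono (subset_univ _))
  rwa [ZMod.card] at h

end

section
variable {N q : ℕ} [NeZero q] {V : Type} [Fintype V]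

/-- Q02. The sum of the means is at least `|R| / q ^ (N - |I|)`. -/
theorem zz_lower {R : Finset (LP N q)} {I : Finset (Fin N)} (τ₀ : Equiv.Perm (Fin N))
    (b : Fin N → ZMod q) (hA : ∀ ω ∈ R, ∀ u ∈ I, ω.1 u = τ₀ u ∧ ω.2 u = b u) :
    (R.card : ℝ) ≤ (q : ℝ) ^ (N - I.card) * ∑ τ, zz R I b τ := by
  have h := t29_zz τ₀ b hA
  rw [Fintype.card_fin] at h
  exact Eq.mp (by congr <;> first | exact Subsingleton.elim _ _ | (funext τ; congr <;> exact Subsingleton.elim _ _)) h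

private lemma t29_fact (γ : ℝ) (n t : ℕ) (hγ : 0 ≤ γ) (ht : 2 * t ≤ n) :
    2 * γ ^ t * ((n - t).factorial : ℝ) / n.factorial ≤ 2 * γ ^ t * (2 / (n : ℝ)) ^ t := by
  have hf : (0 : ℝ) < n.factorial := by exact_mod_cast Nat.factorial_pos n
  rw [mul_div_assoc]
  apply mul_le_mul_of_nonneg_left _ (by positivity)
  rw [div_le_iff₀ hf]
  rcases Nat.eq_zero_or_pos n with hn | hn
  · subst hn
    have : t = 0 := by omega
    subst this
    simp
  · have hn' : (0 : ℝ) < n := by exact_mod_cast hn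
    have h := fact_bound ht
    rw [div_pow, div_mul_eq_mul_div, le_div_iff₀ (by positivity)]
    exact h

/-- Q03. Low levels. -/
theorem lev_low (S : Sit V N q) {γ σ : ℝ} (h0 : 0 ≤ σ) (hγ : 0 ≤ γ) (hσγ : σ * γ ≤ 1)
    (h1 : σ ≤ 1) {R : Finset (LP N q)} {I : Finset (Fin N)} (hNI : S.NI R I)
    (hR : R.Nonempty) (hA : Agr R I) (hs : SprP γ R I) {t r : ℕ} (hr : 1 ≤ r)
    (hD : fr N q I.card ≤ 2 ^ (t * r) * R.card) (ht : 2 * t ≤ N - I.card) (h : V → ZMod q) :
    avg (fun X => gt σ R I t (S.xl h X) (S.xr h X) ^ 2) ≤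
      4 * (256 * q * r * (t + S.W.card + 1) / ((N - I.card : ℕ) : ℝ)) ^ t := by
  obtain ⟨ω₀, hω₀⟩ := hR
  have hA' : ∀ ω ∈ R, ∀ u ∈ I, ω.1 u = ω₀.1 u ∧ ω.2 u = ω₀.2 u := fun ω hω u hu =>
    hA ω hω ω₀ hω₀ u hu
  have hRn : R.Nonempty := ⟨ω₀, hω₀⟩
  obtain ⟨n', hn'⟩ : ∃ n', n' = N - I.card := ⟨_, rfl⟩
  set Z := ∑ τ, zz R I ω₀.2 τ with hZ
  have hZl := zz_lower ω₀.1 ω₀.2 hA'
  have hRpos : (0 : ℝ) < R.card := by exact_mod_cast hRn.card_pos
  have hZpos : 0 < Z := by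
    by_contra hcon
    push Not at hcon
    have : (q : ℝ) ^ (N - I.card) * Z ≤ 0 :=
      mul_nonpos_of_nonneg_of_nonpos (by positivity) hcon
    linarith
  set P : ℝ := 2 * γ ^ t * ((N - I.card - t).factorial : ℝ) / (N - I.card).factorial with hP
  have hP0 : 0 ≤ P := by rw [hP]; positivity
  have hPle : P ≤ 2 * γ ^ t * (2 / ((N - I.card : ℕ) : ℝ)) ^ t :=
    t29_fact γ (N - I.card) t hγ ht
  have hsum := sum_norm S hNI hRn ω₀.1 ω₀.2 hA' (t := t) hP0
    (fun T hT => sprP_TT hγ hs hT) h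
  have hfs : ∑ τ : Equiv.Perm (Fin N), (∑ J ∈ powersetCard t (univ \ I),
      nr (Fb R I ω₀.2 τ) J) / zz R I ω₀.2 τ ≤ 2 * (16 * r * (q : ℝ)) ^ t * Z := by
    have h2 := t29_fs ω₀.1 ω₀.2 hA' (t := t) hr (by
      rw [Fintype.card_fin]
      exact hD)
    exact Eq.mp (by congr <;> first | exact Subsingleton.elim _ _ | (funext τ; congr <;> exact Subsingleton.elim _ _)) h2
  have hTT : ∑ T ∈ TT R I t, avg (fun X => tm R T (S.xl h X) (S.xr h X) ^ 2) ≤
      P * (2 * (16 * r * (q : ℝ)) ^ t) := by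
    have h2 : (∑ T ∈ TT R I t, avg (fun X => tm R T (S.xl h X) (S.xr h X) ^ 2)) * Z ≤
        P * (2 * (16 * r * (q : ℝ)) ^ t) * Z := by
      calc _ ≤ P * ∑ τ : Equiv.Perm (Fin N), (∑ J ∈ powersetCard t (univ \ I),
            nr (Fb R I ω₀.2 τ) J) / zz R I ω₀.2 τ := hsum
        _ ≤ P * (2 * (16 * r * (q : ℝ)) ^ t * Z) := mul_le_mul_of_nonneg_left hfs hP0
        _ = _ := by ring
    exact le_of_mul_le_mul_right h2 hZpos
  have hgt := norm_gt S hNI (t := t) (n := (8 * ((t : ℝ) + S.W.card + 1)) ^ t)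
    (fun O => count_low S hNI t O) σ h
  refine hgt.trans ?_
  have hσ : σ ^ (2 * t) * γ ^ t ≤ 1 := by
    have h2 : σ ^ (2 * t) * γ ^ t = (σ * (σ * γ)) ^ t := by
      rw [mul_pow, mul_pow, pow_mul']
      ring
    rw [h2]
    apply pow_le_one₀ (by positivity)
    calc σ * (σ * γ) ≤ 1 * 1 := mul_le_mul h1 hσγ (by positivity) (by norm_num)
      _ = 1 := by norm_num
  set D : ℝ := (t : ℝ) + S.W.card + 1 with hDdef
  have hD0 : 0 ≤ D := by rw [hDdef]; positivity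
  calc σ ^ (2 * t) * ((8 * D) ^ t * ∑ T ∈ TT R I t,
        avg (fun X => tm R T (S.xl h X) (S.xr h X) ^ 2))
      ≤ σ ^ (2 * t) * ((8 * D) ^ t * ((2 * γ ^ t * (2 / ((N - I.card : ℕ) : ℝ)) ^ t) *
        (2 * (16 * r * (q : ℝ)) ^ t))) := by
        apply mul_le_mul_of_nonneg_left _ (by positivity)
        apply mul_le_mul_of_nonneg_left _ (by positivity)
        refine hTT.trans ?_
        apply mul_le_mul_of_nonneg_right hPle (by positivity)
    _ = (σ ^ (2 * t) * γ ^ t) * (4 * (256 * q * r * D / ((N - I.card : ℕ) : ℝ)) ^ t) := by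
        have h2 : (256 * (q : ℝ) * r * D / ((N - I.card : ℕ) : ℝ)) ^ t =
            (8 * D) ^ t * (2 / ((N - I.card : ℕ) : ℝ)) ^ t * (16 * r * (q : ℝ)) ^ t := by
          rw [← mul_pow, ← mul_pow]
          congr 1
          ring
        rw [h2]
        ring
    _ ≤ 1 * (4 * (256 * q * r * D / ((N - I.card : ℕ) : ℝ)) ^ t) := by
        apply mul_le_mul_of_nonneg_right hσ (by positivity)
    _ = _ := by rw [one_mul]

end

end Pool.Agent.Lib.MP_8d8c46_lc.MC
end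

section

/-! T30 : Q04, Q05 -/

set_option autoImplicit false
set_option linter.unusedSectionVars false

open scoped Classical
open Finset

namespace Pool.Agent.Lib.MP_8d8c46_lc.MC

open Pool.Agent.Lib.MP_8d8c46_lc.EL

section
variable {q : ℕ} [NeZero q] {U : Type} [Fintype U]

private lemma t30_fp {R : Finset (Equiv.Perm U × (U → ZMod q))} {I : Finset U}
    (τ₀ : Equiv.Perm U) (b : U → ZMod q)
    (hA : ∀ ω ∈ R, ∀ u ∈ I, ω.1 u = τ₀ u ∧ ω.2 u = b u) (t : ℕ) :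
    ∑ τ : Equiv.Perm U, (∑ J ∈ powersetCard t (univ \ I), nr (Fb R I b τ) J) / zz R I b τ ≤
      ((Fintype.card U - I.card).factorial : ℝ) := by
  refine (first_parseval hA (powersetCard t (univ \ I))).trans ?_
  exact_mod_cast card_perm_fixedU I τ₀

end

section
variable {N q : ℕ} [NeZero q] {V : Type} [Fintype V]

private lemma t30_key (S : Sit V N q) {γ : ℝ} (hγ : 0 ≤ γ) (σ : ℝ) {R : Finset (LP N q)}
    {I : Finset (Fin N)} (hNI : S.NI R I)
    (hR : R.Nonempty) (hA : Agr R I) (hs : SprP γ R I) (t : ℕ) (h : V → ZMod q) {n : ℝ}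
    (hn0 : 0 ≤ n) (hσ0 : 0 ≤ σ)
    (hn : ∀ O : Finset V, (((TT R I t).filter (fun T => S.out T = O)).card : ℝ) ≤ n) :
    avg (fun X => gt σ R I t (S.xl h X) (S.xr h X) ^ 2) ≤
      σ ^ (2 * t) * (n * ((2 * γ ^ t * ((N - I.card - t).factorial : ℝ) /
        (N - I.card).factorial) * (fr N q I.card / R.card))) := by
  obtain ⟨ω₀, hω₀⟩ := hR
  have hA' : ∀ ω ∈ R, ∀ u ∈ I, ω.1 u = ω₀.1 u ∧ ω.2 u = ω₀.2 u := fun ω hω u hu =>
    hA ω hω ω₀ hω₀ u hu
  have hRn : R.Nonempty := ⟨ω₀, hω₀⟩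
  obtain ⟨Z, hZ⟩ : ∃ Z, Z = ∑ τ, zz R I ω₀.2 τ := ⟨_, rfl⟩
  have hZl := zz_lower ω₀.1 ω₀.2 hA'
  rw [← hZ] at hZl
  have hRpos : (0 : ℝ) < R.card := by exact_mod_cast hRn.card_pos
  have hZpos : 0 < Z := by
    by_contra hcon
    push Not at hcon
    have : (q : ℝ) ^ (N - I.card) * Z ≤ 0 :=
      mul_nonpos_of_nonneg_of_nonpos (by positivity) hcon
    linarith
  obtain ⟨P, hP⟩ : ∃ P : ℝ, P = 2 * γ ^ t * ((N - I.card - t).factorial : ℝ) /
    (N - I.card).factorial := ⟨_, rfl⟩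
  have hP0 : 0 ≤ P := by rw [hP]; positivity
  have hsum := sum_norm S hNI hRn ω₀.1 ω₀.2 hA' (t := t) hP0
    (fun T hT => by rw [hP]; exact sprP_TT hγ hs hT) h
  rw [← hZ] at hsum
  have hfs : ∑ τ : Equiv.Perm (Fin N), (∑ J ∈ powersetCard t (univ \ I),
      nr (Fb R I ω₀.2 τ) J) / zz R I ω₀.2 τ ≤ ((N - I.card).factorial : ℝ) := by
    have h2 := t30_fp ω₀.1 ω₀.2 hA' t
    rw [Fintype.card_fin] at h2
    exact Eq.mp (by congr <;> first | exact Subsingleton.elim _ _ | (funext τ; congr <;> exact Subsingleton.elim _ _)) h2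
  have hfrZ : ((N - I.card).factorial : ℝ) ≤ (fr N q I.card / R.card) * Z := by
    rw [div_mul_eq_mul_div, le_div_iff₀ hRpos]
    unfold fr
    calc ((N - I.card).factorial : ℝ) * R.card
        ≤ ((N - I.card).factorial : ℝ) * ((q : ℝ) ^ (N - I.card) * Z) :=
          mul_le_mul_of_nonneg_left hZl (Nat.cast_nonneg _)
      _ = _ := by ring
  have hTT : ∑ T ∈ TT R I t, avg (fun X => tm R T (S.xl h X) (S.xr h X) ^ 2) ≤
      P * (fr N q I.card / R.card) := by
    have h2 : (∑ T ∈ TT R I t, avg (fun X => tm R T (S.xl h X) (S.xr h X) ^ 2)) * Z ≤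
        P * (fr N q I.card / R.card) * Z := by
      calc _ ≤ P * ∑ τ : Equiv.Perm (Fin N), (∑ J ∈ powersetCard t (univ \ I),
            nr (Fb R I ω₀.2 τ) J) / zz R I ω₀.2 τ := hsum
        _ ≤ P * ((fr N q I.card / R.card) * Z) :=
          mul_le_mul_of_nonneg_left (hfs.trans hfrZ) hP0
        _ = _ := by ring
    exact le_of_mul_le_mul_right h2 hZpos
  refine (norm_gt S hNI (t := t) (n := n) hn σ h).trans ?_
  rw [← hP]
  refine mul_le_mul_of_nonneg_left ?_ (by positivity)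
  exact mul_le_mul_of_nonneg_left hTT hn0

private lemma t30_fact (γ : ℝ) (n t : ℕ) (hγ : 0 ≤ γ) (ht : 2 * t ≤ n) :
    2 * γ ^ t * ((n - t).factorial : ℝ) / n.factorial ≤ 2 * γ ^ t * (2 / (n : ℝ)) ^ t := by
  have hf : (0 : ℝ) < n.factorial := by exact_mod_cast Nat.factorial_pos n
  rw [mul_div_assoc]
  apply mul_le_mul_of_nonneg_left _ (by positivity)
  rw [div_le_iff₀ hf]
  rcases Nat.eq_zero_or_pos n with hn | hn
  · subst hn
    have : t = 0 := by omega
    subst this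
    simp
  · have hn' : (0 : ℝ) < n := by exact_mod_cast hn
    have h := fact_bound ht
    rw [div_pow, div_mul_eq_mul_div, le_div_iff₀ (by positivity)]
    exact h

/-- Q04. Middle levels.
As Q03 with H08 instead of H07: Σ_T avg tm² ≤ P #{τ}/Z ≤ P fr/|R| (Q02, card_perm_fixedU). -/
theorem lev_mid (S : Sit V N q) {γ σ : ℝ} (h0 : 0 ≤ σ) (hγ : 0 ≤ γ) (hσγ : σ * γ ≤ 1)
    (h1 : σ ≤ 1) {R : Finset (LP N q)} {I : Finset (Fin N)} (hNI : S.NI R I)
    (hR : R.Nonempty) (hA : Agr R I) (hs : SprP γ R I) {t : ℕ}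
    (ht : 2 * t ≤ N - I.card) (h : V → ZMod q) :
    avg (fun X => gt σ R I t (S.xl h X) (S.xr h X) ^ 2) ≤
      2 * (16 * (t + S.W.card + 1) / ((N - I.card : ℕ) : ℝ)) ^ t * (fr N q I.card / R.card) := by
  obtain ⟨D, hD⟩ : ∃ D : ℝ, D = (t : ℝ) + S.W.card + 1 := ⟨_, rfl⟩
  have hD0 : 0 ≤ D := by rw [hD]; positivity
  obtain ⟨A, hA'⟩ : ∃ A : ℝ, A = fr N q I.card / R.card := ⟨_, rfl⟩
  have hA0 : 0 ≤ A := by rw [hA']; unfold fr; positivity
  refine (t30_key S hγ σ hNI hR hA hs t h (n := (8 * D) ^ t) (by positivity) h0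
    (fun O => by rw [hD]; exact count_low S hNI t O)).trans ?_
  rw [← hA', ← hD]
  have hσ : σ ^ (2 * t) * γ ^ t ≤ 1 := by
    have h2 : σ ^ (2 * t) * γ ^ t = (σ * (σ * γ)) ^ t := by
      rw [mul_pow, mul_pow, pow_mul']
      ring
    rw [h2]
    apply pow_le_one₀ (by positivity)
    calc σ * (σ * γ) ≤ 1 * 1 := mul_le_mul h1 hσγ (by positivity) (by norm_num)
      _ = 1 := by norm_num
  calc σ ^ (2 * t) * ((8 * D) ^ t * ((2 * γ ^ t * ((N - I.card - t).factorial : ℝ) /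
        (N - I.card).factorial) * A))
      ≤ σ ^ (2 * t) * ((8 * D) ^ t * ((2 * γ ^ t * (2 / ((N - I.card : ℕ) : ℝ)) ^ t) * A)) := by
        apply mul_le_mul_of_nonneg_left _ (by positivity)
        apply mul_le_mul_of_nonneg_left _ (by positivity)
        exact mul_le_mul_of_nonneg_right (t30_fact γ _ t hγ ht) hA0
    _ = (σ ^ (2 * t) * γ ^ t) * (2 * (16 * D / ((N - I.card : ℕ) : ℝ)) ^ t * A) := by
        have h2 : (16 * D / ((N - I.card : ℕ) : ℝ)) ^ t =
            (8 * D) ^ t * (2 / ((N - I.card : ℕ) : ℝ)) ^ t := by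
          rw [← mul_pow]
          congr 1
          ring
        rw [h2]
        ring
    _ ≤ 1 * (2 * (16 * D / ((N - I.card : ℕ) : ℝ)) ^ t * A) := by
        apply mul_le_mul_of_nonneg_right hσ (by positivity)
    _ = _ := by rw [one_mul]

/-- Q05. High levels.
t > N': gt = 0 (Q06). Else as Q04 with n from O13 and t! (N'-t)!/N'! ≤ 1, σ^(2t) γ^t ≤ σ^t. -/
theorem lev_high (S : Sit V N q) {γ σ : ℝ} (h0 : 0 ≤ σ) (hγ : 0 ≤ γ) (hσγ : σ * γ ≤ 1)
    (h1 : σ ≤ 1) {R : Finset (LP N q)} {I : Finset (Fin N)} (hNI : S.NI R I)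
    (hR : R.Nonempty) (hA : Agr R I) (hs : SprP γ R I) (t : ℕ) (h : V → ZMod q) :
    avg (fun X => gt σ R I t (S.xl h X) (S.xr h X) ^ 2) ≤
      2 * σ ^ t * (N + 1 : ℝ) ^ S.W.card * (fr N q I.card / R.card) := by
  obtain ⟨A, hA'⟩ : ∃ A : ℝ, A = fr N q I.card / R.card := ⟨_, rfl⟩
  have hA0 : 0 ≤ A := by rw [hA']; unfold fr; positivity
  by_cases ht : N - I.card < t
  · have h2 : (fun X => gt σ R I t (S.xl h X) (S.xr h X) ^ 2) = fun _ => 0 := by
      funext X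
      rw [gt_eq_zero σ R I ht]
      norm_num
    rw [h2, avg_const, ← hA']
    positivity
  push Not at ht
  refine (t30_key S hγ σ hNI hR hA hs t h (n := (N + 1 : ℝ) ^ S.W.card * t.factorial)
    (by positivity) h0 (fun O => count_high S hNI t O)).trans ?_
  rw [← hA']
  have hfac : (0 : ℝ) < ((N - I.card).factorial : ℝ) := by
    exact_mod_cast Nat.factorial_pos _
  have hle : (t.factorial : ℝ) * ((N - I.card - t).factorial : ℝ) / (N - I.card).factorial ≤ 1 := by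
    rw [div_le_one hfac]
    exact_mod_cast Nat.le_of_dvd (Nat.factorial_pos _)
      (Nat.factorial_mul_factorial_dvd_factorial ht)
  have hσ : σ ^ (2 * t) * γ ^ t ≤ σ ^ t := by
    calc σ ^ (2 * t) * γ ^ t = σ ^ t * (σ * γ) ^ t := by rw [mul_pow, two_mul, pow_add]; ring
      _ ≤ σ ^ t * 1 := mul_le_mul_of_nonneg_left (pow_le_one₀ (by positivity) hσγ) (by positivity)
      _ = σ ^ t := mul_one _
  calc σ ^ (2 * t) * ((N + 1 : ℝ) ^ S.W.card * t.factorial *
        ((2 * γ ^ t * ((N - I.card - t).factorial : ℝ) / (N - I.card).factorial) * A))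
      = (σ ^ (2 * t) * γ ^ t) * (2 * (N + 1 : ℝ) ^ S.W.card * A *
        ((t.factorial : ℝ) * ((N - I.card - t).factorial : ℝ) / (N - I.card).factorial)) := by ring
    _ ≤ σ ^ t * (2 * (N + 1 : ℝ) ^ S.W.card * A * 1) := by
        refine mul_le_mul hσ ?_ (by positivity) (by positivity)
        exact mul_le_mul_of_nonneg_left hle (by positivity)
    _ = _ := by ring

end

end Pool.Agent.Lib.MP_8d8c46_lc.MC
end

section

/-! T31 : Q07 -/

set_option autoImplicit false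
set_option linter.unusedSectionVars false

open scoped Classical
open Finset

namespace Pool.Agent.Lib.MP_8d8c46_lc.MC

open Pool.Agent.Lib.MP_8d8c46_lc.EL

section
variable {N q : ℕ} [NeZero q] {V : Type} [Fintype V]

private lemma t31_sq {α : Type} [Fintype α] (L N : ℕ) (g : ℕ → α → ℝ) {B : ℝ} (hB : 0 ≤ B)
    (hg : ∀ t ∈ Ico L (N + 1), avg (fun X => g t X ^ 2) ≤ B) :
    avg (fun X => (∑ t ∈ Ico L (N + 1), g t X) ^ 2) ≤ (N + 1 : ℝ) ^ 2 * B := by
  have hc : ((Ico L (N + 1)).card : ℝ) ≤ N + 1 := by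
    rw [Nat.card_Ico]
    have : N + 1 - L ≤ N + 1 := Nat.sub_le _ _
    exact_mod_cast this
  calc avg (fun X => (∑ t ∈ Ico L (N + 1), g t X) ^ 2)
      ≤ avg (fun X => (N + 1 : ℝ) * ∑ t ∈ Ico L (N + 1), g t X ^ 2) := by
        apply avg_mono
        intro X
        refine (sq_sum_le_card_mul_sum_sq (s := Ico L (N + 1)) (f := fun t => g t X)).trans ?_
        exact mul_le_mul_of_nonneg_right hc (Finset.sum_nonneg (fun t _ => sq_nonneg _))
    _ = (N + 1 : ℝ) * ∑ t ∈ Ico L (N + 1), avg (fun X => g t X ^ 2) := by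
        rw [avg_const_mul, avg_sum]
    _ ≤ (N + 1 : ℝ) * ∑ t ∈ Ico L (N + 1), B := by
        apply mul_le_mul_of_nonneg_left _ (by positivity)
        exact Finset.sum_le_sum hg
    _ = (N + 1 : ℝ) * ((Ico L (N + 1)).card * B) := by rw [Finset.sum_const, nsmul_eq_mul]
    _ ≤ (N + 1 : ℝ) * ((N + 1) * B) := by
        apply mul_le_mul_of_nonneg_left _ (by positivity)
        exact mul_le_mul_of_nonneg_right hc hB
    _ = _ := by ring

private lemma t31_mid {n w t L : ℕ} (hL : w + 1 ≤ L) (hLt : L ≤ t) (h64 : 64 * t ≤ n) :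
    (16 * ((t : ℝ) + w + 1) / (n : ℝ)) ^ t ≤ (1 / 2) ^ L := by
  have hn : (0 : ℝ) < n := by
    have : 0 < n := by omega
    exact_mod_cast this
  have h1 : 16 * ((t : ℝ) + w + 1) / (n : ℝ) ≤ 1 / 2 := by
    rw [div_le_iff₀ hn]
    have h2 : 64 * (t : ℝ) ≤ n := by exact_mod_cast h64
    have h3 : (w : ℝ) + 1 ≤ t := by exact_mod_cast (hL.trans hLt)
    linarith
  calc (16 * ((t : ℝ) + w + 1) / (n : ℝ)) ^ t ≤ (1 / 2) ^ t :=
        pow_le_pow_left₀ (by positivity) h1 t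
    _ ≤ (1 / 2) ^ L := pow_le_pow_of_le_one (by norm_num) (by norm_num) hLt

/-- Q07. The sum of the levels from `L` on. -/
theorem lev_tail (S : Sit V N q) {γ σ : ℝ} (h0 : 0 < σ) (hγ : 0 ≤ γ) (hσγ : σ * γ ≤ 1)
    (h1 : σ ≤ 1) {R : Finset (LP N q)} {I : Finset (Fin N)} (hNI : S.NI R I)
    (hR : R.Nonempty) (hA : Agr R I) (hs : SprP γ R I) {L : ℕ} (hL : S.W.card + 1 ≤ L)
    (hI : 2 * I.card ≤ N) (h : V → ZMod q) :
    avg (fun X => (∑ t ∈ Ico L (N + 1), gt σ R I t (S.xl h X) (S.xr h X)) ^ 2) ≤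
      (N + 1 : ℝ) ^ 2 * (2 * (1 / 2) ^ L + 2 * σ ^ (N / 128) * (N + 1 : ℝ) ^ S.W.card) *
        (fr N q I.card / R.card) := by
  have hF : 0 ≤ fr N q I.card / R.card := by
    unfold fr
    positivity
  rw [mul_assoc]
  apply t31_sq L N (fun t X => gt σ R I t (S.xl h X) (S.xr h X))
  · positivity
  · intro t ht
    rw [Finset.mem_Ico] at ht
    rcases le_or_gt (64 * t) (N - I.card) with h64 | h64
    · have hm := lev_mid S h0.le hγ hσγ h1 hNI hR hA hs (t := t) (by omega) h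
      refine hm.trans ?_
      apply mul_le_mul_of_nonneg_right _ hF
      have h2 := t31_mid hL ht.1 h64
      have h3 : 0 ≤ 2 * σ ^ (N / 128) * (N + 1 : ℝ) ^ S.W.card := by positivity
      linarith
    · have hm := lev_high S h0.le hγ hσγ h1 hNI hR hA hs t h
      refine hm.trans ?_
      apply mul_le_mul_of_nonneg_right _ hF
      have hle : N / 128 ≤ t := by omega
      have h2 : σ ^ t ≤ σ ^ (N / 128) := pow_le_pow_of_le_one h0.le h1 hle
      have h3 : 2 * σ ^ t * (N + 1 : ℝ) ^ S.W.card ≤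
          2 * σ ^ (N / 128) * (N + 1 : ℝ) ^ S.W.card := by
        apply mul_le_mul_of_nonneg_right _ (by positivity)
        linarith
      have h4 : (0 : ℝ) ≤ 2 * (1 / 2) ^ L := by positivity
      linarith

end

end Pool.Agent.Lib.MP_8d8c46_lc.MC
end

section

/-! T37 : R13 -/

set_option autoImplicit false
set_option linter.unusedSectionVars false

open scoped Classical
open Finset

namespace Pool.Agent.Lib.MP_8d8c46_lc.MC

open Pool.Agent.Lib.MP_8d8c46_lc.EL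
open Pool.Agent.Lib.MP_8d8c46_lc.SA (BV Om)

section
variable {d N q : ℕ} [NeZero q]

/-- R13.
Every zt γ (R e) (I e) ≥ 1 (P02), so zt γ (R e) (I e) ≤ Π ≤ √(γ^v); square: γ^|I e| fr/|R e| ≤ γ^v, and γ^|I e| ≥ 1. -/
theorem fr_le {γ : ℝ} (hγ : 1 ≤ γ) {v : ℕ} {R : Pl d → Finset (LP N q)}
    {I : Pl d → Finset (Fin N)} (hS : St γ v R I) (hz : ∏ e, zt γ (R e) (I e) ≤ √(γ ^ v))
    (e : Pl d) : fr N q (I e).card ≤ γ ^ v * (R e).card := by
  have hge : ∀ e, 1 ≤ zt γ (R e) (I e) := by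
    intro e
    refine le_trans ?_ (zt_ge hγ (hS.agr e) (hS.ne e))
    rw [← Real.sqrt_one]
    exact Real.sqrt_le_sqrt (one_le_pow₀ hγ)
  have h1 : zt γ (R e) (I e) ≤ √(γ ^ v) := by
    refine le_trans ?_ hz
    rw [← Finset.mul_prod_erase univ (fun e => zt γ (R e) (I e)) (Finset.mem_univ e)]
    have h2 : (1 : ℝ) ≤ ∏ x ∈ univ.erase e, zt γ (R x) (I x) := by
      calc (1 : ℝ) = ∏ x ∈ univ.erase e, (1 : ℝ) := by simp
        _ ≤ _ := Finset.prod_le_prod (fun i _ => zero_le_one) (fun i _ => hge i)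
    have h3 : 0 ≤ zt γ (R e) (I e) := le_trans zero_le_one (hge e)
    nlinarith
  have hRpos : (0 : ℝ) < ((R e).card : ℝ) := by exact_mod_cast (hS.ne e).card_pos
  unfold zt at h1
  rw [Real.sqrt_le_sqrt_iff (by positivity), div_le_iff₀ hRpos] at h1
  refine le_trans ?_ h1
  have h4 : (1 : ℝ) ≤ γ ^ (I e).card := one_le_pow₀ hγ
  have h5 : 0 ≤ fr N q (I e).card := by unfold fr; positivity
  nlinarith

end

end Pool.Agent.Lib.MP_8d8c46_lc.MC
end

section

/-! T45 : I07, I08 -/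

set_option autoImplicit false
set_option linter.unusedSectionVars false

open scoped Classical
open Finset

namespace Pool.Agent.Lib.MP_8d8c46_lc.MC

open Pool.Agent.Lib.MP_8d8c46_lc.EL
open Pool.Agent.Lib.MP_8d8c46_lc.SA (BV Om)

section
variable {d N q : ℕ} [NeZero q]

/-- I07. Too many known edges.
zt ≥ √(γ^|I e|) (P02); the product is √(γ^Σ) ≥ √(γ^v). -/
theorem zt_big {γ : ℝ} (hγ : 1 ≤ γ) {v : ℕ} {R : Pl d → Finset (LP N q)}
    {I : Pl d → Finset (Fin N)} (hA : ∀ e, Agr (R e) (I e)) (hne : ∀ e, (R e).Nonempty)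
    (hc : v < ∑ e, (I e).card) : √(γ ^ v) ≤ ∏ e, zt γ (R e) (I e) := by
  have hγ0 : (0 : ℝ) ≤ γ := by linarith
  have h1 : ∏ e, √(γ ^ (I e).card) ≤ ∏ e, zt γ (R e) (I e) :=
    prod_le_prod (fun e _ => Real.sqrt_nonneg _) (fun e _ => zt_ge hγ (hA e) (hne e))
  have h2 : ∏ e, √(γ ^ (I e).card) = √(γ ^ (∑ e, (I e).card)) := by
    rw [← prod_pow_eq_pow_sum, Real.sqrt_prod _ (fun e _ => pow_nonneg hγ0 _)]
  refine le_trans ?_ h1
  rw [h2]
  exact Real.sqrt_le_sqrt (pow_le_pow_right₀ hγ hc.le)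

/-- I08. The leaves.
If Π zt ≤ √(γ^v): C = rc0 R I, both sums are fine (run = b). Else C = ∅: |rc0| ≤ |rc| ≤ |rc| * (Π zt / √(γ^v)), pot ≥ 0 (I02, v < N). -/
theorem cov_out {σ γ ε₁ : ℝ} (hγ : 1 ≤ γ) (hε : 0 ≤ ε₁) {v : ℕ} (hv : v < N)
    {R : Pl d → Finset (LP N q)} {I : Pl d → Finset (Fin N)} (hS : St γ v R I)
    (hRE : ∏ e, zt γ (R e) (I e) ≤ √(γ ^ v) →
      |∑ ω ∈ rc0 R I, (wY σ ω - 1)| ≤ ε₁ * (rc0 R I).card) (b : Bool) :
    Cov σ γ ε₁ v (Tr.out b) R I := by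
  have hγ0 : (0 : ℝ) ≤ γ := by linarith
  have hNv : (0 : ℝ) < (N : ℝ) - v := by
    have : (v : ℝ) < N := by exact_mod_cast hv
    linarith
  have hpot : 0 ≤ pot γ v R I := by
    unfold pot
    have := pcW_le hS
    exact div_nonneg (mul_nonneg hγ0 (by linarith)) hNv.le
  have hprod0 : 0 ≤ ∏ e, zt γ (R e) (I e) := prod_nonneg (fun e' _ => Real.sqrt_nonneg _)
  have hsq : (0 : ℝ) < √(γ ^ v) := Real.sqrt_pos.2 (pow_pos (by linarith) _)
  have hc0 : (0 : ℝ) ≤ (rc R).card := Nat.cast_nonneg _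
  by_cases h : ∏ e, zt γ (R e) (I e) ≤ √(γ ^ v)
  · refine ⟨rc0 R I, Subset.refl _, hRE h, ?_, ?_⟩
    · cases b
      · simp only [Tr.run]
        simp only [Bool.false_eq_true, if_false, sum_const_zero, abs_zero]
        positivity
      · simp only [Tr.run]
        simpa using hRE h
    · rw [sdiff_self]
      simp only [bot_eq_empty, card_empty, Nat.cast_zero]
      refine mul_nonneg hc0 (add_nonneg hpot ?_)
      refine div_nonneg (mul_nonneg hprod0 (by positivity)) hsq.le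
  · rw [not_le] at h
    refine ⟨∅, empty_subset _, by simp, by simp, ?_⟩
    rw [sdiff_empty]
    have h1 : ((rc0 R I).card : ℝ) ≤ (rc R).card := by
      exact_mod_cast card_le_card (filter_subset _ _)
    refine h1.trans (le_mul_of_one_le_right hc0 ?_)
    have h2 : 1 ≤ (∏ e, zt γ (R e) (I e)) * (2 * √2) ^ (Tr.out b : Tr (Pl d) (LP N q)).depth /
        √(γ ^ v) := by
      rw [le_div_iff₀ hsq, one_mul]
      simp only [Tr.depth, pow_zero, mul_one]
      exact h.le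
    linarith

end

end Pool.Agent.Lib.MP_8d8c46_lc.MC
end
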