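import Pool.Agent.Lib.MP_8d8c46_lc.EL.PDist
import Pool.Agent.Lib.MP_8d8c46_lc.EL.GE
import Pool.Agent.Lib.MP_8d8c46_lc.Problem

section

/-!
Random permutations rarely bring a set of points into a position where every point has a near
partner.
-/

set_option autoImplicit false
set_option linter.unusedSectionVars false

open scoped Classical
open Finset

namespace Pool.Agent.Lib.MP_8d8c46_lc.EL

section
variable {U : Type} [Fintype U] {near : U → U → Prop}

lemma sum_bU_le {ι α : Type} [DecidableEq α] {g : α → ℝ} (hg : ∀ a, 0 ≤ g a) (s : Finset ι) (t : ι → Finset α) :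
    ∑ a ∈ s.biUnion t, g a ≤ ∑ i ∈ s, ∑ a ∈ t i, g a := by
  induction s using Finset.induction_on with
  | empty => simp
  | insert i s hi ih =>
    rw [biUnion_insert, sum_insert hi]
    refine le_trans ?_ (add_le_add_right ih _)
    rw [← sum_union_inter]
    have := sum_nonneg (s := t i ∩ s.biUnion t) (fun a _ => hg a)
    linarith

/-- the sequences in which every entry is near to another entry or to an element of `J` -/
noncomputable def Fn (near : U → U → Prop) (J : Finset U) (i : ℕ) : Finset (Fin i → U) :=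
  univ.filter (fun f => ∀ s, (∃ s', s' ≠ s ∧ near (f s) (f s')) ∨ ∃ v ∈ J, near (f s) v)

lemma mem_Fn {J : Finset U} {i : ℕ} {f : Fin i → U} : f ∈ Fn near J i ↔
    ∀ s, (∃ s', s' ≠ s ∧ near (f s) (f s')) ∨ ∃ v ∈ J, near (f s) v := by
  unfold Fn; simp

/-- first kind: the first entry is near to `J` -/
lemma card_first {K : ℕ} (hsym : ∀ u v, near u v → near v u)
    (hball : ∀ u, (univ.filter (fun v => near u v)).card ≤ K) (J : Finset U) (i : ℕ) {N : ℝ}
    (hN0 : 0 ≤ N) (hN : ∀ u, ((Fn near (insert u J) i).card : ℝ) ≤ N) :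
    (((Fn near J (i + 1)).filter (fun f => ∃ v ∈ J, near (f 0) v)).card : ℝ) ≤
      (J.card * K : ℕ) * N := by
  set N_J := J.biUnion (fun v => univ.filter (fun u => near v u)) with hNJ
  have hNJc : N_J.card ≤ J.card * K := by
    refine card_biUnion_le.trans ?_
    refine (sum_le_card_nsmul _ _ K (fun v _ => hball v)).trans (le_of_eq (smul_eq_mul _ _))
  have hmap : ∀ f ∈ (Fn near J (i + 1)).filter (fun f => ∃ v ∈ J, near (f 0) v),
      (fun f : Fin (i + 1) → U => f 0) f ∈ (N_J : Set U) := by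
    intro f hf
    obtain ⟨v, hv, hn⟩ := (mem_filter.1 hf).2
    rw [mem_coe, hNJ, mem_biUnion]
    exact ⟨v, hv, mem_filter.2 ⟨mem_univ _, hsym _ _ hn⟩⟩
  rw [card_eq_sum_card_fiberwise hmap]
  push_cast
  have h1 : ∀ u ∈ N_J, ((((Fn near J (i + 1)).filter (fun f => ∃ v ∈ J, near (f 0) v)).filter
      (fun f => f 0 = u)).card : ℝ) ≤ N := by
    intro u _
    refine le_trans ?_ (hN u)
    have h2 : (((Fn near J (i + 1)).filter (fun f => ∃ v ∈ J, near (f 0) v)).filter
      (fun f => f 0 = u)).card ≤ (Fn near (insert u J) i).card := by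
      refine card_le_card_of_injOn (fun f => Fin.tail f) ?_ ?_
      · intro f hf
        rw [mem_coe, mem_filter, mem_filter] at hf
        obtain ⟨⟨hf1, _⟩, hf0⟩ := hf
        rw [mem_coe, mem_Fn]
        rw [mem_Fn] at hf1
        intro s
        rcases hf1 s.succ with ⟨s', hs', hn⟩ | ⟨v, hv, hn⟩
        · by_cases h0 : s' = 0
          · right
            refine ⟨u, mem_insert_self _ _, ?_⟩
            rw [← hf0, ← h0]
            exact hn
          · left
            obtain ⟨r, rfl⟩ := Fin.exists_succ_eq.2 h0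
            refine ⟨r, fun h => hs' (by rw [h]), hn⟩
        · exact Or.inr ⟨v, mem_insert_of_mem hv, hn⟩
      · intro f hf f' hf' h
        rw [mem_coe, mem_filter] at hf hf'
        rw [← Fin.cons_self_tail f, ← Fin.cons_self_tail f', hf.2, hf'.2]
        simp only at h
        rw [h]
    exact_mod_cast h2
  calc _ ≤ ∑ u ∈ N_J, N := sum_le_sum h1
    _ = N_J.card * N := by rw [sum_const, nsmul_eq_mul]
    _ ≤ ((J.card * K : ℕ) : ℝ) * N := mul_le_mul_of_nonneg_right (by exact_mod_cast hNJc) hN0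
    _ = _ := by push_cast; ring

/-- second kind: the first entry is near to the entry `r + 1` -/
lemma card_second {K : ℕ}
    (hball : ∀ u, (univ.filter (fun v => near u v)).card ≤ K) (J : Finset U) (i : ℕ) {N : ℝ}
    (hN0 : 0 ≤ N) (hN : ∀ u v, ((Fn near (insert u (insert v J)) i).card : ℝ) ≤ N)
    (r : Fin (i + 1)) :
    (((Fn near J (i + 2)).filter (fun f => near (f 0) (f r.succ))).card : ℝ) ≤
      (Fintype.card U * K : ℕ) * N := by
  set N_2 := (univ : Finset (U × U)).filter (fun z => near z.1 z.2) with hN2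
  have hN2c : N_2.card ≤ Fintype.card U * K := by
    have h1 : N_2 = univ.biUnion (fun v : U => (univ.filter (fun u => near v u)).image
        (fun u => (v, u))) := by
      ext ⟨a, b⟩
      simp [hN2]
    rw [h1]
    refine card_biUnion_le.trans ?_
    refine (sum_le_card_nsmul _ _ K (fun v _ => card_image_le.trans (hball v))).trans
      (le_of_eq ?_)
    rw [smul_eq_mul, card_univ]
  have hmap : ∀ f ∈ (Fn near J (i + 2)).filter (fun f => near (f 0) (f r.succ)),
      (fun f : Fin (i + 2) → U => (f 0, f r.succ)) f ∈ (N_2 : Set (U × U)) := by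
    intro f hf
    rw [mem_coe, hN2]
    exact mem_filter.2 ⟨mem_univ _, (mem_filter.1 hf).2⟩
  rw [card_eq_sum_card_fiberwise hmap]
  push_cast
  have h1 : ∀ z ∈ N_2, ((((Fn near J (i + 2)).filter (fun f => near (f 0) (f r.succ))).filter
      (fun f => (f 0, f r.succ) = z)).card : ℝ) ≤ N := by
    rintro ⟨u, v⟩ _
    refine le_trans ?_ (hN u v)
    have h2 : (((Fn near J (i + 2)).filter (fun f => near (f 0) (f r.succ))).filter
      (fun f => (f 0, f r.succ) = (u, v))).card ≤ (Fn near (insert u (insert v J)) i).card := by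
      refine card_le_card_of_injOn (fun f s => f (r.succAbove s).succ) ?_ ?_
      · intro f hf
        rw [mem_coe, mem_filter, mem_filter, Prod.mk.injEq] at hf
        obtain ⟨⟨hf1, _⟩, hf0, hfr⟩ := hf
        rw [mem_coe, mem_Fn]
        rw [mem_Fn] at hf1
        intro s
        rcases hf1 (r.succAbove s).succ with ⟨s', hs', hn⟩ | ⟨w, hw, hn⟩
        · by_cases h0 : s' = 0
          · right
            refine ⟨u, mem_insert_self _ _, ?_⟩
            rw [← hf0, ← h0]
            exact hn
          · obtain ⟨q, rfl⟩ := Fin.exists_succ_eq.2 h0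
            by_cases hq : q = r
            · right
              refine ⟨v, mem_insert_of_mem (mem_insert_self _ _), ?_⟩
              rw [← hfr]
              rw [hq] at hn
              exact hn
            · left
              obtain ⟨q', rfl⟩ := Fin.exists_succAbove_eq hq
              exact ⟨q', fun h => hs' (by rw [h]), hn⟩
        · exact Or.inr ⟨w, mem_insert_of_mem (mem_insert_of_mem hw), hn⟩
      · intro f hf f' hf' h
        rw [mem_coe, mem_filter, Prod.mk.injEq] at hf hf'
        funext s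
        by_cases h0 : s = 0
        · rw [h0, hf.2.1, hf'.2.1]
        · obtain ⟨q, rfl⟩ := Fin.exists_succ_eq.2 h0
          by_cases hq : q = r
          · rw [hq, hf.2.2, hf'.2.2]
          · obtain ⟨q', rfl⟩ := Fin.exists_succAbove_eq hq
            exact congrFun h q'
    exact_mod_cast h2
  calc _ ≤ ∑ z ∈ N_2, N := sum_le_sum h1
    _ = N_2.card * N := by rw [sum_const, nsmul_eq_mul]
    _ ≤ ((Fintype.card U * K : ℕ) : ℝ) * N :=
        mul_le_mul_of_nonneg_right (by exact_mod_cast hN2c) hN0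
    _ = _ := by push_cast; ring

/-- The number of sequences in which every entry has a partner. -/
theorem card_Fn {K l : ℕ} (hK : 1 ≤ K) (hsym : ∀ u v, near u v → near v u)
    (hball : ∀ u, (univ.filter (fun v => near u v)).card ≤ K) {s : ℝ} (hs : 1 ≤ s)
    (hsn : s ^ 2 = Fintype.card U) :
    ∀ (i : ℕ) (J : Finset U), i + J.card ≤ l →
      ((Fn near J i).card : ℝ) ≤ (l * K * s) ^ i := by
  have hKR : (1 : ℝ) ≤ K := by exact_mod_cast hK
  intro i
  induction i using Nat.strong_induction_on with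
  | _ i ih =>
  intro J hJ
  have hl0 : (0 : ℝ) ≤ l := Nat.cast_nonneg _
  have hX0 : 0 ≤ (l : ℝ) * K * s := by positivity
  match i, ih, hJ with
  | 0, _, _ =>
    rw [pow_zero]
    have : (Fn near J 0).card ≤ 1 := by
      refine (card_le_univ _).trans ?_
      simp
    exact_mod_cast this
  | 1, ih, hJ =>
    have h0 := ih 0 (by omega)
    have h1 : Fn near J 1 = (Fn near J (0 + 1)).filter (fun f => ∃ v ∈ J, near (f 0) v) := by
      ext f
      rw [mem_filter]
      refine ⟨fun hf => ⟨hf, ?_⟩, fun hf => hf.1⟩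
      rcases (mem_Fn.1 hf) 0 with ⟨s', hs', _⟩ | h
      · exact absurd (Subsingleton.elim s' 0) hs'
      · exact h
    rw [h1]
    refine (card_first hsym hball J 0 (N := 1) zero_le_one (fun u => ?_)).trans ?_
    · have : (Fn near (insert u J) 0).card ≤ 1 := by
        refine (card_le_univ _).trans ?_
        simp
      exact_mod_cast this
    · rw [mul_one, pow_one]
      push_cast
      have hJl : (J.card : ℝ) ≤ l := by exact_mod_cast (by omega : J.card ≤ l)
      calc (J.card : ℝ) * K ≤ l * K := mul_le_mul_of_nonneg_right hJl (by linarith)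
        _ = l * K * 1 := by ring
        _ ≤ l * K * s := mul_le_mul_of_nonneg_left hs (by positivity)
  | (i + 2), ih, hJ =>
    set X : ℝ := (l : ℝ) * K * s with hX
    have h1 : Fn near J (i + 2) ⊆ (Fn near J (i + 1 + 1)).filter (fun f => ∃ v ∈ J, near (f 0) v) ∪
        (univ : Finset (Fin (i + 1))).biUnion (fun r =>
          (Fn near J (i + 2)).filter (fun f => near (f 0) (f r.succ))) := by
      intro f hf
      rw [mem_union, mem_filter, mem_biUnion]
      rcases (mem_Fn.1 hf) 0 with ⟨s', hs', hn⟩ | h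
      · right
        obtain ⟨r, rfl⟩ := Fin.exists_succ_eq.2 hs'
        exact ⟨r, mem_univ _, mem_filter.2 ⟨hf, hn⟩⟩
      · exact Or.inl ⟨hf, h⟩
    have ha := card_first (near := near) hsym hball J (i + 1) (N := X ^ (i + 1)) (by positivity)
      (fun u => ih (i + 1) (by omega) (insert u J) (by
        have := card_insert_le u J
        omega))
    have hb := fun r => card_second (near := near) hball J i (N := X ^ i) (by positivity)
      (fun u v => ih i (by omega) (insert u (insert v J)) (by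
        have := card_insert_le u (insert v J)
        have := card_insert_le v J
        omega)) r
    have h2 := (card_le_card h1).trans ((card_union_le _ _).trans
      (Nat.add_le_add_left card_biUnion_le _))
    have h3 : ((Fn near J (i + 2)).card : ℝ) ≤ (J.card * K : ℕ) * X ^ (i + 1) +
        (i + 1) * ((Fintype.card U * K : ℕ) * X ^ i) := by
      calc ((Fn near J (i + 2)).card : ℝ) ≤
          (((Fn near J (i + 1 + 1)).filter (fun f => ∃ v ∈ J, near (f 0) v)).card : ℝ) +
            ∑ r : Fin (i + 1),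
              (((Fn near J (i + 2)).filter (fun f => near (f 0) (f r.succ))).card : ℝ) := by
            exact_mod_cast h2
        _ ≤ (J.card * K : ℕ) * X ^ (i + 1) +
            ∑ r : Fin (i + 1), ((Fintype.card U * K : ℕ) : ℝ) * X ^ i :=
            add_le_add ha (sum_le_sum (fun r _ => hb r))
        _ = _ := by
            rw [sum_const, card_univ, Fintype.card_fin, nsmul_eq_mul]
            push_cast; ring
    refine h3.trans ?_
    push_cast
    rw [← hsn]
    have hcard : (i : ℝ) + 2 + J.card ≤ l := by exact_mod_cast hJ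
    have hJ0 : (0 : ℝ) ≤ J.card := Nat.cast_nonneg _
    have hi0 : (0 : ℝ) ≤ i := Nat.cast_nonneg _
    have hXi : 0 ≤ X ^ i := by positivity
    have key : (J.card : ℝ) * K * X + (i + 1) * (s ^ 2 * K) ≤ X ^ 2 := by
      have hss : s ≤ s ^ 2 := by nlinarith
      have a1 : (J.card : ℝ) * K * X ≤ J.card * (l * K ^ 2 * s ^ 2) := by
        rw [hX]
        calc (J.card : ℝ) * K * (l * K * s) = J.card * (l * K ^ 2 * s) := by ring
          _ ≤ J.card * (l * K ^ 2 * s ^ 2) := by gcongr
      have hl1 : (1 : ℝ) ≤ l := by linarith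
      have a2 : ((i : ℝ) + 1) * (s ^ 2 * K) ≤ (i + 1) * (l * K ^ 2 * s ^ 2) := by
        refine mul_le_mul_of_nonneg_left ?_ (by positivity)
        have hK2 : (K : ℝ) ≤ K ^ 2 := by nlinarith
        calc s ^ 2 * K ≤ s ^ 2 * K ^ 2 := mul_le_mul_of_nonneg_left hK2 (by positivity)
          _ = 1 * (K ^ 2 * s ^ 2) := by ring
          _ ≤ l * (K ^ 2 * s ^ 2) := mul_le_mul_of_nonneg_right hl1 (by positivity)
          _ = _ := by ring
      calc (J.card : ℝ) * K * X + (i + 1) * (s ^ 2 * K)
          ≤ (J.card + (i + 1)) * (l * K ^ 2 * s ^ 2) := by linarith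
        _ ≤ l * (l * K ^ 2 * s ^ 2) := mul_le_mul_of_nonneg_right (by linarith) (by positivity)
        _ = X ^ 2 := by rw [hX]; ring
    calc (J.card : ℝ) * K * X ^ (i + 1) + (i + 1) * (s ^ 2 * K * X ^ i)
        = ((J.card : ℝ) * K * X + (i + 1) * (s ^ 2 * K)) * X ^ i := by ring
      _ ≤ X ^ 2 * X ^ i := mul_le_mul_of_nonneg_right key hXi
      _ = X ^ (i + 2) := by ring

/-- A weight on permutations that gives small weight to every prescription of preimages. -/
def Spread (ν : Equiv.Perm U → ℝ) (I' : Finset U) (l : ℕ) (c : ℝ) : Prop :=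
  ∀ S : Finset U, S.card ≤ l → Disjoint S I' → ∀ f : U → U,
    ∑ τ ∈ univ.filter (fun τ : Equiv.Perm U => ∀ s ∈ S, τ.symm s = f s), ν τ ≤
      c ^ S.card * ∑ τ, ν τ

/-- The weight of the permutations under which the preimages of `S` all have partners. -/
theorem weight_paired {K l : ℕ} (hK : 1 ≤ K) (hsym : ∀ u v, near u v → near v u)
    (hball : ∀ u, (univ.filter (fun v => near u v)).card ≤ K) {s : ℝ} (hs : 1 ≤ s)
    (hsn : s ^ 2 = Fintype.card U) {ν : Equiv.Perm U → ℝ} (hν : ∀ τ, 0 ≤ ν τ) {I I' : Finset U}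
    {c : ℝ} (hc : 0 ≤ c) (hsp : Spread ν I' l c) {S : Finset U} (hS : S.card + I.card ≤ l)
    (hd : Disjoint S I') :
    ∑ τ ∈ univ.filter (fun τ : Equiv.Perm U => Pd near I (S.image τ.symm)), ν τ ≤
      (l * K * s * c) ^ S.card * ∑ τ, ν τ := by
  set i := S.card with hi
  have hν0 : 0 ≤ ∑ τ, ν τ := sum_nonneg (fun τ _ => hν τ)
  -- extension of a sequence to a function on `U`
  let ex : (Fin i → U) → U → U := fun f u => if h : u ∈ S then f (S.equivFin ⟨u, h⟩) else u
  have h1 : univ.filter (fun τ : Equiv.Perm U => Pd near I (S.image τ.symm)) ⊆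
      (Fn near I i).biUnion (fun f => univ.filter (fun τ : Equiv.Perm U =>
        ∀ s ∈ S, τ.symm s = ex f s)) := by
    intro τ hτ
    rw [mem_filter] at hτ
    rw [mem_biUnion]
    refine ⟨fun r => τ.symm (S.equivFin.symm r : S), ?_, ?_⟩
    · rw [mem_Fn]
      intro r
      obtain ⟨v, hv, hn⟩ := hτ.2 (τ.symm (S.equivFin.symm r : S))
        (mem_image_of_mem _ (S.equivFin.symm r).2)
      rw [mem_union, mem_erase] at hv
      rcases hv with ⟨hne, hv⟩ | hv
      · left
        obtain ⟨s', hs', rfl⟩ := mem_image.1 hv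
        refine ⟨S.equivFin ⟨s', hs'⟩, ?_, ?_⟩
        · rintro rfl
          simp at hne
        · simpa using hn
      · exact Or.inr ⟨v, hv, hn⟩
    · rw [mem_filter]
      refine ⟨mem_univ _, fun s hs => ?_⟩
      simp only [ex, dif_pos hs, Equiv.symm_apply_apply]
  have h2 : ∑ τ ∈ univ.filter (fun τ : Equiv.Perm U => Pd near I (S.image τ.symm)), ν τ ≤
      ∑ f ∈ Fn near I i, ∑ τ ∈ univ.filter (fun τ : Equiv.Perm U =>
        ∀ s ∈ S, τ.symm s = ex f s), ν τ := by
    refine (sum_le_sum_of_subset_of_nonneg h1 (fun τ _ _ => hν τ)).trans ?_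
    exact sum_bU_le (fun τ => hν τ) _ _
  refine h2.trans ?_
  have h3 : ∀ f ∈ Fn near I i, ∑ τ ∈ univ.filter (fun τ : Equiv.Perm U =>
      ∀ s ∈ S, τ.symm s = ex f s), ν τ ≤ c ^ i * ∑ τ, ν τ := fun f _ =>
    hsp S (by omega) hd (ex f)
  refine (sum_le_card_nsmul _ _ _ h3).trans ?_
  rw [nsmul_eq_mul, mul_pow, mul_assoc]
  refine mul_le_mul_of_nonneg_right ?_ (by positivity)
  exact card_Fn hK hsym hball hs hsn i I hS

end

end Pool.Agent.Lib.MP_8d8c46_lc.EL
end

section

/-!
Bounds for the sums over all levels.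
-/

set_option autoImplicit false
set_option linter.unusedSectionVars false

open scoped Classical
open Finset

namespace Pool.Agent.Lib.MP_8d8c46_lc.EL

section perms
variable {U : Type} [Fintype U]

lemma card_perm_fixedU (B : Finset U) (f : U → U) :
    (univ.filter (fun τ : Equiv.Perm U => ∀ u ∈ B, τ u = f u)).card ≤
      (Fintype.card U - B.card).factorial := by
  by_cases hne : (univ.filter (fun τ : Equiv.Perm U => ∀ u ∈ B, τ u = f u)).Nonempty
  · obtain ⟨τ₀, hτ₀⟩ := hne
    simp only [mem_filter, mem_univ, true_and] at hτ₀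
    have himg : (B.image f).card = B.card := by
      rw [card_image_of_injOn]
      intro a ha b hb hab
      have h1 := hτ₀ a ha
      have h2 := hτ₀ b hb
      apply τ₀.injective
      rw [h1, h2]; exact hab
    have hα : Fintype.card {x : U // x ∉ B} = Fintype.card U - B.card := by
      rw [Fintype.card_subtype_compl, Fintype.card_coe]
    have hβ : Fintype.card {x : U // x ∉ B.image f} = Fintype.card U - B.card := by
      rw [Fintype.card_subtype_compl, Fintype.card_coe, himg]
    have hemb : Fintype.card ({x : U // x ∉ B} ↪ {x : U // x ∉ B.image f}) =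
        (Fintype.card U - B.card).factorial := by
      rw [Fintype.card_embedding_eq, hα, hβ, Nat.descFactorial_self]
    rw [← hemb, ← card_univ]
    have hmem : ∀ τ ∈ univ.filter (fun τ : Equiv.Perm U => ∀ u ∈ B, τ u = f u),
        ∀ x : {x : U // x ∉ B}, τ x ∉ B.image f := by
      intro τ hτ x hx
      simp only [mem_filter, mem_univ, true_and] at hτ
      rw [mem_image] at hx
      obtain ⟨b, hb, hbx⟩ := hx
      rw [← hτ b hb] at hbx
      exact x.2 (τ.injective hbx ▸ hb)
    refine card_le_card_of_injOn (fun τ => if h : ∀ x : {x : U // x ∉ B}, τ x ∉ B.image f then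
        ⟨fun x => ⟨τ x, h x⟩, fun a b hab => by
          simpa [Subtype.ext_iff] using hab⟩ else
        ⟨fun x => ⟨τ₀ x, hmem τ₀ (by simpa using hτ₀) x⟩, fun a b hab => by
          simpa [Subtype.ext_iff] using hab⟩) (fun _ _ => mem_coe.2 (mem_univ _)) ?_
    intro τ hτ τ' hτ' heq
    have h1 := hmem τ hτ
    have h2 := hmem τ' hτ'
    simp only [dif_pos h1, dif_pos h2] at heq
    simp only [coe_filter, mem_univ, true_and, Set.mem_ofPred_eq] at hτ hτ'
    refine Equiv.ext (fun x => ?_)
    by_cases hx : x ∈ B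
    · rw [hτ x hx, hτ' x hx]
    · exact congrArg (fun (g : {x : U // x ∉ B} ↪ {x : U // x ∉ B.image f}) =>
        ((g ⟨x, hx⟩ : {x : U // x ∉ B.image f}) : U)) heq
  · rw [not_nonempty_iff_eq_empty] at hne
    rw [hne, card_empty]
    exact Nat.zero_le _

lemma fact_bound {n m : ℕ} (h : 2 * m ≤ n) :
    ((n - m).factorial : ℝ) * (n : ℝ) ^ m ≤ 2 ^ m * n.factorial := by
  have hmn : m ≤ n := by omega
  have h4 : (n + 1 - m) ^ m ≤ n.descFactorial m := Nat.pow_sub_le_descFactorial n m
  have h5 : (n - m).factorial * n.descFactorial m = n.factorial := Nat.factorial_mul_descFactorial hmn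
  have h6 : n ^ m ≤ 2 ^ m * (n + 1 - m) ^ m := by
    rw [← mul_pow]
    exact Nat.pow_le_pow_left (by omega) m
  have h7 : (n - m).factorial * n ^ m ≤ 2 ^ m * n.factorial := by
    calc (n - m).factorial * n ^ m ≤ (n - m).factorial * (2 ^ m * (n + 1 - m) ^ m) :=
          Nat.mul_le_mul_left _ h6
      _ = 2 ^ m * ((n - m).factorial * (n + 1 - m) ^ m) := by ring
      _ ≤ 2 ^ m * ((n - m).factorial * n.descFactorial m) := by gcongr
      _ = _ := by rw [h5]
  exact_mod_cast h7

/-- The uniform weight is spread. -/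
lemma spread_unif {l : ℕ} (hl : 2 * l ≤ Fintype.card U) (hU : 0 < Fintype.card U) :
    Spread (fun _ : Equiv.Perm U => (1 : ℝ)) ∅ l (4 / Fintype.card U) := by
  intro S hS _ f
  have hn : (0 : ℝ) < Fintype.card U := by exact_mod_cast hU
  rw [sum_const, nsmul_eq_mul, mul_one, sum_const, card_univ, Fintype.card_perm, nsmul_eq_mul,
    mul_one]
  have h1 : (univ.filter (fun τ : Equiv.Perm U => ∀ s ∈ S, τ.symm s = f s)).card ≤
      (univ.filter (fun τ : Equiv.Perm U => ∀ s ∈ S, τ s = f s)).card := by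
    refine card_le_card_of_injOn (fun τ => τ.symm) ?_ ?_
    · intro τ hτ
      simp only [coe_filter, mem_univ, true_and, Set.mem_ofPred_eq] at hτ ⊢
      exact hτ
    · intro τ _ τ' _ h
      exact Equiv.symm_bijective.injective h
  have h2 := h1.trans (card_perm_fixedU S f)
  have h3 := fact_bound (n := Fintype.card U) (m := S.card) (by omega)
  rw [div_pow, div_mul_eq_mul_div, le_div_iff₀ (by positivity)]
  calc ((univ.filter (fun τ : Equiv.Perm U => ∀ s ∈ S, τ.symm s = f s)).card : ℝ) *
        (Fintype.card U : ℝ) ^ S.card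
      ≤ ((Fintype.card U - S.card).factorial : ℝ) * (Fintype.card U : ℝ) ^ S.card := by
        refine mul_le_mul_of_nonneg_right ?_ (by positivity)
        exact_mod_cast h2
    _ ≤ 2 ^ S.card * (Fintype.card U).factorial := h3
    _ ≤ 4 ^ S.card * (Fintype.card U).factorial := by
        refine mul_le_mul_of_nonneg_right ?_ (by positivity)
        exact pow_le_pow_left₀ (by norm_num) (by norm_num) _

end perms

section
variable {U A Γ : Type} [Fintype U] [Fintype A] [Nonempty A] [Fintype Γ] [Nonempty Γ]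
  {near : U → U → Prop}

/-- the total weight of level `i` -/
noncomputable def Wl (g : (U → A) → ℝ) (i : ℕ) : ℝ := ∑ S ∈ powersetCard i univ, nr g S

lemma Wl_nonneg (g : (U → A) → ℝ) (i : ℕ) : 0 ≤ Wl g i := sum_nonneg (fun S _ => nr_nonneg g S)

lemma Wl_le_sq (g : (U → A) → ℝ) (i : ℕ) : Wl g i ≤ avg (fun x => g x ^ 2) := bessel g _

/-- The Cauchy–Schwarz step. -/
lemma cs_level (𝒬 : Finset (Equiv.Perm U)) (z : Equiv.Perm U → ℝ) (hz : ∀ τ, 0 ≤ z τ)
    (F : Equiv.Perm U → (U → Γ) → ℝ) (hF0 : ∀ τ, z τ = 0 → ∀ T, n1 (F τ) T = 0)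
    (g : (U → A) → ℝ) (𝒯 : Finset (Finset U)) {P Q : ℝ}
    (hP : ∑ τ ∈ 𝒬, (∑ T ∈ 𝒯, nr (F τ) T) / z τ ≤ P)
    (hQ : ∑ τ ∈ 𝒬, z τ * ∑ T ∈ 𝒯, nr g (T.image τ) ≤ Q) :
    ∑ τ ∈ 𝒬, ∑ T ∈ 𝒯, n1 (F τ) T * n1 g (T.image τ) ≤ √(P * Q) := by
  have h0 : 0 ≤ ∑ τ ∈ 𝒬, ∑ T ∈ 𝒯, n1 (F τ) T * n1 g (T.image τ) :=
    sum_nonneg (fun τ _ => sum_nonneg (fun T _ => mul_nonneg (n1_nonneg _ _) (n1_nonneg _ _)))
  have hQ0 : 0 ≤ Q := le_trans (sum_nonneg (fun τ _ => mul_nonneg (hz τ)
    (sum_nonneg (fun T _ => nr_nonneg _ _)))) hQ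
  rw [← Real.sqrt_sq h0]
  refine Real.sqrt_le_sqrt ?_
  have h1 : ∑ τ ∈ 𝒬, ∑ T ∈ 𝒯, n1 (F τ) T * n1 g (T.image τ) =
      ∑ q ∈ 𝒬 ×ˢ 𝒯, (n1 (F q.1) q.2 / √(z q.1)) * (√(z q.1) * n1 g (q.2.image q.1)) := by
    rw [sum_product]
    refine sum_congr rfl (fun τ _ => sum_congr rfl (fun T _ => ?_))
    simp only
    by_cases h : z τ = 0
    · rw [hF0 τ h T, h]; simp
    · have : √(z τ) ≠ 0 := by
        rw [Real.sqrt_ne_zero (hz τ)]; exact h
      field_simp
  rw [h1]
  refine (sum_mul_sq_le_sq_mul_sq _ _ _).trans ?_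
  refine mul_le_mul (le_trans ?_ hP) (le_trans ?_ hQ) (sum_nonneg (fun _ _ => sq_nonneg _)) ?_
  · rw [sum_product]
    refine sum_le_sum (fun τ _ => ?_)
    rw [sum_div]
    refine sum_le_sum (fun T _ => ?_)
    simp only
    rw [div_pow, Real.sq_sqrt (hz τ)]
    exact div_le_div_of_nonneg_right (n1_sq_le _ _) (hz τ)
  · rw [sum_product]
    refine sum_le_sum (fun τ _ => ?_)
    rw [mul_sum]
    refine sum_le_sum (fun T _ => ?_)
    simp only
    rw [mul_pow, Real.sq_sqrt (hz τ)]
    exact mul_le_mul_of_nonneg_left (n1_sq_le _ _) (hz τ)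
  · exact le_trans (sum_nonneg (fun τ _ => div_nonneg
      (sum_nonneg (fun T _ => nr_nonneg _ _)) (hz τ))) hP

/-- The weight of the images of the paired sets. -/
lemma weight_image {K l : ℕ} (hK : 1 ≤ K) (hsym : ∀ u v, near u v → near v u)
    (hball : ∀ u, (univ.filter (fun v => near u v)).card ≤ K) {s : ℝ} (hs : 1 ≤ s)
    (hsn : s ^ 2 = Fintype.card U) {ν : Equiv.Perm U → ℝ} (hν : ∀ τ, 0 ≤ ν τ) {I I' : Finset U}
    {c : ℝ} (hc : 0 ≤ c) (hsp : Spread ν I' l c) {i : ℕ} (hi : i + I.card ≤ l)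
    (𝒯 : Finset (Finset U)) (h𝒯 : ∀ T ∈ 𝒯, T.card = i ∧ Pd near I T)
    (hI' : ∀ τ, ν τ ≠ 0 → ∀ T ∈ 𝒯, Disjoint (T.image τ) I') (g : (U → A) → ℝ) :
    ∑ τ, ν τ * ∑ T ∈ 𝒯, nr g (T.image τ) ≤ ((l * K * s * c) ^ i * ∑ τ, ν τ) * Wl g i := by
  have h1 : ∀ τ : Equiv.Perm U, ∑ T ∈ 𝒯, nr g (T.image τ) =
      ∑ S ∈ powersetCard i univ, if S.image τ.symm ∈ 𝒯 then nr g S else 0 := by
    intro τ
    have hinj : Function.Injective (fun T : Finset U => T.image τ) :=
      Finset.image_injective τ.injective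
    rw [← sum_filter]
    have h2 : (powersetCard i (univ : Finset U)).filter (fun S => S.image τ.symm ∈ 𝒯) =
        𝒯.image (fun T => T.image τ) := by
      ext S
      rw [mem_filter, mem_powersetCard, mem_image]
      constructor
      · rintro ⟨_, h3⟩
        refine ⟨_, h3, ?_⟩
        rw [image_image]
        simp
      · rintro ⟨T, hT, rfl⟩
        refine ⟨⟨subset_univ _, ?_⟩, ?_⟩
        · rw [card_image_of_injective _ τ.injective]; exact (h𝒯 T hT).1
        · rw [image_image]
          simpa using hT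
    rw [h2, sum_image (fun a _ b _ h => hinj h)]
  have h2 : ∑ τ, ν τ * ∑ T ∈ 𝒯, nr g (T.image τ) =
      ∑ S ∈ powersetCard i univ, nr g S *
        ∑ τ, if S.image (τ : Equiv.Perm U).symm ∈ 𝒯 then ν τ else 0 := by
    simp only [h1, mul_sum]
    rw [sum_comm]
    refine sum_congr rfl (fun S _ => sum_congr rfl (fun τ _ => ?_))
    split_ifs <;> ring
  rw [h2]
  unfold Wl
  rw [mul_sum]
  refine sum_le_sum (fun S hS => ?_)
  rw [mem_powersetCard] at hS
  rw [mul_comm]
  refine mul_le_mul_of_nonneg_right ?_ (nr_nonneg g S)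
  have hν0 : 0 ≤ ∑ τ, ν τ := sum_nonneg (fun τ _ => hν τ)
  have hl0 : (0 : ℝ) ≤ l := Nat.cast_nonneg _
  have hK0 : (0 : ℝ) ≤ K := Nat.cast_nonneg _
  by_cases hd : Disjoint S I'
  · rw [← sum_filter]
    have hwp := weight_paired hK hsym hball hs hsn hν hc hsp (S := S) (I := I) (by omega) hd
    rw [hS.2] at hwp
    refine le_trans ?_ hwp
    refine sum_le_sum_of_subset_of_nonneg (fun τ hτ => ?_) (fun τ _ _ => hν τ)
    rw [mem_filter] at hτ ⊢
    exact ⟨hτ.1, (h𝒯 _ hτ.2).2⟩
  · have h3 : ∑ τ, (if S.image (τ : Equiv.Perm U).symm ∈ 𝒯 then ν τ else 0) = 0 := by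
      refine sum_eq_zero (fun τ _ => ?_)
      split_ifs with h4
      · by_contra h5
        apply hd
        have h6 := hI' τ h5 _ h4
        rw [image_image] at h6
        simpa using h6
      · rfl
    rw [h3]
    positivity

end

end Pool.Agent.Lib.MP_8d8c46_lc.EL
end

section

/-!
The correlation of the relabelled functional with an arbitrary function of the relabelling.
-/

set_option autoImplicit false
set_option linter.unusedSectionVars false

open scoped Classical
open Finset

namespace Pool.Agent.Lib.MP_8d8c46_lc.EL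

section
variable {U A Γ : Type} [Fintype U] [Fintype A] [Nonempty A] [Fintype Γ] [Nonempty Γ]
  {near : U → U → Prop} {k : ℕ} (P : PDist U A near k) (𝔞 : Act Γ A)

lemma geom_le {y : ℝ} (hy0 : 0 ≤ y) (hy : y ≤ 1 / 2) (i₁ k : ℕ) :
    ∑ i ∈ Icc i₁ k, y ^ i ≤ 2 * y ^ i₁ := by
  have h1 : ∀ m : ℕ, ∑ i ∈ range m, y ^ (i₁ + i) ≤ 2 * y ^ i₁ - 2 * y ^ (i₁ + m) := by
    intro m
    induction m with
    | zero => simp
    | succ m ih =>
      rw [sum_range_succ]
      have h2 : y ^ (i₁ + (m + 1)) = y ^ (i₁ + m) * y := by rw [← add_assoc, pow_succ]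
      have h3 : 0 ≤ y ^ (i₁ + m) := by positivity
      rw [h2]
      nlinarith
  have h2 : Icc i₁ k = (range (k + 1 - i₁)).image (fun i => i₁ + i) := by
    ext i
    rw [mem_Icc, mem_image]
    constructor
    · rintro ⟨h3, h4⟩
      exact ⟨i - i₁, mem_range.2 (by omega), by omega⟩
    · rintro ⟨j, hj, rfl⟩
      rw [mem_range] at hj
      omega
  rw [h2, sum_image (fun a _ b _ h => by omega)]
  refine (h1 _).trans ?_
  have : 0 ≤ y ^ (i₁ + (k + 1 - i₁)) := by positivity
  linarith

lemma card_A_pos : (1 : ℝ) ≤ Fintype.card A := by exact_mod_cast Fintype.card_pos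

/-- one term -/
lemma term_bound (F : (U → Γ) → ℝ) (g : (U → A) → ℝ) (τ : Equiv.Perm U) {T : Finset U}
    (hT : T.card ≤ k) :
    |avg (fun w => F w * avg (fun x => dl P ∅ T (ax 𝔞 w (x ∘ τ)) * g x))| ≤
      (2 * (Fintype.card A : ℝ)) ^ T.card * (n1 F T * n1 g (T.image τ)) := by
  have h1 := bil 𝔞 (Δ := dl P ∅ T) (T := T) (by
      have := dl_dep P ∅ T
      rwa [empty_union] at this)
    (fun u hu => dl_mz P (disjoint_empty_left _) (by simpa using hT) hu)
    (H := (2 * (Fintype.card A : ℝ)) ^ T.card)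
    (fun y => by
      have := abs_dl_le P (I := ∅) (T := T) (disjoint_empty_left _) (by simpa using hT) y
      rwa [P.empty, mul_one] at this) F g τ
  have h2 : (fun w => F w * avg (fun x => dl P ∅ T (ax 𝔞 w (x ∘ τ)) * g x)) =
      fun w => avg (fun x => F w * dl P ∅ T (ax 𝔞 w (x ∘ τ)) * g x) := by
    funext w
    rw [← avg_const_mul]
    congr 1; funext x; ring
  rw [h2]
  refine h1.trans (le_of_eq ?_)
  ring

theorem high_bound {K l : ℕ} (hK : 1 ≤ K) (hsym : ∀ u v, near u v → near v u)
    (hball : ∀ u, (univ.filter (fun v => near u v)).card ≤ K) {s : ℝ} (hs : 1 ≤ s)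
    (hsn : s ^ 2 = Fintype.card U) (hl : 2 * l ≤ Fintype.card U) (hkl : k ≤ l)
    {y : ℝ} (hy0 : 0 ≤ y) (hy : y ≤ 1 / 2)
    (hyc : (2 * (Fintype.card A : ℝ)) ^ 2 * (l * K * s * (4 / Fintype.card U)) ≤ y ^ 2)
    (F : Equiv.Perm U → (U → Γ) → ℝ) (g : (U → A) → ℝ) (𝒯 : Finset (Finset U)) {i₁ : ℕ}
    (h𝒯 : ∀ T ∈ 𝒯, i₁ ≤ T.card ∧ T.card ≤ k) :
    |∑ τ, avg (fun w => F τ w * ∑ T ∈ 𝒯, avg (fun x => dl P ∅ T (ax 𝔞 w (x ∘ τ)) * g x))| ≤
      √(∑ τ, avg (fun w => F τ w ^ 2)) * √((Fintype.card U).factorial * avg (fun x => g x ^ 2)) *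
        (2 * y ^ i₁) := by
  have hA := card_A_pos (A := A)
  have hU0 : (0 : ℝ) < Fintype.card U := by rw [← hsn]; positivity
  have hUn : 0 < Fintype.card U := by exact_mod_cast hU0
  set c' : ℝ := l * K * s * (4 / Fintype.card U) with hc'
  have hc'0 : 0 ≤ c' := by rw [hc']; positivity
  set G : ℝ := (Fintype.card U).factorial * avg (fun x => g x ^ 2) with hG
  set PF : ℝ := ∑ τ, avg (fun w => F τ w ^ 2) with hPF
  have hPF0 : 0 ≤ PF := sum_nonneg (fun τ _ => avg_nonneg (fun _ => sq_nonneg _))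
  have hg20 : 0 ≤ avg (fun x => g x ^ 2) := avg_nonneg (fun _ => sq_nonneg _)
  have hG0 : 0 ≤ G := mul_nonneg (Nat.cast_nonneg _) hg20
  -- the levels
  let 𝒯i : ℕ → Finset (Finset U) := fun i => 𝒯.filter (fun T => T.card = i ∧ Pd near ∅ T)
  have hlev : ∀ i ∈ Icc i₁ k, (2 * (Fintype.card A : ℝ)) ^ i *
      ∑ τ, ∑ T ∈ 𝒯i i, n1 (F τ) T * n1 g (T.image τ) ≤ √PF * √G * y ^ i := by
    intro i hi
    rw [mem_Icc] at hi
    have h𝒯i : ∀ T ∈ 𝒯i i, T.card = i ∧ Pd near ∅ T := fun T hT => (mem_filter.1 hT).2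
    have hsub : 𝒯i i ⊆ powersetCard i univ := fun T hT =>
      mem_powersetCard.2 ⟨subset_univ _, (h𝒯i T hT).1⟩
    have h1 := cs_level (univ : Finset (Equiv.Perm U)) (fun _ => 1) (fun _ => zero_le_one) F
      (fun τ h => absurd h one_ne_zero) g (𝒯i i) (P := PF) (Q := c' ^ i * G) (by
        refine sum_le_sum (fun τ _ => ?_)
        rw [div_one]
        exact bessel _ _) (by
        have h2 := weight_image hK hsym hball hs hsn (ν := fun _ => (1 : ℝ))
          (fun _ => zero_le_one) (I := ∅) (I' := ∅) (c := 4 / Fintype.card U) (by positivity)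
          (spread_unif hl hUn) (i := i) (by simp; omega) (𝒯i i) h𝒯i
          (fun τ _ T _ => disjoint_empty_right _) g
        refine h2.trans ?_
        rw [sum_const, card_univ, Fintype.card_perm, nsmul_eq_mul, mul_one, ← hc', hG]
        calc c' ^ i * ((Fintype.card U).factorial : ℝ) * Wl g i
            ≤ c' ^ i * ((Fintype.card U).factorial : ℝ) * avg (fun x => g x ^ 2) :=
              mul_le_mul_of_nonneg_left (Wl_le_sq g i) (by positivity)
          _ = _ := by ring)
    have h3 : (2 * (Fintype.card A : ℝ)) ^ i * √(PF * (c' ^ i * G)) ≤ √PF * √G * y ^ i := by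
      have e1 : (2 * (Fintype.card A : ℝ)) ^ i = √(((2 * (Fintype.card A : ℝ)) ^ i) ^ 2) :=
        (Real.sqrt_sq (by positivity)).symm
      have e2 : y ^ i = √((y ^ i) ^ 2) := (Real.sqrt_sq (by positivity)).symm
      rw [e1, e2, ← Real.sqrt_mul (by positivity), ← Real.sqrt_mul hPF0, ← Real.sqrt_mul
        (by positivity)]
      refine Real.sqrt_le_sqrt ?_
      have h4 : ((2 * (Fintype.card A : ℝ)) ^ i) ^ 2 * c' ^ i ≤ (y ^ i) ^ 2 := by
        calc ((2 * (Fintype.card A : ℝ)) ^ i) ^ 2 * c' ^ i =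
            ((2 * (Fintype.card A : ℝ)) ^ 2 * c') ^ i := by
              rw [mul_pow _ c', ← pow_mul, ← pow_mul, mul_comm i 2]
          _ ≤ (y ^ 2) ^ i := pow_le_pow_left₀ (by positivity) hyc i
          _ = (y ^ i) ^ 2 := by rw [← pow_mul, ← pow_mul, mul_comm i 2]
      calc ((2 * (Fintype.card A : ℝ)) ^ i) ^ 2 * (PF * (c' ^ i * G))
          = (((2 * (Fintype.card A : ℝ)) ^ i) ^ 2 * c' ^ i) * (PF * G) := by ring
        _ ≤ (y ^ i) ^ 2 * (PF * G) := mul_le_mul_of_nonneg_right h4 (by positivity)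
        _ = PF * G * (y ^ i) ^ 2 := by ring
    exact (mul_le_mul_of_nonneg_left h1 (by positivity)).trans h3
  -- the sum
  have hsum : |∑ τ, avg (fun w => F τ w * ∑ T ∈ 𝒯, avg (fun x =>
      dl P ∅ T (ax 𝔞 w (x ∘ τ)) * g x))| ≤
      ∑ i ∈ Icc i₁ k, (2 * (Fintype.card A : ℝ)) ^ i *
        ∑ τ, ∑ T ∈ 𝒯i i, n1 (F τ) T * n1 g (T.image τ) := by
    refine (abs_sum_le_sum_abs _ _).trans ?_
    have h1 : ∀ τ : Equiv.Perm U, |avg (fun w => F τ w * ∑ T ∈ 𝒯, avg (fun x =>
        dl P ∅ T (ax 𝔞 w (x ∘ τ)) * g x))| ≤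
        ∑ i ∈ Icc i₁ k, (2 * (Fintype.card A : ℝ)) ^ i *
          ∑ T ∈ 𝒯i i, n1 (F τ) T * n1 g (T.image τ) := by
      intro τ
      have e1 : avg (fun w => F τ w * ∑ T ∈ 𝒯, avg (fun x =>
          dl P ∅ T (ax 𝔞 w (x ∘ τ)) * g x)) =
          ∑ T ∈ 𝒯, avg (fun w => F τ w * avg (fun x => dl P ∅ T (ax 𝔞 w (x ∘ τ)) * g x)) := by
        rw [← avg_sum]
        congr 1; funext w
        rw [mul_sum]
      rw [e1]
      refine (abs_sum_le_sum_abs _ _).trans ?_
      have h2 : ∀ T ∈ 𝒯, |avg (fun w => F τ w * avg (fun x =>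
          dl P ∅ T (ax 𝔞 w (x ∘ τ)) * g x))| ≤
          if Pd near ∅ T then (2 * (Fintype.card A : ℝ)) ^ T.card *
            (n1 (F τ) T * n1 g (T.image τ)) else 0 := by
        intro T hT
        split_ifs with hPd
        · exact term_bound P 𝔞 (F τ) g τ (h𝒯 T hT).2
        · have h3 : ∀ x, dl P ∅ T x = 0 :=
            dl_eq_zero P (disjoint_empty_left _) (by simpa using (h𝒯 T hT).2) hPd
          have h4 : (fun w : U → Γ => F τ w * avg (fun x =>
              dl P ∅ T (ax 𝔞 w (x ∘ τ)) * g x)) = fun _ => 0 := by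
            funext w
            simp only [h3, zero_mul]
            rw [avg_const, mul_zero]
          rw [h4, avg_const, abs_zero]
      refine (sum_le_sum h2).trans (le_of_eq ?_)
      have hmaps : ∀ T ∈ 𝒯, T.card ∈ Icc i₁ k := fun T hT => mem_Icc.2 (h𝒯 T hT)
      rw [← sum_fiberwise_of_maps_to hmaps]
      refine sum_congr rfl (fun i _ => ?_)
      rw [mul_sum, ← sum_filter, filter_filter]
      refine sum_congr rfl (fun T hT => ?_)
      rw [(mem_filter.1 hT).2.1]
    refine (sum_le_sum (fun τ _ => h1 τ)).trans (le_of_eq ?_)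
    rw [sum_comm]
    exact sum_congr rfl (fun i _ => by rw [mul_sum])
  refine hsum.trans ((sum_le_sum hlev).trans ?_)
  rw [← mul_sum]
  exact mul_le_mul_of_nonneg_left (geom_le hy0 hy i₁ k) (by positivity)

end

end Pool.Agent.Lib.MP_8d8c46_lc.EL
end

section

/-!
The local densities of the selected subsets.
-/

set_option autoImplicit false
set_option linter.unusedSectionVars false

open scoped Classical
open Finset MeasureTheory ProbabilityTheory

namespace Pool.Agent.Lib.MP_8d8c46_lc.EL

open SA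

section
variable {q : ℕ} [NeZero q]

/-- Without ties, selection commutes with permutations. -/
lemma sel_perm {p : ℕ} {x : ZMod q → ℝ} (hx : Function.Injective x) (γ : Equiv.Perm (ZMod q))
    (i : ZMod q) : sel p (fun j => x (γ.symm j)) i ↔ sel p x (γ.symm i) := by
  have hkey : ∀ (y : ZMod q → ℝ), Function.Injective y → ∀ i j, key y j < key y i ↔ y i < y j := by
    intro y hy i j
    unfold key
    rw [Prod.Lex.toLex_lt_toLex]
    simp only
    constructor
    · rintro (h | ⟨h1, h2⟩)
      · linarith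
      · have : j = i := hy (neg_injective h1)
        rw [this] at h2
        exact absurd h2 (lt_irrefl _)
    · intro h
      left; linarith
  have hy : Function.Injective (fun j => x (γ.symm j)) := hx.comp γ.symm.injective
  have : rank (fun j => x (γ.symm j)) i = rank x (γ.symm i) := by
    unfold rank
    refine card_bij (fun j _ => γ.symm j) ?_ ?_ ?_
    · intro j hj
      rw [mem_filter] at hj ⊢
      refine ⟨mem_univ _, ?_⟩
      rw [hkey x hx]
      exact (hkey _ hy i j).1 hj.2
    · intro a _ b _ h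
      exact γ.symm.injective h
    · intro b hb
      rw [mem_filter] at hb
      refine ⟨γ b, ?_, γ.symm_apply_apply b⟩
      rw [mem_filter]
      refine ⟨mem_univ _, ?_⟩
      rw [hkey _ hy]
      have h1 := (hkey x hx (γ.symm i) b).1 hb.2
      simp only [Equiv.symm_apply_apply]
      exact h1
  unfold sel
  rw [this]

variable {U : Type} [Fintype U]

/-- The requirements on the kernel. -/
structure KOK (K : U × ZMod q → U × ZMod q → ℝ) (near : U → U → Prop) (k : ℕ) : Prop where
  psd : ∀ B : Finset U, B.card ≤ k → (cov K B).PosSemidef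
  self : ∀ y, K y y = 1
  cloud : ∀ u i j, i ≠ j → K (u, i) (u, j) = 0
  far : ∀ u v, ¬ near u v → ∀ i j, K (u, i) (v, j) = 0
  symm : ∀ y y', K y y' = K y' y

/-- permute the cloud of `u` -/
noncomputable def cperm (u : U) (γ : Equiv.Perm (ZMod q)) : Equiv.Perm (U × ZMod q) where
  toFun y := if y.1 = u then (y.1, γ y.2) else y
  invFun y := if y.1 = u then (y.1, γ.symm y.2) else y
  left_inv := by
    rintro ⟨v, i⟩
    by_cases h : v = u
    · subst h; simp
    · simp [h]
  right_inv := by
    rintro ⟨v, i⟩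
    by_cases h : v = u
    · subst h; simp
    · simp [h]

lemma cperm_fst (u : U) (γ : Equiv.Perm (ZMod q)) (y : U × ZMod q) : (cperm u γ y).1 = y.1 := by
  show (if y.1 = u then (y.1, γ y.2) else y).1 = y.1
  split_ifs <;> rfl

lemma cperm_self (u : U) (γ : Equiv.Perm (ZMod q)) (i : ZMod q) :
    cperm u γ (u, i) = (u, γ i) := by
  show (if (u, i).1 = u then ((u, i).1, γ (u, i).2) else (u, i)) = _
  rw [if_pos rfl]

lemma cperm_of_ne {u v : U} (h : v ≠ u) (γ : Equiv.Perm (ZMod q)) (i : ZMod q) :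
    cperm u γ (v, i) = (v, i) := by
  show (if (v, i).1 = u then ((v, i).1, γ (v, i).2) else (v, i)) = _
  rw [if_neg h]

lemma cperm_symm_self (u : U) (γ : Equiv.Perm (ZMod q)) (i : ZMod q) :
    (cperm u γ).symm (u, i) = (u, γ.symm i) := by
  rw [Equiv.symm_apply_eq, cperm_self, Equiv.apply_symm_apply]

lemma cperm_symm_of_ne {u v : U} (h : v ≠ u) (γ : Equiv.Perm (ZMod q)) (i : ZMod q) :
    (cperm u γ).symm (v, i) = (v, i) := by
  rw [Equiv.symm_apply_eq, cperm_of_ne h]

/-- permute the cloud of `u` -/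
noncomputable def bperm (B : Finset U) (u : U) (γ : Equiv.Perm (ZMod q)) : Equiv.Perm (cl q B) :=
  (cperm u γ).subtypePerm (fun y => by rw [mem_cl, mem_cl, cperm_fst])

variable {K : U × ZMod q → U × ZMod q → ℝ} {near : U → U → Prop} {k : ℕ} {p : ℕ}

lemma no_ties (hK : KOK K near k) {B : Finset U} (hB : B.card ≤ k) {u : U} (hu : u ∈ B)
    {i j : ZMod q} (hij : i ≠ j) :
    ∀ᵐ z ∂(gm K B), ext B z (u, i) ≠ ext B z (u, j) := by
  have h1 : ∀ i, (u, i) ∈ cl q B := fun i => mem_cl.2 hu
  have h2 := law_diff (hK.psd B hB) ⟨(u, i), h1 i⟩ ⟨(u, j), h1 j⟩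
  simp only [hK.self, hK.cloud u i j hij] at h2
  have hv : (1 - 2 * 0 + 1 : ℝ).toNNReal ≠ 0 := by
    norm_num
  have := nullSingletonClass_gaussianReal (μ := 0) hv
  have h3 : gaussianReal 0 (1 - 2 * 0 + 1 : ℝ).toNNReal {(0 : ℝ)} = 0 := measure_singleton 0
  rw [← h2, Measure.map_apply (by fun_prop) (measurableSet_singleton 0)] at h3
  rw [ae_iff]
  refine measure_mono_null ?_ h3
  intro z hz
  simp only [Set.mem_ofPred_eq, not_not] at hz
  simp only [Set.mem_preimage, Set.mem_singleton_iff]
  unfold SA.ext at hz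
  rw [dif_pos (h1 i), dif_pos (h1 j)] at hz
  linarith

/-- The expectations are invariant under the permutations of a far cloud. -/
lemma gE_perm (hp : p ≤ q) (hK : KOK K near k) {W : Finset U} {u : U} (hu : u ∉ W)
    (hW : W.card + 1 ≤ k) (hfar : ∀ v ∈ W, ¬ near u v) (γ : Equiv.Perm (ZMod q))
    (a : Sb (ZMod q) p) {F : (U → Sb (ZMod q) p) → ℝ} (hF : DepOn W F) :
    gE hp K (insert u W) (fun σ => (if σ u = pact γ a then 1 else 0) * F σ) =
      gE hp K (insert u W) (fun σ => (if σ u = a then 1 else 0) * F σ) := by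
  set B := insert u W with hB
  have hBc : B.card ≤ k := by rw [hB, card_insert_of_notMem hu]; exact hW
  have huB : u ∈ B := mem_insert_self _ _
  have hinv : ∀ i j : cl q B, (cov K B) (bperm B u γ i) (bperm B u γ j) = (cov K B) i j := by
    rintro ⟨⟨v, i⟩, hv⟩ ⟨⟨w, j⟩, hw⟩
    show K (cperm u γ (v, i)) (cperm u γ (w, j)) = K (v, i) (w, j)
    rw [mem_cl] at hv hw
    by_cases h1 : v = u
    · subst h1
      by_cases h2 : w = v
      · subst h2
        rw [cperm_self, cperm_self]
        by_cases hij : i = j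
        · rw [hij, hK.self, hK.self]
        · rw [hK.cloud w i j hij, hK.cloud w (γ i) (γ j) (fun h => hij (γ.injective h))]
      · have hw' : w ∈ W := by
          rcases mem_insert.1 hw with h | h
          · exact absurd h h2
          · exact h
        rw [cperm_self, cperm_of_ne h2, hK.far v w (hfar w hw'), hK.far v w (hfar w hw')]
    · by_cases h2 : w = u
      · subst h2
        have hv' : v ∈ W := by
          rcases mem_insert.1 hv with h | h
          · exact absurd h h1
          · exact h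
        rw [cperm_self, cperm_of_ne h1, hK.symm (v, i), hK.symm (v, i),
          hK.far w v (hfar v hv'), hK.far w v (hfar v hv')]
      · rw [cperm_of_ne h1, cperm_of_ne h2]
  have hmap := gauss_perm (hK.psd B hBc) (bperm B u γ) hinv
  set f := LinearIsometryEquiv.piLpCongrLeft 2 ℝ ℝ (bperm B u γ) with hf
  have hmap' : (gm K B).map f = gm K B := hmap
  unfold gE
  have h1 : ∫ z, (if ss hp (ext B z) u = pact γ a then (1 : ℝ) else 0) * F (ss hp (ext B z))
      ∂(gm K B) = ∫ z, (if ss hp (ext B (f z)) u = pact γ a then (1 : ℝ) else 0) *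
        F (ss hp (ext B (f z))) ∂(gm K B) := by
    rw [← integral_map (φ := f) (Measurable.aemeasurable (by fun_prop))
      (f := fun z => (if ss hp (ext B z) u = pact γ a then (1 : ℝ) else 0) *
        F (ss hp (ext B z))), hmap']
    rw [hmap']
    exact (measurable_F hp B (fun σ => (if σ u = pact γ a then (1 : ℝ) else 0) *
      F σ)).aestronglyMeasurable
  rw [h1]
  have htie : ∀ᵐ z ∂(gm K B), ∀ i j : ZMod q, i ≠ j → ext B z (u, i) ≠ ext B z (u, j) := by
    rw [ae_all_iff]
    intro i
    rw [ae_all_iff]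
    intro j
    by_cases hij : i = j
    · exact Filter.Eventually.of_forall (fun z h => absurd hij h)
    · filter_upwards [no_ties hK hBc huB hij] with z hz _ using hz
  refine integral_congr_ae ?_
  filter_upwards [htie] with z hz
  have hinj : Function.Injective (fun j => ext B z (u, j)) := by
    intro i j h
    by_contra hne
    exact hz i j hne h
  -- the values of the permuted vector
  have hfz : ∀ y : U × ZMod q, ext B (f z) y = ext B z ((cperm u γ).symm y) := by
    intro y
    by_cases hy : y ∈ cl q B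
    · have hy' : (cperm u γ).symm y ∈ cl q B := by
        rw [mem_cl] at hy ⊢
        have := cperm_fst u γ ((cperm u γ).symm y)
        rw [Equiv.apply_symm_apply] at this
        rw [← this]; exact hy
      unfold SA.ext
      rw [dif_pos hy, dif_pos hy', hf, LinearIsometryEquiv.piLpCongrLeft_apply]
      rfl
    · have hy' : (cperm u γ).symm y ∉ cl q B := by
        rw [mem_cl] at hy ⊢
        have := cperm_fst u γ ((cperm u γ).symm y)
        rw [Equiv.apply_symm_apply] at this
        rw [← this]; exact hy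
      unfold SA.ext
      rw [dif_neg hy, dif_neg hy']
  have h2 : F (ss hp (ext B (f z))) = F (ss hp (ext B z)) := by
    refine hF _ _ (fun v hv => ?_)
    have hne : v ≠ u := by rintro rfl; exact hu hv
    unfold ss
    have : (fun j => ext B (f z) (v, j)) = fun j => ext B z (v, j) := by
      funext j
      rw [hfz, cperm_symm_of_ne hne]
    simp only [this]
  have h3 : ss hp (ext B (f z)) u = pact γ (ss hp (ext B z) u) := by
    apply Subtype.ext
    ext i
    rw [mem_ss hp, mem_pact, mem_ss hp]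
    have : (fun j => ext B (f z) (u, j)) = fun j => ext B z (u, γ.symm j) := by
      funext j
      rw [hfz, cperm_symm_self]
    rw [this]
    exact sel_perm hinj γ i
  rw [h2, h3]
  congr 1
  have : (pact γ (ss hp (ext B z) u) = pact γ a) ↔ ss hp (ext B z) u = a :=
    (pact_bij γ).1.eq_iff
  rw [if_congr this rfl rfl]

/-- The local densities of the selected subsets. -/
noncomputable def gPD [Nonempty (Sb (ZMod q) p)] (hp : p ≤ q) (hK : KOK K near k) :
    PDist U (Sb (ZMod q) p) near k where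
  D := gD hp K
  dep := by
    intro W x y h
    unfold gD
    congr 2
    funext σ
    exact agr_dep_left W σ x y h
  nonneg := by
    intro W _ x
    unfold gD
    exact mul_nonneg (by positivity) (gE_nonneg hp K W (fun σ => agr_nonneg W x σ))
  empty := by
    intro x
    unfold gD
    have : agr (∅ : Finset U) x = fun _ : U → Sb (ZMod q) p => (1 : ℝ) := by
      funext σ; unfold agr; simp
    rw [this, gE_const, card_empty, pow_zero, one_mul]
  cons := by
    intro W u hu hW x
    unfold gD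
    rw [avg_const_mul, ← gE_avg]
    have h1 : (fun σ : U → Sb (ZMod q) p => avg (fun b : Sb (ZMod q) p =>
        agr (insert u W) (Function.update x u b) σ)) =
        fun σ => (Fintype.card (Sb (ZMod q) p) : ℝ)⁻¹ * agr W x σ := by
      funext σ
      have h2 : ∀ b, agr (insert u W) (Function.update x u b) σ =
          (if σ u = b then 1 else 0) * agr W x σ := by
        intro b
        rw [agr_insert, agr_update hu, Function.update_self]
      simp only [h2]
      rw [avg_mul_const]
      congr 1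
      unfold avg
      rw [sum_ite_eq univ (σ u), if_pos (mem_univ _), one_div]
    rw [h1, gE_const_mul, gE_restrict hp K (subset_insert u W) (hK.psd _ (by
      rw [card_insert_of_notMem hu]; exact hW)) (agr_dep_right W x),
      card_insert_of_notMem hu, pow_succ]
    have hA : (Fintype.card (Sb (ZMod q) p) : ℝ) ≠ 0 := by exact_mod_cast Fintype.card_ne_zero
    field_simp
  indep := by
    intro W u hu hW hfar x
    unfold gD
    have hA : (Fintype.card (Sb (ZMod q) p) : ℝ) ≠ 0 := by exact_mod_cast Fintype.card_ne_zero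
    have h1 : agr (insert u W) x = fun σ : U → Sb (ZMod q) p =>
        (if σ u = x u then 1 else 0) * agr W x σ := by
      funext σ; exact agr_insert x σ
    rw [h1]
    have h2 : ∀ a, gE hp K (insert u W) (fun σ => (if σ u = a then 1 else 0) * agr W x σ) =
        gE hp K (insert u W) (fun σ => (if σ u = x u then 1 else 0) * agr W x σ) := by
      intro a
      obtain ⟨γ, rfl⟩ := exists_pact (x u) a
      exact gE_perm hp hK hu hW hfar γ (x u) (agr_dep_right W x)
    have h3 : (Fintype.card (Sb (ZMod q) p) : ℝ) *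
        gE hp K (insert u W) (fun σ => (if σ u = x u then 1 else 0) * agr W x σ) =
        gE hp K W (agr W x) := by
      rw [← gE_restrict hp K (subset_insert u W) (hK.psd _ (by
        rw [card_insert_of_notMem hu]; exact hW)) (agr_dep_right W x)]
      have h4 : agr W x = fun σ : U → Sb (ZMod q) p => ∑ a : Sb (ZMod q) p,
          (if σ u = a then 1 else 0) * agr W x σ := by
        funext σ
        rw [← sum_mul, sum_ite_eq univ (σ u), if_pos (mem_univ _), one_mul]
      nth_rewrite 2 [h4]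
      rw [gE_sum, sum_congr rfl (fun a _ => h2 a), sum_const, card_univ, nsmul_eq_mul]
    rw [card_insert_of_notMem hu, pow_succ, mul_assoc, h3]

end

end Pool.Agent.Lib.MP_8d8c46_lc.EL
end

section

/-!
The kernel of a lift, and the pseudo-expectation of the expansion.
-/

set_option autoImplicit false
set_option linter.unusedSectionVars false

open scoped Classical
open Finset MeasureTheory ProbabilityTheory

namespace Pool.Agent.Lib.MP_8d8c46_lc.EL

open SA

section ball
variable {V : Type} [Fintype V] {H : SimpleGraph V}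

/-- The balls of a graph of bounded degree. -/
lemma card_ball {d : ℕ} (hd : ∀ v, dg H v ≤ d) (u : V) : ∀ L : ℕ,
    (univ.filter (fun v => H.edist u v ≤ L)).card ≤ (1 + d) ^ L := by
  intro L
  induction L with
  | zero =>
    have : univ.filter (fun v => H.edist u v ≤ (0 : ℕ)) ⊆ {u} := by
      intro v hv
      rw [mem_filter] at hv
      have h1 : H.edist u v = 0 := le_antisymm (by exact_mod_cast hv.2) zero_le
      rw [SimpleGraph.edist_eq_zero_iff] at h1
      rw [mem_singleton, h1]
    exact (card_le_card this).trans (by simp)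
  | succ L ih =>
    have hsub : univ.filter (fun v => H.edist u v ≤ (L + 1 : ℕ)) ⊆
        (univ.filter (fun v => H.edist u v ≤ L)).biUnion
          (fun w => insert w (univ.filter (fun v => H.Adj w v))) := by
      intro v hv
      rw [mem_filter] at hv
      rw [mem_biUnion]
      have h2 : H.edist u v ≠ ⊤ := ne_top_of_le_ne_top (ENat.natCast_ne_top _) hv.2
      obtain ⟨r, hr⟩ := ENat.ne_top_iff_exists.1 h2
      have hrL : r ≤ L + 1 := by
        have := hv.2
        rw [← hr] at this; exact_mod_cast this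
      by_cases h3 : r ≤ L
      · refine ⟨v, ?_, mem_insert_self _ _⟩
        rw [mem_filter, ← hr]
        exact ⟨mem_univ _, by exact_mod_cast h3⟩
      · have h4 : r = L + 1 := by omega
        subst h4
        obtain ⟨p, hp⟩ := exists_walk_nat hr.symm
        refine ⟨p.getVert L, ?_, ?_⟩
        · rw [mem_filter]
          exact ⟨mem_univ _, edist_getVert_le p L⟩
        · rw [mem_insert, mem_filter]
          refine Or.inr ⟨mem_univ _, ?_⟩
          have h5 := p.adj_getVert_succ (i := L) (by omega)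
          rwa [show L + 1 = p.length from hp.symm, SimpleGraph.Walk.getVert_length] at h5
    refine (card_le_card hsub).trans (card_biUnion_le.trans ?_)
    refine (sum_le_card_nsmul _ _ (1 + d) (fun w _ => ?_)).trans ?_
    · refine (card_insert_le _ _).trans ?_
      have := hd w
      unfold dg at this
      omega
    · rw [smul_eq_mul, pow_succ]
      exact Nat.mul_le_mul_right _ ih

end ball

section
variable {U : Type} [Fintype U] {q : ℕ} [NeZero q]
  {B B' : SimpleGraph U} {sh : U → U → ZMod q} {hsh : ∀ x y, sh y x = -sh x y}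

lemma edist_lift (x y : U × ZMod q) : B'.edist x.1 y.1 ≤ (SA.lift B' sh hsh).edist x y := by
  by_cases h2 : (SA.lift B' sh hsh).edist x y = ⊤
  · rw [h2]; exact le_top
  · obtain ⟨r, hr⟩ := ENat.ne_top_iff_exists.1 h2
    obtain ⟨p, hp⟩ := exists_walk_nat hr.symm
    let f : SA.lift B' sh hsh →g B' := ⟨Prod.fst, fun {a b} h => h.1⟩
    have h3 := SimpleGraph.edist_le (p.map f)
    rw [SimpleGraph.Walk.length_map, hp, hr] at h3
    exact h3

/-- The kernel of a lift satisfies the requirements. -/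
theorem kok {L d k : ℕ} (hL : 1 ≤ L) (hNB : NB B' (2 * L)) (hd : ∀ v, dg B' v ≤ d)
    {ρ : ℝ} (hρ : 0 ≤ ρ) (hρ1 : ρ < 1)
    (hm : ((k * q + (k * q) ^ 2 * (L + 1) : ℕ) : ℝ) * ((1 + d) * ρ ^ L) < 1 - ρ ^ 2) :
    KOK (kern (SA.lift B' sh hsh) L ρ) (fun u v => B'.edist u v ≤ L) k where
  psd := by
    intro A hA
    exact kern_local (H := SA.lift B' sh hsh) hL hNB.lift (fun x => by rw [dg_lift]; exact hd _)
      hρ hρ1 hm (cl q A) (by rw [card_cl]; exact Nat.mul_le_mul_right _ hA)
  self := fun y => kern_self y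
  cloud := fun u i j hij => kern_eq_zero (cloud_far hNB (by omega) hij)
  far := fun u v h i j => kern_eq_zero (fun h' => h ((edist_lift (u, i) (v, j)).trans h'))
  symm := fun y y' => kern_comm y y'

/-- The pseudo-expectation of the expansion. -/
theorem pseudo_le (hBB : B' ≤ B) {L d k p : ℕ} (hL : 1 ≤ L)
    (hNB : NB B' (2 * L)) (hd : ∀ v, dg B v = d) (hk : 2 ≤ k) (hp : p ≤ q) (hp1 : 1 ≤ p)
    (hd1 : 1 ≤ d) {ρ τ : ℝ} (hρ : 0 ≤ ρ) (hρ1 : ρ < 1) (hτ : 0 < τ)
    (hm : ((k * q + (k * q) ^ 2 * (L + 1) : ℕ) : ℝ) * ((1 + d) * ρ ^ L) < 1 - ρ ^ 2)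
    (hV : 0 < Fintype.card U) :
    pseudoExpansion (SA.lift B sh hsh) d (p * Fintype.card U)
        (XX (kern (SA.lift B' sh hsh) L ρ) p) ≤
      q * (q * (τ + 16 * (1 - ρ) / τ ^ 2)) +
      q * (univ.filter (fun e : U × U => B.Adj e.1 e.2 ∧ ¬ B'.Adj e.1 e.2)).card /
        (d * Fintype.card U) := by
  obtain ⟨K, hK⟩ : ∃ K, K = kern (SA.lift B' sh hsh) L ρ := ⟨_, rfl⟩
  rw [← hK]
  have hd' : ∀ x : U × ZMod q, dg (SA.lift B' sh hsh) x ≤ d := by
    intro x
    rw [dg_lift, ← hd x.1]
    unfold dg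
    refine card_le_card (fun y hy => ?_)
    simp only [mem_filter, mem_univ, true_and] at hy ⊢
    exact hBB hy
  have hpsd : ∀ A : Finset U, A.card ≤ k → (cov K A).PosSemidef := by
    intro A hA
    have := kern_local (H := SA.lift B' sh hsh) hL hNB.lift hd' hρ hρ1 hm (cl q A)
      (by rw [card_cl]; exact Nat.mul_le_mul_right _ hA)
    rw [hK]
    exact this
  obtain ⟨ε, hε⟩ : ∃ ε, ε = q * (τ + 16 * (1 - ρ) / τ ^ 2) := ⟨_, rfl⟩
  have hq : 0 < q := Nat.pos_of_ne_zero (NeZero.ne q)
  have hq' : (0 : ℝ) < q := by exact_mod_cast hq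
  have hV' : (0 : ℝ) < Fintype.card U := by exact_mod_cast hV
  have hd1' : (0 : ℝ) < d := by exact_mod_cast hd1
  have hp1' : (1 : ℝ) ≤ p := by exact_mod_cast hp1
  have hε0 : 0 ≤ ε := by
    rw [hε]
    have : 0 ≤ 1 - ρ := by linarith
    positivity
  -- edges of the large subgraph
  have hgood : ∀ e : (U × ZMod q) × (U × ZMod q), (SA.lift B' sh hsh).Adj e.1 e.2 →
      XX K p {e.1} - XX K p {e.1, e.2} ≤ ε := by
    rintro ⟨⟨u, i⟩, ⟨v, j⟩⟩ he
    obtain ⟨h1, h2⟩ := he
    simp only at h1 h2
    subst h2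
    rw [hε]
    refine XX_edge (c := sh u v) (ρ := ρ) (hpsd {u, v} ?_) ?_ ?_ ?_ hρ1.le hτ hp i
    · exact (card_le_two).trans hk
    · intro y
      rw [hK]
      exact kern_self y
    · intro a b hab
      rw [hK]
      exact kern_eq_zero (cloud_far hNB (by omega) hab)
    · intro a
      rw [hK, kern_eq (r := 1) _ hL, pow_one]
      have : (SA.lift B' sh hsh).Adj (u, a) (v, a + sh u v) := ⟨h1, rfl⟩
      rw [SimpleGraph.edist_eq_one_iff_adj.2 this]
      rfl
  have hbad : ∀ e : (U × ZMod q) × (U × ZMod q), XX K p {e.1} - XX K p {e.1, e.2} ≤ 1 := by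
    intro e
    have h1 := XX_le_one (K := K) p {e.1}
    have h2 := XX_nonneg (K := K) p {e.1, e.2}
    linarith
  obtain ⟨B'', hB''⟩ : ∃ B'' : SimpleGraph U, B'' = B \ B' := ⟨_, rfl⟩
  have hsplit : ∑ e ∈ univ.filter (fun e : (U × ZMod q) × (U × ZMod q) =>
      (SA.lift B sh hsh).Adj e.1 e.2), (XX K p {e.1} - XX K p {e.1, e.2}) ≤
      (d * Fintype.card U * q) * ε +
      q * (univ.filter (fun e : U × U => B.Adj e.1 e.2 ∧ ¬ B'.Adj e.1 e.2)).card := by
    rw [← sum_filter_add_sum_filter_not _ (fun e : (U × ZMod q) × (U × ZMod q) =>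
      (SA.lift B' sh hsh).Adj e.1 e.2)]
    refine add_le_add ?_ ?_
    · refine (sum_le_card_nsmul _ _ ε (fun e he => ?_)).trans ?_
      · rw [mem_filter] at he
        exact hgood e he.2
      · rw [nsmul_eq_mul]
        refine mul_le_mul_of_nonneg_right ?_ hε0
        have h1 : (univ.filter (fun e : U × U => B.Adj e.1 e.2)).card =
            d * Fintype.card U := by
          have h2 : (univ.filter (fun e : U × U => B.Adj e.1 e.2)).card =
              ∑ v : U, dg B v := by
            rw [card_filter, Fintype.sum_prod_type]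
            refine sum_congr rfl (fun v _ => ?_)
            unfold dg
            rw [card_filter]
          rw [h2, sum_congr rfl (fun v _ => hd v), sum_const, card_univ, smul_eq_mul, mul_comm]
        have h3 : ((univ.filter (fun e : (U × ZMod q) × (U × ZMod q) =>
            (SA.lift B sh hsh).Adj e.1 e.2)).filter
            (fun e => (SA.lift B' sh hsh).Adj e.1 e.2)).card ≤
            d * Fintype.card U * q := by
          refine (card_filter_le _ _).trans ?_
          rw [card_adj_lift, h1, mul_comm]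
        exact_mod_cast h3
    · refine (sum_le_card_nsmul _ _ 1 (fun e _ => hbad e)).trans ?_
      rw [nsmul_eq_mul, mul_one]
      have h3 : ((univ.filter (fun e : (U × ZMod q) × (U × ZMod q) =>
          (SA.lift B sh hsh).Adj e.1 e.2)).filter
          (fun e => ¬ (SA.lift B' sh hsh).Adj e.1 e.2)).card ≤
          q * (univ.filter (fun e : U × U => B.Adj e.1 e.2 ∧ ¬ B'.Adj e.1 e.2)).card := by
        have h4 : (univ.filter (fun e : U × U => B.Adj e.1 e.2 ∧ ¬ B'.Adj e.1 e.2)) =
            univ.filter (fun e : U × U => B''.Adj e.1 e.2) := by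
          rw [hB'']
          ext e
          simp only [mem_filter, mem_univ, true_and, SimpleGraph.sdiff_adj]
        rw [h4, ← card_adj_lift (B := B'') (sh := sh) (hsh := hsh)]
        refine card_le_card (fun e he => ?_)
        simp only [mem_filter, mem_univ, true_and] at he ⊢
        obtain ⟨h5, h6⟩ := he
        refine ⟨?_, h5.2⟩
        rw [hB'']
        exact ⟨h5.1, fun h7 => h6 ⟨h7, h5.2⟩⟩
      exact_mod_cast h3
  unfold pseudoExpansion
  rw [← hε]
  have hden : (0 : ℝ) < d * (p * Fintype.card U) := by positivity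
  rw [div_le_iff₀ hden]
  refine hsplit.trans ?_
  obtain ⟨R, hR⟩ : ∃ R : ℝ, R = ((univ.filter (fun e : U × U =>
    B.Adj e.1 e.2 ∧ ¬ B'.Adj e.1 e.2)).card : ℝ) := ⟨_, rfl⟩
  rw [← hR]
  have hR0 : 0 ≤ R := by rw [hR]; positivity
  have h1 : (q * ε + q * R / (d * Fintype.card U)) * (d * (p * Fintype.card U)) =
      p * ((d * Fintype.card U * q) * ε + q * R) := by
    field_simp
  rw [h1]
  have h2 : 0 ≤ (d * Fintype.card U * q) * ε + q * R := by positivity
  nlinarith

end

end Pool.Agent.Lib.MP_8d8c46_lc.EL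
end

section

/-!
The sets of the labellings, their expansion, and the instances with relabelled vertices.
-/

set_option autoImplicit false
set_option linter.unusedSectionVars false

open scoped Classical
open Finset MeasureTheory ProbabilityTheory

namespace Pool.Agent.Lib.MP_8d8c46_lc.EL

open SA

/-! ### Relabelled graphs -/

section comap
variable {V W : Type} [Fintype V] [Fintype W] (e : W ≃ V)

lemma regular_comap {G : SimpleGraph W} {d : ℕ} (h : Regular G d) :
    Regular (G.comap e.symm) d := by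
  intro v
  rw [← h (e.symm v)]
  refine card_bij (fun u _ => e.symm u) ?_ ?_ ?_
  · intro u hu
    rw [mem_filter] at hu ⊢
    exact ⟨mem_univ _, hu.2⟩
  · intro u _ u' _ h'
    exact e.symm.injective h'
  · intro w hw
    rw [mem_filter] at hw
    refine ⟨e w, ?_, e.symm_apply_apply w⟩
    rw [mem_filter]
    refine ⟨mem_univ _, ?_⟩
    show G.Adj (e.symm v) (e.symm (e w))
    rw [e.symm_apply_apply]
    exact hw.2

lemma cut_comap (G : SimpleGraph W) (S : Finset W) :
    cut (G.comap e.symm) (S.map e.toEmbedding) = cut G S := by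
  unfold cut
  refine card_bij (fun z _ => (e.symm z.1, e.symm z.2)) ?_ ?_ ?_
  · rintro ⟨a, b⟩ hz
    rw [mem_filter] at hz ⊢
    obtain ⟨_, h1, h2, h3⟩ := hz
    rw [mem_map_equiv] at h1 h2
    exact ⟨mem_univ _, h1, h2, h3⟩
  · rintro ⟨a, b⟩ _ ⟨a', b'⟩ _ h
    simp only [Prod.mk.injEq] at h
    rw [e.symm.injective h.1, e.symm.injective h.2]
  · rintro ⟨a, b⟩ hz
    rw [mem_filter] at hz
    obtain ⟨_, h1, h2, h3⟩ := hz
    refine ⟨(e a, e b), ?_, by simp⟩
    rw [mem_filter, mem_map_equiv, mem_map_equiv]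
    refine ⟨mem_univ _, ?_, ?_, ?_⟩
    · rw [e.symm_apply_apply]; exact h1
    · rw [e.symm_apply_apply]; exact h2
    · show G.Adj (e.symm (e a)) (e.symm (e b))
      rw [e.symm_apply_apply, e.symm_apply_apply]
      exact h3

lemma expansion_comap (G : SimpleGraph W) (d : ℕ) (S : Finset W) :
    expansion (G.comap e.symm) d (S.map e.toEmbedding) = expansion G d S := by
  unfold expansion
  rw [cut_comap, card_map]

lemma isInput_comap {δ : ℚ} {G : SimpleGraph W} {d : ℕ} (h : IsInput δ G d) :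
    IsInput δ (G.comap e.symm) d := by
  obtain ⟨h1, h2, k, h3, h4⟩ := h
  exact ⟨h1, regular_comap e h2, k, h3, by rw [h4, Fintype.card_congr e]⟩

lemma no_comap {η δ : ℚ} {G : SimpleGraph W} (h : SSENo η δ G) : SSENo η δ (G.comap e.symm) := by
  obtain ⟨d, h1, h2⟩ := h
  refine ⟨d, isInput_comap e h1, fun S hS => ?_⟩
  have h3 : S = (S.map e.symm.toEmbedding).map e.toEmbedding := by
    rw [map_map]
    ext v
    simp
  rw [h3, expansion_comap]
  refine h2 _ ?_
  rw [card_map, hS, Fintype.card_congr e]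

lemma yes_comap {η δ : ℚ} {G : SimpleGraph W} (h : SSEYes η δ G) :
    SSEYes η δ (G.comap e.symm) := by
  obtain ⟨d, h1, S, h2, h3⟩ := h
  refine ⟨d, isInput_comap e h1, S.map e.toEmbedding, ?_, ?_⟩
  · rw [card_map, h2, Fintype.card_congr e]
  · rw [expansion_comap]; exact h3

end comap

/-! ### The sets of the labellings -/

section
variable {U : Type} [Fintype U] {q : ℕ} [NeZero q] {p : ℕ}

/-- the union of the selected subsets -/
noncomputable def SS (x : U → Sb (ZMod q) p) : Finset (U × ZMod q) :=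
  univ.filter (fun y => y.2 ∈ (x y.1).1)

lemma mem_SS {x : U → Sb (ZMod q) p} {y : U × ZMod q} : y ∈ SS x ↔ y.2 ∈ (x y.1).1 := by
  unfold SS
  simp

lemma card_SS (x : U → Sb (ZMod q) p) : (SS x).card = p * Fintype.card U := by
  unfold SS
  rw [card_filter, Fintype.sum_prod_type]
  have h1 : ∀ u : U, ∑ i : ZMod q, (if (u, i).2 ∈ (x (u, i).1).1 then 1 else 0) = p := by
    intro u
    simp only
    rw [sum_boole]
    have : univ.filter (fun i : ZMod q => i ∈ (x u).1) = (x u).1 := by ext i; simp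
    rw [this, (x u).2]
    rfl
  rw [sum_congr rfl (fun u _ => h1 u), sum_const, card_univ, smul_eq_mul, mul_comm]

/-- is `y` in the set of the labelling? -/
noncomputable def on (y : U × ZMod q) (x : U → Sb (ZMod q) p) : ℝ :=
  if y.2 ∈ (x y.1).1 then 1 else 0

lemma on_dep (y : U × ZMod q) : DepOn {y.1} (on (p := p) y) := by
  intro x x' h
  unfold on
  rw [h y.1 (mem_singleton_self _)]

lemma one_eq_on (hp : p ≤ q) (z : U × ZMod q → ℝ) (y : U × ZMod q) :
    one p z y = on y (ss hp z) := by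
  unfold one on
  rw [if_congr (mem_ss hp).symm rfl rfl]

/-- the relabelling of the vertices -/
def psi (τ : Equiv.Perm U) (w : U → Equiv.Perm (ZMod q)) : Equiv.Perm (U × ZMod q) where
  toFun y := (τ y.1, (w y.1).symm y.2)
  invFun y := (τ.symm y.1, w (τ.symm y.1) y.2)
  left_inv y := by simp
  right_inv y := by simp

lemma SS_psi (τ : Equiv.Perm U) (w : U → Equiv.Perm (ZMod q)) (x : U → Sb (ZMod q) p) :
    (SS (ax (pAct (ZMod q) p) w (x ∘ τ))).map (psi τ w).toEmbedding = SS x := by
  ext y
  obtain ⟨y', rfl⟩ := (psi τ w).surjective y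
  rw [mem_map_equiv, Equiv.symm_apply_apply, mem_SS, mem_SS]
  show y'.2 ∈ (pact (w y'.1) (x (τ y'.1))).1 ↔ _
  rw [mem_pact]
  rfl

variable (G : SimpleGraph (U × ZMod q))

lemma cut_SS (x : U → Sb (ZMod q) p) : (cut G (SS x) : ℝ) =
    ∑ e ∈ univ.filter (fun e : (U × ZMod q) × (U × ZMod q) => G.Adj e.1 e.2),
      on e.1 x * (1 - on e.2 x) := by
  unfold cut
  rw [card_filter, sum_filter]
  push_cast
  refine sum_congr rfl (fun e _ => ?_)
  unfold on
  by_cases h1 : e.1.2 ∈ (x e.1.1).1 <;> by_cases h2 : e.2.2 ∈ (x e.2.1).1 <;>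
    by_cases h3 : G.Adj e.1 e.2 <;> simp [mem_SS, h1, h2, h3]

lemma expansion_SS {d : ℕ} (x : U → Sb (ZMod q) p) :
    ((expansion G d (SS x) : ℚ) : ℝ) =
      (1 / ((d : ℝ) * (p * Fintype.card U))) *
        ∑ e ∈ univ.filter (fun e : (U × ZMod q) × (U × ZMod q) => G.Adj e.1 e.2),
          on e.1 x * (1 - on e.2 x) := by
  unfold expansion
  push_cast
  rw [cut_SS, card_SS]
  push_cast
  ring

variable {K : U × ZMod q → U × ZMod q → ℝ} {near : U → U → Prop} {k : ℕ}

lemma gE_on (hp : p ≤ q) (hK : KOK K near k) {B : Finset U} (hB : B.card ≤ k)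
    {y : U × ZMod q} (hy : y.1 ∈ B) : gE hp K B (on y) = XX K p {y} := by
  rw [XX_eq (hK.psd B hB) p (by intro y' hy'; rw [mem_singleton.1 hy']; exact hy)]
  unfold gE
  congr 1
  funext z
  unfold indf
  rw [prod_singleton, one_eq_on hp]

lemma gE_on_on (hp : p ≤ q) (hK : KOK K near k) {B : Finset U} (hB : B.card ≤ k)
    {y y' : U × ZMod q} (hy : y.1 ∈ B) (hy' : y'.1 ∈ B) :
    gE hp K B (fun σ => on y σ * on y' σ) = XX K p {y, y'} := by
  rw [XX_eq (hK.psd B hB) p (by
    intro y'' hy''
    simp only [mem_insert, mem_singleton] at hy''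
    rcases hy'' with rfl | rfl
    · exact hy
    · exact hy')]
  unfold gE
  congr 1
  funext z
  have hins : ({y, y'} : Finset (U × ZMod q)) = insert y {y'} := rfl
  rw [hins, indf_insert]
  unfold indf
  rw [prod_singleton, one_eq_on hp, one_eq_on hp]

/-- The pseudo-expectation of the expansion of the set of the labelling. -/
theorem func_expansion [Nonempty (Sb (ZMod q) p)] (hp : p ≤ q) (hK : KOK K near k) (hk : 2 ≤ k)
    {d : ℕ} : ∑ T ∈ low U k, avg (fun x => dl (gPD hp hK) ∅ T x *
        ((expansion G d (SS x) : ℚ) : ℝ)) =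
      pseudoExpansion G d (p * Fintype.card U) (XX K p) := by
  set P := gPD hp hK with hP
  have h1 : ∀ e : (U × ZMod q) × (U × ZMod q),
      ∑ T ∈ low U k, avg (fun x => dl P ∅ T x * (on e.1 x * (1 - on e.2 x))) =
        XX K p {e.1} - XX K p {e.1, e.2} := by
    intro e
    set W : Finset U := {e.1.1, e.2.1} with hW
    have hWk : W.card ≤ k := card_le_two.trans hk
    have hd : DepOn W (fun x : U → Sb (ZMod q) p => on e.1 x * (1 - on e.2 x)) := by
      intro x x' h
      simp only
      rw [on_dep e.1 x x' (fun u hu => h u (by rw [mem_singleton.1 hu, hW]; simp)),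
        on_dep e.2 x x' (fun u hu => h u (by rw [mem_singleton.1 hu, hW]; simp))]
    rw [sum_avg_dl P hd hWk]
    have h2 : avg (fun x => P.D W x * (on e.1 x * (1 - on e.2 x))) =
        gE hp K W (fun x => on e.1 x * (1 - on e.2 x)) := avg_gD hp K hd
    rw [h2]
    have h3 : (fun x : U → Sb (ZMod q) p => on e.1 x * (1 - on e.2 x)) =
        fun x => on e.1 x + (-1) * (on e.1 x * on e.2 x) := by funext x; ring
    rw [h3, gE_add, gE_const_mul, gE_on hp hK hWk (by rw [hW]; simp),
      gE_on_on hp hK hWk (by rw [hW]; simp) (by rw [hW]; simp)]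
    ring
  have h4 : ∀ T ∈ low U k, avg (fun x => dl P ∅ T x * ((expansion G d (SS x) : ℚ) : ℝ)) =
      (1 / ((d : ℝ) * (p * Fintype.card U))) *
        ∑ e ∈ univ.filter (fun e : (U × ZMod q) × (U × ZMod q) => G.Adj e.1 e.2),
          avg (fun x => dl P ∅ T x * (on e.1 x * (1 - on e.2 x))) := by
    intro T _
    rw [← avg_sum, ← avg_const_mul]
    congr 1
    funext x
    rw [expansion_SS, ← mul_sum]
    ring
  rw [sum_congr rfl h4, ← mul_sum, sum_comm, sum_congr rfl (fun e _ => h1 e)]
  unfold pseudoExpansion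
  ring

end

end Pool.Agent.Lib.MP_8d8c46_lc.EL
end
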