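import Pool.Agent.Lib.MP_8d8c46_lc.MC.DR
import Pool.Agent.Lib.MP_8d8c46_lc.Mg.G011
import Pool.Agent.Lib.MP_8d8c46_lc.MC.DInd
import Pool.Agent.Lib.MP_8d8c46_lc.MC.Defs
import Pool.Agent.Lib.MP_8d8c46_lc.Mg.G018

section

/-! Definitions. -/

set_option autoImplicit false
set_option linter.unusedSectionVars false

open scoped Classical
open Finset

namespace Pool.Agent.Lib.MP_8d8c46_lc.MC

open Pool.Agent.Lib.MP_8d8c46_lc.EL

open Pool.Agent.Lib.MP_8d8c46_lc.SA (BV Om Bg shf shf_symm)

section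

variable {d N q : ℕ} [NeZero q]

/-- the graph -/
noncomputable def GrL (ω : Om d N q) : SimpleGraph (BV d N × ZMod q) :=
  SA.lift (Bg ω) (shf ω) (shf_symm ω)

/-- the number of the equations violated by `x` -/
noncomputable def vio (ω : Om d N q) (x : BV d N → ZMod q) : ℕ :=
  (univ.filter (fun z : Pl d × Fin N =>
    x (true, z.1.2, (ω z.1).1 z.2) ≠ x (false, z.1.1, z.2) + (ω z.1).2 z.2)).card

end

end Pool.Agent.Lib.MP_8d8c46_lc.MC
end

section

/-! T50 : Y01, Y02 -/

set_option autoImplicit false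
set_option linter.unusedSectionVars false

open scoped Classical
open Finset

namespace Pool.Agent.Lib.MP_8d8c46_lc.MC

open Pool.Agent.Lib.MP_8d8c46_lc.EL

open Pool.Agent.Lib.MP_8d8c46_lc.SA (BV Om Bg shf shf_symm)

section
variable {d N q : ℕ} [NeZero q]

/-- Y01.
dg_Bg, dg_lift (SA/Cycle, SA/Lift) and the definition of Regular (filter over Adj v u); see SA/Main or EL/Main for the same statement. -/
theorem GrL_regular (ω : Om d N q) : Regular (GrL ω) d := by
  intro v
  have := SA.dg_lift (B := Bg ω) (sh := shf ω) (hsh := shf_symm ω) v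
  rw [SA.dg_Bg] at this
  exact this

private lemma t50_card_win {p : ℕ} (hpq : p ≤ q) (c : ZMod q) :
    (univ.filter (fun i : ZMod q => (i - c).val < p)).card = p := by
  refine (card_bij (s := range p) (fun k _ => (k : ZMod q) + c) ?_ ?_ ?_).symm.trans
    (card_range p)
  · intro k hk
    have hk' := mem_range.1 hk
    simp only [mem_filter, mem_univ, true_and, add_sub_cancel_right]
    rw [ZMod.val_natCast, Nat.mod_eq_of_lt (by omega)]
    exact hk'
  · intro k hk l hl h
    have hk' := mem_range.1 hk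
    have hl' := mem_range.1 hl
    have h2 : (k : ZMod q) = l := add_right_cancel h
    have h3 := congrArg ZMod.val h2
    rwa [ZMod.val_natCast, ZMod.val_natCast, Nat.mod_eq_of_lt (by omega),
      Nat.mod_eq_of_lt (by omega)] at h3
  · intro i hi
    simp only [mem_filter, mem_univ, true_and] at hi
    exact ⟨(i - c).val, mem_range.2 hi, by simp [ZMod.natCast_zmod_val]⟩

private lemma t50_card_prod {α β : Type*} [Fintype α] [Fintype β] (P : α × β → Prop)
    [DecidablePred P] :
    (univ.filter P).card = ∑ a : α, (univ.filter (fun b => P (a, b))).card := by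
  rw [card_filter, Fintype.sum_prod_type]
  refine sum_congr rfl (fun a _ => ?_)
  rw [card_filter]

/-- Y02. The expansion of the set of the first `p` sheets.
S = {(v, x v + s) : s ∈ first p residues}, i.e. (v, i) with (i - x v).val < p. |S| = p * 2 d N. Edges: ((false,a,u),i) – ((true,b,π u), i + w u). If the equation of (a,b),u holds, both endpoints or none are in S; otherwise at most 2p values i give an edge with exactly one endpoint in S. So cut ≤ 2 p vio ≤ 2 p ε d² N = ε d |S|. IsInput: k = 2 d N p. -/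
theorem yes_of_vio {p : ℕ} (hp : 1 ≤ p) (hpq : p ≤ q) (hd : 1 ≤ d) (hN : 1 ≤ N) {ε : ℚ}
    (hε : 0 ≤ ε) {ω : Om d N q} {x : BV d N → ZMod q}
    (h : (vio ω x : ℝ) ≤ (ε : ℝ) * (d ^ 2 * N)) : SSEYes ε ((p : ℚ) / q) (GrL ω) := by
  have hq0 : 0 < q := Nat.pos_of_ne_zero (NeZero.ne q)
  have hq' : (0 : ℚ) < q := by exact_mod_cast hq0
  have hcardB : Fintype.card (BV d N) = 2 * d * N := by
    rw [Fintype.card_prod, Fintype.card_prod, Fintype.card_bool, Fintype.card_fin,
      Fintype.card_fin]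
    ring
  have hcard : Fintype.card (BV d N × ZMod q) = 2 * d * N * q := by
    rw [Fintype.card_prod, hcardB, ZMod.card]
  obtain ⟨S, hS⟩ : ∃ S : Finset (BV d N × ZMod q),
      S = univ.filter (fun y => (y.2 - x y.1).val < p) := ⟨_, rfl⟩
  have hScard : S.card = 2 * d * N * p := by
    rw [hS, t50_card_prod]
    have : ∀ v : BV d N, (univ.filter (fun i : ZMod q =>
        (((v, i) : BV d N × ZMod q).2 - x ((v, i) : BV d N × ZMod q).1).val < p)).card = p :=
      fun v => t50_card_win hpq (x v)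
    rw [sum_congr rfl (fun v _ => this v), sum_const, card_univ, hcardB, smul_eq_mul]
  have hmem : ∀ (v : BV d N) (i : ZMod q), (v, i) ∈ S ↔ (i - x v).val < p := by
    intro v i
    rw [hS, mem_filter]
    simp
  -- the two kinds of cut edges
  obtain ⟨T, hT⟩ : ∃ T : Bool → Finset ((Pl d × Fin N) × ZMod q), T = fun c => univ.filter (fun z =>
    if c = false then (((false, z.1.1.1, z.1.2), z.2) ∈ S ∧
      ((true, z.1.1.2, (ω z.1.1).1 z.1.2), z.2 + (ω z.1.1).2 z.1.2) ∉ S) else
      (((false, z.1.1.1, z.1.2), z.2) ∉ S ∧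
      ((true, z.1.1.2, (ω z.1.1).1 z.1.2), z.2 + (ω z.1.1).2 z.1.2) ∈ S)) := ⟨_, rfl⟩
  have hTc : ∀ c, (T c).card ≤ vio ω x * p := by
    intro c
    rw [hT]
    simp only
    rw [t50_card_prod]
    have hz : ∀ z : Pl d × Fin N, (univ.filter (fun i : ZMod q =>
        if c = false then (((false, z.1.1, z.2), i) ∈ S ∧
          ((true, z.1.2, (ω z.1).1 z.2), i + (ω z.1).2 z.2) ∉ S) else
          (((false, z.1.1, z.2), i) ∉ S ∧
          ((true, z.1.2, (ω z.1).1 z.2), i + (ω z.1).2 z.2) ∈ S))).card ≤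
        if x (true, z.1.2, (ω z.1).1 z.2) ≠ x (false, z.1.1, z.2) + (ω z.1).2 z.2
          then p else 0 := by
      intro z
      by_cases hv : x (true, z.1.2, (ω z.1).1 z.2) ≠ x (false, z.1.1, z.2) + (ω z.1).2 z.2
      · rw [if_pos hv]
        cases c
        · simp only [if_true]
          refine (card_le_card (fun i hi => ?_)).trans
            (t50_card_win hpq (x (false, z.1.1, z.2))).le
          rw [mem_filter] at hi ⊢
          exact ⟨mem_univ _, (hmem _ _).1 hi.2.1⟩
        · simp only [Bool.true_eq_false, if_false]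
          refine (card_le_card (fun i hi => ?_)).trans
            (t50_card_win hpq (x (true, z.1.2, (ω z.1).1 z.2) - (ω z.1).2 z.2)).le
          rw [mem_filter] at hi ⊢
          refine ⟨mem_univ _, ?_⟩
          have := (hmem _ _).1 hi.2.2
          rwa [show i + (ω z.1).2 z.2 - x (true, z.1.2, (ω z.1).1 z.2) =
            i - (x (true, z.1.2, (ω z.1).1 z.2) - (ω z.1).2 z.2) by ring] at this
      · rw [if_neg hv]
        push Not at hv
        rw [Nat.le_zero, card_eq_zero, filter_eq_empty_iff]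
        intro i _ hi
        have e1 : (((false, z.1.1, z.2), i) ∈ S ↔
            ((true, z.1.2, (ω z.1).1 z.2), i + (ω z.1).2 z.2) ∈ S) := by
          rw [hmem, hmem, hv]
          rw [show i + (ω z.1).2 z.2 - (x (false, z.1.1, z.2) + (ω z.1).2 z.2) =
            i - x (false, z.1.1, z.2) by ring]
        split_ifs at hi
        · exact hi.2 (e1.1 hi.1)
        · exact hi.1 (e1.2 hi.2)
    refine (sum_le_sum (fun z _ => hz z)).trans (le_of_eq ?_)
    rw [← sum_filter, sum_const, smul_eq_mul]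
    rfl
  have hcut : cut (GrL ω) S ≤ (T false).card + (T true).card := by
    have h2 : cut (GrL ω) S ≤ (((T false) ×ˢ ({false} : Finset Bool)) ∪
        ((T true) ×ˢ ({true} : Finset Bool))).card := by
      unfold cut
      refine (card_le_card (t := (((T false) ×ˢ ({false} : Finset Bool)) ∪
        ((T true) ×ˢ ({true} : Finset Bool))).image (fun z =>
        if z.2 = false then (((false, z.1.1.1.1, z.1.1.2), z.1.2),
          ((true, z.1.1.1.2, (ω z.1.1.1).1 z.1.1.2), z.1.2 + (ω z.1.1.1).2 z.1.1.2)) else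
          (((true, z.1.1.1.2, (ω z.1.1.1).1 z.1.1.2), z.1.2 + (ω z.1.1.1).2 z.1.1.2),
            ((false, z.1.1.1.1, z.1.1.2), z.1.2)))) ?_).trans card_image_le
      rintro ⟨⟨⟨x', a, s⟩, i⟩, ⟨⟨y, b, t⟩, j⟩⟩ h
      simp only [mem_filter, mem_univ, true_and] at h
      obtain ⟨hx, hy, h3, h4⟩ := h
      rw [mem_image]
      rcases h3 with h3 | h3
      · obtain ⟨h5, h6, h7⟩ := h3
        simp only at h5 h6 h7
        subst h5 h6 h7
        have h8 : j = i + (ω (a, b)).2 s := by
          simpa [shf] using h4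
        subst h8
        refine ⟨((((a, b), s), i), false), ?_, by simp⟩
        rw [mem_union]
        left
        rw [mem_product]
        refine ⟨?_, by simp⟩
        rw [hT]
        simp only [mem_filter, mem_univ, true_and, if_true]
        exact ⟨hx, hy⟩
      · obtain ⟨h5, h6, h7⟩ := h3
        simp only at h5 h6 h7
        subst h5 h6 h7
        have h8 : i = j + (ω (b, a)).2 t := by
          have : j = i + -(ω (b, a)).2 t := by simpa [shf] using h4
          rw [this]; ring
        subst h8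
        refine ⟨((((b, a), t), j), true), ?_, by simp⟩
        rw [mem_union]
        right
        rw [mem_product]
        refine ⟨?_, by simp⟩
        rw [hT]
        simp only [mem_filter, mem_univ, true_and, Bool.true_eq_false, if_false]
        exact ⟨hy, hx⟩
    refine h2.trans ((card_union_le _ _).trans ?_)
    rw [card_product, card_product, card_singleton, card_singleton, mul_one, mul_one]
  have hcut2 : (cut (GrL ω) S : ℚ) ≤ 2 * p * vio ω x := by
    have := hcut.trans (add_le_add (hTc false) (hTc true))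
    have h3 : (cut (GrL ω) S : ℚ) ≤ ((vio ω x * p + vio ω x * p : ℕ) : ℚ) := by
      exact_mod_cast this
    push_cast at h3
    linarith
  have hvq : (vio ω x : ℚ) ≤ ε * (d ^ 2 * N) := by exact_mod_cast h
  have hp' : (0 : ℚ) < p := by exact_mod_cast hp
  have hd' : (0 : ℚ) < d := by exact_mod_cast hd
  have hN' : (0 : ℚ) < N := by exact_mod_cast hN
  have hcardV : ((2 * d * N * p : ℕ) : ℚ) = (p : ℚ) / q * Fintype.card (BV d N × ZMod q) := by
    rw [hcard]
    push_cast
    field_simp
  refine ⟨d, ⟨hd, GrL_regular ω, 2 * d * N * p, by positivity, hcardV⟩, S, ?_, ?_⟩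
  · rw [hScard]
    exact hcardV
  · unfold expansion
    rw [hScard, div_le_iff₀ (by push_cast; positivity)]
    refine hcut2.trans ?_
    push_cast
    calc (2 : ℚ) * p * vio ω x ≤ 2 * p * (ε * (d ^ 2 * N)) := by
          exact mul_le_mul_of_nonneg_left hvq (by positivity)
      _ = ε * (d * (2 * d * N * p)) := by ring

end

end Pool.Agent.Lib.MP_8d8c46_lc.MC
end

section

/-! T51 : Y03 -/

set_option autoImplicit false
set_option linter.unusedSectionVars false

open scoped Classical
open Finset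

namespace Pool.Agent.Lib.MP_8d8c46_lc.MC

open Pool.Agent.Lib.MP_8d8c46_lc.EL
open Pool.Agent.Lib.MP_8d8c46_lc.SA (BV Om Bg shf shf_symm)

section
variable {d N q : ℕ} [NeZero q]

theorem t51_prod_sum (G : Pl d → Fin N → Fin N → ZMod q → ℝ) (b : Pl d → Fin N → ℝ)
    (h : ∀ e u t, ∑ c, G e u t c = b e u) :
    ∑ ω : Om d N q, ∏ e : Pl d, ∏ u : Fin N, G e u ((ω e).1 u) ((ω e).2 u) =
      ∏ e : Pl d, ((N.factorial : ℝ) * ∏ u : Fin N, b e u) := by
  have h1 : ∀ e : Pl d, ∑ w : LP N q, ∏ u : Fin N, G e u (w.1 u) (w.2 u) =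
      (N.factorial : ℝ) * ∏ u : Fin N, b e u := by
    intro e
    rw [Fintype.sum_prod_type]
    have h2 : ∀ τ : Equiv.Perm (Fin N), ∑ c : Fin N → ZMod q,
        ∏ u : Fin N, G e u (τ u) (c u) = ∏ u : Fin N, b e u := by
      intro τ
      have h3 := (prod_univ_sum (fun _ : Fin N => (univ : Finset (ZMod q)))
        (fun u c => G e u (τ u) c)).symm
      rw [Fintype.piFinset_univ] at h3
      rw [h3]
      exact prod_congr rfl (fun u _ => h e u (τ u))
    rw [sum_congr rfl (fun τ _ => h2 τ), sum_const, card_univ, Fintype.card_perm,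
      Fintype.card_fin, nsmul_eq_mul]
  have h3 := (prod_univ_sum (fun _ : Pl d => (univ : Finset (LP N q)))
    (fun e w => ∏ u : Fin N, G e u (w.1 u) (w.2 u))).symm
  rw [Fintype.piFinset_univ] at h3
  exact h3.trans (prod_congr rfl (fun e _ => h1 e))

theorem t51_card : (Fintype.card (Om d N q) : ℝ) =
    ∏ _e : Pl d, ((N.factorial : ℝ) * (q : ℝ) ^ N) := by
  rw [prod_const, card_univ]
  change ((Fintype.card (Pl d → LP N q) : ℕ) : ℝ) = _
  rw [Fintype.card_fun, Fintype.card_prod (Equiv.Perm (Fin N)), Fintype.card_perm,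
    Fintype.card_fun, Fintype.card_fin, ZMod.card]
  push_cast
  rfl

theorem t51_sum_ka (σ : ℝ) (a b : ZMod q) : ∑ c : ZMod q, ka σ (c - a + b) = q := by
  have h1 : ∑ c : ZMod q, ka σ (c - a + b) = ∑ z : ZMod q, ka σ z := by
    refine (Equiv.sum_comp ((Equiv.subRight a).trans (Equiv.addRight b)) (fun z => ka σ z))
  rw [h1]
  unfold ka th
  rw [sum_add_distrib, ← mul_sum, sum_sub_distrib, sum_ite_eq' univ (0 : ZMod q)]
  simp [ZMod.card]

theorem t51_sum_ka' (σ : ℝ) (a b : ZMod q) :
    ∑ c : ZMod q, ka σ (c - a + b) * (if a ≠ b + c then 1 else 0) = (q - 1) * (1 - σ) := by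
  have h1 : ∑ c : ZMod q, ka σ (c - a + b) * (if a ≠ b + c then (1 : ℝ) else 0) =
      ∑ z : ZMod q, ka σ z * (if z ≠ 0 then (1 : ℝ) else 0) := by
    rw [← Equiv.sum_comp ((Equiv.subRight a).trans (Equiv.addRight b))
      (fun z => ka σ z * (if z ≠ 0 then (1 : ℝ) else 0))]
    refine sum_congr rfl (fun c _ => ?_)
    have h2 : ((Equiv.subRight a).trans (Equiv.addRight b)) c = c - a + b := rfl
    rw [h2]
    congr 1
    have h3 : (a ≠ b + c) ↔ (c - a + b ≠ 0) := by
      constructor
      · intro h h4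
        apply h
        have : b + c = a + (c - a + b) := by ring
        rw [this, h4, add_zero]
      · intro h h4
        apply h
        rw [h4]; ring
    by_cases h4 : a ≠ b + c
    · rw [if_pos h4, if_pos (h3.1 h4)]
    · rw [if_neg h4, if_neg (fun h => h4 (h3.2 h))]
  rw [h1]
  have h2 : ∀ z : ZMod q, ka σ z * (if z ≠ 0 then (1 : ℝ) else 0) =
      (1 - σ) * (1 - (if z = 0 then 1 else 0)) := by
    intro z
    by_cases hz : z = 0
    · simp [hz]
    · simp only [ka, th, if_neg hz, if_pos (show z ≠ 0 from hz)]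
      ring
  rw [sum_congr rfl (fun z _ => h2 z), ← mul_sum, sum_sub_distrib,
    sum_ite_eq' univ (0 : ZMod q)]
  simp [ZMod.card]
  ring

/-- Y03. The mean number of violated equations.
vio = Σ over (e,u) of the indicator. For fixed (e,u): Σ_ω Π ka * 1[violated] = Π_{e'≠e} (N! q^N) * Σ_τ Π_{u'≠u} q * Σ_{c : violated} ka = card Om * (1/q) Σ_{z≠0} ka z = card Om * (q-1)(1-σ)/q ≤ (1-σ) card Om. -/
theorem sum_vio {σ : ℝ} (h0 : 0 ≤ σ) (h1 : σ ≤ 1) (x : BV d N → ZMod q) :
    ∑ ω : Om d N q, (∏ e : Pl d, ∏ u : Fin N,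
      ka σ ((ω e).2 u - x (true, e.2, (ω e).1 u) + x (false, e.1, u))) * vio ω x ≤
      (1 - σ) * (d ^ 2 * N) * Fintype.card (Om d N q) := by
  have hq : (0 : ℝ) < q := by exact_mod_cast Nat.pos_of_ne_zero (NeZero.ne q)
  have e1 : ∀ ω : Om d N q, (vio ω x : ℝ) = ∑ z : Pl d × Fin N,
      (if x (true, z.1.2, (ω z.1).1 z.2) ≠ x (false, z.1.1, z.2) + (ω z.1).2 z.2
        then (1 : ℝ) else 0) := by
    intro ω
    unfold vio
    rw [card_filter]
    push_cast
    rfl
  have e2 : ∀ z : Pl d × Fin N, ∑ ω : Om d N q, (∏ e : Pl d, ∏ u : Fin N,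
      ka σ ((ω e).2 u - x (true, e.2, (ω e).1 u) + x (false, e.1, u))) *
      (if x (true, z.1.2, (ω z.1).1 z.2) ≠ x (false, z.1.1, z.2) + (ω z.1).2 z.2
        then (1 : ℝ) else 0) = Fintype.card (Om d N q) * ((q - 1) * (1 - σ) / q) := by
    intro z
    obtain ⟨G, hG⟩ : ∃ G : Pl d → Fin N → Fin N → ZMod q → ℝ, G = fun e u t c =>
        ka σ (c - x (true, e.2, t) + x (false, e.1, u)) *
          (if (e, u) = z then
            (if x (true, e.2, t) ≠ x (false, e.1, u) + c then (1 : ℝ) else 0) else 1) :=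
      ⟨_, rfl⟩
    obtain ⟨b, hb⟩ : ∃ b : Pl d → Fin N → ℝ, b = fun e u =>
        (q : ℝ) * (if (e, u) = z then (q - 1) * (1 - σ) / q else 1) := ⟨_, rfl⟩
    have h2 : ∀ e u t, ∑ c, G e u t c = b e u := by
      intro e u t
      rw [hG, hb]
      by_cases h : (e, u) = z
      · simp only [if_pos h]
        rw [t51_sum_ka' σ (x (true, e.2, t)) (x (false, e.1, u))]
        field_simp
      · simp only [if_neg h, mul_one]
        exact t51_sum_ka σ (x (true, e.2, t)) (x (false, e.1, u))
    have h3 := t51_prod_sum G b h2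
    have h4 : ∀ ω : Om d N q, (∏ e : Pl d, ∏ u : Fin N,
        ka σ ((ω e).2 u - x (true, e.2, (ω e).1 u) + x (false, e.1, u))) *
        (if x (true, z.1.2, (ω z.1).1 z.2) ≠ x (false, z.1.1, z.2) + (ω z.1).2 z.2
          then (1 : ℝ) else 0) = ∏ e : Pl d, ∏ u : Fin N, G e u ((ω e).1 u) ((ω e).2 u) := by
      intro ω
      rw [hG]
      simp only
      rw [← Fintype.prod_prod_type' (fun (e : Pl d) (u : Fin N) =>
        ka σ ((ω e).2 u - x (true, e.2, (ω e).1 u) + x (false, e.1, u)) *
          (if (e, u) = z then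
            (if x (true, e.2, (ω e).1 u) ≠ x (false, e.1, u) + (ω e).2 u
              then (1 : ℝ) else 0) else 1)), prod_mul_distrib]
      rw [← Fintype.prod_prod_type' (fun (e : Pl d) (u : Fin N) =>
        ka σ ((ω e).2 u - x (true, e.2, (ω e).1 u) + x (false, e.1, u)))]
      congr 1
      rw [prod_ite_eq' univ z]
      simp
    rw [sum_congr rfl (fun ω _ => h4 ω), h3, hb, t51_card]
    simp only
    have h5 : ∀ e : Pl d, (N.factorial : ℝ) * ∏ u : Fin N,
        ((q : ℝ) * (if (e, u) = z then (q - 1) * (1 - σ) / q else 1)) =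
        ((N.factorial : ℝ) * (q : ℝ) ^ N) *
          ∏ u : Fin N, (if (e, u) = z then (q - 1) * (1 - σ) / q else 1) := by
      intro e
      rw [prod_mul_distrib, prod_const, card_univ, Fintype.card_fin]
      ring
    rw [prod_congr rfl (fun e _ => h5 e), prod_mul_distrib]
    congr 1
    rw [← Fintype.prod_prod_type' (fun (e : Pl d) (u : Fin N) =>
      (if (e, u) = z then (q - 1) * (1 - σ) / (q : ℝ) else 1))]
    rw [prod_ite_eq' univ z]
    simp
  have e3 : ∑ ω : Om d N q, (∏ e : Pl d, ∏ u : Fin N,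
      ka σ ((ω e).2 u - x (true, e.2, (ω e).1 u) + x (false, e.1, u))) * (vio ω x : ℝ) =
      (d ^ 2 * N) * (Fintype.card (Om d N q) * ((q - 1) * (1 - σ) / q)) := by
    calc _ = ∑ ω : Om d N q, ∑ z : Pl d × Fin N, (∏ e : Pl d, ∏ u : Fin N,
        ka σ ((ω e).2 u - x (true, e.2, (ω e).1 u) + x (false, e.1, u))) *
        (if x (true, z.1.2, (ω z.1).1 z.2) ≠ x (false, z.1.1, z.2) + (ω z.1).2 z.2
          then (1 : ℝ) else 0) := by
          refine sum_congr rfl (fun ω _ => ?_)
          rw [e1 ω, mul_sum]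
      _ = _ := by
          rw [sum_comm, sum_congr rfl (fun z _ => e2 z), sum_const, card_univ,
            Fintype.card_prod, Fintype.card_prod, Fintype.card_fin, Fintype.card_fin,
            nsmul_eq_mul]
          push_cast
          ring
  rw [e3]
  have h2 : (q - 1) * (1 - σ) / (q : ℝ) ≤ 1 - σ := by
    rw [div_le_iff₀ hq]
    nlinarith
  calc (d ^ 2 * N : ℝ) * (Fintype.card (Om d N q) * ((q - 1) * (1 - σ) / q))
      ≤ (d ^ 2 * N) * (Fintype.card (Om d N q) * (1 - σ)) := by
        refine mul_le_mul_of_nonneg_left ?_ (by positivity)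
        exact mul_le_mul_of_nonneg_left h2 (Nat.cast_nonneg _)
    _ = _ := by ring

end

end Pool.Agent.Lib.MP_8d8c46_lc.MC
end

section

/-! T52 : Y04 -/

set_option autoImplicit false
set_option linter.unusedSectionVars false

open scoped Classical
open Finset

namespace Pool.Agent.Lib.MP_8d8c46_lc.MC

open Pool.Agent.Lib.MP_8d8c46_lc.EL
open Pool.Agent.Lib.MP_8d8c46_lc.SA (BV Om Bg shf shf_symm)

section
variable {d N q : ℕ} [NeZero q]

/-- Y04. Most planted lifts are Yes instances.
Exchange with the average over x; for ω not Yes: 1 ≤ vio ω x/(ε d² N) for every x (Y02 contraposition); Y03: ≤ (1-σ)/ε ≤ 1/100. -/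
theorem yes_mass {p : ℕ} (hp : 1 ≤ p) (hpq : p ≤ q) (hd : 1 ≤ d) (hN : 1 ≤ N) {ε : ℚ}
    (hε : 0 < ε) {σ : ℝ} (h0 : 0 ≤ σ) (h1 : σ ≤ 1) (hσ : 1 - σ ≤ ε / 100) :
    ∑ ω ∈ (univ : Finset (Om d N q)).filter (fun ω => ¬ SSEYes ε ((p : ℚ) / q) (GrL ω)),
      wY σ ω ≤ (1 / 100) * Fintype.card (Om d N q) := by
  have hε' : (0 : ℝ) < ε := by exact_mod_cast hε
  have hd' : (0 : ℝ) < d := by exact_mod_cast hd
  have hN' : (0 : ℝ) < N := by exact_mod_cast hN
  obtain ⟨D, hD⟩ : ∃ D : ℝ, D = (ε : ℝ) * (d ^ 2 * N) := ⟨_, rfl⟩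
  have hD0 : 0 < D := by rw [hD]; positivity
  obtain ⟨P, hP⟩ : ∃ P : Om d N q → (BV d N → ZMod q) → ℝ, P = fun ω x =>
      ∏ e : Pl d, ∏ u : Fin N,
        ka σ ((ω e).2 u - x (true, e.2, (ω e).1 u) + x (false, e.1, u)) := ⟨_, rfl⟩
  have hP0 : ∀ ω x, 0 ≤ P ω x := by
    intro ω x
    rw [hP]
    exact prod_nonneg (fun e _ => prod_nonneg (fun u _ => ka_nonneg h0 h1 _))
  have hw : ∀ ω, wY σ ω = avg (P ω) := by
    intro ω
    rw [hP]
    rfl
  rw [sum_congr rfl (fun ω _ => hw ω), ← avg_sum]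
  have hx : ∀ x : BV d N → ZMod q,
      ∑ ω ∈ (univ : Finset (Om d N q)).filter (fun ω => ¬ SSEYes ε ((p : ℚ) / q) (GrL ω)),
        P ω x ≤ (1 / 100) * Fintype.card (Om d N q) := by
    intro x
    have h2 : ∑ ω ∈ (univ : Finset (Om d N q)).filter
        (fun ω => ¬ SSEYes ε ((p : ℚ) / q) (GrL ω)), P ω x ≤
        ∑ ω : Om d N q, P ω x * vio ω x / D := by
      refine (sum_le_sum (fun ω hω => ?_)).trans (sum_le_sum_of_subset_of_nonneg
        (subset_univ _) (fun ω _ _ => div_nonneg (mul_nonneg (hP0 ω x) (Nat.cast_nonneg _))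
          hD0.le))
      rw [mem_filter] at hω
      have h3 : D < vio ω x := by
        by_contra h4
        push Not at h4
        rw [hD] at h4
        exact hω.2 (yes_of_vio hp hpq hd hN hε.le h4)
      rw [le_div_iff₀ hD0]
      exact mul_le_mul_of_nonneg_left h3.le (hP0 ω x)
    have h3 := sum_vio (d := d) (N := N) (q := q) h0 h1 x
    have h4 : ∑ ω : Om d N q, P ω x * vio ω x / D ≤
        (1 - σ) * (d ^ 2 * N) * Fintype.card (Om d N q) / D := by
      rw [← sum_div]
      refine div_le_div_of_nonneg_right ?_ hD0.le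
      rw [hP]
      exact h3
    refine h2.trans (h4.trans ?_)
    rw [div_le_iff₀ hD0, hD]
    have h5 : (0 : ℝ) ≤ (d ^ 2 * N) * Fintype.card (Om d N q) := by positivity
    have h6 := mul_le_mul_of_nonneg_right hσ h5
    calc (1 - σ) * (d ^ 2 * N) * Fintype.card (Om d N q)
        = (1 - σ) * ((d ^ 2 * N) * Fintype.card (Om d N q)) := by ring
      _ ≤ _ := h6
      _ = _ := by ring
  refine (avg_mono hx).trans (le_of_eq ?_)
  exact avg_const _

end

end Pool.Agent.Lib.MP_8d8c46_lc.MC
end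

section

/-! T53 : Y05 -/

set_option autoImplicit false
set_option linter.unusedSectionVars false

open scoped Classical
open Finset

namespace Pool.Agent.Lib.MP_8d8c46_lc.MC

open Pool.Agent.Lib.MP_8d8c46_lc.EL
open Pool.Agent.Lib.MP_8d8c46_lc.SA (BV Om Bg shf shf_symm)

section
variable {d N q : ℕ} [NeZero q]

/-- Y05. Most lifts are No instances.
card_bad (SA/Rand) for each S with |S| = 2 d N p, union bound over at most 2^(2dNq) ≤ exp(2dNq) sets; exponent 2dNq - N d² κ ≤ -N d ≤ -5 and exp(-5) ≤ 1/100. ω outside: SSENo by le_expansion_iff, Y01; see exists_good in SA/Rand and EL/Main.lean line 200. -/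
theorem no_mass {p : ℕ} {η : ℚ} (hp : 1 ≤ p) (hpq : p ≤ q) (hN : 5 ≤ N) (hd : 1 ≤ d)
    (hη : (p : ℝ) / q < η) (hdκ : 2 * q + 1 ≤ d * (((p : ℝ) / q * (η - p / q)) ^ 2 / 68)) :
    (((univ : Finset (Om d N q)).filter
      (fun ω => ¬ SSENo η ((p : ℚ) / q) (GrL ω))).card : ℝ) ≤
      (1 / 100) * Fintype.card (Om d N q) := by
  have hN0 : 0 < N := by omega
  have hN' : (5 : ℝ) ≤ N := by exact_mod_cast hN
  have hd' : (1 : ℝ) ≤ d := by exact_mod_cast hd
  have hq0 : 0 < q := Nat.pos_of_ne_zero (NeZero.ne q)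
  have hqQ : (0 : ℚ) < q := by exact_mod_cast hq0
  have hO : (0 : ℝ) < Fintype.card (Om d N q) := by exact_mod_cast Fintype.card_pos
  obtain ⟨κ, hκ⟩ : ∃ κ : ℝ, κ = ((p : ℝ) / q * (η - p / q)) ^ 2 / 68 := ⟨_, rfl⟩
  rw [← hκ] at hdκ
  have hV : Fintype.card (BV d N × ZMod q) = 2 * d * N * q := by
    rw [Fintype.card_prod, Fintype.card_prod, Fintype.card_prod,
      Fintype.card_bool, Fintype.card_fin, Fintype.card_fin, ZMod.card]
    ring
  obtain ⟨bad, hbad⟩ : ∃ bad : Finset (BV d N × ZMod q) → Finset (Om d N q), ∀ S, bad S =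
    univ.filter fun ω : Om d N q => (η : ℝ) * (d * S.card) <
      (inside (SA.lift (Bg ω) (shf ω) (shf_symm ω)) S : ℝ) := ⟨_, fun _ => rfl⟩
  obtain ⟨U, hU⟩ : ∃ U : Finset (Om d N q), U = (univ.filter fun S : Finset (BV d N × ZMod q) =>
    S.card = 2 * d * N * p).biUnion bad := ⟨_, rfl⟩
  have hsub : (univ : Finset (Om d N q)).filter
      (fun ω => ¬ SSENo η ((p : ℚ) / q) (GrL ω)) ⊆ U := by
    intro ω hω
    rw [mem_filter] at hω
    by_contra h
    apply hω.2
    refine ⟨d, ⟨hd, GrL_regular ω, 2 * d * N * p, by positivity, ?_⟩, ?_⟩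
    · rw [hV]; push_cast; field_simp
    · intro S hS
      have hS1 : S.card = 2 * d * N * p := by
        have h2 : (S.card : ℚ) = ((2 * d * N * p : ℕ) : ℚ) := by
          rw [hS, hV]; push_cast; field_simp
        exact_mod_cast h2
      have hS0 : 0 < S.card := by rw [hS1]; positivity
      rw [le_expansion_iff (GrL_regular ω) hd hS0]
      by_contra h3
      push Not at h3
      apply h
      rw [hU, mem_biUnion]
      refine ⟨S, by simp [hS1], ?_⟩
      rw [hbad, mem_filter]
      refine ⟨mem_univ _, ?_⟩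
      have h4 : ((η * (d * S.card) : ℚ) : ℝ) < ((inside (GrL ω) S : ℚ) : ℝ) := by
        exact_mod_cast h3
      push_cast at h4
      exact h4
  refine (Nat.cast_le.2 (card_le_card hsub)).trans ?_
  have h1 : (U.card : ℝ) ≤ ∑ S ∈ univ.filter (fun S : Finset (BV d N × ZMod q) =>
      S.card = 2 * d * N * p), ((bad S).card : ℝ) := by
    rw [hU]
    exact_mod_cast card_biUnion_le
  have h2 : ∑ S ∈ univ.filter (fun S : Finset (BV d N × ZMod q) =>
      S.card = 2 * d * N * p), ((bad S).card : ℝ) ≤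
      ∑ S ∈ univ.filter (fun S : Finset (BV d N × ZMod q) =>
      S.card = 2 * d * N * p), (Fintype.card (Om d N q) * Real.exp (-(N * d ^ 2 * κ))) := by
    refine sum_le_sum (fun S hS => ?_)
    rw [mem_filter] at hS
    rw [hbad]
    exact SA.card_bad S hN0 hS.2 hη hκ
  rw [sum_const, nsmul_eq_mul] at h2
  have h3 : ((univ.filter (fun S : Finset (BV d N × ZMod q) =>
      S.card = 2 * d * N * p)).card : ℝ) ≤ 2 ^ (2 * d * N * q) := by
    have : (univ.filter (fun S : Finset (BV d N × ZMod q) =>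
      S.card = 2 * d * N * p)).card ≤ 2 ^ (2 * d * N * q) := by
      refine (card_le_univ _).trans (le_of_eq ?_)
      rw [Fintype.card_finset, hV]
    exact_mod_cast this
  have h4 : (2 : ℝ) ^ (2 * d * N * q) ≤ Real.exp (2 * d * N * q) := by
    have h5 : (2 : ℝ) ≤ Real.exp 1 := by
      have := Real.add_one_le_exp (1 : ℝ); linarith
    calc (2 : ℝ) ^ (2 * d * N * q) ≤ (Real.exp 1) ^ (2 * d * N * q) :=
          pow_le_pow_left₀ (by norm_num) h5 _
      _ = _ := by
          rw [← Real.exp_nat_mul]; push_cast; ring_nf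
  have h5 : Real.exp (2 * d * N * q) * Real.exp (-(N * d ^ 2 * κ)) ≤ 1 / 100 := by
    rw [← Real.exp_add]
    have h6 : 2 * d * N * q + -(N * d ^ 2 * κ) ≤ -5 := by
      have h7 : (N : ℝ) * d * (2 * q + 1) ≤ N * d * (d * κ) :=
        mul_le_mul_of_nonneg_left hdκ (by positivity)
      have h8 : (5 : ℝ) * 1 ≤ N * d := mul_le_mul hN' hd' (by norm_num) (by positivity)
      nlinarith
    refine (Real.exp_le_exp.2 h6).trans ?_
    have h9 : (100 : ℝ) ≤ Real.exp 5 := by
      have h10 : (2.7 : ℝ) ≤ Real.exp 1 := by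
        have := Real.exp_one_gt_d9
        linarith
      have : Real.exp 5 = Real.exp 1 ^ 5 := by rw [← Real.exp_nat_mul]; norm_num
      rw [this]
      calc (100 : ℝ) ≤ 2.7 ^ 5 := by norm_num
        _ ≤ _ := pow_le_pow_left₀ (by norm_num) h10 5
    rw [Real.exp_neg, one_div]
    exact inv_anti₀ (by norm_num) h9
  calc (U.card : ℝ) ≤ _ := h1.trans h2
    _ ≤ Real.exp (2 * d * N * q) *
        (Fintype.card (Om d N q) * Real.exp (-(N * d ^ 2 * κ))) :=
        mul_le_mul_of_nonneg_right (h3.trans h4) (by positivity)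
    _ = Fintype.card (Om d N q) * (Real.exp (2 * d * N * q) *
        Real.exp (-(N * d ^ 2 * κ))) := by ring
    _ ≤ Fintype.card (Om d N q) * (1 / 100) := mul_le_mul_of_nonneg_left h5 hO.le
    _ = _ := by ring

end

end Pool.Agent.Lib.MP_8d8c46_lc.MC
end

section

/-! Definitions. -/

set_option autoImplicit false
set_option linter.unusedSectionVars false

open scoped Classical
open Finset

namespace Pool.Agent.Lib.MP_8d8c46_lc.MC

open Pool.Agent.Lib.MP_8d8c46_lc.EL

open Pool.Agent.Lib.MP_8d8c46_lc.SA (BV Om Bg shf shf_symm)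

section

variable {d N q : ℕ} [NeZero q]

/-- the classes of pairs of vertices -/
noncomputable def colV (hd : 1 ≤ d) {V : Type} (φ : V ≃ BV d N × ZMod q) (s : Sym2 V) :
    Fin (d * d) :=
  if h : ∃ (a b : Fin d) (u v : Fin N) (i j : ZMod q),
      s = s(φ.symm ((false, a, u), i), φ.symm ((true, b, v), j)) then
    finProdFinEquiv (h.choose, h.choose_spec.choose)
  else ⟨0, by positivity⟩

/-- the graph on `V` -/
noncomputable def GrV {V : Type} (φ : V ≃ BV d N × ZMod q) (ω : Om d N q) : SimpleGraph V :=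
  (GrL ω).comap φ

/-- what the player of the pair of classes `e` sees, in terms of its labelled permutation -/
noncomputable def seen {V : Type} (φ : V ≃ BV d N × ZMod q) (e : Pl d) (w : LP N q) :
    Set (Sym2 V) :=
  {s | ∃ (u : Fin N) (i : ZMod q),
    s = s(φ.symm ((false, e.1, u), i), φ.symm ((true, e.2, w.1 u), i + w.2 u))}

end

end Pool.Agent.Lib.MP_8d8c46_lc.MC
end

section

/-! T54 : Z01 -/

set_option autoImplicit false
set_option linter.unusedSectionVars false

open scoped Classical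
open Finset

namespace Pool.Agent.Lib.MP_8d8c46_lc.MC

open Pool.Agent.Lib.MP_8d8c46_lc.EL
open Pool.Agent.Lib.MP_8d8c46_lc.SA (BV Om Bg shf shf_symm)

section
variable {d N q : ℕ} [NeZero q]

theorem t54_col (hd : 1 ≤ d) {V : Type} [Fintype V] (φ : V ≃ BV d N × ZMod q) (a b : Fin d)
    (u v : Fin N) (i j : ZMod q) :
    colV hd φ s(φ.symm ((false, a, u), i), φ.symm ((true, b, v), j)) =
      finProdFinEquiv (a, b) := by
  have h : ∃ (a' b' : Fin d) (u' v' : Fin N) (i' j' : ZMod q),
      s(φ.symm ((false, a, u), i), φ.symm ((true, b, v), j)) =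
        s(φ.symm ((false, a', u'), i'), φ.symm ((true, b', v'), j')) :=
    ⟨a, b, u, v, i, j, rfl⟩
  unfold colV
  rw [dif_pos h]
  obtain ⟨u', v', i', j', hs⟩ := h.choose_spec.choose_spec
  rw [Sym2.eq_iff] at hs
  rcases hs with ⟨h1, h2⟩ | ⟨h1, h2⟩
  · have h3 := φ.symm.injective h1
    have h4 := φ.symm.injective h2
    simp only [Prod.mk.injEq, true_and] at h3 h4
    exact congrArg finProdFinEquiv (Prod.ext h3.1.1.symm h4.1.1.symm)
  · have h3 := φ.symm.injective h1
    simp at h3

theorem t54_mem {V : Type} [Fintype V] (φ : V ≃ BV d N × ZMod q) (ω : Om d N q)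
    (s : Sym2 V) : s ∈ (GrV φ ω).edgeSet ↔ ∃ e : Pl d, s ∈ seen φ e (ω e) := by
  have key : ∀ v w : V, SA.lr ω (φ v).1 (φ w).1 →
      (φ w).2 = (φ v).2 + shf ω (φ v).1 (φ w).1 →
      ∃ e : Pl d, s(v, w) ∈ seen φ e (ω e) := by
    intro v w h1 h2
    obtain ⟨⟨⟨x, a, u⟩, i⟩, hx⟩ : ∃ z : BV d N × ZMod q, z = φ v := ⟨_, rfl⟩
    obtain ⟨⟨⟨y, b, t⟩, j⟩, hy⟩ : ∃ z : BV d N × ZMod q, z = φ w := ⟨_, rfl⟩
    rw [← hx, ← hy] at h1 h2
    obtain ⟨h3, h4, h5⟩ := h1
    simp only at h3 h4 h5
    subst h3 h4 h5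
    have h6 : j = i + (ω (a, b)).2 u := by simpa [shf] using h2
    subst h6
    refine ⟨(a, b), u, i, ?_⟩
    have hv : v = φ.symm ((false, a, u), i) := by rw [hx]; simp
    have hw : w = φ.symm ((true, b, (ω (a, b)).1 u), i + (ω (a, b)).2 u) := by rw [hy]; simp
    rw [hv, hw]
  constructor
  · refine Sym2.ind (fun v w h => ?_) s
    rw [SimpleGraph.mem_edgeSet] at h
    have h' : (GrL ω).Adj (φ v) (φ w) := h
    obtain ⟨h1, h2⟩ := h'
    rcases h1 with h1 | h1
    · exact key v w h1 h2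
    · have h3 : (φ v).2 = (φ w).2 + shf ω (φ w).1 (φ v).1 := by
        rw [h2, shf_symm ω (φ v).1 (φ w).1]; ring
      obtain ⟨e, he⟩ := key w v h1 h3
      exact ⟨e, by rw [Sym2.eq_swap]; exact he⟩
  · rintro ⟨e, u, i, hs⟩
    rw [hs, SimpleGraph.mem_edgeSet]
    change (GrL ω).Adj (φ (φ.symm _)) (φ (φ.symm _))
    rw [Equiv.apply_symm_apply, Equiv.apply_symm_apply]
    refine ⟨Or.inl ⟨rfl, rfl, rfl⟩, ?_⟩
    simp [shf]

/-- Z01.
Edges of GrV: s(φ.symm x, φ.symm y) with x = ((false,a,u),i), y = ((true,b,(ω(a,b)).1 u), i + (ω(a,b)).2 u); for such s the class colV is finProdFinEquiv (a,b), since a representation s = s(φ.symm ((false,a',..)..), φ.symm ((true,b',..)..)) has a' = a, b' = b (Sym2.eq_iff; the swapped case is impossible as false ≠ true). -/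
theorem view_eq (hd : 1 ≤ d) {V : Type} [Fintype V] (φ : V ≃ BV d N × ZMod q) (ω : Om d N q)
    (i : Fin (d * d)) :
    view (colV hd φ) (GrV φ ω) i = seen φ (finProdFinEquiv.symm i) (ω (finProdFinEquiv.symm i)) := by
  have hcol : ∀ (e : Pl d) (s : Sym2 V), s ∈ seen φ e (ω e) →
      colV hd φ s = finProdFinEquiv e := by
    rintro ⟨a, b⟩ s ⟨u, j, hs⟩
    rw [hs]
    exact t54_col hd φ a b u _ j _
  ext s
  change (s ∈ (GrV φ ω).edgeSet ∧ colV hd φ s = i) ↔ _
  rw [t54_mem]
  constructor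
  · rintro ⟨⟨e, he⟩, h2⟩
    rw [hcol e s he] at h2
    rw [← h2, Equiv.symm_apply_apply]
    exact he
  · intro h
    refine ⟨⟨_, h⟩, ?_⟩
    rw [hcol _ s h, Equiv.apply_symm_apply]

end

end Pool.Agent.Lib.MP_8d8c46_lc.MC
end

section

/-! T55 : Z02, Z03 -/

set_option autoImplicit false
set_option linter.unusedSectionVars false

open scoped Classical
open Finset

namespace Pool.Agent.Lib.MP_8d8c46_lc.MC

open Pool.Agent.Lib.MP_8d8c46_lc.EL
open Pool.Agent.Lib.MP_8d8c46_lc.SA (BV Om Bg shf shf_symm)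

section
variable {d N q : ℕ} [NeZero q]

/-- Z02. Transport of instances.
As no_comap, yes_comap in EL/Func.lean (stated there with e.symm); φ is an equivalence. -/
theorem GrV_facts {V : Type} [Fintype V] (φ : V ≃ BV d N × ZMod q) (ω : Om d N q) :
    Regular (GrV φ ω) d ∧ (∀ ε δ : ℚ, SSEYes ε δ (GrL ω) → SSEYes ε δ (GrV φ ω)) ∧
      (∀ η δ : ℚ, SSENo η δ (GrL ω) → SSENo η δ (GrV φ ω)) := by
  refine ⟨?_, fun ε δ h => ?_, fun η δ h => ?_⟩
  · exact regular_comap φ.symm (GrL_regular ω)
  · exact yes_comap φ.symm h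
  · exact no_comap φ.symm h

/-- Z03. The protocol on the labelled permutations.
Induction on P: say i f P Q ↦ Tr.say (finProdFinEquiv.symm i) (fun w => f (seen φ (finProdFinEquiv.symm i) w)) .. ..; Z01. -/
theorem exists_tree (hd : 1 ≤ d) {V : Type} [Fintype V] (φ : V ≃ BV d N × ZMod q)
    (P : Protocol (d * d) (Set (Sym2 V))) :
    ∃ T : Tr (Pl d) (LP N q), T.depth = P.cost ∧
      ∀ ω : Om d N q, T.run ω = P.run (view (colV hd φ) (GrV φ ω)) := by
  induction P with
  | answer b => exact ⟨Tr.out b, rfl, fun ω => rfl⟩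
  | say i f P Q ihP ihQ =>
    obtain ⟨TP, hP1, hP2⟩ := ihP
    obtain ⟨TQ, hQ1, hQ2⟩ := ihQ
    refine ⟨Tr.say (finProdFinEquiv.symm i) (fun w => f (seen φ (finProdFinEquiv.symm i) w))
      TP TQ, ?_, fun ω => ?_⟩
    · simp only [Tr.depth, Protocol.cost, hP1, hQ1]
    · simp only [Tr.run, Protocol.run, hP2, hQ2]
      rw [view_eq hd φ ω i]

end

end Pool.Agent.Lib.MP_8d8c46_lc.MC
end

section

/-! T56 : Z04 -/

set_option autoImplicit false
set_option linter.unusedSectionVars false

open scoped Classical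
open Finset

namespace Pool.Agent.Lib.MP_8d8c46_lc.MC

open Pool.Agent.Lib.MP_8d8c46_lc.EL
open Pool.Agent.Lib.MP_8d8c46_lc.SA (BV Om Bg shf shf_symm)

section
variable {d N q : ℕ} [NeZero q]

/-- Z04. The mean over the random choices of the protocol.
(A.map g) true = Σ' P, if g P = true then A P else 0 (PMF.map_apply); see answerProb_mean and its use in QueryFinal.lean. Σ_x (..) (w x - 1) = Σ'_P A P * Σ_x (if run then w x - 1 else 0); absolute value ≤ D. X is finite, all sums bounded. -/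
theorem mean_adv {X : Type} [Fintype X] {k : ℕ} {Y : Type} (A : PMF (Protocol k Y))
    (inp : X → Fin k → Y) (w : X → ℝ) (hw : ∀ x, 0 ≤ w x) (D : ℝ)
    (h : ∀ P ∈ A.support, |∑ x, (if P.run (inp x) then w x - 1 else 0)| ≤ D) :
    |∑ x, ((A.map (fun P => P.run (inp x))) true).toReal * (w x - 1)| ≤ D := by
  have ha : Summable (fun P => (A P).toReal) :=
    ENNReal.summable_toReal (by rw [A.tsum_coe]; exact ENNReal.one_ne_top)
  have ha1 : ∑' P, (A P).toReal = 1 := by
    rw [← ENNReal.tsum_toReal_eq (fun P => A.apply_ne_top P), A.tsum_coe]; rfl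
  have hmap : ∀ x, ((A.map (fun P => P.run (inp x))) true).toReal =
      ∑' P, (if P.run (inp x) then (A P).toReal else 0) := by
    intro x
    rw [PMF.map_apply, ENNReal.tsum_toReal_eq]
    · refine tsum_congr (fun P => ?_)
      by_cases hP : P.run (inp x) = true
      · simp [hP]
      · simp [hP]
    · intro P
      split_ifs
      · exact A.apply_ne_top P
      · exact ENNReal.zero_ne_top
  have hs : ∀ x, Summable (fun P => (if P.run (inp x) then (A P).toReal else 0)) := by
    intro x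
    refine Summable.of_nonneg_of_le (fun P => ?_) (fun P => ?_) ha
    · split_ifs
      · exact ENNReal.toReal_nonneg
      · exact le_rfl
    · split_ifs
      · exact le_rfl
      · exact ENNReal.toReal_nonneg
  have key : ∑ x, ((A.map (fun P => P.run (inp x))) true).toReal * (w x - 1) =
      ∑' P, (A P).toReal * ∑ x, (if P.run (inp x) then w x - 1 else 0) := by
    calc _ = ∑ x, ∑' P, (if P.run (inp x) then (A P).toReal else 0) * (w x - 1) := by
          refine sum_congr rfl (fun x _ => ?_)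
          rw [hmap x, tsum_mul_right]
      _ = ∑' P, ∑ x, (if P.run (inp x) then (A P).toReal else 0) * (w x - 1) :=
          (Summable.tsum_finsetSum (fun x _ => (hs x).mul_right _)).symm
      _ = _ := by
          refine tsum_congr (fun P => ?_)
          rw [mul_sum]
          refine sum_congr rfl (fun x _ => ?_)
          split_ifs <;> ring
  rw [key, ← Real.norm_eq_abs]
  have hb : ∀ P, ‖(A P).toReal * ∑ x, (if P.run (inp x) then w x - 1 else 0)‖ ≤
      (A P).toReal * D := by
    intro P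
    rw [norm_mul, Real.norm_eq_abs, Real.norm_eq_abs, abs_of_nonneg ENNReal.toReal_nonneg]
    by_cases hP : P ∈ A.support
    · exact mul_le_mul_of_nonneg_left (h P hP) ENNReal.toReal_nonneg
    · have h0 : A P = 0 := by rwa [PMF.mem_support_iff, not_not] at hP
      simp [h0]
  have hsD : Summable (fun P => (A P).toReal * D) := ha.mul_right D
  have hsn : Summable (fun P => ‖(A P).toReal * ∑ x, (if P.run (inp x) then w x - 1 else 0)‖) :=
    Summable.of_nonneg_of_le (fun P => norm_nonneg _) hb hsD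
  calc ‖∑' P, (A P).toReal * ∑ x, (if P.run (inp x) then w x - 1 else 0)‖
      ≤ ∑' P, ‖(A P).toReal * ∑ x, (if P.run (inp x) then w x - 1 else 0)‖ :=
        norm_tsum_le_tsum_norm hsn
    _ ≤ ∑' P, (A P).toReal * D := hsn.tsum_le_tsum hb hsD
    _ = D := by rw [tsum_mul_right, ha1, one_mul]

end

end Pool.Agent.Lib.MP_8d8c46_lc.MC
end
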