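import Pool.Agent.Lib.MP_8d8c46_lc.Mg.G010
import Pool.Agent.Lib.MP_8d8c46_lc.Mg.G011
import Pool.Agent.Lib.MP_8d8c46_lc.Mg.G012
import Pool.Agent.Lib.MP_8d8c46_lc.MC.T39
import Pool.Agent.Lib.MP_8d8c46_lc.Mg.G014

section

/-! T38 : R14 -/

set_option autoImplicit false
set_option linter.unusedSectionVars false

open scoped Classical
open Finset

namespace Pool.Agent.Lib.MP_8d8c46_lc.MC

open Pool.Agent.Lib.MP_8d8c46_lc.EL
open Pool.Agent.Lib.MP_8d8c46_lc.SA (BV Om)

private lemma t38_avg {α : Type} (i1 i2 : Fintype α) (f : α → ℝ) :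
    @avg α i1 f = @avg α i2 f := by
  rw [Subsingleton.elim i1 i2]

section
variable {d N q : ℕ} [NeZero q]

/-- R14. A good rectangle has nearly the same mass under both distributions.
If rc0 is empty trivial. Else all R0 e are nonempty (R06), Agr holds for R0. R12 for R' = R0 and ω₀ ∈ rc0: Σ wY = |rc0| avg_x dn(EF ω₀ I) x Π_e gg. Forest (EF ω₀ I) (St.forest); F02 with vts = VR (R03) reduces to: for all h, |avg_X Π_e g_e(X) - 1| ≤ bound, g_e X = gg σ (R0 e) (I e) (S.xl h X) (S.xr h X) with S = ⟨fun u => (false,e.1,u), fun v => (true,e.2,v), VR R I, ρ, ...⟩. Use H14 with U = BV d N, A = ZMod q, E = Pl d, m = d*d, G e t = gt ..., H e = Σ_{t ∈ Ico L (N+1)} gt (O01, O02), M = 2 γ^v: |g_e| ≤ fr/|R0 e| ≤ 2 γ^v (O03, O04, R13, R10); levels 1 ≤ t < L: Q03 with r from hlow (fr ≤ γ^v |R e| ≤ 2 γ^v |R0 e| ≤ 2^(tr) |R0 e|; |VR| ≤ 2v (R09), N - |I e| ≥ N - v, 2t ≤ N - |I e|), tail: Q07 and hhigh; O14 for the degree. NI from the definition of R0; SprP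 from R11. -/
theorem rect_core {σ γ : ℝ} (h0 : 0 < σ) (h1 : σ < 1) (hσγ : σ * γ = 1) {v L : ℕ} {β ζ : ℝ}
    (hd : 1 ≤ d) (hβ : 0 < β) (hζ : 0 ≤ ζ) {R : Pl d → Finset (LP N q)}
    {I : Pl d → Finset (Fin N)} (hS : St γ v R I) (hz : ∏ e, zt γ (R e) (I e) ≤ √(γ ^ v))
    (hv : 2 * v ≤ N) (hN : 1 ≤ N) (h : 2 * γ * (v : ℝ) ^ 2 ≤ N - v) (hL : 2 * v + 1 ≤ L)
    (hLN : 2 * L ≤ N - v)
    (hlow : ∀ t ∈ Ico 1 L, ∃ r : ℕ, 1 ≤ r ∧ 2 * γ ^ v ≤ (2 : ℝ) ^ (t * r) ∧
      4 * (256 * q * r * (t + 2 * v + 1) / ((N : ℝ) - v)) ^ t ≤ (β ^ 2) ^ t)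
    (hhigh : (N + 1 : ℝ) ^ 2 * (2 * (1 / 2) ^ L + 2 * σ ^ (N / 128) * (N + 1 : ℝ) ^ (2 * v)) *
      (2 * γ ^ v) ≤ ζ ^ 2)
    (hβ2 : 2 * (8 * (d * d : ℕ) * (q : ℝ)) * β ≤ 1) :
    |∑ ω ∈ rc0 R I, (wY σ ω - 1)| ≤
      (((1 + 16 * (d * d : ℕ) * (q : ℝ) * β) ^ (d * d) - 1) +
        (d * d : ℕ) * (2 * γ ^ v) ^ (d * d) * (1 + 16 * (d * d : ℕ) * (q : ℝ) * β) ^ (d * d) *
          ζ) * (rc0 R I).card := by
  have hγ0 : 0 < γ := by
    rcases lt_trichotomy γ 0 with h | h | h
    · nlinarith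
    · rw [h, mul_zero] at hσγ; norm_num at hσγ
    · exact h
  have hγ1 : 1 ≤ γ := by nlinarith
  have hvN : v < N := by omega
  have hvN' : (v : ℝ) < N := by exact_mod_cast hvN
  obtain ⟨b₀, hb₀⟩ : ∃ b₀ : ℝ, b₀ = ((1 + 16 * (d * d : ℕ) * (q : ℝ) * β) ^ (d * d) - 1) +
        (d * d : ℕ) * (2 * γ ^ v) ^ (d * d) * (1 + 16 * (d * d : ℕ) * (q : ℝ) * β) ^ (d * d) *
          ζ := ⟨_, rfl⟩
  rw [← hb₀]
  rcases (rc0 R I).eq_empty_or_nonempty with hemp | ⟨ω₀, hω₀⟩
  · rw [hemp]; simp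
  have hω₀' : ω₀ ∈ rc (R0 R I) := by rw [← rc0_eq]; exact hω₀
  have hmem := Fintype.mem_piFinset.1 hω₀'
  have hne0 : ∀ e, (R0 R I e).Nonempty := fun e => ⟨_, hmem e⟩
  have hA0 : ∀ e, Agr (R0 R I e) (I e) := by
    intro e ω h1 ω' h2 u hu
    exact hS.agr e ω (mem_filter.1 h1).1 ω' (mem_filter.1 h2).1 u hu
  have hcardI : ∀ e, (I e).card ≤ v := fun e =>
    (single_le_sum (f := fun e => (I e).card) (fun _ _ => Nat.zero_le _) (mem_univ e)).trans hS.card
  have hVRc : (VR R I).card ≤ 2 * v :=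
    (card_VR hS.agr).trans (Nat.mul_le_mul_left 2 hS.card)
  have hR0c : ∀ e, ((R e).card : ℝ) ≤ 2 * (R0 R I e).card := fun e => card_R0 hγ1 hS hvN h e
  have hR0pos : ∀ e, (0 : ℝ) < (R0 R I e).card := fun e => by exact_mod_cast (hne0 e).card_pos
  have hfr : ∀ e, fr N q (I e).card ≤ 2 * γ ^ v * (R0 R I e).card := by
    intro e
    calc fr N q (I e).card ≤ γ ^ v * (R e).card := fr_le hγ1 hS hz e
      _ ≤ γ ^ v * (2 * (R0 R I e).card) := mul_le_mul_of_nonneg_left (hR0c e) (by positivity)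
      _ = _ := by ring
  have hfrdiv : ∀ e, fr N q (I e).card / (R0 R I e).card ≤ 2 * γ ^ v := by
    intro e
    rw [div_le_iff₀ (hR0pos e)]
    exact hfr e
  obtain ⟨ρ, hρ1, hρ2, hρ⟩ := forest_avg h0.le h1.le (hS.forest ω₀ hω₀)
  rw [vts_EF hS.agr (mem_filter.1 hω₀).1] at hρ1 hρ2
  obtain ⟨S, hS1, hS2, hS3, hS4⟩ : ∃ S : Pl d → Sit (BV d N) N q,
      (∀ e u, (S e).L u = (false, e.1, u)) ∧ (∀ e u, (S e).Rr u = (true, e.2, u)) ∧
      (∀ e, (S e).W = VR R I) ∧ (∀ e, (S e).ρ = ρ) := by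
    refine ⟨fun e => ⟨fun u => (false, e.1, u), fun u => (true, e.2, u), VR R I, ρ, ?_, ?_, ?_,
      hρ1, hρ2⟩, fun _ _ => rfl, fun _ _ => rfl, fun _ => rfl, fun _ => rfl⟩
    · intro u u' huu
      simpa using huu
    · intro u u' huu
      simpa using huu
    · intro u u' huu
      simp at huu
  have hNI : ∀ e, (S e).NI (R0 R I e) (I e) := by
    intro e ω hω u hu
    rw [hS1, hS2, hS3]
    exact (mem_filter.1 hω).2 u hu
  have hmain : ∀ x₀ : BV d N → ZMod q,
      |avg (fun X : BV d N → ZMod q => ∏ e : Pl d, gg σ (R0 R I e) (I e)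
        ((S e).xl x₀ X) ((S e).xr x₀ X)) - 1| ≤ b₀ := by
    intro x₀
    have hcardP : Fintype.card (Pl d) = d * d := by simp
    have hdd : 1 ≤ d * d := Nat.one_le_iff_ne_zero.2 (by positivity)
    have hq : ((Fintype.card (ZMod q) : ℕ) : ℝ) = q := by rw [ZMod.card]
    have hpc := prod_close (U := BV d N) (A := ZMod q) (E := Pl d)
      (fun e X => gg σ (R0 R I e) (I e) ((S e).xl x₀ X) ((S e).xr x₀ X))
      (fun e t X => gt σ (R0 R I e) (I e) t ((S e).xl x₀ X) ((S e).xr x₀ X))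
      (fun e X => ∑ t ∈ Ico L (N + 1), gt σ (R0 R I e) (I e) t ((S e).xl x₀ X) ((S e).xr x₀ X))
      L (d * d) hcardP hdd (β := β) (ζ := ζ) (M := 2 * γ ^ v) hβ hζ
      (by have : (1 : ℝ) ≤ γ ^ v := one_le_pow₀ hγ1
          linarith)
      (by rw [hq]; exact hβ2)
      (by
        intro e X
        show gg σ (R0 R I e) (I e) ((S e).xl x₀ X) ((S e).xr x₀ X) =
          1 + ∑ t ∈ Ico 1 L, gt σ (R0 R I e) (I e) t ((S e).xl x₀ X) ((S e).xr x₀ X) +
          ∑ t ∈ Ico L (N + 1), gt σ (R0 R I e) (I e) t ((S e).xl x₀ X) ((S e).xr x₀ X)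
        rw [gg_eq_sum, range_eq_Ico, ← sum_Ico_consecutive _ (Nat.zero_le L)
          (show L ≤ N + 1 by omega), ← sum_Ico_consecutive _ (Nat.zero_le 1)
          (show 1 ≤ L by omega)]
        have : Ico 0 1 = {0} := by decide
        rw [this, sum_singleton, gt_zero σ (hne0 e)])
      (by
        intro e X
        show |gg σ (R0 R I e) (I e) ((S e).xl x₀ X) ((S e).xr x₀ X)| ≤ 2 * γ ^ v
        rw [abs_of_nonneg (gg_nonneg h0.le h1.le _ _ _ _)]
        exact (gg_le h0.le h1.le (hne0 e) (hA0 e) _ _).trans (hfrdiv e))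
      (by
        intro e
        have hW : (S e).W.card ≤ 2 * v := by rw [hS3]; exact hVRc
        refine (lev_tail (S e) h0 hγ0.le hσγ.le h1.le (hNI e) (hne0 e) (hA0 e)
          (sprP_R0 hγ1 hS hvN h e) (L := L) (by omega) (by have := hcardI e; omega) x₀).trans ?_
        refine le_trans ?_ hhigh
        have hN1 : (1 : ℝ) ≤ (N : ℝ) + 1 := by
          have : (0 : ℝ) ≤ N := Nat.cast_nonneg _
          linarith
        have hp : ((N : ℝ) + 1) ^ (S e).W.card ≤ ((N : ℝ) + 1) ^ (2 * v) :=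
          pow_le_pow_right₀ hN1 hW
        refine mul_le_mul ?_ (hfrdiv e) ?_ (by positivity)
        · refine mul_le_mul_of_nonneg_left ?_ (by positivity)
          have := mul_le_mul_of_nonneg_left hp (show (0 : ℝ) ≤ 2 * σ ^ (N / 128) by positivity)
          linarith
        · unfold fr; positivity)
      (by
        intro e t ht
        obtain ⟨r, hr1, hr2, hr3⟩ := hlow t ht
        rw [mem_Ico] at ht
        have hIe := hcardI e
        have hD : fr N q (I e).card ≤ 2 ^ (t * r) * (R0 R I e).card :=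
          (hfr e).trans (mul_le_mul_of_nonneg_right hr2 (Nat.cast_nonneg _))
        refine (lev_low (S e) h0.le hγ0.le hσγ.le h1.le (hNI e) (hne0 e) (hA0 e)
          (sprP_R0 hγ1 hS hvN h e) hr1 hD (by omega) x₀).trans ?_
        refine le_trans ?_ hr3
        have hW : (((S e).W.card : ℕ) : ℝ) ≤ 2 * v := by
          rw [hS3]; exact_mod_cast hVRc
        have hNI' : (N : ℝ) - v ≤ ((N - (I e).card : ℕ) : ℝ) := by
          rw [Nat.cast_sub (by omega)]
          have : ((I e).card : ℝ) ≤ v := by exact_mod_cast hIe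
          linarith
        have hNv : (0 : ℝ) < (N : ℝ) - v := by linarith
        refine mul_le_mul_of_nonneg_left ?_ (by norm_num)
        refine pow_le_pow_left₀ (by positivity) ?_ t
        refine div_le_div₀ (by positivity) ?_ hNv hNI'
        refine mul_le_mul_of_nonneg_left (by linarith) (by positivity))
      (by
        intro e t _
        exact gt_dep (S e) σ (R0 R I e) (I e) t x₀)
    rw [hq, ← hb₀] at hpc
    refine le_trans (le_of_eq ?_) hpc
    congr 2
    exact t38_avg _ _ _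
  have hsum := sum_wY σ hA0 hne0 hω₀'
  rw [← rc0_eq] at hsum
  have hΦ := hρ (fun x : BV d N → ZMod q => ∏ e : Pl d, gg σ (R0 R I e) (I e)
    (fun u => x (false, e.1, u)) (fun v => x (true, e.2, v))) (1 - b₀) (1 + b₀) (by
      intro x₀
      have h5 := hmain x₀
      have h6 : (fun X : BV d N → ZMod q => ∏ e : Pl d, gg σ (R0 R I e) (I e)
        ((S e).xl x₀ X) ((S e).xr x₀ X)) = (fun X : BV d N → ZMod q =>
        ∏ e : Pl d, gg σ (R0 R I e) (I e)
          (fun u => x₀ (false, e.1, u) + X (ρ (false, e.1, u)))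
          (fun v => x₀ (true, e.2, v) + X (ρ (true, e.2, v)))) := by
        funext X
        refine prod_congr rfl (fun e _ => ?_)
        have h7 : (S e).xl x₀ X = fun u => x₀ (false, e.1, u) + X (ρ (false, e.1, u)) := by
          funext u
          unfold Sit.xl
          rw [hS1, hS4]
        have h8 : (S e).xr x₀ X = fun v => x₀ (true, e.2, v) + X (ρ (true, e.2, v)) := by
          funext u
          unfold Sit.xr
          rw [hS2, hS4]
        rw [h7, h8]
      rw [h6] at h5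
      have h9 := abs_le.1 h5
      obtain ⟨a', ha'⟩ : ∃ a' : ℝ, a' = avg (fun X : BV d N → ZMod q =>
        ∏ e : Pl d, gg σ (R0 R I e) (I e)
          (fun u => x₀ (false, e.1, u) + X (ρ (false, e.1, u)))
          (fun v => x₀ (true, e.2, v) + X (ρ (true, e.2, v)))) := ⟨_, rfl⟩
      have h10 : 1 - b₀ ≤ a' ∧ a' ≤ 1 + b₀ := by
        rw [← ha'] at h9
        constructor
        · linarith [h9.1]
        · linarith [h9.2]
      rw [ha'] at h10
      exact ⟨h10.1.trans (le_of_eq (t38_avg _ _ _)), (le_of_eq (t38_avg _ _ _)).trans h10.2⟩)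
  rw [sum_sub_distrib, sum_const, nsmul_eq_mul, mul_one, hsum]
  obtain ⟨a, ha⟩ : ∃ a : ℝ, a = avg (fun x : BV d N → ZMod q => dn σ (EF ω₀ I) x *
      ∏ e : Pl d, gg σ (R0 R I e) (I e) (fun u => x (false, e.1, u))
        (fun v => x (true, e.2, v))) := ⟨_, rfl⟩
  have hΦ' : 1 - b₀ ≤ a ∧ a ≤ 1 + b₀ := by
    rw [ha]
    exact ⟨hΦ.1.trans (le_of_eq (t38_avg _ _ _)), (le_of_eq (t38_avg _ _ _)).trans hΦ.2⟩
  rw [← ha]
  have h10 : ((rc0 R I).card : ℝ) * a - (rc0 R I).card = (rc0 R I).card * (a - 1) := by ring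
  rw [h10, abs_mul, abs_of_nonneg (Nat.cast_nonneg _), mul_comm]
  refine mul_le_mul_of_nonneg_right ?_ (Nat.cast_nonneg _)
  rw [abs_le]
  constructor
  · linarith [hΦ'.1]
  · linarith [hΦ'.2]

end

end Pool.Agent.Lib.MP_8d8c46_lc.MC
end

section

/-! T40 : R16 -/

set_option autoImplicit false
set_option linter.unusedSectionVars false

open scoped Classical
open Finset

namespace Pool.Agent.Lib.MP_8d8c46_lc.MC

open Pool.Agent.Lib.MP_8d8c46_lc.EL
open Pool.Agent.Lib.MP_8d8c46_lc.SA (BV Om)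

/-- R16. -/
theorem rect_est {d q : ℕ} [NeZero q] (hd : 1 ≤ d) {σ γ : ℝ} (h0 : 0 < σ) (h1 : σ < 1)
    (hσγ : σ * γ = 1) {ε₁ : ℝ} (hε : 0 < ε₁) :
    ∃ κ₀ : ℝ, 0 < κ₀ ∧ ∀ κ : ℝ, 0 < κ → κ ≤ κ₀ → ∃ N₀ : ℕ, ∀ N : ℕ, N₀ ≤ N →
      ∀ (R : Pl d → Finset (LP N q)) (I : Pl d → Finset (Fin N)), St γ ⌊κ * √N⌋₊ R I →
        ∏ e, zt γ (R e) (I e) ≤ √(γ ^ ⌊κ * √N⌋₊) →
        |∑ ω ∈ rc0 R I, (wY σ ω - 1)| ≤ ε₁ * (rc0 R I).card := by
  obtain ⟨κ₀, hκ₀, h⟩ := params h0 h1 hσγ (d * d) q (Nat.one_le_iff_ne_zero.2 (by positivity))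
    (Nat.one_le_iff_ne_zero.2 (NeZero.ne q)) hε
  refine ⟨κ₀, hκ₀, fun κ hκ hκ' => ?_⟩
  obtain ⟨N₀, h⟩ := h κ hκ hκ'
  refine ⟨N₀, fun N hN R I hS hz => ?_⟩
  obtain ⟨L, β, ζ, h2, h3, h4, h5, h6, h7, h8, h9, h10, h11, h12⟩ := h N hN
  refine (rect_core h0 h1 hσγ hd h2 h3 hS hz h4 h5 h6 h7 h8 h9 h10 h11).trans ?_
  exact mul_le_mul_of_nonneg_right h12 (Nat.cast_nonneg _)

end Pool.Agent.Lib.MP_8d8c46_lc.MC
end

section

/-! T12 : P04 -/

set_option autoImplicit false
set_option linter.unusedSectionVars false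

open scoped Classical
open Finset

namespace Pool.Agent.Lib.MP_8d8c46_lc.MC


section
variable {N q : ℕ} [NeZero q]

/-- P04. One step: a part that violates spreadness as much as possible is spread.
Call (T, a, c) with T disjoint from I violating if γ^|T| (|R| (N-|I|-|T|)!) ≤ |cyl R T a c| ((N-|I|)! q^|T|). T = ∅ is violating. Choose a violating one with |T| maximal (Finset.exists_max_image on univ of Finset × functions). R' = cyl R T a c, I' = I ∪ T. R' is nonempty since the left side is positive. Spr: for T' ≠ ∅ disjoint from I', cyl R' T' a' c' = cyl R (T ∪ T') (glued), which is not violating: |cyl| (N-|I|)! q^(|T|+|T'|) < γ^(|T|+|T'|) |R| (N-|I|-|T|-|T'|)!; combine with violation of T (γ^|T| |R| ≤ |R'| (N-|I|)! q^|T| / (N-|I|-|T|)!). T' = ∅: equality. zt: γ^|T| (N-|I|-|T|)! q^(N-|I|-|T|) / |R'| ≤ (N-|I|)! q^(N-|I|) / |R| is the violation of T multiplied by q^(N-|I|-|T|). All Nat subtractions are genuine: |I| + |T| ≤ N. -/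
theorem restore_step {γ : ℝ} (hγ : 1 ≤ γ) {R : Finset (LP N q)} {I : Finset (Fin N)}
    (hR : R.Nonempty) (h : Agr R I) :
    ∃ (R' : Finset (LP N q)) (I' : Finset (Fin N)), R' ⊆ R ∧ R'.Nonempty ∧ I ⊆ I' ∧
      Agr R' I' ∧ Spr γ R' I' ∧ zt γ R' I' ≤ zt γ R I := by
  classical
  have hqpos : (0 : ℝ) < (q : ℝ) := by
    have := NeZero.pos q
    exact_mod_cast this
  have hRpos : (0 : ℝ) < (R.card : ℝ) := by exact_mod_cast hR.card_pos
  have hγ0 : 0 < γ := by linarith
  let V : Finset (Fin N) × (Fin N → Fin N) × (Fin N → ZMod q) → Prop := fun X =>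
    Disjoint X.1 I ∧ γ ^ X.1.card * (R.card * ((N - I.card - X.1.card).factorial : ℝ)) ≤
      ((cyl R X.1 X.2.1 X.2.2).card : ℝ) * ((N - I.card).factorial * (q : ℝ) ^ X.1.card)
  have hne : (univ.filter V).Nonempty := by
    refine ⟨(∅, id, fun _ => 0), ?_⟩
    rw [mem_filter]
    refine ⟨mem_univ _, disjoint_empty_left _, ?_⟩
    have h1 : cyl R ∅ id (fun _ => (0 : ZMod q)) = R := by
      unfold cyl
      simp
    simp [h1]
  obtain ⟨⟨T, a, c⟩, hX, hmax⟩ := Finset.exists_max_image (univ.filter V) (fun X => X.1.card) hne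
  rw [mem_filter] at hX
  obtain ⟨-, hdis, hviol⟩ := hX
  simp only at hdis hviol
  have hcardI : (I ∪ T).card = I.card + T.card := by
    rw [Finset.card_union_of_disjoint hdis.symm]
  have hleN : I.card + T.card ≤ N := by
    rw [← hcardI]
    simpa using Finset.card_le_univ (I ∪ T)
  set R' := cyl R T a c with hR'
  have hR'ne : R'.Nonempty := by
    rw [Finset.nonempty_iff_ne_empty]
    intro h0
    rw [h0, Finset.card_empty, Nat.cast_zero, zero_mul] at hviol
    have : 0 < γ ^ T.card * (R.card * ((N - I.card - T.card).factorial : ℝ)) := by positivity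
    linarith
  have hR'pos : (0 : ℝ) < (R'.card : ℝ) := by exact_mod_cast hR'ne.card_pos
  refine ⟨R', I ∪ T, Finset.filter_subset _ _, hR'ne, Finset.subset_union_left, ?_, ?_, ?_⟩
  · intro ω hω ω' hω' u hu
    rw [hR', cyl, mem_filter] at hω hω'
    rcases Finset.mem_union.mp hu with hu | hu
    · exact h ω hω.1 ω' hω'.1 u hu
    · obtain ⟨h1, h2⟩ := hω.2 u hu
      obtain ⟨h3, h4⟩ := hω'.2 u hu
      exact ⟨h1.trans h3.symm, h2.trans h4.symm⟩
  · intro T' hT' a' c'
    rcases Finset.eq_empty_or_nonempty T' with rfl | hT'ne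
    · have h1 : cyl R' ∅ a' c' = R' := by
        unfold cyl
        simp
      rw [h1]
      simp
    · have hTT' : Disjoint T' T := (Finset.disjoint_union_right.mp hT').2
      have hTI : Disjoint T' I := (Finset.disjoint_union_right.mp hT').1
      have hcard2 : (T ∪ T').card = T.card + T'.card :=
        Finset.card_union_of_disjoint hTT'.symm
      have hcyl : cyl R' T' a' c' = cyl R (T ∪ T') (fun u => if u ∈ T then a u else a' u)
          (fun u => if u ∈ T then c u else c' u) := by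
        ext ω
        simp only [hR', cyl, mem_filter, mem_union]
        constructor
        · rintro ⟨⟨h1, h2⟩, h3⟩
          refine ⟨h1, fun u hu => ?_⟩
          by_cases huT : u ∈ T
          · rw [if_pos huT, if_pos huT]
            exact h2 u huT
          · rw [if_neg huT, if_neg huT]
            exact h3 u (hu.resolve_left huT)
        · rintro ⟨h1, h2⟩
          refine ⟨⟨h1, fun u hu => ?_⟩, fun u hu => ?_⟩
          · have h3 := h2 u (Or.inl hu)
            rw [if_pos hu, if_pos hu] at h3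
            exact h3
          · have huT : u ∉ T := Finset.disjoint_left.mp hTT' hu
            have h3 := h2 u (Or.inr hu)
            rw [if_neg huT, if_neg huT] at h3
            exact h3
      have hnv : ¬ V (T ∪ T', (fun u => if u ∈ T then a u else a' u),
          (fun u => if u ∈ T then c u else c' u)) := by
        intro hV
        have h1 := hmax _ (mem_filter.mpr ⟨mem_univ _, hV⟩)
        simp only at h1
        rw [hcard2] at h1
        have := hT'ne.card_pos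
        omega
      have hdis2 : Disjoint (T ∪ T') I := Finset.disjoint_union_left.mpr ⟨hdis, hTI⟩
      have hlt := not_le.mp (fun hle => hnv ⟨hdis2, hle⟩)
      simp only at hlt
      rw [← hcyl, hcard2] at hlt
      rw [hcardI]
      have e1 : N - (I.card + T.card) = N - I.card - T.card := by omega
      have e2 : N - I.card - (T.card + T'.card) = N - I.card - T.card - T'.card := by omega
      rw [e2] at hlt
      rw [e1]
      set F0 := ((N - I.card).factorial : ℝ) with hF0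
      set F1 := ((N - I.card - T.card).factorial : ℝ) with hF1
      set F2 := ((N - I.card - T.card - T'.card).factorial : ℝ) with hF2
      have hF0p : 0 < F0 := by rw [hF0]; positivity
      have hF1p : 0 < F1 := by rw [hF1]; positivity
      have hF2p : 0 < F2 := by rw [hF2]; positivity
      have hx : 0 < (q : ℝ) ^ T.card := by positivity
      rw [pow_add, pow_add] at hlt
      have h3 : ((cyl R' T' a' c').card : ℝ) * (F1 * (q : ℝ) ^ T'.card) * (F0 * (q : ℝ) ^ T.card) ≤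
          γ ^ T'.card * (R'.card * F2) * (F0 * (q : ℝ) ^ T.card) := by
        calc ((cyl R' T' a' c').card : ℝ) * (F1 * (q : ℝ) ^ T'.card) * (F0 * (q : ℝ) ^ T.card)
            = ((cyl R' T' a' c').card : ℝ) * (F0 * ((q : ℝ) ^ T.card * (q : ℝ) ^ T'.card)) * F1 := by
              ring
          _ ≤ γ ^ T.card * γ ^ T'.card * (R.card * F2) * F1 :=
              mul_le_mul_of_nonneg_right hlt.le hF1p.le
          _ = γ ^ T'.card * F2 * (γ ^ T.card * (R.card * F1)) := by ring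
          _ ≤ γ ^ T'.card * F2 * (R'.card * (F0 * (q : ℝ) ^ T.card)) :=
              mul_le_mul_of_nonneg_left hviol (by positivity)
          _ = γ ^ T'.card * (R'.card * F2) * (F0 * (q : ℝ) ^ T.card) := by ring
      exact le_of_mul_le_mul_right h3 (by positivity)
  · unfold zt
    apply Real.sqrt_le_sqrt
    rw [div_le_div_iff₀ hR'pos hRpos, hcardI]
    unfold fr
    have e1 : N - (I.card + T.card) = N - I.card - T.card := by omega
    have e3 : N - I.card = T.card + (N - I.card - T.card) := by omega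
    rw [e1]
    have h4 : (q : ℝ) ^ (N - I.card) = (q : ℝ) ^ T.card * (q : ℝ) ^ (N - I.card - T.card) := by
      rw [← pow_add]
      congr 1
    calc γ ^ (I.card + T.card) * (((N - I.card - T.card).factorial : ℝ) *
          (q : ℝ) ^ (N - I.card - T.card)) * R.card
        = (γ ^ I.card * (q : ℝ) ^ (N - I.card - T.card)) *
          (γ ^ T.card * (R.card * ((N - I.card - T.card).factorial : ℝ))) := by
            rw [pow_add]; ring
      _ ≤ (γ ^ I.card * (q : ℝ) ^ (N - I.card - T.card)) *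
          (R'.card * ((N - I.card).factorial * (q : ℝ) ^ T.card)) :=
            mul_le_mul_of_nonneg_left hviol (by positivity)
      _ = γ ^ I.card * (((N - I.card).factorial : ℝ) * (q : ℝ) ^ (N - I.card)) * R'.card := by
            rw [h4]; ring

end

end Pool.Agent.Lib.MP_8d8c46_lc.MC
end

section

/-! T13 : P05 -/

set_option autoImplicit false
set_option linter.unusedSectionVars false

open scoped Classical
open Finset

namespace Pool.Agent.Lib.MP_8d8c46_lc.MC


section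
variable {N q : ℕ} [NeZero q]

theorem t13_zt {γ : ℝ} {R : Finset (LP N q)} {I : Finset (Fin N)}
    (hK : 0 ≤ γ ^ I.card * fr N q I.card) :
    (R.card : ℝ) * zt γ R I = √(γ ^ I.card * fr N q I.card * R.card) := by
  rcases (Nat.cast_nonneg R.card : (0 : ℝ) ≤ R.card).eq_or_lt with h | h
  · rw [← h]
    simp
  · unfold zt
    rw [Real.sqrt_div hK, Real.sqrt_mul hK]
    have h1 : √(R.card : ℝ) ≠ 0 := (Real.sqrt_pos.mpr h).ne'
    rw [mul_div_assoc', div_eq_iff h1, mul_assoc, Real.mul_self_sqrt h.le, mul_comm]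

/-- P05. The decomposition.
Strong induction on |R|. R = ∅: PP = ∅. Else (R', I') from P04; apply the induction hypothesis to R \ R' (Agr holds) with the same I; insert (R', I'). Sum ≤ |R'| zt R I + 2 |R \ R'| zt (R \ R') I and |R \ R'| zt (R \ R') I = √(|R| |R \ R'|) zt R I; with p = |R \ R'|/|R|: (1-p) + 2 √p ≤ 2 because (1 - √p)² ≥ 0. -/
theorem restore {γ : ℝ} (hγ : 1 ≤ γ) (I : Finset (Fin N)) (R : Finset (LP N q)) (h : Agr R I) :
    ∃ PP : Finset (Finset (LP N q) × Finset (Fin N)),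
      (∀ P ∈ PP, P.1.Nonempty ∧ P.1 ⊆ R ∧ I ⊆ P.2 ∧ Agr P.1 P.2 ∧ Spr γ P.1 P.2) ∧
      (∀ P ∈ PP, ∀ P' ∈ PP, P ≠ P' → Disjoint P.1 P'.1) ∧
      (∀ ω ∈ R, ∃ P ∈ PP, ω ∈ P.1) ∧
      ∑ P ∈ PP, (P.1.card : ℝ) * zt γ P.1 P.2 ≤ 2 * (R.card * zt γ R I) := by
  classical
  suffices H : ∀ (n : ℕ) (R : Finset (LP N q)), R.card = n → Agr R I →
      ∃ PP : Finset (Finset (LP N q) × Finset (Fin N)),
      (∀ P ∈ PP, P.1.Nonempty ∧ P.1 ⊆ R ∧ I ⊆ P.2 ∧ Agr P.1 P.2 ∧ Spr γ P.1 P.2) ∧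
      (∀ P ∈ PP, ∀ P' ∈ PP, P ≠ P' → Disjoint P.1 P'.1) ∧
      (∀ ω ∈ R, ∃ P ∈ PP, ω ∈ P.1) ∧
      ∑ P ∈ PP, (P.1.card : ℝ) * zt γ P.1 P.2 ≤ 2 * (R.card * zt γ R I) from H _ R rfl h
  clear h R
  intro n
  induction n using Nat.strong_induction_on with
  | _ n ih =>
    intro R hn h
    rcases R.eq_empty_or_nonempty with rfl | hR
    · exact ⟨∅, by simp, by simp, by simp, by simp⟩
    · obtain ⟨R', I', hsub, hne', hII', hagr', hspr', hzt'⟩ := restore_step hγ hR h
      have hcard : (R \ R').card < n := by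
        rw [← hn]
        exact Finset.card_lt_card (Finset.sdiff_ssubset hsub hne')
      have hagr1 : Agr (R \ R') I := fun ω hω ω' hω' u hu =>
        h ω (Finset.sdiff_subset hω) ω' (Finset.sdiff_subset hω') u hu
      obtain ⟨PP, h1, h2, h3, h4⟩ := ih _ hcard (R \ R') rfl hagr1
      have hnot : (R', I') ∉ PP := by
        intro hmem
        obtain ⟨hn1, hs1, -⟩ := h1 _ hmem
        obtain ⟨ω, hω⟩ := hn1
        exact (Finset.mem_sdiff.mp (hs1 hω)).2 hω
      refine ⟨insert (R', I') PP, ?_, ?_, ?_, ?_⟩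
      · intro P hP
        rcases Finset.mem_insert.mp hP with rfl | hP
        · exact ⟨hne', hsub, hII', hagr', hspr'⟩
        · obtain ⟨k1, k2, k3, k4, k5⟩ := h1 P hP
          exact ⟨k1, k2.trans Finset.sdiff_subset, k3, k4, k5⟩
      · intro P hP P' hP' hPP'
        rcases Finset.mem_insert.mp hP with rfl | hP
        · rcases Finset.mem_insert.mp hP' with rfl | hP'
          · exact absurd rfl hPP'
          · exact Finset.disjoint_of_subset_right (h1 P' hP').2.1 Finset.disjoint_sdiff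
        · rcases Finset.mem_insert.mp hP' with rfl | hP'
          · exact Finset.disjoint_of_subset_left (h1 P hP).2.1 Finset.sdiff_disjoint
          · exact h2 P hP P' hP' hPP'
      · intro ω hω
        by_cases hωR : ω ∈ R'
        · exact ⟨_, Finset.mem_insert_self _ _, hωR⟩
        · obtain ⟨P, hP, hωP⟩ := h3 ω (Finset.mem_sdiff.mpr ⟨hω, hωR⟩)
          exact ⟨P, Finset.mem_insert_of_mem hP, hωP⟩
      · rw [Finset.sum_insert hnot]
        have hle1 : ((R', I').1.card : ℝ) * zt γ (R', I').1 (R', I').2 ≤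
            (R'.card : ℝ) * zt γ R I := mul_le_mul_of_nonneg_left hzt' (Nat.cast_nonneg _)
        have hK : 0 ≤ γ ^ I.card * fr N q I.card := by
          have h0 : 0 ≤ γ := by linarith
          unfold fr
          positivity
        have hcard2 : ((R \ R').card : ℝ) = R.card - R'.card := by
          rw [Finset.card_sdiff_of_subset hsub, Nat.cast_sub (Finset.card_le_card hsub)]
        have hRpos : (0 : ℝ) < (R.card : ℝ) := by exact_mod_cast hR.card_pos
        rw [t13_zt hK] at h4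
        set K := γ ^ I.card * fr N q I.card with hKdef
        have e1 : (R.card : ℝ) * zt γ R I = √K * √(R.card : ℝ) := by
          rw [t13_zt hK, Real.sqrt_mul hK]
        have e2 : √(K * ((R \ R').card : ℝ)) = √K * √((R \ R').card : ℝ) :=
          Real.sqrt_mul hK _
        have e3 : zt γ R I * √(R.card : ℝ) = √K := by
          unfold zt
          rw [← hKdef, Real.sqrt_div hK, div_mul_cancel₀]
          exact (Real.sqrt_pos.mpr hRpos).ne'
        set s := √(R.card : ℝ) with hs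
        set s1 := √((R \ R').card : ℝ) with hs1
        have hs2 : s ^ 2 = R.card := Real.sq_sqrt hRpos.le
        have hs12 : s1 ^ 2 = ((R \ R').card : ℝ) := Real.sq_sqrt (Nat.cast_nonneg _)
        have hspos : 0 < s := Real.sqrt_pos.mpr hRpos
        have hz0 : 0 ≤ zt γ R I := Real.sqrt_nonneg _
        have e4 : (R'.card : ℝ) = s ^ 2 - s1 ^ 2 := by rw [hs2, hs12, hcard2]; ring
        rw [e2] at h4
        calc ((R', I').1.card : ℝ) * zt γ (R', I').1 (R', I').2 +
              ∑ P ∈ PP, (P.1.card : ℝ) * zt γ P.1 P.2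
            ≤ (R'.card : ℝ) * zt γ R I + 2 * (√K * s1) := add_le_add hle1 h4
          _ = (s ^ 2 - s1 ^ 2) * zt γ R I + 2 * (zt γ R I * s * s1) := by rw [e4, e3]
          _ ≤ 2 * (s ^ 2 * zt γ R I) := by
              nlinarith [mul_nonneg hz0 (sq_nonneg (s - s1))]
          _ = 2 * (R.card * zt γ R I) := by rw [hs2]

end

end Pool.Agent.Lib.MP_8d8c46_lc.MC
end

section

/-! T14 : P06 -/

set_option autoImplicit false
set_option linter.unusedSectionVars false

open scoped Classical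
open Finset

namespace Pool.Agent.Lib.MP_8d8c46_lc.MC


section
variable {N q : ℕ} [NeZero q]

/-- P06. The refinement by one bit.
Apply P05 to the two parts {f = true}, {f = false} of R and take the union of the two families (pieces of different parts are disjoint and nonempty). |R^b| zt(R^b, I) = √(|R^b|) √(γ^|I| fr) and √a + √b ≤ √2 √(a+b). -/
theorem pieces {γ : ℝ} (hγ : 1 ≤ γ) (I : Finset (Fin N)) (R : Finset (LP N q)) (h : Agr R I)
    (f : LP N q → Bool) :
    ∃ PP : Finset (Finset (LP N q) × Finset (Fin N)),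
      (∀ P ∈ PP, P.1.Nonempty ∧ P.1 ⊆ R ∧ I ⊆ P.2 ∧ Agr P.1 P.2 ∧ Spr γ P.1 P.2 ∧
        ∀ ω ∈ P.1, ∀ ω' ∈ P.1, f ω = f ω') ∧
      (∀ P ∈ PP, ∀ P' ∈ PP, P ≠ P' → Disjoint P.1 P'.1) ∧
      (∀ ω ∈ R, ∃ P ∈ PP, ω ∈ P.1) ∧
      ∑ P ∈ PP, (P.1.card : ℝ) * zt γ P.1 P.2 ≤ 2 * √2 * (R.card * zt γ R I) := by
  classical
  have hagr : ∀ b : Bool, Agr (R.filter (fun ω => f ω = b)) I := fun b ω hω ω' hω' u hu =>
    h ω (Finset.mem_filter.mp hω).1 ω' (Finset.mem_filter.mp hω').1 u hu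
  obtain ⟨P1, h11, h12, h13, h14⟩ := restore hγ I _ (hagr true)
  obtain ⟨P2, h21, h22, h23, h24⟩ := restore hγ I _ (hagr false)
  have hdisj : ∀ P ∈ P1, ∀ P' ∈ P2, Disjoint P.1 P'.1 := by
    intro P hP P' hP'
    rw [Finset.disjoint_left]
    intro ω hω hω'
    have h1 := (Finset.mem_filter.mp ((h11 P hP).2.1 hω)).2
    have h2 := (Finset.mem_filter.mp ((h21 P' hP').2.1 hω')).2
    rw [h1] at h2
    exact absurd h2 (by simp)
  have hd : Disjoint P1 P2 := by
    rw [Finset.disjoint_left]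
    intro P hP hP'
    obtain ⟨ω, hω⟩ := (h11 P hP).1
    exact Finset.disjoint_left.mp (hdisj P hP P hP') hω hω
  refine ⟨P1 ∪ P2, ?_, ?_, ?_, ?_⟩
  · intro P hP
    rcases Finset.mem_union.mp hP with hP | hP
    · obtain ⟨k1, k2, k3, k4, k5⟩ := h11 P hP
      refine ⟨k1, k2.trans (Finset.filter_subset _ _), k3, k4, k5, fun ω hω ω' hω' => ?_⟩
      rw [(Finset.mem_filter.mp (k2 hω)).2, (Finset.mem_filter.mp (k2 hω')).2]
    · obtain ⟨k1, k2, k3, k4, k5⟩ := h21 P hP
      refine ⟨k1, k2.trans (Finset.filter_subset _ _), k3, k4, k5, fun ω hω ω' hω' => ?_⟩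
      rw [(Finset.mem_filter.mp (k2 hω)).2, (Finset.mem_filter.mp (k2 hω')).2]
  · intro P hP P' hP' hne
    rcases Finset.mem_union.mp hP with hP | hP
    · rcases Finset.mem_union.mp hP' with hP' | hP'
      · exact h12 P hP P' hP' hne
      · exact hdisj P hP P' hP'
    · rcases Finset.mem_union.mp hP' with hP' | hP'
      · exact (hdisj P' hP' P hP).symm
      · exact h22 P hP P' hP' hne
  · intro ω hω
    cases hb : f ω with
    | true =>
      obtain ⟨P, hP, hωP⟩ := h13 ω (Finset.mem_filter.mpr ⟨hω, hb⟩)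
      exact ⟨P, Finset.mem_union_left _ hP, hωP⟩
    | false =>
      obtain ⟨P, hP, hωP⟩ := h23 ω (Finset.mem_filter.mpr ⟨hω, hb⟩)
      exact ⟨P, Finset.mem_union_right _ hP, hωP⟩
  · rw [Finset.sum_union hd]
    have hK : 0 ≤ γ ^ I.card * fr N q I.card := by
      have h0 : 0 ≤ γ := by linarith
      unfold fr
      positivity
    rw [t13_zt hK, Real.sqrt_mul hK] at h14 h24
    rw [t13_zt hK, Real.sqrt_mul hK]
    have hcard : ((R.filter (fun ω => f ω = true)).card : ℝ) +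
        ((R.filter (fun ω => f ω = false)).card : ℝ) = R.card := by
      rw [← Nat.cast_add]
      congr 1
      have h1 : R.filter (fun ω => f ω = false) = R.filter (fun ω => ¬ f ω = true) := by
        refine Finset.filter_congr fun ω _ => ?_
        simp
      rw [h1]
      exact Finset.card_filter_add_card_filter_not _
    set x := √((R.filter (fun ω => f ω = true)).card : ℝ) with hx
    set y := √((R.filter (fun ω => f ω = false)).card : ℝ) with hy
    have hx2 : x ^ 2 = ((R.filter (fun ω => f ω = true)).card : ℝ) :=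
      Real.sq_sqrt (Nat.cast_nonneg _)
    have hy2 : y ^ 2 = ((R.filter (fun ω => f ω = false)).card : ℝ) :=
      Real.sq_sqrt (Nat.cast_nonneg _)
    have hxy : x + y ≤ √2 * √(R.card : ℝ) := by
      rw [← Real.sqrt_mul (by norm_num : (0 : ℝ) ≤ 2), ← hcard, ← hx2, ← hy2]
      apply Real.le_sqrt_of_sq_le
      nlinarith [sq_nonneg (x - y)]
    have hKs : 0 ≤ √(γ ^ I.card * fr N q I.card) := Real.sqrt_nonneg _
    calc ∑ P ∈ P1, (P.1.card : ℝ) * zt γ P.1 P.2 + ∑ P ∈ P2, (P.1.card : ℝ) * zt γ P.1 P.2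
        ≤ 2 * (√(γ ^ I.card * fr N q I.card) * x) + 2 * (√(γ ^ I.card * fr N q I.card) * y) :=
          add_le_add h14 h24
      _ = 2 * (√(γ ^ I.card * fr N q I.card) * (x + y)) := by ring
      _ ≤ 2 * (√(γ ^ I.card * fr N q I.card) * (√2 * √(R.card : ℝ))) := by
          have := mul_le_mul_of_nonneg_left hxy hKs
          linarith
      _ = 2 * √2 * (√(γ ^ I.card * fr N q I.card) * √(R.card : ℝ)) := by ring

end

end Pool.Agent.Lib.MP_8d8c46_lc.MC
end

section

/-! T46 : I09 -/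

set_option autoImplicit false
set_option linter.unusedSectionVars false

open scoped Classical
open Finset

namespace Pool.Agent.Lib.MP_8d8c46_lc.MC

open Pool.Agent.Lib.MP_8d8c46_lc.EL
open Pool.Agent.Lib.MP_8d8c46_lc.SA (BV Om)

section
variable {d N q : ℕ} [NeZero q]

/-- I09. One piece of the refinement.
R₁ = update R e R', I₁ = update I e I'. If rc0 R I ∩ rc R₁ = ∅: C = ∅. If Σ|I₁| > v: C = ∅ and |rc R₁| ≤ |rc R₁| Π zt(R₁) /√(γ^v) (I07), (2√2)^k ≥ 1, pot ≥ 0. Else St γ v R₁ I₁ (I06); C from ih R₁ I₁; C ⊆ rc0 R₁ I₁ ⊆ rc0 R I (I05). (rc0 R I ∩ rc R₁) \ C ⊆ {ω ∈ rc R₁ : NIs (VR R I) I₁ ω, not NIs (VR R₁ I₁) I₁ ω} ∪ (rc0 R₁ I₁ \ C); I03 with W₀ = VR R I ⊆ W = VR R₁ I₁ (I01); the potentials telescope: γ (pcW W - pcW W₀)/(N-v) + pot R₁ I₁ = pot R I. -/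
theorem cov_piece {σ γ ε₁ : ℝ} (hγ : 1 ≤ γ) (hε : 0 ≤ ε₁) {v : ℕ} (hv : v < N)
    {R : Pl d → Finset (LP N q)} {I : Pl d → Finset (Fin N)} (hS : St γ v R I) (e : Pl d)
    {R' : Finset (LP N q)} {I' : Finset (Fin N)} (hR : R' ⊆ R e) (hne : R'.Nonempty)
    (hI : I e ⊆ I') (hA' : Agr R' I') (hspr : Spr γ R' I') (T : Tr (Pl d) (LP N q)) (k : ℕ)
    (hk : T.depth ≤ k)
    (ih : ∀ (R : Pl d → Finset (LP N q)) (I : Pl d → Finset (Fin N)), St γ v R I →
      Cov σ γ ε₁ v T R I) :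
    ∃ C : Finset (Om d N q), C ⊆ rc0 R I ∩ rc (Function.update R e R') ∧
      |∑ ω ∈ C, (wY σ ω - 1)| ≤ ε₁ * C.card ∧
      |∑ ω ∈ C, (if T.run ω then wY σ ω - 1 else 0)| ≤ ε₁ * C.card ∧
      ((((rc0 R I ∩ rc (Function.update R e R'))) \ C).card : ℝ) ≤
        (rc (Function.update R e R')).card * (pot γ v R I) +
        (rc (Function.update R e R')).card *
          (∏ e', zt γ (Function.update R e R' e') (Function.update I e I' e')) *
            (2 * √2) ^ k / √(γ ^ v) := by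
  obtain ⟨R₁, hR₁⟩ : ∃ R₁, R₁ = Function.update R e R' := ⟨_, rfl⟩
  obtain ⟨I₁, hI₁⟩ : ∃ I₁, I₁ = Function.update I e I' := ⟨_, rfl⟩
  rw [← hR₁, ← hI₁]
  have hγ0 : (0 : ℝ) ≤ γ := by linarith
  have hAgr : ∀ e', Agr (R₁ e') (I₁ e') := by
    intro e'
    rw [hR₁, hI₁]
    by_cases h : e' = e
    · subst h; simp only [Function.update_self]; exact hA'
    · simp only [Function.update_of_ne h]; exact hS.agr e'
  have hspr₁ : ∀ e', Spr γ (R₁ e') (I₁ e') := by
    intro e'
    rw [hR₁, hI₁]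
    by_cases h : e' = e
    · subst h; simp only [Function.update_self]; exact hspr
    · simp only [Function.update_of_ne h]; exact hS.spr e'
  have hne₁ : ∀ e', (R₁ e').Nonempty := by
    intro e'
    rw [hR₁]
    by_cases h : e' = e
    · subst h; simp only [Function.update_self]; exact hne
    · simp only [Function.update_of_ne h]; exact hS.ne e'
  have hRsub : ∀ e', R₁ e' ⊆ R e' := by
    intro e'
    rw [hR₁]
    by_cases h : e' = e
    · subst h; simp only [Function.update_self]; exact hR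
    · simp only [Function.update_of_ne h]; exact Subset.refl _
  have hIsub : ∀ e', I e' ⊆ I₁ e' := by
    intro e'
    rw [hI₁]
    by_cases h : e' = e
    · subst h; simp only [Function.update_self]; exact hI
    · simp only [Function.update_of_ne h]; exact Subset.refl _
  have hNv : (0 : ℝ) < (N : ℝ) - v := by
    have : (v : ℝ) < N := by exact_mod_cast hv
    linarith
  have hpot : 0 ≤ pot γ v R I := by
    unfold pot
    have := pcW_le hS
    exact div_nonneg (mul_nonneg hγ0 (by linarith)) hNv.le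
  have hzt0 : ∀ e', 0 ≤ zt γ (R₁ e') (I₁ e') := fun e' => Real.sqrt_nonneg _
  have hprod0 : 0 ≤ ∏ e', zt γ (R₁ e') (I₁ e') := prod_nonneg (fun e' _ => hzt0 e')
  have hsq : (0 : ℝ) < √(γ ^ v) := Real.sqrt_pos.2 (pow_pos (by linarith) _)
  have h22 : (1 : ℝ) ≤ 2 * √2 := by
    have : (1 : ℝ) ≤ √2 := Real.one_le_sqrt.2 (by norm_num)
    linarith
  have hk1 : (1 : ℝ) ≤ (2 * √2) ^ k := one_le_pow₀ h22
  have hc0 : (0 : ℝ) ≤ (rc R₁).card := Nat.cast_nonneg _
  have hsecond : 0 ≤ ((rc R₁).card : ℝ) * (∏ e', zt γ (R₁ e') (I₁ e')) *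
      (2 * √2) ^ k / √(γ ^ v) :=
    div_nonneg (mul_nonneg (mul_nonneg hc0 hprod0) (by linarith)) hsq.le
  by_cases hem : (rc0 R I ∩ rc R₁).Nonempty
  swap
  · rw [not_nonempty_iff_eq_empty] at hem
    refine ⟨∅, empty_subset _, by simp, by simp, ?_⟩
    rw [hem]
    simp only [empty_sdiff, card_empty, Nat.cast_zero]
    exact add_nonneg (mul_nonneg hc0 hpot) hsecond
  obtain ⟨ω, hω⟩ := hem
  rw [mem_inter] at hω
  have hωe : ω e ∈ R' := by
    have h1 := Fintype.mem_piFinset.1 hω.2 e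
    rw [hR₁, Function.update_self] at h1
    exact h1
  by_cases hbig : v < ∑ e', (I₁ e').card
  · refine ⟨∅, empty_subset _, by simp, by simp, ?_⟩
    have h1 := zt_big hγ hAgr hne₁ hbig
    have h2 : (((rc0 R I ∩ rc R₁) \ ∅).card : ℝ) ≤ (rc R₁).card := by
      rw [sdiff_empty]
      exact_mod_cast card_le_card inter_subset_right
    have h3 : ((rc R₁).card : ℝ) ≤ ((rc R₁).card : ℝ) * (∏ e', zt γ (R₁ e') (I₁ e')) *
        (2 * √2) ^ k / √(γ ^ v) := by
      rw [le_div_iff₀ hsq, mul_assoc]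
      refine mul_le_mul_of_nonneg_left ?_ hc0
      calc √(γ ^ v) ≤ ∏ e', zt γ (R₁ e') (I₁ e') := h1
        _ ≤ (∏ e', zt γ (R₁ e') (I₁ e')) * (2 * √2) ^ k := le_mul_of_one_le_right hprod0 hk1
    have h4 := mul_nonneg hc0 hpot
    linarith
  rw [not_lt] at hbig
  have hSt : St γ v R₁ I₁ := by
    rw [hR₁, hI₁]
    exact St_update hS e hR hne hI hA' hspr (by rw [← hI₁]; exact hbig) hω.1 hωe
  obtain ⟨C, hC1, hC2, hC3, hC4⟩ := ih R₁ I₁ hSt
  have hsub : rc0 R₁ I₁ ⊆ rc0 R I := by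
    rw [hR₁, hI₁]
    exact rc0_update hS.agr e hR hI hA' hω.1 hωe
  have hsub2 : rc0 R₁ I₁ ⊆ rc R₁ := filter_subset _ _
  refine ⟨C, fun x hx => mem_inter.2 ⟨hsub (hC1 hx), hsub2 (hC1 hx)⟩, hC2, hC3, ?_⟩
  have hW : VR R I ⊆ VR R₁ I₁ := VR_mono hS.agr hne₁ hRsub hIsub
  have hnew := new_pairs hγ0 hv hspr₁ hbig hW
  have hcov : (rc0 R I ∩ rc R₁) \ C ⊆
      ((rc R₁).filter (fun ω => NIs (VR R I) I₁ ω ∧ ¬ NIs (VR R₁ I₁) I₁ ω)) ∪
        (rc0 R₁ I₁ \ C) := by
    intro x hx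
    rw [mem_sdiff, mem_inter] at hx
    obtain ⟨⟨hx1, hx2⟩, hx3⟩ := hx
    rw [mem_union]
    by_cases hx4 : NIs (VR R₁ I₁) I₁ x
    · right
      rw [mem_sdiff]
      exact ⟨mem_filter.2 ⟨hx2, hx4⟩, hx3⟩
    · left
      rw [mem_filter]
      refine ⟨hx2, fun e' u hu => ?_, hx4⟩
      exact (mem_filter.1 hx1).2 e' u (fun h => hu (hIsub e' h))
  have hcard : ((((rc0 R I ∩ rc R₁)) \ C).card : ℝ) ≤
      (((rc R₁).filter (fun ω => NIs (VR R I) I₁ ω ∧ ¬ NIs (VR R₁ I₁) I₁ ω)).card : ℝ) +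
        ((rc0 R₁ I₁ \ C).card : ℝ) := by
    exact_mod_cast (card_le_card hcov).trans (card_union_le _ _)
  have hpots : γ * ((pcW (VR R₁ I₁) : ℝ) - pcW (VR R I)) / (N - v) + pot γ v R₁ I₁ =
      pot γ v R I := by
    unfold pot
    rw [← add_div]
    congr 1
    ring
  have hdep : (2 * √2) ^ T.depth ≤ (2 * √2 : ℝ) ^ k := pow_le_pow_right₀ h22 hk
  have hlast : (∏ e', zt γ (R₁ e') (I₁ e')) * (2 * √2) ^ T.depth / √(γ ^ v) ≤
      (∏ e', zt γ (R₁ e') (I₁ e')) * (2 * √2) ^ k / √(γ ^ v) :=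
    div_le_div_of_nonneg_right (mul_le_mul_of_nonneg_left hdep hprod0) hsq.le
  calc ((((rc0 R I ∩ rc R₁)) \ C).card : ℝ)
      ≤ (rc R₁).card * (γ * ((pcW (VR R₁ I₁) : ℝ) - pcW (VR R I)) / (N - v)) +
        (rc R₁).card * (pot γ v R₁ I₁ + (∏ e, zt γ (R₁ e) (I₁ e)) *
          (2 * √2) ^ T.depth / √(γ ^ v)) := hcard.trans (add_le_add hnew hC4)
    _ ≤ (rc R₁).card * (γ * ((pcW (VR R₁ I₁) : ℝ) - pcW (VR R I)) / (N - v)) +
        (rc R₁).card * (pot γ v R₁ I₁ + (∏ e, zt γ (R₁ e) (I₁ e)) *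
          (2 * √2) ^ k / √(γ ^ v)) := by
        refine add_le_add le_rfl (mul_le_mul_of_nonneg_left ?_ hc0)
        linarith
    _ = _ := by
        rw [← hpots]; ring

end

end Pool.Agent.Lib.MP_8d8c46_lc.MC
end

section

/-! T47 : I10, I11 -/

set_option autoImplicit false
set_option linter.unusedSectionVars false

open scoped Classical
open Finset

namespace Pool.Agent.Lib.MP_8d8c46_lc.MC

open Pool.Agent.Lib.MP_8d8c46_lc.EL
open Pool.Agent.Lib.MP_8d8c46_lc.SA (BV Om)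

section
variable {d N q : ℕ} [NeZero q]

/-- I10. The inner nodes.
P06 (pieces) for R e, I e, f gives PP. For each piece P let T_P = Q if f = true on P.1, else P (the protocol); I09 gives C_P ⊆ rc0 R I ∩ rc (update R e P.1) with k = max depth. C = union (biUnion) of the C_P: disjoint since the P.1 are. (say e f P Q).run ω = T_P.run ω for ω ∈ C_P. Sums and cards add up (|Σ| ≤ Σ|.|). rc0 R I \ C ⊆ ⋃ ((rc0 R I ∩ rc (update R e P.1)) \ C_P). Σ_P |rc (update R e P.1)| = |rc R| and Σ_P |rc(update R e P.1)| Π zt(update..) = Π_{e'≠e}(|R e'| zt) Σ_P |P.1| zt ≤ 2√2 |rc R| Π zt. (2√2)^(k+1) with depth (say ..) = k+1. -/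
theorem cov_say {σ γ ε₁ : ℝ} (hγ : 1 ≤ γ) (hε : 0 ≤ ε₁) {v : ℕ} (hv : v < N)
    {R : Pl d → Finset (LP N q)} {I : Pl d → Finset (Fin N)} (hS : St γ v R I) (e : Pl d)
    (f : LP N q → Bool) (P Q : Tr (Pl d) (LP N q))
    (ihP : ∀ (R : Pl d → Finset (LP N q)) (I : Pl d → Finset (Fin N)), St γ v R I →
      Cov σ γ ε₁ v P R I)
    (ihQ : ∀ (R : Pl d → Finset (LP N q)) (I : Pl d → Finset (Fin N)), St γ v R I →
      Cov σ γ ε₁ v Q R I) :
    Cov σ γ ε₁ v (Tr.say e f P Q) R I := by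
  obtain ⟨PP, hPP, hdisj, hcov, hsum⟩ := pieces hγ (I e) (R e) (hS.agr e) f
  obtain ⟨k, hk⟩ : ∃ k, k = max P.depth Q.depth := ⟨_, rfl⟩
  have H : ∀ X : Finset (LP N q) × Finset (Fin N), ∃ C : Finset (Om d N q), X ∈ PP →
      (C ⊆ rc0 R I ∩ rc (Function.update R e X.1) ∧
      |∑ ω ∈ C, (wY σ ω - 1)| ≤ ε₁ * C.card ∧
      |∑ ω ∈ C, (if (Tr.say e f P Q).run ω then wY σ ω - 1 else 0)| ≤ ε₁ * C.card ∧
      ((((rc0 R I ∩ rc (Function.update R e X.1))) \ C).card : ℝ) ≤
        (rc (Function.update R e X.1)).card * (pot γ v R I) +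
        (rc (Function.update R e X.1)).card *
          (∏ e', zt γ (Function.update R e X.1 e') (Function.update I e X.2 e')) *
            (2 * √2) ^ k / √(γ ^ v)) := by
    intro X
    by_cases hX : X ∈ PP
    swap
    · exact ⟨∅, fun h => absurd h hX⟩
    obtain ⟨h1, h2, h3, h4, h5, h6⟩ := hPP X hX
    obtain ⟨ω₁, hω₁⟩ := h1
    by_cases hf : f ω₁ = true
    · obtain ⟨C, c1, c2, c3, c4⟩ := cov_piece hγ hε hv hS e h2 ⟨ω₁, hω₁⟩ h3 h4 h5 Q k
        (by rw [hk]; exact le_max_right _ _) ihQ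
      refine ⟨C, fun _ => ⟨c1, c2, ?_, c4⟩⟩
      have : ∑ ω ∈ C, (if (Tr.say e f P Q).run ω then wY σ ω - 1 else 0) =
          ∑ ω ∈ C, (if Q.run ω then wY σ ω - 1 else 0) := by
        refine sum_congr rfl (fun ω hω => ?_)
        have h7 := Fintype.mem_piFinset.1 (mem_inter.1 (c1 hω)).2 e
        rw [Function.update_self] at h7
        have h8 : f (ω e) = true := by rw [h6 _ h7 _ hω₁]; exact hf
        have h9 : (Tr.say e f P Q).run ω = Q.run ω := by
          simp only [Tr.run]; rw [if_pos h8]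
        rw [h9]
      rw [this]
      exact c3
    · obtain ⟨C, c1, c2, c3, c4⟩ := cov_piece hγ hε hv hS e h2 ⟨ω₁, hω₁⟩ h3 h4 h5 P k
        (by rw [hk]; exact le_max_left _ _) ihP
      refine ⟨C, fun _ => ⟨c1, c2, ?_, c4⟩⟩
      have : ∑ ω ∈ C, (if (Tr.say e f P Q).run ω then wY σ ω - 1 else 0) =
          ∑ ω ∈ C, (if P.run ω then wY σ ω - 1 else 0) := by
        refine sum_congr rfl (fun ω hω => ?_)
        have h7 := Fintype.mem_piFinset.1 (mem_inter.1 (c1 hω)).2 e
        rw [Function.update_self] at h7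
        have h8 : ¬ f (ω e) = true := by rw [h6 _ h7 _ hω₁]; exact hf
        have h9 : (Tr.say e f P Q).run ω = P.run ω := by
          simp only [Tr.run]; rw [if_neg h8]
        rw [h9]
      rw [this]
      exact c3
  choose C hC using H
  have hCdisj : ∀ X ∈ PP, ∀ X' ∈ PP, X ≠ X' → Disjoint (C X) (C X') := by
    intro X hX X' hX' hne
    rw [disjoint_left]
    intro ω h1 h2
    have h3 := Fintype.mem_piFinset.1 (mem_inter.1 ((hC X hX).1 h1)).2 e
    have h4 := Fintype.mem_piFinset.1 (mem_inter.1 ((hC X' hX').1 h2)).2 e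
    rw [Function.update_self] at h3 h4
    exact disjoint_left.1 (hdisj X hX X' hX' hne) h3 h4
  have hCcard : ((PP.biUnion C).card : ℝ) = ∑ X ∈ PP, ((C X).card : ℝ) := by
    rw [card_biUnion hCdisj]; push_cast; rfl
  refine ⟨PP.biUnion C, ?_, ?_, ?_, ?_⟩
  · intro ω hω
    obtain ⟨X, hX, hωX⟩ := mem_biUnion.1 hω
    exact (mem_inter.1 ((hC X hX).1 hωX)).1
  · rw [sum_biUnion hCdisj, hCcard, mul_sum]
    exact (abs_sum_le_sum_abs _ _).trans (sum_le_sum (fun X hX => (hC X hX).2.1))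
  · rw [sum_biUnion hCdisj, hCcard, mul_sum]
    exact (abs_sum_le_sum_abs _ _).trans (sum_le_sum (fun X hX => (hC X hX).2.2.1))
  have hsub : rc0 R I \ PP.biUnion C ⊆
      PP.biUnion (fun X => (rc0 R I ∩ rc (Function.update R e X.1)) \ C X) := by
    intro ω hω
    rw [mem_sdiff] at hω
    have h1 : ω ∈ rc R := (mem_filter.1 hω.1).1
    have h2 := Fintype.mem_piFinset.1 h1
    obtain ⟨X, hX, hωX⟩ := hcov (ω e) (h2 e)
    rw [mem_biUnion]
    refine ⟨X, hX, ?_⟩
    rw [mem_sdiff, mem_inter]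
    refine ⟨⟨hω.1, ?_⟩, fun h => hω.2 (mem_biUnion.2 ⟨X, hX, h⟩)⟩
    refine Fintype.mem_piFinset.2 (fun e' => ?_)
    by_cases h : e' = e
    · subst h; rw [Function.update_self]; exact hωX
    · rw [Function.update_of_ne h]; exact h2 e'
  obtain ⟨A, hA⟩ : ∃ A : ℝ, A = ∏ e' ∈ univ.erase e, ((R e').card : ℝ) := ⟨_, rfl⟩
  obtain ⟨B, hB⟩ : ∃ B : ℝ, B = ∏ e' ∈ univ.erase e, zt γ (R e') (I e') := ⟨_, rfl⟩
  have hA0 : 0 ≤ A := by rw [hA]; exact prod_nonneg (fun _ _ => Nat.cast_nonneg _)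
  have hB0 : 0 ≤ B := by rw [hB]; exact prod_nonneg (fun _ _ => Real.sqrt_nonneg _)
  have e1 : ∀ X : Finset (LP N q) × Finset (Fin N),
      ((rc (Function.update R e X.1)).card : ℝ) = X.1.card * A := by
    intro X
    unfold rc
    rw [Fintype.card_piFinset]
    push_cast
    rw [← mul_prod_erase univ _ (mem_univ e), Function.update_self, hA]
    congr 1
    refine prod_congr rfl (fun e' he' => ?_)
    rw [Function.update_of_ne (mem_erase.1 he').1]
  have e2 : ((rc R).card : ℝ) = (R e).card * A := by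
    unfold rc
    rw [Fintype.card_piFinset]
    push_cast
    rw [← mul_prod_erase univ _ (mem_univ e), hA]
  have e3 : ∀ X : Finset (LP N q) × Finset (Fin N),
      (∏ e', zt γ (Function.update R e X.1 e') (Function.update I e X.2 e')) =
        zt γ X.1 X.2 * B := by
    intro X
    rw [← mul_prod_erase univ _ (mem_univ e), Function.update_self, Function.update_self, hB]
    congr 1
    refine prod_congr rfl (fun e' he' => ?_)
    rw [Function.update_of_ne (mem_erase.1 he').1, Function.update_of_ne (mem_erase.1 he').1]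
  have e4 : (∏ e', zt γ (R e') (I e')) = zt γ (R e) (I e) * B := by
    rw [← mul_prod_erase univ _ (mem_univ e), hB]
  have e5 : ∑ X ∈ PP, (X.1.card : ℝ) = (R e).card := by
    have h1 : R e = PP.biUnion (fun X => X.1) := by
      ext ω
      rw [mem_biUnion]
      constructor
      · exact fun h => hcov ω h
      · rintro ⟨X, hX, h⟩
        exact (hPP X hX).2.1 h
    rw [h1, card_biUnion hdisj]
    push_cast
    rfl
  have hsq : (0 : ℝ) < √(γ ^ v) := Real.sqrt_pos.2 (pow_pos (by linarith) _)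
  have h22 : (0 : ℝ) ≤ (2 * √2) ^ k := by positivity
  calc (((rc0 R I) \ PP.biUnion C).card : ℝ)
      ≤ ∑ X ∈ PP, ((((rc0 R I ∩ rc (Function.update R e X.1))) \ C X).card : ℝ) := by
        exact_mod_cast (card_le_card hsub).trans card_biUnion_le
    _ ≤ ∑ X ∈ PP, ((rc (Function.update R e X.1)).card * (pot γ v R I) +
        (rc (Function.update R e X.1)).card *
          (∏ e', zt γ (Function.update R e X.1 e') (Function.update I e X.2 e')) *
            (2 * √2) ^ k / √(γ ^ v)) := sum_le_sum (fun X hX => (hC X hX).2.2.2)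
    _ = ∑ X ∈ PP, ((X.1.card : ℝ) * (A * pot γ v R I) + (X.1.card * zt γ X.1 X.2) *
          (A * B * (2 * √2) ^ k / √(γ ^ v))) := by
        refine sum_congr rfl (fun X _ => ?_)
        rw [e1, e3]
        ring
    _ = (R e).card * (A * pot γ v R I) + (∑ X ∈ PP, (X.1.card : ℝ) * zt γ X.1 X.2) *
          (A * B * (2 * √2) ^ k / √(γ ^ v)) := by
        rw [sum_add_distrib, ← sum_mul, ← sum_mul, e5]
    _ ≤ (R e).card * (A * pot γ v R I) + (2 * √2 * ((R e).card * zt γ (R e) (I e))) *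
          (A * B * (2 * √2) ^ k / √(γ ^ v)) := by
        refine add_le_add le_rfl (mul_le_mul_of_nonneg_right hsum ?_)
        exact div_nonneg (mul_nonneg (mul_nonneg hA0 hB0) h22) hsq.le
    _ = _ := by
        rw [e2, e4]
        simp only [Tr.depth]
        rw [← hk, pow_succ]
        ring

/-- I11. -/
theorem cov_all {σ γ ε₁ : ℝ} (hγ : 1 ≤ γ) (hε : 0 ≤ ε₁) {v : ℕ} (hv : v < N)
    (hRE : ∀ (R : Pl d → Finset (LP N q)) (I : Pl d → Finset (Fin N)), St γ v R I →
      ∏ e, zt γ (R e) (I e) ≤ √(γ ^ v) →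
        |∑ ω ∈ rc0 R I, (wY σ ω - 1)| ≤ ε₁ * (rc0 R I).card) (T : Tr (Pl d) (LP N q)) :
    ∀ (R : Pl d → Finset (LP N q)) (I : Pl d → Finset (Fin N)), St γ v R I →
      Cov σ γ ε₁ v T R I := by
  induction T with
  | out b => exact fun R I hS => cov_out hγ hε hv hS (hRE R I hS) b
  | say e f P Q ihP ihQ => exact fun R I hS => cov_say hγ hε hv hS e f P Q ihP ihQ

end

end Pool.Agent.Lib.MP_8d8c46_lc.MC
end

section

/-! T48 : I12, I13 -/

set_option autoImplicit false
set_option linter.unusedSectionVars false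

open scoped Classical
open Finset

namespace Pool.Agent.Lib.MP_8d8c46_lc.MC

open Pool.Agent.Lib.MP_8d8c46_lc.EL
open Pool.Agent.Lib.MP_8d8c46_lc.SA (BV Om)

section
variable {d N q : ℕ} [NeZero q]

/-- I12. The mean of the planted density.
Exchange sum and avg; for fixed x: Σ_ω Π_e Π_u ka = Π_e Σ_τ Σ_w Π_u ka(w u - ...) = Π_e Σ_τ Π_u Σ_c ka(c - ..) = Π_e (N! q^N) (prod_univ_sum, K04). -/
theorem sum_wY_univ (σ : ℝ) : ∑ ω : Om d N q, wY σ ω = Fintype.card (Om d N q) := by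
  have hka : ∀ a b : ZMod q, ∑ c : ZMod q, ka σ (c - a + b) = Fintype.card (ZMod q) := by
    intro a b
    have h1 : avg (fun z : ZMod q => ka σ z) = 1 := avg_ka σ
    unfold avg at h1
    have h2 : (Fintype.card (ZMod q) : ℝ) ≠ 0 := by
      have : 0 < Fintype.card (ZMod q) := Fintype.card_pos
      positivity
    rw [div_eq_iff h2, one_mul] at h1
    rw [← h1, ← Equiv.sum_comp (Equiv.addRight (b - a)) (fun z => ka σ z)]
    refine sum_congr rfl (fun c _ => ?_)
    congr 1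
    simp only [Equiv.coe_addRight]
    ring
  have hx : ∀ x : BV d N → ZMod q, ∑ ω : Om d N q, (∏ e : Pl d, ∏ u : Fin N,
      ka σ ((ω e).2 u - x (true, e.2, (ω e).1 u) + x (false, e.1, u))) =
        Fintype.card (Om d N q) := by
    intro x
    have h1 : ∑ ω : Om d N q, (∏ e : Pl d, ∏ u : Fin N,
        ka σ ((ω e).2 u - x (true, e.2, (ω e).1 u) + x (false, e.1, u))) =
        ∏ e : Pl d, ∑ p : LP N q, ∏ u : Fin N,
          ka σ (p.2 u - x (true, e.2, p.1 u) + x (false, e.1, u)) := by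
      rw [prod_univ_sum, Fintype.piFinset_univ]
    have h2 : ∀ e : Pl d, ∑ p : LP N q, ∏ u : Fin N,
          ka σ (p.2 u - x (true, e.2, p.1 u) + x (false, e.1, u)) =
        Fintype.card (LP N q) := by
      intro e
      rw [Fintype.sum_prod_type]
      have h3 : ∀ τ : Equiv.Perm (Fin N), ∑ w : Fin N → ZMod q, ∏ u : Fin N,
          ka σ (w u - x (true, e.2, τ u) + x (false, e.1, u)) =
          Fintype.card (Fin N → ZMod q) := by
        intro τ
        have h4 := (prod_univ_sum (fun _ : Fin N => (univ : Finset (ZMod q)))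
          (fun u c => ka σ (c - x (true, e.2, τ u) + x (false, e.1, u)))).symm
        rw [Fintype.piFinset_univ] at h4
        rw [h4]
        simp only [hka]
        rw [prod_const, card_univ, Fintype.card_fun]
        push_cast
        rfl
      have h5 : ∀ τ : Equiv.Perm (Fin N), ∑ w : Fin N → ZMod q, ∏ u : Fin N,
          ka σ ((τ, w).2 u - x (true, e.2, (τ, w).1 u) + x (false, e.1, u)) =
          Fintype.card (Fin N → ZMod q) := h3
      simp only [h3]
      rw [sum_const, card_univ, nsmul_eq_mul, Fintype.card_prod]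
      push_cast
      rfl
    rw [h1]
    simp only [h2]
    rw [prod_const, card_univ, Fintype.card_fun]
    push_cast
    rfl
  have h6 : ∑ ω : Om d N q, wY σ ω = avg (fun x : BV d N → ZMod q => ∑ ω : Om d N q,
      ∏ e : Pl d, ∏ u : Fin N,
        ka σ ((ω e).2 u - x (true, e.2, (ω e).1 u) + x (false, e.1, u))) := by
    rw [avg_sum]
    rfl
  rw [h6]
  simp only [hx]
  exact avg_const _

/-- I13. The advantage of a protocol.
cov_all for R = fun _ => univ, I = fun _ => ∅: St (P03; EF ω ∅ = ∅; Agr trivial). VR = ∅ so rc0 = univ, pcW = 0, zt γ univ ∅ = 1 (fr N q 0 = card). C from Cov. |Σ_{ω} ..| ≤ |Σ_{C}| + Σ_{∉C} (wY + 1) (wY ≥ 0 by K03) and Σ_{∉C} wY = card Om - Σ_C wY ≤ card Om - (1-ε₁)|C| (I12). -/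
theorem advantage {σ γ ε₁ : ℝ} (h0 : 0 < σ) (h1 : σ ≤ 1) (hγ : 1 ≤ γ) (hε : 0 ≤ ε₁) {v : ℕ}
    (hv : v < N)
    (hRE : ∀ (R : Pl d → Finset (LP N q)) (I : Pl d → Finset (Fin N)), St γ v R I →
      ∏ e, zt γ (R e) (I e) ≤ √(γ ^ v) →
        |∑ ω ∈ rc0 R I, (wY σ ω - 1)| ≤ ε₁ * (rc0 R I).card) (T : Tr (Pl d) (LP N q)) :
    |∑ ω : Om d N q, (if T.run ω then wY σ ω - 1 else 0)| ≤
      2 * (ε₁ + γ * (v : ℝ) ^ 2 / (N - v) + (2 * √2) ^ T.depth / √(γ ^ v)) *
        Fintype.card (Om d N q) := by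
  have hEF : ∀ ω : Om d N q, EF ω (fun _ => (∅ : Finset (Fin N))) = ∅ := by
    intro ω
    ext f
    simp [EF]
  have hS : St γ v (fun _ : Pl d => (univ : Finset (LP N q))) (fun _ => ∅) := by
    refine ⟨?_, fun _ => spr_univ hγ, fun _ => univ_nonempty, by simp, ?_⟩
    · intro e ω _ ω' _ u hu
      simp at hu
    · intro ω _
      rw [hEF]
      exact Forest.empty
  have hVR : VR (fun _ : Pl d => (univ : Finset (LP N q))) (fun _ => ∅) = ∅ := by
    ext x
    simp [VR]
  have hrc : rc (fun _ : Pl d => (univ : Finset (LP N q))) = univ := by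
    unfold rc
    exact Fintype.piFinset_univ
  have hrc0 : rc0 (fun _ : Pl d => (univ : Finset (LP N q))) (fun _ => ∅) = univ := by
    unfold rc0
    rw [hVR, hrc]
    ext ω
    simp [NIs]
  have hpot : pot γ v (fun _ : Pl d => (univ : Finset (LP N q))) (fun _ => ∅) =
      γ * (v : ℝ) ^ 2 / (N - v) := by
    unfold pot
    rw [hVR]
    simp [pcW]
  have hzt : (∏ e : Pl d, zt γ ((fun _ : Pl d => (univ : Finset (LP N q))) e)
      ((fun _ : Pl d => (∅ : Finset (Fin N))) e)) = 1 := by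
    refine prod_eq_one (fun e _ => ?_)
    unfold zt fr
    rw [card_empty, pow_zero, Nat.sub_zero, one_mul, card_univ, Fintype.card_prod,
      Fintype.card_perm, Fintype.card_fun, Fintype.card_fin, ZMod.card]
    push_cast
    have hq : (0 : ℝ) < q := by exact_mod_cast Nat.pos_of_ne_zero (NeZero.ne q)
    have hN : (0 : ℝ) < (N.factorial : ℝ) := by exact_mod_cast N.factorial_pos
    rw [div_self (by positivity), Real.sqrt_one]
  obtain ⟨C, -, hC1, hC2, hC3⟩ := cov_all hγ hε hv hRE T _ _ hS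
  rw [hrc0, hrc, hpot, hzt, one_mul, card_univ] at hC3
  have hw0 : ∀ ω : Om d N q, 0 ≤ wY σ ω := by
    intro ω
    unfold wY
    exact avg_nonneg (fun x => prod_nonneg (fun e _ => prod_nonneg (fun u _ =>
      ka_nonneg h0.le h1 _)))
  have hsplit : ∀ g : Om d N q → ℝ, ∑ ω, g ω = ∑ ω ∈ univ \ C, g ω + ∑ ω ∈ C, g ω :=
    fun g => (sum_sdiff (subset_univ C)).symm
  have h2 : ∑ ω ∈ univ \ C, wY σ ω ≤ ((univ \ C).card : ℝ) + ε₁ * C.card := by
    have h3 := hsplit (fun ω => wY σ ω)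
    rw [sum_wY_univ] at h3
    have h4 : ((univ \ C).card : ℝ) + C.card = Fintype.card (Om d N q) := by
      have := card_sdiff_add_card_eq_card (subset_univ C)
      rw [card_univ] at this
      exact_mod_cast this
    have h5 := (abs_le.1 hC1).1
    rw [sum_sub_distrib, sum_const, nsmul_eq_mul, mul_one] at h5
    linarith
  have h6 : |∑ ω ∈ univ \ C, (if T.run ω then wY σ ω - 1 else 0)| ≤
      ∑ ω ∈ univ \ C, (wY σ ω + 1) := by
    refine (abs_sum_le_sum_abs _ _).trans (sum_le_sum (fun ω _ => ?_))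
    have h7 := hw0 ω
    split_ifs
    · rw [abs_le]
      constructor <;> linarith
    · rw [abs_zero]
      linarith
  rw [sum_add_distrib, sum_const, nsmul_eq_mul, mul_one] at h6
  have h8 : (C.card : ℝ) ≤ Fintype.card (Om d N q) := by
    exact_mod_cast card_le_univ C
  rw [hsplit]
  have h9 := abs_add_le (∑ ω ∈ univ \ C, (if T.run ω then wY σ ω - 1 else 0))
    (∑ ω ∈ C, (if T.run ω then wY σ ω - 1 else 0))
  have h10 : ε₁ * (C.card : ℝ) ≤ ε₁ * Fintype.card (Om d N q) :=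
    mul_le_mul_of_nonneg_left h8 hε
  have h11 : 2 * (ε₁ + γ * (v : ℝ) ^ 2 / (N - v) + (2 * √2) ^ T.depth / √(γ ^ v)) *
        (Fintype.card (Om d N q) : ℝ) = 2 * (ε₁ * Fintype.card (Om d N q)) + 2 *
      ((Fintype.card (Om d N q) : ℝ) *
        (γ * (v : ℝ) ^ 2 / (N - v) + (2 * √2) ^ T.depth / √(γ ^ v))) := by ring
  rw [h11]
  linarith

end

end Pool.Agent.Lib.MP_8d8c46_lc.MC
end

section

/-! T57 : Z05 -/

set_option autoImplicit false
set_option linter.unusedSectionVars false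

open scoped Classical
open Finset

namespace Pool.Agent.Lib.MP_8d8c46_lc.MC

open Pool.Agent.Lib.MP_8d8c46_lc.EL
open Pool.Agent.Lib.MP_8d8c46_lc.SA (BV Om Bg shf shf_symm)

section
variable {d N q : ℕ} [NeZero q]

/-- Z05.
a(ω) = answerProb (GrV φ ω) true in [0,1]; Z04 with Z03 and hadv: |Σ a (wY - 1)| ≤ card/4. Yes: Σ a wY ≥ (2/3) Σ_{Yes} wY ≥ (2/3)(99/100) card (Y04, I12, Z02). No: a ≤ 1/3 on No instances (answer true + answer false = 1), so Σ a ≤ (1/3 + 1/100) card (Y05). 0.66 - 0.3434 > 1/4. -/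
theorem no_short {p : ℕ} {ε η : ℚ} (hp : 1 ≤ p) (hpq : p ≤ q) (hd : 1 ≤ d) (hN : 5 ≤ N)
    (hε : 0 < ε) (hη : (p : ℝ) / q < η)
    (hdκ : 2 * q + 1 ≤ d * (((p : ℝ) / q * (η - p / q)) ^ 2 / 68)) {σ : ℝ} (h0 : 0 < σ)
    (h1 : σ ≤ 1) (hσ : 1 - σ ≤ ε / 100) {V : Type} [Fintype V] (φ : V ≃ BV d N × ZMod q)
    (A : PMF (Protocol (d * d) (Set (Sym2 V)))) {C : ℕ} (hA : ∀ P ∈ A.support, P.cost ≤ C)
    (hsep : Separates ε η ((p : ℚ) / q) d (colV hd φ) A)
    (hadv : ∀ T : Tr (Pl d) (LP N q), T.depth ≤ C →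
        |∑ ω : Om d N q, (if T.run ω then wY σ ω - 1 else 0)| ≤
          (1 / 4) * Fintype.card (Om d N q)) : False := by
  have hO : (0 : ℝ) < Fintype.card (Om d N q) := by exact_mod_cast Fintype.card_pos
  obtain ⟨K, hK⟩ : ∃ K : ℝ, K = Fintype.card (Om d N q) := ⟨_, rfl⟩
  rw [← hK] at hO
  obtain ⟨pr, hpr⟩ : ∃ pr : Om d N q → PMF Bool, pr = fun ω =>
      A.map (fun P => P.run (view (colV hd φ) (GrV φ ω))) := ⟨_, rfl⟩
  obtain ⟨a, haω⟩ : ∃ a : Om d N q → ℝ, a = fun ω => ((pr ω) true).toReal := ⟨_, rfl⟩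
  have hsum1 : ∀ ω, ((pr ω) false).toReal + ((pr ω) true).toReal = 1 := by
    intro ω
    have h2 := (pr ω).tsum_coe
    rw [tsum_bool] at h2
    rw [← ENNReal.toReal_add ((pr ω).apply_ne_top _) ((pr ω).apply_ne_top _), h2]
    rfl
  have ha0 : ∀ ω, 0 ≤ a ω := fun ω => by rw [haω]; exact ENNReal.toReal_nonneg
  have ha1 : ∀ ω, a ω ≤ 1 := by
    intro ω
    have h2 := hsum1 ω
    have h3 : 0 ≤ ((pr ω) false).toReal := ENNReal.toReal_nonneg
    rw [haω]
    simp only
    linarith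
  have hw0 : ∀ ω : Om d N q, 0 ≤ wY σ ω := by
    intro ω
    unfold wY
    exact avg_nonneg (fun x => prod_nonneg (fun e _ => prod_nonneg (fun u _ =>
      ka_nonneg h0.le h1 _)))
  have h23 : ((2 / 3 : ENNReal)).toReal = 2 / 3 := by
    rw [ENNReal.toReal_div]
    norm_num
  have hyes : ∀ ω : Om d N q, SSEYes ε ((p : ℚ) / q) (GrL ω) → 2 / 3 ≤ a ω := by
    intro ω hω
    obtain ⟨f1, f2, _⟩ := GrV_facts φ ω
    have h2 : (2 / 3 : ENNReal) ≤ (pr ω) true := by
      rw [hpr]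
      exact hsep.1 (GrV φ ω) f1 (f2 _ _ hω)
    have h3 := ENNReal.toReal_mono ((pr ω).apply_ne_top true) h2
    rw [h23] at h3
    rw [haω]
    exact h3
  have hno : ∀ ω : Om d N q, SSENo η ((p : ℚ) / q) (GrL ω) → a ω ≤ 1 / 3 := by
    intro ω hω
    obtain ⟨f1, _, f3⟩ := GrV_facts φ ω
    have h2 : (2 / 3 : ENNReal) ≤ (pr ω) false := by
      rw [hpr]
      exact hsep.2 (GrV φ ω) f1 (f3 _ _ hω)
    have h3 := ENNReal.toReal_mono ((pr ω).apply_ne_top false) h2
    rw [h23] at h3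
    have h4 := hsum1 ω
    rw [haω]
    simp only
    linarith
  -- the advantage
  have hA' : |∑ ω : Om d N q, a ω * (wY σ ω - 1)| ≤ (1 / 4) * K := by
    have h2 := mean_adv A (fun ω : Om d N q => view (colV hd φ) (GrV φ ω)) (wY σ) hw0
      ((1 / 4) * Fintype.card (Om d N q)) (by
        intro P hP
        obtain ⟨T, hT1, hT2⟩ := exists_tree (N := N) (q := q) hd φ P
        have h3 := hadv T (by rw [hT1]; exact hA P hP)
        have h4 : ∀ ω : Om d N q, T.run ω = P.run (view (colV hd φ) (GrV φ ω)) := hT2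
        simp only [h4] at h3
        exact h3)
    rw [hK, haω, hpr]
    exact h2
  -- the lower bound for the planted distribution
  have hY : (2 / 3) * (99 / 100) * K ≤ ∑ ω : Om d N q, a ω * wY σ ω := by
    have h2 := yes_mass (d := d) (N := N) (q := q) hp hpq hd (by omega) hε h0.le h1 hσ
    have h3 := sum_wY_univ (d := d) (N := N) (q := q) σ
    have h4 := sum_filter_add_sum_filter_not (univ : Finset (Om d N q))
      (fun ω => SSEYes ε ((p : ℚ) / q) (GrL ω)) (wY σ)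
    have h5 : (2 / 3) * ∑ ω ∈ (univ : Finset (Om d N q)).filter
        (fun ω => SSEYes ε ((p : ℚ) / q) (GrL ω)), wY σ ω ≤ ∑ ω : Om d N q, a ω * wY σ ω := by
      rw [mul_sum]
      refine (sum_le_sum (fun ω hω => ?_)).trans (sum_le_sum_of_subset_of_nonneg
        (subset_univ _) (fun ω _ _ => mul_nonneg (ha0 ω) (hw0 ω)))
      rw [mem_filter] at hω
      exact mul_le_mul_of_nonneg_right (hyes ω hω.2) (hw0 ω)
    rw [← hK] at h2 h3
    linarith
  have hN' : ∑ ω : Om d N q, a ω ≤ (1 / 3 + 1 / 100) * K := by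
    have h2 := no_mass (d := d) (N := N) (q := q) hp hpq hN hd hη hdκ
    have h4 := sum_filter_add_sum_filter_not (univ : Finset (Om d N q))
      (fun ω => SSENo η ((p : ℚ) / q) (GrL ω)) a
    have h5 : ∑ ω ∈ (univ : Finset (Om d N q)).filter
        (fun ω => SSENo η ((p : ℚ) / q) (GrL ω)), a ω ≤ (1 / 3) * K := by
      refine (sum_le_sum (g := fun _ => (1 / 3 : ℝ)) (fun ω hω => ?_)).trans ?_
      · rw [mem_filter] at hω
        exact hno ω hω.2
      · rw [sum_const, nsmul_eq_mul, mul_comm, hK]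
        refine mul_le_mul_of_nonneg_left ?_ (by norm_num)
        exact_mod_cast card_le_univ _
    have h6 : ∑ ω ∈ (univ : Finset (Om d N q)).filter
        (fun ω => ¬ SSENo η ((p : ℚ) / q) (GrL ω)), a ω ≤ (1 / 100) * K := by
      refine (sum_le_sum (g := fun _ => (1 : ℝ)) (fun ω _ => ha1 ω)).trans ?_
      rw [sum_const, nsmul_eq_mul, mul_one, hK]
      exact h2
    linarith
  have hdiff : ∑ ω : Om d N q, a ω * (wY σ ω - 1) =
      ∑ ω : Om d N q, a ω * wY σ ω - ∑ ω : Om d N q, a ω := by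
    rw [← sum_sub_distrib]
    exact sum_congr rfl (fun ω _ => by ring)
  have h7 := (abs_le.1 hA').2
  rw [hdiff] at h7
  nlinarith

end

end Pool.Agent.Lib.MP_8d8c46_lc.MC
end
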