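import Mathlib
import Pool.Agent.Lib.MP_8d8c46_lc.SA.Gauss

section

/-!
The pseudo-probability that an edge is cut.
-/

set_option autoImplicit false
set_option linter.unusedSectionVars false

open Finset MeasureTheory ProbabilityTheory
open scoped Classical

namespace Pool.Agent.Lib.MP_8d8c46_lc.SA

variable {V : Type*} [Fintype V] {q : ℕ} [NeZero q]

lemma memLp_eval (K : V × ZMod q → V × ZMod q → ℝ) (B : Finset V) (a : cl q B) :
    MemLp (fun x : EuclideanSpace ℝ (cl q B) => x a) 2 (gm K B) := by
  have h := (IsGaussian.memLp_two_id (μ := gm K B)).continuousLinearMap_comp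
    (EuclideanSpace.proj (𝕜 := ℝ) a)
  exact h

lemma integral_eval (K : V × ZMod q → V × ZMod q → ℝ) (B : Finset V) (a : cl q B) :
    ∫ x : EuclideanSpace ℝ (cl q B), x a ∂(gm K B) = 0 := by
  have h := (EuclideanSpace.proj (𝕜 := ℝ) a).integral_comp_id_comm
    (IsGaussian.integrable_id (μ := gm K B))
  have h2 : ∫ x, x ∂(gm K B) = 0 := by
    unfold gm
    exact integral_id_multivariateGaussian
  simp only [h2, map_zero] at h
  exact h

lemma variance_diff {K : V × ZMod q → V × ZMod q → ℝ} {B : Finset V}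
    (hpsd : (cov K B).PosSemidef) (a b : cl q B) :
    Var[fun x : EuclideanSpace ℝ (cl q B) => x a - x b; gm K B] =
      K a a - 2 * K a b + K b b := by
  rw [variance_fun_sub (memLp_eval K B a) (memLp_eval K B b)]
  unfold gm
  rw [variance_eval_multivariateGaussian hpsd, variance_eval_multivariateGaussian hpsd,
    covariance_eval_multivariateGaussian hpsd]
  rfl

lemma integral_diff (K : V × ZMod q → V × ZMod q → ℝ) (B : Finset V) (a b : cl q B) :
    ∫ x : EuclideanSpace ℝ (cl q B), (x a - x b) ∂(gm K B) = 0 := by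
  rw [integral_sub ((memLp_eval K B a).integrable (by norm_num))
    ((memLp_eval K B b).integrable (by norm_num)), integral_eval, integral_eval, sub_zero]

lemma law_diff {K : V × ZMod q → V × ZMod q → ℝ} {B : Finset V}
    (hpsd : (cov K B).PosSemidef) (a b : cl q B) :
    (gm K B).map (fun x : EuclideanSpace ℝ (cl q B) => x a - x b) =
      gaussianReal 0 (K a a - 2 * K a b + K b b).toNNReal := by
  have h := IsGaussian.map_eq_gaussianReal (μ := gm K B)
    (EuclideanSpace.proj (𝕜 := ℝ) a - EuclideanSpace.proj (𝕜 := ℝ) b)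
  have h1 : ⇑(EuclideanSpace.proj (𝕜 := ℝ) a - EuclideanSpace.proj (𝕜 := ℝ) b) =
      fun x : EuclideanSpace ℝ (cl q B) => x a - x b := rfl
  rw [h1, variance_diff hpsd, integral_diff] at h
  exact h

lemma small_ball {v : NNReal} (hv : 1 ≤ v) {τ : ℝ} :
    gaussianReal 0 v (Set.Icc 0 τ) ≤ ENNReal.ofReal τ := by
  have hv0 : v ≠ 0 := by
    rintro rfl
    simp at hv
  rw [gaussianReal_apply _ hv0]
  calc ∫⁻ x in Set.Icc 0 τ, gaussianPDF 0 v x ≤ ∫⁻ _x in Set.Icc 0 τ, 1 := by
        refine lintegral_mono (fun x => ?_)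
        unfold gaussianPDF
        rw [ENNReal.ofReal_le_one]
        unfold gaussianPDFReal
        have hv' : (1 : ℝ) ≤ v := by exact_mod_cast hv
        have h1 : (√(2 * Real.pi * v))⁻¹ ≤ 1 := by
          refine inv_le_one_of_one_le₀ ?_
          rw [Real.one_le_sqrt]
          nlinarith [Real.pi_gt_three]
        have h2 : Real.exp (-(x - 0) ^ 2 / (2 * v)) ≤ 1 := by
          rw [Real.exp_le_one_iff]
          refine div_nonpos_of_nonpos_of_nonneg ?_ (by positivity)
          nlinarith [sq_nonneg (x - 0)]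
        calc _ ≤ 1 * 1 := mul_le_mul h1 h2 (Real.exp_pos _).le (by norm_num)
          _ = 1 := one_mul 1
    _ = ENNReal.ofReal τ := by
        rw [setLIntegral_one, Real.volume_Icc, sub_zero]

/-- The pseudo-probability that the edge from `(u, i)` to `(v, i + c)` is cut. -/
theorem XX_edge {K : V × ZMod q → V × ZMod q → ℝ} {u v : V} {c : ZMod q} {ρ τ : ℝ}
    (hpsd : (cov K {u, v}).PosSemidef) (hK1 : ∀ y, K y y = 1)
    (hcloud : ∀ i j, i ≠ j → K (u, i) (u, j) = 0)
    (hedge : ∀ i, K (u, i) (v, i + c) = ρ) (hρ : ρ ≤ 1) (hτ : 0 < τ) {p : ℕ} (hp : p ≤ q)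
    (i : ZMod q) :
    XX K p {(u, i)} - XX K p {(u, i), (v, i + c)} ≤ q * (τ + 16 * (1 - ρ) / τ ^ 2) := by
  obtain ⟨B, hB⟩ : ∃ B : Finset V, B = {u, v} := ⟨_, rfl⟩
  rw [← hB] at hpsd
  have hu : ∀ j : ZMod q, (u, j) ∈ cl q B := fun j => mem_cl.2 (by rw [hB]; simp)
  have hv : ∀ j : ZMod q, (v, j) ∈ cl q B := fun j => mem_cl.2 (by rw [hB]; simp)
  have e1 : XX K p {(u, i)} = ∫ x, one p (ext B x) (u, i) ∂(gm K B) := by
    rw [XX_eq hpsd p]
    · congr 1
      funext x
      unfold indf
      rw [prod_singleton]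
    · intro y hy
      rw [mem_singleton] at hy
      rw [hy, hB]
      simp
  have hins : ({(u, i), (v, i + c)} : Finset (V × ZMod q)) = insert (u, i) {(v, i + c)} := rfl
  have e2 : XX K p {(u, i), (v, i + c)} =
      ∫ x, one p (ext B x) (u, i) * one p (ext B x) (v, i + c) ∂(gm K B) := by
    rw [XX_eq hpsd p]
    · congr 1
      funext x
      rw [hins, indf_insert]
      unfold indf
      rw [prod_singleton]
    · intro y hy
      rw [hB]
      simp only [mem_insert, mem_singleton] at hy ⊢
      rcases hy with rfl | rfl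
      · exact Or.inl rfl
      · exact Or.inr rfl
  have i1 : Integrable (fun x => one p (ext B x) (u, i)) (gm K B) := by
    have := integrable_indf K p {(u, i)} B
    unfold indf at this
    simp only [prod_singleton] at this
    exact this
  have i2 : Integrable (fun x => one p (ext B x) (u, i) * one p (ext B x) (v, i + c))
      (gm K B) := by
    have := integrable_indf K p (insert (u, i) {(v, i + c)}) B
    simp only [indf_insert] at this
    unfold indf at this
    simp only [prod_singleton] at this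
    exact this
  rw [e1, e2, ← integral_sub i1 i2]
  -- the bad events
  obtain ⟨D, hD⟩ : ∃ D : ZMod q → Set (EuclideanSpace ℝ (cl q B)), ∀ j, D j =
      (fun x : EuclideanSpace ℝ (cl q B) => x ⟨(u, i), hu i⟩ - x ⟨(u, j), hu j⟩) ⁻¹'
        Set.Icc 0 τ := ⟨_, fun _ => rfl⟩
  obtain ⟨F, hF⟩ : ∃ F : ZMod q → Set (EuclideanSpace ℝ (cl q B)), ∀ j, F j =
      {x | τ / 2 ≤ |x ⟨(u, j), hu j⟩ - x ⟨(v, j + c), hv (j + c)⟩|} := ⟨_, fun _ => rfl⟩
  have hDm : ∀ j, MeasurableSet (D j) := by
    intro j
    rw [hD]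
    exact (by fun_prop : Measurable fun x : EuclideanSpace ℝ (cl q B) =>
      x ⟨(u, i), hu i⟩ - x ⟨(u, j), hu j⟩) measurableSet_Icc
  have hFm : ∀ j, MeasurableSet (F j) := by
    intro j
    rw [hF]
    exact measurableSet_le measurable_const (by fun_prop)
  have hpt : ∀ x : EuclideanSpace ℝ (cl q B),
      one p (ext B x) (u, i) - one p (ext B x) (u, i) * one p (ext B x) (v, i + c) ≤
      ∑ j ∈ univ.erase i, ((D j).indicator (fun _ => (1 : ℝ)) x +
        ((F i).indicator (fun _ => (1 : ℝ)) x + (F j).indicator (fun _ => (1 : ℝ)) x)) := by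
    intro x
    have hnn : ∀ j ∈ univ.erase i, 0 ≤ ((D j).indicator (fun _ => (1 : ℝ)) x +
        ((F i).indicator (fun _ => (1 : ℝ)) x + (F j).indicator (fun _ => (1 : ℝ)) x)) := by
      intro j _
      have h1 : ∀ S : Set (EuclideanSpace ℝ (cl q B)), 0 ≤ S.indicator (fun _ => (1 : ℝ)) x :=
        fun S => Set.indicator_nonneg (fun _ _ => zero_le_one) x
      have := h1 (D j)
      have := h1 (F i)
      have := h1 (F j)
      linarith
    by_cases hbad : sel p (fun j => ext B x (u, j)) i ∧
        ¬ sel p (fun j => ext B x (v, j)) (i + c)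
    · obtain ⟨j, hj, h1, h2⟩ := exists_swap hp (fun j => ext B x (u, j))
        (fun j => ext B x (v, j)) (Equiv.addRight c) hbad.1 hbad.2
      simp only [Equiv.coe_addRight] at h1 h2
      have x1 : ∀ j, ext B x (u, j) = x ⟨(u, j), hu j⟩ := fun j => by
        unfold ext; rw [dif_pos (hu j)]
      have x2 : ∀ j, ext B x (v, j) = x ⟨(v, j), hv j⟩ := fun j => by
        unfold ext; rw [dif_pos (hv j)]
      rw [x1, x1] at h1
      rw [x2, x2] at h2
      have h3 : (1 : ℝ) ≤ (D j).indicator (fun _ => (1 : ℝ)) x +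
          ((F i).indicator (fun _ => (1 : ℝ)) x + (F j).indicator (fun _ => (1 : ℝ)) x) := by
        have hn : ∀ S : Set (EuclideanSpace ℝ (cl q B)), 0 ≤ S.indicator (fun _ => (1 : ℝ)) x :=
          fun S => Set.indicator_nonneg (fun _ _ => zero_le_one) x
        have hn1 := hn (D j)
        have hn2 := hn (F i)
        have hn3 := hn (F j)
        by_cases c1 : x ∈ D j
        · rw [Set.indicator_of_mem c1]; linarith
        by_cases c2 : x ∈ F i
        · rw [Set.indicator_of_mem c2]; linarith
        by_cases c3 : x ∈ F j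
        · rw [Set.indicator_of_mem c3]; linarith
        exfalso
        rw [hD, Set.mem_preimage, Set.mem_Icc, not_and_or, not_le, not_le] at c1
        rw [hF, Set.mem_ofPred_eq, not_le, abs_lt] at c2 c3
        rcases c1 with c1 | c1 <;> linarith [c2.1, c2.2, c3.1, c3.2]
      have h4 : one p (ext B x) (u, i) - one p (ext B x) (u, i) * one p (ext B x) (v, i + c) ≤
          1 := by
        rcases one_cases p (ext B x) (u, i) with h | h <;>
        rcases one_cases p (ext B x) (v, i + c) with h' | h' <;> rw [h, h'] <;> norm_num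
      exact h4.trans (h3.trans (single_le_sum hnn (mem_erase.2 ⟨hj, mem_univ _⟩)))
    · have h4 : one p (ext B x) (u, i) - one p (ext B x) (u, i) * one p (ext B x) (v, i + c) ≤
          0 := by
        rw [not_and_or, not_not] at hbad
        rcases hbad with h | h
        · have : one p (ext B x) (u, i) = 0 := if_neg h
          rw [this]; norm_num
        · have : one p (ext B x) (v, i + c) = 1 := if_pos h
          rw [this]; norm_num
      exact h4.trans (sum_nonneg hnn)
  have hint : ∀ S : Set (EuclideanSpace ℝ (cl q B)), MeasurableSet S →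
      Integrable (S.indicator (fun _ => (1 : ℝ))) (gm K B) :=
    fun S hS => (integrable_const 1).indicator hS
  have hival : ∀ S : Set (EuclideanSpace ℝ (cl q B)), MeasurableSet S →
      ∫ x, S.indicator (fun _ => (1 : ℝ)) x ∂(gm K B) = (gm K B).real S := by
    intro S hS
    rw [integral_indicator_const _ hS, smul_eq_mul, mul_one]
  have hDp : ∀ j, j ≠ i → (gm K B).real (D j) ≤ τ := by
    intro j hj
    have h1 : gm K B (D j) ≤ ENNReal.ofReal τ := by
      have h2 := law_diff hpsd ⟨(u, i), hu i⟩ ⟨(u, j), hu j⟩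
      rw [hD, ← Measure.map_apply (by fun_prop) measurableSet_Icc, h2]
      refine small_ball ?_
      simp only [hK1, hcloud i j hj.symm]
      rw [← NNReal.coe_le_coe, Real.coe_toNNReal _ (by norm_num)]
      norm_num
    exact ENNReal.toReal_le_of_le_ofReal hτ.le h1
  have hFp : ∀ j, (gm K B).real (F j) ≤ 8 * (1 - ρ) / τ ^ 2 := by
    intro j
    have h1 := meas_ge_le_variance_div_sq (μ := gm K B)
      (X := fun x : EuclideanSpace ℝ (cl q B) =>
        x ⟨(u, j), hu j⟩ - x ⟨(v, j + c), hv (j + c)⟩)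
      ((memLp_eval K B _).sub (memLp_eval K B _)) (c := τ / 2) (by positivity)
    rw [integral_diff, variance_diff hpsd] at h1
    simp only [sub_zero, hK1, hedge] at h1
    have h2 : (1 - 2 * ρ + 1) / (τ / 2) ^ 2 = 8 * (1 - ρ) / τ ^ 2 := by
      field_simp
      ring
    rw [h2] at h1
    rw [hF]
    refine ENNReal.toReal_le_of_le_ofReal ?_ h1
    have : 0 ≤ 1 - ρ := by linarith
    positivity
  have hFp' : 0 ≤ 8 * (1 - ρ) / τ ^ 2 := by
    have : 0 ≤ 1 - ρ := by linarith
    positivity
  calc ∫ x, (one p (ext B x) (u, i) - one p (ext B x) (u, i) * one p (ext B x) (v, i + c))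
        ∂(gm K B)
      ≤ ∫ x, ∑ j ∈ univ.erase i, ((D j).indicator (fun _ => (1 : ℝ)) x +
        ((F i).indicator (fun _ => (1 : ℝ)) x + (F j).indicator (fun _ => (1 : ℝ)) x))
        ∂(gm K B) := by
        refine integral_mono (i1.sub i2) ?_ hpt
        refine integrable_finsetSum _ (fun j _ => ?_)
        exact (hint _ (hDm j)).add ((hint _ (hFm i)).add (hint _ (hFm j)))
    _ = ∑ j ∈ univ.erase i, ((gm K B).real (D j) + ((gm K B).real (F i) +
          (gm K B).real (F j))) := by
        rw [integral_finsetSum]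
        · refine sum_congr rfl (fun j _ => ?_)
          have hs : Integrable (fun x => (F i).indicator (fun _ => (1 : ℝ)) x +
              (F j).indicator (fun _ => (1 : ℝ)) x) (gm K B) :=
            (hint _ (hFm i)).add (hint _ (hFm j))
          rw [integral_add (hint _ (hDm j)) hs,
            integral_add (hint _ (hFm i)) (hint _ (hFm j)), hival _ (hDm j), hival _ (hFm i),
            hival _ (hFm j)]
        · intro j _
          exact (hint _ (hDm j)).add ((hint _ (hFm i)).add (hint _ (hFm j)))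
    _ ≤ ∑ _j ∈ univ.erase i, (τ + 16 * (1 - ρ) / τ ^ 2) := by
        refine sum_le_sum (fun j hj => ?_)
        have a1 := hDp j (ne_of_mem_erase hj)
        have a2 := hFp i
        have a3 := hFp j
        have a4 : 16 * (1 - ρ) / τ ^ 2 = 8 * (1 - ρ) / τ ^ 2 + 8 * (1 - ρ) / τ ^ 2 := by ring
        linarith
    _ ≤ q * (τ + 16 * (1 - ρ) / τ ^ 2) := by
        rw [sum_const, nsmul_eq_mul]
        have a4 : 16 * (1 - ρ) / τ ^ 2 = 8 * (1 - ρ) / τ ^ 2 + 8 * (1 - ρ) / τ ^ 2 := by ring
        refine mul_le_mul_of_nonneg_right ?_ (by linarith)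
        have : (univ.erase i : Finset (ZMod q)).card ≤ q := by
          refine (card_erase_le).trans ?_
          rw [card_univ, ZMod.card]
        exact_mod_cast this

end Pool.Agent.Lib.MP_8d8c46_lc.SA
end

section

/-!
Graphs in which every short closed walk backtracks, and distances in them.
-/

set_option autoImplicit false

open Finset

namespace Pool.Agent.Lib.MP_8d8c46_lc.SA

variable {V : Type*}

/-- Every closed walk of length between `1` and `M` goes back along an edge at some step. -/
def NB (H : SimpleGraph V) (M : ℕ) : Prop :=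
  ∀ (m : ℕ) (x : ℕ → V), 1 ≤ m → m ≤ M → (∀ i < m, H.Adj (x i) (x (i + 1))) → x 0 = x m →
    ∃ i, i + 2 ≤ m ∧ x i = x (i + 2)

lemma NB.mono {H H' : SimpleGraph V} {M M' : ℕ} (h : NB H M) (hH : H' ≤ H) (hM : M' ≤ M) :
    NB H' M' :=
  fun m x h1 h2 h3 h4 => h m x h1 (h2.trans hM) (fun i hi => hH (h3 i hi)) h4

/-- A graph without short cycles. -/
lemma NB.of_no_cycle {H : SimpleGraph V} {M : ℕ}
    (h : ∀ (m : ℕ) (x : ℕ → V), 3 ≤ m → m ≤ M → (∀ i < m, H.Adj (x i) (x (i + 1))) →
      x 0 = x m → ∃ i j, i < j ∧ j < m ∧ x i = x j) : NB H M := by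
  intro m
  induction m using Nat.strong_induction_on with
  | _ m ih =>
    intro x h1 h2 h3 h4
    by_cases hm : 3 ≤ m
    · obtain ⟨i, j, hij, hj, he⟩ := h m x hm h2 h3 h4
      obtain ⟨i', h5, h6⟩ := ih (j - i) (by omega) (fun t => x (i + t)) (by omega) (by omega)
        (fun t ht => h3 (i + t) (by omega)) (by
          show x (i + 0) = x (i + (j - i))
          rw [Nat.add_zero, show i + (j - i) = j by omega]; exact he)
      exact ⟨i + i', by omega, h6⟩
    · have h7 : m = 1 ∨ m = 2 := by omega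
      rcases h7 with rfl | rfl
      · exfalso
        have := h3 0 (by omega)
        rw [h4] at this
        exact H.loopless.irrefl _ this
      · exact ⟨0, le_refl _, h4⟩

section dist

variable {H : SimpleGraph V}

lemma exists_walk_nat {u w : V} {r : ℕ} (h : H.edist u w = r) :
    ∃ p : H.Walk u w, p.length = r := by
  have hr : H.Reachable u w := by
    rw [← SimpleGraph.edist_ne_top_iff_reachable, h]
    exact ENat.natCast_ne_top r
  obtain ⟨p, hp⟩ := hr.exists_walk_length_eq_edist
  refine ⟨p, ?_⟩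
  rw [h] at hp
  exact_mod_cast hp

lemma edist_getVert_le {u w : V} (p : H.Walk u w) (i : ℕ) : H.edist u (p.getVert i) ≤ i := by
  refine (SimpleGraph.edist_le (p.take i)).trans ?_
  exact_mod_cast (by rw [SimpleGraph.Walk.take_length]; exact min_le_left _ _ : (p.take i).length ≤ i)

lemma edist_getVert_le' {u w : V} (p : H.Walk u w) {i : ℕ} (hi : i ≤ p.length) :
    H.edist (p.getVert i) w ≤ (p.length - i : ℕ) := by
  refine (SimpleGraph.edist_le (p.drop i)).trans ?_
  rw [SimpleGraph.Walk.drop_length]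

lemma edist_getVert {u w : V} {r : ℕ} (h : H.edist u w = r) (p : H.Walk u w)
    (hp : p.length = r) {i : ℕ} (hi : i ≤ r) : H.edist u (p.getVert i) = i := by
  have h1 := edist_getVert_le p i
  have h2 := edist_getVert_le' p (i := i) (by omega)
  have h3 := H.edist_triangle (u := u) (v := p.getVert i) (w := w)
  rw [h] at h3
  have h4 : H.edist u (p.getVert i) ≠ ⊤ := ne_top_of_le_ne_top (ENat.natCast_ne_top i) h1
  obtain ⟨a, ha⟩ := ENat.ne_top_iff_exists.1 h4
  have h5 : H.edist (p.getVert i) w ≠ ⊤ := ne_top_of_le_ne_top (ENat.natCast_ne_top _) h2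
  obtain ⟨b, hb⟩ := ENat.ne_top_iff_exists.1 h5
  rw [← ha] at h1 h3 ⊢
  rw [← hb] at h2 h3
  norm_cast at h1 h2 h3 ⊢
  omega

/-- The local structure of a graph all of whose short closed walks backtrack. -/
lemma NB.parent {M : ℕ} (hH : NB H M) {u w : V} {r : ℕ} (hr : 1 ≤ r) (h : H.edist u w = r)
    (hM : 2 * r + 1 ≤ M) :
    ∃ w', H.Adj w w' ∧ H.edist u w' = (r - 1 : ℕ) ∧
      ∀ w'', H.Adj w w'' → w'' ≠ w' → H.edist u w'' = (r + 1 : ℕ) := by
  obtain ⟨p, hp⟩ := exists_walk_nat h
  have hadj : H.Adj (p.getVert (r - 1)) w := by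
    have h1 := p.adj_getVert_succ (i := r - 1) (by omega)
    rw [show r - 1 + 1 = p.length by omega, SimpleGraph.Walk.getVert_length] at h1
    exact h1
  refine ⟨p.getVert (r - 1), hadj.symm, edist_getVert h p hp (by omega), ?_⟩
  intro w'' h1 h2
  have hle : H.edist u w'' ≤ (r + 1 : ℕ) := by
    refine (H.edist_triangle (v := w)).trans ?_
    rw [h, SimpleGraph.edist_eq_one_iff_adj.2 h1]
    push_cast
    exact le_refl _
  have htop : H.edist u w'' ≠ ⊤ := ne_top_of_le_ne_top (ENat.natCast_ne_top _) hle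
  obtain ⟨s, hs⟩ := ENat.ne_top_iff_exists.1 htop
  rw [← hs] at hle ⊢
  have hs1 : s ≤ r + 1 := by exact_mod_cast hle
  by_contra hne
  have hs2 : s ≤ r := by
    by_contra hcon
    exact hne (by rw [show s = r + 1 by omega])
  obtain ⟨q, hq⟩ := exists_walk_nat hs.symm
  -- the closed walk
  obtain ⟨x, hx⟩ : ∃ x : ℕ → V, ∀ i, x i = if i ≤ r then p.getVert i else
      q.getVert (s - (i - r - 1)) := ⟨_, fun i => rfl⟩
  obtain ⟨i, hi, he⟩ := hH (r + 1 + s) x (by omega) (by omega) (by
      intro i hi
      rw [hx, hx]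
      by_cases h3 : i + 1 ≤ r
      · rw [if_pos (by omega), if_pos h3]
        exact p.adj_getVert_succ (by omega)
      · by_cases h4 : i = r
        · subst h4
          rw [if_pos (le_refl _), if_neg (by omega), show s - (i + 1 - i - 1) = q.length by omega,
            SimpleGraph.Walk.getVert_length, show i = p.length by omega,
            SimpleGraph.Walk.getVert_length]
          exact h1
        · rw [if_neg (by omega), if_neg (by omega)]
          have h5 := q.adj_getVert_succ (i := s - (i + 1 - r - 1)) (by omega)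
          rw [show s - (i + 1 - r - 1) + 1 = s - (i - r - 1) by omega] at h5
          exact h5.symm) (by
      rw [hx, hx, if_pos (by omega), if_neg (by omega), show s - (r + 1 + s - r - 1) = 0 by omega,
        SimpleGraph.Walk.getVert_zero, SimpleGraph.Walk.getVert_zero])
  -- distances from `u` along the closed walk
  have hf1 : ∀ j, j ≤ r → H.edist u (x j) = (j : ℕ) := by
    intro j hj
    rw [hx, if_pos hj]
    exact edist_getVert h p hp hj
  have hf2 : ∀ j, r < j → H.edist u (x j) = (s - (j - r - 1) : ℕ) := by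
    intro j hj
    rw [hx, if_neg (by omega)]
    exact edist_getVert hs.symm q hq (by omega)
  by_cases h6 : i + 2 ≤ r
  · have h7 := hf1 i (by omega)
    rw [he, hf1 (i + 2) h6] at h7
    norm_cast at h7
    omega
  · by_cases h8 : r < i
    · have h7 := hf2 i h8
      rw [he, hf2 (i + 2) (by omega)] at h7
      norm_cast at h7
      omega
    · by_cases h9 : i = r
      · have h7 := hf1 i (by omega)
        rw [he, hf2 (i + 2) (by omega)] at h7
        norm_cast at h7
        omega
      · have h10 : i = r - 1 := by omega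
        rw [hx, hx, if_pos (by omega), if_neg (by omega), h10,
          show s - (r - 1 + 2 - r - 1) = q.length by omega, SimpleGraph.Walk.getVert_length] at he
        exact h2 he.symm

end dist

end Pool.Agent.Lib.MP_8d8c46_lc.SA
end

section

/-!
The kernel `ρ ^ dist`, cut off at distance `L`, is positive semidefinite on small graphs without
short cycles.
-/

set_option autoImplicit false

open Finset
open scoped Classical

namespace Pool.Agent.Lib.MP_8d8c46_lc.SA

/-! ### A continuity argument -/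

/-- A path of nonsingular symmetric matrices that starts at the identity stays positive. -/
theorem posSemidef_of_path {n : Type*} [Fintype n] {f : ℝ → Matrix n n ℝ} {ρ : ℝ} (hρ : 0 ≤ ρ)
    (hf : ∀ i j, Continuous fun t => f t i j) (hs : ∀ t, (f t).IsHermitian) (h0 : f 0 = 1)
    (hd : ∀ t, 0 ≤ t → t ≤ ρ → (f t).det ≠ 0) : (f ρ).PosSemidef := by
  obtain ⟨q, hq⟩ : ∃ q : ℝ × (n → ℝ) → ℝ, ∀ z, q z = z.2 ⬝ᵥ ((f z.1).mulVec z.2) :=
    ⟨_, fun _ => rfl⟩
  have hqc : Continuous q := by
    have : q = fun z => ∑ i, z.2 i * ∑ j, f z.1 i j * z.2 j := by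
      funext z; rw [hq]; rfl
    rw [this]
    refine continuous_finsetSum _ (fun i _ => ?_)
    refine ((continuous_apply i).comp continuous_snd).mul ?_
    refine continuous_finsetSum _ (fun j _ => ?_)
    exact ((hf i j).comp continuous_fst).mul ((continuous_apply j).comp continuous_snd)
  have hscale : ∀ (t c : ℝ) (x : n → ℝ), q (t, c • x) = c ^ 2 * q (t, x) := by
    intro t c x
    rw [hq, hq]
    simp only [Matrix.mulVec_smul, smul_dotProduct, dotProduct_smul, smul_eq_mul]
    ring
  obtain ⟨S, hS⟩ : ∃ S : Set (ℝ × (n → ℝ)), S =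
      (Set.Icc 0 ρ ×ˢ Metric.sphere (0 : n → ℝ) 1) ∩ {z | q z ≤ 0} := ⟨_, rfl⟩
  have hSc : IsCompact S := by
    rw [hS]
    exact (isCompact_Icc.prod (isCompact_sphere _ _)).inter_right
      (isClosed_le hqc continuous_const)
  have hunit : ∀ x : n → ℝ, x ≠ 0 → ∃ c : ℝ, 0 < c ∧ ‖c • x‖ = 1 := by
    intro x hx
    have hx' : 0 < ‖x‖ := norm_pos_iff.2 hx
    refine ⟨‖x‖⁻¹, by positivity, ?_⟩
    rw [norm_smul, norm_inv, norm_norm, inv_mul_cancel₀ hx'.ne']
  rcases S.eq_empty_or_nonempty with hemp | hne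
  · refine Matrix.PosSemidef.of_dotProduct_mulVec_nonneg (hs ρ) (fun x => ?_)
    rw [star_trivial]
    by_cases hx : x = 0
    · rw [hx]; simp
    · obtain ⟨c, hc, hcx⟩ := hunit x hx
      by_contra hcon
      rw [not_le] at hcon
      have : (ρ, c • x) ∈ S := by
        rw [hS]
        refine ⟨⟨⟨hρ, le_refl _⟩, by simpa using hcx⟩, ?_⟩
        show q (ρ, c • x) ≤ 0
        rw [hscale, hq]
        exact mul_nonpos_of_nonneg_of_nonpos (by positivity) hcon.le
      rw [hemp] at this
      exact this
  · exfalso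
    have hTc : IsCompact (Prod.fst '' S) := hSc.image continuous_fst
    obtain ⟨t₀, ht₀, hmin⟩ := hTc.exists_isLeast (hne.image _)
    obtain ⟨⟨t, x₀⟩, hz, hzt⟩ := ht₀
    simp only at hzt
    subst hzt
    have hz' := hz
    rw [hS] at hz'
    obtain ⟨⟨⟨ht0, htρ⟩, hx0⟩, hq0⟩ := hz'
    simp only [Set.mem_ofPred_eq] at hq0 ht0 htρ
    have hx0' : x₀ ≠ 0 := by
      rintro rfl
      simp at hx0
    have htpos : 0 < t := by
      rcases ht0.lt_or_eq with h | h
      · exact h
      · exfalso
        rw [hq] at hq0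
        simp only [← h, h0, Matrix.one_mulVec] at hq0
        have h1 : x₀ ⬝ᵥ x₀ = ∑ i, x₀ i * x₀ i := rfl
        have h2 : 0 ≤ ∑ i, x₀ i * x₀ i := sum_nonneg (fun i _ => mul_self_nonneg _)
        have h3 : ∑ i, x₀ i * x₀ i = 0 := by linarith
        rw [sum_eq_zero_iff_of_nonneg (fun i _ => mul_self_nonneg _)] at h3
        exact hx0' (funext fun i => mul_self_eq_zero.1 (h3 i (mem_univ i)))
    have hlt : ∀ s, 0 ≤ s → s < t → ∀ x : n → ℝ, 0 ≤ q (s, x) := by
      intro s hs0 hst x
      by_cases hx : x = 0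
      · rw [hx, hq]; simp
      · obtain ⟨c, hc, hcx⟩ := hunit x hx
        by_contra hcon
        rw [not_le] at hcon
        have h1 : (s, c • x) ∈ S := by
          rw [hS]
          refine ⟨⟨⟨hs0, hst.le.trans htρ⟩, by simpa using hcx⟩, ?_⟩
          show q (s, c • x) ≤ 0
          rw [hscale]
          exact mul_nonpos_of_nonneg_of_nonpos (by positivity) hcon.le
        have h2 := hmin (Set.mem_image_of_mem _ h1)
        simp only at h2
        linarith
    have hle : ∀ x : n → ℝ, 0 ≤ q (t, x) := by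
      intro x
      have hcx : Continuous fun s => q (s, x) := hqc.comp (by fun_prop)
      have hcl : IsClosed {s : ℝ | 0 ≤ q (s, x)} := isClosed_le continuous_const hcx
      have h1 : Set.Ico 0 t ⊆ {s : ℝ | 0 ≤ q (s, x)} := fun s hs => hlt s hs.1 hs.2 x
      have h2 : t ∈ closure (Set.Ico 0 t) := by
        rw [closure_Ico htpos.ne]
        exact ⟨htpos.le, le_refl _⟩
      exact hcl.closure_subset_iff.2 h1 h2
    have hpsd : (f t).PosSemidef := by
      refine Matrix.PosSemidef.of_dotProduct_mulVec_nonneg (hs t) (fun x => ?_)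
      rw [star_trivial]
      have := hle x
      rwa [hq] at this
    have hzero : q (t, x₀) = 0 := le_antisymm hq0 (hle x₀)
    have h1 : (f t).mulVec x₀ = 0 := by
      rw [← hpsd.dotProduct_mulVec_zero_iff, star_trivial]
      rwa [hq] at hzero
    exact hd t ht0 htρ (Matrix.exists_mulVec_eq_zero_iff.1 ⟨x₀, hx0', h1⟩)

/-! ### The kernel -/

variable {V : Type*}

/-- `t ^ dist`, cut off beyond distance `L`. -/
noncomputable def kern (H : SimpleGraph V) (L : ℕ) (t : ℝ) (u v : V) : ℝ :=
  if H.edist u v ≤ L then t ^ (H.edist u v).toNat else 0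

variable {H : SimpleGraph V} {L : ℕ} {t : ℝ}

lemma kern_comm (u v : V) : kern H L t u v = kern H L t v u := by
  unfold kern
  rw [H.edist_comm (u := u)]

lemma kern_self (u : V) : kern H L t u u = 1 := by
  unfold kern
  rw [SimpleGraph.edist_self, if_pos zero_le]
  simp

lemma kern_zero (u v : V) (h : u ≠ v) : kern H L 0 u v = 0 := by
  unfold kern
  split_ifs with h1
  · have h2 : H.edist u v ≠ ⊤ := ne_top_of_le_ne_top (ENat.natCast_ne_top L) h1
    obtain ⟨a, ha⟩ := ENat.ne_top_iff_exists.1 h2
    rw [← ha]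
    have : a ≠ 0 := by
      rintro rfl
      exact h (SimpleGraph.edist_eq_zero_iff.1 ha.symm)
    simp [this]
  · rfl

lemma kern_eq {u v : V} {r : ℕ} (h : H.edist u v = r) (hr : r ≤ L) : kern H L t u v = t ^ r := by
  unfold kern
  rw [h, if_pos (by exact_mod_cast hr)]
  simp

lemma kern_eq_zero {u v : V} (h : ¬ H.edist u v ≤ L) : kern H L t u v = 0 := if_neg h

lemma kern_nonneg (ht : 0 ≤ t) (u v : V) : 0 ≤ kern H L t u v := by
  unfold kern
  split_ifs
  · positivity
  · exact le_refl _

lemma kern_le {u v : V} {a : ℕ} (ht : 0 ≤ t) (ht1 : t ≤ 1) (h : (a : ℕ∞) ≤ H.edist u v) :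
    kern H L t u v ≤ t ^ a := by
  unfold kern
  split_ifs with h1
  · have h2 : H.edist u v ≠ ⊤ := ne_top_of_le_ne_top (ENat.natCast_ne_top L) h1
    obtain ⟨b, hb⟩ := ENat.ne_top_iff_exists.1 h2
    rw [← hb] at h ⊢
    simp only [ENat.toNat_natCast]
    exact pow_le_pow_of_le_one ht ht1 (by exact_mod_cast h)
  · positivity

section
variable [Fintype V]

/-- the degree -/
noncomputable def dg (H : SimpleGraph V) (v : V) : ℕ := (univ.filter fun u => H.Adj v u).card

/-- `(1 - t²) + t² D - t A` -/
noncomputable def Mat (H : SimpleGraph V) (t : ℝ) : Matrix V V ℝ := fun v w =>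
  (if v = w then 1 - t ^ 2 + t ^ 2 * dg H w else 0) - (if H.Adj v w then t else 0)

lemma kern_mul (u w : V) : (Matrix.of (kern H L t) * Mat H t) u w =
    kern H L t u w * (1 - t ^ 2 + t ^ 2 * dg H w) -
      t * ∑ v ∈ univ.filter (fun v => H.Adj w v), kern H L t u v := by
  rw [Matrix.mul_apply]
  simp only [Matrix.of_apply, Mat, mul_sub, sum_sub_distrib, mul_ite, mul_zero]
  congr 1
  · rw [sum_ite_eq' univ w]
    simp
  · rw [mul_sum, sum_filter]
    refine sum_congr rfl (fun v _ => ?_)
    by_cases h : H.Adj w v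
    · rw [if_pos h, if_pos h.symm, mul_comm]
    · rw [if_neg h, if_neg (fun h' => h h'.symm)]

lemma kern_mul_self (hL : 1 ≤ L) (u : V) :
    (Matrix.of (kern H L t) * Mat H t) u u = 1 - t ^ 2 := by
  rw [kern_mul, kern_self]
  have : ∑ v ∈ univ.filter (fun v => H.Adj u v), kern H L t u v = dg H u * t := by
    rw [sum_congr rfl (g := fun _ => t), sum_const, nsmul_eq_mul]
    · rfl
    · intro v hv
      rw [mem_filter] at hv
      rw [kern_eq (r := 1) (by rw [SimpleGraph.edist_eq_one_iff_adj.2 hv.2]; rfl) hL, pow_one]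
  rw [this]
  ring

lemma kern_mul_off (hL : 1 ≤ L) (hH : NB H (2 * L)) {d : ℕ} (hd : ∀ v, dg H v ≤ d)
    (ht : 0 ≤ t) (ht1 : t ≤ 1) {u w : V} (hne : u ≠ w) :
    |(Matrix.of (kern H L t) * Mat H t) u w| ≤ (1 + d) * t ^ L := by
  rw [kern_mul]
  by_cases hlt : H.edist u w < L
  · -- inside the ball
    have h2 : H.edist u w ≠ ⊤ := ne_top_of_lt hlt
    obtain ⟨r, hr⟩ := ENat.ne_top_iff_exists.1 h2
    have hrL : r < L := by
      rw [← hr] at hlt; exact_mod_cast hlt
    have hr1 : 1 ≤ r := by
      rw [Nat.one_le_iff_ne_zero]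
      rintro rfl
      exact hne (SimpleGraph.edist_eq_zero_iff.1 hr.symm)
    obtain ⟨w', h3, h4, h5⟩ := hH.parent hr1 hr.symm (by omega)
    have h6 : ∑ v ∈ univ.filter (fun v => H.Adj w v), kern H L t u v =
        t ^ (r - 1) + ((dg H w : ℝ) - 1) * t ^ (r + 1) := by
      have hmem : w' ∈ univ.filter (fun v => H.Adj w v) := by simp [h3]
      rw [← add_sum_erase _ _ hmem, kern_eq h4 (by omega),
        sum_congr rfl (g := fun _ => t ^ (r + 1)), sum_const, nsmul_eq_mul,
        card_erase_of_mem hmem]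
      · have : 1 ≤ (univ.filter (fun v => H.Adj w v)).card := card_pos.2 ⟨_, hmem⟩
        rw [Nat.cast_sub this, Nat.cast_one]
        rfl
      · intro v hv
        rw [mem_erase, mem_filter] at hv
        exact kern_eq (h5 v hv.2.2 hv.1) (by omega)
    rw [h6, kern_eq hr.symm hrL.le]
    have h7 : t ^ r * (1 - t ^ 2 + t ^ 2 * dg H w) -
        t * (t ^ (r - 1) + ((dg H w : ℝ) - 1) * t ^ (r + 1)) = 0 := by
      obtain ⟨a, rfl⟩ : ∃ a, r = a + 1 := ⟨r - 1, by omega⟩
      rw [Nat.add_sub_cancel]
      ring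
    rw [h7, abs_zero]
    positivity
  · -- outside
    rw [not_lt] at hlt
    have hdw : (dg H w : ℝ) ≤ d := by exact_mod_cast hd w
    have hdw0 : (0 : ℝ) ≤ dg H w := Nat.cast_nonneg _
    have hd0 : (0 : ℝ) ≤ d := Nat.cast_nonneg _
    have ht2 : t ^ 2 ≤ 1 := pow_le_one₀ ht ht1
    have ht20 : 0 ≤ t ^ 2 := by positivity
    have h1 := kern_nonneg (H := H) (L := L) ht u w
    have h2 := kern_le (H := H) (L := L) ht ht1 hlt
    have h3 : 0 ≤ kern H L t u w * (1 - t ^ 2 + t ^ 2 * dg H w) :=
      mul_nonneg h1 (by nlinarith)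
    have h4 : kern H L t u w * (1 - t ^ 2 + t ^ 2 * dg H w) ≤ (1 + d) * t ^ L := by
      rw [mul_comm]
      refine mul_le_mul ?_ h2 h1 (by positivity)
      nlinarith
    have h5 : 0 ≤ t * ∑ v ∈ univ.filter (fun v => H.Adj w v), kern H L t u v :=
      mul_nonneg ht (sum_nonneg (fun v _ => kern_nonneg ht u v))
    have h6 : t * ∑ v ∈ univ.filter (fun v => H.Adj w v), kern H L t u v ≤
        (1 + d) * t ^ L := by
      have h7 : ∑ v ∈ univ.filter (fun v => H.Adj w v), kern H L t u v ≤
          dg H w * t ^ (L - 1) := by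
        refine (sum_le_card_nsmul _ _ (t ^ (L - 1)) (fun v hv => ?_)).trans ?_
        · rw [mem_filter] at hv
          refine kern_le ht ht1 ?_
          have h8 : H.edist u w ≤ H.edist u v + 1 := by
            refine (H.edist_triangle (v := v)).trans ?_
            rw [SimpleGraph.edist_eq_one_iff_adj.2 hv.2.symm]
          by_cases htop : H.edist u v = ⊤
          · rw [htop]; exact le_top
          · obtain ⟨a, ha⟩ := ENat.ne_top_iff_exists.1 htop
            rw [← ha] at h8 ⊢
            have h9 := hlt.trans h8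
            norm_cast at h9 ⊢
            omega
        · rw [nsmul_eq_mul]
          exact le_refl _
      calc t * ∑ v ∈ univ.filter (fun v => H.Adj w v), kern H L t u v
          ≤ t * (dg H w * t ^ (L - 1)) := mul_le_mul_of_nonneg_left h7 ht
        _ = dg H w * t ^ L := by
            obtain ⟨a, rfl⟩ : ∃ a, L = a + 1 := ⟨L - 1, by omega⟩
            rw [Nat.add_sub_cancel]
            ring
        _ ≤ _ := mul_le_mul_of_nonneg_right (by linarith) (by positivity)
    rw [abs_le]
    constructor <;> linarith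

/-- The kernel is positive semidefinite on small graphs without short cycles. -/
theorem kern_posSemidef (hL : 1 ≤ L) (hH : NB H (2 * L)) {d : ℕ} (hd : ∀ v, dg H v ≤ d)
    {ρ : ℝ} (hρ : 0 ≤ ρ) (hρ1 : ρ < 1)
    (hcard : (Fintype.card V : ℝ) * ((1 + d) * ρ ^ L) < 1 - ρ ^ 2) :
    (Matrix.of (kern H L ρ)).PosSemidef := by
  refine posSemidef_of_path (f := fun t => Matrix.of (kern H L t)) hρ ?_ ?_ ?_ ?_
  · intro u v
    simp only [Matrix.of_apply]
    unfold kern
    split_ifs
    · exact continuous_pow _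
    · exact continuous_const
  · intro t
    ext u v
    simp only [Matrix.conjTranspose_apply, Matrix.of_apply, star_trivial]
    exact kern_comm v u
  · ext u v
    simp only [Matrix.of_apply, Matrix.one_apply]
    split_ifs with h
    · rw [h, kern_self]
    · exact kern_zero u v h
  · intro t ht htρ
    have h1 : (Matrix.of (kern H L t) * Mat H t).det ≠ 0 := by
      refine det_ne_zero_of_sum_row_lt_diag (fun u => ?_)
      have ht1 : t ≤ 1 := htρ.trans hρ1.le
      have h2 : ∑ w ∈ univ.erase u, ‖(Matrix.of (kern H L t) * Mat H t) u w‖ ≤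
          Fintype.card V * ((1 + d) * ρ ^ L) := by
        refine (sum_le_card_nsmul _ _ ((1 + d) * ρ ^ L) (fun w hw => ?_)).trans ?_
        · rw [Real.norm_eq_abs]
          refine (kern_mul_off hL hH hd ht ht1 (ne_of_mem_erase hw).symm).trans ?_
          exact mul_le_mul_of_nonneg_left (pow_le_pow_left₀ ht htρ _) (by positivity)
        · rw [nsmul_eq_mul]
          refine mul_le_mul_of_nonneg_right ?_ (by positivity)
          exact_mod_cast (card_le_univ _)
      rw [kern_mul_self hL, Real.norm_eq_abs, abs_of_nonneg (by nlinarith)]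
      calc _ ≤ _ := h2
        _ < 1 - ρ ^ 2 := hcard
        _ ≤ 1 - t ^ 2 := by
            have : t ^ 2 ≤ ρ ^ 2 := pow_le_pow_left₀ ht htρ 2
            linarith
    intro h2
    apply h1
    rw [Matrix.det_mul, h2, zero_mul]

end

end Pool.Agent.Lib.MP_8d8c46_lc.SA
end

section

/-!
The kernel is positive semidefinite on small sets of vertices of a large graph without short
cycles.
-/

set_option autoImplicit false
set_option linter.unusedSectionVars false

open Finset
open scoped Classical

namespace Pool.Agent.Lib.MP_8d8c46_lc.SA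

variable {V : Type*} [Fintype V] {H : SimpleGraph V} {L : ℕ}

lemma edist_le_edist_induce (W : Set V) (u v : W) :
    H.edist u v ≤ (H.induce W).edist u v := by
  by_cases hr : (H.induce W).Reachable u v
  · obtain ⟨p, hp⟩ := hr.exists_walk_length_eq_edist
    rw [← hp, ← SimpleGraph.Walk.length_map (SimpleGraph.Embedding.induce W).toHom]
    apply SimpleGraph.edist_le
  · rw [SimpleGraph.edist_eq_top_of_not_reachable hr]
    exact le_top

lemma NB.induce {M : ℕ} (hH : NB H M) (W : Set V) : NB (H.induce W) M := by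
  intro m x h1 h2 h3 h4
  obtain ⟨i, h5, h6⟩ := hH m (fun i => (x i : V)) h1 h2 (fun i hi => h3 i hi)
    (congrArg Subtype.val h4)
  exact ⟨i, h5, Subtype.ext h6⟩

/-- the vertices of the chosen short geodesic from `u` to `v` -/
noncomputable def geo (H : SimpleGraph V) (L : ℕ) (q : V × V) : Finset V :=
  if h : H.edist q.1 q.2 ≤ L then
    (SimpleGraph.Reachable.exists_walk_length_eq_edist
      (SimpleGraph.edist_ne_top_iff_reachable.1
        (ne_top_of_le_ne_top (ENat.natCast_ne_top L) h))).choose.support.toFinset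
  else ∅

lemma geo_spec {u v : V} (h : H.edist u v ≤ L) :
    ∃ p : H.Walk u v, (p.length : ℕ∞) = H.edist u v ∧ ∀ z ∈ p.support, z ∈ geo H L (u, v) := by
  refine ⟨(SimpleGraph.Reachable.exists_walk_length_eq_edist
      (SimpleGraph.edist_ne_top_iff_reachable.1
        (ne_top_of_le_ne_top (ENat.natCast_ne_top L) h))).choose, ?_, ?_⟩
  · exact (SimpleGraph.Reachable.exists_walk_length_eq_edist
      (SimpleGraph.edist_ne_top_iff_reachable.1
        (ne_top_of_le_ne_top (ENat.natCast_ne_top L) h))).choose_spec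
  · intro z hz
    unfold geo
    rw [dif_pos h, List.mem_toFinset]
    exact hz

lemma geo_card (q : V × V) : (geo H L q).card ≤ L + 1 := by
  unfold geo
  split_ifs with h
  · refine (List.toFinset_card_le _).trans ?_
    rw [SimpleGraph.Walk.length_support]
    have h1 := (SimpleGraph.Reachable.exists_walk_length_eq_edist
      (SimpleGraph.edist_ne_top_iff_reachable.1
        (ne_top_of_le_ne_top (ENat.natCast_ne_top L) h))).choose_spec
    rw [← h1] at h
    have : (SimpleGraph.Reachable.exists_walk_length_eq_edist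
      (SimpleGraph.edist_ne_top_iff_reachable.1
        (ne_top_of_le_ne_top (ENat.natCast_ne_top L) (h1 ▸ h)))).choose.length ≤ L := by
      exact_mod_cast h
    omega
  · simp

/-- The kernel is positive semidefinite on small sets. -/
theorem kern_local (hL : 1 ≤ L) (hH : NB H (2 * L)) {d : ℕ} (hd : ∀ v, dg H v ≤ d)
    {ρ : ℝ} (hρ : 0 ≤ ρ) (hρ1 : ρ < 1) {m : ℕ}
    (hm : ((m + m ^ 2 * (L + 1) : ℕ) : ℝ) * ((1 + d) * ρ ^ L) < 1 - ρ ^ 2)
    (A : Finset V) (hA : A.card ≤ m) :
    (Matrix.of fun u v : A => kern H L ρ (u : V) (v : V)).PosSemidef := by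
  obtain ⟨W, hW⟩ : ∃ W : Finset V, W = A ∪ (A ×ˢ A).biUnion (geo H L) := ⟨_, rfl⟩
  have hWc : W.card ≤ m + m ^ 2 * (L + 1) := by
    rw [hW]
    refine (card_union_le _ _).trans (Nat.add_le_add hA ?_)
    refine card_biUnion_le.trans ?_
    refine (sum_le_card_nsmul _ _ (L + 1) (fun q _ => geo_card q)).trans ?_
    rw [smul_eq_mul, card_product, pow_two]
    exact Nat.mul_le_mul_right _ (Nat.mul_le_mul hA hA)
  have hAW : ∀ u ∈ A, u ∈ (W : Set V) := by
    intro u hu
    rw [hW, mem_coe, mem_union]
    exact Or.inl hu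
  have hed : ∀ (u v : V) (hu : u ∈ A) (hv : v ∈ A), H.edist u v ≤ L →
      (H.induce (W : Set V)).edist ⟨u, hAW u hu⟩ ⟨v, hAW v hv⟩ = H.edist u v := by
    intro u v hu hv h
    refine le_antisymm ?_ (edist_le_edist_induce (W : Set V) ⟨u, hAW u hu⟩ ⟨v, hAW v hv⟩)
    obtain ⟨p, hp, hps⟩ := geo_spec h
    have h1 : ∀ z ∈ p.support, z ∈ (W : Set V) := by
      intro z hz
      rw [hW, mem_coe, mem_union]
      refine Or.inr (mem_biUnion.2 ⟨(u, v), mem_product.2 ⟨hu, hv⟩, hps z hz⟩)
    have h2 := SimpleGraph.edist_le (p.induce (W : Set V) h1)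
    have h3 : (p.induce (W : Set V) h1).length = p.length := by
      have h4 := congrArg SimpleGraph.Walk.length (p.map_induce h1)
      rwa [SimpleGraph.Walk.length_map] at h4
    rw [h3, hp] at h2
    exact h2
  have hkern : ∀ (u v : V) (hu : u ∈ A) (hv : v ∈ A),
      kern (H.induce (W : Set V)) L ρ ⟨u, hAW u hu⟩ ⟨v, hAW v hv⟩ = kern H L ρ u v := by
    intro u v hu hv
    unfold kern
    by_cases h : H.edist u v ≤ L
    · rw [hed u v hu hv h]
    · rw [if_neg h, if_neg]
      intro h'
      exact h ((edist_le_edist_induce (W : Set V) ⟨u, hAW u hu⟩ ⟨v, hAW v hv⟩).trans h')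
  have hmain : (Matrix.of (kern (H.induce (W : Set V)) L ρ)).PosSemidef := by
    refine kern_posSemidef hL (hH.induce _) (d := d) (fun v => ?_) hρ hρ1 ?_
    · refine le_trans ?_ (hd (v : V))
      unfold dg
      refine card_le_card_of_injOn (fun z : (W : Set V) => (z : V)) ?_ ?_
      · intro z hz
        simp only [coe_filter, mem_univ, true_and, Set.mem_ofPred_eq] at hz ⊢
        exact hz
      · intro a _ b _ hab
        exact Subtype.ext hab
    · refine lt_of_le_of_lt ?_ hm
      refine mul_le_mul_of_nonneg_right ?_ (by positivity)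
      have : Fintype.card (W : Set V) = W.card := by simp
      rw [this]
      exact_mod_cast hWc
  have h1 := hmain.submatrix (fun u : A => (⟨(u : V), hAW u u.2⟩ : (W : Set V)))
  have h2 : (Matrix.of fun u v : A => kern H L ρ (u : V) (v : V)) =
      (Matrix.of (kern (H.induce (W : Set V)) L ρ)).submatrix
        (fun u : A => (⟨(u : V), hAW u u.2⟩ : (W : Set V)))
        (fun u : A => (⟨(u : V), hAW u u.2⟩ : (W : Set V))) := by
    ext u v
    simp only [Matrix.of_apply, Matrix.submatrix_apply]
    exact (hkern u v u.2 v.2).symm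
  rw [h2]
  exact h1

end Pool.Agent.Lib.MP_8d8c46_lc.SA
end
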