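import Pool.Agent.Lib.MP_8d8c46_lc.Mg.G019
import Pool.Agent.Lib.MP_8d8c46_lc.Mg.G021
import Pool.Agent.Lib.MP_8d8c46_lc.Mg.G018
import Pool.Agent.Lib.MP_8d8c46_lc.LPDef
import Pool.Agent.Lib.MP_8d8c46_lc.EL.CVDef
import Pool.Agent.Lib.MP_8d8c46_lc.SA.Main

section

/-!
The exponential tail bound.
-/

set_option autoImplicit false
set_option linter.unusedSectionVars false

open scoped Classical
open Finset

namespace Pool.Agent.Lib.MP_8d8c46_lc.EL

/-- All parameters with their relations. -/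
structure Par (U A Γ : Type) [Fintype U] [Fintype A] [Fintype Γ] (near : U → U → Prop)
    (k K l i₀ D : ℕ) (s y M : ℝ) : Prop where
  hK : 1 ≤ K
  hsym : ∀ u v, near u v → near v u
  hball : ∀ u, (univ.filter (fun v => near u v)).card ≤ K
  hs : 1 ≤ s
  hsn : s ^ 2 = Fintype.card U
  hkl : k ≤ l
  hDk : D ≤ k
  hn : 2 * (D + l) ≤ Fintype.card U
  hD : D ≤ 2 ^ i₀
  hy0 : 0 < y
  hy : 6 * y ≤ 1
  hyc : (2 * (Fintype.card A : ℝ)) ^ 2 * ((4 * (Fintype.card Γ : ℝ)) ^ i₀ *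
      (4 * (Fintype.card A : ℝ)) ^ i₀ * (l * K * s * (4 / Fintype.card U))) ≤ y ^ 2
  hM1 : 1 ≤ M
  hM2 : M ≤ 2 ^ (2 ^ i₀)
  hfin : y ^ (2 * (k - D)) * (2 ^ D * (Fintype.card U * Fintype.card Γ) ^ D * M) ≤ 1

section
variable {U A Γ : Type} [Fintype U] [Fintype A] [Nonempty A] [Fintype Γ] [Nonempty Γ]
  {near : U → U → Prop} {k : ℕ} (P : PDist U A near k) (𝔞 : Act Γ A)
  {K l i₀ D : ℕ} {s y M : ℝ}

lemma Par.hU (h : Par U A Γ near k K l i₀ D s y M) : 0 < Fintype.card U := by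
  have h1 : (0 : ℝ) < Fintype.card U := by
    rw [← h.hsn]
    have := h.hs
    positivity
  exact_mod_cast h1

lemma Par.weak (h : Par U A Γ near k K l i₀ D s y M) :
    (2 * (Fintype.card A : ℝ)) ^ 2 * (l * K * s * (4 / Fintype.card U)) ≤ y ^ 2 := by
  refine le_trans ?_ h.hyc
  refine mul_le_mul_of_nonneg_left ?_ (by positivity)
  have h1 := card_A_pos (A := A)
  have h2 := card_A_pos (A := Γ)
  have h3 : (1 : ℝ) ≤ (4 * (Fintype.card Γ : ℝ)) ^ i₀ := one_le_pow₀ (by linarith)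
  have h4 : (1 : ℝ) ≤ (4 * (Fintype.card A : ℝ)) ^ i₀ := one_le_pow₀ (by linarith)
  have h5 : 0 ≤ (l : ℝ) * K * s * (4 / Fintype.card U) := by
    have := h.hs
    positivity
  refine le_mul_of_one_le_left h5 ?_
  nlinarith

/-- decomposition of the functional -/
lemma sum_low_split {I : Finset U} {k' : ℕ} (hk' : k' + I.card ≤ k)
    (g : (U → A) → ℝ) (φ : (U → A) → (U → A)) :
    ∑ T ∈ low U k, avg (fun x => dl P ∅ T (φ x) * g x) =
      ∑ T ∈ univ.filter (fun T : Finset U => Disjoint I T ∧ T.card ≤ k'),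
        avg (fun x => dl P I T (φ x) * g x) +
      ∑ T ∈ (low U k).filter (fun T => k' < (T \ I).card),
        avg (fun x => dl P ∅ T (φ x) * g x) := by
  have h1 : ∑ T ∈ (low U k).filter (fun T => ¬ k' < (T \ I).card),
        avg (fun x => dl P ∅ T (φ x) * g x) =
      ∑ T ∈ univ.filter (fun T : Finset U => Disjoint I T ∧ T.card ≤ k'),
        avg (fun x => dl P I T (φ x) * g x) := by
    have h2 : ∀ T ∈ univ.filter (fun T : Finset U => Disjoint I T ∧ T.card ≤ k'),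
        avg (fun x => dl P I T (φ x) * g x) =
          ∑ T₁ ∈ I.powerset, avg (fun x => dl P ∅ (T₁ ∪ T) (φ x) * g x) := by
      intro T hT
      rw [mem_filter] at hT
      rw [← avg_sum]
      congr 1; funext x
      rw [← sum_mul]
      congr 1
      have := sum_dl P I ∅ T hT.2.1 (φ x)
      rw [empty_union] at this
      exact this.symm
    rw [sum_congr rfl h2, ← sum_product']
    symm
    refine sum_bij (fun (q : Finset U × Finset U) _ => q.2 ∪ q.1) ?_ ?_ ?_ ?_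
    · rintro ⟨T, T₁⟩ hq
      rw [mem_product, mem_filter, mem_powerset] at hq
      obtain ⟨⟨_, hd, hc⟩, hT₁⟩ := hq
      simp only at hd hc hT₁
      rw [mem_filter, mem_low]
      have e1 : (T₁ ∪ T) \ I = T := by
        ext v
        simp only [mem_sdiff, mem_union]
        constructor
        · rintro ⟨h | h, h'⟩
          · exact absurd (hT₁ h) h'
          · exact h
        · intro h
          exact ⟨Or.inr h, fun h' => disjoint_left.1 hd h' h⟩
      simp only [e1]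
      refine ⟨?_, by omega⟩
      have := card_union_le T₁ T
      have := card_le_card hT₁
      omega
    · rintro ⟨T, T₁⟩ hq ⟨T', T₁'⟩ hq' heq
      rw [mem_product, mem_filter, mem_powerset] at hq hq'
      obtain ⟨⟨_, hd, _⟩, hT₁⟩ := hq
      obtain ⟨⟨_, hd', _⟩, hT₁'⟩ := hq'
      simp only at hd hd' hT₁ hT₁' heq
      have e1 : ∀ {T T₁ : Finset U}, Disjoint I T → T₁ ⊆ I → (T₁ ∪ T) \ I = T := by
        intro T T₁ hd hT₁
        ext v
        simp only [mem_sdiff, mem_union]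
        constructor
        · rintro ⟨h | h, h'⟩
          · exact absurd (hT₁ h) h'
          · exact h
        · intro h
          exact ⟨Or.inr h, fun h' => disjoint_left.1 hd h' h⟩
      have e2 : ∀ {T T₁ : Finset U}, Disjoint I T → T₁ ⊆ I → (T₁ ∪ T) ∩ I = T₁ := by
        intro T T₁ hd hT₁
        ext v
        simp only [mem_inter, mem_union]
        constructor
        · rintro ⟨h | h, h'⟩
          · exact h
          · exact absurd h (disjoint_left.1 hd h')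
        · intro h
          exact ⟨Or.inl h, hT₁ h⟩
      have a1 : T = T' := by rw [← e1 hd hT₁, heq, e1 hd' hT₁']
      have a2 : T₁ = T₁' := by rw [← e2 hd hT₁, heq, e2 hd' hT₁']
      rw [a1, a2]
    · intro T hT
      rw [mem_filter, mem_low] at hT
      refine ⟨(T \ I, T ∩ I), ?_, ?_⟩
      · rw [mem_product, mem_filter, mem_powerset]
        refine ⟨⟨mem_univ _, ?_, by simp only; omega⟩, inter_subset_right⟩
        exact disjoint_sdiff
      · ext v
        simp only [mem_union, mem_inter, mem_sdiff]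
        tauto
    · rintro ⟨T, T₁⟩ _
      rfl
  rw [← h1, add_comm, sum_filter_add_sum_filter_not]

/-- The exponential tail bound. -/
theorem tail_exp (h : Par U A Γ near k K l i₀ D s y M) {g : (U → A) → ℝ} (hg : ∀ x, 0 ≤ g x)
    (hg1 : avg g = 1) (hgM : ∀ x, g x ≤ M) {η₀ : ℝ} (hη₀ : 8 * y < η₀) :
    2 ^ D * ((univ.filter (fun ω : Equiv.Perm U × (U → Γ) =>
      Lw P 𝔞 ω.1 ω.2 g < -η₀)).card : ℝ) < Fintype.card (Equiv.Perm U × (U → Γ)) := by
  have hUn := h.hU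
  have hU0 : (0 : ℝ) < Fintype.card U := by exact_mod_cast hUn
  have hΓ := card_A_pos (A := Γ)
  by_contra hcon
  rw [not_lt] at hcon
  set 𝒜₀ := univ.filter (fun ω : Equiv.Perm U × (U → Γ) => Lw P 𝔞 ω.1 ω.2 g < -η₀) with h𝒜₀
  have hΩ0 : (0 : ℝ) < Fintype.card (Equiv.Perm U × (U → Γ)) := by
    exact_mod_cast Fintype.card_pos
  have hne : 𝒜₀.Nonempty := by
    rw [nonempty_iff_ne_empty]
    intro he
    rw [he, card_empty, Nat.cast_zero, mul_zero] at hcon
    linarith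
  obtain ⟨𝒜, I, τ₀, b, hsub, hpre, hID, hΩ, hspr, hN⟩ := exists_spread (D := D) (l := l) h.hn hUn
    hne hcon
  set Z := ∑ τ, zz 𝒜 I b τ with hZ
  set κ := kap I b with hκ
  set κZ := κ * Z with hκZ
  have hκ0 : 0 < κ := kap_pos
  have hC : (0 : ℝ) < Fintype.card (U → Γ) := by exact_mod_cast Fintype.card_pos
  have hcardA : (Fintype.card (U → Γ) : ℝ) * κZ = 𝒜.card := by
    rw [hκZ, ← mul_assoc]; exact sum_zz_univ hpre
  have hApos : (0 : ℝ) < 𝒜.card := by
    by_contra hc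
    have : (𝒜.card : ℝ) = 0 := le_antisymm (not_lt.1 hc) (Nat.cast_nonneg _)
    rw [this, mul_zero] at hΩ
    linarith
  have hκZ0 : 0 < κZ := by
    by_contra hc
    have := mul_nonpos_of_nonneg_of_nonpos hC.le (not_lt.1 hc)
    linarith
  have hIn : ∑ τ, avg (In 𝒜 τ) = κZ := by
    rw [sum_congr rfl (fun τ _ => avg_In_one hpre τ), ← mul_sum]
  -- upper bound
  have hup : ∑ τ, avg (fun w => In 𝒜 τ w * Lw P 𝔞 τ w g) ≤ -η₀ * κZ := by
    rw [← hIn, mul_sum]
    refine sum_le_sum (fun τ _ => ?_)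
    rw [← avg_const_mul]
    refine avg_mono (fun w => ?_)
    unfold In
    split_ifs with hmem
    · have := (mem_filter.1 (hsub hmem)).2
      simp only at this
      linarith
    · simp
  -- decomposition
  set k' := k - D with hk'
  have hk'I : k' + I.card ≤ k := by have := h.hDk; omega
  set 𝒯2 := univ.filter (fun T : Finset U => Disjoint I T ∧ T.card ≤ k') with h𝒯2
  set ℛ := (low U k).filter (fun T => k' < (T \ I).card) with hℛ
  have hdec : ∀ τ : Equiv.Perm U, avg (fun w => In 𝒜 τ w * Lw P 𝔞 τ w g) =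
      avg (fun w => In 𝒜 τ w * ∑ T ∈ 𝒯2, avg (fun x => dl P I T (ax 𝔞 w (x ∘ τ)) * g x)) +
      avg (fun w => In 𝒜 τ w * ∑ T ∈ ℛ, avg (fun x => dl P ∅ T (ax 𝔞 w (x ∘ τ)) * g x)) := by
    intro τ
    rw [← avg_add]
    congr 1; funext w
    rw [← mul_add]
    congr 1
    exact sum_low_split P hk'I g (fun x => ax 𝔞 w (x ∘ τ))
  rw [sum_congr rfl (fun τ _ => hdec τ), sum_add_distrib] at hup
  have hmain := main_lower P 𝔞 (k' := k') (i₀ := i₀) h.hK h.hsym h.hball h.hs h.hsn hk'I h.hkl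
    hpre (hN.trans (mul_le_mul_of_nonneg_right
      (pow_le_pow_right₀ (by norm_num) h.hD) (sum_nonneg (fun τ _ => zz_nonneg τ))))
    (spread_zz hpre (by positivity) hspr) h.hy0.le h.hy h.hyc hg hgM h.hM2
  have hy2 : y ≤ 1 / 2 := by have := h.hy; linarith
  have hhigh := high_bound P 𝔞 h.hK h.hsym h.hball h.hs h.hsn (by have := h.hn; omega) h.hkl
    h.hy0.le hy2 h.weak (fun τ w => In 𝒜 τ w) g ℛ (i₁ := k' + 1) (by
      intro T hT
      rw [hℛ, mem_filter, mem_low] at hT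
      have := card_le_card (sdiff_subset (s := T) (t := I))
      omega)
  have e1 : ∑ τ, avg (fun w => In 𝒜 τ w ^ 2) = κZ := by
    rw [← hIn]
    refine sum_congr rfl (fun τ _ => ?_)
    congr 1; funext w
    exact In_sq 𝒜 τ w
  rw [e1] at hhigh
  have hM1 := h.hM1
  have hg2 : avg (fun x => g x ^ 2) ≤ M := by
    calc avg (fun x => g x ^ 2) ≤ avg (fun x => M * g x) := avg_mono (fun x => by
          rw [sq]; exact mul_le_mul_of_nonneg_right (hgM x) (hg x))
      _ = M := by rw [avg_const_mul, hg1, mul_one]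
  have hg20 : 0 ≤ avg (fun x => g x ^ 2) := avg_nonneg (fun _ => sq_nonneg _)
  -- the size of `n!`
  set θ : ℝ := Fintype.card U * Fintype.card Γ with hθ
  have hθ1 : 1 ≤ θ := by
    rw [hθ]
    have : (1 : ℝ) ≤ Fintype.card U := by exact_mod_cast hUn
    nlinarith
  have hfac : ((Fintype.card U).factorial : ℝ) ≤ 2 ^ D * θ ^ D * κZ := by
    have h1 : (Fintype.card (Equiv.Perm U × (U → Γ)) : ℝ) =
        (Fintype.card U).factorial * Fintype.card (U → Γ) := by
      rw [Fintype.card_prod, Fintype.card_perm]; push_cast; rfl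
    rw [h1, ← hcardA] at hΩ
    have h2 : (Fintype.card U * Fintype.card Γ / 4 : ℝ) ^ I.card ≤ θ ^ D := by
      calc (Fintype.card U * Fintype.card Γ / 4 : ℝ) ^ I.card ≤ θ ^ I.card := by
            refine pow_le_pow_left₀ (by positivity) ?_ _
            rw [← hθ]; linarith
        _ ≤ θ ^ D := pow_le_pow_right₀ hθ1 hID
    refine le_of_mul_le_mul_right ?_ hC
    calc ((Fintype.card U).factorial : ℝ) * Fintype.card (U → Γ) ≤ _ := hΩ
      _ ≤ 2 ^ D * θ ^ D * (Fintype.card (U → Γ) * κZ) := by gcongr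
      _ = 2 ^ D * θ ^ D * κZ * Fintype.card (U → Γ) := by ring
  have hhigh2 : √κZ * √((Fintype.card U).factorial * avg (fun x => g x ^ 2)) *
      (2 * y ^ (k' + 1)) ≤ 2 * y * κZ := by
    have h1 : √κZ * √((Fintype.card U).factorial * avg (fun x => g x ^ 2)) * y ^ k' ≤ κZ := by
      have e2 : y ^ k' = √((y ^ k') ^ 2) := (Real.sqrt_sq (by have := h.hy0; positivity)).symm
      have e3 : κZ = √(κZ ^ 2) := (Real.sqrt_sq hκZ0.le).symm
      rw [e2, ← Real.sqrt_mul hκZ0.le, ← Real.sqrt_mul (by positivity)]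
      nth_rewrite 2 [e3]
      refine Real.sqrt_le_sqrt ?_
      have h2 := h.hfin
      rw [← hk', ← hθ] at h2
      have hyk : 0 ≤ (y ^ k') ^ 2 := sq_nonneg _
      calc κZ * ((Fintype.card U).factorial * avg (fun x => g x ^ 2)) * (y ^ k') ^ 2
          ≤ κZ * ((2 ^ D * θ ^ D * κZ) * M) * (y ^ k') ^ 2 := by gcongr
        _ = κZ ^ 2 * (y ^ (2 * k') * (2 ^ D * θ ^ D * M)) := by
            rw [mul_comm 2 k', pow_mul]; ring
        _ ≤ κZ ^ 2 * 1 := mul_le_mul_of_nonneg_left h2 (sq_nonneg _)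
        _ = κZ ^ 2 := mul_one _
    calc √κZ * √((Fintype.card U).factorial * avg (fun x => g x ^ 2)) * (2 * y ^ (k' + 1))
        = 2 * y * (√κZ * √((Fintype.card U).factorial * avg (fun x => g x ^ 2)) * y ^ k') := by
          rw [pow_succ]; ring
      _ ≤ 2 * y * κZ := mul_le_mul_of_nonneg_left h1 (by have := h.hy0; positivity)
  have h3 := (abs_le.1 (hhigh.trans hhigh2)).1
  have h4 : -(6 * y) * κZ + -(2 * y * κZ) ≤ -η₀ * κZ := by
    rw [← hκZ] at hmain
    linarith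
  have h5 : η₀ * κZ ≤ 8 * y * κZ := by linarith
  have h6 := le_of_mul_le_mul_right h5 hκZ0
  linarith

/-- The mean absolute value of the functional on small functions. -/
theorem l1_bound (h : Par U A Γ near k K l i₀ D s y M) {q : (U → A) → ℝ} (hq : ∀ x, 0 ≤ q x)
    (hq1 : ∀ x, q x ≤ 1) :
    ∑ ω : Equiv.Perm U × (U → Γ), |Lw P 𝔞 ω.1 ω.2 q| ≤
      Fintype.card (Equiv.Perm U × (U → Γ)) * (2 * √(avg q)) := by
  have hUn := h.hU
  set a := avg q with ha
  have ha0 : 0 ≤ a := avg_nonneg hq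
  have ha1 : a ≤ 1 := by
    calc a ≤ avg (fun _ : U → A => (1 : ℝ)) := avg_mono hq1
      _ = 1 := avg_const 1
  have hy2 : y ≤ 1 / 2 := by have := h.hy; linarith
  have hC : (0 : ℝ) < Fintype.card (U → Γ) := by exact_mod_cast Fintype.card_pos
  -- the constant term
  have hemp : (∅ : Finset U) ∈ low U k := by rw [mem_low, card_empty]; exact Nat.zero_le _
  have hL : ∀ τ w, Lw P 𝔞 τ w q - a =
      ∑ T ∈ (low U k).erase ∅, avg (fun x => dl P ∅ T (ax 𝔞 w (x ∘ τ)) * q x) := by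
    intro τ w
    unfold Lw
    rw [← add_sum_erase _ _ hemp]
    have : (fun x => dl P ∅ ∅ (ax 𝔞 w (x ∘ τ)) * q x) = q := by
      funext x
      rw [dl_empty_right, P.empty, one_mul]
    rw [this]
    ring
  set F : Equiv.Perm U → (U → Γ) → ℝ := fun τ w => if 0 ≤ Lw P 𝔞 τ w q - a then 1 else -1 with hF
  have hFabs : ∀ τ w, F τ w * (Lw P 𝔞 τ w q - a) = |Lw P 𝔞 τ w q - a| := by
    intro τ w
    rw [hF]
    simp only
    split_ifs with h0
    · rw [one_mul, abs_of_nonneg h0]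
    · rw [abs_of_neg (not_le.1 h0)]; ring
  have hF2 : ∀ τ w, F τ w ^ 2 = 1 := by
    intro τ w
    rw [hF]
    simp only
    split_ifs <;> norm_num
  have hhigh := high_bound P 𝔞 h.hK h.hsym h.hball h.hs h.hsn (by have := h.hn; omega) h.hkl
    h.hy0.le hy2 h.weak F q ((low U k).erase ∅) (i₁ := 1) (by
      intro T hT
      rw [mem_erase, mem_low] at hT
      exact ⟨card_pos.2 (nonempty_iff_ne_empty.2 hT.1), hT.2⟩)
  have e1 : ∑ τ, avg (fun w => F τ w * ∑ T ∈ (low U k).erase ∅,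
      avg (fun x => dl P ∅ T (ax 𝔞 w (x ∘ τ)) * q x)) =
      ∑ τ, avg (fun w => |Lw P 𝔞 τ w q - a|) := by
    refine sum_congr rfl (fun τ _ => ?_)
    congr 1; funext w
    rw [← hL, hFabs]
  have e2 : ∑ τ : Equiv.Perm U, avg (fun w => F τ w ^ 2) = (Fintype.card U).factorial := by
    simp only [hF2]
    rw [sum_congr rfl (fun τ _ => avg_const 1), sum_const, card_univ, Fintype.card_perm,
      nsmul_eq_mul, mul_one]
  rw [e1, e2, pow_one] at hhigh
  have hq2 : avg (fun x => q x ^ 2) ≤ a := avg_mono (fun x => by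
    have h1 := hq x
    have h2 := hq1 x
    nlinarith)
  have hf0 : (0 : ℝ) ≤ (Fintype.card U).factorial := Nat.cast_nonneg _
  have h1 : ∑ τ, avg (fun w => |Lw P 𝔞 τ w q - a|) ≤ (Fintype.card U).factorial * √a := by
    refine (le_abs_self _).trans (hhigh.trans ?_)
    have h2 : √((Fintype.card U).factorial : ℝ) *
        √((Fintype.card U).factorial * avg (fun x => q x ^ 2)) ≤
        (Fintype.card U).factorial * √a := by
      have h3 : √((Fintype.card U).factorial * avg (fun x => q x ^ 2)) ≤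
          √((Fintype.card U).factorial : ℝ) * √a := by
        rw [← Real.sqrt_mul hf0]
        exact Real.sqrt_le_sqrt (mul_le_mul_of_nonneg_left hq2 hf0)
      calc _ ≤ √((Fintype.card U).factorial : ℝ) * (√((Fintype.card U).factorial : ℝ) * √a) :=
            mul_le_mul_of_nonneg_left h3 (Real.sqrt_nonneg _)
        _ = (√((Fintype.card U).factorial : ℝ) * √((Fintype.card U).factorial : ℝ)) * √a := by ring
        _ = _ := by rw [Real.mul_self_sqrt hf0]
    have h4 : 2 * y ≤ 1 := by linarith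
    have h5 : 0 ≤ (Fintype.card U).factorial * √a := mul_nonneg hf0 (Real.sqrt_nonneg _)
    calc _ ≤ ((Fintype.card U).factorial * √a) * (2 * y) :=
          mul_le_mul_of_nonneg_right h2 (by have := h.hy0; positivity)
      _ ≤ ((Fintype.card U).factorial * √a) * 1 := mul_le_mul_of_nonneg_left h4 h5
      _ = _ := mul_one _
  have h2 : ∑ ω : Equiv.Perm U × (U → Γ), |Lw P 𝔞 ω.1 ω.2 q - a| ≤
      Fintype.card (Equiv.Perm U × (U → Γ)) * √a := by
    rw [Fintype.sum_prod_type]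
    have h3 : ∀ τ : Equiv.Perm U, ∑ w : U → Γ, |Lw P 𝔞 τ w q - a| =
        Fintype.card (U → Γ) * avg (fun w => |Lw P 𝔞 τ w q - a|) := fun τ =>
      (card_mul_avg _).symm
    simp only [h3]
    rw [← mul_sum, Fintype.card_prod, Fintype.card_perm]
    push_cast
    calc (Fintype.card (U → Γ) : ℝ) * ∑ τ, avg (fun w => |Lw P 𝔞 τ w q - a|)
        ≤ (Fintype.card (U → Γ) : ℝ) * ((Fintype.card U).factorial * √a) :=
          mul_le_mul_of_nonneg_left h1 hC.le
      _ = _ := by ring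
  have h3 : ∀ ω : Equiv.Perm U × (U → Γ), |Lw P 𝔞 ω.1 ω.2 q| ≤ |Lw P 𝔞 ω.1 ω.2 q - a| + a := by
    intro ω
    have := abs_add_le (Lw P 𝔞 ω.1 ω.2 q - a) a
    rw [sub_add_cancel, abs_of_nonneg ha0] at this
    exact this
  have h4 : a ≤ √a := by
    apply Real.le_sqrt_of_sq_le
    nlinarith
  have hΩ0 : (0 : ℝ) ≤ Fintype.card (Equiv.Perm U × (U → Γ)) := Nat.cast_nonneg _
  calc ∑ ω : Equiv.Perm U × (U → Γ), |Lw P 𝔞 ω.1 ω.2 q|
      ≤ ∑ ω : Equiv.Perm U × (U → Γ), (|Lw P 𝔞 ω.1 ω.2 q - a| + a) :=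
        sum_le_sum (fun ω _ => h3 ω)
    _ = ∑ ω : Equiv.Perm U × (U → Γ), |Lw P 𝔞 ω.1 ω.2 q - a| +
        Fintype.card (Equiv.Perm U × (U → Γ)) * a := by
        rw [sum_add_distrib, sum_const, card_univ, nsmul_eq_mul]
    _ ≤ Fintype.card (Equiv.Perm U × (U → Γ)) * √a +
        Fintype.card (Equiv.Perm U × (U → Γ)) * √a :=
        add_le_add h2 (mul_le_mul_of_nonneg_left h4 hΩ0)
    _ = _ := by ring

end

end Pool.Agent.Lib.MP_8d8c46_lc.EL
end

section

/-!
# CV1: the second moment of the functional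

Write `n! = (card U).factorial` and `C = card (U → Γ)`; `Fintype.card (Equiv.Perm U × (U → Γ)) = n! * C`.
PROOF (copy the pattern of `l1_bound` in `EL/Core6.lean`, which proves an `L¹` bound in the same
way; see it for the Lean code of each step).
Let `a = avg q`, `G τ w = Lw P 𝔞 τ w q - a`. As in `l1_bound` (step `hL`),
`G τ w = ∑ T ∈ (low U k).erase ∅, avg (fun x => dl P ∅ T (ax 𝔞 w (x ∘ τ)) * q x)`.
Apply `high_bound P 𝔞 h.hK h.hsym h.hball h.hs h.hsn (by have := h.hn; omega) h.hkl h.hy0.le hy2 h.weak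
F q ((low U k).erase ∅) (i₁ := 1) ...` (exactly as in `l1_bound`) with `F := G`:
with `S := ∑ τ, avg (fun w => G τ w ^ 2)` and `b := n! * avg (fun x => q x ^ 2)` it gives
`|S| ≤ √S * √b * (2 * y ^ 1)`, and `2 y ≤ 1` (`h.hy : 6 * y ≤ 1`), so `S ≤ √S * √b`, hence `S ≤ b`
(if `S = 0` trivial as `0 ≤ b`; otherwise divide by `√S > 0`: `√S ≤ √b`).
Finally `(Lw P 𝔞 τ w q) ^ 2 ≤ 2 * G τ w ^ 2 + 2 * a ^ 2`, and `a ^ 2 ≤ avg (fun x => q x ^ 2)`
(Cauchy–Schwarz / Jensen: `avg (fun x => (q x - a) ^ 2) = avg q² - a² ≥ 0`). Sum over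
`ω = (τ, w)`: `∑ ω, G ω ^ 2 = C * S` (`Fintype.sum_prod_type`, `card_mul_avg`), so the total is
`≤ 2 * C * S + 2 * n! * C * a ^ 2 ≤ 4 * n! * C * avg q²`.
-/

set_option autoImplicit false
set_option linter.unusedSectionVars false

open scoped Classical
open Finset

namespace Pool.Agent.Lib.MP_8d8c46_lc.EL

section
variable {U A Γ : Type} [Fintype U] [Fintype A] [Nonempty A] [Fintype Γ] [Nonempty Γ]
  {near : U → U → Prop} {k : ℕ} (P : PDist U A near k) (𝔞 : Act Γ A)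
  {K l i₀ D : ℕ} {s y M : ℝ}

/-- The second moment of the functional. -/
theorem l2_bound (h : Par U A Γ near k K l i₀ D s y M) (q : (U → A) → ℝ) :
    ∑ ω : Equiv.Perm U × (U → Γ), (Lw P 𝔞 ω.1 ω.2 q) ^ 2 ≤
      Fintype.card (Equiv.Perm U × (U → Γ)) * (4 * avg (fun x => q x ^ 2)) := by
  have hUn := h.hU
  set a := avg q with ha
  have hy2 : y ≤ 1 / 2 := by have := h.hy; linarith
  have hC : (0 : ℝ) < Fintype.card (U → Γ) := by exact_mod_cast Fintype.card_pos
  have hf0 : (0 : ℝ) ≤ (Fintype.card U).factorial := Nat.cast_nonneg _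
  -- the constant term
  have hemp : (∅ : Finset U) ∈ low U k := by rw [mem_low, card_empty]; exact Nat.zero_le _
  have hL : ∀ τ w, Lw P 𝔞 τ w q - a =
      ∑ T ∈ (low U k).erase ∅, avg (fun x => dl P ∅ T (ax 𝔞 w (x ∘ τ)) * q x) := by
    intro τ w
    unfold Lw
    rw [← add_sum_erase _ _ hemp]
    have : (fun x => dl P ∅ ∅ (ax 𝔞 w (x ∘ τ)) * q x) = q := by
      funext x
      rw [dl_empty_right, P.empty, one_mul]
    rw [this]
    ring
  set F : Equiv.Perm U → (U → Γ) → ℝ := fun τ w => Lw P 𝔞 τ w q - a with hF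
  have hhigh := high_bound P 𝔞 h.hK h.hsym h.hball h.hs h.hsn (by have := h.hn; omega) h.hkl
    h.hy0.le hy2 h.weak F q ((low U k).erase ∅) (i₁ := 1) (by
      intro T hT
      rw [mem_erase, mem_low] at hT
      exact ⟨card_pos.2 (nonempty_iff_ne_empty.2 hT.1), hT.2⟩)
  have e1 : ∑ τ, avg (fun w => F τ w * ∑ T ∈ (low U k).erase ∅,
      avg (fun x => dl P ∅ T (ax 𝔞 w (x ∘ τ)) * q x)) =
      ∑ τ, avg (fun w => F τ w ^ 2) := by
    refine sum_congr rfl (fun τ _ => ?_)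
    congr 1; funext w
    rw [← hL, sq]
  rw [e1, pow_one] at hhigh
  set S : ℝ := ∑ τ, avg (fun w => F τ w ^ 2) with hS
  have hS0 : 0 ≤ S := sum_nonneg (fun τ _ => avg_nonneg (fun _ => sq_nonneg _))
  have hq20 : 0 ≤ avg (fun x => q x ^ 2) := avg_nonneg (fun _ => sq_nonneg _)
  have hb0 : 0 ≤ (Fintype.card U).factorial * avg (fun x => q x ^ 2) := mul_nonneg hf0 hq20
  have hSb : S ≤ (Fintype.card U).factorial * avg (fun x => q x ^ 2) := by
    have h1 : S ≤ √S * √((Fintype.card U).factorial * avg (fun x => q x ^ 2)) := by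
      refine (le_abs_self _).trans (hhigh.trans ?_)
      have h4 : 2 * y ≤ 1 := by linarith
      calc _ ≤ √S * √((Fintype.card U).factorial * avg (fun x => q x ^ 2)) * 1 :=
            mul_le_mul_of_nonneg_left h4 (by positivity)
        _ = _ := mul_one _
    rcases hS0.eq_or_lt with h2 | h2
    · rw [← h2]; exact hb0
    · have h3 : 0 < √S := Real.sqrt_pos.2 h2
      have h5 : √S * √S ≤ √S * √((Fintype.card U).factorial * avg (fun x => q x ^ 2)) := by
        rw [Real.mul_self_sqrt hS0]; exact h1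
      have h6 := le_of_mul_le_mul_left h5 h3
      exact (Real.sqrt_le_sqrt_iff hb0).1 h6
  have ha2 : a ^ 2 ≤ avg (fun x => q x ^ 2) := by
    have h1 : 0 ≤ avg (fun x => (q x - a) ^ 2) := avg_nonneg (fun _ => sq_nonneg _)
    have h2 : (fun x => (q x - a) ^ 2) = fun x => (q x ^ 2 - (2 * a) * q x) + a ^ 2 := by
      funext x; ring
    rw [h2, avg_add, avg_sub, avg_const_mul, avg_const, ← ha] at h1
    nlinarith
  have h2 : ∑ ω : Equiv.Perm U × (U → Γ), F ω.1 ω.2 ^ 2 =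
      Fintype.card (U → Γ) * S := by
    rw [Fintype.sum_prod_type]
    have h3 : ∀ τ : Equiv.Perm U, ∑ w : U → Γ, F τ w ^ 2 =
        Fintype.card (U → Γ) * avg (fun w => F τ w ^ 2) := fun τ =>
      (card_mul_avg _).symm
    simp only [h3]
    rw [← mul_sum]
  have h3 : ∀ ω : Equiv.Perm U × (U → Γ), (Lw P 𝔞 ω.1 ω.2 q) ^ 2 ≤
      2 * F ω.1 ω.2 ^ 2 + 2 * a ^ 2 := by
    intro ω
    have h4 : Lw P 𝔞 ω.1 ω.2 q = F ω.1 ω.2 + a := by rw [hF]; ring
    rw [h4]
    nlinarith [sq_nonneg (F ω.1 ω.2 - a)]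
  have hcard : (Fintype.card (Equiv.Perm U × (U → Γ)) : ℝ) =
      (Fintype.card U).factorial * Fintype.card (U → Γ) := by
    rw [Fintype.card_prod, Fintype.card_perm]; push_cast; rfl
  have hn0 : (0 : ℝ) ≤ (Fintype.card U).factorial * Fintype.card (U → Γ) := mul_nonneg hf0 hC.le
  calc ∑ ω : Equiv.Perm U × (U → Γ), (Lw P 𝔞 ω.1 ω.2 q) ^ 2
      ≤ ∑ ω : Equiv.Perm U × (U → Γ), (2 * F ω.1 ω.2 ^ 2 + 2 * a ^ 2) :=
        sum_le_sum (fun ω _ => h3 ω)
    _ = 2 * (Fintype.card (U → Γ) * S) +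
        Fintype.card (Equiv.Perm U × (U → Γ)) * (2 * a ^ 2) := by
        rw [sum_add_distrib, sum_const, card_univ, nsmul_eq_mul, ← mul_sum, h2]
    _ ≤ 2 * (Fintype.card (U → Γ) * ((Fintype.card U).factorial * avg (fun x => q x ^ 2))) +
        Fintype.card (Equiv.Perm U × (U → Γ)) * (2 * avg (fun x => q x ^ 2)) := by
        refine add_le_add ?_ ?_
        · exact mul_le_mul_of_nonneg_left (mul_le_mul_of_nonneg_left hSb hC.le) (by norm_num)
        · exact mul_le_mul_of_nonneg_left (by linarith) (Nat.cast_nonneg _)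
    _ = Fintype.card (Equiv.Perm U × (U → Γ)) * (4 * avg (fun x => q x ^ 2)) := by
        rw [hcard]; ring

end

end Pool.Agent.Lib.MP_8d8c46_lc.EL
end

section

/-!
The contradiction between a linear program of subexponential size and the relabelled
pseudo-distributions.
-/

set_option autoImplicit false
set_option linter.unusedSectionVars false

open scoped Classical
open Finset

namespace Pool.Agent.Lib.MP_8d8c46_lc.EL

section
variable {U A Γ : Type} [Fintype U] [Fintype A] [Nonempty A] [Fintype Γ] [Nonempty Γ]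
  {near : U → U → Prop} {k : ℕ} (P : PDist U A near k) (𝔞 : Act Γ A)
  {K l i₀ D : ℕ} {s y M : ℝ}

/-- the relabellings -/
abbrev Rel (U Γ : Type) := Equiv.Perm U × (U → Γ)

/-- The contradiction. -/
theorem contra (h : Par U A Γ near k K l i₀ D s y M) {R : ℕ} {ε : ℝ} (hε : 64 * y < ε)
    (hR : 4 * (R : ℝ) ≤ 2 ^ D) (hRM : 32 * (R : ℝ) ≤ ε * √M)
    (q : Fin R → (U → A) → ℝ) (hq : ∀ i x, 0 ≤ q i x)
    (v : Rel U Γ → (U → A) → ℝ) (hv : ∀ ω x, v ω x ≤ 1)
    (lam : Rel U Γ → Fin R → ℝ) (hlam : ∀ ω i, 0 ≤ lam ω i)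
    (mu : Rel U Γ → ℝ) (hmu : ∀ ω, 0 ≤ mu ω)
    (hF : ∀ ω x, v ω x - ε = mu ω + ∑ i, lam ω i * q i x)
    (hL : ∀ ω, Lw P 𝔞 ω.1 ω.2 (v ω) ≤ ε / 4) : False := by
  have hε0 : 0 < ε := by have := h.hy0; linarith
  have hM1 := h.hM1
  have hM0 : 0 < M := by linarith
  have hcard0 : (0 : ℝ) < Fintype.card (Rel U Γ) := by exact_mod_cast Fintype.card_pos
  set a : Fin R → ℝ := fun i => avg (q i) with ha
  have ha0 : ∀ i, 0 ≤ a i := fun i => avg_nonneg (hq i)
  set I := univ.filter (fun i : Fin R => 0 < a i ∧ ∀ x, q i x ≤ M * a i) with hI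
  set J := univ.filter (fun i : Fin R => 0 < a i ∧ ∃ x, M * a i < q i x) with hJ
  have hIR : (I.card : ℝ) ≤ R := by
    have : I.card ≤ R := by
      calc I.card ≤ (univ : Finset (Fin R)).card := card_filter_le _ _
        _ = R := by rw [card_univ, Fintype.card_fin]
    exact_mod_cast this
  have hJR : (J.card : ℝ) ≤ R := by
    have : J.card ≤ R := by
      calc J.card ≤ (univ : Finset (Fin R)).card := card_filter_le _ _
        _ = R := by rw [card_univ, Fintype.card_fin]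
    exact_mod_cast this
  -- the functions of small norm
  have hbad : ∀ i ∈ I, 2 ^ D * ((univ.filter (fun ω : Rel U Γ =>
      Lw P 𝔞 ω.1 ω.2 (fun x => (a i)⁻¹ * q i x) < -(ε / 8))).card : ℝ) ≤ Fintype.card (Rel U Γ) := by
    intro i hi
    rw [hI, mem_filter] at hi
    obtain ⟨_, hi1, hi2⟩ := hi
    refine (tail_exp P 𝔞 h (g := fun x => (a i)⁻¹ * q i x) ?_ ?_ ?_ (by linarith)).le
    · intro x; exact mul_nonneg (inv_pos.2 hi1).le (hq i x)
    · rw [avg_const_mul]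
      exact inv_mul_cancel₀ hi1.ne'
    · intro x
      rw [inv_mul_le_iff₀ hi1]
      calc q i x ≤ M * a i := hi2 x
        _ = a i * M := mul_comm _ _
  set B1 := I.biUnion (fun i => univ.filter (fun ω : Rel U Γ =>
      Lw P 𝔞 ω.1 ω.2 (fun x => (a i)⁻¹ * q i x) < -(ε / 8))) with hB1
  have hB1c : (B1.card : ℝ) ≤ Fintype.card (Rel U Γ) / 4 := by
    have h1 : (B1.card : ℝ) ≤ ∑ i ∈ I, ((univ.filter (fun ω : Rel U Γ =>
        Lw P 𝔞 ω.1 ω.2 (fun x => (a i)⁻¹ * q i x) < -(ε / 8))).card : ℝ) := by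
      exact_mod_cast card_biUnion_le
    have h2 : 2 ^ D * (B1.card : ℝ) ≤ R * Fintype.card (Rel U Γ) := by
      calc 2 ^ D * (B1.card : ℝ) ≤ 2 ^ D * ∑ i ∈ I, ((univ.filter (fun ω : Rel U Γ =>
            Lw P 𝔞 ω.1 ω.2 (fun x => (a i)⁻¹ * q i x) < -(ε / 8))).card : ℝ) :=
            mul_le_mul_of_nonneg_left h1 (by positivity)
        _ = ∑ i ∈ I, 2 ^ D * ((univ.filter (fun ω : Rel U Γ =>
            Lw P 𝔞 ω.1 ω.2 (fun x => (a i)⁻¹ * q i x) < -(ε / 8))).card : ℝ) := by rw [mul_sum]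
        _ ≤ ∑ i ∈ I, (Fintype.card (Rel U Γ) : ℝ) := sum_le_sum hbad
        _ = I.card * Fintype.card (Rel U Γ) := by rw [sum_const, nsmul_eq_mul]
        _ ≤ R * Fintype.card (Rel U Γ) := mul_le_mul_of_nonneg_right hIR hcard0.le
    have h3 : (R : ℝ) * Fintype.card (Rel U Γ) ≤ 2 ^ D * (Fintype.card (Rel U Γ) / 4) := by nlinarith
    exact le_of_mul_le_mul_left (h2.trans h3) (by positivity)
  -- the functions of large norm
  have hmax : ∀ i : Fin R, ∃ x, ∀ x', q i x' ≤ q i x := fun i => by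
    obtain ⟨x, _, hx⟩ := exists_max_image (univ : Finset (U → A)) (q i) univ_nonempty
    exact ⟨x, fun x' => hx x' (mem_univ _)⟩
  choose xm hxm using hmax
  set σ : Fin R → ℝ := fun i => q i (xm i) with hσ
  have hσ1 : ∀ i ∈ J, 0 < σ i ∧ a i / σ i ≤ 1 / M := by
    intro i hi
    rw [hJ, mem_filter] at hi
    obtain ⟨_, hi1, x, hx⟩ := hi
    have h1 : M * a i < σ i := hx.trans_le (hxm i x)
    have h2 : 0 < σ i := lt_trans (mul_pos hM0 hi1) h1
    refine ⟨h2, ?_⟩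
    rw [div_le_div_iff₀ h2 hM0]
    linarith
  set Q : Rel U Γ → ℝ := fun ω => ∑ i ∈ J, |Lw P 𝔞 ω.1 ω.2 (fun x => (σ i)⁻¹ * q i x)| with hQ
  have hsM : 0 < √M := Real.sqrt_pos.2 hM0
  have hQsum : ∑ ω, Q ω ≤ R * (Fintype.card (Rel U Γ) * (2 / √M)) := by
    rw [hQ, sum_comm]
    calc ∑ i ∈ J, ∑ ω : Rel U Γ, |Lw P 𝔞 ω.1 ω.2 (fun x => (σ i)⁻¹ * q i x)|
        ≤ ∑ i ∈ J, (Fintype.card (Rel U Γ) : ℝ) * (2 / √M) := by
          refine sum_le_sum (fun i hi => ?_)
          obtain ⟨h1, h2⟩ := hσ1 i hi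
          refine (l1_bound P 𝔞 h (q := fun x => (σ i)⁻¹ * q i x) ?_ ?_).trans ?_
          · intro x; exact mul_nonneg (inv_pos.2 h1).le (hq i x)
          · intro x
            rw [inv_mul_le_iff₀ h1, mul_one]
            exact hxm i x
          · refine mul_le_mul_of_nonneg_left ?_ hcard0.le
            have h3 : avg (fun x => (σ i)⁻¹ * q i x) = a i / σ i := by
              rw [avg_const_mul, ha]; ring
            rw [h3, div_eq_mul_inv 2]
            refine mul_le_mul_of_nonneg_left ?_ (by norm_num)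
            rw [← Real.sqrt_inv]
            refine Real.sqrt_le_sqrt ?_
            rw [← one_div]; exact h2
      _ = J.card * (Fintype.card (Rel U Γ) * (2 / √M)) := by rw [sum_const, nsmul_eq_mul]
      _ ≤ R * (Fintype.card (Rel U Γ) * (2 / √M)) := mul_le_mul_of_nonneg_right hJR (by positivity)
  have hQ0 : ∀ ω, 0 ≤ Q ω := fun ω => sum_nonneg (fun _ _ => abs_nonneg _)
  set B2 := univ.filter (fun ω : Rel U Γ => ε / 8 ≤ Q ω) with hB2
  have hB2c : (B2.card : ℝ) ≤ Fintype.card (Rel U Γ) / 2 := by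
    refine (markov hQ0 (by linarith : 0 < ε / 8)).trans ?_
    rw [div_le_iff₀ (by linarith)]
    refine hQsum.trans ?_
    have h1 : (R : ℝ) * (2 / √M) ≤ ε / 16 := by
      rw [← mul_div_assoc, div_le_iff₀ hsM]
      linarith
    calc (R : ℝ) * (Fintype.card (Rel U Γ) * (2 / √M)) = Fintype.card (Rel U Γ) * (R * (2 / √M)) := by ring
      _ ≤ Fintype.card (Rel U Γ) * (ε / 16) := mul_le_mul_of_nonneg_left h1 hcard0.le
      _ = _ := by ring
  -- a good relabelling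
  obtain ⟨ω, hω⟩ : ∃ ω : Rel U Γ, ω ∉ B1 ∪ B2 := by
    by_contra hcon
    push Not at hcon
    have h1 : (univ : Finset (Rel U Γ)).card ≤ (B1 ∪ B2).card := card_le_card (fun ω _ => hcon ω)
    have h2 := h1.trans (card_union_le _ _)
    have h3 : (Fintype.card (Rel U Γ) : ℝ) ≤ B1.card + B2.card := by
      rw [← card_univ]; exact_mod_cast h2
    linarith
  rw [mem_union, not_or] at hω
  obtain ⟨hω1, hω2⟩ := hω
  have hω1' : ∀ i ∈ I, -(ε / 8) ≤ Lw P 𝔞 ω.1 ω.2 (fun x => (a i)⁻¹ * q i x) := by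
    intro i hi
    by_contra hcon
    exact hω1 (mem_biUnion.2 ⟨i, hi, mem_filter.2 ⟨mem_univ _, not_le.1 hcon⟩⟩)
  have hω2' : Q ω < ε / 8 := by
    by_contra hcon
    exact hω2 (mem_filter.2 ⟨mem_univ _, not_lt.1 hcon⟩)
  -- constraints on the multipliers
  have hsum1 : ∀ x, ∑ i, lam ω i * q i x ≤ 1 := by
    intro x
    have h1 := hF ω x
    have h2 := hv ω x
    have h3 := hmu ω
    linarith
  have hsuma : ∑ i, lam ω i * a i ≤ 1 := by
    have h1 : avg (fun x => ∑ i, lam ω i * q i x) = ∑ i, lam ω i * a i := by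
      rw [avg_sum]
      exact sum_congr rfl (fun i _ => avg_const_mul _ _)
    rw [← h1]
    calc avg (fun x => ∑ i, lam ω i * q i x) ≤ avg (fun _ : U → A => (1 : ℝ)) :=
          avg_mono hsum1
      _ = 1 := avg_const _
  have hterm : ∀ i, -(ε / 8) * (lam ω i * a i) -
      (if i ∈ J then |Lw P 𝔞 ω.1 ω.2 (fun x => (σ i)⁻¹ * q i x)| else 0) ≤
      lam ω i * Lw P 𝔞 ω.1 ω.2 (q i) := by
    intro i
    have hli := hlam ω i
    by_cases hi : i ∈ I
    · have h1 := hω1' i hi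
      rw [Lw_const_mul] at h1
      rw [hI, mem_filter] at hi
      obtain ⟨_, hi1, hi3⟩ := hi
      have hiJ : i ∉ J := by
        rw [hJ, mem_filter]
        rintro ⟨_, _, x, hx⟩
        exact absurd (hi3 x) (not_le.2 hx)
      rw [if_neg hiJ, sub_zero]
      have h2 : -(ε / 8) * a i ≤ Lw P 𝔞 ω.1 ω.2 (q i) := by
        have h3 := mul_le_mul_of_nonneg_left h1 hi1.le
        have h4 : a i * ((a i)⁻¹ * Lw P 𝔞 ω.1 ω.2 (fun x => q i x)) = Lw P 𝔞 ω.1 ω.2 (q i) := by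
          rw [← mul_assoc, mul_inv_cancel₀ hi1.ne', one_mul]
        rw [h4] at h3
        linarith
      have h3 := mul_le_mul_of_nonneg_left h2 hli
      have h4 : lam ω i * (-(ε / 8) * a i) = -(ε / 8) * (lam ω i * a i) := by ring
      linarith
    · by_cases hai : 0 < a i
      · -- large norm
        have hiJ : i ∈ J := by
          rw [hJ, mem_filter]
          refine ⟨mem_univ _, hai, ?_⟩
          by_contra hcon
          push Not at hcon
          exact hi (mem_filter.2 ⟨mem_univ _, hai, hcon⟩)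
        rw [if_pos hiJ]
        obtain ⟨h1, _⟩ := hσ1 i hiJ
        have h2 : lam ω i * σ i ≤ 1 := by
          refine le_trans ?_ (hsum1 (xm i))
          exact single_le_sum (f := fun j => lam ω j * q j (xm i))
            (fun j _ => mul_nonneg (hlam ω j) (hq j (xm i))) (mem_univ i)
        have h3 : lam ω i * Lw P 𝔞 ω.1 ω.2 (q i) =
            (lam ω i * σ i) * Lw P 𝔞 ω.1 ω.2 (fun x => (σ i)⁻¹ * q i x) := by
          rw [Lw_const_mul]
          field_simp
        have h4 : -|Lw P 𝔞 ω.1 ω.2 (fun x => (σ i)⁻¹ * q i x)| ≤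
            (lam ω i * σ i) * Lw P 𝔞 ω.1 ω.2 (fun x => (σ i)⁻¹ * q i x) := by
          have h5 := neg_abs_le (Lw P 𝔞 ω.1 ω.2 (fun x => (σ i)⁻¹ * q i x))
          have h6 := abs_nonneg (Lw P 𝔞 ω.1 ω.2 (fun x => (σ i)⁻¹ * q i x))
          have h7 : 0 ≤ lam ω i * σ i := mul_nonneg hli h1.le
          nlinarith
        rw [h3]
        have h7 : 0 ≤ (ε / 8) * (lam ω i * a i) :=
          mul_nonneg (by linarith) (mul_nonneg hli hai.le)
        linarith
      · -- zero function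
        have hz : a i = 0 := le_antisymm (not_lt.1 hai) (ha0 i)
        have hzq : q i = fun _ => 0 := by
          have h1 : ∑ x, q i x = 0 := by
            rw [← card_mul_avg]
            have : avg (q i) = 0 := hz
            rw [this, mul_zero]
          funext x
          exact (sum_eq_zero_iff_of_nonneg (fun x _ => hq i x)).1 h1 x (mem_univ x)
        have h5 : Lw P 𝔞 ω.1 ω.2 (q i) = 0 := by
          have h6 : q i = fun x => (0 : ℝ) * q i x := by rw [hzq]; funext x; ring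
          rw [h6, Lw_const_mul, zero_mul]
        have hiJ : i ∉ J := by
          rw [hJ, mem_filter]
          rintro ⟨_, h1, _⟩
          exact hai h1
        rw [h5, hz, mul_zero, mul_zero, if_neg hiJ, sub_zero]
  have htot : -(ε / 8) - (ε / 8) ≤ ∑ i, lam ω i * Lw P 𝔞 ω.1 ω.2 (q i) := by
    calc -(ε / 8) - (ε / 8) ≤ -(ε / 8) * ∑ i, lam ω i * a i - Q ω := by
          have h2 : (ε / 8) * ∑ i, lam ω i * a i ≤ (ε / 8) * 1 :=
            mul_le_mul_of_nonneg_left hsuma (by linarith)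
          linarith
      _ = ∑ i : Fin R, (-(ε / 8) * (lam ω i * a i) -
          (if i ∈ J then |Lw P 𝔞 ω.1 ω.2 (fun x => (σ i)⁻¹ * q i x)| else 0)) := by
          rw [sum_sub_distrib, ← mul_sum, sum_ite_mem, univ_inter]
      _ ≤ _ := sum_le_sum (fun i _ => hterm i)
  -- evaluate both sides
  have hev : Lw P 𝔞 ω.1 ω.2 (v ω) = (mu ω + ε) + ∑ i, lam ω i * Lw P 𝔞 ω.1 ω.2 (q i) := by
    have h1 : v ω = fun x => (mu ω + ε) * 1 + ∑ i, lam ω i * q i x := by
      funext x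
      have := hF ω x
      linarith
    rw [h1, Lw_add, Lw_const_mul P 𝔞 ω.1 ω.2 (mu ω + ε) (fun _ => 1), Lw_one, mul_one, Lw_sum]
    congr 1
    exact sum_congr rfl (fun i _ => Lw_const_mul P 𝔞 ω.1 ω.2 _ _)
  have h1 := hL ω
  have h2 := hmu ω
  rw [hev] at h1
  linarith

end

end Pool.Agent.Lib.MP_8d8c46_lc.EL
end

section

/-!
# CV5: the contradiction for nonnegative functions from few spaces of small dimension

PROOF. (See `EL/Contra.lean`, theorem `contra`, for the Lean pattern.) `Ω := Rel U Γ`,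
`N := (Fintype.card Ω : ℝ) > 0`, `0 < ε` (from `h.hy0`, `hε`), `0 < M` (`h.hM1`). Put
`t := 8 * (R * m + 1) > 0` and `s := ε / (16 * (m + 1) * t) > 0`.
(1) COORDINATES. For each `i` let `e i : Fin m → (U → A) → ℝ` be from `exists_coords (E i) (hE i)`.
Put `T i ω := √(∑ j, (Lw P 𝔞 ω.1 ω.2 (e i j)) ^ 2)`. If `g = ∑ j, c j * e i j` then `Lw ω g = ∑ j, c j * Lw ω (e i j)`
(`Lw_sum`, `Lw_const_mul`), so by Cauchy–Schwarz (`Finset.sum_mul_sq_le_sq_mul_sq` or
`Finset.inner_mul_le_norm_mul_norm`) (A) `|Lw ω g| ≤ √(∑ c j ^ 2) * T i ω`, and for two coordinate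
vectors `|Lw ω g_c - Lw ω g_w| ≤ √(∑ (c j - w j) ^ 2) * T i ω`.
(2) MARKOV. `∑ ω, T i ω ≤ √(N * ∑ ω, T i ω ^ 2) = √(N * ∑ j, ∑ ω, (Lw ω (e i j)) ^ 2) ≤ √(N * (m * (N * 4))) =
2 √m N` (Cauchy–Schwarz, `l2_bound`, `avg (e i j ^ 2) ≤ 1`), and `√m ≤ m` for natural `m`, so
`∑ ω ∑ i, T i ω ≤ 2 R m N ≤ N * t / 4`. By `markov`, `B1 := {ω | t ≤ ∑ i, T i ω}` has at most `N / 4`
elements.
(3) NETS. Let `G i := {c : Fin m → ℝ | (∀ x, 0 ≤ ∑ j, c j * e i j x) ∧ (∀ x, ∑ j, c j * e i j x ≤ M) ∧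
avg (fun x => ∑ j, c j * e i j x) = 1 ∧ ∑ j, c j ^ 2 ≤ (√M) ^ 2}` and `W i` the net of `exists_net` with
`ρ = √M` and the above `s`; `hB` says `2 * √M / s < B` (`2 √M / s = 32 (m+1) t √M / ε
= 256 (m+1) (R m + 1) √M / ε`). For `w ∈ W i` the function
`∑ j, w j * e i j` is nonnegative with mean 1 and at most `M`, so `tail_exp P 𝔞 h ... (η₀ := ε / 8)`
(`8 y < ε / 8`) gives `2 ^ D * #{ω | Lw ω (…) < -(ε/8)} < N`. The union `B2` of these sets over `i` and
`w ∈ W i` has at most `R * B ^ m * N / 2 ^ D ≤ N / 4` elements (`hR`; `card_biUnion_le` twice).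
(4) Choose `ω ∉ B1 ∪ B2` (`N / 4 + N / 4 < N`). Write `g i` for `g ω i`, etc. By `hF`, `hmu`, `he`, `hv`:
`∑ i, g i x ≤ 1` for all `x`; so `∑ i, avg (g i) ≤ 1` and `g i x ≤ 1`. Let `a i = avg (g i) ≥ 0`.
CLAIM: `Lw ω (g i) ≥ -(3 ε / 16) * a i - T i ω / √M`. If `a i = 0` then `g i = 0` and `Lw ω (g i) = 0`.
 * If `a i > 0` and `g i x ≤ M * a i` for all `x`: `ĝ := (a i)⁻¹ * g i ∈ E i`; let `c` be its coordinates:
   `∑ c j ^ 2 = avg (ĝ ^ 2) ≤ M * avg ĝ = M`, so `c ∈ G i`; take `w ∈ W i` with `∑ (c j - w j) ^ 2 ≤ m s ^ 2`.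
   `Lw ω ĝ ≥ Lw ω g_w - √(m s ^ 2) T i ω ≥ -(ε/8) - √m s t ≥ -(ε/8) - ε/16`
   (`T i ω ≤ ∑ T < t`; `√m ≤ m + 1`; `(m+1) s t = ε / 16`). Multiply by `a i`.
 * If `a i > 0` and `g i x₁ > M a i` for some `x₁`: let `σ` be the maximum of `g i` (so `σ ≤ 1`, `a i ≤ σ / M`);
   `avg (g i ^ 2) ≤ σ a i ≤ σ ^ 2 / M ≤ 1 / M`, so by (A) `|Lw ω (g i)| ≤ √(1/M) T i ω = T i ω / √M`.
(5) Sum: `∑ i, Lw ω (g i) ≥ -(3 ε / 16) - t / √M ≥ -(3 ε / 16) - ε / 16` by `hRM` (`16 t ≤ ε √M`).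
By `hF`: `v ω = (mu + ε) * 1 + ∑ i, g i + e' ω` (where `e'` is the error, called `er`), so
`Lw ω (v ω) = mu + ε + ∑ i, Lw ω (g i) + Lw ω (er ω) ≥ ε - ε / 4 - ε / 16 > ε / 4`, contradicting `hL`.
-/

set_option autoImplicit false
set_option linter.unusedSectionVars false

open scoped Classical
open Finset

namespace Pool.Agent.Lib.MP_8d8c46_lc.EL

section
variable {U A Γ : Type} [Fintype U] [Fintype A] [Nonempty A] [Fintype Γ] [Nonempty Γ]
  {near : U → U → Prop} {k : ℕ} (P : PDist U A near k) (𝔞 : Act Γ A)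
  {K l i₀ D : ℕ} {s y M : ℝ}

private lemma cv5_Tabs {m : ℕ} (τ : Equiv.Perm U) (w : U → Γ) (e : Fin m → (U → A) → ℝ)
    (c : Fin m → ℝ) :
    |Lw P 𝔞 τ w (fun x => ∑ j, c j * e j x)| ≤
      √(∑ j, c j ^ 2) * √(∑ j, (Lw P 𝔞 τ w (e j)) ^ 2) := by
  have h1 : Lw P 𝔞 τ w (fun x => ∑ j, c j * e j x) = ∑ j, c j * Lw P 𝔞 τ w (e j) := by
    rw [Lw_sum]
    exact sum_congr rfl fun j _ => Lw_const_mul P 𝔞 τ w _ _
  rw [h1, ← Real.sqrt_mul (sum_nonneg fun j _ => sq_nonneg _), ← Real.sqrt_sq_eq_abs]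
  exact Real.sqrt_le_sqrt (Finset.sum_mul_sq_le_sq_mul_sq _ _ _)

private lemma cv5_Tsub {m : ℕ} (τ : Equiv.Perm U) (w : U → Γ) (e : Fin m → (U → A) → ℝ)
    (c d : Fin m → ℝ) :
    |Lw P 𝔞 τ w (fun x => ∑ j, c j * e j x) - Lw P 𝔞 τ w (fun x => ∑ j, d j * e j x)| ≤
      √(∑ j, (c j - d j) ^ 2) * √(∑ j, (Lw P 𝔞 τ w (e j)) ^ 2) := by
  have h0 := cv5_Tabs P 𝔞 τ w e (fun j => c j - d j)
  have h1 : ∀ a : Fin m → ℝ, Lw P 𝔞 τ w (fun x => ∑ j, a j * e j x) =
      ∑ j, a j * Lw P 𝔞 τ w (e j) := fun a => by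
    rw [Lw_sum]
    exact sum_congr rfl fun j _ => Lw_const_mul P 𝔞 τ w _ _
  rw [h1, h1, ← sum_sub_distrib]
  rw [h1] at h0
  simpa only [sub_mul] using h0

private lemma cv5_Tsum (h : Par U A Γ near k K l i₀ D s y M) {m : ℕ} (e : Fin m → (U → A) → ℝ)
    (he : ∀ j, avg (fun x => e j x ^ 2) ≤ 1) :
    ∑ ω : Equiv.Perm U × (U → Γ), √(∑ j, (Lw P 𝔞 ω.1 ω.2 (e j)) ^ 2) ≤
      2 * m * Fintype.card (Equiv.Perm U × (U → Γ)) := by
  set N : ℝ := (Fintype.card (Equiv.Perm U × (U → Γ)) : ℝ) with hN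
  have hN0 : 0 ≤ N := Nat.cast_nonneg _
  have hm0 : (0 : ℝ) ≤ m := Nat.cast_nonneg _
  have h1 : (∑ ω : Equiv.Perm U × (U → Γ), √(∑ j, (Lw P 𝔞 ω.1 ω.2 (e j)) ^ 2)) ^ 2 ≤
      N * ∑ ω : Equiv.Perm U × (U → Γ), (√(∑ j, (Lw P 𝔞 ω.1 ω.2 (e j)) ^ 2)) ^ 2 := by
    have := sq_sum_le_card_mul_sum_sq (s := (univ : Finset (Equiv.Perm U × (U → Γ))))
      (f := fun ω => √(∑ j, (Lw P 𝔞 ω.1 ω.2 (e j)) ^ 2))
    rw [card_univ] at this
    exact this
  have h2 : ∑ ω : Equiv.Perm U × (U → Γ), (√(∑ j, (Lw P 𝔞 ω.1 ω.2 (e j)) ^ 2)) ^ 2 ≤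
      m * (N * 4) := by
    calc ∑ ω : Equiv.Perm U × (U → Γ), (√(∑ j, (Lw P 𝔞 ω.1 ω.2 (e j)) ^ 2)) ^ 2
        = ∑ ω : Equiv.Perm U × (U → Γ), ∑ j, (Lw P 𝔞 ω.1 ω.2 (e j)) ^ 2 :=
          sum_congr rfl fun ω _ => Real.sq_sqrt (sum_nonneg fun j _ => sq_nonneg _)
      _ = ∑ j, ∑ ω : Equiv.Perm U × (U → Γ), (Lw P 𝔞 ω.1 ω.2 (e j)) ^ 2 := sum_comm
      _ ≤ ∑ _j : Fin m, N * 4 := by
          refine sum_le_sum fun j _ => ?_
          refine (l2_bound P 𝔞 h (e j)).trans ?_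
          have := he j
          exact mul_le_mul_of_nonneg_left (by linarith) hN0
      _ = m * (N * 4) := by
          rw [sum_const, card_univ, Fintype.card_fin, nsmul_eq_mul]
  have h3 : (m : ℝ) ≤ (m : ℝ) ^ 2 := by
    rcases Nat.eq_zero_or_pos m with h0 | h0
    · subst h0; simp
    · have : (1 : ℝ) ≤ m := by exact_mod_cast h0
      nlinarith
  have h4 : (∑ ω : Equiv.Perm U × (U → Γ), √(∑ j, (Lw P 𝔞 ω.1 ω.2 (e j)) ^ 2)) ^ 2 ≤
      (2 * m * N) ^ 2 := by
    calc _ ≤ N * (m * (N * 4)) := h1.trans (mul_le_mul_of_nonneg_left h2 hN0)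
      _ = 4 * N ^ 2 * m := by ring
      _ ≤ 4 * N ^ 2 * (m : ℝ) ^ 2 := mul_le_mul_of_nonneg_left h3 (by positivity)
      _ = _ := by ring
  exact le_of_sq_le_sq h4 (by positivity)

theorem contra2 (h : Par U A Γ near k K l i₀ D s y M) {R m B : ℕ} {ε : ℝ} (hε : 64 * y < ε)
    (E : Fin R → Submodule ℝ ((U → A) → ℝ)) (hE : ∀ i, Module.finrank ℝ (E i) ≤ m)
    (hB : 256 * ((m : ℝ) + 1) * ((R : ℝ) * m + 1) * √M < ε * B)
    (hR : 4 * ((R : ℝ) * (B : ℝ) ^ m) ≤ 2 ^ D)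
    (hRM : 128 * ((R : ℝ) * m + 1) ≤ ε * √M)
    (v : Rel U Γ → (U → A) → ℝ) (hv : ∀ ω x, v ω x ≤ 1)
    (g : Rel U Γ → Fin R → (U → A) → ℝ) (hgE : ∀ ω i, g ω i ∈ E i) (hg : ∀ ω i x, 0 ≤ g ω i x)
    (mu : Rel U Γ → ℝ) (hmu : ∀ ω, 0 ≤ mu ω) (er : Rel U Γ → (U → A) → ℝ)
    (hF : ∀ ω x, v ω x - ε = mu ω + ∑ i, g ω i x + er ω x)
    (he : ∀ ω x, -ε ≤ er ω x) (heL : ∀ ω, |Lw P 𝔞 ω.1 ω.2 (er ω)| ≤ ε / 16)
    (hL : ∀ ω, Lw P 𝔞 ω.1 ω.2 (v ω) ≤ ε / 4) : False := by
  have hε0 : 0 < ε := by have := h.hy0; linarith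
  have hM1 := h.hM1
  have hM0 : 0 < M := by linarith
  have hsM : 0 < √M := Real.sqrt_pos.2 hM0
  have hR0 : (0 : ℝ) ≤ R := Nat.cast_nonneg _
  have hm0 : (0 : ℝ) ≤ m := Nat.cast_nonneg _
  have hcard0 : (0 : ℝ) < Fintype.card (Rel U Γ) := by exact_mod_cast Fintype.card_pos
  set N : ℝ := (Fintype.card (Rel U Γ) : ℝ) with hN
  have hRm : (0 : ℝ) ≤ (R : ℝ) * m := mul_nonneg hR0 hm0
  obtain ⟨t, ht⟩ : ∃ t : ℝ, t = 8 * ((R : ℝ) * m + 1) := ⟨_, rfl⟩
  have ht0 : 0 < t := by rw [ht]; positivity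
  obtain ⟨sN, hsN⟩ : ∃ sN : ℝ, sN = ε / (16 * ((m : ℝ) + 1) * t) := ⟨_, rfl⟩
  have hsN0 : 0 < sN := by rw [hsN]; positivity
  have hsNt : ((m : ℝ) + 1) * sN * t = ε / 16 := by
    rw [hsN]
    field_simp
  -- (1) coordinates
  choose e he1 he2 using fun i => exists_coords (E i) (hE i)
  set T : Fin R → Rel U Γ → ℝ := fun i ω => √(∑ j, (Lw P 𝔞 ω.1 ω.2 (e i j)) ^ 2) with hT
  have hT0 : ∀ i ω, 0 ≤ T i ω := fun i ω => Real.sqrt_nonneg _
  -- (2) Markov
  have hTsum : ∑ ω, ∑ i, T i ω ≤ N * t / 4 := by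
    rw [sum_comm]
    calc ∑ i, ∑ ω, T i ω ≤ ∑ _i : Fin R, 2 * m * N :=
          sum_le_sum fun i _ => cv5_Tsum P 𝔞 h (e i) (he1 i)
      _ = R * (2 * m * N) := by rw [sum_const, card_univ, Fintype.card_fin, nsmul_eq_mul]
      _ = 2 * (R * m) * N := by ring
      _ ≤ 2 * (R * m + 1) * N := by
          refine mul_le_mul_of_nonneg_right (by linarith) hcard0.le
      _ = N * t / 4 := by rw [ht]; ring
  set B1 := univ.filter (fun ω : Rel U Γ => t ≤ ∑ i, T i ω) with hB1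
  have hB1c : (B1.card : ℝ) ≤ N / 4 := by
    refine (markov (fun ω => sum_nonneg fun i _ => hT0 i ω) ht0).trans ?_
    rw [div_le_iff₀ ht0]
    refine hTsum.trans (le_of_eq ?_)
    ring
  -- (3) nets
  set G : Fin R → Set (Fin m → ℝ) := fun i => {c | (∀ x, 0 ≤ ∑ j, c j * e i j x) ∧
    (∀ x, ∑ j, c j * e i j x ≤ M) ∧ avg (fun x => ∑ j, c j * e i j x) = 1 ∧
    ∑ j, c j ^ 2 ≤ (√M) ^ 2} with hG
  have hBB : 2 * √M / sN < B := by
    rw [div_lt_iff₀ hsN0, hsN, mul_div_assoc', lt_div_iff₀ (by positivity), ht]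
    calc 2 * √M * (16 * ((m : ℝ) + 1) * (8 * ((R : ℝ) * m + 1)))
        = 256 * ((m : ℝ) + 1) * ((R : ℝ) * m + 1) * √M := by ring
      _ < ε * B := hB
      _ = B * ε := mul_comm _ _
  choose W hW1 hW2 hW3 using fun i =>
    exists_net (G i) (Real.sqrt_nonneg M) hsN0 (fun c hc => hc.2.2.2) hBB
  have hbad : ∀ i, ∀ w ∈ W i, 2 ^ D * ((univ.filter (fun ω : Rel U Γ =>
      Lw P 𝔞 ω.1 ω.2 (fun x => ∑ j, w j * e i j x) < -(ε / 8))).card : ℝ) ≤ N := by
    intro i w hw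
    obtain ⟨g1, g2, g3, _⟩ := hW1 i w hw
    exact (tail_exp P 𝔞 h (g := fun x => ∑ j, w j * e i j x) g1 g3 g2 (by linarith)).le
  set B2 := univ.biUnion (fun i : Fin R => (W i).biUnion (fun w => univ.filter (fun ω : Rel U Γ =>
      Lw P 𝔞 ω.1 ω.2 (fun x => ∑ j, w j * e i j x) < -(ε / 8)))) with hB2
  have hB2c : (B2.card : ℝ) ≤ N / 4 := by
    have h1 : (B2.card : ℝ) ≤ ∑ i, ∑ w ∈ W i, ((univ.filter (fun ω : Rel U Γ =>
        Lw P 𝔞 ω.1 ω.2 (fun x => ∑ j, w j * e i j x) < -(ε / 8))).card : ℝ) := by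
      have h2 : B2.card ≤ ∑ i, ∑ w ∈ W i, (univ.filter (fun ω : Rel U Γ =>
          Lw P 𝔞 ω.1 ω.2 (fun x => ∑ j, w j * e i j x) < -(ε / 8))).card :=
        card_biUnion_le.trans (sum_le_sum fun i _ => card_biUnion_le)
      exact_mod_cast h2
    have h2 : 2 ^ D * (B2.card : ℝ) ≤ (R * (B : ℝ) ^ m) * N := by
      calc 2 ^ D * (B2.card : ℝ) ≤ 2 ^ D * ∑ i, ∑ w ∈ W i, ((univ.filter (fun ω : Rel U Γ =>
            Lw P 𝔞 ω.1 ω.2 (fun x => ∑ j, w j * e i j x) < -(ε / 8))).card : ℝ) :=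
            mul_le_mul_of_nonneg_left h1 (by positivity)
        _ = ∑ i, ∑ w ∈ W i, 2 ^ D * ((univ.filter (fun ω : Rel U Γ =>
            Lw P 𝔞 ω.1 ω.2 (fun x => ∑ j, w j * e i j x) < -(ε / 8))).card : ℝ) := by
            rw [mul_sum]
            exact sum_congr rfl fun i _ => mul_sum _ _ _
        _ ≤ ∑ i, ∑ _w ∈ W i, N := sum_le_sum fun i _ => sum_le_sum fun w hw => hbad i w hw
        _ = ∑ i, ((W i).card : ℝ) * N := by
            refine sum_congr rfl fun i _ => ?_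
            rw [sum_const, nsmul_eq_mul]
        _ ≤ ∑ _i : Fin R, (B : ℝ) ^ m * N := by
            refine sum_le_sum fun i _ => mul_le_mul_of_nonneg_right ?_ hcard0.le
            exact_mod_cast hW2 i
        _ = (R * (B : ℝ) ^ m) * N := by
            rw [sum_const, card_univ, Fintype.card_fin, nsmul_eq_mul]
            ring
    have h3 : ((R : ℝ) * (B : ℝ) ^ m) * N ≤ 2 ^ D * (N / 4) := by
      calc ((R : ℝ) * (B : ℝ) ^ m) * N = (4 * ((R : ℝ) * (B : ℝ) ^ m)) * (N / 4) := by ring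
        _ ≤ 2 ^ D * (N / 4) := mul_le_mul_of_nonneg_right hR (by positivity)
    exact le_of_mul_le_mul_left (h2.trans h3) (by positivity)
  -- (4) a good relabelling
  obtain ⟨ω, hω⟩ : ∃ ω : Rel U Γ, ω ∉ B1 ∪ B2 := by
    by_contra hcon
    push Not at hcon
    have h1 : (univ : Finset (Rel U Γ)).card ≤ (B1 ∪ B2).card := card_le_card (fun ω _ => hcon ω)
    have h2 := h1.trans (card_union_le _ _)
    have h3 : N ≤ B1.card + B2.card := by
      rw [hN, ← card_univ]; exact_mod_cast h2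
    linarith
  rw [mem_union, not_or] at hω
  obtain ⟨hω1, hω2⟩ := hω
  have hω1' : ∑ i, T i ω < t := by
    by_contra hcon
    exact hω1 (mem_filter.2 ⟨mem_univ _, not_lt.1 hcon⟩)
  have hω2' : ∀ i, ∀ w ∈ W i, -(ε / 8) ≤ Lw P 𝔞 ω.1 ω.2 (fun x => ∑ j, w j * e i j x) := by
    intro i w hw
    by_contra hcon
    exact hω2 (mem_biUnion.2 ⟨i, mem_univ _, mem_biUnion.2 ⟨w, hw,
      mem_filter.2 ⟨mem_univ _, not_le.1 hcon⟩⟩⟩)
  have hTt : ∀ i, T i ω ≤ t := fun i =>
    (single_le_sum (f := fun i => T i ω) (fun j _ => hT0 j ω) (mem_univ i)).trans hω1'.le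
  have hsum1 : ∀ x, ∑ i, g ω i x ≤ 1 := by
    intro x
    have h1 := hF ω x
    have h2 := hv ω x
    have h3 := hmu ω
    have h4 := he ω x
    linarith
  have hg1 : ∀ i x, g ω i x ≤ 1 := fun i x =>
    (single_le_sum (f := fun i => g ω i x) (fun j _ => hg ω j x) (mem_univ i)).trans (hsum1 x)
  set a : Fin R → ℝ := fun i => avg (g ω i) with ha
  have ha0 : ∀ i, 0 ≤ a i := fun i => avg_nonneg (hg ω i)
  have hsuma : ∑ i, a i ≤ 1 := by
    have h1 : avg (fun x => ∑ i, g ω i x) = ∑ i, a i := avg_sum _ _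
    rw [← h1]
    calc avg (fun x => ∑ i, g ω i x) ≤ avg (fun _ : U → A => (1 : ℝ)) := avg_mono hsum1
      _ = 1 := avg_const _
  have hterm : ∀ i, -(3 * ε / 16) * a i - T i ω / √M ≤ Lw P 𝔞 ω.1 ω.2 (g ω i) := by
    intro i
    have hTM : 0 ≤ T i ω / √M := div_nonneg (hT0 i ω) hsM.le
    rcases (ha0 i).eq_or_lt with hai | hai
    · -- zero function
      have hzq : g ω i = fun _ => 0 := by
        have h1 : ∑ x, g ω i x = 0 := by
          rw [← card_mul_avg]
          have : avg (g ω i) = 0 := hai.symm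
          rw [this, mul_zero]
        funext x
        exact (sum_eq_zero_iff_of_nonneg (fun x _ => hg ω i x)).1 h1 x (mem_univ x)
      have h5 : Lw P 𝔞 ω.1 ω.2 (g ω i) = 0 := by
        have h6 : g ω i = fun x => (0 : ℝ) * g ω i x := by rw [hzq]; funext x; ring
        rw [h6, Lw_const_mul, zero_mul]
      rw [h5, ← hai, mul_zero]
      linarith
    · by_cases hx : ∀ x, g ω i x ≤ M * a i
      · -- small norm
        obtain ⟨c, hc1, hc2⟩ := he2 i ((a i)⁻¹ • g ω i) (Submodule.smul_mem _ _ (hgE ω i))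
        have hcf : (fun x => ∑ j, c j * e i j x) = fun x => (a i)⁻¹ * g ω i x := by
          funext x
          rw [← hc1 x]
          rfl
        have hav : avg (fun x => (a i)⁻¹ * g ω i x) = 1 := by
          rw [avg_const_mul]
          exact inv_mul_cancel₀ hai.ne'
        have hleM : ∀ x, (a i)⁻¹ * g ω i x ≤ M := fun x => by
          rw [inv_mul_le_iff₀ hai, mul_comm]
          exact hx x
        have hge0 : ∀ x, 0 ≤ (a i)⁻¹ * g ω i x := fun x =>
          mul_nonneg (inv_pos.2 hai).le (hg ω i x)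
        have hcG : c ∈ G i := by
          refine ⟨fun x => ?_, fun x => ?_, ?_, ?_⟩
          · rw [congrFun hcf x]; exact hge0 x
          · rw [congrFun hcf x]; exact hleM x
          · rw [hcf]; exact hav
          · rw [hc2, Real.sq_sqrt hM0.le]
            calc avg (fun x => ((a i)⁻¹ • g ω i) x ^ 2)
                ≤ avg (fun x => M * ((a i)⁻¹ * g ω i x)) := by
                  refine avg_mono fun x => ?_
                  change ((a i)⁻¹ * g ω i x) ^ 2 ≤ _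
                  rw [pow_two]
                  exact mul_le_mul_of_nonneg_right (hleM x) (hge0 x)
              _ = M := by rw [avg_const_mul, hav, mul_one]
        obtain ⟨w, hw, hcw⟩ := hW3 i c hcG
        have h1 := hω2' i w hw
        have h2 := cv5_Tsub P 𝔞 ω.1 ω.2 (e i) c w
        have h3 : √(∑ j, (c j - w j) ^ 2) ≤ ((m : ℝ) + 1) * sN := by
          rw [Real.sqrt_le_left (by positivity)]
          refine hcw.trans ?_
          nlinarith [mul_nonneg hm0 (sq_nonneg sN), mul_nonneg (mul_nonneg hm0 hm0) (sq_nonneg sN),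
            sq_nonneg sN]
        have h4 : √(∑ j, (c j - w j) ^ 2) * T i ω ≤ ε / 16 := by
          calc √(∑ j, (c j - w j) ^ 2) * T i ω ≤ (((m : ℝ) + 1) * sN) * t :=
                mul_le_mul h3 (hTt i) (hT0 i ω) (by positivity)
            _ = ε / 16 := hsNt
        have h5 : |Lw P 𝔞 ω.1 ω.2 (fun x => ∑ j, c j * e i j x) -
            Lw P 𝔞 ω.1 ω.2 (fun x => ∑ j, w j * e i j x)| ≤ ε / 16 := h2.trans h4
        have h6 := (abs_le.1 h5).1
        have h7 : -(3 * ε / 16) ≤ Lw P 𝔞 ω.1 ω.2 (fun x => ∑ j, c j * e i j x) := by linarith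
        rw [hcf, Lw_const_mul] at h7
        have h8 := mul_le_mul_of_nonneg_left h7 hai.le
        have h9 : a i * ((a i)⁻¹ * Lw P 𝔞 ω.1 ω.2 (fun x => g ω i x)) =
            Lw P 𝔞 ω.1 ω.2 (g ω i) := by
          rw [← mul_assoc, mul_inv_cancel₀ hai.ne', one_mul]
        rw [h9] at h8
        linarith
      · -- large norm
        push Not at hx
        obtain ⟨x₁, hx₁⟩ := hx
        obtain ⟨c, hc1, hc2⟩ := he2 i (g ω i) (hgE ω i)
        have hcf : (fun x => ∑ j, c j * e i j x) = g ω i := by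
          funext x
          rw [hc1 x]
        have h1 := cv5_Tabs P 𝔞 ω.1 ω.2 (e i) c
        rw [hcf] at h1
        have h2 : ∑ j, c j ^ 2 ≤ M⁻¹ := by
          rw [hc2]
          have h3 : avg (fun x => g ω i x ^ 2) ≤ a i := by
            refine avg_mono fun x => ?_
            have h4 := hg ω i x
            have h5 := hg1 i x
            nlinarith
          have h6 := hg1 i x₁
          refine h3.trans ?_
          rw [le_inv_comm₀ hai hM0, ← one_div, le_div_iff₀ hai]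
          linarith
        have h3 : √(∑ j, c j ^ 2) ≤ (√M)⁻¹ := by
          rw [← Real.sqrt_inv]
          exact Real.sqrt_le_sqrt h2
        have h4 : |Lw P 𝔞 ω.1 ω.2 (g ω i)| ≤ T i ω / √M := by
          refine h1.trans ?_
          rw [div_eq_inv_mul]
          exact mul_le_mul_of_nonneg_right h3 (hT0 i ω)
        have h5 := (abs_le.1 h4).1
        have h6 : 0 ≤ (3 * ε / 16) * a i := mul_nonneg (by linarith) hai.le
        linarith
  -- (5) summation
  have htM : t / √M ≤ ε / 16 := by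
    rw [div_le_iff₀ hsM, ht]
    linarith
  have htot : -(ε / 4) ≤ ∑ i, Lw P 𝔞 ω.1 ω.2 (g ω i) := by
    calc -(ε / 4) ≤ -(3 * ε / 16) * ∑ i, a i - (∑ i, T i ω) / √M := by
          have h2 : (3 * ε / 16) * ∑ i, a i ≤ (3 * ε / 16) * 1 :=
            mul_le_mul_of_nonneg_left hsuma (by linarith)
          have h3 : (∑ i, T i ω) / √M ≤ t / √M := div_le_div_of_nonneg_right hω1'.le hsM.le
          linarith
      _ = ∑ i, (-(3 * ε / 16) * a i - T i ω / √M) := by
          rw [sum_sub_distrib, ← mul_sum, sum_div]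
      _ ≤ _ := sum_le_sum (fun i _ => hterm i)
  have hev : Lw P 𝔞 ω.1 ω.2 (v ω) = (mu ω + ε) + ∑ i, Lw P 𝔞 ω.1 ω.2 (g ω i) +
      Lw P 𝔞 ω.1 ω.2 (er ω) := by
    have h1 : v ω = fun x => (mu ω + ε) * 1 + (∑ i, g ω i x + er ω x) := by
      funext x
      have := hF ω x
      linarith
    rw [h1, Lw_add, Lw_const_mul P 𝔞 ω.1 ω.2 (mu ω + ε) (fun _ => 1), Lw_one, mul_one]
    rw [Lw_add P 𝔞 ω.1 ω.2 (fun x => ∑ i, g ω i x) (er ω), Lw_sum]
    exact (add_assoc _ _ _).symm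
  have h1 := hL ω
  have h2 := hmu ω
  have h3 := (abs_le.1 (heL ω)).1
  rw [hev] at h1
  linarith

end

end Pool.Agent.Lib.MP_8d8c46_lc.EL
end

section

/-!
A linear programming relaxation of subexponential size contradicts the relabelled
pseudo-distributions.
-/

set_option autoImplicit false
set_option linter.unusedSectionVars false

open scoped Classical
open Finset

namespace Pool.Agent.Lib.MP_8d8c46_lc.EL

open SA

lemma expansion_le_one {V : Type} [Fintype V] {G : SimpleGraph V} {d : ℕ} (hr : Regular G d)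
    (S : Finset V) : ((expansion G d S : ℚ) : ℝ) ≤ 1 := by
  have h1 := inside_add_cut hr S
  have h2 : cut G S ≤ d * S.card := by omega
  unfold expansion
  push_cast
  refine div_le_one_of_le₀ ?_ (by positivity)
  exact_mod_cast h2

variable {U : Type} [Fintype U] {q : ℕ} [NeZero q] {p : ℕ}
  {K : U × ZMod q → U × ZMod q → ℝ} {near : U → U → Prop} {k : ℕ}

/-- The contradiction for linear programming relaxations. -/
theorem relax_contra (hp : p ≤ q) (hK : KOK K near k) (hk : 2 ≤ k)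
    {G : SimpleGraph (U × ZMod q)} {d : ℕ} (hd : Regular G d) {η δ : ℚ} (hno : SSENo η δ G)
    (hδ : (δ : ℚ) = p / q) {K' l i₀ D : ℕ} {s y M ε : ℝ}
    (hpar : Par U (Sb (ZMod q) p) (Equiv.Perm (ZMod q)) near k K' l i₀ D s y M)
    (hε : 64 * y < ε)
    (hps : pseudoExpansion G d (p * Fintype.card U) (XX K p) ≤ ε / 4)
    {V : Type} [Fintype V] (hV : Fintype.card V = Fintype.card (U × ZMod q))
    (P : LPRelaxation V δ d) (hP : P.Separates ε η) (h1 : 4 * (P.size : ℝ) ≤ 2 ^ D)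
    (h2 : 32 * (P.size : ℝ) ≤ ε * √M) : False := by
  have hne : Nonempty (Sb (ZMod q) p) := nonempty_sb (by rw [ZMod.card]; exact hp)
  obtain ⟨e₀⟩ : Nonempty (U × ZMod q ≃ V) := Fintype.card_eq.1 hV.symm
  set e : Rel U (Equiv.Perm (ZMod q)) → (U × ZMod q ≃ V) := fun ω => (psi ω.1 ω.2).trans e₀ with he
  set Gω : Rel U (Equiv.Perm (ZMod q)) → SimpleGraph V := fun ω => G.comap (e ω).symm with hGω
  set T : (U → Sb (ZMod q) p) → Finset V := fun x => (SS x).map e₀.toEmbedding with hT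
  have hTe : ∀ (ω : Rel U (Equiv.Perm (ZMod q))) (x : U → Sb (ZMod q) p),
      T x = (SS (ax (pAct (ZMod q) p) ω.2 (x ∘ ω.1))).map (e ω).toEmbedding := by
    intro ω x
    rw [hT]
    simp only
    rw [← SS_psi ω.1 ω.2 x, map_map]
    rfl
  have hq : (q : ℚ) ≠ 0 := by exact_mod_cast NeZero.ne q
  have hcard : ∀ x, ((T x).card : ℚ) = δ * Fintype.card V := by
    intro x
    rw [hT, hV, Fintype.card_prod, ZMod.card, hδ]
    simp only
    rw [card_map, card_SS]
    push_cast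
    field_simp
  have hGr : ∀ ω, Regular (Gω ω) d := fun ω => regular_comap (e ω) hd
  have hGn : ∀ ω, SSENo η δ (Gω ω) := fun ω => no_comap (e ω) hno
  obtain ⟨x₀⟩ : Nonempty (U → Sb (ZMod q) p) := inferInstance
  have hfark : ∀ ω, ∃ (l : Fin P.size → ℝ) (mu : ℝ), (∀ i, 0 ≤ l i) ∧ 0 ≤ mu ∧
      ∀ y : Fin P.vars → ℝ, ∑ a, P.obj (Gω ω) a * y a - (ε - P.const (Gω ω)) =
        mu + ∑ i, l i * (P.b i - ∑ a, P.A i a * y a) := by
    intro ω
    refine farkas_aff P.A P.b (P.obj (Gω ω)) (ε - P.const (Gω ω))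
      ⟨P.point (T x₀), P.feasible _ (hcard x₀)⟩ (fun y hy => ?_)
    have := hP (Gω ω) (hGr ω) (hGn ω) y hy
    linarith
  choose l' mu hl hmu hF using hfark
  have hkey : ∀ ω x, ((expansion (Gω ω) d (T x) : ℚ) : ℝ) - ε =
      mu ω + ∑ i, l' ω i * (P.b i - ∑ a, P.A i a * P.point (T x) a) := by
    intro ω x
    have h3 := P.exact (Gω ω) (hGr ω) (T x) (hcard x)
    have h4 := hF ω (P.point (T x))
    rw [← h4, ← h3]
    ring
  refine contra (gPD hp hK) (pAct (ZMod q) p) hpar hε h1 h2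
    (fun i x => P.b i - ∑ a, P.A i a * P.point (T x) a)
    (fun i x => sub_nonneg.2 (P.feasible _ (hcard x) i))
    (fun ω x => ((expansion (Gω ω) d (T x) : ℚ) : ℝ))
    (fun ω x => expansion_le_one (hGr ω) _) l' hl mu hmu hkey (fun ω => ?_)
  have h5 : (fun x => ((expansion (Gω ω) d (T x) : ℚ) : ℝ)) = fun x =>
      (fun x' : U → Sb (ZMod q) p => ((expansion G d (SS x') : ℚ) : ℝ))
        (ax (pAct (ZMod q) p) ω.2 (x ∘ ω.1)) := by
    funext x
    rw [hTe ω x]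
    simp only [hGω]
    rw [expansion_comap]
  rw [h5, Lw_comp (gPD hp hK) (pAct (ZMod q) p) ω.1 ω.2
    (fun x' : U → Sb (ZMod q) p => ((expansion G d (SS x') : ℚ) : ℝ)),
    func_expansion G hp hK hk]
  exact hps

end Pool.Agent.Lib.MP_8d8c46_lc.EL
end

section

/-!
A convex programming relaxation of subexponential size with constraints of small dimension
contradicts the relabelled pseudo-distributions.
-/

set_option autoImplicit false
set_option linter.unusedSectionVars false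

open scoped Classical
open Finset

namespace Pool.Agent.Lib.MP_8d8c46_lc.EL

open SA

section
variable {U A Γ : Type} [Fintype U] [Fintype A] [Nonempty A] [Fintype Γ] [Nonempty Γ]
  {near : U → U → Prop} {k : ℕ} (P : PDist U A near k) (𝔞 : Act Γ A)

/-- The functional is bounded in terms of the supremum norm. -/
lemma Lw_sup_le (ω : Rel U Γ) {g : (U → A) → ℝ} {τ : ℝ} (hg : ∀ x, |g x| ≤ τ) :
    |Lw P 𝔞 ω.1 ω.2 g| ≤
      (∑ x₀ : U → A, |Lw P 𝔞 ω.1 ω.2 (fun x => if x = x₀ then 1 else 0)|) * τ := by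
  have h1 : g = fun x => ∑ x₀ ∈ (univ : Finset (U → A)), g x₀ * (if x = x₀ then (1 : ℝ) else 0) := by
    funext x
    simp
  have h2 : Lw P 𝔞 ω.1 ω.2 g = ∑ x₀ : U → A,
      g x₀ * Lw P 𝔞 ω.1 ω.2 (fun x => if x = x₀ then 1 else 0) := by
    conv_lhs => rw [h1]
    rw [Lw_sum]
    exact sum_congr rfl (fun x₀ _ => Lw_const_mul P 𝔞 ω.1 ω.2 _ _)
  rw [h2, sum_mul]
  refine (abs_sum_le_sum_abs _ _).trans (sum_le_sum (fun x₀ _ => ?_))
  rw [abs_mul, mul_comm]
  exact mul_le_mul_of_nonneg_left (hg x₀) (abs_nonneg _)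

/-- A bound for all relabellings. -/
lemma exists_Lw_sup : ∃ F₀ : ℝ, 0 ≤ F₀ ∧ ∀ (ω : Rel U Γ) (g : (U → A) → ℝ) (τ : ℝ), 0 ≤ τ →
    (∀ x, |g x| ≤ τ) → |Lw P 𝔞 ω.1 ω.2 g| ≤ F₀ * τ := by
  refine ⟨∑ ω : Rel U Γ, ∑ x₀ : U → A, |Lw P 𝔞 ω.1 ω.2 (fun x => if x = x₀ then 1 else 0)|,
    sum_nonneg (fun _ _ => sum_nonneg (fun _ _ => abs_nonneg _)), fun ω g τ hτ hg => ?_⟩
  refine (Lw_sup_le P 𝔞 ω hg).trans (mul_le_mul_of_nonneg_right ?_ hτ)
  exact single_le_sum (f := fun ω : Rel U Γ => ∑ x₀ : U → A,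
    |Lw P 𝔞 ω.1 ω.2 (fun x => if x = x₀ then 1 else 0)|)
    (fun _ _ => sum_nonneg (fun _ _ => abs_nonneg _)) (mem_univ ω)

end

variable {U : Type} [Fintype U] {q : ℕ} [NeZero q] {p : ℕ}
  {K : U × ZMod q → U × ZMod q → ℝ} {near : U → U → Prop} {k : ℕ}

/-- The contradiction for convex programming relaxations. -/
theorem relax_contra2 (hp : p ≤ q) (hK : KOK K near k) (hk : 2 ≤ k)
    {G : SimpleGraph (U × ZMod q)} {d : ℕ} (hd : Regular G d) {η δ : ℚ} (hno : SSENo η δ G)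
    (hδ : (δ : ℚ) = p / q) {K' l i₀ D : ℕ} {s y M ε : ℝ}
    (hpar : Par U (Sb (ZMod q) p) (Equiv.Perm (ZMod q)) near k K' l i₀ D s y M)
    (hε : 64 * y < ε)
    (hps : pseudoExpansion G d (p * Fintype.card U) (XX K p) ≤ ε / 4)
    {V : Type} [Fintype V] (hV : Fintype.card V = Fintype.card (U × ZMod q))
    (P : ConvexRelaxation V δ d) (hP : P.Separates ε η) {m B : ℕ} (hm : P.dim + 1 ≤ m)
    (hB : 256 * ((m : ℝ) + 1) * ((P.size : ℝ) * m + 1) * √M < ε * B)
    (hR : 4 * ((P.size : ℝ) * (B : ℝ) ^ m) ≤ 2 ^ D)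
    (hRM : 128 * ((P.size : ℝ) * m + 1) ≤ ε * √M) : False := by
  have hε0 : 0 < ε := by have := hpar.hy0; linarith
  have hne : Nonempty (Sb (ZMod q) p) := nonempty_sb (by rw [ZMod.card]; exact hp)
  obtain ⟨e₀⟩ : Nonempty (U × ZMod q ≃ V) := Fintype.card_eq.1 hV.symm
  set e : Rel U (Equiv.Perm (ZMod q)) → (U × ZMod q ≃ V) := fun ω => (psi ω.1 ω.2).trans e₀ with he
  set Gω : Rel U (Equiv.Perm (ZMod q)) → SimpleGraph V := fun ω => G.comap (e ω).symm with hGω
  set T : (U → Sb (ZMod q) p) → Finset V := fun x => (SS x).map e₀.toEmbedding with hT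
  have hTe : ∀ (ω : Rel U (Equiv.Perm (ZMod q))) (x : U → Sb (ZMod q) p),
      T x = (SS (ax (pAct (ZMod q) p) ω.2 (x ∘ ω.1))).map (e ω).toEmbedding := by
    intro ω x
    rw [hT]
    simp only
    rw [← SS_psi ω.1 ω.2 x, map_map]
    rfl
  have hq : (q : ℚ) ≠ 0 := by exact_mod_cast NeZero.ne q
  have hcard : ∀ x, ((T x).card : ℚ) = δ * Fintype.card V := by
    intro x
    rw [hT, hV, Fintype.card_prod, ZMod.card, hδ]
    simp only
    rw [card_map, card_SS]
    push_cast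
    field_simp
  have hGr : ∀ ω, Regular (Gω ω) d := fun ω => regular_comap (e ω) hd
  have hGn : ∀ ω, SSENo η δ (Gω ω) := fun ω => no_comap (e ω) hno
  -- the linear maps
  obtain ⟨AL, hAL⟩ : ∃ AL : Fin P.size → (Fin P.vars → ℝ) →ₗ[ℝ] (Fin P.dim → ℝ),
      ∀ i y, AL i y = fun j => ∑ t, P.A i j t * y t := by
    refine ⟨fun i => Matrix.mulVecLin (Matrix.of (P.A i)), fun i y => ?_⟩
    funext j
    simp [Matrix.mulVec, dotProduct]
  obtain ⟨OL, hOL⟩ : ∃ OL : SimpleGraph V → (Fin P.vars → ℝ) →ₗ[ℝ] ℝ,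
      ∀ G y, OL G y = ∑ t, P.obj G t * y t := by
    refine ⟨fun G => ∑ t, P.obj G t • LinearMap.proj t, fun G y => ?_⟩
    simp
  have hfeas : ∀ S : Finset V, (S.card : ℚ) = δ * Fintype.card V → ∀ i, AL i (P.point S) ∈ P.K i := by
    intro S hS i
    rw [hAL]
    exact P.feasible S hS i
  -- the spaces
  set b : Fin P.size → Option (Fin P.dim) → (U → Sb (ZMod q) p) → ℝ := fun i o =>
    o.elim (fun _ => 1) (fun j => fun x => AL i (P.point (T x)) j) with hb
  set E : Fin P.size → Submodule ℝ ((U → Sb (ZMod q) p) → ℝ) := fun i =>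
    Submodule.span ℝ (Set.range (b i)) with hE
  have hEm : ∀ i, Module.finrank ℝ (E i) ≤ m := by
    intro i
    refine le_trans ?_ hm
    have h1 := finrank_range_le_card (R := ℝ) (b i)
    rw [Fintype.card_option, Fintype.card_fin] at h1
    exact h1
  -- the accuracy
  obtain ⟨F₀, hF₀0, hF₀⟩ := exists_Lw_sup (gPD hp hK) (pAct (ZMod q) p)
  set τ : ℝ := min ε (ε / (16 * (F₀ + 1))) with hτ
  have hτ0 : 0 < τ := lt_min hε0 (by positivity)
  have hτ1 : τ ≤ ε := min_le_left _ _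
  have hτ2 : F₀ * τ ≤ ε / 16 := by
    have h1 : τ ≤ ε / (16 * (F₀ + 1)) := min_le_right _ _
    rw [le_div_iff₀ (by positivity)] at h1
    nlinarith
  have hdual : ∀ ω, ∃ (lam : Fin P.size → Fin P.dim → ℝ) (κ : Fin P.size → ℝ) (mu : ℝ), 0 ≤ mu ∧
      (∀ i, ∀ z ∈ P.K i, ∑ j, lam i j * z j ≤ κ i) ∧
      ∀ x : U → Sb (ZMod q) p, |OL (Gω ω) (P.point (T x)) + (P.const (Gω ω) - ε) -
        (mu + ∑ i, (κ i - ∑ j, lam i j * AL i (P.point (T x)) j))| ≤ τ := by
    intro ω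
    refine approx_dual AL P.K P.convex P.closed (fun x => P.point (T x))
      (fun x i => hfeas _ (hcard x) i) (OL (Gω ω)) (P.const (Gω ω) - ε) (fun y hy => ?_) hτ0
    have := hP (Gω ω) (hGr ω) (hGn ω) y (fun i => by rw [← hAL]; exact hy i)
    rw [hOL]
    linarith
  choose lam κ mu hmu hκ hap using hdual
  set g : Rel U (Equiv.Perm (ZMod q)) → Fin P.size → (U → Sb (ZMod q) p) → ℝ := fun ω i x =>
    κ ω i - ∑ j, lam ω i j * AL i (P.point (T x)) j with hg
  set v : Rel U (Equiv.Perm (ZMod q)) → (U → Sb (ZMod q) p) → ℝ := fun ω x =>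
    ((expansion (Gω ω) d (T x) : ℚ) : ℝ) with hv
  set er : Rel U (Equiv.Perm (ZMod q)) → (U → Sb (ZMod q) p) → ℝ := fun ω x =>
    v ω x - ε - (mu ω + ∑ i, g ω i x) with her
  have herb : ∀ ω x, |er ω x| ≤ τ := by
    intro ω x
    have h3 := P.exact (Gω ω) (hGr ω) (T x) (hcard x)
    have h4 := hap ω x
    have h5 : er ω x = OL (Gω ω) (P.point (T x)) + (P.const (Gω ω) - ε) -
        (mu ω + ∑ i, (κ ω i - ∑ j, lam ω i j * AL i (P.point (T x)) j)) := by
      rw [her, hv, hg]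
      simp only
      rw [← h3, hOL]
      ring
    rw [h5]
    exact h4
  refine contra2 (gPD hp hK) (pAct (ZMod q) p) hpar hε E hEm hB hR hRM v
    (fun ω x => expansion_le_one (hGr ω) _) g (fun ω i => ?_) (fun ω i x => ?_) mu hmu er
    (fun ω x => ?_) (fun ω x => ?_) (fun ω => ?_) (fun ω => ?_)
  · have h6 : g ω i = κ ω i • b i none - ∑ j, lam ω i j • b i (some j) := by
      funext x
      rw [hg, hb]
      simp [Finset.sum_apply]
    rw [h6]
    refine Submodule.sub_mem _ (Submodule.smul_mem _ _ (Submodule.subset_span ⟨none, rfl⟩))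
      (Submodule.sum_mem _ (fun j _ => Submodule.smul_mem _ _ (Submodule.subset_span ⟨some j, rfl⟩)))
  · exact sub_nonneg.2 (hκ ω i _ (hfeas _ (hcard x) i))
  · rw [her]
    simp only
    ring
  · have h7 := (abs_le.1 (herb ω x)).1
    linarith
  · exact (hF₀ ω (er ω) τ hτ0.le (herb ω)).trans hτ2
  · have h5 : v ω = fun x =>
        (fun x' : U → Sb (ZMod q) p => ((expansion G d (SS x') : ℚ) : ℝ))
          (ax (pAct (ZMod q) p) ω.2 (x ∘ ω.1)) := by
      funext x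
      rw [hv]
      simp only
      rw [hTe ω x]
      simp only [hGω]
      rw [expansion_comap]
    rw [h5, Lw_comp (gPD hp hK) (pAct (ZMod q) p) ω.1 ω.2
      (fun x' : U → Sb (ZMod q) p => ((expansion G d (SS x') : ℚ) : ℝ)),
      func_expansion G hp hK hk]
    exact hps

end Pool.Agent.Lib.MP_8d8c46_lc.EL
end

section

/-!
Linear programming relaxations of subexponential size do not solve small-set expansion.
-/

set_option autoImplicit false

open scoped Classical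
open Finset

namespace Pool.Agent.Lib.MP_8d8c46_lc.EL

open SA

lemma dg_mono {V : Type} [Fintype V] {G G' : SimpleGraph V} (h : G' ≤ G) (v : V) :
    dg G' v ≤ dg G v := by
  unfold dg
  refine card_le_card (fun u hu => ?_)
  rw [mem_filter] at hu ⊢
  exact ⟨mem_univ _, h hu.2⟩

lemma cut_eq_zero {V : Type} [Fintype V] {G : SimpleGraph V} {S : Finset V}
    (h : ∀ u v, u ∈ S → v ∉ S → ¬ G.Adj u v) : cut G S = 0 := by
  unfold cut
  refine card_eq_zero.2 (eq_empty_of_forall_notMem ?_)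
  rintro ⟨y, y'⟩ hz
  rw [mem_filter] at hz
  exact h _ _ hz.2.1 hz.2.2.1 hz.2.2.2

/-- A Yes instance: the lift with trivial shifts. -/
lemma yes_lift {U : Type} [Fintype U] {q : ℕ} [NeZero q] {p : ℕ} (hp : p ≤ q) (hp1 : 1 ≤ p)
    {B : SimpleGraph U} {d : ℕ} (hd : ∀ v, dg B v = d) (hd1 : 1 ≤ d) (hU : 0 < Fintype.card U)
    {δ : ℚ} (hδ : δ = p / q) (h0 : ∀ _x _y : U, (0 : ZMod q) = -0) :
    SSEYes 0 δ (SA.lift B (fun _ _ => (0 : ZMod q)) h0) := by
  obtain ⟨s₀⟩ : Nonempty (Sb (ZMod q) p) := nonempty_sb (by rw [ZMod.card]; exact hp)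
  have hq : (q : ℚ) ≠ 0 := by exact_mod_cast NeZero.ne q
  have hcard : ((SS (fun _ : U => s₀)).card : ℚ) = δ * Fintype.card (U × ZMod q) := by
    rw [card_SS, Fintype.card_prod, ZMod.card, hδ]
    push_cast
    field_simp
  refine ⟨d, ⟨hd1, ?_, p * Fintype.card U, Nat.mul_pos hp1 hU, ?_⟩, SS (fun _ => s₀), hcard, ?_⟩
  · intro v
    have := dg_lift (B := B) (sh := fun _ _ => (0 : ZMod q)) (hsh := h0) v
    rw [hd] at this
    exact this
  · rw [← hcard, card_SS]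
  · have hcut : cut (SA.lift B (fun _ _ => (0 : ZMod q)) h0) (SS (fun _ : U => s₀)) = 0 := by
      refine cut_eq_zero (fun y y' h1 h2 h3 => ?_)
      rw [mem_SS] at h1 h2
      have h4 : y'.2 = y.2 + 0 := h3.2
      rw [add_zero] at h4
      rw [h4] at h2
      exact h2 h1
    unfold expansion
    rw [hcut]
    simp

/-- Linear programming relaxations of subexponential size do not solve small-set expansion. -/
theorem main_lp {p q : ℕ} (hp : 1 ≤ p) (hpq : p ≤ q) {η δ : ℚ} (hδ : δ = p / q) (hη : δ < η) :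
    ∃ d₀ : ℕ, ∀ d ≥ d₀, ∀ ε : ℝ, 0 < ε → ∃ c : ℝ, 0 < c ∧ ∃ N₀ : ℕ, ∀ N ≥ N₀,
      ∀ (V : Type) [Fintype V], Fintype.card V = 2 * d * q * N →
        (∃ G : SimpleGraph V, Regular G d ∧ SSEYes 0 δ G) ∧
        (∃ G : SimpleGraph V, Regular G d ∧ SSENo η δ G) ∧
        ∀ P : LPRelaxation V δ d, P.Separates ε η →
          (2 : ℝ) ^ ((Fintype.card V : ℝ) ^ c) < P.size := by
  have hq : 0 < q := by omega
  have : NeZero q := ⟨hq.ne'⟩
  have hq' : (0 : ℝ) < q := by exact_mod_cast hq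
  have hp' : (0 : ℝ) < p := by exact_mod_cast hp
  have hηR : (p : ℝ) / q < (η : ℝ) := by
    have : ((δ : ℚ) : ℝ) < (η : ℝ) := by exact_mod_cast hη
    rw [hδ] at this
    push_cast at this
    exact this
  obtain ⟨κ, hκ⟩ : ∃ κ : ℝ, κ = ((p : ℝ) / q * (η - p / q)) ^ 2 / 68 := ⟨_, rfl⟩
  have hκ0 : 0 < κ := by
    rw [hκ]
    have : 0 < (η : ℝ) - p / q := by linarith
    positivity
  obtain ⟨d₁, hd₁⟩ := exists_nat_ge ((2 * q + 1) / κ)
  refine ⟨max d₁ 1, fun d hd ε hε => ?_⟩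
  have hd1 : 1 ≤ d := (le_max_right _ _).trans hd
  have hdκ : 2 * q + 1 ≤ d * κ := by
    rw [div_le_iff₀ hκ0] at hd₁
    refine hd₁.trans (mul_le_mul_of_nonneg_right ?_ hκ0.le)
    exact_mod_cast (le_max_left _ _).trans hd
  obtain ⟨r, τ, hr0, hr1, hτ, hrτ⟩ := exists_rho hq (by linarith : 0 < ε / 4)
  obtain ⟨ρ, hρ⟩ : ∃ ρ : ℝ, ρ = r ^ 4 := ⟨_, rfl⟩
  have hρ0 : 0 ≤ ρ := by rw [hρ]; positivity
  have hρ1 : ρ < 1 := by rw [hρ]; exact pow_lt_one₀ hr0.le hr1 (by norm_num)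
  rw [← hρ] at hrτ
  obtain ⟨E, hE⟩ : ∃ E : ℕ, E = 2 * (4 * d + 1) ^ 2 := ⟨_, rfl⟩
  have hE2 : 50 ≤ E := by
    rw [hE]
    have h1 : 5 ≤ 4 * d + 1 := by omega
    have h2 := Nat.pow_le_pow_left h1 2
    omega
  -- the alphabet and the group
  have hne : Nonempty (Sb (ZMod q) p) := nonempty_sb (by rw [ZMod.card]; exact hpq)
  obtain ⟨A, hA⟩ : ∃ A : ℝ, A = Fintype.card (Sb (ZMod q) p) := ⟨_, rfl⟩
  obtain ⟨Γ, hΓ⟩ : ∃ Γ : ℝ, Γ = Fintype.card (Equiv.Perm (ZMod q)) := ⟨_, rfl⟩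
  have hA1 : 1 ≤ A := by rw [hA]; exact_mod_cast Fintype.card_pos
  have hΓ1 : 1 ≤ Γ := by rw [hΓ]; exact_mod_cast Fintype.card_pos
  obtain ⟨y, hy⟩ : ∃ y : ℝ, y = min (1 / 6) (ε / 128) := ⟨_, rfl⟩
  have hy0 : 0 < y := by rw [hy]; exact lt_min (by norm_num) (by positivity)
  have hy6 : 6 * y ≤ 1 := by
    have : y ≤ 1 / 6 := by rw [hy]; exact min_le_left _ _
    linarith
  have hyε : 64 * y < ε := by
    have : y ≤ ε / 128 := by rw [hy]; exact min_le_right _ _
    linarith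
  obtain ⟨m, hm1, hm2, hm3⟩ := exists_m (A := A) (Γ := Γ) hρ0 hρ1
  obtain ⟨a₀, ha₀⟩ := Filter.eventually_atTop.1 ((Filter.eventually_ge_atTop 1).and
    ((p_rounds (d := d) hq hρ0 hρ1 hm2).and ((p_main hA1 hΓ1 hy0 hm3).and
    ((p_fin (m := m) (C := ((2 * d * E : ℕ) : ℝ)) (by
      have : 1 ≤ 2 * d * E := Nat.mul_pos (by omega) (by omega)
      exact_mod_cast this) hΓ1 hy0 hy6).and
    ((p_del (q := q) hm1 (by linarith : 0 < ε / 4 / 2)).and (p_eps hε))))))
  -- the exponent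
  obtain ⟨b, hb⟩ : ∃ b : ℝ, b = ((2 * d * q * E : ℕ) : ℝ) := ⟨_, rfl⟩
  have hb1 : 1 < b := by
    rw [hb]
    have : 1 < 2 * d * q * E := by
      have h1 : 1 ≤ 2 * d * q := Nat.mul_pos (by omega) hq
      calc 1 < E := by omega
        _ = 1 * E := (one_mul E).symm
        _ ≤ 2 * d * q * E := Nat.mul_le_mul_right _ h1
    exact_mod_cast this
  have hlogb : 0 < Real.log b := Real.log_pos hb1
  have hm0 : (0 : ℝ) < m := by exact_mod_cast hm1
  obtain ⟨c, hc⟩ : ∃ c : ℝ, c = Real.log 2 / (2 * m * Real.log b) := ⟨_, rfl⟩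
  have hlog2 : 0 < Real.log 2 := Real.log_pos (by norm_num)
  have hc0 : 0 < c := by rw [hc]; positivity
  refine ⟨c, hc0, E ^ (m * (a₀ + 1)), fun N hN V _ hV => ?_⟩
  -- the girth parameter
  obtain ⟨L, hL⟩ : ∃ L : ℕ, L = Nat.log E N := ⟨_, rfl⟩
  obtain ⟨a, ha⟩ : ∃ a : ℕ, a = L / m := ⟨_, rfl⟩
  have hN0 : 0 < N := lt_of_lt_of_le (by positivity) hN
  have hLa : m * (a₀ + 1) ≤ L := by
    rw [hL]
    exact Nat.le_log_of_pow_le (by omega) hN
  have haa : a₀ ≤ a := by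
    rw [ha, Nat.le_div_iff_mul_le (by omega)]
    calc a₀ * m ≤ m * (a₀ + 1) := by
          rw [mul_comm]; exact Nat.mul_le_mul_left _ (Nat.le_succ _)
      _ ≤ L := hLa
  have hL1 : m * a ≤ L := by rw [ha]; exact Nat.mul_div_le L m
  have hL2 : L < m * (a + 1) := by
    rw [ha, mul_comm]
    exact Nat.lt_mul_of_div_lt (Nat.lt_succ_self _) (by omega)
  obtain ⟨ha1, hround, hmain, hfin, hdel, heps⟩ := ha₀ a haa
  have hround := hround L hL1 hL2
  have hmain := hmain L hL1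
  have hfin := hfin L hL2
  have hdel := hdel L hL1
  have hLpos : 1 ≤ L := by
    calc 1 = 1 * 1 := rfl
      _ ≤ m * a := Nat.mul_le_mul hm1 ha1
      _ ≤ L := hL1
  have hEL : E ^ L ≤ N := by
    rw [hL]
    exact Nat.pow_log_le_self E (by omega)
  have hEL1 : N ≤ E ^ (L + 1) := by
    rw [hL]
    exact (Nat.lt_pow_succ_log_self (by omega) N).le
  have hMN : 2 * (2 * L) ≤ N := by
    refine le_trans ?_ hEL
    have h1 : L < 2 ^ L := Nat.lt_two_pow_self
    have h2 : 4 ≤ 4 ^ L := by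
      calc 4 = 4 ^ 1 := by norm_num
        _ ≤ 4 ^ L := Nat.pow_le_pow_right (by norm_num) hLpos
    have h3 : (4 * 2) ^ L ≤ E ^ L := Nat.pow_le_pow_left (by omega) _
    rw [mul_pow] at h3
    calc 2 * (2 * L) = 4 * L := by ring
      _ ≤ 4 ^ L * 2 ^ L := Nat.mul_le_mul h2 h1.le
      _ ≤ E ^ L := h3
  obtain ⟨ω, hω1, hω2⟩ := exists_good (d := d) (N := N) (q := q) (p := p) (M := 2 * L)
    (by omega) hMN hd1 hηR hκ hdκ
  have hcardB : Fintype.card (BV d N) = 2 * d * N := by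
    rw [Fintype.card_prod, Fintype.card_prod, Fintype.card_bool, Fintype.card_fin,
      Fintype.card_fin]
    ring
  have hcard : Fintype.card (BV d N × ZMod q) = 2 * d * q * N := by
    rw [Fintype.card_prod, hcardB, ZMod.card]
    ring
  have hcardB0 : 0 < Fintype.card (BV d N) := by rw [hcardB]; positivity
  have hreg : Regular (SA.lift (Bg ω) (shf ω) (shf_symm ω)) d := by
    intro v
    have := dg_lift (B := Bg ω) (sh := shf ω) (hsh := shf_symm ω) v
    rw [dg_Bg] at this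
    exact this
  have hqQ : (q : ℚ) ≠ 0 := by exact_mod_cast hq.ne'
  have hsizeQ : δ * (Fintype.card (BV d N × ZMod q) : ℚ) = ((2 * d * N * p : ℕ) : ℚ) := by
    rw [hδ, hcard]
    push_cast
    field_simp
  have hno : SSENo η δ (SA.lift (Bg ω) (shf ω) (shf_symm ω)) := by
    refine ⟨d, ⟨hd1, hreg, 2 * d * N * p, by positivity, hsizeQ.symm⟩, fun S hS => ?_⟩
    have hS' : S.card = 2 * d * N * p := by
      rw [hsizeQ] at hS
      exact_mod_cast hS
    rw [le_expansion_iff hreg hd1 (by rw [hS']; positivity)]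
    have h3 := hω1 S hS'
    have h4 : ((inside (SA.lift (Bg ω) (shf ω) (shf_symm ω)) S : ℚ) : ℝ) ≤
        ((η * (d * S.card) : ℚ) : ℝ) := by
      push_cast
      exact h3
    exact_mod_cast h4
  have hVc : Fintype.card V = Fintype.card (BV d N × ZMod q) := by rw [hV, hcard]
  obtain ⟨e₀⟩ : Nonempty (BV d N × ZMod q ≃ V) := Fintype.card_eq.1 hVc.symm
  have h00 : ∀ x y : BV d N, (0 : ZMod q) = -0 := fun _ _ => neg_zero.symm
  have hyes := yes_lift hpq hp (dg_Bg ω) hd1 hcardB0 hδ h00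
  refine ⟨⟨(SA.lift (Bg ω) (fun _ _ => (0 : ZMod q)) h00).comap e₀.symm,
    regular_comap e₀ (fun v => ?_), yes_comap e₀ hyes⟩,
    ⟨(SA.lift (Bg ω) (shf ω) (shf_symm ω)).comap e₀.symm, regular_comap e₀ hreg,
      no_comap e₀ hno⟩, fun P hP => ?_⟩
  · have := dg_lift (B := Bg ω) (sh := fun _ _ => (0 : ZMod q)) (hsh := h00) v
    rw [dg_Bg] at this
    exact this
  by_contra hcon
  rw [not_lt] at hcon
  -- the pseudo-expectation
  have hNB := NB_Bs ω (2 * L)
  have hds : ∀ v, dg (Bs ω (2 * L)) v ≤ d := by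
    intro v
    exact (dg_mono (Bs_le ω _) v).trans (dg_Bg ω v).le
  have h8a : 8 ≤ 8 ^ a := by
    calc 8 = 8 ^ 1 := by norm_num
      _ ≤ 8 ^ a := Nat.pow_le_pow_right (by norm_num) ha1
  have hk2 : 2 ≤ 8 ^ a := by omega
  have hK := kok (hsh := shf_symm ω) (k := 8 ^ a) hLpos hNB hds hρ0 hρ1 hround
  have hdele := deleted (q := q) (d := d) (E := E) (L := L) (N := N) hd1 hLpos hE hEL hω2 hdel
  have hps := pseudo_le (B := Bg ω) (B' := Bs ω (2 * L)) (hsh := shf_symm ω) (Bs_le ω _) hLpos hNB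
    (dg_Bg ω) hk2 hpq hp hd1 hρ0 hρ1 hτ hround hcardB0
  have hps' := hps.trans (show _ ≤ ε / 4 by rw [hcardB]; linarith)
  -- the parameters
  have hUR : (0 : ℝ) < Fintype.card (BV d N) := by exact_mod_cast hcardB0
  have hnN : N ≤ Fintype.card (BV d N) := by
    rw [hcardB]; exact Nat.le_mul_of_pos_left _ (by positivity)
  have hs1 : ((2 : ℝ) * (1 + d)) ^ L ≤ √(Fintype.card (BV d N)) := by
    apply Real.le_sqrt_of_sq_le
    have h1 : ((2 * (1 + d)) ^ 2) ^ L ≤ E ^ L := by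
      refine Nat.pow_le_pow_left ?_ _
      rw [hE]
      calc (2 * (1 + d)) ^ 2 ≤ (4 * d + 1) ^ 2 := Nat.pow_le_pow_left (by omega) 2
        _ ≤ 2 * (4 * d + 1) ^ 2 := by omega
    have h2 : ((2 * (1 + d)) ^ L) ^ 2 ≤ Fintype.card (BV d N) := by
      rw [← pow_mul, mul_comm L 2, pow_mul]
      exact h1.trans (hEL.trans hnN)
    exact_mod_cast h2
  have h2d : (1 : ℝ) ≤ (2 * (1 + d)) ^ L := by
    refine one_le_pow₀ ?_
    have : (0 : ℝ) ≤ d := Nat.cast_nonneg _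
    linarith
  have hs0 : 0 < √(Fintype.card (BV d N) : ℝ) := Real.sqrt_pos.2 hUR
  have h3D : 2 ^ a + 2 ≤ 8 ^ a := by
    have h1 : 8 ^ a = 2 ^ a * 4 ^ a := by rw [← mul_pow]; norm_num
    have h4 : 4 ≤ 4 ^ a := by
      calc 4 = 4 ^ 1 := by norm_num
        _ ≤ 4 ^ a := Nat.pow_le_pow_right (by norm_num) ha1
    have h5 : (1 : ℕ) ≤ 2 ^ a := Nat.one_le_two_pow
    rw [h1]
    calc 2 ^ a + 2 ≤ 2 ^ a * 4 := by omega
      _ ≤ 2 ^ a * 4 ^ a := Nat.mul_le_mul_left _ h4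
  have hpar : Par (BV d N) (Sb (ZMod q) p) (Equiv.Perm (ZMod q))
      (fun u v => (Bs ω (2 * L)).edist u v ≤ L) (8 ^ a) ((1 + d) ^ L) (8 ^ a) (a + 2)
      (2 ^ a + 2) (√(Fintype.card (BV d N))) y (2 ^ (2 ^ (a + 2))) := by
    refine ⟨Nat.one_le_pow _ _ (by omega), ?_, fun u => by convert card_ball hds u L, ?_, ?_, le_refl _, h3D, ?_, ?_,
      hy0, hy6, ?_, ?_, le_refl _, ?_⟩
    · intro u v h
      rw [SimpleGraph.edist_comm]; exact h
    · exact h2d.trans hs1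
    · exact Real.sq_sqrt hUR.le
    · have h1 : (8 : ℕ) ^ a * 4 ≤ 50 ^ a := by
        have h2 : (50 : ℕ) ^ a ≥ (8 * 6) ^ a := Nat.pow_le_pow_left (by norm_num) _
        have h3 : 4 ≤ 6 ^ a := by
          calc 4 ≤ 6 ^ 1 := by norm_num
            _ ≤ 6 ^ a := Nat.pow_le_pow_right (by norm_num) ha1
        rw [mul_pow] at h2
        exact (Nat.mul_le_mul_left _ h3).trans h2
      have h4 : (50 : ℕ) ^ a ≤ N := by
        calc (50 : ℕ) ^ a ≤ 50 ^ L := by
              refine Nat.pow_le_pow_right (by norm_num) (le_trans ?_ hL1)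
              exact Nat.le_mul_of_pos_left _ (by omega)
          _ ≤ E ^ L := Nat.pow_le_pow_left hE2 _
          _ ≤ N := hEL
      omega
    · rw [pow_add]
      have h5 : (1 : ℕ) ≤ 2 ^ a := Nat.one_le_two_pow
      omega
    · rw [← hA, ← hΓ]
      refine le_trans ?_ hmain
      have h1 : ((8 ^ a : ℕ) : ℝ) * (((1 + d) ^ L : ℕ) : ℝ) * √(Fintype.card (BV d N)) *
          (4 / Fintype.card (BV d N)) ≤ 8 ^ a * 4 * (1 / 2) ^ L := by
        have h2 : √(Fintype.card (BV d N) : ℝ) / Fintype.card (BV d N) =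
            1 / √(Fintype.card (BV d N)) := by
          rw [div_eq_div_iff hUR.ne' hs0.ne', one_mul, Real.mul_self_sqrt hUR.le]
        have h3 : ((1 : ℝ) + d) ^ L * (1 / √(Fintype.card (BV d N))) ≤ (1 / 2) ^ L := by
          rw [mul_one_div, div_le_iff₀ hs0]
          calc ((1 : ℝ) + d) ^ L = (1 / 2) ^ L * (2 * (1 + d)) ^ L := by
                rw [← mul_pow]; congr 1; ring
            _ ≤ (1 / 2) ^ L * √(Fintype.card (BV d N)) :=
                mul_le_mul_of_nonneg_left hs1 (by positivity)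
        push_cast
        calc (8 : ℝ) ^ a * (1 + d) ^ L * √(Fintype.card (BV d N)) *
              (4 / Fintype.card (BV d N))
            = 8 ^ a * 4 * ((1 + d) ^ L *
              (√(Fintype.card (BV d N)) / Fintype.card (BV d N))) := by ring
          _ = 8 ^ a * 4 * ((1 + d) ^ L * (1 / √(Fintype.card (BV d N)))) := by rw [h2]
          _ ≤ _ := mul_le_mul_of_nonneg_left h3 (by positivity)
      have hA0 : 0 ≤ A := by linarith
      have hΓ0 : 0 ≤ Γ := by linarith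
      gcongr
    · exact one_le_pow₀ (by norm_num)
    · refine (le_of_eq ?_).trans (hfin (Fintype.card (BV d N)) hUR.le ?_)
      · rw [hΓ]
      · rw [hcardB]
        have h1 : 2 * d * N ≤ (2 * d * E) ^ (L + 1) := by
          rw [mul_pow]
          refine Nat.mul_le_mul ?_ hEL1
          calc 2 * d = (2 * d) ^ 1 := (pow_one _).symm
            _ ≤ (2 * d) ^ (L + 1) := Nat.pow_le_pow_right (by omega) (by omega)
        exact_mod_cast h1
  -- the size
  have hVb : (Fintype.card V : ℝ) ^ c ≤ 2 ^ a := by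
    have h1 : (Fintype.card V : ℝ) ≤ b ^ (2 * m * a) := by
      have h2 : Fintype.card V ≤ (2 * d * q * E) ^ (2 * m * a) := by
        rw [hV]
        calc 2 * d * q * N ≤ 2 * d * q * E ^ (L + 1) := Nat.mul_le_mul_left _ hEL1
          _ ≤ (2 * d * q) ^ (L + 1) * E ^ (L + 1) := by
              refine Nat.mul_le_mul_right _ ?_
              calc 2 * d * q = (2 * d * q) ^ 1 := (pow_one _).symm
                _ ≤ (2 * d * q) ^ (L + 1) :=
                  Nat.pow_le_pow_right (Nat.mul_pos (by omega) hq) (by omega)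
          _ = (2 * d * q * E) ^ (L + 1) := (mul_pow _ _ _).symm
          _ ≤ (2 * d * q * E) ^ (2 * m * a) := by
              refine Nat.pow_le_pow_right ?_ ?_
              · exact Nat.mul_pos (Nat.mul_pos (by omega) hq) (by omega)
              · have h5 : m * 1 ≤ m * a := Nat.mul_le_mul_left _ ha1
                calc L + 1 ≤ m * (a + 1) := hL2
                  _ = m * a + m * 1 := by ring
                  _ ≤ m * a + m * a := Nat.add_le_add_left h5 _
                  _ = 2 * m * a := by ring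
      rw [hb]
      exact_mod_cast h2
    calc (Fintype.card V : ℝ) ^ c ≤ (b ^ (2 * m * a)) ^ c :=
          Real.rpow_le_rpow (Nat.cast_nonneg _) h1 hc0.le
      _ = 2 ^ a := by
          rw [← Real.rpow_natCast, ← Real.rpow_mul (by linarith),
            Real.rpow_def_of_pos (by linarith)]
          have h3 : Real.log b * (((2 * m * a : ℕ) : ℝ) * c) = Real.log 2 * a := by
            rw [hc]
            push_cast
            field_simp
          rw [h3, ← Real.rpow_def_of_pos (by norm_num), Real.rpow_natCast]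
  have hsize : (P.size : ℝ) ≤ 2 ^ (2 ^ a) := by
    refine hcon.trans ?_
    calc (2 : ℝ) ^ ((Fintype.card V : ℝ) ^ c) ≤ (2 : ℝ) ^ ((2 : ℝ) ^ a) :=
          Real.rpow_le_rpow_of_exponent_le (by norm_num) hVb
      _ = 2 ^ (2 ^ a) := by
          rw [← Real.rpow_natCast 2 (2 ^ a)]
          push_cast
          rfl
  have hM : √((2 : ℝ) ^ (2 ^ (a + 2))) = 2 ^ (2 ^ a) * 2 ^ (2 ^ a) := by
    have h1 : (2 : ℝ) ^ (2 ^ (a + 2)) = (2 ^ (2 ^ a) * 2 ^ (2 ^ a)) ^ 2 := by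
      rw [← pow_add, ← pow_mul]
      congr 1
      ring
    rw [h1, Real.sqrt_sq (by positivity)]
  refine relax_contra hpq hK hk2 hreg hno hδ hpar hyε hps' hVc P hP ?_ ?_
  · rw [pow_add]
    linarith
  · rw [hM]
    calc 32 * (P.size : ℝ) ≤ (ε * 2 ^ (2 ^ a)) * 2 ^ (2 ^ a) := by
          refine mul_le_mul heps hsize (Nat.cast_nonneg _) (by positivity)
      _ = _ := by ring

end Pool.Agent.Lib.MP_8d8c46_lc.EL
end
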